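import Mathlib

namespace Pool.Agent.Helper910

/-- binomial probabilities -/
noncomputable def bp (β : ℝ) (M b : ℕ) : ℝ := (M.choose b : ℝ) * β ^ b * (1 - β) ^ (M - b)

/-
Two-sided local bounds for the binomial distribution, with non-explicit constants.
-/

theorem bp_nonneg {β : ℝ} (h0 : 0 < β) (h1 : β < 1) (M b : ℕ) : 0 ≤ bp β M b := by
  unfold bp
  have : 0 < 1 - β := by linarith
  positivity

theorem bp_sum (β : ℝ) (M : ℕ) : ∑ b ∈ Finset.range (M + 1), bp β M b = 1 := by
  have h := add_pow β (1 - β) M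
  rw [add_sub_cancel, one_pow] at h
  rw [h]
  refine Finset.sum_congr rfl fun b _ => ?_
  unfold bp
  ring

theorem bp_sub {β : ℝ} {M b : ℕ} (hb : b ≤ M) : bp (1 - β) M (M - b) = bp β M b := by
  unfold bp
  rw [Nat.choose_symm hb, Nat.sub_sub_self hb, sub_sub_cancel]
  ring

theorem bp_succ (β : ℝ) {M i : ℕ} (hi : i < M) :
    bp β M (i + 1) * (((i : ℝ) + 1) * (1 - β)) = bp β M i * (((M : ℝ) - i) * β) := by
  unfold bp
  have h1 : (M.choose (i + 1) : ℝ) * ((i : ℝ) + 1) = (M.choose i : ℝ) * ((M : ℝ) - i) := by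
    have := Nat.choose_succ_right_eq M i
    have h2 : ((M.choose (i + 1) * (i + 1) : ℕ) : ℝ) = ((M.choose i * (M - i) : ℕ) : ℝ) := by
      rw [this]
    push_cast [Nat.cast_sub hi.le] at h2
    exact h2
  have h3 : M - i = (M - (i + 1)) + 1 := by omega
  rw [h3, pow_succ, pow_succ]
  linear_combination (β ^ i * β * (1 - β) ^ (M - (i + 1)) * (1 - β)) * h1

theorem bp_var (β : ℝ) (M : ℕ) :
    ∑ b ∈ Finset.range (M + 1), ((M : ℝ) * β - b) ^ 2 * bp β M b = M * β * (1 - β) := by
  have h := bernsteinPolynomial.variance ℝ M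
  have h2 := congrArg (Polynomial.eval β) h
  rw [Polynomial.eval_finsetSum] at h2
  simp only [bernsteinPolynomial, Polynomial.eval_mul, Polynomial.eval_pow, Polynomial.eval_sub,
    Polynomial.eval_one, Polynomial.eval_X, Polynomial.eval_natCast, nsmul_eq_mul] at h2
  rw [← h2]
  refine Finset.sum_congr rfl fun b _ => ?_
  unfold bp
  ring

theorem exp_le_one_sub {x : ℝ} (h0 : 0 ≤ x) (h1 : x ≤ 1 / 2) : Real.exp (-(2 * x)) ≤ 1 - x := by
  rw [Real.exp_neg]
  have h2 := Real.add_one_le_exp (2 * x)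
  have h3 : 0 < Real.exp (2 * x) := Real.exp_pos _
  rw [inv_le_iff_one_le_mul₀ h3]
  nlinarith

/-- one step of the comparison -/
theorem bp_step {β : ℝ} (h0 : 0 < β) (h1 : β < 1) {K : ℝ} (hK : 0 ≤ K) {M i : ℕ} (hi : i < M)
    (hs : 2 * (K / (β * (1 - β))) ≤ Real.sqrt M)
    (hb : (M : ℝ) * β - K * Real.sqrt M ≤ i) :
    (1 - K / (β * (1 - β)) / Real.sqrt M) * bp β M (i + 1) ≤ bp β M i := by
  set s := Real.sqrt M with hsd
  have hM0 : (0 : ℝ) < M := by
    have : 0 < M := by omega
    exact_mod_cast this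
  have hs0 : 0 < s := Real.sqrt_pos.2 hM0
  have hs2 : s * s = M := Real.mul_self_sqrt hM0.le
  have hb1 : 0 < 1 - β := by linarith
  have hbb : 0 < β * (1 - β) := mul_pos h0 hb1
  set C := K / (β * (1 - β)) with hC
  have hCK : C * (β * (1 - β)) = K := div_mul_cancel₀ K hbb.ne'
  have hC0 : 0 ≤ C := div_nonneg hK hbb.le
  have hx : C / s ≤ 1 / 2 := by
    rw [div_le_iff₀ hs0]
    linarith
  have hiM : (i : ℝ) < M := by exact_mod_cast hi
  have hpos : 0 < ((M : ℝ) - i) * β := mul_pos (by linarith) h0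
  have hrec := bp_succ β hi
  have hp := bp_nonneg h0 h1 M (i + 1)
  -- the main inequality
  have hmain : (1 - C / s) * (((M : ℝ) - i) * β) ≤ ((i : ℝ) + 1) * (1 - β) := by
    have e1 : (1 - C / s) * (((M : ℝ) - i) * β) ≤ (1 - C / s) * ((M * (1 - β) + K * s) * β) := by
      apply mul_le_mul_of_nonneg_left _ (by linarith)
      apply mul_le_mul_of_nonneg_right _ h0.le
      linarith
    have e2 : (M * β - K * s) * (1 - β) ≤ ((i : ℝ) + 1) * (1 - β) := by
      apply mul_le_mul_of_nonneg_right _ hb1.le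
      linarith
    refine e1.trans (le_trans ?_ e2)
    have e3 : C / s * M = C * s := by
      rw [← hs2]
      field_simp
    have e4 : C / s * (K * s) = C * K := by
      field_simp
    have e5 : (1 - C / s) * ((M * (1 - β) + K * s) * β) =
        M * (1 - β) * β + K * s * β - (C / s * M) * ((1 - β) * β) - (C / s * (K * s)) * β := by ring
    rw [e5, e3, e4]
    have e6 : C * s * ((1 - β) * β) = K * s := by
      calc C * s * ((1 - β) * β) = (C * (β * (1 - β))) * s := by ring
        _ = K * s := by rw [hCK]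
    rw [e6]
    have e7 : 0 ≤ C * K * β := by positivity
    linarith
  have h5 : (1 - C / s) * bp β M (i + 1) * (((M : ℝ) - i) * β) ≤ bp β M i * (((M : ℝ) - i) * β) := by
    rw [← hrec]
    calc (1 - C / s) * bp β M (i + 1) * (((M : ℝ) - i) * β)
        = bp β M (i + 1) * ((1 - C / s) * (((M : ℝ) - i) * β)) := by ring
      _ ≤ _ := mul_le_mul_of_nonneg_left hmain hp
  exact le_of_mul_le_mul_right h5 hpos

theorem bp_core {β : ℝ} (h0 : 0 < β) (h1 : β < 1) {K L : ℝ} (hK : 0 ≤ K) {M b j : ℕ}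
    (hj : b + j ≤ M) (hM : 1 ≤ M)
    (hs : 2 * (K / (β * (1 - β))) ≤ Real.sqrt M)
    (hb : (M : ℝ) * β - K * Real.sqrt M ≤ b) (hL : (j : ℝ) ≤ L * Real.sqrt M) :
    Real.exp (-(2 * (K / (β * (1 - β))) * L)) * bp β M (b + j) ≤ bp β M b := by
  set s := Real.sqrt M with hsd
  have hM0 : (0 : ℝ) < M := by exact_mod_cast hM
  have hs0 : 0 < s := Real.sqrt_pos.2 hM0
  have hb1 : 0 < 1 - β := by linarith
  have hbb : 0 < β * (1 - β) := mul_pos h0 hb1
  set C := K / (β * (1 - β)) with hC
  have hC0 : 0 ≤ C := div_nonneg hK hbb.le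
  have hx : C / s ≤ 1 / 2 := by
    rw [div_le_iff₀ hs0]
    linarith
  have hx0 : 0 ≤ C / s := by positivity
  have key : ∀ j : ℕ, b + j ≤ M → (1 - C / s) ^ j * bp β M (b + j) ≤ bp β M b := by
    intro j
    induction j with
    | zero => intro _; simp
    | succ j ih =>
      intro hj
      have h3 := bp_step h0 h1 hK (i := b + j) (by omega) hs (by
        rw [← hsd]
        push_cast
        have : (0 : ℝ) ≤ j := Nat.cast_nonneg j
        linarith)
      have h4 := ih (by omega)
      calc (1 - C / s) ^ (j + 1) * bp β M (b + (j + 1))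
          = (1 - C / s) ^ j * ((1 - C / s) * bp β M (b + j + 1)) := by
            rw [pow_succ, ← add_assoc]; ring
        _ ≤ (1 - C / s) ^ j * bp β M (b + j) :=
            mul_le_mul_of_nonneg_left h3 (pow_nonneg (by linarith) _)
        _ ≤ _ := h4
  refine le_trans ?_ (key j hj)
  apply mul_le_mul_of_nonneg_right _ (bp_nonneg h0 h1 _ _)
  have h3 : Real.exp (-(2 * (C / s))) ^ j ≤ (1 - C / s) ^ j :=
    pow_le_pow_left₀ (Real.exp_pos _).le (exp_le_one_sub hx0 hx) j
  refine le_trans ?_ h3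
  rw [← Real.exp_nat_mul, Real.exp_le_exp]
  have h4 : (j : ℝ) * (C / s) ≤ C * L := by
    calc (j : ℝ) * (C / s) ≤ (L * s) * (C / s) := mul_le_mul_of_nonneg_right hL hx0
      _ = C * L := by field_simp
  nlinarith

theorem bp_upper_aux {β : ℝ} (h0 : 0 < β) (h1 : β < 1) {M b : ℕ} (hM : 1 ≤ M) (hb : b ≤ M)
    (hs : 2 * (1 / (β * (1 - β))) ≤ Real.sqrt M) (hbM : (M : ℝ) * β ≤ b) :
    bp β M b ≤ Real.exp (2 * (1 / (β * (1 - β))) * 1) / Real.sqrt M := by
  set s := Real.sqrt M with hsd
  have hM0 : (0 : ℝ) < M := by exact_mod_cast hM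
  have hs0 : 0 < s := Real.sqrt_pos.2 hM0
  have hs2 : s * s = M := Real.mul_self_sqrt hM0.le
  have hb1 : 0 < 1 - β := by linarith
  have hbb : 0 < β * (1 - β) := mul_pos h0 hb1
  set J := ⌊s⌋₊ with hJ
  have hJs : (J : ℝ) ≤ s := Nat.floor_le hs0.le
  have hJs' : s < (J : ℝ) + 1 := Nat.lt_floor_add_one s
  have hsb : s ≤ b := by
    refine le_trans ?_ hbM
    have e1 : 1 ≤ s * β := by
      have e2 : 1 / (β * (1 - β)) ≤ s := by
        have : 0 ≤ 1 / (β * (1 - β)) := by positivity
        linarith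
      rw [div_le_iff₀ hbb] at e2
      have e3 : s * (β * (1 - β)) ≤ s * β := by
        apply mul_le_mul_of_nonneg_left _ hs0.le
        nlinarith
      linarith
    calc s = s * 1 := by ring
      _ ≤ s * (s * β) := mul_le_mul_of_nonneg_left e1 hs0.le
      _ = M * β := by rw [← hs2]; ring
  have hJb : J ≤ b := by
    have : (J : ℝ) ≤ b := hJs.trans hsb
    exact_mod_cast this
  set E := Real.exp (-(2 * (1 / (β * (1 - β))) * 1)) with hE
  have hE0 : 0 < E := Real.exp_pos _
  have hterm : ∀ i ∈ Finset.Icc (b - J) b, E * bp β M b ≤ bp β M i := by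
    intro i hi
    rw [Finset.mem_Icc] at hi
    have h3 := bp_core h0 h1 (K := 1) (L := 1) zero_le_one (M := M) (b := i) (j := b - i)
      (by omega) hM (by rw [← hsd]; exact hs) (by
        rw [← hsd]
        have h4 : (b : ℝ) - J ≤ i := by
          have : b ≤ i + J := by omega
          have h5 : (b : ℝ) ≤ i + J := by exact_mod_cast this
          linarith
        linarith) (by
        rw [← hsd, Nat.cast_sub hi.2, one_mul]
        have : b ≤ i + J := by omega
        have h5 : (b : ℝ) ≤ i + J := by exact_mod_cast this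
        linarith)
    have h6 : i + (b - i) = b := by omega
    rw [h6] at h3
    exact h3
  have hsub : Finset.Icc (b - J) b ⊆ Finset.range (M + 1) := by
    intro i hi
    rw [Finset.mem_Icc] at hi
    rw [Finset.mem_range]
    omega
  have hsum : ((J : ℝ) + 1) * (E * bp β M b) ≤ 1 := by
    have h7 : ∑ i ∈ Finset.Icc (b - J) b, E * bp β M b ≤ ∑ i ∈ Finset.Icc (b - J) b, bp β M i :=
      Finset.sum_le_sum hterm
    have h8 : ∑ i ∈ Finset.Icc (b - J) b, bp β M i ≤ ∑ i ∈ Finset.range (M + 1), bp β M i :=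
      Finset.sum_le_sum_of_subset_of_nonneg hsub fun i _ _ => bp_nonneg h0 h1 _ _
    rw [bp_sum] at h8
    rw [Finset.sum_const, Nat.card_Icc, nsmul_eq_mul] at h7
    have h9 : ((b + 1 - (b - J) : ℕ) : ℝ) = (J : ℝ) + 1 := by
      have : b + 1 - (b - J) = J + 1 := by omega
      rw [this]
      push_cast
      ring
    rw [h9] at h7
    linarith
  have hEinv : Real.exp (2 * (1 / (β * (1 - β))) * 1) * E = 1 := by
    rw [hE, ← Real.exp_add, add_neg_cancel, Real.exp_zero]
  have hp := bp_nonneg h0 h1 M b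
  rw [le_div_iff₀ hs0]
  have h10 : s * (E * bp β M b) ≤ 1 := by
    refine le_trans ?_ hsum
    apply mul_le_mul_of_nonneg_right hJs'.le
    positivity
  calc bp β M b * s = (Real.exp (2 * (1 / (β * (1 - β))) * 1) * E) * (bp β M b * s) := by
        rw [hEinv, one_mul]
    _ = Real.exp (2 * (1 / (β * (1 - β))) * 1) * (s * (E * bp β M b)) := by ring
    _ ≤ Real.exp (2 * (1 / (β * (1 - β))) * 1) * 1 :=
        mul_le_mul_of_nonneg_left h10 (Real.exp_pos _).le
    _ = _ := by ring

theorem bp_upper (β : ℝ) (h0 : 0 < β) (h1 : β < 1) :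
    ∃ C : ℝ, 0 < C ∧ ∀ M b : ℕ, 1 ≤ M → bp β M b ≤ C / Real.sqrt M := by
  have hb1 : 0 < 1 - β := by linarith
  have hbb : 0 < β * (1 - β) := mul_pos h0 hb1
  set D := 2 * (1 / (β * (1 - β))) with hD
  have hD0 : 0 < D := by positivity
  refine ⟨Real.exp (D * 1) + D, by positivity, fun M b hM => ?_⟩
  have hM0 : (0 : ℝ) < M := by exact_mod_cast hM
  have hs0 : 0 < Real.sqrt M := Real.sqrt_pos.2 hM0
  rcases lt_or_ge M b with hbM | hbM
  · have : bp β M b = 0 := by
      unfold bp
      rw [Nat.choose_eq_zero_of_lt hbM]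
      simp
    rw [this]
    positivity
  rcases le_or_gt D (Real.sqrt M) with hs | hs
  · have h3 : bp β M b ≤ Real.exp (D * 1) / Real.sqrt M := by
      rcases le_total ((M : ℝ) * β) b with h | h
      · exact bp_upper_aux h0 h1 hM hbM hs h
      · have h4 := bp_upper_aux (β := 1 - β) hb1 (by linarith) (M := M) (b := M - b) hM
          (Nat.sub_le _ _) (by rw [sub_sub_cancel, mul_comm (1 - β)]; exact hs) (by
            rw [Nat.cast_sub hbM]
            linarith)
        rw [bp_sub hbM, sub_sub_cancel, mul_comm (1 - β)] at h4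
        exact h4
    refine h3.trans ?_
    apply div_le_div_of_nonneg_right _ hs0.le
    linarith
  · have h3 : bp β M b ≤ 1 := by
      rw [← bp_sum β M]
      exact Finset.single_le_sum (f := fun b => bp β M b) (fun i _ => bp_nonneg h0 h1 _ _)
        (Finset.mem_range.2 (by omega))
    refine h3.trans ?_
    rw [le_div_iff₀ hs0, one_mul]
    have := Real.exp_pos (D * 1)
    linarith

theorem bp_lower (β : ℝ) (h0 : 0 < β) (h1 : β < 1) (K : ℝ) :
    ∃ c : ℝ, 0 < c ∧ ∃ M0 : ℕ, ∀ M b : ℕ, M0 ≤ M → |(b : ℝ) - M * β| ≤ K * Real.sqrt M →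
      c / Real.sqrt M ≤ bp β M b := by
  have hb1 : 0 < 1 - β := by linarith
  have hbb : 0 < β * (1 - β) := mul_pos h0 hb1
  rcases lt_or_ge K 0 with hK | hK
  · refine ⟨1, one_pos, 1, fun M b hM h => ?_⟩
    exfalso
    have hM0 : (0 : ℝ) < M := by exact_mod_cast hM
    have hs0 : 0 < Real.sqrt M := Real.sqrt_pos.2 hM0
    have h3 := (abs_nonneg _).trans h
    nlinarith
  set D := 2 * (K / (β * (1 - β))) with hD
  have hD0 : 0 ≤ D := by positivity
  set E := Real.exp (-(D * (K + 2))) with hE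
  have hE0 : 0 < E := Real.exp_pos _
  obtain ⟨M0, hM0⟩ := exists_nat_ge ((D + K / (1 - β) + 1) ^ 2)
  refine ⟨E / 10, by positivity, M0, fun M b hM hb => ?_⟩
  set s := Real.sqrt M with hsd
  have hKb : 0 ≤ K / (1 - β) := by positivity
  have hMs : D + K / (1 - β) + 1 ≤ s := by
    rw [hsd]
    apply Real.le_sqrt_of_sq_le
    refine hM0.trans ?_
    exact_mod_cast hM
  have hs1 : 1 ≤ s := by linarith
  have hs0 : 0 < s := by linarith
  have hM1 : 1 ≤ M := by
    by_contra h
    have : M = 0 := by omega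
    rw [hsd, this] at hs0
    simp at hs0
  have hMr : (0 : ℝ) < M := by exact_mod_cast hM1
  have hs2 : s * s = M := Real.mul_self_sqrt hMr.le
  have hsD : D ≤ s := by linarith
  have hb' := abs_le.1 hb
  have hbM : b ≤ M := by
    have h3 : (b : ℝ) ≤ M := by
      have h4 : K ≤ s * (1 - β) := by
        have : K / (1 - β) ≤ s := by linarith
        rwa [div_le_iff₀ hb1] at this
      have h5 : K * s ≤ M * (1 - β) := by
        calc K * s ≤ (s * (1 - β)) * s := mul_le_mul_of_nonneg_right h4 hs0.le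
          _ = M * (1 - β) := by rw [← hs2]; ring
      linarith [hb'.2]
    exact_mod_cast h3
  -- comparison
  have hcmp : ∀ i ≤ M, |(M : ℝ) * β - i| ≤ 2 * s → E * bp β M i ≤ bp β M b := by
    intro i hi hiw
    have hi' := abs_le.1 hiw
    rcases le_total b i with h | h
    · have h3 := bp_core h0 h1 (K := K) (L := K + 2) hK (M := M) (b := b) (j := i - b)
        (by omega) hM1 (by rw [← hsd]; exact hsD) (by rw [← hsd]; linarith [hb'.1]) (by
          rw [← hsd, Nat.cast_sub h]
          linarith [hb'.1, hi'.1])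
      rw [Nat.add_sub_cancel' h] at h3
      exact h3
    · have h3 := bp_core (β := 1 - β) hb1 (by linarith) (K := K) (L := K + 2) hK (M := M)
        (b := M - b) (j := b - i)
        (by omega) hM1 (by rw [← hsd, sub_sub_cancel, mul_comm (1 - β)]; exact hsD) (by
          rw [← hsd, Nat.cast_sub hbM]; linarith [hb'.2]) (by
          rw [← hsd, Nat.cast_sub h]
          linarith [hb'.2, hi'.2])
      have h4 : M - b + (b - i) = M - i := by omega
      rw [h4, bp_sub hi, bp_sub hbM, sub_sub_cancel, mul_comm (1 - β)] at h3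
      exact h3
  -- the window
  set W := (Finset.range (M + 1)).filter fun i : ℕ => |(M : ℝ) * β - i| ≤ 2 * s with hW
  have hout : ∑ i ∈ (Finset.range (M + 1)).filter (fun i : ℕ => ¬ |(M : ℝ) * β - i| ≤ 2 * s),
      bp β M i ≤ 1 / 2 := by
    have h3 : ∑ i ∈ (Finset.range (M + 1)).filter (fun i : ℕ => ¬ |(M : ℝ) * β - i| ≤ 2 * s),
        (4 * M) * bp β M i ≤ M := by
      calc _ ≤ ∑ i ∈ (Finset.range (M + 1)).filter (fun i : ℕ => ¬ |(M : ℝ) * β - i| ≤ 2 * s),
            ((M : ℝ) * β - i) ^ 2 * bp β M i := by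
            refine Finset.sum_le_sum fun i hi => ?_
            rw [Finset.mem_filter, not_le] at hi
            apply mul_le_mul_of_nonneg_right _ (bp_nonneg h0 h1 _ _)
            rw [← sq_abs ((M : ℝ) * β - i)]
            have h4 : (2 * s) ^ 2 ≤ |(M : ℝ) * β - i| ^ 2 :=
              pow_le_pow_left₀ (by positivity) hi.2.le 2
            calc 4 * (M : ℝ) = (2 * s) ^ 2 := by rw [← hs2]; ring
              _ ≤ _ := h4
        _ ≤ ∑ i ∈ Finset.range (M + 1), ((M : ℝ) * β - i) ^ 2 * bp β M i :=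
            Finset.sum_le_sum_of_subset_of_nonneg (Finset.filter_subset _ _) fun i _ _ =>
              mul_nonneg (sq_nonneg _) (bp_nonneg h0 h1 _ _)
        _ = M * β * (1 - β) := bp_var β M
        _ = M * (β * (1 - β)) := by ring
        _ ≤ M * 1 := mul_le_mul_of_nonneg_left (by nlinarith) hMr.le
        _ = M := mul_one _
    rw [← Finset.mul_sum] at h3
    nlinarith
  have hin : 1 / 2 ≤ ∑ i ∈ W, bp β M i := by
    have h3 := Finset.sum_filter_add_sum_filter_not (Finset.range (M + 1))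
      (fun i : ℕ => |(M : ℝ) * β - i| ≤ 2 * s) (fun i => bp β M i)
    rw [bp_sum] at h3
    linarith
  have hcard : (W.card : ℝ) ≤ 4 * s + 1 := by
    set a := ⌈(M : ℝ) * β - 2 * s⌉₊ with ha
    set c := ⌊(M : ℝ) * β + 2 * s⌋₊ with hc
    have hsub : W ⊆ Finset.Icc a c := by
      intro i hi
      rw [hW, Finset.mem_filter] at hi
      have hi' := abs_le.1 hi.2
      rw [Finset.mem_Icc]
      constructor
      · rw [ha]
        apply Nat.ceil_le.2
        linarith [hi'.2]
      · rw [hc]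
        apply Nat.le_floor
        linarith [hi'.1]
    have h3 := Finset.card_le_card hsub
    rw [Nat.card_Icc] at h3
    have h4 : (M : ℝ) * β - 2 * s ≤ a := Nat.le_ceil _
    have h5 : (c : ℝ) ≤ (M : ℝ) * β + 2 * s := Nat.floor_le (by positivity)
    rcases le_total a (c + 1) with h | h
    · have h6 : ((W.card : ℕ) : ℝ) ≤ ((c + 1 - a : ℕ) : ℝ) := by exact_mod_cast h3
      rw [Nat.cast_sub h] at h6
      push_cast at h6
      linarith
    · have h7 : c + 1 - a = 0 := by omega
      rw [h7] at h3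
      have h8 : W.card = 0 := by omega
      rw [h8]
      push_cast
      linarith
  have hfin : E * ∑ i ∈ W, bp β M i ≤ (4 * s + 1) * bp β M b := by
    rw [Finset.mul_sum]
    calc ∑ i ∈ W, E * bp β M i ≤ ∑ i ∈ W, bp β M b := by
          refine Finset.sum_le_sum fun i hi => ?_
          rw [hW, Finset.mem_filter, Finset.mem_range] at hi
          exact hcmp i (by omega) hi.2
      _ = (W.card : ℝ) * bp β M b := by rw [Finset.sum_const, nsmul_eq_mul]
      _ ≤ _ := mul_le_mul_of_nonneg_right hcard (bp_nonneg h0 h1 _ _)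
  rw [div_le_iff₀ hs0]
  have hp := bp_nonneg h0 h1 M b
  have h11 : E / 2 ≤ (4 * s + 1) * bp β M b := by
    refine le_trans ?_ hfin
    calc E / 2 = E * (1 / 2) := by ring
      _ ≤ _ := mul_le_mul_of_nonneg_left hin hE0.le
  have h12 : (4 * s + 1) * bp β M b ≤ (4 * s) * bp β M b + s * bp β M b := by
    have : 1 * bp β M b ≤ s * bp β M b := mul_le_mul_of_nonneg_right hs1 hp
    linarith
  nlinarith

end Pool.Agent.Helper910
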