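import Mathlib

namespace Pool.Agent.Helper910

open Polynomial

/-- `ren p b n` is the probability that a sum of `b` independent variables with law `p` equals `n` (`p` as a polynomial). -/
noncomputable def ren (p : Polynomial ℝ) (b n : ℕ) : ℝ := (p ^ b).coeff n

private lemma mul_nonneg_coeff {f g : Polynomial ℝ} (hf : ∀ a, 0 ≤ f.coeff a) (hg : ∀ a, 0 ≤ g.coeff a) (n : ℕ) :
    0 ≤ (f * g).coeff n := by
  rw [coeff_mul]
  exact Finset.sum_nonneg fun x _ => mul_nonneg (hf _) (hg _)

private lemma pow_nonneg_coeff {p : Polynomial ℝ} (hp : ∀ a, 0 ≤ p.coeff a) (b n : ℕ) : 0 ≤ (p ^ b).coeff n := by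
  induction b generalizing n with
  | zero => rw [pow_zero, coeff_one]; split_ifs <;> norm_num
  | succ b ih => rw [pow_succ]; exact mul_nonneg_coeff ih hp n

private lemma ren_nonneg {p : Polynomial ℝ} (hp : ∀ a, 0 ≤ p.coeff a) (b n : ℕ) : 0 ≤ ren p b n :=
  pow_nonneg_coeff hp b n

private lemma ren_zero_of_lt {p : Polynomial ℝ} (h0 : p.coeff 0 = 0) {b n : ℕ} (h : n < b) : ren p b n = 0 := by
  have hX : X ∣ p := X_dvd_iff.2 h0
  obtain ⟨q, hq⟩ := hX
  unfold ren
  rw [hq, mul_pow, coeff_X_pow_mul']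
  rw [if_neg (not_le.2 h)]

private noncomputable def r (p : Polynomial ℝ) (n : ℕ) : ℝ := ∑ b ∈ Finset.range (n + 1), ren p b n

private lemma r_eq {p : Polynomial ℝ} (h0 : p.coeff 0 = 0) {n N : ℕ} (h : n < N) :
    ∑ b ∈ Finset.range N, ren p b n = r p n := by
  unfold r
  symm
  refine Finset.sum_subset ?_ ?_
  · intro x hx
    rw [Finset.mem_range] at hx ⊢
    omega
  · intro x _ hx
    rw [Finset.mem_range] at hx
    exact ren_zero_of_lt h0 (by omega)

private lemma r_zero (p : Polynomial ℝ) : r p 0 = 1 := by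
  simp [r, ren]

private lemma ren_succ (p : Polynomial ℝ) (b n : ℕ) :
    ren p (b + 1) n = ∑ x ∈ Finset.HasAntidiagonal.antidiagonal n, p.coeff x.1 * ren p b x.2 := by
  unfold ren
  rw [pow_succ', coeff_mul]

private lemma r_rec {p : Polynomial ℝ} (h0 : p.coeff 0 = 0) {n : ℕ} (hn : 1 ≤ n) :
    r p n = ∑ x ∈ Finset.HasAntidiagonal.antidiagonal n, p.coeff x.1 * r p x.2 := by
  have h1 : r p n = ∑ b ∈ Finset.range n, ren p (b + 1) n := by
    unfold r
    rw [Finset.sum_range_succ']
    have : ren p 0 n = 0 := by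
      unfold ren
      rw [pow_zero, coeff_one, if_neg (by omega)]
    rw [this, add_zero]
  rw [h1]
  simp_rw [ren_succ]
  rw [Finset.sum_comm]
  refine Finset.sum_congr rfl fun x hx => ?_
  rw [← Finset.mul_sum]
  rw [Finset.HasAntidiagonal.mem_antidiagonal] at hx
  by_cases hx1 : x.1 = 0
  · rw [hx1, h0, zero_mul, zero_mul]
  · rw [r_eq h0 (by omega)]

private lemma sum_coeff_eq (q : Polynomial ℝ) {N : ℕ} (h : q.natDegree < N) :
    ∑ i ∈ Finset.range N, q.coeff i = q.eval 1 := by
  rw [eval_eq_sum_range' h]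
  simp

private lemma sum_coeff_le {q : Polynomial ℝ} (hq : ∀ a, 0 ≤ q.coeff a) (n : ℕ) :
    ∑ i ∈ Finset.range n, q.coeff i ≤ q.eval 1 := by
  rw [← sum_coeff_eq q (N := max n (q.natDegree + 1)) (lt_of_lt_of_le (Nat.lt_succ_self _) (le_max_right _ _))]
  refine Finset.sum_le_sum_of_subset_of_nonneg ?_ fun i _ _ => hq i
  intro x hx
  rw [Finset.mem_range] at hx ⊢
  exact lt_of_lt_of_le hx (le_max_left _ _)

private lemma r_nonneg {p : Polynomial ℝ} (hp : ∀ a, 0 ≤ p.coeff a) (n : ℕ) : 0 ≤ r p n :=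
  Finset.sum_nonneg fun b _ => ren_nonneg hp b n

private lemma r_le_one {p : Polynomial ℝ} (hp : ∀ a, 0 ≤ p.coeff a) (h0 : p.coeff 0 = 0) (h1 : p.eval 1 = 1)
    (n : ℕ) : r p n ≤ 1 := by
  induction n using Nat.strong_induction_on with
  | _ n ih =>
    rcases Nat.eq_zero_or_pos n with hn | hn
    · rw [hn, r_zero]
    · rw [r_rec h0 hn]
      calc ∑ x ∈ Finset.HasAntidiagonal.antidiagonal n, p.coeff x.1 * r p x.2
          ≤ ∑ x ∈ Finset.HasAntidiagonal.antidiagonal n, p.coeff x.1 := by
            refine Finset.sum_le_sum fun x hx => ?_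
            rw [Finset.HasAntidiagonal.mem_antidiagonal] at hx
            by_cases hx1 : x.1 = 0
            · rw [hx1, h0, zero_mul]
            · exact mul_le_of_le_one_right (hp _) (ih x.2 (by omega))
        _ = ∑ i ∈ Finset.range (n + 1), p.coeff i := by
            rw [Finset.Nat.sum_antidiagonal_eq_sum_range_succ (fun i _ => p.coeff i)]
        _ ≤ 1 := by rw [← h1]; exact sum_coeff_le hp _

theorem ren_sum_le (p : Polynomial ℝ) (hp : ∀ a, 0 ≤ p.coeff a) (h0 : p.coeff 0 = 0) (h1 : p.eval 1 = 1) (n : ℕ) :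
    ∑ b ∈ Finset.range (n + 1), ren p b n ≤ 1 :=
  r_le_one hp h0 h1 n

/-- upper side -/
private lemma upper_le {p : Polynomial ℝ} (hp : ∀ a, 0 ≤ p.coeff a) (h0 : p.coeff 0 = 0) (h1 : p.eval 1 = 1)
    (B n : ℕ) :
    ∑ b ∈ Finset.range (n + 1), ren p (B + b) n ≤ ∑ s ∈ Finset.range (n + 1), (p ^ B).coeff s := by
  have h2 : ∀ b, ren p (B + b) n = ∑ x ∈ Finset.HasAntidiagonal.antidiagonal n, (p ^ B).coeff x.1 * ren p b x.2 := by
    intro b
    unfold ren
    rw [pow_add, coeff_mul]
  simp_rw [h2]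
  rw [Finset.sum_comm]
  calc ∑ x ∈ Finset.HasAntidiagonal.antidiagonal n, ∑ b ∈ Finset.range (n + 1), (p ^ B).coeff x.1 * ren p b x.2
      ≤ ∑ x ∈ Finset.HasAntidiagonal.antidiagonal n, (p ^ B).coeff x.1 := by
        refine Finset.sum_le_sum fun x hx => ?_
        rw [Finset.HasAntidiagonal.mem_antidiagonal] at hx
        rw [← Finset.mul_sum, r_eq h0 (by omega)]
        exact mul_le_of_le_one_right (pow_nonneg_coeff hp _ _) (r_le_one hp h0 h1 _)
    _ = ∑ s ∈ Finset.range (n + 1), (p ^ B).coeff s := by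
        rw [Finset.Nat.sum_antidiagonal_eq_sum_range_succ (fun i _ => (p ^ B).coeff i)]

private lemma mul_low_le {f q : Polynomial ℝ} (hf : ∀ a, 0 ≤ f.coeff a) (hq : ∀ a, 0 ≤ q.coeff a)
    (hq1 : q.eval 1 ≤ 1) (n : ℕ) :
    ∑ s ∈ Finset.range n, (f * q).coeff s ≤ ∑ s ∈ Finset.range n, f.coeff s := by
  have h2 : ∀ s, (f * q).coeff s = ∑ i ∈ Finset.range (s + 1), f.coeff i * q.coeff (s - i) := by
    intro s
    rw [coeff_mul, Finset.Nat.sum_antidiagonal_eq_sum_range_succ (fun i j => f.coeff i * q.coeff j)]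
  simp_rw [h2]
  rw [Finset.sum_sigma', ]
  have h3 : ∑ x ∈ (Finset.range n).sigma (fun s => Finset.range (s + 1)), f.coeff x.2 * q.coeff (x.1 - x.2) =
      ∑ i ∈ Finset.range n, ∑ j ∈ Finset.range (n - i), f.coeff i * q.coeff j := by
    rw [Finset.sum_sigma']
    refine Finset.sum_bij' (fun x _ => ⟨x.2, x.1 - x.2⟩) (fun x _ => ⟨x.1 + x.2, x.1⟩) ?_ ?_ ?_ ?_ ?_
    · rintro ⟨a, b⟩ h
      simp only [Finset.mem_sigma, Finset.mem_range] at h ⊢
      omega
    · rintro ⟨a, b⟩ h
      simp only [Finset.mem_sigma, Finset.mem_range] at h ⊢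
      omega
    · rintro ⟨a, b⟩ h
      simp only [Finset.mem_sigma, Finset.mem_range] at h
      simp only [Sigma.mk.injEq, heq_eq_eq, and_true]
      omega
    · rintro ⟨a, b⟩ h
      simp only [Finset.mem_sigma, Finset.mem_range] at h
      simp
    · rintro ⟨a, b⟩ h
      rfl
  rw [h3]
  refine Finset.sum_le_sum fun i _ => ?_
  rw [← Finset.mul_sum]
  exact mul_le_of_le_one_right (hf i) ((sum_coeff_le hq _).trans hq1)

/-- lower side -/
private lemma lower_le {p : Polynomial ℝ} (hp : ∀ a, 0 ≤ p.coeff a) (h0 : p.coeff 0 = 0) (h1 : p.eval 1 = 1)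
    (B n : ℕ) (hn : 1 ≤ n) :
    ∑ b ∈ Finset.range (B + 1), ren p b n ≤ 1 - ∑ s ∈ Finset.range n, (p ^ B).coeff s := by
  induction B with
  | zero =>
    have e1 : ∑ b ∈ Finset.range (0 + 1), ren p b n = 0 := by
      rw [Finset.sum_range_one]
      unfold ren
      rw [pow_zero, coeff_one, if_neg (by omega)]
    have e2 : ∑ s ∈ Finset.range n, (p ^ 0).coeff s = 1 := by
      rw [pow_zero, sum_coeff_eq 1 (by rw [natDegree_one]; exact hn)]
      simp
    rw [e1, e2]; norm_num
  | succ B ih =>
    rw [Finset.sum_range_succ]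
    have h2 : ren p (B + 1) n + ∑ s ∈ Finset.range n, (p ^ (B + 1)).coeff s ≤
        ∑ s ∈ Finset.range n, (p ^ B).coeff s := by
      have h3 : ren p (B + 1) n + ∑ s ∈ Finset.range n, (p ^ (B + 1)).coeff s =
          ∑ s ∈ Finset.range (n + 1), (p ^ (B + 1)).coeff s := by
        rw [Finset.sum_range_succ, add_comm]; rfl
      rw [h3]
      obtain ⟨q, hq⟩ := X_dvd_iff.2 h0
      have hqn : ∀ a, 0 ≤ q.coeff a := by
        intro a
        have := hp (a + 1)
        rwa [hq, coeff_X_mul] at this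
      have hq1 : q.eval 1 = 1 := by
        have := h1
        rw [hq] at this
        simpa using this
      have h4 : p ^ (B + 1) = X * (p ^ B * q) := by
        conv_lhs => rw [pow_succ]
        nth_rewrite 2 [hq]
        ring
      rw [h4, Finset.sum_range_succ']
      have h5 : (X * (p ^ B * q)).coeff 0 = 0 := by simp
      rw [h5, add_zero]
      simp_rw [coeff_X_mul]
      exact mul_low_le (pow_nonneg_coeff hp B) hqn hq1.le n
    linarith

private lemma eval_pow_one {p : Polynomial ℝ} (h1 : p.eval 1 = 1) (b : ℕ) : (p ^ b).eval 1 = 1 := by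
  rw [eval_pow, h1, one_pow]

private lemma d1_pow {p : Polynomial ℝ} (h1 : p.eval 1 = 1) (b : ℕ) :
    (derivative (p ^ b)).eval 1 = b * (derivative p).eval 1 := by
  induction b with
  | zero => simp
  | succ b ih =>
    rw [pow_succ, derivative_mul, eval_add, eval_mul, eval_mul, ih, h1, eval_pow_one h1]
    push_cast; ring

private lemma d2_pow {p : Polynomial ℝ} (h1 : p.eval 1 = 1) (b : ℕ) :
    (derivative (derivative (p ^ b))).eval 1 =
      b * (derivative (derivative p)).eval 1 + b * (b - 1) * (derivative p).eval 1 ^ 2 := by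
  induction b with
  | zero => simp
  | succ b ih =>
    rw [pow_succ, derivative_mul, derivative_add, derivative_mul, derivative_mul]
    simp only [eval_add, eval_mul]
    rw [ih, h1, eval_pow_one h1, d1_pow h1]
    push_cast; ring

private noncomputable def vv (p : Polynomial ℝ) : ℝ :=
  (derivative (derivative p)).eval 1 + (derivative p).eval 1 - (derivative p).eval 1 ^ 2

private lemma second_moment {p : Polynomial ℝ} (h1 : p.eval 1 = 1) (b N : ℕ) (hN : (p ^ b).natDegree + 1 < N) :
    ∑ n ∈ Finset.range N, ((n : ℝ) - b * (derivative p).eval 1) ^ 2 * (p ^ b).coeff n = b * vv p := by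
  set c : ℝ := b * (derivative p).eval 1 with hc
  let T : Polynomial ℝ → Polynomial ℝ := fun q => X * derivative q - C c * q
  have hT : ∀ q n, (T q).coeff n = ((n : ℝ) - c) * q.coeff n := by
    intro q n
    simp only [T, coeff_sub, coeff_C_mul]
    rcases n with _ | n
    · simp
    · rw [coeff_X_mul, coeff_derivative]; push_cast; ring
  have h2 : ∑ n ∈ Finset.range N, ((n : ℝ) - c) ^ 2 * (p ^ b).coeff n = (T (T (p ^ b))).eval 1 := by
    rw [← sum_coeff_eq (T (T (p ^ b))) (N := N)]
    · refine Finset.sum_congr rfl fun n _ => ?_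
      rw [hT, hT]; ring
    · refine lt_of_le_of_lt ?_ (Nat.lt_of_succ_lt hN)
      rw [natDegree_le_iff_coeff_eq_zero]
      intro n hn
      rw [hT, hT, coeff_eq_zero_of_natDegree_lt hn]; ring
  rw [h2]
  simp only [T, derivative_sub, derivative_mul, derivative_X, derivative_C, eval_sub, eval_mul, eval_X, eval_C,
    eval_add, zero_mul, one_mul, zero_add]
  rw [d2_pow h1, d1_pow h1, eval_pow_one h1, ← hc]
  unfold vv
  rw [hc]
  ring

private lemma vv_nonneg {p : Polynomial ℝ} (hp : ∀ a, 0 ≤ p.coeff a) (h1 : p.eval 1 = 1) : 0 ≤ vv p := by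
  have h := second_moment h1 1 (p.natDegree + 2) (by rw [pow_one]; omega)
  rw [Nat.cast_one, one_mul, one_mul] at h
  rw [← h]
  exact Finset.sum_nonneg fun n _ => mul_nonneg (sq_nonneg _) (by rw [pow_one]; exact hp n)

/-- Chebyshev, lower tail -/
private lemma cheb_low {p : Polynomial ℝ} (hp : ∀ a, 0 ≤ p.coeff a) (h1 : p.eval 1 = 1) (B n : ℕ) (d : ℝ)
    (hd : 0 ≤ d) (h : (n : ℝ) + d ≤ B * (derivative p).eval 1) :
    d ^ 2 * ∑ s ∈ Finset.range (n + 1), (p ^ B).coeff s ≤ B * vv p := by
  rw [← second_moment h1 B (max (n + 1) ((p ^ B).natDegree + 2)) (lt_of_lt_of_le (by omega) (le_max_right _ _)),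
    Finset.mul_sum]
  refine (Finset.sum_le_sum (fun s hs => ?_)).trans (Finset.sum_le_sum_of_subset_of_nonneg (f := fun s : ℕ =>
    ((s : ℝ) - B * (derivative p).eval 1) ^ 2 * (p ^ B).coeff s) ?_ ?_)
  · refine mul_le_mul_of_nonneg_right ?_ (pow_nonneg_coeff hp _ _)
    rw [Finset.mem_range] at hs
    have hs' : (s : ℝ) ≤ n := by exact_mod_cast Nat.lt_succ_iff.1 hs
    rw [← sq_abs ((s : ℝ) - _)]
    refine pow_le_pow_left₀ hd ?_ 2
    rw [abs_sub_comm]
    exact le_trans (by linarith) (le_abs_self _)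
  · intro x hx
    rw [Finset.mem_range] at hx ⊢
    exact lt_of_lt_of_le hx (le_max_left _ _)
  · intro i _ _
    exact mul_nonneg (sq_nonneg _) (pow_nonneg_coeff hp _ _)

/-- Chebyshev, upper tail -/
private lemma cheb_high {p : Polynomial ℝ} (hp : ∀ a, 0 ≤ p.coeff a) (h1 : p.eval 1 = 1) (B n : ℕ) (d : ℝ)
    (hd : 0 ≤ d) (h : B * (derivative p).eval 1 + d ≤ n) :
    d ^ 2 * (1 - ∑ s ∈ Finset.range n, (p ^ B).coeff s) ≤ B * vv p := by
  set N := max n ((p ^ B).natDegree + 2) with hN
  have hNn : n ≤ N := le_max_left _ _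
  have hNd : (p ^ B).natDegree + 1 < N := lt_of_lt_of_le (by omega) (le_max_right _ _)
  rw [← second_moment h1 B N hNd]
  have e1 : 1 - ∑ s ∈ Finset.range n, (p ^ B).coeff s = ∑ s ∈ Finset.Ico n N, (p ^ B).coeff s := by
    rw [← eval_pow_one h1 B, ← sum_coeff_eq (p ^ B) (N := N) (by omega), ← Finset.sum_range_add_sum_Ico _ hNn]
    ring
  rw [e1, Finset.mul_sum, ← Finset.sum_range_add_sum_Ico _ hNn]
  refine le_trans ?_ (le_add_of_nonneg_left (Finset.sum_nonneg fun i _ =>
    mul_nonneg (sq_nonneg _) (pow_nonneg_coeff hp _ _)))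
  refine Finset.sum_le_sum fun s hs => ?_
  refine mul_le_mul_of_nonneg_right ?_ (pow_nonneg_coeff hp _ _)
  rw [Finset.mem_Ico] at hs
  have hs' : (n : ℝ) ≤ s := by exact_mod_cast hs.1
  exact pow_le_pow_left₀ hd (by linarith) 2

/-- lower bound for the renewal probability -/
private lemma r_lower {p : Polynomial ℝ} (hp : ∀ a, 0 ≤ p.coeff a) (h0 : p.coeff 0 = 0) (h1 : p.eval 1 = 1)
    (hp1 : 0 < p.coeff 1) : ∃ c : ℝ, 0 < c ∧ ∀ n, c ≤ r p n := by
  set m := p.natDegree with hm
  have hm1 : 1 ≤ m := le_natDegree_of_ne_zero hp1.ne'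
  let tail : ℕ → ℝ := fun i => 1 - ∑ a ∈ Finset.range (i + 1), p.coeff a
  let R : PowerSeries ℝ := PowerSeries.mk (r p)
  let T : PowerSeries ℝ := PowerSeries.mk tail
  have hR : R = 1 + (p : PowerSeries ℝ) * R := by
    ext n
    rw [PowerSeries.coeff_mk, map_add, PowerSeries.coeff_mul, PowerSeries.coeff_one]
    rcases Nat.eq_zero_or_pos n with hn | hn
    · subst hn
      simp [r_zero, h0]
    · rw [if_neg (by omega), zero_add, r_rec h0 hn]
      refine Finset.sum_congr rfl fun x _ => ?_
      rw [Polynomial.coeff_coe, PowerSeries.coeff_mk]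
  have hT : T * (1 - PowerSeries.X) = 1 - (p : PowerSeries ℝ) := by
    ext n
    rw [mul_sub, mul_one, map_sub, map_sub, PowerSeries.coeff_mk, PowerSeries.coeff_one, Polynomial.coeff_coe]
    rcases n with _ | n
    · simp [tail]
    · rw [PowerSeries.coeff_succ_mul_X, PowerSeries.coeff_mk, if_neg (by omega)]
      simp only [tail]
      rw [Finset.sum_range_succ (fun a => p.coeff a) (n + 1)]
      ring
  have hTR : T * R = PowerSeries.mk 1 := by
    have h2 : (T * R) * (1 - PowerSeries.X) = 1 := by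
      have : (T * R) * (1 - PowerSeries.X) = (T * (1 - PowerSeries.X)) * R := by ring
      rw [this, hT, sub_mul, one_mul]
      nth_rewrite 1 [hR]
      ring
    have h3 : (PowerSeries.mk 1 : PowerSeries ℝ) * (1 - PowerSeries.X) = 1 :=
      PowerSeries.mk_one_mul_one_sub_eq_one ℝ
    calc T * R = (T * R) * ((PowerSeries.mk 1 : PowerSeries ℝ) * (1 - PowerSeries.X)) := by rw [h3, mul_one]
      _ = ((T * R) * (1 - PowerSeries.X)) * PowerSeries.mk 1 := by ring
      _ = PowerSeries.mk 1 := by rw [h2, one_mul]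
  have hid : ∀ n, ∑ x ∈ Finset.HasAntidiagonal.antidiagonal n, tail x.1 * r p x.2 = 1 := by
    intro n
    have := congrArg (PowerSeries.coeff n) hTR
    rw [PowerSeries.coeff_mul, PowerSeries.coeff_mk] at this
    simpa [T, R] using this
  have htail1 : ∀ i, tail i ≤ 1 := by
    intro i
    have : 0 ≤ ∑ a ∈ Finset.range (i + 1), p.coeff a := Finset.sum_nonneg fun a _ => hp a
    simp only [tail]; linarith
  have htail0 : ∀ i, m ≤ i → tail i = 0 := by
    intro i hi
    simp only [tail]
    rw [sum_coeff_eq p (by omega), h1, sub_self]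
  have hstep : ∀ n, p.coeff 1 * r p n ≤ r p (n + 1) := by
    intro n
    rw [r_rec h0 (Nat.succ_pos n)]
    have := Finset.single_le_sum (f := fun x : ℕ × ℕ => p.coeff x.1 * r p x.2) (s := Finset.HasAntidiagonal.antidiagonal (n + 1))
      (fun x _ => mul_nonneg (hp _) (r_nonneg hp _)) (a := (1, n)) (by rw [Finset.HasAntidiagonal.mem_antidiagonal]; omega)
    exact this
  have hp1' : p.coeff 1 ≤ 1 := by
    have := Finset.single_le_sum (f := fun x : ℕ => p.coeff x) (s := Finset.range 2) (fun x _ => hp x) (a := 1) (by simp)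
    exact this.trans (h1 ▸ sum_coeff_le hp 2)
  have hsteps : ∀ i n, p.coeff 1 ^ i * r p n ≤ r p (n + i) := by
    intro i
    induction i with
    | zero => intro n; simp
    | succ i ih =>
      intro n
      rw [pow_succ', mul_assoc]
      exact (mul_le_mul_of_nonneg_left (ih n) hp1.le).trans (hstep (n + i))
  refine ⟨p.coeff 1 ^ m * (1 / m), by positivity, fun n => ?_⟩
  -- some `i < m` with `r (n - i) ≥ 1/m`
  have hex : ∃ i j, i + j = n ∧ i < m ∧ 1 / (m : ℝ) ≤ r p j := by
    by_contra hcon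
    push Not at hcon
    have h3 : ∑ x ∈ Finset.HasAntidiagonal.antidiagonal n, tail x.1 * r p x.2 < 1 := by
      have h4 : ∑ x ∈ Finset.HasAntidiagonal.antidiagonal n, tail x.1 * r p x.2 ≤
          ∑ x ∈ (Finset.HasAntidiagonal.antidiagonal n).filter (fun x => x.1 < m), r p x.2 := by
        rw [Finset.sum_filter]
        refine Finset.sum_le_sum fun x _ => ?_
        split_ifs with hx
        · exact mul_le_of_le_one_left (r_nonneg hp _) (htail1 _)
        · rw [htail0 _ (not_lt.1 hx), zero_mul]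
      have hne : ((Finset.HasAntidiagonal.antidiagonal n).filter (fun x => x.1 < m)).Nonempty :=
        ⟨(0, n), by simp; omega⟩
      have h5 : ∑ x ∈ (Finset.HasAntidiagonal.antidiagonal n).filter (fun x => x.1 < m), r p x.2 <
          ∑ x ∈ (Finset.HasAntidiagonal.antidiagonal n).filter (fun x => x.1 < m), 1 / (m : ℝ) := by
        refine Finset.sum_lt_sum_of_nonempty hne fun x hx => ?_
        rw [Finset.mem_filter, Finset.HasAntidiagonal.mem_antidiagonal] at hx
        exact hcon x.1 x.2 hx.1 hx.2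
      have h6 : ∑ x ∈ (Finset.HasAntidiagonal.antidiagonal n).filter (fun x => x.1 < m), 1 / (m : ℝ) ≤ 1 := by
        rw [Finset.sum_const, nsmul_eq_mul]
        have hcard : ((Finset.HasAntidiagonal.antidiagonal n).filter (fun x => x.1 < m)).card ≤ m := by
          calc _ ≤ (Finset.range m).card := by
                refine Finset.card_le_card_of_injOn (fun x => x.1) ?_ ?_
                · intro x hx
                  have hx' := Finset.mem_coe.1 hx
                  rw [Finset.mem_filter] at hx'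
                  exact Finset.mem_coe.2 (Finset.mem_range.2 hx'.2)
                · intro x hx y hy hxy
                  have hx' := Finset.mem_coe.1 hx
                  have hy' := Finset.mem_coe.1 hy
                  rw [Finset.mem_filter, Finset.HasAntidiagonal.mem_antidiagonal] at hx' hy'
                  have hxy' : x.1 = y.1 := hxy
                  refine Prod.ext hxy' ?_
                  omega
            _ = m := Finset.card_range m
        have hmpos : (0 : ℝ) < m := by exact_mod_cast hm1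
        rw [mul_one_div, div_le_one hmpos]
        exact_mod_cast hcard
      linarith
    rw [hid n] at h3
    exact lt_irrefl _ h3
  obtain ⟨i, j, hij, him, hj⟩ := hex
  have h7 := hsteps i j
  have hji : j + i = n := by omega
  rw [hji] at h7
  refine le_trans ?_ h7
  refine mul_le_mul ?_ hj (by positivity) (by positivity)
  exact pow_le_pow_of_le_one hp1.le hp1' him.le

theorem ren_window (p : Polynomial ℝ) (hp : ∀ a, 0 ≤ p.coeff a) (h0 : p.coeff 0 = 0) (h1 : p.eval 1 = 1)
    (hp1 : 0 < p.coeff 1) (μ : ℝ) (hμ : μ = p.derivative.eval 1) :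
    ∃ K c : ℝ, 0 < K ∧ 0 < c ∧ ∃ n0 : ℕ, ∀ n : ℕ, n0 ≤ n →
      c ≤ ∑ b ∈ (Finset.range (n + 1)).filter (fun b : ℕ => |(b : ℝ) - n / μ| ≤ K * Real.sqrt n), ren p b n := by
  obtain ⟨c0, hc0, hr⟩ := r_lower hp h0 h1 hp1
  have hV := vv_nonneg hp h1
  have hμ1 : 1 ≤ μ := by
    rw [hμ]
    obtain ⟨q, hq⟩ := X_dvd_iff.2 h0
    have hqn : ∀ a, 0 ≤ q.coeff a := by
      intro a
      have := hp (a + 1)
      rwa [hq, coeff_X_mul] at this
    have hq1 : q.eval 1 = 1 := by
      have := h1
      rw [hq] at this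
      simpa using this
    have hd : (derivative p).eval 1 = 1 + (derivative q).eval 1 := by
      rw [hq, derivative_mul]
      simp [hq1]
    rw [hd]
    have h2 : 0 ≤ (derivative q).eval 1 := by
      rw [← sum_coeff_eq (derivative q) (Nat.lt_succ_self _)]
      refine Finset.sum_nonneg fun i _ => ?_
      rw [coeff_derivative]
      exact mul_nonneg (hqn _) (by positivity)
    linarith
  have hμ0 : 0 < μ := by linarith
  set V := vv p with hVdef
  set K : ℝ := 4 * V / c0 + 1 with hK
  have hK1 : 1 ≤ K := by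
    have : 0 ≤ 4 * V / c0 := by positivity
    linarith
  have hK0 : 0 < K := by linarith
  have hKV : V ≤ K ^ 2 * (c0 / 4) := by
    have h2 : 4 * V / c0 ≤ K := by linarith
    have h3 : 4 * V ≤ K * c0 := by
      rwa [div_le_iff₀ hc0] at h2
    have h4 : K * c0 ≤ K ^ 2 * c0 := by
      refine mul_le_mul_of_nonneg_right ?_ hc0.le
      nlinarith
    linarith
  refine ⟨K, c0 / 2, hK0, by positivity, 1, fun n hn => ?_⟩
  have hnR : (0 : ℝ) < n := by exact_mod_cast hn
  have hsq : 0 < Real.sqrt n := Real.sqrt_pos.2 hnR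
  have hsq2 : Real.sqrt n ^ 2 = n := Real.sq_sqrt hnR.le
  set W := (Finset.range (n + 1)).filter (fun b : ℕ => |(b : ℝ) - n / μ| ≤ K * Real.sqrt n) with hW
  set d : ℝ := K * μ * Real.sqrt n with hd
  have hd0 : 0 < d := by positivity
  have hd2 : d ^ 2 = K ^ 2 * μ ^ 2 * n := by rw [hd, mul_pow, mul_pow, hsq2]
  -- complement
  have hbound : ∀ x : ℝ, ∀ B : ℕ, B ≤ n → d ^ 2 * x ≤ B * V → x ≤ c0 / 4 := by
    intro x B hB hx
    have h2 : (B : ℝ) * V ≤ n * V := mul_le_mul_of_nonneg_right (by exact_mod_cast hB) hV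
    have h3 : d ^ 2 * x ≤ d ^ 2 * (c0 / 4) := by
      have h4 : (n : ℝ) * V ≤ n * (K ^ 2 * (c0 / 4)) := mul_le_mul_of_nonneg_left hKV hnR.le
      have h5 : (n : ℝ) * (K ^ 2 * (c0 / 4)) ≤ d ^ 2 * (c0 / 4) := by
        rw [hd2]
        have h6 : (1 : ℝ) ≤ μ ^ 2 := by nlinarith
        have h7 : 0 ≤ n * (K ^ 2 * (c0 / 4)) := by positivity
        nlinarith
      linarith
    exact le_of_mul_le_mul_left h3 (by positivity)
  have hup : ∑ b ∈ (Finset.range (n + 1)).filter (fun b : ℕ => n / μ + K * Real.sqrt n < b), ren p b n ≤ c0 / 4 := by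
    set B := ⌊n / μ + K * Real.sqrt n⌋₊ + 1 with hB
    have hBlt : n / μ + K * Real.sqrt n < B := by
      rw [hB]; push_cast; exact Nat.lt_floor_add_one _
    by_cases hBn : B ≤ n
    · have h2 : ∑ b ∈ (Finset.range (n + 1)).filter (fun b : ℕ => n / μ + K * Real.sqrt n < b), ren p b n ≤
          ∑ b ∈ Finset.range (n + 1), ren p (B + b) n := by
        rw [← Finset.sum_image (f := fun b => ren p b n) (s := Finset.range (n + 1)) (g := fun b => B + b)
          (fun x _ y _ h => by simpa using h)]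
        refine Finset.sum_le_sum_of_subset_of_nonneg ?_ fun b _ _ => ren_nonneg hp b n
        intro b hb
        rw [Finset.mem_filter, Finset.mem_range] at hb
        rw [Finset.mem_image]
        have h3 : B ≤ b := by
          rw [hB]
          exact Nat.succ_le_of_lt ((Nat.floor_lt (by positivity)).2 hb.2)
        exact ⟨b - B, by rw [Finset.mem_range]; omega, by omega⟩
      have h3 := upper_le hp h0 h1 B n
      refine hbound _ B hBn ((mul_le_mul_of_nonneg_left (h2.trans h3) (sq_nonneg _)).trans ?_)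
      refine cheb_low hp h1 B n d hd0.le ?_
      rw [← hμ]
      have h4 := mul_le_mul_of_nonneg_right hBlt.le hμ0.le
      have h5 : (n / μ + K * Real.sqrt n) * μ = n + d := by
        rw [hd]; field_simp
      linarith
    · have h2 : (Finset.range (n + 1)).filter (fun b : ℕ => n / μ + K * Real.sqrt n < b) = ∅ := by
        rw [Finset.filter_eq_empty_iff]
        intro b hb hlt
        rw [Finset.mem_range] at hb
        have h3 : B ≤ b := by
          rw [hB]
          exact Nat.succ_le_of_lt ((Nat.floor_lt (by positivity)).2 hlt)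
        omega
      rw [h2, Finset.sum_empty]
      positivity
  have hlo : ∑ b ∈ (Finset.range (n + 1)).filter (fun b : ℕ => (b : ℝ) < n / μ - K * Real.sqrt n), ren p b n ≤ c0 / 4 := by
    by_cases hpos : n / μ - K * Real.sqrt n ≤ 0
    · have h2 : (Finset.range (n + 1)).filter (fun b : ℕ => (b : ℝ) < n / μ - K * Real.sqrt n) = ∅ := by
        rw [Finset.filter_eq_empty_iff]
        intro b _ hlt
        have : (0 : ℝ) ≤ b := Nat.cast_nonneg b
        linarith
      rw [h2, Finset.sum_empty]
      positivity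
    · push Not at hpos
      set B := ⌈n / μ - K * Real.sqrt n⌉₊ - 1 with hB
      have hce : 0 < ⌈n / μ - K * Real.sqrt n⌉₊ := Nat.ceil_pos.2 hpos
      have hBc : B + 1 = ⌈n / μ - K * Real.sqrt n⌉₊ := by omega
      have hBlt : (B : ℝ) < n / μ - K * Real.sqrt n := by
        refine Nat.lt_ceil.1 ?_
        omega
      have hBn : B ≤ n := by
        have h3 : (n : ℝ) / μ ≤ n := by
          rw [div_le_iff₀ hμ0]
          nlinarith
        have h4 : (B : ℝ) ≤ n := by
          have : 0 < K * Real.sqrt n := by positivity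
          linarith
        exact_mod_cast h4
      have h2 : ∑ b ∈ (Finset.range (n + 1)).filter (fun b : ℕ => (b : ℝ) < n / μ - K * Real.sqrt n), ren p b n ≤
          ∑ b ∈ Finset.range (B + 1), ren p b n := by
        refine Finset.sum_le_sum_of_subset_of_nonneg ?_ fun b _ _ => ren_nonneg hp b n
        intro b hb
        rw [Finset.mem_filter] at hb
        rw [Finset.mem_range, hBc]
        exact Nat.lt_ceil.2 hb.2
      have h3 := lower_le hp h0 h1 B n hn
      refine hbound _ B hBn ((mul_le_mul_of_nonneg_left (h2.trans h3) (sq_nonneg _)).trans ?_)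
      refine cheb_high hp h1 B n d hd0.le ?_
      rw [← hμ]
      have h4 := mul_le_mul_of_nonneg_right hBlt.le hμ0.le
      have h5 : (n / μ - K * Real.sqrt n) * μ = n - d := by
        rw [hd]; field_simp
      linarith
  have htot : r p n ≤ ∑ b ∈ W, ren p b n +
      (∑ b ∈ (Finset.range (n + 1)).filter (fun b : ℕ => n / μ + K * Real.sqrt n < b), ren p b n +
       ∑ b ∈ (Finset.range (n + 1)).filter (fun b : ℕ => (b : ℝ) < n / μ - K * Real.sqrt n), ren p b n) := by
    rw [hW]
    simp only [Finset.sum_filter]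
    rw [← Finset.sum_add_distrib, ← Finset.sum_add_distrib]
    unfold r
    refine Finset.sum_le_sum fun b _ => ?_
    have hb := ren_nonneg hp b n
    by_cases h2 : |(b : ℝ) - n / μ| ≤ K * Real.sqrt n
    · rw [if_pos h2]
      split_ifs <;> linarith
    · rw [if_neg h2]
      rw [abs_le, not_and_or] at h2
      rcases h2 with h2 | h2
      · have h3 : (b : ℝ) < n / μ - K * Real.sqrt n := by
          push Not at h2; linarith
        rw [if_pos h3]
        split_ifs <;> linarith
      · have h3 : n / μ + K * Real.sqrt n < b := by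
          push Not at h2; linarith
        rw [if_pos h3]
        split_ifs <;> linarith
  have := hr n
  linarith

end Pool.Agent.Helper910
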