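import Mathlib

namespace Pool.Agent.Helper910.A3

open Polynomial

namespace Hit

theorem coeff_pow_lt {q : Polynomial ℝ} (hq0 : q.coeff 0 = 0) {b n : ℕ} (h : n < b) :
    (q ^ b).coeff n = 0 := by
  have h1 : (X : Polynomial ℝ) ∣ q := Polynomial.X_dvd_iff.2 hq0
  exact Polynomial.X_pow_dvd_iff.1 (pow_dvd_pow_of_dvd h1 b) n h

theorem sum_anti {M : Type*} [AddCommMonoid M] (f : ℕ → ℕ → M) (n : ℕ) :
    ∑ p ∈ Finset.HasAntidiagonal.antidiagonal n, f p.1 p.2 = f 0 n + ∑ a ∈ Finset.Icc 1 n, f a (n - a) := by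
  rw [Finset.Nat.sum_antidiagonal_eq_sum_range_succ f n, Finset.range_eq_Ico,
    Finset.sum_eq_sum_Ico_succ_bot (Nat.succ_pos n)]
  rfl

theorem conv_pow {q : Polynomial ℝ} (hq0 : q.coeff 0 = 0) (b n : ℕ) :
    (q ^ (b + 1)).coeff n = ∑ a ∈ Finset.Icc 1 n, q.coeff a * (q ^ b).coeff (n - a) := by
  rw [pow_succ', Polynomial.coeff_mul, sum_anti (fun i j => q.coeff i * (q ^ b).coeff j), hq0,
    zero_mul, zero_add]

theorem coeff_theta (p : Polynomial ℝ) (n : ℕ) : (X * derivative p).coeff n = n * p.coeff n := by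
  cases n with
  | zero => simp
  | succ n => rw [Polynomial.coeff_X_mul, Polynomial.coeff_derivative]; push_cast; ring

theorem deriv_pow {q : Polynomial ℝ} (b n : ℕ) :
    (n : ℝ) * (q ^ (b + 1)).coeff n =
      (b + 1) * ∑ a ∈ Finset.Icc 1 n, (a : ℝ) * q.coeff a * (q ^ b).coeff (n - a) := by
  rw [← coeff_theta, Polynomial.derivative_pow]
  have h1 : X * (C ((b + 1 : ℕ) : ℝ) * q ^ (b + 1 - 1) * derivative q) =
      C ((b + 1 : ℕ) : ℝ) * ((X * derivative q) * q ^ b) := by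
    rw [Nat.add_sub_cancel]; ring
  rw [h1, Polynomial.coeff_C_mul, Polynomial.coeff_mul,
    sum_anti (fun i j => ((X : ℝ[X]) * derivative q).coeff i * (q ^ b).coeff j)]
  simp only [coeff_theta]
  push_cast
  rw [zero_mul, zero_mul, zero_add]

/-- the main term -/
noncomputable def A (q : Polynomial ℝ) (β : ℝ) (M b n : ℕ) : ℝ :=
  ((M.choose b : ℕ) : ℝ) * (1 - β) ^ (M - b) * (q ^ b).coeff n

theorem A_pascal {q : Polynomial ℝ} (hq0 : q.coeff 0 = 0) (β : ℝ) (M b n : ℕ) :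
    A q β (M + 1) (b + 1) n = (1 - β) * A q β M (b + 1) n +
      ∑ a ∈ Finset.Icc 1 n, q.coeff a * A q β M b (n - a) := by
  have h2 : ∑ a ∈ Finset.Icc 1 n, q.coeff a * A q β M b (n - a) =
      ((M.choose b : ℕ) : ℝ) * (1 - β) ^ (M - b) * (q ^ (b + 1)).coeff n := by
    rw [conv_pow hq0, Finset.mul_sum]
    refine Finset.sum_congr rfl fun a _ => ?_
    unfold A
    ring
  rw [h2]
  unfold A
  rw [Nat.choose_succ_succ, Nat.add_sub_add_right]
  have h1 : (1 - β) * (((M.choose (b + 1) : ℕ) : ℝ) * (1 - β) ^ (M - (b + 1)) *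
      (q ^ (b + 1)).coeff n) = ((M.choose (b + 1) : ℕ) : ℝ) * (1 - β) ^ (M - b) *
      (q ^ (b + 1)).coeff n := by
    by_cases h : b + 1 ≤ M
    · rw [show M - b = (M - (b + 1)) + 1 by omega, pow_succ]; ring
    · rw [Nat.choose_eq_zero_of_lt (by omega)]; simp
  rw [h1]
  push_cast
  ring

theorem A_deriv {q : Polynomial ℝ} (hq0 : q.coeff 0 = 0) (β : ℝ) (j M b n : ℕ) (hj : 1 ≤ j) :
    ((M + 1 : ℕ) : ℝ) * ∑ a ∈ Finset.Icc 1 n, q.coeff a * (((j * a - 1 : ℕ) : ℝ) * A q β M b (n - a)) =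
      ((j : ℝ) * n - (b + 1)) * A q β (M + 1) (b + 1) n := by
  have h1 : ∑ a ∈ Finset.Icc 1 n, q.coeff a * (((j * a - 1 : ℕ) : ℝ) * A q β M b (n - a)) =
      ((M.choose b : ℕ) : ℝ) * (1 - β) ^ (M - b) *
        ((j : ℝ) * (∑ a ∈ Finset.Icc 1 n, (a : ℝ) * q.coeff a * (q ^ b).coeff (n - a)) -
          (q ^ (b + 1)).coeff n) := by
    rw [conv_pow hq0, Finset.mul_sum, ← Finset.sum_sub_distrib, Finset.mul_sum]
    refine Finset.sum_congr rfl fun a ha => ?_
    rw [Finset.mem_Icc] at ha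
    have h2 : 1 ≤ j * a := Nat.mul_pos (by omega) (by omega)
    unfold A
    rw [Nat.cast_sub h2]
    push_cast
    ring
  have h3 := deriv_pow (q := q) b n
  have h4 : ((M + 1 : ℕ) : ℝ) * ((M.choose b : ℕ) : ℝ) =
      (((M + 1).choose (b + 1) : ℕ) : ℝ) * ((b + 1 : ℕ) : ℝ) := by
    have := Nat.add_one_mul_choose_eq M b
    exact_mod_cast this
  rw [h1]
  unfold A
  rw [Nat.add_sub_add_right]
  push_cast at h4 ⊢
  have h5 : ((M : ℝ) + 1) * (((M.choose b : ℕ) : ℝ) * (1 - β) ^ (M - b) *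
        ((j : ℝ) * (∑ a ∈ Finset.Icc 1 n, (a : ℝ) * q.coeff a * (q ^ b).coeff (n - a)) -
          (q ^ (b + 1)).coeff n)) =
      (((M : ℝ) + 1) * ((M.choose b : ℕ) : ℝ)) * (1 - β) ^ (M - b) *
        ((j : ℝ) * (∑ a ∈ Finset.Icc 1 n, (a : ℝ) * q.coeff a * (q ^ b).coeff (n - a)) -
          (q ^ (b + 1)).coeff n) := by ring
  rw [h5, h4]
  have h6 : ((j : ℝ) * n) * (q ^ (b + 1)).coeff n = j * ((b + 1) *
      ∑ a ∈ Finset.Icc 1 n, (a : ℝ) * q.coeff a * (q ^ b).coeff (n - a)) := by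
    rw [← h3]; ring
  linear_combination (-(((M + 1).choose (b + 1) : ℕ) : ℝ) * (1 - β) ^ (M - b)) * h6

/-- the factor -/
noncomputable def ra (k M : ℕ) : ℝ := if M = 0 then 1 else (k : ℝ) / M

/-- the term -/
noncomputable def T (j : ℕ) (q : Polynomial ℝ) (β : ℝ) (k n b : ℕ) : ℝ :=
  ra k (k + j * n - b) * A q β (k + j * n - b) b n

theorem T_zero_of_lt {j : ℕ} {q : Polynomial ℝ} (hq0 : q.coeff 0 = 0) {β : ℝ} {k n b : ℕ}
    (h : n < b) : T j q β k n b = 0 := by
  unfold T A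
  rw [coeff_pow_lt hq0 h]
  simp

theorem T_rec_zero {j : ℕ} {q : Polynomial ℝ} {β : ℝ} (k n : ℕ) :
    T j q β (k + 1) n 0 = (1 - β) * T j q β k n 0 := by
  unfold T A
  by_cases hn : n = 0
  · subst hn
    simp only [mul_zero, add_zero, Nat.sub_zero, Nat.choose_zero_right, pow_zero,
      Polynomial.coeff_one_zero, mul_one]
    have h1 : ra (k + 1) (k + 1) = 1 := by
      unfold ra
      rw [if_neg (by omega)]
      field_simp
    have h2 : ra k k = 1 := by
      unfold ra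
      split_ifs with h
      · rfl
      · have : (k : ℝ) ≠ 0 := by exact_mod_cast h
        field_simp
    rw [h1, h2, pow_succ]
    push_cast
    ring
  · rw [pow_zero, Polynomial.coeff_one, if_neg hn]
    simp

theorem T_rec_succ {j : ℕ} (hj : 1 ≤ j) {q : Polynomial ℝ} (hq0 : q.coeff 0 = 0) {β : ℝ}
    (k n b : ℕ) (hb : b + 1 ≤ n) :
    T j q β (k + 1) n (b + 1) = (1 - β) * T j q β k n (b + 1) +
      ∑ a ∈ Finset.Icc 1 n, q.coeff a * T j q β (k + (j * a - 1)) (n - a) b := by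
  have hjn : n ≤ j * n := Nat.le_mul_of_pos_left n (by omega)
  obtain ⟨M, hM⟩ : ∃ M, M = k + j * n - (b + 1) := ⟨_, rfl⟩
  have hM1 : k + 1 + j * n - (b + 1) = M + 1 := by omega
  have hT : ∀ a ∈ Finset.Icc 1 n, q.coeff a * T j q β (k + (j * a - 1)) (n - a) b =
      q.coeff a * (ra (k + (j * a - 1)) M * A q β M b (n - a)) := by
    intro a ha
    rw [Finset.mem_Icc] at ha
    by_cases hab : n - a < b
    · rw [T_zero_of_lt hq0 hab]
      unfold A
      rw [coeff_pow_lt hq0 hab]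
      simp
    · unfold T
      have h1 : 1 ≤ j * a := Nat.mul_pos (by omega) (by omega)
      have h2 : j * (n - a) = j * n - j * a := Nat.mul_sub j n a
      have h3 : j * a ≤ j * n := Nat.mul_le_mul_left j ha.2
      have h4 : n - a ≤ j * (n - a) := Nat.le_mul_of_pos_left _ (by omega)
      rw [show k + (j * a - 1) + j * (n - a) - b = M by omega]
  rw [Finset.sum_congr rfl hT]
  unfold T
  rw [hM1, ← hM]
  have hP := A_pascal hq0 β M b n
  by_cases hM0 : M = 0
  · have h1 : ra (k + 1) (M + 1) = 1 := by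
      have : k = 0 := by omega
      subst this hM0
      unfold ra
      simp
    rw [h1, one_mul, hP]
    unfold ra
    rw [if_pos hM0]
    simp only [if_pos hM0, one_mul]
  · have hD := A_deriv hq0 β j M b n hj
    have hMr : (M : ℝ) ≠ 0 := by exact_mod_cast hM0
    have hMr1 : (M : ℝ) + 1 ≠ 0 := by positivity
    have hk : (k : ℝ) + j * n - (b + 1) = M := by
      have : k + j * n = M + (b + 1) := by omega
      have h2 : ((k + j * n : ℕ) : ℝ) = ((M + (b + 1) : ℕ) : ℝ) := by rw [this]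
      push_cast at h2
      linarith
    unfold ra
    simp only [if_neg hM0, if_neg (Nat.succ_ne_zero M)]
    have hS : ∑ a ∈ Finset.Icc 1 n, q.coeff a * (((k + (j * a - 1) : ℕ) : ℝ) / M *
        A q β M b (n - a)) = (1 / (M : ℝ)) * ((k : ℝ) *
          (∑ a ∈ Finset.Icc 1 n, q.coeff a * A q β M b (n - a)) +
          ∑ a ∈ Finset.Icc 1 n, q.coeff a * (((j * a - 1 : ℕ) : ℝ) * A q β M b (n - a))) := by
      rw [Finset.mul_sum, ← Finset.sum_add_distrib, Finset.mul_sum]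
      refine Finset.sum_congr rfl fun a _ => ?_
      push_cast
      ring
    rw [hS]
    set S1 := ∑ a ∈ Finset.Icc 1 n, q.coeff a * A q β M b (n - a) with hS1
    set S2 := ∑ a ∈ Finset.Icc 1 n, q.coeff a * (((j * a - 1 : ℕ) : ℝ) * A q β M b (n - a))
      with hS2
    have e1 : S1 = A q β (M + 1) (b + 1) n - (1 - β) * A q β M (b + 1) n := by rw [hP]; ring
    have e2 : S2 = ((j : ℝ) * n - (b + 1)) * A q β (M + 1) (b + 1) n / (M + 1) := by
      rw [← hD]; push_cast; field_simp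
    rw [e1, e2]
    push_cast
    have e3 : (j : ℝ) * n - (b + 1) = M - k := by linarith
    rw [e3]
    field_simp
    ring

/-- the sum -/
noncomputable def G (j : ℕ) (q : Polynomial ℝ) (β : ℝ) (k n : ℕ) : ℝ :=
  ∑ b ∈ Finset.range (n + 1), T j q β k n b

theorem G_eq {j : ℕ} {q : Polynomial ℝ} (hq0 : q.coeff 0 = 0) {β : ℝ} {k n N : ℕ} (h : n ≤ N) :
    G j q β k n = ∑ b ∈ Finset.range (N + 1), T j q β k n b := by
  unfold G
  refine Finset.sum_subset (Finset.range_mono (by omega)) fun b _ hb => ?_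
  rw [Finset.mem_range, not_lt] at hb
  exact T_zero_of_lt hq0 (by omega)

theorem G_rec {j : ℕ} (hj : 1 ≤ j) {q : Polynomial ℝ} (hq0 : q.coeff 0 = 0) {β : ℝ} (k n : ℕ) :
    G j q β (k + 1) n = (1 - β) * G j q β k n +
      ∑ a ∈ Finset.Icc 1 n, q.coeff a * G j q β (k + (j * a - 1)) (n - a) := by
  cases n with
  | zero =>
    unfold G
    simp only [zero_add, Finset.range_one, Finset.sum_singleton]
    rw [T_rec_zero]
    simp
  | succ n =>
    have h1 : ∀ a ∈ Finset.Icc 1 (n + 1), q.coeff a * G j q β (k + (j * a - 1)) (n + 1 - a) =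
        ∑ b ∈ Finset.range (n + 1), q.coeff a * T j q β (k + (j * a - 1)) (n + 1 - a) b := by
      intro a ha
      rw [Finset.mem_Icc] at ha
      rw [G_eq hq0 (N := n) (by omega), Finset.mul_sum]
    rw [Finset.sum_congr rfl h1, Finset.sum_comm]
    unfold G
    rw [Finset.sum_range_succ' _ (n + 1), Finset.sum_range_succ' _ (n + 1), T_rec_zero, mul_add,
      Finset.mul_sum]
    have h2 : ∑ b ∈ Finset.range (n + 1), T j q β (k + 1) (n + 1) (b + 1) =
        ∑ b ∈ Finset.range (n + 1), (1 - β) * T j q β k (n + 1) (b + 1) +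
        ∑ b ∈ Finset.range (n + 1), ∑ a ∈ Finset.Icc 1 (n + 1),
          q.coeff a * T j q β (k + (j * a - 1)) (n + 1 - a) b := by
      rw [← Finset.sum_add_distrib]
      refine Finset.sum_congr rfl fun b hb => ?_
      rw [Finset.mem_range] at hb
      exact T_rec_succ hj hq0 k (n + 1) b (by omega)
    rw [h2]
    ring

theorem G_zero {j : ℕ} (hj : 1 ≤ j) {q : Polynomial ℝ} (β : ℝ) (n : ℕ) :
    G j q β 0 n = if n = 0 then 1 else 0 := by
  unfold G
  by_cases hn : n = 0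
  · subst hn
    simp [T, A, ra]
  · rw [if_neg hn]
    refine Finset.sum_eq_zero fun b hb => ?_
    rw [Finset.mem_range] at hb
    have hjn : n ≤ j * n := Nat.le_mul_of_pos_left n (by omega)
    unfold T
    by_cases hM : 0 + j * n - b = 0
    · rw [hM]
      have hb0 : b ≠ 0 := by omega
      unfold A
      rw [Nat.choose_eq_zero_of_lt (by omega)]
      simp
    · unfold ra
      rw [if_neg hM]
      simp

theorem F_rec (j : ℕ) (hj : 1 ≤ j) (q : Polynomial ℝ) (β : ℝ) (u : ℕ → ℝ)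
    (hu0 : u 0 = 1 - β)
    (hu : ∀ n : ℕ, 1 ≤ n → u n = ∑ a ∈ Finset.Icc 1 n, q.coeff a *
        PowerSeries.coeff (n - a) ((PowerSeries.mk u) ^ (j * a - 1)))
    (k n : ℕ) :
    PowerSeries.coeff n ((PowerSeries.mk u) ^ (k + 1)) =
      (1 - β) * PowerSeries.coeff n ((PowerSeries.mk u) ^ k) +
      ∑ a ∈ Finset.Icc 1 n, q.coeff a *
        PowerSeries.coeff (n - a) ((PowerSeries.mk u) ^ (k + (j * a - 1))) := by
  rw [pow_succ', PowerSeries.coeff_mul,
    sum_anti (fun i l => PowerSeries.coeff i (PowerSeries.mk u) *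
      PowerSeries.coeff l ((PowerSeries.mk u) ^ k))]
  simp only [PowerSeries.coeff_mk]
  rw [hu0]
  congr 1
  have h1 : ∀ i ∈ Finset.Icc 1 n, u i * PowerSeries.coeff (n - i) ((PowerSeries.mk u) ^ k) =
      ∑ a ∈ Finset.Icc 1 i, q.coeff a * (PowerSeries.coeff (i - a)
        ((PowerSeries.mk u) ^ (j * a - 1)) *
          PowerSeries.coeff (n - i) ((PowerSeries.mk u) ^ k)) := by
    intro i hi
    rw [Finset.mem_Icc] at hi
    rw [hu i hi.1, Finset.sum_mul]
    refine Finset.sum_congr rfl fun a _ => ?_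
    ring
  rw [Finset.sum_congr rfl h1, Finset.sum_comm' (t' := Finset.Icc 1 n)
    (s' := fun a => Finset.Icc a n) (by
      intro i a
      simp only [Finset.mem_Icc]
      omega)]
  refine Finset.sum_congr rfl fun a ha => ?_
  rw [Finset.mem_Icc] at ha
  rw [← Finset.mul_sum]
  congr 1
  rw [pow_add, mul_comm (PowerSeries.mk u ^ k), PowerSeries.coeff_mul]
  refine Finset.sum_nbij' (fun i => (i - a, n - i)) (fun p => p.1 + a) ?_ ?_ ?_ ?_ ?_
  · intro i hi
    simp only [Finset.mem_Icc] at hi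
    simp only [Finset.HasAntidiagonal.mem_antidiagonal]
    omega
  · intro p hp
    simp only [Finset.HasAntidiagonal.mem_antidiagonal] at hp
    simp only [Finset.mem_Icc]
    omega
  · intro i hi
    simp only [Finset.mem_Icc] at hi
    simp only
    omega
  · intro p hp
    simp only [Finset.HasAntidiagonal.mem_antidiagonal] at hp
    ext
    · simp
    · simp only; omega
  · intro i hi
    rfl

theorem F_eq_G (j : ℕ) (hj : 1 ≤ j) (q : Polynomial ℝ) (hq0 : q.coeff 0 = 0) (β : ℝ) (u : ℕ → ℝ)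
    (hu0 : u 0 = 1 - β)
    (hu : ∀ n : ℕ, 1 ≤ n → u n = ∑ a ∈ Finset.Icc 1 n, q.coeff a *
        PowerSeries.coeff (n - a) ((PowerSeries.mk u) ^ (j * a - 1)))
    (n : ℕ) : ∀ k : ℕ, PowerSeries.coeff n ((PowerSeries.mk u) ^ k) = G j q β k n := by
  induction n using Nat.strong_induction_on with
  | _ n ihn =>
    intro k
    induction k with
    | zero => rw [pow_zero, PowerSeries.coeff_one, G_zero hj]
    | succ k ihk =>
      rw [F_rec j hj q β u hu0 hu, G_rec hj hq0, ihk]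
      congr 1
      refine Finset.sum_congr rfl fun a ha => ?_
      rw [Finset.mem_Icc] at ha
      rw [ihn (n - a) (by omega)]

end Hit

/-
TARGET. The hitting time (cycle lemma / Lagrange) formula for the total size of a marked branching process.
-/
theorem hitting (j : ℕ) (hj : 1 ≤ j) (q : Polynomial ℝ) (hq0 : q.coeff 0 = 0) (β : ℝ)
    (u : ℕ → ℝ)
    (hu0 : u 0 = 1 - β)
    (hu : ∀ n : ℕ, 1 ≤ n → u n = ∑ a ∈ Finset.Icc 1 n, q.coeff a *
        PowerSeries.coeff (n - a) ((PowerSeries.mk u) ^ (j * a - 1)))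
    (k : ℕ) (hk : 1 ≤ k) (n : ℕ) :
    PowerSeries.coeff n ((PowerSeries.mk u) ^ k) =
      ∑ b ∈ Finset.range (n + 1), ((k : ℝ) / ((k + j * n - b : ℕ) : ℝ)) * (((k + j * n - b).choose b : ℕ) : ℝ) *
        (1 - β) ^ ((k + j * n - b) - b) * (q ^ b).coeff n := by
  rw [Hit.F_eq_G j hj q hq0 β u hu0 hu n k]
  unfold Hit.G
  refine Finset.sum_congr rfl fun b hb => ?_
  rw [Finset.mem_range] at hb
  have hjn : n ≤ j * n := Nat.le_mul_of_pos_left n (by omega)
  unfold Hit.T Hit.A Hit.ra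
  rw [if_neg (by omega)]
  ring

end Pool.Agent.Helper910.A3
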