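import Mathlib
import Pool.Agent.Helper910.A1
import Pool.Agent.Helper910.A2

namespace Pool.Agent.Helper910

open Polynomial

/-
TARGET. Two-sided bounds of order `n^(-3/2)` from the hitting time formula.
Plain proof. Put `p = q/β` (a probability law), `M = 1 + j n - b`. The term is
`(1/M) * C(M,b) (1-β)^(M-b) q^b_n = (1/M) * bp β M b * ren p b n`.
Upper: a nonzero term has `b ≤ M` (else `choose = 0`), so `2M ≥ 1 + j n ≥ n` and `1/M ≤ 2/n`, `bp β M b ≤ C/√M ≤ C √2/√n`, and `∑_b ren p b n ≤ 1`.
Lower: criticality says `j μ β - β = 1`, where `μ = p'(1) = q'(1)/β`. So for `|b - n/μ| ≤ K√n` we have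
`|b - M β| = |b (1+β) - β - j n β| ≤ (1+β) |b - n/μ| + β + |n/μ (1+β) - j n β| = (1+β)|b - n/μ| + β ≤ K' √n ≤ K'' √M` (as `(1+β)/μ = jβ`, and `M ≥ n/2` or so:
`b ≤ n` gives `M ≥ 1 + (j-1) n`; for `j = 1` use `μ = (1+β)/β > 2`, so `b ≤ n/2 + K√n`... in general `M ≥ c n` for `n` large).
Apply `bp_lower` with `K''` and `1/M ≥ 1/(1+j n)`.
-/
theorem bounds_of_formula (j : ℕ) (hj : 1 ≤ j) (q : Polynomial ℝ) (hq : ∀ a, 0 ≤ q.coeff a) (hq0 : q.coeff 0 = 0)
    (hq1 : 0 < q.coeff 1) (β : ℝ) (hβ : β = q.eval 1) (hβ1 : β < 1)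
    (hcrit : (j : ℝ) * q.derivative.eval 1 - q.eval 1 = 1)
    (u : ℕ → ℝ)
    (hu : ∀ n : ℕ, u n = ∑ b ∈ Finset.range (n + 1), ((1 : ℝ) / ((1 + j * n - b : ℕ) : ℝ)) *
        (((1 + j * n - b).choose b : ℕ) : ℝ) * (1 - β) ^ ((1 + j * n - b) - b) * (q ^ b).coeff n) :
    ∃ c C : ℝ, 0 < c ∧ 0 < C ∧ (∃ n0 : ℕ, ∀ n : ℕ, n0 ≤ n → c / (n * Real.sqrt n) ≤ u n) ∧
      (∀ n : ℕ, 1 ≤ n → u n ≤ C / (n * Real.sqrt n)) := by
  have hβ0 : 0 < β := by
    rw [hβ, Polynomial.eval_eq_sum_range]
    have h1 : 1 ∈ Finset.range (q.natDegree + 1) := by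
      rw [Finset.mem_range]
      have := Polynomial.le_natDegree_of_ne_zero hq1.ne'
      omega
    have h2 := Finset.single_le_sum (f := fun i => q.coeff i * (1 : ℝ) ^ i)
      (fun i _ => by simpa using hq i) h1
    simp only [one_pow, mul_one] at h2 ⊢
    linarith
  set p : Polynomial ℝ := Polynomial.C (1 / β) * q with hp_def
  have hpc : ∀ a, p.coeff a = 1 / β * q.coeff a := fun a => by rw [hp_def, Polynomial.coeff_C_mul]
  have hp : ∀ a, 0 ≤ p.coeff a := fun a => by
    rw [hpc]; exact mul_nonneg (by positivity) (hq a)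
  have hp0 : p.coeff 0 = 0 := by rw [hpc, hq0, mul_zero]
  have hp1 : p.eval 1 = 1 := by
    rw [hp_def, Polynomial.eval_mul, Polynomial.eval_C, ← hβ, one_div, inv_mul_cancel₀ hβ0.ne']
  have hpp : 0 < p.coeff 1 := by rw [hpc]; positivity
  set μ : ℝ := p.derivative.eval 1 with hμ
  have hμq : q.derivative.eval 1 = β * μ := by
    rw [hμ, hp_def, Polynomial.derivative_C_mul, Polynomial.eval_mul, Polynomial.eval_C]
    field_simp
  have hcr : (j : ℝ) * β * μ = 1 + β := by
    rw [hμq, ← hβ] at hcrit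
    linarith
  have hj0 : (0 : ℝ) < j := by exact_mod_cast hj
  have hj1 : (1 : ℝ) ≤ j := by exact_mod_cast hj
  have hμ0 : 0 < μ := by
    by_contra h
    push Not at h
    have : (j : ℝ) * β * μ ≤ 0 := mul_nonpos_of_nonneg_of_nonpos (by positivity) h
    linarith
  have hcoeff : ∀ b n, 0 ≤ ren p b n := by
    intro b
    unfold ren
    induction b with
    | zero =>
      intro n
      rw [pow_zero, Polynomial.coeff_one]
      split_ifs <;> norm_num
    | succ b ih =>
      intro n
      rw [pow_succ, Polynomial.coeff_mul]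
      exact Finset.sum_nonneg fun x _ => mul_nonneg (ih _) (hp _)
  have hqr : ∀ b n, (q ^ b).coeff n = β ^ b * ren p b n := by
    intro b n
    unfold ren
    rw [hp_def, mul_pow, ← Polynomial.C_pow, Polynomial.coeff_C_mul, ← mul_assoc, ← mul_pow,
      mul_one_div_cancel hβ0.ne', one_pow, one_mul]
  have hu' : ∀ n, u n = ∑ b ∈ Finset.range (n + 1), (1 / ((1 + j * n - b : ℕ) : ℝ)) *
      bp β (1 + j * n - b) b * ren p b n := by
    intro n
    rw [hu]
    refine Finset.sum_congr rfl fun b _ => ?_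
    rw [hqr]
    unfold bp
    ring
  have hbp0 : ∀ M b, 0 ≤ bp β M b := by
    intro M b
    unfold bp
    have : 0 < 1 - β := by linarith
    positivity
  obtain ⟨C, hC, hup⟩ := bp_upper β hβ0 hβ1
  obtain ⟨K, c, hK, hc, n0, hwin⟩ := ren_window p hp hp0 hp1 hpp μ hμ
  -- constants for the lower bound
  set κ : ℝ := 1 / (2 * β * μ) with hκ
  have hκ0 : 0 < κ := by positivity
  set K' : ℝ := ((1 + β) * K + β) / Real.sqrt κ with hK'
  obtain ⟨c1, hc1, M0, hlow⟩ := bp_lower β hβ0 hβ1 K'
  refine ⟨c1 / (2 * j * Real.sqrt (2 * j)) * c, 2 * Real.sqrt 2 * C, by positivity, by positivity,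
    ?_, ?_⟩
  · -- lower bound
    obtain ⟨n1, hn1⟩ := exists_nat_ge (M0 / κ)
    obtain ⟨n2, hn2⟩ := exists_nat_ge ((K / κ) ^ 2)
    refine ⟨max 1 (max n0 (max n1 n2)), fun n hn => ?_⟩
    have hnge1 : 1 ≤ n := (le_max_left _ _).trans hn
    have hnn0 : n0 ≤ n := (le_max_left _ _).trans ((le_max_right _ _).trans hn)
    have hnn1 : n1 ≤ n :=
      (le_max_left _ _).trans ((le_max_right _ _).trans ((le_max_right _ _).trans hn))
    have hnn2 : n2 ≤ n :=
      (le_max_right _ _).trans ((le_max_right _ _).trans ((le_max_right _ _).trans hn))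
    have hnR : (1 : ℝ) ≤ n := by exact_mod_cast hnge1
    have hnpos : (0 : ℝ) < n := by linarith
    have hsn : 1 ≤ Real.sqrt n := by
      rw [Real.one_le_sqrt]; exact hnR
    have hss : Real.sqrt n * Real.sqrt n = n := Real.mul_self_sqrt hnpos.le
    have hM0n : (M0 : ℝ) ≤ κ * n := by
      have h1 : M0 / κ ≤ n := hn1.trans (by exact_mod_cast hnn1)
      rw [div_le_iff₀ hκ0] at h1
      linarith
    have hKn : K ≤ κ * Real.sqrt n := by
      have h1 : (K / κ) ^ 2 ≤ n := hn2.trans (by exact_mod_cast hnn2)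
      have h2 : K / κ ≤ Real.sqrt n := Real.le_sqrt_of_sq_le h1
      rw [div_le_iff₀ hκ0] at h2
      linarith
    have hw := hwin n hnn0
    have hterm : ∀ b ∈ (Finset.range (n + 1)).filter
        (fun b : ℕ => |(b : ℝ) - n / μ| ≤ K * Real.sqrt n),
        c1 / (2 * j * Real.sqrt (2 * j)) / (n * Real.sqrt n) * ren p b n ≤
          (1 / ((1 + j * n - b : ℕ) : ℝ)) * bp β (1 + j * n - b) b * ren p b n := by
      intro b hb
      rw [Finset.mem_filter, Finset.mem_range] at hb
      obtain ⟨hbn, hbw⟩ := hb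
      have hbn' : b ≤ n := by omega
      have hnjn : n ≤ j * n := Nat.le_mul_of_pos_left n hj
      set M : ℕ := 1 + j * n - b with hM
      have hMR : (M : ℝ) = 1 + j * n - b := by
        rw [hM, Nat.cast_sub (by omega)]
        push_cast
        ring
      have hb0 : (0 : ℝ) ≤ b := Nat.cast_nonneg b
      have hMup : (M : ℝ) ≤ 2 * j * n := by
        rw [hMR]
        have : (1 : ℝ) ≤ j * n := one_le_mul_of_one_le_of_one_le hj1 hnR
        linarith
      have habs := abs_le.1 hbw
      have hjμ : (j : ℝ) * n - n / μ = 2 * κ * n := by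
        have h1 : (j : ℝ) = (1 + β) / (β * μ) := by
          rw [eq_div_iff (by positivity)]
          linarith
        rw [hκ, h1]
        field_simp
        ring
      have hMlow : κ * n ≤ M := by
        rw [hMR]
        have h1 : K * Real.sqrt n ≤ κ * n := by
          calc K * Real.sqrt n ≤ κ * Real.sqrt n * Real.sqrt n :=
                mul_le_mul_of_nonneg_right hKn (Real.sqrt_nonneg _)
            _ = κ * n := by rw [mul_assoc, hss]
        linarith [habs.2]
      have hMpos : (0 : ℝ) < M := lt_of_lt_of_le (by positivity) hMlow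
      have hMM0 : M0 ≤ M := by
        have : (M0 : ℝ) ≤ M := hM0n.trans hMlow
        exact_mod_cast this
      have hsqM : Real.sqrt κ * Real.sqrt n ≤ Real.sqrt M := by
        rw [← Real.sqrt_mul hκ0.le]
        exact Real.sqrt_le_sqrt hMlow
      have hdev : |(b : ℝ) - M * β| ≤ K' * Real.sqrt M := by
        have h1 : (b : ℝ) - M * β = (1 + β) * (b - n / μ) - β := by
          rw [hMR]
          have h2 : (j : ℝ) * β = (1 + β) / μ := by
            rw [eq_div_iff hμ0.ne']
            linarith
          have h3 : (j : ℝ) * n * β = (1 + β) * (n / μ) := by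
            calc (j : ℝ) * n * β = (j * β) * n := by ring
              _ = (1 + β) * (n / μ) := by rw [h2]; ring
          linarith
        have h4 : |(b : ℝ) - M * β| ≤ (1 + β) * (K * Real.sqrt n) + β := by
          rw [h1]
          refine (abs_sub _ _).trans ?_
          rw [abs_mul, abs_of_pos hβ0, abs_of_pos (by linarith : 0 < 1 + β)]
          have := mul_le_mul_of_nonneg_left hbw (by linarith : 0 ≤ 1 + β)
          linarith
        have h5 : (1 + β) * (K * Real.sqrt n) + β ≤ ((1 + β) * K + β) * Real.sqrt n := by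
          have := mul_le_mul_of_nonneg_left hsn hβ0.le
          linarith
        have h6 : ((1 + β) * K + β) * Real.sqrt n ≤ K' * Real.sqrt M := by
          have hκs : 0 < Real.sqrt κ := Real.sqrt_pos.2 hκ0
          rw [hK', div_mul_eq_mul_div, le_div_iff₀ hκs, mul_assoc]
          refine mul_le_mul_of_nonneg_left ?_ (by positivity)
          linarith
        linarith
      have hl := hlow M b hMM0 hdev
      refine mul_le_mul_of_nonneg_right ?_ (hcoeff b n)
      have hsM : Real.sqrt M ≤ Real.sqrt (2 * j) * Real.sqrt n := by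
        rw [← Real.sqrt_mul (by positivity)]
        exact Real.sqrt_le_sqrt hMup
      have hsMpos : 0 < Real.sqrt M := Real.sqrt_pos.2 hMpos
      calc c1 / (2 * j * Real.sqrt (2 * j)) / (n * Real.sqrt n)
          = (1 / (2 * j * n)) * (c1 / (Real.sqrt (2 * j) * Real.sqrt n)) := by
            field_simp
        _ ≤ (1 / (M : ℝ)) * (c1 / Real.sqrt M) := by
            refine mul_le_mul ?_ ?_ (by positivity) (by positivity)
            · exact one_div_le_one_div_of_le hMpos hMup
            · exact div_le_div_of_nonneg_left hc1.le hsMpos hsM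
        _ ≤ (1 / (M : ℝ)) * bp β M b :=
            mul_le_mul_of_nonneg_left hl (by positivity)
    rw [hu']
    calc c1 / (2 * j * Real.sqrt (2 * j)) * c / (n * Real.sqrt n)
        = c1 / (2 * j * Real.sqrt (2 * j)) / (n * Real.sqrt n) * c := by ring
      _ ≤ c1 / (2 * j * Real.sqrt (2 * j)) / (n * Real.sqrt n) *
          ∑ b ∈ (Finset.range (n + 1)).filter
            (fun b : ℕ => |(b : ℝ) - n / μ| ≤ K * Real.sqrt n), ren p b n :=
          mul_le_mul_of_nonneg_left hw (by positivity)
      _ = ∑ b ∈ (Finset.range (n + 1)).filter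
            (fun b : ℕ => |(b : ℝ) - n / μ| ≤ K * Real.sqrt n),
            c1 / (2 * j * Real.sqrt (2 * j)) / (n * Real.sqrt n) * ren p b n := by
          rw [Finset.mul_sum]
      _ ≤ ∑ b ∈ (Finset.range (n + 1)).filter
            (fun b : ℕ => |(b : ℝ) - n / μ| ≤ K * Real.sqrt n),
            (1 / ((1 + j * n - b : ℕ) : ℝ)) * bp β (1 + j * n - b) b * ren p b n :=
          Finset.sum_le_sum hterm
      _ ≤ _ := by
          refine Finset.sum_le_sum_of_subset_of_nonneg (Finset.filter_subset _ _) fun b _ _ => ?_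
          exact mul_nonneg (mul_nonneg (by positivity) (hbp0 _ _)) (hcoeff _ _)
  · intro n hn
    have hnR : (1 : ℝ) ≤ n := by exact_mod_cast hn
    have hnpos : (0 : ℝ) < n := by linarith
    have hsn : 0 < Real.sqrt n := Real.sqrt_pos.2 hnpos
    rw [hu']
    have hterm : ∀ b ∈ Finset.range (n + 1),
        (1 / ((1 + j * n - b : ℕ) : ℝ)) * bp β (1 + j * n - b) b * ren p b n ≤
          2 * Real.sqrt 2 * C / (n * Real.sqrt n) * ren p b n := by
      intro b hb
      rw [Finset.mem_range] at hb
      refine mul_le_mul_of_nonneg_right ?_ (hcoeff b n)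
      have hbn' : b ≤ n := by omega
      have hnjn : n ≤ j * n := Nat.le_mul_of_pos_left n hj
      set M : ℕ := 1 + j * n - b with hM
      by_cases hbM : b ≤ M
      · have hM2 : n ≤ 2 * M := by omega
        have hM1 : 1 ≤ M := by omega
        have hM2R : (n : ℝ) ≤ 2 * M := by exact_mod_cast hM2
        have hMpos : (0 : ℝ) < M := by exact_mod_cast hM1
        have hs : Real.sqrt n ≤ Real.sqrt 2 * Real.sqrt M := by
          rw [← Real.sqrt_mul (by norm_num)]
          exact Real.sqrt_le_sqrt hM2R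
        have hsM : 0 < Real.sqrt M := Real.sqrt_pos.2 hMpos
        have h1 : 1 / (M : ℝ) ≤ 2 / n := by
          rw [div_le_div_iff₀ hMpos hnpos]
          linarith
        have h2 : C / Real.sqrt M ≤ Real.sqrt 2 * C / Real.sqrt n := by
          rw [div_le_div_iff₀ hsM hsn]
          have := mul_le_mul_of_nonneg_left hs hC.le
          linarith
        calc 1 / (M : ℝ) * bp β M b ≤ (2 / n) * (Real.sqrt 2 * C / Real.sqrt n) :=
              mul_le_mul h1 ((hup M b hM1).trans h2) (hbp0 _ _) (by positivity)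
          _ = 2 * Real.sqrt 2 * C / (n * Real.sqrt n) := by
              field_simp
      · have hz : bp β M b = 0 := by
          unfold bp
          rw [Nat.choose_eq_zero_of_lt (by omega)]
          simp
        rw [hz, mul_zero]
        positivity
    calc _ ≤ ∑ b ∈ Finset.range (n + 1), 2 * Real.sqrt 2 * C / (n * Real.sqrt n) * ren p b n :=
          Finset.sum_le_sum hterm
      _ = 2 * Real.sqrt 2 * C / (n * Real.sqrt n) * ∑ b ∈ Finset.range (n + 1), ren p b n := by
          rw [Finset.mul_sum]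
      _ ≤ 2 * Real.sqrt 2 * C / (n * Real.sqrt n) * 1 :=
          mul_le_mul_of_nonneg_left (ren_sum_le p hp hp0 hp1 n) (by positivity)
      _ = 2 * Real.sqrt 2 * C / (n * Real.sqrt n) := mul_one _

end Pool.Agent.Helper910
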