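import Mathlib

namespace Pool.Agent.Helper910

open Polynomial

theorem pow_hasSum (u : ℕ → ℝ) (s : ℝ) (hu_nonneg : ∀ n, 0 ≤ u n) (hs : HasSum u s) (k : ℕ) :
    (∀ n, 0 ≤ PowerSeries.coeff n ((PowerSeries.mk u) ^ k)) ∧
    HasSum (fun n => PowerSeries.coeff n ((PowerSeries.mk u) ^ k)) (s ^ k) := by
  induction k with
  | zero =>
    constructor
    · intro n
      rw [pow_zero, PowerSeries.coeff_one]
      split_ifs <;> norm_num
    · simp only [pow_zero, PowerSeries.coeff_one]
      exact hasSum_ite_eq 0 1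
  | succ k ih =>
    obtain ⟨h1, h2⟩ := ih
    have hc : ∀ n, PowerSeries.coeff n ((PowerSeries.mk u) ^ (k + 1)) =
        ∑ p ∈ Finset.HasAntidiagonal.antidiagonal n, PowerSeries.coeff p.1 ((PowerSeries.mk u) ^ k) * u p.2 := by
      intro n
      rw [pow_succ, PowerSeries.coeff_mul]
      simp only [PowerSeries.coeff_mk]
    constructor
    · intro n
      rw [hc]
      exact Finset.sum_nonneg fun p _ => mul_nonneg (h1 _) (hu_nonneg _)
    · have n1 : Summable fun n => ‖PowerSeries.coeff n ((PowerSeries.mk u) ^ k)‖ := by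
        simpa [Real.norm_of_nonneg (h1 _)] using h2.summable
      have n2 : Summable fun n => ‖u n‖ := by
        simpa [Real.norm_of_nonneg (hu_nonneg _)] using hs.summable
      have h3 := tsum_mul_tsum_eq_tsum_sum_antidiagonal_of_summable_norm n1 n2
      have h4 := (summable_norm_sum_mul_antidiagonal_of_summable_norm n1 n2).of_norm
      rw [h2.tsum_eq, hs.tsum_eq] at h3
      simp only [hc]
      rw [pow_succ, h3]
      exact h4.hasSum

theorem shift_hasSum {f : ℕ → ℝ} {S : ℝ} (hf : HasSum f S) (a : ℕ) :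
    HasSum (fun n => if a ≤ n then f (n - a) else 0) S := by
  have hinj : Function.Injective (fun n : ℕ => n + a) := add_left_injective a
  rw [← hinj.hasSum_iff]
  · simpa [Function.comp_def] using hf
  · intro x hx
    rw [if_neg]
    intro hax
    exact hx ⟨x - a, by simp only; omega⟩

theorem bern {s : ℝ} (hs0 : 0 ≤ s) (k : ℕ) : 1 + k * (s - 1) ≤ s ^ k := by
  have := one_add_mul_le_pow (a := s - 1) (by linarith) k
  simpa using this

theorem bern_lt {s : ℝ} (hs0 : 0 ≤ s) (hs1 : s < 1) {k : ℕ} (hk : 2 ≤ k) :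
    1 + k * (s - 1) < s ^ k := by
  obtain ⟨m, rfl⟩ : ∃ m, k = m + 1 := ⟨k - 1, by omega⟩
  have hm : (1 : ℝ) ≤ m := by exact_mod_cast (by omega : 1 ≤ m)
  have h1 := bern hs0 m
  have h2 : s * (1 + m * (s - 1)) ≤ s * s ^ m := mul_le_mul_of_nonneg_left h1 hs0
  have h3 : 0 < (m : ℝ) * (s - 1) ^ 2 := by
    have : s - 1 ≠ 0 := by linarith
    positivity
  rw [pow_succ]
  push_cast
  nlinarith

theorem total_mass (j : ℕ) (hj : 1 ≤ j) (q : Polynomial ℝ) (hq : ∀ a, 0 ≤ q.coeff a) (hq0 : q.coeff 0 = 0)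
    (β : ℝ) (hβ : β = q.eval 1) (hβ1 : β < 1)
    (hcrit : (j : ℝ) * q.derivative.eval 1 - q.eval 1 = 1)
    (u : ℕ → ℝ) (hu_nonneg : ∀ n, 0 ≤ u n) (hu_le : ∀ n, ∑ i ∈ Finset.range n, u i ≤ 1)
    (hu0 : u 0 = 1 - β)
    (hu : ∀ n : ℕ, 1 ≤ n → u n = ∑ a ∈ Finset.Icc 1 n, q.coeff a *
        PowerSeries.coeff (n - a) ((PowerSeries.mk u) ^ (j * a - 1))) :
    HasSum u 1 := by
  have hsum : Summable u := summable_of_sum_range_le hu_nonneg hu_le
  set s := ∑' n, u n with hs
  have hhs : HasSum u s := hsum.hasSum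
  have hs0 : 0 ≤ s := tsum_nonneg hu_nonneg
  have hs1 : s ≤ 1 := Real.tsum_le_of_sum_range_le hu_nonneg hu_le
  set D := q.natDegree with hD
  -- sums of coefficients
  have e1 : β = ∑ a ∈ Finset.Icc 1 D, q.coeff a := by
    rw [hβ, eval_eq_sum_range]
    simp only [one_pow, mul_one]
    rw [Finset.range_eq_Ico, Finset.sum_eq_sum_Ico_succ_bot (by omega), hq0, zero_add]
    rfl
  have e2 : q.derivative.eval 1 = ∑ a ∈ Finset.Icc 1 D, q.coeff a * a := by
    rw [derivative_eval, sum_over_range _ (by simp)]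
    simp only [one_pow, mul_one]
    rw [Finset.range_eq_Ico, Finset.sum_eq_sum_Ico_succ_bot (by omega), hq0]
    simp only [zero_mul, zero_add]
    rfl
  have ecast : ∀ a ∈ Finset.Icc 1 D, (((j * a - 1 : ℕ) : ℕ) : ℝ) = j * a - 1 := by
    intro a ha
    rw [Finset.mem_Icc] at ha
    have : 1 ≤ j * a := Nat.mul_pos (by omega) (by omega)
    push_cast [this]
    ring
  have e3 : ∑ a ∈ Finset.Icc 1 D, q.coeff a * ((j * a - 1 : ℕ) : ℝ) = 1 := by
    rw [← hcrit, ← hβ, e2, e1, Finset.mul_sum, ← Finset.sum_sub_distrib]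
    apply Finset.sum_congr rfl
    intro a ha
    rw [ecast a ha]
    ring
  -- the recursion for the sum
  have h1 : HasSum (fun n => (if n = 0 then 1 - β else 0) + ∑ a ∈ Finset.Icc 1 D,
      (q.coeff a * if a ≤ n then PowerSeries.coeff (n - a) ((PowerSeries.mk u) ^ (j * a - 1))
        else 0)) ((1 - β) + ∑ a ∈ Finset.Icc 1 D, q.coeff a * s ^ (j * a - 1)) := by
    apply HasSum.add
    · exact hasSum_ite_eq 0 (1 - β)
    · apply hasSum_sum
      intro a _
      exact (shift_hasSum (pow_hasSum u s hu_nonneg hhs (j * a - 1)).2 a).mul_left _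
  have h2 : (fun n => (if n = 0 then 1 - β else 0) + ∑ a ∈ Finset.Icc 1 D,
      (q.coeff a * if a ≤ n then PowerSeries.coeff (n - a) ((PowerSeries.mk u) ^ (j * a - 1))
        else 0)) = u := by
    funext n
    rcases Nat.eq_zero_or_pos n with rfl | hn
    · rw [if_pos rfl, hu0, Finset.sum_eq_zero, add_zero]
      intro a ha
      rw [Finset.mem_Icc] at ha
      rw [if_neg (by omega), mul_zero]
    · rw [if_neg (by omega), zero_add, hu n hn]
      have k1 : ∑ a ∈ Finset.Icc 1 D, (q.coeff a * if a ≤ n then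
          PowerSeries.coeff (n - a) ((PowerSeries.mk u) ^ (j * a - 1)) else 0) =
          ∑ a ∈ Finset.Icc 1 (max D n), (q.coeff a * if a ≤ n then
          PowerSeries.coeff (n - a) ((PowerSeries.mk u) ^ (j * a - 1)) else 0) := by
        apply Finset.sum_subset (Finset.Icc_subset_Icc_right (le_max_left _ _))
        intro a ha ha'
        rw [Finset.mem_Icc] at ha ha'
        rw [coeff_eq_zero_of_natDegree_lt (by omega), zero_mul]
      have k2 : ∑ a ∈ Finset.Icc 1 n, q.coeff a *
          PowerSeries.coeff (n - a) ((PowerSeries.mk u) ^ (j * a - 1)) =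
          ∑ a ∈ Finset.Icc 1 n, (q.coeff a * if a ≤ n then
          PowerSeries.coeff (n - a) ((PowerSeries.mk u) ^ (j * a - 1)) else 0) := by
        apply Finset.sum_congr rfl
        intro a ha
        rw [Finset.mem_Icc] at ha
        rw [if_pos ha.2]
      rw [k1, k2]
      symm
      apply Finset.sum_subset (Finset.Icc_subset_Icc_right (le_max_right _ _))
      intro a ha ha'
      rw [Finset.mem_Icc] at ha ha'
      rw [if_neg (by omega), mul_zero]
  rw [h2] at h1
  have h3 : s = (1 - β) + ∑ a ∈ Finset.Icc 1 D, q.coeff a * s ^ (j * a - 1) := hhs.unique h1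
  -- the conclusion
  have h4 : s = 1 := by
    by_contra hne
    have hlt : s < 1 := lt_of_le_of_ne hs1 hne
    have hex : ∃ a ∈ Finset.Icc 1 D, 0 < q.coeff a ∧ 2 ≤ j * a - 1 := by
      by_contra hcon
      push Not at hcon
      have h5 : ∑ a ∈ Finset.Icc 1 D, q.coeff a * ((j * a - 1 : ℕ) : ℝ) ≤
          ∑ a ∈ Finset.Icc 1 D, q.coeff a := by
        apply Finset.sum_le_sum
        intro a ha
        rcases (hq a).eq_or_lt with h0 | h0
        · rw [← h0, zero_mul]
        · have h6 := hcon a ha h0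
          have h7 : ((j * a - 1 : ℕ) : ℝ) ≤ 1 := by exact_mod_cast (by omega : j * a - 1 ≤ 1)
          nlinarith
      rw [e3, ← e1] at h5
      linarith
    have h5 : ∑ a ∈ Finset.Icc 1 D, q.coeff a * (1 + ((j * a - 1 : ℕ) : ℝ) * (s - 1)) <
        ∑ a ∈ Finset.Icc 1 D, q.coeff a * s ^ (j * a - 1) := by
      obtain ⟨a, ha, hqa, hja⟩ := hex
      apply Finset.sum_lt_sum
      · intro b _
        exact mul_le_mul_of_nonneg_left (bern hs0 _) (hq b)
      · exact ⟨a, ha, mul_lt_mul_of_pos_left (bern_lt hs0 hlt hja) hqa⟩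
    have h6 : ∑ a ∈ Finset.Icc 1 D, q.coeff a * (1 + ((j * a - 1 : ℕ) : ℝ) * (s - 1)) =
        β + (s - 1) := by
      have h7 : ∀ a ∈ Finset.Icc 1 D, q.coeff a * (1 + ((j * a - 1 : ℕ) : ℝ) * (s - 1)) =
          q.coeff a + q.coeff a * ((j * a - 1 : ℕ) : ℝ) * (s - 1) := by
        intro a _
        ring
      rw [Finset.sum_congr rfl h7, Finset.sum_add_distrib, ← Finset.sum_mul, e3, ← e1]
      ring
    rw [h6] at h5
    linarith
  rw [← h4]
  exact hhs

end Pool.Agent.Helper910
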