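import Mathlib

/-!
# The abelian sandpile on finite subsets of a regular graph: definitions
(MP_4555f0_mp)
-/

namespace Pool.Agent.Helper910

open Classical

variable {V : Type*}

/-- the number of neighbours of `v` in the finite set `S` -/
noncomputable def dg (D : SimpleGraph V) (v : V) (S : Finset V) : ℕ := (S.filter (fun w => D.Adj v w)).card

/-- `χ` is a configuration on the finite set `G`: heights `1, ..., r` on `G` (and the value `0` outside `G`). -/
def IsConfig (r : ℕ) (G : Finset V) (χ : V → ℕ) : Prop :=
  (∀ v ∈ G, 1 ≤ χ v ∧ χ v ≤ r) ∧ ∀ v, v ∉ G → χ v = 0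

/-- recurrent configurations on `G`: there is no nonempty `U ⊆ G` with `χ v ≤ |N(v) ∩ U|` for all `v ∈ U` -/
def Recurrent (D : SimpleGraph V) (r : ℕ) (G : Finset V) (χ : V → ℕ) : Prop :=
  IsConfig r G χ ∧ ¬ ∃ U : Finset V, U ⊆ G ∧ U.Nonempty ∧ ∀ v ∈ U, χ v ≤ dg D v U

/-- toppling of `v`: it loses `r` grains, each neighbour in `G` gains one grain -/
noncomputable def topple (D : SimpleGraph V) (r : ℕ) (G : Finset V) (v : V) (η : V → ℕ) : V → ℕ :=
  fun w => if w = v then η v - r else if w ∈ G ∧ D.Adj v w then η w + 1 else η w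

/-- `Relax D r G η l η'`: starting from `η`, the vertices of the list `l` can be toppled in this order, each of them
being in `G` and of height `> r` when it topples, and the result is `η'`. -/
inductive Relax (D : SimpleGraph V) (r : ℕ) (G : Finset V) : (V → ℕ) → List V → (V → ℕ) → Prop
  | nil (η : V → ℕ) : Relax D r G η [] η
  | cons (η : V → ℕ) (v : V) (l : List V) (η' : V → ℕ) (hv : v ∈ G) (hr : r < η v)
      (h : Relax D r G (topple D r G v η) l η') : Relax D r G η (v :: l) η'

/-- all heights in `G` are at most `r` -/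
def IsStable (r : ℕ) (G : Finset V) (η : V → ℕ) : Prop := ∀ v ∈ G, η v ≤ r

/-- adding one grain at `o` to `χ` and relaxing on `G` makes exactly `n` distinct vertices topple -/
def AvalancheSize (D : SimpleGraph V) (r : ℕ) (G : Finset V) (o : V) (χ : V → ℕ) (n : ℕ) : Prop :=
  ∃ (l : List V) (η' : V → ℕ), Relax D r G (fun v => if v = o then χ v + 1 else χ v) l η' ∧ IsStable r G η' ∧
    l.toFinset.card = n

end Pool.Agent.Helper910
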