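import Mathlib
import Pool.Agent.Helper910.Defs

namespace Pool.Agent.Helper910

open Classical

variable {V : Type*}


/-
TARGET 1 (abelian property). Any legal sequence topples each vertex at most as often as any legal sequence which ends in a stable state;
so two legal stabilising sequences topple every vertex equally often.
Plain proof. Let `T l v = l.count v`. Along a legal sequence `l` from `η`, the height of `v ∈ G` is
`η v + ∑_{w ∈ l, w ~ v} 1 - r * (l.count v)` (as integers). Suppose `l` is legal and `l2` is legal and stabilising. If some vertex is toppled
more often in `l` than in `l2`, take the first moment where this happens, when `v` topples for the `(l2.count v + 1)`-st time in `l`. Before that moment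
all counts are `≤` those of `l2`, and `v` has been toppled exactly `l2.count v` times, so its height is `≤` its final height under `l2`, which is `≤ r`. Contradiction
with `r <` height.
-/
theorem relax_height (D : SimpleGraph V) (r : ℕ) (G : Finset V) (η : V → ℕ) (l : List V)
    (η' : V → ℕ) (h : Relax D r G η l η') :
    ∀ v ∈ G, η' v + r * l.count v = η v + l.countP (fun w => decide (D.Adj w v)) := by
  induction h with
  | nil η => intro v _; simp
  | cons η v0 l η' hv hr h ih =>
    intro v hvG
    have h1 := ih v hvG
    rw [List.count_cons, List.countP_cons]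
    by_cases hvv : v = v0
    · subst hvv
      have h2 : topple D r G v η v = η v - r := by simp [topple]
      rw [h2] at h1
      have h3 : ¬ D.Adj v v := D.loopless.irrefl v
      simp only [beq_self_eq_true, if_true, h3, decide_false, Bool.false_eq_true, if_false, add_zero]
      rw [mul_add, mul_one]
      omega
    · have h4 : (v0 == v) = false := by
        rw [beq_eq_false_iff_ne]
        exact fun h => hvv h.symm
      rw [h4]
      by_cases hadj : D.Adj v0 v
      · have h2 : topple D r G v0 η v = η v + 1 := by simp [topple, hvv, hvG, hadj]
        rw [h2] at h1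
        simp only [Bool.false_eq_true, if_false, add_zero, hadj, decide_true, if_true]
        omega
      · have h2 : topple D r G v0 η v = η v := by simp [topple, hvv, hadj]
        rw [h2] at h1
        simp only [Bool.false_eq_true, if_false, add_zero, hadj, decide_false]
        omega

theorem relax_snoc (D : SimpleGraph V) (r : ℕ) (G : Finset V) (v : V) (l : List V) :
    ∀ (η η1 : V → ℕ), Relax D r G η (l ++ [v]) η1 →
      ∃ η', Relax D r G η l η' ∧ v ∈ G ∧ r < η' v := by
  induction l with
  | nil =>
    intro η η1 h
    cases h with
    | cons _ _ _ _ hv hr _ => exact ⟨η, Relax.nil η, hv, hr⟩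
  | cons w l ih =>
    intro η η1 h
    cases h with
    | cons _ _ _ _ hv hr h' =>
      obtain ⟨η', h1, h2, h3⟩ := ih _ _ h'
      exact ⟨η', Relax.cons η w l η' hv hr h1, h2, h3⟩

theorem countP_le_of_count_le (l l2 : List V) (h : ∀ v, l.count v ≤ l2.count v) (p : V → Bool) :
    l.countP p ≤ l2.countP p := by
  have h1 : (l : Multiset V) ≤ (l2 : Multiset V) := by
    rw [Multiset.le_iff_count]
    intro a
    rw [Multiset.coe_count, Multiset.coe_count]
    exact h a
  rw [Multiset.coe_le] at h1
  exact h1.countP_le p

theorem relax_count_le (D : SimpleGraph V) (r : ℕ) (G : Finset V) (η : V → ℕ) (l l2 : List V) (η1 η2 : V → ℕ)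
    (h1 : Relax D r G η l η1) (h2 : Relax D r G η l2 η2) (hs : IsStable r G η2) (v : V) :
    l.count v ≤ l2.count v := by
  suffices H : ∀ (l : List V) (η1 : V → ℕ), Relax D r G η l η1 → ∀ v, l.count v ≤ l2.count v from
    H l η1 h1 v
  intro l
  induction l using List.reverseRecOn with
  | nil => intro η1 _ v; simp
  | append_singleton l w ih =>
    intro η1 h v
    obtain ⟨η', h3, hw, hr⟩ := relax_snoc D r G w l η η1 h
    have h4 := ih η' h3
    rw [List.count_append]
    by_cases hvw : v = w
    · subst hvw
      have h5 : List.count v [v] = 1 := by simp
      rw [h5]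
      by_contra hcon
      have h6 : l.count v = l2.count v := le_antisymm (h4 v) (by omega)
      have h7 := relax_height D r G η l η' h3 v hw
      have h8 := relax_height D r G η l2 η2 h2 v hw
      have h9 := countP_le_of_count_le l l2 h4 (fun w => decide (D.Adj w v))
      have h10 := hs v hw
      rw [h6] at h7
      omega
    · have h5 : List.count v [w] = 0 := by
        rw [List.count_eq_zero]
        simpa using hvw
      rw [h5, add_zero]
      exact h4 v

theorem avalancheSize_unique (D : SimpleGraph V) (r : ℕ) (G : Finset V) (o : V) (χ : V → ℕ) (n n' : ℕ)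
    (h : AvalancheSize D r G o χ n) (h' : AvalancheSize D r G o χ n') : n = n' := by
  obtain ⟨l, η, h1, h2, rfl⟩ := h
  obtain ⟨l', η', h1', h2', rfl⟩ := h'
  congr 1
  ext v
  rw [List.mem_toFinset, List.mem_toFinset, ← List.count_pos_iff, ← List.count_pos_iff]
  have h3 := relax_count_le D r G _ l l' η η' h1 h1' h2' v
  have h4 := relax_count_le D r G _ l' l η' η h1' h1 h2 v
  omega

end Pool.Agent.Helper910
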