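import Mathlib
import Pool.Agent.Helper910.Defs

namespace Pool.Agent.Helper910

open Classical

variable {V : Type*}



theorem dist_step (D : SimpleGraph V) (hD : D.Connected) (o z w : V) (h : D.Adj z w) :
    D.dist o w ≤ D.dist o z + 1 := by
  have h1 := hD.dist_triangle (u := o) (v := z) (w := w)
  rwa [SimpleGraph.dist_eq_one_iff_adj.2 h] at h1

theorem dist_bound (D : SimpleGraph V) (hD : D.Connected) (r : ℕ) (H : Finset V) (o : V)
    {η : V → ℕ} {l : List V} {η' : V → ℕ} (hR : Relax D r H η l η') :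
    ∀ T : Finset V, (∀ z ∈ T, D.dist o z < T.card) →
      (∀ w ∈ H, w ∉ T → w ≠ o → r < η w → ∃ u ∈ T, D.Adj u w) →
      ∀ z ∈ T ∪ l.toFinset, D.dist o z < (T ∪ l.toFinset).card := by
  induction hR with
  | nil η =>
    intro T h1 _
    simpa using h1
  | cons η v l η' hv hr _ ih =>
    intro T h1 h2
    have h3 : T ∪ (v :: l).toFinset = insert v T ∪ l.toFinset := by
      ext x
      simp only [Finset.mem_union, List.mem_toFinset, List.mem_cons, Finset.mem_insert]
      tauto
    rw [h3]
    refine ih (insert v T) ?_ ?_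
    · intro z hz
      by_cases hvT : v ∈ T
      · rw [Finset.insert_eq_of_mem hvT] at hz ⊢
        exact h1 z hz
      · rw [Finset.card_insert_of_notMem hvT]
        rcases Finset.mem_insert.1 hz with rfl | hz
        · by_cases hzo : z = o
          · rw [hzo, SimpleGraph.dist_self]
            exact Nat.succ_pos _
          · obtain ⟨u, hu, huz⟩ := h2 z hv hvT hzo hr
            have h4 := dist_step D hD o u z huz
            have h5 := h1 u hu
            omega
        · exact (h1 z hz).trans (Nat.lt_succ_self _)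
    · intro w hw hwT hwo hrw
      have hwv : w ≠ v := fun h => hwT (by rw [h]; exact Finset.mem_insert_self _ _)
      have hwT' : w ∉ T := fun h => hwT (Finset.mem_insert_of_mem h)
      by_cases hadj : D.Adj v w
      · exact ⟨v, Finset.mem_insert_self _ _, hadj⟩
      · have h4 : topple D r H v η w = η w := by
          simp [topple, hwv, hadj]
        rw [h4] at hrw
        obtain ⟨u, hu, huw⟩ := h2 w hw hwT' hwo hrw
        exact ⟨u, Finset.mem_insert_of_mem hu, huw⟩

theorem topple_agree (D : SimpleGraph V) (r : ℕ) {G Q : Finset V} (hQG : Q ⊆ G) (v : V)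
    {η ζ : V → ℕ} (h : ∀ w ∈ Q, η w = ζ w) (hv : v ∈ Q) :
    ∀ w ∈ Q, topple D r G v η w = topple D r Q v ζ w := by
  intro w hw
  simp only [topple]
  rw [h w hw, h v hv]
  simp [hw, hQG hw]

theorem topple_out (D : SimpleGraph V) (r : ℕ) {G Q : Finset V} (v : V) (η : V → ℕ)
    (hv : v ∈ Q) (hn : ∀ w, D.Adj v w → w ∈ Q) : ∀ w, w ∉ Q → topple D r G v η w = η w := by
  intro w hw
  have h1 : w ≠ v := fun h => hw (by rw [h]; exact hv)
  have h2 : ¬ D.Adj v w := fun h => hw (hn w h)
  simp [topple, h1, h2]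

theorem transfer_down (D : SimpleGraph V) (r : ℕ) {G Q : Finset V} (hQG : Q ⊆ G)
    {η : V → ℕ} {l : List V} {η' : V → ℕ} (hR : Relax D r G η l η') :
    (∀ z ∈ l, z ∈ Q) → ∀ ζ : V → ℕ, (∀ w ∈ Q, η w = ζ w) →
      ∃ ζ', Relax D r Q ζ l ζ' ∧ ∀ w ∈ Q, η' w = ζ' w := by
  induction hR with
  | nil η => exact fun _ ζ h => ⟨ζ, Relax.nil ζ, h⟩
  | cons η v l η' hv hr _ ih =>
    intro hl ζ h
    have hvQ : v ∈ Q := hl v List.mem_cons_self
    obtain ⟨ζ', h1, h2⟩ := ih (fun z hz => hl z (List.mem_cons_of_mem _ hz))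
      (topple D r Q v ζ) (topple_agree D r hQG v h hvQ)
    exact ⟨ζ', Relax.cons ζ v l ζ' hvQ (by rw [← h v hvQ]; exact hr) h1, h2⟩

theorem transfer_up (D : SimpleGraph V) (r : ℕ) {G Q : Finset V} (hQG : Q ⊆ G)
    {ζ : V → ℕ} {l : List V} {ζ' : V → ℕ} (hR : Relax D r Q ζ l ζ') :
    (∀ z ∈ l, ∀ w, D.Adj z w → w ∈ Q) → ∀ η : V → ℕ, (∀ w ∈ Q, η w = ζ w) →
      ∃ η', Relax D r G η l η' ∧ (∀ w ∈ Q, η' w = ζ' w) ∧ ∀ w, w ∉ Q → η' w = η w := by
  induction hR with
  | nil ζ => exact fun _ η h => ⟨η, Relax.nil η, h, fun _ _ => rfl⟩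
  | cons ζ v l ζ' hv hr _ ih =>
    intro hl η h
    obtain ⟨η', h1, h2, h3⟩ := ih (fun z hz => hl z (List.mem_cons_of_mem _ hz))
      (topple D r G v η) (topple_agree D r hQG v h hv)
    refine ⟨η', Relax.cons η v l η' (hQG hv) (by rw [h v hv]; exact hr) h1, h2, fun w hw => ?_⟩
    rw [h3 w hw]
    exact topple_out D r v η hv (hl v List.mem_cons_self) w hw

/-
TARGET (locality of small avalanches). `Q ⊆ G`, `Q` contains all vertices at distance `≤ n` from `o`. Then the avalanche of `χ` on `G` topples exactly `n` distinct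
vertices iff the avalanche of the restriction of `χ` to `Q` on `Q` does.
Plain proof. Write `η₀ = χ + 1_o`. Along a legal sequence every toppled vertex other than `o` has height `≤ r` initially, so a neighbour toppled before it. Hence
if the sequence has `n` distinct toppled vertices, all of them are within distance `n - 1` of `o` (by induction on prefixes: a prefix with `k ≥ 1` distinct vertices
has all of them within distance `k - 1`), and all their neighbours are in `Q`. So the same list is legal in the other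
graph (`G` or `Q`), the heights on `Q` agree all along, and the heights outside `Q` do not change. Stability transfers (outside `Q` the heights are those of `χ`, `≤ r`).
For `n = 0` the list is empty. (`D.dist` is the graph distance; `D` is connected. `D.dist o z ≤ n` can be obtained from walks with `SimpleGraph.dist_le`.)
-/
theorem avalanche_local (D : SimpleGraph V) (hD : D.Connected) (r : ℕ) (G Q : Finset V) (hQG : Q ⊆ G) (o : V) (ho : o ∈ Q) (n : ℕ)
    (hball : ∀ z : V, D.dist o z ≤ n → z ∈ Q) (χ : V → ℕ) (hχ : IsConfig r G χ) :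
    AvalancheSize D r G o χ n ↔ AvalancheSize D r Q o (fun v => if v ∈ Q then χ v else 0) n := by
  have hoG : o ∈ G := hQG ho
  have key : ∀ (H : Finset V) (η0 : V → ℕ) (l : List V) (η' : V → ℕ), Relax D r H η0 l η' →
      (∀ w ∈ H, w ≠ o → η0 w ≤ r) → l.toFinset.card = n →
      ∀ z ∈ l, z ∈ Q ∧ ∀ w, D.Adj z w → w ∈ Q := by
    intro H η0 l η' hR h0 hn z hz
    have h1 := dist_bound D hD r H o hR ∅ (by simp)
      (fun w hw _ hwo hrw => absurd (h0 w hw hwo) (not_le.2 hrw)) z (by simpa using hz)
    rw [Finset.empty_union, hn] at h1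
    refine ⟨hball z h1.le, fun w hw => hball w ?_⟩
    have h2 := dist_step D hD o z w hw
    omega
  constructor
  · rintro ⟨l, η', hR, hst, hn⟩
    have hl := key G _ l η' hR (fun w hw hwo => by
      simp only [hwo, if_false]
      exact (hχ.1 w hw).2) hn
    obtain ⟨ζ', h1, h2⟩ := transfer_down D r hQG hR (fun z hz => (hl z hz).1)
      (fun v => if v = o then (if v ∈ Q then χ v else 0) + 1 else (if v ∈ Q then χ v else 0))
      (fun w hw => by simp [hw])
    exact ⟨l, ζ', h1, fun w hw => by rw [← h2 w hw]; exact hst w (hQG hw), hn⟩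
  · rintro ⟨l, ζ', hR, hst, hn⟩
    have hl := key Q _ l ζ' hR (fun w hw hwo => by
      simp only [hwo, if_false, hw, if_true]
      exact (hχ.1 w (hQG hw)).2) hn
    obtain ⟨η', h1, h2, h3⟩ := transfer_up D r hQG hR (fun z hz => (hl z hz).2)
      (fun v => if v = o then χ v + 1 else χ v) (fun w hw => by simp [hw])
    refine ⟨l, η', h1, fun w hw => ?_, hn⟩
    by_cases hwQ : w ∈ Q
    · rw [h2 w hwQ]
      exact hst w hwQ
    · rw [h3 w hwQ]
      have hwo : w ≠ o := fun h => hwQ (by rw [h]; exact ho)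
      simp only [hwo, if_false]
      exact (hχ.1 w hw).2

end Pool.Agent.Helper910
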