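import Mathlib
import Pool.Agent.Helper910.Defs

/-!
# Waves of topplings on recurrent configurations
(MP_4555f0_mp)
-/

namespace Pool.Agent.Helper910

open Classical Finset

variable {V : Type*} {D : SimpleGraph V} {r : ℕ}

theorem dg_mono {v : V} {S T : Finset V} (h : S ⊆ T) : dg D v S ≤ dg D v T :=
  Finset.card_le_card (Finset.filter_subset_filter _ h)

theorem dg_union {v : V} {S T : Finset V} (h : Disjoint S T) : dg D v (S ∪ T) = dg D v S + dg D v T := by
  unfold dg
  rw [Finset.filter_union, Finset.card_union_of_disjoint]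
  exact Finset.disjoint_filter_filter h

theorem dg_empty {v : V} : dg D v ∅ = 0 := by simp [dg]

theorem dg_singleton {v w : V} : dg D v {w} = if D.Adj v w then 1 else 0 := by
  unfold dg
  rw [Finset.filter_singleton]
  split_ifs <;> simp

theorem dg_insert {v w : V} {S : Finset V} (h : w ∉ S) :
    dg D v (insert w S) = dg D v S + if D.Adj v w then 1 else 0 := by
  rw [Finset.insert_eq, dg_union (Finset.disjoint_singleton_left.2 h), dg_singleton, add_comm]

theorem dg_eq_sum {v : V} {S : Finset V} : dg D v S = ∑ w ∈ S, if D.Adj v w then 1 else 0 := by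
  unfold dg
  rw [Finset.card_filter]

theorem dg_sdiff_add {v : V} {S T : Finset V} (h : T ⊆ S) : dg D v (S \ T) + dg D v T = dg D v S := by
  rw [← dg_union Finset.sdiff_disjoint, Finset.sdiff_union_of_subset h]

theorem dg_eq_zero {v : V} {S : Finset V} (h : ∀ w ∈ S, ¬ D.Adj v w) : dg D v S = 0 := by
  unfold dg
  rw [Finset.card_eq_zero, Finset.filter_eq_empty_iff]
  exact fun w hw => h w hw

/-- degree bound -/
def DegLe (D : SimpleGraph V) (r : ℕ) : Prop := ∀ v (S : Finset V), dg D v S ≤ r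

/-- recurrence with a weight (number of outer neighbours that never burn) -/
def RecW (D : SimpleGraph V) (w : V → ℕ) (G : Finset V) (ζ : V → ℕ) : Prop :=
  ∀ U : Finset V, U ⊆ G → U.Nonempty → ∃ z ∈ U, dg D z U + w z < ζ z

theorem recurrent_iff {G : Finset V} {χ : V → ℕ} :
    Recurrent D r G χ ↔ IsConfig r G χ ∧ RecW D 0 G χ := by
  unfold Recurrent RecW
  constructor
  · rintro ⟨h1, h2⟩
    refine ⟨h1, fun U hU hne => ?_⟩
    by_contra hcon
    push Not at hcon
    exact h2 ⟨U, hU, hne, fun v hv => by simpa using hcon v hv⟩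
  · rintro ⟨h1, h2⟩
    refine ⟨h1, ?_⟩
    rintro ⟨U, hU, hne, h⟩
    obtain ⟨z, hz, hlt⟩ := h2 U hU hne
    have := h z hz
    simp at hlt
    omega

theorem finite_config (r : ℕ) (G : Finset V) : {ζ : V → ℕ | IsConfig r G ζ}.Finite := by
  have hfin : (Set.range (fun (f : G → Fin (r + 1)) => fun v : V => if h : v ∈ G then ((f ⟨v, h⟩ : Fin (r+1)) : ℕ) else 0)).Finite :=
    Set.finite_range _
  refine hfin.subset ?_
  intro ζ hζ
  refine ⟨fun v => ⟨ζ v.1, Nat.lt_succ_of_le (hζ.1 v.1 v.2).2⟩, ?_⟩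
  funext v
  by_cases h : v ∈ G
  · simp [h]
  · simp [h, hζ.2 v h]

/-- configurations with weighted recurrence, as a finite set -/
noncomputable def RcW (D : SimpleGraph V) (r : ℕ) (w : V → ℕ) (G : Finset V) : Finset (V → ℕ) :=
  (finite_config (V := V) r G).toFinset.filter (fun ζ => RecW D w G ζ)

theorem mem_RcW {w : V → ℕ} {G : Finset V} {ζ : V → ℕ} :
    ζ ∈ RcW D r w G ↔ IsConfig r G ζ ∧ RecW D w G ζ := by
  simp [RcW]

/-- recurrent configurations, as a finite set -/
noncomputable def Rc (D : SimpleGraph V) (r : ℕ) (G : Finset V) : Finset (V → ℕ) := RcW D r 0 G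

theorem mem_Rc {G : Finset V} {ζ : V → ℕ} :
    ζ ∈ Rc D r G ↔ IsConfig r G ζ ∧ RecW D 0 G ζ := mem_RcW

theorem mem_Rc' {G : Finset V} {ζ : V → ℕ} :
    ζ ∈ Rc D r G ↔ Recurrent D r G ζ := by rw [mem_Rc, recurrent_iff]

/-! ### waves -/

/-- `U` is blocked for the wave from `v` -/
def Blk (D : SimpleGraph V) (r : ℕ) (v : V) (G : Finset V) (ζ : V → ℕ) (U : Finset V) : Prop :=
  U ⊆ G ∧ ∀ y ∈ U, ζ y + dg D y (insert v (G \ U)) ≤ r

/-- the largest blocked set -/
noncomputable def unb (D : SimpleGraph V) (r : ℕ) (v : V) (G : Finset V) (ζ : V → ℕ) : Finset V :=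
  (G.powerset.filter (fun U => Blk D r v G ζ U)).sup id

/-- the wave from `v` -/
noncomputable def wav (D : SimpleGraph V) (r : ℕ) (v : V) (G : Finset V) (ζ : V → ℕ) : Finset V :=
  G \ unb D r v G ζ

/-- characterization of the wave -/
structure IsWave (D : SimpleGraph V) (r : ℕ) (v : V) (G : Finset V) (ζ : V → ℕ) (W : Finset V) : Prop where
  sub : W ⊆ G
  blk : ∀ y ∈ G, y ∉ W → ζ y + dg D y (insert v W) ≤ r
  fd : ∀ X : Finset V, X ⊆ W → X.Nonempty → ∃ z ∈ X, r < ζ z + dg D z (insert v (W \ X))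

theorem mem_unb {v : V} {G : Finset V} {ζ : V → ℕ} {z : V} :
    z ∈ unb D r v G ζ ↔ ∃ U, Blk D r v G ζ U ∧ z ∈ U := by
  unfold unb
  rw [Finset.mem_sup]
  constructor
  · rintro ⟨U, hU, hz⟩
    rw [Finset.mem_filter] at hU
    exact ⟨U, hU.2, hz⟩
  · rintro ⟨U, hU, hz⟩
    exact ⟨U, Finset.mem_filter.2 ⟨Finset.mem_powerset.2 hU.1, hU⟩, hz⟩

theorem unb_blk (v : V) (G : Finset V) (ζ : V → ℕ) : Blk D r v G ζ (unb D r v G ζ) := by
  constructor
  · intro z hz
    obtain ⟨U, hU, hz⟩ := mem_unb.1 hz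
    exact hU.1 hz
  · intro y hy
    obtain ⟨U, hU, hyU⟩ := mem_unb.1 hy
    refine le_trans (Nat.add_le_add_left (dg_mono ?_) _) (hU.2 y hyU)
    refine Finset.insert_subset_insert _ ?_
    refine Finset.sdiff_subset_sdiff (le_refl G) ?_
    intro z hz
    exact mem_unb.2 ⟨U, hU, hz⟩

theorem isWave_wav (v : V) (G : Finset V) (ζ : V → ℕ) : IsWave D r v G ζ (wav D r v G ζ) := by
  have hb := unb_blk (D := D) (r := r) v G ζ
  refine ⟨Finset.sdiff_subset, ?_, ?_⟩
  · intro y hy hyW
    have : y ∈ unb D r v G ζ := by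
      by_contra h
      exact hyW (Finset.mem_sdiff.2 ⟨hy, h⟩)
    exact hb.2 y this
  · intro X hX hne
    by_contra hcon
    push Not at hcon
    have hXG : X ⊆ G := hX.trans Finset.sdiff_subset
    have hblk : Blk D r v G ζ (unb D r v G ζ ∪ X) := by
      refine ⟨Finset.union_subset hb.1 hXG, ?_⟩
      intro y hy
      rcases Finset.mem_union.1 hy with hy | hy
      · refine le_trans (Nat.add_le_add_left (dg_mono ?_) _) (hb.2 y hy)
        refine Finset.insert_subset_insert _ ?_
        exact Finset.sdiff_subset_sdiff (le_refl G) Finset.subset_union_left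
      · have := hcon y hy
        refine le_trans (Nat.add_le_add_left (dg_mono ?_) _) this
        refine Finset.insert_subset_insert _ ?_
        unfold wav
        intro x hx
        simp only [Finset.mem_sdiff, Finset.mem_union, not_or] at hx ⊢
        exact ⟨⟨hx.1, hx.2.1⟩, hx.2.2⟩
    obtain ⟨z, hz⟩ := hne
    have hz1 : z ∈ unb D r v G ζ := mem_unb.2 ⟨_, hblk, Finset.mem_union_right _ hz⟩
    exact (Finset.mem_sdiff.1 (hX hz)).2 hz1

theorem IsWave.subset_of {v : V} {G : Finset V} {ζ : V → ℕ} {W W' : Finset V}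
    (h : IsWave D r v G ζ W) (hsub : ∀ y ∈ G, y ∉ W' → ζ y + dg D y (insert v W') ≤ r) : W ⊆ W' := by
  by_contra hcon
  have hne : (W \ W').Nonempty := by
    rw [Finset.sdiff_nonempty]; exact hcon
  obtain ⟨z, hz, hlt⟩ := h.fd (W \ W') Finset.sdiff_subset hne
  rw [Finset.mem_sdiff] at hz
  have h1 := hsub z (h.sub hz.1) hz.2
  have h2 : dg D z (insert v (W \ (W \ W'))) ≤ dg D z (insert v W') := by
    refine dg_mono (Finset.insert_subset_insert _ ?_)
    intro x hx
    simp only [Finset.mem_sdiff, not_and, not_not] at hx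
    exact hx.2 hx.1
  omega

theorem IsWave.unique {v : V} {G : Finset V} {ζ : V → ℕ} {W W' : Finset V}
    (h : IsWave D r v G ζ W) (h' : IsWave D r v G ζ W') : W = W' :=
  Finset.Subset.antisymm (h.subset_of h'.blk) (h'.subset_of h.blk)

theorem IsWave.eq_wav {v : V} {G : Finset V} {ζ : V → ℕ} {W : Finset V}
    (h : IsWave D r v G ζ W) : wav D r v G ζ = W := (isWave_wav v G ζ).unique h

/-- the wave set depends only on the values on `G` and is monotone -/
theorem wav_mono {v : V} {G : Finset V} {ζ ζ' : V → ℕ} (h : ∀ y ∈ G, ζ y ≤ ζ' y) :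
    wav D r v G ζ ⊆ wav D r v G ζ' := by
  refine (isWave_wav v G ζ).subset_of ?_
  intro y hy hy'
  have := (isWave_wav (D := D) (r := r) v G ζ').blk y hy hy'
  have := h y hy
  omega

theorem wav_congr {v : V} {G : Finset V} {ζ ζ' : V → ℕ} (h : ∀ y ∈ G, ζ y = ζ' y) :
    wav D r v G ζ = wav D r v G ζ' :=
  Finset.Subset.antisymm (wav_mono (fun y hy => (h y hy).le)) (wav_mono (fun y hy => (h y hy).ge))

/-- one wave from `v` -/
noncomputable def stp (D : SimpleGraph V) (r : ℕ) (v : V) (G : Finset V) (ζ : V → ℕ) : V → ℕ :=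
  fun z => if z ∈ G then ζ z + dg D z (insert v (wav D r v G ζ)) - (if z ∈ wav D r v G ζ then r else 0) else 0

theorem stp_notMem {v : V} {G : Finset V} {ζ : V → ℕ} {z : V} (h : z ∉ G) : stp D r v G ζ z = 0 := by
  simp [stp, h]

theorem stp_wav {v : V} {G : Finset V} {ζ : V → ℕ} {z : V} (h : z ∈ wav D r v G ζ) :
    stp D r v G ζ z + r = ζ z + dg D z (insert v (wav D r v G ζ)) := by
  have hw := isWave_wav (D := D) (r := r) v G ζ
  have hG := hw.sub h
  obtain ⟨y, hy, hlt⟩ := hw.fd {z} (Finset.singleton_subset_iff.2 h) (Finset.singleton_nonempty z)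
  rw [Finset.mem_singleton] at hy
  subst hy
  have h2 : dg D y (insert v (wav D r v G ζ \ {y})) ≤ dg D y (insert v (wav D r v G ζ)) :=
    dg_mono (Finset.insert_subset_insert _ Finset.sdiff_subset)
  simp only [stp, hG, if_true, h]
  omega

theorem stp_not_wav {v : V} {G : Finset V} {ζ : V → ℕ} {z : V} (hG : z ∈ G) (h : z ∉ wav D r v G ζ) :
    stp D r v G ζ z = ζ z + dg D z (insert v (wav D r v G ζ)) := by
  simp [stp, hG, h]

theorem stp_balance {v : V} {G : Finset V} {ζ : V → ℕ} {z : V} (hG : z ∈ G) :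
    stp D r v G ζ z + (if z ∈ wav D r v G ζ then r else 0) = ζ z + dg D z (insert v (wav D r v G ζ)) := by
  by_cases h : z ∈ wav D r v G ζ
  · simp only [h, if_true]; exact stp_wav h
  · simp only [h, if_false, add_zero]; exact stp_not_wav hG h

theorem stp_config (hd : DegLe D r) {v : V} {G : Finset V} {ζ : V → ℕ} (h : IsConfig r G ζ) :
    IsConfig r G (stp D r v G ζ) := by
  have hw := isWave_wav (D := D) (r := r) v G ζ
  refine ⟨?_, fun z hz => stp_notMem hz⟩
  intro z hz
  have h1 := h.1 z hz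
  by_cases hzW : z ∈ wav D r v G ζ
  · have h2 := stp_wav hzW
    have h3 := hd z (insert v (wav D r v G ζ))
    obtain ⟨y, hy, hlt⟩ := hw.fd {z} (Finset.singleton_subset_iff.2 hzW) (Finset.singleton_nonempty z)
    rw [Finset.mem_singleton] at hy
    subst hy
    have h4 : dg D y (insert v (wav D r v G ζ \ {y})) ≤ dg D y (insert v (wav D r v G ζ)) :=
      dg_mono (Finset.insert_subset_insert _ Finset.sdiff_subset)
    omega
  · have h2 := stp_not_wav hz hzW
    have h3 := hw.blk z hz hzW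
    omega

/-- the wave operator preserves recurrence -/
theorem stp_rec {v : V} {G : Finset V} (hv : v ∉ G) {ζ : V → ℕ} (h : RecW D 0 G ζ) :
    RecW D 0 G (stp D r v G ζ) := by
  have hw := isWave_wav (D := D) (r := r) v G ζ
  set W := wav D r v G ζ with hW
  intro U hU hne
  by_contra hcon
  push Not at hcon
  simp only [Pi.zero_apply, add_zero] at hcon
  -- U \ W is forbidden for ζ
  have hUW : U ⊆ W := by
    by_contra hsub
    have hne' : (U \ W).Nonempty := Finset.sdiff_nonempty.2 hsub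
    obtain ⟨z, hz, hlt⟩ := h (U \ W) (Finset.sdiff_subset.trans hU) hne'
    simp only [Pi.zero_apply, add_zero] at hlt
    rw [Finset.mem_sdiff] at hz
    have h1 := hcon z hz.1
    rw [stp_not_wav (hU hz.1) hz.2, ← hW] at h1
    have h2 : dg D z U ≤ dg D z (U \ W) + dg D z (insert v W) := by
      have : dg D z U ≤ dg D z ((U \ W) ∪ (insert v W)) := by
        refine dg_mono ?_
        intro x hx
        by_cases hxW : x ∈ W
        · exact Finset.mem_union_right _ (Finset.mem_insert_of_mem hxW)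
        · exact Finset.mem_union_left _ (Finset.mem_sdiff.2 ⟨hx, hxW⟩)
      refine this.trans (le_of_eq (dg_union ?_))
      rw [Finset.disjoint_left]
      intro x hx hx'
      rw [Finset.mem_sdiff] at hx
      rcases Finset.mem_insert.1 hx' with h' | h'
      · subst h'; exact hv (hU hx.1)
      · exact hx.2 h'
    omega
  obtain ⟨z, hz, hlt⟩ := hw.fd U hUW hne
  have h1 := hcon z hz
  have h2 : stp D r v G ζ z + r = ζ z + dg D z (insert v W) := by
    rw [hW]; exact stp_wav (hW ▸ hUW hz)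
  have h3 : dg D z (insert v W) = dg D z (insert v (W \ U)) + dg D z U := by
    rw [← dg_union]
    · congr 1
      ext x
      simp only [Finset.mem_insert, Finset.mem_union, Finset.mem_sdiff]
      constructor
      · rintro (h' | h')
        · exact Or.inl (Or.inl h')
        · by_cases hx : x ∈ U
          · exact Or.inr hx
          · exact Or.inl (Or.inr ⟨h', hx⟩)
      · rintro ((h' | h') | h')
        · exact Or.inl h'
        · exact Or.inr h'.1
        · exact Or.inr (hUW h')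
    · rw [Finset.disjoint_left]
      intro x hx hx'
      rcases Finset.mem_insert.1 hx with h' | h'
      · subst h'; exact hv (hU hx')
      · exact (Finset.mem_sdiff.1 h').2 hx'
  omega

theorem stp_mem (hd : DegLe D r) {v : V} {G : Finset V} (hv : v ∉ G) {ζ : V → ℕ} (h : ζ ∈ Rc D r G) :
    stp D r v G ζ ∈ Rc D r G := by
  rw [mem_Rc] at h ⊢
  exact ⟨stp_config hd h.1, stp_rec hv h.2⟩

theorem stp_inj_aux {v : V} {G : Finset V} (hv : v ∉ G) {ζ₁ ζ₂ : V → ℕ} (h₁ : ζ₁ ∈ Rc D r G) (h₂ : ζ₂ ∈ Rc D r G)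
    (h : stp D r v G ζ₁ = stp D r v G ζ₂) : wav D r v G ζ₂ ⊆ wav D r v G ζ₁ := by
  rw [mem_Rc] at h₁ h₂
  set W₁ := wav D r v G ζ₁ with hW₁
  set W₂ := wav D r v G ζ₂ with hW₂
  by_contra hsub
  have hne : (W₂ \ W₁).Nonempty := Finset.sdiff_nonempty.2 hsub
  have hWG : W₂ ⊆ G := hW₂ ▸ (isWave_wav (D := D) (r := r) v G ζ₂).sub
  have hWG1 : W₁ ⊆ G := hW₁ ▸ (isWave_wav (D := D) (r := r) v G ζ₁).sub
  obtain ⟨z, hz, hlt⟩ := h₁.2 (W₂ \ W₁) (Finset.sdiff_subset.trans hWG) hne
  simp only [Pi.zero_apply, add_zero] at hlt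
  rw [Finset.mem_sdiff] at hz
  have e1 : stp D r v G ζ₁ z = ζ₁ z + dg D z (insert v W₁) := stp_not_wav (hWG hz.1) hz.2
  have e2 : stp D r v G ζ₂ z + r = ζ₂ z + dg D z (insert v W₂) := stp_wav hz.1
  have e3 : ζ₂ z ≤ r := (h₂.1.1 z (hWG hz.1)).2
  have hv1 : v ∉ W₁ := fun h' => hv (hWG1 h')
  have hv2 : v ∉ W₂ := fun h' => hv (hWG h')
  have e4 : dg D z (insert v W₂) ≤ dg D z (insert v W₁) + dg D z (W₂ \ W₁) := by
    rw [← dg_union]
    · refine dg_mono ?_
      intro x hx
      rcases Finset.mem_insert.1 hx with h' | h'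
      · exact Finset.mem_union_left _ (h' ▸ Finset.mem_insert_self _ _)
      · by_cases hx1 : x ∈ W₁
        · exact Finset.mem_union_left _ (Finset.mem_insert_of_mem hx1)
        · exact Finset.mem_union_right _ (Finset.mem_sdiff.2 ⟨h', hx1⟩)
    · rw [Finset.disjoint_left]
      intro x hx hx'
      rw [Finset.mem_sdiff] at hx'
      rcases Finset.mem_insert.1 hx with h' | h'
      · subst h'; exact hv2 hx'.1
      · exact hx'.2 h'
  have e5 : stp D r v G ζ₁ z = stp D r v G ζ₂ z := by rw [h]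
  omega

/-- the wave operator is injective on recurrent configurations -/
theorem stp_injOn {v : V} {G : Finset V} (hv : v ∉ G) :
    Set.InjOn (stp D r v G) (Rc D r G : Set (V → ℕ)) := by
  intro ζ₁ h₁ ζ₂ h₂ h
  rw [Finset.mem_coe] at h₁ h₂
  have hW : wav D r v G ζ₁ = wav D r v G ζ₂ :=
    Finset.Subset.antisymm (stp_inj_aux hv h₂ h₁ h.symm) (stp_inj_aux hv h₁ h₂ h)
  funext z
  by_cases hz : z ∈ G
  · have b1 := stp_balance (D := D) (r := r) (v := v) (ζ := ζ₁) hz
    have b2 := stp_balance (D := D) (r := r) (v := v) (ζ := ζ₂) hz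
    rw [← hW, ← h] at b2
    omega
  · rw [((mem_Rc.1 h₁).1.2 z hz), ((mem_Rc.1 h₂).1.2 z hz)]

/-- sums over recurrent configurations are invariant under the wave operator -/
theorem sum_stp (hd : DegLe D r) {v : V} {G : Finset V} (hv : v ∉ G) {M : Type*} [AddCommMonoid M]
    (f : (V → ℕ) → M) :
    ∑ ζ ∈ Rc D r G, f (stp D r v G ζ) = ∑ ζ ∈ Rc D r G, f ζ := by
  have himg : (Rc D r G).image (stp D r v G) = Rc D r G := by
    refine Finset.eq_of_subset_of_card_le ?_ ?_
    · intro ζ hζ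
      obtain ⟨ζ', h', rfl⟩ := Finset.mem_image.1 hζ
      exact stp_mem hd hv h'
    · rw [Finset.card_image_of_injOn (stp_injOn hv)]
  conv_rhs => rw [← himg]
  rw [Finset.sum_image (stp_injOn hv)]

end Pool.Agent.Helper910
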