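import Mathlib
import Pool.Agent.Helper910.Basic

/-!
# Cutting a configuration at a bridge
(MP_4555f0_mp)
-/

namespace Pool.Agent.Helper910

open Classical Finset

variable {V : Type*} {D : SimpleGraph V} {r : ℕ}

/-- restriction of a function to a finite set -/
noncomputable def rs (G : Finset V) (ζ : V → ℕ) : V → ℕ := fun z => if z ∈ G then ζ z else 0

/-- indicator of a vertex -/
noncomputable def dl (y : V) : V → ℕ := fun z => if z = y then 1 else 0

theorem rs_mem {G : Finset V} {ζ : V → ℕ} {z : V} (h : z ∈ G) : rs G ζ z = ζ z := by simp [rs, h]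

theorem rs_notMem {G : Finset V} {ζ : V → ℕ} {z : V} (h : z ∉ G) : rs G ζ z = 0 := by simp [rs, h]

theorem RecW.congr {w : V → ℕ} {G : Finset V} {ζ ζ' : V → ℕ} (h : ∀ z ∈ G, ζ z = ζ' z) (hr : RecW D w G ζ) :
    RecW D w G ζ' := by
  intro U hU hne
  obtain ⟨z, hz, hlt⟩ := hr U hU hne
  exact ⟨z, hz, by rw [← h z (hU hz)]; exact hlt⟩

theorem RecW.mono {w : V → ℕ} {G G' : Finset V} {ζ : V → ℕ} (h : G' ⊆ G) (hr : RecW D w G ζ) :
    RecW D w G' ζ := fun U hU hne => hr U (hU.trans h) hne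

theorem RecW.mono_w {w w' : V → ℕ} {G : Finset V} {ζ : V → ℕ} (h : ∀ z ∈ G, w' z ≤ w z) (hr : RecW D w G ζ) :
    RecW D w' G ζ := by
  intro U hU hne
  obtain ⟨z, hz, hlt⟩ := hr U hU hne
  exact ⟨z, hz, by have := h z (hU hz); omega⟩

theorem rs_config {G G' : Finset V} {ζ : V → ℕ} (h : G' ⊆ G) (hc : IsConfig r G ζ) : IsConfig r G' (rs G' ζ) := by
  refine ⟨fun z hz => ?_, fun z hz => rs_notMem hz⟩
  rw [rs_mem hz]; exact hc.1 z (h hz)

theorem rs_mem_RcW {w : V → ℕ} {G G' : Finset V} {ζ : V → ℕ} (h : G' ⊆ G) (hc : ζ ∈ RcW D r w G) :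
    rs G' ζ ∈ RcW D r w G' := by
  rw [mem_RcW] at hc ⊢
  exact ⟨rs_config h hc.1, (hc.2.mono h).congr (fun z hz => (rs_mem hz).symm)⟩

theorem rs_mem_Rc {G G' : Finset V} {ζ : V → ℕ} (h : G' ⊆ G) (hc : ζ ∈ Rc D r G) :
    rs G' ζ ∈ Rc D r G' := rs_mem_RcW h hc

/-- the gate condition: the only edge between `G1` and `G2` is (at most) `h y` -/
structure Gate (D : SimpleGraph V) (G1 G2 : Finset V) (h y : V) : Prop where
  disj : Disjoint G1 G2
  edge : ∀ a ∈ G1, ∀ b ∈ G2, D.Adj a b → a = h ∧ b = y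
  adj : D.Adj h y
  hy : y ∉ G1
  hh : h ∉ G2

namespace Gate

variable {G1 G2 : Finset V} {h y : V}

theorem dg1 (g : Gate D G1 G2 h y) {z : V} (hz : z ∈ G1) {T : Finset V} (hT : T ⊆ G2) :
    dg D z T = if z = h ∧ y ∈ T then 1 else 0 := by
  unfold dg
  split_ifs with hc
  · obtain ⟨rfl, hy⟩ := hc
    rw [Finset.card_eq_one]
    refine ⟨y, ?_⟩
    ext x
    rw [Finset.mem_filter, Finset.mem_singleton]
    constructor
    · rintro ⟨hx, hadj⟩
      exact (g.edge _ hz _ (hT hx) hadj).2
    · rintro rfl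
      exact ⟨hy, g.adj⟩
  · rw [Finset.card_eq_zero, Finset.filter_eq_empty_iff]
    intro x hx hadj
    obtain ⟨h1, h2⟩ := g.edge _ hz _ (hT hx) hadj
    exact hc ⟨h1, h2 ▸ hx⟩

theorem dg2 (g : Gate D G1 G2 h y) {z : V} (hz : z ∈ G2) {T : Finset V} (hT : T ⊆ G1) :
    dg D z T = if z = y ∧ h ∈ T then 1 else 0 := by
  unfold dg
  split_ifs with hc
  · obtain ⟨rfl, hh⟩ := hc
    rw [Finset.card_eq_one]
    refine ⟨h, ?_⟩
    ext x
    rw [Finset.mem_filter, Finset.mem_singleton]
    constructor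
    · rintro ⟨hx, hadj⟩
      exact (g.edge _ (hT hx) _ hz hadj.symm).1
    · rintro rfl
      exact ⟨hh, g.adj.symm⟩
  · rw [Finset.card_eq_zero, Finset.filter_eq_empty_iff]
    intro x hx hadj
    obtain ⟨h1, h2⟩ := g.edge _ (hT hx) _ hz hadj.symm
    exact hc ⟨h2, h1 ▸ hx⟩

/-- recurrence across a gate -/
theorem recW_iff (g : Gate D G1 G2 h y) {w : V → ℕ} (hw : ∀ z ∈ G2, w z = 0) {ζ : V → ℕ} :
    RecW D w (G1 ∪ G2) ζ ↔ RecW D w G1 ζ ∧ RecW D 0 G2 ζ ∧
      (RecW D (dl y) G2 ζ ∨ RecW D (fun z => w z + dl h z) G1 ζ) := by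
  constructor
  · intro hr
    refine ⟨hr.mono Finset.subset_union_left, ?_, ?_⟩
    · have := hr.mono (G' := G2) Finset.subset_union_right
      exact this.mono_w (fun z hz => by simp)
    · by_contra hcon
      rw [not_or] at hcon
      obtain ⟨h1, h2⟩ := hcon
      unfold RecW at h1 h2
      push Not at h1 h2
      obtain ⟨U2, hU2, hne2, hf2⟩ := h1
      obtain ⟨U1, hU1, hne1, hf1⟩ := h2
      -- y ∈ U2
      have hyU : y ∈ U2 := by
        by_contra hy
        obtain ⟨z, hz, hlt⟩ := (hr.mono (G' := G2) Finset.subset_union_right) U2 hU2 hne2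
        have := hf2 z hz
        have hzy : z ≠ y := fun e => hy (e ▸ hz)
        simp only [dl, hzy, if_false] at this
        omega
      have hhU : h ∈ U1 := by
        by_contra hh
        obtain ⟨z, hz, hlt⟩ := (hr.mono (G' := G1) Finset.subset_union_left) U1 hU1 hne1
        have := hf1 z hz
        have hzy : z ≠ h := fun e => hh (e ▸ hz)
        simp only [dl, hzy, if_false] at this
        omega
      have hdis : Disjoint U1 U2 := Finset.disjoint_of_subset_left hU1 (Finset.disjoint_of_subset_right hU2 g.disj)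
      obtain ⟨z, hz, hlt⟩ := hr (U1 ∪ U2) (Finset.union_subset_union hU1 hU2) (hne1.mono Finset.subset_union_left)
      rw [dg_union hdis] at hlt
      rcases Finset.mem_union.1 hz with hz | hz
      · have h3 := hf1 z hz
        rw [g.dg1 (hU1 hz) hU2] at hlt
        simp only [dl] at h3
        by_cases hzh : z = h
        · simp only [hzh, hyU, and_self, if_true] at hlt h3
          omega
        · simp only [hzh, false_and, if_false] at hlt h3
          omega
      · have h3 := hf2 z hz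
        rw [g.dg2 (hU2 hz) hU1] at hlt
        rw [hw z (hU2 hz)] at hlt
        simp only [dl] at h3
        by_cases hzh : z = y
        · simp only [hzh, hhU, and_self, if_true] at hlt h3
          omega
        · simp only [hzh, false_and, if_false] at hlt h3
          omega
  · rintro ⟨h1, h2, h3⟩ U hU hne
    by_contra hcon
    push Not at hcon
    set U1 := U ∩ G1 with hU1
    set U2 := U ∩ G2 with hU2
    have hUU : U = U1 ∪ U2 := by
      rw [hU1, hU2, ← Finset.inter_union_distrib_left]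
      exact (Finset.inter_eq_left.2 hU).symm
    have s1 : U1 ⊆ G1 := Finset.inter_subset_right
    have s2 : U2 ⊆ G2 := Finset.inter_subset_right
    have hdis : Disjoint U1 U2 := Finset.disjoint_of_subset_left s1 (Finset.disjoint_of_subset_right s2 g.disj)
    -- U1 nonempty and U2 nonempty
    have hne1 : U1.Nonempty := by
      by_contra he
      rw [Finset.not_nonempty_iff_eq_empty] at he
      have hU2' : U = U2 := by rw [hUU, he, Finset.empty_union]
      obtain ⟨z, hz, hlt⟩ := h2 U2 s2 (hU2' ▸ hne)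
      have h5 := hcon z (hU2' ▸ hz)
      rw [← hU2'] at hlt
      rw [hw z (s2 hz)] at h5
      simp at hlt
      omega
    have hne2 : U2.Nonempty := by
      by_contra he
      rw [Finset.not_nonempty_iff_eq_empty] at he
      have hU1' : U = U1 := by rw [hUU, he, Finset.union_empty]
      obtain ⟨z, hz, hlt⟩ := h1 U1 s1 (hU1' ▸ hne)
      have h5 := hcon z (hU1' ▸ hz)
      rw [← hU1'] at hlt
      omega
    rcases h3 with h3 | h3
    · obtain ⟨z, hz, hlt⟩ := h3 U2 s2 hne2
      have h5 := hcon z (hUU ▸ Finset.mem_union_right _ hz)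
      rw [hUU, dg_union hdis, g.dg2 (s2 hz) s1, hw z (s2 hz)] at h5
      simp only [dl] at hlt
      by_cases hzy : z = y
      · simp only [hzy, true_and, if_true] at h5 hlt
        split_ifs at h5 <;> omega
      · simp only [hzy, false_and, if_false] at h5 hlt
        omega
    · obtain ⟨z, hz, hlt⟩ := h3 U1 s1 hne1
      have h5 := hcon z (hUU ▸ Finset.mem_union_left _ hz)
      rw [hUU, dg_union hdis, g.dg1 (s1 hz) s2] at h5
      simp only [dl] at hlt
      by_cases hzy : z = h
      · simp only [hzy, true_and, if_true] at h5 hlt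
        split_ifs at h5 <;> omega
      · simp only [hzy, false_and, if_false] at h5 hlt
        omega

/-- the pairs of configurations that can be glued -/
noncomputable def pairs (D : SimpleGraph V) (r : ℕ) (w : V → ℕ) (G1 G2 : Finset V) (h y : V) :
    Finset ((V → ℕ) × (V → ℕ)) :=
  ((RcW D r w G1) ×ˢ (Rc D r G2)).filter
    (fun p => p.2 ∈ RcW D r (dl y) G2 ∨ p.1 ∈ RcW D r (fun z => w z + dl h z) G1)

theorem glue_config {ζ1 ζ2 : V → ℕ} (hd : Disjoint G1 G2) (h1 : IsConfig r G1 ζ1) (h2 : IsConfig r G2 ζ2) :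
    IsConfig r (G1 ∪ G2) (fun z => ζ1 z + ζ2 z) := by
  refine ⟨?_, ?_⟩
  · intro z hz
    dsimp only
    rcases Finset.mem_union.1 hz with hz | hz
    · rw [h2.2 z (Finset.disjoint_left.1 hd hz), add_zero]; exact h1.1 z hz
    · rw [h1.2 z (Finset.disjoint_right.1 hd hz), zero_add]; exact h2.1 z hz
  · intro z hz
    dsimp only
    rw [Finset.mem_union, not_or] at hz
    rw [h1.2 z hz.1, h2.2 z hz.2]

theorem sum_glue (g : Gate D G1 G2 h y) {w : V → ℕ} (hw : ∀ z ∈ G2, w z = 0) {M : Type*} [AddCommMonoid M]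
    (f : (V → ℕ) → M) :
    ∑ ζ ∈ RcW D r w (G1 ∪ G2), f ζ = ∑ p ∈ pairs D r w G1 G2 h y, f (fun z => p.1 z + p.2 z) := by
  refine Finset.sum_bij' (fun ζ _ => (rs G1 ζ, rs G2 ζ)) (fun p _ => fun z => p.1 z + p.2 z) ?_ ?_ ?_ ?_ ?_
  · intro ζ hζ
    rw [mem_RcW] at hζ
    have h3 := (g.recW_iff hw).1 hζ.2
    rw [pairs, Finset.mem_filter, Finset.mem_product]
    have c1 := rs_config (G' := G1) Finset.subset_union_left hζ.1
    have c2 := rs_config (G' := G2) Finset.subset_union_right hζ.1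
    refine ⟨⟨mem_RcW.2 ⟨c1, h3.1.congr (fun z hz => (rs_mem hz).symm)⟩,
      mem_Rc.2 ⟨c2, h3.2.1.congr (fun z hz => (rs_mem hz).symm)⟩⟩, ?_⟩
    rcases h3.2.2 with h4 | h4
    · exact Or.inl (mem_RcW.2 ⟨c2, h4.congr (fun z hz => (rs_mem hz).symm)⟩)
    · exact Or.inr (mem_RcW.2 ⟨c1, h4.congr (fun z hz => (rs_mem hz).symm)⟩)
  · intro p hp
    rw [pairs, Finset.mem_filter, Finset.mem_product] at hp
    obtain ⟨⟨hp1, hp2⟩, hp3⟩ := hp
    rw [mem_RcW] at hp1 hp3
    rw [mem_RcW] at hp3
    rw [mem_Rc] at hp2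
    rw [mem_RcW]
    refine ⟨glue_config g.disj hp1.1 hp2.1, (g.recW_iff hw).2 ?_⟩
    have e1 : ∀ z ∈ G1, p.1 z = p.1 z + p.2 z := by
      intro z hz; rw [hp2.1.2 z (Finset.disjoint_left.1 g.disj hz), add_zero]
    have e2 : ∀ z ∈ G2, p.2 z = p.1 z + p.2 z := by
      intro z hz; rw [hp1.1.2 z (Finset.disjoint_right.1 g.disj hz), zero_add]
    refine ⟨hp1.2.congr e1, hp2.2.congr e2, ?_⟩
    rcases hp3 with h4 | h4
    · exact Or.inl (h4.2.congr e2)
    · exact Or.inr (h4.2.congr e1)
  · intro ζ hζ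
    rw [mem_RcW] at hζ
    funext z
    by_cases h1 : z ∈ G1
    · have h2 : z ∉ G2 := Finset.disjoint_left.1 g.disj h1
      simp [rs, h1, h2]
    · by_cases h2 : z ∈ G2
      · simp [rs, h1, h2]
      · simp only [rs, h1, h2, if_false, add_zero]
        exact (hζ.1.2 z (by simp [h1, h2])).symm
  · intro p hp
    rw [pairs, Finset.mem_filter, Finset.mem_product] at hp
    obtain ⟨⟨hp1, hp2⟩, hp3⟩ := hp
    rw [mem_RcW] at hp1
    rw [mem_Rc] at hp2
    ext z
    · by_cases h1 : z ∈ G1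
      · simp only [rs, h1, if_true]; rw [hp2.1.2 z (Finset.disjoint_left.1 g.disj h1), add_zero]
      · simp only [rs, h1, if_false]; exact (hp1.1.2 z h1).symm
    · by_cases h1 : z ∈ G2
      · simp only [rs, h1, if_true]; rw [hp1.1.2 z (Finset.disjoint_right.1 g.disj h1), zero_add]
      · simp only [rs, h1, if_false]; exact (hp2.1.2 z h1).symm
  · intro ζ hζ
    rw [mem_RcW] at hζ
    congr 1
    funext z
    by_cases h1 : z ∈ G1
    · have h2 : z ∉ G2 := Finset.disjoint_left.1 g.disj h1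
      simp [rs, h1, h2]
    · by_cases h2 : z ∈ G2
      · simp [rs, h1, h2]
      · simp only [rs, h1, h2, if_false, add_zero]
        exact (hζ.1.2 z (by simp [h1, h2]))

/-- the wave across a gate -/
theorem wav_union (g : Gate D G1 G2 h y) {v : V} (hv1 : v ∉ G1) (hv2 : v ∉ G2)
    (hvG : ∀ b ∈ G2, ¬ D.Adj v b) {ζ : V → ℕ} (hζ : ∀ z ∈ G2, ζ z ≤ r) :
    wav D r v (G1 ∪ G2) ζ = wav D r v G1 ζ ∪ (if h ∈ wav D r v G1 ζ then wav D r h G2 ζ else ∅) := by
  have w1 := isWave_wav (D := D) (r := r) v G1 ζ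
  have w2 := isWave_wav (D := D) (r := r) h G2 ζ
  set W1 := wav D r v G1 ζ with hW1
  set W2 := wav D r h G2 ζ with hW2
  refine IsWave.eq_wav ?_
  by_cases hh : h ∈ W1
  · simp only [hh, if_true]
    have hd : Disjoint W1 W2 := Finset.disjoint_of_subset_left w1.sub (Finset.disjoint_of_subset_right w2.sub g.disj)
    refine ⟨Finset.union_subset_union w1.sub w2.sub, ?_, ?_⟩
    · intro z hz hzW
      rw [Finset.mem_union, not_or] at hzW
      rcases Finset.mem_union.1 hz with hz | hz
      · have h1 := w1.blk z hz hzW.1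
        have h2 : dg D z (insert v (W1 ∪ W2)) = dg D z (insert v W1) := by
          have : insert v (W1 ∪ W2) = insert v W1 ∪ W2 := by rw [Finset.insert_union]
          rw [this, dg_union, g.dg1 hz w2.sub]
          · have : ¬ (z = h ∧ y ∈ W2) := fun h' => hzW.1 (h'.1 ▸ hh)
            simp [this]
          · rw [Finset.disjoint_insert_left]
            exact ⟨fun h' => hv2 (w2.sub h'), hd⟩
        omega
      · have h1 := w2.blk z hz hzW.2
        have h2 : dg D z (insert v (W1 ∪ W2)) = dg D z (insert h W2) := by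
          have e1 : insert v (W1 ∪ W2) = insert v W1 ∪ W2 := by rw [Finset.insert_union]
          rw [e1, dg_union, dg_insert (fun h' => hv1 (w1.sub h')), g.dg2 hz w1.sub,
            dg_insert (fun h' => g.hh (w2.sub h'))]
          · have h3 : ¬ D.Adj z v := fun h' => hvG z hz h'.symm
            simp only [h3, if_false, add_zero, hh, and_true]
            have h4 : D.Adj z h ↔ z = y := by
              constructor
              · intro h'
                exact (g.edge h (w1.sub hh) z hz h'.symm).2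
              · rintro rfl; exact g.adj.symm
            simp only [h4]
            omega
          · rw [Finset.disjoint_insert_left]
            exact ⟨fun h' => hv2 (w2.sub h'), hd⟩
        omega
    · intro X hX hne
      by_cases hX1 : (X ∩ W1).Nonempty
      · obtain ⟨z, hz, hlt⟩ := w1.fd (X ∩ W1) Finset.inter_subset_right hX1
        refine ⟨z, (Finset.mem_inter.1 hz).1, lt_of_lt_of_le hlt (Nat.add_le_add_left (dg_mono ?_) _)⟩
        refine Finset.insert_subset_insert _ ?_
        intro x hx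
        simp only [Finset.mem_sdiff, Finset.mem_inter, Finset.mem_union, not_and] at hx ⊢
        exact ⟨Or.inl hx.1, fun hxX => hx.2 hxX hx.1⟩
      · have hX2 : X ⊆ W2 := by
          intro x hx
          rcases Finset.mem_union.1 (hX hx) with h' | h'
          · exact absurd ⟨x, Finset.mem_inter.2 ⟨hx, h'⟩⟩ hX1
          · exact h'
        obtain ⟨z, hz, hlt⟩ := w2.fd X hX2 hne
        refine ⟨z, hz, lt_of_lt_of_le hlt (Nat.add_le_add_left (dg_mono ?_) _)⟩
        intro x hx
        rcases Finset.mem_insert.1 hx with h' | h'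
        · subst h'
          refine Finset.mem_insert_of_mem (Finset.mem_sdiff.2 ⟨Finset.mem_union_left _ hh, ?_⟩)
          intro h''
          exact hX1 ⟨x, Finset.mem_inter.2 ⟨h'', hh⟩⟩
        · rw [Finset.mem_sdiff] at h'
          exact Finset.mem_insert_of_mem (Finset.mem_sdiff.2 ⟨Finset.mem_union_right _ h'.1, h'.2⟩)
  · simp only [hh, if_false, Finset.union_empty]
    refine ⟨w1.sub.trans Finset.subset_union_left, ?_, w1.fd⟩
    intro z hz hzW
    rcases Finset.mem_union.1 hz with hz | hz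
    · exact w1.blk z hz hzW
    · have h1 : dg D z (insert v W1) = 0 := by
        rw [dg_insert (fun h' => hv1 (w1.sub h')), g.dg2 hz w1.sub]
        have h3 : ¬ D.Adj z v := fun h' => hvG z hz h'.symm
        simp [h3, hh]
      rw [h1, add_zero]
      exact hζ z hz

theorem mem_wav1 (g : Gate D G1 G2 h y) {v : V} (hv1 : v ∉ G1) (hv2 : v ∉ G2)
    (hvG : ∀ b ∈ G2, ¬ D.Adj v b) {ζ : V → ℕ} (hζ : ∀ z ∈ G2, ζ z ≤ r) {z : V} (hz : z ∈ G1) :
    z ∈ wav D r v (G1 ∪ G2) ζ ↔ z ∈ wav D r v G1 ζ := by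
  rw [g.wav_union hv1 hv2 hvG hζ, Finset.mem_union]
  constructor
  · rintro (h' | h')
    · exact h'
    · split_ifs at h' with hc
      · exact absurd ((isWave_wav h G2 ζ).sub h') (Finset.disjoint_left.1 g.disj hz)
      · simp at h'
  · exact Or.inl

theorem mem_wav2 (g : Gate D G1 G2 h y) {v : V} (hv1 : v ∉ G1) (hv2 : v ∉ G2)
    (hvG : ∀ b ∈ G2, ¬ D.Adj v b) {ζ : V → ℕ} (hζ : ∀ z ∈ G2, ζ z ≤ r) {z : V} (hz : z ∈ G2) :
    z ∈ wav D r v (G1 ∪ G2) ζ ↔ h ∈ wav D r v G1 ζ ∧ z ∈ wav D r h G2 ζ := by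
  rw [g.wav_union hv1 hv2 hvG hζ, Finset.mem_union]
  constructor
  · rintro (h' | h')
    · exact absurd hz (Finset.disjoint_left.1 g.disj ((isWave_wav v G1 ζ).sub h'))
    · split_ifs at h' with hc
      · exact ⟨hc, h'⟩
      · simp at h'
  · rintro ⟨h1, h2⟩
    right
    simp [h1, h2]

/-- one wave across a gate, first side -/
theorem stp1 (g : Gate D G1 G2 h y) {v : V} (hv1 : v ∉ G1) (hv2 : v ∉ G2)
    (hvG : ∀ b ∈ G2, ¬ D.Adj v b) {ζ : V → ℕ} (hζ : ∀ z ∈ G2, ζ z ≤ r) {z : V} (hz : z ∈ G1) :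
    stp D r v (G1 ∪ G2) ζ z = stp D r v G1 ζ z +
      (if z = h ∧ h ∈ wav D r v G1 ζ ∧ y ∈ wav D r h G2 ζ then 1 else 0) := by
  have b1 := stp_balance (D := D) (r := r) (v := v) (ζ := ζ) (Finset.mem_union_left G2 hz)
  have b2 := stp_balance (D := D) (r := r) (v := v) (ζ := ζ) hz
  have w1 := isWave_wav (D := D) (r := r) v G1 ζ
  have w2 := isWave_wav (D := D) (r := r) h G2 ζ
  have e1 : (z ∈ wav D r v (G1 ∪ G2) ζ) = (z ∈ wav D r v G1 ζ) := propext (g.mem_wav1 hv1 hv2 hvG hζ hz)
  have e2 : dg D z (insert v (wav D r v (G1 ∪ G2) ζ)) = dg D z (insert v (wav D r v G1 ζ)) +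
      (if z = h ∧ h ∈ wav D r v G1 ζ ∧ y ∈ wav D r h G2 ζ then 1 else 0) := by
    rw [g.wav_union hv1 hv2 hvG hζ, ← Finset.insert_union, dg_union]
    · congr 1
      by_cases hc : h ∈ wav D r v G1 ζ
      · simp only [hc, if_true, true_and]
        exact g.dg1 hz w2.sub
      · simp [hc, dg_empty]
    · by_cases hc : h ∈ wav D r v G1 ζ
      · simp only [hc, if_true]
        rw [Finset.disjoint_insert_left]
        exact ⟨fun h' => hv2 (w2.sub h'),
          Finset.disjoint_of_subset_left w1.sub (Finset.disjoint_of_subset_right w2.sub g.disj)⟩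
      · simp [hc]
  simp only [e1] at b1
  rw [e2] at b1
  omega

/-- one wave across a gate, second side -/
theorem stp2 (g : Gate D G1 G2 h y) {v : V} (hv1 : v ∉ G1) (hv2 : v ∉ G2)
    (hvG : ∀ b ∈ G2, ¬ D.Adj v b) {ζ : V → ℕ} (hζ : ∀ z ∈ G2, ζ z ≤ r) {z : V} (hz : z ∈ G2) :
    stp D r v (G1 ∪ G2) ζ z = if h ∈ wav D r v G1 ζ then stp D r h G2 ζ z else ζ z := by
  have b1 := stp_balance (D := D) (r := r) (v := v) (ζ := ζ) (Finset.mem_union_right G1 hz)
  have b2 := stp_balance (D := D) (r := r) (v := h) (ζ := ζ) hz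
  have w1 := isWave_wav (D := D) (r := r) v G1 ζ
  have w2 := isWave_wav (D := D) (r := r) h G2 ζ
  have e1 : (z ∈ wav D r v (G1 ∪ G2) ζ) = (h ∈ wav D r v G1 ζ ∧ z ∈ wav D r h G2 ζ) :=
    propext (g.mem_wav2 hv1 hv2 hvG hζ hz)
  have h3 : ¬ D.Adj z v := fun h' => hvG z hz h'.symm
  have e2 : dg D z (insert v (wav D r v (G1 ∪ G2) ζ)) =
      if h ∈ wav D r v G1 ζ then dg D z (insert h (wav D r h G2 ζ)) else 0 := by
    rw [g.wav_union hv1 hv2 hvG hζ, ← Finset.insert_union, dg_union, dg_insert (fun h' => hv1 (w1.sub h')),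
      g.dg2 hz w1.sub]
    · by_cases hc : h ∈ wav D r v G1 ζ
      · simp only [hc, if_true, h3, if_false, add_zero, and_true]
        rw [dg_insert (fun h' => g.hh (w2.sub h'))]
        have h4 : D.Adj z h ↔ z = y := by
          constructor
          · intro h'
            exact (g.edge h (w1.sub hc) z hz h'.symm).2
          · rintro rfl; exact g.adj.symm
        simp only [h4]
        omega
      · simp [hc, h3, dg_empty]
    · by_cases hc : h ∈ wav D r v G1 ζ
      · simp only [hc, if_true]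
        rw [Finset.disjoint_insert_left]
        exact ⟨fun h' => hv2 (w2.sub h'),
          Finset.disjoint_of_subset_left w1.sub (Finset.disjoint_of_subset_right w2.sub g.disj)⟩
      · simp [hc]
  simp only [e1] at b1
  rw [e2] at b1
  by_cases hc : h ∈ wav D r v G1 ζ
  · simp only [hc, true_and, if_true] at b1 ⊢
    omega
  · simp only [hc, false_and, if_false, add_zero] at b1 ⊢
    omega

/-- if the wave from `v` reaches `h` on the first side then `h` burns without the help of `y` -/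
theorem strong_of_wav (g : Gate D G1 G2 h y) (hd : DegLe D r) {v : V} (hv1 : v ∉ G1) (hvy : v ≠ y) {ζ : V → ℕ}
    (hr : RecW D 0 G1 ζ) (hh : h ∈ wav D r v G1 ζ) :
    RecW D (fun z => (0 : V → ℕ) z + dl h z) G1 ζ := by
  have w1 := isWave_wav (D := D) (r := r) v G1 ζ
  intro U hU hne
  by_contra hcon
  push Not at hcon
  have hhU : h ∈ U := by
    by_contra hh'
    obtain ⟨z, hz, hlt⟩ := hr U hU hne
    have h3 := hcon z hz
    have hzh : z ≠ h := fun e => hh' (e ▸ hz)
    simp only [dl, hzh, if_false, Pi.zero_apply] at h3 hlt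
    omega
  obtain ⟨z, hz, hlt⟩ := w1.fd (U ∩ wav D r v G1 ζ) Finset.inter_subset_right ⟨h, Finset.mem_inter.2 ⟨hhU, hh⟩⟩
  rw [Finset.mem_inter] at hz
  have h3 := hcon z hz.1
  simp only [Pi.zero_apply, zero_add, dl] at h3
  set W := wav D r v G1 ζ with hW
  have e0 : insert v (W \ (U ∩ W)) = insert v (W \ U) := by
    congr 1
    ext x
    simp only [Finset.mem_sdiff, Finset.mem_inter, not_and]
    constructor
    · rintro ⟨h1, h2⟩; exact ⟨h1, fun h' => h2 h' h1⟩
    · rintro ⟨h1, h2⟩; exact ⟨h1, fun h' => absurd h' h2⟩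
  rw [e0] at hlt
  have hdis : Disjoint U (insert v (W \ U)) := by
    rw [Finset.disjoint_insert_right]
    exact ⟨fun h' => hv1 (hU h'), Finset.disjoint_sdiff⟩
  have e1 : dg D z U + dg D z (insert v (W \ U)) = dg D z (U ∪ insert v (W \ U)) := (dg_union hdis).symm
  by_cases hzh : z = h
  · simp only [hzh, if_true] at h3
    rw [hzh] at hlt e1
    have hy : y ∉ U ∪ insert v (W \ U) := by
      simp only [Finset.mem_union, Finset.mem_insert, Finset.mem_sdiff, not_or, not_and]
      exact ⟨fun h' => g.hy (hU h'), fun h' => hvy h'.symm, fun h' => absurd (w1.sub h') g.hy⟩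
    have e2 := hd h (insert y (U ∪ insert v (W \ U)))
    rw [dg_insert hy] at e2
    simp only [g.adj, if_true] at e2
    omega
  · simp only [hzh, if_false] at h3
    have e2 := hd z (U ∪ insert v (W \ U))
    omega

end Gate

end Pool.Agent.Helper910
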