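import Mathlib
import Pool.Agent.Helper910.Gate

/-!
# Bridges, cones and blocks
(MP_4555f0_mp)
-/

namespace Pool.Agent.Helper910

open Classical Finset

variable {V : Type*} {D : SimpleGraph V} {r : ℕ}

/-- `v x` is a bridge -/
def BD (D : SimpleGraph V) (v x : V) : Prop := D.Adj v x ∧ D.IsBridge s(v, x)

theorem BD.symm {v x : V} (h : BD D v x) : BD D x v := ⟨h.1.symm, by rw [Sym2.eq_swap]; exact h.2⟩

/-- the side of `y` of the edge `h y` -/
def cone (D : SimpleGraph V) (c : V × V) : Set V := {z | (D.deleteEdges {s(c.1, c.2)}).Reachable c.2 z}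

/-- the component of `x` after removing the bridges -/
def blk (D : SimpleGraph V) (x : V) : Set V := {z | (D.deleteEdges {e | D.IsBridge e}).Reachable x z}

/-- the graph without its bridges -/
def nobr (D : SimpleGraph V) : SimpleGraph V := D.deleteEdges {e | D.IsBridge e}

theorem nobr_adj {a b : V} : (nobr D).Adj a b ↔ D.Adj a b ∧ ¬ D.IsBridge s(a, b) := by
  simp [nobr, SimpleGraph.deleteEdges_adj]

theorem nobr_le : nobr D ≤ D := SimpleGraph.deleteEdges_le _

theorem mem_cone {c : V × V} {z : V} : z ∈ cone D c ↔ (D.deleteEdges {s(c.1, c.2)}).Reachable c.2 z := Iff.rfl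

theorem mem_blk {x z : V} : z ∈ blk D x ↔ (nobr D).Reachable x z := Iff.rfl

theorem snd_mem_cone (c : V × V) : c.2 ∈ cone D c := SimpleGraph.Reachable.refl _

theorem fst_notMem_cone {c : V × V} (h : BD D c.1 c.2) : c.1 ∉ cone D c := by
  intro h'
  exact (SimpleGraph.isBridge_iff.1 h.2) (mem_cone.1 h').symm

theorem self_mem_blk (x : V) : x ∈ blk D x := SimpleGraph.Reachable.refl _

/-- the only edge leaving a cone -/
theorem cone_edge {c : V × V} (hc : BD D c.1 c.2) {a b : V} (ha : a ∉ cone D c) (hb : b ∈ cone D c)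
    (hab : D.Adj a b) : a = c.1 ∧ b = c.2 := by
  by_cases he : s(a, b) = s(c.1, c.2)
  · rw [Sym2.eq_iff] at he
    rcases he with h | h
    · exact h
    · exfalso
      rw [h.2] at hb
      exact fst_notMem_cone hc hb
  · exfalso
    apply ha
    have : (D.deleteEdges {s(c.1, c.2)}).Adj b a := by
      rw [SimpleGraph.deleteEdges_adj]
      refine ⟨hab.symm, ?_⟩
      rw [Set.mem_singleton_iff, Sym2.eq_swap]
      exact he
    exact (mem_cone.1 hb).trans this.reachable

/-- a set any two points of which are joined by a walk inside the set -/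
def InConn (D : SimpleGraph V) (Q : Set V) : Prop := ∀ a ∈ Q, ∀ b ∈ Q, ∃ p : D.Walk a b, ∀ z ∈ p.support, z ∈ Q

theorem cone_disj_set {Q : Set V} (hQ : InConn D Q) {c : V × V} (hc : BD D c.1 c.2) (h1 : c.1 ∈ Q) (h2 : c.2 ∉ Q)
    {z : V} (hz : z ∈ cone D c) : z ∉ Q := by
  intro hzQ
  obtain ⟨p, hp⟩ := hQ z hzQ c.1 h1
  have hne : s(c.1, c.2) ∉ p.edges := fun h => h2 (hp _ (p.snd_mem_support_of_mem_edges h))
  have : (D.deleteEdges {s(c.1, c.2)}).Reachable z c.1 :=
    SimpleGraph.reachable_deleteEdges_iff_exists_walk.2 ⟨p, hne⟩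
  exact fst_notMem_cone hc ((mem_cone.1 hz).trans this)

theorem reach_ind {G : SimpleGraph V} {P : V → Prop} {a : V} (ha : P a) (hs : ∀ b c, G.Reachable a b → P b → G.Adj b c → P c) :
    ∀ {z : V}, G.Reachable a z → P z := by
  intro z hz
  obtain ⟨p⟩ := hz
  -- induction on the walk, generalised
  have key : ∀ {x y : V} (p : G.Walk x y), G.Reachable a x → P x → P y := by
    intro x y p
    induction p with
    | nil => intro _ h; exact h
    | cons h p ih => intro hr hP; exact ih (hr.trans h.reachable) (hs _ _ hr hP h)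
  exact key p (SimpleGraph.Reachable.refl _) ha

theorem cone_disj_cone {Q : Set V} (hQ : InConn D Q) {c c' : V × V} (hc : BD D c.1 c.2) (h1 : c.1 ∈ Q) (h2 : c.2 ∉ Q)
    (hc' : BD D c'.1 c'.2) (h1' : c'.1 ∈ Q) (h2' : c'.2 ∉ Q) (hne : c ≠ c') :
    Disjoint (cone D c) (cone D c') := by
  rw [Set.disjoint_right]
  intro z hz
  refine reach_ind (G := D.deleteEdges {s(c'.1, c'.2)}) (P := fun z => z ∉ cone D c) (a := c'.2) ?_ ?_ hz
  · intro hy
    have h3 : c'.1 ∉ cone D c := fun h => cone_disj_set hQ hc h1 h2 h h1'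
    obtain ⟨e1, e2⟩ := cone_edge hc h3 hy hc'.1
    exact hne (Prod.ext e1.symm e2.symm)
  · intro a b hra ha hab hb
    have hab' : D.Adj a b := (SimpleGraph.deleteEdges_adj.1 hab).1
    obtain ⟨e1, -⟩ := cone_edge hc ha hb hab'
    rw [e1] at hra
    exact cone_disj_set hQ hc' h1' h2' (mem_cone.2 hra) h1

/-- exits of `Q` are bridges -/
def ExitBr (D : SimpleGraph V) (Q : Set V) : Prop := ∀ a ∈ Q, ∀ b, b ∉ Q → D.Adj a b → BD D a b

theorem cover (hD : D.Connected) {Q : Set V} (hne : Q.Nonempty) (hQ : ExitBr D Q) {z : V} (hz : z ∉ Q) :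
    ∃ c : V × V, BD D c.1 c.2 ∧ c.1 ∈ Q ∧ c.2 ∉ Q ∧ z ∈ cone D c := by
  obtain ⟨q, hq⟩ := hne
  have key : z ∈ Q ∨ ∃ c : V × V, BD D c.1 c.2 ∧ c.1 ∈ Q ∧ c.2 ∉ Q ∧ z ∈ cone D c := by
    refine reach_ind (G := D) (P := fun z => z ∈ Q ∨ ∃ c : V × V, BD D c.1 c.2 ∧ c.1 ∈ Q ∧ c.2 ∉ Q ∧ z ∈ cone D c) (a := q)
      (Or.inl hq) ?_ (hD.preconnected q z)
    intro a b _ hP hab
    rcases hP with ha | ⟨c, hc, h1, h2, ha⟩
    · by_cases hb : b ∈ Q
      · exact Or.inl hb
      · exact Or.inr ⟨(a, b), hQ a ha b hb hab, ha, hb, snd_mem_cone (a, b)⟩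
    · by_cases hb : b ∈ cone D c
      · exact Or.inr ⟨c, hc, h1, h2, hb⟩
      · obtain ⟨e1, e2⟩ := cone_edge hc hb ha hab.symm
        exact Or.inl (e1 ▸ h1)
  rcases key with h | h
  · exact absurd h hz
  · exact h

theorem cone_swap_disj {c : V × V} (hc : BD D c.1 c.2) : Disjoint (cone D c) (cone D (c.2, c.1)) := by
  rw [Set.disjoint_left]
  intro z hz hz'
  rw [mem_cone] at hz hz'
  simp only at hz'
  rw [Sym2.eq_swap] at hz'
  exact fst_notMem_cone hc (mem_cone.2 (hz.trans hz'.symm))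

theorem cone_swap_cover (hD : D.Connected) {c : V × V} (z : V) : z ∈ cone D c ∨ z ∈ cone D (c.2, c.1) := by
  refine reach_ind (G := D) (P := fun z => z ∈ cone D c ∨ z ∈ cone D (c.2, c.1)) (a := c.2)
      (Or.inl (snd_mem_cone c)) ?_ (hD.preconnected c.2 z)
  intro a b _ hP hab
  by_cases he : s(a, b) = s(c.1, c.2)
  · rw [Sym2.eq_iff] at he
    rcases he with h | h
    · left; rw [h.2]; exact snd_mem_cone c
    · right; rw [h.2]; exact snd_mem_cone (c.2, c.1)
  · have h1 : (D.deleteEdges {s(c.1, c.2)}).Adj a b := by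
      rw [SimpleGraph.deleteEdges_adj]; exact ⟨hab, he⟩
    rcases hP with h | h
    · left; exact (mem_cone.1 h).trans h1.reachable
    · right
      have h2 : (D.deleteEdges {s(c.2, c.1)}).Adj a b := by
        rw [Sym2.eq_swap (a := c.2)]; exact h1
      exact (mem_cone.1 h).trans h2.reachable

/-! ### blocks -/

theorem blk_inConn (x : V) : InConn D (blk D x) := by
  intro a ha b hb
  rw [mem_blk] at ha hb
  obtain ⟨p⟩ := ha.symm.trans hb
  refine ⟨p.map (SimpleGraph.Hom.ofLE nobr_le), ?_⟩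
  intro z hz
  rw [SimpleGraph.Walk.support_map] at hz
  simp only [List.mem_map] at hz
  obtain ⟨z', hz', rfl⟩ := hz
  rw [mem_blk]
  exact ha.trans (p.takeUntil z' hz').reachable

theorem blk_exit (x : V) : ExitBr D (blk D x) := by
  intro a ha b hb hab
  refine ⟨hab, ?_⟩
  by_contra hbr
  apply hb
  rw [mem_blk] at ha ⊢
  exact ha.trans (nobr_adj.2 ⟨hab, hbr⟩ : (nobr D).Adj a b).reachable

theorem blk_bridge {x h y : V} (hh : h ∈ blk D x) (hb : BD D h y) : y ∉ blk D x := by
  intro hy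
  rw [mem_blk] at hh hy
  have h1 : (nobr D).Reachable h y := hh.symm.trans hy
  have hle : nobr D ≤ D.deleteEdges {s(h, y)} := by
    intro a b hab
    rw [nobr_adj] at hab
    rw [SimpleGraph.deleteEdges_adj]
    refine ⟨hab.1, ?_⟩
    intro he
    rw [Set.mem_singleton_iff] at he
    exact hab.2 (he ▸ hb.2)
  exact (SimpleGraph.isBridge_iff.1 hb.2) (h1.mono hle)

theorem blk_eq {x z : V} (h : z ∈ blk D x) : blk D z = blk D x := by
  ext w
  rw [mem_blk, mem_blk]
  rw [mem_blk] at h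
  exact ⟨fun h' => h.trans h', fun h' => h.symm.trans h'⟩

theorem blk_subset_cone {v x : V} (hb : BD D v x) : blk D x ⊆ cone D (v, x) := by
  intro z hz
  by_contra hcon
  have hxv : BD D x v := hb.symm
  have h2 : v ∉ blk D x := blk_bridge (self_mem_blk x) hxv
  refine hcon ?_
  refine reach_ind (G := nobr D) (P := fun z => z ∈ cone D (v, x)) (a := x) (snd_mem_cone (v, x)) ?_ hz
  intro a b _ ha hab
  by_contra hbc
  rw [nobr_adj] at hab
  obtain ⟨e1, e2⟩ := cone_edge (c := (v, x)) hb hbc ha hab.1.symm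
  simp only at e1 e2
  subst e1; subst e2
  exact hab.2 hxv.2

/-! ### decompositions -/

/-- a region `Ω` decomposed into a finite set `Q` and disjoint cones attached to it -/
structure Dec (D : SimpleGraph V) (Ω : Set V) (Q : Finset V) (C : Finset (V × V)) : Prop where
  br : ∀ c ∈ C, BD D c.1 c.2
  fst : ∀ c ∈ C, c.1 ∈ Q
  sub : ∀ z ∈ Q, z ∈ Ω
  csub : ∀ c ∈ C, cone D c ⊆ Ω
  cdisj : ∀ c ∈ C, ∀ z ∈ cone D c, z ∉ Q
  pair : ∀ c ∈ C, ∀ c' ∈ C, c ≠ c' → Disjoint (cone D c) (cone D c')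
  cov : ∀ z ∈ Ω, z ∈ Q ∨ ∃ c ∈ C, z ∈ cone D c

theorem Dec.erase {Ω : Set V} {Q : Finset V} {C : Finset (V × V)} (d : Dec D Ω Q C) {c : V × V} (hc : c ∈ C) :
    Dec D (Ω \ cone D c) Q (C.erase c) where
  br c' hc' := d.br c' (Finset.mem_of_mem_erase hc')
  fst c' hc' := d.fst c' (Finset.mem_of_mem_erase hc')
  sub z hz := ⟨d.sub z hz, fun h => d.cdisj c hc z h hz⟩
  csub c' hc' := by
    intro z hz
    refine ⟨d.csub c' (Finset.mem_of_mem_erase hc') hz, ?_⟩
    exact Set.disjoint_left.1 (d.pair c' (Finset.mem_of_mem_erase hc') c hc (Finset.ne_of_mem_erase hc')) hz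
  cdisj c' hc' := d.cdisj c' (Finset.mem_of_mem_erase hc')
  pair c' hc' c'' hc'' h := d.pair c' (Finset.mem_of_mem_erase hc') c'' (Finset.mem_of_mem_erase hc'') h
  cov z hz := by
    rcases d.cov z hz.1 with h | ⟨c', hc', h⟩
    · exact Or.inl h
    · refine Or.inr ⟨c', Finset.mem_erase.2 ⟨?_, hc'⟩, h⟩
      rintro rfl
      exact hz.2 h

/-- the part of `G` in a region -/
noncomputable def prt (G : Finset V) (Ω : Set V) : Finset V := G.filter (fun z => z ∈ Ω)

theorem mem_prt {G : Finset V} {Ω : Set V} {z : V} : z ∈ prt G Ω ↔ z ∈ G ∧ z ∈ Ω := by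
  simp [prt]

theorem prt_union {G : Finset V} {Ω : Set V} {c : V × V} (h : cone D c ⊆ Ω) :
    prt G (Ω \ cone D c) ∪ prt G (cone D c) = prt G Ω := by
  ext z
  simp only [Finset.mem_union, mem_prt, Set.mem_sdiff]
  constructor
  · rintro (h' | h')
    · exact ⟨h'.1, h'.2.1⟩
    · exact ⟨h'.1, h h'.2⟩
  · rintro ⟨h1, h2⟩
    by_cases hz : z ∈ cone D c
    · exact Or.inr ⟨h1, hz⟩
    · exact Or.inl ⟨h1, h2, hz⟩

/-- cutting off a cone is a gate -/
theorem gate_cone {G : Finset V} {Ω : Set V} {c : V × V} (hb : BD D c.1 c.2) :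
    Gate D (prt G (Ω \ cone D c)) (prt G (cone D c)) c.1 c.2 where
  disj := by
    rw [Finset.disjoint_left]
    intro z hz hz'
    rw [mem_prt] at hz hz'
    exact hz.2.2 hz'.2
  edge a ha b hb' hab := by
    rw [mem_prt] at ha hb'
    exact cone_edge hb ha.2.2 hb'.2 hab
  adj := hb.1
  hy h := by
    rw [mem_prt] at h
    exact h.2.2 (snd_mem_cone c)
  hh h := by
    rw [mem_prt] at h
    exact fst_notMem_cone hb h.2

section lf
variable [D.LocallyFinite]

/-- darts leaving a finite set through bridges -/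
noncomputable def bdr (D : SimpleGraph V) [D.LocallyFinite] (Q : Finset V) : Finset (V × V) :=
  (Q ×ˢ (Q.biUnion (fun z => D.neighborFinset z))).filter (fun c => c.2 ∉ Q ∧ BD D c.1 c.2)

theorem mem_bdr {Q : Finset V} {c : V × V} : c ∈ bdr D Q ↔ c.1 ∈ Q ∧ c.2 ∉ Q ∧ BD D c.1 c.2 := by
  unfold bdr
  rw [Finset.mem_filter, Finset.mem_product, Finset.mem_biUnion]
  constructor
  · rintro ⟨⟨h1, -⟩, h2⟩; exact ⟨h1, h2⟩
  · rintro ⟨h1, h2, h3⟩
    exact ⟨⟨h1, c.1, h1, by rw [SimpleGraph.mem_neighborFinset]; exact h3.1⟩, h2, h3⟩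

/-- decomposition of the whole graph -/
theorem dec_univ (hD : D.Connected) {Q : Finset V} (hne : Q.Nonempty) (hQ : InConn D (Q : Set V))
    (hE : ExitBr D (Q : Set V)) : Dec D Set.univ Q (bdr D Q) where
  br c hc := (mem_bdr.1 hc).2.2
  fst c hc := (mem_bdr.1 hc).1
  sub z _ := Set.mem_univ z
  csub c _ := Set.subset_univ _
  cdisj c hc z hz := by
    have h := mem_bdr.1 hc
    have := cone_disj_set hQ h.2.2 (by exact_mod_cast h.1) (by exact_mod_cast h.2.1) hz
    exact_mod_cast this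
  pair c hc c' hc' hcc := by
    have h := mem_bdr.1 hc
    have h' := mem_bdr.1 hc'
    exact cone_disj_cone hQ h.2.2 (by exact_mod_cast h.1) (by exact_mod_cast h.2.1) h'.2.2
      (by exact_mod_cast h'.1) (by exact_mod_cast h'.2.1) hcc
  cov z _ := by
    by_cases hz : z ∈ Q
    · exact Or.inl hz
    · obtain ⟨c, h1, h2, h3, h4⟩ := cover hD (Q := (Q : Set V)) (by exact_mod_cast hne) hE (z := z) (by exact_mod_cast hz)
      exact Or.inr ⟨c, mem_bdr.2 ⟨by exact_mod_cast h2, by exact_mod_cast h3, h1⟩, h4⟩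

/-- decomposition of a cone -/
theorem dec_cone (hD : D.Connected) {Q : Finset V} {v x : V} (hb : BD D v x) (hQx : (Q : Set V) = blk D x) :
    Dec D (cone D (v, x)) Q ((bdr D Q).erase (x, v)) := by
  have hxQ : x ∈ Q := by
    have : x ∈ (Q : Set V) := hQx ▸ self_mem_blk x
    exact_mod_cast this
  have hQ : InConn D (Q : Set V) := hQx ▸ blk_inConn x
  have hE : ExitBr D (Q : Set V) := hQx ▸ blk_exit x
  have du := dec_univ hD ⟨x, hxQ⟩ hQ hE
  have hvQ : v ∉ Q := by
    have : v ∉ (Q : Set V) := hQx ▸ blk_bridge (self_mem_blk x) hb.symm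
    exact_mod_cast this
  have hxv : (x, v) ∈ bdr D Q := mem_bdr.2 ⟨hxQ, hvQ, hb.symm⟩
  have de := du.erase hxv
  have hΩ : cone D (v, x) = Set.univ \ cone D (x, v) := by
    ext z
    constructor
    · intro hz
      exact ⟨Set.mem_univ _, fun h => Set.disjoint_left.1 (cone_swap_disj (c := (v, x)) hb) hz h⟩
    · rintro ⟨-, hz⟩
      rcases cone_swap_cover hD (c := (v, x)) z with h | h
      · exact h
      · exact absurd h hz
  rw [hΩ]
  exact de

end lf

/-- blocks as finite sets -/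
noncomputable def Bf (D : SimpleGraph V) (x : V) : Finset V := if h : (blk D x).Finite then h.toFinset else ∅

theorem coe_Bf {x : V} (h : (blk D x).Finite) : (Bf D x : Set V) = blk D x := by
  simp [Bf, h]

theorem mem_Bf {x z : V} (h : (blk D x).Finite) : z ∈ Bf D x ↔ z ∈ blk D x := by
  simp [Bf, h]

/-! ### automorphisms -/

theorem map_isBridge (φ : D ≃g D) {a b : V} : D.IsBridge s(φ a, φ b) ↔ D.IsBridge s(a, b) := by
  rw [SimpleGraph.isBridge_iff_forall_walk_mem_edges, SimpleGraph.isBridge_iff_forall_walk_mem_edges]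
  constructor
  · intro h p
    have h1 := h (p.map φ.toHom)
    rw [SimpleGraph.Walk.edges_map, List.mem_map] at h1
    obtain ⟨e, he, h2⟩ := h1
    have : e = s(a, b) := by
      apply Sym2.map.injective φ.injective
      rw [Sym2.map_mk]
      exact h2
    exact this ▸ he
  · intro h p
    have e1 : φ.symm (φ a) = a := φ.symm_apply_apply a
    have e2 : φ.symm (φ b) = b := φ.symm_apply_apply b
    have h1 := h ((p.map φ.symm.toHom).copy e1 e2)
    rw [SimpleGraph.Walk.edges_copy, SimpleGraph.Walk.edges_map, List.mem_map] at h1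
    obtain ⟨e, he, h2⟩ := h1
    have : e = s(φ a, φ b) := by
      apply Sym2.map.injective φ.symm.injective
      rw [Sym2.map_mk]
      refine Eq.trans h2 ?_
      rw [e1, e2]
    exact this ▸ he

theorem map_BD (φ : D ≃g D) {a b : V} : BD D (φ a) (φ b) ↔ BD D a b := by
  unfold BD
  rw [map_isBridge, φ.map_adj_iff]

theorem map_mem_blk (φ : D ≃g D) {x z : V} (hz : z ∈ blk D x) : φ z ∈ blk D (φ x) := by
  refine reach_ind (G := nobr D) (P := fun z => φ z ∈ blk D (φ x)) (a := x) (self_mem_blk _) ?_ hz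
  intro a b _ ha hab
  rw [nobr_adj] at hab
  rw [mem_blk] at ha ⊢
  refine ha.trans (nobr_adj.2 ⟨φ.map_adj_iff.2 hab.1, ?_⟩ : (nobr D).Adj (φ a) (φ b)).reachable
  rw [map_isBridge]; exact hab.2

theorem map_mem_blk_iff (φ : D ≃g D) {x z : V} : φ z ∈ blk D (φ x) ↔ z ∈ blk D x := by
  constructor
  · intro h
    have := map_mem_blk φ.symm h
    rwa [φ.symm_apply_apply, φ.symm_apply_apply] at this
  · exact map_mem_blk φ

end Pool.Agent.Helper910
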