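import Mathlib
import Pool.Agent.Helper910.Geom

/-!
# Standing assumptions and first consequences
(MP_4555f0_mp)
-/

namespace Pool.Agent.Helper910

open Classical Finset

variable {V : Type*}

/-- standing assumptions -/
structure Ctx (D : SimpleGraph V) [D.LocallyFinite] (r : ℕ) : Prop where
  conn : D.Connected
  inf : Infinite V
  reg : D.IsRegularOfDegree r
  trans : ∀ x y : V, ∃ φ : D ≃g D, φ x = y
  fin : ∀ x : V, (blk D x).Finite
  cyc : ¬ D.IsAcyclic

variable {D : SimpleGraph V} [D.LocallyFinite] {r : ℕ}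

theorem Ctx.nonempty (H : Ctx D r) : Nonempty V := by
  have := H.inf
  infer_instance

theorem dg_eq_inter {v : V} {S : Finset V} : dg D v S = (D.neighborFinset v ∩ S).card := by
  unfold dg
  congr 1
  ext w
  simp [and_comm]

theorem Ctx.degLe (H : Ctx D r) : DegLe D r := by
  intro v S
  rw [dg_eq_inter]
  refine (Finset.card_le_card Finset.inter_subset_left).trans ?_
  have := H.reg v
  rw [SimpleGraph.card_neighborFinset_eq_degree]
  exact this.le

theorem Ctx.dg_nbr (H : Ctx D r) (v : V) : dg D v (D.neighborFinset v) = r := by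
  rw [dg_eq_inter, Finset.inter_self, SimpleGraph.card_neighborFinset_eq_degree]
  exact H.reg v

/-- a nonempty finite set has an exit edge -/
theorem Ctx.exit (H : Ctx D r) {U : Finset V} (hU : U.Nonempty) : ∃ z ∈ U, ∃ b, b ∉ U ∧ D.Adj z b := by
  by_contra hcon
  push Not at hcon
  obtain ⟨q, hq⟩ := hU
  have hall : ∀ z, z ∈ U := by
    intro z
    refine reach_ind (G := D) (P := fun z => z ∈ U) (a := q) hq ?_ (H.conn.preconnected q z)
    intro a b _ ha hab
    by_contra hb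
    exact hcon a ha b hb hab
  have := H.inf
  exact (Set.infinite_univ (α := V)) ((Finset.finite_toSet U).subset (fun z _ => hall z))

theorem Ctx.exit_dg (H : Ctx D r) {U : Finset V} (hU : U.Nonempty) : ∃ z ∈ U, dg D z U < r := by
  obtain ⟨z, hz, b, hb, hab⟩ := H.exit hU
  refine ⟨z, hz, ?_⟩
  have h1 := H.degLe z (insert b U)
  rw [dg_insert hb] at h1
  simp only [hab, if_true] at h1
  omega

/-- the configuration of maximal heights -/
theorem Ctx.top_mem (H : Ctx D r) (hr : 1 ≤ r) (G : Finset V) : rs G (fun _ => r) ∈ Rc D r G := by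
  rw [mem_Rc]
  refine ⟨⟨fun v hv => ?_, fun v hv => rs_notMem hv⟩, ?_⟩
  · rw [rs_mem hv]; exact ⟨hr, le_refl _⟩
  · intro U hU hne
    obtain ⟨z, hz, hlt⟩ := H.exit_dg hne
    refine ⟨z, hz, ?_⟩
    rw [rs_mem (hU hz)]
    simpa using hlt

theorem Ctx.bridge_at (H : Ctx D r) (x : V) : ∃ y, BD D x y := by
  obtain ⟨q⟩ := H.nonempty
  have h1 : ∃ z, z ∉ blk D q := by
    by_contra hcon
    push Not at hcon
    have := H.inf
    exact (Set.infinite_univ (α := V)) ((H.fin q).subset (fun z _ => hcon z))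
  obtain ⟨z, hz⟩ := h1
  obtain ⟨c, hc, -, -, -⟩ := cover H.conn (Q := blk D q) ⟨q, self_mem_blk q⟩ (blk_exit q) hz
  obtain ⟨φ, hφ⟩ := H.trans c.1 x
  exact ⟨φ c.2, by rw [← hφ]; exact (map_BD φ).2 hc⟩

theorem Ctx.two_nbrs (H : Ctx D r) (x : V) : ∃ a b, a ≠ b ∧ D.Adj x a ∧ D.Adj x b ∧ a ∈ blk D x ∧ b ∈ blk D x := by
  have hc := H.cyc
  rw [SimpleGraph.IsAcyclic] at hc
  push Not at hc
  obtain ⟨v, p, hp⟩ := hc
  have h1 : D.Adj v p.snd := p.adj_snd hp.not_nil
  have h2 : D.Adj p.penultimate v := p.adj_penultimate hp.not_nil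
  have e1 : s(v, p.snd) ∈ p.edges := SimpleGraph.Walk.mk_start_snd_mem_edges hp.not_nil
  have e2 : s(p.penultimate, v) ∈ p.edges := SimpleGraph.Walk.mk_penultimate_end_mem_edges hp.not_nil
  have n1 : ¬ D.IsBridge s(v, p.snd) := fun h => h.notMem_edges_of_isCycle hp e1
  have n2 : ¬ D.IsBridge s(p.penultimate, v) := fun h => h.notMem_edges_of_isCycle hp e2
  obtain ⟨φ, hφ⟩ := H.trans v x
  have b1 : p.snd ∈ blk D v := (nobr_adj.2 ⟨h1, n1⟩ : (nobr D).Adj v p.snd).reachable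
  have b2 : p.penultimate ∈ blk D v :=
    (nobr_adj.2 ⟨h2.symm, by rw [Sym2.eq_swap]; exact n2⟩ : (nobr D).Adj v p.penultimate).reachable
  refine ⟨φ p.snd, φ p.penultimate, ?_, ?_, ?_, ?_, ?_⟩
  · intro h
    exact hp.snd_ne_penultimate (φ.injective h)
  · rw [← hφ]; exact φ.map_adj_iff.2 h1
  · rw [← hφ]; exact φ.map_adj_iff.2 h2.symm
  · rw [← hφ]; exact map_mem_blk φ b1
  · rw [← hφ]; exact map_mem_blk φ b2

theorem Ctx.mem_Bf (H : Ctx D r) {x z : V} : z ∈ Bf D x ↔ z ∈ blk D x := Helper910.mem_Bf (H.fin x)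

theorem Ctx.coe_Bf (H : Ctx D r) (x : V) : (Bf D x : Set V) = blk D x := Helper910.coe_Bf (H.fin x)

theorem Ctx.self_mem_Bf (H : Ctx D r) (x : V) : x ∈ Bf D x := H.mem_Bf.2 (self_mem_blk x)

theorem Ctx.three_le_Bf (H : Ctx D r) (x : V) : 3 ≤ (Bf D x).card := by
  obtain ⟨a, b, hab, h1, h2, h3, h4⟩ := H.two_nbrs x
  have : ({x, a, b} : Finset V) ⊆ Bf D x := by
    intro z hz
    simp only [Finset.mem_insert, Finset.mem_singleton] at hz
    rcases hz with rfl | rfl | rfl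
    · exact H.self_mem_Bf _
    · exact H.mem_Bf.2 h3
    · exact H.mem_Bf.2 h4
  refine le_trans ?_ (Finset.card_le_card this)
  rw [Finset.card_insert_of_notMem, Finset.card_pair hab]
  simp [h1.ne, h2.ne]

theorem Ctx.three_le (H : Ctx D r) : 3 ≤ r := by
  obtain ⟨x⟩ := H.nonempty
  obtain ⟨a, b, hab, h1, h2, h3, h4⟩ := H.two_nbrs x
  obtain ⟨y, hy⟩ := H.bridge_at x
  have hyb : y ∉ blk D x := blk_bridge (self_mem_blk x) hy
  have hya : y ≠ a := fun h => hyb (h ▸ h3)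
  have hyb' : y ≠ b := fun h => hyb (h ▸ h4)
  have : ({y, a, b} : Finset V) ⊆ D.neighborFinset x := by
    intro z hz
    simp only [Finset.mem_insert, Finset.mem_singleton] at hz
    rw [SimpleGraph.mem_neighborFinset]
    rcases hz with rfl | rfl | rfl
    · exact hy.1
    · exact h1
    · exact h2
  have h5 := Finset.card_le_card this
  rw [Finset.card_insert_of_notMem, Finset.card_pair hab, SimpleGraph.card_neighborFinset_eq_degree, H.reg x] at h5
  · exact h5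
  · simp [hya, hyb']

theorem Ctx.card_Bf (H : Ctx D r) (x y : V) : (Bf D x).card = (Bf D y).card := by
  obtain ⟨φ, hφ⟩ := H.trans x y
  refine Finset.card_bij (fun z _ => φ z) ?_ ?_ ?_
  · intro z hz
    rw [H.mem_Bf] at hz ⊢
    rw [← hφ]; exact map_mem_blk φ hz
  · intro a _ b _ h; exact φ.injective h
  · intro b hb
    refine ⟨φ.symm b, ?_, φ.apply_symm_apply b⟩
    rw [H.mem_Bf] at hb ⊢
    rw [← map_mem_blk_iff φ, hφ, φ.apply_symm_apply]
    exact hb

theorem Ctx.bdr_Bf_iff (H : Ctx D r) {x : V} {c : V × V} : c ∈ bdr D (Bf D x) ↔ c.1 ∈ blk D x ∧ BD D c.1 c.2 := by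
  rw [mem_bdr, H.mem_Bf, H.mem_Bf]
  constructor
  · rintro ⟨h1, -, h3⟩; exact ⟨h1, h3⟩
  · rintro ⟨h1, h3⟩; exact ⟨h1, blk_bridge h1 h3, h3⟩

theorem Ctx.card_bdr (H : Ctx D r) (x y : V) : (bdr D (Bf D x)).card = (bdr D (Bf D y)).card := by
  obtain ⟨φ, hφ⟩ := H.trans x y
  refine Finset.card_bij (fun c _ => (φ c.1, φ c.2)) ?_ ?_ ?_
  · intro c hc
    rw [H.bdr_Bf_iff] at hc ⊢
    rw [← hφ]; exact ⟨map_mem_blk φ hc.1, (map_BD φ).2 hc.2⟩
  · intro a _ b _ h
    rw [Prod.mk.injEq] at h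
    exact Prod.ext (φ.injective h.1) (φ.injective h.2)
  · intro b hb
    refine ⟨(φ.symm b.1, φ.symm b.2), ?_, by simp⟩
    rw [H.bdr_Bf_iff] at hb ⊢
    refine ⟨?_, ?_⟩
    · rw [← map_mem_blk_iff φ, hφ]
      simpa using hb.1
    · rw [← map_BD φ]
      simpa using hb.2

theorem Ctx.card_Bf_le_bdr (H : Ctx D r) (x : V) : (Bf D x).card ≤ (bdr D (Bf D x)).card := by
  choose y hy using H.bridge_at
  refine Finset.card_le_card_of_injOn (fun z => (z, y z)) ?_ ?_
  · intro z hz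
    have hz' : z ∈ Bf D x := hz
    rw [H.mem_Bf] at hz'
    exact Finset.mem_coe.2 (H.bdr_Bf_iff.2 ⟨hz', hy z⟩)
  · intro a _ b _ h
    exact (Prod.mk.inj h).1

/-- children of a dart -/
noncomputable def ch (D : SimpleGraph V) [D.LocallyFinite] (e : V × V) : Finset (V × V) :=
  (bdr D (Bf D e.2)).erase (e.2, e.1)

theorem Ctx.mem_ch (H : Ctx D r) {e c : V × V} : c ∈ ch D e ↔ c ≠ (e.2, e.1) ∧ c.1 ∈ blk D e.2 ∧ BD D c.1 c.2 := by
  rw [ch, Finset.mem_erase, H.bdr_Bf_iff]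

theorem Ctx.swap_mem (H : Ctx D r) {e : V × V} (he : BD D e.1 e.2) : (e.2, e.1) ∈ bdr D (Bf D e.2) :=
  H.bdr_Bf_iff.2 ⟨self_mem_blk _, he.symm⟩

theorem Ctx.card_ch (H : Ctx D r) {e : V × V} (he : BD D e.1 e.2) :
    (ch D e).card + 1 = (bdr D (Bf D e.2)).card := by
  rw [ch]
  exact Finset.card_erase_add_one (H.swap_mem he)

theorem Ctx.two_le_ch (H : Ctx D r) {e : V × V} (he : BD D e.1 e.2) : 2 ≤ (ch D e).card := by
  have h1 := H.card_ch he
  have h2 := H.card_Bf_le_bdr e.2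
  have h3 := H.three_le_Bf e.2
  omega

theorem Ctx.dec_ch (H : Ctx D r) {e : V × V} (he : BD D e.1 e.2) : Dec D (cone D e) (Bf D e.2) (ch D e) :=
  dec_cone H.conn (v := e.1) (x := e.2) he (H.coe_Bf e.2)

omit [D.LocallyFinite] in
theorem src_adj {e : V × V} (he : BD D e.1 e.2) {z : V} (hz : z ∈ cone D e) :
    D.Adj e.1 z ↔ z = e.2 := by
  constructor
  · intro h
    exact (cone_edge he (fst_notMem_cone he) hz h).2
  · rintro rfl; exact he.1

end Pool.Agent.Helper910
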