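import Mathlib
import Pool.Agent.Helper910.Ctx

/-!
# The harmonic function of one wave
(MP_4555f0_mp)
-/

namespace Pool.Agent.Helper910

open Classical Finset

variable {V : Type*} {D : SimpleGraph V} [D.LocallyFinite] {r : ℕ}

/-- number of recurrent configurations whose wave reaches `z` -/
noncomputable def cnt (D : SimpleGraph V) (r : ℕ) (v : V) (G : Finset V) (z : V) : ℕ :=
  ((Rc D r G).filter (fun ζ => z ∈ wav D r v G ζ)).card

omit [D.LocallyFinite] in
theorem cnt_notMem {v : V} {G : Finset V} {z : V} (hz : z ∉ G) : cnt D r v G z = 0 := by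
  unfold cnt
  rw [Finset.card_eq_zero, Finset.filter_eq_empty_iff]
  intro ζ _ h
  exact hz ((isWave_wav v G ζ).sub h)

omit [D.LocallyFinite] in
theorem cnt_eq_sum {v : V} {G : Finset V} {z : V} :
    cnt D r v G z = ∑ ζ ∈ Rc D r G, if z ∈ wav D r v G ζ then 1 else 0 := by
  unfold cnt
  rw [Finset.card_filter]

omit [D.LocallyFinite] in
theorem cnt_harm (hd : DegLe D r) {v : V} {G : Finset V} (hv : v ∉ G) {z : V} (hz : z ∈ G) :
    r * cnt D r v G z = (if D.Adj z v then (Rc D r G).card else 0) +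
      ∑ z' ∈ G, if D.Adj z z' then cnt D r v G z' else 0 := by
  have h1 : ∑ ζ ∈ Rc D r G, (stp D r v G ζ z + (if z ∈ wav D r v G ζ then r else 0)) =
      ∑ ζ ∈ Rc D r G, (ζ z + dg D z (insert v (wav D r v G ζ))) :=
    Finset.sum_congr rfl (fun ζ _ => stp_balance hz)
  rw [Finset.sum_add_distrib, Finset.sum_add_distrib, sum_stp hd hv (fun ζ => ζ z)] at h1
  have h2 := Nat.add_left_cancel h1
  have h3 : ∑ ζ ∈ Rc D r G, (if z ∈ wav D r v G ζ then r else 0) = r * cnt D r v G z := by
    rw [cnt_eq_sum, Finset.mul_sum]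
    exact Finset.sum_congr rfl (fun ζ _ => by split_ifs <;> simp)
  rw [← h3, h2]
  have h4 : ∀ ζ ∈ Rc D r G, dg D z (insert v (wav D r v G ζ)) =
      (if D.Adj z v then 1 else 0) + ∑ z' ∈ G, if D.Adj z z' then (if z' ∈ wav D r v G ζ then 1 else 0) else 0 := by
    intro ζ _
    have hw := (isWave_wav (D := D) (r := r) v G ζ).sub
    rw [dg_insert (fun h => hv (hw h)), add_comm, dg_eq_sum]
    congr 1
    rw [← Finset.sum_filter_add_sum_filter_not G (fun z' => z' ∈ wav D r v G ζ)]
    have e1 : G.filter (fun z' => z' ∈ wav D r v G ζ) = wav D r v G ζ := by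
      ext x; simp only [Finset.mem_filter]; exact ⟨fun h => h.2, fun h => ⟨hw h, h⟩⟩
    rw [e1]
    have e2 : ∑ z' ∈ G.filter (fun z' => ¬ z' ∈ wav D r v G ζ),
        (if D.Adj z z' then (if z' ∈ wav D r v G ζ then 1 else 0) else 0) = 0 := by
      refine Finset.sum_eq_zero (fun x hx => ?_)
      rw [Finset.mem_filter] at hx
      simp [hx.2]
    rw [e2, add_zero]
    exact Finset.sum_congr rfl (fun x hx => by simp [hx])
  rw [Finset.sum_congr rfl h4, Finset.sum_add_distrib, Finset.sum_const, Finset.sum_comm]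
  congr 1
  · split_ifs <;> simp
  · refine Finset.sum_congr rfl (fun z' _ => ?_)
    split_ifs
    · rw [cnt_eq_sum]
    · simp

/-- the probability that the wave from `v` reaches `z` (equal to `1` at `v`) -/
noncomputable def ue (D : SimpleGraph V) (r : ℕ) (v : V) (G : Finset V) (z : V) : ℝ :=
  if z = v then 1 else (cnt D r v G z : ℝ) / ((Rc D r G).card : ℝ)

omit [D.LocallyFinite] in
theorem ue_self {v : V} {G : Finset V} : ue D r v G v = 1 := by simp [ue]

omit [D.LocallyFinite] in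
theorem ue_notMem {v : V} {G : Finset V} {z : V} (hz : z ∉ G) (hzv : z ≠ v) : ue D r v G z = 0 := by
  simp [ue, hzv, cnt_notMem hz]

omit [D.LocallyFinite] in
theorem ue_ne {v : V} {G : Finset V} {z : V} (hzv : z ≠ v) :
    ue D r v G z = (cnt D r v G z : ℝ) / ((Rc D r G).card : ℝ) := by
  simp [ue, hzv]

omit [D.LocallyFinite] in
theorem ue_nonneg {v : V} {G : Finset V} {z : V} : 0 ≤ ue D r v G z := by
  unfold ue
  split_ifs
  · norm_num
  · positivity

omit [D.LocallyFinite] in
theorem ue_le_one {v : V} {G : Finset V} {z : V} : ue D r v G z ≤ 1 := by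
  unfold ue
  split_ifs
  · exact le_refl _
  · refine div_le_one_of_le₀ ?_ (by positivity)
    have : cnt D r v G z ≤ (Rc D r G).card := Finset.card_filter_le _ _
    exact_mod_cast this

theorem Ctx.card_Rc_pos (H : Ctx D r) (G : Finset V) : 0 < (Rc D r G).card :=
  Finset.card_pos.2 ⟨_, H.top_mem (by have := H.three_le; omega) G⟩

theorem Ctx.ue_harm (H : Ctx D r) {v : V} {G : Finset V} (hv : v ∉ G) {z : V} (hz : z ∈ G) :
    r * ue D r v G z = ∑ z' ∈ D.neighborFinset z, ue D r v G z' := by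
  have hzv : z ≠ v := fun h => hv (h ▸ hz)
  have h1 := cnt_harm (D := D) (r := r) H.degLe hv hz
  have hpos : (0 : ℝ) < ((Rc D r G).card : ℝ) := by exact_mod_cast H.card_Rc_pos G
  rw [ue_ne hzv]
  have h2 : (r : ℝ) * (cnt D r v G z : ℝ) = (if D.Adj z v then ((Rc D r G).card : ℝ) else 0) +
      ∑ z' ∈ G, if D.Adj z z' then (cnt D r v G z' : ℝ) else 0 := by
    have := congrArg (fun n : ℕ => (n : ℝ)) h1
    push_cast at this
    rw [this]
  have h3 : ∑ z' ∈ D.neighborFinset z, ue D r v G z' =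
      (if D.Adj z v then (1 : ℝ) else 0) + ∑ z' ∈ G, if D.Adj z z' then (cnt D r v G z' : ℝ) / ((Rc D r G).card : ℝ) else 0 := by
    have e0 : ∑ z' ∈ D.neighborFinset z, ue D r v G z' =
        ∑ z' ∈ D.neighborFinset z, ((if z' = v then (1 : ℝ) else 0) +
          (if z' ∈ G then (cnt D r v G z' : ℝ) / ((Rc D r G).card : ℝ) else 0)) := by
      refine Finset.sum_congr rfl (fun z' _ => ?_)
      by_cases hzv' : z' = v
      · subst hzv'
        simp [ue_self, hv]
      · by_cases hG : z' ∈ G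
        · simp [hzv', hG, ue_ne hzv']
        · simp [hzv', hG, ue_notMem hG hzv']
    rw [e0, Finset.sum_add_distrib]
    congr 1
    · rw [Finset.sum_ite_eq']
      simp
    · rw [← Finset.sum_filter, ← Finset.sum_filter]
      refine Finset.sum_congr ?_ (fun _ _ => rfl)
      ext x
      simp [and_comm]
  rw [h3, ← mul_div_assoc, h2, add_div, Finset.sum_div]
  congr 1
  · split_ifs
    · field_simp
    · simp
  · exact Finset.sum_congr rfl (fun z' _ => by split_ifs <;> simp)

/-- minimum principle -/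
theorem Ctx.min_principle (H : Ctx D r) {G : Finset V} {f : V → ℝ}
    (h1 : ∀ z ∈ G, ∑ z' ∈ D.neighborFinset z, f z' ≤ r * f z)
    (h2 : ∀ z ∈ G, ∀ z', D.Adj z z' → z' ∉ G → 0 ≤ f z') : ∀ z ∈ G, 0 ≤ f z := by
  by_contra hcon
  push Not at hcon
  obtain ⟨q, hq, hqf⟩ := hcon
  obtain ⟨z0, hz0, hmin⟩ := Finset.exists_min_image G f ⟨q, hq⟩
  have hneg : f z0 < 0 := lt_of_le_of_lt (hmin q hq) hqf
  have hMne : (G.filter (fun z => f z = f z0)).Nonempty := ⟨z0, by simp [hz0]⟩
  obtain ⟨z, hz, b, hb, hab⟩ := H.exit hMne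
  rw [Finset.mem_filter] at hz hb
  have hge : ∀ z' ∈ D.neighborFinset z, f z0 ≤ f z' := by
    intro z' hz'
    by_cases hG : z' ∈ G
    · exact hmin z' hG
    · exact hneg.le.trans (h2 z hz.1 z' (by simpa using hz') hG)
  have hgt : f z0 < f b := by
    by_cases hG : b ∈ G
    · exact lt_of_le_of_ne (hmin b hG) (fun h => hb ⟨hG, h.symm⟩)
    · exact lt_of_lt_of_le hneg (h2 z hz.1 b hab hG)
  have h3 : ∑ _z' ∈ D.neighborFinset z, f z0 < ∑ z' ∈ D.neighborFinset z, f z' :=
    Finset.sum_lt_sum hge ⟨b, by simpa using hab, hgt⟩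
  rw [Finset.sum_const, SimpleGraph.card_neighborFinset_eq_degree, H.reg z, nsmul_eq_mul] at h3
  have := h1 z hz.1
  rw [hz.2] at this
  linarith

/-- uniqueness for the Dirichlet problem -/
theorem Ctx.dir_unique (H : Ctx D r) {G : Finset V} {f g : V → ℝ}
    (hf : ∀ z ∈ G, r * f z = ∑ z' ∈ D.neighborFinset z, f z')
    (hg : ∀ z ∈ G, r * g z = ∑ z' ∈ D.neighborFinset z, g z')
    (h2 : ∀ z ∈ G, ∀ z', D.Adj z z' → z' ∉ G → f z' = g z') : ∀ z ∈ G, f z = g z := by
  have a1 := H.min_principle (G := G) (f := fun z => f z - g z)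
    (fun z hz => by rw [Finset.sum_sub_distrib, ← hf z hz, ← hg z hz, mul_sub])
    (fun z hz z' hz' hG => by rw [h2 z hz z' hz' hG, sub_self])
  have a2 := H.min_principle (G := G) (f := fun z => g z - f z)
    (fun z hz => by rw [Finset.sum_sub_distrib, ← hf z hz, ← hg z hz, mul_sub])
    (fun z hz z' hz' hG => by rw [h2 z hz z' hz' hG, sub_self])
  intro z hz
  have := a1 z hz
  have := a2 z hz
  simp only [sub_nonneg] at *
  linarith

/-- probability that the wave into the cone of `e` topples the root of the cone -/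
noncomputable def bet (D : SimpleGraph V) (r : ℕ) (G : Finset V) (e : V × V) : ℝ :=
  ue D r e.1 (prt G (cone D e)) e.2

omit [D.LocallyFinite] in
theorem src_notMem {G : Finset V} {e : V × V} (he : BD D e.1 e.2) : e.1 ∉ prt G (cone D e) := by
  intro h
  exact fst_notMem_cone he (mem_prt.1 h).2

/-- product formula at a child -/
theorem Ctx.ue_child (H : Ctx D r) {G : Finset V} {e c : V × V} (he : BD D e.1 e.2) (hc : c ∈ ch D e) :
    ue D r e.1 (prt G (cone D e)) c.2 = ue D r e.1 (prt G (cone D e)) c.1 * bet D r G c := by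
  have hd := H.dec_ch he
  have hcb := hd.br c hc
  set Ge := prt G (cone D e) with hGe
  set Gc := prt G (cone D c) with hGc
  have hsub : Gc ⊆ Ge := by
    intro z hz
    rw [hGc, mem_prt] at hz
    rw [hGe, mem_prt]
    exact ⟨hz.1, hd.csub c hc hz.2⟩
  have hev : e.1 ∉ Ge := src_notMem he
  have hcv : c.1 ∉ Gc := src_notMem hcb
  have key : ∀ z ∈ Gc, ue D r e.1 Ge z = ue D r e.1 Ge c.1 * ue D r c.1 Gc z := by
    refine H.dir_unique (G := Gc) (f := fun z => ue D r e.1 Ge z) (g := fun z => ue D r e.1 Ge c.1 * ue D r c.1 Gc z)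
      (fun z hz => H.ue_harm hev (hsub hz)) (fun z hz => ?_) ?_
    · rw [← Finset.mul_sum, ← H.ue_harm hcv hz]
      ring
    · intro z hz z' hzz' hz'
      by_cases hcz : z' ∈ cone D c
      · -- outside G
        have hG : z' ∉ G := fun h => hz' (mem_prt.2 ⟨h, hcz⟩)
        have h1 : z' ∉ Ge := fun h => hG (mem_prt.1 h).1
        have h2 : z' ≠ e.1 := by
          rintro rfl
          exact fst_notMem_cone he (hd.csub c hc hcz)
        have h3 : z' ≠ c.1 := by
          rintro rfl
          exact fst_notMem_cone hcb hcz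
        show ue D r e.1 Ge z' = ue D r e.1 Ge c.1 * ue D r c.1 Gc z'
        rw [ue_notMem h1 h2, ue_notMem hz' h3, mul_zero]
      · have := cone_edge hcb hcz (mem_prt.1 hz).2 hzz'.symm
        show ue D r e.1 Ge z' = ue D r e.1 Ge c.1 * ue D r c.1 Gc z'
        rw [this.1, ue_self, mul_one]
  by_cases hy : c.2 ∈ Gc
  · exact key c.2 hy
  · have hG : c.2 ∉ G := fun h => hy (mem_prt.2 ⟨h, snd_mem_cone c⟩)
    have h1 : c.2 ∉ Ge := fun h => hG (mem_prt.1 h).1
    have h2 : c.2 ≠ e.1 := by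
      intro h
      exact fst_notMem_cone he (h ▸ hd.csub c hc (snd_mem_cone c))
    have h3 : c.2 ≠ c.1 := fun h => fst_notMem_cone hcb (h ▸ snd_mem_cone c)
    rw [bet, ← hGc, ue_notMem h1 h2, ue_notMem hy h3, mul_zero]

/-- summation over a block of a function on darts -/
theorem Ctx.sum_block (H : Ctx D r) (x : V) (f : V → V → ℝ) (hf : ∀ a b, f a b = - f b a) :
    ∑ z ∈ Bf D x, ∑ z' ∈ D.neighborFinset z, f z z' = ∑ c ∈ bdr D (Bf D x), f c.1 c.2 := by
  have h1 : ∀ z ∈ Bf D x, ∑ z' ∈ D.neighborFinset z, f z z' =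
      ∑ z' ∈ (D.neighborFinset z).filter (fun z' => z' ∈ Bf D x), f z z' +
      ∑ z' ∈ (D.neighborFinset z).filter (fun z' => z' ∉ Bf D x), f z z' := by
    intro z _
    rw [Finset.sum_filter_add_sum_filter_not]
  rw [Finset.sum_congr rfl h1, Finset.sum_add_distrib]
  have h2 : ∑ z ∈ Bf D x, ∑ z' ∈ (D.neighborFinset z).filter (fun z' => z' ∈ Bf D x), f z z' = 0 := by
    have e1 : ∑ z ∈ Bf D x, ∑ z' ∈ (D.neighborFinset z).filter (fun z' => z' ∈ Bf D x), f z z' =
        ∑ z ∈ Bf D x, ∑ z' ∈ Bf D x, if D.Adj z z' then f z z' else 0 := by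
      refine Finset.sum_congr rfl (fun z _ => ?_)
      rw [← Finset.sum_filter]
      refine Finset.sum_congr ?_ (fun _ _ => rfl)
      ext x; simp [and_comm]
    rw [e1]
    have e2 : ∑ z ∈ Bf D x, ∑ z' ∈ Bf D x, (if D.Adj z z' then f z z' else 0) =
        - ∑ z ∈ Bf D x, ∑ z' ∈ Bf D x, (if D.Adj z z' then f z z' else 0) := by
      conv_lhs => rw [Finset.sum_comm]
      rw [← Finset.sum_neg_distrib]
      refine Finset.sum_congr rfl (fun z _ => ?_)
      rw [← Finset.sum_neg_distrib]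
      refine Finset.sum_congr rfl (fun z' _ => ?_)
      rw [D.adj_comm z' z, hf z' z]
      split_ifs <;> simp
    linarith
  rw [h2, zero_add, Finset.sum_sigma']
  refine Finset.sum_bij (fun s _ => (s.1, s.2)) ?_ ?_ ?_ ?_
  · rintro ⟨a, b⟩ hs
    simp only [Finset.mem_sigma, Finset.mem_filter, SimpleGraph.mem_neighborFinset] at hs
    rw [mem_bdr]
    refine ⟨hs.1, hs.2.2, ?_⟩
    refine blk_exit x a (H.mem_Bf.1 hs.1) b (fun h => hs.2.2 (H.mem_Bf.2 h)) hs.2.1
  · rintro ⟨a, b⟩ _ ⟨a', b'⟩ _ h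
    simp only [Prod.mk.injEq] at h
    rw [Sigma.mk.injEq]
    exact ⟨h.1, heq_of_eq h.2⟩
  · rintro ⟨a, b⟩ hs
    rw [mem_bdr] at hs
    refine ⟨⟨a, b⟩, ?_, rfl⟩
    simp only [Finset.mem_sigma, Finset.mem_filter, SimpleGraph.mem_neighborFinset]
    exact ⟨hs.1, hs.2.2.1, hs.2.1⟩
  · rintro ⟨a, b⟩ _
    rfl

/-- conservation of current -/
theorem Ctx.current (H : Ctx D r) {G : Finset V} {e : V × V} (he : BD D e.1 e.2) (hB : ∀ z ∈ Bf D e.2, z ∈ G) :
    1 - bet D r G e = ∑ c ∈ ch D e, ue D r e.1 (prt G (cone D e)) c.1 * (1 - bet D r G c) := by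
  set Ge := prt G (cone D e) with hGe
  have hev : e.1 ∉ Ge := src_notMem he
  have hBe : ∀ z ∈ Bf D e.2, z ∈ Ge := by
    intro z hz
    rw [hGe, mem_prt]
    exact ⟨hB z hz, (H.dec_ch he).sub z hz⟩
  have h1 := H.sum_block e.2 (fun a b => ue D r e.1 Ge a - ue D r e.1 Ge b) (fun a b => by ring)
  have h2 : ∑ z ∈ Bf D e.2, ∑ z' ∈ D.neighborFinset z, (ue D r e.1 Ge z - ue D r e.1 Ge z') = 0 := by
    refine Finset.sum_eq_zero (fun z hz => ?_)
    rw [Finset.sum_sub_distrib, ← H.ue_harm hev (hBe z hz), Finset.sum_const,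
      SimpleGraph.card_neighborFinset_eq_degree, H.reg z, nsmul_eq_mul, sub_self]
  rw [h2] at h1
  have h3 : bdr D (Bf D e.2) = insert (e.2, e.1) (ch D e) := by
    rw [ch, Finset.insert_erase (H.swap_mem he)]
  rw [h3, Finset.sum_insert (by rw [ch]; exact Finset.notMem_erase _ _)] at h1
  simp only [ue_self] at h1
  have h4 : ∑ c ∈ ch D e, ue D r e.1 Ge c.1 * (1 - bet D r G c) =
      ∑ c ∈ ch D e, (ue D r e.1 Ge c.1 - ue D r e.1 Ge c.2) := by
    refine Finset.sum_congr rfl (fun c hc => ?_)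
    rw [H.ue_child he hc]
    ring
  rw [h4]
  have h5 : bet D r G e = ue D r e.1 Ge e.2 := rfl
  rw [h5]
  linarith

/-- Harnack chain inside a block: for points of the block either `1 - u` is controlled at the point or `1 - u` is large at the root -/
theorem Ctx.harnack (H : Ctx D r) {G : Finset V} {e : V × V} (he : BD D e.1 e.2) (hx : e.2 ∈ G)
    {z : V} (p : (nobr D).Walk e.2 z) :
    (z ∈ G ∧ 1 - ue D r e.1 (prt G (cone D e)) z ≤ (r : ℝ) ^ p.length * (1 - bet D r G e)) ∨
      1 ≤ (r : ℝ) ^ p.length * (1 - bet D r G e) := by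
  set Ge := prt G (cone D e) with hGe
  have hev : e.1 ∉ Ge := src_notMem he
  have hr1 : (1 : ℝ) ≤ r := by have := H.three_le; exact_mod_cast (by omega : 1 ≤ r)
  have hb1 : 0 ≤ 1 - bet D r G e := by
    have : bet D r G e ≤ 1 := ue_le_one
    linarith
  -- induction on the length, from the end
  have key : ∀ n : ℕ, ∀ z, (∃ p : (nobr D).Walk e.2 z, p.length = n) →
      (z ∈ G ∧ 1 - ue D r e.1 Ge z ≤ (r : ℝ) ^ n * (1 - bet D r G e)) ∨
      1 ≤ (r : ℝ) ^ n * (1 - bet D r G e) := by
    intro n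
    induction n with
    | zero =>
      rintro z ⟨p, hp⟩
      have : e.2 = z := SimpleGraph.Walk.eq_of_length_eq_zero hp
      subst this
      left
      refine ⟨hx, ?_⟩
      rw [pow_zero, one_mul]
      exact le_refl _
    | succ n ih =>
      rintro z ⟨p, hp⟩
      have hnn : ¬ p.Nil := by
        intro h
        have := SimpleGraph.Walk.length_eq_zero_iff.2 h
        omega
      obtain ⟨w, q, hq, hqz⟩ : ∃ w, ∃ q : (nobr D).Walk e.2 w, q.length = n ∧ (nobr D).Adj w z := by
        refine ⟨p.penultimate, p.dropLast, ?_, p.adj_penultimate hnn⟩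
        rw [SimpleGraph.Walk.length_dropLast]
        omega
      have hpow : (r : ℝ) ^ n * (1 - bet D r G e) ≤ (r : ℝ) ^ (n + 1) * (1 - bet D r G e) := by
        refine mul_le_mul_of_nonneg_right ?_ hb1
        exact pow_le_pow_right₀ hr1 (Nat.le_succ n)
      rcases ih w ⟨q, hq⟩ with ⟨hwG, h⟩ | h
      · have hwe : w ∈ Ge := by
          rw [hGe, mem_prt]
          exact ⟨hwG, blk_subset_cone he (mem_blk.2 q.reachable)⟩
        have hz1 : 1 - ue D r e.1 Ge z ≤ r * (1 - ue D r e.1 Ge w) := by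
          have h1 := H.ue_harm hev hwe
          have h2 : (r : ℝ) * (1 - ue D r e.1 Ge w) = ∑ z' ∈ D.neighborFinset w, (1 - ue D r e.1 Ge z') := by
            rw [Finset.sum_sub_distrib, ← h1, Finset.sum_const, SimpleGraph.card_neighborFinset_eq_degree, H.reg w,
              nsmul_eq_mul, mul_one]
            ring
          rw [h2]
          refine Finset.single_le_sum (f := fun z' => 1 - ue D r e.1 Ge z') (fun z' _ => ?_) ?_
          · have : ue D r e.1 Ge z' ≤ 1 := ue_le_one
            linarith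
          · rw [SimpleGraph.mem_neighborFinset]
            exact (nobr_adj.1 hqz).1
        have hz2 : 1 - ue D r e.1 Ge z ≤ (r : ℝ) ^ (n + 1) * (1 - bet D r G e) := by
          refine hz1.trans ?_
          rw [pow_succ', mul_assoc]
          exact mul_le_mul_of_nonneg_left h (by linarith)
        by_cases hzG : z ∈ G
        · exact Or.inl ⟨hzG, hz2⟩
        · right
          have h3 : z ∉ Ge := fun h' => hzG (mem_prt.1 h').1
          have hzc : z ∈ cone D e := blk_subset_cone he (mem_blk.2 (q.reachable.trans hqz.reachable))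
          have h4 : z ≠ e.1 := by
            rintro rfl
            exact fst_notMem_cone he hzc
          rw [ue_notMem h3 h4] at hz2
          linarith
      · exact Or.inr (h.trans hpow)
  exact key _ z ⟨p, rfl⟩

end Pool.Agent.Helper910
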