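import Mathlib
import Pool.Agent.Helper910.Harm

/-!
# Escape bound, monotonicity and the limit of the harmonic functions
(MP_4555f0_mp)
-/

namespace Pool.Agent.Helper910

open Classical Finset Filter Topology

variable {V : Type*} {D : SimpleGraph V} [D.LocallyFinite] {r : ℕ}

/-- size of the blocks -/
noncomputable def Ctx.msz (H : Ctx D r) : ℕ := (Bf D (Classical.choice H.nonempty)).card

theorem Ctx.card_Bf_eq (H : Ctx D r) (x : V) : (Bf D x).card = H.msz := H.card_Bf _ _

/-- the escape constant -/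
noncomputable def Ctx.g0 (H : Ctx D r) : ℝ := 1 / (2 * (r : ℝ) ^ H.msz)

theorem Ctx.rpos (H : Ctx D r) : (0 : ℝ) < r := by
  have := H.three_le
  exact_mod_cast (by omega : 0 < r)

theorem Ctx.one_le_r (H : Ctx D r) : (1 : ℝ) ≤ r := by
  have := H.three_le
  exact_mod_cast (by omega : 1 ≤ r)

theorem Ctx.g0_pos (H : Ctx D r) : 0 < H.g0 := by
  unfold Ctx.g0
  have := H.rpos
  positivity

theorem Ctx.g0_le (H : Ctx D r) : H.g0 ≤ 1 / 2 := by
  unfold Ctx.g0
  have h1 : (1 : ℝ) ≤ (r : ℝ) ^ H.msz := one_le_pow₀ H.one_le_r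
  have h2 : (2 : ℝ) ≤ 2 * (r : ℝ) ^ H.msz := by linarith
  exact one_div_le_one_div_of_le (by norm_num) h2

theorem Ctx.short_walk (H : Ctx D r) {x z : V} (hz : z ∈ Bf D x) :
    ∃ p : (nobr D).Walk x z, p.length ≤ H.msz := by
  rw [H.mem_Bf, mem_blk] at hz
  obtain ⟨q⟩ := hz
  refine ⟨q.toPath, ?_⟩
  have hp : (q.toPath : (nobr D).Walk x z).IsPath := q.toPath.2
  have h1 : (q.toPath : (nobr D).Walk x z).support.toFinset ⊆ Bf D x := by
    intro w hw
    rw [List.mem_toFinset] at hw
    rw [H.mem_Bf, mem_blk]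
    exact ((q.toPath : (nobr D).Walk x z).takeUntil w hw).reachable
  have h2 := Finset.card_le_card h1
  rw [List.toFinset_card_of_nodup hp.support_nodup, SimpleGraph.Walk.length_support, H.card_Bf_eq] at h2
  omega

/-- escape bound -/
theorem Ctx.bet_le (H : Ctx D r) (G : Finset V) : ∀ {e : V × V}, BD D e.1 e.2 → bet D r G e ≤ 1 - H.g0 := by
  have key : ∀ n : ℕ, ∀ e : V × V, BD D e.1 e.2 → (prt G (cone D e)).card ≤ n → bet D r G e ≤ 1 - H.g0 := by
    intro n
    induction n with
    | zero =>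
      intro e he hcard
      have h0 : prt G (cone D e) = ∅ := Finset.card_eq_zero.1 (Nat.le_zero.1 hcard)
      have h1 : e.2 ∉ prt G (cone D e) := by rw [h0]; simp
      have h2 : e.2 ≠ e.1 := he.1.ne'
      have : bet D r G e = 0 := by
        rw [bet]; exact ue_notMem h1 h2
      rw [this]
      have := H.g0_le
      linarith
    | succ n ih =>
      intro e he hcard
      by_cases hx : e.2 ∈ G
      swap
      · have h1 : e.2 ∉ prt G (cone D e) := fun h => hx (mem_prt.1 h).1
        have h2 : e.2 ≠ e.1 := he.1.ne'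
        have : bet D r G e = 0 := by
          rw [bet]; exact ue_notMem h1 h2
        rw [this]
        have := H.g0_le
        linarith
      set I := 1 - bet D r G e with hI
      have hI0 : 0 ≤ I := by
        have : bet D r G e ≤ 1 := ue_le_one
        linarith
      have hrm : (1 : ℝ) ≤ (r : ℝ) ^ H.msz := one_le_pow₀ H.one_le_r
      by_cases hcase : 1 ≤ (r : ℝ) ^ H.msz * I
      · have : H.g0 ≤ I := by
          unfold Ctx.g0
          rw [div_le_iff₀ (by positivity)]
          nlinarith
        linarith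
      · push Not at hcase
        have hall : ∀ z ∈ Bf D e.2, z ∈ G ∧ 1 - ue D r e.1 (prt G (cone D e)) z ≤ (r : ℝ) ^ H.msz * I := by
          intro z hz
          obtain ⟨p, hp⟩ := H.short_walk hz
          have hpow : (r : ℝ) ^ p.length * I ≤ (r : ℝ) ^ H.msz * I :=
            mul_le_mul_of_nonneg_right (pow_le_pow_right₀ H.one_le_r hp) hI0
          rcases H.harnack he hx p with ⟨h1, h2⟩ | h
          · exact ⟨h1, h2.trans hpow⟩
          · exfalso
            have := h.trans hpow
            linarith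
        have hcur := H.current he (fun z hz => (hall z hz).1)
        have hdec := H.dec_ch he
        have hterm : ∀ c ∈ ch D e, (1 - (r : ℝ) ^ H.msz * I) * H.g0 ≤
            ue D r e.1 (prt G (cone D e)) c.1 * (1 - bet D r G c) := by
          intro c hc
          have h1 := (hall c.1 (hdec.fst c hc)).2
          have h2 : bet D r G c ≤ 1 - H.g0 := by
            refine ih c (hdec.br c hc) ?_
            have hlt : (prt G (cone D c)).card < (prt G (cone D e)).card := by
              refine Finset.card_lt_card ?_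
              rw [Finset.ssubset_iff_of_subset]
              · refine ⟨e.2, mem_prt.2 ⟨hx, snd_mem_cone e⟩, ?_⟩
                intro h'
                exact hdec.cdisj c hc _ (mem_prt.1 h').2 (H.self_mem_Bf e.2)
              · intro z hz
                rw [mem_prt] at hz ⊢
                exact ⟨hz.1, hdec.csub c hc hz.2⟩
            omega
          have h3 : 0 ≤ 1 - (r : ℝ) ^ H.msz * I := by linarith
          have h4 := H.g0_pos
          calc (1 - (r : ℝ) ^ H.msz * I) * H.g0 ≤ ue D r e.1 (prt G (cone D e)) c.1 * H.g0 := by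
                refine mul_le_mul_of_nonneg_right ?_ h4.le
                linarith
            _ ≤ ue D r e.1 (prt G (cone D e)) c.1 * (1 - bet D r G c) := by
                refine mul_le_mul_of_nonneg_left ?_ ue_nonneg
                linarith
        have hsum : ((ch D e).card : ℝ) * ((1 - (r : ℝ) ^ H.msz * I) * H.g0) ≤ I := by
          refine le_of_le_of_eq ?_ hcur.symm
          rw [← nsmul_eq_mul, ← Finset.sum_const]
          exact Finset.sum_le_sum hterm
        have hN : (2 : ℝ) ≤ ((ch D e).card : ℝ) := by exact_mod_cast H.two_le_ch he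
        have h3 : 0 ≤ (1 - (r : ℝ) ^ H.msz * I) * H.g0 := mul_nonneg (by linarith) H.g0_pos.le
        have h4 : 2 * ((1 - (r : ℝ) ^ H.msz * I) * H.g0) ≤ I :=
          (mul_le_mul_of_nonneg_right hN h3).trans hsum
        have h5 : (r : ℝ) ^ H.msz * H.g0 = 1 / 2 := by
          unfold Ctx.g0
          have : (r : ℝ) ^ H.msz ≠ 0 := by positivity
          field_simp
        have h6 : 2 * H.g0 - 2 * ((r : ℝ) ^ H.msz * H.g0) * I ≤ I := by nlinarith
        rw [h5] at h6
        have : H.g0 ≤ I := by linarith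
        linarith
  intro e he
  exact key _ e he le_rfl

theorem Ctx.ue_mono (H : Ctx D r) {G G' : Finset V} (hG : G ⊆ G') {e : V × V} (he : BD D e.1 e.2) (z : V) :
    ue D r e.1 (prt G (cone D e)) z ≤ ue D r e.1 (prt G' (cone D e)) z := by
  set A := prt G (cone D e) with hA
  set A' := prt G' (cone D e) with hA'
  have hAA : A ⊆ A' := by
    intro z hz
    rw [hA, mem_prt] at hz
    rw [hA', mem_prt]
    exact ⟨hG hz.1, hz.2⟩
  by_cases hzv : z = e.1
  · rw [hzv, ue_self, ue_self]
  by_cases hz : z ∈ A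
  · have h := H.min_principle (G := A) (f := fun z => ue D r e.1 A' z - ue D r e.1 A z)
      (fun z hz => by
        rw [Finset.sum_sub_distrib, ← H.ue_harm (src_notMem he) (hAA hz), ← H.ue_harm (src_notMem he) hz, mul_sub])
      (fun z hz z' hzz' hz' => by
        by_cases h : z' = e.1
        · rw [h, ue_self, ue_self, sub_self]
        · rw [ue_notMem hz' h, sub_zero]; exact ue_nonneg)
    have := h z hz
    simp only [sub_nonneg] at this
    exact this
  · rw [ue_notMem hz hzv]; exact ue_nonneg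

/-- the limit of the harmonic functions -/
noncomputable def ueL (D : SimpleGraph V) (r : ℕ) (e : V × V) (z : V) : ℝ :=
  ⨆ G : Finset V, ue D r e.1 (prt G (cone D e)) z

/-- the limit probability that the wave topples the root of a cone -/
noncomputable def betL (D : SimpleGraph V) (r : ℕ) (e : V × V) : ℝ := ⨆ G : Finset V, bet D r G e

theorem Ctx.tendsto_ue (H : Ctx D r) {e : V × V} (he : BD D e.1 e.2) (z : V) :
    Tendsto (fun G : Finset V => ue D r e.1 (prt G (cone D e)) z) atTop (𝓝 (ueL D r e z)) := by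
  refine tendsto_atTop_ciSup (fun G G' h => H.ue_mono h he z) ⟨1, ?_⟩
  rintro _ ⟨G, rfl⟩
  exact ue_le_one

theorem Ctx.tendsto_bet (H : Ctx D r) {e : V × V} (he : BD D e.1 e.2) :
    Tendsto (fun G : Finset V => bet D r G e) atTop (𝓝 (betL D r e)) := H.tendsto_ue he e.2

omit [D.LocallyFinite] in
theorem betL_eq (e : V × V) : betL D r e = ueL D r e e.2 := rfl

theorem Ctx.bet_le_betL (H : Ctx D r) {e : V × V} (G : Finset V) : bet D r G e ≤ betL D r e := by
  have := H
  refine le_ciSup (f := fun G : Finset V => bet D r G e) ⟨1, ?_⟩ G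
  rintro _ ⟨G, rfl⟩
  exact ue_le_one

theorem Ctx.betL_le (H : Ctx D r) {e : V × V} (he : BD D e.1 e.2) : betL D r e ≤ 1 - H.g0 :=
  ciSup_le (fun G => H.bet_le G he)

theorem Ctx.betL_nonneg (H : Ctx D r) {e : V × V} (he : BD D e.1 e.2) : 0 ≤ betL D r e :=
  ge_of_tendsto' (H.tendsto_bet he) (fun _ => ue_nonneg)

theorem Ctx.ueL_src (H : Ctx D r) {e : V × V} (he : BD D e.1 e.2) : ueL D r e e.1 = 1 := by
  refine tendsto_nhds_unique (H.tendsto_ue he e.1) ?_
  simp only [ue_self]
  exact tendsto_const_nhds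

theorem Ctx.ueL_harm (H : Ctx D r) {e : V × V} (he : BD D e.1 e.2) {z : V} (hz : z ∈ cone D e) :
    r * ueL D r e z = ∑ z' ∈ D.neighborFinset z, ueL D r e z' := by
  have h1 : Tendsto (fun G : Finset V => (r : ℝ) * ue D r e.1 (prt G (cone D e)) z) atTop (𝓝 (r * ueL D r e z)) :=
    (H.tendsto_ue he z).const_mul _
  have h2 : Tendsto (fun G : Finset V => ∑ z' ∈ D.neighborFinset z, ue D r e.1 (prt G (cone D e)) z') atTop
      (𝓝 (∑ z' ∈ D.neighborFinset z, ueL D r e z')) :=
    tendsto_finsetSum _ (fun z' _ => H.tendsto_ue he z')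
  refine tendsto_nhds_unique_of_eventuallyEq h1 h2 ?_
  filter_upwards [eventually_ge_atTop ({z} : Finset V)] with G hG
  exact H.ue_harm (src_notMem he) (mem_prt.2 ⟨hG (Finset.mem_singleton_self z), hz⟩)

theorem Ctx.ueL_child (H : Ctx D r) {e c : V × V} (he : BD D e.1 e.2) (hc : c ∈ ch D e) :
    ueL D r e c.2 = ueL D r e c.1 * betL D r c := by
  have hcb := (H.dec_ch he).br c hc
  refine tendsto_nhds_unique (H.tendsto_ue he c.2) ?_
  have := (H.tendsto_ue he c.1).mul (H.tendsto_bet hcb)
  refine this.congr (fun G => ?_)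
  exact (H.ue_child he hc).symm

/-- conservation of current in the limit -/
theorem Ctx.currentL (H : Ctx D r) {e : V × V} (he : BD D e.1 e.2) :
    1 - betL D r e = ∑ c ∈ ch D e, ueL D r e c.1 * (1 - betL D r c) := by
  have h1 : Tendsto (fun G : Finset V => 1 - bet D r G e) atTop (𝓝 (1 - betL D r e)) :=
    (H.tendsto_bet he).const_sub 1
  have h2 : Tendsto (fun G : Finset V => ∑ c ∈ ch D e, ue D r e.1 (prt G (cone D e)) c.1 * (1 - bet D r G c)) atTop
      (𝓝 (∑ c ∈ ch D e, ueL D r e c.1 * (1 - betL D r c))) :=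
    tendsto_finsetSum _ (fun c hc => (H.tendsto_ue he c.1).mul ((H.tendsto_bet ((H.dec_ch he).br c hc)).const_sub 1))
  refine tendsto_nhds_unique_of_eventuallyEq h1 h2 ?_
  filter_upwards [eventually_ge_atTop (Bf D e.2)] with G hG
  exact H.current he (fun z hz => hG hz)

/-! ### invariance under automorphisms -/

omit [D.LocallyFinite] in
theorem map_mem_cone (φ : D ≃g D) {c : V × V} {z : V} (hz : z ∈ cone D c) : φ z ∈ cone D (φ c.1, φ c.2) := by
  refine reach_ind (G := D.deleteEdges {s(c.1, c.2)}) (P := fun z => φ z ∈ cone D (φ c.1, φ c.2)) (a := c.2)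
    (snd_mem_cone (φ c.1, φ c.2)) ?_ hz
  intro a b _ ha hab
  rw [SimpleGraph.deleteEdges_adj] at hab
  rw [mem_cone] at ha ⊢
  refine ha.trans (SimpleGraph.Adj.reachable ?_)
  rw [SimpleGraph.deleteEdges_adj]
  refine ⟨φ.map_adj_iff.2 hab.1, ?_⟩
  intro h
  apply hab.2
  rw [Set.mem_singleton_iff] at h ⊢
  apply Sym2.map.injective φ.injective
  rw [Sym2.map_mk, Sym2.map_mk]
  exact h

omit [D.LocallyFinite] in
theorem map_mem_cone_iff (φ : D ≃g D) {c : V × V} {z : V} : φ z ∈ cone D (φ c.1, φ c.2) ↔ z ∈ cone D c := by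
  constructor
  · intro h
    have := map_mem_cone φ.symm h
    simpa using this
  · exact map_mem_cone φ

theorem sum_nbr_map (φ : D ≃g D) (z : V) (f : V → ℝ) :
    ∑ z' ∈ D.neighborFinset (φ z), f z' = ∑ z' ∈ D.neighborFinset z, f (φ z') := by
  symm
  refine Finset.sum_bij (fun z' _ => φ z') ?_ ?_ ?_ ?_
  · intro z' hz'
    rw [SimpleGraph.mem_neighborFinset] at hz' ⊢
    exact φ.map_adj_iff.2 hz'
  · intro a _ b _ h; exact φ.injective h
  · intro b hb
    refine ⟨φ.symm b, ?_, φ.apply_symm_apply b⟩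
    rw [SimpleGraph.mem_neighborFinset] at hb ⊢
    rw [← φ.map_adj_iff, φ.apply_symm_apply]
    exact hb
  · intro _ _; rfl

theorem Ctx.ue_map (H : Ctx D r) (φ : D ≃g D) {e : V × V} (he : BD D e.1 e.2) (G : Finset V) (z : V) :
    ue D r (φ e.1) (prt (G.image φ) (cone D (φ e.1, φ e.2))) (φ z) = ue D r e.1 (prt G (cone D e)) z := by
  set A := prt G (cone D e) with hA
  set A' := prt (G.image φ) (cone D (φ e.1, φ e.2)) with hA'
  have hmem : ∀ z, φ z ∈ A' ↔ z ∈ A := by
    intro z
    rw [hA', hA, mem_prt, mem_prt, map_mem_cone_iff]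
    simp
  have he' : BD D (φ e.1) (φ e.2) := (map_BD φ).2 he
  have hs' : φ e.1 ∉ A' := src_notMem (e := (φ e.1, φ e.2)) he'
  by_cases hz : z ∈ A
  · refine H.dir_unique (G := A) (f := fun z => ue D r (φ e.1) A' (φ z)) (g := fun z => ue D r e.1 A z) ?_ ?_ ?_ z hz
    · intro z hz
      rw [← sum_nbr_map φ z (fun z' => ue D r (φ e.1) A' z')]
      exact H.ue_harm hs' ((hmem z).2 hz)
    · intro z hz
      exact H.ue_harm (src_notMem he) hz
    · intro z hz z' hzz' hz'
      by_cases h : z' = e.1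
      · show ue D r (φ e.1) A' (φ z') = ue D r e.1 A z'
        rw [h, ue_self, ue_self]
      · show ue D r (φ e.1) A' (φ z') = ue D r e.1 A z'
        rw [ue_notMem hz' h, ue_notMem (fun h' => hz' ((hmem z').1 h')) (fun h' => h (φ.injective h'))]
  · by_cases h : z = e.1
    · rw [h, ue_self, ue_self]
    · rw [ue_notMem hz h, ue_notMem (fun h' => hz ((hmem z).1 h')) (fun h' => h (φ.injective h'))]

theorem Ctx.betL_map_le (H : Ctx D r) (φ : D ≃g D) {e : V × V} (he : BD D e.1 e.2) :
    betL D r e ≤ betL D r (φ e.1, φ e.2) := by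
  refine ciSup_le (fun G => ?_)
  have h1 : bet D r G e = bet D r (G.image φ) (φ e.1, φ e.2) := (H.ue_map φ he G e.2).symm
  rw [h1]
  exact H.bet_le_betL _

theorem Ctx.betL_map (H : Ctx D r) (φ : D ≃g D) {e : V × V} (he : BD D e.1 e.2) :
    betL D r (φ e.1, φ e.2) = betL D r e := by
  refine le_antisymm ?_ (H.betL_map_le φ he)
  have := H.betL_map_le φ.symm (e := (φ e.1, φ e.2)) ((map_BD φ).2 he)
  simpa using this

/-- the sum of `betL` over the bridges at a vertex -/
noncomputable def asum (D : SimpleGraph V) [D.LocallyFinite] (r : ℕ) (z : V) : ℝ :=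
  ∑ y ∈ (D.neighborFinset z).filter (fun y => BD D z y), betL D r (z, y)

theorem Ctx.asum_eq (H : Ctx D r) (x y : V) : asum D r x = asum D r y := by
  obtain ⟨φ, hφ⟩ := H.trans x y
  unfold asum
  refine Finset.sum_bij (fun z' _ => φ z') ?_ ?_ ?_ ?_
  · intro z' hz'
    rw [Finset.mem_filter, SimpleGraph.mem_neighborFinset] at hz' ⊢
    rw [← hφ]
    exact ⟨φ.map_adj_iff.2 hz'.1, (map_BD φ).2 hz'.2⟩
  · intro a _ b _ h; exact φ.injective h
  · intro b hb
    refine ⟨φ.symm b, ?_, φ.apply_symm_apply b⟩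
    rw [Finset.mem_filter, SimpleGraph.mem_neighborFinset] at hb ⊢
    rw [← φ.map_adj_iff, ← map_BD φ, hφ, φ.apply_symm_apply]
    exact hb
  · intro a ha
    rw [Finset.mem_filter] at ha
    rw [← hφ]
    exact (H.betL_map φ (e := (x, a)) ha.2).symm

/-- the normalised block equation -/
theorem Ctx.block_eq (H : Ctx D r) {e : V × V} (he : BD D e.1 e.2) {h : V} (hh : h ∈ Bf D e.2) :
    (r - asum D r h) * ueL D r e h - ∑ z' ∈ (D.neighborFinset h).filter (fun z' => z' ∈ Bf D e.2), ueL D r e z' =
      if h = e.2 then 1 - betL D r e * betL D r (e.2, e.1) else 0 := by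
  have hd := H.dec_ch he
  have h1 := H.ueL_harm he (hd.sub h hh)
  rw [← Finset.sum_filter_add_sum_filter_not (D.neighborFinset h) (fun z' => z' ∈ Bf D e.2)] at h1
  have h2 : (D.neighborFinset h).filter (fun z' => ¬ z' ∈ Bf D e.2) = (D.neighborFinset h).filter (fun y => BD D h y) := by
    ext y
    simp only [Finset.mem_filter, SimpleGraph.mem_neighborFinset]
    constructor
    · rintro ⟨ha, hb⟩
      exact ⟨ha, blk_exit e.2 h (H.mem_Bf.1 hh) y (fun h' => hb (H.mem_Bf.2 h')) ha⟩
    · rintro ⟨ha, hb⟩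
      exact ⟨ha, fun h' => blk_bridge (H.mem_Bf.1 hh) hb (H.mem_Bf.1 h')⟩
  rw [h2] at h1
  have h3 : ∑ y ∈ (D.neighborFinset h).filter (fun y => BD D h y), ueL D r e y =
      ∑ y ∈ (D.neighborFinset h).filter (fun y => BD D h y), (ueL D r e h * betL D r (h, y) +
        if y = e.1 then (if h = e.2 then 1 - betL D r e * betL D r (e.2, e.1) else 0) else 0) := by
    refine Finset.sum_congr rfl (fun y hy => ?_)
    rw [Finset.mem_filter] at hy
    by_cases hy1 : h = e.2 ∧ y = e.1
    · obtain ⟨rfl, rfl⟩ := hy1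
      rw [H.ueL_src he]
      simp only [if_true]
      rw [← betL_eq]
      ring
    · have hcm : (h, y) ∈ ch D e := by
        rw [H.mem_ch]
        refine ⟨?_, H.mem_Bf.1 hh, hy.2⟩
        intro h'
        rw [Prod.mk.injEq] at h'
        exact hy1 h'
      have := H.ueL_child he hcm
      simp only at this
      rw [this]
      by_cases hye : y = e.1
      · have : ¬ h = e.2 := fun h' => hy1 ⟨h', hye⟩
        simp [this]
      · simp [hye]
  rw [h3, Finset.sum_add_distrib, ← Finset.mul_sum, Finset.sum_ite_eq'] at h1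
  have h4 : (if e.1 ∈ (D.neighborFinset h).filter (fun y => BD D h y) then
      (if h = e.2 then 1 - betL D r e * betL D r (e.2, e.1) else 0) else 0) =
      if h = e.2 then 1 - betL D r e * betL D r (e.2, e.1) else 0 := by
    by_cases hhe : h = e.2
    · subst hhe
      have : e.1 ∈ (D.neighborFinset e.2).filter (fun y => BD D e.2 y) := by
        rw [Finset.mem_filter, SimpleGraph.mem_neighborFinset]
        exact ⟨he.1.symm, he.symm⟩
      simp [this]
    · simp [hhe]
  rw [h4] at h1
  have h5 : asum D r h = ∑ y ∈ (D.neighborFinset h).filter (fun y => BD D h y), betL D r (h, y) := rfl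
  rw [← h5] at h1
  linarith

theorem Ctx.asum_lt (H : Ctx D r) (h : V) :
    asum D r h < (((D.neighborFinset h).filter (fun y => BD D h y)).card : ℝ) := by
  unfold asum
  rw [← mul_one (((D.neighborFinset h).filter (fun y => BD D h y)).card : ℝ), ← nsmul_eq_mul, ← Finset.sum_const]
  obtain ⟨y, hy⟩ := H.bridge_at h
  refine Finset.sum_lt_sum_of_nonempty ⟨y, ?_⟩ ?_
  · rw [Finset.mem_filter, SimpleGraph.mem_neighborFinset]
    exact ⟨hy.1, hy⟩
  · intro y hy
    rw [Finset.mem_filter] at hy
    have h1 := H.betL_le (e := (h, y)) hy.2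
    have h2 := H.g0_pos
    linarith

/-- uniqueness for the block equation -/
theorem Ctx.block_unique (H : Ctx D r) {x : V} {d : V → ℝ}
    (hd : ∀ h ∈ Bf D x, (r - asum D r h) * d h = ∑ z' ∈ (D.neighborFinset h).filter (fun z' => z' ∈ Bf D x), d z') :
    ∀ h ∈ Bf D x, d h = 0 := by
  obtain ⟨q, hq, hmax⟩ := Finset.exists_max_image (Bf D x) (fun h => |d h|) ⟨x, H.self_mem_Bf x⟩
  have h1 := hd q hq
  have h2 : |∑ z' ∈ (D.neighborFinset q).filter (fun z' => z' ∈ Bf D x), d z'| ≤
      (((D.neighborFinset q).filter (fun z' => z' ∈ Bf D x)).card : ℝ) * |d q| := by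
    refine (Finset.abs_sum_le_sum_abs _ _).trans ?_
    rw [← nsmul_eq_mul, ← Finset.sum_const]
    refine Finset.sum_le_sum (fun z' hz' => hmax z' ?_)
    exact (Finset.mem_filter.1 hz').2
  have h3 : (((D.neighborFinset q).filter (fun z' => z' ∈ Bf D x)).card : ℝ) +
      (((D.neighborFinset q).filter (fun y => BD D q y)).card : ℝ) = r := by
    have e1 : (D.neighborFinset q).filter (fun y => BD D q y) = (D.neighborFinset q).filter (fun z' => ¬ z' ∈ Bf D x) := by
      ext y
      simp only [Finset.mem_filter, SimpleGraph.mem_neighborFinset]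
      constructor
      · rintro ⟨ha, hb⟩
        exact ⟨ha, fun h' => blk_bridge (H.mem_Bf.1 hq) hb (H.mem_Bf.1 h')⟩
      · rintro ⟨ha, hb⟩
        exact ⟨ha, blk_exit x q (H.mem_Bf.1 hq) y (fun h' => hb (H.mem_Bf.2 h')) ha⟩
    rw [e1]
    have := Finset.card_filter_add_card_filter_not (s := D.neighborFinset q) (fun z' => z' ∈ Bf D x)
    rw [SimpleGraph.card_neighborFinset_eq_degree, H.reg q] at this
    exact_mod_cast this
  have h4 := H.asum_lt q
  have h5 : (r - asum D r q) * |d q| ≤ (((D.neighborFinset q).filter (fun z' => z' ∈ Bf D x)).card : ℝ) * |d q| := by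
    rw [← h1] at h2
    rw [abs_mul, abs_of_pos (by linarith [Nat.cast_nonneg (α := ℝ) ((D.neighborFinset q).filter (fun z' => z' ∈ Bf D x)).card])] at h2
    exact h2
  have h6 : |d q| = 0 := by
    by_contra hne
    have hpos : 0 < |d q| := lt_of_le_of_ne (abs_nonneg _) (Ne.symm hne)
    have := le_of_mul_le_mul_right h5 hpos
    linarith
  intro h hh
  have := hmax h hh
  rw [h6] at this
  exact abs_eq_zero.1 (le_antisymm this (abs_nonneg _))

theorem Ctx.one_sub_pos (H : Ctx D r) {e e' : V × V} (he : BD D e.1 e.2) (he' : BD D e'.1 e'.2) :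
    0 < 1 - betL D r e * betL D r e' := by
  have h1 := H.betL_le he
  have h2 := H.betL_le he'
  have h3 := H.betL_nonneg he
  have h4 := H.betL_nonneg he'
  have h5 := H.g0_pos
  have h6 := H.g0_le
  nlinarith

/-- the ratio `betL e / (1 - betL e * betL e')` does not depend on the dart -/
theorem Ctx.ratio (H : Ctx D r) {e e' : V × V} (he : BD D e.1 e.2) (he' : BD D e'.1 e'.2) :
    betL D r e / (1 - betL D r e * betL D r (e.2, e.1)) = betL D r e' / (1 - betL D r e' * betL D r (e'.2, e'.1)) := by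
  obtain ⟨φ, hφ⟩ := H.trans e.2 e'.2
  set p := 1 - betL D r e * betL D r (e.2, e.1) with hp
  set p' := 1 - betL D r e' * betL D r (e'.2, e'.1) with hp'
  have hp0 : 0 < p := H.one_sub_pos he (e' := (e.2, e.1)) he.symm
  have hp0' : 0 < p' := H.one_sub_pos he' (e' := (e'.2, e'.1)) he'.symm
  have key := H.block_unique (x := e.2) (d := fun h => ueL D r e h / p - ueL D r e' (φ h) / p') ?_
  · have := key e.2 (H.self_mem_Bf _)
    rw [hφ] at this
    rw [betL_eq, betL_eq] 
    linarith
  · intro h hh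
    have h1 := H.block_eq he hh
    have hh' : φ h ∈ Bf D e'.2 := by
      rw [H.mem_Bf] at hh ⊢
      rw [← hφ]; exact map_mem_blk φ hh
    have h2 := H.block_eq he' hh'
    have h3 : ∑ z' ∈ (D.neighborFinset (φ h)).filter (fun z' => z' ∈ Bf D e'.2), ueL D r e' z' =
        ∑ z' ∈ (D.neighborFinset h).filter (fun z' => z' ∈ Bf D e.2), ueL D r e' (φ z') := by
      rw [Finset.sum_filter, Finset.sum_filter, sum_nbr_map φ h]
      refine Finset.sum_congr rfl (fun z' _ => ?_)
      have : φ z' ∈ Bf D e'.2 ↔ z' ∈ Bf D e.2 := by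
        rw [H.mem_Bf, H.mem_Bf, ← hφ, map_mem_blk_iff]
      simp only [this]
    rw [h3, H.asum_eq (φ h) h] at h2
    have h4 : (φ h = e'.2) ↔ (h = e.2) := by
      rw [← hφ]; exact φ.injective.eq_iff
    simp only [h4] at h2
    rw [Finset.sum_sub_distrib, ← Finset.sum_div, ← Finset.sum_div]
    rw [← hp] at h1
    rw [← hp'] at h2
    by_cases hhe : h = e.2
    · simp only [hhe, if_true] at h1 h2 ⊢
      field_simp
      nlinarith
    · simp only [hhe, if_false] at h1 h2
      have e1 : ∑ z' ∈ (D.neighborFinset h).filter (fun z' => z' ∈ Bf D e.2), ueL D r e z' =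
        (r - asum D r h) * ueL D r e h := by linarith
      have e2 : ∑ z' ∈ (D.neighborFinset h).filter (fun z' => z' ∈ Bf D e.2), ueL D r e' (φ z') =
        (r - asum D r h) * ueL D r e' (φ h) := by linarith
      rw [e1, e2]
      ring

theorem Ctx.betL_swap (H : Ctx D r) {e : V × V} (he : BD D e.1 e.2) : betL D r (e.2, e.1) = betL D r e := by
  have h := H.ratio he (e' := (e.2, e.1)) he.symm
  have hp := H.one_sub_pos he (e' := (e.2, e.1)) he.symm
  simp only [Prod.mk.eta] at h
  rw [mul_comm (betL D r (e.2, e.1))] at h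
  field_simp at h
  exact h.symm

/-- all the limits are equal -/
theorem Ctx.betL_const (H : Ctx D r) {e e' : V × V} (he : BD D e.1 e.2) (he' : BD D e'.1 e'.2) :
    betL D r e = betL D r e' := by
  have h := H.ratio he he'
  rw [H.betL_swap he, H.betL_swap he'] at h
  have hp := H.one_sub_pos he he
  have hp' := H.one_sub_pos he' he'
  rw [div_eq_div_iff hp.ne' hp'.ne'] at h
  have h1 := H.betL_nonneg he
  have h2 := H.betL_nonneg he'
  have h3 : (betL D r e - betL D r e') * (1 + betL D r e * betL D r e') = 0 := by nlinarith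
  rcases mul_eq_zero.1 h3 with h4 | h4
  · linarith
  · nlinarith [mul_nonneg h1 h2]

/-- the common limit -/
noncomputable def Ctx.bt (H : Ctx D r) : ℝ :=
  betL D r ((Classical.choice H.nonempty), (H.bridge_at (Classical.choice H.nonempty)).choose)

theorem Ctx.betL_bt (H : Ctx D r) {e : V × V} (he : BD D e.1 e.2) : betL D r e = H.bt :=
  H.betL_const he (e' := (Classical.choice H.nonempty, (H.bridge_at (Classical.choice H.nonempty)).choose))
    (H.bridge_at (Classical.choice H.nonempty)).choose_spec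

theorem Ctx.exists_BD (H : Ctx D r) : ∃ e : V × V, BD D e.1 e.2 :=
  ⟨(Classical.choice H.nonempty, (H.bridge_at (Classical.choice H.nonempty)).choose),
    (H.bridge_at (Classical.choice H.nonempty)).choose_spec⟩

theorem Ctx.bt_lt (H : Ctx D r) : H.bt ≤ 1 - H.g0 := by
  obtain ⟨e, he⟩ := H.exists_BD
  rw [← H.betL_bt he]; exact H.betL_le he

theorem Ctx.bt_nonneg (H : Ctx D r) : 0 ≤ H.bt := by
  obtain ⟨e, he⟩ := H.exists_BD
  rw [← H.betL_bt he]; exact H.betL_nonneg he

/-- criticality -/
theorem Ctx.critical (H : Ctx D r) {e : V × V} (he : BD D e.1 e.2) : ∑ c ∈ ch D e, ueL D r e c.1 = 1 := by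
  have h1 := H.currentL he
  have h2 : ∑ c ∈ ch D e, ueL D r e c.1 * (1 - betL D r c) = (∑ c ∈ ch D e, ueL D r e c.1) * (1 - H.bt) := by
    rw [Finset.sum_mul]
    refine Finset.sum_congr rfl (fun c hc => ?_)
    rw [H.betL_bt ((H.dec_ch he).br c hc)]
  rw [h2, H.betL_bt he] at h1
  have h3 : 1 - H.bt ≠ 0 := by
    have := H.bt_lt
    have := H.g0_pos
    intro h; linarith
  have h4 : (∑ c ∈ ch D e, ueL D r e c.1 - 1) * (1 - H.bt) = 0 := by linarith
  rcases mul_eq_zero.1 h4 with h5 | h5
  · linarith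
  · exact absurd h5 h3

end Pool.Agent.Helper910
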