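import Mathlib
import Pool.Agent.Helper910.Lim

/-!
# Several waves: definitions
(MP_4555f0_mp)
-/

namespace Pool.Agent.Helper910

open Classical Finset

variable {V : Type*}

/-- the configuration after `t` waves from `v` -/
noncomputable def itw (D : SimpleGraph V) (r : ℕ) (v : V) (G : Finset V) (t : ℕ) (ζ : V → ℕ) : V → ℕ :=
  (stp D r v G)^[t] ζ

/-- the `i`-th wave from `v`, counted from `0` -/
noncomputable def wv (D : SimpleGraph V) (r : ℕ) (v : V) (G : Finset V) (ζ : V → ℕ) (i : ℕ) : Finset V :=
  wav D r v G (itw D r v G i ζ)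

/-- the set of times `i < t` at which `x` topples -/
noncomputable def rp (D : SimpleGraph V) (r : ℕ) (v : V) (G : Finset V) (x : V) (t : ℕ) (ζ : V → ℕ) : Finset ℕ :=
  (range t).filter (fun i => x ∈ wv D r v G ζ i)

/-- the set of vertices toppled in the first `t` waves -/
noncomputable def rg (D : SimpleGraph V) (r : ℕ) (v : V) (G : Finset V) (t : ℕ) (ζ : V → ℕ) : Finset V :=
  (range t).biUnion (fun i => wv D r v G ζ i)

/-- waves from `v` on `G` when the `k`-th toppling of `h` (counted from `0`) is answered by one grain at `h` if and only if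
`k ∈ s`; the second component counts the topplings of `h` (the source `v` itself topples at each wave) -/
noncomputable def dst (D : SimpleGraph V) (r : ℕ) (v h : V) (G : Finset V) (s : Finset ℕ) :
    ℕ → (V → ℕ) → (V → ℕ) × ℕ
  | 0, ζ => (ζ, 0)
  | t + 1, ζ =>
    (fun z => stp D r v G (dst D r v h G s t ζ).1 z +
        (if z = h ∧ h ∈ wav D r v G (dst D r v h G s t ζ).1 ∧ (dst D r v h G s t ζ).2 ∈ s then 1 else 0),
      (dst D r v h G s t ζ).2 + (if h ∈ insert v (wav D r v G (dst D r v h G s t ζ).1) then 1 else 0))

/-- the waves of the driven process -/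
noncomputable def dwv (D : SimpleGraph V) (r : ℕ) (v h : V) (G : Finset V) (s : Finset ℕ) (ζ : V → ℕ) (i : ℕ) :
    Finset V := wav D r v G (dst D r v h G s i ζ).1

/-- the set of times `i < t` at which `x` topples in the driven process -/
noncomputable def drp (D : SimpleGraph V) (r : ℕ) (v h : V) (G : Finset V) (s : Finset ℕ) (x : V) (t : ℕ)
    (ζ : V → ℕ) : Finset ℕ := (range t).filter (fun i => x ∈ dwv D r v h G s ζ i)

/-- the set of vertices toppled in the first `t` driven waves -/
noncomputable def drg (D : SimpleGraph V) (r : ℕ) (v h : V) (G : Finset V) (s : Finset ℕ) (t : ℕ)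
    (ζ : V → ℕ) : Finset V := (range t).biUnion (fun i => dwv D r v h G s ζ i)

/-- the largest of `0, f 1, ..., f n` -/
noncomputable def mx (f : ℕ → ℝ) : ℕ → ℝ
  | 0 => 0
  | n + 1 => max (mx f n) (f (n + 1))

/-- the number of recurrent configurations with a prescribed response set at `x` and a prescribed number of
vertices toppled in `t` waves -/
noncomputable def cf (D : SimpleGraph V) (r : ℕ) (v : V) (G : Finset V) (x : V) (t : ℕ) (s : Finset ℕ) (l : ℕ) : ℕ :=
  ((Rc D r G).filter (fun ζ => rp D r v G x t ζ = s ∧ (rg D r v G t ζ).card = l)).card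

/-- the weight `l ^ (3/2)` -/
noncomputable def wt (l : ℕ) : ℝ := (l : ℝ) * Real.sqrt l

/-- unnormalised maximal local weight of `t` waves -/
noncomputable def mc (D : SimpleGraph V) (r : ℕ) (v : V) (G : Finset V) (x : V) (t n : ℕ) : ℝ :=
  ∑ s ∈ (range t).powerset, mx (fun l => wt l * (cf D r v G x t s l : ℝ)) n

/-- maximal local weight of `t` waves into the cone of the dart `e` -/
noncomputable def mm (D : SimpleGraph V) (r : ℕ) (G : Finset V) (e : V × V) (t n : ℕ) : ℝ :=
  mc D r e.1 (prt G (cone D e)) e.2 t n / (Rc D r (prt G (cone D e))).card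

/-- probability of a property under the uniform measure on the recurrent configurations of `G` -/
noncomputable def pr (D : SimpleGraph V) (r : ℕ) (G : Finset V) (P : (V → ℕ) → Prop) : ℝ :=
  (((Rc D r G).filter P).card : ℝ) / (Rc D r G).card

/-- expectation of a function under the uniform measure on the recurrent configurations of `G` -/
noncomputable def ex (D : SimpleGraph V) (r : ℕ) (G : Finset V) (f : (V → ℕ) → ℝ) : ℝ :=
  (∑ ζ ∈ Rc D r G, f ζ) / (Rc D r G).card

/-- number of edges of `I` starting at `z` -/
noncomputable def wI (I : Finset (V × V)) : V → ℕ := fun z => (I.filter (fun c => c.1 = z)).card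

/-- limit weight of the configuration `χ` on `Q` when the cones in `C` are attached to `Q` -/
noncomputable def lw (D : SimpleGraph V) (r : ℕ) (C : Finset (V × V)) (Q : Finset V) (β : ℝ) (χ : V → ℕ) : ℝ :=
  ∑ I ∈ C.powerset, β ^ I.card * (1 - β) ^ (C \ I).card * (if χ ∈ RcW D r (wI I) Q then 1 else 0)

end Pool.Agent.Helper910
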