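import Mathlib
import Pool.Agent.Helper910.MDefs

/-! Several waves across a gate (MP_4555f0_mp) -/

namespace Pool.Agent.Helper910

open Classical Finset

variable {V : Type*} {D : SimpleGraph V} {r : ℕ}

/-
Setting: `G1`, `G2` disjoint, the source `v` is outside both, the only edge between `insert v G1` and `G2` is `h y`
(so `h ∈ G1`, or `h = v`, or `h` is far away). If `h ≠ v` then `v` has no neighbour in `G2` and `Gate.wav_union`, `Gate.stp1`, `Gate.stp2` of
Gate.lean apply (with the gate between `G1` and `G2`). If `h = v` the sets `G1` and `G2` are not adjacent and the statements are easy from `IsWave.eq_wav`.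
-/

theorem m1_disj {G1 G2 : Finset V} {v h y : V} (g : Gate D (insert v G1) G2 h y) : Disjoint G1 G2 :=
  Finset.disjoint_of_subset_left (Finset.subset_insert v G1) g.disj

theorem m1_v2 {G1 G2 : Finset V} {v h y : V} (g : Gate D (insert v G1) G2 h y) : v ∉ G2 :=
  Finset.disjoint_left.1 g.disj (Finset.mem_insert_self v G1)

theorem m1_adj {G1 G2 : Finset V} {v h y : V} (g : Gate D (insert v G1) G2 h y) {z : V} (hz : z ∈ G2)
    (hh : h ∈ insert v G1) : D.Adj z h ↔ z = y := by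
  constructor
  · intro h'
    exact (g.edge h hh z hz h'.symm).2
  · rintro rfl
    exact g.adj.symm

/-- TARGET. a wave across a gate -/
theorem wav_gate {G1 G2 : Finset V} {v h y : V} (g : Gate D (insert v G1) G2 h y) (hv1 : v ∉ G1) {ζ : V → ℕ}
    (hζ : ∀ z ∈ G2, ζ z ≤ r) :
    wav D r v (G1 ∪ G2) ζ = wav D r v G1 ζ ∪ (if h ∈ insert v (wav D r v G1 ζ) then wav D r h G2 ζ else ∅) := by
  have hdis := m1_disj g
  have hv2 := m1_v2 g
  have w1 := isWave_wav (D := D) (r := r) v G1 ζ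
  have w2 := isWave_wav (D := D) (r := r) h G2 ζ
  set W1 := wav D r v G1 ζ with hW1
  set W2 := wav D r h G2 ζ with hW2
  have hiW : insert v W1 ⊆ insert v G1 := Finset.insert_subset_insert _ w1.sub
  refine IsWave.eq_wav ?_
  by_cases hh : h ∈ insert v W1
  · simp only [hh, if_true]
    have hd : Disjoint W1 W2 := Finset.disjoint_of_subset_left w1.sub (Finset.disjoint_of_subset_right w2.sub hdis)
    have hd2 : Disjoint (insert v W1) W2 := by
      rw [Finset.disjoint_insert_left]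
      exact ⟨fun h' => hv2 (w2.sub h'), hd⟩
    refine ⟨Finset.union_subset_union w1.sub w2.sub, ?_, ?_⟩
    · intro z hz hzW
      rw [Finset.mem_union, not_or] at hzW
      have e1 : insert v (W1 ∪ W2) = insert v W1 ∪ W2 := by rw [Finset.insert_union]
      rcases Finset.mem_union.1 hz with hz | hz
      · have h1 := w1.blk z hz hzW.1
        have h2 : dg D z (insert v (W1 ∪ W2)) = dg D z (insert v W1) := by
          rw [e1, dg_union hd2, g.dg1 (Finset.mem_insert_of_mem hz) w2.sub]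
          have : ¬ (z = h ∧ y ∈ W2) := by
            rintro ⟨h', -⟩
            subst h'
            rcases Finset.mem_insert.1 hh with h'' | h''
            · subst h''; exact hv1 hz
            · exact hzW.1 h''
          simp [this]
        omega
      · have h1 := w2.blk z hz hzW.2
        have h2 : dg D z (insert v (W1 ∪ W2)) = dg D z (insert h W2) := by
          rw [e1, dg_union hd2, g.dg2 hz hiW, dg_insert (fun h' => g.hh (w2.sub h'))]
          have h4 := m1_adj g hz (hiW hh)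
          simp only [hh, and_true, h4]
          omega
        omega
    · intro X hX hne
      by_cases hX1 : (X ∩ W1).Nonempty
      · obtain ⟨z, hz, hlt⟩ := w1.fd (X ∩ W1) Finset.inter_subset_right hX1
        refine ⟨z, (Finset.mem_inter.1 hz).1, lt_of_lt_of_le hlt (Nat.add_le_add_left (dg_mono ?_) _)⟩
        refine Finset.insert_subset_insert _ ?_
        intro x hx
        simp only [Finset.mem_sdiff, Finset.mem_inter, Finset.mem_union, not_and] at hx ⊢
        exact ⟨Or.inl hx.1, fun hxX => hx.2 hxX hx.1⟩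
      · have hX2 : X ⊆ W2 := by
          intro x hx
          rcases Finset.mem_union.1 (hX hx) with h' | h'
          · exact absurd ⟨x, Finset.mem_inter.2 ⟨hx, h'⟩⟩ hX1
          · exact h'
        obtain ⟨z, hz, hlt⟩ := w2.fd X hX2 hne
        refine ⟨z, hz, lt_of_lt_of_le hlt (Nat.add_le_add_left (dg_mono ?_) _)⟩
        intro x hx
        rcases Finset.mem_insert.1 hx with h' | h'
        · rcases Finset.mem_insert.1 hh with h1 | h1
          · rw [h', h1]; exact Finset.mem_insert_self _ _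
          · rw [h']
            refine Finset.mem_insert_of_mem (Finset.mem_sdiff.2 ⟨Finset.mem_union_left _ h1, ?_⟩)
            intro h''
            exact hX1 ⟨h, Finset.mem_inter.2 ⟨h'', h1⟩⟩
        · rw [Finset.mem_sdiff] at h'
          exact Finset.mem_insert_of_mem (Finset.mem_sdiff.2 ⟨Finset.mem_union_right _ h'.1, h'.2⟩)
  · simp only [hh, if_false, Finset.union_empty]
    refine ⟨w1.sub.trans Finset.subset_union_left, ?_, w1.fd⟩
    intro z hz hzW
    rcases Finset.mem_union.1 hz with hz | hz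
    · exact w1.blk z hz hzW
    · have h1 : dg D z (insert v W1) = 0 := by
        rw [g.dg2 hz hiW]
        simp [hh]
      rw [h1, add_zero]
      exact hζ z hz

theorem m1_mem1 {G1 G2 : Finset V} {v h y : V} (g : Gate D (insert v G1) G2 h y) (hv1 : v ∉ G1) {ζ : V → ℕ}
    (hζ : ∀ z ∈ G2, ζ z ≤ r) {z : V} (hz : z ∉ G2) :
    z ∈ wav D r v (G1 ∪ G2) ζ ↔ z ∈ wav D r v G1 ζ := by
  rw [wav_gate g hv1 hζ, Finset.mem_union]
  constructor
  · rintro (h' | h')
    · exact h'
    · split_ifs at h' with hc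
      · exact absurd ((isWave_wav h G2 ζ).sub h') hz
      · simp at h'
  · exact Or.inl

theorem m1_mem2 {G1 G2 : Finset V} {v h y : V} (g : Gate D (insert v G1) G2 h y) (hv1 : v ∉ G1) {ζ : V → ℕ}
    (hζ : ∀ z ∈ G2, ζ z ≤ r) {z : V} (hz : z ∈ G2) :
    z ∈ wav D r v (G1 ∪ G2) ζ ↔ h ∈ insert v (wav D r v G1 ζ) ∧ z ∈ wav D r h G2 ζ := by
  rw [wav_gate g hv1 hζ, Finset.mem_union]
  constructor
  · rintro (h' | h')
    · exact absurd hz (Finset.disjoint_left.1 (m1_disj g) ((isWave_wav v G1 ζ).sub h'))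
    · split_ifs at h' with hc
      · exact ⟨hc, h'⟩
      · simp at h'
  · rintro ⟨h1, h2⟩
    right
    rw [if_pos h1]
    exact h2

theorem m1_memh {G1 G2 : Finset V} {v h y : V} (g : Gate D (insert v G1) G2 h y) (hv1 : v ∉ G1) {ζ : V → ℕ}
    (hζ : ∀ z ∈ G2, ζ z ≤ r) :
    h ∈ insert v (wav D r v (G1 ∪ G2) ζ) ↔ h ∈ insert v (wav D r v G1 ζ) := by
  rw [Finset.mem_insert, Finset.mem_insert, m1_mem1 g hv1 hζ g.hh]

/-- TARGET. -/
theorem stp_gate1 {G1 G2 : Finset V} {v h y : V} (g : Gate D (insert v G1) G2 h y) (hv1 : v ∉ G1) {ζ : V → ℕ}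
    (hζ : ∀ z ∈ G2, ζ z ≤ r) {z : V} (hz : z ∈ G1) :
    stp D r v (G1 ∪ G2) ζ z = stp D r v G1 ζ z +
      (if z = h ∧ h ∈ wav D r v G1 ζ ∧ y ∈ wav D r h G2 ζ then 1 else 0) := by
  have hdis := m1_disj g
  have hv2 := m1_v2 g
  have b1 := stp_balance (D := D) (r := r) (v := v) (ζ := ζ) (Finset.mem_union_left G2 hz)
  have b2 := stp_balance (D := D) (r := r) (v := v) (ζ := ζ) hz
  have w1 := isWave_wav (D := D) (r := r) v G1 ζ
  have w2 := isWave_wav (D := D) (r := r) h G2 ζ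
  have e1 : (z ∈ wav D r v (G1 ∪ G2) ζ) = (z ∈ wav D r v G1 ζ) :=
    propext (m1_mem1 g hv1 hζ (Finset.disjoint_left.1 hdis hz))
  have e2 : dg D z (insert v (wav D r v (G1 ∪ G2) ζ)) = dg D z (insert v (wav D r v G1 ζ)) +
      (if z = h ∧ h ∈ wav D r v G1 ζ ∧ y ∈ wav D r h G2 ζ then 1 else 0) := by
    rw [wav_gate g hv1 hζ, ← Finset.insert_union, dg_union]
    · congr 1
      by_cases hc : h ∈ insert v (wav D r v G1 ζ)
      · rw [if_pos hc, g.dg1 (Finset.mem_insert_of_mem hz) w2.sub]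
        by_cases hzh : z = h
        · have hh1 : h ∈ wav D r v G1 ζ := by
            rcases Finset.mem_insert.1 hc with h' | h'
            · exact absurd (h' ▸ hzh ▸ hz) hv1
            · exact h'
          simp [hzh, hh1]
        · simp [hzh]
      · have hc' : h ∉ wav D r v G1 ζ := fun h' => hc (Finset.mem_insert_of_mem h')
        rw [if_neg hc]
        simp [hc', dg_empty]
    · split_ifs with hc
      · rw [Finset.disjoint_insert_left]
        exact ⟨fun h' => hv2 (w2.sub h'),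
          Finset.disjoint_of_subset_left w1.sub (Finset.disjoint_of_subset_right w2.sub hdis)⟩
      · exact Finset.disjoint_empty_right _
  simp only [e1] at b1
  rw [e2] at b1
  omega

/-- TARGET. -/
theorem stp_gate2 {G1 G2 : Finset V} {v h y : V} (g : Gate D (insert v G1) G2 h y) (hv1 : v ∉ G1) {ζ : V → ℕ}
    (hζ : ∀ z ∈ G2, ζ z ≤ r) {z : V} (hz : z ∈ G2) :
    stp D r v (G1 ∪ G2) ζ z = if h ∈ insert v (wav D r v G1 ζ) then stp D r h G2 ζ z else ζ z := by
  have hdis := m1_disj g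
  have hv2 := m1_v2 g
  have b1 := stp_balance (D := D) (r := r) (v := v) (ζ := ζ) (Finset.mem_union_right G1 hz)
  have b2 := stp_balance (D := D) (r := r) (v := h) (ζ := ζ) hz
  have w1 := isWave_wav (D := D) (r := r) v G1 ζ
  have w2 := isWave_wav (D := D) (r := r) h G2 ζ
  have hiW : insert v (wav D r v G1 ζ) ⊆ insert v G1 := Finset.insert_subset_insert _ w1.sub
  have e1 : (z ∈ wav D r v (G1 ∪ G2) ζ) = (h ∈ insert v (wav D r v G1 ζ) ∧ z ∈ wav D r h G2 ζ) :=
    propext (m1_mem2 g hv1 hζ hz)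
  have e2 : dg D z (insert v (wav D r v (G1 ∪ G2) ζ)) =
      if h ∈ insert v (wav D r v G1 ζ) then dg D z (insert h (wav D r h G2 ζ)) else 0 := by
    rw [wav_gate g hv1 hζ, ← Finset.insert_union, dg_union, g.dg2 hz hiW]
    · by_cases hc : h ∈ insert v (wav D r v G1 ζ)
      · rw [if_pos hc, if_pos hc, dg_insert (fun h' => g.hh (w2.sub h'))]
        have h4 := m1_adj g hz (hiW hc)
        simp only [hc, and_true, h4]
        omega
      · rw [if_neg hc, if_neg hc]
        simp [hc, dg_empty]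
    · split_ifs with hc
      · rw [Finset.disjoint_insert_left]
        exact ⟨fun h' => hv2 (w2.sub h'),
          Finset.disjoint_of_subset_left w1.sub (Finset.disjoint_of_subset_right w2.sub hdis)⟩
      · exact Finset.disjoint_empty_right _
  simp only [e1] at b1
  rw [e2] at b1
  by_cases hc : h ∈ insert v (wav D r v G1 ζ)
  · rw [if_pos hc]
    rw [if_pos hc] at b1
    simp only [hc, true_and] at b1
    omega
  · rw [if_neg hc]
    rw [if_neg hc] at b1
    simp only [hc, false_and, if_false, add_zero] at b1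
    exact b1

/-- TARGET. `stp` only depends on the values on `G` -/
theorem stp_congr {v : V} {G : Finset V} {ζ ζ' : V → ℕ} (h : ∀ y ∈ G, ζ y = ζ' y) :
    stp D r v G ζ = stp D r v G ζ' := by
  funext z
  unfold stp
  rw [wav_congr h]
  by_cases hz : z ∈ G
  · simp only [hz, if_true, h z hz]
  · simp only [hz, if_false]

theorem m1_itw_zero {v : V} {G : Finset V} {ζ : V → ℕ} : itw D r v G 0 ζ = ζ := rfl

theorem m1_itw_succ {v : V} {G : Finset V} {ζ : V → ℕ} (i : ℕ) :
    itw D r v G (i + 1) ζ = stp D r v G (itw D r v G i ζ) := by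
  unfold itw
  rw [Function.iterate_succ_apply']

/-- TARGET. -/
theorem itw_mem (hd : DegLe D r) {v : V} {G : Finset V} (hv : v ∉ G) {ζ : V → ℕ} (h : ζ ∈ Rc D r G) (i : ℕ) :
    itw D r v G i ζ ∈ Rc D r G := by
  induction i with
  | zero => exact h
  | succ i ih =>
    rw [m1_itw_succ]
    exact stp_mem hd hv ih

/-- TARGET. invariance of sums under `i` waves (induction from `sum_stp`) -/
theorem sum_itw (hd : DegLe D r) {v : V} {G : Finset V} (hv : v ∉ G) {M : Type*} [AddCommMonoid M]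
    (f : (V → ℕ) → M) (i : ℕ) :
    ∑ ζ ∈ Rc D r G, f (itw D r v G i ζ) = ∑ ζ ∈ Rc D r G, f ζ := by
  induction i generalizing f with
  | zero => rfl
  | succ i ih =>
    have h1 : ∀ ζ, f (itw D r v G (i + 1) ζ) = (fun ζ => f (stp D r v G ζ)) (itw D r v G i ζ) := by
      intro ζ
      rw [m1_itw_succ]
    simp only [h1]
    rw [ih (fun ζ => f (stp D r v G ζ))]
    exact sum_stp hd hv f

/-- the number of times `i < t` at which `h` (or the source, if `h = v`) topples -/
noncomputable def kk (D : SimpleGraph V) (r : ℕ) (v : V) (G : Finset V) (h : V) (ζ : V → ℕ) (t : ℕ) : ℕ :=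
  ((range t).filter (fun i => h ∈ insert v (wv D r v G ζ i))).card

theorem m1_kk_zero {v : V} {G : Finset V} {h : V} {ζ : V → ℕ} : kk D r v G h ζ 0 = 0 := by
  simp [kk]

theorem m1_kk_succ {v : V} {G : Finset V} {h : V} {ζ : V → ℕ} (i : ℕ) :
    kk D r v G h ζ (i + 1) = kk D r v G h ζ i + (if h ∈ insert v (wv D r v G ζ i) then 1 else 0) := by
  unfold kk
  rw [Finset.range_add_one, Finset.filter_insert]
  split_ifs with hc
  · rw [Finset.card_insert_of_notMem]
    simp
  · rfl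

theorem m1_kk_mono {v : V} {G : Finset V} {h : V} {ζ : V → ℕ} {i j : ℕ} (hij : i ≤ j) :
    kk D r v G h ζ i ≤ kk D r v G h ζ j := by
  unfold kk
  exact Finset.card_le_card (Finset.filter_subset_filter _ (Finset.range_mono hij))

theorem m1_le {G1 G2 : Finset V} {ξ : V → ℕ} (hξ : ξ ∈ Rc D r (G1 ∪ G2)) : ∀ z ∈ G2, ξ z ≤ r :=
  fun z hz => ((mem_Rc.1 hξ).1.1 z (Finset.mem_union_right _ hz)).2

theorem m1_notMem {G1 G2 : Finset V} {v h y : V} (g : Gate D (insert v G1) G2 h y) (hv1 : v ∉ G1) :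
    v ∉ G1 ∪ G2 := by
  rw [Finset.mem_union, not_or]
  exact ⟨hv1, m1_v2 g⟩

theorem m1_wav_rs {v : V} {G : Finset V} {ξ : V → ℕ} : wav D r v G (rs G ξ) = wav D r v G ξ :=
  wav_congr (fun _ hz => rs_mem hz)

theorem m1_stp_rs {v : V} {G : Finset V} {ξ : V → ℕ} : stp D r v G (rs G ξ) = stp D r v G ξ :=
  stp_congr (fun _ hz => rs_mem hz)

/-- TARGET. second side of the gate: after `i` waves it has seen `kk i` waves from `h` -/
theorem cut_two (hd : DegLe D r) {G1 G2 : Finset V} {v h y : V} (g : Gate D (insert v G1) G2 h y) (hv1 : v ∉ G1) {ζ : V → ℕ}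
    (hζ : ζ ∈ Rc D r (G1 ∪ G2)) (i : ℕ) :
    rs G2 (itw D r v (G1 ∪ G2) i ζ) = itw D r h G2 (kk D r v (G1 ∪ G2) h ζ i) (rs G2 ζ) ∧
    wv D r v (G1 ∪ G2) ζ i ∩ G2 =
      (if h ∈ insert v (wv D r v (G1 ∪ G2) ζ i) then wv D r h G2 (rs G2 ζ) (kk D r v (G1 ∪ G2) h ζ i) else ∅) := by
  have hdis := m1_disj g
  have hA : rs G2 (itw D r v (G1 ∪ G2) i ζ) = itw D r h G2 (kk D r v (G1 ∪ G2) h ζ i) (rs G2 ζ) := by
    induction i with
    | zero => rw [m1_kk_zero]; rfl
    | succ i ih =>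
      have hξ := itw_mem hd (m1_notMem g hv1) hζ i
      have hle := m1_le hξ
      set ξ := itw D r v (G1 ∪ G2) i ζ with hξdef
      have hiff : h ∈ insert v (wv D r v (G1 ∪ G2) ζ i) ↔ h ∈ insert v (wav D r v G1 ξ) :=
        m1_memh g hv1 hle
      rw [m1_itw_succ, m1_kk_succ, ← hξdef]
      by_cases hc : h ∈ insert v (wv D r v (G1 ∪ G2) ζ i)
      · rw [if_pos hc, m1_itw_succ, ← ih, m1_stp_rs]
        funext z
        by_cases hz : z ∈ G2
        · rw [rs_mem hz, stp_gate2 g hv1 hle hz, if_pos (hiff.1 hc)]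
        · rw [rs_notMem hz, stp_notMem hz]
      · rw [if_neg hc, add_zero, ← ih]
        funext z
        by_cases hz : z ∈ G2
        · rw [rs_mem hz, rs_mem hz, stp_gate2 g hv1 hle hz, if_neg (fun h' => hc (hiff.2 h'))]
        · rw [rs_notMem hz, rs_notMem hz]
  refine ⟨hA, ?_⟩
  have hξ := itw_mem hd (m1_notMem g hv1) hζ i
  have hle := m1_le hξ
  have hwv : wv D r h G2 (rs G2 ζ) (kk D r v (G1 ∪ G2) h ζ i) = wav D r h G2 (itw D r v (G1 ∪ G2) i ζ) := by
    unfold wv
    rw [← hA, m1_wav_rs]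
  rw [hwv]
  have hiff : h ∈ insert v (wv D r v (G1 ∪ G2) ζ i) ↔ h ∈ insert v (wav D r v G1 (itw D r v (G1 ∪ G2) i ζ)) :=
    m1_memh g hv1 hle
  ext z
  rw [Finset.mem_inter]
  constructor
  · rintro ⟨h1, h2⟩
    have h3 := (m1_mem2 g hv1 hle h2).1 h1
    rw [if_pos (hiff.2 h3.1)]
    exact h3.2
  · intro h1
    split_ifs at h1 with hc
    · have hz : z ∈ G2 := (isWave_wav h G2 _).sub h1
      exact ⟨(m1_mem2 g hv1 hle hz).2 ⟨hiff.1 hc, h1⟩, hz⟩
    · simp at h1

/-- TARGET. -/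
theorem cut_rg2 (hd : DegLe D r) {G1 G2 : Finset V} {v h y : V} (g : Gate D (insert v G1) G2 h y) (hv1 : v ∉ G1) {ζ : V → ℕ}
    (hζ : ζ ∈ Rc D r (G1 ∪ G2)) (t : ℕ) :
    rg D r v (G1 ∪ G2) t ζ ∩ G2 = rg D r h G2 (kk D r v (G1 ∪ G2) h ζ t) (rs G2 ζ) := by
  have hsucc : ∀ (u : V) (G : Finset V) (ξ : V → ℕ) (j : ℕ),
      rg D r u G (j + 1) ξ = rg D r u G j ξ ∪ wv D r u G ξ j := by
    intro u G ξ j
    unfold rg
    rw [Finset.range_add_one, Finset.biUnion_insert, Finset.union_comm]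
  induction t with
  | zero =>
    rw [m1_kk_zero]
    simp [rg]
  | succ t ih =>
    have h2 := (cut_two hd g hv1 hζ t).2
    rw [hsucc, Finset.union_inter_distrib_right, ih, h2, m1_kk_succ]
    split_ifs with hc
    · rw [hsucc]
    · rw [Finset.union_empty, add_zero]

/-- TARGET. first side of the gate: it is the driven process with the response set of the second side.
(For the induction on `i ≤ t` note that `k ∈ s` is only consulted for `k = kk i < kk t`.) -/
theorem cut_one (hd : DegLe D r) {G1 G2 : Finset V} {v h y : V} (g : Gate D (insert v G1) G2 h y) (hv1 : v ∉ G1) {ζ : V → ℕ}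
    (hζ : ζ ∈ Rc D r (G1 ∪ G2)) (t i : ℕ) (hi : i ≤ t) :
    (dst D r v h G1 (rp D r h G2 y (kk D r v (G1 ∪ G2) h ζ t) (rs G2 ζ)) i (rs G1 ζ)).1 =
      rs G1 (itw D r v (G1 ∪ G2) i ζ) ∧
    (dst D r v h G1 (rp D r h G2 y (kk D r v (G1 ∪ G2) h ζ t) (rs G2 ζ)) i (rs G1 ζ)).2 =
      kk D r v (G1 ∪ G2) h ζ i := by
  have hdis := m1_disj g
  induction i with
  | zero => exact ⟨rfl, by rw [m1_kk_zero]; rfl⟩
  | succ i ih =>
    obtain ⟨ih1, ih2⟩ := ih (by omega)
    have hξ := itw_mem hd (m1_notMem g hv1) hζ i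
    have hle := m1_le hξ
    have hct := (cut_two hd g hv1 hζ i).1
    set s := rp D r h G2 y (kk D r v (G1 ∪ G2) h ζ t) (rs G2 ζ) with hs
    set ξ := itw D r v (G1 ∪ G2) i ζ with hξdef
    have hiff : h ∈ insert v (wv D r v (G1 ∪ G2) ζ i) ↔ h ∈ insert v (wav D r v G1 ξ) :=
      m1_memh g hv1 hle
    have hd1 : (dst D r v h G1 s (i + 1) (rs G1 ζ)).1 = fun z => stp D r v G1 (dst D r v h G1 s i (rs G1 ζ)).1 z +
        (if z = h ∧ h ∈ wav D r v G1 (dst D r v h G1 s i (rs G1 ζ)).1 ∧ (dst D r v h G1 s i (rs G1 ζ)).2 ∈ s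
          then 1 else 0) := rfl
    have hd2 : (dst D r v h G1 s (i + 1) (rs G1 ζ)).2 = (dst D r v h G1 s i (rs G1 ζ)).2 +
        (if h ∈ insert v (wav D r v G1 (dst D r v h G1 s i (rs G1 ζ)).1) then 1 else 0) := rfl
    rw [hd1, hd2, ih1, ih2, m1_wav_rs, m1_stp_rs]
    constructor
    · funext z
      by_cases hz : z ∈ G1
      · rw [rs_mem hz, m1_itw_succ, ← hξdef, stp_gate1 g hv1 hle hz]
        congr 1
        have hiff2 : (z = h ∧ h ∈ wav D r v G1 ξ ∧ kk D r v (G1 ∪ G2) h ζ i ∈ s) ↔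
            (z = h ∧ h ∈ wav D r v G1 ξ ∧ y ∈ wav D r h G2 ξ) := by
          refine and_congr_right fun _ => and_congr_right fun hw => ?_
          have hlt : kk D r v (G1 ∪ G2) h ζ i < kk D r v (G1 ∪ G2) h ζ t := by
            have h1 := m1_kk_succ (D := D) (r := r) (v := v) (G := G1 ∪ G2) (h := h) (ζ := ζ) i
            rw [if_pos (hiff.2 (Finset.mem_insert_of_mem hw))] at h1
            have h2 := m1_kk_mono (D := D) (r := r) (v := v) (G := G1 ∪ G2) (h := h) (ζ := ζ) hi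
            omega
          rw [hs]
          unfold rp
          rw [Finset.mem_filter, Finset.mem_range]
          unfold wv
          rw [← hct, m1_wav_rs]
          exact ⟨fun h' => h'.2, fun h' => ⟨hlt, h'⟩⟩
        simp only [hiff2]
      · rw [rs_notMem hz, stp_notMem hz]
        have : ¬ (z = h ∧ h ∈ wav D r v G1 ξ ∧ kk D r v (G1 ∪ G2) h ζ i ∈ s) := by
          rintro ⟨h1, h2, -⟩
          exact hz (h1 ▸ (isWave_wav v G1 ξ).sub h2)
        rw [if_neg this]
    · rw [m1_kk_succ]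
      congr 1
      simp only [hiff]

theorem m1_wv1 (hd : DegLe D r) {G1 G2 : Finset V} {v h y : V} (g : Gate D (insert v G1) G2 h y) (hv1 : v ∉ G1) {ζ : V → ℕ}
    (hζ : ζ ∈ Rc D r (G1 ∪ G2)) (t i : ℕ) (hi : i < t) :
    dwv D r v h G1 (rp D r h G2 y (kk D r v (G1 ∪ G2) h ζ t) (rs G2 ζ)) (rs G1 ζ) i =
      wav D r v G1 (itw D r v (G1 ∪ G2) i ζ) := by
  unfold dwv
  rw [(cut_one hd g hv1 hζ t i hi.le).1, m1_wav_rs]

/-- TARGET. -/
theorem cut_wv1 (hd : DegLe D r) {G1 G2 : Finset V} {v h y : V} (g : Gate D (insert v G1) G2 h y) (hv1 : v ∉ G1) {ζ : V → ℕ}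
    (hζ : ζ ∈ Rc D r (G1 ∪ G2)) (t i : ℕ) (hi : i < t) :
    wv D r v (G1 ∪ G2) ζ i ∩ G1 =
      dwv D r v h G1 (rp D r h G2 y (kk D r v (G1 ∪ G2) h ζ t) (rs G2 ζ)) (rs G1 ζ) i := by
  have hle := m1_le (itw_mem hd (m1_notMem g hv1) hζ i)
  rw [m1_wv1 hd g hv1 hζ t i hi]
  ext z
  rw [Finset.mem_inter]
  constructor
  · rintro ⟨h1, h2⟩
    exact (m1_mem1 g hv1 hle (Finset.disjoint_left.1 (m1_disj g) h2)).1 h1
  · intro h1
    have hz : z ∈ G1 := (isWave_wav v G1 _).sub h1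
    exact ⟨(m1_mem1 g hv1 hle (Finset.disjoint_left.1 (m1_disj g) hz)).2 h1, hz⟩

/-- TARGET. -/
theorem cut_rg1 (hd : DegLe D r) {G1 G2 : Finset V} {v h y : V} (g : Gate D (insert v G1) G2 h y) (hv1 : v ∉ G1) {ζ : V → ℕ}
    (hζ : ζ ∈ Rc D r (G1 ∪ G2)) (t : ℕ) :
    rg D r v (G1 ∪ G2) t ζ ∩ G1 =
      drg D r v h G1 (rp D r h G2 y (kk D r v (G1 ∪ G2) h ζ t) (rs G2 ζ)) t (rs G1 ζ) := by
  ext z
  unfold rg drg
  rw [Finset.mem_inter, Finset.mem_biUnion, Finset.mem_biUnion]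
  constructor
  · rintro ⟨⟨i, hi, hzi⟩, hz⟩
    refine ⟨i, hi, ?_⟩
    rw [← cut_wv1 hd g hv1 hζ t i (Finset.mem_range.1 hi)]
    exact Finset.mem_inter.2 ⟨hzi, hz⟩
  · rintro ⟨i, hi, hzi⟩
    rw [← cut_wv1 hd g hv1 hζ t i (Finset.mem_range.1 hi), Finset.mem_inter] at hzi
    exact ⟨⟨i, hi, hzi.1⟩, hzi.2⟩

/-- TARGET. response set at a vertex `x` outside `G2` -/
theorem cut_rp (hd : DegLe D r) {G1 G2 : Finset V} {v h y : V} (g : Gate D (insert v G1) G2 h y) (hv1 : v ∉ G1) {ζ : V → ℕ}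
    (hζ : ζ ∈ Rc D r (G1 ∪ G2)) (t : ℕ) {x : V} (hx : x ∉ G2) :
    rp D r v (G1 ∪ G2) x t ζ =
      drp D r v h G1 (rp D r h G2 y (kk D r v (G1 ∪ G2) h ζ t) (rs G2 ζ)) x t (rs G1 ζ) := by
  have key : ∀ i < t, (x ∈ wv D r v (G1 ∪ G2) ζ i ↔
      x ∈ dwv D r v h G1 (rp D r h G2 y (kk D r v (G1 ∪ G2) h ζ t) (rs G2 ζ)) (rs G1 ζ) i) := by
    intro i hi
    have hle := m1_le (itw_mem hd (m1_notMem g hv1) hζ i)
    rw [m1_wv1 hd g hv1 hζ t i hi]
    exact m1_mem1 g hv1 hle hx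
  generalize hs : rp D r h G2 y (kk D r v (G1 ∪ G2) h ζ t) (rs G2 ζ) = s at key ⊢
  unfold rp drp
  exact Finset.filter_congr (fun i hi => key i (Finset.mem_range.1 hi))

end Pool.Agent.Helper910
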