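import Mathlib
import Pool.Agent.Helper910.MDefs

/-! Counting recurrent configurations across gates (MP_4555f0_mp) -/

namespace Pool.Agent.Helper910

open Classical Finset

variable {V : Type*} {D : SimpleGraph V} {r : ℕ}

/-- TARGET. Plain proof: if `x ∈ G`, then `x ∉ wav` iff `ζ x ≤ r - 1` (for `x ∉ wav` use `IsWave.blk` at `x`; if `ζ x ≤ r - 1`, the empty set
is the wave since `x` is the only neighbour of `v` in `G`), and `ζ ↦ ζ + dl x` is a bijection of `{ζ ∈ Rc, ζ x ≤ r-1}` onto `RcW (dl x)`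
(for `ξ ∈ RcW (dl x)` the set `U = {x}` gives `ξ x ≥ 2`). If `x ∉ G` both sides count `Rc`. -/
theorem card_strong {v x : V} {G : Finset V} (hv : v ∉ G) (hvx : ∀ z ∈ G, (D.Adj v z ↔ z = x)) :
    (RcW D r (dl x) G).card = ((Rc D r G).filter (fun ζ => x ∉ wav D r v G ζ)).card := by
  by_cases hx : x ∈ G
  · have hadj : D.Adj v x := (hvx x hx).2 rfl
    have key : ∀ ζ, IsConfig r G ζ → (x ∉ wav D r v G ζ ↔ ζ x + 1 ≤ r) := by
      intro ζ hc
      constructor
      · intro h
        have h1 := (isWave_wav (D := D) (r := r) v G ζ).blk x hx h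
        have h2 : dg D x {v} ≤ dg D x (insert v (wav D r v G ζ)) :=
          dg_mono (Finset.singleton_subset_iff.2 (Finset.mem_insert_self _ _))
        rw [dg_singleton, if_pos hadj.symm] at h2
        omega
      · intro h
        have hw : IsWave D r v G ζ ∅ := by
          refine ⟨Finset.empty_subset _, ?_, ?_⟩
          · intro z hz _
            rw [insert_empty_eq, dg_singleton]
            by_cases hzx : z = x
            · subst hzx
              split_ifs <;> omega
            · rw [if_neg (fun h' => hzx ((hvx z hz).1 h'.symm)), add_zero]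
              exact (hc.1 z hz).2
          · intro X hX hne
            rw [Finset.subset_empty] at hX
            subst hX
            exact absurd hne (by simp)
        rw [hw.eq_wav]
        simp
    refine Finset.card_bij' (fun ξ _ => fun z => ξ z - dl x z) (fun ζ _ => fun z => ζ z + dl x z)
      ?_ ?_ ?_ ?_
    · intro ξ hξ
      rw [mem_RcW] at hξ
      obtain ⟨hc, hr⟩ := hξ
      obtain ⟨z, hz, hlt⟩ := hr {x} (Finset.singleton_subset_iff.2 hx) (Finset.singleton_nonempty x)
      rw [Finset.mem_singleton] at hz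
      subst hz
      have h2 : 2 ≤ ξ z := by
        simp only [dl, if_true] at hlt
        omega
      have hcfg : IsConfig r G (fun w => ξ w - dl z w) := by
        refine ⟨fun w hw => ?_, fun w hw => ?_⟩
        · have := hc.1 w hw
          by_cases hwz : w = z
          · subst hwz
            simp only [dl, if_true]
            omega
          · simp only [dl, hwz, if_false, Nat.sub_zero]
            exact this
        · simp only [hc.2 w hw, Nat.zero_sub]
      rw [Finset.mem_filter, mem_Rc, key _ hcfg]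
      refine ⟨⟨hcfg, ?_⟩, ?_⟩
      · intro U hU hne
        obtain ⟨w, hw, hlt2⟩ := hr U hU hne
        refine ⟨w, hw, ?_⟩
        simp only [Pi.zero_apply, add_zero]
        omega
      · have := (hc.1 z hx).2
        simp only [dl, if_true]
        omega
    · intro ζ hζ
      rw [Finset.mem_filter, mem_Rc] at hζ
      obtain ⟨⟨hc, hr⟩, hw⟩ := hζ
      rw [key _ hc] at hw
      rw [mem_RcW]
      refine ⟨⟨fun w hw' => ?_, fun w hw' => ?_⟩, ?_⟩
      · have := hc.1 w hw'
        by_cases hwx : w = x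
        · subst hwx
          simp only [dl, if_true]
          omega
        · simp only [dl, hwx, if_false, add_zero]
          exact this
      · have hwx : w ≠ x := fun h => hw' (h ▸ hx)
        simp only [dl, hwx, if_false, add_zero]
        exact hc.2 w hw'
      · intro U hU hne
        obtain ⟨w, hw', hlt⟩ := hr U hU hne
        refine ⟨w, hw', ?_⟩
        simp only [Pi.zero_apply, add_zero] at hlt
        show dg D w U + dl x w < ζ w + dl x w
        omega
    · intro ξ hξ
      rw [mem_RcW] at hξ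
      obtain ⟨hc, hr⟩ := hξ
      funext z
      by_cases hzx : z = x
      · subst hzx
        have := (hc.1 z hx).1
        simp only [dl, if_true]
        omega
      · simp only [dl, hzx, if_false, add_zero, Nat.sub_zero]
    · intro ζ _
      funext z
      simp only [Nat.add_sub_cancel]
  · have h1 : RcW D r (dl x) G = Rc D r G := by
      ext ζ
      rw [mem_RcW, mem_Rc]
      have h2 : ∀ z ∈ G, dl x z = 0 := by
        intro z hz
        have hzx : z ≠ x := fun h => hx (h ▸ hz)
        simp [dl, hzx]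
      refine and_congr_right fun _ => ⟨fun h => h.mono_w fun z hz => by simp, fun h => h.mono_w fun z hz => ?_⟩
      rw [h2 z hz]
      simp
    rw [h1]
    congr 1
    rw [Finset.filter_true_of_mem]
    intro ζ _ h
    exact hx ((isWave_wav v G ζ).sub h)

theorem m2_rs_add {G1 G2 : Finset V} (hd : Disjoint G1 G2) {ζ1 ζ2 : V → ℕ} (h1 : IsConfig r G1 ζ1)
    (h2 : IsConfig r G2 ζ2) : rs G1 (fun z => ζ1 z + ζ2 z) = ζ1 ∧ rs G2 (fun z => ζ1 z + ζ2 z) = ζ2 := by
  constructor
  · funext z
    by_cases hz : z ∈ G1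
    · rw [rs_mem hz, h2.2 z (Finset.disjoint_left.1 hd hz), add_zero]
    · rw [rs_notMem hz, h1.2 z hz]
  · funext z
    by_cases hz : z ∈ G2
    · rw [rs_mem hz, h1.2 z (Finset.disjoint_right.1 hd hz), zero_add]
    · rw [rs_notMem hz, h2.2 z hz]

theorem m2_rs_inj {G1 G2 : Finset V} {ζ ζ' : V → ℕ} (hc : IsConfig r (G1 ∪ G2) ζ)
    (hc' : IsConfig r (G1 ∪ G2) ζ') (h1 : rs G1 ζ = rs G1 ζ') (h2 : rs G2 ζ = rs G2 ζ') : ζ = ζ' := by
  funext z
  by_cases hz1 : z ∈ G1
  · have := congrFun h1 z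
    rwa [rs_mem hz1, rs_mem hz1] at this
  · by_cases hz2 : z ∈ G2
    · have := congrFun h2 z
      rwa [rs_mem hz2, rs_mem hz2] at this
    · have hz : z ∉ G1 ∪ G2 := by simp [hz1, hz2]
      rw [hc.2 z hz, hc'.2 z hz]

/-- TARGET. a product formula: if `Φ` vanishes unless the wave from `v` on `G1` reaches `h`, then the two sides are independent
(use `Gate.sum_glue` with `w = 0` and `Gate.strong_of_wav`; on the pairs `rs G1 (p.1 + p.2) = p.1` and `rs G2 (p.1 + p.2) = p.2`). -/
theorem sum_pull {G1 G2 : Finset V} {v h y : V} (g : Gate D G1 G2 h y) (hd : DegLe D r) (hv1 : v ∉ G1) (hvy : v ≠ y)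
    {M : Type*} [CommSemiring M] (Φ f : (V → ℕ) → M) (hΦ : ∀ ζ1 ∈ Rc D r G1, h ∉ wav D r v G1 ζ1 → Φ ζ1 = 0) :
    ∑ ζ ∈ Rc D r (G1 ∪ G2), Φ (rs G1 ζ) * f (rs G2 ζ) = (∑ ζ1 ∈ Rc D r G1, Φ ζ1) * ∑ ζ2 ∈ Rc D r G2, f ζ2 := by
  have h0 := g.sum_glue (r := r) (w := 0) (fun _ _ => rfl) (fun ζ => Φ (rs G1 ζ) * f (rs G2 ζ))
  unfold Rc at h0 ⊢
  rw [h0, Finset.sum_mul_sum, ← Finset.sum_product']
  unfold Gate.pairs
  rw [Finset.sum_filter]
  refine Finset.sum_congr rfl fun p hp => ?_
  rw [Finset.mem_product] at hp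
  obtain ⟨hp1, hp2⟩ := hp
  have c1 := (mem_RcW.1 hp1).1
  have c2 := (mem_RcW.1 hp2).1
  have e := m2_rs_add g.disj c1 c2
  split_ifs with hcond
  · rw [e.1, e.2]
  · have hz : Φ p.1 = 0 := by
      refine hΦ p.1 hp1 fun hh => hcond (Or.inr ?_)
      rw [mem_RcW]
      exact ⟨c1, g.strong_of_wav hd hv1 hvy (mem_RcW.1 hp1).2 hh⟩
    rw [hz, zero_mul]

/-- TARGET. restriction is injective, hence upper bounds by products -/
theorem card_filter_le_mul {G1 G2 : Finset V} (hdis : Disjoint G1 G2) (P1 P2 : (V → ℕ) → Prop) :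
    ((Rc D r (G1 ∪ G2)).filter (fun ζ => P1 (rs G1 ζ) ∧ P2 (rs G2 ζ))).card ≤
      ((Rc D r G1).filter P1).card * ((Rc D r G2).filter P2).card := by
  have _ := hdis
  rw [← Finset.card_product]
  refine Finset.card_le_card_of_injOn (fun ζ => (rs G1 ζ, rs G2 ζ)) ?_ ?_
  · intro ζ hζ
    rw [Finset.mem_coe, Finset.mem_filter] at hζ
    rw [Finset.mem_coe, Finset.mem_product, Finset.mem_filter, Finset.mem_filter]
    exact ⟨⟨rs_mem_Rc Finset.subset_union_left hζ.1, hζ.2.1⟩,
      ⟨rs_mem_Rc Finset.subset_union_right hζ.1, hζ.2.2⟩⟩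
  · intro ζ hζ ζ' hζ' h
    rw [Finset.mem_coe, Finset.mem_filter, mem_Rc] at hζ hζ'
    rw [Prod.mk.injEq] at h
    exact m2_rs_inj hζ.1.1 hζ'.1.1 h.1 h.2

/-- TARGET. lower bound by a product (glue with a strong configuration on the second side) -/
theorem mul_le_card {G1 G2 : Finset V} {h y : V} (g : Gate D G1 G2 h y) (P1 : (V → ℕ) → Prop) :
    ((Rc D r G1).filter P1).card * (RcW D r (dl y) G2).card ≤
      ((Rc D r (G1 ∪ G2)).filter (fun ζ => P1 (rs G1 ζ))).card := by
  rw [← Finset.card_product]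
  refine Finset.card_le_card_of_injOn (fun p => fun z => p.1 z + p.2 z) ?_ ?_
  · rintro p hp
    rw [Finset.mem_coe, Finset.mem_product, Finset.mem_filter, mem_Rc, mem_RcW] at hp
    obtain ⟨⟨⟨c1, r1⟩, hP⟩, c2, r2⟩ := hp
    have e := m2_rs_add g.disj c1 c2
    rw [Finset.mem_coe, Finset.mem_filter, mem_Rc]
    refine ⟨⟨Gate.glue_config g.disj c1 c2, ?_⟩, ?_⟩
    · rw [g.recW_iff (w := 0) (fun _ _ => rfl)]
      have e1 : ∀ z ∈ G1, p.1 z = p.1 z + p.2 z := by
        intro z hz; rw [c2.2 z (Finset.disjoint_left.1 g.disj hz), add_zero]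
      have e2 : ∀ z ∈ G2, p.2 z = p.1 z + p.2 z := by
        intro z hz; rw [c1.2 z (Finset.disjoint_right.1 g.disj hz), zero_add]
      refine ⟨r1.congr e1, ?_, Or.inl (r2.congr e2)⟩
      exact (r2.mono_w (fun z _ => by simp)).congr e2
    · show P1 (rs G1 (fun z => p.1 z + p.2 z))
      rw [e.1]
      exact hP
  · rintro p hp p' hp' h
    rw [Finset.mem_coe, Finset.mem_product, Finset.mem_filter, mem_Rc, mem_RcW] at hp hp'
    have e := m2_rs_add g.disj hp.1.1.1 hp.2.1
    have e' := m2_rs_add g.disj hp'.1.1.1 hp'.2.1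
    have h' : (fun z => p.1 z + p.2 z) = (fun z => p'.1 z + p'.2 z) := h
    rw [← h'] at e'
    exact Prod.ext (e.1.symm.trans e'.1) (e.2.symm.trans e'.2)

/-- TARGET. `|Rc Q| ≤ r ^ |Q|` -/
theorem card_Rc_le (Q : Finset V) : (Rc D r Q).card ≤ r ^ Q.card := by
  have h1 : (Q.pi (fun _ => Finset.Icc 1 r)).card = r ^ Q.card := by
    rw [Finset.card_pi]
    simp
  rw [← h1]
  refine Finset.card_le_card_of_injOn (fun ζ => fun a _ => ζ a) ?_ ?_
  · intro ζ hζ
    rw [Finset.mem_coe, mem_Rc] at hζ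
    rw [Finset.mem_coe, Finset.mem_pi]
    intro a ha
    exact Finset.mem_Icc.2 (hζ.1.1 a ha)
  · intro ζ hζ ζ' hζ' h
    rw [Finset.mem_coe, mem_Rc] at hζ hζ'
    funext z
    by_cases hz : z ∈ Q
    · exact congrFun (congrFun h z) hz
    · rw [hζ.1.2 z hz, hζ'.1.2 z hz]

section ctx

variable [D.LocallyFinite]

/-- TARGET. (see `bet`, `ue`, `cnt` in Harm.lean; from `card_strong` and `src_adj`) -/
theorem Ctx.card_strong_cone (H : Ctx D r) (G : Finset V) {e : V × V} (he : BD D e.1 e.2) :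
    ((RcW D r (dl e.2) (prt G (cone D e))).card : ℝ) =
      (1 - bet D r G e) * ((Rc D r (prt G (cone D e))).card : ℝ) := by
  have hpos : (0 : ℝ) < ((Rc D r (prt G (cone D e))).card : ℝ) := by
    exact_mod_cast H.card_Rc_pos _
  have h1 := card_strong (D := D) (r := r) (v := e.1) (x := e.2) (G := prt G (cone D e))
    (src_notMem he) (fun z hz => src_adj he (mem_prt.1 hz).2)
  have h2 := Finset.card_filter_add_card_filter_not (s := Rc D r (prt G (cone D e)))
    (fun ζ => e.2 ∈ wav D r e.1 (prt G (cone D e)) ζ)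
  have hne : e.2 ≠ e.1 := he.1.ne'
  have h3 : bet D r G e = (cnt D r e.1 (prt G (cone D e)) e.2 : ℝ) /
      ((Rc D r (prt G (cone D e))).card : ℝ) := by
    unfold bet
    rw [ue_ne hne]
  have h4 : (cnt D r e.1 (prt G (cone D e)) e.2 : ℝ) +
      ((RcW D r (dl e.2) (prt G (cone D e))).card : ℝ) = ((Rc D r (prt G (cone D e))).card : ℝ) := by
    rw [h1]
    exact_mod_cast h2
  rw [h3, sub_mul, div_mul_cancel₀ _ hpos.ne', one_mul]
  linarith

/-- TARGET. (from `mul_le_card`, `Ctx.card_strong_cone`, `Ctx.bet_le`) -/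
theorem Ctx.prod_le (H : Ctx D r) (G : Finset V) {G1 : Finset V} {c : V × V} (hc : BD D c.1 c.2)
    (g : Gate D G1 (prt G (cone D c)) c.1 c.2) :
    H.g0 * ((Rc D r G1).card : ℝ) * ((Rc D r (prt G (cone D c))).card : ℝ) ≤
      ((Rc D r (G1 ∪ prt G (cone D c))).card : ℝ) := by
  have h1 := mul_le_card (r := r) g (fun _ => True)
  rw [Finset.filter_true, Finset.filter_true] at h1
  have h2 : ((Rc D r G1).card : ℝ) * ((RcW D r (dl c.2) (prt G (cone D c))).card : ℝ) ≤
      ((Rc D r (G1 ∪ prt G (cone D c))).card : ℝ) := by exact_mod_cast h1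
  rw [H.card_strong_cone G hc] at h2
  have h3 : H.g0 ≤ 1 - bet D r G c := by
    have := H.bet_le G hc
    linarith
  refine le_trans ?_ h2
  calc H.g0 * ((Rc D r G1).card : ℝ) * ((Rc D r (prt G (cone D c))).card : ℝ)
      = ((Rc D r G1).card : ℝ) * (H.g0 * ((Rc D r (prt G (cone D c))).card : ℝ)) := by ring
    _ ≤ _ := by
        refine mul_le_mul_of_nonneg_left (mul_le_mul_of_nonneg_right h3 ?_) ?_ <;> positivity

/-- TARGET. marginals on a cone are dominated (from `card_filter_le_mul`, `Ctx.prod_le`) -/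
theorem Ctx.marg_le (H : Ctx D r) (G : Finset V) {G1 : Finset V} {c : V × V} (hc : BD D c.1 c.2)
    (g : Gate D G1 (prt G (cone D c)) c.1 c.2) (P : (V → ℕ) → Prop) :
    pr D r (G1 ∪ prt G (cone D c)) (fun ζ => P (rs (prt G (cone D c)) ζ)) ≤
      pr D r (prt G (cone D c)) P / H.g0 := by
  have hg0 := H.g0_pos
  have p1 : (0 : ℝ) < ((Rc D r G1).card : ℝ) := by exact_mod_cast H.card_Rc_pos _
  have p2 : (0 : ℝ) < ((Rc D r (prt G (cone D c))).card : ℝ) := by exact_mod_cast H.card_Rc_pos _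
  have p3 : (0 : ℝ) < ((Rc D r (G1 ∪ prt G (cone D c))).card : ℝ) := by
    exact_mod_cast H.card_Rc_pos _
  have h1 := card_filter_le_mul (D := D) (r := r) g.disj (fun _ => True) P
  simp only [true_and] at h1
  rw [Finset.filter_true] at h1
  have h2 : (((Rc D r (G1 ∪ prt G (cone D c))).filter
      (fun ζ => P (rs (prt G (cone D c)) ζ))).card : ℝ) ≤
      ((Rc D r G1).card : ℝ) * (((Rc D r (prt G (cone D c))).filter P).card : ℝ) := by
    exact_mod_cast h1
  have h3 := H.prod_le G hc g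
  unfold pr
  rw [div_div, div_le_div_iff₀ p3 (by positivity)]
  have hN : (0 : ℝ) ≤ (((Rc D r (prt G (cone D c))).filter P).card : ℝ) := by positivity
  calc (((Rc D r (G1 ∪ prt G (cone D c))).filter
      (fun ζ => P (rs (prt G (cone D c)) ζ))).card : ℝ) *
        (((Rc D r (prt G (cone D c))).card : ℝ) * H.g0)
      ≤ (((Rc D r G1).card : ℝ) * (((Rc D r (prt G (cone D c))).filter P).card : ℝ)) *
        (((Rc D r (prt G (cone D c))).card : ℝ) * H.g0) :=
        mul_le_mul_of_nonneg_right h2 (by positivity)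
    _ = (((Rc D r (prt G (cone D c))).filter P).card : ℝ) *
        (H.g0 * ((Rc D r G1).card : ℝ) * ((Rc D r (prt G (cone D c))).card : ℝ)) := by ring
    _ ≤ _ := mul_le_mul_of_nonneg_left h3 hN

end ctx

end Pool.Agent.Helper910
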