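import Mathlib
import Pool.Agent.Helper910.M1
import Pool.Agent.Helper910.M2

/-! The counting inequality for several waves across a gate (MP_4555f0_mp) -/

namespace Pool.Agent.Helper910

open Classical Finset

variable {V : Type*} {D : SimpleGraph V} {r : ℕ}

/-- TARGET. -/
theorem mx_nonneg (f : ℕ → ℝ) (n : ℕ) : 0 ≤ mx f n := by
  induction n with
  | zero => exact le_refl _
  | succ n ih => exact ih.trans (le_max_left _ _)

/-- TARGET. -/
theorem le_mx (f : ℕ → ℝ) {l n : ℕ} (h1 : 1 ≤ l) (hn : l ≤ n) : f l ≤ mx f n := by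
  induction n with
  | zero => omega
  | succ n ih =>
    rcases Nat.lt_or_ge n l with h | h
    · have : l = n + 1 := by omega
      subst this
      exact le_max_right _ _
    · exact (ih h).trans (le_max_left _ _)

/-- TARGET. -/
theorem mx_eq (f : ℕ → ℝ) (n : ℕ) : mx f n = 0 ∨ ∃ l, 1 ≤ l ∧ l ≤ n ∧ mx f n = f l := by
  induction n with
  | zero => exact Or.inl rfl
  | succ n ih =>
    have e : mx f (n + 1) = max (mx f n) (f (n + 1)) := rfl
    rcases le_total (f (n + 1)) (mx f n) with h | h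
    · rw [max_eq_left h] at e
      rcases ih with h1 | ⟨l, h1, h2, h3⟩
      · exact Or.inl (e.trans h1)
      · exact Or.inr ⟨l, h1, by omega, e.trans h3⟩
    · rw [max_eq_right h] at e
      exact Or.inr ⟨n + 1, by omega, le_refl _, e⟩

/-- TARGET. -/
theorem mx_mono (f : ℕ → ℝ) {n n' : ℕ} (h : n ≤ n') : mx f n ≤ mx f n' := by
  induction h with
  | refl => exact le_refl _
  | step _ ih => exact ih.trans (le_max_left _ _)

/-- TARGET. -/
theorem wt_mono {a b : ℕ} (h : a ≤ b) : wt a ≤ wt b := by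
  unfold wt
  have h1 : (a : ℝ) ≤ b := by exact_mod_cast h
  exact mul_le_mul h1 (Real.sqrt_le_sqrt h1) (Real.sqrt_nonneg _) (Nat.cast_nonneg _)

theorem m3_wt_nonneg (a : ℕ) : 0 ≤ wt a := by
  unfold wt
  exact mul_nonneg (Nat.cast_nonneg _) (Real.sqrt_nonneg _)

theorem m3_wt_le {a b : ℕ} {κ : ℝ} (hκ : 0 < κ) (h : (a : ℝ) ≤ κ * b) :
    wt a ≤ κ * Real.sqrt κ * wt b := by
  unfold wt
  have h1 : Real.sqrt a ≤ Real.sqrt κ * Real.sqrt b := by
    rw [← Real.sqrt_mul hκ.le]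
    exact Real.sqrt_le_sqrt h
  calc (a : ℝ) * Real.sqrt a ≤ (κ * b) * (Real.sqrt κ * Real.sqrt b) :=
        mul_le_mul h h1 (Real.sqrt_nonneg _) (by positivity)
    _ = κ * Real.sqrt κ * (b * Real.sqrt b) := by ring

/-- the restrictions to the two sides determine the configuration -/
theorem m3_inj {G1 G2 : Finset V} {ζ ζ' : V → ℕ} (h : ζ ∈ Rc D r (G1 ∪ G2)) (h' : ζ' ∈ Rc D r (G1 ∪ G2))
    (e1 : rs G1 ζ = rs G1 ζ') (e2 : rs G2 ζ = rs G2 ζ') : ζ = ζ' := by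
  funext z
  by_cases hz : z ∈ G1 ∪ G2
  · rcases Finset.mem_union.1 hz with hz | hz
    · have := congrFun e1 z
      rwa [rs_mem hz, rs_mem hz] at this
    · have := congrFun e2 z
      rwa [rs_mem hz, rs_mem hz] at this
  · rw [(mem_Rc.1 h).1.2 z hz, (mem_Rc.1 h').1.2 z hz]

theorem m3_rg_sub {v : V} {G : Finset V} (t : ℕ) (ζ : V → ℕ) : rg D r v G t ζ ⊆ G := by
  unfold rg
  rw [Finset.biUnion_subset]
  intro i _
  exact (isWave_wav v G (itw D r v G i ζ)).sub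

theorem m3_rg_card {v : V} {G1 G2 : Finset V} (hd : Disjoint G1 G2) (t : ℕ) (ζ : V → ℕ) :
    (rg D r v (G1 ∪ G2) t ζ).card = (rg D r v (G1 ∪ G2) t ζ ∩ G1).card + (rg D r v (G1 ∪ G2) t ζ ∩ G2).card := by
  have h1 := m3_rg_sub (D := D) (r := r) (v := v) (G := G1 ∪ G2) t ζ
  rw [← Finset.card_union_of_disjoint, ← Finset.inter_union_distrib_left, Finset.inter_eq_left.2 h1]
  exact Finset.disjoint_of_subset_left Finset.inter_subset_right
    (Finset.disjoint_of_subset_right Finset.inter_subset_right hd)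

/-- one side of the sum -/
theorem m3_side {G2 : Finset V} {h y : V} (t' n : ℕ) {κ : ℝ} (hκ : 0 < κ) (s' : Finset ℕ) (d L0 : ℕ) :
    ∑ ζ2 ∈ (Rc D r G2).filter (fun ζ2 => rp D r h G2 y t' ζ2 = s'),
      (if d + (rg D r h G2 t' ζ2).card = L0 ∧ 1 ≤ (rg D r h G2 t' ζ2).card ∧ (rg D r h G2 t' ζ2).card ≤ n ∧
        (L0 : ℝ) ≤ κ * ((rg D r h G2 t' ζ2).card : ℝ) then wt L0 else 0) ≤
      κ * Real.sqrt κ * mx (fun l => wt l * (cf D r h G2 y t' s' l : ℝ)) n := by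
  have hκ2 : 0 ≤ κ * Real.sqrt κ := mul_nonneg hκ.le (Real.sqrt_nonneg _)
  by_cases hc : 1 ≤ L0 - d ∧ L0 - d ≤ n ∧ (L0 : ℝ) ≤ κ * ((L0 - d : ℕ) : ℝ)
  · obtain ⟨c1, c2, c3⟩ := hc
    calc _ ≤ ∑ ζ2 ∈ (Rc D r G2).filter (fun ζ2 => rp D r h G2 y t' ζ2 = s'),
          (if (rg D r h G2 t' ζ2).card = L0 - d then wt L0 else 0) := by
            refine Finset.sum_le_sum fun ζ2 _ => ?_
            split_ifs with h1 h2 h2
            · exact le_refl _
            · exact absurd (by omega) h2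
            · exact m3_wt_nonneg _
            · exact le_refl _
      _ = (cf D r h G2 y t' s' (L0 - d) : ℝ) * wt L0 := by
            rw [← Finset.sum_filter, Finset.sum_const, Finset.filter_filter, nsmul_eq_mul]
            rfl
      _ ≤ (cf D r h G2 y t' s' (L0 - d) : ℝ) * (κ * Real.sqrt κ * wt (L0 - d)) :=
            mul_le_mul_of_nonneg_left (m3_wt_le hκ c3) (Nat.cast_nonneg _)
      _ = κ * Real.sqrt κ * (wt (L0 - d) * (cf D r h G2 y t' s' (L0 - d) : ℝ)) := by ring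
      _ ≤ _ := mul_le_mul_of_nonneg_left
            (le_mx (fun l => wt l * (cf D r h G2 y t' s' l : ℝ)) c1 c2) hκ2
  · refine le_trans (le_of_eq (Finset.sum_eq_zero fun ζ2 _ => ?_)) (mul_nonneg hκ2 (mx_nonneg _ _))
    rw [if_neg]
    rintro ⟨h1, h2, h3, h4⟩
    have h5 : (rg D r h G2 t' ζ2).card = L0 - d := by omega
    rw [h5] at h2 h3 h4
    exact hc ⟨h2, h3, h4⟩

/-- TARGET. The counting inequality. `L s` is the prescribed size for the response set `s`, `t'` the number of waves entering `G2`.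
Plain proof. Write `ζ1 = rs G1 ζ`, `ζ2 = rs G2 ζ`, `F2 = |rg ∩ G2|`. By M1, for `ζ` in the set of `s` (with `kk = t'`) put `s' = rp h G2 y t' ζ2`; then
`s = drp v h G1 s' x t ζ1`, `rg ∩ G1 = drg v h G1 s' t ζ1`, `rg ∩ G2 = rg h G2 t' ζ2` (`cut_rp`, `cut_rg1`, `cut_rg2`), and `rg ⊆ G1 ∪ G2`, so
`F2 = L s - |drg ...|` is determined by `(ζ1, s')` (as `s` is). The map `ζ ↦ (ζ1, ζ2)` is injective on `Rc (G1 ∪ G2)`. So the left side is at most
the sum over `ζ1 ∈ Rc G1` with `E ζ1` and over `s' ∈ (range t').powerset` of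
 `wt (L s) * #{ζ2 ∈ Rc G2 : rp = s', |rg| = l'}`, `s = drp ...`, `l' = L s - |drg|`, only terms with `1 ≤ l' ≤ n` and `L s ≤ κ l'`, where
`wt (L s) ≤ κ √κ wt l'` and `wt l' * cf ≤ mx ...`. -/
theorem cut_count (hd : DegLe D r) {G1 G2 : Finset V} {v h y x : V} (g : Gate D (insert v G1) G2 h y) (hv1 : v ∉ G1)
    (hx : x ∉ G2) (t t' n : ℕ) (κ : ℝ) (hκ : 0 < κ) (E : (V → ℕ) → Prop) (L : Finset ℕ → ℕ) :
    ∑ s ∈ (range t).powerset, wt (L s) *
      (((Rc D r (G1 ∪ G2)).filter (fun ζ => E (rs G1 ζ) ∧ rp D r v (G1 ∪ G2) x t ζ = s ∧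
        (rg D r v (G1 ∪ G2) t ζ).card = L s ∧ kk D r v (G1 ∪ G2) h ζ t = t' ∧
        1 ≤ (rg D r v (G1 ∪ G2) t ζ ∩ G2).card ∧ (rg D r v (G1 ∪ G2) t ζ ∩ G2).card ≤ n ∧
        ((L s : ℕ) : ℝ) ≤ κ * ((rg D r v (G1 ∪ G2) t ζ ∩ G2).card : ℝ))).card : ℝ) ≤
    κ * Real.sqrt κ * (((Rc D r G1).filter E).card : ℝ) * mc D r h G2 y t' n := by
  have hdis : Disjoint G1 G2 := Finset.disjoint_of_subset_left (Finset.subset_insert _ _) g.disj
  -- the weight of a pair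
  set W : (V → ℕ) → (V → ℕ) → ℝ := fun ζ1 ζ2 =>
    if (drg D r v h G1 (rp D r h G2 y t' ζ2) t ζ1).card + (rg D r h G2 t' ζ2).card =
        L (drp D r v h G1 (rp D r h G2 y t' ζ2) x t ζ1) ∧ 1 ≤ (rg D r h G2 t' ζ2).card ∧
        (rg D r h G2 t' ζ2).card ≤ n ∧
        ((L (drp D r v h G1 (rp D r h G2 y t' ζ2) x t ζ1) : ℕ) : ℝ) ≤ κ * ((rg D r h G2 t' ζ2).card : ℝ)
      then wt (L (drp D r v h G1 (rp D r h G2 y t' ζ2) x t ζ1)) else 0 with hW
  have hW0 : ∀ ζ1 ζ2, 0 ≤ W ζ1 ζ2 := by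
    intro ζ1 ζ2
    rw [hW]
    simp only
    split_ifs
    · exact m3_wt_nonneg _
    · exact le_refl _
  -- first step
  have step1 : ∑ s ∈ (range t).powerset, wt (L s) *
      (((Rc D r (G1 ∪ G2)).filter (fun ζ => E (rs G1 ζ) ∧ rp D r v (G1 ∪ G2) x t ζ = s ∧
        (rg D r v (G1 ∪ G2) t ζ).card = L s ∧ kk D r v (G1 ∪ G2) h ζ t = t' ∧
        1 ≤ (rg D r v (G1 ∪ G2) t ζ ∩ G2).card ∧ (rg D r v (G1 ∪ G2) t ζ ∩ G2).card ≤ n ∧
        ((L s : ℕ) : ℝ) ≤ κ * ((rg D r v (G1 ∪ G2) t ζ ∩ G2).card : ℝ))).card : ℝ) ≤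
      ∑ ζ ∈ Rc D r (G1 ∪ G2), (if E (rs G1 ζ) then W (rs G1 ζ) (rs G2 ζ) else 0) := by
    have e1 : ∀ s : Finset ℕ, wt (L s) *
      (((Rc D r (G1 ∪ G2)).filter (fun ζ => E (rs G1 ζ) ∧ rp D r v (G1 ∪ G2) x t ζ = s ∧
        (rg D r v (G1 ∪ G2) t ζ).card = L s ∧ kk D r v (G1 ∪ G2) h ζ t = t' ∧
        1 ≤ (rg D r v (G1 ∪ G2) t ζ ∩ G2).card ∧ (rg D r v (G1 ∪ G2) t ζ ∩ G2).card ≤ n ∧
        ((L s : ℕ) : ℝ) ≤ κ * ((rg D r v (G1 ∪ G2) t ζ ∩ G2).card : ℝ))).card : ℝ) =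
        ∑ ζ ∈ Rc D r (G1 ∪ G2), (if (E (rs G1 ζ) ∧ rp D r v (G1 ∪ G2) x t ζ = s ∧
        (rg D r v (G1 ∪ G2) t ζ).card = L s ∧ kk D r v (G1 ∪ G2) h ζ t = t' ∧
        1 ≤ (rg D r v (G1 ∪ G2) t ζ ∩ G2).card ∧ (rg D r v (G1 ∪ G2) t ζ ∩ G2).card ≤ n ∧
        ((L s : ℕ) : ℝ) ≤ κ * ((rg D r v (G1 ∪ G2) t ζ ∩ G2).card : ℝ)) then wt (L s) else 0) := by
      intro s
      rw [← Finset.sum_filter, Finset.sum_const, nsmul_eq_mul, mul_comm]
    simp_rw [e1]
    rw [Finset.sum_comm]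
    refine Finset.sum_le_sum fun ζ hζ => ?_
    rw [Finset.sum_eq_single (rp D r v (G1 ∪ G2) x t ζ)]
    · by_cases hE : E (rs G1 ζ)
      · rw [if_pos hE]
        split_ifs with hc
        · obtain ⟨-, -, c3, c4, c5, c6, c7⟩ := hc
          have f1 := cut_rp hd g hv1 hζ t hx
          have f2 := cut_rg1 hd g hv1 hζ t
          have f3 := cut_rg2 hd g hv1 hζ t
          rw [c4] at f1 f2 f3
          have f4 := m3_rg_card (D := D) (r := r) (v := v) hdis t ζ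
          rw [f2, f3, c3] at f4
          rw [f3] at c5 c6 c7
          rw [f1] at c7 f4 ⊢
          rw [hW]
          simp only
          rw [if_pos ⟨f4.symm, c5, c6, c7⟩]
        · exact hW0 _ _
      · rw [if_neg hE, if_neg (fun hc => hE hc.1)]
    · intro s _ hs
      rw [if_neg (fun hc => hs hc.2.1.symm)]
    · intro hs
      exact absurd (Finset.mem_powerset.2 (Finset.filter_subset _ _)) hs
  -- second step: pairs
  have step2 : ∑ ζ ∈ Rc D r (G1 ∪ G2), (if E (rs G1 ζ) then W (rs G1 ζ) (rs G2 ζ) else 0) ≤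
      ∑ p ∈ (Rc D r G1) ×ˢ (Rc D r G2), (if E p.1 then W p.1 p.2 else 0) := by
    have hinj : Set.InjOn (fun ζ : V → ℕ => (rs G1 ζ, rs G2 ζ)) (Rc D r (G1 ∪ G2) : Set (V → ℕ)) := by
      intro ζ hζ ζ' hζ' hee
      rw [Finset.mem_coe] at hζ hζ'
      have h1 := Prod.mk.inj hee
      exact m3_inj hζ hζ' h1.1 h1.2
    have e2 := Finset.sum_image (f := fun p : (V → ℕ) × (V → ℕ) => if E p.1 then W p.1 p.2 else 0) hinj
    simp only at e2
    rw [← e2]
    refine Finset.sum_le_sum_of_subset_of_nonneg ?_ ?_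
    · intro p hp
      obtain ⟨ζ, hζ, rfl⟩ := Finset.mem_image.1 hp
      exact Finset.mem_product.2 ⟨rs_mem_Rc Finset.subset_union_left hζ,
        rs_mem_Rc Finset.subset_union_right hζ⟩
    · intro p _ _
      split_ifs
      · exact hW0 _ _
      · exact le_refl _
  refine step1.trans (step2.trans ?_)
  rw [Finset.sum_product]
  have step3 : ∀ ζ1 ∈ Rc D r G1, ∑ ζ2 ∈ Rc D r G2, (if E ζ1 then W ζ1 ζ2 else 0) ≤
      if E ζ1 then κ * Real.sqrt κ * mc D r h G2 y t' n else 0 := by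
    intro ζ1 _
    by_cases hE : E ζ1
    · simp only [hE, if_true]
      have hmaps : ∀ ζ2 ∈ Rc D r G2, rp D r h G2 y t' ζ2 ∈ (range t').powerset := fun ζ2 _ =>
        Finset.mem_powerset.2 (Finset.filter_subset _ _)
      rw [← Finset.sum_fiberwise_of_maps_to hmaps]
      unfold mc
      rw [Finset.mul_sum]
      refine Finset.sum_le_sum fun s' _ => ?_
      refine le_trans (le_of_eq ?_) (m3_side (D := D) (r := r) (G2 := G2) (h := h) (y := y) t' n hκ s'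
        (drg D r v h G1 s' t ζ1).card (L (drp D r v h G1 s' x t ζ1)))
      refine Finset.sum_congr rfl fun ζ2 hζ2 => ?_
      have h1 := (Finset.mem_filter.1 hζ2).2
      rw [hW]
      simp only
      rw [h1]
    · simp [hE]
  refine (Finset.sum_le_sum step3).trans (le_of_eq ?_)
  rw [← Finset.sum_filter, Finset.sum_const, nsmul_eq_mul]
  ring

end Pool.Agent.Helper910
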