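import Mathlib
import Pool.Agent.Helper910.M3

/-! The finite volume recursion for several waves into a cone (MP_4555f0_mp) -/

namespace Pool.Agent.Helper910

open Classical Finset

variable {V : Type*} {D : SimpleGraph V} [D.LocallyFinite] {r : ℕ}

/-- the part of the cone of `e` outside the cone of `c` -/
noncomputable def rst (D : SimpleGraph V) (G : Finset V) (e c : V × V) : Finset V := prt G (cone D e \ cone D c)

/-- the property that `h = c.1` is reached by the first wave and, with one more grain at `h`, by the second one -/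
def TwoFull (D : SimpleGraph V) (r : ℕ) (G : Finset V) (e c : V × V) (ζ1 : V → ℕ) : Prop :=
  c.1 ∈ wav D r e.1 (rst D G e c) ζ1 ∧
  c.1 ∈ wav D r e.1 (rst D G e c) (fun z => stp D r e.1 (rst D G e c) ζ1 z + dl c.1 z)

/-- the mass of `TwoFull` -/
noncomputable def mu2 (D : SimpleGraph V) (r : ℕ) (G : Finset V) (e c : V × V) : ℝ :=
  pr D r (prt G (cone D e)) (fun ζ => TwoFull D r G e c (rs (rst D G e c) ζ))

/-- TARGET. the gate of a child -/
theorem Ctx.gate_child (H : Ctx D r) (G : Finset V) {e c : V × V} (he : BD D e.1 e.2) (hc : c ∈ ch D e) :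
    Gate D (insert e.1 (rst D G e c)) (prt G (cone D c)) c.1 c.2 ∧
    rst D G e c ∪ prt G (cone D c) = prt G (cone D e) ∧ e.1 ∉ rst D G e c ∧ e.2 ∉ prt G (cone D c) ∧ e.1 ≠ c.1 := by
  have d := H.dec_ch he
  have h1 : e.1 ∉ cone D e := fst_notMem_cone he
  have h2 : e.1 ∉ cone D c := fun h => h1 (d.csub c hc h)
  have hb : BD D c.1 c.2 := d.br c hc
  have hnot : ∀ z ∈ insert e.1 (rst D G e c), z ∉ cone D c := by
    intro z hz
    rcases Finset.mem_insert.1 hz with h | h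
    · rw [h]; exact h2
    · exact (mem_prt.1 h).2.2
  refine ⟨⟨?_, ?_, hb.1, ?_, ?_⟩, prt_union (d.csub c hc), ?_, ?_, ?_⟩
  · rw [Finset.disjoint_left]
    intro z hz hz'
    exact hnot z hz (mem_prt.1 hz').2
  · intro a ha b hb' hab
    exact cone_edge hb (hnot a ha) (mem_prt.1 hb').2 hab
  · intro h
    exact hnot _ h (snd_mem_cone c)
  · intro h
    exact fst_notMem_cone hb (mem_prt.1 h).2
  · intro h
    exact h1 (mem_prt.1 h).2.1
  · intro h
    exact d.cdisj c hc _ (mem_prt.1 h).2 (H.self_mem_Bf e.2)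
  · intro h
    apply h1
    rw [h]
    exact d.sub _ (d.fst c hc)

theorem m4_ind {V : Type*} (P : Prop) [Decidable P] (z h : V) (hP : P → z = h) :
    (if P then 1 else 0) ≤ dl h z := by
  unfold dl
  by_cases h1 : P
  · rw [if_pos h1, if_pos (hP h1)]
  · rw [if_neg h1]
    exact Nat.zero_le _

omit [D.LocallyFinite] in
theorem m4_rg_sub {v : V} {G : Finset V} (t : ℕ) (ζ : V → ℕ) : rg D r v G t ζ ⊆ G := by
  intro z hz
  unfold rg at hz
  obtain ⟨i, -, hz⟩ := Finset.mem_biUnion.1 hz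
  exact (isWave_wav v G _).sub hz

omit [D.LocallyFinite] in
theorem m4_kk_le {v h : V} {G : Finset V} (t : ℕ) (ζ : V → ℕ) : kk D r v G h ζ t ≤ t := by
  unfold kk
  refine (Finset.card_filter_le _ _).trans ?_
  rw [Finset.card_range]

omit [D.LocallyFinite] in
theorem m4_rg_mono {v : V} {G : Finset V} {t t' : ℕ} (h : t ≤ t') (ζ : V → ℕ) :
    rg D r v G t ζ ⊆ rg D r v G t' ζ := by
  unfold rg
  exact Finset.biUnion_subset_biUnion_of_subset_left _ (Finset.range_mono h)

/-- pointwise classification -/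
theorem m4_point (H : Ctx D r) (G : Finset V) {e : V × V} (he : BD D e.1 e.2) (t : ℕ) (ht : 2 ≤ t) (n n0 M : ℕ)
    (κ : ℝ) (hκ : 1 < κ) (hn0 : 2 * H.msz ≤ n0)
    (hM : (M : ℝ) * ((ch D e).card : ℝ) ≤ (n0 : ℝ) * (1 - 1 / κ) - H.msz) {ζ : V → ℕ}
    (hζ : ζ ∈ Rc D r (prt G (cone D e))) (l : ℕ) (hl : (rg D r e.1 (prt G (cone D e)) t ζ).card = l)
    (hl0 : n0 < l) (hln : l ≤ n) :
    ∃ c ∈ ch D e, 1 ≤ (rg D r e.1 (prt G (cone D e)) t ζ ∩ prt G (cone D c)).card ∧
      (rg D r e.1 (prt G (cone D e)) t ζ ∩ prt G (cone D c)).card ≤ n - 1 ∧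
      (((l : ℝ) ≤ κ * ((rg D r e.1 (prt G (cone D e)) t ζ ∩ prt G (cone D c)).card : ℝ) ∧
          kk D r e.1 (prt G (cone D e)) c.1 ζ t = t ∧ TwoFull D r G e c (rs (rst D G e c) ζ)) ∨
       ((l : ℝ) ≤ κ * ((rg D r e.1 (prt G (cone D e)) t ζ ∩ prt G (cone D c)).card : ℝ) ∧
          kk D r e.1 (prt G (cone D e)) c.1 ζ t < t) ∨
       ((l : ℝ) ≤ (2 * ((ch D e).card : ℝ)) * ((rg D r e.1 (prt G (cone D e)) t ζ ∩ prt G (cone D c)).card : ℝ) ∧
          ∃ c' ∈ (ch D e).erase c, M ≤ (rg D r c'.1 (prt G (cone D c')) t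
            (rs (prt G (cone D c')) (rs (rst D G e c) ζ))).card)) := by
  have hd := H.degLe
  have d := H.dec_ch he
  have hN : 2 ≤ (ch D e).card := H.two_le_ch he
  have hne : (ch D e).Nonempty := Finset.card_pos.1 (by omega)
  obtain ⟨F, hF⟩ : ∃ F : V × V → ℕ, ∀ c, F c = (rg D r e.1 (prt G (cone D e)) t ζ ∩ prt G (cone D c)).card :=
    ⟨_, fun _ => rfl⟩
  -- the decomposition of the range
  have hsum : l ≤ H.msz + ∑ c ∈ ch D e, F c := by
    have hsub : rg D r e.1 (prt G (cone D e)) t ζ ⊆ Bf D e.2 ∪ (ch D e).biUnion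
        (fun c => rg D r e.1 (prt G (cone D e)) t ζ ∩ prt G (cone D c)) := by
      intro z hz
      have hzG := m4_rg_sub t ζ hz
      rw [mem_prt] at hzG
      rcases d.cov z hzG.2 with h | ⟨c, hc, h⟩
      · exact Finset.mem_union_left _ h
      · refine Finset.mem_union_right _ (Finset.mem_biUnion.2 ⟨c, hc, ?_⟩)
        exact Finset.mem_inter.2 ⟨hz, mem_prt.2 ⟨hzG.1, h⟩⟩
    have h1 := Finset.card_le_card hsub
    rw [hl] at h1
    refine h1.trans ((Finset.card_union_le _ _).trans ?_)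
    rw [H.card_Bf_eq]
    refine Nat.add_le_add_left (Finset.card_biUnion_le.trans (le_of_eq ?_)) _
    exact Finset.sum_congr rfl fun c _ => (hF c).symm
  obtain ⟨c, hc, hmax⟩ := Finset.exists_max_image (ch D e) F hne
  have hsumle : ∑ c ∈ ch D e, F c ≤ (ch D e).card * F c := by
    rw [← smul_eq_mul]
    exact Finset.sum_le_card_nsmul _ _ _ hmax
  have hmain : l ≤ H.msz + (ch D e).card * F c := hsum.trans (Nat.add_le_add_left hsumle _)
  have hF1 : 1 ≤ F c := by
    by_contra hcon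
    have h0 : F c = 0 := by omega
    rw [h0, mul_zero] at hmain
    omega
  have h2N : (l : ℝ) ≤ (2 * ((ch D e).card : ℝ)) * (F c : ℝ) := by
    have h1 : l ≤ 2 * ((ch D e).card * F c) := by omega
    have h2 : (l : ℝ) ≤ 2 * (((ch D e).card : ℝ) * (F c : ℝ)) := by exact_mod_cast h1
    linarith
  obtain ⟨g, hun, hv1, hx2, hne1⟩ := H.gate_child G he hc
  have hζ' : ζ ∈ Rc D r (rst D G e c ∪ prt G (cone D c)) := by rw [hun]; exact hζ
  -- the vertex `c.1` is in the range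
  have hreach : c.1 ∈ rg D r e.1 (prt G (cone D e)) t ζ := by
    have hpos : (rg D r e.1 (prt G (cone D e)) t ζ ∩ prt G (cone D c)).Nonempty :=
      Finset.card_pos.1 (by rw [← hF]; omega)
    obtain ⟨z, hz⟩ := hpos
    rw [Finset.mem_inter] at hz
    unfold rg at hz ⊢
    obtain ⟨i, hi, hzi⟩ := Finset.mem_biUnion.1 hz.1
    have h2 := (cut_two hd g hv1 hζ' i).2
    rw [hun] at h2
    have hzi' : z ∈ wv D r e.1 (prt G (cone D e)) ζ i ∩ prt G (cone D c) :=
      Finset.mem_inter.2 ⟨hzi, hz.2⟩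
    rw [h2] at hzi'
    by_cases hh : c.1 ∈ insert e.1 (wv D r e.1 (prt G (cone D e)) ζ i)
    · rcases Finset.mem_insert.1 hh with h | h
      · exact absurd h.symm hne1
      · exact Finset.mem_biUnion.2 ⟨i, hi, h⟩
    · rw [if_neg hh] at hzi'
      exact absurd hzi' (Finset.notMem_empty z)
  have hlt : F c < l := by
    rw [hF, ← hl]
    refine Finset.card_lt_card ⟨Finset.inter_subset_left, ?_⟩
    intro h
    exact g.hh (Finset.mem_inter.1 (h hreach)).2
  refine ⟨c, hc, by rw [← hF]; exact hF1, by rw [← hF]; omega, ?_⟩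
  rw [← hF]
  by_cases hk : (l : ℝ) ≤ κ * (F c : ℝ)
  · rcases (m4_kk_le (D := D) (r := r) (v := e.1) (h := c.1) (G := prt G (cone D e)) t ζ).lt_or_eq with h | h
    · exact Or.inr (Or.inl ⟨hk, h⟩)
    · refine Or.inl ⟨hk, h, ?_⟩
      have hall : ∀ i < t, c.1 ∈ wv D r e.1 (prt G (cone D e)) ζ i := by
        intro i hi
        have h1 : (range t).filter (fun i => c.1 ∈ insert e.1 (wv D r e.1 (prt G (cone D e)) ζ i)) = range t := by
          refine Finset.eq_of_subset_of_card_le (Finset.filter_subset _ _) ?_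
          rw [Finset.card_range]
          exact h.ge
        have h2 : i ∈ (range t).filter (fun i => c.1 ∈ insert e.1 (wv D r e.1 (prt G (cone D e)) ζ i)) := by
          rw [h1]; exact Finset.mem_range.2 hi
        rcases Finset.mem_insert.1 (Finset.mem_filter.1 h2).2 with h3 | h3
        · exact absurd h3.symm hne1
        · exact h3
      have hG1 : c.1 ∈ rst D G e c := by
        have h1 := m4_rg_sub t ζ hreach
        rw [← hun] at h1
        rcases Finset.mem_union.1 h1 with h2 | h2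
        · exact h2
        · exact absurd h2 g.hh
      have hdw : ∀ i < t, c.1 ∈ dwv D r e.1 c.1 (rst D G e c)
          (rp D r c.1 (prt G (cone D c)) c.2 (kk D r e.1 (rst D G e c ∪ prt G (cone D c)) c.1 ζ t)
            (rs (prt G (cone D c)) ζ)) (rs (rst D G e c) ζ) i := by
        intro i hi
        have h1 := cut_wv1 hd g hv1 hζ' t i hi
        rw [← h1, Finset.mem_inter, hun]
        exact ⟨hall i hi, hG1⟩
      refine ⟨?_, ?_⟩
      · have h1 := hdw 0 (by omega)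
        unfold dwv dst at h1
        exact h1
      · have h1 := hdw 1 (by omega)
        unfold dwv at h1
        refine wav_mono ?_ h1
        intro z _
        exact Nat.add_le_add_left (m4_ind _ z c.1 (fun h => h.1)) _
  · refine Or.inr (Or.inr ⟨h2N, ?_⟩)
    push Not at hk
    by_contra hcon
    push Not at hcon
    have hsmall : ∀ c' ∈ (ch D e).erase c, F c' ≤ M := by
      intro c' hc'
      have hc'm := Finset.mem_of_mem_erase hc'
      have hcc : c' ≠ c := Finset.ne_of_mem_erase hc'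
      obtain ⟨g', hun', hv1', -, -⟩ := H.gate_child G he hc'm
      have hζ'' : ζ ∈ Rc D r (rst D G e c' ∪ prt G (cone D c')) := by rw [hun']; exact hζ
      have h1 := cut_rg2 hd g' hv1' hζ'' t
      rw [hun'] at h1
      have h2 := hcon c' hc'
      have h3 : rs (prt G (cone D c')) (rs (rst D G e c) ζ) = rs (prt G (cone D c')) ζ := by
        funext z
        by_cases hz : z ∈ prt G (cone D c')
        · rw [rs_mem hz, rs_mem hz, rs_mem]
          rw [mem_prt] at hz
          refine mem_prt.2 ⟨hz.1, d.csub c' hc'm hz.2, ?_⟩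
          exact Set.disjoint_left.1 (d.pair c' hc'm c hc hcc) hz.2
        · rw [rs_notMem hz, rs_notMem hz]
      rw [h3] at h2
      rw [hF, h1]
      exact (Finset.card_le_card (m4_rg_mono (m4_kk_le t ζ) _)).trans h2.le
    have h1 : ∑ c' ∈ ch D e, F c' = F c + ∑ c' ∈ (ch D e).erase c, F c' := (Finset.add_sum_erase _ _ hc).symm
    have h2 : ∑ c' ∈ (ch D e).erase c, F c' ≤ (ch D e).card * M := by
      refine (Finset.sum_le_card_nsmul _ _ _ hsmall).trans ?_
      rw [smul_eq_mul]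
      exact Nat.mul_le_mul_right _ (Finset.card_le_card (Finset.erase_subset _ _))
    have h3 : (l : ℝ) ≤ H.msz + (F c + (ch D e).card * M) := by
      have : l ≤ H.msz + (F c + (ch D e).card * M) := by omega
      exact_mod_cast this
    have h4 : (F c : ℝ) < l / κ := by
      rw [lt_div_iff₀ (by linarith)]
      linarith
    have h5 : (n0 : ℝ) < l := by exact_mod_cast hl0
    have h6 : 0 < 1 - 1 / κ := by
      have : 1 / κ < 1 := by
        rw [div_lt_one (by linarith)]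
        exact hκ
      linarith
    have h7 : (n0 : ℝ) * (1 - 1 / κ) < l * (1 - 1 / κ) := mul_lt_mul_of_pos_right h5 h6
    have h8 : (l : ℝ) * (1 - 1 / κ) = l - l / κ := by ring
    linarith

/-- the sets of the counting inequality -/
noncomputable def m4_S (D : SimpleGraph V) (r : ℕ) (G : Finset V) (e c : V × V) (t n : ℕ) (L : Finset ℕ → ℕ)
    (E : (V → ℕ) → Prop) (t' : ℕ) (κ : ℝ) (s : Finset ℕ) : Finset (V → ℕ) :=
  (Rc D r (prt G (cone D e))).filter (fun ζ => E (rs (rst D G e c) ζ) ∧ rp D r e.1 (prt G (cone D e)) e.2 t ζ = s ∧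
        (rg D r e.1 (prt G (cone D e)) t ζ).card = L s ∧ kk D r e.1 (prt G (cone D e)) c.1 ζ t = t' ∧
        1 ≤ (rg D r e.1 (prt G (cone D e)) t ζ ∩ prt G (cone D c)).card ∧
        (rg D r e.1 (prt G (cone D e)) t ζ ∩ prt G (cone D c)).card ≤ n ∧
        ((L s : ℕ) : ℝ) ≤ κ * ((rg D r e.1 (prt G (cone D e)) t ζ ∩ prt G (cone D c)).card : ℝ))

theorem m4_memS (D : SimpleGraph V) (r : ℕ) (G : Finset V) (e c : V × V) (t n : ℕ) (L : Finset ℕ → ℕ)
    (E : (V → ℕ) → Prop) (t' : ℕ) (κ : ℝ) (s : Finset ℕ) (ζ : V → ℕ) (h0 : ζ ∈ Rc D r (prt G (cone D e)))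
    (h1 : E (rs (rst D G e c) ζ)) (h2 : rp D r e.1 (prt G (cone D e)) e.2 t ζ = s)
    (h3 : (rg D r e.1 (prt G (cone D e)) t ζ).card = L s) (h4 : kk D r e.1 (prt G (cone D e)) c.1 ζ t = t')
    (h5 : 1 ≤ (rg D r e.1 (prt G (cone D e)) t ζ ∩ prt G (cone D c)).card)
    (h6 : (rg D r e.1 (prt G (cone D e)) t ζ ∩ prt G (cone D c)).card ≤ n)
    (h7 : ((L s : ℕ) : ℝ) ≤ κ * ((rg D r e.1 (prt G (cone D e)) t ζ ∩ prt G (cone D c)).card : ℝ)) :
    ζ ∈ m4_S D r G e c t n L E t' κ s :=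
  Finset.mem_filter.2 ⟨h0, h1, h2, h3, h4, h5, h6, h7⟩

theorem m4_cut (H : Ctx D r) (G : Finset V) {e c : V × V} (he : BD D e.1 e.2) (hc : c ∈ ch D e) (t t' n : ℕ)
    (κ : ℝ) (hκ : 0 < κ) (E : (V → ℕ) → Prop) (L : Finset ℕ → ℕ) :
    ∑ s ∈ (range t).powerset, wt (L s) * ((m4_S D r G e c t n L E t' κ s).card : ℝ) ≤
      κ * Real.sqrt κ * (((Rc D r (rst D G e c)).filter E).card : ℝ) *
        (mm D r G c t' n * ((Rc D r (prt G (cone D c))).card : ℝ)) := by
  obtain ⟨g, hun, hv1, hx2, hne1⟩ := H.gate_child G he hc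
  have h1 := cut_count H.degLe g hv1 hx2 t t' n κ hκ E L
  rw [hun] at h1
  refine le_trans (le_of_eq ?_) (h1.trans (le_of_eq ?_))
  · rfl
  · have h2 : 0 < (Rc D r (prt G (cone D c))).card := by
      have h3 : 1 ≤ r := by have := H.three_le; omega
      exact Finset.card_pos.2 ⟨_, H.top_mem h3 _⟩
    have h3 : ((Rc D r (prt G (cone D c))).card : ℝ) ≠ 0 := by exact_mod_cast h2.ne'
    unfold mm
    rw [div_mul_cancel₀ _ h3]

/-- TARGET. The finite volume recursion.
Notation: `v = e.1`, `x = e.2`, `B = Bf D x`, `m = H.msz = |B|`, `N = (ch D e).card ≥ 2`, `G_e = prt G (cone D e)`, `R = rg v G_e t ζ`, `F_c = |R ∩ G_c|`.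
Plain proof. `mm e t n * |Rc G_e| = ∑_s mx (..) n`; for each `s` choose (by `mx_eq`) `L s ∈ [1,n]` with `mx = wt (L s) * cf s (L s)`, or `mx = 0`.
The `s` with `mx = 0` or `L s ≤ n0` contribute at most `∑_s wt n0 * cf s (L s) ≤ wt n0 * |Rc G_e|`.
For the other `s` (`n0 < L s ≤ n`) let `ζ` be counted by `cf s (L s)`, i.e. `rp = s`, `|R| = L s`. By `H.dec_ch`, `R ⊆ G_e` is the disjoint union of `R ∩ B` and
the `R ∩ G_c`, so `L s ≤ m + ∑_c F_c`. Let `c` be a child with the largest `F_c`; `F_c ≥ (L s - m)/N ≥ L s / (2N)` as `2m ≤ n0`. If `R ∩ G_c ≠ ∅` then `c.1 ∈ R` (by `cut_two`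
some wave contains `c.1`), and `c.1 ∉ G_c`, so `F_c ≤ L s - 1 ≤ n - 1`. Let `T = kk v G_e c.1 ζ t`.
 (A) `L s ≤ κ F_c` and `T = t`: all `t ≥ 2` waves contain `c.1`, so by `cut_wv1` for `i = 0, 1` and `wav_mono` (the second driven state is `stp ζ1 + [0 ∈ s'] dl c.1`)
     `TwoFull (rs G1 ζ)`, `G1 = rst`. `cut_count` with `E = TwoFull`, `t' = t`: at most `κ√κ #{ζ1 ∈ Rc G1, TwoFull} mc c t (n-1)`, and
     `#{ζ1 ∈ Rc G1, TwoFull} * |Rc G_c| = #{ζ ∈ Rc G_e, TwoFull (rs G1 ζ)}` by `sum_pull`.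
 (B) `L s ≤ κ F_c` and `T = t' < t`: `cut_count` with `E = True`: at most `κ√κ |Rc G1| mc c t' (n-1)`, and `|Rc G1| |Rc G_c| ≤ |Rc G_e| / g0` (`Ctx.prod_le`).
 (C) `κ F_c < L s`: then `∑_{c' ≠ c} F_c' ≥ L s - m - L s / κ ≥ n0 (1 - 1/κ) - m ≥ M N`, so some child `c' ≠ c` has `F_c' ≥ M`; by `cut_rg2` (for the gate of `c'`) and
     monotonicity of `rg` in the number of waves, `M ≤ |rg c'.1 G_c' t (rs G_c' ζ)|`. `cut_count` with `κ' = 2N`, `t' = T ≤ t` and
     `E ζ1 = (M ≤ |rg c'.1 G_c' t (rs G_c' ζ1)|)` (`rs G_c' (rs G1 ζ) = rs G_c' ζ` as `G_c' ⊆ G1`), and then `#{ζ1 ∈ Rc G1, E} ≤ |Rc G1| * pr G_c' (..) / g0` by `Ctx.marg_le`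
     for the gate of `c'` in `G1` (`G1 = (G1 \ G_c') ∪ G_c'`; `cone c' ⊆ cone e \ cone c` by `H.dec_ch`), and `|Rc G1| |Rc G_c| ≤ |Rc G_e| / g0`.
-/
theorem Ctx.fg (H : Ctx D r) (G : Finset V) {e : V × V} (he : BD D e.1 e.2) (t : ℕ) (ht : 2 ≤ t) (n n0 M : ℕ)
    (κ : ℝ) (hκ : 1 < κ) (hn0 : 2 * H.msz ≤ n0) (hn1 : 1 ≤ n0) (hM1 : 1 ≤ M)
    (hM : (M : ℝ) * ((ch D e).card : ℝ) ≤ (n0 : ℝ) * (1 - 1 / κ) - H.msz) :
    mm D r G e t n ≤ wt n0 + ∑ c ∈ ch D e,
      (κ * Real.sqrt κ * mu2 D r G e c * mm D r G c t (n - 1) +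
       κ * Real.sqrt κ / H.g0 * ∑ t' ∈ range t, mm D r G c t' (n - 1) +
       (2 * ((ch D e).card : ℝ)) * Real.sqrt (2 * ((ch D e).card : ℝ)) / H.g0 ^ 2 *
        (∑ c' ∈ (ch D e).erase c,
          pr D r (prt G (cone D c')) (fun ζ => M ≤ (rg D r c'.1 (prt G (cone D c')) t ζ).card)) *
        ∑ t' ∈ range (t + 1), mm D r G c t' (n - 1)) := by
  obtain ⟨Ge, hGe⟩ : ∃ Ge, Ge = prt G (cone D e) := ⟨_, rfl⟩
  have hr1 : 1 ≤ r := by have := H.three_le; omega
  have hpos : ∀ Q : Finset V, (0 : ℝ) < ((Rc D r Q).card : ℝ) := by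
    intro Q
    have : 0 < (Rc D r Q).card := Finset.card_pos.2 ⟨_, H.top_mem hr1 Q⟩
    exact_mod_cast this
  have hN : 2 ≤ (ch D e).card := H.two_le_ch he
  have hNr : (2 : ℝ) ≤ ((ch D e).card : ℝ) := by exact_mod_cast hN
  have hg0 := H.g0_pos
  have hwt0 : wt 0 = 0 := by simp [wt]
  have hwtn : ∀ l, 0 ≤ wt l := fun l => by unfold wt; positivity
  have hmmn : ∀ (c : V × V) (t' n' : ℕ), 0 ≤ mm D r G c t' n' := by
    intro c t' n'
    unfold mm mc
    refine div_nonneg (Finset.sum_nonneg fun s _ => mx_nonneg _ _) (Nat.cast_nonneg _)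
  -- the choice of `L`
  have hL : ∀ s : Finset ℕ, ∃ l : ℕ, l ≤ n ∧
      mx (fun l => wt l * (cf D r e.1 Ge e.2 t s l : ℝ)) n ≤ wt l * (cf D r e.1 Ge e.2 t s l : ℝ) := by
    intro s
    rcases mx_eq (fun l => wt l * (cf D r e.1 Ge e.2 t s l : ℝ)) n with h | ⟨l, -, h2, h3⟩
    · exact ⟨0, Nat.zero_le _, by rw [h, hwt0, zero_mul]⟩
    · exact ⟨l, h2, h3.le⟩
  choose L0 hL0 hL1 using hL
  obtain ⟨L, hLd⟩ : ∃ L : Finset ℕ → ℕ, ∀ s, L s = if n0 < L0 s then L0 s else 0 := ⟨_, fun _ => rfl⟩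
  -- splitting
  have hsplit : ∀ s, mx (fun l => wt l * (cf D r e.1 Ge e.2 t s l : ℝ)) n ≤
      wt n0 * (((Rc D r Ge).filter (fun ζ => rp D r e.1 Ge e.2 t ζ = s)).card : ℝ) +
      wt (L s) * (cf D r e.1 Ge e.2 t s (L s) : ℝ) := by
    intro s
    by_cases h : n0 < L0 s
    · have h1 : L s = L0 s := by rw [hLd, if_pos h]
      rw [h1]
      have h2 := hL1 s
      have h3 : 0 ≤ wt n0 * (((Rc D r Ge).filter (fun ζ => rp D r e.1 Ge e.2 t ζ = s)).card : ℝ) :=
        mul_nonneg (hwtn _) (Nat.cast_nonneg _)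
      linarith
    · have h1 : L s = 0 := by rw [hLd, if_neg h]
      rw [h1, hwt0, zero_mul, add_zero]
      refine (hL1 s).trans ?_
      refine mul_le_mul (wt_mono (by omega)) ?_ (Nat.cast_nonneg _) (hwtn _)
      have h2 : cf D r e.1 Ge e.2 t s (L0 s) ≤ ((Rc D r Ge).filter (fun ζ => rp D r e.1 Ge e.2 t ζ = s)).card := by
        unfold cf
        refine Finset.card_le_card ?_
        intro ζ hζ
        rw [Finset.mem_filter] at hζ ⊢
        exact ⟨hζ.1, hζ.2.1⟩
      exact_mod_cast h2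
  have hfib : ∑ s ∈ (range t).powerset, (((Rc D r Ge).filter (fun ζ => rp D r e.1 Ge e.2 t ζ = s)).card : ℝ) =
      ((Rc D r Ge).card : ℝ) := by
    rw [← Nat.cast_sum]
    congr 1
    refine (Finset.card_eq_sum_card_fiberwise ?_).symm
    intro ζ _
    exact Finset.mem_coe.2 (Finset.mem_powerset.2 (Finset.filter_subset _ _))
  -- classification
  have hclass : ∀ s, wt (L s) * (cf D r e.1 Ge e.2 t s (L s) : ℝ) ≤ ∑ c ∈ ch D e,
      (wt (L s) * ((m4_S D r G e c t (n - 1) L (TwoFull D r G e c) t κ s).card : ℝ) +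
       ∑ t' ∈ range t, wt (L s) * ((m4_S D r G e c t (n - 1) L (fun _ => True) t' κ s).card : ℝ) +
       ∑ c' ∈ (ch D e).erase c, ∑ t' ∈ range (t + 1), wt (L s) * ((m4_S D r G e c t (n - 1) L
        (fun ζ1 => M ≤ (rg D r c'.1 (prt G (cone D c')) t (rs (prt G (cone D c')) ζ1)).card) t'
          (2 * ((ch D e).card : ℝ)) s).card : ℝ)) := by
    intro s
    by_cases h : n0 < L0 s
    swap
    · have h1 : L s = 0 := by rw [hLd, if_neg h]
      rw [h1, hwt0]
      simp
    have h1 : L s = L0 s := by rw [hLd, if_pos h]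
    have hsub : (Rc D r Ge).filter (fun ζ => rp D r e.1 Ge e.2 t ζ = s ∧ (rg D r e.1 Ge t ζ).card = L s) ⊆
        (ch D e).biUnion (fun c => (m4_S D r G e c t (n - 1) L (TwoFull D r G e c) t κ s ∪
          (range t).biUnion (fun t' => m4_S D r G e c t (n - 1) L (fun _ => True) t' κ s)) ∪
          ((ch D e).erase c).biUnion (fun c' => (range (t + 1)).biUnion (fun t' =>
            m4_S D r G e c t (n - 1) L
              (fun ζ1 => M ≤ (rg D r c'.1 (prt G (cone D c')) t (rs (prt G (cone D c')) ζ1)).card) t'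
              (2 * ((ch D e).card : ℝ)) s))) := by
      intro ζ hζ
      rw [Finset.mem_filter, hGe] at hζ
      obtain ⟨hζ1, hζ2, hζ3⟩ := hζ
      obtain ⟨c, hc, a1, a2, a3⟩ := m4_point H G he t ht n n0 M κ hκ hn0 hM hζ1 (L s) hζ3
        (by rw [h1]; exact h) (by rw [h1]; exact hL0 s)
      refine Finset.mem_biUnion.2 ⟨c, hc, ?_⟩
      rcases a3 with ⟨b1, b2, b3⟩ | ⟨b1, b2⟩ | ⟨b1, c', hc', b2⟩
      · refine Finset.mem_union_left _ (Finset.mem_union_left _ ?_)
        exact m4_memS D r G e c t (n - 1) L _ _ κ s ζ hζ1 b3 hζ2 hζ3 b2 a1 a2 b1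
      · refine Finset.mem_union_left _ (Finset.mem_union_right _ (Finset.mem_biUnion.2
          ⟨kk D r e.1 (prt G (cone D e)) c.1 ζ t, Finset.mem_range.2 b2, ?_⟩))
        exact m4_memS D r G e c t (n - 1) L _ _ κ s ζ hζ1 trivial hζ2 hζ3 rfl a1 a2 b1
      · refine Finset.mem_union_right _ (Finset.mem_biUnion.2 ⟨c', hc', Finset.mem_biUnion.2
          ⟨kk D r e.1 (prt G (cone D e)) c.1 ζ t, Finset.mem_range.2 (Nat.lt_succ_of_le (m4_kk_le t ζ)), ?_⟩⟩)
        exact m4_memS D r G e c t (n - 1) L _ _ _ s ζ hζ1 b2 hζ2 hζ3 rfl a1 a2 b1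
    have hcard : cf D r e.1 Ge e.2 t s (L s) ≤ ∑ c ∈ ch D e,
      ((m4_S D r G e c t (n - 1) L (TwoFull D r G e c) t κ s).card +
       ∑ t' ∈ range t, (m4_S D r G e c t (n - 1) L (fun _ => True) t' κ s).card +
       ∑ c' ∈ (ch D e).erase c, ∑ t' ∈ range (t + 1), (m4_S D r G e c t (n - 1) L
        (fun ζ1 => M ≤ (rg D r c'.1 (prt G (cone D c')) t (rs (prt G (cone D c')) ζ1)).card) t'
          (2 * ((ch D e).card : ℝ)) s).card) := by
      unfold cf
      refine (Finset.card_le_card hsub).trans (Finset.card_biUnion_le.trans (Finset.sum_le_sum fun c _ => ?_))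
      refine (Finset.card_union_le _ _).trans (Nat.add_le_add ((Finset.card_union_le _ _).trans
        (Nat.add_le_add (le_refl _) Finset.card_biUnion_le)) ?_)
      exact Finset.card_biUnion_le.trans (Finset.sum_le_sum fun c' _ => Finset.card_biUnion_le)
    have hcard' : (cf D r e.1 Ge e.2 t s (L s) : ℝ) ≤ ∑ c ∈ ch D e,
      (((m4_S D r G e c t (n - 1) L (TwoFull D r G e c) t κ s).card : ℝ) +
       ∑ t' ∈ range t, ((m4_S D r G e c t (n - 1) L (fun _ => True) t' κ s).card : ℝ) +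
       ∑ c' ∈ (ch D e).erase c, ∑ t' ∈ range (t + 1), ((m4_S D r G e c t (n - 1) L
        (fun ζ1 => M ≤ (rg D r c'.1 (prt G (cone D c')) t (rs (prt G (cone D c')) ζ1)).card) t'
          (2 * ((ch D e).card : ℝ)) s).card : ℝ)) := by exact_mod_cast hcard
    refine (mul_le_mul_of_nonneg_left hcard' (hwtn _)).trans (le_of_eq ?_)
    simp only [Finset.mul_sum, mul_add]
  -- bounds of the three kinds of terms
  have hA : ∀ c ∈ ch D e, ∑ s ∈ (range t).powerset,
      wt (L s) * ((m4_S D r G e c t (n - 1) L (TwoFull D r G e c) t κ s).card : ℝ) ≤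
      κ * Real.sqrt κ * mu2 D r G e c * mm D r G c t (n - 1) * ((Rc D r Ge).card : ℝ) := by
    intro c hc
    refine (m4_cut H G he hc t t (n - 1) κ (by linarith) (TwoFull D r G e c) L).trans (le_of_eq ?_)
    obtain ⟨g, hun, hv1, hx2, hne1⟩ := H.gate_child G he hc
    have g' : Gate D (rst D G e c) (prt G (cone D c)) c.1 c.2 :=
      ⟨Finset.disjoint_of_subset_left (Finset.subset_insert _ _) g.disj,
        fun a ha b hb hab => g.edge a (Finset.mem_insert_of_mem ha) b hb hab, g.adj,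
        fun h => g.hy (Finset.mem_insert_of_mem h), g.hh⟩
    have hvy : e.1 ≠ c.2 := fun h => g.hy (h ▸ Finset.mem_insert_self _ _)
    have h1 := sum_pull (M := ℝ) g' H.degLe hv1 hvy (fun ζ1 => if TwoFull D r G e c ζ1 then 1 else 0)
      (fun _ => 1) (fun ζ1 _ h => by rw [if_neg]; exact fun h' => h h'.1)
    rw [hun] at h1
    have h2 : ((((Rc D r (rst D G e c)).filter (TwoFull D r G e c)).card : ℝ)) *
        ((Rc D r (prt G (cone D c))).card : ℝ) = mu2 D r G e c * ((Rc D r Ge).card : ℝ) := by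
      unfold mu2 pr
      rw [← hGe, div_mul_cancel₀ _ (hpos Ge).ne']
      rw [Finset.card_filter, Finset.card_filter, hGe]
      push_cast
      simp only [mul_one, Finset.sum_const, nsmul_eq_mul] at h1
      exact h1.symm
    calc κ * Real.sqrt κ * (((Rc D r (rst D G e c)).filter (TwoFull D r G e c)).card : ℝ) *
        (mm D r G c t (n - 1) * ((Rc D r (prt G (cone D c))).card : ℝ)) =
        κ * Real.sqrt κ * ((((Rc D r (rst D G e c)).filter (TwoFull D r G e c)).card : ℝ) *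
          ((Rc D r (prt G (cone D c))).card : ℝ)) * mm D r G c t (n - 1) := by ring
      _ = _ := by rw [h2]; ring
  have hprod : ∀ c ∈ ch D e, ((Rc D r (rst D G e c)).card : ℝ) * ((Rc D r (prt G (cone D c))).card : ℝ) ≤
      ((Rc D r Ge).card : ℝ) / H.g0 := by
    intro c hc
    obtain ⟨g, hun, hv1, hx2, hne1⟩ := H.gate_child G he hc
    have g' : Gate D (rst D G e c) (prt G (cone D c)) c.1 c.2 :=
      ⟨Finset.disjoint_of_subset_left (Finset.subset_insert _ _) g.disj,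
        fun a ha b hb hab => g.edge a (Finset.mem_insert_of_mem ha) b hb hab, g.adj,
        fun h => g.hy (Finset.mem_insert_of_mem h), g.hh⟩
    have h1 := H.prod_le G ((H.dec_ch he).br c hc) g'
    rw [hun, ← hGe] at h1
    rw [le_div_iff₀ hg0]
    linarith
  have hB : ∀ c ∈ ch D e, ∀ t', ∑ s ∈ (range t).powerset,
      wt (L s) * ((m4_S D r G e c t (n - 1) L (fun _ => True) t' κ s).card : ℝ) ≤
      κ * Real.sqrt κ / H.g0 * mm D r G c t' (n - 1) * ((Rc D r Ge).card : ℝ) := by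
    intro c hc t'
    refine (m4_cut H G he hc t t' (n - 1) κ (by linarith) (fun _ => True) L).trans ?_
    have h1 : ∀ E : (V → ℕ) → Prop, (∀ ζ, E ζ) → (((Rc D r (rst D G e c)).filter E).card : ℝ) =
        ((Rc D r (rst D G e c)).card : ℝ) := by
      intro E hE
      rw [Finset.filter_true_of_mem fun ζ _ => hE ζ]
    rw [h1 _ (fun _ => trivial)]
    calc κ * Real.sqrt κ * ((Rc D r (rst D G e c)).card : ℝ) *
        (mm D r G c t' (n - 1) * ((Rc D r (prt G (cone D c))).card : ℝ)) =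
        κ * Real.sqrt κ * mm D r G c t' (n - 1) * (((Rc D r (rst D G e c)).card : ℝ) *
          ((Rc D r (prt G (cone D c))).card : ℝ)) := by ring
      _ ≤ κ * Real.sqrt κ * mm D r G c t' (n - 1) * (((Rc D r Ge).card : ℝ) / H.g0) := by
          refine mul_le_mul_of_nonneg_left (hprod c hc) ?_
          have := hmmn c t' (n - 1)
          have : 0 < κ := by linarith
          positivity
      _ = _ := by ring
  have hC : ∀ c ∈ ch D e, ∀ c' ∈ (ch D e).erase c, ∀ t', ∑ s ∈ (range t).powerset,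
      wt (L s) * ((m4_S D r G e c t (n - 1) L
        (fun ζ1 => M ≤ (rg D r c'.1 (prt G (cone D c')) t (rs (prt G (cone D c')) ζ1)).card) t'
          (2 * ((ch D e).card : ℝ)) s).card : ℝ) ≤
      (2 * ((ch D e).card : ℝ)) * Real.sqrt (2 * ((ch D e).card : ℝ)) / H.g0 ^ 2 *
        pr D r (prt G (cone D c')) (fun ζ => M ≤ (rg D r c'.1 (prt G (cone D c')) t ζ).card) *
        mm D r G c t' (n - 1) * ((Rc D r Ge).card : ℝ) := by
    intro c hc c' hc' t'
    obtain ⟨E, hE⟩ : ∃ E : (V → ℕ) → Prop,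
      E = fun ζ1 => M ≤ (rg D r c'.1 (prt G (cone D c')) t (rs (prt G (cone D c')) ζ1)).card := ⟨_, rfl⟩
    rw [← hE]
    refine (m4_cut H G he hc t t' (n - 1) (2 * ((ch D e).card : ℝ)) (by positivity) E L).trans ?_
    have d := H.dec_ch he
    have hc'm := Finset.mem_of_mem_erase hc'
    have hcc : c' ≠ c := Finset.ne_of_mem_erase hc'
    have hsub : cone D c' ⊆ cone D e \ cone D c := fun z hz =>
      ⟨d.csub c' hc'm hz, Set.disjoint_left.1 (d.pair c' hc'm c hc hcc) hz⟩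
    have h1 := H.marg_le G (d.br c' hc'm) (gate_cone (G := G) (Ω := cone D e \ cone D c) (d.br c' hc'm))
      (fun ζ => M ≤ (rg D r c'.1 (prt G (cone D c')) t ζ).card)
    rw [prt_union hsub] at h1
    have h2 : (((Rc D r (rst D G e c)).filter E).card : ℝ) ≤
        pr D r (prt G (cone D c')) (fun ζ => M ≤ (rg D r c'.1 (prt G (cone D c')) t ζ).card) / H.g0 *
          ((Rc D r (rst D G e c)).card : ℝ) := by
      rw [← div_le_iff₀ (hpos _)]
      have h3 : pr D r (rst D G e c) E ≤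
          pr D r (prt G (cone D c')) (fun ζ => M ≤ (rg D r c'.1 (prt G (cone D c')) t ζ).card) / H.g0 := by
        rw [hE]
        exact h1
      exact h3
    have hmm := hmmn c t' (n - 1)
    have hprn : 0 ≤ pr D r (prt G (cone D c')) (fun ζ => M ≤ (rg D r c'.1 (prt G (cone D c')) t ζ).card) := by
      unfold pr
      positivity
    calc (2 * ((ch D e).card : ℝ)) * Real.sqrt (2 * ((ch D e).card : ℝ)) *
        (((Rc D r (rst D G e c)).filter E).card : ℝ) *
        (mm D r G c t' (n - 1) * ((Rc D r (prt G (cone D c))).card : ℝ)) ≤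
        (2 * ((ch D e).card : ℝ)) * Real.sqrt (2 * ((ch D e).card : ℝ)) *
        (pr D r (prt G (cone D c')) (fun ζ => M ≤ (rg D r c'.1 (prt G (cone D c')) t ζ).card) / H.g0 *
          ((Rc D r (rst D G e c)).card : ℝ)) *
        (mm D r G c t' (n - 1) * ((Rc D r (prt G (cone D c))).card : ℝ)) := by
          refine mul_le_mul_of_nonneg_right (mul_le_mul_of_nonneg_left h2 (by positivity)) (by positivity)
      _ = (2 * ((ch D e).card : ℝ)) * Real.sqrt (2 * ((ch D e).card : ℝ)) *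
        (pr D r (prt G (cone D c')) (fun ζ => M ≤ (rg D r c'.1 (prt G (cone D c')) t ζ).card) / H.g0) *
        mm D r G c t' (n - 1) *
        (((Rc D r (rst D G e c)).card : ℝ) * ((Rc D r (prt G (cone D c))).card : ℝ)) := by ring
      _ ≤ (2 * ((ch D e).card : ℝ)) * Real.sqrt (2 * ((ch D e).card : ℝ)) *
        (pr D r (prt G (cone D c')) (fun ζ => M ≤ (rg D r c'.1 (prt G (cone D c')) t ζ).card) / H.g0) *
        mm D r G c t' (n - 1) * (((Rc D r Ge).card : ℝ) / H.g0) := by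
          refine mul_le_mul_of_nonneg_left (hprod c hc) (by positivity)
      _ = _ := by ring
  -- conclusion
  have hfin : mc D r e.1 Ge e.2 t n ≤ (wt n0 + ∑ c ∈ ch D e,
      (κ * Real.sqrt κ * mu2 D r G e c * mm D r G c t (n - 1) +
       κ * Real.sqrt κ / H.g0 * ∑ t' ∈ range t, mm D r G c t' (n - 1) +
       (2 * ((ch D e).card : ℝ)) * Real.sqrt (2 * ((ch D e).card : ℝ)) / H.g0 ^ 2 *
        (∑ c' ∈ (ch D e).erase c,
          pr D r (prt G (cone D c')) (fun ζ => M ≤ (rg D r c'.1 (prt G (cone D c')) t ζ).card)) *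
        ∑ t' ∈ range (t + 1), mm D r G c t' (n - 1))) * ((Rc D r Ge).card : ℝ) := by
    have h1 : mc D r e.1 Ge e.2 t n ≤ wt n0 * ((Rc D r Ge).card : ℝ) +
        ∑ s ∈ (range t).powerset, wt (L s) * (cf D r e.1 Ge e.2 t s (L s) : ℝ) := by
      unfold mc
      refine (Finset.sum_le_sum fun s _ => hsplit s).trans (le_of_eq ?_)
      rw [Finset.sum_add_distrib, ← Finset.mul_sum, hfib]
    refine h1.trans ?_
    rw [add_mul]
    refine add_le_add (le_refl _) ?_
    refine (Finset.sum_le_sum fun s _ => hclass s).trans ?_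
    rw [Finset.sum_comm, Finset.sum_mul]
    refine Finset.sum_le_sum fun c hc => ?_
    rw [Finset.sum_add_distrib, Finset.sum_add_distrib]
    have k1 := hA c hc
    have k2 : ∑ s ∈ (range t).powerset, ∑ t' ∈ range t,
        wt (L s) * ((m4_S D r G e c t (n - 1) L (fun _ => True) t' κ s).card : ℝ) ≤
        κ * Real.sqrt κ / H.g0 * (∑ t' ∈ range t, mm D r G c t' (n - 1)) * ((Rc D r Ge).card : ℝ) := by
      rw [Finset.sum_comm, Finset.mul_sum, Finset.sum_mul]
      exact Finset.sum_le_sum fun t' _ => hB c hc t'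
    have k3 : ∑ s ∈ (range t).powerset, ∑ c' ∈ (ch D e).erase c, ∑ t' ∈ range (t + 1),
        wt (L s) * ((m4_S D r G e c t (n - 1) L
        (fun ζ1 => M ≤ (rg D r c'.1 (prt G (cone D c')) t (rs (prt G (cone D c')) ζ1)).card) t'
          (2 * ((ch D e).card : ℝ)) s).card : ℝ) ≤
        (2 * ((ch D e).card : ℝ)) * Real.sqrt (2 * ((ch D e).card : ℝ)) / H.g0 ^ 2 *
        (∑ c' ∈ (ch D e).erase c,
          pr D r (prt G (cone D c')) (fun ζ => M ≤ (rg D r c'.1 (prt G (cone D c')) t ζ).card)) *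
        (∑ t' ∈ range (t + 1), mm D r G c t' (n - 1)) * ((Rc D r Ge).card : ℝ) := by
      obtain ⟨S, hS⟩ : ∃ S : ℝ, S = ∑ t' ∈ range (t + 1), mm D r G c t' (n - 1) := ⟨_, rfl⟩
      rw [← hS, Finset.sum_comm, Finset.mul_sum, Finset.sum_mul, Finset.sum_mul]
      refine Finset.sum_le_sum fun c' hc' => ?_
      rw [hS, Finset.sum_comm, Finset.mul_sum, Finset.sum_mul]
      exact Finset.sum_le_sum fun t' _ => hC c hc c' hc' t'
    linarith
  unfold mm at hfin ⊢
  rw [← hGe, div_le_iff₀ (hpos Ge)]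
  exact hfin

end Pool.Agent.Helper910
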