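import Mathlib
import Pool.Agent.Helper910.M4

/-! Lower and upper bounds by products over attached cones (MP_4555f0_mp) -/

namespace Pool.Agent.Helper910

open Classical Finset Filter Topology

variable {V : Type*} {D : SimpleGraph V} {r : ℕ}

/-- the configuration glued from a configuration on the core and configurations on the cones -/
noncomputable def m5a_glue (C : Finset (V × V)) (χ : V → ℕ) (f : ∀ c ∈ C, V → ℕ) : V → ℕ :=
  fun z => χ z + ∑ c ∈ C.attach, f c.1 c.2 z

theorem m5a_glue_core {C : Finset (V × V)} {χ : V → ℕ} {f : ∀ c ∈ C, V → ℕ} {z : V}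
    (h : ∀ c (hc : c ∈ C), f c hc z = 0) : m5a_glue C χ f z = χ z := by
  unfold m5a_glue
  rw [Finset.sum_eq_zero (fun c _ => h c.1 c.2), add_zero]

theorem m5a_glue_cone {C : Finset (V × V)} {χ : V → ℕ} {f : ∀ c ∈ C, V → ℕ} {z : V}
    {c : V × V} (hc : c ∈ C) (h0 : χ z = 0) (h : ∀ c' (hc' : c' ∈ C), c' ≠ c → f c' hc' z = 0) :
    m5a_glue C χ f z = f c hc z := by
  unfold m5a_glue
  rw [h0, zero_add, Finset.sum_eq_single (⟨c, hc⟩ : {x // x ∈ C})]
  · intro b _ hb
    exact h b.1 b.2 (fun e => hb (Subtype.ext e))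
  · intro h'
    exact absurd (Finset.mem_attach _ _) h'

/-- data of a decomposition for the gluing -/
theorem m5a_sub {G : Finset V} {Ω : Set V} {Q : Finset V} {C : Finset (V × V)} (d : Dec D Ω Q C) (hQ : Q ⊆ G) :
    Q ⊆ prt G Ω := fun z hz => mem_prt.2 ⟨hQ hz, d.sub z hz⟩

theorem m5a_csub {G : Finset V} {Ω : Set V} {Q : Finset V} {C : Finset (V × V)} (d : Dec D Ω Q C)
    {c : V × V} (hc : c ∈ C) : prt G (cone D c) ⊆ prt G Ω := by
  intro z hz
  rw [mem_prt] at hz ⊢
  exact ⟨hz.1, d.csub c hc hz.2⟩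

theorem m5a_val_core {G : Finset V} {Ω : Set V} {Q : Finset V} {C : Finset (V × V)} (d : Dec D Ω Q C)
    {χ : V → ℕ} {f : ∀ c ∈ C, V → ℕ} (hf : ∀ c (hc : c ∈ C), IsConfig r (prt G (cone D c)) (f c hc))
    {z : V} (hz : z ∈ Q) : m5a_glue C χ f z = χ z := by
  apply m5a_glue_core
  intro c hc
  apply (hf c hc).2
  intro h
  exact d.cdisj c hc z (mem_prt.1 h).2 hz

theorem m5a_val_cone {G : Finset V} {Ω : Set V} {Q : Finset V} {C : Finset (V × V)} (d : Dec D Ω Q C)
    {χ : V → ℕ} (hχ : ∀ z, z ∉ Q → χ z = 0)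
    {f : ∀ c ∈ C, V → ℕ} (hf : ∀ c (hc : c ∈ C), IsConfig r (prt G (cone D c)) (f c hc))
    {c : V × V} (hc : c ∈ C) {z : V} (hz : z ∈ cone D c) : m5a_glue C χ f z = f c hc z := by
  apply m5a_glue_cone hc
  · exact hχ z (d.cdisj c hc z hz)
  · intro c' hc' hne
    apply (hf c' hc').2
    intro h
    exact Set.disjoint_left.1 (d.pair c' hc' c hc hne) (mem_prt.1 h).2 hz

/-- TARGET. Lower bound by products. Induction on `C` (use `Dec.erase`, `prt_union`, `gate_cone`, `Gate.sum_glue` or `Gate.recW_iff`), with the statement for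
all weights `w` supported on `Q`: if `χ ∈ RcW (w + wI I) Q` then the product is at most the number of `ζ ∈ RcW w (prt G Ω)` with the property.
For `c ∉ I` the configuration on the cone is strong; for `c ∈ I` the weight `dl c.1` is added on the first side (the restriction to the rest is then in
`RcW (w + dl c.1)`). -/
theorem dec_mul_le (hr : 1 ≤ r) {G : Finset V} {Ω : Set V} {Q : Finset V} {C : Finset (V × V)} (d : Dec D Ω Q C) (hQ : Q ⊆ G)
    (I : Finset (V × V)) (hI : I ⊆ C) (A : V × V → (V → ℕ) → Prop) (χ : V → ℕ) (hχ : χ ∈ RcW D r (wI I) Q) :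
    (∏ c ∈ C, (if c ∈ I then ((Rc D r (prt G (cone D c))).filter (A c)).card
        else ((RcW D r (dl c.2) (prt G (cone D c))).filter (A c)).card)) ≤
      ((Rc D r (prt G Ω)).filter (fun ζ => rs Q ζ = χ ∧ ∀ c ∈ C, A c (rs (prt G (cone D c)) ζ))).card := by
  have _ := hr
  have _ := hI
  rw [mem_RcW] at hχ
  obtain ⟨hχc, hχr⟩ := hχ
  -- the sets of local configurations
  let S : V × V → Finset (V → ℕ) := fun c => if c ∈ I then (Rc D r (prt G (cone D c))).filter (A c)
    else (RcW D r (dl c.2) (prt G (cone D c))).filter (A c)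
  have hS : ∀ c, (S c).card = (if c ∈ I then ((Rc D r (prt G (cone D c))).filter (A c)).card
        else ((RcW D r (dl c.2) (prt G (cone D c))).filter (A c)).card) := by
    intro c
    simp only [S]
    split_ifs <;> rfl
  have hSconf : ∀ c, ∀ ξ ∈ S c, IsConfig r (prt G (cone D c)) ξ ∧ RecW D 0 (prt G (cone D c)) ξ ∧ A c ξ ∧
      (c ∉ I → RecW D (dl c.2) (prt G (cone D c)) ξ) := by
    intro c ξ hξ
    simp only [S] at hξ
    split_ifs at hξ with hcI
    · rw [Finset.mem_filter, mem_Rc] at hξ
      exact ⟨hξ.1.1, hξ.1.2, hξ.2, fun h => absurd hcI h⟩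
    · rw [Finset.mem_filter, mem_RcW] at hξ
      exact ⟨hξ.1.1, hξ.1.2.mono_w (fun z _ => Nat.zero_le _), hξ.2, fun _ => hξ.1.2⟩
  have hprod : (∏ c ∈ C, (if c ∈ I then ((Rc D r (prt G (cone D c))).filter (A c)).card
        else ((RcW D r (dl c.2) (prt G (cone D c))).filter (A c)).card)) = (C.pi S).card := by
    rw [Finset.card_pi]
    exact Finset.prod_congr rfl (fun c _ => (hS c).symm)
  rw [hprod]
  refine Finset.card_le_card_of_injOn (m5a_glue C χ) ?_ ?_
  · intro f hf
    rw [Finset.mem_coe, Finset.mem_pi] at hf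
    have hfc : ∀ c (hc : c ∈ C), IsConfig r (prt G (cone D c)) (f c hc) := fun c hc => (hSconf c _ (hf c hc)).1
    have hcore : ∀ z ∈ Q, m5a_glue C χ f z = χ z := fun z hz => m5a_val_core d hfc hz
    have hcone : ∀ c (hc : c ∈ C), ∀ z ∈ cone D c, m5a_glue C χ f z = f c hc z :=
      fun c hc z hz => m5a_val_cone d hχc.2 hfc hc hz
    rw [Finset.mem_coe, Finset.mem_filter, mem_Rc]
    refine ⟨⟨⟨?_, ?_⟩, ?_⟩, ?_, ?_⟩
    · -- heights
      intro z hz
      rw [mem_prt] at hz
      rcases d.cov z hz.2 with hzQ | ⟨c, hc, hzc⟩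
      · rw [hcore z hzQ]; exact hχc.1 z hzQ
      · rw [hcone c hc z hzc]; exact (hfc c hc).1 z (mem_prt.2 ⟨hz.1, hzc⟩)
    · -- zero outside
      intro z hz
      have hzQ : z ∉ Q := fun h => hz (m5a_sub d hQ h)
      unfold m5a_glue
      rw [hχc.2 z hzQ, zero_add]
      apply Finset.sum_eq_zero
      intro c _
      apply (hfc c.1 c.2).2
      intro h
      exact hz (m5a_csub d c.2 h)
    · -- recurrence
      intro U hU hne
      simp only [Pi.zero_apply, add_zero]
      by_cases hcase : ∃ c, ∃ _ : c ∈ C, c ∉ I ∧ ∃ z ∈ U, z ∈ cone D c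
      · obtain ⟨c, hc, hcI, z0, hz0, hz0c⟩ := hcase
        have hrec := (hSconf c _ (hf c hc)).2.2.2 hcI
        obtain ⟨z, hz, hlt⟩ := hrec (U.filter (fun z => z ∈ cone D c)) (by
          intro z hz
          rw [Finset.mem_filter] at hz
          exact mem_prt.2 ⟨(mem_prt.1 (hU hz.1)).1, hz.2⟩) ⟨z0, Finset.mem_filter.2 ⟨hz0, hz0c⟩⟩
        rw [Finset.mem_filter] at hz
        refine ⟨z, hz.1, ?_⟩
        rw [hcone c hc z hz.2]
        refine lt_of_le_of_lt ?_ hlt
        -- neighbours outside the cone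
        have h1 : dg D z U ≤ dg D z (U.filter (fun z => z ∈ cone D c)) +
            dg D z (U.filter (fun z => z ∉ cone D c)) := by
          rw [← dg_union (Finset.disjoint_filter_filter_not _ _ _), Finset.filter_union_filter_not_eq]
        have h2 : dg D z (U.filter (fun z => z ∉ cone D c)) ≤ dl c.2 z := by
          unfold dl
          split_ifs with hzc
          · unfold dg
            rw [Finset.card_le_one]
            intro a ha b hb
            rw [Finset.mem_filter, Finset.mem_filter] at ha hb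
            have ea := cone_edge (d.br c hc) ha.1.2 hz.2 ha.2.symm
            have eb := cone_edge (d.br c hc) hb.1.2 hz.2 hb.2.symm
            rw [ea.1, eb.1]
          · rw [dg_eq_zero]
            intro a ha hadj
            rw [Finset.mem_filter] at ha
            exact hzc (cone_edge (d.br c hc) ha.2 hz.2 hadj.symm).2
        omega
      · push Not at hcase
        by_cases hUQ : (U ∩ Q).Nonempty
        · obtain ⟨z, hz, hlt⟩ := hχr (U ∩ Q) Finset.inter_subset_right hUQ
          rw [Finset.mem_inter] at hz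
          refine ⟨z, hz.1, ?_⟩
          rw [hcore z hz.2]
          refine lt_of_le_of_lt ?_ hlt
          have h1 : dg D z U ≤ dg D z (U ∩ Q) + dg D z (U \ Q) := by
            rw [← dg_union]
            · refine dg_mono ?_
              intro a ha
              by_cases haQ : a ∈ Q
              · exact Finset.mem_union_left _ (Finset.mem_inter.2 ⟨ha, haQ⟩)
              · exact Finset.mem_union_right _ (Finset.mem_sdiff.2 ⟨ha, haQ⟩)
            · rw [Finset.disjoint_left]
              intro a ha ha'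
              exact (Finset.mem_sdiff.1 ha').2 (Finset.mem_inter.1 ha).2
          have h2 : dg D z (U \ Q) ≤ wI I z := by
            unfold dg wI
            have hex : ∀ b ∈ (U \ Q).filter (fun w => D.Adj z w), ((z, b) : V × V) ∈ I.filter (fun c => c.1 = z) := by
              intro b hb
              rw [Finset.mem_filter, Finset.mem_sdiff] at hb
              rcases d.cov b (mem_prt.1 (hU hb.1.1)).2 with h' | ⟨c, hc, hbc⟩
              · exact absurd h' hb.1.2
              · have hzc : z ∉ cone D c := fun h => d.cdisj c hc z h hz.2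
                obtain ⟨e1, e2⟩ := cone_edge (d.br c hc) hzc hbc hb.2
                have hcI : c ∈ I := by
                  by_contra hcI
                  exact hcase c hc hcI b hb.1.1 hbc
                rw [Finset.mem_filter]
                have : ((z, b) : V × V) = c := Prod.ext e1 e2
                rw [this]
                exact ⟨hcI, e1.symm⟩
            refine Finset.card_le_card_of_injOn (fun b => ((z, b) : V × V)) hex ?_
            intro a _ b _ hab
            exact (Prod.mk.inj hab).2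
          omega
        · -- everything in the cones of `I`
          obtain ⟨z0, hz0⟩ := hne
          have hz0Q : z0 ∉ Q := fun h => hUQ ⟨z0, Finset.mem_inter.2 ⟨hz0, h⟩⟩
          rcases d.cov z0 (mem_prt.1 (hU hz0)).2 with h' | ⟨c, hc, hz0c⟩
          · exact absurd h' hz0Q
          · have hrec := (hSconf c _ (hf c hc)).2.1
            obtain ⟨z, hz, hlt⟩ := hrec (U.filter (fun z => z ∈ cone D c)) (by
              intro z hz
              rw [Finset.mem_filter] at hz
              exact mem_prt.2 ⟨(mem_prt.1 (hU hz.1)).1, hz.2⟩) ⟨z0, Finset.mem_filter.2 ⟨hz0, hz0c⟩⟩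
            simp only [Pi.zero_apply, add_zero] at hlt
            rw [Finset.mem_filter] at hz
            refine ⟨z, hz.1, ?_⟩
            rw [hcone c hc z hz.2]
            refine lt_of_le_of_lt ?_ hlt
            have h1 : dg D z U ≤ dg D z (U.filter (fun z => z ∈ cone D c)) +
                dg D z (U.filter (fun z => z ∉ cone D c)) := by
              rw [← dg_union (Finset.disjoint_filter_filter_not _ _ _), Finset.filter_union_filter_not_eq]
            have h2 : dg D z (U.filter (fun z => z ∉ cone D c)) = 0 := by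
              rw [dg_eq_zero]
              intro a ha hadj
              rw [Finset.mem_filter] at ha
              have ea := cone_edge (d.br c hc) ha.2 hz.2 hadj.symm
              have haQ : a ∈ Q := by rw [ea.1]; exact d.fst c hc
              exact hUQ ⟨a, Finset.mem_inter.2 ⟨ha.1, haQ⟩⟩
            omega
    · -- restriction to the core
      funext z
      by_cases hz : z ∈ Q
      · rw [rs_mem hz, hcore z hz]
      · rw [rs_notMem hz, hχc.2 z hz]
    · -- restrictions to the cones
      intro c hc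
      have : rs (prt G (cone D c)) (m5a_glue C χ f) = f c hc := by
        funext z
        by_cases hz : z ∈ prt G (cone D c)
        · rw [rs_mem hz, hcone c hc z (mem_prt.1 hz).2]
        · rw [rs_notMem hz, (hfc c hc).2 z hz]
      rw [this]
      exact (hSconf c _ (hf c hc)).2.2.1
  · intro f hf f' hf' heq
    rw [Finset.mem_coe, Finset.mem_pi] at hf hf'
    have hfc : ∀ c (hc : c ∈ C), IsConfig r (prt G (cone D c)) (f c hc) := fun c hc => (hSconf c _ (hf c hc)).1
    have hfc' : ∀ c (hc : c ∈ C), IsConfig r (prt G (cone D c)) (f' c hc) := fun c hc => (hSconf c _ (hf' c hc)).1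
    funext c hc z
    by_cases hz : z ∈ prt G (cone D c)
    · have h1 := m5a_val_cone d hχc.2 hfc hc (mem_prt.1 hz).2
      have h2 := m5a_val_cone d hχc.2 hfc' hc (mem_prt.1 hz).2
      have h3 := congrFun heq z
      rw [← h1, ← h2, h3]
    · rw [(hfc c hc).2 z hz, (hfc' c hc).2 z hz]

/-- TARGET. Upper bound by products (iterate `card_filter_le_mul`, `card_Rc_le`). -/
theorem dec_le_mul {G : Finset V} {Ω : Set V} {Q : Finset V} {C : Finset (V × V)} (d : Dec D Ω Q C) (hQ : Q ⊆ G) :
    (Rc D r (prt G Ω)).card ≤ r ^ Q.card * ∏ c ∈ C, (Rc D r (prt G (cone D c))).card := by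
  refine le_trans ?_ (Nat.mul_le_mul_right _ (card_Rc_le (D := D) (r := r) Q))
  rw [← Finset.card_pi, ← Finset.card_product]
  refine Finset.card_le_card_of_injOn (fun ζ => (rs Q ζ, fun c _ => rs (prt G (cone D c)) ζ)) ?_ ?_
  · intro ζ hζ
    rw [Finset.mem_coe] at hζ
    rw [Finset.mem_coe, Finset.mem_product, Finset.mem_pi]
    exact ⟨rs_mem_Rc (m5a_sub d hQ) hζ, fun c hc => rs_mem_Rc (m5a_csub d hc) hζ⟩
  · intro ζ hζ ζ' hζ' heq
    rw [Finset.mem_coe, mem_Rc] at hζ hζ'
    simp only [Prod.mk.injEq] at heq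
    obtain ⟨h1, h2⟩ := heq
    funext z
    by_cases hz : z ∈ prt G Ω
    · rcases d.cov z (mem_prt.1 hz).2 with hzQ | ⟨c, hc, hzc⟩
      · have h3 := congrFun h1 z
        rwa [rs_mem hzQ, rs_mem hzQ] at h3
      · have h3 := congrFun (congrFun (congrFun h2 c) hc) z
        have hzp : z ∈ prt G (cone D c) := mem_prt.2 ⟨(mem_prt.1 hz).1, hzc⟩
        rwa [rs_mem hzp, rs_mem hzp] at h3
    · rw [hζ.1.2 z hz, hζ'.1.2 z hz]

section ctx

variable [D.LocallyFinite]

/-- TARGET. probabilistic form of the lower bound (`|RcW (dl)| ≥ g0 |Rc|` by `Ctx.card_strong_cone`, `Ctx.bet_le`) -/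
theorem Ctx.pr_ge (H : Ctx D r) {G : Finset V} {Ω : Set V} {Q : Finset V} {C : Finset (V × V)} (d : Dec D Ω Q C) (hQ : Q ⊆ G)
    (χ : V → ℕ) (hχ : χ ∈ Rc D r Q) :
    H.g0 ^ C.card / (r : ℝ) ^ Q.card ≤ pr D r (prt G Ω) (fun ζ => rs Q ζ = χ) := by
  have hr : 1 ≤ r := by have := H.three_le; omega
  have hw0 : wI (V := V) ∅ = 0 := by
    funext z
    simp [wI]
  have h1 := dec_mul_le hr d hQ ∅ (Finset.empty_subset _) (fun _ _ => True) χ (by rw [hw0]; exact hχ)
  have h2 := dec_le_mul (r := r) d hQ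
  simp only [Finset.notMem_empty, if_false, Finset.filter_true, implies_true, and_true] at h1
  have hpos : ∀ G' : Finset V, 0 < (Rc D r G').card := fun G' => Finset.card_pos.2 ⟨_, H.top_mem hr G'⟩
  have hg := H.g0_pos
  have h3 : H.g0 ^ C.card * ∏ c ∈ C, ((Rc D r (prt G (cone D c))).card : ℝ) ≤
      ∏ c ∈ C, ((RcW D r (dl c.2) (prt G (cone D c))).card : ℝ) := by
    rw [← Finset.prod_const, ← Finset.prod_mul_distrib]
    refine Finset.prod_le_prod (fun c _ => mul_nonneg hg.le (Nat.cast_nonneg _)) ?_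
    intro c hc
    rw [H.card_strong_cone G (d.br c hc)]
    apply mul_le_mul_of_nonneg_right _ (Nat.cast_nonneg _)
    have := H.bet_le G (d.br c hc)
    linarith
  have hrpos : (0 : ℝ) < (r : ℝ) ^ Q.card := by
    have : (0 : ℝ) < r := by exact_mod_cast hr
    positivity
  have hP : (0 : ℝ) < ∏ c ∈ C, ((Rc D r (prt G (cone D c))).card : ℝ) :=
    Finset.prod_pos (fun c _ => by exact_mod_cast hpos _)
  have h1' : ∏ c ∈ C, ((RcW D r (dl c.2) (prt G (cone D c))).card : ℝ) ≤
      (((Rc D r (prt G Ω)).filter (fun ζ => rs Q ζ = χ)).card : ℝ) := by exact_mod_cast h1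
  have h2' : ((Rc D r (prt G Ω)).card : ℝ) ≤
      (r : ℝ) ^ Q.card * ∏ c ∈ C, ((Rc D r (prt G (cone D c))).card : ℝ) := by exact_mod_cast h2
  have hR : (0 : ℝ) < ((Rc D r (prt G Ω)).card : ℝ) := by exact_mod_cast hpos _
  unfold pr
  rw [div_le_div_iff₀ hrpos hR]
  have hgC : 0 ≤ H.g0 ^ C.card := pow_nonneg hg.le _
  calc H.g0 ^ C.card * ((Rc D r (prt G Ω)).card : ℝ)
      ≤ H.g0 ^ C.card * ((r : ℝ) ^ Q.card * ∏ c ∈ C, ((Rc D r (prt G (cone D c))).card : ℝ)) :=
        mul_le_mul_of_nonneg_left h2' hgC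
    _ = (H.g0 ^ C.card * ∏ c ∈ C, ((Rc D r (prt G (cone D c))).card : ℝ)) * (r : ℝ) ^ Q.card := by ring
    _ ≤ (((Rc D r (prt G Ω)).filter (fun ζ => rs Q ζ = χ)).card : ℝ) * (r : ℝ) ^ Q.card :=
        mul_le_mul_of_nonneg_right (h3.trans h1') hrpos.le

end ctx

end Pool.Agent.Helper910
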