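import Mathlib
import Pool.Agent.Helper910.M5a

/-! Bridges at a vertex, special block configurations (MP_4555f0_mp) -/

namespace Pool.Agent.Helper910

open Classical Finset Filter Topology

variable {V : Type*} {D : SimpleGraph V} [D.LocallyFinite] {r : ℕ}

/-- number of bridges at a vertex -/
noncomputable def br (D : SimpleGraph V) [D.LocallyFinite] (x : V) : Finset (V × V) :=
  (bdr D (Bf D x)).filter (fun c => c.1 = x)

theorem m5b_mem_br (H : Ctx D r) {x : V} {c : V × V} : c ∈ br D x ↔ c.1 = x ∧ BD D c.1 c.2 := by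
  rw [br, Finset.mem_filter, H.bdr_Bf_iff]
  constructor
  · rintro ⟨⟨-, h2⟩, h3⟩; exact ⟨h3, h2⟩
  · rintro ⟨h1, h2⟩; exact ⟨⟨h1 ▸ self_mem_blk _, h2⟩, h1⟩

/-- TARGET. (transitivity, cf. `Ctx.card_bdr`) -/
theorem Ctx.card_br (H : Ctx D r) (x y : V) : (br D x).card = (br D y).card := by
  obtain ⟨φ, hφ⟩ := H.trans x y
  refine Finset.card_bij (fun c _ => (φ c.1, φ c.2)) ?_ ?_ ?_
  · intro c hc
    rw [m5b_mem_br H] at hc ⊢
    exact ⟨by rw [hc.1, hφ], (map_BD φ).2 hc.2⟩
  · intro a _ b _ h
    rw [Prod.mk.injEq] at h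
    exact Prod.ext (φ.injective h.1) (φ.injective h.2)
  · intro b hb
    refine ⟨(φ.symm b.1, φ.symm b.2), ?_, by simp⟩
    rw [m5b_mem_br H] at hb ⊢
    refine ⟨?_, ?_⟩
    · apply φ.injective
      rw [hφ]
      simpa using hb.1
    · rw [← map_BD φ]
      simpa using hb.2

/-- the number of bridges at each vertex -/
noncomputable def Ctx.jb (H : Ctx D r) : ℕ := (br D (Classical.choice H.nonempty)).card

/-- TARGET. -/
theorem Ctx.card_br_eq (H : Ctx D r) (x : V) : (br D x).card = H.jb := H.card_br _ _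

/-- TARGET. (`Ctx.bridge_at`, `Ctx.two_nbrs`) -/
theorem Ctx.jb_pos (H : Ctx D r) : 1 ≤ H.jb := by
  obtain ⟨x⟩ := H.nonempty
  obtain ⟨y, hy⟩ := H.bridge_at x
  rw [← H.card_br_eq x, Nat.one_le_iff_ne_zero, Finset.card_ne_zero]
  exact ⟨(x, y), (m5b_mem_br H).2 ⟨rfl, hy⟩⟩

/-- TARGET. (`Ctx.two_nbrs` : two neighbours in the block, which are not bridge neighbours by `blk_bridge`) -/
theorem Ctx.jb_le (H : Ctx D r) : H.jb + 2 ≤ r := by
  obtain ⟨x⟩ := H.nonempty
  obtain ⟨a, b, hab, h1, h2, h3, h4⟩ := H.two_nbrs x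
  have hinj : Set.InjOn (fun c : V × V => c.2) (br D x : Set (V × V)) := by
    intro c hc c' hc' h
    have e1 := ((m5b_mem_br H).1 (Finset.mem_coe.1 hc)).1
    have e2 := ((m5b_mem_br H).1 (Finset.mem_coe.1 hc')).1
    exact Prod.ext (e1.trans e2.symm) h
  have hcard : ((br D x).image (fun c : V × V => c.2)).card = H.jb := by
    rw [Finset.card_image_of_injOn hinj, H.card_br_eq]
  have hdis : Disjoint ((br D x).image (fun c : V × V => c.2)) ({a, b} : Finset V) := by
    rw [Finset.disjoint_left]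
    intro z hz hz'
    obtain ⟨c, hc, rfl⟩ := Finset.mem_image.1 hz
    have e1 := (m5b_mem_br H).1 hc
    have e2 : c.2 ∉ blk D x := blk_bridge (h := c.1) (e1.1 ▸ self_mem_blk _) e1.2
    simp only [Finset.mem_insert, Finset.mem_singleton] at hz'
    rcases hz' with h | h
    · exact e2 (h ▸ h3)
    · exact e2 (h ▸ h4)
  have hsub : (br D x).image (fun c : V × V => c.2) ∪ ({a, b} : Finset V) ⊆ D.neighborFinset x := by
    intro z hz
    rw [SimpleGraph.mem_neighborFinset]
    rcases Finset.mem_union.1 hz with hz | hz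
    · obtain ⟨c, hc, rfl⟩ := Finset.mem_image.1 hz
      have e1 := (m5b_mem_br H).1 hc
      rw [← e1.1]; exact e1.2.1
    · simp only [Finset.mem_insert, Finset.mem_singleton] at hz
      rcases hz with rfl | rfl
      · exact h1
      · exact h2
  have h5 := Finset.card_le_card hsub
  rw [Finset.card_union_of_disjoint hdis, hcard, Finset.card_pair hab, SimpleGraph.card_neighborFinset_eq_degree,
    H.reg x] at h5
  exact h5

/-- TARGET. number of darts leaving a block with tail in `S` -/
theorem Ctx.card_tail (H : Ctx D r) (x : V) (S : Finset V) (hS : S ⊆ Bf D x) :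
    ((bdr D (Bf D x)).filter (fun c => c.1 ∈ S)).card = H.jb * S.card := by
  have hmaps : ∀ c ∈ (bdr D (Bf D x)).filter (fun c => c.1 ∈ S), c.1 ∈ S := fun c hc => (Finset.mem_filter.1 hc).2
  rw [Finset.card_eq_sum_card_fiberwise hmaps, mul_comm]
  refine Finset.sum_const_nat ?_
  intro z hz
  rw [← H.card_br_eq z]
  congr 1
  ext c
  rw [Finset.mem_filter, Finset.mem_filter, H.bdr_Bf_iff, m5b_mem_br H]
  constructor
  · rintro ⟨⟨⟨-, h2⟩, -⟩, h4⟩; exact ⟨h4, h2⟩
  · rintro ⟨h1, h2⟩
    refine ⟨⟨⟨?_, h2⟩, ?_⟩, h1⟩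
    · rw [h1]; exact H.mem_Bf.1 (hS hz)
    · rw [h1]; exact hz

/-- TARGET. number of children with tail in `S ∋ x` -/
theorem Ctx.card_tail_ch (H : Ctx D r) {e : V × V} (he : BD D e.1 e.2) (S : Finset V) (hS : S ⊆ Bf D e.2) (hx : e.2 ∈ S) :
    ((ch D e).filter (fun c => c.1 ∈ S)).card = H.jb * S.card - 1 := by
  rw [← H.card_tail e.2 S hS, ch, Finset.filter_erase, Finset.card_erase_of_mem]
  exact Finset.mem_filter.2 ⟨H.swap_mem he, hx⟩

/-- the number of children -/
noncomputable def Ctx.nn (H : Ctx D r) : ℕ := H.jb * H.msz - 1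

/-- TARGET. -/
theorem Ctx.card_ch_eq (H : Ctx D r) {e : V × V} (he : BD D e.1 e.2) : (ch D e).card = H.nn := by
  have h1 := H.card_tail_ch he (Bf D e.2) (Finset.Subset.refl _) (H.self_mem_Bf _)
  rw [H.card_Bf_eq] at h1
  rw [Ctx.nn, ← h1, Finset.filter_true_of_mem]
  intro c hc
  exact H.mem_Bf.2 (H.mem_ch.1 hc).2.1

/-- the configuration on a block that makes the wave stop after `S` -/
noncomputable def chS (D : SimpleGraph V) (r : ℕ) (B S : Finset V) : V → ℕ :=
  fun z => if z ∈ B then (if z ∈ S then r else r - dg D z S) else 0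

theorem m5b_dg_lt (H : Ctx D r) {x z : V} (hz : z ∈ Bf D x) {U : Finset V} (hU : U ⊆ Bf D x) : dg D z U + 1 ≤ r := by
  obtain ⟨y, hy⟩ := H.bridge_at z
  have hyB : y ∉ Bf D x := fun h => blk_bridge (H.mem_Bf.1 hz) hy (H.mem_Bf.1 h)
  have h1 := H.degLe z (insert y U)
  rw [dg_insert (fun h => hyB (hU h))] at h1
  simpa [hy.1] using h1

theorem m5b_chS_config (H : Ctx D r) {x : V} {S : Finset V} (hS : S ⊆ Bf D x) :
    IsConfig r (Bf D x) (chS D r (Bf D x) S) := by
  refine ⟨?_, ?_⟩
  · intro z hz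
    have h1 := m5b_dg_lt H hz hS
    simp only [chS, hz, if_true]
    split_ifs <;> omega
  · intro z hz
    simp [chS, hz]

/-- TARGET. `χ = chS B S`, `B` the block of `x`, `S = {x, h}` with `h ~ x` in `B` or `S = {x}`, is in `RcW (wI I) B` when the darts of `I` have
their tail in `S \ {x}` and `|I| ≤ 1` (burn `x` first: a vertex `z` of the block has a bridge neighbour outside `B`, so `dg z U < r` for `U ⊆ B`; then `h`, then the rest:
for `z ∉ S` and `U ∩ S = ∅`: `dg z U + dg z S < r`). For `S = {x, h}`, `h ∈ U`, `x ∉ U`: `dg h U + 1 ≤ r - 1 - 1`... use `h ~ x` and the bridge at `h`. -/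
theorem Ctx.chS_mem (H : Ctx D r) {x h : V} (hh : h ∈ Bf D x) (hxh : D.Adj x h) (I : Finset (V × V)) (hI : I ⊆ br D h) (hI1 : I.card ≤ 1) :
    chS D r (Bf D x) {x, h} ∈ RcW D r (wI I) (Bf D x) := by
  have hxB : x ∈ Bf D x := H.self_mem_Bf x
  have hSB : ({x, h} : Finset V) ⊆ Bf D x := by
    intro z hz
    simp only [Finset.mem_insert, Finset.mem_singleton] at hz
    rcases hz with rfl | rfl
    · exact hxB
    · exact hh
  have hw0 : ∀ z, z ≠ h → wI I z = 0 := by
    intro z hz
    rw [wI, Finset.card_eq_zero, Finset.filter_eq_empty_iff]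
    intro c hc hcz
    exact hz (hcz.symm.trans ((m5b_mem_br H).1 (hI hc)).1)
  have hw1 : wI I h ≤ 1 := (Finset.card_le_card (Finset.filter_subset _ _)).trans hI1
  rw [mem_RcW]
  refine ⟨m5b_chS_config H hSB, ?_⟩
  intro U hU hne
  by_cases hxU : x ∈ U
  · refine ⟨x, hxU, ?_⟩
    have h1 := m5b_dg_lt H hxB hU
    rw [hw0 x hxh.ne]
    simp only [chS, hxB, if_true, Finset.mem_insert, true_or]
    omega
  · by_cases hhU : h ∈ U
    · refine ⟨h, hhU, ?_⟩
      have h1 := m5b_dg_lt H hh (U := insert x U) (by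
        intro z hz
        rcases Finset.mem_insert.1 hz with rfl | hz
        · exact hxB
        · exact hU hz)
      rw [dg_insert hxU] at h1
      simp only [hxh.symm, if_true] at h1
      simp only [chS, hh, if_true, Finset.mem_insert, Finset.mem_singleton, or_true]
      omega
    · obtain ⟨z, hz⟩ := hne
      refine ⟨z, hz, ?_⟩
      have hzx : z ≠ x := fun e => hxU (e ▸ hz)
      have hzh : z ≠ h := fun e => hhU (e ▸ hz)
      have hzS : z ∉ ({x, h} : Finset V) := by simp [hzx, hzh]
      have hdis : Disjoint U ({x, h} : Finset V) := by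
        rw [Finset.disjoint_right]
        intro w hw
        simp only [Finset.mem_insert, Finset.mem_singleton] at hw
        rcases hw with rfl | rfl
        · exact hxU
        · exact hhU
      have h1 := m5b_dg_lt H (hU hz) (Finset.union_subset hU hSB)
      rw [dg_union hdis] at h1
      rw [hw0 z hzh]
      simp only [chS, hU hz, hzS, if_true, if_false]
      omega

/-- TARGET. -/
theorem Ctx.chS_mem' (H : Ctx D r) (x : V) : chS D r (Bf D x) {x} ∈ Rc D r (Bf D x) := by
  have hxB : x ∈ Bf D x := H.self_mem_Bf x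
  have hSB : ({x} : Finset V) ⊆ Bf D x := by
    intro z hz
    rw [Finset.mem_singleton] at hz
    rw [hz]; exact hxB
  rw [mem_Rc]
  refine ⟨m5b_chS_config H hSB, ?_⟩
  intro U hU hne
  by_cases hxU : x ∈ U
  · refine ⟨x, hxU, ?_⟩
    have h1 := m5b_dg_lt H hxB hU
    simp only [chS, hxB, if_true, Finset.mem_singleton, Pi.zero_apply, add_zero]
    omega
  · obtain ⟨z, hz⟩ := hne
    refine ⟨z, hz, ?_⟩
    have hzx : z ≠ x := fun e => hxU (e ▸ hz)
    have hzS : z ∉ ({x} : Finset V) := by simp [hzx]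
    have hdis : Disjoint U ({x} : Finset V) := by
      rw [Finset.disjoint_singleton_right]; exact hxU
    have h1 := m5b_dg_lt H (hU hz) (Finset.union_subset hU hSB)
    rw [dg_union hdis] at h1
    simp only [chS, hU hz, hzS, if_true, if_false, Pi.zero_apply, add_zero]
    omega

/-- TARGET. the wave of a configuration which is `chS` on the block (`IsWave` on the block, and nothing outside the block comes back:
use `IsWave.subset_of`/`fd` directly on `prt G (cone D e)`: the wave is contained in `S ∪` cones with tail in `S`). -/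
theorem Ctx.wav_chS (H : Ctx D r) {G : Finset V} {e : V × V} (he : BD D e.1 e.2) (hG : Bf D e.2 ⊆ G) {S : Finset V}
    (hS : S = {e.2} ∨ ∃ h ∈ Bf D e.2, D.Adj e.2 h ∧ S = {e.2, h}) {ζ : V → ℕ} (hζ : ζ ∈ Rc D r (prt G (cone D e)))
    (hχ : rs (Bf D e.2) ζ = chS D r (Bf D e.2) S) :
    wav D r e.1 (prt G (cone D e)) ζ ∩ Bf D e.2 = S := by
  have d := H.dec_ch he
  have hw := isWave_wav (D := D) (r := r) e.1 (prt G (cone D e)) ζ
  set W := wav D r e.1 (prt G (cone D e)) ζ with hW
  have hxB : e.2 ∈ Bf D e.2 := H.self_mem_Bf _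
  have hSB : S ⊆ Bf D e.2 := by
    rcases hS with rfl | ⟨h, hh, -, rfl⟩
    · intro z hz
      rw [Finset.mem_singleton] at hz
      rw [hz]; exact hxB
    · intro z hz
      simp only [Finset.mem_insert, Finset.mem_singleton] at hz
      rcases hz with hz | hz
      · rw [hz]; exact hxB
      · rw [hz]; exact hh
  have hxS : e.2 ∈ S := by
    rcases hS with rfl | ⟨h, hh, -, rfl⟩
    · exact Finset.mem_singleton_self _
    · exact Finset.mem_insert_self _ _
  have hBG : ∀ z ∈ Bf D e.2, z ∈ prt G (cone D e) := fun z hz => mem_prt.2 ⟨hG hz, d.sub z hz⟩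
  have hval : ∀ z ∈ Bf D e.2, ζ z = chS D r (Bf D e.2) S z := by
    intro z hz
    rw [← hχ, rs_mem hz]
  have hvalS : ∀ z ∈ S, ζ z = r := by
    intro z hz
    rw [hval z (hSB hz)]
    simp [chS, hSB hz, hz]
  have hconf := (mem_Rc.1 hζ).1
  -- the wave contains `S`
  have hxW : e.2 ∈ W := by
    by_contra hcon
    have h1 := hw.blk e.2 (hBG _ hxB) hcon
    rw [hvalS _ hxS] at h1
    have h2 : dg D e.2 {e.1} ≤ dg D e.2 (insert e.1 W) := dg_mono (by simp)
    rw [dg_singleton] at h2
    simp only [he.1.symm, if_true] at h2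
    omega
  have hSW : S ⊆ W := by
    rcases hS with hS | ⟨h, hh, hadj, hS⟩
    · rw [hS]
      intro z hz
      rw [Finset.mem_singleton] at hz
      rw [hz]; exact hxW
    · rw [hS]
      intro z hz
      simp only [Finset.mem_insert, Finset.mem_singleton] at hz
      rcases hz with hz | hz
      · rw [hz]; exact hxW
      · rw [hz]
        by_contra hcon
        have h1 := hw.blk h (hBG _ hh) hcon
        rw [hvalS h (by rw [hS]; simp)] at h1
        have h2 : dg D h {e.2} ≤ dg D h (insert e.1 W) := dg_mono (by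
          intro w hw'
          rw [Finset.mem_singleton] at hw'
          rw [hw']; exact Finset.mem_insert_of_mem hxW)
        rw [dg_singleton] at h2
        simp only [hadj.symm, if_true] at h2
        omega
  -- the wave is contained in `S` and the cones with tail in `S`
  set W' : Finset V := (prt G (cone D e)).filter (fun z => z ∈ S ∨ ∃ c ∈ ch D e, c.1 ∈ S ∧ z ∈ cone D c) with hW'
  have hWW' : W ⊆ W' := by
    refine hw.subset_of ?_
    intro y hy hyW'
    have hyS : y ∉ S := fun h => hyW' (Finset.mem_filter.2 ⟨hy, Or.inl h⟩)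
    have hyc : ∀ c ∈ ch D e, c.1 ∈ S → y ∉ cone D c :=
      fun c hc hcS h => hyW' (Finset.mem_filter.2 ⟨hy, Or.inr ⟨c, hc, hcS, h⟩⟩)
    have hycone : y ∈ cone D e := (mem_prt.1 hy).2
    have hyx : y ≠ e.2 := fun h => hyS (h ▸ hxS)
    have hyv : ¬ D.Adj y e.1 := fun h => hyx ((src_adj he hycone).1 h.symm)
    by_cases hyB : y ∈ Bf D e.2
    · have h1 : dg D y (insert e.1 W') ≤ dg D y S := by
        unfold dg
        refine Finset.card_le_card ?_
        intro w hw'
        rw [Finset.mem_filter] at hw' ⊢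
        refine ⟨?_, hw'.2⟩
        rcases Finset.mem_insert.1 hw'.1 with h | h
        · exact absurd (h ▸ hw'.2) hyv
        · rcases (Finset.mem_filter.1 h).2 with h | ⟨c, hc, hcS, h⟩
          · exact h
          · exfalso
            have h2 : y ∉ cone D c := fun h' => d.cdisj c hc y h' hyB
            obtain ⟨e1, -⟩ := cone_edge (d.br c hc) h2 h hw'.2
            exact hyS (e1 ▸ hcS)
      have h2 := hval y hyB
      simp only [chS, hyB, hyS, if_true, if_false] at h2
      have h3 := H.degLe y S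
      omega
    · obtain ⟨c, hc, hyc'⟩ : ∃ c ∈ ch D e, y ∈ cone D c := by
        rcases d.cov y hycone with h | h
        · exact absurd h hyB
        · exact h
      have hcS : c.1 ∉ S := fun h => hyc c hc h hyc'
      have h1 : dg D y (insert e.1 W') = 0 := by
        refine dg_eq_zero ?_
        intro w hw' hadj
        rcases Finset.mem_insert.1 hw' with h | h
        · exact hyv (h ▸ hadj)
        · rcases (Finset.mem_filter.1 h).2 with h | ⟨c', hc', hcS', h⟩
          · have h2 : w ∉ cone D c := fun h' => d.cdisj c hc w h' (hSB h)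
            obtain ⟨e1, -⟩ := cone_edge (d.br c hc) h2 hyc' hadj.symm
            exact hcS (e1 ▸ h)
          · have hne : c ≠ c' := fun h' => hcS (h' ▸ hcS')
            have h2 : w ∉ cone D c := fun h' => Set.disjoint_left.1 (d.pair c hc c' hc' hne) h' h
            obtain ⟨e1, -⟩ := cone_edge (d.br c hc) h2 hyc' hadj.symm
            exact d.cdisj c' hc' w h (e1 ▸ d.fst c hc)
      have h2 := (hconf.1 y hy).2
      omega
  refine Finset.Subset.antisymm ?_ (Finset.subset_inter hSW hSB)
  intro z hz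
  rw [Finset.mem_inter] at hz
  rcases (Finset.mem_filter.1 (hWW' hz.1)).2 with h | ⟨c, hc, -, h⟩
  · exact h
  · exact absurd hz.2 (d.cdisj c hc z h)

end Pool.Agent.Helper910
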