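import Mathlib
import Pool.Agent.Helper910.M5b

/-! The second wave loses mass (MP_4555f0_mp) -/

namespace Pool.Agent.Helper910

open Classical Finset Filter Topology

variable {V : Type*} {D : SimpleGraph V} [D.LocallyFinite] {r : ℕ}

/-- the second wave loses mass -/
noncomputable def Ctx.dl0 (H : Ctx D r) : ℝ := H.g0 ^ H.nn / (r : ℝ) ^ H.msz

theorem m5c_ue_le (H : Ctx D r) {e : V × V} (G : Finset V) (z : V) :
    ue D r e.1 (prt G (cone D e)) z ≤ ueL D r e z := by
  have := H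
  refine le_ciSup (f := fun G : Finset V => ue D r e.1 (prt G (cone D e)) z) ⟨1, ?_⟩ G
  rintro _ ⟨G, rfl⟩
  exact ue_le_one

omit [D.LocallyFinite] in
theorem m5c_pr_add {G : Finset V} {P Q R : (V → ℕ) → Prop}
    (hPR : ∀ ζ ∈ Rc D r G, P ζ → R ζ) (hQR : ∀ ζ ∈ Rc D r G, Q ζ → R ζ)
    (hPQ : ∀ ζ ∈ Rc D r G, P ζ → Q ζ → False) : pr D r G P + pr D r G Q ≤ pr D r G R := by
  unfold pr
  rw [← add_div]
  refine div_le_div_of_nonneg_right ?_ (Nat.cast_nonneg _)
  have h1 : ((Rc D r G).filter P).card + ((Rc D r G).filter Q).card ≤ ((Rc D r G).filter R).card := by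
    rw [← Finset.card_union_of_disjoint]
    · refine Finset.card_le_card ?_
      intro ζ hζ
      rw [Finset.mem_union, Finset.mem_filter, Finset.mem_filter] at hζ
      rw [Finset.mem_filter]
      rcases hζ with h | h
      · exact ⟨h.1, hPR ζ h.1 h.2⟩
      · exact ⟨h.1, hQR ζ h.1 h.2⟩
    · rw [Finset.disjoint_left]
      intro ζ h1 h2
      rw [Finset.mem_filter] at h1 h2
      exact hPQ ζ h1.1 h1.2 h2.2
  exact_mod_cast h1

omit [D.LocallyFinite] in
theorem m5c_pr_mono {G : Finset V} {P R : (V → ℕ) → Prop}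
    (hPR : ∀ ζ ∈ Rc D r G, P ζ → R ζ) : pr D r G P ≤ pr D r G R := by
  unfold pr
  refine div_le_div_of_nonneg_right ?_ (Nat.cast_nonneg _)
  have h1 : ((Rc D r G).filter P).card ≤ ((Rc D r G).filter R).card := by
    refine Finset.card_le_card ?_
    intro ζ hζ
    rw [Finset.mem_filter] at hζ ⊢
    exact ⟨hζ.1, hPR ζ hζ.1 hζ.2⟩
  exact_mod_cast h1

omit [D.LocallyFinite] in
theorem m5c_pr_ue {v : V} {G : Finset V} {z : V} (hz : z ≠ v) :
    pr D r G (fun ζ => z ∈ wav D r v G ζ) = ue D r v G z := by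
  rw [ue_ne hz]
  unfold pr cnt
  congr!

/-- the gate without the source -/
theorem m5c_gate (H : Ctx D r) (G : Finset V) {e c : V × V} (he : BD D e.1 e.2) (hc : c ∈ ch D e) :
    Gate D (rst D G e c) (prt G (cone D c)) c.1 c.2 :=
  gate_cone ((H.dec_ch he).br c hc)

theorem m5c_mem (H : Ctx D r) (G : Finset V) {e c : V × V} (he : BD D e.1 e.2) (hc : c ∈ ch D e)
    {ζ : V → ℕ} (hζ : ζ ∈ Rc D r (prt G (cone D e))) {z : V} (hz : z ∈ rst D G e c) :
    z ∈ wav D r e.1 (prt G (cone D e)) ζ ↔ z ∈ wav D r e.1 (rst D G e c) (rs (rst D G e c) ζ) := by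
  obtain ⟨-, h2, h3, h4, h5⟩ := H.gate_child G he hc
  have hcb := (H.dec_ch he).br c hc
  have g := m5c_gate H G he hc
  have hev : e.1 ∉ prt G (cone D e) := src_notMem he
  have hv2 : e.1 ∉ prt G (cone D c) := by
    intro h
    apply hev
    rw [← h2]; exact Finset.mem_union_right _ h
  have hvG : ∀ b ∈ prt G (cone D c), ¬ D.Adj e.1 b := by
    intro b hb hab
    have hbe : b ∈ cone D e := (H.dec_ch he).csub c hc (mem_prt.1 hb).2
    have := (src_adj he hbe).1 hab
    subst this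
    exact h4 hb
  have hle : ∀ z ∈ prt G (cone D c), ζ z ≤ r := by
    intro z hz
    refine ((mem_Rc.1 hζ).1.1 z ?_).2
    rw [← h2]; exact Finset.mem_union_right _ hz
  have key := g.mem_wav1 (v := e.1) h3 hv2 hvG hle hz
  rw [h2] at key
  rw [key, wav_congr (G := rst D G e c) (ζ := ζ) (ζ' := rs (rst D G e c) ζ) (fun y hy => (rs_mem hy).symm)]

theorem m5c_child_mem (H : Ctx D r) (G : Finset V) {e c : V × V} (he : BD D e.1 e.2) (hc : c ∈ ch D e)
    (hG : Bf D e.2 ⊆ G) : c.1 ∈ rst D G e c := by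
  have hd := H.dec_ch he
  have h1 := hd.fst c hc
  rw [rst, mem_prt]
  exact ⟨hG h1, hd.sub _ h1, fun h => hd.cdisj c hc _ h h1⟩

theorem m5c_mu2_le (H : Ctx D r) {G : Finset V} {e c : V × V} (he : BD D e.1 e.2) (hc : c ∈ ch D e)
    (hG : Bf D e.2 ⊆ G) : mu2 D r G e c ≤ ue D r e.1 (prt G (cone D e)) c.1 := by
  obtain ⟨-, h2, h3, h4, h5⟩ := H.gate_child G he hc
  rw [← m5c_pr_ue (D := D) (r := r) (G := prt G (cone D e)) (z := c.1) (v := e.1) h5.symm]
  refine m5c_pr_mono ?_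
  intro ζ hζ ht
  exact (m5c_mem H G he hc hζ (m5c_child_mem H G he hc hG)).2 ht.1

/-- the second wave does not start -/
theorem m5c_excl (H : Ctx D r) {G : Finset V} {e c : V × V} (he : BD D e.1 e.2) (hc : c ∈ ch D e)
    (hG : Bf D e.2 ⊆ G) (hadj : D.Adj e.2 c.1) {ζ : V → ℕ} (hζ : ζ ∈ Rc D r (prt G (cone D e)))
    (hχ : rs (Bf D e.2) ζ = chS D r (Bf D e.2) {e.2, c.1})
    (ht : TwoFull D r G e c (rs (rst D G e c) ζ)) : False := by
  obtain ⟨-, h2, h3, h4, h5⟩ := H.gate_child G he hc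
  have hd := H.dec_ch he
  have hcb := hd.br c hc
  have hcB : c.1 ∈ Bf D e.2 := hd.fst c hc
  have hxB : e.2 ∈ Bf D e.2 := H.self_mem_Bf e.2
  have hxc : e.2 ≠ c.1 := hadj.ne
  set G1 := rst D G e c with hG1
  set ζ1 := rs G1 ζ with hζ1
  have hcG1 : c.1 ∈ G1 := m5c_child_mem H G he hc hG
  have hG1e : G1 ⊆ prt G (cone D e) := by rw [← h2]; exact Finset.subset_union_left
  have hBG1 : Bf D e.2 ⊆ G1 := by
    intro z hz
    rw [hG1, rst, mem_prt]
    exact ⟨hG hz, hd.sub z hz, fun h => hd.cdisj c hc z h hz⟩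
  have hxG1 : e.2 ∈ G1 := hBG1 hxB
  have hζ1R : ζ1 ∈ Rc D r G1 := rs_mem_Rc hG1e hζ
  set W := wav D r e.1 G1 ζ1 with hW
  have hWs : W ⊆ G1 := (isWave_wav e.1 G1 ζ1).sub
  have hWB : ∀ z ∈ Bf D e.2, z ∈ W → z = e.2 ∨ z = c.1 := by
    intro z hz hzW
    have h6 : z ∈ wav D r e.1 (prt G (cone D e)) ζ := (m5c_mem H G he hc hζ (hBG1 hz)).2 hzW
    have h7 := H.wav_chS he hG (S := {e.2, c.1}) (Or.inr ⟨c.1, hcB, hadj, rfl⟩) hζ hχ
    have h8 : z ∈ wav D r e.1 (prt G (cone D e)) ζ ∩ Bf D e.2 := Finset.mem_inter.2 ⟨h6, hz⟩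
    rw [h7] at h8
    simpa using h8
  have hevW : e.1 ∉ W := fun h => h3 (hWs h)
  -- the height at `x` after the first wave
  have hxW : e.2 ∈ W := by
    have h7 := H.wav_chS he hG (S := {e.2, c.1}) (Or.inr ⟨c.1, hcB, hadj, rfl⟩) hζ hχ
    have h8 : e.2 ∈ wav D r e.1 (prt G (cone D e)) ζ ∩ Bf D e.2 := by rw [h7]; simp
    exact (m5c_mem H G he hc hζ hxG1).1 (Finset.mem_inter.1 h8).1
  have hcW : c.1 ∈ W := ht.1
  have hval : ∀ z ∈ Bf D e.2, z ∈ ({e.2, c.1} : Finset V) → ζ1 z = r := by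
    intro z hz hzS
    have h6 := congrFun hχ z
    rw [rs_mem hz, chS, if_pos hz, if_pos hzS] at h6
    rw [hζ1, rs_mem (hBG1 hz), h6]
  have hdx : dg D e.2 (insert e.1 W) ≤ H.jb + 1 := by
    have hsub : (insert e.1 W).filter (fun w => D.Adj e.2 w) ⊆
        insert c.1 ((br D e.2).image Prod.snd) := by
      intro w hw
      rw [Finset.mem_filter] at hw
      rw [Finset.mem_insert, Finset.mem_image]
      by_cases hwB : w ∈ Bf D e.2
      · left
        rcases Finset.mem_insert.1 hw.1 with h | h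
        · exfalso
          rw [h] at hwB
          exact blk_bridge (self_mem_blk e.2) he.symm (H.mem_Bf.1 hwB)
        · rcases hWB w hwB h with h' | h'
          · exfalso
            rw [h'] at hw
            exact hw.2.ne rfl
          · exact h'
      · right
        refine ⟨(e.2, w), ?_, rfl⟩
        rw [br, Finset.mem_filter]
        refine ⟨?_, rfl⟩
        rw [H.bdr_Bf_iff]
        exact ⟨self_mem_blk _, blk_exit e.2 e.2 (self_mem_blk _) w (fun h => hwB (H.mem_Bf.2 h)) hw.2⟩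
    have h6 := Finset.card_le_card hsub
    have h7 := Finset.card_insert_le c.1 ((br D e.2).image Prod.snd)
    have h8 : ((br D e.2).image Prod.snd).card ≤ (br D e.2).card := Finset.card_image_le
    rw [H.card_br_eq] at h8
    unfold dg
    omega
  have hsx : stp D r e.1 G1 ζ1 e.2 + 1 ≤ r := by
    have h6 := stp_wav (D := D) (r := r) (v := e.1) (G := G1) (ζ := ζ1) (z := e.2) hxW
    rw [hval e.2 hxB (by simp), ← hW] at h6
    have h7 := H.jb_le
    omega
  have hsc : stp D r e.1 G1 ζ1 c.1 + 1 ≤ r := by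
    have h6 := stp_wav (D := D) (r := r) (v := e.1) (G := G1) (ζ := ζ1) (z := c.1) hcW
    rw [hval c.1 hcB (by simp), ← hW] at h6
    have hc2 : c.2 ∉ insert e.1 W := by
      rw [Finset.mem_insert, not_or]
      constructor
      · intro h
        apply fst_notMem_cone he
        rw [← h]
        exact hd.csub c hc (snd_mem_cone c)
      · intro h
        have := hWs h
        rw [hG1, rst, mem_prt] at this
        exact this.2.2 (snd_mem_cone c)
    have h7 := H.degLe c.1 (insert c.2 (insert e.1 W))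
    rw [dg_insert hc2, if_pos hcb.1] at h7
    omega
  have hconf := stp_config (D := D) (r := r) H.degLe (v := e.1) (mem_Rc.1 hζ1R).1
  have hempty : wav D r e.1 G1 (fun z => stp D r e.1 G1 ζ1 z + dl c.1 z) = ∅ := by
    refine IsWave.eq_wav ⟨Finset.empty_subset _, ?_, ?_⟩
    · intro y hy _
      rw [insert_empty_eq, dg_singleton]
      have hyc : y ∈ cone D e := (mem_prt.1 (hG1e hy)).2
      have hle := (hconf.1 y hy).2
      by_cases hyx : y = e.2
      · subst hyx
        have h8 : dl c.1 e.2 = 0 := by simp [dl, hxc]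
        rw [h8]
        split_ifs <;> omega
      · have h9 : ¬ D.Adj y e.1 := fun h => hyx ((src_adj he hyc).1 h.symm)
        rw [if_neg h9]
        by_cases hyc1 : y = c.1
        · subst hyc1
          have h8 : dl c.1 c.1 = 1 := by simp [dl]
          rw [h8]
          omega
        · have h8 : dl c.1 y = 0 := by simp [dl, hyc1]
          rw [h8]
          omega
    · intro X hX hne
      exfalso
      rw [Finset.subset_empty] at hX
      rw [hX] at hne
      exact Finset.not_nonempty_empty hne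
  have h10 := ht.2
  rw [← hG1, hempty] at h10
  exact Finset.notMem_empty _ h10

/-- TARGET. Plain proof: let `h ~ x` be a neighbour in the block, `c0` a child with tail `h`. `mu2 c ≤ ue e.1 G_e c.1` for every child (`TwoFull` implies
`c.1 ∈ wav e.1 G1 (rs G1 ζ)`, i.e. `c.1 ∈ wav e.1 G_e ζ` by `Gate.mem_wav1`), and for `c0` the two sets `{TwoFull c0}` and `{rs B ζ = chS B {x,h}}` are disjoint subsets of
`{h ∈ wav ζ}`: if `rs B ζ = chS B {x, h}` then after the first wave on `G1 = rst G e c0` the height of `x` is at most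
`r - r + 1 (from v) + 1 (from h) + (jb - 1)`(other cones at `x`) and even with one more grain at `h` the vertex `x` does not topple in the second wave
(`jb + 2 ≤ r`), so that the second wave is empty (`x` is the only neighbour of `v`). Then `∑_c ue ≤ ∑_c ueL = 1` (`Ctx.critical`, monotonicity), and
the mass of `{rs B ζ = chS}` is at least `dl0` by `Ctx.pr_ge`. -/
theorem Ctx.mu2_sum (H : Ctx D r) {G : Finset V} {e : V × V} (he : BD D e.1 e.2) (hG : Bf D e.2 ⊆ G) :
    ∑ c ∈ ch D e, mu2 D r G e c ≤ 1 - H.dl0 := by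
  have hd := H.dec_ch he
  -- a neighbour in the block and a child at it
  obtain ⟨h, -, -, hxh, -, hhb, -⟩ := H.two_nbrs e.2
  obtain ⟨y, hy⟩ := H.bridge_at h
  have hhB : h ∈ Bf D e.2 := H.mem_Bf.2 hhb
  set c0 : V × V := (h, y) with hc0
  have hc0m : c0 ∈ ch D e := by
    rw [H.mem_ch]
    refine ⟨?_, hhb, hy⟩
    intro h1
    have h2 : h = e.2 := (Prod.mk.inj h1).1
    exact hxh.ne h2.symm
  obtain ⟨-, g2, g3, g4, g5⟩ := H.gate_child G he hc0m
  have hχm : chS D r (Bf D e.2) {e.2, h} ∈ Rc D r (Bf D e.2) := by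
    have h1 := H.chS_mem hhB hxh ∅ (Finset.empty_subset _) (by simp)
    have h2 : wI (V := V) ∅ = 0 := by
      funext z
      simp [wI]
    rw [h2] at h1
    exact h1
  have hlow : H.dl0 ≤ pr D r (prt G (cone D e)) (fun ζ => rs (Bf D e.2) ζ = chS D r (Bf D e.2) {e.2, h}) := by
    have h1 := H.pr_ge hd hG _ hχm
    rw [H.card_ch_eq he, H.card_Bf_eq] at h1
    exact h1
  have hc0le : mu2 D r G e c0 + H.dl0 ≤ ue D r e.1 (prt G (cone D e)) c0.1 := by
    refine (add_le_add_right hlow _).trans ?_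
    rw [← m5c_pr_ue (D := D) (r := r) (G := prt G (cone D e)) (z := c0.1) (v := e.1) g5.symm]
    refine m5c_pr_add ?_ ?_ ?_
    · intro ζ hζ ht
      exact (m5c_mem H G he hc0m hζ (m5c_child_mem H G he hc0m hG)).2 ht.1
    · intro ζ hζ hχ
      have h7 := H.wav_chS he hG (S := {e.2, h}) (Or.inr ⟨h, hhB, hxh, rfl⟩) hζ hχ
      have h8 : h ∈ wav D r e.1 (prt G (cone D e)) ζ ∩ Bf D e.2 := by rw [h7]; simp
      exact (Finset.mem_inter.1 h8).1
    · intro ζ hζ ht hχ
      exact m5c_excl H he hc0m hG hxh hζ hχ ht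
  have hsum : ∑ c ∈ ch D e, mu2 D r G e c + H.dl0 ≤ ∑ c ∈ ch D e, ue D r e.1 (prt G (cone D e)) c.1 := by
    rw [← Finset.add_sum_erase _ _ hc0m, ← Finset.add_sum_erase _ _ hc0m]
    have h1 : ∑ c ∈ (ch D e).erase c0, mu2 D r G e c ≤
        ∑ c ∈ (ch D e).erase c0, ue D r e.1 (prt G (cone D e)) c.1 :=
      Finset.sum_le_sum (fun c hc => m5c_mu2_le H he (Finset.mem_of_mem_erase hc) hG)
    linarith
  have h1 : ∑ c ∈ ch D e, ue D r e.1 (prt G (cone D e)) c.1 ≤ ∑ c ∈ ch D e, ueL D r e c.1 :=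
    Finset.sum_le_sum (fun c _ => m5c_ue_le H G c.1)
  rw [H.critical he] at h1
  linarith

end Pool.Agent.Helper910
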