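import Mathlib
import Pool.Agent.Helper910.M5c

/-! Product formula over the children (MP_4555f0_mp) -/

namespace Pool.Agent.Helper910

open Classical Finset Filter Topology

variable {V : Type*} {D : SimpleGraph V} [D.LocallyFinite] {r : ℕ}


/-- the block of `e.2` does not meet the cone of a child -/
theorem m6a_notMem (H : Ctx D r) {e c : V × V} (he : BD D e.1 e.2) (hc : c ∈ ch D e) {z : V}
    (hz : z ∈ cone D c) : z ∉ Bf D e.2 := (H.dec_ch he).cdisj c hc z hz

/-- the wave on the block does not depend on the cone of a child -/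
theorem m6a_wav (H : Ctx D r) (G : Finset V) {e c : V × V} (he : BD D e.1 e.2) (hc : c ∈ ch D e)
    {ζ : V → ℕ} (hζ : ζ ∈ Rc D r (prt G (cone D e))) :
    wav D r e.1 (prt G (cone D e)) ζ ∩ Bf D e.2 =
      wav D r e.1 (rst D G e c) (rs (rst D G e c) ζ) ∩ Bf D e.2 := by
  have d := H.dec_ch he
  have hcb : BD D c.1 c.2 := d.br c hc
  have g : Gate D (rst D G e c) (prt G (cone D c)) c.1 c.2 := gate_cone hcb
  have hU : rst D G e c ∪ prt G (cone D c) = prt G (cone D e) := prt_union (d.csub c hc)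
  have hv : e.1 ∉ prt G (cone D e) := src_notMem he
  have hv1 : e.1 ∉ rst D G e c := fun h => hv (hU ▸ Finset.mem_union_left _ h)
  have hv2 : e.1 ∉ prt G (cone D c) := fun h => hv (hU ▸ Finset.mem_union_right _ h)
  have hvG : ∀ b ∈ prt G (cone D c), ¬ D.Adj e.1 b := by
    intro b hb hadj
    have hbc : b ∈ cone D c := (mem_prt.1 hb).2
    have h1 := (src_adj he (d.csub c hc hbc)).1 hadj
    exact m6a_notMem H he hc hbc (h1 ▸ H.self_mem_Bf e.2)
  have hζr : ∀ z ∈ prt G (cone D c), ζ z ≤ r := by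
    intro z hz
    exact ((mem_Rc.1 hζ).1.1 z (hU ▸ Finset.mem_union_right _ hz)).2
  have e1 : wav D r e.1 (rst D G e c) (rs (rst D G e c) ζ) = wav D r e.1 (rst D G e c) ζ :=
    wav_congr (fun y hy => rs_mem hy)
  rw [e1, ← hU, g.wav_union hv1 hv2 hvG hζr, Finset.union_inter_distrib_right]
  have e2 : (if c.1 ∈ wav D r e.1 (rst D G e c) ζ then wav D r c.1 (prt G (cone D c)) ζ else ∅) ∩
      Bf D e.2 = ∅ := by
    rw [← Finset.disjoint_iff_inter_eq_empty, Finset.disjoint_left]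
    intro z hz
    split_ifs at hz with h
    · have h1 := (isWave_wav c.1 (prt G (cone D c)) ζ).sub hz
      exact m6a_notMem H he hc (mem_prt.1 h1).2
    · simp at hz
  rw [e2, Finset.union_empty]

theorem m6a_rs_rs {G1 G2 : Finset V} (h : G2 ⊆ G1) (ζ : V → ℕ) : rs G2 (rs G1 ζ) = rs G2 ζ := by
  funext z
  by_cases hz : z ∈ G2
  · rw [rs_mem hz, rs_mem hz, rs_mem (h hz)]
  · rw [rs_notMem hz, rs_notMem hz]

/-- one step of the induction -/
theorem m6a_step (H : Ctx D r) (G : Finset V) {e : V × V} (he : BD D e.1 e.2) (S : Finset V)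
    {M : Type*} [CommRing M] (f : V × V → (V → ℕ) → M) (A : Finset (V × V)) (hA : A ⊆ ch D e)
    {c : V × V} (hc : c ∈ ch D e) (hcS : c.1 ∈ S) (hcA : c ∉ A) (F : (V → ℕ) → M) :
    ∑ ζ ∈ (Rc D r (prt G (cone D e))).filter (fun ζ => wav D r e.1 (prt G (cone D e)) ζ ∩ Bf D e.2 = S),
        (F (rs (prt G (cone D c)) ζ) * ∏ c' ∈ A, f c' (rs (prt G (cone D c')) ζ)) =
      (∑ ζ1 ∈ Rc D r (rst D G e c), (if wav D r e.1 (rst D G e c) ζ1 ∩ Bf D e.2 = S then
        ∏ c' ∈ A, f c' (rs (prt G (cone D c')) ζ1) else 0)) *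
      ∑ ζ2 ∈ Rc D r (prt G (cone D c)), F ζ2 := by
  have d := H.dec_ch he
  have hcb : BD D c.1 c.2 := d.br c hc
  have g : Gate D (rst D G e c) (prt G (cone D c)) c.1 c.2 := gate_cone hcb
  have hU : rst D G e c ∪ prt G (cone D c) = prt G (cone D e) := prt_union (d.csub c hc)
  have hv : e.1 ∉ prt G (cone D e) := src_notMem he
  have hv1 : e.1 ∉ rst D G e c := fun h => hv (hU ▸ Finset.mem_union_left _ h)
  have hvy : e.1 ≠ c.2 := by
    intro h
    have h1 : c.2 ∈ cone D e := d.csub c hc (snd_mem_cone c)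
    rw [← h] at h1
    exact fst_notMem_cone he h1
  have hsub : ∀ c' ∈ A, prt G (cone D c') ⊆ rst D G e c := by
    intro c' hc' z hz
    have hc'e : c' ∈ ch D e := hA hc'
    have hne : c' ≠ c := fun h => hcA (h ▸ hc')
    rw [rst, mem_prt]
    rw [mem_prt] at hz
    exact ⟨hz.1, d.csub c' hc'e hz.2, Set.disjoint_left.1 (d.pair c' hc'e c hc hne) hz.2⟩
  have key := sum_pull (r := r) g H.degLe hv1 hvy
    (fun ζ1 => if wav D r e.1 (rst D G e c) ζ1 ∩ Bf D e.2 = S then
        ∏ c' ∈ A, f c' (rs (prt G (cone D c')) ζ1) else 0) F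
    (by
      intro ζ1 _ hh
      have : ¬ (wav D r e.1 (rst D G e c) ζ1 ∩ Bf D e.2 = S) := by
        intro h
        exact hh (Finset.mem_inter.1 (h.symm ▸ hcS)).1
      simp only [this, if_false])
  rw [← key, hU, Finset.sum_filter]
  refine Finset.sum_congr rfl ?_
  intro ζ hζ
  rw [m6a_wav H G he hc hζ]
  split_ifs with h
  · rw [mul_comm]
    congr 1
    refine Finset.prod_congr rfl ?_
    intro c' hc'
    rw [m6a_rs_rs (hsub c' hc')]
  · rw [zero_mul]

/-- TARGET. product formula. Induction on `A`: for `c ∈ A` apply `sum_pull` at the gate `rst D G e c`, `prt G (cone D c)`, with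
`Φ ζ1 = [wav e.1 G1 ζ1 ∩ B = S] * ∏_{c' ∈ A, c' ≠ c} f c' (rs G_c' ζ1)` (it vanishes unless `c.1 ∈ wav`, as `c.1 ∈ S`), once with `f c` and once with `f = 1`.
(`wav e.1 G_e ζ ∩ B = wav e.1 G1 (rs G1 ζ) ∩ B` by `Gate.mem_wav1`, `wav_congr`.) -/
theorem Ctx.prod_formula (H : Ctx D r) (G : Finset V) {e : V × V} (he : BD D e.1 e.2) (S : Finset V)
    {M : Type*} [CommRing M] (f : V × V → (V → ℕ) → M) (A : Finset (V × V)) (hA : A ⊆ (ch D e).filter (fun c => c.1 ∈ S)) :
    (∑ ζ ∈ (Rc D r (prt G (cone D e))).filter (fun ζ => wav D r e.1 (prt G (cone D e)) ζ ∩ Bf D e.2 = S),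
        ∏ c ∈ A, f c (rs (prt G (cone D c)) ζ)) * ∏ c ∈ A, ((Rc D r (prt G (cone D c))).card : M) =
      ((((Rc D r (prt G (cone D e))).filter (fun ζ => wav D r e.1 (prt G (cone D e)) ζ ∩ Bf D e.2 = S)).card : ℕ) : M) *
        ∏ c ∈ A, ∑ ζ ∈ Rc D r (prt G (cone D c)), f c ζ := by
  induction A using Finset.induction_on with
  | empty => simp
  | insert c A hcA ih =>
    have hA' : A ⊆ (ch D e).filter (fun c => c.1 ∈ S) := (Finset.subset_insert c A).trans hA
    have hc := hA (Finset.mem_insert_self c A)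
    rw [Finset.mem_filter] at hc
    have hAch : A ⊆ ch D e := fun x hx => (Finset.mem_filter.1 (hA' hx)).1
    have ih' := ih hA'
    have s1 := m6a_step H G he S f A hAch hc.1 hc.2 hcA (f c)
    have s2 := m6a_step H G he S f A hAch hc.1 hc.2 hcA (fun _ => (1 : M))
    simp only [one_mul, Finset.sum_const, nsmul_eq_mul, mul_one] at s2
    simp only [Finset.prod_insert hcA]
    rw [s1]
    rw [s2] at ih'
    linear_combination (∑ ζ ∈ Rc D r (prt G (cone D c)), f c ζ) * ih'

end Pool.Agent.Helper910
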