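import Mathlib
import Pool.Agent.Helper910.M6a

/-! Exponential moments of the generations (MP_4555f0_mp) -/

namespace Pool.Agent.Helper910

open Classical Finset Filter Topology

variable {V : Type*} {D : SimpleGraph V} [D.LocallyFinite] {r : ℕ}

/-- number of darts of generation `l` below `e` whose tail is reached by the wave of `ζ` -/
noncomputable def Zg (D : SimpleGraph V) [D.LocallyFinite] (r : ℕ) (G : Finset V) : ℕ → V × V → (V → ℕ) → ℕ
  | 0, _, _ => 1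
  | l + 1, e, ζ => ∑ c ∈ (ch D e).filter (fun c => c.1 ∈ wav D r e.1 (prt G (cone D e)) ζ),
      Zg D r G l c (rs (prt G (cone D c)) ζ)

/-- the bounds for the exponential moments -/
noncomputable def yy (N : ℕ) : ℕ → ℝ
  | 0 => 2
  | l + 1 => 1 + (yy N l ^ N - 1) / N

/-- convexity estimate -/
theorem m6b_conv {y : ℝ} (hy : 1 ≤ y) (k : ℕ) : ∀ N : ℕ, k ≤ N → (N : ℝ) * (y ^ k - 1) ≤ k * (y ^ N - 1) := by
  intro N hN
  induction N, hN using Nat.le_induction with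
  | base => exact le_refl _
  | succ N hN ih =>
    have hy0 : (0 : ℝ) ≤ y := by linarith
    -- y ^ k - 1 ≤ k * y ^ k * (y - 1)
    have h1 : ∀ k : ℕ, y ^ k - 1 ≤ k * y ^ k * (y - 1) := by
      intro k
      induction k with
      | zero => simp
      | succ k ihk =>
        have h2 : (1 : ℝ) ≤ y ^ k := one_le_pow₀ hy
        have h3 : (0 : ℝ) ≤ (k : ℝ) * y ^ k * (y - 1) * (y - 1) := by
          have : (0 : ℝ) ≤ y - 1 := by linarith
          positivity
        push_cast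
        rw [pow_succ]
        have h4 : (0 : ℝ) ≤ y ^ k * (y - 1) * (y - 1) := by
          have : (0 : ℝ) ≤ y - 1 := by linarith
          positivity
        nlinarith
    have h2 : y ^ k ≤ y ^ N := pow_le_pow_right₀ hy hN
    have h3 : (k : ℝ) * y ^ k * (y - 1) ≤ k * y ^ N * (y - 1) := by
      have h4 : (0 : ℝ) ≤ y - 1 := by linarith
      have h5 : (0 : ℝ) ≤ k := Nat.cast_nonneg _
      exact mul_le_mul_of_nonneg_right (mul_le_mul_of_nonneg_left h2 h5) h4
    have h4 := h1 k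
    push_cast
    rw [pow_succ]
    nlinarith

theorem m6b_yy_ge {N : ℕ} (hN : 1 ≤ N) (l : ℕ) : 2 ≤ yy N l := by
  induction l with
  | zero => simp [yy]
  | succ l ih =>
    have h := m6b_conv (y := yy N l) (by linarith) 1 N hN
    have hN' : (0 : ℝ) < N := by exact_mod_cast hN
    have h2 : yy N l - 1 ≤ (yy N l ^ N - 1) / N := by
      rw [le_div_iff₀ hN']
      push_cast at h
      linarith
    show 2 ≤ 1 + (yy N l ^ N - 1) / N
    linarith

omit [D.LocallyFinite] in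
theorem m6b_cnt {v : V} {G : Finset V} {z : V} :
    (cnt D r v G z : ℝ) = ∑ ζ ∈ Rc D r G, if z ∈ wav D r v G ζ then (1 : ℝ) else 0 := by
  rw [cnt, Finset.card_filter]
  push_cast
  rfl

/-- TARGET. By induction on `l`, for all `G` and `e`:
`E_e 2^(Z_(l+1)) = ∑_S P(W ∩ B = S) ∏_{c ∈ ch e, c.1 ∈ S} E_c 2^(Z_l) ≤ ∑_S P(W ∩ B = S) (yy l)^(#{c ∈ ch e, c.1 ∈ S})` by `Ctx.prod_formula`, then convexity:
`y^k ≤ 1 + k (y^N - 1)/N` for `0 ≤ k ≤ N`, `1 ≤ y`, and `∑_S P(W ∩ B = S) #{c ∈ ch e, c.1 ∈ S} = ∑_c ue e.1 G_e c.1 ≤ ∑_c ueL = 1` (`Ctx.critical`;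
`ue ≤ ueL` since `ueL` is the supremum/limit of the monotone `ue`). -/
theorem Ctx.exp_moment (H : Ctx D r) (G : Finset V) (l : ℕ) {e : V × V} (he : BD D e.1 e.2) :
    ex D r (prt G (cone D e)) (fun ζ => (2 : ℝ) ^ (Zg D r G l e ζ)) ≤ yy H.nn l := by
  induction l generalizing e with
  | zero =>
    unfold ex
    simp only [Zg, yy, pow_one, Finset.sum_const, nsmul_eq_mul]
    have h : ((Rc D r (prt G (cone D e))).card : ℝ) ≠ 0 := by
      have := H.card_Rc_pos (prt G (cone D e))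
      positivity
    rw [mul_comm, mul_div_assoc, div_self h, mul_one]
  | succ l ih =>
    set Ge := prt G (cone D e) with hGe
    set R := Rc D r Ge with hR
    set B := Bf D e.2 with hB
    set N := H.nn with hNdef
    have hN2 : 2 ≤ N := by
      have := H.two_le_ch he
      rw [H.card_ch_eq he] at this
      exact this
    have hNpos : (0 : ℝ) < N := by
      have : 0 < N := by omega
      exact_mod_cast this
    set y := yy N l with hy
    have hy2 : 2 ≤ y := m6b_yy_ge (by omega) l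
    have hRpos : (0 : ℝ) < (R.card : ℝ) := by exact_mod_cast H.card_Rc_pos Ge
    -- bound for one S
    have hS : ∀ S : Finset V, ∑ ζ ∈ R.filter (fun ζ => wav D r e.1 Ge ζ ∩ B = S), (2 : ℝ) ^ (Zg D r G (l + 1) e ζ) ≤
        ∑ ζ ∈ R.filter (fun ζ => wav D r e.1 Ge ζ ∩ B = S),
          (1 + (((ch D e).filter (fun c => c.1 ∈ S)).card : ℝ) * ((y ^ N - 1) / N)) := by
      intro S
      set A := (ch D e).filter (fun c => c.1 ∈ S) with hA
      have hPF := H.prod_formula G he S (M := ℝ) (fun c ζ => (2 : ℝ) ^ (Zg D r G l c ζ)) A (Finset.Subset.refl _)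
      rw [← hGe, ← hR, ← hB] at hPF
      have h1 : ∑ ζ ∈ R.filter (fun ζ => wav D r e.1 Ge ζ ∩ B = S), (2 : ℝ) ^ (Zg D r G (l + 1) e ζ) =
          ∑ ζ ∈ R.filter (fun ζ => wav D r e.1 Ge ζ ∩ B = S), ∏ c ∈ A, (2 : ℝ) ^ (Zg D r G l c (rs (prt G (cone D c)) ζ)) := by
        refine Finset.sum_congr rfl (fun ζ hζ => ?_)
        rw [Finset.mem_filter] at hζ
        have h2 : (ch D e).filter (fun c => c.1 ∈ wav D r e.1 Ge ζ) = A := by
          rw [hA]
          refine Finset.filter_congr (fun c hc => ?_)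
          rw [← hζ.2, Finset.mem_inter]
          have hcB : c.1 ∈ B := by
            rw [hB, H.mem_Bf]
            exact (H.mem_ch.1 hc).2.1
          exact ⟨fun h => ⟨h, hcB⟩, fun h => h.1⟩
        show (2 : ℝ) ^ (∑ c ∈ (ch D e).filter (fun c => c.1 ∈ wav D r e.1 (prt G (cone D e)) ζ),
          Zg D r G l c (rs (prt G (cone D c)) ζ)) = _
        rw [← hGe, h2, Finset.prod_pow_eq_pow_sum]
      have hPpos : (0 : ℝ) < ∏ c ∈ A, ((Rc D r (prt G (cone D c))).card : ℝ) := by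
        refine Finset.prod_pos (fun c _ => ?_)
        exact_mod_cast H.card_Rc_pos _
      have h3 : ∏ c ∈ A, ∑ ζ ∈ Rc D r (prt G (cone D c)), (2 : ℝ) ^ (Zg D r G l c ζ) ≤
          y ^ A.card * ∏ c ∈ A, ((Rc D r (prt G (cone D c))).card : ℝ) := by
        rw [← Finset.prod_const, ← Finset.prod_mul_distrib]
        refine Finset.prod_le_prod (fun c _ => Finset.sum_nonneg (fun ζ _ => by positivity)) (fun c hc => ?_)
        have hcb : BD D c.1 c.2 := (H.mem_ch.1 (Finset.mem_filter.1 hc).1).2.2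
        have h4 := ih hcb
        unfold ex at h4
        rw [div_le_iff₀ (by exact_mod_cast H.card_Rc_pos _)] at h4
        exact h4
      have h5 : ∑ ζ ∈ R.filter (fun ζ => wav D r e.1 Ge ζ ∩ B = S), (2 : ℝ) ^ (Zg D r G (l + 1) e ζ) ≤
          ((R.filter (fun ζ => wav D r e.1 Ge ζ ∩ B = S)).card : ℝ) * y ^ A.card := by
        rw [h1]
        refine le_of_mul_le_mul_right ?_ hPpos
        rw [hPF, mul_assoc]
        exact mul_le_mul_of_nonneg_left h3 (Nat.cast_nonneg _)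
      refine h5.trans ?_
      rw [Finset.sum_const, nsmul_eq_mul]
      refine mul_le_mul_of_nonneg_left ?_ (Nat.cast_nonneg _)
      have hAN : A.card ≤ N := by
        have h6 : A.card ≤ (ch D e).card := Finset.card_filter_le _ _
        rw [H.card_ch_eq he] at h6
        exact h6
      have h7 := m6b_conv (y := y) (by linarith) A.card N hAN
      have h8 : y ^ A.card - 1 ≤ (A.card : ℝ) * ((y ^ N - 1) / N) := by
        rw [← mul_div_assoc, le_div_iff₀ hNpos]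
        linarith
      linarith
    -- sum over S
    have hsum : ∀ f : (V → ℕ) → ℝ, ∑ ζ ∈ R, f ζ = ∑ S ∈ B.powerset, ∑ ζ ∈ R.filter (fun ζ => wav D r e.1 Ge ζ ∩ B = S), f ζ := by
      intro f
      refine (Finset.sum_fiberwise_of_maps_to (g := fun ζ => wav D r e.1 Ge ζ ∩ B) ?_ _).symm
      intro ζ _
      exact Finset.mem_powerset.2 Finset.inter_subset_right
    have hA : ∑ ζ ∈ R, (2 : ℝ) ^ (Zg D r G (l + 1) e ζ) ≤
        ∑ ζ ∈ R, (1 + (((ch D e).filter (fun c => c.1 ∈ wav D r e.1 Ge ζ)).card : ℝ) * ((y ^ N - 1) / N)) := by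
      rw [hsum, hsum]
      refine Finset.sum_le_sum (fun S _ => ?_)
      refine (hS S).trans (le_of_eq ?_)
      refine Finset.sum_congr rfl (fun ζ hζ => ?_)
      rw [Finset.mem_filter] at hζ
      congr 3
      congr 1
      refine Finset.filter_congr (fun c hc => ?_)
      rw [← hζ.2, Finset.mem_inter]
      have hcB : c.1 ∈ B := by
        rw [hB, H.mem_Bf]
        exact (H.mem_ch.1 hc).2.1
      exact ⟨fun h => h.1, fun h => ⟨h, hcB⟩⟩
    have hB2 : ∑ ζ ∈ R, (((ch D e).filter (fun c => c.1 ∈ wav D r e.1 Ge ζ)).card : ℝ) ≤ R.card := by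
      have h1 : ∀ ζ, (((ch D e).filter (fun c => c.1 ∈ wav D r e.1 Ge ζ)).card : ℝ) =
          ∑ c ∈ ch D e, if c.1 ∈ wav D r e.1 Ge ζ then (1 : ℝ) else 0 := by
        intro ζ
        rw [Finset.card_filter]
        push_cast
        rfl
      rw [Finset.sum_congr rfl (fun ζ _ => h1 ζ), Finset.sum_comm]
      have h2 : ∀ c ∈ ch D e, ∑ ζ ∈ R, (if c.1 ∈ wav D r e.1 Ge ζ then (1 : ℝ) else 0) ≤ R.card * ueL D r e c.1 := by
        intro c hc
        rw [← m6b_cnt]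
        have hne : c.1 ≠ e.1 := by
          intro h
          have h3 := (H.mem_ch.1 hc).2.1
          rw [h] at h3
          exact blk_bridge (self_mem_blk e.2) he.symm h3
        have h3 : ue D r e.1 Ge c.1 ≤ ueL D r e c.1 :=
          le_ciSup (f := fun G : Finset V => ue D r e.1 (prt G (cone D e)) c.1)
            ⟨1, by rintro _ ⟨G, rfl⟩; exact ue_le_one⟩ G
        rw [ue_ne hne, div_le_iff₀ hRpos] at h3
        linarith
      refine (Finset.sum_le_sum h2).trans (le_of_eq ?_)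
      rw [← Finset.mul_sum, H.critical he, mul_one]
    have hyN : (0 : ℝ) ≤ (y ^ N - 1) / N := by
      have : (1 : ℝ) ≤ y ^ N := one_le_pow₀ (by linarith)
      exact div_nonneg (by linarith) hNpos.le
    unfold ex
    rw [div_le_iff₀ hRpos]
    refine hA.trans ?_
    rw [Finset.sum_add_distrib, ← Finset.sum_mul, Finset.sum_const, nsmul_eq_mul, mul_one]
    have h9 := mul_le_mul_of_nonneg_right hB2 hyN
    show _ ≤ (1 + (y ^ N - 1) / N) * (R.card : ℝ)
    linarith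

/-- TARGET. (`N ≥ 2`, `y_0 = 2`, `y_(l+1) ≤ (5/8) y_l^N`: for `y ≥ 2`: `1 - 1/N + y^N / N ≤ (5/8) y^N` as `(1 - 1/N) ≤ (5/8 - 1/N) y^N` for `N ≥ 2`, `y^N ≥ 4`.) -/
theorem yy_le {N : ℕ} (hN : 2 ≤ N) (l : ℕ) : yy N (l + 1) ≤ 2 ^ (N ^ (l + 1)) * (5 / 8 : ℝ) ^ (N ^ l) := by
  have hNr : (2 : ℝ) ≤ N := by exact_mod_cast hN
  have hNpos : (0 : ℝ) < N := by linarith
  have step : ∀ l, yy N (l + 1) ≤ 5 / 8 * yy N l ^ N := by
    intro l
    have h2 := m6b_yy_ge (N := N) (by omega) l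
    have h4 : (4 : ℝ) ≤ yy N l ^ N := by
      calc (4 : ℝ) = 2 ^ 2 := by norm_num
        _ ≤ yy N l ^ 2 := pow_le_pow_left₀ (by norm_num) h2 2
        _ ≤ yy N l ^ N := pow_le_pow_right₀ (by linarith) hN
    show 1 + (yy N l ^ N - 1) / N ≤ 5 / 8 * yy N l ^ N
    have h5 : (yy N l ^ N - 1) / N ≤ 5 / 8 * yy N l ^ N - 1 := by
      rw [div_le_iff₀ hNpos]
      nlinarith [mul_nonneg (sub_nonneg.2 hNr) (sub_nonneg.2 h4)]
    linarith
  induction l with
  | zero =>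
    have h := step 0
    simp only [yy] at h ⊢
    simp only [pow_zero, pow_one, zero_add]
    linarith
  | succ l ih =>
    have h := step (l + 1)
    have h2 := m6b_yy_ge (N := N) (by omega) (l + 1)
    have h0 : (0 : ℝ) ≤ yy N (l + 1) := by linarith
    calc yy N (l + 1 + 1) ≤ 5 / 8 * yy N (l + 1) ^ N := h
      _ ≤ yy N (l + 1) ^ N := by
        have : (0 : ℝ) ≤ yy N (l + 1) ^ N := by positivity
        linarith
      _ ≤ (2 ^ (N ^ (l + 1)) * (5 / 8 : ℝ) ^ (N ^ l)) ^ N := pow_le_pow_left₀ h0 ih N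
      _ = 2 ^ (N ^ (l + 1 + 1)) * (5 / 8 : ℝ) ^ (N ^ (l + 1)) := by
        rw [mul_pow, ← pow_mul, ← pow_mul, ← pow_succ, ← pow_succ]

/-- TARGET. Markov: `P(Z_(l+1) ≥ (1 - 1/(4N)) N^(l+1)) ≤ 2^(-(1-1/(4N)) N^(l+1)) yy (l+1) ≤ (2^(1/4) * 5/8)^(N^l) ≤ (3/4)^(N^l)`. -/
theorem Ctx.Z_tail (H : Ctx D r) (G : Finset V) (l : ℕ) {e : V × V} (he : BD D e.1 e.2) :
    pr D r (prt G (cone D e)) (fun ζ => (1 - 1 / (4 * (H.nn : ℝ))) * (H.nn : ℝ) ^ (l + 1) ≤ (Zg D r G (l + 1) e ζ : ℝ)) ≤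
      (3 / 4 : ℝ) ^ (H.nn ^ l) := by
  set Ge := prt G (cone D e) with hGe
  set N := H.nn with hNdef
  have hN2 : 2 ≤ N := by
    have := H.two_le_ch he
    rw [H.card_ch_eq he] at this
    exact this
  have hNpos : (0 : ℝ) < N := by
    have : 0 < N := by omega
    exact_mod_cast this
  have hRpos : (0 : ℝ) < ((Rc D r Ge).card : ℝ) := by exact_mod_cast H.card_Rc_pos Ge
  set a : ℝ := (1 - 1 / (4 * (N : ℝ))) * (N : ℝ) ^ (l + 1) with ha
  have hm := (H.exp_moment G (l + 1) he).trans (yy_le hN2 l)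
  rw [← hGe] at hm
  unfold ex at hm
  rw [div_le_iff₀ hRpos] at hm
  unfold pr
  rw [div_le_iff₀ hRpos]
  have hmk : (((Rc D r Ge).filter (fun ζ => a ≤ (Zg D r G (l + 1) e ζ : ℝ))).card : ℝ) * (2 : ℝ) ^ a ≤
      ∑ ζ ∈ Rc D r Ge, (2 : ℝ) ^ (Zg D r G (l + 1) e ζ) := by
    rw [← nsmul_eq_mul, ← Finset.sum_const]
    refine le_trans (Finset.sum_le_sum (g := fun ζ => (2 : ℝ) ^ (Zg D r G (l + 1) e ζ)) (fun ζ hζ => ?_))
      (Finset.sum_le_sum_of_subset_of_nonneg (Finset.filter_subset _ _) (fun ζ _ _ => by positivity))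
    rw [Finset.mem_filter] at hζ
    rw [← Real.rpow_natCast]
    exact Real.rpow_le_rpow_of_exponent_le (by norm_num) hζ.2
  have h2a : (0 : ℝ) < (2 : ℝ) ^ a := Real.rpow_pos_of_pos (by norm_num) a
  -- the constant
  have hexp : (2 : ℝ) ^ (N ^ (l + 1)) = (2 : ℝ) ^ a * ((2 : ℝ) ^ (1 / 4 : ℝ)) ^ (N ^ l) := by
    rw [← Real.rpow_natCast (2 : ℝ) (N ^ (l + 1)), ← Real.rpow_natCast ((2 : ℝ) ^ (1 / 4 : ℝ)) (N ^ l), ← Real.rpow_mul (by norm_num),
      ← Real.rpow_add (by norm_num)]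
    congr 1
    rw [ha]
    push_cast
    rw [pow_succ]
    field_simp
    ring
  have hq : (2 : ℝ) ^ (1 / 4 : ℝ) ≤ 6 / 5 := by
    have h1 : (2 : ℝ) ≤ (6 / 5 : ℝ) ^ (4 : ℝ) := by
      norm_num
    calc (2 : ℝ) ^ (1 / 4 : ℝ) ≤ ((6 / 5 : ℝ) ^ (4 : ℝ)) ^ (1 / 4 : ℝ) :=
          Real.rpow_le_rpow (by norm_num) h1 (by norm_num)
      _ = 6 / 5 := by
          rw [← Real.rpow_mul (by norm_num)]
          norm_num
  have hq0 : (0 : ℝ) ≤ (2 : ℝ) ^ (1 / 4 : ℝ) := Real.rpow_nonneg (by norm_num) _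
  have hfin : ((2 : ℝ) ^ (1 / 4 : ℝ)) ^ (N ^ l) * (5 / 8 : ℝ) ^ (N ^ l) ≤ (3 / 4 : ℝ) ^ (N ^ l) := by
    rw [← mul_pow]
    refine pow_le_pow_left₀ (by positivity) ?_ _
    linarith
  have h1 : (((Rc D r Ge).filter (fun ζ => a ≤ (Zg D r G (l + 1) e ζ : ℝ))).card : ℝ) * (2 : ℝ) ^ a ≤
      ((3 / 4 : ℝ) ^ (N ^ l) * (Rc D r Ge).card) * (2 : ℝ) ^ a := by
    refine hmk.trans (hm.trans ?_)
    rw [hexp]
    have h2 := mul_le_mul_of_nonneg_right hfin (mul_nonneg h2a.le hRpos.le)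
    linarith
  exact le_of_mul_le_mul_right h1 h2a

end Pool.Agent.Helper910
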