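import Mathlib
import Pool.Agent.Helper910.M6a

/-! Limits of the marginals (MP_4555f0_mp) -/

namespace Pool.Agent.Helper910

open Classical Finset Filter Topology

variable {V : Type*} {D : SimpleGraph V} {r : ℕ}

theorem m8a_rs_self {w : V → ℕ} {Q : Finset V} {ζ : V → ℕ} (h : ζ ∈ RcW D r w Q) : rs Q ζ = ζ := by
  rw [mem_RcW] at h
  funext z
  by_cases hz : z ∈ Q
  · rw [rs_mem hz]
  · rw [rs_notMem hz, h.1.2 z hz]

theorem m8a_wI_insert {c : V × V} {I : Finset (V × V)} (hc : c ∉ I) (z : V) :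
    wI (insert c I) z = dl c.1 z + wI I z := by
  unfold wI dl
  rw [Finset.filter_insert]
  by_cases h : c.1 = z
  · rw [if_pos h, if_pos h.symm, Finset.card_insert_of_notMem (fun h' => hc (Finset.mem_filter.1 h').1), add_comm]
  · rw [if_neg h, if_neg (fun h' => h h'.symm), zero_add]

theorem m8a_wI_empty (z : V) : wI (∅ : Finset (V × V)) z = 0 := by simp [wI]

/-- one gate -/
theorem m8a_step {G1 G2 Q : Finset V} {h y : V} (g : Gate D G1 G2 h y) (hQ2 : Disjoint Q G2) {w : V → ℕ}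
    (hw : ∀ z ∈ G2, w z = 0) (χ : V → ℕ) :
    (((RcW D r w (G1 ∪ G2)).filter (fun ζ => rs Q ζ = χ)).card : ℝ) =
      ((RcW D r (dl y) G2).card : ℝ) * (((RcW D r w G1).filter (fun ζ => rs Q ζ = χ)).card : ℝ) +
      (((Rc D r G2).card : ℝ) - ((RcW D r (dl y) G2).card : ℝ)) *
        (((RcW D r (fun z => w z + dl h z) G1).filter (fun ζ => rs Q ζ = χ)).card : ℝ) := by
  have hsub : RcW D r (dl y) G2 ⊆ Rc D r G2 := by
    intro ζ hζ
    rw [mem_RcW] at hζ
    rw [mem_Rc]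
    exact ⟨hζ.1, hζ.2.mono_w (fun z _ => by simp)⟩
  have hsub1 : RcW D r (fun z => w z + dl h z) G1 ⊆ RcW D r w G1 := by
    intro ζ hζ
    rw [mem_RcW] at hζ ⊢
    exact ⟨hζ.1, hζ.2.mono_w (fun z _ => by simp)⟩
  have h1 : (((RcW D r w (G1 ∪ G2)).filter (fun ζ => rs Q ζ = χ)).card : ℝ) =
      ∑ ζ ∈ RcW D r w (G1 ∪ G2), (if rs Q ζ = χ then (1 : ℝ) else 0) := by
    rw [Finset.card_filter]
    push_cast
    rfl
  rw [h1, g.sum_glue hw (fun ζ => if rs Q ζ = χ then (1 : ℝ) else 0), Gate.pairs, Finset.sum_filter, Finset.sum_product]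
  have h2 : ∀ ζ1 ∈ RcW D r w G1, (∑ ζ2 ∈ Rc D r G2,
      (if (ζ1, ζ2).2 ∈ RcW D r (dl y) G2 ∨ (ζ1, ζ2).1 ∈ RcW D r (fun z => w z + dl h z) G1 then
        (if rs Q (fun z => (ζ1, ζ2).1 z + (ζ1, ζ2).2 z) = χ then (1 : ℝ) else 0) else 0)) =
      ((RcW D r (dl y) G2).card : ℝ) * (if rs Q ζ1 = χ then (1 : ℝ) else 0) +
      (((Rc D r G2).card : ℝ) - ((RcW D r (dl y) G2).card : ℝ)) *
        (if ζ1 ∈ RcW D r (fun z => w z + dl h z) G1 then (if rs Q ζ1 = χ then (1 : ℝ) else 0) else 0) := by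
    intro ζ1 _
    have h3 : ∀ ζ2 ∈ Rc D r G2,
      (if (ζ1, ζ2).2 ∈ RcW D r (dl y) G2 ∨ (ζ1, ζ2).1 ∈ RcW D r (fun z => w z + dl h z) G1 then
        (if rs Q (fun z => (ζ1, ζ2).1 z + (ζ1, ζ2).2 z) = χ then (1 : ℝ) else 0) else 0) =
      (if ζ1 ∈ RcW D r (fun z => w z + dl h z) G1 then (if rs Q ζ1 = χ then (1 : ℝ) else 0) else
        (if ζ2 ∈ RcW D r (dl y) G2 then (if rs Q ζ1 = χ then (1 : ℝ) else 0) else 0)) := by
      intro ζ2 hζ2
      have e : rs Q (fun z => ζ1 z + ζ2 z) = rs Q ζ1 := by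
        funext z
        by_cases hz : z ∈ Q
        · rw [rs_mem hz, rs_mem hz, (mem_Rc.1 hζ2).1.2 z (Finset.disjoint_left.1 hQ2 hz), add_zero]
        · rw [rs_notMem hz, rs_notMem hz]
      dsimp only
      rw [e]
      by_cases a1 : ζ1 ∈ RcW D r (fun z => w z + dl h z) G1
      · simp [a1]
      · by_cases a2 : ζ2 ∈ RcW D r (dl y) G2
        · simp [a1, a2]
        · simp [a1, a2]
    rw [Finset.sum_congr rfl h3]
    by_cases a1 : ζ1 ∈ RcW D r (fun z => w z + dl h z) G1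
    · simp only [a1, if_true]
      rw [Finset.sum_const, nsmul_eq_mul]
      ring
    · simp only [a1, if_false, mul_zero, add_zero]
      rw [← Finset.sum_filter, Finset.filter_mem_eq_inter, Finset.inter_eq_right.2 hsub, Finset.sum_const,
        nsmul_eq_mul]
  rw [Finset.sum_congr rfl h2, Finset.sum_add_distrib, ← Finset.mul_sum, ← Finset.mul_sum]
  congr 2
  · rw [Finset.card_filter]
    push_cast
    rfl
  · rw [← Finset.sum_filter, Finset.filter_mem_eq_inter, Finset.inter_eq_right.2 hsub1, Finset.card_filter]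
    push_cast
    rfl

/-- the marginals, with a weight -/
theorem m8a_key {G : Finset V} {Q : Finset V} (hQ : Q ⊆ G) (χ : V → ℕ) (C : Finset (V × V)) :
    ∀ (Ω : Set V), Dec D Ω Q C → ∀ w : V → ℕ, (∀ z, z ∉ Q → w z = 0) →
    (((RcW D r w (prt G Ω)).filter (fun ζ => rs Q ζ = χ)).card : ℝ) =
      ∑ I ∈ C.powerset, (∏ c ∈ I, (((Rc D r (prt G (cone D c))).card : ℝ) - ((RcW D r (dl c.2) (prt G (cone D c))).card : ℝ))) *
        (∏ c ∈ C \ I, ((RcW D r (dl c.2) (prt G (cone D c))).card : ℝ)) *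
        (if χ ∈ RcW D r (fun z => w z + wI I z) Q then 1 else 0) := by
  induction C using Finset.induction_on with
  | empty =>
    intro Ω d w _
    have hΩ : prt G Ω = Q := by
      ext z
      rw [mem_prt]
      constructor
      · rintro ⟨-, hz⟩
        rcases d.cov z hz with h | ⟨c, hc, -⟩
        · exact h
        · exact absurd hc (Finset.notMem_empty c)
      · intro hz
        exact ⟨hQ hz, d.sub z hz⟩
    have hwe : (fun z => w z + wI (∅ : Finset (V × V)) z) = w := by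
      funext z
      rw [m8a_wI_empty, add_zero]
    rw [hΩ, Finset.powerset_empty, Finset.sum_singleton, hwe]
    simp only [Finset.prod_empty, Finset.sdiff_empty, one_mul]
    by_cases hχ : χ ∈ RcW D r w Q
    · rw [if_pos hχ]
      have : (RcW D r w Q).filter (fun ζ => rs Q ζ = χ) = {χ} := by
        ext ζ
        rw [Finset.mem_filter, Finset.mem_singleton]
        constructor
        · rintro ⟨h1, h2⟩
          rw [← h2, m8a_rs_self h1]
        · rintro rfl
          exact ⟨hχ, m8a_rs_self hχ⟩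
      rw [this, Finset.card_singleton, Nat.cast_one]
    · rw [if_neg hχ]
      have : (RcW D r w Q).filter (fun ζ => rs Q ζ = χ) = ∅ := by
        rw [Finset.filter_eq_empty_iff]
        intro ζ h1 h2
        rw [m8a_rs_self h1] at h2
        exact hχ (h2 ▸ h1)
      rw [this, Finset.card_empty, Nat.cast_zero]
  | insert c C' hc ih =>
    intro Ω d w hw
    have hcC : c ∈ insert c C' := Finset.mem_insert_self c C'
    have d' : Dec D (Ω \ cone D c) Q C' := by
      have := d.erase hcC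
      rwa [Finset.erase_insert hc] at this
    have g : Gate D (prt G (Ω \ cone D c)) (prt G (cone D c)) c.1 c.2 := gate_cone (d.br c hcC)
    have hQ2 : Disjoint Q (prt G (cone D c)) := by
      rw [Finset.disjoint_left]
      intro z hz hz'
      exact d.cdisj c hcC z (mem_prt.1 hz').2 hz
    have hw2 : ∀ z ∈ prt G (cone D c), w z = 0 := by
      intro z hz
      exact hw z (fun h => Finset.disjoint_left.1 hQ2 h hz)
    have hw3 : ∀ z, z ∉ Q → w z + dl c.1 z = 0 := by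
      intro z hz
      have hne : z ≠ c.1 := fun h => hz (h ▸ d.fst c hcC)
      rw [hw z hz, dl, if_neg hne]
    rw [← prt_union (G := G) (d.csub c hcC), m8a_step g hQ2 hw2 χ, ih _ d' w hw, ih _ d' _ hw3,
      Finset.sum_powerset_insert hc, Finset.mul_sum, Finset.mul_sum]
    congr 1
    · refine Finset.sum_congr rfl (fun I hI => ?_)
      have hcI : c ∉ I := fun h => hc (Finset.mem_powerset.1 hI h)
      rw [Finset.insert_sdiff_of_notMem _ hcI, Finset.prod_insert (fun h => hc (Finset.mem_sdiff.1 h).1)]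
      ring
    · refine Finset.sum_congr rfl (fun I hI => ?_)
      have hcI : c ∉ I := fun h => hc (Finset.mem_powerset.1 hI h)
      have e1 : insert c C' \ insert c I = C' \ I := by
        ext x
        simp only [Finset.mem_sdiff, Finset.mem_insert, not_or]
        constructor
        · rintro ⟨h1, h2, h3⟩
          exact ⟨h1.resolve_left h2, h3⟩
        · rintro ⟨h1, h2⟩
          exact ⟨Or.inr h1, fun h => hc (h ▸ h1), h2⟩
      have e2 : (fun z => w z + wI (insert c I) z) = (fun z => w z + dl c.1 z + wI I z) := by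
        funext z
        rw [m8a_wI_insert hcI, add_assoc]
      rw [e1, e2, Finset.prod_insert hcI]
      ring

/-- TARGET. Exact marginals. Induction on `C` (as in `dec_mul_le`, for all weights `w` supported on `Q`), `Gate.sum_glue`:
the pairs `(ζ1, ζ2)` split into `ζ2 ∈ RcW (dl c.2)` (strong, `ζ1` arbitrary) and `ζ2 ∈ Rc \ RcW (dl c.2)` (then `ζ1 ∈ RcW (w + dl c.1)`). -/
theorem dec_marg {G : Finset V} {Ω : Set V} {Q : Finset V} {C : Finset (V × V)} (d : Dec D Ω Q C) (hQ : Q ⊆ G) (χ : V → ℕ) :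
    (((Rc D r (prt G Ω)).filter (fun ζ => rs Q ζ = χ)).card : ℝ) =
      ∑ I ∈ C.powerset, (∏ c ∈ I, (((Rc D r (prt G (cone D c))).card : ℝ) - ((RcW D r (dl c.2) (prt G (cone D c))).card : ℝ))) *
        (∏ c ∈ C \ I, ((RcW D r (dl c.2) (prt G (cone D c))).card : ℝ)) * (if χ ∈ RcW D r (wI I) Q then 1 else 0) := by
  have h := m8a_key (r := r) hQ χ C Ω d 0 (fun _ _ => rfl)
  have e : ∀ I : Finset (V × V), (fun z => (0 : V → ℕ) z + wI I z) = wI I := by
    intro I
    funext z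
    simp
  simp only [e] at h
  exact h

section ctx

variable [D.LocallyFinite]

/-- TARGET. -/
theorem Ctx.lw_nonneg (H : Ctx D r) (C : Finset (V × V)) (Q : Finset V) (χ : V → ℕ) : 0 ≤ lw D r C Q H.bt χ := by
  refine Finset.sum_nonneg (fun I _ => ?_)
  have h1 := H.bt_nonneg
  have h2 := H.bt_lt
  have h3 := H.g0_pos
  have h4 : 0 ≤ 1 - H.bt := by linarith
  refine mul_nonneg (mul_nonneg (pow_nonneg h1 _) (pow_nonneg h4 _)) ?_
  split_ifs <;> norm_num

/-- TARGET. the normalising sum is positive (the configuration `r` on `Q`, `H.top_mem`, and `I = ∅`; `H.bt < 1`) -/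
theorem Ctx.lw_sum_pos (H : Ctx D r) (C : Finset (V × V)) (Q : Finset V) : 0 < ∑ χ ∈ Rc D r Q, lw D r C Q H.bt χ := by
  have h1 := H.bt_nonneg
  have h2 := H.bt_lt
  have h3 := H.g0_pos
  have h4 : 0 < 1 - H.bt := by linarith
  have hr : 1 ≤ r := le_trans (by norm_num) H.three_le
  have htop := H.top_mem hr Q
  refine lt_of_lt_of_le ?_ (Finset.single_le_sum (f := fun χ => lw D r C Q H.bt χ)
    (fun χ _ => H.lw_nonneg C Q χ) htop)
  have hterm : ∀ I ∈ C.powerset, 0 ≤ H.bt ^ I.card * (1 - H.bt) ^ (C \ I).card *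
      (if rs Q (fun _ => r) ∈ RcW D r (wI I) Q then (1 : ℝ) else 0) := by
    intro I _
    refine mul_nonneg (mul_nonneg (pow_nonneg h1 _) (pow_nonneg h4.le _)) ?_
    split_ifs <;> norm_num
  refine lt_of_lt_of_le ?_ (Finset.single_le_sum hterm (Finset.empty_mem_powerset C))
  have he : wI (∅ : Finset (V × V)) = 0 := by
    funext z
    exact m8a_wI_empty z
  rw [he, if_pos (show rs Q (fun _ => r) ∈ RcW D r 0 Q from htop), Finset.card_empty, pow_zero, one_mul, mul_one]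
  exact pow_pos h4 _

/-- the weight in finite volume -/
noncomputable def m8a_lwG (D : SimpleGraph V) (r : ℕ) (C : Finset (V × V)) (Q G : Finset V) (χ : V → ℕ) : ℝ :=
  ∑ I ∈ C.powerset, (∏ c ∈ I, bet D r G c) * (∏ c ∈ C \ I, (1 - bet D r G c)) * (if χ ∈ RcW D r (wI I) Q then 1 else 0)

theorem Ctx.m8a_tendsto_lwG (H : Ctx D r) {Ω : Set V} {Q : Finset V} {C : Finset (V × V)} (d : Dec D Ω Q C) (χ : V → ℕ) :
    Tendsto (fun G => m8a_lwG D r C Q G χ) atTop (𝓝 (lw D r C Q H.bt χ)) := by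
  unfold m8a_lwG lw
  refine tendsto_finsetSum _ (fun I hI => ?_)
  refine Tendsto.mul_const _ ?_
  have hIC : I ⊆ C := Finset.mem_powerset.1 hI
  have hb : ∀ c ∈ C, Tendsto (fun G : Finset V => bet D r G c) atTop (𝓝 H.bt) := by
    intro c hc
    have := H.tendsto_bet (d.br c hc)
    rwa [H.betL_bt (d.br c hc)] at this
  refine Tendsto.mul ?_ ?_
  · rw [← Finset.prod_const]
    exact tendsto_finsetProd _ (fun c hc => hb c (hIC hc))
  · rw [← Finset.prod_const]
    exact tendsto_finsetProd _ (fun c hc => (hb c (Finset.sdiff_subset hc)).const_sub 1)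

theorem Ctx.m8a_marg (H : Ctx D r) {G : Finset V} {Ω : Set V} {Q : Finset V} {C : Finset (V × V)} (d : Dec D Ω Q C)
    (hQ : Q ⊆ G) (χ : V → ℕ) :
    (((Rc D r (prt G Ω)).filter (fun ζ => rs Q ζ = χ)).card : ℝ) =
      (∏ c ∈ C, ((Rc D r (prt G (cone D c))).card : ℝ)) * m8a_lwG D r C Q G χ := by
  rw [dec_marg d hQ χ, m8a_lwG, Finset.mul_sum]
  refine Finset.sum_congr rfl (fun I hI => ?_)
  have hIC : I ⊆ C := Finset.mem_powerset.1 hI
  have e1 : (∏ c ∈ I, (((Rc D r (prt G (cone D c))).card : ℝ) - ((RcW D r (dl c.2) (prt G (cone D c))).card : ℝ))) =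
      (∏ c ∈ I, ((Rc D r (prt G (cone D c))).card : ℝ)) * ∏ c ∈ I, bet D r G c := by
    rw [← Finset.prod_mul_distrib]
    refine Finset.prod_congr rfl (fun c hc => ?_)
    rw [H.card_strong_cone G (d.br c (hIC hc))]
    ring
  have e2 : (∏ c ∈ C \ I, ((RcW D r (dl c.2) (prt G (cone D c))).card : ℝ)) =
      (∏ c ∈ C \ I, ((Rc D r (prt G (cone D c))).card : ℝ)) * ∏ c ∈ C \ I, (1 - bet D r G c) := by
    rw [← Finset.prod_mul_distrib]
    refine Finset.prod_congr rfl (fun c hc => ?_)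
    rw [H.card_strong_cone G (d.br c (Finset.sdiff_subset hc))]
    ring
  have e3 : (∏ c ∈ C, ((Rc D r (prt G (cone D c))).card : ℝ)) =
      (∏ c ∈ C \ I, ((Rc D r (prt G (cone D c))).card : ℝ)) * ∏ c ∈ I, ((Rc D r (prt G (cone D c))).card : ℝ) :=
    (Finset.prod_sdiff hIC).symm
  rw [e1, e2, e3]
  ring

omit [D.LocallyFinite] in
theorem m8a_fiber {G : Finset V} {Ω : Set V} {Q : Finset V} {C : Finset (V × V)} (d : Dec D Ω Q C)
    (hQ : Q ⊆ G) (P : (V → ℕ) → Prop) :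
    ((Rc D r (prt G Ω)).filter (fun ζ => P (rs Q ζ))).card =
      ∑ χ ∈ (Rc D r Q).filter P, ((Rc D r (prt G Ω)).filter (fun ζ => rs Q ζ = χ)).card := by
  have hsub : Q ⊆ prt G Ω := fun z hz => mem_prt.2 ⟨hQ hz, d.sub z hz⟩
  rw [Finset.card_eq_sum_card_fiberwise (f := rs Q) (t := (Rc D r Q).filter P)]
  · refine Finset.sum_congr rfl (fun χ hχ => ?_)
    congr 1
    ext ζ
    simp only [Finset.mem_filter]
    constructor
    · rintro ⟨⟨h1, -⟩, h3⟩
      exact ⟨h1, h3⟩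
    · rintro ⟨h1, h3⟩
      exact ⟨⟨h1, h3 ▸ (Finset.mem_filter.1 hχ).2⟩, h3⟩
  · intro ζ hζ
    have hζ' := Finset.mem_filter.1 (Finset.mem_coe.1 hζ)
    exact Finset.mem_coe.2 (Finset.mem_filter.2 ⟨rs_mem_Rc hsub hζ'.1, hζ'.2⟩)

theorem Ctx.m8a_pr (H : Ctx D r) {G : Finset V} {Ω : Set V} {Q : Finset V} {C : Finset (V × V)} (d : Dec D Ω Q C)
    (hQ : Q ⊆ G) (P : (V → ℕ) → Prop) :
    pr D r (prt G Ω) (fun ζ => P (rs Q ζ)) =
      (∑ χ ∈ (Rc D r Q).filter P, m8a_lwG D r C Q G χ) / ∑ χ ∈ Rc D r Q, m8a_lwG D r C Q G χ := by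
  have h1 := m8a_fiber (r := r) d hQ P
  have h2 := m8a_fiber (r := r) d hQ (fun _ => True)
  simp only [Finset.filter_true] at h2
  unfold pr
  rw [h1, h2]
  push_cast
  rw [Finset.sum_congr rfl (fun χ _ => H.m8a_marg d hQ χ), Finset.sum_congr rfl (fun χ _ => H.m8a_marg d hQ χ),
    ← Finset.mul_sum, ← Finset.mul_sum]
  have hpos : (0 : ℝ) < ∏ c ∈ C, ((Rc D r (prt G (cone D c))).card : ℝ) :=
    Finset.prod_pos (fun c _ => by exact_mod_cast H.card_Rc_pos _)
  rw [mul_div_mul_left _ _ hpos.ne']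

/-- TARGET. divide `dec_marg` by the product of the `|Rc G_c|`; `|RcW (dl c.2) G_c| = (1 - bet G c) |Rc G_c|`, `bet G c → H.bt` (`Ctx.tendsto_bet`, `Ctx.betL_bt`),
and `|Rc (prt G Ω)| = ∑_{χ ∈ Rc Q} #{rs Q ζ = χ}` for `Q ⊆ G` (eventually true). -/
theorem Ctx.tendsto_marg (H : Ctx D r) {Ω : Set V} {Q : Finset V} {C : Finset (V × V)} (d : Dec D Ω Q C) (χ : V → ℕ) :
    Tendsto (fun G => pr D r (prt G Ω) (fun ζ => rs Q ζ = χ)) atTop
      (𝓝 (lw D r C Q H.bt χ / ∑ χ' ∈ Rc D r Q, lw D r C Q H.bt χ')) := by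
  have h1 : Tendsto (fun G => m8a_lwG D r C Q G χ / ∑ χ' ∈ Rc D r Q, m8a_lwG D r C Q G χ') atTop
      (𝓝 (lw D r C Q H.bt χ / ∑ χ' ∈ Rc D r Q, lw D r C Q H.bt χ')) :=
    (H.m8a_tendsto_lwG d χ).div (tendsto_finsetSum _ (fun χ' _ => H.m8a_tendsto_lwG d χ')) (H.lw_sum_pos C Q).ne'
  refine h1.congr' ?_
  filter_upwards [eventually_ge_atTop Q] with G hG
  have h2 := m8a_fiber (r := r) d hG (fun _ => True)
  simp only [Finset.filter_true] at h2
  unfold pr
  rw [h2]
  push_cast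
  rw [Finset.sum_congr rfl (fun χ _ => H.m8a_marg d hG χ), H.m8a_marg d hG χ, ← Finset.mul_sum]
  have hpos : (0 : ℝ) < ∏ c ∈ C, ((Rc D r (prt G (cone D c))).card : ℝ) :=
    Finset.prod_pos (fun c _ => by exact_mod_cast H.card_Rc_pos _)
  rw [mul_div_mul_left _ _ hpos.ne']

/-- TARGET. any event depending only on `rs Q ζ` -/
theorem Ctx.tendsto_marg' (H : Ctx D r) {Ω : Set V} {Q : Finset V} {C : Finset (V × V)} (d : Dec D Ω Q C) (P : (V → ℕ) → Prop) :
    Tendsto (fun G => pr D r (prt G Ω) (fun ζ => P (rs Q ζ))) atTop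
      (𝓝 ((∑ χ ∈ (Rc D r Q).filter P, lw D r C Q H.bt χ) / ∑ χ' ∈ Rc D r Q, lw D r C Q H.bt χ')) := by
  have h1 : Tendsto (fun G => (∑ χ ∈ (Rc D r Q).filter P, m8a_lwG D r C Q G χ) / ∑ χ' ∈ Rc D r Q, m8a_lwG D r C Q G χ') atTop
      (𝓝 ((∑ χ ∈ (Rc D r Q).filter P, lw D r C Q H.bt χ) / ∑ χ' ∈ Rc D r Q, lw D r C Q H.bt χ')) :=
    (tendsto_finsetSum _ (fun χ' _ => H.m8a_tendsto_lwG d χ')).div
      (tendsto_finsetSum _ (fun χ' _ => H.m8a_tendsto_lwG d χ')) (H.lw_sum_pos C Q).ne'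
  refine h1.congr' ?_
  filter_upwards [eventually_ge_atTop Q] with G hG
  exact (H.m8a_pr d hG P).symm

end ctx

end Pool.Agent.Helper910
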