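import Mathlib
import Pool.Agent.Helper910.M8a

/-! The limit law of the wave in a block (MP_4555f0_mp) -/

namespace Pool.Agent.Helper910

open Classical Finset Filter Topology

variable {V : Type*} {D : SimpleGraph V} [D.LocallyFinite] {r : ℕ}

omit [D.LocallyFinite] in
theorem m8b_pr_congr {G : Finset V} {P Q : (V → ℕ) → Prop} (h : ∀ ζ ∈ Rc D r G, (P ζ ↔ Q ζ)) :
    pr D r G P = pr D r G Q := by
  unfold pr
  rw [Finset.filter_congr h]

omit [D.LocallyFinite] in
theorem m8b_dg_map (φ : D ≃g D) (v : V) (S : Finset V) :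
    dg D (φ v) (S.map φ.toEquiv.toEmbedding) = dg D v S := by
  unfold dg
  rw [Finset.filter_map, Finset.card_map]
  congr 1
  ext w
  simp only [Finset.mem_filter, Function.comp_apply]
  have : D.Adj (φ v) (φ.toEquiv.toEmbedding w) ↔ D.Adj v w := φ.map_adj_iff
  rw [this]

omit [D.LocallyFinite] in
theorem m8b_config (φ : D ≃g D) (Q : Finset V) (χ : V → ℕ) :
    IsConfig r (Q.map φ.toEquiv.toEmbedding) (χ ∘ φ.symm) ↔ IsConfig r Q χ := by
  constructor
  · rintro ⟨h1, h2⟩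
    refine ⟨fun v hv => ?_, fun v hv => ?_⟩
    · have := h1 (φ v) (Finset.mem_map.2 ⟨v, hv, rfl⟩)
      simpa using this
    · have := h2 (φ v) (fun h => by
        obtain ⟨w, hw, he⟩ := Finset.mem_map.1 h
        have : w = v := φ.injective he
        exact hv (this ▸ hw))
      simpa using this
  · rintro ⟨h1, h2⟩
    refine ⟨fun v hv => ?_, fun v hv => ?_⟩
    · obtain ⟨w, hw, he⟩ := Finset.mem_map.1 hv
      have he' : φ w = v := he
      subst he'
      simpa using h1 w hw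
    · have := h2 (φ.symm v) (fun h => hv (Finset.mem_map.2 ⟨φ.symm v, h, φ.apply_symm_apply v⟩))
      simpa using this

omit [D.LocallyFinite] in
theorem m8b_recW (φ : D ≃g D) (Q : Finset V) (χ : V → ℕ) (w w' : V → ℕ) (hw : ∀ z, w' (φ z) = w z) :
    RecW D w' (Q.map φ.toEquiv.toEmbedding) (χ ∘ φ.symm) ↔ RecW D w Q χ := by
  constructor
  · intro h U hU hne
    obtain ⟨z, hz, hlt⟩ := h (U.map φ.toEquiv.toEmbedding) (Finset.map_subset_map.2 hU) (hne.map)
    obtain ⟨y, hy, he⟩ := Finset.mem_map.1 hz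
    have he' : φ y = z := he
    subst he'
    rw [m8b_dg_map, hw] at hlt
    exact ⟨y, hy, by simpa using hlt⟩
  · intro h U hU hne
    have hU' : U = (U.map φ.symm.toEquiv.toEmbedding).map φ.toEquiv.toEmbedding := by
      ext x
      simp only [Finset.mem_map]
      constructor
      · intro hx
        exact ⟨φ.symm x, ⟨x, hx, rfl⟩, φ.apply_symm_apply x⟩
      · rintro ⟨a, ⟨b, hb, rfl⟩, rfl⟩
        have : (φ.toEquiv.toEmbedding (φ.symm.toEquiv.toEmbedding b)) = b := φ.apply_symm_apply b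
        rw [this]; exact hb
    have hsub : U.map φ.symm.toEquiv.toEmbedding ⊆ Q := by
      intro x hx
      obtain ⟨b, hb, rfl⟩ := Finset.mem_map.1 hx
      obtain ⟨a, ha, hab⟩ := Finset.mem_map.1 (hU hb)
      have hab' : φ a = b := hab
      have : φ.symm.toEquiv.toEmbedding b = a := by
        rw [← hab']; exact φ.symm_apply_apply a
      rw [this]; exact ha
    obtain ⟨z, hz, hlt⟩ := h (U.map φ.symm.toEquiv.toEmbedding) hsub hne.map
    refine ⟨φ z, ?_, ?_⟩
    · rw [hU']; exact Finset.mem_map.2 ⟨z, hz, rfl⟩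
    · rw [hU', m8b_dg_map, hw]
      simpa using hlt

omit [D.LocallyFinite] in
theorem m8b_mem_RcW (φ : D ≃g D) (Q : Finset V) (χ : V → ℕ) (w w' : V → ℕ) (hw : ∀ z, w' (φ z) = w z) :
    χ ∘ φ.symm ∈ RcW D r w' (Q.map φ.toEquiv.toEmbedding) ↔ χ ∈ RcW D r w Q := by
  rw [mem_RcW, mem_RcW, m8b_config, m8b_recW φ Q χ w w' hw]

omit [D.LocallyFinite] in
theorem m8b_wI (φ : D ≃g D) (ψ : V × V ≃ V × V) (hψ : ∀ c, (ψ c).1 = φ c.1) (I : Finset (V × V)) (z : V) :
    wI (I.map ψ.toEmbedding) (φ z) = wI I z := by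
  unfold wI
  rw [Finset.filter_map, Finset.card_map]
  congr 1
  ext c
  simp only [Finset.mem_filter, Function.comp_apply]
  have : (ψ.toEmbedding c).1 = φ c.1 := hψ c
  rw [this]
  constructor
  · rintro ⟨h1, h2⟩; exact ⟨h1, φ.injective h2⟩
  · rintro ⟨h1, h2⟩; exact ⟨h1, by rw [h2]⟩

omit [D.LocallyFinite] in
theorem m8b_lw (φ : D ≃g D) (ψ : V × V ≃ V × V) (hψ : ∀ c, (ψ c).1 = φ c.1) (C : Finset (V × V)) (Q : Finset V)
    (β : ℝ) (χ : V → ℕ) :
    lw D r (C.map ψ.toEmbedding) (Q.map φ.toEquiv.toEmbedding) β (χ ∘ φ.symm) = lw D r C Q β χ := by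
  unfold lw
  symm
  refine Finset.sum_bij (fun I _ => I.map ψ.toEmbedding) ?_ ?_ ?_ ?_
  · intro I hI
    rw [Finset.mem_powerset] at hI ⊢
    exact Finset.map_subset_map.2 hI
  · intro I _ J _ h
    exact Finset.map_injective _ h
  · intro J hJ
    rw [Finset.mem_powerset] at hJ
    obtain ⟨I, hI, hIJ⟩ := Finset.subset_map_iff.1 hJ
    exact ⟨I, Finset.mem_powerset.2 hI, hIJ.symm⟩
  · intro I hI
    have e1 : (I.map ψ.toEmbedding).card = I.card := Finset.card_map _
    have e2 : (C.map ψ.toEmbedding \ I.map ψ.toEmbedding).card = (C \ I).card := by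
      rw [← Finset.map_sdiff, Finset.card_map]
    have e3 := m8b_mem_RcW (r := r) φ Q χ (wI I) (wI (I.map ψ.toEmbedding)) (m8b_wI φ ψ hψ I)
    rw [e1, e2]
    congr 1
    by_cases h : χ ∈ RcW D r (wI I) Q
    · rw [if_pos h, if_pos (e3.2 h)]
    · rw [if_neg h, if_neg (fun h' => h (e3.1 h'))]

/-- the wave from the source on the block has `a` vertices -/
def m8b_P (D : SimpleGraph V) (r a : ℕ) (e : V × V) (χ : V → ℕ) : Prop := (wav D r e.1 (Bf D e.2) χ).card = a

theorem m8b_map_Bf (H : Ctx D r) (φ : D ≃g D) {x y : V} (hφ : φ x = y) :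
    (Bf D x).map φ.toEquiv.toEmbedding = Bf D y := by
  ext z
  rw [H.mem_Bf, Finset.mem_map]
  constructor
  · rintro ⟨a, ha, rfl⟩
    rw [H.mem_Bf] at ha
    have := map_mem_blk φ ha
    rw [hφ] at this
    exact this
  · intro hz
    refine ⟨φ.symm z, ?_, φ.apply_symm_apply z⟩
    rw [H.mem_Bf, ← map_mem_blk_iff φ, hφ, φ.apply_symm_apply]
    exact hz

/-- the bijection of the children -/
noncomputable def m8b_psi (φ : D ≃g D) (e e' : V × V) : V × V ≃ V × V :=
  (Equiv.prodCongr φ.toEquiv φ.toEquiv).trans (Equiv.swap (e'.2, φ e.1) (e'.2, e'.1))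

omit [D.LocallyFinite] in
theorem m8b_psi_apply (φ : D ≃g D) (e e' c : V × V) :
    m8b_psi φ e e' c = Equiv.swap (e'.2, φ e.1) (e'.2, e'.1) (φ c.1, φ c.2) := rfl

omit [D.LocallyFinite] in
theorem m8b_psi_fst (φ : D ≃g D) (e e' c : V × V) : (m8b_psi φ e e' c).1 = φ c.1 := by
  rw [m8b_psi_apply]
  by_cases h1 : (φ c.1, φ c.2) = (e'.2, φ e.1)
  · rw [h1, Equiv.swap_apply_left]
    exact (Prod.mk.inj h1).1.symm
  · by_cases h2 : (φ c.1, φ c.2) = (e'.2, e'.1)
    · rw [h2, Equiv.swap_apply_right]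
      exact (Prod.mk.inj h2).1.symm
    · rw [Equiv.swap_apply_of_ne_of_ne h1 h2]

omit [D.LocallyFinite] in
theorem m8b_psi_root (φ : D ≃g D) (e e' : V × V) (hφ : φ e.2 = e'.2) :
    m8b_psi φ e e' (e.2, e.1) = (e'.2, e'.1) := by
  rw [m8b_psi_apply]
  simp only [hφ]
  exact Equiv.swap_apply_left _ _

omit [D.LocallyFinite] in
theorem m8b_psi_BD (φ : D ≃g D) (e e' c : V × V) (hφ : φ e.2 = e'.2) (he : BD D e.1 e.2) (he' : BD D e'.1 e'.2) :
    BD D (m8b_psi φ e e' c).1 (m8b_psi φ e e' c).2 ↔ BD D c.1 c.2 := by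
  rw [← map_BD φ (a := c.1) (b := c.2), m8b_psi_apply]
  by_cases h1 : (φ c.1, φ c.2) = (e'.2, φ e.1)
  · rw [h1, Equiv.swap_apply_left]
    have h1' := Prod.mk.inj h1
    rw [h1'.1, h1'.2]
    have hb : BD D e'.2 (φ e.1) := by
      rw [← hφ]; exact (map_BD φ).2 he.symm
    exact ⟨fun _ => hb, fun _ => he'.symm⟩
  · by_cases h2 : (φ c.1, φ c.2) = (e'.2, e'.1)
    · rw [h2, Equiv.swap_apply_right]
      have h2' := Prod.mk.inj h2
      rw [h2'.1, h2'.2]
      have hb : BD D e'.2 (φ e.1) := by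
        rw [← hφ]; exact (map_BD φ).2 he.symm
      exact ⟨fun _ => he'.symm, fun _ => hb⟩
    · rw [Equiv.swap_apply_of_ne_of_ne h1 h2]

theorem m8b_map_ch (H : Ctx D r) (φ : D ≃g D) {e e' : V × V} (hφ : φ e.2 = e'.2) (he : BD D e.1 e.2)
    (he' : BD D e'.1 e'.2) : (ch D e).map (m8b_psi φ e e').toEmbedding = ch D e' := by
  have key : ∀ c, m8b_psi φ e e' c ∈ ch D e' ↔ c ∈ ch D e := by
    intro c
    rw [H.mem_ch, H.mem_ch, m8b_psi_BD φ e e' c hφ he he', m8b_psi_fst, ← hφ, map_mem_blk_iff]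
    have h1 : m8b_psi φ e e' c ≠ (φ e.2, e'.1) ↔ c ≠ (e.2, e.1) := by
      rw [hφ, ← m8b_psi_root φ e e' hφ]
      exact (m8b_psi φ e e').injective.ne_iff
    rw [h1]
  ext c
  rw [Finset.mem_map]
  constructor
  · rintro ⟨a, ha, rfl⟩
    exact (key a).2 ha
  · intro hc
    refine ⟨(m8b_psi φ e e').symm c, ?_, (m8b_psi φ e e').apply_symm_apply c⟩
    rw [← key, Equiv.apply_symm_apply]
    exact hc

/-- the wave in the block commutes with the automorphism -/
theorem m8b_wav (H : Ctx D r) (φ : D ≃g D) {e e' : V × V} (hφ : φ e.2 = e'.2) (he : BD D e.1 e.2)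
    (he' : BD D e'.1 e'.2) (χ : V → ℕ) :
    wav D r e'.1 (Bf D e'.2) (χ ∘ φ.symm) = (wav D r e.1 (Bf D e.2) χ).map φ.toEquiv.toEmbedding := by
  have hw := isWave_wav (D := D) (r := r) e.1 (Bf D e.2) χ
  set W := wav D r e.1 (Bf D e.2) χ with hW
  have hB := m8b_map_Bf H φ hφ
  have hnot : e.1 ∉ Bf D e.2 := by
    rw [H.mem_Bf]; exact blk_bridge (self_mem_blk _) he.symm
  have hnot' : e'.1 ∉ Bf D e'.2 := by
    rw [H.mem_Bf]; exact blk_bridge (self_mem_blk _) he'.symm
  have hdg : ∀ y ∈ Bf D e.2, ∀ T : Finset V, T ⊆ Bf D e.2 →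
      dg D (φ y) (insert e'.1 (T.map φ.toEquiv.toEmbedding)) = dg D y (insert e.1 T) := by
    intro y hy T hT
    have h1 : e.1 ∉ T := fun h => hnot (hT h)
    have h2 : e'.1 ∉ T.map φ.toEquiv.toEmbedding := by
      intro h
      apply hnot'
      rw [← hB]
      exact Finset.map_subset_map.2 hT h
    rw [dg_insert h1, dg_insert h2, m8b_dg_map]
    congr 1
    have hyc : y ∈ cone D e := blk_subset_cone he (H.mem_Bf.1 hy)
    have hyc' : φ y ∈ cone D e' := by
      refine blk_subset_cone he' ?_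
      rw [← hφ, map_mem_blk_iff]
      exact H.mem_Bf.1 hy
    have e1 : D.Adj y e.1 ↔ y = e.2 := by
      rw [SimpleGraph.adj_comm]; exact src_adj he hyc
    have e2 : D.Adj (φ y) e'.1 ↔ y = e.2 := by
      rw [SimpleGraph.adj_comm, src_adj he' hyc', ← hφ]
      exact φ.injective.eq_iff
    by_cases h : y = e.2
    · rw [if_pos (e1.2 h), if_pos (e2.2 h)]
    · rw [if_neg (fun h' => h (e1.1 h')), if_neg (fun h' => h (e2.1 h'))]
  refine IsWave.eq_wav ⟨?_, ?_, ?_⟩
  · rw [← hB]; exact Finset.map_subset_map.2 hw.sub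
  · intro y hy hyW
    rw [← hB, Finset.mem_map] at hy
    obtain ⟨a, ha, rfl⟩ := hy
    have haW : a ∉ W := fun h => hyW (Finset.mem_map.2 ⟨a, h, rfl⟩)
    have h1 := hw.blk a ha haW
    have h2 : (χ ∘ φ.symm) (φ.toEquiv.toEmbedding a) = χ a := by
      show χ (φ.symm (φ a)) = χ a
      rw [φ.symm_apply_apply]
    have h3 := hdg a ha W hw.sub
    rw [h2]
    exact (h3 ▸ h1 : χ a + dg D (φ a) (insert e'.1 (W.map φ.toEquiv.toEmbedding)) ≤ r)
  · intro X hX hne
    obtain ⟨Y, hY, rfl⟩ := Finset.subset_map_iff.1 hX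
    have hYne : Y.Nonempty := by
      obtain ⟨x, hx⟩ := hne
      obtain ⟨y, hy, -⟩ := Finset.mem_map.1 hx
      exact ⟨y, hy⟩
    obtain ⟨z, hz, hlt⟩ := hw.fd Y hY hYne
    refine ⟨φ.toEquiv.toEmbedding z, Finset.mem_map.2 ⟨z, hz, rfl⟩, ?_⟩
    have h2 : (χ ∘ φ.symm) (φ.toEquiv.toEmbedding z) = χ z := by
      show χ (φ.symm (φ z)) = χ z
      rw [φ.symm_apply_apply]
    have h3 := hdg z (hw.sub (hY hz)) (W \ Y) (Finset.sdiff_subset.trans hw.sub)
    rw [h2, ← Finset.map_sdiff]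
    exact (h3.symm ▸ hlt : r < χ z + dg D (φ z) (insert e'.1 ((W \ Y).map φ.toEquiv.toEmbedding)))

/-- sums over recurrent configurations of the block -/
theorem m8b_sum (H : Ctx D r) (φ : D ≃g D) {e e' : V × V} (hφ : φ e.2 = e'.2) (he : BD D e.1 e.2)
    (he' : BD D e'.1 e'.2) (β : ℝ) (P P' : (V → ℕ) → Prop) (hP : ∀ χ, P' (χ ∘ φ.symm) ↔ P χ) :
    ∑ χ ∈ (Rc D r (Bf D e'.2)).filter P', lw D r (ch D e') (Bf D e'.2) β χ =
      ∑ χ ∈ (Rc D r (Bf D e.2)).filter P, lw D r (ch D e) (Bf D e.2) β χ := by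
  have hB := m8b_map_Bf H φ hφ
  have hC := m8b_map_ch H φ hφ he he'
  have hmem : ∀ χ, χ ∘ φ.symm ∈ Rc D r (Bf D e'.2) ↔ χ ∈ Rc D r (Bf D e.2) := by
    intro χ
    rw [← hB]
    exact m8b_mem_RcW φ (Bf D e.2) χ 0 0 (fun _ => rfl)
  symm
  refine Finset.sum_bij (fun χ _ => χ ∘ φ.symm) ?_ ?_ ?_ ?_
  · intro χ hχ
    rw [Finset.mem_filter] at hχ ⊢
    exact ⟨(hmem χ).2 hχ.1, (hP χ).2 hχ.2⟩
  · intro χ _ χ' _ h
    funext z
    have := congrFun h (φ z)
    simpa using this
  · intro χ' hχ'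
    have e1 : (χ' ∘ φ) ∘ φ.symm = χ' := by
      funext z; simp
    rw [Finset.mem_filter] at hχ'
    refine ⟨χ' ∘ φ, ?_, e1⟩
    rw [Finset.mem_filter, ← hmem, ← hP, e1]
    exact hχ'
  · intro χ _
    have := m8b_lw (r := r) φ (m8b_psi φ e e') (m8b_psi_fst φ e e') (ch D e) (Bf D e.2) β χ
    rw [hB, hC] at this
    exact this.symm

/-- TARGET. the wave in the block depends only on the block: no grain comes back to the block except through `S` itself (`IsWave.eq_wav` or repeated `mem_wav1`) -/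
theorem Ctx.wav_block (H : Ctx D r) {G : Finset V} {e : V × V} (he : BD D e.1 e.2) (hG : Bf D e.2 ⊆ G) {ζ : V → ℕ}
    (hζ : ζ ∈ Rc D r (prt G (cone D e))) :
    wav D r e.1 (prt G (cone D e)) ζ ∩ Bf D e.2 = wav D r e.1 (Bf D e.2) (rs (Bf D e.2) ζ) := by
  have hw := isWave_wav (D := D) (r := r) e.1 (prt G (cone D e)) ζ
  set W := wav D r e.1 (prt G (cone D e)) ζ with hW
  set B := Bf D e.2 with hB
  have hd := H.dec_ch he
  have hBsub : B ⊆ prt G (cone D e) := by
    intro z hz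
    rw [mem_prt]
    exact ⟨hG hz, hd.sub z hz⟩
  have hnot : e.1 ∉ B := by
    rw [hB, H.mem_Bf]; exact blk_bridge (self_mem_blk _) he.symm
  symm
  refine IsWave.eq_wav ⟨Finset.inter_subset_right, ?_, ?_⟩
  · intro y hy hyW
    have hyW' : y ∉ W := fun h => hyW (Finset.mem_inter.2 ⟨h, hy⟩)
    have h1 := hw.blk y (hBsub hy) hyW'
    rw [rs_mem hy]
    refine le_trans (Nat.add_le_add_left (dg_mono ?_) _) h1
    exact Finset.insert_subset_insert _ Finset.inter_subset_left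
  · intro X hX hne
    set X' : Finset V := X ∪ W.filter (fun w => ∃ c ∈ ch D e, c.1 ∈ X ∧ w ∈ cone D c) with hX'
    have hX'W : X' ⊆ W := by
      intro x hx
      rcases Finset.mem_union.1 hx with h | h
      · exact (Finset.mem_inter.1 (hX h)).1
      · exact (Finset.mem_filter.1 h).1
    obtain ⟨z, hz, hlt⟩ := hw.fd X' hX'W (hne.mono Finset.subset_union_left)
    rcases Finset.mem_union.1 hz with hzX | hzc
    · -- z in X
      have hzB : z ∈ B := (Finset.mem_inter.1 (hX hzX)).2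
      refine ⟨z, hzX, ?_⟩
      rw [rs_mem hzB]
      refine lt_of_lt_of_le hlt (Nat.add_le_add_left ?_ _)
      unfold dg
      refine Finset.card_le_card ?_
      intro w hw'
      rw [Finset.mem_filter] at hw' ⊢
      refine ⟨?_, hw'.2⟩
      rcases Finset.mem_insert.1 hw'.1 with h | h
      · rw [h]; exact Finset.mem_insert_self _ _
      · refine Finset.mem_insert_of_mem ?_
        rw [Finset.mem_sdiff] at h ⊢
        have hwX : w ∉ X := fun h' => h.2 (Finset.mem_union_left _ h')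
        refine ⟨?_, hwX⟩
        rw [Finset.mem_inter]
        refine ⟨h.1, ?_⟩
        rcases hd.cov w (mem_prt.1 (hw.sub h.1)).2 with h' | ⟨c, hc, h'⟩
        · exact h'
        · exfalso
          apply h.2
          refine Finset.mem_union_right _ (Finset.mem_filter.2 ⟨h.1, c, hc, ?_, h'⟩)
          have hzc : z ∉ cone D c := fun h'' => hd.cdisj c hc z h'' hzB
          have := (cone_edge (hd.br c hc) hzc h' hw'.2).1
          rw [← this]; exact hzX
    · -- z in a cone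
      exfalso
      rw [Finset.mem_filter] at hzc
      obtain ⟨hzW, c, hc, hcX, hzc⟩ := hzc
      have hzr : ζ z ≤ r := ((mem_Rc.1 hζ).1.1 z (hw.sub hzW)).2
      have h0 : dg D z (insert e.1 (W \ X')) = 0 := by
        refine dg_eq_zero ?_
        intro w hw' hadj
        have hzB : z ∉ B := hd.cdisj c hc z hzc
        rcases Finset.mem_insert.1 hw' with h | h
        · rw [h] at hadj
          have := (src_adj he (hd.csub c hc hzc)).1 hadj.symm
          apply hzB
          rw [this, hB]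
          exact H.self_mem_Bf _
        · rw [Finset.mem_sdiff] at h
          by_cases hwc : w ∈ cone D c
          · apply h.2
            exact Finset.mem_union_right _ (Finset.mem_filter.2 ⟨h.1, c, hc, hcX, hwc⟩)
          · have := (cone_edge (hd.br c hc) hwc hzc hadj.symm).1
            apply h.2
            rw [this]
            exact Finset.mem_union_left _ hcX
      rw [h0] at hlt
      omega

/-- TARGET. The limit law of the number of vertices of the block in the wave does not depend on the dart. Plain proof. By `tendsto_marg'` (with `H.dec_ch he`) and `wav_block`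
the limit is `(∑_{χ ∈ Rc B, |wav e.1 B χ| = a} lw (ch e) B β χ) / ∑_χ lw (ch e) B β χ`. For another dart `e'` take an automorphism `φ` with `φ e.2 = e'.2`; it maps `B` to `B'` and
`bdr B` to `bdr B'`; follow it by the swap of the two darts `(e'.2, φ e.1)` and `(e'.2, e'.1)` (same tail) to get a bijection of `ch e` onto `ch e'` which maps tails by `φ`. So
`lw (ch e') B' β (χ ∘ φ.symm) = lw (ch e) B β χ`, and `wav e'.1 B' (χ ∘ φ.symm) = φ (wav e.1 B χ)` since `e.1 ∉ B` has the single neighbour `e.2` in `B` (only that matters). -/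
theorem Ctx.block_law (H : Ctx D r) (a : ℕ) : ∃ q : ℝ, ∀ e : V × V, BD D e.1 e.2 →
    Tendsto (fun G => pr D r (prt G (cone D e)) (fun ζ => (wav D r e.1 (prt G (cone D e)) ζ ∩ Bf D e.2).card = a)) atTop (𝓝 q) := by
  obtain ⟨x0⟩ := H.nonempty
  obtain ⟨y0, hy0⟩ := H.bridge_at x0
  have hlim : ∀ e : V × V, BD D e.1 e.2 →
      Tendsto (fun G => pr D r (prt G (cone D e)) (fun ζ => (wav D r e.1 (prt G (cone D e)) ζ ∩ Bf D e.2).card = a)) atTop
        (𝓝 ((∑ χ ∈ (Rc D r (Bf D e.2)).filter (m8b_P D r a e),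
            lw D r (ch D e) (Bf D e.2) H.bt χ) / ∑ χ' ∈ Rc D r (Bf D e.2), lw D r (ch D e) (Bf D e.2) H.bt χ')) := by
    intro e he
    refine Tendsto.congr' ?_ (H.tendsto_marg' (H.dec_ch he) (m8b_P D r a e))
    filter_upwards [Filter.eventually_ge_atTop (Bf D e.2)] with G hG
    refine m8b_pr_congr (fun ζ hζ => ?_)
    unfold m8b_P
    rw [H.wav_block he hG hζ]
  refine ⟨(∑ χ ∈ (Rc D r (Bf D x0)).filter (m8b_P D r a (y0, x0)),
            lw D r (ch D (y0, x0)) (Bf D x0) H.bt χ) / ∑ χ' ∈ Rc D r (Bf D x0), lw D r (ch D (y0, x0)) (Bf D x0) H.bt χ',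
            fun e he => ?_⟩
  have h1 := hlim e he
  obtain ⟨φ, hφ⟩ := H.trans e.2 x0
  have he0 : BD D (y0, x0).1 (y0, x0).2 := hy0.symm
  have hφ' : φ e.2 = ((y0, x0) : V × V).2 := hφ
  have hs1 := m8b_sum H φ hφ' he he0 H.bt (m8b_P D r a e) (m8b_P D r a (y0, x0)) (fun χ => by
      have := m8b_wav H φ hφ' he he0 χ
      unfold m8b_P
      rw [this, Finset.card_map])
  have hs2 := m8b_sum H φ hφ' he he0 H.bt (fun _ => True) (fun _ => True) (fun χ => Iff.rfl)
  simp only [Finset.filter_true] at hs2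
  have e1 : ((y0, x0) : V × V).2 = x0 := rfl
  rw [e1] at hs1
  rw [hs1, hs2]
  exact h1

end Pool.Agent.Helper910
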