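import Mathlib
import Pool.Agent.Helper910.M6b
import Pool.Agent.Helper910.M8b

/-! Recursion for the generating series of the wave (MP_4555f0_mp) -/

namespace Pool.Agent.Helper910

open Classical Finset Filter Topology

variable {V : Type*} {D : SimpleGraph V} [D.LocallyFinite] {r : ℕ}

theorem Ctx.m9a_mem (H : Ctx D r) {G : Finset V} {e : V × V} (he : BD D e.1 e.2) {ζ : V → ℕ}
    (hζ : ζ ∈ Rc D r (prt G (cone D e))) {c : V × V} (hc : c ∈ ch D e) {z : V} (hz : z ∈ cone D c) :
    (z ∈ wav D r e.1 (prt G (cone D e)) ζ ↔ c.1 ∈ wav D r e.1 (prt G (cone D e)) ζ ∧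
      z ∈ wav D r c.1 (prt G (cone D c)) (rs (prt G (cone D c)) ζ)) := by
  have hd := H.dec_ch he
  have hcb := hd.br c hc
  have g := gate_cone (G := G) (Ω := cone D e) hcb
  have hun := prt_union (G := G) (hd.csub c hc)
  have hv1 : e.1 ∉ prt G (cone D e \ cone D c) := fun h => fst_notMem_cone he (mem_prt.1 h).2.1
  have hv2 : e.1 ∉ prt G (cone D c) := fun h => fst_notMem_cone he (hd.csub c hc (mem_prt.1 h).2)
  have hvG : ∀ b ∈ prt G (cone D c), ¬ D.Adj e.1 b := by
    intro b hb hadj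
    have hbc := (mem_prt.1 hb).2
    have h1 := (src_adj he (hd.csub c hc hbc)).1 hadj
    exact hd.cdisj c hc b hbc (h1 ▸ H.self_mem_Bf e.2)
  have hζ' : ∀ y ∈ prt G (cone D c), ζ y ≤ r := by
    intro y hy
    have hy' : y ∈ prt G (cone D e) := by
      rw [← hun]; exact Finset.mem_union_right _ hy
    exact ((mem_Rc.1 hζ).1.1 y hy').2
  have hcong : wav D r c.1 (prt G (cone D c)) (rs (prt G (cone D c)) ζ) =
      wav D r c.1 (prt G (cone D c)) ζ := wav_congr (fun y hy => rs_mem hy)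
  have hW := g.wav_union hv1 hv2 hvG hζ'
  rw [hun] at hW
  rw [hcong, hW]
  have hn1 : z ∉ wav D r e.1 (prt G (cone D e \ cone D c)) ζ := fun h =>
    (mem_prt.1 ((isWave_wav e.1 _ ζ).sub h)).2.2 hz
  by_cases h1 : c.1 ∈ wav D r e.1 (prt G (cone D e \ cone D c)) ζ
  · simp [h1, hn1]
  · simp only [h1, if_false, Finset.union_empty, false_and, iff_false]
    exact hn1

/-- TARGET. decomposition of the size of a wave (gates of the children, `Gate.mem_wav2`, `H.dec_ch`) -/
theorem Ctx.card_wav (H : Ctx D r) {G : Finset V} {e : V × V} (he : BD D e.1 e.2) {ζ : V → ℕ} (hζ : ζ ∈ Rc D r (prt G (cone D e))) :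
    (wav D r e.1 (prt G (cone D e)) ζ).card = (wav D r e.1 (prt G (cone D e)) ζ ∩ Bf D e.2).card +
      ∑ c ∈ (ch D e).filter (fun c => c.1 ∈ wav D r e.1 (prt G (cone D e)) ζ ∩ Bf D e.2),
        (wav D r c.1 (prt G (cone D c)) (rs (prt G (cone D c)) ζ)).card := by
  have hd := H.dec_ch he
  set W := wav D r e.1 (prt G (cone D e)) ζ with hW
  have hWs : W ⊆ prt G (cone D e) := (isWave_wav e.1 _ ζ).sub
  have hc : ∀ c ∈ ch D e, ∀ z ∈ cone D c,
      (z ∈ W ↔ c.1 ∈ W ∧ z ∈ wav D r c.1 (prt G (cone D c)) (rs (prt G (cone D c)) ζ)) :=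
    fun c hc z hz => H.m9a_mem he hζ hc hz
  have hsub : ∀ c : V × V, ∀ z ∈ wav D r c.1 (prt G (cone D c)) (rs (prt G (cone D c)) ζ), z ∈ cone D c := by
    intro c z hz
    exact (mem_prt.1 ((isWave_wav c.1 _ _).sub hz)).2
  have hdec : W = (W ∩ Bf D e.2) ∪ ((ch D e).filter (fun c => c.1 ∈ W ∩ Bf D e.2)).biUnion
      (fun c => wav D r c.1 (prt G (cone D c)) (rs (prt G (cone D c)) ζ)) := by
    ext z
    simp only [Finset.mem_union, Finset.mem_inter, Finset.mem_biUnion, Finset.mem_filter]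
    constructor
    · intro hz
      rcases hd.cov z (mem_prt.1 (hWs hz)).2 with h | ⟨c, hc1, hc2⟩
      · exact Or.inl ⟨hz, h⟩
      · obtain ⟨h1, h2⟩ := (hc c hc1 z hc2).1 hz
        exact Or.inr ⟨c, ⟨hc1, h1, hd.fst c hc1⟩, h2⟩
    · rintro (h | ⟨c, ⟨hc1, hc2, -⟩, hz⟩)
      · exact h.1
      · exact (hc c hc1 z (hsub c z hz)).2 ⟨hc2, hz⟩
  have hdis : Disjoint (W ∩ Bf D e.2) (((ch D e).filter (fun c => c.1 ∈ W ∩ Bf D e.2)).biUnion
      (fun c => wav D r c.1 (prt G (cone D c)) (rs (prt G (cone D c)) ζ))) := by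
    rw [Finset.disjoint_left]
    intro z hz hz'
    obtain ⟨c, hc1, hc2⟩ := Finset.mem_biUnion.1 hz'
    exact hd.cdisj c (Finset.mem_filter.1 hc1).1 z (hsub c z hc2) (Finset.mem_inter.1 hz).2
  conv_lhs => rw [hdec]
  rw [Finset.card_union_of_disjoint hdis, Finset.card_biUnion]
  intro c hc1 c' hc2 hne
  show Disjoint (wav D r c.1 (prt G (cone D c)) (rs (prt G (cone D c)) ζ))
    (wav D r c'.1 (prt G (cone D c')) (rs (prt G (cone D c')) ζ))
  rw [Finset.disjoint_left]
  intro z hz hz'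
  exact Set.disjoint_left.1 (hd.pair c (Finset.mem_filter.1 (Finset.mem_coe.1 hc1)).1 c'
    (Finset.mem_filter.1 (Finset.mem_coe.1 hc2)).1 hne) (hsub c z hz) (hsub c' z hz')

/-- generating series of the size of the wave -/
noncomputable def US (D : SimpleGraph V) (r : ℕ) (G : Finset V) (e : V × V) : PowerSeries ℝ :=
  PowerSeries.mk (fun n => pr D r (prt G (cone D e)) (fun ζ => (wav D r e.1 (prt G (cone D e)) ζ).card = n))

/-- TARGET. From `prod_formula` with `M = PowerSeries ℝ`, `f c ζ = X ^ |wav c.1 G_c ζ|`, `A = (ch D e).filter (c.1 ∈ S)`, and `card_wav`. -/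
theorem Ctx.US_rec (H : Ctx D r) (G : Finset V) {e : V × V} (he : BD D e.1 e.2) :
    US D r G e = ∑ S ∈ (Bf D e.2).powerset,
      PowerSeries.C (pr D r (prt G (cone D e)) (fun ζ => wav D r e.1 (prt G (cone D e)) ζ ∩ Bf D e.2 = S)) *
        PowerSeries.X ^ S.card * ∏ c ∈ (ch D e).filter (fun c => c.1 ∈ S), US D r G c := by
  have hN : ∀ c : V × V, ((Rc D r (prt G (cone D c))).card : ℝ) ≠ 0 := by
    intro c
    have := H.card_Rc_pos (prt G (cone D c))
    positivity
  have hNS : ∀ c : V × V, ((Rc D r (prt G (cone D c))).card : PowerSeries ℝ) ≠ 0 := by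
    intro c h
    apply hN c
    have h2 : (PowerSeries.C ((Rc D r (prt G (cone D c))).card : ℝ)) = (0 : PowerSeries ℝ) := by
      rw [map_natCast]; exact h
    exact (map_eq_zero_iff _ PowerSeries.C_injective).1 h2
  -- the sum of the powers of `X`
  have hUS : ∀ c : V × V, ∑ ζ ∈ Rc D r (prt G (cone D c)),
      (PowerSeries.X : PowerSeries ℝ) ^ (wav D r c.1 (prt G (cone D c)) ζ).card =
        ((Rc D r (prt G (cone D c))).card : PowerSeries ℝ) * US D r G c := by
    intro c
    ext n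
    have e1 : (((Rc D r (prt G (cone D c))).card : ℕ) : PowerSeries ℝ) =
        PowerSeries.C ((Rc D r (prt G (cone D c))).card : ℝ) := by rw [map_natCast]
    rw [e1, PowerSeries.coeff_C_mul, map_sum]
    simp only [PowerSeries.coeff_X_pow, US, PowerSeries.coeff_mk, pr]
    rw [mul_div_cancel₀ _ (hN c), Finset.card_filter]
    push_cast
    apply Finset.sum_congr rfl
    intro ζ _
    simp only [eq_comm]
  have hmul : ((Rc D r (prt G (cone D e))).card : PowerSeries ℝ) * US D r G e =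
      ((Rc D r (prt G (cone D e))).card : PowerSeries ℝ) * ∑ S ∈ (Bf D e.2).powerset,
      PowerSeries.C (pr D r (prt G (cone D e)) (fun ζ => wav D r e.1 (prt G (cone D e)) ζ ∩ Bf D e.2 = S)) *
        PowerSeries.X ^ S.card * ∏ c ∈ (ch D e).filter (fun c => c.1 ∈ S), US D r G c := by
    rw [← hUS e, Finset.mul_sum]
    have hfib := Finset.sum_fiberwise_of_maps_to (s := Rc D r (prt G (cone D e))) (t := (Bf D e.2).powerset)
      (g := fun ζ => wav D r e.1 (prt G (cone D e)) ζ ∩ Bf D e.2)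
      (fun ζ _ => Finset.mem_powerset.2 Finset.inter_subset_right)
      (fun ζ => (PowerSeries.X : PowerSeries ℝ) ^ (wav D r e.1 (prt G (cone D e)) ζ).card)
    rw [← hfib]
    apply Finset.sum_congr rfl
    intro S hS
    have hpf := H.prod_formula G he S (M := PowerSeries ℝ)
      (fun c ζ => (PowerSeries.X : PowerSeries ℝ) ^ (wav D r c.1 (prt G (cone D c)) ζ).card)
      ((ch D e).filter (fun c => c.1 ∈ S)) (Finset.Subset.refl _)
    rw [Finset.prod_congr rfl (fun c _ => hUS c), Finset.prod_mul_distrib] at hpf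
    have hne : (∏ c ∈ (ch D e).filter (fun c => c.1 ∈ S),
        ((Rc D r (prt G (cone D c))).card : PowerSeries ℝ)) ≠ 0 :=
      Finset.prod_ne_zero_iff.2 (fun c _ => hNS c)
    have hpf' : (∑ ζ ∈ (Rc D r (prt G (cone D e))).filter
          (fun ζ => wav D r e.1 (prt G (cone D e)) ζ ∩ Bf D e.2 = S),
        ∏ c ∈ (ch D e).filter (fun c => c.1 ∈ S), (PowerSeries.X : PowerSeries ℝ) ^
          (wav D r c.1 (prt G (cone D c)) (rs (prt G (cone D c)) ζ)).card) =
        ((((Rc D r (prt G (cone D e))).filter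
          (fun ζ => wav D r e.1 (prt G (cone D e)) ζ ∩ Bf D e.2 = S)).card : ℕ) : PowerSeries ℝ) *
          ∏ c ∈ (ch D e).filter (fun c => c.1 ∈ S), US D r G c := by
      apply mul_right_cancel₀ hne
      rw [hpf]
      ring
    have hcard : ∀ ζ ∈ (Rc D r (prt G (cone D e))).filter
          (fun ζ => wav D r e.1 (prt G (cone D e)) ζ ∩ Bf D e.2 = S),
        (PowerSeries.X : PowerSeries ℝ) ^ (wav D r e.1 (prt G (cone D e)) ζ).card =
          PowerSeries.X ^ S.card * ∏ c ∈ (ch D e).filter (fun c => c.1 ∈ S),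
            (PowerSeries.X : PowerSeries ℝ) ^
              (wav D r c.1 (prt G (cone D c)) (rs (prt G (cone D c)) ζ)).card := by
      intro ζ hζ
      rw [Finset.mem_filter] at hζ
      rw [H.card_wav he hζ.1, hζ.2, pow_add, Finset.prod_pow_eq_pow_sum]
    rw [Finset.sum_congr rfl hcard, ← Finset.mul_sum, hpf']
    have e2 : (((Rc D r (prt G (cone D e))).card : ℕ) : PowerSeries ℝ) *
        PowerSeries.C (pr D r (prt G (cone D e)) (fun ζ => wav D r e.1 (prt G (cone D e)) ζ ∩ Bf D e.2 = S)) =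
        ((((Rc D r (prt G (cone D e))).filter
          (fun ζ => wav D r e.1 (prt G (cone D e)) ζ ∩ Bf D e.2 = S)).card : ℕ) : PowerSeries ℝ) := by
      have e1 : (((Rc D r (prt G (cone D e))).card : ℕ) : PowerSeries ℝ) =
        PowerSeries.C ((Rc D r (prt G (cone D e))).card : ℝ) := by rw [map_natCast]
      rw [e1, ← map_mul, pr, mul_div_cancel₀ _ (hN e), map_natCast]
      congr!
    rw [← e2]
    ring
  exact mul_left_cancel₀ (hNS e) hmul

end Pool.Agent.Helper910
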