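import Mathlib
import Pool.Agent.Helper910.M9a

/-! The limit law of the wave (MP_4555f0_mp) -/

namespace Pool.Agent.Helper910

open Classical Finset Filter Topology

variable {V : Type*} {D : SimpleGraph V} [D.LocallyFinite] {r : ℕ}

omit [D.LocallyFinite] in
theorem m9b_pr_nonneg (G : Finset V) (P : (V → ℕ) → Prop) : 0 ≤ pr D r G P := by
  unfold pr; positivity

omit [D.LocallyFinite] in
theorem m9b_pr_le_one (G : Finset V) (P : (V → ℕ) → Prop) : pr D r G P ≤ 1 := by
  unfold pr
  refine div_le_one_of_le₀ ?_ (by positivity)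
  exact_mod_cast Finset.card_filter_le _ _

omit [D.LocallyFinite] in
theorem m9b_pr_mono (G : Finset V) {P Q : (V → ℕ) → Prop} (h : ∀ ζ ∈ Rc D r G, P ζ → Q ζ) :
    pr D r G P ≤ pr D r G Q := by
  unfold pr
  refine div_le_div_of_nonneg_right ?_ (by positivity)
  have : (Rc D r G).filter P ⊆ (Rc D r G).filter Q := by
    intro ζ hζ
    rw [Finset.mem_filter] at hζ ⊢
    exact ⟨hζ.1, h ζ hζ.1 hζ.2⟩
  exact_mod_cast Finset.card_le_card this

omit [D.LocallyFinite] in
theorem m9b_pr_congr (G : Finset V) {P Q : (V → ℕ) → Prop} (h : ∀ ζ ∈ Rc D r G, (P ζ ↔ Q ζ)) :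
    pr D r G P = pr D r G Q :=
  le_antisymm (m9b_pr_mono G fun ζ hζ => (h ζ hζ).1) (m9b_pr_mono G fun ζ hζ => (h ζ hζ).2)

omit [D.LocallyFinite] in
theorem m9b_pr_sum (G : Finset V) (P : (V → ℕ) → Prop) (inst : ∀ ζ, Decidable (P ζ)) :
    pr D r G P = (∑ ζ ∈ Rc D r G, @ite ℝ (P ζ) (inst ζ) 1 0) / (Rc D r G).card := by
  unfold pr
  rw [Finset.card_filter, Nat.cast_sum]
  congr 1
  refine Finset.sum_congr rfl fun ζ _ => ?_
  by_cases h : P ζ <;> simp [h]

omit [D.LocallyFinite] in
theorem m9b_pr_zero (G : Finset V) (P : (V → ℕ) → Prop) (h : ∀ ζ ∈ Rc D r G, ¬ P ζ) :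
    pr D r G P = 0 := by
  rw [m9b_pr_sum G P (fun _ => propDecidable _), Finset.sum_eq_zero, zero_div]
  intro ζ hζ
  rw [if_neg (h ζ hζ)]

theorem m9b_pr_not (H : Ctx D r) (G : Finset V) (P : (V → ℕ) → Prop) :
    pr D r G (fun ζ => ¬ P ζ) = 1 - pr D r G P := by
  have hpos : (0 : ℝ) < ((Rc D r G).card : ℝ) := by exact_mod_cast H.card_Rc_pos G
  rw [m9b_pr_sum G P (fun _ => propDecidable _), m9b_pr_sum G (fun ζ => ¬ P ζ) (fun _ => propDecidable _)]
  have h : ∑ ζ ∈ Rc D r G, (if ¬ P ζ then (1 : ℝ) else 0) + ∑ ζ ∈ Rc D r G, (if P ζ then (1 : ℝ) else 0) =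
      (Rc D r G).card := by
    rw [← Finset.sum_add_distrib, ← nsmul_one, ← Finset.sum_const]
    refine Finset.sum_congr rfl fun ζ _ => ?_
    by_cases h : P ζ <;> simp [h]
  rw [eq_sub_iff_add_eq, ← add_div, div_eq_one_iff_eq hpos.ne']
  refine Eq.trans ?_ h
  congr 1
  refine Finset.sum_congr rfl fun ζ _ => ?_
  by_cases h : P ζ <;> simp [h]

omit [D.LocallyFinite] in
theorem m9b_fiber {ι : Type*} (G : Finset V) (g : (V → ℕ) → ι) (t : Finset ι)
    (hg : ∀ ζ ∈ Rc D r G, g ζ ∈ t) (f : ι → ℝ) :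
    ∑ i ∈ t, pr D r G (fun ζ => g ζ = i) * f i = (∑ ζ ∈ Rc D r G, f (g ζ)) / (Rc D r G).card := by
  rw [← Finset.sum_fiberwise_of_maps_to hg (fun ζ => f (g ζ)), Finset.sum_div]
  refine Finset.sum_congr rfl fun i _ => ?_
  have : ∑ ζ ∈ (Rc D r G).filter (fun ζ => g ζ = i), f (g ζ) =
      (((Rc D r G).filter (fun ζ => g ζ = i)).card : ℝ) * f i := by
    rw [← nsmul_eq_mul, ← Finset.sum_const]
    refine Finset.sum_congr rfl fun ζ hζ => ?_
    rw [(Finset.mem_filter.1 hζ).2]
  rw [this]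
  unfold pr
  ring

omit [D.LocallyFinite] in
theorem m9b_root {G : Finset V} {e : V × V} (he : BD D e.1 e.2) {ζ : V → ℕ}
    (hζ : ζ ∈ Rc D r (prt G (cone D e))) (hne : (wav D r e.1 (prt G (cone D e)) ζ).Nonempty) :
    e.2 ∈ wav D r e.1 (prt G (cone D e)) ζ := by
  have hw := isWave_wav (D := D) (r := r) e.1 (prt G (cone D e)) ζ
  obtain ⟨z, hz, hlt⟩ := hw.fd _ (Finset.Subset.refl _) hne
  have hzG := hw.sub hz
  have h1 : ζ z ≤ r := ((mem_Rc.1 hζ).1.1 z hzG).2
  rw [Finset.sdiff_self, insert_empty_eq, dg_singleton] at hlt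
  split_ifs at hlt with h
  · have := (src_adj he (mem_prt.1 hzG).2).1 h.symm
    rwa [this] at hz
  · omega

omit [D.LocallyFinite] in
theorem m9b_card_zero {G : Finset V} {e : V × V} (he : BD D e.1 e.2) {ζ : V → ℕ}
    (hζ : ζ ∈ Rc D r (prt G (cone D e))) :
    (wav D r e.1 (prt G (cone D e)) ζ).card = 0 ↔ ¬ e.2 ∈ wav D r e.1 (prt G (cone D e)) ζ := by
  rw [Finset.card_eq_zero]
  constructor
  · intro h; rw [h]; simp
  · intro h
    by_contra hne
    exact h (m9b_root he hζ (Finset.nonempty_iff_ne_empty.2 hne))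

theorem m9b_inter_zero (H : Ctx D r) {G : Finset V} {e : V × V} (he : BD D e.1 e.2) {ζ : V → ℕ}
    (hζ : ζ ∈ Rc D r (prt G (cone D e))) :
    (wav D r e.1 (prt G (cone D e)) ζ ∩ Bf D e.2).card = 0 ↔
      ¬ e.2 ∈ wav D r e.1 (prt G (cone D e)) ζ := by
  constructor
  · intro h h'
    rw [Finset.card_eq_zero] at h
    have : e.2 ∈ wav D r e.1 (prt G (cone D e)) ζ ∩ Bf D e.2 :=
      Finset.mem_inter.2 ⟨h', H.self_mem_Bf e.2⟩
    rw [h] at this
    simp at this
  · intro h
    have := (m9b_card_zero he hζ).2 h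
    rw [Finset.card_eq_zero] at this
    rw [this]; simp

omit [D.LocallyFinite] in
theorem m9b_bet {G : Finset V} {e : V × V} (he : BD D e.1 e.2) :
    bet D r G e = pr D r (prt G (cone D e)) (fun ζ => e.2 ∈ wav D r e.1 (prt G (cone D e)) ζ) := by
  unfold bet
  rw [ue_ne he.1.ne', m9b_pr_sum _ _ (fun _ => propDecidable _), cnt_eq_sum, Nat.cast_sum]
  congr 1
  refine Finset.sum_congr rfl fun ζ _ => ?_
  by_cases h : e.2 ∈ wav D r e.1 (prt G (cone D e)) ζ <;> simp [h]

theorem m9b_prod {ι : Type*} (A : Finset ι) (F : Finset V → ι → PowerSeries ℝ) (u : ℕ → ℝ) (N : ℕ)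
    (h : ∀ c ∈ A, ∀ m ≤ N, Tendsto (fun G => PowerSeries.coeff m (F G c)) atTop (𝓝 (u m))) :
    ∀ m ≤ N, Tendsto (fun G => PowerSeries.coeff m (∏ c ∈ A, F G c)) atTop
      (𝓝 (PowerSeries.coeff m ((PowerSeries.mk u) ^ A.card))) := by
  induction A using Finset.induction_on with
  | empty => intro m _; simp only [Finset.prod_empty, Finset.card_empty, pow_zero]; exact tendsto_const_nhds
  | insert c A hc ih =>
    intro m hm
    have ih' := ih (fun c' hc' => h c' (Finset.mem_insert_of_mem hc'))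
    simp only [Finset.prod_insert hc, Finset.card_insert_of_notMem hc, pow_succ',
      PowerSeries.coeff_mul]
    refine tendsto_finsetSum _ fun p hp => ?_
    have hp : p.1 + p.2 = m := by simpa using hp
    have h1 := h c (Finset.mem_insert_self c A) p.1 (by omega)
    have h2 := ih' p.2 (by omega)
    rw [PowerSeries.coeff_mk]
    exact h1.mul h2

theorem m9b_step (H : Ctx D r) (qf : ℕ → ℝ)
    (hq : ∀ a : ℕ, ∀ e : V × V, BD D e.1 e.2 →
      Tendsto (fun G => pr D r (prt G (cone D e)) (fun ζ => (wav D r e.1 (prt G (cone D e)) ζ ∩ Bf D e.2).card = a)) atTop (𝓝 (qf a)))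
    (u : ℕ → ℝ) (n : ℕ) (hn : 1 ≤ n)
    (hu : ∀ m < n, ∀ e : V × V, BD D e.1 e.2 →
      Tendsto (fun G => pr D r (prt G (cone D e)) (fun ζ => (wav D r e.1 (prt G (cone D e)) ζ).card = m)) atTop (𝓝 (u m)))
    (e : V × V) (he : BD D e.1 e.2) :
    Tendsto (fun G => pr D r (prt G (cone D e)) (fun ζ => (wav D r e.1 (prt G (cone D e)) ζ).card = n)) atTop
      (𝓝 (∑ a ∈ Finset.Icc 1 n, qf a *
        PowerSeries.coeff (n - a) ((PowerSeries.mk u) ^ (H.jb * a - 1)))) := by
  have hd := H.dec_ch he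
  let kk0 : ℕ → ℝ := fun a => PowerSeries.coeff (n - a) ((PowerSeries.mk u) ^ (H.jb * a - 1))
  let k : ℕ → ℝ := fun a => if a ∈ Finset.Icc 1 n then kk0 a else 0
  let pS : Finset V → Finset V → ℝ := fun G S =>
    pr D r (prt G (cone D e)) (fun ζ => wav D r e.1 (prt G (cone D e)) ζ ∩ Bf D e.2 = S)
  let cS : Finset V → Finset V → ℝ := fun G S =>
    if S.card ≤ n then PowerSeries.coeff (n - S.card)
      (∏ c ∈ (ch D e).filter (fun c => c.1 ∈ S), US D r G c) else 0
  have h1 : ∀ G, pr D r (prt G (cone D e)) (fun ζ => (wav D r e.1 (prt G (cone D e)) ζ).card = n) =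
      ∑ S ∈ (Bf D e.2).powerset, pS G S * cS G S := by
    intro G
    have e1 : pr D r (prt G (cone D e)) (fun ζ => (wav D r e.1 (prt G (cone D e)) ζ).card = n) =
        PowerSeries.coeff n (US D r G e) := by
      unfold US
      rw [PowerSeries.coeff_mk]
    rw [e1, H.US_rec G he, map_sum]
    refine Finset.sum_congr rfl fun S _ => ?_
    rw [mul_assoc, PowerSeries.coeff_C_mul, PowerSeries.coeff_X_pow_mul']
  have h2 : ∀ S ∈ (Bf D e.2).powerset, Tendsto (fun G => pS G S * (cS G S - k S.card)) atTop (𝓝 0) := by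
    intro S hS
    by_cases hS0 : S = ∅
    · refine (tendsto_const_nhds (x := (0 : ℝ))).congr fun G => ?_
      have e1 : cS G S = 0 := by
        simp only [cS, hS0, Finset.card_empty, Nat.zero_le, if_true, Finset.notMem_empty,
          Finset.filter_false, Finset.prod_empty, Nat.sub_zero]
        rw [PowerSeries.coeff_one, if_neg (by omega)]
      have e2 : k S.card = 0 := by
        simp only [k, hS0, Finset.card_empty]
        rw [if_neg (by simp)]
      rw [e1, e2]; simp
    by_cases hx : e.2 ∈ S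
    swap
    · refine (tendsto_const_nhds (x := (0 : ℝ))).congr fun G => ?_
      have e1 : pS G S = 0 := by
        refine m9b_pr_zero _ _ ?_
        intro ζ hζ h
        have hne : (wav D r e.1 (prt G (cone D e)) ζ).Nonempty := by
          have h3 : S.Nonempty := Finset.nonempty_iff_ne_empty.2 hS0
          rw [← h] at h3
          exact h3.mono Finset.inter_subset_left
        apply hx
        rw [← h]
        exact Finset.mem_inter.2 ⟨m9b_root he hζ hne, H.self_mem_Bf e.2⟩
      rw [e1]; simp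
    by_cases hSn : S.card ≤ n
    swap
    · refine (tendsto_const_nhds (x := (0 : ℝ))).congr fun G => ?_
      have e1 : cS G S = 0 := by simp only [cS]; rw [if_neg hSn]
      have e2 : k S.card = 0 := by
        simp only [k]
        rw [if_neg]
        rw [Finset.mem_Icc]; omega
      rw [e1, e2]; simp
    have hS1 : 1 ≤ S.card := Finset.card_pos.2 ⟨_, hx⟩
    have hcard := H.card_tail_ch he S (Finset.mem_powerset.1 hS) hx
    have h3 : Tendsto (fun G => cS G S) atTop (𝓝 (k S.card)) := by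
      have h4 := m9b_prod ((ch D e).filter (fun c => c.1 ∈ S)) (fun G c => US D r G c) u (n - S.card)
        (fun c hc m hm => by
          have hcb := hd.br c (Finset.mem_filter.1 hc).1
          have := hu m (by omega) c hcb
          simpa only [US, PowerSeries.coeff_mk] using this) (n - S.card) le_rfl
      rw [hcard] at h4
      have e2 : k S.card = PowerSeries.coeff (n - S.card) ((PowerSeries.mk u) ^ (H.jb * S.card - 1)) := by
        simp only [k, kk0]
        rw [if_pos (Finset.mem_Icc.2 ⟨hS1, hSn⟩)]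
      rw [e2]
      refine h4.congr fun G => ?_
      simp only [cS]
      rw [if_pos hSn]
    have h5 : Tendsto (fun G => cS G S - k S.card) atTop (𝓝 0) := by
      have := h3.sub_const (k S.card)
      rwa [sub_self] at this
    rw [tendsto_zero_iff_abs_tendsto_zero] at h5 ⊢
    refine squeeze_zero (fun G => abs_nonneg _) (fun G => ?_) h5
    simp only [Function.comp_apply]
    rw [abs_mul, abs_of_nonneg (m9b_pr_nonneg _ _)]
    exact mul_le_of_le_one_left (abs_nonneg _) (m9b_pr_le_one _ _)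
  have h3 : Tendsto (fun G => ∑ S ∈ (Bf D e.2).powerset, pS G S * k S.card) atTop
      (𝓝 (∑ a ∈ Finset.Icc 1 n, qf a * kk0 a)) := by
    have h4 : Tendsto (fun G => ∑ a ∈ Finset.Icc 1 n,
        pr D r (prt G (cone D e)) (fun ζ => (wav D r e.1 (prt G (cone D e)) ζ ∩ Bf D e.2).card = a) * kk0 a) atTop
        (𝓝 (∑ a ∈ Finset.Icc 1 n, qf a * kk0 a)) :=
      tendsto_finsetSum _ fun a _ => (hq a e he).mul_const _
    refine h4.congr fun G => ?_
    have e1 := m9b_fiber (D := D) (r := r) (prt G (cone D e))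
      (fun ζ => wav D r e.1 (prt G (cone D e)) ζ ∩ Bf D e.2) (Bf D e.2).powerset
      (fun ζ _ => Finset.mem_powerset.2 Finset.inter_subset_right) (fun S => k S.card)
    have e2 := m9b_fiber (D := D) (r := r) (prt G (cone D e))
      (fun ζ => (wav D r e.1 (prt G (cone D e)) ζ ∩ Bf D e.2).card) (Finset.range ((Bf D e.2).card + n + 1))
      (fun ζ _ => by
        rw [Finset.mem_range]
        have := Finset.card_le_card (Finset.inter_subset_right (s₁ := wav D r e.1 (prt G (cone D e)) ζ) (s₂ := Bf D e.2))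
        omega) k
    rw [← e2] at e1
    refine Eq.trans ?_ e1.symm
    have hsub : Finset.Icc 1 n ⊆ Finset.range ((Bf D e.2).card + n + 1) := by
      intro a ha
      rw [Finset.mem_Icc] at ha
      rw [Finset.mem_range]; omega
    rw [← Finset.sum_subset hsub (f := fun a => pr D r (prt G (cone D e)) (fun ζ => (wav D r e.1 (prt G (cone D e)) ζ ∩ Bf D e.2).card = a) * k a)]
    · refine Finset.sum_congr rfl fun a ha => ?_
      simp only [k]
      rw [if_pos ha]
    · intro a _ ha
      simp only [k]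
      rw [if_neg ha, mul_zero]
  have h6 := (tendsto_finsetSum (Bf D e.2).powerset h2).add h3
  rw [Finset.sum_const_zero, zero_add] at h6
  refine h6.congr fun G => ?_
  rw [h1 G, ← Finset.sum_add_distrib]
  refine Finset.sum_congr rfl fun S _ => ?_
  ring

/-- TARGET. There are `q`, `u` with the recursion, and `u` is the limit law for every dart. Plain proof. `q a` from `block_law` (`q = ∑_{1 ≤ a ≤ m} q_a X^a`).
By strong induction on `n`: there is `u n` with `pr (|wav| = n) → u n` for all darts. For `n = 0`: `pr (|wav| = 0) = 1 - bet → 1 - H.bt` (if `e.2 ∉ wav` then `wav = ∅`).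
For `n ≥ 1` take the coefficient of `X^n` in `US_rec`: a set `S` with `e.2 ∉ S`, `S ≠ ∅` has probability `0`; `S = ∅` contributes `0` (`n ≥ 1`); for `e.2 ∈ S`, `|S| = a ≥ 1` the product has
`H.jb * a - 1` factors (`card_tail_ch`) and only their coefficients of index `< n` enter, so its coefficient `n - a` tends to that of `(mk u)^(jb a - 1)`; and `∑_{|S| = a} pr (W ∩ B = S) → q a`.
(`u` restricted to indices `< n` is already defined; build `u` with a choice function after proving `∀ n, ∃ u, ∀ e, ...`, the coefficient of `(mk u)^k` at `i` depends only on `u 0..u i`.)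
`q_0 = 0` by convention; `q.eval 1 = lim pr (wav ≠ ∅) = H.bt`; `q.coeff 1 > 0` by `Ctx.pr_ge`, `wav_chS`, `chS_mem'` (`S = {e.2}`); criticality: `∑_a q_a (jb a - 1) = lim ∑_c ue e.1 G_e c.1 = ∑_c ueL e c.1 = 1`
by `Ctx.critical`, since `∑_c 1[c.1 ∈ wav] = jb |wav ∩ B| - 1` if `wav ≠ ∅`. -/
theorem Ctx.limit_law (H : Ctx D r) : ∃ (q : Polynomial ℝ) (u : ℕ → ℝ),
    (∀ a, 0 ≤ q.coeff a) ∧ q.coeff 0 = 0 ∧ 0 < q.coeff 1 ∧ q.eval 1 = H.bt ∧
    (H.jb : ℝ) * q.derivative.eval 1 - q.eval 1 = 1 ∧ u 0 = 1 - H.bt ∧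
    (∀ n : ℕ, 1 ≤ n → u n = ∑ a ∈ Finset.Icc 1 n, q.coeff a *
        PowerSeries.coeff (n - a) ((PowerSeries.mk u) ^ (H.jb * a - 1))) ∧
    ∀ e : V × V, BD D e.1 e.2 → ∀ n : ℕ, Tendsto (fun G => pr D r (prt G (cone D e)) (fun ζ => (wav D r e.1 (prt G (cone D e)) ζ).card = n))
      atTop (𝓝 (u n)) := by
  choose qf hq using H.block_law
  obtain ⟨e0, he0⟩ := H.exists_BD
  -- the limits
  have hlim0 : ∀ e : V × V, BD D e.1 e.2 → Tendsto (fun G => pr D r (prt G (cone D e))
      (fun ζ => (wav D r e.1 (prt G (cone D e)) ζ).card = 0)) atTop (𝓝 (1 - H.bt)) := by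
    intro e he
    have h1 := (H.tendsto_bet he).const_sub 1
    rw [H.betL_bt he] at h1
    refine h1.congr fun G => ?_
    rw [m9b_bet he, ← m9b_pr_not H]
    exact m9b_pr_congr _ fun ζ hζ => (m9b_card_zero he hζ).symm
  have hex : ∀ n : ℕ, ∃ l : ℝ, ∀ e : V × V, BD D e.1 e.2 → Tendsto (fun G => pr D r (prt G (cone D e))
      (fun ζ => (wav D r e.1 (prt G (cone D e)) ζ).card = n)) atTop (𝓝 l) := by
    intro n
    induction n using Nat.strong_induction_on with
    | _ n ih =>
      by_cases hn : n = 0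
      · subst hn; exact ⟨_, hlim0⟩
      · choose! l hl using ih
        exact ⟨_, fun e he => m9b_step H qf hq l n (by omega) hl e he⟩
  choose u hu using hex
  have hu0 : u 0 = 1 - H.bt := tendsto_nhds_unique (hu 0 e0 he0) (hlim0 e0 he0)
  have hun : ∀ n : ℕ, 1 ≤ n → u n = ∑ a ∈ Finset.Icc 1 n, qf a *
        PowerSeries.coeff (n - a) ((PowerSeries.mk u) ^ (H.jb * a - 1)) := fun n hn =>
    tendsto_nhds_unique (hu n e0 he0) (m9b_step H qf hq u n hn (fun m _ => hu m) e0 he0)
  -- properties of the block law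
  have hqf0 : ∀ a, 0 ≤ qf a := fun a => ge_of_tendsto' (hq a e0 he0) fun G => m9b_pr_nonneg _ _
  have hcardB : (Bf D e0.2).card = H.msz := H.card_Bf_eq _
  have hle : ∀ G ζ, (wav D r e0.1 (prt G (cone D e0)) ζ ∩ Bf D e0.2).card ≤ H.msz := by
    intro G ζ
    rw [← hcardB]
    exact Finset.card_le_card Finset.inter_subset_right
  have hqfbig : ∀ a, H.msz < a → qf a = 0 := by
    intro a ha
    refine tendsto_nhds_unique (hq a e0 he0) ?_
    refine (tendsto_const_nhds (x := (0 : ℝ))).congr fun G => ?_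
    symm
    refine m9b_pr_zero _ _ ?_
    intro ζ _ h
    have := hle G ζ
    omega
  have hmsz : 1 ≤ H.msz := by
    rw [← hcardB]; exact Finset.card_pos.2 ⟨_, H.self_mem_Bf _⟩
  let q : Polynomial ℝ := ∑ a ∈ Finset.Icc 1 H.msz, Polynomial.monomial a (qf a)
  have hqc : ∀ a, q.coeff a = if a ∈ Finset.Icc 1 H.msz then qf a else 0 := by
    intro a
    simp only [q, Polynomial.finsetSum_coeff, Polynomial.coeff_monomial]
    rw [Finset.sum_ite_eq']
  have hqc1 : ∀ a, 1 ≤ a → q.coeff a = qf a := by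
    intro a ha
    rw [hqc]
    split_ifs with h
    · rfl
    · rw [Finset.mem_Icc] at h
      exact (hqfbig a (by omega)).symm
  -- general summation
  have hsum : ∀ (h : ℕ → ℝ) (G : Finset V), ∑ a ∈ Finset.Icc 1 H.msz, pr D r (prt G (cone D e0))
      (fun ζ => (wav D r e0.1 (prt G (cone D e0)) ζ ∩ Bf D e0.2).card = a) * h a =
      (∑ ζ ∈ Rc D r (prt G (cone D e0)), if e0.2 ∈ wav D r e0.1 (prt G (cone D e0)) ζ then
        h (wav D r e0.1 (prt G (cone D e0)) ζ ∩ Bf D e0.2).card else 0) / (Rc D r (prt G (cone D e0))).card := by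
    intro h G
    have e2 := m9b_fiber (D := D) (r := r) (prt G (cone D e0))
      (fun ζ => (wav D r e0.1 (prt G (cone D e0)) ζ ∩ Bf D e0.2).card) (Finset.range (H.msz + 1))
      (fun ζ _ => by
        rw [Finset.mem_range]
        have := hle G ζ
        omega) (fun a => if 1 ≤ a then h a else 0)
    have hsub : Finset.Icc 1 H.msz ⊆ Finset.range (H.msz + 1) := by
      intro a ha
      rw [Finset.mem_Icc] at ha
      rw [Finset.mem_range]; omega
    have e3 : ∑ a ∈ Finset.Icc 1 H.msz, pr D r (prt G (cone D e0))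
      (fun ζ => (wav D r e0.1 (prt G (cone D e0)) ζ ∩ Bf D e0.2).card = a) * h a =
      ∑ a ∈ Finset.range (H.msz + 1), pr D r (prt G (cone D e0))
      (fun ζ => (wav D r e0.1 (prt G (cone D e0)) ζ ∩ Bf D e0.2).card = a) * (if 1 ≤ a then h a else 0) := by
      rw [← Finset.sum_subset hsub (f := fun a => pr D r (prt G (cone D e0))
        (fun ζ => (wav D r e0.1 (prt G (cone D e0)) ζ ∩ Bf D e0.2).card = a) * (if 1 ≤ a then h a else 0))]
      · refine Finset.sum_congr rfl fun a ha => ?_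
        rw [Finset.mem_Icc] at ha
        rw [if_pos ha.1]
      · intro a ha ha'
        rw [Finset.mem_range] at ha
        rw [Finset.mem_Icc] at ha'
        rw [if_neg (by omega), mul_zero]
    rw [e3, e2]
    congr 1
    refine Finset.sum_congr rfl fun ζ hζ => ?_
    have e4 := m9b_inter_zero H he0 hζ
    by_cases hx : e0.2 ∈ wav D r e0.1 (prt G (cone D e0)) ζ
    · rw [if_pos hx, if_pos]
      by_contra hcon
      exact (e4.1 (by omega)) hx
    · rw [if_neg hx, if_neg]
      have := e4.2 hx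
      omega
  have hbt : ∑ a ∈ Finset.Icc 1 H.msz, qf a = H.bt := by
    have h1 : Tendsto (fun G => ∑ a ∈ Finset.Icc 1 H.msz, pr D r (prt G (cone D e0))
      (fun ζ => (wav D r e0.1 (prt G (cone D e0)) ζ ∩ Bf D e0.2).card = a) * (1 : ℝ)) atTop
      (𝓝 (∑ a ∈ Finset.Icc 1 H.msz, qf a * (1 : ℝ))) :=
      tendsto_finsetSum _ fun a _ => (hq a e0 he0).mul_const _
    have h2 := H.tendsto_bet he0
    rw [H.betL_bt he0] at h2
    have h3 := tendsto_nhds_unique (h1.congr fun G => ?_) h2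
    · simpa using h3
    · rw [hsum (fun _ => 1) G, m9b_bet he0, m9b_pr_sum _ _ (fun _ => inferInstance)]
  have hcrit : ∑ a ∈ Finset.Icc 1 H.msz, qf a * ((H.jb : ℝ) * a - 1) = 1 := by
    have h1 : Tendsto (fun G => ∑ a ∈ Finset.Icc 1 H.msz, pr D r (prt G (cone D e0))
      (fun ζ => (wav D r e0.1 (prt G (cone D e0)) ζ ∩ Bf D e0.2).card = a) * ((H.jb : ℝ) * a - 1)) atTop
      (𝓝 (∑ a ∈ Finset.Icc 1 H.msz, qf a * ((H.jb : ℝ) * a - 1))) :=
      tendsto_finsetSum _ fun a _ => (hq a e0 he0).mul_const _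
    have h2 : Tendsto (fun G : Finset V => ∑ c ∈ ch D e0, ue D r e0.1 (prt G (cone D e0)) c.1) atTop
      (𝓝 (∑ c ∈ ch D e0, ueL D r e0 c.1)) := tendsto_finsetSum _ fun c _ => H.tendsto_ue he0 c.1
    rw [H.critical he0] at h2
    refine tendsto_nhds_unique (h1.congr fun G => ?_) h2
    rw [hsum (fun a => (H.jb : ℝ) * a - 1) G]
    have h3 : ∀ c ∈ ch D e0, ue D r e0.1 (prt G (cone D e0)) c.1 =
        (∑ ζ ∈ Rc D r (prt G (cone D e0)), if c.1 ∈ wav D r e0.1 (prt G (cone D e0)) ζ then (1 : ℝ) else 0) /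
          (Rc D r (prt G (cone D e0))).card := by
      intro c hc
      have hne : c.1 ≠ e0.1 := by
        intro h
        have h5 := (H.dec_ch he0).sub c.1 ((H.dec_ch he0).fst c hc)
        rw [h] at h5
        exact fst_notMem_cone he0 h5
      rw [ue_ne hne, cnt_eq_sum]
      push_cast
      rfl
    rw [Finset.sum_congr rfl h3, ← Finset.sum_div, Finset.sum_comm]
    congr 1
    refine Finset.sum_congr rfl fun ζ hζ => ?_
    have h6 : ∑ c ∈ ch D e0, (if c.1 ∈ wav D r e0.1 (prt G (cone D e0)) ζ then (1 : ℝ) else 0) =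
        (((ch D e0).filter (fun c => c.1 ∈ wav D r e0.1 (prt G (cone D e0)) ζ ∩ Bf D e0.2)).card : ℝ) := by
      rw [Finset.card_filter]
      push_cast
      refine Finset.sum_congr rfl fun c hc => ?_
      have h7 := (H.dec_ch he0).fst c hc
      simp only [Finset.mem_inter, h7, and_true]
    rw [h6]
    by_cases hx : e0.2 ∈ wav D r e0.1 (prt G (cone D e0)) ζ
    · rw [if_pos hx]
      have h8 := H.card_tail_ch he0 (wav D r e0.1 (prt G (cone D e0)) ζ ∩ Bf D e0.2)
        Finset.inter_subset_right (Finset.mem_inter.2 ⟨hx, H.self_mem_Bf _⟩)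
      rw [h8]
      have h9 : 1 ≤ (wav D r e0.1 (prt G (cone D e0)) ζ ∩ Bf D e0.2).card :=
        Finset.card_pos.2 ⟨_, Finset.mem_inter.2 ⟨hx, H.self_mem_Bf _⟩⟩
      have h10 : 1 ≤ H.jb * (wav D r e0.1 (prt G (cone D e0)) ζ ∩ Bf D e0.2).card :=
        Nat.mul_pos H.jb_pos h9
      rw [Nat.cast_sub h10]
      push_cast
      rfl
    · rw [if_neg hx]
      have h8 := (m9b_card_zero he0 hζ).2 hx
      rw [Finset.card_eq_zero] at h8
      rw [h8]
      simp
  have hq1 : 0 < qf 1 := by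
    have hr := H.rpos
    have hg := H.g0_pos
    have hpos : 0 < H.g0 ^ (ch D e0).card / (r : ℝ) ^ (Bf D e0.2).card := by positivity
    refine lt_of_lt_of_le hpos (ge_of_tendsto (hq 1 e0 he0) ?_)
    filter_upwards [eventually_ge_atTop (Bf D e0.2)] with G hG
    refine (H.pr_ge (H.dec_ch he0) hG _ (H.chS_mem' e0.2)).trans ?_
    refine m9b_pr_mono _ fun ζ hζ h => ?_
    have := H.wav_chS he0 hG (S := {e0.2}) (Or.inl rfl) hζ h
    rw [this]
    simp
  refine ⟨q, u, ?_, ?_, ?_, ?_, ?_, hu0, ?_, fun e he n => hu n e he⟩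
  · intro a
    rw [hqc]
    split_ifs
    · exact hqf0 a
    · exact le_refl _
  · rw [hqc]; simp
  · rw [hqc1 1 le_rfl]; exact hq1
  · simp only [q, Polynomial.eval_finsetSum, Polynomial.eval_monomial, one_pow, mul_one]
    exact hbt
  · have e1 : q.derivative.eval 1 = ∑ a ∈ Finset.Icc 1 H.msz, qf a * a := by
      simp only [q, Polynomial.derivative_sum, Polynomial.derivative_monomial,
        Polynomial.eval_finsetSum, Polynomial.eval_monomial, one_pow, mul_one]
    have e2 : q.eval 1 = ∑ a ∈ Finset.Icc 1 H.msz, qf a := by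
      simp only [q, Polynomial.eval_finsetSum, Polynomial.eval_monomial, one_pow, mul_one]
    rw [e1, e2, Finset.mul_sum, ← Finset.sum_sub_distrib, ← hcrit]
    refine Finset.sum_congr rfl fun a _ => ?_
    ring
  · intro n hn
    rw [hun n hn]
    refine Finset.sum_congr rfl fun a ha => ?_
    rw [hqc1 a (Finset.mem_Icc.1 ha).1]

end Pool.Agent.Helper910
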