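import Mathlib
import Pool.Agent.Helper910.M9b
import Pool.Agent.Helper910.A3
import Pool.Agent.Helper910.A4
import Pool.Agent.Helper910.A5

/-! Two-sided bounds for one wave (MP_4555f0_mp) -/

namespace Pool.Agent.Helper910

open Classical Finset Filter Topology

variable {V : Type*} {D : SimpleGraph V} [D.LocallyFinite] {r : ℕ}

omit [D.LocallyFinite] in
theorem m9c_pr_nonneg (G : Finset V) (P : (V → ℕ) → Prop) : 0 ≤ pr D r G P := by
  unfold pr
  positivity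

omit [D.LocallyFinite] in
theorem m9c_sum_pr_le (G : Finset V) (f : (V → ℕ) → ℕ) (n : ℕ) :
    ∑ i ∈ Finset.range n, pr D r G (fun ζ => f ζ = i) ≤ 1 := by
  unfold pr
  rw [← Finset.sum_div]
  apply div_le_one_of_le₀ _ (Nat.cast_nonneg _)
  rw [← Nat.cast_sum]
  apply Nat.cast_le.2
  simp only [Finset.card_filter]
  rw [Finset.sum_comm]
  have h1 : ((Rc D r G).card : ℕ) = ∑ _ζ ∈ Rc D r G, 1 := Finset.card_eq_sum_ones _
  rw [h1]
  refine Finset.sum_le_sum fun ζ _ => ?_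
  by_cases h : f ζ ∈ Finset.range n
  · refine (Finset.sum_eq_single_of_mem (f ζ) h fun b _ hb => ?_).trans_le ?_
    · exact if_neg (Ne.symm hb)
    · rw [if_pos rfl]
  · refine (Finset.sum_eq_zero fun b hb => ?_).trans_le (Nat.zero_le _)
    refine if_neg fun e => h ?_
    rw [e]
    exact hb

/-- TARGET. conclusion from `limit_law`, `A3.hitting` (with `k = 1`), `bounds_of_formula`, `total_mass` -/
theorem Ctx.one_wave (H : Ctx D r) : ∃ u : ℕ → ℝ,
    (∀ e : V × V, BD D e.1 e.2 → ∀ n : ℕ, Tendsto (fun G => pr D r (prt G (cone D e)) (fun ζ => (wav D r e.1 (prt G (cone D e)) ζ).card = n))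
      atTop (𝓝 (u n))) ∧ (∀ n, 0 ≤ u n) ∧ HasSum u 1 ∧
    ∃ c C : ℝ, 0 < c ∧ 0 < C ∧ (∃ n0 : ℕ, ∀ n : ℕ, n0 ≤ n → c / wt n ≤ u n) ∧ (∀ n : ℕ, 1 ≤ n → u n ≤ C / wt n) := by
  obtain ⟨q, u, hq, hq0, hq1, hqb, hcrit, hu0, hu, hlim⟩ := H.limit_law
  obtain ⟨x⟩ := H.nonempty
  obtain ⟨y, hy⟩ := H.bridge_at x
  have hb1 : H.bt < 1 := by
    have h1 := H.bt_lt
    have h2 := H.g0_pos
    linarith
  have hnn : ∀ n, 0 ≤ u n := fun n =>
    ge_of_tendsto' (hlim (x, y) hy n) fun G => m9c_pr_nonneg _ _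
  have hle : ∀ n, ∑ i ∈ Finset.range n, u i ≤ 1 := fun n =>
    le_of_tendsto' (tendsto_finsetSum _ fun i _ => hlim (x, y) hy i) fun G => m9c_sum_pr_le _ _ n
  have hsum := total_mass H.jb H.jb_pos q hq hq0 H.bt hqb.symm hb1 hcrit u hnn hle hu0 hu
  have hform := fun n => A3.hitting H.jb H.jb_pos q hq0 H.bt u hu0 hu 1 le_rfl n
  obtain ⟨c, C, hc, hC, h1, h2⟩ := bounds_of_formula H.jb H.jb_pos q hq hq0 hq1 H.bt hqb.symm hb1
    hcrit u fun n => by
      have h3 := hform n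
      rw [pow_one, PowerSeries.coeff_mk, Nat.cast_one] at h3
      exact h3
  exact ⟨u, hlim, hnn, hsum, c, C, hc, hC, h1, h2⟩

end Pool.Agent.Helper910
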