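import Mathlib
import Pool.Agent.Helper910.M9c

/-! Tails, and one wave (MP_4555f0_mp) -/

namespace Pool.Agent.Helper910

open Classical Finset Filter Topology

variable {V : Type*} {D : SimpleGraph V} [D.LocallyFinite] {r : ℕ}

omit [D.LocallyFinite] in
theorem m10a_pr_eq (G : Finset V) (P : (V → ℕ) → Prop) [DecidablePred P] :
    pr D r G P = (((Rc D r G).filter P).card : ℝ) / (Rc D r G).card := by
  unfold pr
  congr!

omit [D.LocallyFinite] in
/-- an event about the `i`-th wave has the same count as the one about the first wave -/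
theorem m10a_card_itw (hd : DegLe D r) {v : V} {G : Finset V} (hv : v ∉ G) (P : Finset V → Prop) [DecidablePred P]
    (i : ℕ) :
    ((Rc D r G).filter (fun ζ => P (wv D r v G ζ i))).card =
      ((Rc D r G).filter (fun ζ => P (wav D r v G ζ))).card := by
  have h := sum_itw (D := D) (r := r) hd hv (fun ζ => if P (wav D r v G ζ) then (1 : ℕ) else 0) i
  rw [Finset.card_filter, Finset.card_filter]
  exact h

/-- TARGET. `|rg t| ≤ ∑_{i<t} |wave i|`, so some wave has `M ≤ t |wave i|`; union bound and `sum_itw` -/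
theorem Ctx.rg_tail (H : Ctx D r) (G : Finset V) {e : V × V} (he : BD D e.1 e.2) (t M : ℕ) (hM : 1 ≤ M) :
    pr D r (prt G (cone D e)) (fun ζ => M ≤ (rg D r e.1 (prt G (cone D e)) t ζ).card) ≤
      t * pr D r (prt G (cone D e)) (fun ζ => M ≤ t * (wav D r e.1 (prt G (cone D e)) ζ).card) := by
  set G' := prt G (cone D e) with hG'
  have hv : e.1 ∉ G' := src_notMem he
  have hsub : (Rc D r G').filter (fun ζ => M ≤ (rg D r e.1 G' t ζ).card) ⊆
      (range t).biUnion (fun i => (Rc D r G').filter (fun ζ => M ≤ t * (wv D r e.1 G' ζ i).card)) := by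
    intro ζ hζ
    rw [Finset.mem_filter] at hζ
    obtain ⟨hR, hζ⟩ := hζ
    rw [Finset.mem_biUnion]
    by_contra hcon
    push Not at hcon
    have h1 : ∀ i ∈ range t, t * (wv D r e.1 G' ζ i).card ≤ M - 1 := by
      intro i hi
      have := hcon i hi
      rw [Finset.mem_filter, not_and] at this
      have := this hR
      omega
    have h2 : (rg D r e.1 G' t ζ).card ≤ ∑ i ∈ range t, (wv D r e.1 G' ζ i).card :=
      Finset.card_biUnion_le
    have h3 : t * ∑ i ∈ range t, (wv D r e.1 G' ζ i).card ≤ t * (M - 1) := by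
      rw [Finset.mul_sum]
      refine (Finset.sum_le_sum h1).trans ?_
      simp
    rcases Nat.eq_zero_or_pos t with h0 | h0
    · subst h0
      simp at h2
      rw [h2] at hζ
      simp at hζ
      omega
    · have h4 := Nat.le_of_mul_le_mul_left h3 h0
      omega
  have hcard : ((Rc D r G').filter (fun ζ => M ≤ (rg D r e.1 G' t ζ).card)).card ≤
      t * ((Rc D r G').filter (fun ζ => M ≤ t * (wav D r e.1 G' ζ).card)).card := by
    refine (Finset.card_le_card hsub).trans (Finset.card_biUnion_le.trans ?_)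
    have hs : ∀ i ∈ range t, ((Rc D r G').filter (fun ζ => M ≤ t * (wv D r e.1 G' ζ i).card)).card ≤
        ((Rc D r G').filter (fun ζ => M ≤ t * (wav D r e.1 G' ζ).card)).card := fun i _ =>
      (m10a_card_itw (D := D) (r := r) H.degLe hv (fun W => M ≤ t * W.card) i).le
    refine (Finset.sum_le_sum hs).trans ?_
    simp
  rw [m10a_pr_eq, m10a_pr_eq]
  rw [← mul_div_assoc]
  refine div_le_div_of_nonneg_right ?_ (Nat.cast_nonneg _)
  exact_mod_cast hcard

theorem m10a_pr_tail (H : Ctx D r) (G : Finset V) (f : (V → ℕ) → ℕ) (M : ℕ) :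
    pr D r G (fun ζ => M ≤ f ζ) = 1 - ∑ l ∈ range M, pr D r G (fun ζ => f ζ = l) := by
  have hpos : (0 : ℝ) < (Rc D r G).card := by exact_mod_cast H.card_Rc_pos G
  have h1 : ∑ l ∈ range M, pr D r G (fun ζ => f ζ = l) = pr D r G (fun ζ => f ζ < M) := by
    rw [m10a_pr_eq]
    rw [Finset.sum_congr rfl (fun l _ => m10a_pr_eq (D := D) (r := r) G (fun ζ => f ζ = l))]
    rw [← Finset.sum_div]
    congr 1
    rw [← Nat.cast_sum]
    congr 1
    rw [← Finset.card_biUnion]
    · congr 1
      ext ζ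
      simp only [Finset.mem_biUnion, Finset.mem_range, Finset.mem_filter]
      constructor
      · rintro ⟨a, ha, hR, hf⟩
        exact ⟨hR, hf ▸ ha⟩
      · rintro ⟨hR, hf⟩
        exact ⟨f ζ, hf, hR, rfl⟩
    · intro a _ b _ hab
      rw [Function.onFun, Finset.disjoint_left]
      intro ζ h h'
      rw [Finset.mem_filter] at h h'
      exact hab (h.2.symm.trans h'.2)
  rw [h1, m10a_pr_eq, m10a_pr_eq]
  have h2 : ((Rc D r G).filter (fun ζ => M ≤ f ζ)).card + ((Rc D r G).filter (fun ζ => f ζ < M)).card =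
      (Rc D r G).card := by
    have := Finset.card_filter_add_card_filter_not (s := Rc D r G) (fun ζ => M ≤ f ζ)
    simpa only [not_le] using this
  have h3 : (((Rc D r G).filter (fun ζ => M ≤ f ζ)).card : ℝ) + (((Rc D r G).filter (fun ζ => f ζ < M)).card : ℝ) =
      ((Rc D r G).card : ℝ) := by exact_mod_cast h2
  rw [eq_sub_iff_add_eq, ← add_div, h3, div_self hpos.ne']

theorem m10a_wt_step {l : ℕ} (hl : 1 ≤ l) :
    1 / wt l ≤ 4 * (1 / Real.sqrt l - 1 / Real.sqrt ((l + 1 : ℕ) : ℝ)) := by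
  have hl' : (1 : ℝ) ≤ l := by exact_mod_cast hl
  set a := Real.sqrt l with ha
  set b := Real.sqrt ((l + 1 : ℕ) : ℝ) with hb
  have ha2 : a ^ 2 = l := Real.sq_sqrt (by linarith)
  have hb2 : b ^ 2 = l + 1 := by
    rw [hb, Real.sq_sqrt (by positivity)]; push_cast; ring
  have ha1 : 1 ≤ a := by
    rw [ha]; exact Real.one_le_sqrt.mpr hl'
  have hbp : 0 < b := Real.sqrt_pos.mpr (by positivity)
  have hab : a < b := Real.sqrt_lt_sqrt (by linarith) (by push_cast; linarith)
  have hb2a : b ≤ 2 * a := by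
    nlinarith
  have hprod : (b - a) * (b + a) = 1 := by nlinarith
  have e1 : 1 / a - 1 / b = (b - a) / (a * b) := by field_simp
  have e2 : wt l = a ^ 3 := by
    unfold wt; rw [← ha, ← ha2]; ring
  rw [e1, e2, ← mul_div_assoc, div_le_div_iff₀ (by positivity) (by positivity)]
  have h5 : b * (b + a) ≤ 4 * a ^ 2 := by nlinarith
  -- a b ≤ 4 (b - a) a^3
  have h6 : b ≤ 4 * a ^ 2 * (b - a) := by
    have h7 : b * (b + a) * (b - a) ≤ 4 * a ^ 2 * (b - a) :=
      mul_le_mul_of_nonneg_right h5 (by linarith)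
    have h8 : b * (b + a) * (b - a) = b := by
      calc b * (b + a) * (b - a) = b * ((b - a) * (b + a)) := by ring
        _ = b := by rw [hprod, mul_one]
    linarith
  calc 1 * (a * b) = a * b := one_mul _
    _ ≤ a * (4 * a ^ 2 * (b - a)) := mul_le_mul_of_nonneg_left h6 (by linarith)
    _ = 4 * (b - a) * a ^ 3 := by ring

theorem m10a_sum_tail (u : ℕ → ℝ) (C : ℝ) (hC : 0 < C) (hu : HasSum u 1) (hu2 : ∀ n : ℕ, 1 ≤ n → u n ≤ C / wt n)
    (M : ℕ) (hM : 1 ≤ M) : 1 - ∑ l ∈ range M, u l ≤ 4 * C / Real.sqrt M := by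
  have key : ∀ k : ℕ, ∑ l ∈ range (M + k), u l - ∑ l ∈ range M, u l ≤
      4 * C * (1 / Real.sqrt M - 1 / Real.sqrt ((M + k : ℕ) : ℝ)) := by
    intro k
    induction k with
    | zero => simp
    | succ k ih =>
      have h1 : M + (k + 1) = (M + k) + 1 := rfl
      rw [h1, Finset.sum_range_succ]
      have h2 := hu2 (M + k) (by omega)
      have h3 := m10a_wt_step (l := M + k) (by omega)
      have h4 : C / wt (M + k) = C * (1 / wt (M + k)) := by ring
      have h5 : C * (1 / wt (M + k)) ≤ C * (4 * (1 / Real.sqrt ((M + k : ℕ) : ℝ) -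
          1 / Real.sqrt ((M + k + 1 : ℕ) : ℝ))) := mul_le_mul_of_nonneg_left h3 hC.le
      linarith
  have h1 : Tendsto (fun k : ℕ => ∑ l ∈ range (M + k), u l - ∑ l ∈ range M, u l) atTop
      (𝓝 (1 - ∑ l ∈ range M, u l)) := by
    refine Tendsto.sub_const ?_ _
    have h2 := hu.tendsto_sum_nat
    have h3 : Tendsto (fun k : ℕ => M + k) atTop atTop := tendsto_add_atTop_iff_nat M |>.mpr tendsto_id |>.congr (fun k => by simp [add_comm])
    exact h2.comp h3
  refine le_of_tendsto' h1 (fun k => (key k).trans ?_)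
  have h4 : 0 ≤ 1 / Real.sqrt ((M + k : ℕ) : ℝ) := by positivity
  rw [mul_sub, mul_one_div]
  have h5 : 0 ≤ 4 * C * (1 / Real.sqrt ((M + k : ℕ) : ℝ)) := by positivity
  linarith

/-- TARGET. from `one_wave`: `pr (|W| ≥ M1) = 1 - ∑_{l < M1} pr (|W| = l) → ∑_{l ≥ M1} u l ≤ C' / √M1`; so for a suitable constant, eventually in `G`. -/
theorem Ctx.tail (H : Ctx D r) : ∃ C : ℝ, 0 < C ∧ ∀ e : V × V, BD D e.1 e.2 → ∀ M : ℕ, 1 ≤ M →
    ∀ᶠ G in (atTop : Filter (Finset V)), pr D r (prt G (cone D e)) (fun ζ => M ≤ (wav D r e.1 (prt G (cone D e)) ζ).card) ≤ C / Real.sqrt M := by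
  obtain ⟨u, hu1, -, hus, c, C, -, hC, -, hub⟩ := H.one_wave
  refine ⟨4 * C + 1, by positivity, ?_⟩
  intro e he M hM
  have hlim : Tendsto (fun G : Finset V => pr D r (prt G (cone D e))
      (fun ζ => M ≤ (wav D r e.1 (prt G (cone D e)) ζ).card)) atTop (𝓝 (1 - ∑ l ∈ range M, u l)) := by
    have h1 : Tendsto (fun G : Finset V => 1 - ∑ l ∈ range M, pr D r (prt G (cone D e))
        (fun ζ => (wav D r e.1 (prt G (cone D e)) ζ).card = l)) atTop (𝓝 (1 - ∑ l ∈ range M, u l)) := by
      refine Tendsto.const_sub 1 ?_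
      exact tendsto_finsetSum _ (fun l _ => hu1 e he l)
    refine h1.congr (fun G => ?_)
    exact (m10a_pr_tail H (prt G (cone D e)) (fun ζ => (wav D r e.1 (prt G (cone D e)) ζ).card) M).symm
  have hMp : (0 : ℝ) < Real.sqrt M := Real.sqrt_pos.mpr (by exact_mod_cast hM)
  have hlt : 1 - ∑ l ∈ range M, u l < (4 * C + 1) / Real.sqrt M := by
    refine lt_of_le_of_lt (m10a_sum_tail u C hC hus hub M hM) ?_
    exact div_lt_div_of_pos_right (by linarith) hMp
  exact (hlim.eventually_lt_const hlt).mono (fun G hG => hG.le)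

theorem m10a_mx_le {f : ℕ → ℝ} {n : ℕ} {K : ℝ} (hK : 0 ≤ K) (h : ∀ l, 1 ≤ l → l ≤ n → f l ≤ K) : mx f n ≤ K := by
  rcases mx_eq f n with h0 | ⟨l, h1, h2, h3⟩
  · rw [h0]; exact hK
  · rw [h3]; exact h l h1 h2

/-- TARGET. `mm e 0 n = 0` and eventually `mm e 1 n ≤ C` (only the response set `{0}` has waves with at least one vertex; `mx` over the finitely many `l ≤ n`, `u l ≤ C / wt l`) -/
theorem Ctx.mm_small (H : Ctx D r) : ∃ C : ℝ, 0 < C ∧ ∀ e : V × V, BD D e.1 e.2 → ∀ n : ℕ, (∀ G, mm D r G e 0 n = 0) ∧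
    ∀ᶠ G in (atTop : Filter (Finset V)), mm D r G e 1 n ≤ C := by
  obtain ⟨u, hu1, -, hus, c, C, -, hC, -, hub⟩ := H.one_wave
  refine ⟨2 * (C + 1), by positivity, ?_⟩
  intro e he n
  constructor
  · intro G
    unfold mm mc
    have : ∑ s ∈ (range 0).powerset, mx (fun l => wt l * (cf D r e.1 (prt G (cone D e)) e.2 0 s l : ℝ)) n = 0 := by
      refine Finset.sum_eq_zero (fun s _ => ?_)
      rcases mx_eq (fun l => wt l * (cf D r e.1 (prt G (cone D e)) e.2 0 s l : ℝ)) n with h0 | ⟨l, h1, h2, h3⟩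
      · exact h0
      · rw [h3]
        have : cf D r e.1 (prt G (cone D e)) e.2 0 s l = 0 := by
          unfold cf
          rw [Finset.card_eq_zero, Finset.filter_eq_empty_iff]
          rintro ζ _ ⟨_, h⟩
          have : rg D r e.1 (prt G (cone D e)) 0 ζ = ∅ := by simp [rg]
          rw [this, Finset.card_empty] at h
          omega
        rw [this]; simp
    rw [this, zero_div]
  · have hev : ∀ᶠ G in (atTop : Filter (Finset V)), ∀ l ∈ Finset.Icc 1 n,
        wt l * pr D r (prt G (cone D e)) (fun ζ => (wav D r e.1 (prt G (cone D e)) ζ).card = l) ≤ C + 1 := by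
      rw [Filter.eventually_all_finset]
      intro l hl
      rw [Finset.mem_Icc] at hl
      have hlim := (hu1 e he l).const_mul (wt l)
      have hwt : 0 < wt l := by
        unfold wt
        have : (0 : ℝ) < l := by exact_mod_cast hl.1
        positivity
      have hlt : wt l * u l < C + 1 := by
        have h1 := hub l hl.1
        have h2 : wt l * u l ≤ wt l * (C / wt l) := mul_le_mul_of_nonneg_left h1 hwt.le
        rw [mul_div_cancel₀ _ hwt.ne'] at h2
        linarith
      exact (hlim.eventually_lt_const hlt).mono (fun G hG => hG.le)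
    filter_upwards [hev] with G hG
    have hpos : (0 : ℝ) < (Rc D r (prt G (cone D e))).card := by
      exact_mod_cast H.card_Rc_pos (prt G (cone D e))
    unfold mm
    rw [div_le_iff₀ hpos]
    unfold mc
    have hterm : ∀ s ∈ (range 1).powerset,
        mx (fun l => wt l * (cf D r e.1 (prt G (cone D e)) e.2 1 s l : ℝ)) n ≤
          (C + 1) * ((Rc D r (prt G (cone D e))).card : ℝ) := by
      intro s _
      refine m10a_mx_le (by positivity) (fun l h1 h2 => ?_)
      have h3 := hG l (Finset.mem_Icc.mpr ⟨h1, h2⟩)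
      have hwt : 0 ≤ wt l := by unfold wt; positivity
      have h4 : (cf D r e.1 (prt G (cone D e)) e.2 1 s l : ℝ) ≤
          (((Rc D r (prt G (cone D e))).filter
            (fun ζ => (wav D r e.1 (prt G (cone D e)) ζ).card = l)).card : ℝ) := by
        unfold cf
        have : ((Rc D r (prt G (cone D e))).filter (fun ζ => rp D r e.1 (prt G (cone D e)) e.2 1 ζ = s ∧
            (rg D r e.1 (prt G (cone D e)) 1 ζ).card = l)) ⊆
            ((Rc D r (prt G (cone D e))).filter
            (fun ζ => (wav D r e.1 (prt G (cone D e)) ζ).card = l)) := by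
          intro ζ hζ
          rw [Finset.mem_filter] at hζ ⊢
          refine ⟨hζ.1, ?_⟩
          have h5 : rg D r e.1 (prt G (cone D e)) 1 ζ = wav D r e.1 (prt G (cone D e)) ζ := by
            simp [rg, wv, itw]
          rw [← h5]; exact hζ.2.2
        exact_mod_cast Finset.card_le_card this
      rw [m10a_pr_eq] at h3
      rw [← mul_div_assoc, div_le_iff₀ hpos] at h3
      exact (mul_le_mul_of_nonneg_left h4 hwt).trans h3
    calc ∑ s ∈ (range 1).powerset, mx (fun l => wt l * (cf D r e.1 (prt G (cone D e)) e.2 1 s l : ℝ)) n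
        ≤ ∑ s ∈ (range 1).powerset, (C + 1) * ((Rc D r (prt G (cone D e))).card : ℝ) :=
          Finset.sum_le_sum hterm
      _ = 2 * (C + 1) * ((Rc D r (prt G (cone D e))).card : ℝ) := by
          rw [Finset.sum_const, Finset.card_powerset, Finset.card_range, nsmul_eq_mul]
          push_cast; ring

end Pool.Agent.Helper910
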