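import Mathlib
import Pool.Agent.Helper910.M10a

/-! Local bounds for several waves (MP_4555f0_mp) -/

namespace Pool.Agent.Helper910

open Classical Finset Filter Topology

variable {V : Type*} {D : SimpleGraph V} [D.LocallyFinite] {r : ℕ}

omit [D.LocallyFinite] in
theorem m10b_pr_nonneg (G : Finset V) (P : (V → ℕ) → Prop) : 0 ≤ pr D r G P := by
  unfold pr
  positivity

omit [D.LocallyFinite] in
theorem m10b_mm_zero (G : Finset V) (e : V × V) (t : ℕ) : mm D r G e t 0 = 0 := by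
  simp [mm, mc, mx]

theorem m10b_dl0_pos (H : Ctx D r) : 0 < H.dl0 := by
  unfold Ctx.dl0
  have h1 := H.g0_pos
  have h2 := H.rpos
  positivity

theorem m10b_dl0_le (H : Ctx D r) : H.dl0 ≤ 1 := by
  unfold Ctx.dl0
  have h1 := H.g0_pos
  have h2 := H.rpos
  have h3 := H.g0_le
  have h4 : H.g0 ^ H.nn ≤ 1 := pow_le_one₀ h1.le (by linarith)
  have h5 : (1 : ℝ) ≤ (r : ℝ) ^ H.msz := one_le_pow₀ H.one_le_r
  rw [div_le_one (by positivity)]
  linarith

/-- tails of the range of `t` waves -/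
theorem m10b_tail (H : Ctx D r) {C : ℝ} (hC : ∀ e : V × V, BD D e.1 e.2 → ∀ M : ℕ, 1 ≤ M →
    ∀ᶠ G in (atTop : Filter (Finset V)), pr D r (prt G (cone D e)) (fun ζ => M ≤ (wav D r e.1 (prt G (cone D e)) ζ).card) ≤ C / Real.sqrt M)
    {t S : ℕ} (ht : 1 ≤ t) (hS : 1 ≤ S) {e : V × V} (he : BD D e.1 e.2) :
    ∀ᶠ G in (atTop : Filter (Finset V)),
      pr D r (prt G (cone D e)) (fun ζ => S ^ 2 * t ^ 3 ≤ (rg D r e.1 (prt G (cone D e)) t ζ).card) ≤ C / S := by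
  have ht0 : t ≠ 0 := by omega
  have hS0 : S ≠ 0 := by omega
  have h1 : 1 ≤ S ^ 2 * t ^ 2 := Nat.one_le_iff_ne_zero.2 (by positivity)
  have h1' : 1 ≤ S ^ 2 * t ^ 3 := Nat.one_le_iff_ne_zero.2 (by positivity)
  filter_upwards [hC e he (S ^ 2 * t ^ 2) h1] with G hG
  refine (H.rg_tail G he t (S ^ 2 * t ^ 3) h1').trans ?_
  have h3 : (fun ζ => S ^ 2 * t ^ 3 ≤ t * (wav D r e.1 (prt G (cone D e)) ζ).card) =
      (fun ζ => S ^ 2 * t ^ 2 ≤ (wav D r e.1 (prt G (cone D e)) ζ).card) := by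
    funext ζ
    have h5 : S ^ 2 * t ^ 3 = t * (S ^ 2 * t ^ 2) := by ring
    rw [h5]
    exact propext ⟨fun h => Nat.le_of_mul_le_mul_left h (by omega), fun h => Nat.mul_le_mul_left t h⟩
  rw [h3]
  have hS' : (0 : ℝ) < S := by exact_mod_cast Nat.pos_of_ne_zero hS0
  have ht' : (0 : ℝ) < t := by exact_mod_cast Nat.pos_of_ne_zero ht0
  have h4 : Real.sqrt ((S ^ 2 * t ^ 2 : ℕ) : ℝ) = S * t := by
    push_cast
    rw [← mul_pow, Real.sqrt_sq (by positivity)]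
  rw [h4] at hG
  calc (t : ℝ) * pr D r (prt G (cone D e)) (fun ζ => S ^ 2 * t ^ 2 ≤ (wav D r e.1 (prt G (cone D e)) ζ).card)
      ≤ t * (C / (S * t)) := mul_le_mul_of_nonneg_left hG ht'.le
    _ = C / S := by field_simp

theorem m10b_geom {K : ℝ} (hK : 2 ≤ K) (t : ℕ) : ∑ i ∈ range t, K ^ (i + 1) ≤ 2 * K ^ t := by
  induction t with
  | zero => simp
  | succ t ih =>
    rw [Finset.sum_range_succ]
    have h1 : 0 < K ^ t := by positivity
    have h2 : K ^ (t + 1) = K ^ t * K := pow_succ K t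
    nlinarith

/-- the numerical induction step -/
theorem m10b_step {ι : Type*} (s : Finset ι) (mu P : ι → ℝ) (m : ι → ℕ → ℝ) (t : ℕ) {δ q A PB K w Q k : ℝ}
    (hk : 0 ≤ k) (hq : 0 ≤ q) (hA : 0 ≤ A) (hPB0 : 0 ≤ PB) (hK : 2 ≤ K)
    (hmu : ∀ c ∈ s, 0 ≤ mu c) (hmus : k * ∑ c ∈ s, mu c ≤ 1 - δ / 2)
    (hP : ∀ c ∈ s, 0 ≤ P c ∧ P c ≤ PB) (hPB : (s.card : ℝ) * (A * PB) ≤ δ / 4)
    (hm : ∀ c ∈ s, ∀ i ∈ range (t + 1), m c i ≤ K ^ (i + 1))
    (hw : w ≤ Q * K ^ t) (hbig : Q + 2 * ((s.card : ℝ) * q) + δ / 2 ≤ δ / 4 * K) :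
    w + ∑ c ∈ s, (k * mu c * m c t + q * ∑ i ∈ range t, m c i + A * P c * ∑ i ∈ range (t + 1), m c i) ≤ K ^ (t + 1) := by
  have hg := m10b_geom hK t
  have hpos : 0 < K ^ t := by positivity
  have hpos' : 0 < K ^ (t + 1) := by positivity
  have hSg : 0 ≤ ∑ i ∈ range t, K ^ (i + 1) := Finset.sum_nonneg (fun i _ => by positivity)
  have h1 : ∀ c ∈ s, k * mu c * m c t + q * ∑ i ∈ range t, m c i + A * P c * ∑ i ∈ range (t + 1), m c i ≤
      k * mu c * K ^ (t + 1) + (q * (2 * K ^ t) + A * PB * (2 * K ^ t + K ^ (t + 1))) := by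
    intro c hc
    have a1 : m c t ≤ K ^ (t + 1) := hm c hc t (Finset.mem_range.2 (Nat.lt_succ_self t))
    have a2 : ∑ i ∈ range t, m c i ≤ 2 * K ^ t := by
      refine le_trans (Finset.sum_le_sum (fun i hi => hm c hc i ?_)) hg
      exact Finset.mem_range.2 (Nat.lt_succ_of_lt (Finset.mem_range.1 hi))
    have a3 : ∑ i ∈ range (t + 1), m c i ≤ 2 * K ^ t + K ^ (t + 1) := by
      rw [Finset.sum_range_succ]
      linarith
    have b1 : k * mu c * m c t ≤ k * mu c * K ^ (t + 1) :=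
      mul_le_mul_of_nonneg_left a1 (mul_nonneg hk (hmu c hc))
    have b2 : q * ∑ i ∈ range t, m c i ≤ q * (2 * K ^ t) := mul_le_mul_of_nonneg_left a2 hq
    have b3 : A * P c * ∑ i ∈ range (t + 1), m c i ≤ A * PB * (2 * K ^ t + K ^ (t + 1)) :=
      calc A * P c * ∑ i ∈ range (t + 1), m c i ≤ A * P c * (2 * K ^ t + K ^ (t + 1)) :=
            mul_le_mul_of_nonneg_left a3 (mul_nonneg hA (hP c hc).1)
        _ ≤ A * PB * (2 * K ^ t + K ^ (t + 1)) :=
            mul_le_mul_of_nonneg_right (mul_le_mul_of_nonneg_left (hP c hc).2 hA) (by positivity)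
    linarith
  have h2 := Finset.sum_le_sum h1
  have h2' : ∑ c ∈ s, (k * mu c * K ^ (t + 1) + (q * (2 * K ^ t) + A * PB * (2 * K ^ t + K ^ (t + 1)))) =
      k * (∑ c ∈ s, mu c) * K ^ (t + 1) + (s.card : ℝ) * (q * (2 * K ^ t) + A * PB * (2 * K ^ t + K ^ (t + 1))) := by
    rw [Finset.sum_add_distrib, Finset.sum_const, nsmul_eq_mul, ← Finset.sum_mul, ← Finset.mul_sum]
  rw [h2'] at h2
  have h3 : k * (∑ c ∈ s, mu c) * K ^ (t + 1) ≤ (1 - δ / 2) * K ^ (t + 1) :=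
    mul_le_mul_of_nonneg_right hmus hpos'.le
  have h4 : (s.card : ℝ) * (A * PB) * (2 * K ^ t + K ^ (t + 1)) ≤ δ / 4 * (2 * K ^ t + K ^ (t + 1)) :=
    mul_le_mul_of_nonneg_right hPB (by positivity)
  have h5 : (Q + 2 * ((s.card : ℝ) * q) + δ / 2) * K ^ t ≤ δ / 4 * K * K ^ t :=
    mul_le_mul_of_nonneg_right hbig hpos.le
  have h6 : K ^ (t + 1) = K * K ^ t := pow_succ' K t
  rw [h6] at h2 h3 h4 ⊢
  nlinarith

/-- TARGET. Plain proof. Claim: for a large constant `K`, for all `t`, `n`, `e`: eventually in `G`, `mm e t n ≤ K^(t+1)`. Induction on `t` (`t = 0, 1` by `mm_small`), then, for `t ≥ 2`, on `n`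
(`mm e t 0 = 0`). Let `δ = H.dl0 ∈ (0,1)`. Choose `κ > 1` with `κ√κ (1-δ) ≤ 1 - δ/2`. For `t` choose `M = M_t ≤ C t^3` such that `N^2 (2N)√(2N)/g0^2 * t * C / √(M/t) ≤ δ/4`
(`rg_tail`, `tail`: eventually `pr (M ≤ |rg t|) ≤ t * C / √(M/t)`), and `n0 = n0_t ≤ C' t^3` as in `fg`, so `wt n0 ≤ C'' t^5`. `fg` gives, eventually in `G` (`G ⊇ Bf D e.2` for `mu2_sum`),
`mm e t n ≤ C'' t^5 + (1 - δ/2 + δ/4) K^(t+1) + C''' ∑_{t' < t} K^(t'+1) ≤ K^(t+1)` if `K` is large: `∑_{t'<t} K^(t'+1) ≤ 2 K^t` and `t^5 ≤ (const) K^t`.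
(In the (A)-term use `∑_c mu2 c * mm c ≤ (∑_c mu2 c) K^(t+1) ≤ (1-δ) K^(t+1)`, `mu2 ≥ 0`; in the (C)-term the summand `t' = t` gives the `δ/4`.) -/
theorem Ctx.Kt (H : Ctx D r) : ∃ K : ℝ, 1 ≤ K ∧ ∀ (t n : ℕ) (e : V × V), BD D e.1 e.2 →
    ∀ᶠ G in (atTop : Filter (Finset V)), mm D r G e t n ≤ K ^ (t + 1) := by
  obtain ⟨C, hC0, hC⟩ := H.tail
  obtain ⟨C1, hC10, hC1⟩ := H.mm_small
  have hδ := m10b_dl0_pos H
  have hδ1 := m10b_dl0_le H
  have hg := H.g0_pos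
  -- the constant `κ`
  obtain ⟨κ, hκ, hκ2⟩ : ∃ κ : ℝ, 1 < κ ∧ κ * Real.sqrt κ * (1 - H.dl0) ≤ 1 - H.dl0 / 2 := by
    refine ⟨1 + H.dl0 / 4, by linarith, ?_⟩
    have h1 : Real.sqrt (1 + H.dl0 / 4) ≤ 1 + H.dl0 / 4 := by
      rw [Real.sqrt_le_left (by linarith)]
      nlinarith
    have h2 : (1 + H.dl0 / 4) * Real.sqrt (1 + H.dl0 / 4) ≤ (1 + H.dl0 / 4) * (1 + H.dl0 / 4) :=
      mul_le_mul_of_nonneg_left h1 (by linarith)
    have h3 : (1 + H.dl0 / 4) * Real.sqrt (1 + H.dl0 / 4) * (1 - H.dl0) ≤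
        (1 + H.dl0 / 4) * (1 + H.dl0 / 4) * (1 - H.dl0) :=
      mul_le_mul_of_nonneg_right h2 (by linarith)
    refine h3.trans ?_
    have h4 : 0 ≤ H.dl0 ^ 2 := by positivity
    have h5 : 0 ≤ H.dl0 ^ 3 := by positivity
    nlinarith
  have hk0 : 0 ≤ κ * Real.sqrt κ := by positivity
  -- the constants `A` and `S`
  obtain ⟨A, hA⟩ : ∃ A : ℝ, A = (2 * (H.nn : ℝ)) * Real.sqrt (2 * (H.nn : ℝ)) / H.g0 ^ 2 := ⟨_, rfl⟩
  have hA0 : 0 ≤ A := by rw [hA]; positivity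
  obtain ⟨S, hS1, hS⟩ : ∃ S : ℕ, 1 ≤ S ∧ (H.nn : ℝ) * (A * ((H.nn : ℝ) * (C / S))) ≤ H.dl0 / 4 := by
    obtain ⟨S, hS⟩ := exists_nat_ge ((H.nn : ℝ) * (A * ((H.nn : ℝ) * C)) / (H.dl0 / 4))
    refine ⟨S + 1, by omega, ?_⟩
    have h1 : (0 : ℝ) < ((S + 1 : ℕ) : ℝ) := by positivity
    have h2 : (H.nn : ℝ) * (A * ((H.nn : ℝ) * C)) ≤ (S : ℝ) * (H.dl0 / 4) := by
      rwa [div_le_iff₀ (by linarith)] at hS
    have h3 : (H.nn : ℝ) * (A * ((H.nn : ℝ) * (C / ((S + 1 : ℕ) : ℝ)))) =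
        (H.nn : ℝ) * (A * ((H.nn : ℝ) * C)) / ((S + 1 : ℕ) : ℝ) := by ring
    rw [h3, div_le_iff₀ h1]
    push_cast
    nlinarith
  -- the constant `Q`
  have hκ3 : 0 < 1 - 1 / κ := by
    have : 1 / κ < 1 := by rw [div_lt_one (by linarith)]; exact hκ
    linarith
  obtain ⟨Q, hQ1, hQ2, hQ3⟩ : ∃ Q : ℕ, 1 ≤ Q ∧ 2 * H.msz ≤ Q ∧
      ((S : ℝ) ^ 2 * (H.nn : ℝ) + (H.msz : ℝ)) ≤ (Q : ℝ) * (1 - 1 / κ) := by
    obtain ⟨Q, hQ⟩ := exists_nat_ge (((S : ℝ) ^ 2 * (H.nn : ℝ) + (H.msz : ℝ)) / (1 - 1 / κ))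
    refine ⟨Q + 2 * H.msz + 1, by omega, by omega, ?_⟩
    rw [div_le_iff₀ hκ3] at hQ
    refine hQ.trans ?_
    refine mul_le_mul_of_nonneg_right ?_ hκ3.le
    push_cast
    have : (0 : ℝ) ≤ (H.msz : ℝ) := by positivity
    linarith
  -- the constant `K`
  obtain ⟨K, hK1, hK2, hK3⟩ : ∃ K : ℝ, 64 ≤ K ∧ C1 ≤ K ∧
      (Q : ℝ) ^ 2 + 2 * ((H.nn : ℝ) * (κ * Real.sqrt κ / H.g0)) + H.dl0 / 2 ≤ H.dl0 / 4 * K := by
    refine ⟨max 64 (max C1 (((Q : ℝ) ^ 2 + 2 * ((H.nn : ℝ) * (κ * Real.sqrt κ / H.g0)) + H.dl0 / 2) / (H.dl0 / 4))),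
      le_max_left _ _, (le_max_left _ _).trans (le_max_right _ _), ?_⟩
    have h1 := (le_max_right C1 (((Q : ℝ) ^ 2 + 2 * ((H.nn : ℝ) * (κ * Real.sqrt κ / H.g0)) + H.dl0 / 2) /
      (H.dl0 / 4))).trans (le_max_right 64 _)
    rw [div_le_iff₀ (by linarith)] at h1
    linarith
  refine ⟨K, by linarith, ?_⟩
  intro t
  induction t using Nat.strong_induction_on with
  | _ t iht =>
    rcases Nat.lt_or_ge t 2 with ht | ht
    · interval_cases t
      · intro n e he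
        refine Filter.Eventually.of_forall (fun G => ?_)
        rw [(hC1 e he n).1 G]
        positivity
      · intro n e he
        filter_upwards [(hC1 e he n).2] with G hG
        refine hG.trans (hK2.trans ?_)
        have h1 : K ^ (1 + 1) = K * K := by ring
        rw [h1]
        nlinarith
    · intro n
      induction n with
      | zero =>
        intro e he
        refine Filter.Eventually.of_forall (fun G => ?_)
        rw [m10b_mm_zero]
        positivity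
      | succ n ihn =>
        intro e he
        have hN := H.card_ch_eq he
        have hbd : ∀ c ∈ ch D e, BD D c.1 c.2 := fun c hc => (H.mem_ch.1 hc).2.2
        have ev1 : ∀ᶠ G in (atTop : Filter (Finset V)), Bf D e.2 ⊆ G := eventually_ge_atTop (Bf D e.2)
        have ev2 : ∀ᶠ G in (atTop : Filter (Finset V)), ∀ c ∈ ch D e, ∀ i ∈ range (t + 1), mm D r G c i n ≤ K ^ (i + 1) := by
          rw [Filter.eventually_all_finset]
          intro c hc
          rw [Filter.eventually_all_finset]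
          intro i hi
          rcases Nat.lt_or_ge i t with h | h
          · exact iht i h n c (hbd c hc)
          · have hit : i = t := le_antisymm (Nat.le_of_lt_succ (Finset.mem_range.1 hi)) h
            rw [hit]
            exact ihn c (hbd c hc)
        have ev3 : ∀ᶠ G in (atTop : Filter (Finset V)), ∀ c ∈ ch D e,
            pr D r (prt G (cone D c)) (fun ζ => S ^ 2 * t ^ 3 ≤ (rg D r c.1 (prt G (cone D c)) t ζ).card) ≤ C / S := by
          rw [Filter.eventually_all_finset]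
          intro c hc
          exact m10b_tail H hC (by omega) hS1 (hbd c hc)
        filter_upwards [ev1, ev2, ev3] with G hG1 hG2 hG3
        have ht1 : 1 ≤ t ^ 3 := Nat.one_le_iff_ne_zero.2 (pow_ne_zero _ (by omega))
        have ht1' : (1 : ℝ) ≤ (t : ℝ) ^ 3 := by exact_mod_cast ht1
        have hQt : Q ≤ Q * t ^ 3 := Nat.le_mul_of_pos_right Q (by omega)
        have hS2 : 1 ≤ S ^ 2 := Nat.one_le_iff_ne_zero.2 (pow_ne_zero _ (by omega))
        have hfg := H.fg G he t ht (n + 1) (Q * t ^ 3) (S ^ 2 * t ^ 3) κ hκ (by omega) (by omega)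
          (Nat.mul_pos (by omega) (by omega)) (by
            rw [hN]
            push_cast
            have h1 : ((S : ℝ) ^ 2 * (H.nn : ℝ) + (H.msz : ℝ)) * (t : ℝ) ^ 3 ≤ (Q : ℝ) * (1 - 1 / κ) * (t : ℝ) ^ 3 :=
              mul_le_mul_of_nonneg_right hQ3 (by positivity)
            have h2 : (H.msz : ℝ) ≤ (H.msz : ℝ) * (t : ℝ) ^ 3 := le_mul_of_one_le_right (by positivity) ht1'
            nlinarith)
        rw [Nat.add_sub_cancel, hN, ← hA] at hfg
        refine hfg.trans ?_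
        refine m10b_step (ch D e) (fun c => mu2 D r G e c)
          (fun c => ∑ c' ∈ (ch D e).erase c,
            pr D r (prt G (cone D c')) (fun ζ => S ^ 2 * t ^ 3 ≤ (rg D r c'.1 (prt G (cone D c')) t ζ).card))
          (fun c i => mm D r G c i n) t (δ := H.dl0) (PB := (H.nn : ℝ) * (C / S)) (Q := (Q : ℝ) ^ 2)
          hk0 (by positivity) hA0 (by positivity) (by linarith) (fun c _ => m10b_pr_nonneg _ _) ?_ ?_ ?_ hG2 ?_ ?_
        · have h1 := H.mu2_sum he hG1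
          exact (mul_le_mul_of_nonneg_left h1 hk0).trans hκ2
        · intro c hc
          refine ⟨Finset.sum_nonneg (fun c' _ => m10b_pr_nonneg _ _), ?_⟩
          have h1 : ∑ c' ∈ (ch D e).erase c,
              pr D r (prt G (cone D c')) (fun ζ => S ^ 2 * t ^ 3 ≤ (rg D r c'.1 (prt G (cone D c')) t ζ).card) ≤
              ∑ c' ∈ (ch D e).erase c, C / S :=
            Finset.sum_le_sum (fun c' hc' => hG3 c' (Finset.mem_of_mem_erase hc'))
          refine h1.trans ?_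
          rw [Finset.sum_const, nsmul_eq_mul]
          refine mul_le_mul_of_nonneg_right ?_ (by positivity)
          rw [← hN]
          exact_mod_cast Finset.card_erase_le
        · rw [hN]
          exact hS
        · unfold wt
          have h1 : (1 : ℝ) ≤ ((Q * t ^ 3 : ℕ) : ℝ) := by exact_mod_cast (by omega : 1 ≤ Q * t ^ 3)
          have h2 : Real.sqrt ((Q * t ^ 3 : ℕ) : ℝ) ≤ ((Q * t ^ 3 : ℕ) : ℝ) := by
            rw [Real.sqrt_le_left (by positivity)]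
            nlinarith
          have h3 : ((Q * t ^ 3 : ℕ) : ℝ) * Real.sqrt ((Q * t ^ 3 : ℕ) : ℝ) ≤ ((Q * t ^ 3 : ℕ) : ℝ) * ((Q * t ^ 3 : ℕ) : ℝ) :=
            mul_le_mul_of_nonneg_left h2 (by positivity)
          refine h3.trans ?_
          have h4 : ((Q * t ^ 3 : ℕ) : ℝ) * ((Q * t ^ 3 : ℕ) : ℝ) = (Q : ℝ) ^ 2 * (t : ℝ) ^ 6 := by
            push_cast
            ring
          rw [h4]
          refine mul_le_mul_of_nonneg_left ?_ (by positivity)
          have h5 : (t : ℝ) ≤ 2 ^ t := by exact_mod_cast (Nat.lt_two_pow_self (n := t)).le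
          calc (t : ℝ) ^ 6 ≤ (2 ^ t) ^ 6 := pow_le_pow_left₀ (by positivity) h5 6
            _ = (2 ^ 6) ^ t := by rw [← pow_mul, ← pow_mul, mul_comm]
            _ ≤ K ^ t := pow_le_pow_left₀ (by positivity) (by norm_num; linarith) t
        · rw [hN]
          exact hK3

end Pool.Agent.Helper910
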