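import Mathlib
import Pool.Agent.Helper910.M1
import Pool.Agent.Helper910.AV1

/-! Avalanches and waves (MP_4555f0_mp) -/

namespace Pool.Agent.Helper910

open Classical Finset

variable {V : Type*} {D : SimpleGraph V} {r : ℕ}

/-- TARGET. `Relax` composes -/
theorem Relax.append {G : Finset V} {η η' η'' : V → ℕ} {l l' : List V} (h : Relax D r G η l η') (h' : Relax D r G η' l' η'') :
    Relax D r G η (l ++ l') η'' := by
  induction h with
  | nil η => exact h'
  | cons η v l η' hv hr _ ih => exact Relax.cons η v (l ++ l') η'' hv hr (ih h')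

/-- the state after toppling `o` and the vertices of `Y` -/
noncomputable def m11_F (D : SimpleGraph V) (r : ℕ) (G : Finset V) (o : V) (ξ : V → ℕ) (a : ℕ) (Y : Finset V) : V → ℕ :=
  fun z => if z = o then a - r + dg D o Y
    else if z ∈ G then ξ z + dg D z (insert o Y) - (if z ∈ Y then r else 0) else ξ z

theorem m11_topple {G : Finset V} {o : V} {ξ : V → ℕ} {a : ℕ} {Y : Finset V} (hY : Y ⊆ G.erase o)
    (hI : ∀ w ∈ Y, r ≤ ξ w + dg D w (insert o Y)) {z : V} (hz : z ∈ G.erase o) (hzY : z ∉ Y)
    (hlt : r < ξ z + dg D z (insert o Y)) (ho : o ∈ G) :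
    topple D r G z (m11_F D r G o ξ a Y) = m11_F D r G o ξ a (insert z Y) := by
  have hzo : z ≠ o := (Finset.mem_erase.1 hz).1
  have hzG : z ∈ G := (Finset.mem_erase.1 hz).2
  have hzi : z ∉ insert o Y := by
    rw [Finset.mem_insert]
    rintro (h | h)
    · exact hzo h
    · exact hzY h
  have hins : ∀ w, dg D w (insert o (insert z Y)) = dg D w (insert o Y) + if D.Adj w z then 1 else 0 := by
    intro w
    rw [Finset.insert_comm, dg_insert hzi]
  funext w
  unfold topple
  by_cases hwz : w = z
  · subst hwz
    simp only [if_true, m11_F, hzo, if_false, hzG, hzY, Finset.mem_insert_self, hins,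
      D.loopless.irrefl w, add_zero, Nat.sub_zero]
  · rw [if_neg hwz]
    by_cases hwo : w = o
    · subst hwo
      simp only [m11_F, if_true, ho, true_and]
      rw [dg_insert hzY]
      by_cases hadj : D.Adj z w
      · rw [if_pos hadj, if_pos hadj.symm]; omega
      · rw [if_neg hadj, if_neg (fun h => hadj h.symm)]; omega
    · by_cases hwG : w ∈ G
      · simp only [m11_F, hwo, if_false, hwG, if_true, true_and, hins, Finset.mem_insert, hwz, false_or]
        by_cases hwY : w ∈ Y
        · have := hI w hwY
          by_cases hadj : D.Adj z w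
          · rw [if_pos hadj, if_pos hadj.symm, if_pos hwY]; omega
          · rw [if_neg hadj, if_neg (show ¬ D.Adj w z from fun h => hadj h.symm), if_pos hwY]; omega
        · by_cases hadj : D.Adj z w
          · rw [if_pos hadj, if_pos hadj.symm, if_neg hwY]; omega
          · rw [if_neg hadj, if_neg (show ¬ D.Adj w z from fun h => hadj h.symm), if_neg hwY]; omega
      · simp only [m11_F, hwo, if_false, hwG, false_and]

theorem m11_rest {G : Finset V} {o : V} (ho : o ∈ G) {ξ : V → ℕ} {a : ℕ} :
    ∀ (n : ℕ) (Y : Finset V), Y ⊆ wav D r o (G.erase o) ξ → (wav D r o (G.erase o) ξ \ Y).card = n →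
      (∀ w ∈ Y, r ≤ ξ w + dg D w (insert o Y)) →
      ∃ l : List V, l.toFinset = wav D r o (G.erase o) ξ \ Y ∧
        Relax D r G (m11_F D r G o ξ a Y) l (m11_F D r G o ξ a (wav D r o (G.erase o) ξ)) := by
  intro n
  induction n with
  | zero =>
    intro Y hY hc _
    have h1 : wav D r o (G.erase o) ξ \ Y = ∅ := Finset.card_eq_zero.1 hc
    have h2 : Y = wav D r o (G.erase o) ξ :=
      Finset.Subset.antisymm hY (Finset.sdiff_eq_empty_iff_subset.1 h1)
    refine ⟨[], ?_, ?_⟩
    · rw [h1]; rfl
    · rw [← h2]; exact Relax.nil _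
  | succ n ih =>
    intro Y hY hc hI
    have hw := isWave_wav (D := D) (r := r) o (G.erase o) ξ
    set W := wav D r o (G.erase o) ξ with hW
    have hne : (W \ Y).Nonempty := by
      rw [← Finset.card_pos]; omega
    obtain ⟨z, hz, hlt⟩ := hw.fd (W \ Y) Finset.sdiff_subset hne
    have h3 : W \ (W \ Y) = Y := Finset.sdiff_sdiff_eq_self hY
    rw [h3] at hlt
    rw [Finset.mem_sdiff] at hz
    have hY' : insert z Y ⊆ W := Finset.insert_subset hz.1 hY
    have hc' : (W \ insert z Y).card = n := by
      have h4 : W \ insert z Y = (W \ Y).erase z := by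
        ext x
        simp only [Finset.mem_sdiff, Finset.mem_insert, Finset.mem_erase, not_or]
        tauto
      rw [h4, Finset.card_erase_of_mem (Finset.mem_sdiff.2 hz), hc]
      rfl
    have hI' : ∀ w ∈ insert z Y, r ≤ ξ w + dg D w (insert o (insert z Y)) := by
      intro w hw'
      have h5 : dg D w (insert o Y) ≤ dg D w (insert o (insert z Y)) :=
        dg_mono (Finset.insert_subset_insert _ (Finset.subset_insert _ _))
      rcases Finset.mem_insert.1 hw' with h6 | h6
      · subst h6; omega
      · have := hI w h6; omega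
    obtain ⟨l, h7, h8⟩ := ih (insert z Y) hY' hc' hI'
    refine ⟨z :: l, ?_, ?_⟩
    · rw [List.toFinset_cons, h7]
      ext x
      simp only [Finset.mem_sdiff, Finset.mem_insert, not_or]
      constructor
      · rintro (h9 | h9)
        · subst h9; exact hz
        · exact ⟨h9.1, h9.2.2⟩
      · rintro ⟨h9, h10⟩
        by_cases h11 : x = z
        · exact Or.inl h11
        · exact Or.inr ⟨h9, h11, h10⟩
    · have hzG := hw.sub hz.1
      refine Relax.cons _ z l _ (Finset.mem_erase.1 hzG).2 ?_ ?_
      · simp only [m11_F, (Finset.mem_erase.1 hzG).1, if_false, (Finset.mem_erase.1 hzG).2, if_true, hz.2,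
          Nat.sub_zero]
        exact hlt
      · rw [m11_topple (hY.trans hw.sub) hI hzG hz.2 hlt ho]
        exact h8

theorem m11_wave {G : Finset V} {o : V} (ho : o ∈ G) {ξ : V → ℕ} (hξ0 : ∀ z, z ∉ G.erase o → ξ z = 0) (a : ℕ) (ha : r < a) :
    ∃ l : List V, l.toFinset = insert o (wav D r o (G.erase o) ξ) ∧ 1 ≤ l.count o ∧
      Relax D r G (fun z => if z = o then a else ξ z) l
        (fun z => if z = o then a - r + dg D o (wav D r o (G.erase o) ξ) else stp D r o (G.erase o) ξ z) := by
  obtain ⟨l, h1, h2⟩ := m11_rest (D := D) (r := r) (a := a) ho (ξ := ξ) _ ∅ (Finset.empty_subset _) rfl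
    (fun w hw => absurd hw (Finset.notMem_empty w))
  refine ⟨o :: l, ?_, ?_, ?_⟩
  · rw [List.toFinset_cons, h1, Finset.sdiff_empty]
  · rw [List.count_cons_self]; omega
  · refine Relax.cons _ o l _ ho (by simpa using ha) ?_
    have h3 : topple D r G o (fun z => if z = o then a else ξ z) = m11_F D r G o ξ a ∅ := by
      funext w
      unfold topple
      by_cases hwo : w = o
      · subst hwo
        simp [m11_F, dg_empty]
      · rw [if_neg hwo]
        have h4 : (insert o (∅ : Finset V)) = {o} := by ext; simp
        by_cases hwG : w ∈ G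
        · simp only [m11_F, hwo, if_false, hwG, if_true, true_and, h4, dg_singleton, Finset.notMem_empty,
            Nat.sub_zero]
          by_cases hadj : D.Adj o w
          · rw [if_pos hadj, if_pos hadj.symm]
          · rw [if_neg hadj, if_neg (fun h => hadj h.symm), add_zero]
        · simp only [m11_F, hwo, if_false, hwG, false_and]
    have h5 : (fun z => if z = o then a - r + dg D o (wav D r o (G.erase o) ξ) else stp D r o (G.erase o) ξ z) =
        m11_F D r G o ξ a (wav D r o (G.erase o) ξ) := by
      funext z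
      by_cases hzo : z = o
      · simp only [m11_F, hzo, if_true]
      · by_cases hzG : z ∈ G
        · have h6 : z ∈ G.erase o := Finset.mem_erase.2 ⟨hzo, hzG⟩
          simp only [m11_F, hzo, if_false, hzG, if_true, stp, h6]
        · have h6 : z ∉ G.erase o := fun h => hzG (Finset.mem_erase.1 h).2
          simp only [m11_F, hzo, if_false, hzG, stp, h6]
          exact (hξ0 z h6).symm
    rw [h3, h5]
    exact h2

/-- TARGET. One wave as a legal sequence of topplings. `ξ` is a stable configuration on `G.erase o` (the state before the wave), the height of `o` is `r + 1`.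
Plain proof: topple `o`, then the vertices of `W = wav o (G.erase o) ξ` one after the other, choosing at each moment, with `X ⊆ W` the set of vertices not yet toppled,
a vertex `z ∈ X` with `r < ξ z + dg z (insert o (W \ X))` (`IsWave.fd`): its present height is `ξ z + dg z (insert o (W \ X))`. At the end the height of `z ∈ G.erase o` is
`ξ z + dg z (insert o W) - r [z ∈ W]`, that of `o` is `r + 1 - r + dg o W`. Outside `G` nothing changes. -/
theorem relax_wave {G : Finset V} {o : V} (ho : o ∈ G) {ξ : V → ℕ} (hξ : ∀ z ∈ G.erase o, ξ z ≤ r) (hξ0 : ∀ z, z ∉ G.erase o → ξ z = 0) (a : ℕ) (ha : r < a) :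
    ∃ l : List V, l.toFinset = insert o (wav D r o (G.erase o) ξ) ∧
      Relax D r G (fun z => if z = o then a else ξ z) l
        (fun z => if z = o then a - r + dg D o (wav D r o (G.erase o) ξ) else stp D r o (G.erase o) ξ z) := by
  obtain ⟨l, h1, _, h2⟩ := m11_wave (D := D) (r := r) ho hξ0 a ha
  exact ⟨l, h1, h2⟩

/-- all the neighbours of `o` topple in the first `k` waves -/
def Full (D : SimpleGraph V) (r : ℕ) (G : Finset V) (o : V) (k : ℕ) (ζ : V → ℕ) : Prop :=
  ∀ i < k, dg D o (wv D r o (G.erase o) ζ i) = r

theorem m11_waves (hd : DegLe D r) {G : Finset V} {o : V} (ho : o ∈ G) {η : V → ℕ} (hη : η ∈ Rc D r G) (hηo : η o = r) (k : ℕ)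
    (hk : Full D r G o k (rs (G.erase o) η)) :
    ∃ l : List V, l.toFinset = insert o (rg D r o (G.erase o) (k + 1) (rs (G.erase o) η)) ∧ k + 1 ≤ l.count o ∧
      Relax D r G (fun z => if z = o then η z + 1 else η z) l
        (fun z => if z = o then 1 + dg D o (wv D r o (G.erase o) (rs (G.erase o) η) k)
          else itw D r o (G.erase o) (k + 1) (rs (G.erase o) η) z) := by
  induction k with
  | zero =>
    obtain ⟨l, h1, h2, h3⟩ := m11_wave (D := D) (r := r) ho (ξ := rs (G.erase o) η)
      (fun z hz => rs_notMem hz) (r + 1) (by omega)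
    refine ⟨l, ?_, h2, ?_⟩
    · rw [h1]
      simp [rg, wv, itw]
    · have h4 : (fun z => if z = o then η z + 1 else η z) =
          (fun z => if z = o then r + 1 else rs (G.erase o) η z) := by
        funext z
        by_cases hzo : z = o
        · simp only [hzo, if_true, hηo]
        · simp only [hzo, if_false]
          by_cases hzG : z ∈ G
          · rw [rs_mem (Finset.mem_erase.2 ⟨hzo, hzG⟩)]
          · rw [rs_notMem (fun h => hzG (Finset.mem_erase.1 h).2), (mem_Rc.1 hη).1.2 z hzG]
      rw [h4]
      have h5 : r + 1 - r = 1 := by omega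
      rw [h5] at h3
      exact h3
  | succ k ih =>
    obtain ⟨l, h1, h2, h3⟩ := ih (fun i hi => hk i (by omega))
    have hfull := hk k (by omega)
    obtain ⟨l', h1', h2', h3'⟩ := m11_wave (D := D) (r := r) ho (ξ := itw D r o (G.erase o) (k + 1) (rs (G.erase o) η))
      (fun z hz => by
        rw [itw, Function.iterate_succ_apply']
        exact stp_notMem hz) (r + 1) (by omega)
    refine ⟨l ++ l', ?_, ?_, ?_⟩
    · rw [List.toFinset_append, h1, h1']
      have h4 : rg D r o (G.erase o) (k + 1 + 1) (rs (G.erase o) η) =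
          rg D r o (G.erase o) (k + 1) (rs (G.erase o) η) ∪ wv D r o (G.erase o) (rs (G.erase o) η) (k + 1) := by
        unfold rg
        rw [Finset.range_add_one, Finset.biUnion_insert, Finset.union_comm]
      rw [h4]
      ext x
      simp only [Finset.mem_union, Finset.mem_insert, wv]
      tauto
    · rw [List.count_append]; omega
    · refine Relax.append h3 ?_
      have h4 : (fun z => if z = o then 1 + dg D o (wv D r o (G.erase o) (rs (G.erase o) η) k)
          else itw D r o (G.erase o) (k + 1) (rs (G.erase o) η) z) =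
          (fun z => if z = o then r + 1 else itw D r o (G.erase o) (k + 1) (rs (G.erase o) η) z) := by
        rw [hfull, add_comm]
      have h5 : r + 1 - r = 1 := by omega
      have h6 : itw D r o (G.erase o) (k + 1 + 1) (rs (G.erase o) η) =
          stp D r o (G.erase o) (itw D r o (G.erase o) (k + 1) (rs (G.erase o) η)) := by
        rw [itw, Function.iterate_succ_apply']
        rfl
      rw [h4, h6]
      rw [h5] at h3'
      exact h3'

/-- TARGET. the first `k` waves, when all but possibly the last one are full -/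
theorem relax_waves (hd : DegLe D r) {G : Finset V} {o : V} (ho : o ∈ G) {η : V → ℕ} (hη : η ∈ Rc D r G) (hr : 1 ≤ r) (hηo : η o = r) (k : ℕ)
    (hk : Full D r G o k (rs (G.erase o) η)) :
    ∃ l : List V, l.toFinset = insert o (rg D r o (G.erase o) (k + 1) (rs (G.erase o) η)) ∧
      Relax D r G (fun z => if z = o then η z + 1 else η z) l
        (fun z => if z = o then 1 + dg D o (wv D r o (G.erase o) (rs (G.erase o) η) k)
          else itw D r o (G.erase o) (k + 1) (rs (G.erase o) η) z) := by
  obtain ⟨l, h1, _, h2⟩ := m11_waves (D := D) (r := r) hd ho hη hηo k hk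
  exact ⟨l, h1, h2⟩

/-- TARGET. -/
theorem avalanche_of_full (hd : DegLe D r) {G : Finset V} {o : V} (ho : o ∈ G) {η : V → ℕ} (hη : η ∈ Rc D r G) (hr : 1 ≤ r) (hηo : η o = r) (k : ℕ)
    (hk : Full D r G o k (rs (G.erase o) η)) (hk' : ¬ Full D r G o (k + 1) (rs (G.erase o) η)) :
    AvalancheSize D r G o η (1 + (rg D r o (G.erase o) (k + 1) (rs (G.erase o) η)).card) := by
  obtain ⟨l, h1, h2⟩ := relax_waves hd ho hη hr hηo k hk
  refine ⟨l, _, h2, ?_, ?_⟩
  · intro z hz
    by_cases hzo : z = o
    · simp only [hzo, if_true]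
      have h3 := hd o (wv D r o (G.erase o) (rs (G.erase o) η) k)
      have h4 : dg D o (wv D r o (G.erase o) (rs (G.erase o) η) k) ≠ r := by
        intro h4
        apply hk'
        intro i hi
        rcases Nat.lt_succ_iff_lt_or_eq.1 hi with h5 | h5
        · exact hk i h5
        · rw [h5]; exact h4
      omega
    · simp only [hzo, if_false]
      have h3 : itw D r o (G.erase o) (k + 1) (rs (G.erase o) η) ∈ Rc D r (G.erase o) :=
        itw_mem hd (Finset.notMem_erase o G) (rs_mem_Rc (Finset.erase_subset o G) hη) (k + 1)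
      exact ((mem_Rc.1 h3).1.1 z (Finset.mem_erase.2 ⟨hzo, hz⟩)).2
  · rw [h1, Finset.card_insert_of_notMem, add_comm]
    intro h3
    obtain ⟨i, _, h4⟩ := Finset.mem_biUnion.1 h3
    exact Finset.notMem_erase o G ((isWave_wav (D := D) (r := r) o (G.erase o) _).sub h4)

/-- TARGET. (if `η o < r`, nothing topples) -/
theorem avalanche_zero {G : Finset V} {o : V} {η : V → ℕ} (hη : η ∈ Rc D r G) (hηo : η o < r) : AvalancheSize D r G o η 0 := by
  refine ⟨[], _, Relax.nil _, ?_, rfl⟩
  intro z hz
  by_cases hzo : z = o
  · simp only [hzo, if_true]; omega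
  · simp only [hzo, if_false]
    exact ((mem_Rc.1 hη).1.1 z hz).2

/-- TARGET. converse: the number of full waves is bounded by the number of topplings of `o` in any legal stabilising sequence (`relax_count_le`; a full wave
sequence of length `k+1` topples `o` at least `k+1` times: use `relax_height` at `o`, or count `o` in the list along `relax_waves`), hence a first non-full wave exists,
and the size is then the one of `avalanche_of_full` by `avalancheSize_unique`. -/
theorem avalanche_cases (hd : DegLe D r) {G : Finset V} {o : V} (ho : o ∈ G) {η : V → ℕ} (hη : η ∈ Rc D r G) (hr : 1 ≤ r) {n : ℕ}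
    (hn : AvalancheSize D r G o η n) :
    (n = 0 ∧ η o < r) ∨ (η o = r ∧ ∃ k, Full D r G o k (rs (G.erase o) η) ∧ ¬ Full D r G o (k + 1) (rs (G.erase o) η) ∧
      n = 1 + (rg D r o (G.erase o) (k + 1) (rs (G.erase o) η)).card) := by
  rcases Nat.lt_or_ge (η o) r with hlt | hge
  · exact Or.inl ⟨avalancheSize_unique D r G o η n 0 hn (avalanche_zero hη hlt), hlt⟩
  · right
    have hηo : η o = r := le_antisymm ((mem_Rc.1 hη).1.1 o ho).2 hge
    obtain ⟨l2, η2, h1, h2, h3⟩ := hn
    have hnot : ∃ m, ¬ Full D r G o m (rs (G.erase o) η) := by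
      refine ⟨l2.count o, fun hf => ?_⟩
      obtain ⟨l, _, h5, h6⟩ := m11_waves hd ho hη hηo _ hf
      have h7 := relax_count_le D r G _ l l2 _ _ h6 h1 h2 o
      omega
    have hm := Nat.find_spec hnot
    have hmin := fun k (hk : k < Nat.find hnot) => Nat.find_min hnot hk
    have hpos : Nat.find hnot ≠ 0 := by
      intro h0
      rw [h0] at hm
      exact hm (fun i hi => absurd hi (by omega))
    obtain ⟨k, hk⟩ := Nat.exists_eq_succ_of_ne_zero hpos
    have hfk : Full D r G o k (rs (G.erase o) η) := by
      have := hmin k (by omega)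
      exact not_not.1 this
    have hfk' : ¬ Full D r G o (k + 1) (rs (G.erase o) η) := by
      rw [hk] at hm
      exact hm
    exact ⟨hηo, k, hfk, hfk', avalancheSize_unique D r G o η n _ ⟨l2, η2, h1, h2, h3⟩
      (avalanche_of_full hd ho hη hr hηo k hfk hfk')⟩

end Pool.Agent.Helper910
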