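import Mathlib
import Pool.Agent.Helper910.M6b

/-! Balance of several waves (MP_4555f0_mp) -/

namespace Pool.Agent.Helper910

open Classical Finset Filter Topology

variable {V : Type*} {D : SimpleGraph V} [D.LocallyFinite] {r : ℕ}

omit [D.LocallyFinite] in
theorem m7a_itw_mem (hd : DegLe D r) {v : V} {G : Finset V} (hv : v ∉ G) {ζ : V → ℕ} (h : ζ ∈ Rc D r G) (i : ℕ) :
    itw D r v G i ζ ∈ Rc D r G := by
  induction i with
  | zero => exact h
  | succ i ih =>
    unfold itw at ih ⊢
    rw [Function.iterate_succ_apply']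
    exact stp_mem hd hv ih

omit [D.LocallyFinite] in
theorem m7a_rp_succ {v : V} {G : Finset V} {ζ : V → ℕ} (t : ℕ) (x : V) :
    (rp D r v G x (t + 1) ζ).card = (rp D r v G x t ζ).card + (if x ∈ wv D r v G ζ t then 1 else 0) := by
  unfold rp
  rw [Finset.range_add_one, Finset.filter_insert]
  split_ifs with h
  · rw [Finset.card_insert_of_notMem]
    simp
  · rfl

omit [D.LocallyFinite] in
theorem m7a_rp_le {v : V} {G : Finset V} {ζ : V → ℕ} (t : ℕ) (x : V) :
    (rp D r v G x t ζ).card ≤ t := by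
  unfold rp
  refine (Finset.card_filter_le _ _).trans ?_
  rw [Finset.card_range]

omit [D.LocallyFinite] in
theorem m7a_rp_notMem {v : V} {G : Finset V} {ζ : V → ℕ} (t : ℕ) {x : V} (hx : x ∉ G) :
    (rp D r v G x t ζ).card = 0 := by
  unfold rp
  rw [Finset.card_eq_zero, Finset.filter_eq_empty_iff]
  intro i _ h
  exact hx ((isWave_wav v G _).sub h)

/-- TARGET. height balance of `t` waves (induction on `t`, `stp_balance`); `T z = |rp v G z t ζ|`, `T v` is replaced by `t` -/
theorem balance (hd : DegLe D r) {v : V} {G : Finset V} (hv : v ∉ G) {ζ : V → ℕ} (hζ : ζ ∈ Rc D r G) (t : ℕ) {z : V} (hz : z ∈ G) :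
    itw D r v G t ζ z + r * (rp D r v G z t ζ).card =
      ζ z + (if D.Adj z v then t else 0) + ∑ y ∈ D.neighborFinset z, (rp D r v G y t ζ).card := by
  induction t with
  | zero =>
    have h0 : ∀ y, (rp D r v G y 0 ζ).card = 0 := fun y => by simp [rp]
    simp [h0, itw]
  | succ t ih =>
    have h1 : itw D r v G (t + 1) ζ = stp D r v G (itw D r v G t ζ) := by
      unfold itw
      rw [Function.iterate_succ_apply']
    have h2 := stp_balance (D := D) (r := r) (v := v) (ζ := itw D r v G t ζ) hz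
    have hvW : v ∉ wv D r v G ζ t := fun h => hv ((isWave_wav v G _).sub h)
    have h3 : dg D z (insert v (wav D r v G (itw D r v G t ζ))) =
        dg D z (wv D r v G ζ t) + (if D.Adj z v then 1 else 0) := dg_insert hvW
    have h4 : dg D z (wv D r v G ζ t) = ∑ y ∈ D.neighborFinset z, (if y ∈ wv D r v G ζ t then 1 else 0) := by
      rw [dg_eq_inter, ← Finset.card_filter, Finset.filter_mem_eq_inter]
    have h5 : ∑ y ∈ D.neighborFinset z, (rp D r v G y (t + 1) ζ).card =
        ∑ y ∈ D.neighborFinset z, (rp D r v G y t ζ).card +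
        ∑ y ∈ D.neighborFinset z, (if y ∈ wv D r v G ζ t then 1 else 0) := by
      rw [← Finset.sum_add_distrib]
      exact Finset.sum_congr rfl fun y _ => m7a_rp_succ t y
    have h6 : r * (rp D r v G z (t + 1) ζ).card =
        r * (rp D r v G z t ζ).card + (if z ∈ wav D r v G (itw D r v G t ζ) then r else 0) := by
      rw [m7a_rp_succ, mul_add]
      congr 1
      show r * (if z ∈ wav D r v G (itw D r v G t ζ) then 1 else 0) = _
      split_ifs <;> simp
    have h7 : (if D.Adj z v then t + 1 else 0) = (if D.Adj z v then t else 0) + (if D.Adj z v then 1 else 0) := by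
      split_ifs <;> rfl
    rw [h1, h5, h6, h7, ← h4]
    rw [h3] at h2
    omega

theorem m7a_sum_const (H : Ctx D r) (z : V) (t : ℕ) : ∑ _y ∈ D.neighborFinset z, t = r * t := by
  rw [Finset.sum_const, SimpleGraph.card_neighborFinset_eq_degree, H.reg z, smul_eq_mul]

/-- TARGET. comparison of the number of failures at neighbours: with `D z = t - T z` (and `D v = 0`), `D z' + 1 ≤ r (D z + 1)` for `z ∈ G` and a neighbour `z'`.
(From `balance`: `r D z = ∑_{z'} D z' + ζ^(t) z - ζ z` over the `r` neighbours, and `ζ z - ζ^(t) z ≤ r - 1`.) -/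
theorem Ctx.fail_nbr (H : Ctx D r) {v : V} {G : Finset V} (hv : v ∉ G) {ζ : V → ℕ} (hζ : ζ ∈ Rc D r G) (t : ℕ) {z z' : V}
    (hz : z ∈ G) (hzz : D.Adj z z') (hz' : z' ≠ v) :
    (t - (rp D r v G z' t ζ).card : ℕ) + 1 ≤ r * ((t - (rp D r v G z t ζ).card) + 1) := by
  have hb := balance H.degLe hv hζ t hz
  have h1 := (mem_Rc.1 hζ).1.1 z hz
  have h2 := (mem_Rc.1 (m7a_itw_mem H.degLe hv hζ t)).1.1 z hz
  have h3 : ∑ y ∈ D.neighborFinset z, (rp D r v G y t ζ).card +
      ∑ y ∈ D.neighborFinset z, (t - (rp D r v G y t ζ).card) = r * t := by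
    rw [← Finset.sum_add_distrib, ← m7a_sum_const H z t]
    refine Finset.sum_congr rfl fun y _ => ?_
    have := m7a_rp_le (D := D) (r := r) (v := v) (G := G) (ζ := ζ) t y
    omega
  have h4 : (if D.Adj z v then t else 0) + (t - (rp D r v G z' t ζ).card) ≤
      ∑ y ∈ D.neighborFinset z, (t - (rp D r v G y t ζ).card) := by
    have hz'N : z' ∈ D.neighborFinset z := by
      rw [SimpleGraph.mem_neighborFinset]; exact hzz
    split_ifs with hzv
    · have hvN : v ∈ D.neighborFinset z := by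
        rw [SimpleGraph.mem_neighborFinset]; exact hzv
      have h5 : ({v, z'} : Finset V) ⊆ D.neighborFinset z := by
        intro y hy
        rw [Finset.mem_insert, Finset.mem_singleton] at hy
        rcases hy with rfl | rfl
        · exact hvN
        · exact hz'N
      have h6 := Finset.sum_le_sum_of_subset (f := fun y => t - (rp D r v G y t ζ).card) h5
      rw [Finset.sum_pair (Ne.symm hz')] at h6
      rw [m7a_rp_notMem t hv] at h6
      omega
    · have h6 := Finset.single_le_sum (f := fun y => t - (rp D r v G y t ζ).card)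
        (fun y _ => Nat.zero_le _) hz'N
      omega
  have h7 : r * (t - (rp D r v G z t ζ).card) + r * (rp D r v G z t ζ).card = r * t := by
    rw [← mul_add]
    congr 1
    have := m7a_rp_le (D := D) (r := r) (v := v) (G := G) (ζ := ζ) t z
    omega
  rw [mul_add, mul_one]
  omega

/-- TARGET. failures inside a block (use `Ctx.short_walk`; for `z ∉ G_e` the number of failures is `t`, and the next vertex has at most `t` failures) -/
theorem Ctx.fail_block (H : Ctx D r) (G : Finset V) {e : V × V} (he : BD D e.1 e.2) {ζ : V → ℕ}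
    (hζ : ζ ∈ Rc D r (prt G (cone D e))) (t a : ℕ) (ha : t ≤ (rp D r e.1 (prt G (cone D e)) e.2 t ζ).card + a) {z : V}
    (hz : z ∈ Bf D e.2) :
    t ≤ (rp D r e.1 (prt G (cone D e)) z t ζ).card + r ^ H.msz * (a + 1) := by
  have hr : 1 ≤ r := by have := H.three_le; omega
  have hev : e.1 ∉ prt G (cone D e) := src_notMem he
  have key : ∀ n : ℕ, ∀ z, (∃ p : (nobr D).Walk e.2 z, p.length = n) →
      (t - (rp D r e.1 (prt G (cone D e)) z t ζ).card) + 1 ≤ r ^ n * (a + 1) := by
    intro n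
    induction n with
    | zero =>
      rintro z ⟨p, hp⟩
      have : e.2 = z := SimpleGraph.Walk.eq_of_length_eq_zero hp
      subst this
      rw [pow_zero, one_mul]
      omega
    | succ n ih =>
      rintro z ⟨p, hp⟩
      have hnn : ¬ p.Nil := by
        intro h
        have := SimpleGraph.Walk.length_eq_zero_iff.2 h
        omega
      obtain ⟨w, q, hq, hqz⟩ : ∃ w, ∃ q : (nobr D).Walk e.2 w, q.length = n ∧ (nobr D).Adj w z := by
        refine ⟨p.penultimate, p.dropLast, ?_, p.adj_penultimate hnn⟩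
        rw [SimpleGraph.Walk.length_dropLast]
        omega
      have h1 := ih w ⟨q, hq⟩
      have hzc : z ∈ cone D e := blk_subset_cone he (mem_blk.2 (q.reachable.trans hqz.reachable))
      have hzv : z ≠ e.1 := by
        rintro rfl
        exact fst_notMem_cone he hzc
      by_cases hw : w ∈ prt G (cone D e)
      · have h2 := H.fail_nbr hev hζ t hw (nobr_adj.1 hqz).1 hzv
        refine h2.trans ?_
        rw [pow_succ', mul_assoc]
        exact Nat.mul_le_mul_left r h1
      · rw [m7a_rp_notMem t hw] at h1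
        have h3 : r ^ n * (a + 1) ≤ r ^ (n + 1) * (a + 1) :=
          Nat.mul_le_mul_right _ (Nat.pow_le_pow_right hr (Nat.le_succ n))
        omega
  obtain ⟨p, hp⟩ := H.short_walk hz
  have h1 := key p.length z ⟨p, rfl⟩
  have h2 : r ^ p.length * (a + 1) ≤ r ^ H.msz * (a + 1) :=
    Nat.mul_le_mul_right _ (Nat.pow_le_pow_right hr hp)
  omega

theorem m7a_child_le (H : Ctx D r) (G : Finset V) {e : V × V} (he : BD D e.1 e.2) {ζ : V → ℕ}
    (hζ : ζ ∈ Rc D r (prt G (cone D e))) (t : ℕ) {c : V × V} (hc : c ∈ ch D e) :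
    (rp D r e.1 (prt G (cone D e)) c.2 t ζ).card ≤ (rp D r e.1 (prt G (cone D e)) c.1 t ζ).card := by
  have hev : e.1 ∉ prt G (cone D e) := src_notMem he
  have hd := H.dec_ch he
  have hcb := hd.br c hc
  refine Finset.card_le_card ?_
  unfold rp
  intro i hi
  rw [Finset.mem_filter] at hi ⊢
  refine ⟨hi.1, ?_⟩
  have hi2 := hi.2
  unfold wv at hi2 ⊢
  have hξ := m7a_itw_mem H.degLe hev hζ i
  set ξ := itw D r e.1 (prt G (cone D e)) i ζ with hξdef
  have hcG : c.2 ∈ prt G (cone D c) := by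
    have := (isWave_wav (D := D) (r := r) e.1 (prt G (cone D e)) ξ).sub hi2
    rw [mem_prt] at this ⊢
    exact ⟨this.1, snd_mem_cone c⟩
  have hun := prt_union (G := G) (hd.csub c hc)
  have g := gate_cone (G := G) (Ω := cone D e) hcb
  have hv1 : e.1 ∉ prt G (cone D e \ cone D c) := by
    rw [mem_prt]
    exact fun h => fst_notMem_cone he h.2.1
  have hv2 : e.1 ∉ prt G (cone D c) := by
    rw [mem_prt]
    exact fun h => fst_notMem_cone he (hd.csub c hc h.2)
  have hc1Q := hd.fst c hc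
  have hc1 : c.1 ∈ cone D e := hd.sub _ hc1Q
  have hvG : ∀ b ∈ prt G (cone D c), ¬ D.Adj e.1 b := by
    intro b hb hadj
    rw [mem_prt] at hb
    have h1 : e.1 ∉ cone D c := fun h => fst_notMem_cone he (hd.csub c hc h)
    have h2 := (cone_edge hcb h1 hb.2 hadj).1
    rw [← h2] at hc1
    exact fst_notMem_cone he hc1
  have hle : ∀ z ∈ prt G (cone D c), ξ z ≤ r := by
    intro z hz
    have hz' : z ∈ prt G (cone D e) := by
      rw [mem_prt] at hz ⊢
      exact ⟨hz.1, hd.csub c hc hz.2⟩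
    exact ((mem_Rc.1 hξ).1.1 z hz').2
  rw [← hun] at hi2 ⊢
  have h3 := (g.mem_wav2 hv1 hv2 hvG hle hcG).1 hi2
  have h4 : c.1 ∈ prt G (cone D e \ cone D c) := (isWave_wav _ _ _).sub h3.1
  exact (g.mem_wav1 hv1 hv2 hvG hle h4).2 h3.1

/-- TARGET. current of `t` waves through the children, if the block is inside `G` (sum of `balance` over the block, cf. `Ctx.sum_block`) -/
theorem Ctx.fail_current (H : Ctx D r) (G : Finset V) {e : V × V} (he : BD D e.1 e.2) (hB : Bf D e.2 ⊆ G) {ζ : V → ℕ}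
    (hζ : ζ ∈ Rc D r (prt G (cone D e))) (t a : ℕ) (ha : t ≤ (rp D r e.1 (prt G (cone D e)) e.2 t ζ).card + a)
    {c : V × V} (hc : c ∈ ch D e) :
    (rp D r e.1 (prt G (cone D e)) c.1 t ζ).card ≤ (rp D r e.1 (prt G (cone D e)) c.2 t ζ).card + (a + r * H.msz) := by
  set Ge := prt G (cone D e) with hGe
  have hev : e.1 ∉ Ge := src_notMem he
  have hBe : ∀ z ∈ Bf D e.2, z ∈ Ge := by
    intro z hz
    rw [hGe, mem_prt]
    exact ⟨hB hz, (H.dec_ch he).sub z hz⟩
  have h1 := H.sum_block e.2 (fun a b => ((rp D r e.1 Ge a t ζ).card : ℝ) - ((rp D r e.1 Ge b t ζ).card : ℝ))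
    (fun a b => by ring)
  have h3 : bdr D (Bf D e.2) = insert (e.2, e.1) (ch D e) := by
    rw [ch, Finset.insert_erase (H.swap_mem he)]
  rw [h3, Finset.sum_insert (by rw [ch]; exact Finset.notMem_erase _ _)] at h1
  have h2 : ∑ z ∈ Bf D e.2, ∑ z' ∈ D.neighborFinset z,
      (((rp D r e.1 Ge z t ζ).card : ℝ) - ((rp D r e.1 Ge z' t ζ).card : ℝ)) ≤
      ∑ z ∈ Bf D e.2, ((r : ℝ) + (if z = e.2 then (t : ℝ) else 0)) := by
    refine Finset.sum_le_sum fun z hz => ?_
    have hzG := hBe z hz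
    have hb := balance H.degLe hev hζ t hzG
    have h4 := (mem_Rc.1 hζ).1.1 z hzG
    rw [Finset.sum_sub_distrib, Finset.sum_const, SimpleGraph.card_neighborFinset_eq_degree, H.reg z,
      nsmul_eq_mul]
    have h5 : (if D.Adj z e.1 then t else 0) = (if z = e.2 then t else 0) := by
      have h6 : D.Adj z e.1 ↔ z = e.2 := by
        rw [D.adj_comm]
        exact src_adj he (mem_prt.1 hzG).2
      by_cases h7 : z = e.2
      · rw [if_pos h7, if_pos (h6.2 h7)]
      · rw [if_neg h7, if_neg (fun h => h7 (h6.1 h))]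
    rw [h5] at hb
    have hb' : ((itw D r e.1 Ge t ζ z + r * (rp D r e.1 Ge z t ζ).card : ℕ) : ℝ) =
      ((ζ z + (if z = e.2 then t else 0) + ∑ y ∈ D.neighborFinset z, (rp D r e.1 Ge y t ζ).card : ℕ) : ℝ) := by
      rw [hb]
    push_cast at hb'
    have h8 : (ζ z : ℝ) ≤ r := by exact_mod_cast h4.2
    have h9 : (0 : ℝ) ≤ (itw D r e.1 Ge t ζ z : ℝ) := Nat.cast_nonneg _
    linarith
  rw [Finset.sum_add_distrib, Finset.sum_const, H.card_Bf_eq, nsmul_eq_mul, Finset.sum_ite_eq' ,
    if_pos (H.self_mem_Bf e.2)] at h2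
  have h6 : ∀ c' ∈ ch D e, (0 : ℝ) ≤ ((rp D r e.1 Ge c'.1 t ζ).card : ℝ) - ((rp D r e.1 Ge c'.2 t ζ).card : ℝ) := by
    intro c' hc'
    have := m7a_child_le H G he hζ t hc'
    have : ((rp D r e.1 Ge c'.2 t ζ).card : ℝ) ≤ ((rp D r e.1 Ge c'.1 t ζ).card : ℝ) := by exact_mod_cast this
    linarith
  have h7 := Finset.single_le_sum (f := fun c' : V × V =>
    ((rp D r e.1 Ge c'.1 t ζ).card : ℝ) - ((rp D r e.1 Ge c'.2 t ζ).card : ℝ)) h6 hc
  have h8 : (rp D r e.1 Ge e.1 t ζ).card = 0 := m7a_rp_notMem t hev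
  simp only [h8] at h1
  have h9 : (t : ℝ) ≤ ((rp D r e.1 Ge e.2 t ζ).card : ℝ) + a := by exact_mod_cast ha
  have h10 : ((rp D r e.1 Ge c.1 t ζ).card : ℝ) ≤ ((rp D r e.1 Ge c.2 t ζ).card : ℝ) + (a + r * H.msz) := by
    push_cast at h1
    nlinarith
  exact_mod_cast h10

end Pool.Agent.Helper910
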