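import Mathlib
import Pool.Agent.Helper910.M7a
import Pool.Agent.Helper910.M11

/-! Waves around the origin (MP_4555f0_mp) -/

namespace Pool.Agent.Helper910

open Classical Finset Filter Topology

variable {V : Type*} {D : SimpleGraph V} [D.LocallyFinite] {r : ℕ}

theorem m12a_notMem (H : Ctx D r) {o : V} {c : V × V} (hc : c ∈ bdr D (Bf D o)) : o ∉ cone D c := by
  rw [H.bdr_Bf_iff] at hc
  intro h
  exact cone_disj_set (blk_inConn o) hc.2 hc.1 (blk_bridge hc.1 hc.2) h (self_mem_blk o)

/-- TARGET. geometry at `o`: the darts leaving the block of `o` give gates for the source `o` in `G.erase o`. -/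
theorem Ctx.gate_src (H : Ctx D r) (G : Finset V) (o : V) {c : V × V} (hc : c ∈ bdr D (Bf D o)) :
    Gate D (insert o ((G.erase o) \ prt G (cone D c))) (prt G (cone D c)) c.1 c.2 ∧
    ((G.erase o) \ prt G (cone D c)) ∪ prt G (cone D c) = G.erase o ∧ o ∉ prt G (cone D c) := by
  have ho : o ∉ cone D c := m12a_notMem H hc
  have ho' : o ∉ prt G (cone D c) := fun h => ho (mem_prt.1 h).2
  rw [H.bdr_Bf_iff] at hc
  refine ⟨⟨?_, ?_, hc.2.1, ?_, ?_⟩, ?_, ho'⟩
  · rw [Finset.disjoint_insert_left]
    exact ⟨ho', Finset.sdiff_disjoint⟩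
  · intro a ha b hb hab
    have hb' := (mem_prt.1 hb).2
    refine cone_edge hc.2 ?_ hb' hab
    intro ha'
    rcases Finset.mem_insert.1 ha with h | h
    · exact ho (h ▸ ha')
    · rw [Finset.mem_sdiff] at h
      exact h.2 (mem_prt.2 ⟨Finset.mem_of_mem_erase h.1, ha'⟩)
  · intro h
    rcases Finset.mem_insert.1 h with h | h
    · exact ho (h ▸ snd_mem_cone c)
    · rw [Finset.mem_sdiff] at h
      exact h.2 (mem_prt.2 ⟨Finset.mem_of_mem_erase h.1, snd_mem_cone c⟩)
  · intro h
    exact fst_notMem_cone hc.2 (mem_prt.1 h).2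
  · apply Finset.sdiff_union_of_subset
    intro z hz
    refine Finset.mem_erase.2 ⟨?_, (mem_prt.1 hz).1⟩
    rintro rfl
    exact ho' hz

theorem m12a_nbr (H : Ctx D r) {o : V} {S : Finset V} (h : dg D o S = r) {y : V} (hy : D.Adj o y) :
    y ∈ S := by
  rw [dg_eq_inter] at h
  have h1 : (D.neighborFinset o).card = r := by
    rw [SimpleGraph.card_neighborFinset_eq_degree]; exact H.reg o
  have h2 : D.neighborFinset o ∩ S = D.neighborFinset o :=
    Finset.eq_of_subset_of_card_le Finset.inter_subset_left (by rw [h1, h])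
  have h3 : y ∈ D.neighborFinset o := by rw [SimpleGraph.mem_neighborFinset]; exact hy
  rw [← h2] at h3
  exact (Finset.mem_inter.1 h3).2

omit [D.LocallyFinite] in
theorem m12a_wv_sub {v : V} {G : Finset V} {ζ : V → ℕ} {i : ℕ} : wv D r v G ζ i ⊆ G :=
  (isWave_wav v G _).sub

/-- if `c.1` topples (or is the source) in all of the first `k` waves, the response set at `c.2` is the same in the cone -/
theorem m12a_rp (H : Ctx D r) (G : Finset V) (o : V) {c : V × V} (hc : c ∈ bdr D (Bf D o)) (k : ℕ)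
    {ζ : V → ℕ} (hζ : ζ ∈ Rc D r (G.erase o))
    (hk : ∀ i < k, c.1 ∈ insert o (wv D r o (G.erase o) ζ i)) :
    rp D r c.1 (prt G (cone D c)) c.2 k (rs (prt G (cone D c)) ζ) = rp D r o (G.erase o) c.2 k ζ := by
  obtain ⟨g, hu, ho⟩ := H.gate_src G o hc
  set G1 := (G.erase o) \ prt G (cone D c) with hG1
  set G2 := prt G (cone D c) with hG2
  have hv1 : o ∉ G1 := by
    rw [hG1]
    intro h
    exact (Finset.mem_erase.1 (Finset.mem_sdiff.1 h).1).1 rfl
  unfold rp
  apply Finset.filter_congr
  intro i hi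
  rw [Finset.mem_range] at hi
  have hζ' : ζ ∈ Rc D r (G1 ∪ G2) := by rw [hu]; exact hζ
  have h2 := (cut_two H.degLe g hv1 hζ' i).2
  rw [hu] at h2
  have hkk : kk D r o (G.erase o) c.1 ζ i = i := by
    unfold kk
    rw [Finset.filter_true_of_mem, Finset.card_range]
    intro j hj
    rw [Finset.mem_range] at hj
    exact hk j (hj.trans hi)
  rw [if_pos (hk i hi), hkk] at h2
  rw [← h2, Finset.mem_inter]
  constructor
  · exact fun h => h.1
  · intro h
    refine ⟨h, mem_prt.2 ⟨Finset.mem_of_mem_erase (m12a_wv_sub h), snd_mem_cone c⟩⟩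

/-- TARGET. two different darts leave the block of `o`, one at `o` and one at a neighbour of `o`; if all neighbours of `o` topple in each of the first `k` waves, then
both cones see `k` waves of which at most `r - 1` fail. (`c = (o, y0)`: `y0` is a neighbour of `o`, no failure. `c = (h1, y1)`, `h1` a neighbour of `o` in the block (`Ctx.two_nbrs`): `h1` topples in
all `k` waves, and `Ctx.fail_nbr`/`balance` at `h1` gives at most `r - 1` failures of `y1`. `cut_two` translates into the cone.) -/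
theorem Ctx.two_darts (H : Ctx D r) (o : V) : ∃ c1 ∈ bdr D (Bf D o), ∃ c2 ∈ bdr D (Bf D o), c1 ≠ c2 ∧
    ∀ c' : V × V, (c' = c1 ∨ c' = c2) → ∀ (G : Finset V) (k : ℕ), ∀ ζ ∈ Rc D r (G.erase o), Full D r G o k ζ →
      k ≤ (rp D r c'.1 (prt G (cone D c')) c'.2 k (rs (prt G (cone D c')) ζ)).card + (r - 1) := by
  obtain ⟨y0, hy0⟩ := H.bridge_at o
  obtain ⟨h1, h1', -, hoh, -, hblk, -⟩ := H.two_nbrs o
  obtain ⟨y1, hy1⟩ := H.bridge_at h1
  have hc1 : (o, y0) ∈ bdr D (Bf D o) := H.bdr_Bf_iff.2 ⟨self_mem_blk o, hy0⟩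
  have hc2 : (h1, y1) ∈ bdr D (Bf D o) := H.bdr_Bf_iff.2 ⟨hblk, hy1⟩
  refine ⟨(o, y0), hc1, (h1, y1), hc2, ?_, ?_⟩
  · intro h
    exact hoh.ne (Prod.mk.inj h).1
  · intro c' hc' G k ζ hζ hF
    have hmem : ∀ i < k, ∀ y, D.Adj o y → y ∈ wv D r o (G.erase o) ζ i :=
      fun i hi y hy => m12a_nbr H (hF i hi) hy
    rcases hc' with rfl | rfl
    · rw [m12a_rp H G o hc1 k hζ (fun i _ => Finset.mem_insert_self _ _)]
      have : rp D r o (G.erase o) (o, y0).2 k ζ = range k := by
        unfold rp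
        apply Finset.filter_true_of_mem
        intro i hi
        exact hmem i (Finset.mem_range.1 hi) y0 hy0.1
      rw [this, Finset.card_range]
      omega
    · rw [m12a_rp H G o hc2 k hζ (fun i hi => Finset.mem_insert_of_mem (hmem i hi h1 hoh))]
      rcases Nat.eq_zero_or_pos k with hk | hk
      · omega
      · have hz : h1 ∈ G.erase o := m12a_wv_sub (hmem 0 hk h1 hoh)
        have hne : y1 ≠ o := by
          rintro rfl
          exact blk_bridge hblk hy1 (self_mem_blk _)
        have hf := H.fail_nbr (Finset.notMem_erase o G) hζ k hz hy1.1 hne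
        have hr1 : rp D r o (G.erase o) h1 k ζ = range k := by
          unfold rp
          apply Finset.filter_true_of_mem
          intro i hi
          exact hmem i (Finset.mem_range.1 hi) h1 hoh
        rw [hr1, Finset.card_range, Nat.sub_self, Nat.zero_add, Nat.mul_one] at hf
        show k ≤ (rp D r o (G.erase o) y1 k ζ).card + (r - 1)
        omega

end Pool.Agent.Helper910
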