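import Mathlib
import Pool.Agent.Helper910.M12a

/-! Removing the origin (MP_4555f0_mp) -/

namespace Pool.Agent.Helper910

open Classical Finset Filter Topology

variable {V : Type*} {D : SimpleGraph V} [D.LocallyFinite] {r : ℕ}

omit [D.LocallyFinite] in
/-- the part of `G` in the cone of `c` together with the rest (without `o`) -/
theorem m12b_split (G : Finset V) {o y : V} (hb : BD D o y) :
    ((G.erase o) \ prt G (cone D (o, y))) ∪ prt G (cone D (o, y)) = G.erase o := by
  ext z
  simp only [Finset.mem_union, Finset.mem_sdiff, Finset.mem_erase, mem_prt]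
  constructor
  · rintro (h | h)
    · exact h.1
    · refine ⟨?_, h.1⟩
      rintro rfl
      exact fst_notMem_cone (c := (z, y)) hb h.2
  · intro h
    by_cases hz : z ∈ cone D (o, y)
    · exact Or.inr ⟨h.2, hz⟩
    · exact Or.inl ⟨h, fun h' => hz h'.2⟩

/-- the glued configuration -/
noncomputable def m12b_glue (r : ℕ) (o : V) (p : (V → ℕ) × (V → ℕ)) : V → ℕ :=
  fun z => if z = o then r else p.1 z + p.2 z

theorem m12b_glue_mem (H : Ctx D r) {G : Finset V} {o y : V} (ho : o ∈ G) (hb : BD D o y)
    {ζ1 ζ2 : V → ℕ} (h1 : ζ1 ∈ Rc D r ((G.erase o) \ prt G (cone D (o, y))))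
    (h2 : ζ2 ∈ RcW D r (dl y) (prt G (cone D (o, y)))) :
    m12b_glue r o (ζ1, ζ2) ∈ Rc D r G := by
  rw [mem_Rc] at h1 ⊢
  rw [mem_RcW] at h2
  have hr : 1 ≤ r := le_trans (by norm_num) H.three_le
  have hoc : o ∉ cone D (o, y) := fst_notMem_cone (c := (o, y)) hb
  have hval1 : ∀ z ∈ (G.erase o) \ prt G (cone D (o, y)), m12b_glue r o (ζ1, ζ2) z = ζ1 z := by
    intro z hz
    have hz' := Finset.mem_sdiff.1 hz
    have hzo : z ≠ o := (Finset.mem_erase.1 hz'.1).1
    unfold m12b_glue
    rw [if_neg hzo]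
    simp only
    rw [h2.1.2 z hz'.2, add_zero]
  have hval2 : ∀ z ∈ prt G (cone D (o, y)), m12b_glue r o (ζ1, ζ2) z = ζ2 z := by
    intro z hz
    have hzo : z ≠ o := by
      rintro rfl
      exact hoc (mem_prt.1 hz).2
    unfold m12b_glue
    rw [if_neg hzo]
    simp only
    rw [h1.1.2 z (fun h => (Finset.mem_sdiff.1 h).2 hz), zero_add]
  refine ⟨⟨?_, ?_⟩, ?_⟩
  · intro z hz
    by_cases hzo : z = o
    · subst hzo
      unfold m12b_glue
      rw [if_pos rfl]
      exact ⟨hr, le_refl _⟩
    · by_cases hzc : z ∈ cone D (o, y)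
      · have hz2 : z ∈ prt G (cone D (o, y)) := mem_prt.2 ⟨hz, hzc⟩
        rw [hval2 z hz2]
        exact h2.1.1 z hz2
      · have hz1 : z ∈ (G.erase o) \ prt G (cone D (o, y)) :=
          Finset.mem_sdiff.2 ⟨Finset.mem_erase.2 ⟨hzo, hz⟩, fun h => hzc (mem_prt.1 h).2⟩
        rw [hval1 z hz1]
        exact h1.1.1 z hz1
  · intro z hz
    have hzo : z ≠ o := by
      rintro rfl
      exact hz ho
    unfold m12b_glue
    rw [if_neg hzo]
    simp only
    rw [h1.1.2 z (fun h => hz (Finset.mem_erase.1 (Finset.mem_sdiff.1 h).1).2),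
      h2.1.2 z (fun h => hz (mem_prt.1 h).1)]
  · intro U hU hne
    by_cases hU2 : (U ∩ prt G (cone D (o, y))).Nonempty
    · obtain ⟨z, hz, hlt⟩ := h2.2 (U ∩ prt G (cone D (o, y))) Finset.inter_subset_right hU2
      have hzU := (Finset.mem_inter.1 hz).1
      have hz2 := (Finset.mem_inter.1 hz).2
      refine ⟨z, hzU, ?_⟩
      rw [hval2 z hz2]
      have hsplit : dg D z U = dg D z (U ∩ prt G (cone D (o, y))) + dg D z (U \ prt G (cone D (o, y))) := by
        rw [← dg_union (Finset.disjoint_left.2 (fun a ha hb' => (Finset.mem_sdiff.1 hb').2 (Finset.mem_inter.1 ha).2))]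
        congr 1
        ext a
        simp only [Finset.mem_union, Finset.mem_inter, Finset.mem_sdiff]
        tauto
      have hle : dg D z (U \ prt G (cone D (o, y))) ≤ dl y z := by
        by_cases hzy : z = y
        · subst hzy
          have hd1 : dl z z = 1 := by simp [dl]
          rw [hd1]
          refine le_trans ?_ (le_of_eq (Finset.card_singleton o))
          unfold dg
          refine Finset.card_le_card ?_
          intro a ha
          rw [Finset.mem_filter] at ha
          have haU := Finset.mem_sdiff.1 ha.1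
          have hac : a ∉ cone D (o, z) := fun h => haU.2 (mem_prt.2 ⟨hU haU.1, h⟩)
          have := cone_edge (c := (o, z)) hb hac (mem_prt.1 hz2).2 ha.2.symm
          exact Finset.mem_singleton.2 this.1
        · refine le_of_eq_of_le ?_ (Nat.zero_le _)
          refine dg_eq_zero ?_
          intro a ha hadj
          have haU := Finset.mem_sdiff.1 ha
          have hac : a ∉ cone D (o, y) := fun h => haU.2 (mem_prt.2 ⟨hU haU.1, h⟩)
          have := cone_edge (c := (o, y)) hb hac (mem_prt.1 hz2).2 hadj.symm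
          exact hzy this.2
      have h0 : (0 : V → ℕ) z = 0 := rfl
      omega
    · rw [Finset.not_nonempty_iff_eq_empty] at hU2
      have hyU : y ∉ U := by
        intro h
        have : y ∈ U ∩ prt G (cone D (o, y)) :=
          Finset.mem_inter.2 ⟨h, mem_prt.2 ⟨hU h, snd_mem_cone (D := D) (o, y)⟩⟩
        rw [hU2] at this
        exact absurd this (Finset.notMem_empty _)
      by_cases hoU : o ∈ U
      · refine ⟨o, hoU, ?_⟩
        have hv : m12b_glue r o (ζ1, ζ2) o = r := by
          unfold m12b_glue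
          rw [if_pos rfl]
        rw [hv]
        have h3 := H.degLe o (insert y U)
        have h4 : dg D o (insert y U) = dg D o U + 1 := by
          rw [dg_insert hyU, if_pos hb.1]
        have h0 : (0 : V → ℕ) o = 0 := rfl
        omega
      · have hU1 : U ⊆ (G.erase o) \ prt G (cone D (o, y)) := by
          intro z hz
          refine Finset.mem_sdiff.2 ⟨Finset.mem_erase.2 ⟨?_, hU hz⟩, ?_⟩
          · rintro rfl
            exact hoU hz
          · intro h
            have : z ∈ U ∩ prt G (cone D (o, y)) := Finset.mem_inter.2 ⟨hz, h⟩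
            rw [hU2] at this
            exact absurd this (Finset.notMem_empty _)
        obtain ⟨z, hz, hlt⟩ := h1.2 U hU1 hne
        exact ⟨z, hz, by rw [hval1 z (hU1 hz)]; exact hlt⟩

theorem m12b_card (H : Ctx D r) {G : Finset V} {o y : V} (ho : o ∈ G) (hb : BD D o y) :
    (Rc D r ((G.erase o) \ prt G (cone D (o, y)))).card * (RcW D r (dl y) (prt G (cone D (o, y)))).card ≤
      (Rc D r G).card := by
  rw [← Finset.card_product]
  refine Finset.card_le_card_of_injOn (m12b_glue r o) ?_ ?_
  · intro p hp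
    have hp' := Finset.mem_product.1 (Finset.mem_coe.1 hp)
    exact m12b_glue_mem H ho hb hp'.1 hp'.2
  · intro p hp q hq hpq
    have hp' := Finset.mem_product.1 (Finset.mem_coe.1 hp)
    have hq' := Finset.mem_product.1 (Finset.mem_coe.1 hq)
    have p1 := (mem_Rc.1 hp'.1).1
    have p2 := (mem_RcW.1 hp'.2).1
    have q1 := (mem_Rc.1 hq'.1).1
    have q2 := (mem_RcW.1 hq'.2).1
    have hoc : o ∉ cone D (o, y) := fst_notMem_cone (c := (o, y)) hb
    have key : ∀ z, p.1 z = q.1 z ∧ p.2 z = q.2 z := by
      intro z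
      have hz := congrFun hpq z
      unfold m12b_glue at hz
      by_cases h1 : z ∈ (G.erase o) \ prt G (cone D (o, y))
      · have h1' := Finset.mem_sdiff.1 h1
        have hzo : z ≠ o := (Finset.mem_erase.1 h1'.1).1
        rw [if_neg hzo, if_neg hzo, p2.2 z h1'.2, q2.2 z h1'.2] at hz
        refine ⟨by simpa using hz, ?_⟩
        rw [p2.2 z h1'.2, q2.2 z h1'.2]
      · by_cases h2 : z ∈ prt G (cone D (o, y))
        · have hzo : z ≠ o := by
            rintro rfl
            exact hoc (mem_prt.1 h2).2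
          rw [if_neg hzo, if_neg hzo, p1.2 z h1, q1.2 z h1] at hz
          refine ⟨?_, by simpa using hz⟩
          rw [p1.2 z h1, q1.2 z h1]
        · exact ⟨by rw [p1.2 z h1, q1.2 z h1], by rw [p2.2 z h2, q2.2 z h2]⟩
    exact Prod.ext (funext fun z => (key z).1) (funext fun z => (key z).2)

/-- TARGET. `|Rc (G.erase o)| ≤ |Rc G| / g0` for `o ∈ G`: more precisely the configurations with height `r` at `o`. Plain proof: let `c = (o, y)` be a bridge dart. For
`ζ ∈ Rc (G.erase o)` whose restriction to `prt G (cone c)` is strong (`RcW (dl y)`), `η = ζ + r` at `o` is in `Rc G`: if `U ⊆ G` is forbidden then `o ∈ U` (else `U` is forbidden for `ζ`)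
and all `r` neighbours of `o` are in `U`, so `y ∈ U` and `U ∩ cone c` would violate `RcW (dl y)`. The number of such `ζ` is at least `g0 |Rc (G.erase o)|` (the cone of `c` is not adjacent to the
rest of `G.erase o`, so `Rc (G.erase o)` is a product; or use `mul_le_card` and `card_filter_le_mul`). -/
theorem Ctx.erase_le (H : Ctx D r) {G : Finset V} {o : V} (ho : o ∈ G) :
    H.g0 * ((Rc D r (G.erase o)).card : ℝ) ≤ ((Rc D r G).card : ℝ) := by
  obtain ⟨y, hb⟩ := H.bridge_at o
  have h1 := m12b_card H ho hb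
  have h2 := H.card_strong_cone G (e := (o, y)) hb
  have h3 := H.bet_le G (e := (o, y)) hb
  have hdis : Disjoint ((G.erase o) \ prt G (cone D (o, y))) (prt G (cone D (o, y))) := Finset.sdiff_disjoint
  have h4 := card_filter_le_mul (D := D) (r := r) hdis (fun _ => True) (fun _ => True)
  rw [m12b_split G hb] at h4
  simp only [and_self, Finset.filter_true] at h4
  have h1' : (((Rc D r ((G.erase o) \ prt G (cone D (o, y)))).card : ℝ)) *
      ((RcW D r (dl y) (prt G (cone D (o, y)))).card : ℝ) ≤ ((Rc D r G).card : ℝ) := by exact_mod_cast h1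
  have h4' : ((Rc D r (G.erase o)).card : ℝ) ≤ ((Rc D r ((G.erase o) \ prt G (cone D (o, y)))).card : ℝ) *
      ((Rc D r (prt G (cone D (o, y)))).card : ℝ) := by exact_mod_cast h4
  simp only at h2
  rw [h2] at h1'
  have hg := H.g0_pos
  have hA : (0 : ℝ) ≤ ((Rc D r ((G.erase o) \ prt G (cone D (o, y)))).card : ℝ) := Nat.cast_nonneg _
  have hB : (0 : ℝ) ≤ ((Rc D r (prt G (cone D (o, y)))).card : ℝ) := Nat.cast_nonneg _
  calc H.g0 * ((Rc D r (G.erase o)).card : ℝ)
      ≤ H.g0 * (((Rc D r ((G.erase o) \ prt G (cone D (o, y)))).card : ℝ) *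
        ((Rc D r (prt G (cone D (o, y)))).card : ℝ)) := mul_le_mul_of_nonneg_left h4' hg.le
    _ ≤ (1 - bet D r G (o, y)) * (((Rc D r ((G.erase o) \ prt G (cone D (o, y)))).card : ℝ) *
        ((Rc D r (prt G (cone D (o, y)))).card : ℝ)) :=
        mul_le_mul_of_nonneg_right (by linarith) (mul_nonneg hA hB)
    _ = ((Rc D r ((G.erase o) \ prt G (cone D (o, y)))).card : ℝ) *
        ((1 - bet D r G (o, y)) * ((Rc D r (prt G (cone D (o, y)))).card : ℝ)) := by ring
    _ ≤ ((Rc D r G).card : ℝ) := h1'

end Pool.Agent.Helper910
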