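import Mathlib
import Pool.Agent.Helper910.M7a

/-! Many topplings at the root force large generations (MP_4555f0_mp) -/

namespace Pool.Agent.Helper910

open Classical Finset Filter Topology

variable {V : Type*} {D : SimpleGraph V} [D.LocallyFinite] {r : ℕ}

/-- the loss function -/
def Ph (R m r : ℕ) : ℕ → ℕ → ℕ
  | 0, _ => 0
  | l + 1, a => R * (a + 1) + Ph R m r l (a + r * m)

/-- reindexing the times at which `p` holds by their rank -/
theorem m7b_reindex {M : Type*} [AddCommMonoid M] (p : ℕ → Prop) [DecidablePred p] (f : ℕ → M) (t : ℕ) :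
    ∑ i ∈ (range t).filter p, f (((range i).filter p).card) = ∑ k ∈ range ((range t).filter p).card, f k := by
  induction t with
  | zero => simp
  | succ t ih =>
    rw [Finset.range_add_one, Finset.filter_insert]
    split_ifs with h
    · rw [Finset.sum_insert (by simp), Finset.card_insert_of_notMem (by simp), Finset.sum_range_succ, ih, add_comm]
    · exact ih

omit [D.LocallyFinite] in
theorem m7b_kk {v h : V} {G : Finset V} {ζ : V → ℕ} (hvh : v ≠ h) (i : ℕ) :
    kk D r v G h ζ i = ((range i).filter (fun j => h ∈ wv D r v G ζ j)).card := by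
  unfold kk
  congr 1
  refine Finset.filter_congr ?_
  intro j _
  rw [Finset.mem_insert]
  exact ⟨fun h' => h'.resolve_left (fun h'' => hvh h''.symm), Or.inr⟩

/-- the sum over the waves that reach the tail of the child `c` -/
theorem Ctx.m7b_child (H : Ctx D r) (G : Finset V) {e c : V × V} (he : BD D e.1 e.2) (hc : c ∈ ch D e) {ζ : V → ℕ}
    (hζ : ζ ∈ Rc D r (prt G (cone D e))) (t : ℕ) (F : (V → ℕ) → ℝ) :
    ∑ i ∈ (range t).filter (fun i => c.1 ∈ wv D r e.1 (prt G (cone D e)) ζ i),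
        F (rs (prt G (cone D c)) (itw D r e.1 (prt G (cone D e)) i ζ)) =
      ∑ k ∈ range (rp D r e.1 (prt G (cone D e)) c.1 t ζ).card,
        F (itw D r c.1 (prt G (cone D c)) k (rs (prt G (cone D c)) ζ)) := by
  obtain ⟨g, hU, hv, h2, hne⟩ := H.gate_child G he hc
  have hζ' : ζ ∈ Rc D r (rst D G e c ∪ prt G (cone D c)) := by rw [hU]; exact hζ
  rw [rp, ← m7b_reindex (fun i => c.1 ∈ wv D r e.1 (prt G (cone D e)) ζ i)
    (fun k => F (itw D r c.1 (prt G (cone D c)) k (rs (prt G (cone D c)) ζ))) t]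
  refine Finset.sum_congr rfl ?_
  intro i _
  have h3 := (cut_two H.degLe g hv hζ' i).1
  rw [hU, m7b_kk hne] at h3
  rw [h3]

theorem Ctx.m7b_rp (H : Ctx D r) (G : Finset V) {e c : V × V} (he : BD D e.1 e.2) (hc : c ∈ ch D e) {ζ : V → ℕ}
    (hζ : ζ ∈ Rc D r (prt G (cone D e))) (t : ℕ) :
    (rp D r e.1 (prt G (cone D e)) c.2 t ζ).card =
      (rp D r c.1 (prt G (cone D c)) c.2 (rp D r e.1 (prt G (cone D e)) c.1 t ζ).card
        (rs (prt G (cone D c)) ζ)).card := by
  obtain ⟨g, hU, hv, h2, hne⟩ := H.gate_child G he hc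
  have hζ' : ζ ∈ Rc D r (rst D G e c ∪ prt G (cone D c)) := by rw [hU]; exact hζ
  have hiff : ∀ i, c.2 ∈ wv D r e.1 (prt G (cone D e)) ζ i ↔
      (c.1 ∈ wv D r e.1 (prt G (cone D e)) ζ i ∧ c.2 ∈ wv D r c.1 (prt G (cone D c)) (rs (prt G (cone D c)) ζ)
        (((range i).filter (fun j => c.1 ∈ wv D r e.1 (prt G (cone D e)) ζ j)).card)) := by
    intro i
    have h3 := (cut_two H.degLe g hv hζ' i).2
    rw [hU, m7b_kk hne] at h3
    have h4 : c.2 ∈ wv D r e.1 (prt G (cone D e)) ζ i ↔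
        c.2 ∈ wv D r e.1 (prt G (cone D e)) ζ i ∩ prt G (cone D c) := by
      rw [Finset.mem_inter]
      refine ⟨fun h' => ⟨h', ?_⟩, fun h' => h'.1⟩
      have h5 : c.2 ∈ prt G (cone D e) := (isWave_wav _ _ _).sub h'
      exact mem_prt.2 ⟨(mem_prt.1 h5).1, snd_mem_cone c⟩
    rw [h4, h3]
    have h6 : c.1 ∈ insert e.1 (wv D r e.1 (prt G (cone D e)) ζ i) ↔
        c.1 ∈ wv D r e.1 (prt G (cone D e)) ζ i := by
      rw [Finset.mem_insert]
      exact ⟨fun h' => h'.resolve_left (fun h'' => hne h''.symm), Or.inr⟩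
    split_ifs with h7
    · exact ⟨fun h' => ⟨h6.1 h7, h'⟩, fun h' => h'.2⟩
    · refine ⟨fun h' => absurd h' (Finset.notMem_empty _), fun h' => absurd (h6.2 h'.1) h7⟩
  have e1 : (rp D r e.1 (prt G (cone D e)) c.2 t ζ).card =
      ∑ i ∈ (range t).filter (fun i => c.1 ∈ wv D r e.1 (prt G (cone D e)) ζ i),
        (if c.2 ∈ wv D r c.1 (prt G (cone D c)) (rs (prt G (cone D c)) ζ)
          (((range i).filter (fun j => c.1 ∈ wv D r e.1 (prt G (cone D e)) ζ j)).card) then 1 else 0) := by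
    rw [← Finset.card_filter, Finset.filter_filter, rp]
    congr 1
    exact Finset.filter_congr (fun i _ => hiff i)
  rw [e1]
  rw [m7b_reindex (fun i => c.1 ∈ wv D r e.1 (prt G (cone D e)) ζ i)
    (fun k => if c.2 ∈ wv D r c.1 (prt G (cone D c)) (rs (prt G (cone D c)) ζ) k then 1 else 0) t,
    ← Finset.card_filter]
  rfl

/-- TARGET. If the root of the cone topples in all but at most `a` of the `t` waves, then the waves reach many tails in generation `l`. Induction on `l`:
`∑_{i<t} Z_(l+1) (ζ^(i)) = ∑_c ∑_{k < T_c} Z_l (ζ_c^(k))`, `T_c = kk v G_e c.1 ζ t` (`cut_two` for the gate of `c`, reindex the times `i` with `c.1 ∈ wave i` by `kk i`), and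
the induction hypothesis for `c`, `t := T_c`, `a := a + r m` (`fail_current`; the number of topplings of `c.2` is `|rp c.1 G_c c.2 T_c ζ_c|` by `cut_two`), `T_c ≥ t - r^m (a+1)` (`fail_block`).
If the block is not inside `G`, `fail_block` at a vertex outside `G` gives `t ≤ r^m (a+1)` and the left side is `≤ 0`. -/
theorem Ctx.Z_sum (H : Ctx D r) (G : Finset V) (l : ℕ) {e : V × V} (he : BD D e.1 e.2) {ζ : V → ℕ}
    (hζ : ζ ∈ Rc D r (prt G (cone D e))) (t a : ℕ) (ha : t ≤ (rp D r e.1 (prt G (cone D e)) e.2 t ζ).card + a) :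
    (H.nn : ℝ) ^ l * ((t : ℝ) - (Ph (r ^ H.msz) H.msz r l a : ℝ)) ≤
      ∑ i ∈ range t, (Zg D r G l e (itw D r e.1 (prt G (cone D e)) i ζ) : ℝ) := by
  induction l generalizing e ζ t a with
  | zero => simp [Ph, Zg]
  | succ l ih =>
    have hPh : (Ph (r ^ H.msz) H.msz r (l + 1) a : ℝ) =
        (r : ℝ) ^ H.msz * ((a : ℝ) + 1) + (Ph (r ^ H.msz) H.msz r l (a + r * H.msz) : ℝ) := by
      rw [Ph]; push_cast; ring
    by_cases hB : Bf D e.2 ⊆ G
    · have e1 : ∑ i ∈ range t, (Zg D r G (l + 1) e (itw D r e.1 (prt G (cone D e)) i ζ) : ℝ) =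
          ∑ c ∈ ch D e, ∑ k ∈ range (rp D r e.1 (prt G (cone D e)) c.1 t ζ).card,
            (Zg D r G l c (itw D r c.1 (prt G (cone D c)) k (rs (prt G (cone D c)) ζ)) : ℝ) := by
        have e2 : ∀ c ∈ ch D e, ∑ k ∈ range (rp D r e.1 (prt G (cone D e)) c.1 t ζ).card,
            (Zg D r G l c (itw D r c.1 (prt G (cone D c)) k (rs (prt G (cone D c)) ζ)) : ℝ) =
            ∑ i ∈ range t, (if c.1 ∈ wv D r e.1 (prt G (cone D e)) ζ i then
              (Zg D r G l c (rs (prt G (cone D c)) (itw D r e.1 (prt G (cone D e)) i ζ)) : ℝ) else 0) := by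
          intro c hc
          rw [← Finset.sum_filter, H.m7b_child G he hc hζ t (fun ξ => (Zg D r G l c ξ : ℝ))]
        rw [Finset.sum_congr rfl e2, Finset.sum_comm]
        refine Finset.sum_congr rfl ?_
        intro i _
        rw [Zg]
        push_cast
        rw [Finset.sum_filter]
        rfl
      rw [e1]
      have hN : ((ch D e).card : ℝ) = (H.nn : ℝ) := by rw [H.card_ch_eq he]
      have e3 : ∀ c ∈ ch D e, (H.nn : ℝ) ^ l * ((t : ℝ) - (Ph (r ^ H.msz) H.msz r (l + 1) a : ℝ)) ≤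
          ∑ k ∈ range (rp D r e.1 (prt G (cone D e)) c.1 t ζ).card,
            (Zg D r G l c (itw D r c.1 (prt G (cone D c)) k (rs (prt G (cone D c)) ζ)) : ℝ) := by
        intro c hc
        have hc' := H.mem_ch.1 hc
        obtain ⟨g, hU, hv, h2, hne⟩ := H.gate_child G he hc
        have hsub : prt G (cone D c) ⊆ prt G (cone D e) := by
          rw [← hU]; exact Finset.subset_union_right
        have h1 : rs (prt G (cone D c)) ζ ∈ Rc D r (prt G (cone D c)) := rs_mem_Rc hsub hζ
        have h3 := H.fail_current G he hB hζ t a ha hc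
        rw [H.m7b_rp G he hc hζ t] at h3
        have h4 := ih hc'.2.2 h1 (rp D r e.1 (prt G (cone D e)) c.1 t ζ).card (a + r * H.msz) h3
        refine le_trans ?_ h4
        have h5 := H.fail_block G he hζ t a ha (z := c.1) (H.mem_Bf.2 hc'.2.1)
        have h6 : (t : ℝ) ≤ ((rp D r e.1 (prt G (cone D e)) c.1 t ζ).card : ℝ) + (r : ℝ) ^ H.msz * ((a : ℝ) + 1) := by
          exact_mod_cast h5
        refine mul_le_mul_of_nonneg_left ?_ (pow_nonneg (Nat.cast_nonneg _) _)
        rw [hPh]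
        linarith
      have e4 := Finset.sum_le_sum e3
      rw [Finset.sum_const, nsmul_eq_mul, hN] at e4
      refine le_trans (le_of_eq ?_) e4
      rw [pow_succ]
      ring
    · rw [Finset.not_subset] at hB
      obtain ⟨z, hz, hzG⟩ := hB
      have h5 := H.fail_block G he hζ t a ha hz
      have h6 : (rp D r e.1 (prt G (cone D e)) z t ζ).card = 0 := by
        rw [Finset.card_eq_zero, rp, Finset.filter_eq_empty_iff]
        intro i _ h'
        have h7 : z ∈ prt G (cone D e) := (isWave_wav _ _ _).sub h'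
        exact hzG (mem_prt.1 h7).1
      rw [h6, zero_add] at h5
      have h7 : (t : ℝ) ≤ (r : ℝ) ^ H.msz * ((a : ℝ) + 1) := by exact_mod_cast h5
      have h8 : (t : ℝ) - (Ph (r ^ H.msz) H.msz r (l + 1) a : ℝ) ≤ 0 := by
        rw [hPh]
        have : (0 : ℝ) ≤ (Ph (r ^ H.msz) H.msz r l (a + r * H.msz) : ℝ) := Nat.cast_nonneg _
        linarith
      refine le_trans (mul_nonpos_of_nonneg_of_nonpos (pow_nonneg (Nat.cast_nonneg _) _) h8) ?_
      exact Finset.sum_nonneg (fun i _ => Nat.cast_nonneg _)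

end Pool.Agent.Helper910
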