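import Mathlib
import Pool.Agent.Helper910.M7b

/-! Many waves are super-exponentially unlikely (MP_4555f0_mp) -/

namespace Pool.Agent.Helper910

open Classical Finset Filter Topology

variable {V : Type*} {D : SimpleGraph V} [D.LocallyFinite] {r : ℕ}

omit [D.LocallyFinite] in
theorem m7c_notMem (G : Finset V) {e : V × V} (he : BD D e.1 e.2) : e.1 ∉ prt G (cone D e) := by
  intro h
  exact fst_notMem_cone he (mem_prt.1 h).2

theorem m7c_nn (H : Ctx D r) {e : V × V} (he : BD D e.1 e.2) : 2 ≤ H.nn := by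
  have h1 := H.two_le_ch he
  rwa [H.card_ch_eq he] at h1

theorem m7c_rc_pos (H : Ctx D r) (G : Finset V) : 0 < (Rc D r G).card :=
  Finset.card_pos.2 ⟨_, H.top_mem (by have := H.three_le; omega) G⟩

theorem m7c_card_itw (H : Ctx D r) {v : V} {G : Finset V} (hv : v ∉ G) (Q : (V → ℕ) → Prop) (i : ℕ) :
    ((Rc D r G).filter (fun ζ => Q (itw D r v G i ζ))).card = ((Rc D r G).filter Q).card := by
  have h := sum_itw H.degLe hv (M := ℕ) (fun ζ => if Q ζ then 1 else 0) i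
  rw [Finset.card_filter, Finset.card_filter]
  exact h

theorem m7c_union (H : Ctx D r) {v : V} {G : Finset V} (hv : v ∉ G) (P Q : (V → ℕ) → Prop) (t : ℕ)
    (key : ∀ ζ ∈ Rc D r G, P ζ → ∃ i ∈ range t, Q (itw D r v G i ζ)) :
    pr D r G P ≤ (t : ℝ) * pr D r G Q := by
  have hpos : (0 : ℝ) < ((Rc D r G).card : ℝ) := by exact_mod_cast m7c_rc_pos H G
  have hcard : ((Rc D r G).filter P).card ≤ t * ((Rc D r G).filter Q).card := by
    have hsub : (Rc D r G).filter P ⊆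
        (range t).biUnion (fun i => (Rc D r G).filter (fun ζ => Q (itw D r v G i ζ))) := by
      intro ζ hζ
      rw [Finset.mem_filter] at hζ
      obtain ⟨i, hi, h⟩ := key ζ hζ.1 hζ.2
      exact Finset.mem_biUnion.2 ⟨i, hi, Finset.mem_filter.2 ⟨hζ.1, h⟩⟩
    refine (Finset.card_le_card hsub).trans (Finset.card_biUnion_le.trans ?_)
    rw [Finset.sum_congr rfl fun i _ => m7c_card_itw H hv Q i, Finset.sum_const, Finset.card_range,
      smul_eq_mul]
  unfold pr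
  rw [mul_div_assoc']
  apply div_le_div_of_nonneg_right _ hpos.le
  exact_mod_cast hcard

theorem m7c_pr_le_one (H : Ctx D r) (G : Finset V) (P : (V → ℕ) → Prop) : pr D r G P ≤ 1 := by
  have hpos : (0 : ℝ) < ((Rc D r G).card : ℝ) := by exact_mod_cast m7c_rc_pos H G
  unfold pr
  rw [div_le_one hpos]
  exact_mod_cast Finset.card_filter_le _ _

/-- TARGET. (some `i < t` has `Z_(l+1) (ζ^(i)) ≥ (1 - 1/(4N)) N^(l+1)`; union bound, `sum_itw`, `Ctx.Z_tail`) -/
theorem Ctx.many_aux (H : Ctx D r) (G : Finset V) (l : ℕ) {e : V × V} (he : BD D e.1 e.2) (t a : ℕ) (ht : 1 ≤ t)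
    (hl : 4 * H.nn * Ph (r ^ H.msz) H.msz r (l + 1) a ≤ t) :
    pr D r (prt G (cone D e)) (fun ζ => t ≤ (rp D r e.1 (prt G (cone D e)) e.2 t ζ).card + a) ≤
      (t : ℝ) * (3 / 4 : ℝ) ^ (H.nn ^ l) := by
  have hv := m7c_notMem (D := D) G he
  have hnn := m7c_nn H he
  set Gc := prt G (cone D e) with hGc
  set Q : (V → ℕ) → Prop := fun ζ => (1 - 1 / (4 * (H.nn : ℝ))) * (H.nn : ℝ) ^ (l + 1) ≤
    (Zg D r G (l + 1) e ζ : ℝ) with hQ
  have hnR : (2 : ℝ) ≤ (H.nn : ℝ) := by exact_mod_cast hnn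
  have key : ∀ ζ ∈ Rc D r Gc, t ≤ (rp D r e.1 Gc e.2 t ζ).card + a →
      ∃ i ∈ range t, Q (itw D r e.1 Gc i ζ) := by
    intro ζ hζ hP
    by_contra hcon
    push Not at hcon
    have h1 := H.Z_sum G (l + 1) he hζ t a hP
    have h2 : ∑ i ∈ range t, (Zg D r G (l + 1) e (itw D r e.1 Gc i ζ) : ℝ) <
        ∑ i ∈ range t, (1 - 1 / (4 * (H.nn : ℝ))) * (H.nn : ℝ) ^ (l + 1) := by
      refine Finset.sum_lt_sum_of_nonempty ⟨0, Finset.mem_range.2 ht⟩ fun i hi => ?_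
      exact not_le.1 (hcon i hi)
    rw [Finset.sum_const, Finset.card_range, nsmul_eq_mul] at h2
    have h3 : (Ph (r ^ H.msz) H.msz r (l + 1) a : ℝ) ≤ (t : ℝ) / (4 * (H.nn : ℝ)) := by
      rw [le_div_iff₀ (by positivity)]
      have : ((4 * H.nn * Ph (r ^ H.msz) H.msz r (l + 1) a : ℕ) : ℝ) ≤ (t : ℝ) := by exact_mod_cast hl
      push_cast at this
      linarith
    have h4 : (H.nn : ℝ) ^ (l + 1) * ((t : ℝ) - (t : ℝ) / (4 * (H.nn : ℝ))) ≤
        (H.nn : ℝ) ^ (l + 1) * ((t : ℝ) - (Ph (r ^ H.msz) H.msz r (l + 1) a : ℝ)) := by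
      apply mul_le_mul_of_nonneg_left _ (by positivity)
      linarith
    have h5 : (H.nn : ℝ) ^ (l + 1) * ((t : ℝ) - (t : ℝ) / (4 * (H.nn : ℝ))) =
        (t : ℝ) * ((1 - 1 / (4 * (H.nn : ℝ))) * (H.nn : ℝ) ^ (l + 1)) := by ring
    have h6 := (h5 ▸ h4).trans h1
    exact absurd (h6.trans_lt h2) (lt_irrefl _)
  have htail := H.Z_tail G l he
  exact (m7c_union H hv _ Q t key).trans (mul_le_mul_of_nonneg_left htail (Nat.cast_nonneg t))

theorem m7c_Ph (R m r : ℕ) : ∀ l a : ℕ, Ph R m r l a ≤ R * (l * (a + l * (r * m) + 1))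
  | 0, a => by simp [Ph]
  | l + 1, a => by
    have ih := m7c_Ph R m r l (a + r * m)
    rw [Ph]
    have h1 : l * (a + r * m + l * (r * m) + 1) ≤ l * (a + (l + 1) * (r * m) + 1) := by
      apply Nat.mul_le_mul_left
      nlinarith
    have h2 : a + 1 ≤ a + (l + 1) * (r * m) + 1 := by omega
    calc R * (a + 1) + Ph R m r l (a + r * m)
        ≤ R * (a + (l + 1) * (r * m) + 1) + R * (l * (a + (l + 1) * (r * m) + 1)) :=
          Nat.add_le_add (Nat.mul_le_mul_left _ h2) (ih.trans (Nat.mul_le_mul_left _ h1))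
      _ = R * ((l + 1) * (a + (l + 1) * (r * m) + 1)) := by ring

theorem m7c_Ph' (R m r l a : ℕ) : Ph R m r (l + 1) a ≤ R * (a + r * m + 1) * (l + 1) ^ 2 := by
  refine (m7c_Ph R m r (l + 1) a).trans ?_
  have h : a + (l + 1) * (r * m) + 1 ≤ (l + 1) * (a + r * m + 1) := by nlinarith
  calc R * ((l + 1) * (a + (l + 1) * (r * m) + 1)) ≤ R * ((l + 1) * ((l + 1) * (a + r * m + 1))) :=
        Nat.mul_le_mul_left _ (Nat.mul_le_mul_left _ h)
    _ = _ := by ring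

/-- eventually `C² (s+1)⁴ ≤ 2^(s-1)` -/
theorem m7c_ev (C : ℕ) : ∀ᶠ s : ℕ in atTop, (C * (s + 1) ^ 2) ^ 2 ≤ 2 ^ (s - 1) := by
  have h : Tendsto (fun n : ℕ => (n : ℝ) ^ 4 / (2 : ℝ) ^ n) atTop (𝓝 0) :=
    tendsto_pow_const_div_const_pow_of_one_lt 4 (by norm_num)
  have h2 : ∀ᶠ n : ℕ in atTop, (n : ℝ) ^ 4 / (2 : ℝ) ^ n < 1 / (4 * ((C : ℝ) ^ 2 + 1)) :=
    h.eventually_lt_const (by positivity)
  have h3 : ∀ᶠ s : ℕ in atTop, (((s + 1 : ℕ) : ℝ)) ^ 4 / (2 : ℝ) ^ (s + 1) < 1 / (4 * ((C : ℝ) ^ 2 + 1)) :=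
    (tendsto_add_atTop_nat 1).eventually h2
  filter_upwards [h3, eventually_ge_atTop 1] with s hs hs1
  obtain ⟨k, rfl⟩ : ∃ k, s = k + 1 := ⟨s - 1, by omega⟩
  rw [div_lt_div_iff₀ (by positivity) (by positivity)] at hs
  have h4 : ((C : ℝ) * (((k + 1 : ℕ) : ℝ) + 1) ^ 2) ^ 2 ≤ (2 : ℝ) ^ k := by
    push_cast at hs ⊢
    have h5 : (2 : ℝ) ^ (k + 1 + 1) = 4 * 2 ^ k := by ring
    rw [h5] at hs
    have h6 : 0 ≤ ((k : ℝ) + 1 + 1) ^ 4 := by positivity
    nlinarith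
  have h7 : k + 1 - 1 = k := by omega
  rw [h7]
  exact_mod_cast h4

theorem m7c_sqrt_tendsto (C : ℕ) (hC : 0 < C) : Tendsto (fun t : ℕ => Nat.sqrt (t / C)) atTop atTop := by
  rw [tendsto_atTop]
  intro b
  filter_upwards [eventually_ge_atTop (b * b * C)] with t ht
  rw [Nat.le_sqrt]
  exact (Nat.le_div_iff_mul_le hC).2 ht

/-- TARGET. `Ph (l+1) a = O(l^2)`, so for large `t` one can take `l ≥ c √t`, `N^l ≥ 2^l ≥ t^2`, and `t (3/4)^(t^2)` is summable against any exponential;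
for small `t` take `b t = 1`. -/
theorem Ctx.many (H : Ctx D r) (a : ℕ) : ∃ b : ℕ → ℝ, (∀ t, 0 ≤ b t) ∧
    (∀ (G : Finset V) (e : V × V), BD D e.1 e.2 → ∀ t : ℕ,
      pr D r (prt G (cone D e)) (fun ζ => t ≤ (rp D r e.1 (prt G (cone D e)) e.2 t ζ).card + a) ≤ b t) ∧
    ∀ K : ℝ, 0 ≤ K → Summable (fun t => K ^ t * b t) := by
  set C : ℕ := 4 * H.nn * (r ^ H.msz * (a + r * H.msz + 1)) + 1 with hC
  have hC0 : 0 < C := by omega
  let L : ℕ → ℕ := fun t => Nat.sqrt (t / C) - 1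
  refine ⟨fun t => if C ≤ t then (t : ℝ) * (3 / 4 : ℝ) ^ (2 ^ L t) else 1, ?_, ?_, ?_⟩
  · intro t
    dsimp only
    split_ifs
    · positivity
    · exact zero_le_one
  · intro G e he t
    dsimp only
    have hpos : (0 : ℝ) < ((Rc D r (prt G (cone D e))).card : ℝ) := by exact_mod_cast m7c_rc_pos H _
    split_ifs with h
    · have hdiv : 1 ≤ t / C := (Nat.le_div_iff_mul_le hC0).2 (by omega)
      have hs : 1 ≤ Nat.sqrt (t / C) := by rw [Nat.le_sqrt]; omega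
      have hL : (L t + 1) ^ 2 ≤ t / C := by
        have h1 : L t + 1 = Nat.sqrt (t / C) := by simp only [L]; omega
        rw [h1]
        exact Nat.sqrt_le' _
      have hl : 4 * H.nn * Ph (r ^ H.msz) H.msz r (L t + 1) a ≤ t := by
        calc 4 * H.nn * Ph (r ^ H.msz) H.msz r (L t + 1) a
            ≤ 4 * H.nn * (r ^ H.msz * (a + r * H.msz + 1) * (L t + 1) ^ 2) :=
              Nat.mul_le_mul_left _ (m7c_Ph' _ _ _ _ _)
          _ = (4 * H.nn * (r ^ H.msz * (a + r * H.msz + 1))) * (L t + 1) ^ 2 := by ring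
          _ ≤ C * (t / C) := Nat.mul_le_mul (by omega) hL
          _ ≤ t := Nat.mul_div_le t C
      refine (H.many_aux G (L t) he t a (by omega) hl).trans ?_
      apply mul_le_mul_of_nonneg_left _ (Nat.cast_nonneg t)
      apply pow_le_pow_of_le_one (by norm_num) (by norm_num)
      exact Nat.pow_le_pow_left (m7c_nn H he) _
    · exact m7c_pr_le_one H _ _
  · intro K hK
    have hev1 : ∀ᶠ t : ℕ in atTop, t ^ 2 ≤ 2 ^ L t := by
      have h1 := (m7c_sqrt_tendsto C hC0).eventually (m7c_ev C)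
      filter_upwards [h1] with t ht
      refine le_trans ?_ ht
      apply Nat.pow_le_pow_left
      have h2 : t / C < (Nat.sqrt (t / C) + 1) * (Nat.sqrt (t / C) + 1) := Nat.lt_succ_sqrt _
      have h3 : t < C * ((Nat.sqrt (t / C) + 1) * (Nat.sqrt (t / C) + 1)) := by
        rw [mul_comm]
        exact (Nat.div_lt_iff_lt_mul hC0).1 h2
      rw [sq]
      exact h3.le
    have hev2 : ∀ᶠ t : ℕ in atTop, K * (3 / 4 : ℝ) ^ t ≤ 1 / 4 := by
      have h1 : Tendsto (fun t : ℕ => K * (3 / 4 : ℝ) ^ t) atTop (𝓝 (K * 0)) :=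
        (tendsto_pow_atTop_nhds_zero_of_lt_one (by norm_num) (by norm_num)).const_mul K
      rw [mul_zero] at h1
      exact (h1.eventually_lt_const (by norm_num : (0 : ℝ) < 1 / 4)).mono fun t ht => ht.le
    refine Summable.of_norm_bounded_eventually_nat (g := fun t => (1 / 2 : ℝ) ^ t)
      (summable_geometric_of_lt_one (by norm_num) (by norm_num)) ?_
    filter_upwards [hev1, hev2, eventually_ge_atTop C] with t h1 h2 h3
    simp only [h3, if_true]
    rw [Real.norm_of_nonneg (by positivity)]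
    have h4 : (3 / 4 : ℝ) ^ (2 ^ L t) ≤ ((3 / 4 : ℝ) ^ t) ^ t := by
      rw [← pow_mul]
      apply pow_le_pow_of_le_one (by norm_num) (by norm_num)
      rw [← sq]
      exact h1
    have h5 : (t : ℝ) ≤ 2 ^ t := by exact_mod_cast Nat.lt_two_pow_self.le
    calc K ^ t * ((t : ℝ) * (3 / 4 : ℝ) ^ (2 ^ L t)) ≤ K ^ t * (2 ^ t * ((3 / 4 : ℝ) ^ t) ^ t) := by
          apply mul_le_mul_of_nonneg_left _ (pow_nonneg hK _)
          exact mul_le_mul h5 h4 (by positivity) (by positivity)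
      _ = 2 ^ t * (K * (3 / 4 : ℝ) ^ t) ^ t := by rw [mul_pow]; ring
      _ ≤ 2 ^ t * (1 / 4 : ℝ) ^ t := by
          apply mul_le_mul_of_nonneg_left _ (by positivity)
          exact pow_le_pow_left₀ (by positivity) h2 t
      _ = (1 / 2 : ℝ) ^ t := by rw [← mul_pow]; norm_num

end Pool.Agent.Helper910
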