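import Mathlib
import Pool.Agent.Helper910.M12b
import Pool.Agent.Helper910.M7c

/-! Full waves at the origin (MP_4555f0_mp) -/

namespace Pool.Agent.Helper910

open Classical Finset Filter Topology

variable {V : Type*} {D : SimpleGraph V} [D.LocallyFinite] {r : ℕ}

omit [D.LocallyFinite] in
theorem m12c_gate_mono {G1 G1' G2 : Finset V} {h y : V} (g : Gate D G1 G2 h y) (hs : G1' ⊆ G1) :
    Gate D G1' G2 h y where
  disj := Finset.disjoint_of_subset_left hs g.disj
  edge a ha b hb hab := g.edge a (hs ha) b hb hab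
  adj := g.adj
  hy hy' := g.hy (hs hy')
  hh := g.hh

omit [D.LocallyFinite] in
theorem m12c_rs_rs {G1 G2 : Finset V} (h : G2 ⊆ G1) (ζ : V → ℕ) : rs G2 (rs G1 ζ) = rs G2 ζ := by
  funext z
  unfold rs
  by_cases hz : z ∈ G2
  · simp [hz, h hz]
  · simp [hz]

omit [D.LocallyFinite] in
theorem m12c_pr_mono (G : Finset V) {P Q : (V → ℕ) → Prop} (h : ∀ ζ ∈ Rc D r G, P ζ → Q ζ) :
    pr D r G P ≤ pr D r G Q := by
  unfold pr
  apply div_le_div_of_nonneg_right _ (Nat.cast_nonneg _)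
  have : (Rc D r G).filter P ⊆ (Rc D r G).filter Q := by
    intro ζ hζ
    rw [Finset.mem_filter] at hζ ⊢
    exact ⟨hζ.1, h ζ hζ.1 hζ.2⟩
  exact_mod_cast Finset.card_le_card this

/-- TARGET. probability that the first `k` waves from `o` are full -/
theorem Ctx.full_le (H : Ctx D r) (o : V) : ∃ b : ℕ → ℝ, (∀ t, 0 ≤ b t) ∧ (∀ K : ℝ, 0 ≤ K → Summable (fun t => K ^ t * b t)) ∧
    (∀ (G : Finset V) (k : ℕ), pr D r (G.erase o) (Full D r G o k) ≤ b k) ∧
    (∀ (G : Finset V) (c' : V × V), BD D c'.1 c'.2 → ∀ k : ℕ,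
      pr D r (prt G (cone D c')) (fun ζ => k ≤ (rp D r c'.1 (prt G (cone D c')) c'.2 k ζ).card + (r - 1)) ≤ b k) := by
  obtain ⟨b, hb0, hb1, hb2⟩ := H.many (r - 1)
  have hg := H.g0_pos
  have hg1 := H.g0_le
  have hbb : ∀ t, b t ≤ b t / H.g0 := by
    intro t
    rw [le_div_iff₀ hg]
    nlinarith [hb0 t]
  refine ⟨fun t => b t / H.g0, fun t => div_nonneg (hb0 t) hg.le, ?_, ?_, ?_⟩
  · intro K hK
    have := (hb2 K hK).div_const H.g0
    refine this.congr (fun t => ?_)
    ring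
  · intro G k
    obtain ⟨c1, hc1, c2, -, -, hcc⟩ := H.two_darts o
    obtain ⟨g, hun, -⟩ := H.gate_src G o hc1
    have hBD : BD D c1.1 c1.2 := (mem_bdr.1 hc1).2.2
    have g' := m12c_gate_mono g (Finset.subset_insert o _)
    have h1 := H.marg_le G hBD g' (fun ζ =>
      k ≤ (rp D r c1.1 (prt G (cone D c1)) c1.2 k ζ).card + (r - 1))
    rw [hun] at h1
    refine (m12c_pr_mono _ (fun ζ hζ hF => hcc c1 (Or.inl rfl) G k ζ hζ hF)).trans (h1.trans ?_)
    exact div_le_div_of_nonneg_right (hb1 G c1 hBD k) hg.le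
  · intro G c' hc' k
    exact (hb1 G c' hc' k).trans (hbb k)

omit [D.LocallyFinite] in
theorem m12c_wv_sub (v : V) (G : Finset V) (ζ : V → ℕ) (i : ℕ) : wv D r v G ζ i ⊆ G :=
  (isWave_wav v G _).sub

omit [D.LocallyFinite] in
theorem m12c_rg_sub (v : V) (G : Finset V) (ζ : V → ℕ) (t : ℕ) : rg D r v G t ζ ⊆ G := by
  unfold rg
  intro z hz
  rw [Finset.mem_biUnion] at hz
  obtain ⟨i, -, hi⟩ := hz
  exact m12c_wv_sub v G ζ i hi

omit [D.LocallyFinite] in
theorem m12c_rp_empty {v x : V} {G : Finset V} (hx : x ∉ G) (ζ : V → ℕ) (t : ℕ) :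
    rp D r v G x t ζ = ∅ := by
  unfold rp
  rw [Finset.filter_eq_empty_iff]
  intro i _ hi
  exact hx (m12c_wv_sub v G ζ i hi)

omit [D.LocallyFinite] in
theorem m12c_mc_nonneg (v : V) (G : Finset V) (x : V) (t n : ℕ) : 0 ≤ mc D r v G x t n := by
  unfold mc
  exact Finset.sum_nonneg fun s _ => mx_nonneg _ _

omit [D.LocallyFinite] in
theorem m12c_wt_nonneg (n : ℕ) : 0 ≤ wt n := by
  unfold wt
  positivity

omit [D.LocallyFinite] in
theorem m12c_card_le {α : Type*} {s : Finset α} {P Q : α → Prop} {_ : DecidablePred P}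
    {_ : DecidablePred Q} (h : ∀ a ∈ s, P a → Q a) :
    ((s.filter P).card : ℝ) ≤ ((s.filter Q).card : ℝ) := by
  have : s.filter P ⊆ s.filter Q := by
    intro a ha
    rw [Finset.mem_filter] at ha ⊢
    exact ⟨ha.1, h a ha.1 ha.2⟩
  exact_mod_cast Finset.card_le_card this

theorem Ctx.m12c_dec (H : Ctx D r) (o : V) : Dec D Set.univ (Bf D o) (bdr D (Bf D o)) := by
  apply dec_univ H.conn ⟨o, H.self_mem_Bf o⟩
  · rw [H.coe_Bf]
    exact blk_inConn o
  · rw [H.coe_Bf]
    exact blk_exit o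

/-- one piece of the union -/
theorem Ctx.m12c_piece (H : Ctx D r) (o : V) {b : ℕ → ℝ}
    (hb : ∀ (G : Finset V) (c' : V × V), BD D c'.1 c'.2 → ∀ k : ℕ,
      pr D r (prt G (cone D c')) (fun ζ => k ≤ (rp D r c'.1 (prt G (cone D c')) c'.2 k ζ).card + (r - 1)) ≤ b k)
    (G : Finset V) (k n t' : ℕ) {c c' : V × V} (hc : c ∈ bdr D (Bf D o)) (hc' : c' ∈ bdr D (Bf D o)) (hne : c ≠ c')
    (P : (V → ℕ) → Prop) (hP : ∀ ζ, P ζ →
        k ≤ (rp D r c'.1 (prt G (cone D c')) c'.2 k (rs (prt G (cone D c')) ζ)).card + (r - 1) ∧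
        (rg D r o (G.erase o) (k + 1) ζ).card = n ∧ kk D r o (G.erase o) c.1 ζ (k + 1) = t' ∧
        1 ≤ (rg D r o (G.erase o) (k + 1) ζ ∩ prt G (cone D c)).card ∧
        (rg D r o (G.erase o) (k + 1) ζ ∩ prt G (cone D c)).card ≤ n ∧
        (n : ℝ) ≤ (2 * ((bdr D (Bf D o)).card : ℝ)) *
          ((rg D r o (G.erase o) (k + 1) ζ ∩ prt G (cone D c)).card : ℝ)) :
    wt n * (((Rc D r (G.erase o)).filter P).card : ℝ) ≤
      (2 * ((bdr D (Bf D o)).card : ℝ)) * Real.sqrt (2 * ((bdr D (Bf D o)).card : ℝ)) * (1 / H.g0 ^ 2) * b k *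
        mm D r G c t' n * ((Rc D r (G.erase o)).card : ℝ) := by
  obtain ⟨g, hun, hoc⟩ := H.gate_src G o hc
  obtain ⟨g', hun', hoc'⟩ := H.gate_src G o hc'
  set G1 := (G.erase o) \ prt G (cone D c) with hG1
  set G2 := prt G (cone D c) with hG2
  set G3 := prt G (cone D c') with hG3
  have hdec := H.m12c_dec o
  have hdis : Disjoint (cone D c) (cone D c') := hdec.pair c hc c' hc' hne
  have hnb : 0 < (bdr D (Bf D o)).card := Finset.card_pos.2 ⟨c, hc⟩
  have hnb' : (0 : ℝ) < 2 * ((bdr D (Bf D o)).card : ℝ) := by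
    have : (0 : ℝ) < ((bdr D (Bf D o)).card : ℝ) := by exact_mod_cast hnb
    linarith
  have ho1 : o ∉ G1 := by
    rw [hG1, Finset.mem_sdiff]
    rintro ⟨h, -⟩
    exact Finset.notMem_erase o G h
  have h31 : G3 ⊆ G1 := by
    intro z hz
    rw [hG1, Finset.mem_sdiff, Finset.mem_erase]
    have hz' := mem_prt.1 hz
    refine ⟨⟨?_, hz'.1⟩, ?_⟩
    · rintro rfl
      exact hoc' hz
    · intro h
      exact Set.disjoint_left.1 hdis (mem_prt.1 h).2 hz'.2
  have hcount := cut_count (r := r) H.degLe g ho1 hoc (k + 1) t' n (2 * ((bdr D (Bf D o)).card : ℝ)) hnb'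
    (fun ζ1 => k ≤ (rp D r c'.1 G3 c'.2 k (rs G3 ζ1)).card + (r - 1)) (fun _ => n)
  rw [hun] at hcount
  -- the term with empty response set
  refine le_trans ?_ (le_trans hcount ?_)
  · refine le_trans ?_ (Finset.single_le_sum
      (fun s _ => mul_nonneg (m12c_wt_nonneg n) (Nat.cast_nonneg _)) (Finset.empty_mem_powerset _))
    apply mul_le_mul_of_nonneg_left _ (m12c_wt_nonneg n)
    apply m12c_card_le
    intro ζ _ hζ
    obtain ⟨e1, e2, e3, e4, e5, e6⟩ := hP ζ hζ
    refine ⟨?_, m12c_rp_empty (Finset.notMem_erase o G) ζ _, e2, e3, e4, e5, e6⟩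
    rw [m12c_rs_rs h31]
    exact e1
  -- the factors
  have hR1 : (0 : ℝ) < ((Rc D r G1).card : ℝ) := by exact_mod_cast H.card_Rc_pos G1
  have hR2 : (0 : ℝ) < ((Rc D r G2).card : ℝ) := by exact_mod_cast H.card_Rc_pos G2
  have hg := H.g0_pos
  have hBDc : BD D c.1 c.2 := (mem_bdr.1 hc).2.2
  have hBDc' : BD D c'.1 c'.2 := (mem_bdr.1 hc').2.2
  have gc : Gate D G1 G2 c.1 c.2 := m12c_gate_mono g (Finset.subset_insert o _)
  have hprod := H.prod_le (r := r) G hBDc gc
  rw [← hG2, hun] at hprod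
  have gc' : Gate D (G1 \ G3) G3 c'.1 c'.2 := by
    apply m12c_gate_mono g'
    intro z hz
    rw [Finset.mem_sdiff] at hz
    apply Finset.mem_insert_of_mem
    rw [Finset.mem_sdiff]
    exact ⟨(Finset.mem_sdiff.1 hz.1).1, hz.2⟩
  have hmarg := H.marg_le (r := r) G hBDc' gc' (fun ζ1 => k ≤ (rp D r c'.1 G3 c'.2 k ζ1).card + (r - 1))
  rw [← hG3, Finset.sdiff_union_of_subset h31] at hmarg
  have hmarg2 := hmarg.trans (div_le_div_of_nonneg_right (hb G c' hBDc' k) hg.le)
  have hcardE : (((Rc D r G1).filter (fun ζ1 => k ≤ (rp D r c'.1 G3 c'.2 k (rs G3 ζ1)).card + (r - 1))).card : ℝ) ≤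
      (b k / H.g0) * ((Rc D r G1).card : ℝ) := by
    unfold pr at hmarg2
    rw [div_le_iff₀ hR1] at hmarg2
    exact (m12c_card_le (fun _ _ h => h)).trans hmarg2
  have hmc : mc D r c.1 G2 c.2 t' n = mm D r G c t' n * ((Rc D r G2).card : ℝ) := by
    unfold mm
    rw [← hG2, div_mul_cancel₀ _ hR2.ne']
  have hmm : 0 ≤ mm D r G c t' n := by
    unfold mm
    exact div_nonneg (m12c_mc_nonneg _ _ _ _ _) (Nat.cast_nonneg _)
  have hbk : 0 ≤ b k := by
    refine le_trans ?_ (hb G c' hBDc' k)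
    unfold pr
    positivity
  set κ : ℝ := 2 * ((bdr D (Bf D o)).card : ℝ) with hκ
  have hprod' : ((Rc D r G1).card : ℝ) * ((Rc D r G2).card : ℝ) ≤ ((Rc D r (G.erase o)).card : ℝ) / H.g0 := by
    rw [le_div_iff₀ hg]
    nlinarith [hprod]
  rw [hmc]
  refine le_trans (b := κ * Real.sqrt κ * ((b k / H.g0) * ((Rc D r G1).card : ℝ)) *
        (mm D r G c t' n * ((Rc D r G2).card : ℝ))) ?_ ?_
  · have hκ0 : 0 ≤ κ := hnb'.le
    gcongr
    exact (m12c_card_le (fun _ _ h => h)).trans hcardE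
  calc κ * Real.sqrt κ * ((b k / H.g0) * ((Rc D r G1).card : ℝ)) *
        (mm D r G c t' n * ((Rc D r G2).card : ℝ))
      = κ * Real.sqrt κ * (b k / H.g0) * mm D r G c t' n *
        (((Rc D r G1).card : ℝ) * ((Rc D r G2).card : ℝ)) := by ring
    _ ≤ κ * Real.sqrt κ * (b k / H.g0) * mm D r G c t' n *
        (((Rc D r (G.erase o)).card : ℝ) / H.g0) := by
        gcongr
    _ = _ := by
        field_simp

/-- TARGET. finite volume upper bound, one value of `k`. Plain proof: `R = rg o (G.erase o) (k+1) ζ`, `|R| = n ≥ 2 m` (`m = H.msz`). `R` is the union of `R ∩ B(o)` (at most `m - 1` vertices: `o ∉ R`) and the `R ∩ G_c`,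
`c ∈ bdr (Bf o)` (use `dec_univ`), so for `c` with the largest part, `n ≤ 2 nb |R ∩ G_c|`, `nb = |bdr|`. Choose `c' ≠ c` among `c1, c2` of `two_darts`; on `Full k` the event of `two_darts` holds for `c'`. Apply
`cut_count` with `v = x = o` (the response set at `o` is empty), `t = k + 1`, `κ = 2 nb`, `L = n`, `E ζ1 = (k ≤ |rp c'.1 G_c' c'.2 k (rs G_c' ζ1)| + (r-1))`, `t' = kk ≤ k + 1`; then `marg_le` and `prod_le`. -/
theorem Ctx.upper_one (H : Ctx D r) (o : V) {b : ℕ → ℝ}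
    (hb : ∀ (G : Finset V) (c' : V × V), BD D c'.1 c'.2 → ∀ k : ℕ,
      pr D r (prt G (cone D c')) (fun ζ => k ≤ (rp D r c'.1 (prt G (cone D c')) c'.2 k ζ).card + (r - 1)) ≤ b k)
    (G : Finset V) (k n : ℕ) (hn : 2 * H.msz ≤ n) (hn1 : 1 ≤ n) :
    wt n * pr D r (G.erase o) (fun ζ => Full D r G o k ζ ∧ (rg D r o (G.erase o) (k + 1) ζ).card = n) ≤
      (2 * ((bdr D (Bf D o)).card : ℝ)) * Real.sqrt (2 * ((bdr D (Bf D o)).card : ℝ)) * (2 / H.g0 ^ 2) * b k *
        ∑ c ∈ bdr D (Bf D o), ∑ t' ∈ range (k + 2), mm D r G c t' n := by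
  obtain ⟨c1, hc1, c2, hc2, hne, hcc⟩ := H.two_darts o
  have hdec := H.m12c_dec o
  set κ : ℝ := 2 * ((bdr D (Bf D o)).card : ℝ) with hκ
  set nb := (bdr D (Bf D o)).card with hnb
  set Ev : V × V → V × V → ℕ → (V → ℕ) → Prop := fun c c' t' ζ =>
    k ≤ (rp D r c'.1 (prt G (cone D c')) c'.2 k (rs (prt G (cone D c')) ζ)).card + (r - 1) ∧
        (rg D r o (G.erase o) (k + 1) ζ).card = n ∧ kk D r o (G.erase o) c.1 ζ (k + 1) = t' ∧
        1 ≤ (rg D r o (G.erase o) (k + 1) ζ ∩ prt G (cone D c)).card ∧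
        (rg D r o (G.erase o) (k + 1) ζ ∩ prt G (cone D c)).card ≤ n ∧
        (n : ℝ) ≤ κ *
          ((rg D r o (G.erase o) (k + 1) ζ ∩ prt G (cone D c)).card : ℝ) with hEv
  have hRpos : (0 : ℝ) < ((Rc D r (G.erase o)).card : ℝ) := by exact_mod_cast H.card_Rc_pos _
  -- covering
  have hcov : (Rc D r (G.erase o)).filter (fun ζ => Full D r G o k ζ ∧ (rg D r o (G.erase o) (k + 1) ζ).card = n) ⊆
      (bdr D (Bf D o)).biUnion (fun c => (range (k + 2)).biUnion (fun t' =>
        (({c1, c2} : Finset (V × V)).erase c).biUnion (fun c' =>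
          (Rc D r (G.erase o)).filter (Ev c c' t')))) := by
    intro ζ hζ
    rw [Finset.mem_filter] at hζ
    obtain ⟨hζR, hF, hcard⟩ := hζ
    set R := rg D r o (G.erase o) (k + 1) ζ with hR
    have hRsub : R ⊆ G.erase o := m12c_rg_sub _ _ _ _
    have hsplit : R ⊆ (Bf D o) ∪ (bdr D (Bf D o)).biUnion (fun c => R ∩ prt G (cone D c)) := by
      intro z hz
      rcases hdec.cov z (Set.mem_univ z) with h | ⟨c, hc, h⟩
      · exact Finset.mem_union_left _ h
      · refine Finset.mem_union_right _ (Finset.mem_biUnion.2 ⟨c, hc, Finset.mem_inter.2 ⟨hz, ?_⟩⟩)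
        exact mem_prt.2 ⟨Finset.mem_of_mem_erase (hRsub hz), h⟩
    have hle : n ≤ H.msz + ∑ c ∈ bdr D (Bf D o), (R ∩ prt G (cone D c)).card := by
      calc n = R.card := hcard.symm
        _ ≤ _ := Finset.card_le_card hsplit
        _ ≤ _ := Finset.card_union_le _ _
        _ ≤ _ := by
          rw [H.card_Bf_eq o]
          exact Nat.add_le_add_left Finset.card_biUnion_le _
    -- the largest part
    obtain ⟨c, hc, hmax⟩ := Finset.exists_max_image (bdr D (Bf D o))
      (fun c => (R ∩ prt G (cone D c)).card) ⟨c1, hc1⟩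
    have hle2 : ∑ c ∈ bdr D (Bf D o), (R ∩ prt G (cone D c)).card ≤ nb * (R ∩ prt G (cone D c)).card := by
      have := Finset.sum_le_card_nsmul (bdr D (Bf D o)) (fun c => (R ∩ prt G (cone D c)).card) _ hmax
      simpa [hnb] using this
    have hle3 : n ≤ 2 * nb * (R ∩ prt G (cone D c)).card := by nlinarith
    have hpos : 1 ≤ (R ∩ prt G (cone D c)).card := by
      rcases Nat.eq_zero_or_pos (R ∩ prt G (cone D c)).card with h | h
      · rw [h] at hle3
        omega
      · exact h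
    -- the other dart
    obtain ⟨c', hc', hcne⟩ : ∃ c' ∈ ({c1, c2} : Finset (V × V)), c' ≠ c := by
      by_cases h : c1 = c
      · exact ⟨c2, by simp, fun h' => hne (h.trans h'.symm)⟩
      · exact ⟨c1, by simp, h⟩
    have hc'2 : c' = c1 ∨ c' = c2 := by simpa using hc'
    rw [Finset.mem_biUnion]
    refine ⟨c, hc, ?_⟩
    rw [Finset.mem_biUnion]
    refine ⟨kk D r o (G.erase o) c.1 ζ (k + 1), ?_, ?_⟩
    · rw [Finset.mem_range]
      have : kk D r o (G.erase o) c.1 ζ (k + 1) ≤ k + 1 := by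
        unfold kk
        refine (Finset.card_filter_le _ _).trans ?_
        simp
      omega
    · rw [Finset.mem_biUnion]
      refine ⟨c', Finset.mem_erase.2 ⟨hcne, hc'⟩, ?_⟩
      rw [Finset.mem_filter]
      refine ⟨hζR, hcc c' hc'2 G k ζ hζR hF, hcard, rfl, hpos, ?_, ?_⟩
      · rw [← hcard]
        exact Finset.card_le_card Finset.inter_subset_left
      · rw [hκ]
        exact_mod_cast hle3
  have hb' : 0 ≤ b k := by
    refine le_trans ?_ (hb G c1 (mem_bdr.1 hc1).2.2 k)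
    unfold pr
    positivity
  have hcardle : (((Rc D r (G.erase o)).filter (fun ζ => Full D r G o k ζ ∧
      (rg D r o (G.erase o) (k + 1) ζ).card = n)).card : ℝ) ≤
      ∑ c ∈ bdr D (Bf D o), ∑ t' ∈ range (k + 2), ∑ c' ∈ ({c1, c2} : Finset (V × V)).erase c,
        (((Rc D r (G.erase o)).filter (Ev c c' t')).card : ℝ) := by
    have h1 := Finset.card_le_card hcov
    have h2 := h1.trans (Finset.card_biUnion_le.trans (Finset.sum_le_sum fun c _ =>
      Finset.card_biUnion_le.trans (Finset.sum_le_sum fun t' _ => Finset.card_biUnion_le)))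
    exact_mod_cast h2
  unfold pr
  rw [← mul_div_assoc, div_le_iff₀ hRpos]
  refine le_trans (mul_le_mul_of_nonneg_left ((m12c_card_le (fun _ _ h => h)).trans hcardle)
    (m12c_wt_nonneg n)) ?_
  calc wt n * ∑ c ∈ bdr D (Bf D o), ∑ t' ∈ range (k + 2), ∑ c' ∈ ({c1, c2} : Finset (V × V)).erase c,
        (((Rc D r (G.erase o)).filter (Ev c c' t')).card : ℝ)
      = ∑ c ∈ bdr D (Bf D o), ∑ t' ∈ range (k + 2), ∑ c' ∈ ({c1, c2} : Finset (V × V)).erase c,
        wt n * (((Rc D r (G.erase o)).filter (Ev c c' t')).card : ℝ) := by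
        simp only [Finset.mul_sum]
    _ ≤ ∑ c ∈ bdr D (Bf D o), ∑ t' ∈ range (k + 2), ∑ c' ∈ ({c1, c2} : Finset (V × V)).erase c,
        (κ * Real.sqrt κ * (1 / H.g0 ^ 2) * b k * mm D r G c t' n * ((Rc D r (G.erase o)).card : ℝ)) := by
        apply Finset.sum_le_sum
        intro c hc
        apply Finset.sum_le_sum
        intro t' _
        apply Finset.sum_le_sum
        intro c' hc'
        rw [Finset.mem_erase, Finset.mem_insert, Finset.mem_singleton] at hc'
        have hc'3 : c' ∈ bdr D (Bf D o) := by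
          rcases hc'.2 with rfl | rfl
          · exact hc1
          · exact hc2
        exact (mul_le_mul_of_nonneg_left (m12c_card_le (fun _ _ h => h)) (m12c_wt_nonneg n)).trans
          (H.m12c_piece o hb G k n t' hc hc'3 hc'.1.symm (Ev c c' t') (fun ζ h => h))
    _ ≤ ∑ c ∈ bdr D (Bf D o), ∑ t' ∈ range (k + 2),
        2 * (κ * Real.sqrt κ * (1 / H.g0 ^ 2) * b k * mm D r G c t' n * ((Rc D r (G.erase o)).card : ℝ)) := by
        apply Finset.sum_le_sum
        intro c hc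
        apply Finset.sum_le_sum
        intro t' _
        rw [Finset.sum_const, nsmul_eq_mul]
        have hmm : 0 ≤ mm D r G c t' n := by
          unfold mm
          exact div_nonneg (m12c_mc_nonneg _ _ _ _ _) (Nat.cast_nonneg _)
        have hg := H.g0_pos
        have hk0 : 0 ≤ κ := by rw [hκ]; positivity
        apply mul_le_mul_of_nonneg_right
        · have h1 : (({c1, c2} : Finset (V × V)).erase c).card ≤ 2 :=
            (Finset.card_le_card (Finset.erase_subset _ _)).trans Finset.card_le_two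
          exact_mod_cast h1
        · positivity
    _ = (κ * Real.sqrt κ * (2 / H.g0 ^ 2) * b k *
        ∑ c ∈ bdr D (Bf D o), ∑ t' ∈ range (k + 2), mm D r G c t' n) *
          ((Rc D r (G.erase o)).card : ℝ) := by
        simp only [← Finset.mul_sum, ← Finset.sum_mul]
        ring

end Pool.Agent.Helper910
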