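import Mathlib
import Pool.Agent.Helper910.M12c
import Pool.Agent.Helper910.M10b

/-! The upper bound (MP_4555f0_mp) -/

namespace Pool.Agent.Helper910

open Classical Finset Filter Topology

variable {V : Type*} {D : SimpleGraph V} [D.LocallyFinite] {r : ℕ}

omit [D.LocallyFinite] in
theorem m12d_pr_nonneg (G : Finset V) (P : (V → ℕ) → Prop) : 0 ≤ pr D r G P := by
  unfold pr
  positivity

omit [D.LocallyFinite] in
theorem m12d_pr_le_one (G : Finset V) (P : (V → ℕ) → Prop) : pr D r G P ≤ 1 := by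
  unfold pr
  apply div_le_one_of_le₀ _ (by positivity)
  exact_mod_cast Finset.card_filter_le _ _

omit [D.LocallyFinite] in
theorem m12d_pr_mono (G : Finset V) {P Q : (V → ℕ) → Prop} (h : ∀ ζ ∈ Rc D r G, P ζ → Q ζ) :
    pr D r G P ≤ pr D r G Q := by
  unfold pr
  apply div_le_div_of_nonneg_right _ (by positivity)
  have : (Rc D r G).filter P ⊆ (Rc D r G).filter Q := by
    intro ζ hζ
    rw [Finset.mem_filter] at hζ ⊢
    exact ⟨hζ.1, h ζ hζ.1 hζ.2⟩
  exact_mod_cast Finset.card_le_card this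

omit [D.LocallyFinite] in
theorem m12d_pr_or (G : Finset V) (P Q : (V → ℕ) → Prop) :
    pr D r G (fun ζ => P ζ ∨ Q ζ) ≤ pr D r G P + pr D r G Q := by
  unfold pr
  rw [← add_div]
  apply div_le_div_of_nonneg_right _ (by positivity)
  have h2 : ∀ (inst : DecidablePred (fun ζ => P ζ ∨ Q ζ)),
      (@Finset.filter _ (fun ζ => P ζ ∨ Q ζ) inst (Rc D r G)).card ≤
        ((Rc D r G).filter P).card + ((Rc D r G).filter Q).card := by
    intro inst
    refine le_trans (Finset.card_le_card ?_) (Finset.card_union_le _ _)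
    intro ζ hζ
    rw [Finset.mem_filter] at hζ
    rw [Finset.mem_union, Finset.mem_filter, Finset.mem_filter]
    rcases hζ.2 with h | h
    · exact Or.inl ⟨hζ.1, h⟩
    · exact Or.inr ⟨hζ.1, h⟩
  exact_mod_cast h2 _

omit [D.LocallyFinite] in
theorem m12d_pr_ex (G : Finset V) (P : ℕ → (V → ℕ) → Prop) (k0 : ℕ) :
    pr D r G (fun ζ => ∃ k, k < k0 ∧ P k ζ) ≤ ∑ k ∈ range k0, pr D r G (P k) := by
  induction k0 with
  | zero =>
    simp only [Finset.range_zero, Finset.sum_empty]
    unfold pr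
    simp
  | succ k0 ih =>
    rw [Finset.sum_range_succ]
    refine le_trans (m12d_pr_mono G (Q := fun ζ => (∃ k, k < k0 ∧ P k ζ) ∨ P k0 ζ) ?_) ?_
    · rintro ζ - ⟨k, hk, hP⟩
      rcases Nat.lt_succ_iff_lt_or_eq.1 hk with h | h
      · exact Or.inl ⟨k, h, hP⟩
      · subst h; exact Or.inr hP
    · refine (m12d_pr_or G _ _).trans ?_
      linarith

theorem m12d_inj (H : Ctx D r) {G : Finset V} {o : V} (ho : o ∈ G) {n : ℕ} (hn : 1 ≤ n) :
    H.g0 * pr D r G (fun η => AvalancheSize D r G o η n) ≤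
      pr D r (G.erase o) (fun ζ => ∃ k, Full D r G o k ζ ∧ (rg D r o (G.erase o) (k + 1) ζ).card = n - 1) := by
  have hr : 1 ≤ r := by have := H.three_le; omega
  have hc1 : 0 < ((Rc D r G).card : ℝ) := by
    exact_mod_cast Finset.card_pos.2 ⟨_, H.top_mem hr G⟩
  have hc2 : 0 < ((Rc D r (G.erase o)).card : ℝ) := by
    exact_mod_cast Finset.card_pos.2 ⟨_, H.top_mem hr (G.erase o)⟩
  have hle := H.erase_le ho
  have hcard : ((Rc D r G).filter (fun η => AvalancheSize D r G o η n)).card ≤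
      ((Rc D r (G.erase o)).filter (fun ζ => ∃ k, Full D r G o k ζ ∧
        (rg D r o (G.erase o) (k + 1) ζ).card = n - 1)).card := by
    apply Finset.card_le_card_of_injOn (fun η => rs (G.erase o) η)
    · intro η hη
      have hη' := Finset.mem_filter.1 (Finset.mem_coe.1 hη)
      apply Finset.mem_coe.2
      rw [Finset.mem_filter]
      refine ⟨rs_mem_Rc (Finset.erase_subset _ _) hη'.1, ?_⟩
      rcases avalanche_cases H.degLe ho hη'.1 hr hη'.2 with h | ⟨-, k, hk, -, hkn⟩
      · omega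
      · refine ⟨k, hk, ?_⟩
        change (rg D r o (G.erase o) (k + 1) (rs (G.erase o) η)).card = n - 1
        omega
    · intro η hη η' hη' heq
      have h1 := Finset.mem_filter.1 (Finset.mem_coe.1 hη)
      have h2 := Finset.mem_filter.1 (Finset.mem_coe.1 hη')
      have e1 : η o = r := by
        rcases avalanche_cases H.degLe ho h1.1 hr h1.2 with h | ⟨h, -⟩
        · omega
        · exact h
      have e2 : η' o = r := by
        rcases avalanche_cases H.degLe ho h2.1 hr h2.2 with h | ⟨h, -⟩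
        · omega
        · exact h
      funext z
      by_cases hz : z = o
      · rw [hz, e1, e2]
      · by_cases hzG : z ∈ G
        · have h3 := congrFun heq z
          have h4 : z ∈ G.erase o := Finset.mem_erase.2 ⟨hz, hzG⟩
          simp only [rs_mem h4] at h3
          exact h3
        · rw [((mem_Rc.1 h1.1).1).2 z hzG, ((mem_Rc.1 h2.1).1).2 z hzG]
  unfold pr
  rw [← mul_div_assoc, div_le_div_iff₀ hc1 hc2]
  have h5 : (((Rc D r G).filter (fun η => AvalancheSize D r G o η n)).card : ℝ) ≤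
      (((Rc D r (G.erase o)).filter (fun ζ => ∃ k, Full D r G o k ζ ∧
        (rg D r o (G.erase o) (k + 1) ζ).card = n - 1)).card : ℝ) := by exact_mod_cast hcard
  set A := (((Rc D r G).filter (fun η => AvalancheSize D r G o η n)).card : ℝ) with hA
  set B := (((Rc D r (G.erase o)).filter (fun ζ => ∃ k, Full D r G o k ζ ∧
        (rg D r o (G.erase o) (k + 1) ζ).card = n - 1)).card : ℝ) with hB
  have hA0 : 0 ≤ A := by rw [hA]; positivity
  have hB0 : 0 ≤ B := by rw [hB]; positivity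
  calc H.g0 * A * ((Rc D r (G.erase o)).card : ℝ) = A * (H.g0 * ((Rc D r (G.erase o)).card : ℝ)) := by ring
    _ ≤ A * ((Rc D r G).card : ℝ) := mul_le_mul_of_nonneg_left hle hA0
    _ ≤ B * ((Rc D r G).card : ℝ) := mul_le_mul_of_nonneg_right h5 hc1.le

theorem m12d_wt_pos {n : ℕ} (hn : 1 ≤ n) : 0 < wt n := by
  unfold wt
  have : (0 : ℝ) < n := by exact_mod_cast hn
  positivity

theorem m12d_wt_mono {m n : ℕ} (h : m ≤ n) : wt m ≤ wt n := by
  unfold wt
  have : (m : ℝ) ≤ n := by exact_mod_cast h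
  have h2 : Real.sqrt m ≤ Real.sqrt n := Real.sqrt_le_sqrt this
  exact mul_le_mul this h2 (Real.sqrt_nonneg _) (by positivity)

theorem m12d_wt_two {m n : ℕ} (h : n ≤ 2 * m) : wt n ≤ 4 * wt m := by
  refine (m12d_wt_mono h).trans ?_
  unfold wt
  have h2 : Real.sqrt ((2 * m : ℕ) : ℝ) ≤ 2 * Real.sqrt m := by
    apply Real.sqrt_le_iff.2
    refine ⟨by positivity, ?_⟩
    rw [mul_pow, Real.sq_sqrt (by positivity)]
    push_cast
    nlinarith [(Nat.cast_nonneg m : (0:ℝ) ≤ m)]
  push_cast at h2 ⊢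
  nlinarith [(Nat.cast_nonneg m : (0:ℝ) ≤ m), Real.sqrt_nonneg (m : ℝ)]

/-- TARGET. The upper bound. For `n` fixed and any `k0`: the avalanches of size `n + 1` have some `k` (`avalanche_cases`) with `Full k`, `|rg (k+1)| = n`; the `η` with `η o = r` inject into `Rc (G.erase o)` by
`rs (G.erase o)`. Split into `k < k0` (use `upper_one`, and `Kt`: eventually `mm ≤ K^(t'+1)`) and `k ≥ k0` (`Full k0`, probability `≤ b k0 ≤ 1 / wt n` for `k0 = k0 n` large). The sum over `k` of
`b k * (k+2) * K^(k+2)` converges. -/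
theorem Ctx.upper (H : Ctx D r) (o : V) : ∃ C : ℝ, 0 < C ∧ ∀ n : ℕ, 1 ≤ n →
    ∀ᶠ G in (atTop : Filter (Finset V)), pr D r G (fun η => AvalancheSize D r G o η n) ≤ C / wt n := by
  obtain ⟨b, hb0, hbs, hbF, hbc⟩ := H.full_le o
  obtain ⟨K, hK1, hK⟩ := H.Kt
  have hg0 := H.g0_pos
  set nb : ℝ := ((bdr D (Bf D o)).card : ℝ) with hnb
  set A : ℝ := (2 * nb) * Real.sqrt (2 * nb) * (2 / H.g0 ^ 2) with hA
  have hnb0 : 0 ≤ nb := by rw [hnb]; positivity
  have hA0 : 0 ≤ A := by rw [hA]; positivity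
  -- the convergent series
  have hS : Summable (fun k : ℕ => b k * ((k + 2 : ℕ) * K ^ (k + 2))) := by
    have h1 := (hbs (2 * K) (by linarith)).mul_left ((2 * K) ^ 2)
    refine Summable.of_nonneg_of_le (fun k => ?_) (fun k => ?_) h1
    · have := hb0 k
      positivity
    · have h2 : ((k + 2 : ℕ) : ℝ) ≤ 2 ^ (k + 2) := by
        exact_mod_cast (Nat.lt_two_pow_self (n := k + 2)).le
      have h3 := hb0 k
      calc b k * ((k + 2 : ℕ) * K ^ (k + 2)) ≤ b k * (2 ^ (k + 2) * K ^ (k + 2)) := by gcongr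
        _ = (2 * K) ^ 2 * ((2 * K) ^ k * b k) := by rw [← mul_pow, pow_add]; ring
  set S : ℝ := ∑' k : ℕ, b k * ((k + 2 : ℕ) * K ^ (k + 2)) with hSdef
  have hS0 : 0 ≤ S := tsum_nonneg (fun k => by have := hb0 k; positivity)
  set C1 : ℝ := (A * nb * S * 4 + 1) / H.g0 with hC1
  have hC10 : 0 < C1 := by rw [hC1]; positivity
  set m0 : ℕ := 2 * H.msz + 2 with hm0
  refine ⟨C1 + wt m0, by have := m12d_wt_pos (n := m0) (by omega); linarith, ?_⟩
  intro n hn
  have hwn := m12d_wt_pos hn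
  by_cases hnm : n ≤ m0
  · refine Eventually.of_forall (fun G => (m12d_pr_le_one G _).trans ?_)
    rw [le_div_iff₀ hwn, one_mul]
    have := m12d_wt_mono hnm
    linarith
  push Not at hnm
  -- the size in the waves
  set N : ℕ := n - 1 with hN
  have hN1 : 1 ≤ N := by omega
  have hN2 : 2 * H.msz ≤ N := by omega
  have hwN := m12d_wt_pos hN1
  have hwnN : wt n ≤ 4 * wt N := m12d_wt_two (by omega)
  -- choice of `k0`
  have hbt : Tendsto b atTop (𝓝 0) := by
    have := (hbs 1 (by norm_num)).tendsto_atTop_zero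
    simpa using this
  obtain ⟨k0, hk0⟩ := (hbt.eventually (gt_mem_nhds (show (0 : ℝ) < 1 / wt n by positivity))).exists
  -- eventually all the `mm` are bounded
  have hmm : ∀ᶠ G in (atTop : Filter (Finset V)), ∀ c ∈ bdr D (Bf D o), ∀ t ∈ range (k0 + 2),
      mm D r G c t N ≤ K ^ (t + 1) := by
    rw [Filter.eventually_all_finset]
    intro c hc
    rw [Filter.eventually_all_finset]
    intro t _
    exact hK t N c (H.bdr_Bf_iff.1 hc).2
  have hoG : ∀ᶠ G in (atTop : Filter (Finset V)), o ∈ G := by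
    filter_upwards [Filter.eventually_ge_atTop ({o} : Finset V)] with G hG
    exact hG (Finset.mem_singleton_self o)
  filter_upwards [hmm, hoG] with G hG ho
  have h1 := m12d_inj H ho hn
  -- split
  have h2 : pr D r (G.erase o) (fun ζ => ∃ k, Full D r G o k ζ ∧
      (rg D r o (G.erase o) (k + 1) ζ).card = N) ≤
      pr D r (G.erase o) (fun ζ => ∃ k, k < k0 ∧ (Full D r G o k ζ ∧
        (rg D r o (G.erase o) (k + 1) ζ).card = N)) + pr D r (G.erase o) (Full D r G o k0) := by
    refine le_trans (m12d_pr_mono (G.erase o) (Q := fun ζ => (∃ k, k < k0 ∧ (Full D r G o k ζ ∧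
        (rg D r o (G.erase o) (k + 1) ζ).card = N)) ∨ Full D r G o k0 ζ) ?_) (m12d_pr_or _ _ _)
    rintro ζ - ⟨k, hk, hkc⟩
    rcases Nat.lt_or_ge k k0 with h | h
    · exact Or.inl ⟨k, h, hk, hkc⟩
    · exact Or.inr (fun i hi => hk i (lt_of_lt_of_le hi h))
  have h3 : pr D r (G.erase o) (Full D r G o k0) ≤ 1 / wt n := (hbF G k0).trans hk0.le
  have h4 : ∀ k ∈ range k0, pr D r (G.erase o) (fun ζ => Full D r G o k ζ ∧
      (rg D r o (G.erase o) (k + 1) ζ).card = N) ≤
      (A * nb / wt N) * (b k * ((k + 2 : ℕ) * K ^ (k + 2))) := by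
    intro k hk
    rw [Finset.mem_range] at hk
    have h5 := H.upper_one o hbc G k N hN2 hN1
    rw [← hnb, ← hA] at h5
    have h6 : ∑ c ∈ bdr D (Bf D o), ∑ t' ∈ range (k + 2), mm D r G c t' N ≤
        nb * ((k + 2 : ℕ) * K ^ (k + 2)) := by
      calc ∑ c ∈ bdr D (Bf D o), ∑ t' ∈ range (k + 2), mm D r G c t' N
          ≤ ∑ c ∈ bdr D (Bf D o), ∑ t' ∈ range (k + 2), K ^ (k + 2) := by
            refine Finset.sum_le_sum (fun c hc => Finset.sum_le_sum (fun t ht => ?_))
            rw [Finset.mem_range] at ht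
            refine (hG c hc t (Finset.mem_range.2 (by omega))).trans ?_
            exact pow_le_pow_right₀ hK1 (by omega)
        _ = nb * ((k + 2 : ℕ) * K ^ (k + 2)) := by
            rw [Finset.sum_const, Finset.sum_const, nsmul_eq_mul, nsmul_eq_mul, Finset.card_range, hnb]
    have h7 : A * b k * ∑ c ∈ bdr D (Bf D o), ∑ t' ∈ range (k + 2), mm D r G c t' N ≤
        A * b k * (nb * ((k + 2 : ℕ) * K ^ (k + 2))) :=
      mul_le_mul_of_nonneg_left h6 (mul_nonneg hA0 (hb0 k))
    have h8 : A * nb / wt N * (b k * ((k + 2 : ℕ) * K ^ (k + 2))) =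
        (A * b k * (nb * ((k + 2 : ℕ) * K ^ (k + 2)))) / wt N := by ring
    rw [h8, le_div_iff₀ hwN, mul_comm]
    exact h5.trans h7
  have h9 : pr D r (G.erase o) (fun ζ => ∃ k, k < k0 ∧ (Full D r G o k ζ ∧
        (rg D r o (G.erase o) (k + 1) ζ).card = N)) ≤ A * nb / wt N * S := by
    refine (m12d_pr_ex (G.erase o) (fun k ζ => Full D r G o k ζ ∧
        (rg D r o (G.erase o) (k + 1) ζ).card = N) k0).trans ?_
    refine (Finset.sum_le_sum h4).trans ?_
    rw [← Finset.mul_sum]
    apply mul_le_mul_of_nonneg_left _ (by positivity)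
    exact hS.sum_le_tsum _ (fun k _ => by have := hb0 k; positivity)
  have h10 : A * nb / wt N * S ≤ (A * nb * S * 4) / wt n := by
    rw [div_mul_eq_mul_div, div_le_div_iff₀ hwN hwn]
    have h11 : 0 ≤ A * nb * S := by positivity
    nlinarith
  have h12 : H.g0 * pr D r G (fun η => AvalancheSize D r G o η n) ≤ (A * nb * S * 4 + 1) / wt n := by
    rw [add_div]
    linarith
  have h13 : pr D r G (fun η => AvalancheSize D r G o η n) ≤ C1 / wt n := by
    rw [hC1, div_div, mul_comm H.g0, ← div_div, le_div_iff₀ hg0, mul_comm]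
    exact h12
  refine h13.trans ?_
  apply div_le_div_of_nonneg_right _ hwn.le
  have := m12d_wt_pos (n := m0) (by omega)
  linarith

end Pool.Agent.Helper910
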