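import Mathlib
import Pool.Agent.Helper910.M5c

/-! Calm cones (MP_4555f0_mp) -/

namespace Pool.Agent.Helper910

open Classical Finset Filter Topology

variable {V : Type*} {D : SimpleGraph V} [D.LocallyFinite] {r : ℕ}

omit [D.LocallyFinite] in
/-- gluing with a strong configuration on the second side of a gate, with a weight -/
theorem m13a_glue {G1 G2 : Finset V} {h y : V} (g : Gate D G1 G2 h y) {w : V → ℕ} (hw : ∀ z ∈ G2, w z = 0)
    {ζ1 ζ2 : V → ℕ} (h1 : ζ1 ∈ RcW D r w G1) (h2 : ζ2 ∈ RcW D r (dl y) G2) :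
    (fun z => ζ1 z + ζ2 z) ∈ RcW D r w (G1 ∪ G2) := by
  rw [mem_RcW] at h1 h2 ⊢
  refine ⟨Gate.glue_config g.disj h1.1 h2.1, (g.recW_iff hw).2 ?_⟩
  have e1 : ∀ z ∈ G1, ζ1 z = ζ1 z + ζ2 z := by
    intro z hz; rw [h2.1.2 z (Finset.disjoint_left.1 g.disj hz), add_zero]
  have e2 : ∀ z ∈ G2, ζ2 z = ζ1 z + ζ2 z := by
    intro z hz; rw [h1.1.2 z (Finset.disjoint_right.1 g.disj hz), zero_add]
  refine ⟨h1.2.congr e1, ?_, Or.inl (h2.2.congr e2)⟩
  exact (h2.2.mono_w (w' := 0) (fun z _ => Nat.zero_le _)).congr e2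

omit [D.LocallyFinite] in
/-- lower bound by products, all cones strong, with a weight on `Q` -/
theorem m13a_prod {G : Finset V} {Q : Finset V} (hQ : Q ⊆ G) {w : V → ℕ} (hw : ∀ z, z ∉ Q → w z = 0)
    {χ : V → ℕ} (hχ : χ ∈ RcW D r w Q) : ∀ (C : Finset (V × V)) (Ω : Set V), Dec D Ω Q C →
    (∏ c ∈ C, (RcW D r (dl c.2) (prt G (cone D c))).card) ≤
      ((RcW D r w (prt G Ω)).filter (fun ζ => rs Q ζ = χ)).card := by
  intro C
  induction C using Finset.induction_on with
  | empty =>
    intro Ω d
    have hΩ : prt G Ω = Q := by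
      ext z
      rw [mem_prt]
      constructor
      · rintro ⟨-, h2⟩
        rcases d.cov z h2 with h3 | ⟨c, hc, -⟩
        · exact h3
        · simp at hc
      · intro hz
        exact ⟨hQ hz, d.sub z hz⟩
    rw [hΩ, Finset.prod_empty, Nat.one_le_iff_ne_zero, ← Nat.pos_iff_ne_zero, Finset.card_pos]
    refine ⟨χ, Finset.mem_filter.2 ⟨hχ, ?_⟩⟩
    funext z
    by_cases hz : z ∈ Q
    · rw [rs_mem hz]
    · rw [rs_notMem hz]; exact ((mem_RcW.1 hχ).1.2 z hz).symm
  | insert c C' hcC ih =>
    intro Ω d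
    have hc : c ∈ insert c C' := Finset.mem_insert_self _ _
    have d' := d.erase hc
    rw [Finset.erase_insert hcC] at d'
    have ih' := ih _ d'
    have hb := d.br c hc
    have g : Gate D (prt G (Ω \ cone D c)) (prt G (cone D c)) c.1 c.2 := gate_cone hb
    have hwc : ∀ z ∈ prt G (cone D c), w z = 0 := fun z hz =>
      hw z (d.cdisj c hc z (mem_prt.1 hz).2)
    have hun : prt G (Ω \ cone D c) ∪ prt G (cone D c) = prt G Ω := prt_union (d.csub c hc)
    rw [Finset.prod_insert hcC]
    calc _ ≤ (RcW D r (dl c.2) (prt G (cone D c))).card *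
          ((RcW D r w (prt G (Ω \ cone D c))).filter (fun ζ => rs Q ζ = χ)).card :=
          Nat.mul_le_mul_left _ ih'
      _ = ((RcW D r (dl c.2) (prt G (cone D c))) ×ˢ
          ((RcW D r w (prt G (Ω \ cone D c))).filter (fun ζ => rs Q ζ = χ))).card :=
          (Finset.card_product _ _).symm
      _ ≤ _ := by
        refine Finset.card_le_card_of_injOn (fun p z => p.2 z + p.1 z) ?_ ?_
        · intro p hp
          rw [Finset.mem_coe, Finset.mem_product, Finset.mem_filter] at hp
          obtain ⟨hp1, hp2, hp3⟩ := hp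
          rw [Finset.mem_coe, Finset.mem_filter]
          refine ⟨?_, ?_⟩
          · rw [← hun]
            exact m13a_glue g hwc hp2 hp1
          · rw [← hp3]
            funext z
            by_cases hz : z ∈ Q
            · rw [rs_mem hz, rs_mem hz]
              have : z ∉ prt G (cone D c) := fun h => d.cdisj c hc z (mem_prt.1 h).2 hz
              have h5 := (mem_RcW.1 hp1).1.2 z this
              simp only
              rw [h5, add_zero]
            · rw [rs_notMem hz, rs_notMem hz]
        · intro p hp q hq hpq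
          rw [Finset.mem_coe, Finset.mem_product, Finset.mem_filter] at hp hq
          have e : ∀ z, p.2 z + p.1 z = q.2 z + q.1 z := fun z => congrFun hpq z
          have p1 := (mem_RcW.1 hp.1).1.2
          have p2 := (mem_RcW.1 hp.2.1).1.2
          have q1 := (mem_RcW.1 hq.1).1.2
          have q2 := (mem_RcW.1 hq.2.1).1.2
          refine Prod.ext ?_ ?_
          · funext z
            by_cases hz : z ∈ prt G (cone D c)
            · have hz2 := Finset.disjoint_right.1 g.disj hz
              have := e z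
              rw [p2 z hz2, q2 z hz2] at this
              omega
            · rw [p1 z hz, q1 z hz]
          · funext z
            by_cases hz : z ∈ prt G (cone D c)
            · have hz2 := Finset.disjoint_right.1 g.disj hz
              rw [p2 z hz2, q2 z hz2]
            · have := e z
              rw [p1 z hz, q1 z hz] at this
              omega

/-- the calm configuration on a block -/
noncomputable def m13a_chi (r : ℕ) (B : Finset V) (x : V) : V → ℕ :=
  fun z => if z ∈ B then (if z = x then r - 1 else r) else 0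

theorem m13a_chi_mem (H : Ctx D r) (x : V) : m13a_chi r (Bf D x) x ∈ RcW D r (dl x) (Bf D x) := by
  have hr := H.three_le
  rw [mem_RcW]
  refine ⟨⟨?_, ?_⟩, ?_⟩
  · intro v hv
    unfold m13a_chi
    rw [if_pos hv]
    split_ifs <;> omega
  · intro v hv
    unfold m13a_chi
    rw [if_neg hv]
  · intro U hU hne
    by_cases hex : ∃ z ∈ U, z ≠ x
    · obtain ⟨z, hz, hzx⟩ := hex
      refine ⟨z, hz, ?_⟩
      obtain ⟨y, hy⟩ := H.bridge_at z
      have hzB : z ∈ blk D x := H.mem_Bf.1 (hU hz)
      have hyB : y ∉ blk D x := blk_bridge hzB hy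
      have hyU : y ∉ U := fun h => hyB (H.mem_Bf.1 (hU h))
      have h1 := H.degLe z (insert y U)
      rw [dg_insert hyU, if_pos hy.1] at h1
      have h2 : m13a_chi r (Bf D x) x z = r := by
        unfold m13a_chi
        rw [if_pos (hU hz), if_neg hzx]
      have h3 : dl x z = 0 := by simp [dl, hzx]
      omega
    · push Not at hex
      have hUx : U = {x} := by
        ext z
        rw [Finset.mem_singleton]
        constructor
        · exact hex z
        · rintro rfl
          obtain ⟨q, hq⟩ := hne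
          have := hex q hq
          rw [← this]; exact hq
      subst hUx
      refine ⟨x, Finset.mem_singleton_self x, ?_⟩
      have h2 : m13a_chi r (Bf D x) x x = r - 1 := by
        unfold m13a_chi
        rw [if_pos (H.self_mem_Bf x), if_pos rfl]
      have h3 : dl x x = 1 := by simp [dl]
      rw [dg_singleton, if_neg (D.loopless.irrefl x), h2, h3]
      omega

/-- TARGET. a positive proportion of the configurations on a cone is strong with root height at most `r - 1`. Plain proof: `B = Bf D e.2 ⊆ G`, `χ = r` on `B \ {x}`, `χ x = r - 1`. `χ ∈ RcW (dl x) B`: for `U ⊆ B` with a vertex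
`z ≠ x`: `dg z U ≤ r - 1 < r` (`z` has a bridge neighbour outside the block); `U = {x}`: `0 + 1 < r - 1` needs `r ≥ 3`... (`r = 3` gives `1 < 2`). Then as in `dec_mul_le` with all cones of the children strong
(the same induction with the weight `dl x`), and `dec_le_mul`. -/
theorem Ctx.calm_ge (H : Ctx D r) {G : Finset V} {e : V × V} (he : BD D e.1 e.2) (hG : Bf D e.2 ⊆ G) :
    H.dl0 * ((Rc D r (prt G (cone D e))).card : ℝ) ≤
      (((RcW D r (dl e.2) (prt G (cone D e))).filter (fun ζ => ζ e.2 ≤ r - 1)).card : ℝ) := by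
  have d := H.dec_ch he
  have hr0 := H.rpos
  have hg0 := H.g0_pos
  have hup := dec_le_mul (r := r) d hG
  have hlow := m13a_prod (r := r) hG (w := dl e.2) (fun z hz => by
    have : z ≠ e.2 := fun h => hz (h ▸ H.self_mem_Bf e.2)
    simp [dl, this]) (m13a_chi_mem H e.2) (ch D e) (cone D e) d
  -- the children
  have hch : H.g0 ^ H.nn * ∏ c ∈ ch D e, ((Rc D r (prt G (cone D c))).card : ℝ) ≤
      ∏ c ∈ ch D e, ((RcW D r (dl c.2) (prt G (cone D c))).card : ℝ) := by
    rw [← H.card_ch_eq he, ← Finset.prod_const, ← Finset.prod_mul_distrib]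
    refine Finset.prod_le_prod (fun c _ => by positivity) (fun c hc => ?_)
    have hb := d.br c hc
    rw [H.card_strong_cone G hb]
    refine mul_le_mul_of_nonneg_right ?_ (Nat.cast_nonneg _)
    have := H.bet_le G hb
    linarith
  have hup' : ((Rc D r (prt G (cone D e))).card : ℝ) ≤
      (r : ℝ) ^ H.msz * ∏ c ∈ ch D e, ((Rc D r (prt G (cone D c))).card : ℝ) := by
    rw [H.card_Bf_eq] at hup
    exact_mod_cast hup
  have hlow' : ∏ c ∈ ch D e, ((RcW D r (dl c.2) (prt G (cone D c))).card : ℝ) ≤
      (((RcW D r (dl e.2) (prt G (cone D e))).filter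
        (fun ζ => rs (Bf D e.2) ζ = m13a_chi r (Bf D e.2) e.2)).card : ℝ) := by
    exact_mod_cast hlow
  have hfin : ((RcW D r (dl e.2) (prt G (cone D e))).filter
        (fun ζ => rs (Bf D e.2) ζ = m13a_chi r (Bf D e.2) e.2)).card ≤
      ((RcW D r (dl e.2) (prt G (cone D e))).filter (fun ζ => ζ e.2 ≤ r - 1)).card := by
    refine Finset.card_le_card ?_
    intro ζ hζ
    rw [Finset.mem_filter] at hζ ⊢
    refine ⟨hζ.1, ?_⟩
    have h1 := congrFun hζ.2 e.2
    rw [rs_mem (H.self_mem_Bf e.2)] at h1
    rw [h1]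
    unfold m13a_chi
    rw [if_pos (H.self_mem_Bf e.2), if_pos rfl]
  have hfin' : (((RcW D r (dl e.2) (prt G (cone D e))).filter
        (fun ζ => rs (Bf D e.2) ζ = m13a_chi r (Bf D e.2) e.2)).card : ℝ) ≤
      (((RcW D r (dl e.2) (prt G (cone D e))).filter (fun ζ => ζ e.2 ≤ r - 1)).card : ℝ) := by
    exact_mod_cast hfin
  refine le_trans ?_ (le_trans hch (le_trans hlow' hfin'))
  unfold Ctx.dl0
  have hrm : 0 < (r : ℝ) ^ H.msz := by positivity
  calc H.g0 ^ H.nn / (r : ℝ) ^ H.msz * ((Rc D r (prt G (cone D e))).card : ℝ) ≤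
        H.g0 ^ H.nn / (r : ℝ) ^ H.msz *
          ((r : ℝ) ^ H.msz * ∏ c ∈ ch D e, ((Rc D r (prt G (cone D c))).card : ℝ)) :=
        mul_le_mul_of_nonneg_left hup' (by positivity)
    _ = _ := by
      field_simp

end Pool.Agent.Helper910
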