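import Mathlib
import Pool.Agent.Helper910.M13a
import Pool.Agent.Helper910.M11

/-! Finite volume lower bound (MP_4555f0_mp) -/

namespace Pool.Agent.Helper910

open Classical Finset Filter Topology

variable {V : Type*} {D : SimpleGraph V} [D.LocallyFinite] {r : ℕ}

omit [D.LocallyFinite] in
theorem m13b_prt_univ (G : Finset V) : prt G (Set.univ : Set V) = G := by
  ext z
  simp [mem_prt]

theorem Ctx.m13b_dl0_pos (H : Ctx D r) : 0 < H.dl0 := by
  unfold Ctx.dl0
  have h1 := H.g0_pos
  have h2 := H.rpos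
  positivity

theorem Ctx.m13b_dl0_le (H : Ctx D r) : H.dl0 ≤ 1 := by
  unfold Ctx.dl0
  have h1 : H.g0 ^ H.nn ≤ 1 := pow_le_one₀ H.g0_pos.le (H.g0_le.trans (by norm_num))
  have h2 : (1 : ℝ) ≤ (r : ℝ) ^ H.msz := one_le_pow₀ H.one_le_r
  rw [div_le_one (by linarith)]
  linarith

/-- the properties prescribed on the cones -/
def m13b_A (D : SimpleGraph V) (r : ℕ) (G : Finset V) (e : V × V) (n : ℕ) (c : V × V) (ζ : V → ℕ) : Prop :=
  (c = e → (wav D r e.1 (prt G (cone D e)) ζ).card = n) ∧ (c ≠ e → ζ c.2 ≤ r - 1)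

omit [D.LocallyFinite] in
theorem m13b_arith {P a q K N X : ℝ} {k : ℕ} (hP : 0 ≤ P) (ha : 0 < a) (hq : 0 < q) (_hN : 0 < N)
    (h1 : N ≤ q * K) (h2 : P * a ^ k * K ≤ X) : P * (a ^ k / q) * N ≤ X := by
  refine le_trans ?_ h2
  calc P * (a ^ k / q) * N ≤ P * (a ^ k / q) * (q * K) := by
        refine mul_le_mul_of_nonneg_left h1 ?_
        positivity
    _ = P * a ^ k * K := by
        field_simp

/-- the first wave of the configurations of the lower bound -/
theorem Ctx.m13b_wave (H : Ctx D r) {o h1 y1 : V} (hoh : D.Adj o h1) (hhB : h1 ∈ Bf D o) (hby : BD D h1 y1)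
    {G : Finset V} (hBG : Bf D o ⊆ G) {η : V → ℕ} (hη : η ∈ Rc D r G)
    (hχ : rs (Bf D o) η = chS D r (Bf D o) {o, h1})
    (hA : ∀ c ∈ bdr D (Bf D o), c ≠ (h1, y1) → rs (prt G (cone D c)) η c.2 ≤ r - 1) :
    IsWave D r o (G.erase o) (rs (G.erase o) η)
      (insert h1 (wav D r h1 (prt G (cone D (h1, y1))) (rs (prt G (cone D (h1, y1))) η))) := by
  have hne : o ≠ h1 := hoh.ne
  have hoB := H.self_mem_Bf o
  have hQ : InConn D ((Bf D o : Finset V) : Set V) := by rw [H.coe_Bf]; exact blk_inConn o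
  have hE : ExitBr D ((Bf D o : Finset V) : Set V) := by rw [H.coe_Bf]; exact blk_exit o
  have d := dec_univ H.conn ⟨o, hoB⟩ hQ hE
  have hc1 : ((h1, y1) : V × V) ∈ bdr D (Bf D o) := H.bdr_Bf_iff.2 ⟨H.mem_Bf.1 hhB, hby⟩
  have hr3 := H.three_le
  set W1 := wav D r h1 (prt G (cone D (h1, y1))) (rs (prt G (cone D (h1, y1))) η) with hW1
  have w1 : IsWave D r h1 (prt G (cone D (h1, y1))) (rs (prt G (cone D (h1, y1))) η) W1 :=
    isWave_wav _ _ _
  have hWc : ∀ z ∈ W1, z ∈ cone D (h1, y1) := fun z hz => (mem_prt.1 (w1.sub hz)).2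
  have hWG : ∀ z ∈ W1, z ∈ G := fun z hz => (mem_prt.1 (w1.sub hz)).1
  have hWB : ∀ z ∈ W1, z ∉ Bf D o := fun z hz => d.cdisj _ hc1 z (hWc z hz)
  have hoc : o ∉ cone D (h1, y1) := fun h => d.cdisj _ hc1 o h hoB
  have hhc : h1 ∉ cone D (h1, y1) := fun h => d.cdisj _ hc1 h1 h hhB
  have hηB : ∀ z ∈ Bf D o, η z = chS D r (Bf D o) {o, h1} z := by
    intro z hz
    rw [← hχ, rs_mem hz]
  have hηh : η h1 = r := by
    rw [hηB h1 hhB]
    simp [chS, hhB]
  have hcfg := (mem_Rc.1 hη).1
  refine ⟨?_, ?_, ?_⟩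
  · intro z hz
    rw [Finset.mem_erase]
    rcases Finset.mem_insert.1 hz with rfl | hz
    · exact ⟨hne.symm, hBG hhB⟩
    · exact ⟨fun e => hWB z hz (e ▸ hoB), hWG z hz⟩
  · intro y hy hyW
    rw [rs_mem hy]
    rw [Finset.mem_erase] at hy
    rw [Finset.mem_insert, not_or] at hyW
    obtain ⟨hyo, hyG⟩ := hy
    obtain ⟨hyh, hyW⟩ := hyW
    have ho1 : o ∉ insert h1 W1 := by
      rw [Finset.mem_insert, not_or]
      exact ⟨hne, fun h => hWB o h hoB⟩
    have hh1 : h1 ∉ W1 := fun h => hWB h1 h hhB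
    rw [dg_insert ho1, dg_insert hh1]
    by_cases hyB : y ∈ Bf D o
    · have e1 : dg D y W1 = 0 := by
        refine dg_eq_zero fun w hw hadj => ?_
        have := (cone_edge (c := (h1, y1)) hby (fun h => d.cdisj _ hc1 y h hyB) (hWc w hw) hadj).1
        exact hyh this
      have e2 : dg D y ({o, h1} : Finset V) =
          (if D.Adj y h1 then 1 else 0) + (if D.Adj y o then 1 else 0) := by
        rw [dg_insert (by simpa using hne), dg_singleton]
      have e3 : η y = r - dg D y ({o, h1} : Finset V) := by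
        rw [hηB y hyB]
        simp [chS, hyB, hyo, hyh]
      have e4 := H.degLe y ({o, h1} : Finset V)
      rw [e1, e3, e2]
      rw [e2] at e4
      omega
    · rcases d.cov y (Set.mem_univ y) with h | ⟨c, hc, hyc⟩
      · exact absurd h hyB
      by_cases hcc : c = (h1, y1)
      · subst hcc
        have hy1 : y ∈ prt G (cone D (h1, y1)) := mem_prt.2 ⟨hyG, hyc⟩
        have h3 := w1.blk y hy1 hyW
        rw [rs_mem hy1, dg_insert hh1] at h3
        have h4 : ¬ D.Adj y o := by
          intro hadj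
          exact hne (cone_edge (c := (h1, y1)) hby hoc hyc hadj.symm).1
        simp only [h4, if_false, add_zero]
        exact h3
      · have hbc := d.br c hc
        have hoC : o ∉ cone D c := fun h => d.cdisj c hc o h hoB
        have hhC : h1 ∉ cone D c := fun h => d.cdisj c hc h1 h hhB
        have e1 : dg D y W1 = 0 := by
          refine dg_eq_zero fun w hw hadj => ?_
          have hyc1 : y ∉ cone D (h1, y1) := Set.disjoint_left.1 (d.pair c hc _ hc1 hcc) hyc
          have := (cone_edge (c := (h1, y1)) hby hyc1 (hWc w hw) hadj).1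
          exact hyh this
        rw [e1]
        have hyr := (hcfg.1 y hyG).2
        by_cases hy2 : y = c.2
        · have h5 := hA c hc hcc
          have hy3 : c.2 ∈ prt G (cone D c) := mem_prt.2 ⟨hy2 ▸ hyG, snd_mem_cone c⟩
          rw [rs_mem hy3, ← hy2] at h5
          by_cases a1 : D.Adj y h1
          · have b1 := (cone_edge hbc hhC hyc a1.symm).1
            have a2 : ¬ D.Adj y o := by
              intro a2
              exact hne ((cone_edge hbc hoC hyc a2.symm).1.trans b1.symm)
            simp only [a1, a2, if_true, if_false]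
            omega
          · simp only [a1, if_false]
            split_ifs <;> omega
        · have a1 : ¬ D.Adj y h1 := fun a1 => hy2 (cone_edge hbc hhC hyc a1.symm).2
          have a2 : ¬ D.Adj y o := fun a2 => hy2 (cone_edge hbc hoC hyc a2.symm).2
          simp only [a1, a2, if_false]
          omega
  · intro X hX hXne
    by_cases hhX : h1 ∈ X
    · refine ⟨h1, hhX, ?_⟩
      have hm : h1 ∈ G.erase o := Finset.mem_erase.2 ⟨hne.symm, hBG hhB⟩
      rw [rs_mem hm, hηh]
      have : 1 ≤ dg D h1 (insert o (insert h1 W1 \ X)) := by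
        have h5 : dg D h1 {o} ≤ dg D h1 (insert o (insert h1 W1 \ X)) :=
          dg_mono (Finset.singleton_subset_iff.2 (Finset.mem_insert_self _ _))
        rw [dg_singleton] at h5
        simp only [hoh.symm, if_true] at h5
        exact h5
      omega
    · have hXW : X ⊆ W1 := by
        intro x hx
        rcases Finset.mem_insert.1 (hX hx) with rfl | h
        · exact absurd hx hhX
        · exact h
      obtain ⟨z, hz, hlt⟩ := w1.fd X hXW hXne
      refine ⟨z, hz, ?_⟩
      have hzW := hXW hz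
      have hm : z ∈ G.erase o := Finset.mem_erase.2 ⟨fun e => hWB z hzW (e ▸ hoB), hWG z hzW⟩
      rw [rs_mem hm]
      rw [rs_mem (w1.sub hzW)] at hlt
      refine lt_of_lt_of_le hlt (Nat.add_le_add_left (dg_mono ?_) _)
      intro x hx
      rcases Finset.mem_insert.1 hx with rfl | hx
      · exact Finset.mem_insert_of_mem (Finset.mem_sdiff.2 ⟨Finset.mem_insert_self _ _, hhX⟩)
      · rw [Finset.mem_sdiff] at hx
        exact Finset.mem_insert_of_mem (Finset.mem_sdiff.2 ⟨Finset.mem_insert_of_mem hx.1, hx.2⟩)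

/-- these configurations have an avalanche of size `n + 2` -/
theorem Ctx.m13b_size (H : Ctx D r) {o h1 y1 : V} (hoh : D.Adj o h1) (hhB : h1 ∈ Bf D o) (hby : BD D h1 y1)
    {G : Finset V} (hBG : Bf D o ⊆ G) {η : V → ℕ} (hη : η ∈ Rc D r G)
    (hχ : rs (Bf D o) η = chS D r (Bf D o) {o, h1})
    (hA : ∀ c ∈ bdr D (Bf D o), c ≠ (h1, y1) → rs (prt G (cone D c)) η c.2 ≤ r - 1) {n : ℕ}
    (hn : (wav D r h1 (prt G (cone D (h1, y1))) (rs (prt G (cone D (h1, y1))) η)).card = n) :
    AvalancheSize D r G o η (n + 2) := by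
  have hw := H.m13b_wave hoh hhB hby hBG hη hχ hA
  have hne : o ≠ h1 := hoh.ne
  have hoB := H.self_mem_Bf o
  have hQ : InConn D ((Bf D o : Finset V) : Set V) := by rw [H.coe_Bf]; exact blk_inConn o
  have hE : ExitBr D ((Bf D o : Finset V) : Set V) := by rw [H.coe_Bf]; exact blk_exit o
  have d := dec_univ H.conn ⟨o, hoB⟩ hQ hE
  have hc1 : ((h1, y1) : V × V) ∈ bdr D (Bf D o) := H.bdr_Bf_iff.2 ⟨H.mem_Bf.1 hhB, hby⟩
  have hr3 := H.three_le
  set W1 := wav D r h1 (prt G (cone D (h1, y1))) (rs (prt G (cone D (h1, y1))) η) with hW1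
  have w1 : IsWave D r h1 (prt G (cone D (h1, y1))) (rs (prt G (cone D (h1, y1))) η) W1 :=
    isWave_wav _ _ _
  have hWc : ∀ z ∈ W1, z ∈ cone D (h1, y1) := fun z hz => (mem_prt.1 (w1.sub hz)).2
  have hhW : h1 ∉ W1 := fun h => d.cdisj _ hc1 h1 (hWc h1 h) hhB
  have hηo : η o = r := by
    have : rs (Bf D o) η o = chS D r (Bf D o) {o, h1} o := by rw [hχ]
    rw [rs_mem hoB] at this
    rw [this]
    simp [chS, hoB]
  have e0 : wv D r o (G.erase o) (rs (G.erase o) η) 0 = insert h1 W1 := by
    unfold wv itw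
    rw [Function.iterate_zero, id]
    exact hw.eq_wav
  have e1 : rg D r o (G.erase o) (0 + 1) (rs (G.erase o) η) = insert h1 W1 := by
    unfold rg
    rw [zero_add, Finset.range_one, Finset.singleton_biUnion]
    exact e0
  have key := avalanche_of_full (D := D) (r := r) H.degLe (hBG hoB) hη (by omega) hηo 0
    (fun i hi => absurd hi (Nat.not_lt_zero i)) (by
      intro hfull
      have h1' := hfull 0 (by omega)
      rw [e0] at h1'
      obtain ⟨y, hy⟩ := H.bridge_at o
      have hyB : y ∉ Bf D o := fun h => blk_bridge (self_mem_blk o) hy (H.mem_Bf.1 h)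
      have hyW : y ∉ insert h1 W1 := by
        rw [Finset.mem_insert, not_or]
        refine ⟨fun e => hyB (e ▸ hhB), fun h => ?_⟩
        have hoc : o ∉ cone D (h1, y1) := fun h => d.cdisj _ hc1 o h hoB
        exact hne (cone_edge (c := (h1, y1)) hby hoc (hWc y h) hy.1).1
      have h2 := H.degLe o (insert y (insert h1 W1))
      rw [dg_insert hyW] at h2
      simp only [hy.1, if_true] at h2
      omega)
  rw [e1, Finset.card_insert_of_notMem hhW, hn] at key
  have e2 : 1 + (n + 1) = n + 2 := by omega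
  rw [e2] at key
  exact key

/-- TARGET. Finite volume lower bound. Plain proof. Let `h1` be a neighbour of `o` in the block `B` of `o`, `c1 = (h1, y1)` a bridge dart, `χ = chS B {o, h1}` (`chS_mem` with `I = {c1}`). Count the configurations
`η ∈ Rc G` with `rs B η = χ`, the restriction to the cone of `c1` satisfying `|wav h1 G_c1 ζ| = n`, and the restrictions to the cones of the other darts `c` of `bdr B` strong with height `≤ r - 1` at `c.2`
(`dec_mul_le`, `I = {c1}`, `dec_univ`; `dec_le_mul` for the denominator). Such an `η` has an avalanche of size `n + 2`: by `avalanche_of_full` with `k = 0` it is enough that the first wave from `o` on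
`G.erase o` is `{h1} ∪ wav h1 G_c1` (check `IsWave`: `h1` has height `r`; the other vertices `z` of `B` have height `r - dg z {o, h1}`; the roots `c.2` of the other cones have height at most `r - 1` and at most one neighbour
among `o, h1`), and that it is not full: the bridge neighbour of `o` is not in it. -/
theorem Ctx.lower_fin (H : Ctx D r) (o : V) : ∃ c1 ∈ bdr D (Bf D o), ∀ (G : Finset V), (∀ c ∈ bdr D (Bf D o), Bf D c.2 ⊆ G) → Bf D o ⊆ G →
    ∀ n : ℕ, pr D r (prt G (cone D c1)) (fun ζ => (wav D r c1.1 (prt G (cone D c1)) ζ).card = n) *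
      (H.dl0 ^ (bdr D (Bf D o)).card / (r : ℝ) ^ H.msz) ≤ pr D r G (fun η => AvalancheSize D r G o η (n + 2)) := by
  obtain ⟨h1, b, -, hoh, -, hhB', -⟩ := H.two_nbrs o
  obtain ⟨y1, hby⟩ := H.bridge_at h1
  have hhB : h1 ∈ Bf D o := H.mem_Bf.2 hhB'
  have hoB := H.self_mem_Bf o
  have hc1 : ((h1, y1) : V × V) ∈ bdr D (Bf D o) := H.bdr_Bf_iff.2 ⟨hhB', hby⟩
  refine ⟨(h1, y1), hc1, ?_⟩
  intro G hG hBG n
  have hr3 := H.three_le
  have hr1 : 1 ≤ r := by omega
  have hQ : InConn D ((Bf D o : Finset V) : Set V) := by rw [H.coe_Bf]; exact blk_inConn o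
  have hE : ExitBr D ((Bf D o : Finset V) : Set V) := by rw [H.coe_Bf]; exact blk_exit o
  have d := dec_univ H.conn ⟨o, hoB⟩ hQ hE
  set C := bdr D (Bf D o) with hC
  have hIbr : ({(h1, y1)} : Finset (V × V)) ⊆ br D h1 := by
    rw [Finset.singleton_subset_iff, br, Finset.mem_filter]
    exact ⟨H.bdr_Bf_iff.2 ⟨self_mem_blk h1, hby⟩, rfl⟩
  have hχ := H.chS_mem hhB hoh {(h1, y1)} hIbr (by simp)
  have m1 := dec_mul_le (D := D) hr1 d hBG {(h1, y1)} (Finset.singleton_subset_iff.2 hc1)
    (m13b_A D r G (h1, y1) n) _ hχ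
  have m2 := dec_le_mul (D := D) (r := r) d hBG
  rw [m13b_prt_univ] at m1 m2
  -- the configurations counted
  have m3 := m1.trans (Finset.card_le_card
    (t := (Rc D r G).filter (fun η => AvalancheSize D r G o η (n + 2))) (by
    intro η hη
    rw [Finset.mem_filter] at hη ⊢
    obtain ⟨hη1, hη2, hη3⟩ := hη
    exact ⟨hη1, H.m13b_size hoh hhB hby hBG hη1 hη2 (fun c hc hcc => (hη3 c hc).2 hcc)
      ((hη3 _ hc1).1 rfl)⟩))
  clear m1
  have hpos : ∀ c : V × V, (0 : ℝ) < ((Rc D r (prt G (cone D c))).card : ℝ) := by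
    intro c
    have : 0 < (Rc D r (prt G (cone D c))).card := Finset.card_pos.2 ⟨_, H.top_mem hr1 _⟩
    exact_mod_cast this
  have hposG : (0 : ℝ) < ((Rc D r G).card : ℝ) := by
    have : 0 < (Rc D r G).card := Finset.card_pos.2 ⟨_, H.top_mem hr1 _⟩
    exact_mod_cast this
  set P : ℝ := pr D r (prt G (cone D (h1, y1)))
    (fun ζ => (wav D r h1 (prt G (cone D (h1, y1))) ζ).card = n) with hP
  have hP0 : 0 ≤ P := by
    rw [hP]
    unfold pr
    positivity
  have hdl0 := H.m13b_dl0_pos
  have hdl1 := H.m13b_dl0_le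
  -- factor by factor
  have m4 : P * H.dl0 ^ C.card * ∏ c ∈ C, ((Rc D r (prt G (cone D c))).card : ℝ) ≤
      ∏ c ∈ C, ((if c ∈ ({(h1, y1)} : Finset (V × V)) then ((Rc D r (prt G (cone D c))).filter (m13b_A D r G (h1, y1) n c)).card
        else ((RcW D r (dl c.2) (prt G (cone D c))).filter (m13b_A D r G (h1, y1) n c)).card : ℕ) : ℝ) := by
    have e1 : P * H.dl0 ^ C.card * ∏ c ∈ C, ((Rc D r (prt G (cone D c))).card : ℝ) =
        ∏ c ∈ C, ((if c = (h1, y1) then P else 1) * (H.dl0 * ((Rc D r (prt G (cone D c))).card : ℝ))) := by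
      rw [Finset.prod_mul_distrib, Finset.prod_mul_distrib, Finset.prod_const,
        Finset.prod_ite_eq' C (h1, y1) (fun _ => P)]
      simp only [hc1, if_true]
      ring
    rw [e1]
    refine Finset.prod_le_prod ?_ ?_
    · intro c _
      have := hpos c
      split_ifs <;> positivity
    · intro c hc
      by_cases hcc : c = (h1, y1)
      · subst hcc
        simp only [Finset.mem_singleton, if_true]
        have e2 : (((Rc D r (prt G (cone D (h1, y1)))).filter (m13b_A D r G (h1, y1) n (h1, y1))).card : ℝ) =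
            P * ((Rc D r (prt G (cone D (h1, y1)))).card : ℝ) := by
          rw [hP]
          unfold pr
          rw [div_mul_cancel₀ _ (hpos _).ne']
          congr 2
          ext ζ
          simp [m13b_A]
        rw [e2]
        have h5 := hpos (h1, y1)
        have h6 : H.dl0 * ((Rc D r (prt G (cone D (h1, y1)))).card : ℝ) ≤
            1 * ((Rc D r (prt G (cone D (h1, y1)))).card : ℝ) := mul_le_mul_of_nonneg_right hdl1 h5.le
        rw [one_mul] at h6
        exact mul_le_mul_of_nonneg_left h6 hP0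
      · simp only [Finset.mem_singleton, hcc, if_false, one_mul]
        have h5 := H.calm_ge (G := G) (e := c) (d.br c hc) (hG c hc)
        refine h5.trans ?_
        have h6 : ((RcW D r (dl c.2) (prt G (cone D c))).filter (fun ζ => ζ c.2 ≤ r - 1)).card ≤
            ((RcW D r (dl c.2) (prt G (cone D c))).filter (m13b_A D r G (h1, y1) n c)).card := by
          refine Finset.card_le_card ?_
          intro ζ hζ
          rw [Finset.mem_filter] at hζ ⊢
          exact ⟨hζ.1, fun h => absurd h hcc, fun _ => hζ.2⟩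
        exact_mod_cast h6
  have m5 : P * H.dl0 ^ C.card * ∏ c ∈ C, ((Rc D r (prt G (cone D c))).card : ℝ) ≤
      (((Rc D r G).filter (fun η => AvalancheSize D r G o η (n + 2))).card : ℝ) := by
    refine m4.trans ?_
    exact_mod_cast m3
  have m6 : ((Rc D r G).card : ℝ) ≤ (r : ℝ) ^ H.msz * ∏ c ∈ C, ((Rc D r (prt G (cone D c))).card : ℝ) := by
    rw [← H.card_Bf_eq o]
    exact_mod_cast m2
  have hrm : (0 : ℝ) < (r : ℝ) ^ H.msz := by
    have := H.rpos
    positivity
  have m7 : P * (H.dl0 ^ C.card / (r : ℝ) ^ H.msz) * ((Rc D r G).card : ℝ) ≤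
      (((Rc D r G).filter (fun η => AvalancheSize D r G o η (n + 2))).card : ℝ) :=
    m13b_arith hP0 hdl0 hrm hposG m6 m5
  have m8 : P * (H.dl0 ^ C.card / (r : ℝ) ^ H.msz) ≤
      (((Rc D r G).filter (fun η => AvalancheSize D r G o η (n + 2))).card : ℝ) / ((Rc D r G).card : ℝ) :=
    (le_div_iff₀ hposG).2 m7
  exact m8

end Pool.Agent.Helper910
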