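import Mathlib
import Pool.Agent.Helper910.M13b
import Pool.Agent.Helper910.M9c

/-! The lower bound (MP_4555f0_mp) -/

namespace Pool.Agent.Helper910

open Classical Finset Filter Topology

variable {V : Type*} {D : SimpleGraph V} [D.LocallyFinite] {r : ℕ}

/-- positivity of the weight -/
theorem m13c_wt_pos {m : ℕ} (hm : 1 ≤ m) : 0 < wt m := by
  unfold wt
  have h1 : (0 : ℝ) < (m : ℝ) := by exact_mod_cast hm
  exact mul_pos h1 (Real.sqrt_pos.2 h1)

/-- the constant of the second wave is positive -/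
theorem Ctx.m13c_dl0_pos (H : Ctx D r) : 0 < H.dl0 := by
  unfold Ctx.dl0
  have h1 := H.g0_pos
  have h2 : (0 : ℝ) < (r : ℝ) := by
    have := H.three_le
    exact_mod_cast (by omega : 0 < r)
  positivity

/-- TARGET. -/
theorem Ctx.lower (H : Ctx D r) (o : V) : ∃ c : ℝ, 0 < c ∧ ∃ n0 : ℕ, ∀ n : ℕ, n0 ≤ n →
    ∀ᶠ G in (atTop : Filter (Finset V)), c / wt n ≤ pr D r G (fun η => AvalancheSize D r G o η n) := by
  obtain ⟨u, hlim, -, -, c, C, hc, -, ⟨n0, hlo⟩, -⟩ := H.one_wave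
  obtain ⟨c1, hc1, hfin⟩ := H.lower_fin o
  have hbd : BD D c1.1 c1.2 := (H.bdr_Bf_iff.1 hc1).2
  have hr : (0 : ℝ) < (r : ℝ) := by
    have := H.three_le
    exact_mod_cast (by omega : 0 < r)
  have hK : 0 < H.dl0 ^ (bdr D (Bf D o)).card / (r : ℝ) ^ H.msz := by
    have := H.m13c_dl0_pos
    positivity
  set K : ℝ := H.dl0 ^ (bdr D (Bf D o)).card / (r : ℝ) ^ H.msz with hKdef
  refine ⟨c / 2 * K, by positivity, n0 + 3, fun n hn => ?_⟩
  obtain ⟨m, rfl⟩ : ∃ m, n = m + 2 := ⟨n - 2, by omega⟩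
  have hm0 : n0 ≤ m := by omega
  have hm1 : 1 ≤ m := by omega
  have hw := m13c_wt_pos hm1
  have hw2 : 0 < wt (m + 2) := m13c_wt_pos (by omega)
  have hwle : wt m ≤ wt (m + 2) := wt_mono (by omega)
  have hlt : c / 2 / wt m < u m := by
    refine lt_of_lt_of_le ?_ (hlo m hm0)
    rw [div_lt_div_iff_of_pos_right hw]
    linarith
  have hev := (hlim c1 hbd m).eventually_const_lt hlt
  have hbig : ∀ᶠ G in (atTop : Filter (Finset V)),
      ((bdr D (Bf D o)).biUnion (fun c => Bf D c.2)) ∪ Bf D o ⊆ G := by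
    filter_upwards [Filter.eventually_ge_atTop
      (((bdr D (Bf D o)).biUnion (fun c => Bf D c.2)) ∪ Bf D o)] with G hG
    exact hG
  filter_upwards [hev, hbig] with G h1 h2
  have h3 := hfin G (fun c hc z hz => h2 (Finset.mem_union_left _
    (Finset.mem_biUnion.2 ⟨c, hc, hz⟩))) (fun z hz => h2 (Finset.mem_union_right _ hz)) m
  refine le_trans ?_ h3
  calc c / 2 * K / wt (m + 2) ≤ c / 2 * K / wt m := by
        apply div_le_div_of_nonneg_left (by positivity) hw hwle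
    _ = c / 2 / wt m * K := by ring
    _ ≤ _ := mul_le_mul_of_nonneg_right h1.le hK.le

end Pool.Agent.Helper910
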