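import Mathlib
import Pool.Agent.Helper910.M8a
import Pool.Agent.Helper910.AV2

/-! Existence of the limits (MP_4555f0_mp) -/

namespace Pool.Agent.Helper910

open Classical Finset Filter Topology

variable {V : Type*} {D : SimpleGraph V} [D.LocallyFinite] {r : ℕ}

omit [D.LocallyFinite] in
theorem m14_union {Q1 Q2 : Set V} (h1 : InConn D Q1) (h2 : InConn D Q2) {u v : V} (hu : u ∈ Q1) (hv : v ∈ Q2)
    (huv : u = v ∨ D.Adj u v) : InConn D (Q1 ∪ Q2) := by
  -- a walk from `u` to `v` inside the union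
  obtain ⟨e, he⟩ : ∃ p : D.Walk u v, ∀ z ∈ p.support, z ∈ Q1 ∪ Q2 := by
    rcases huv with rfl | h
    · exact ⟨SimpleGraph.Walk.nil, fun z hz => by
        rw [SimpleGraph.Walk.support_nil, List.mem_singleton] at hz
        rw [hz]; exact Or.inl hu⟩
    · refine ⟨SimpleGraph.Walk.cons h SimpleGraph.Walk.nil, fun z hz => ?_⟩
      rw [SimpleGraph.Walk.support_cons, SimpleGraph.Walk.support_nil, List.mem_cons, List.mem_singleton] at hz
      rcases hz with rfl | rfl
      · exact Or.inl hu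
      · exact Or.inr hv
  have key : ∀ a ∈ Q1 ∪ Q2, ∃ p : D.Walk a u, ∀ z ∈ p.support, z ∈ Q1 ∪ Q2 := by
    intro a ha
    rcases ha with ha | ha
    · obtain ⟨p, hp⟩ := h1 a ha u hu
      exact ⟨p, fun z hz => Or.inl (hp z hz)⟩
    · obtain ⟨p, hp⟩ := h2 a ha v hv
      refine ⟨p.append e.reverse, fun z hz => ?_⟩
      rw [SimpleGraph.Walk.mem_support_append_iff] at hz
      rcases hz with hz | hz
      · exact Or.inr (hp z hz)
      · rw [SimpleGraph.Walk.support_reverse, List.mem_reverse] at hz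
        exact he z hz
  intro a ha b hb
  obtain ⟨p, hp⟩ := key a ha
  obtain ⟨q, hq⟩ := key b hb
  refine ⟨p.append q.reverse, fun z hz => ?_⟩
  rw [SimpleGraph.Walk.mem_support_append_iff] at hz
  rcases hz with hz | hz
  · exact hp z hz
  · rw [SimpleGraph.Walk.support_reverse, List.mem_reverse] at hz
    exact hq z hz

omit [D.LocallyFinite] in
theorem m14_exit {Q1 Q2 : Set V} (h1 : ExitBr D Q1) (h2 : ExitBr D Q2) : ExitBr D (Q1 ∪ Q2) := by
  intro a ha b hb hab
  rcases ha with ha | ha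
  · exact h1 a ha b (fun h => hb (Or.inl h)) hab
  · exact h2 a ha b (fun h => hb (Or.inr h)) hab

theorem Ctx.m14_walk (H : Ctx D r) {a b : V} (p : D.Walk a b) :
    ∃ Q : Finset V, a ∈ Q ∧ b ∈ Q ∧ InConn D (Q : Set V) ∧ ExitBr D (Q : Set V) := by
  induction p with
  | nil =>
    rename_i u
    refine ⟨Bf D u, H.self_mem_Bf u, H.self_mem_Bf u, ?_, ?_⟩
    · rw [H.coe_Bf]; exact blk_inConn u
    · rw [H.coe_Bf]; exact blk_exit u
  | cons h p ih =>
    rename_i u v w
    obtain ⟨Q, h1, h2, h3, h4⟩ := ih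
    refine ⟨Bf D u ∪ Q, Finset.mem_union_left _ (H.self_mem_Bf u), Finset.mem_union_right _ h2, ?_, ?_⟩
    · rw [Finset.coe_union, H.coe_Bf]
      exact m14_union (blk_inConn u) h3 (self_mem_blk u) (by exact_mod_cast h1) (Or.inr h)
    · rw [Finset.coe_union, H.coe_Bf]
      exact m14_exit (blk_exit u) h4

/-- TARGET. every finite set is contained in a finite nonempty connected union of blocks (induction on the set; blocks are finite; join by walks of `D`, replacing each vertex by its block) -/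
theorem Ctx.exists_Q (H : Ctx D r) (S : Finset V) : ∃ Q : Finset V, S ⊆ Q ∧ Q.Nonempty ∧ InConn D (Q : Set V) ∧ ExitBr D (Q : Set V) := by
  induction S using Finset.induction_on with
  | empty =>
    obtain ⟨o⟩ := H.nonempty
    obtain ⟨Q, h1, -, h3, h4⟩ := H.m14_walk (SimpleGraph.Walk.nil : D.Walk o o)
    exact ⟨Q, Finset.empty_subset _, ⟨o, h1⟩, h3, h4⟩
  | insert s S _ ih =>
    obtain ⟨Q, h1, ⟨q, hq⟩, h3, h4⟩ := ih
    obtain ⟨p⟩ := H.conn.preconnected q s
    obtain ⟨Q', h1', h2', h3', h4'⟩ := H.m14_walk p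
    refine ⟨Q ∪ Q', ?_, ⟨q, Finset.mem_union_left _ hq⟩, ?_, ?_⟩
    · intro z hz
      rcases Finset.mem_insert.1 hz with rfl | hz
      · exact Finset.mem_union_right _ h2'
      · exact Finset.mem_union_left _ (h1 hz)
    · rw [Finset.coe_union]
      exact m14_union h3 h3' (by exact_mod_cast hq) (by exact_mod_cast h1') (Or.inl rfl)
    · rw [Finset.coe_union]
      exact m14_exit h4 h4'

theorem m14_ball (n : ℕ) : ∀ o : V, ∃ S : Finset V, ∀ (z : V) (p : D.Walk o z), p.length ≤ n → z ∈ S := by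
  induction n with
  | zero =>
    intro o
    refine ⟨{o}, fun z p hp => ?_⟩
    cases p with
    | nil => exact Finset.mem_singleton_self _
    | cons h p => rw [SimpleGraph.Walk.length_cons] at hp; omega
  | succ n ih =>
    intro o
    choose S hS using ih
    refine ⟨{o} ∪ (D.neighborFinset o).biUnion S, fun z p hp => ?_⟩
    cases p with
    | nil => exact Finset.mem_union_left _ (Finset.mem_singleton_self _)
    | cons h p =>
      rename_i v
      rw [SimpleGraph.Walk.length_cons] at hp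
      refine Finset.mem_union_right _ (Finset.mem_biUnion.2 ⟨v, ?_, hS v z p (by omega)⟩)
      rw [SimpleGraph.mem_neighborFinset]; exact h

/-- TARGET. the balls are finite -/
theorem Ctx.exists_ball (H : Ctx D r) (o : V) (n : ℕ) : ∃ S : Finset V, ∀ z : V, D.dist o z ≤ n → z ∈ S := by
  obtain ⟨S, hS⟩ := m14_ball (D := D) n o
  refine ⟨S, fun z hz => ?_⟩
  obtain ⟨p, hp⟩ := H.conn.exists_walk_length_eq_dist o z
  exact hS z p (by omega)

/-- TARGET. by `avalanche_local` the event depends only on `rs Q η` for `Q ⊆ G`; `dec_univ`, `tendsto_marg'` (`prt G Set.univ = G`) -/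
theorem Ctx.exists_lim (H : Ctx D r) (o : V) (n : ℕ) : ∃ p : ℝ,
    Tendsto (fun G => pr D r G (fun η => AvalancheSize D r G o η n)) (atTop : Filter (Finset V)) (𝓝 p) := by
  obtain ⟨S, hS⟩ := H.exists_ball o n
  obtain ⟨Q, hQ1, hQ2, hQ3, hQ4⟩ := H.exists_Q (insert o S)
  have d := dec_univ H.conn hQ2 hQ3 hQ4
  have h := H.tendsto_marg' d (fun χ => AvalancheSize D r Q o χ n)
  refine ⟨_, h.congr' ?_⟩
  filter_upwards [eventually_ge_atTop Q] with G hG
  have e1 : prt G Set.univ = G := by
    ext z; simp [mem_prt]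
  rw [e1]
  unfold pr
  congr 2
  refine congrArg Finset.card (Finset.filter_congr fun ζ hζ => ?_)
  have h1 := avalanche_local D H.conn r G Q hG o (hQ1 (Finset.mem_insert_self _ _)) n
    (fun z hz => hQ1 (Finset.mem_insert_of_mem (hS z hz))) ζ (mem_Rc.1 hζ).1
  exact h1.symm

end Pool.Agent.Helper910
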