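import Mathlib
import Pool.Agent.Helper910.Defs
import Pool.Agent.Helper910.M12d
import Pool.Agent.Helper910.M13c
import Pool.Agent.Helper910.M14

/-!
# The sandpile critical exponent of vertex-transitive graphs with finite nontrivial 2-edge-connected components is 3/2
(MP_4555f0_mp)
-/

namespace Pool.Agent.Helper910.FiniteBlocks

open Pool.Agent.Helper910 Filter Topology

variable {V : Type*}

/-- the number of recurrent configurations on `G` -/
noncomputable def recCount (D : SimpleGraph V) (r : ℕ) (G : Finset V) : ℕ := {χ : V → ℕ | Recurrent D r G χ}.ncard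

/-- the number of recurrent configurations on `G` for which adding one grain at `o` and relaxing makes exactly `n`
distinct vertices topple -/
noncomputable def avCount (D : SimpleGraph V) (r : ℕ) (G : Finset V) (o : V) (n : ℕ) : ℕ :=
  {χ : V → ℕ | Recurrent D r G χ ∧ AvalancheSize D r G o χ n}.ncard

/-- an increasing sequence of finite vertex sets containing `o`, inducing connected subgraphs, with union everything -/
structure Exhausting (D : SimpleGraph V) (o : V) (G : ℕ → Finset V) : Prop where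
  mono : Monotone G
  conn : ∀ k, (D.induce (G k : Set V)).Connected
  mem : ∀ k, o ∈ G k
  union : ∀ v, ∃ k, v ∈ G k

/-- the limits `p n` exist along the sequence `G`, they are positive for all large `n`, and they have critical exponent `α` -/
def HasExponent (D : SimpleGraph V) (r : ℕ) (o : V) (G : ℕ → Finset V) (α : ℝ) : Prop :=
  ∃ p : ℕ → ℝ, (∀ n, Tendsto (fun k => (avCount D r (G k) o n : ℝ) / (recCount D r (G k) : ℝ)) atTop (𝓝 (p n))) ∧
    ∃ C₁ C₂ : ℝ, 0 < C₁ ∧ 0 < C₂ ∧ ∃ N : ℕ, ∀ n : ℕ, N < n → 0 < p n ∧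
      C₁ * (n : ℝ) ^ (-α) < p n ∧ p n < C₂ * (n : ℝ) ^ (-α)

theorem recCount_eq (D : SimpleGraph V) (r : ℕ) (G : Finset V) : recCount D r G = (Rc D r G).card := by
  classical
  unfold recCount
  rw [← Set.ncard_coe_finset]
  congr 1
  ext χ
  simp only [Set.mem_ofPred_eq, Finset.mem_coe]
  exact mem_Rc'.symm

theorem avCount_eq (D : SimpleGraph V) (r : ℕ) (G : Finset V) (o : V) (n : ℕ) :
    (avCount D r G o n : ℝ) / (recCount D r G : ℝ) = pr D r G (fun η => AvalancheSize D r G o η n) := by
  classical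
  rw [recCount_eq]
  unfold avCount pr
  congr 2
  rw [← Set.ncard_coe_finset]
  congr 1
  ext χ
  simp only [Set.mem_ofPred_eq, Finset.coe_filter]
  rw [mem_Rc']

theorem wt_rpow {n : ℕ} (hn : 1 ≤ n) (c : ℝ) : c / wt n = c * (n : ℝ) ^ (-(3 / 2 : ℝ)) := by
  have h0 : (0 : ℝ) < n := by exact_mod_cast hn
  unfold wt
  rw [Real.rpow_neg h0.le, show (3 / 2 : ℝ) = 1 + 1 / 2 by norm_num, Real.rpow_add h0, Real.rpow_one,
    ← Real.sqrt_eq_rpow]
  rfl

/-- Let `D` be an infinite connected vertex-transitive graph, regular of degree `r`, which is not a tree and whose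
2-edge-connected components (the components of `D` after deleting all bridges) are finite. Then `D` has sandpile
critical exponent `3/2`: for every vertex `o` and every exhausting sequence the limits `p n` exist and
`C₁ n^(-3/2) < p n < C₂ n^(-3/2)` for all large `n`. -/
theorem result {V : Type*} (D : SimpleGraph V) [D.LocallyFinite] (r : ℕ) (hinf : Infinite V) (hconn : D.Connected)
    (hreg : D.IsRegularOfDegree r) (htrans : ∀ x y : V, ∃ φ : D ≃g D, φ x = y) (htree : ¬ D.IsAcyclic)
    (hfin : ∀ x : V, {z | (D.deleteEdges {e | D.IsBridge e}).Reachable x z}.Finite)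
    (o : V) (G : ℕ → Finset V) (hG : Exhausting D o G) : HasExponent D r o G (3 / 2) := by
  classical
  have H : Ctx D r := ⟨hconn, hinf, hreg, htrans, hfin, htree⟩
  have hGt : Tendsto G atTop atTop := by
    rw [Filter.tendsto_atTop_atTop]
    intro S
    have h1 : ∀ v ∈ S, ∃ k, v ∈ G k := fun v _ => hG.union v
    choose! k hk using h1
    refine ⟨S.sup k, fun j hj v hv => ?_⟩
    exact hG.mono ((Finset.le_sup hv).trans hj) (hk v hv)
  choose p hp using H.exists_lim o
  refine ⟨p, ?_, ?_⟩
  · intro n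
    simp only [avCount_eq]
    exact (hp n).comp hGt
  · obtain ⟨C, hC, hup⟩ := H.upper o
    obtain ⟨c, hc, n0, hlo⟩ := H.lower o
    refine ⟨c / 2, 2 * C, by positivity, by positivity, n0 + 1, ?_⟩
    intro n hn
    have hn1 : 1 ≤ n := by omega
    have h1 : p n ≤ C / wt n := le_of_tendsto (hp n) (hup n hn1)
    have h2 : c / wt n ≤ p n := ge_of_tendsto (hp n) (hlo n (by omega))
    rw [wt_rpow hn1] at h1 h2
    have hpos : (0 : ℝ) < (n : ℝ) ^ (-(3 / 2 : ℝ)) := Real.rpow_pos_of_pos (by exact_mod_cast hn1) _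
    have h3 : 0 < c * (n : ℝ) ^ (-(3 / 2 : ℝ)) := by positivity
    have h4 : 0 < C * (n : ℝ) ^ (-(3 / 2 : ℝ)) := by positivity
    refine ⟨by linarith, ?_, ?_⟩
    · have : c / 2 * (n : ℝ) ^ (-(3 / 2 : ℝ)) = c * (n : ℝ) ^ (-(3 / 2 : ℝ)) / 2 := by ring
      rw [this]; linarith
    · have : 2 * C * (n : ℝ) ^ (-(3 / 2 : ℝ)) = 2 * (C * (n : ℝ) ^ (-(3 / 2 : ℝ))) := by ring
      rw [this]; linarith

end Pool.Agent.Helper910.FiniteBlocks
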