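import Mathlib
import Pool.Agent.Helper910.MDefs

/-! Total progeny of a critical two-dimensional branching recursion: definitions (MP_4555f0_mp) -/

namespace Pool.Agent.Helper910.QT

open Finset

/-- a step law on `ℕ × ℕ`: `φ a k` is the probability of mass `a ≥ 1` and `k` children; mean number of children `1`, finite second moments -/
structure Law (φ : ℕ → ℕ → ℝ) : Prop where
  nn : ∀ a k, 0 ≤ φ a k
  zr : ∀ k, φ 0 k = 0
  fin : ∃ κ : ℕ, ∀ a k, κ * a < k → φ a k = 0
  one : HasSum (fun p : ℕ × ℕ => φ p.1 p.2) 1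
  mean : HasSum (fun p : ℕ × ℕ => (p.2 : ℝ) * φ p.1 p.2) 1
  sx : Summable (fun p : ℕ × ℕ => (p.1 : ℝ) ^ 2 * φ p.1 p.2)
  sk : Summable (fun p : ℕ × ℕ => (p.2 : ℝ) ^ 2 * φ p.1 p.2)
  at0 : ∃ a0, 0 < φ a0 0 ∧ 0 < φ (a0 + 1) 0
  at1 : ∃ a1, 0 < φ a1 0 ∧ 0 < φ a1 1

/-- the generating series, as a power series in `t` with coefficients power series in `s` -/
noncomputable def gf (φ : ℕ → ℕ → ℝ) : PowerSeries (PowerSeries ℝ) := PowerSeries.mk (fun n => PowerSeries.mk (fun k => φ n k))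

/-- the law of the sum of `b` independent steps -/
noncomputable def cv (φ : ℕ → ℕ → ℝ) (b n k : ℕ) : ℝ := PowerSeries.coeff k (PowerSeries.coeff n ((gf φ) ^ b))

/-- the first marginal of the step law -/
noncomputable def mar (φ : ℕ → ℕ → ℝ) (a : ℕ) : ℝ := ∑' k, φ a k

/-- the law of the first coordinate of the sum of `b` independent steps -/
noncomputable def px (φ : ℕ → ℕ → ℝ) (b n : ℕ) : ℝ := PowerSeries.coeff n ((PowerSeries.mk (mar φ)) ^ b)

/-- `y` solves the recursion of the total mass -/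
def Prog (φ : ℕ → ℕ → ℝ) (y : ℕ → ℝ) : Prop :=
  ∀ n, y n = ∑ a ∈ range (n + 1), ∑ k ∈ range (n + 1), φ a k * PowerSeries.coeff (n - a) ((PowerSeries.mk y) ^ k)

end Pool.Agent.Helper910.QT
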