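import Mathlib
import Pool.Agent.Helper910.N0

/-! Hitting formula (MP_4555f0_mp) -/

namespace Pool.Agent.Helper910.QT

open Finset

variable {φ : ℕ → ℕ → ℝ}

/-- TARGET. one step more -/
theorem cv_succ (b n k : ℕ) : cv φ (b + 1) n k =
    ∑ p ∈ antidiagonal n, ∑ q ∈ antidiagonal k, φ p.1 q.1 * cv φ b p.2 q.2 := by
  unfold cv
  rw [pow_succ', PowerSeries.coeff_mul, map_sum]
  refine Finset.sum_congr rfl fun p _ => ?_
  rw [PowerSeries.coeff_mul]
  refine Finset.sum_congr rfl fun q _ => ?_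
  unfold gf
  rw [PowerSeries.coeff_mk, PowerSeries.coeff_mk]

/-- the operator `s d/ds` on the coefficients -/
noncomputable def n1_th (F : PowerSeries (PowerSeries ℝ)) : PowerSeries (PowerSeries ℝ) :=
  PowerSeries.mk fun n => PowerSeries.mk fun k =>
    (k : ℝ) * PowerSeries.coeff k (PowerSeries.coeff n F)

theorem n1_th_coeff (F : PowerSeries (PowerSeries ℝ)) (n k : ℕ) :
    PowerSeries.coeff k (PowerSeries.coeff n (n1_th F)) =
      (k : ℝ) * PowerSeries.coeff k (PowerSeries.coeff n F) := by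
  unfold n1_th
  rw [PowerSeries.coeff_mk, PowerSeries.coeff_mk]

theorem n1_coeff_mul (F G : PowerSeries (PowerSeries ℝ)) (n k : ℕ) :
    PowerSeries.coeff k (PowerSeries.coeff n (F * G)) =
      ∑ p ∈ antidiagonal n, ∑ q ∈ antidiagonal k,
        PowerSeries.coeff q.1 (PowerSeries.coeff p.1 F) *
          PowerSeries.coeff q.2 (PowerSeries.coeff p.2 G) := by
  rw [PowerSeries.coeff_mul, map_sum]
  exact Finset.sum_congr rfl fun p _ => PowerSeries.coeff_mul _ _ _

theorem n1_ext {F G : PowerSeries (PowerSeries ℝ)}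
    (h : ∀ n k, PowerSeries.coeff k (PowerSeries.coeff n F) =
      PowerSeries.coeff k (PowerSeries.coeff n G)) : F = G :=
  PowerSeries.ext fun n => PowerSeries.ext fun k => h n k

theorem n1_th_mul (F G : PowerSeries (PowerSeries ℝ)) :
    n1_th (F * G) = n1_th F * G + F * n1_th G := by
  apply n1_ext
  intro n k
  rw [n1_th_coeff, map_add, map_add, n1_coeff_mul, n1_coeff_mul, n1_coeff_mul, Finset.mul_sum,
    ← Finset.sum_add_distrib]
  refine Finset.sum_congr rfl fun p _ => ?_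
  rw [Finset.mul_sum, ← Finset.sum_add_distrib]
  refine Finset.sum_congr rfl fun q hq => ?_
  rw [n1_th_coeff, n1_th_coeff]
  have h : (k : ℝ) = q.1 + q.2 := by
    rw [← HasAntidiagonal.mem_antidiagonal.1 hq]
    push_cast
    rfl
  rw [h]
  ring

theorem n1_th_pow (F : PowerSeries (PowerSeries ℝ)) (b : ℕ) :
    n1_th (F ^ (b + 1)) = ((b : PowerSeries (PowerSeries ℝ)) + 1) * (n1_th F * F ^ b) := by
  induction b with
  | zero => simp
  | succ b ih =>
    rw [pow_succ, n1_th_mul, ih]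
    push_cast
    ring

/-- TARGET. the derivative identity: `(b + 1) Σ j φ(a, j) cv b (n - a) (k - j) = k cv (b + 1) n k` (symmetry of the steps, or derivative in `s` of the
power `gf φ ^ (b + 1)` coefficientwise; see `deriv_pow` in A3.lean for the one-variable version) -/
theorem cv_deriv (b n k : ℕ) : ((b : ℝ) + 1) * ∑ p ∈ antidiagonal n, ∑ q ∈ antidiagonal k, (q.1 : ℝ) * (φ p.1 q.1 * cv φ b p.2 q.2) =
    (k : ℝ) * cv φ (b + 1) n k := by
  have h1 : (k : ℝ) * cv φ (b + 1) n k =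
      PowerSeries.coeff k (PowerSeries.coeff n (n1_th (gf φ ^ (b + 1)))) := by
    rw [n1_th_coeff]
    rfl
  have h2 : ((b : PowerSeries (PowerSeries ℝ)) + 1) =
      PowerSeries.C (PowerSeries.C ((b : ℝ) + 1)) := by
    rw [map_add, map_add, map_one, map_one, map_natCast, map_natCast]
  rw [h1, n1_th_pow, h2, PowerSeries.coeff_C_mul, PowerSeries.coeff_C_mul, n1_coeff_mul]
  congr 1
  refine Finset.sum_congr rfl fun p _ => Finset.sum_congr rfl fun q _ => ?_
  rw [n1_th_coeff]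
  unfold cv gf
  rw [PowerSeries.coeff_mk, PowerSeries.coeff_mk]
  ring

theorem n1_cv_zero (n k : ℕ) : cv φ 0 n k = if n = 0 then (if k = 0 then 1 else 0) else 0 := by
  unfold cv
  rw [pow_zero, PowerSeries.coeff_one]
  split_ifs with h1 h2
  · rw [PowerSeries.coeff_one, if_pos h2]
  · rw [PowerSeries.coeff_one, if_neg h2]
  · rw [map_zero]

/-- TARGET. -/
theorem cv_nonneg (h : ∀ a k, 0 ≤ φ a k) (b n k : ℕ) : 0 ≤ cv φ b n k := by
  induction b generalizing n k with
  | zero =>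
    rw [n1_cv_zero]
    split_ifs <;> norm_num
  | succ b ih =>
    rw [cv_succ]
    exact Finset.sum_nonneg fun p _ => Finset.sum_nonneg fun q _ => mul_nonneg (h _ _) (ih _ _)

/-- TARGET. each step has mass at least one -/
theorem cv_zero_of_lt (h : ∀ k, φ 0 k = 0) {b n : ℕ} (hb : n < b) (k : ℕ) : cv φ b n k = 0 := by
  induction b generalizing n k with
  | zero => exact absurd hb (Nat.not_lt_zero n)
  | succ b ih =>
    rw [cv_succ]
    refine Finset.sum_eq_zero fun p hp => Finset.sum_eq_zero fun q _ => ?_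
    rw [HasAntidiagonal.mem_antidiagonal] at hp
    by_cases hp1 : p.1 = 0
    · rw [hp1, h, zero_mul]
    · rw [ih (by omega), mul_zero]

/-- the factor -/
noncomputable def n1_ra (k b : ℕ) : ℝ := if b = 0 then 1 else (k : ℝ) / b

/-- the term -/
noncomputable def n1_T (φ : ℕ → ℕ → ℝ) (k n b : ℕ) : ℝ :=
  if k ≤ b then n1_ra k b * cv φ b n (b - k) else 0

/-- the sum -/
noncomputable def n1_F (φ : ℕ → ℕ → ℝ) (k n : ℕ) : ℝ := ∑ b ∈ range (n + 1), n1_T φ k n b

theorem n1_T_zero (h : ∀ k, φ 0 k = 0) {k n b : ℕ} (hb : n < b) : n1_T φ k n b = 0 := by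
  unfold n1_T
  rw [cv_zero_of_lt h hb, mul_zero, ite_self]

theorem n1_F_eq (h : ∀ k, φ 0 k = 0) {k n N : ℕ} (hN : n < N) :
    n1_F φ k n = ∑ b ∈ range N, n1_T φ k n b := by
  unfold n1_F
  refine Finset.sum_subset (Finset.range_mono (by omega)) fun b _ hb => ?_
  rw [Finset.mem_range, not_lt] at hb
  exact n1_T_zero h (by omega)

theorem n1_T_rec (k n b N : ℕ) (hN : b ≤ N) : n1_T φ (k + 1) n (b + 1) =
    ∑ p ∈ antidiagonal n, ∑ j ∈ range (N + 1), φ p.1 j * n1_T φ (k + j) p.2 b := by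
  by_cases hk : k ≤ b
  · have h1 : ∀ p ∈ antidiagonal n, ∑ j ∈ range (N + 1), φ p.1 j * n1_T φ (k + j) p.2 b =
        ∑ q ∈ antidiagonal (b - k), φ p.1 q.1 * (n1_ra (k + q.1) b * cv φ b p.2 q.2) := by
      intro p _
      rw [Finset.Nat.sum_antidiagonal_eq_sum_range_succ
        (fun i j => φ p.1 i * (n1_ra (k + i) b * cv φ b p.2 j))]
      have h2 : ∑ j ∈ range (N + 1), φ p.1 j * n1_T φ (k + j) p.2 b =
          ∑ j ∈ range (b - k + 1), φ p.1 j * n1_T φ (k + j) p.2 b := by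
        symm
        refine Finset.sum_subset (Finset.range_mono (by omega)) fun j _ hj => ?_
        rw [Finset.mem_range, not_lt] at hj
        unfold n1_T
        rw [if_neg (by omega), mul_zero]
      rw [h2]
      refine Finset.sum_congr rfl fun j hj => ?_
      rw [Finset.mem_range] at hj
      unfold n1_T
      rw [if_pos (by omega), Nat.sub_add_eq]
    rw [Finset.sum_congr rfl h1]
    unfold n1_T
    rw [if_pos (by omega), Nat.add_sub_add_right]
    by_cases hb : b = 0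
    · subst hb
      have hk0 : k = 0 := by omega
      subst hk0
      have e1 : n1_ra (0 + 1) (0 + 1) = 1 := by
        unfold n1_ra
        simp
      rw [e1, one_mul, cv_succ]
      refine Finset.sum_congr rfl fun p _ => Finset.sum_congr rfl fun q _ => ?_
      have e2 : n1_ra (0 + q.1) 0 = 1 := by
        unfold n1_ra
        rw [if_pos rfl]
      rw [e2, one_mul]
    · have hbr : (b : ℝ) ≠ 0 := by exact_mod_cast hb
      have hb1 : (b : ℝ) + 1 ≠ 0 := by positivity
      have e1 : ∑ p ∈ antidiagonal n, ∑ q ∈ antidiagonal (b - k),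
          φ p.1 q.1 * (n1_ra (k + q.1) b * cv φ b p.2 q.2) =
          (1 / (b : ℝ)) * ((k : ℝ) * (∑ p ∈ antidiagonal n, ∑ q ∈ antidiagonal (b - k),
            φ p.1 q.1 * cv φ b p.2 q.2) + ∑ p ∈ antidiagonal n, ∑ q ∈ antidiagonal (b - k),
            (q.1 : ℝ) * (φ p.1 q.1 * cv φ b p.2 q.2)) := by
        rw [Finset.mul_sum, ← Finset.sum_add_distrib, Finset.mul_sum]
        refine Finset.sum_congr rfl fun p _ => ?_
        rw [Finset.mul_sum, ← Finset.sum_add_distrib, Finset.mul_sum]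
        refine Finset.sum_congr rfl fun q _ => ?_
        unfold n1_ra
        rw [if_neg hb]
        push_cast
        ring
      have e2 := cv_deriv (φ := φ) b n (b - k)
      have e3 : ∑ p ∈ antidiagonal n, ∑ q ∈ antidiagonal (b - k),
            (q.1 : ℝ) * (φ p.1 q.1 * cv φ b p.2 q.2) =
          ((b : ℝ) - k) * cv φ (b + 1) n (b - k) / (b + 1) := by
        rw [eq_div_iff hb1, mul_comm, e2, Nat.cast_sub hk]
      rw [e1, ← cv_succ, e3]
      unfold n1_ra
      rw [if_neg (Nat.succ_ne_zero b)]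
      push_cast
      field_simp
      ring
  · unfold n1_T
    rw [if_neg (by omega)]
    symm
    refine Finset.sum_eq_zero fun p _ => Finset.sum_eq_zero fun j _ => ?_
    rw [if_neg (by omega), mul_zero]

theorem n1_F_rec (h : ∀ k, φ 0 k = 0) (k n : ℕ) : n1_F φ (k + 1) n =
    ∑ p ∈ antidiagonal n, ∑ j ∈ range (n + 1), φ p.1 j * n1_F φ (k + j) p.2 := by
  have h0 : n1_T φ (k + 1) n 0 = 0 := by
    unfold n1_T
    rw [if_neg (by omega)]
  unfold n1_F
  rw [Finset.sum_range_succ', h0, add_zero]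
  have h1 : ∀ b ∈ range n, n1_T φ (k + 1) n (b + 1) =
      ∑ p ∈ antidiagonal n, ∑ j ∈ range (n + 1), φ p.1 j * n1_T φ (k + j) p.2 b := by
    intro b hb
    rw [Finset.mem_range] at hb
    exact n1_T_rec k n b n hb.le
  rw [Finset.sum_congr rfl h1, Finset.sum_comm]
  refine Finset.sum_congr rfl fun p hp => ?_
  rw [HasAntidiagonal.mem_antidiagonal] at hp
  rw [Finset.sum_comm]
  refine Finset.sum_congr rfl fun j _ => ?_
  rw [← Finset.mul_sum]
  by_cases hp1 : p.1 = 0
  · rw [hp1, h, zero_mul, zero_mul]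
  · have := n1_F_eq h (k := k + j) (n := p.2) (N := n) (by omega)
    unfold n1_F at this
    rw [this]

theorem n1_F_zero (n : ℕ) : n1_F φ 0 n = if n = 0 then 1 else 0 := by
  unfold n1_F
  rw [Finset.sum_range_succ']
  have h1 : ∑ b ∈ range n, n1_T φ 0 n (b + 1) = 0 := by
    refine Finset.sum_eq_zero fun b _ => ?_
    unfold n1_T n1_ra
    rw [if_neg (Nat.succ_ne_zero b)]
    simp
  rw [h1, zero_add]
  unfold n1_T n1_ra
  rw [if_pos (le_refl 0), if_pos rfl, one_mul, n1_cv_zero]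
  simp

theorem n1_y0 (h : ∀ k, φ 0 k = 0) {y : ℕ → ℝ} (hy : Prog φ y) : y 0 = 0 := by
  rw [hy 0]
  simp [h]

theorem n1_coeff_pow_lt {y : ℕ → ℝ} (hy0 : y 0 = 0) {m j : ℕ} (hm : m < j) :
    PowerSeries.coeff m ((PowerSeries.mk y) ^ j) = 0 := by
  have h1 : (PowerSeries.X : PowerSeries ℝ) ∣ PowerSeries.mk y := by
    rw [PowerSeries.X_dvd_iff, ← PowerSeries.coeff_zero_eq_constantCoeff_apply,
      PowerSeries.coeff_mk, hy0]
  exact PowerSeries.X_pow_dvd_iff.1 (pow_dvd_pow_of_dvd h1 j) m hm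

theorem n1_y_eq (h : ∀ k, φ 0 k = 0) {y : ℕ → ℝ} (hy : Prog φ y) {m N : ℕ} (hm : m ≤ N) :
    y m = ∑ a ∈ range (N + 1), ∑ j ∈ range (N + 1), φ a j *
      PowerSeries.coeff m ((PowerSeries.X : PowerSeries ℝ) ^ a * (PowerSeries.mk y) ^ j) := by
  have hy0 := n1_y0 h hy
  rw [hy m]
  have h1 : ∀ a ∈ range (N + 1), a ∉ range (m + 1) → ∑ j ∈ range (N + 1), φ a j *
      PowerSeries.coeff m ((PowerSeries.X : PowerSeries ℝ) ^ a * (PowerSeries.mk y) ^ j) = 0 := by
    intro a _ ha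
    rw [Finset.mem_range, not_lt] at ha
    refine Finset.sum_eq_zero fun j _ => ?_
    rw [PowerSeries.coeff_X_pow_mul', if_neg (by omega), mul_zero]
  rw [← Finset.sum_subset (Finset.range_mono (by omega)) h1]
  refine Finset.sum_congr rfl fun a ha => ?_
  rw [Finset.mem_range] at ha
  have h2 : ∀ j ∈ range (N + 1), j ∉ range (m + 1) → φ a j *
      PowerSeries.coeff m ((PowerSeries.X : PowerSeries ℝ) ^ a * (PowerSeries.mk y) ^ j) = 0 := by
    intro j _ hj
    rw [Finset.mem_range, not_lt] at hj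
    rw [PowerSeries.coeff_X_pow_mul', if_pos (by omega), n1_coeff_pow_lt hy0 (by omega), mul_zero]
  rw [← Finset.sum_subset (Finset.range_mono (by omega)) h2]
  refine Finset.sum_congr rfl fun j _ => ?_
  rw [PowerSeries.coeff_X_pow_mul', if_pos (by omega)]

theorem n1_C_rec (h : ∀ k, φ 0 k = 0) {y : ℕ → ℝ} (hy : Prog φ y) (k n : ℕ) :
    PowerSeries.coeff n ((PowerSeries.mk y) ^ (k + 1)) =
    ∑ p ∈ antidiagonal n, ∑ j ∈ range (n + 1), φ p.1 j *
      PowerSeries.coeff p.2 ((PowerSeries.mk y) ^ (k + j)) := by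
  have h1 : PowerSeries.coeff n ((PowerSeries.mk y) ^ (k + 1)) =
      PowerSeries.coeff n ((∑ a ∈ range (n + 1), ∑ j ∈ range (n + 1),
        PowerSeries.C (φ a j) * ((PowerSeries.X : PowerSeries ℝ) ^ a * (PowerSeries.mk y) ^ j)) *
          (PowerSeries.mk y) ^ k) := by
    rw [pow_succ', PowerSeries.coeff_mul, PowerSeries.coeff_mul]
    refine Finset.sum_congr rfl fun p hp => ?_
    rw [HasAntidiagonal.mem_antidiagonal] at hp
    congr 1
    rw [PowerSeries.coeff_mk, n1_y_eq h hy (m := p.1) (N := n) (by omega), map_sum]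
    refine Finset.sum_congr rfl fun a _ => ?_
    rw [map_sum]
    refine Finset.sum_congr rfl fun j _ => ?_
    rw [PowerSeries.coeff_C_mul]
  rw [h1, Finset.sum_mul, map_sum, Finset.Nat.sum_antidiagonal_eq_sum_range_succ
    (fun a m => ∑ j ∈ range (n + 1), φ a j *
      PowerSeries.coeff m ((PowerSeries.mk y) ^ (k + j)))]
  refine Finset.sum_congr rfl fun a ha => ?_
  rw [Finset.mem_range] at ha
  rw [Finset.sum_mul, map_sum]
  refine Finset.sum_congr rfl fun j _ => ?_
  rw [mul_assoc, mul_assoc, PowerSeries.coeff_C_mul, ← pow_add, PowerSeries.coeff_X_pow_mul',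
    if_pos (by omega), add_comm j k]

theorem n1_main (h : ∀ k, φ 0 k = 0) {y : ℕ → ℝ} (hy : Prog φ y) (n : ℕ) :
    ∀ k, PowerSeries.coeff n ((PowerSeries.mk y) ^ k) = n1_F φ k n := by
  induction n using Nat.strong_induction_on with
  | _ n ih =>
    intro k
    cases k with
    | zero => rw [n1_F_zero, pow_zero, PowerSeries.coeff_one]
    | succ k =>
      rw [n1_C_rec h hy, n1_F_rec h]
      refine Finset.sum_congr rfl fun p hp => Finset.sum_congr rfl fun j _ => ?_
      rw [HasAntidiagonal.mem_antidiagonal] at hp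
      by_cases hp1 : p.1 = 0
      · rw [hp1, h, zero_mul, zero_mul]
      · rw [ih p.2 (by omega)]

/-- TARGET. Hitting formula for powers of the solution `y` of `y n = Σ φ a k [t^(n-a)] Y^k`. Let
`F k n = Σ_{b = 1}^{n} (k/b) cv b n (b - k)` (the terms with `b < k` being `0`) for `n ≥ 1`, `F k 0 = 1` if `k = 0` and `0` otherwise (note `y 0 = 0`). Then
`F (k + 1) n = Σ_{a, j} φ a j F (k + j) (n - a)`:
`Σ_b (1/b) Σ_{a,j} φ a j (k + j) cv b (n - a) (b - k - j) = Σ_b (1/b) (k + (b - k)/(b + 1)) cv (b+1) n (b - k) = Σ_b ((k+1)/(b+1)) cv (b+1) n (b - k)`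
by `cv_succ` and `cv_deriv`; the term `b + 1 = 1` on the left is `φ n 0` for `k = 0`. The coefficients of `Y^(k+1) = Y^k · Y` satisfy the same recursion
(`Y = Σ φ a j t^a Y^j`), and it determines them by induction on `n` since `φ 0 j = 0`. See `hitting` in A3.lean for a related one-variable proof. -/
theorem hit_pow (h : ∀ k, φ 0 k = 0) {y : ℕ → ℝ} (hy : Prog φ y) (k n : ℕ) (hn : 1 ≤ n) :
    PowerSeries.coeff n ((PowerSeries.mk y) ^ k) = ∑ b ∈ Icc 1 n, if k ≤ b then ((k : ℝ) / b) * cv φ b n (b - k) else 0 := by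
  rw [n1_main h hy, n1_F, Finset.range_eq_Ico, Finset.sum_eq_sum_Ico_succ_bot (Nat.succ_pos n)]
  have h1 : n1_T φ k n 0 = 0 := by
    unfold n1_T
    have hn0 : ¬ n = 0 := by omega
    rw [n1_cv_zero, if_neg hn0, mul_zero, ite_self]
  rw [h1, zero_add]
  refine Finset.sum_congr rfl fun b hb => ?_
  rw [Finset.mem_Icc] at hb
  unfold n1_T n1_ra
  rw [if_neg (by omega : ¬ b = 0)]

/-- TARGET. the case `k = 1` -/
theorem hit_one (h : ∀ k, φ 0 k = 0) {y : ℕ → ℝ} (hy : Prog φ y) (n : ℕ) (hn : 1 ≤ n) :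
    y n = ∑ b ∈ Icc 1 n, (1 / (b : ℝ)) * cv φ b n (b - 1) := by
  have h1 := hit_pow h hy 1 n hn
  rw [pow_one, PowerSeries.coeff_mk] at h1
  rw [h1]
  refine Finset.sum_congr rfl fun b hb => ?_
  rw [Finset.mem_Icc] at hb
  rw [if_pos hb.1, Nat.cast_one]

/-- TARGET. -/
theorem prog_zero (h : ∀ k, φ 0 k = 0) {y : ℕ → ℝ} (hy : Prog φ y) : y 0 = 0 := n1_y0 h hy

end Pool.Agent.Helper910.QT
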