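import Mathlib
import Pool.Agent.Helper910.N1
import Pool.Agent.Helper910.A1

/-! Upper smoothing bound (MP_4555f0_mp) -/

namespace Pool.Agent.Helper910.QT

open Finset

variable {φ : ℕ → ℕ → ℝ}

/-- central binomial bound -/
theorem choose_bound : ∃ C : ℝ, 0 < C ∧ ∀ j i : ℕ, (j.choose i : ℝ) ≤ C * 2 ^ j / Real.sqrt (j + 1) := by
  obtain ⟨C, hC, h⟩ := bp_upper (1 / 2) (by norm_num) (by norm_num)
  refine ⟨2 * C + 1, by positivity, fun j i => ?_⟩
  rcases Nat.eq_zero_or_pos j with rfl | hj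
  · rcases Nat.eq_zero_or_pos i with rfl | hi
    · simp; linarith
    · rw [Nat.choose_eq_zero_of_lt hi]
      simp only [CharP.cast_eq_zero]
      positivity
  · rcases lt_or_ge j i with hji | hji
    · rw [Nat.choose_eq_zero_of_lt hji]
      simp only [CharP.cast_eq_zero]
      positivity
    · have h1 := h j i hj
      have e1 : bp (1 / 2) j i = (j.choose i : ℝ) / 2 ^ j := by
        unfold bp
        have e2 : (1 : ℝ) - 1 / 2 = 1 / 2 := by norm_num
        rw [e2, mul_assoc, ← pow_add, Nat.add_sub_cancel' hji, one_div, inv_pow]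
        rfl
      rw [e1, div_le_iff₀ (by positivity)] at h1
      have hj1 : (1 : ℝ) ≤ j := by exact_mod_cast hj
      have hs : Real.sqrt (j + 1) ≤ 2 * Real.sqrt j := by
        rw [show (2 : ℝ) = Real.sqrt 4 by rw [show (4 : ℝ) = 2 ^ 2 by norm_num, Real.sqrt_sq (by norm_num)],
          ← Real.sqrt_mul (by norm_num)]
        exact Real.sqrt_le_sqrt (by linarith)
      have hs0 : 0 < Real.sqrt j := Real.sqrt_pos.2 (by linarith)
      have hs1 : 0 < Real.sqrt ((j : ℝ) + 1) := Real.sqrt_pos.2 (by linarith)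
      refine h1.trans ?_
      have h2 : C / Real.sqrt j ≤ (2 * C + 1) / Real.sqrt (j + 1) := by
        rw [div_le_div_iff₀ hs0 hs1]
        nlinarith
      calc C / Real.sqrt j * 2 ^ j ≤ (2 * C + 1) / Real.sqrt (j + 1) * 2 ^ j := by gcongr
        _ = _ := by ring

/-- the marginal of a power is the power of the marginal -/
theorem n2_hasSum {ψ : ℕ → ℕ → ℝ} (hs : ∀ a, Summable (ψ a)) (b n : ℕ) :
    HasSum (fun k => cv ψ b n k) (px ψ b n) := by
  induction b generalizing n with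
  | zero =>
    have e1 : ∀ k, cv ψ 0 n k = if k = 0 then (if n = 0 then 1 else 0) else 0 := by
      intro k
      unfold cv
      rw [pow_zero, PowerSeries.coeff_one]
      split_ifs <;> simp [PowerSeries.coeff_one, *]
    have e2 : px ψ 0 n = if n = 0 then 1 else 0 := by
      unfold px
      rw [pow_zero, PowerSeries.coeff_one]
    simp_rw [e1, e2]
    exact hasSum_ite_eq 0 _
  | succ b ih =>
    simp_rw [cv_succ]
    have e2 : px ψ (b + 1) n = ∑ p ∈ antidiagonal n, mar ψ p.1 * px ψ b p.2 := by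
      unfold px
      rw [pow_succ', PowerSeries.coeff_mul]
      refine Finset.sum_congr rfl fun p _ => ?_
      rw [PowerSeries.coeff_mk]
    rw [e2]
    refine hasSum_sum fun p _ => ?_
    have s1 : Summable (fun k => ‖ψ p.1 k‖) := (hs p.1).norm
    have s2 : Summable (fun k => ‖cv ψ b p.2 k‖) := (ih p.2).summable.norm
    have h1 := tsum_mul_tsum_eq_tsum_sum_antidiagonal_of_summable_norm s1 s2
    have h2 := (summable_norm_sum_mul_antidiagonal_of_summable_norm s1 s2).of_norm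
    rw [(ih p.2).tsum_eq] at h1
    show HasSum _ (mar ψ p.1 * px ψ b p.2)
    unfold mar
    rw [h1]
    exact h2.hasSum

theorem n2_summable (h : Law φ) (a : ℕ) : Summable (φ a) := by
  obtain ⟨κ, hκ⟩ := h.fin
  refine summable_of_ne_finset_zero (s := range (κ * a + 1)) fun k hk => hκ a k ?_
  rw [Finset.mem_range, not_lt] at hk
  omega

theorem px_hasSum (h : Law φ) (b n : ℕ) : HasSum (fun k => cv φ b n k) (px φ b n) :=
  n2_hasSum (n2_summable h) b n

theorem cv_le_px (h : Law φ) (b n k : ℕ) : cv φ b n k ≤ px φ b n :=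
  le_hasSum (px_hasSum h b n) k fun j _ => cv_nonneg h.nn b n j

theorem px_nonneg (h : Law φ) (b n : ℕ) : 0 ≤ px φ b n :=
  (px_hasSum h b n).nonneg fun k => cv_nonneg h.nn b n k

/-- coefficients of `(θ (1 + s))^j` -/
theorem n2_coeff (θ : ℝ) (j i : ℕ) :
    PowerSeries.coeff i ((PowerSeries.C θ * (1 + PowerSeries.X)) ^ j : PowerSeries ℝ) =
      θ ^ j * (j.choose i : ℝ) := by
  rw [mul_pow, ← map_pow, PowerSeries.coeff_C_mul]
  congr 1
  have e : ((1 + PowerSeries.X : PowerSeries ℝ)) ^ j =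
      (((1 + Polynomial.X : Polynomial ℝ) ^ j : Polynomial ℝ) : PowerSeries ℝ) := by
    simp
  rw [e, Polynomial.coeff_coe, Polynomial.coeff_one_add_X_pow]

/-- the terms of the expansion -/
noncomputable def n2w (ψ : ℕ → ℕ → ℝ) (θ : ℝ) (a1 b n j : ℕ) : ℝ :=
  (b.choose j : ℝ) * (2 * θ) ^ j * (if j * a1 ≤ n then px ψ (b - j) (n - j * a1) else 0)

theorem n2_px {ψ : ℕ → ℕ → ℝ} {θ : ℝ} {a1 : ℕ}
    (hm : ∀ a, mar φ a = mar ψ a + if a = a1 then 2 * θ else 0) (b n : ℕ) :
    px φ b n = ∑ j ∈ range (b + 1), n2w ψ θ a1 b n j := by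
  have e : (PowerSeries.mk (mar φ) : PowerSeries ℝ) =
      PowerSeries.monomial a1 (2 * θ) + PowerSeries.mk (mar ψ) := by
    ext a
    rw [map_add, PowerSeries.coeff_mk, PowerSeries.coeff_mk, PowerSeries.coeff_monomial, hm, add_comm]
  unfold px
  rw [e, add_pow, map_sum]
  refine Finset.sum_congr rfl fun j _ => ?_
  unfold n2w px
  rw [PowerSeries.monomial_pow, PowerSeries.monomial_eq_C_mul_X_pow, mul_assoc, mul_assoc,
    PowerSeries.coeff_C_mul, ← mul_assoc (PowerSeries.X ^ (j * a1)), ← nsmul_eq_mul', map_nsmul,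
    PowerSeries.coeff_X_pow_mul', nsmul_eq_mul]
  ring

theorem n2_cv {ψ : ℕ → ℕ → ℝ} {θ : ℝ} {a1 : ℕ}
    (hφ : ∀ a k, φ a k = ψ a k + if a = a1 ∧ (k = 0 ∨ k = 1) then θ else 0) (b n k : ℕ) :
    cv φ b n k = ∑ j ∈ range (b + 1), (b.choose j : ℝ) * (if j * a1 ≤ n then
      ∑ q ∈ antidiagonal k, (θ ^ j * (j.choose q.1 : ℝ)) * cv ψ (b - j) (n - j * a1) q.2 else 0) := by
  have e : gf φ = PowerSeries.monomial a1 (PowerSeries.C θ * (1 + PowerSeries.X)) + gf ψ := by
    ext a i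
    unfold gf
    rw [map_add, PowerSeries.coeff_mk, PowerSeries.coeff_mk, PowerSeries.coeff_monomial, map_add,
      PowerSeries.coeff_mk, PowerSeries.coeff_mk, hφ, add_comm]
    congr 1
    by_cases ha : a = a1
    · rw [if_pos ha, PowerSeries.coeff_C_mul, map_add, PowerSeries.coeff_one, PowerSeries.coeff_X]
      by_cases h0 : i = 0
      · simp [ha, h0]
      · by_cases h1 : i = 1
        · simp [ha, h1]
        · simp [h0, h1]
    · simp [ha]
  unfold cv
  rw [e, add_pow, map_sum, map_sum]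
  refine Finset.sum_congr rfl fun j _ => ?_
  rw [PowerSeries.monomial_pow, PowerSeries.monomial_eq_C_mul_X_pow, mul_assoc, mul_assoc,
    PowerSeries.coeff_C_mul, ← mul_assoc (PowerSeries.X ^ (j * a1)), ← nsmul_eq_mul', map_nsmul,
    PowerSeries.coeff_X_pow_mul', mul_smul_comm, map_nsmul, nsmul_eq_mul]
  congr 1
  split
  · rw [PowerSeries.coeff_mul]
    refine Finset.sum_congr rfl fun q _ => ?_
    rw [n2_coeff]
  · simp

theorem n2_amgm (b j : ℕ) : 1 / Real.sqrt (j + 1) ≤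
    (1 / Real.sqrt (b + 1) + Real.sqrt (b + 1) * (1 / (j + 1))) / 2 := by
  have hb : 0 < Real.sqrt ((b : ℝ) + 1) := Real.sqrt_pos.2 (by positivity)
  have hj : 0 < Real.sqrt ((j : ℝ) + 1) := Real.sqrt_pos.2 (by positivity)
  have hb2 : Real.sqrt ((b : ℝ) + 1) ^ 2 = b + 1 := Real.sq_sqrt (by positivity)
  have hj2 : Real.sqrt ((j : ℝ) + 1) ^ 2 = j + 1 := Real.sq_sqrt (by positivity)
  set s := Real.sqrt ((b : ℝ) + 1)
  set t := Real.sqrt ((j : ℝ) + 1)
  rw [← hj2]
  have e : (1 / s + s * (1 / t ^ 2)) / 2 - 1 / t = (1 / t - 1 / s) ^ 2 * s / 2 := by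
    field_simp
    ring
  have : 0 ≤ (1 / t - 1 / s) ^ 2 * s / 2 := by positivity
  linarith

theorem n2w_shift (ψ : ℕ → ℕ → ℝ) {θ : ℝ} (hθ : 0 < θ) (a1 b n j : ℕ) :
    n2w ψ θ a1 b n j * (1 / (j + 1)) =
      1 / (2 * θ * (b + 1)) * n2w ψ θ a1 (b + 1) (n + a1) (j + 1) := by
  have e1 : (((b + 1).choose (j + 1) : ℕ) : ℝ) * (j + 1) = (b + 1) * (b.choose j : ℝ) := by
    have := Nat.add_one_mul_choose_eq b j
    exact_mod_cast this.symm
  have e2 : (n + a1) - (j + 1) * a1 = n - j * a1 := by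
    have : (j + 1) * a1 = j * a1 + a1 := by ring
    omega
  have e3 : (b + 1) - (j + 1) = b - j := by omega
  have e4 : ((j + 1) * a1 ≤ n + a1) ↔ (j * a1 ≤ n) := by
    have : (j + 1) * a1 = j * a1 + a1 := by ring
    omega
  unfold n2w
  rw [e2, e3]
  simp only [e4]
  have e5 : (((b + 1).choose (j + 1) : ℕ) : ℝ) = (b + 1) * (b.choose j : ℝ) / (j + 1) := by
    rw [eq_div_iff (by positivity)]; exact e1
  rw [e5, pow_succ]
  field_simp

theorem cv_upper (h : Law φ) : ∃ (C : ℝ) (a1 : ℕ), 0 < C ∧ ∀ b n k : ℕ,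
    cv φ b n k ≤ C / Real.sqrt (b + 1) * (px φ b n + px φ (b + 1) (n + a1)) := by
  obtain ⟨C, hC, hch⟩ := choose_bound
  obtain ⟨a1, h10, h11⟩ := h.at1
  obtain ⟨θ, hθd⟩ : ∃ θ, θ = min (φ a1 0) (φ a1 1) := ⟨_, rfl⟩
  have hθ : 0 < θ := by rw [hθd]; exact lt_min h10 h11
  have hθ0 : θ ≤ φ a1 0 := by rw [hθd]; exact min_le_left _ _
  have hθ1 : θ ≤ φ a1 1 := by rw [hθd]; exact min_le_right _ _
  set ψ : ℕ → ℕ → ℝ := fun a k => φ a k - if a = a1 ∧ (k = 0 ∨ k = 1) then θ else 0 with hψ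
  have hφψ : ∀ a k, φ a k = ψ a k + if a = a1 ∧ (k = 0 ∨ k = 1) then θ else 0 := by
    intro a k; simp only [hψ]; ring
  have hψ0 : ∀ a k, 0 ≤ ψ a k := by
    intro a k
    simp only [hψ]
    split
    · rename_i hh
      obtain ⟨rfl, rfl | rfl⟩ := hh
      · linarith
      · linarith
    · have := h.nn a k; linarith
  have hind : ∀ a, HasSum (fun k => if a = a1 ∧ (k = 0 ∨ k = 1) then θ else 0)
      (if a = a1 then 2 * θ else 0) := by
    intro a
    by_cases ha : a = a1
    · rw [if_pos ha]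
      have h1 : HasSum (fun k : ℕ => if a = a1 ∧ (k = 0 ∨ k = 1) then θ else 0)
          (∑ k ∈ ({0, 1} : Finset ℕ), if a = a1 ∧ (k = 0 ∨ k = 1) then θ else 0) :=
        hasSum_sum_of_ne_finset_zero (fun k hk => by
          have : ¬ (k = 0 ∨ k = 1) := by simpa using hk
          simp [this])
      convert h1 using 1
      rw [Finset.sum_pair (by norm_num)]
      simp [ha]
      ring
    · simp [ha, hasSum_zero]
  have hsψ : ∀ a, Summable (ψ a) := fun a => (n2_summable h a).sub (hind a).summable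
  have hmar : ∀ a, mar φ a = mar ψ a + if a = a1 then 2 * θ else 0 := by
    intro a
    have h1 := (hsψ a).hasSum.add (hind a)
    have h2 : (fun k => ψ a k + if a = a1 ∧ (k = 0 ∨ k = 1) then θ else 0) = φ a := by
      funext k; rw [← hφψ]
    rw [h2] at h1
    exact h1.tsum_eq
  have hpxψ : ∀ b n, 0 ≤ px ψ b n := fun b n =>
    (n2_hasSum hsψ b n).nonneg fun k => cv_nonneg hψ0 b n k
  have hw0 : ∀ b n j, 0 ≤ n2w ψ θ a1 b n j := by
    intro b n j
    unfold n2w
    refine mul_nonneg (by positivity) ?_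
    split
    · exact hpxψ _ _
    · exact le_rfl
  refine ⟨C * (1 / 2 + 1 / (4 * θ)), a1, by positivity, fun b n k => ?_⟩
  -- first step
  have s1 : cv φ b n k ≤ ∑ j ∈ range (b + 1), C / Real.sqrt (j + 1) * n2w ψ θ a1 b n j := by
    rw [n2_cv hφψ]
    refine Finset.sum_le_sum fun j _ => ?_
    unfold n2w
    by_cases hj : j * a1 ≤ n
    · rw [if_pos hj, if_pos hj]
      have h1 : ∑ q ∈ antidiagonal k, (θ ^ j * (j.choose q.1 : ℝ)) *
          cv ψ (b - j) (n - j * a1) q.2 ≤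
          (θ ^ j * (C * 2 ^ j / Real.sqrt (j + 1))) * px ψ (b - j) (n - j * a1) := by
        calc _ ≤ ∑ q ∈ antidiagonal k, (θ ^ j * (C * 2 ^ j / Real.sqrt (j + 1))) *
              cv ψ (b - j) (n - j * a1) q.2 := by
              refine Finset.sum_le_sum fun q _ => ?_
              refine mul_le_mul_of_nonneg_right ?_ (cv_nonneg hψ0 _ _ _)
              exact mul_le_mul_of_nonneg_left (hch j q.1) (by positivity)
          _ = (θ ^ j * (C * 2 ^ j / Real.sqrt (j + 1))) *
              ∑ q ∈ antidiagonal k, cv ψ (b - j) (n - j * a1) q.2 := by rw [Finset.mul_sum]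
          _ ≤ _ := by
              refine mul_le_mul_of_nonneg_left ?_ (by positivity)
              have e1 : ∑ q ∈ antidiagonal k, cv ψ (b - j) (n - j * a1) q.2 =
                  ∑ i ∈ range (k + 1), cv ψ (b - j) (n - j * a1) i := by
                rw [← Finset.Nat.sum_antidiagonal_swap]
                exact Finset.Nat.sum_antidiagonal_eq_sum_range_succ
                  (fun i _ => cv ψ (b - j) (n - j * a1) i) k
              rw [e1]
              exact sum_le_hasSum _ (fun i _ => cv_nonneg hψ0 _ _ _) (n2_hasSum hsψ _ _)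
      calc (b.choose j : ℝ) * ∑ q ∈ antidiagonal k, (θ ^ j * (j.choose q.1 : ℝ)) *
          cv ψ (b - j) (n - j * a1) q.2 ≤ (b.choose j : ℝ) *
          ((θ ^ j * (C * 2 ^ j / Real.sqrt (j + 1))) * px ψ (b - j) (n - j * a1)) :=
            mul_le_mul_of_nonneg_left h1 (by positivity)
        _ = _ := by rw [mul_pow]; ring
    · rw [if_neg hj, if_neg hj]
      simp
  -- second step
  have s2 : ∑ j ∈ range (b + 1), C / Real.sqrt (j + 1) * n2w ψ θ a1 b n j ≤
      ∑ j ∈ range (b + 1), (C / 2 * (1 / Real.sqrt (b + 1)) * n2w ψ θ a1 b n j +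
        C / 2 * Real.sqrt (b + 1) * (n2w ψ θ a1 b n j * (1 / (j + 1)))) := by
    refine Finset.sum_le_sum fun j _ => ?_
    have h1 := n2_amgm b j
    have h2 := hw0 b n j
    calc C / Real.sqrt (j + 1) * n2w ψ θ a1 b n j
        = C * (1 / Real.sqrt (j + 1)) * n2w ψ θ a1 b n j := by ring
      _ ≤ C * ((1 / Real.sqrt (b + 1) + Real.sqrt (b + 1) * (1 / (j + 1))) / 2) *
          n2w ψ θ a1 b n j := by gcongr
      _ = _ := by ring
  have s3 : ∑ j ∈ range (b + 1), n2w ψ θ a1 b n j * (1 / (j + 1)) ≤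
      1 / (2 * θ * (b + 1)) * px φ (b + 1) (n + a1) := by
    have e1 : ∑ j ∈ range (b + 1), n2w ψ θ a1 b n j * (1 / ((j : ℝ) + 1)) =
        1 / (2 * θ * (b + 1)) * ∑ j ∈ range (b + 1), n2w ψ θ a1 (b + 1) (n + a1) (j + 1) := by
      rw [Finset.mul_sum]
      exact Finset.sum_congr rfl fun j _ => n2w_shift ψ hθ a1 b n j
    rw [e1, n2_px hmar (b + 1) (n + a1)]
    refine mul_le_mul_of_nonneg_left ?_ (by positivity)
    rw [Finset.sum_range_succ' _ (b + 1)]
    have := hw0 (b + 1) (n + a1) 0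
    linarith
  rw [Finset.sum_add_distrib, ← Finset.mul_sum, ← Finset.mul_sum, ← n2_px hmar b n] at s2
  refine (s1.trans s2).trans ?_
  have hb : 0 < Real.sqrt ((b : ℝ) + 1) := Real.sqrt_pos.2 (by positivity)
  have hb2 : Real.sqrt ((b : ℝ) + 1) * Real.sqrt ((b : ℝ) + 1) = b + 1 :=
    Real.mul_self_sqrt (by positivity)
  have p1 := px_nonneg h b n
  have p2 := px_nonneg h (b + 1) (n + a1)
  set s := Real.sqrt ((b : ℝ) + 1) with hs
  calc C / 2 * (1 / s) * px φ b n + C / 2 * s *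
        ∑ j ∈ range (b + 1), n2w ψ θ a1 b n j * (1 / ((j : ℝ) + 1))
      ≤ C / 2 * (1 / s) * px φ b n + C / 2 * s *
        (1 / (2 * θ * (b + 1)) * px φ (b + 1) (n + a1)) := by gcongr
    _ = C / 2 * (1 / s) * px φ b n + C * (1 / (4 * θ)) * (1 / s) * px φ (b + 1) (n + a1) := by
        rw [← hb2]
        field_simp
        ring
    _ ≤ C * (1 / 2 + 1 / (4 * θ)) / s * (px φ b n + px φ (b + 1) (n + a1)) := by
        have e : C * (1 / 2 + 1 / (4 * θ)) / s * (px φ b n + px φ (b + 1) (n + a1)) =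
          (C / 2 * (1 / s) * px φ b n + C * (1 / (4 * θ)) * (1 / s) * px φ (b + 1) (n + a1)) +
          (C * (1 / (4 * θ)) * (1 / s) * px φ b n + C / 2 * (1 / s) * px φ (b + 1) (n + a1)) := by
          ring
        rw [e]
        have : 0 ≤ C * (1 / (4 * θ)) * (1 / s) * px φ b n +
          C / 2 * (1 / s) * px φ (b + 1) (n + a1) := by positivity
        linarith

end Pool.Agent.Helper910.QT
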