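import Mathlib
import Pool.Agent.Helper910.N2

/-! Moments of the first coordinate and the upper bound (MP_4555f0_mp) -/

namespace Pool.Agent.Helper910.QT

open Finset

variable {φ : ℕ → ℕ → ℝ}

/-- mean and variance of the mass of a step -/
noncomputable def mu (φ : ℕ → ℕ → ℝ) : ℝ := ∑' a : ℕ, (a : ℝ) * mar φ a

noncomputable def vx (φ : ℕ → ℕ → ℝ) : ℝ := ∑' a : ℕ, ((a : ℝ) - mu φ) ^ 2 * mar φ a

theorem n3_fiber (h : Law φ) (a : ℕ) : HasSum (fun k => φ a k) (mar φ a) := by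
  obtain ⟨κ, hκ⟩ := h.fin
  have : Summable (fun k => φ a k) := summable_of_ne_finset_zero (s := range (κ * a + 1))
    (fun k hk => hκ a k (by simpa using hk))
  exact this.hasSum

/-- TARGET. -/
theorem mar_hasSum (h : Law φ) : HasSum (mar φ) 1 := h.one.prod_fiberwise (fun a => n3_fiber h a)

theorem n3_mar_nonneg (h : Law φ) (a : ℕ) : 0 ≤ mar φ a := tsum_nonneg (fun k => h.nn a k)

theorem n3_mar_zero (h : Law φ) : mar φ 0 = 0 := by
  unfold mar
  simp [h.zr]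

theorem n3_sum2 (h : Law φ) : Summable (fun a : ℕ => (a : ℝ) ^ 2 * mar φ a) := by
  have h1 := h.sx.hasSum.prod_fiberwise (g := fun a : ℕ => (a : ℝ) ^ 2 * mar φ a)
    (fun a => (n3_fiber h a).mul_left _)
  exact h1.summable

theorem n3_sum1 (h : Law φ) : Summable (fun a : ℕ => (a : ℝ) * mar φ a) := by
  refine Summable.of_nonneg_of_le (fun a => mul_nonneg (Nat.cast_nonneg a) (n3_mar_nonneg h a)) ?_
    (n3_sum2 h)
  intro a
  apply mul_le_mul_of_nonneg_right _ (n3_mar_nonneg h a)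
  have : a ≤ a ^ 2 := Nat.le_self_pow (by norm_num) a
  exact_mod_cast this

theorem n3_mu (h : Law φ) : HasSum (fun a : ℕ => (a : ℝ) * mar φ a) (mu φ) := (n3_sum1 h).hasSum

theorem n3_vx (h : Law φ) : HasSum (fun a : ℕ => ((a : ℝ) - mu φ) ^ 2 * mar φ a) (vx φ) := by
  have h1 : Summable (fun a : ℕ => ((a : ℝ) - mu φ) ^ 2 * mar φ a) := by
    refine (((n3_sum2 h).sub ((n3_sum1 h).mul_left (2 * mu φ))).add
      ((mar_hasSum h).summable.mul_left ((mu φ) ^ 2))).congr ?_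
    intro a
    ring
  exact h1.hasSum

/-- TARGET. -/
theorem one_le_mu (h : Law φ) : 1 ≤ mu φ := by
  refine hasSum_le ?_ (mar_hasSum h) (n3_mu h)
  intro a
  rcases Nat.eq_zero_or_pos a with rfl | ha
  · rw [n3_mar_zero h]
    simp
  · have h1 : (1 : ℝ) ≤ a := by exact_mod_cast ha
    have := mul_le_mul_of_nonneg_right h1 (n3_mar_nonneg h a)
    linarith

/-- TARGET. -/
theorem vx_nonneg (h : Law φ) : 0 ≤ vx φ :=
  tsum_nonneg (fun a => mul_nonneg (sq_nonneg _) (n3_mar_nonneg h a))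

theorem n3_anti {F : ℕ × ℕ → ℝ} {S : ℝ} (hF : HasSum F S) :
    HasSum (fun n => ∑ p ∈ antidiagonal n, F p) S := by
  have h1 : HasSum (fun c : (n : ℕ) × (HasAntidiagonal.antidiagonal n) => F (c.2 : ℕ × ℕ)) S :=
    (Equiv.hasSum_iff HasAntidiagonal.sigmaAntidiagonalEquivProd).2 hF
  apply HasSum.sigma h1
  intro n
  exact Finset.hasSum (HasAntidiagonal.antidiagonal n) F

theorem n3_congr {f g : ℕ → ℝ} {s : ℝ} (h : ∀ n, g n = f n) (hf : HasSum f s) : HasSum g s := by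
  have : g = f := funext h
  rw [this]
  exact hf

/-- moments of a convolution -/
theorem n3_conv {f g : ℕ → ℝ} {m1 v1 m2 v2 : ℝ} (hf0 : ∀ n, 0 ≤ f n) (hg0 : ∀ n, 0 ≤ g n)
    (hf : HasSum f 1) (hg : HasSum g 1) (hf1 : HasSum (fun n : ℕ => (n : ℝ) * f n) m1)
    (hg1 : HasSum (fun n : ℕ => (n : ℝ) * g n) m2)
    (hf2 : HasSum (fun n : ℕ => ((n : ℝ) - m1) ^ 2 * f n) v1)
    (hg2 : HasSum (fun n : ℕ => ((n : ℝ) - m2) ^ 2 * g n) v2) :
    HasSum (fun n : ℕ => ∑ p ∈ antidiagonal n, f p.1 * g p.2) 1 ∧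
      HasSum (fun n : ℕ => (n : ℝ) * ∑ p ∈ antidiagonal n, f p.1 * g p.2) (m1 + m2) ∧
      HasSum (fun n : ℕ => ((n : ℝ) - (m1 + m2)) ^ 2 * ∑ p ∈ antidiagonal n, f p.1 * g p.2)
        (v1 + v2) := by
  have key : ∀ {u v : ℕ → ℝ} {s t : ℝ}, HasSum u s → HasSum v t →
      HasSum (fun p : ℕ × ℕ => u p.1 * v p.2) (s * t) := by
    intro u v s t hu hv
    exact hu.mul hv (summable_mul_of_summable_norm hu.summable.norm hv.summable.norm)
  refine ⟨?_, ?_, ?_⟩
  · have := n3_anti (key hf hg)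
    simpa using this
  · have h1 := n3_anti ((key hf1 hg).add (key hf hg1))
    rw [mul_one, one_mul] at h1
    refine n3_congr ?_ h1
    intro n
    rw [Finset.mul_sum]
    apply Finset.sum_congr rfl
    intro p hp
    rw [HasAntidiagonal.mem_antidiagonal] at hp
    rw [← hp]
    push_cast
    ring
  · have hf3 : HasSum (fun n : ℕ => ((n : ℝ) - m1) * f n) 0 := by
      have := hf1.sub (hf.mul_left m1)
      rw [mul_one, sub_self] at this
      refine n3_congr ?_ this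
      intro n
      ring
    have hg3 : HasSum (fun n : ℕ => ((n : ℝ) - m2) * g n) 0 := by
      have := hg1.sub (hg.mul_left m2)
      rw [mul_one, sub_self] at this
      refine n3_congr ?_ this
      intro n
      ring
    have h1 := n3_anti (((key hf2 hg).add (key hf hg2)).add ((key hf3 hg3).mul_left 2))
    rw [mul_one, one_mul, mul_zero, mul_zero, add_zero] at h1
    refine n3_congr ?_ h1
    intro n
    rw [Finset.mul_sum]
    apply Finset.sum_congr rfl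
    intro p hp
    rw [HasAntidiagonal.mem_antidiagonal] at hp
    rw [← hp]
    push_cast
    ring

theorem n3_px_zero (n : ℕ) : px φ 0 n = if n = 0 then 1 else 0 := by
  unfold px
  rw [pow_zero, PowerSeries.coeff_one]

theorem n3_px_succ (b n : ℕ) :
    px φ (b + 1) n = ∑ p ∈ antidiagonal n, px φ b p.1 * mar φ p.2 := by
  unfold px
  rw [pow_succ, PowerSeries.coeff_mul]
  simp only [PowerSeries.coeff_mk]

/-- TARGET. the law of the sum of `b` steps: total mass, mean and variance (induction on `b`; all series converge absolutely) -/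
theorem px_moments (h : Law φ) (b : ℕ) : HasSum (px φ b) 1 ∧ HasSum (fun n : ℕ => (n : ℝ) * px φ b n) (b * mu φ) ∧
    HasSum (fun n : ℕ => ((n : ℝ) - b * mu φ) ^ 2 * px φ b n) (b * vx φ) := by
  induction b with
  | zero =>
    refine ⟨?_, ?_, ?_⟩
    · have : px φ 0 = fun n => if n = 0 then (1 : ℝ) else 0 := funext n3_px_zero
      rw [this]
      exact hasSum_ite_eq 0 1
    · have : (fun n : ℕ => (n : ℝ) * px φ 0 n) = fun _ => 0 := by
        funext n
        rw [n3_px_zero]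
        by_cases hn : n = 0 <;> simp [hn]
      rw [this]
      simpa using hasSum_zero
    · have : (fun n : ℕ => ((n : ℝ) - (0 : ℕ) * mu φ) ^ 2 * px φ 0 n) = fun _ => 0 := by
        funext n
        rw [n3_px_zero]
        by_cases hn : n = 0 <;> simp [hn]
      rw [this]
      simpa using hasSum_zero
  | succ b ih =>
    obtain ⟨h1, h2, h3⟩ := ih
    obtain ⟨c1, c2, c3⟩ := n3_conv (px_nonneg h b) (n3_mar_nonneg h) h1 (mar_hasSum h) h2
      (n3_mu h) h3 (n3_vx h)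
    have e1 : ((b + 1 : ℕ) : ℝ) * mu φ = b * mu φ + mu φ := by push_cast; ring
    have e2 : ((b + 1 : ℕ) : ℝ) * vx φ = b * vx φ + vx φ := by push_cast; ring
    have e3 : px φ (b + 1) = fun n => ∑ p ∈ antidiagonal n, px φ b p.1 * mar φ p.2 :=
      funext (n3_px_succ b)
    rw [e1, e2, e3]
    exact ⟨c1, c2, c3⟩

/-- TARGET. Chebyshev at one point: `(n - b mu)^2 px b n ≤ b vx` -/
theorem px_cheb (h : Law φ) (b n : ℕ) : ((n : ℝ) - b * mu φ) ^ 2 * px φ b n ≤ b * vx φ :=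
  le_hasSum (px_moments h b).2.2 n (fun j _ => mul_nonneg (sq_nonneg _) (px_nonneg h b j))

/-- TARGET. renewal: a sum of steps `≥ 1` hits `n` at most once. By induction on `n`: `u n = Σ_{b ≤ n} px b n` satisfies `u n = 1[n = 0] + Σ_{a=1}^n mar a · u (n - a)`, and
`Σ mar = 1` (see `ren_sum_le` in A2.lean for polynomials) -/
theorem px_renew (h : Law φ) (n B : ℕ) : ∑ b ∈ range B, px φ b n ≤ 1 := by
  induction B generalizing n with
  | zero => simp
  | succ B ih =>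
    rw [Finset.sum_range_succ', n3_px_zero]
    have e1 : ∑ b ∈ range B, px φ (b + 1) n =
        ∑ p ∈ antidiagonal n, (∑ b ∈ range B, px φ b p.1) * mar φ p.2 := by
      rw [Finset.sum_congr rfl (fun b _ => n3_px_succ b n), Finset.sum_comm]
      apply Finset.sum_congr rfl
      intro p _
      rw [Finset.sum_mul]
    rw [e1]
    rcases Nat.eq_zero_or_pos n with rfl | hn
    · simp [n3_mar_zero h]
    · rw [if_neg (by omega), add_zero]
      calc ∑ p ∈ antidiagonal n, (∑ b ∈ range B, px φ b p.1) * mar φ p.2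
          ≤ ∑ p ∈ antidiagonal n, mar φ p.2 := by
            apply Finset.sum_le_sum
            intro p _
            have := mul_le_mul_of_nonneg_right (ih p.1) (n3_mar_nonneg h p.2)
            linarith
        _ = ∑ a ∈ range (n + 1), mar φ a := by
            rw [Finset.Nat.sum_antidiagonal_eq_sum_range_succ_mk]
            exact Finset.sum_range_reflect (fun a => mar φ a) (n + 1)
        _ ≤ 1 := sum_le_hasSum _ (fun a _ => n3_mar_nonneg h a) (mar_hasSum h)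

theorem n3_inv_sqrt (n : ℕ) : ∑ b ∈ Icc 1 n, 1 / Real.sqrt b ≤ 2 * Real.sqrt n := by
  induction n with
  | zero => simp
  | succ n ih =>
    rw [Finset.sum_Icc_succ_top (by omega)]
    have h1 : (1 : ℝ) / Real.sqrt ((n + 1 : ℕ) : ℝ) ≤
        2 * Real.sqrt ((n + 1 : ℕ) : ℝ) - 2 * Real.sqrt n := by
      have hp : 0 < Real.sqrt ((n + 1 : ℕ) : ℝ) := Real.sqrt_pos.2 (by positivity)
      have hq : 0 ≤ Real.sqrt (n : ℝ) := Real.sqrt_nonneg _
      have hp2 : Real.sqrt ((n + 1 : ℕ) : ℝ) ^ 2 = n + 1 := by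
        rw [Real.sq_sqrt (by positivity)]
        push_cast
        ring
      have hq2 : Real.sqrt (n : ℝ) ^ 2 = n := Real.sq_sqrt (by positivity)
      rw [div_le_iff₀ hp]
      nlinarith [sq_nonneg (Real.sqrt ((n + 1 : ℕ) : ℝ) - Real.sqrt n)]
    linarith

theorem n3_wt_pos {n : ℕ} (hn : 1 ≤ n) : 0 < wt n := by
  have : (0 : ℝ) < n := by exact_mod_cast hn
  unfold wt
  positivity

theorem n3_wt_nonneg (n : ℕ) : 0 ≤ wt n := by
  unfold wt
  positivity

theorem n3_big {C ε : ℝ} (hC : 0 < C) (hε0 : 0 < ε) {b n : ℕ} (hb : 1 ≤ b) (hn : 1 ≤ n)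
    (hbig : ε * n ≤ b) :
    (1 / (b : ℝ)) * (C / Real.sqrt (b + 1)) ≤ C / (ε * Real.sqrt ε * wt n) := by
  have hbR : (0 : ℝ) < b := by exact_mod_cast hb
  have hw := n3_wt_pos hn
  have hs : 0 < Real.sqrt ε := Real.sqrt_pos.2 hε0
  rw [div_mul_div_comm, one_mul]
  apply div_le_div_of_nonneg_left hC.le
  · exact mul_pos (mul_pos hε0 hs) hw
  · have h3 : Real.sqrt ε * Real.sqrt n ≤ Real.sqrt ((b : ℝ) + 1) := by
      rw [← Real.sqrt_mul hε0.le]
      apply Real.sqrt_le_sqrt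
      linarith
    calc ε * Real.sqrt ε * wt n = (ε * n) * (Real.sqrt ε * Real.sqrt n) := by
          unfold wt
          ring
      _ ≤ b * Real.sqrt (b + 1) :=
          mul_le_mul hbig h3 (mul_nonneg hs.le (Real.sqrt_nonneg _)) hbR.le

theorem n3_small_px (h : Law φ) {b n a1 : ℕ} (hn : 1 ≤ n) (hbm : b * mu φ ≤ n / 4)
    (hn4 : 4 * mu φ ≤ n) :
    px φ b n + px φ (b + 1) (n + a1) ≤ 8 * (b + 1) * vx φ / (n : ℝ) ^ 2 := by
  have hnR : (0 : ℝ) < n := by exact_mod_cast hn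
  have hn2 : (0 : ℝ) < (n : ℝ) ^ 2 := pow_pos hnR 2
  have hvx := vx_nonneg h
  have h2 : px φ b n * (n : ℝ) ^ 2 ≤ 4 * b * vx φ := by
    have h3 := px_cheb h b n
    have h4 : ((n : ℝ) / 2) ^ 2 ≤ ((n : ℝ) - b * mu φ) ^ 2 := by
      apply pow_le_pow_left₀ (by linarith)
      linarith
    have h5 := mul_le_mul_of_nonneg_right h4 (px_nonneg h b n)
    have h6 : ((n : ℝ) / 2) ^ 2 * px φ b n = px φ b n * (n : ℝ) ^ 2 / 4 := by ring
    linarith
  have h3 : px φ (b + 1) (n + a1) * (n : ℝ) ^ 2 ≤ 4 * (b + 1) * vx φ := by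
    have h3 := px_cheb h (b + 1) (n + a1)
    have h4 : ((n : ℝ) / 2) ^ 2 ≤
        (((n + a1 : ℕ) : ℝ) - ((b + 1 : ℕ) : ℝ) * mu φ) ^ 2 := by
      apply pow_le_pow_left₀ (by linarith)
      have : (0 : ℝ) ≤ a1 := Nat.cast_nonneg _
      push_cast
      linarith
    have h5 := mul_le_mul_of_nonneg_right h4 (px_nonneg h (b + 1) (n + a1))
    have h6 : ((n : ℝ) / 2) ^ 2 * px φ (b + 1) (n + a1) =
        px φ (b + 1) (n + a1) * (n : ℝ) ^ 2 / 4 := by ring
    have h7 : ((b + 1 : ℕ) : ℝ) * vx φ = (b + 1) * vx φ := by push_cast; ring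
    linarith
  rw [le_div_iff₀ hn2, add_mul]
  linarith

theorem n3_small_coef {C V : ℝ} (hC : 0 < C) (hV : 0 ≤ V) {b n : ℕ} (hb : 1 ≤ b) (hn : 1 ≤ n) :
    (1 / (b : ℝ)) * (C / Real.sqrt (b + 1)) * (8 * (b + 1) * V / (n : ℝ) ^ 2) ≤
      16 * C * V / (n : ℝ) ^ 2 * (1 / Real.sqrt b) := by
  have hbR : (0 : ℝ) < b := by exact_mod_cast hb
  have hb1 : (1 : ℝ) ≤ b := by exact_mod_cast hb
  have hnR : (0 : ℝ) < n := by exact_mod_cast hn
  have hsb : 0 < Real.sqrt (b : ℝ) := Real.sqrt_pos.2 hbR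
  have hsb1 : 0 < Real.sqrt ((b : ℝ) + 1) := Real.sqrt_pos.2 (by linarith)
  have e1 : ((b : ℝ) + 1) = Real.sqrt (b + 1) * Real.sqrt (b + 1) :=
    (Real.mul_self_sqrt (by linarith)).symm
  have e2 : (b : ℝ) = Real.sqrt b * Real.sqrt b := (Real.mul_self_sqrt hbR.le).symm
  have h6 : Real.sqrt ((b : ℝ) + 1) ≤ 2 * Real.sqrt b := by
    apply Real.sqrt_le_iff.2
    refine ⟨by linarith, ?_⟩
    have : (2 * Real.sqrt (b : ℝ)) ^ 2 = 4 * b := by
      rw [mul_pow, Real.sq_sqrt hbR.le]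
      ring
    rw [this]
    linarith
  have e4 : ((b : ℝ) + 1) / Real.sqrt (b + 1) = Real.sqrt (b + 1) := by
    rw [div_eq_iff hsb1.ne']
    exact e1
  have e3 : (1 / (b : ℝ)) * (C / Real.sqrt (b + 1)) * (8 * (b + 1) * V / (n : ℝ) ^ 2) =
      8 * C * V / (n : ℝ) ^ 2 * (Real.sqrt (b + 1) / b) := by
    calc (1 / (b : ℝ)) * (C / Real.sqrt (b + 1)) * (8 * (b + 1) * V / (n : ℝ) ^ 2)
        = 8 * C * V / (n : ℝ) ^ 2 * (((b : ℝ) + 1) / Real.sqrt (b + 1) / b) := by ring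
      _ = _ := by rw [e4]
  rw [e3]
  have h7 : Real.sqrt ((b : ℝ) + 1) / b ≤ 2 * (1 / Real.sqrt b) := by
    rw [div_le_iff₀ hbR]
    have e5 : 1 / Real.sqrt (b : ℝ) * b = Real.sqrt b := by
      rw [one_div_mul_eq_div, div_eq_iff hsb.ne']
      exact e2
    rw [mul_assoc, e5]
    exact h6
  calc 8 * C * V / (n : ℝ) ^ 2 * (Real.sqrt (b + 1) / b)
      ≤ 8 * C * V / (n : ℝ) ^ 2 * (2 * (1 / Real.sqrt b)) := by
        apply mul_le_mul_of_nonneg_left h7
        exact div_nonneg (mul_nonneg (by linarith) hV) (by positivity)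
    _ = _ := by ring

theorem n3_term (h : Law φ) {C : ℝ} {a1 : ℕ} (hC : 0 < C)
    (hcv : ∀ b n k : ℕ, cv φ b n k ≤ C / Real.sqrt (b + 1) * (px φ b n + px φ (b + 1) (n + a1)))
    {n : ℕ} (hn : 1 ≤ n) (hn4 : 4 * mu φ ≤ n) {ε : ℝ} (hε : ε = 1 / (4 * mu φ)) {b : ℕ}
    (hb : 1 ≤ b) : (1 / (b : ℝ)) * cv φ b n (b - 1) ≤
      C / (ε * Real.sqrt ε * wt n) * (px φ b n + px φ (b + 1) (n + a1)) +
        16 * C * vx φ / (n : ℝ) ^ 2 * (1 / Real.sqrt b) := by
  have hmu := one_le_mu h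
  have hvx := vx_nonneg h
  have hε0 : 0 < ε := by rw [hε]; positivity
  have hbR : (0 : ℝ) < b := by exact_mod_cast hb
  have hnR : (0 : ℝ) < n := by exact_mod_cast hn
  have hw := n3_wt_pos hn
  have hs : 0 < Real.sqrt ε := Real.sqrt_pos.2 hε0
  have hsb : 0 ≤ Real.sqrt (b : ℝ) := Real.sqrt_nonneg _
  have hp0 : 0 ≤ px φ b n + px φ (b + 1) (n + a1) :=
    add_nonneg (px_nonneg h _ _) (px_nonneg h _ _)
  have h1 : (1 / (b : ℝ)) * cv φ b n (b - 1) ≤
      (1 / (b : ℝ)) * (C / Real.sqrt (b + 1)) * (px φ b n + px φ (b + 1) (n + a1)) := by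
    rw [mul_assoc]
    exact mul_le_mul_of_nonneg_left (hcv b n (b - 1)) (by positivity)
  have n1 : 0 ≤ 16 * C * vx φ / (n : ℝ) ^ 2 * (1 / Real.sqrt b) :=
    mul_nonneg (div_nonneg (mul_nonneg (by linarith) hvx) (by positivity)) (by positivity)
  have n2 : 0 ≤ C / (ε * Real.sqrt ε * wt n) * (px φ b n + px φ (b + 1) (n + a1)) :=
    mul_nonneg (div_nonneg hC.le (by positivity)) hp0
  rcases le_or_gt (ε * n) b with hbig | hsmall
  · have h2 := mul_le_mul_of_nonneg_right (n3_big hC hε0 hb hn hbig) hp0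
    linarith
  · have hbm : b * mu φ ≤ n / 4 := by
      have h3 : ε * n * mu φ = n / 4 := by
        rw [hε]
        field_simp
      rw [← h3]
      exact mul_le_mul_of_nonneg_right hsmall.le (by linarith)
    have h4 := mul_le_mul_of_nonneg_left (n3_small_px (a1 := a1) h hn hbm hn4)
      (show 0 ≤ (1 / (b : ℝ)) * (C / Real.sqrt (b + 1)) by positivity)
    have h5 := n3_small_coef hC hvx hb hn
    linarith

theorem n3_renew1 (h : Law φ) (n : ℕ) : ∑ b ∈ Icc 1 n, px φ b n ≤ 1 := by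
  refine le_trans ?_ (px_renew h n (n + 1))
  apply Finset.sum_le_sum_of_subset_of_nonneg
  · intro b hb
    rw [Finset.mem_Icc] at hb
    exact Finset.mem_range.2 (by omega)
  · intro b _ _
    exact px_nonneg h _ _

theorem n3_renew2 (h : Law φ) (n m : ℕ) : ∑ b ∈ Icc 1 n, px φ (b + 1) m ≤ 1 := by
  refine le_trans ?_ (px_renew h m (n + 2))
  rw [Finset.sum_range_succ' _ (n + 1)]
  have h1 : ∑ b ∈ Icc 1 n, px φ (b + 1) m ≤ ∑ b ∈ range (n + 1), px φ (b + 1) m := by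
    apply Finset.sum_le_sum_of_subset_of_nonneg
    · intro b hb
      rw [Finset.mem_Icc] at hb
      exact Finset.mem_range.2 (by omega)
    · intro b _ _
      exact px_nonneg h _ _
  have h0 := px_nonneg h 0 m
  linarith

theorem n3_main (h : Law φ) {y : ℕ → ℝ} (hy : Prog φ y) {C : ℝ} {a1 : ℕ} (hC : 0 < C)
    (hcv : ∀ b n k : ℕ, cv φ b n k ≤ C / Real.sqrt (b + 1) * (px φ b n + px φ (b + 1) (n + a1)))
    {n : ℕ} (hn : 1 ≤ n) (hn4 : 4 * mu φ ≤ n) {ε : ℝ} (hε : ε = 1 / (4 * mu φ)) :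
    y n ≤ C / (ε * Real.sqrt ε * wt n) * 2 +
        16 * C * vx φ / (n : ℝ) ^ 2 * (2 * Real.sqrt n) := by
  have hmu := one_le_mu h
  have hvx := vx_nonneg h
  have hε0 : 0 < ε := by rw [hε]; positivity
  have hw := n3_wt_pos hn
  rw [hit_one h.zr hy n hn]
  refine (Finset.sum_le_sum (fun b hb => n3_term h hC hcv hn hn4 hε
    (Finset.mem_Icc.1 hb).1)).trans ?_
  rw [Finset.sum_add_distrib, ← Finset.mul_sum, ← Finset.mul_sum, Finset.sum_add_distrib]
  apply add_le_add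
  · apply mul_le_mul_of_nonneg_left _ (div_nonneg hC.le (by positivity))
    have h1 := n3_renew1 h n
    have h2 := n3_renew2 h n (n + a1)
    linarith
  · exact mul_le_mul_of_nonneg_left (n3_inv_sqrt n)
      (div_nonneg (mul_nonneg (by linarith) hvx) (by positivity))

theorem n3_fin {C V ε : ℝ} (hε0 : 0 < ε) {n : ℕ} (hn : 1 ≤ n) :
    (C / (ε * Real.sqrt ε * wt n) * 2 +
        16 * C * V / (n : ℝ) ^ 2 * (2 * Real.sqrt n)) * wt n =
      2 * C / (ε * Real.sqrt ε) + 32 * C * V := by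
  have hnR : (0 : ℝ) < n := by exact_mod_cast hn
  have hw := n3_wt_pos hn
  have hs : 0 < Real.sqrt ε := Real.sqrt_pos.2 hε0
  have hsn2 : Real.sqrt (n : ℝ) * Real.sqrt n = n := Real.mul_self_sqrt hnR.le
  rw [add_mul]
  congr 1
  · field_simp
  · unfold wt
    calc 16 * C * V / (n : ℝ) ^ 2 * (2 * Real.sqrt n) * (n * Real.sqrt n)
        = 32 * C * V / (n : ℝ) ^ 2 * (n * (Real.sqrt n * Real.sqrt n)) := by ring
      _ = _ := by
          rw [hsn2]
          field_simp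

/-- TARGET. The upper bound. `y n = Σ_{b=1}^n (1/b) cv b n (b-1) ≤ Σ_b (C/(b sqrt(b+1))) (px b n + px (b+1) (n+a1))` (`hit_one`, `cv_upper`). Let `ε = 1/(4 mu)`. For `b ≥ ε n` the coefficient is
`≤ C (ε n)^(-3/2)` and the sums of `px` are `≤ 1` (`px_renew`). For `b < ε n` and `n` large, `n - b mu ≥ n/2` and `n + a1 - (b+1) mu ≥ n/2`, so `px ≤ 4 (b+1) vx / n^2` and
`Σ_{b < ε n} (C/(b sqrt b)) (b+1) 4 vx/n^2 ≤ C' sqrt n / n^2`. For the finitely many small `n` enlarge the constant. -/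
theorem prog_upper (h : Law φ) {y : ℕ → ℝ} (hy : Prog φ y) : ∃ C : ℝ, 0 < C ∧ ∀ n : ℕ, 1 ≤ n → y n ≤ C / wt n := by
  obtain ⟨C, a1, hC, hcv⟩ := cv_upper h
  have hmu := one_le_mu h
  have hvx := vx_nonneg h
  obtain ⟨ε, hε⟩ : ∃ ε : ℝ, ε = 1 / (4 * mu φ) := ⟨_, rfl⟩
  have hε0 : 0 < ε := by rw [hε]; positivity
  have hs : 0 < Real.sqrt ε := Real.sqrt_pos.2 hε0
  obtain ⟨D, hD⟩ : ∃ D : ℝ, D = 2 * C / (ε * Real.sqrt ε) + 32 * C * vx φ := ⟨_, rfl⟩
  have hD0 : 0 < D := by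
    rw [hD]
    have h1 : 0 < 2 * C / (ε * Real.sqrt ε) := by positivity
    have h2 : 0 ≤ 32 * C * vx φ := mul_nonneg (by linarith) hvx
    linarith
  obtain ⟨N0, hN0⟩ := exists_nat_gt (4 * mu φ)
  have hS : 0 ≤ ∑ n ∈ range N0, |y n| * wt n :=
    Finset.sum_nonneg (fun n _ => mul_nonneg (abs_nonneg _) (n3_wt_nonneg n))
  refine ⟨D + ∑ n ∈ range N0, |y n| * wt n, by linarith, ?_⟩
  intro n hn
  have hw := n3_wt_pos hn
  rw [le_div_iff₀ hw]
  rcases lt_or_ge n N0 with hlt | hge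
  · have h1 : |y n| * wt n ≤ ∑ n ∈ range N0, |y n| * wt n :=
      Finset.single_le_sum (f := fun n => |y n| * wt n)
        (fun n _ => mul_nonneg (abs_nonneg _) (n3_wt_nonneg n)) (Finset.mem_range.2 hlt)
    have h2 : y n * wt n ≤ |y n| * wt n := mul_le_mul_of_nonneg_right (le_abs_self _) hw.le
    linarith
  · have hn4 : 4 * mu φ ≤ n := by
      have : (N0 : ℝ) ≤ n := by exact_mod_cast hge
      linarith
    have h1 := mul_le_mul_of_nonneg_right (n3_main h hy hC hcv hn hn4 hε) hw.le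
    rw [n3_fin hε0 hn, ← hD] at h1
    linarith

end Pool.Agent.Helper910.QT
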