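import Mathlib
import Pool.Agent.Helper910.N3
import Pool.Agent.Helper910.A1

/-! Lower bound (MP_4555f0_mp) -/

namespace Pool.Agent.Helper910.QT

open Finset MeasureTheory ProbabilityTheory

variable {φ : ℕ → ℕ → ℝ}

/-- labels: two counters of fair steps and a mass vector -/
abbrev N4M := ℕ × ℕ × ℕ × ℕ

noncomputable def n4g (j m : ℕ) : PowerSeries ℝ := PowerSeries.X ^ m * (PowerSeries.C (1 / 2) * (1 + PowerSeries.X)) ^ j

theorem n4g_add (j m j' m' : ℕ) : n4g (j + j') (m + m') = n4g j m * n4g j' m' := by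
  unfold n4g; ring

theorem n4_one_add_X_coeff (j i : ℕ) : PowerSeries.coeff i ((1 + PowerSeries.X : PowerSeries ℝ) ^ j) = (j.choose i : ℝ) := by
  have : ((1 + PowerSeries.X : PowerSeries ℝ) ^ j) = (((1 + Polynomial.X : Polynomial ℝ) ^ j : Polynomial ℝ) : PowerSeries ℝ) := by
    push_cast; rfl
  rw [this, Polynomial.coeff_coe, Polynomial.coeff_one_add_X_pow]

theorem n4_bp_half (j i : ℕ) : bp (1 / 2) j i = (j.choose i : ℝ) * (1 / 2) ^ j := by
  unfold bp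
  rcases Nat.lt_or_ge j i with h | h
  · rw [Nat.choose_eq_zero_of_lt h]; simp
  · have : (1 - 1 / 2 : ℝ) = 1 / 2 := by norm_num
    rw [this, mul_assoc, ← pow_add, Nat.add_sub_cancel' h]

theorem n4g_coeff (j m n : ℕ) : PowerSeries.coeff n (n4g j m) = if m ≤ n then bp (1 / 2) j (n - m) else 0 := by
  unfold n4g
  rw [PowerSeries.coeff_X_pow_mul']
  split_ifs with h
  · rw [mul_pow, ← map_pow, PowerSeries.coeff_C_mul, n4_one_add_X_coeff, n4_bp_half, mul_comm]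
  · rfl

theorem n4g_nonneg (j m n : ℕ) : 0 ≤ PowerSeries.coeff n (n4g j m) := by
  rw [n4g_coeff]; split_ifs
  · exact bp_nonneg (by norm_num) (by norm_num) _ _
  · exact le_rfl

theorem n4g_le_one (j m n : ℕ) : PowerSeries.coeff n (n4g j m) ≤ 1 := by
  rw [n4g_coeff]; split_ifs
  · rcases Nat.lt_or_ge j (n - m) with h | h
    · rw [n4_bp_half, Nat.choose_eq_zero_of_lt h]; simp
    · have hm : n - m ∈ Finset.range (j + 1) := Finset.mem_range.2 (by omega)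
      exact (Finset.single_le_sum (f := fun b => bp (1 / 2) j b) (fun b _ => bp_nonneg (by norm_num) (by norm_num) _ _) hm).trans
        (bp_sum (1 / 2) j).le
  · exact zero_le_one

noncomputable def n4K (x : N4M) (n k : ℕ) : ℝ := PowerSeries.coeff n (n4g x.1 x.2.2.1) * PowerSeries.coeff k (n4g x.2.1 x.2.2.2)

theorem n4K_nonneg (x : N4M) (n k : ℕ) : 0 ≤ n4K x n k := mul_nonneg (n4g_nonneg _ _ _) (n4g_nonneg _ _ _)

theorem n4K_le_one (x : N4M) (n k : ℕ) : n4K x n k ≤ 1 :=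
  mul_le_one₀ (n4g_le_one _ _ _) (n4g_nonneg _ _ _) (n4g_le_one _ _ _)

theorem n4K_add (x y : N4M) (n k : ℕ) : n4K (x + y) n k =
    ∑ p ∈ antidiagonal n, ∑ q ∈ antidiagonal k, n4K x p.1 q.1 * n4K y p.2 q.2 := by
  unfold n4K
  simp only [Prod.fst_add, Prod.snd_add]
  rw [n4g_add, n4g_add, PowerSeries.coeff_mul, PowerSeries.coeff_mul, Finset.sum_mul_sum]
  refine Finset.sum_congr rfl fun p _ => Finset.sum_congr rfl fun q _ => ?_
  ring

/-- the law of labels -/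
noncomputable def n4P (θ : ℝ) (x0 x1 : N4M) (R : ℕ × ℕ → ℝ) : Measure N4M :=
  ENNReal.ofReal θ • Measure.dirac x0 + ENNReal.ofReal θ • Measure.dirac x1 +
    Measure.sum (fun p : ℕ × ℕ => ENNReal.ofReal (R p) • Measure.dirac ((0, 0, p.1, p.2) : N4M))

theorem n4P_int {θ : ℝ} (hθ : 0 ≤ θ) (x0 x1 : N4M) {R : ℕ × ℕ → ℝ} (hR : ∀ p, 0 ≤ R p) (f : N4M → ℝ)
    (hf : Summable (fun p : ℕ × ℕ => R p * |f (0, 0, p.1, p.2)|)) :
    Integrable f (n4P θ x0 x1 R) ∧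
      ∫ x, f x ∂(n4P θ x0 x1 R) = θ * f x0 + θ * f x1 + ∑' p : ℕ × ℕ, R p * f (0, 0, p.1, p.2) := by
  have i0 : ∀ x : N4M, Integrable f (Measure.dirac x) := fun x => integrable_dirac (by simp)
  have i1 : Integrable f (Measure.sum (fun p : ℕ × ℕ => ENNReal.ofReal (R p) • Measure.dirac ((0, 0, p.1, p.2) : N4M))) := by
    rw [integrable_sum_measure_iff]
    refine ⟨fun p => (i0 _).smul_measure ENNReal.ofReal_ne_top, ?_⟩
    convert hf using 2 with p
    rw [integral_smul_measure, integral_dirac, ENNReal.toReal_ofReal (hR p), smul_eq_mul, Real.norm_eq_abs]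
  have i2 : ∀ x : N4M, Integrable f (ENNReal.ofReal θ • Measure.dirac x) := fun x => (i0 x).smul_measure ENNReal.ofReal_ne_top
  unfold n4P
  refine ⟨((i2 x0).add_measure (i2 x1)).add_measure i1, ?_⟩
  rw [integral_add_measure ((i2 x0).add_measure (i2 x1)) i1, integral_add_measure (i2 x0) (i2 x1),
    integral_smul_measure, integral_smul_measure, integral_dirac, integral_dirac, ENNReal.toReal_ofReal hθ,
    ← (hasSum_integral_measure i1).tsum_eq]
  congr 2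
  ext p
  rw [integral_smul_measure, integral_dirac, ENNReal.toReal_ofReal (hR p), smul_eq_mul]

theorem n4P_prob {θ : ℝ} (hθ : 0 ≤ θ) (x0 x1 : N4M) {R : ℕ × ℕ → ℝ} (hR : ∀ p, 0 ≤ R p) (hs : HasSum R (1 - 2 * θ)) :
    IsProbabilityMeasure (n4P θ x0 x1 R) := by
  constructor
  unfold n4P
  rw [Measure.add_apply, Measure.add_apply, Measure.smul_apply, Measure.smul_apply, Measure.sum_apply _ MeasurableSet.univ]
  simp only [Measure.smul_apply, Measure.dirac_apply_of_mem (Set.mem_univ _), smul_eq_mul, mul_one]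
  rw [← ENNReal.ofReal_tsum_of_nonneg hR hs.summable, hs.tsum_eq, ← ENNReal.ofReal_add hθ hθ, ← ENNReal.ofReal_add (by linarith)]
  · rw [← ENNReal.ofReal_one]; congr 1; ring
  · rw [← hs.tsum_eq]; exact tsum_nonneg hR

/-- the decomposition data -/
structure N4D (φ : ℕ → ℕ → ℝ) (θ : ℝ) (x0 x1 : N4M) (R : ℕ × ℕ → ℝ) : Prop where
  pos : 0 < θ
  nn : ∀ p, 0 ≤ R p
  eq : ∀ n k, φ n k = θ * n4K x0 n k + θ * n4K x1 n k + R (n, k)
  sm : HasSum R (1 - 2 * θ)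

theorem n4K_zero (m i n k : ℕ) : n4K (0, 0, m, i) n k = if (m, i) = (n, k) then 1 else 0 := by
  unfold n4K n4g
  simp only [pow_zero, mul_one, PowerSeries.coeff_X_pow]
  by_cases h1 : m = n
  · subst h1
    by_cases h2 : i = k
    · subst h2; simp
    · rw [if_neg (fun h : k = i => h2 h.symm), if_neg (fun h => h2 (Prod.ext_iff.1 h).2), mul_zero]
  · rw [if_neg (fun h : n = m => h1 h.symm), if_neg (fun h => h1 (Prod.ext_iff.1 h).1), zero_mul]

theorem n4_one {φ : ℕ → ℕ → ℝ} {θ : ℝ} {x0 x1 : N4M} {R : ℕ × ℕ → ℝ} (d : N4D φ θ x0 x1 R) (n k : ℕ) :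
    Integrable (fun x => n4K x n k) (n4P θ x0 x1 R) ∧ ∫ x, n4K x n k ∂(n4P θ x0 x1 R) = φ n k := by
  have hs : Summable (fun p : ℕ × ℕ => R p * |n4K (0, 0, p.1, p.2) n k|) := by
    refine Summable.of_nonneg_of_le (fun p => mul_nonneg (d.nn p) (abs_nonneg _)) (fun p => ?_) d.sm.summable
    rw [abs_of_nonneg (n4K_nonneg _ _ _)]
    exact mul_le_of_le_one_right (d.nn p) (n4K_le_one _ _ _)
  obtain ⟨h1, h2⟩ := n4P_int d.pos.le x0 x1 d.nn (fun x => n4K x n k) hs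
  refine ⟨h1, ?_⟩
  rw [h2, d.eq n k]
  congr 1
  rw [tsum_eq_single (n, k)]
  · rw [n4K_zero]; simp
  · intro p hp
    rw [n4K_zero, if_neg (by simpa using hp), mul_zero]

theorem n4_bdd_int {Ω : Type*} [MeasurableSpace Ω] (μ : Measure Ω) [IsFiniteMeasure μ] {f : Ω → ℝ} (hm : Measurable f)
    (h0 : ∀ x, 0 ≤ f x) (h1 : ∀ x, f x ≤ 1) : Integrable f μ :=
  Integrable.of_bound hm.aestronglyMeasurable 1 (Filter.Eventually.of_forall fun x => by
    rw [Real.norm_of_nonneg (h0 x)]; exact h1 x)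

/-- the representation of the law of the sum -/
theorem n4_rep {φ : ℕ → ℕ → ℝ} {θ : ℝ} {x0 x1 : N4M} {R : ℕ × ℕ → ℝ} (d : N4D φ θ x0 x1 R) (b n k : ℕ) :
    cv φ b n k = ∫ ω : Fin b → N4M, n4K (∑ i, ω i) n k ∂(Measure.pi (fun _ => n4P θ x0 x1 R)) := by
  have := n4P_prob d.pos.le x0 x1 d.nn d.sm
  induction b generalizing n k with
  | zero =>
    have : ∀ ω : Fin 0 → N4M, n4K (∑ i, ω i) n k = if (0, 0) = (n, k) then 1 else 0 := by
      intro ω
      rw [← n4K_zero]; congr 1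
    simp only [this, integral_const, probReal_univ, one_smul]
    unfold cv
    rw [pow_zero, PowerSeries.coeff_one]
    by_cases h1 : n = 0
    · rw [if_pos h1, PowerSeries.coeff_one]
      by_cases h2 : k = 0
      · simp [h1, h2]
      · rw [if_neg h2, if_neg]; simpa [h1, eq_comm] using h2
    · rw [if_neg h1, if_neg]
      · simp
      · simp only [Prod.mk.injEq, not_and]; intro h; exact absurd h.symm h1
  | succ b ih =>
    rw [cv_succ]
    have e1 : ∫ ω : Fin (b + 1) → N4M, n4K (∑ i, ω i) n k ∂(Measure.pi (fun _ => n4P θ x0 x1 R)) =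
        ∫ z : N4M × (Fin b → N4M), n4K (z.1 + ∑ i, z.2 i) n k
          ∂((n4P θ x0 x1 R).prod (Measure.pi (fun _ => n4P θ x0 x1 R))) := by
      rw [← ((measurePreserving_piFinSuccAbove (fun _ => n4P θ x0 x1 R) 0).symm).integral_comp']
      simp_rw [MeasurableEquiv.piFinSuccAbove_symm_apply, Fin.insertNthEquiv,
            Fin.sum_univ_succ, Fin.insertNth_zero, Equiv.coe_fn_mk, Fin.cons_succ,
            Fin.cons_zero, cast_eq]
    rw [e1]
    have e2 : ∀ z : N4M × (Fin b → N4M), n4K (z.1 + ∑ i, z.2 i) n k =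
        ∑ p ∈ antidiagonal n, ∑ q ∈ antidiagonal k, n4K z.1 p.1 q.1 * n4K (∑ i, z.2 i) p.2 q.2 :=
      fun z => n4K_add _ _ _ _
    simp only [e2]
    have i1 : ∀ (p q : ℕ × ℕ), Integrable (fun z : N4M × (Fin b → N4M) => n4K z.1 p.1 q.1 * n4K (∑ i, z.2 i) p.2 q.2)
        ((n4P θ x0 x1 R).prod (Measure.pi (fun _ => n4P θ x0 x1 R))) := by
      intro p q
      refine n4_bdd_int _ ?_ (fun z => mul_nonneg (n4K_nonneg _ _ _) (n4K_nonneg _ _ _))
        (fun z => mul_le_one₀ (n4K_le_one _ _ _) (n4K_nonneg _ _ _) (n4K_le_one _ _ _))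
      exact measurable_of_countable _
    rw [integral_finsetSum _ (fun p _ => integrable_finsetSum _ fun q _ => i1 p q)]
    refine Finset.sum_congr rfl fun p _ => ?_
    rw [integral_finsetSum _ (fun q _ => i1 p q)]
    refine Finset.sum_congr rfl fun q _ => ?_
    rw [integral_prod_mul (fun x => n4K x p.1 q.1) (fun y : Fin b → N4M => n4K (∑ i, y i) p.2 q.2), (n4_one d _ _).2, ih]

/-- linear functionals of labels -/
noncomputable def n4L (c : ℝ × ℝ × ℝ × ℝ) (x : N4M) : ℝ :=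
  c.1 * (x.1 : ℝ) + c.2.1 * (x.2.1 : ℝ) + c.2.2.1 * (x.2.2.1 : ℝ) + c.2.2.2 * (x.2.2.2 : ℝ)

theorem n4L_sum (c : ℝ × ℝ × ℝ × ℝ) {b : ℕ} (ω : Fin b → N4M) : n4L c (∑ i, ω i) = ∑ i, n4L c (ω i) := by
  unfold n4L
  rw [Prod.fst_sum, Prod.snd_sum, Prod.fst_sum, Prod.snd_sum, Prod.fst_sum, Prod.snd_sum]
  push_cast
  simp only [Finset.sum_add_distrib, Finset.mul_sum]

theorem n4L_memLp {φ : ℕ → ℕ → ℝ} {θ : ℝ} {x0 x1 : N4M} {R : ℕ × ℕ → ℝ} (d : N4D φ θ x0 x1 R)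
    (s1 : Summable (fun p : ℕ × ℕ => (p.1 : ℝ) ^ 2 * R p)) (s2 : Summable (fun p : ℕ × ℕ => (p.2 : ℝ) ^ 2 * R p))
    (c : ℝ × ℝ × ℝ × ℝ) : MemLp (n4L c) 2 (n4P θ x0 x1 R) := by
  rw [memLp_two_iff_integrable_sq (measurable_of_countable _).aestronglyMeasurable]
  refine (n4P_int d.pos.le x0 x1 d.nn (fun x => n4L c x ^ 2) ?_).1
  have s3 := (s1.mul_left (2 * c.2.2.1 ^ 2)).add (s2.mul_left (2 * c.2.2.2 ^ 2))
  refine Summable.of_nonneg_of_le (fun p => mul_nonneg (d.nn p) (abs_nonneg _)) (fun p => ?_) s3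
  have h := d.nn p
  rw [abs_of_nonneg (sq_nonneg _)]
  unfold n4L
  simp only [Nat.cast_zero, mul_zero, zero_add]
  have h2 : (c.2.2.1 * (p.1 : ℝ) + c.2.2.2 * (p.2 : ℝ)) ^ 2 ≤ 2 * c.2.2.1 ^ 2 * (p.1 : ℝ) ^ 2 + 2 * c.2.2.2 ^ 2 * (p.2 : ℝ) ^ 2 := by
    nlinarith [sq_nonneg (c.2.2.1 * (p.1 : ℝ) - c.2.2.2 * (p.2 : ℝ))]
  have := mul_le_mul_of_nonneg_left h2 h
  linarith

/-- Chebyshev for a linear functional of the sum of the labels -/
theorem n4_cheb {φ : ℕ → ℕ → ℝ} {θ : ℝ} {x0 x1 : N4M} {R : ℕ × ℕ → ℝ} (d : N4D φ θ x0 x1 R)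
    (s1 : Summable (fun p : ℕ × ℕ => (p.1 : ℝ) ^ 2 * R p)) (s2 : Summable (fun p : ℕ × ℕ => (p.2 : ℝ) ^ 2 * R p))
    (c : ℝ × ℝ × ℝ × ℝ) (b : ℕ) (hb : 1 ≤ b) {Λ : ℝ} (hΛ : 0 < Λ) (hv : 8 * Var[n4L c; n4P θ x0 x1 R] ≤ Λ ^ 2) :
    (Measure.pi (fun _ : Fin b => n4P θ x0 x1 R)).real
      {ω | Λ * Real.sqrt b ≤ |n4L c (∑ i, ω i) - b * ∫ x, n4L c x ∂(n4P θ x0 x1 R)|} ≤ 1 / 8 := by
  have := n4P_prob d.pos.le x0 x1 d.nn d.sm
  have hb0 : (0 : ℝ) < b := by exact_mod_cast hb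
  have hm := n4L_memLp d s1 s2 c
  have hX : ∀ i : Fin b, MemLp (fun ω : Fin b → N4M => n4L c (ω i)) 2 (Measure.pi (fun _ : Fin b => n4P θ x0 x1 R)) :=
    fun i => hm.comp_measurePreserving (measurePreserving_eval _ i)
  have hS : MemLp (fun ω : Fin b → N4M => n4L c (∑ i, ω i)) 2 (Measure.pi (fun _ : Fin b => n4P θ x0 x1 R)) := by
    simp only [n4L_sum]
    exact memLp_finsetSum _ fun i _ => hX i
  have hE : ∫ ω : Fin b → N4M, n4L c (∑ i, ω i) ∂(Measure.pi (fun _ : Fin b => n4P θ x0 x1 R)) =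
      b * ∫ x, n4L c x ∂(n4P θ x0 x1 R) := by
    simp only [n4L_sum]
    rw [integral_finsetSum _ fun i _ => (hX i).integrable (by norm_num)]
    have : ∀ i : Fin b, ∫ ω : Fin b → N4M, n4L c (ω i) ∂(Measure.pi (fun _ : Fin b => n4P θ x0 x1 R)) =
        ∫ x, n4L c x ∂(n4P θ x0 x1 R) := by
      intro i
      exact integral_comp_eval (μ := fun _ : Fin b => n4P θ x0 x1 R) (f := n4L c) hm.aestronglyMeasurable
    simp only [this]
    simp
  have hV : Var[fun ω : Fin b → N4M => n4L c (∑ i, ω i); Measure.pi (fun _ : Fin b => n4P θ x0 x1 R)] =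
      b * Var[n4L c; n4P θ x0 x1 R] := by
    have h := variance_sum_pi (μ := fun _ : Fin b => n4P θ x0 x1 R) (X := fun _ => n4L c) (fun _ => hm)
    have e : (∑ i, fun ω : Fin b → N4M => n4L c (ω i)) = fun ω : Fin b → N4M => n4L c (∑ i, ω i) := by
      ext ω; rw [n4L_sum, Finset.sum_apply]
    rw [e] at h
    rw [h]; simp
  have hc : 0 < Λ * Real.sqrt b := mul_pos hΛ (Real.sqrt_pos.2 hb0)
  have h := meas_ge_le_variance_div_sq hS hc
  rw [hE, hV] at h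
  rw [measureReal_def]
  refine (ENNReal.toReal_mono ENNReal.ofReal_ne_top h).trans ?_
  rw [ENNReal.toReal_ofReal (by have := variance_nonneg (n4L c) (n4P θ x0 x1 R); positivity), mul_pow, Real.sq_sqrt hb0.le,
    div_le_div_iff₀ (by positivity) (by norm_num)]
  nlinarith

/-- the factor of one coordinate is at least `c / sqrt b` -/
theorem n4_factor {c : ℝ} (hc : 0 < c) {θ Λ : ℝ} (hθ : 0 < θ) (hθ' : θ ≤ 1 / 2) (hΛ : 0 < Λ) {M0 : ℕ}
    (hbp : ∀ M b : ℕ, M0 ≤ M → |(b : ℝ) - M * (1 / 2)| ≤ ((Λ + 1) * Real.sqrt (2 / θ)) * Real.sqrt M →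
      c / Real.sqrt M ≤ bp (1 / 2) M b) {b : ℕ} (hb : 1 ≤ b) (h4 : 4 * (Λ + 1) < θ * Real.sqrt b)
    (hM0 : (M0 : ℝ) ≤ b * θ / 2) (j m n : ℕ) (hj : |(j : ℝ) - b * θ| ≤ Λ * Real.sqrt b)
    (hn : |(n : ℝ) - (m + j / 2)| ≤ (Λ + 1) * Real.sqrt b) :
    c / Real.sqrt b ≤ PowerSeries.coeff n (n4g j m) := by
  have hb0 : (0 : ℝ) < b := by exact_mod_cast hb
  have hs0 : 0 < Real.sqrt b := Real.sqrt_pos.2 hb0
  have hss : Real.sqrt b * Real.sqrt b = b := Real.mul_self_sqrt hb0.le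
  have hq : 4 * (Λ + 1) * Real.sqrt b < θ * b := by
    calc 4 * (Λ + 1) * Real.sqrt b < θ * Real.sqrt b * Real.sqrt b := mul_lt_mul_of_pos_right h4 hs0
      _ = θ * b := by rw [mul_assoc, hss]
  rw [abs_le] at hj hn
  have hΛs : 0 < Λ * Real.sqrt b := mul_pos hΛ hs0
  have j1 : b * θ / 2 ≤ j := by nlinarith
  have j2 : (j : ℝ) ≤ b := by nlinarith
  have hj0 : (0 : ℝ) < j := by nlinarith
  have hmn : m ≤ n := by
    have : (m : ℝ) ≤ n := by nlinarith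
    exact_mod_cast this
  rw [n4g_coeff, if_pos hmn]
  have hsj : 0 < Real.sqrt j := Real.sqrt_pos.2 hj0
  have hle : Real.sqrt j ≤ Real.sqrt b := Real.sqrt_le_sqrt j2
  refine le_trans ?_ (hbp j (n - m) ?_ ?_)
  · exact div_le_div_of_nonneg_left hc.le hsj hle
  · have : (M0 : ℝ) ≤ j := hM0.trans j1
    exact_mod_cast this
  · rw [Nat.cast_sub hmn, mul_assoc, ← Real.sqrt_mul (by positivity)]
    have h1 : Real.sqrt b ≤ Real.sqrt (2 / θ * j) := by
      apply Real.sqrt_le_sqrt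
      rw [div_mul_eq_mul_div, le_div_iff₀ hθ]
      nlinarith
    have h2 := mul_le_mul_of_nonneg_left h1 (by linarith : (0 : ℝ) ≤ Λ + 1)
    refine le_trans ?_ h2
    rw [abs_le]
    constructor <;> linarith

theorem n4_lower {φ : ℕ → ℕ → ℝ} {θ : ℝ} {a0 a1 : ℕ} {R : ℕ × ℕ → ℝ}
    (d : N4D φ θ (1, 0, a0, 0) (0, 1, a1, 0) R)
    (s1 : Summable (fun p : ℕ × ℕ => (p.1 : ℝ) ^ 2 * R p)) (s2 : Summable (fun p : ℕ × ℕ => (p.2 : ℝ) ^ 2 * R p))
    (hθ' : θ ≤ 1 / 2)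
    (m1 : ∫ x, n4L (1, 0, 0, 0) x ∂(n4P θ (1, 0, a0, 0) (0, 1, a1, 0) R) = θ)
    (m2 : ∫ x, n4L (0, 1, 0, 0) x ∂(n4P θ (1, 0, a0, 0) (0, 1, a1, 0) R) = θ)
    (m3 : ∫ x, n4L (1 / 2, 0, 1, 0) x ∂(n4P θ (1, 0, a0, 0) (0, 1, a1, 0) R) = mu φ)
    (m4 : ∫ x, n4L (0, 1 / 2, 0, 1) x ∂(n4P θ (1, 0, a0, 0) (0, 1, a1, 0) R) = 1) :
    ∃ c : ℝ, 0 < c ∧ ∃ b0 : ℕ, ∀ b n : ℕ, b0 ≤ b → |(n : ℝ) - b * mu φ| ≤ Real.sqrt b →
      c / b ≤ cv φ b n (b - 1) := by
  set P := n4P θ (1, 0, a0, 0) (0, 1, a1, 0) R with hP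
  have hprob : IsProbabilityMeasure P := n4P_prob d.pos.le _ _ d.nn d.sm
  -- the constant Λ
  obtain ⟨Λ, hΛ, hv1, hv2, hv3, hv4⟩ : ∃ Λ : ℝ, 0 < Λ ∧ 8 * Var[n4L (1, 0, 0, 0); P] ≤ Λ ^ 2 ∧
      8 * Var[n4L (0, 1, 0, 0); P] ≤ Λ ^ 2 ∧ 8 * Var[n4L (1 / 2, 0, 1, 0); P] ≤ Λ ^ 2 ∧
      8 * Var[n4L (0, 1 / 2, 0, 1); P] ≤ Λ ^ 2 := by
    have v1 := variance_nonneg (n4L (1, 0, 0, 0)) P
    have v2 := variance_nonneg (n4L (0, 1, 0, 0)) P
    have v3 := variance_nonneg (n4L (1 / 2, 0, 1, 0)) P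
    have v4 := variance_nonneg (n4L (0, 1 / 2, 0, 1)) P
    set V := Var[n4L (1, 0, 0, 0); P] + Var[n4L (0, 1, 0, 0); P] + Var[n4L (1 / 2, 0, 1, 0); P] +
      Var[n4L (0, 1 / 2, 0, 1); P] with hV
    refine ⟨8 * V + 1, by positivity, ?_, ?_, ?_, ?_⟩ <;> nlinarith
  obtain ⟨c, hc, M0, hbp⟩ := bp_lower (1 / 2) (by norm_num) (by norm_num) ((Λ + 1) * Real.sqrt (2 / θ))
  refine ⟨c ^ 2 / 2, by positivity, ?_⟩
  have hθ := d.pos
  obtain ⟨B1, hB1⟩ := exists_nat_gt ((4 * (Λ + 1) / θ) ^ 2)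
  obtain ⟨B2, hB2⟩ := exists_nat_gt (2 * M0 / θ)
  refine ⟨B1 + B2 + 1, fun b n hb hn => ?_⟩
  have hb1 : 1 ≤ b := by omega
  have hb0 : (0 : ℝ) < b := by exact_mod_cast hb1
  have hbB1 : (B1 : ℝ) ≤ b := by exact_mod_cast (by omega : B1 ≤ b)
  have hbB2 : (B2 : ℝ) ≤ b := by exact_mod_cast (by omega : B2 ≤ b)
  have hs1 : 1 ≤ Real.sqrt b := by rw [Real.one_le_sqrt]; exact_mod_cast hb1
  have h4 : 4 * (Λ + 1) < θ * Real.sqrt b := by
    have : 4 * (Λ + 1) / θ < Real.sqrt b := Real.lt_sqrt_of_sq_lt (hB1.trans_le hbB1)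
    rw [div_lt_iff₀ hθ] at this
    linarith
  have hM0 : (M0 : ℝ) ≤ b * θ / 2 := by
    have := hB2.trans_le hbB2
    rw [div_lt_iff₀ hθ] at this
    linarith
  rw [n4_rep d b n (b - 1)]
  set Q := Measure.pi (fun _ : Fin b => P) with hQ
  have c1 := n4_cheb d s1 s2 (1, 0, 0, 0) b hb1 hΛ hv1
  have c2 := n4_cheb d s1 s2 (0, 1, 0, 0) b hb1 hΛ hv2
  have c3 := n4_cheb d s1 s2 (1 / 2, 0, 1, 0) b hb1 hΛ hv3
  have c4 := n4_cheb d s1 s2 (0, 1 / 2, 0, 1) b hb1 hΛ hv4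
  rw [m1] at c1; rw [m2] at c2; rw [m3] at c3; rw [m4] at c4
  set B1s : Set (Fin b → N4M) := {ω | Λ * Real.sqrt b ≤ |n4L (1, 0, 0, 0) (∑ i, ω i) - b * θ|} with hB1s
  set B2s : Set (Fin b → N4M) := {ω | Λ * Real.sqrt b ≤ |n4L (0, 1, 0, 0) (∑ i, ω i) - b * θ|} with hB2s
  set B3s : Set (Fin b → N4M) := {ω | Λ * Real.sqrt b ≤ |n4L (1 / 2, 0, 1, 0) (∑ i, ω i) - b * mu φ|} with hB3s
  set B4s : Set (Fin b → N4M) := {ω | Λ * Real.sqrt b ≤ |n4L (0, 1 / 2, 0, 1) (∑ i, ω i) - b * 1|} with hB4s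
  set G : Set (Fin b → N4M) := (B1s ∪ B2s ∪ (B3s ∪ B4s))ᶜ with hG
  have hGm : 1 / 2 ≤ Q.real G := by
    have h1 : Q.real (B1s ∪ B2s ∪ (B3s ∪ B4s)) ≤ 1 / 2 := by
      refine (measureReal_union_le _ _).trans ?_
      have h2 := measureReal_union_le (μ := Q) B1s B2s
      have h3 := measureReal_union_le (μ := Q) B3s B4s
      linarith
    have h2 : Q.real (Set.univ) ≤ Q.real (B1s ∪ B2s ∪ (B3s ∪ B4s)) + Q.real G := by
      rw [← Set.union_compl_self (B1s ∪ B2s ∪ (B3s ∪ B4s))]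
      exact measureReal_union_le _ _
    rw [probReal_univ] at h2
    linarith
  have hK : ∀ ω, G.indicator (fun _ => c ^ 2 / b) ω ≤ n4K (∑ i, ω i) n (b - 1) := by
    intro ω
    by_cases hω : ω ∈ G
    · rw [Set.indicator_of_mem hω]
      simp only [hG, Set.mem_compl_iff, Set.mem_union, not_or, hB1s, hB2s, hB3s, hB4s, Set.mem_ofPred_eq, not_le] at hω
      obtain ⟨⟨g1, g2⟩, g3, g4⟩ := hω
      set x := ∑ i, ω i with hx
      unfold n4L at g1 g2 g3 g4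
      simp only [one_mul, zero_mul, add_zero, zero_add, mul_one] at g1 g2 g3 g4
      unfold n4K
      have f1 := n4_factor hc hθ hθ' hΛ hbp hb1 h4 hM0 x.1 x.2.2.1 n g1.le (by
        rw [abs_le] at hn ⊢
        rw [abs_lt] at g3
        constructor <;> linarith)
      have f2 := n4_factor hc hθ hθ' hΛ hbp hb1 h4 hM0 x.2.1 x.2.2.2 (b - 1) g2.le (by
        rw [abs_le]
        rw [abs_lt] at g4
        rw [Nat.cast_sub hb1]
        push_cast
        constructor <;> linarith)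
      have f0 : 0 ≤ c / Real.sqrt b := by positivity
      calc c ^ 2 / b = (c / Real.sqrt b) * (c / Real.sqrt b) := by
            rw [div_mul_div_comm, Real.mul_self_sqrt hb0.le, sq]
        _ ≤ _ := mul_le_mul f1 f2 f0 (f0.trans f1)
    · rw [Set.indicator_of_notMem hω]
      exact n4K_nonneg _ _ _
  have hGmeas : MeasurableSet G := (Set.to_countable G).measurableSet
  calc c ^ 2 / 2 / b = c ^ 2 / b * (1 / 2) := by ring
    _ ≤ c ^ 2 / b * Q.real G := mul_le_mul_of_nonneg_left hGm (by positivity)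
    _ = ∫ ω, G.indicator (fun _ => c ^ 2 / b) ω ∂Q := by
        rw [integral_indicator_const _ hGmeas, smul_eq_mul, mul_comm]
    _ ≤ _ := by
        refine integral_mono ?_ ?_ hK
        · exact (integrable_const _).indicator hGmeas
        · exact n4_bdd_int _ (measurable_of_countable _) (fun _ => n4K_nonneg _ _ _) (fun _ => n4K_le_one _ _ _)

theorem n4_bp_one (i : ℕ) : bp (1 / 2) 1 i = if i = 0 then 1 / 2 else if i = 1 then 1 / 2 else 0 := by
  rw [n4_bp_half]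
  rcases i with _ | _ | i
  · simp
  · simp
  · rw [Nat.choose_eq_zero_of_lt (by omega)]
    simp

theorem n4g_one (a n : ℕ) : PowerSeries.coeff n (n4g 1 a) = if n = a then 1 / 2 else if n = a + 1 then 1 / 2 else 0 := by
  rw [n4g_coeff]
  by_cases h : a ≤ n
  · rw [if_pos h, n4_bp_one]
    by_cases h1 : n = a
    · rw [if_pos h1, if_pos (by omega)]
    · rw [if_neg h1, if_neg (by omega)]
      by_cases h2 : n = a + 1
      · rw [if_pos h2, if_pos (by omega)]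
      · rw [if_neg h2, if_neg (by omega)]
  · rw [if_neg h, if_neg (by omega), if_neg (by omega)]

theorem n4g_zero' (a n : ℕ) : PowerSeries.coeff n (n4g 0 a) = if n = a then 1 else 0 := by
  unfold n4g
  rw [pow_zero, mul_one, PowerSeries.coeff_X_pow]

theorem n4K_x0 (a : ℕ) (p : ℕ × ℕ) : n4K (1, 0, a, 0) p.1 p.2 =
    (if p = (a, 0) then 1 / 2 else 0) + (if p = (a + 1, 0) then 1 / 2 else 0) := by
  obtain ⟨n, k⟩ := p
  unfold n4K
  simp only [n4g_one, n4g_zero', Prod.mk.injEq]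
  by_cases h1 : n = a <;> by_cases h2 : n = a + 1 <;> by_cases h3 : k = 0 <;> simp [h1, h2, h3]

theorem n4K_x1 (a : ℕ) (p : ℕ × ℕ) : n4K (0, 1, a, 0) p.1 p.2 =
    (if p = (a, 0) then 1 / 2 else 0) + (if p = (a, 1) then 1 / 2 else 0) := by
  obtain ⟨n, k⟩ := p
  unfold n4K
  simp only [n4g_one, n4g_zero', Prod.mk.injEq]
  by_cases h1 : n = a <;> by_cases h2 : k = 0 <;> by_cases h3 : k = 1 <;> simp [h1, h2, h3]

theorem n4_two_sum (f : ℕ × ℕ → ℝ) (u v : ℕ × ℕ) :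
    HasSum (fun p => f p * ((if p = u then 1 / 2 else 0) + (if p = v then 1 / 2 else 0))) (f u / 2 + f v / 2) := by
  have h : ∀ w : ℕ × ℕ, HasSum (fun p => if p = w then f w / 2 else 0) (f w / 2) := fun w => hasSum_ite_eq w _
  have e : (fun p => f p * ((if p = u then 1 / 2 else 0) + (if p = v then 1 / 2 else 0))) =
      fun p => (if p = u then f u / 2 else 0) + (if p = v then f v / 2 else 0) := by
    ext p
    by_cases h1 : p = u
    · subst h1
      by_cases h2 : p = v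
      · subst h2; simp; ring
      · simp [h2]; ring
    · by_cases h2 : p = v
      · subst h2; simp [h1]; ring
      · simp [h1, h2]
  rw [e]
  exact (h u).add (h v)

/-- the remainder of the step law -/
noncomputable def n4R (φ : ℕ → ℕ → ℝ) (θ : ℝ) (a0 a1 : ℕ) (p : ℕ × ℕ) : ℝ :=
  φ p.1 p.2 - θ * n4K (1, 0, a0, 0) p.1 p.2 - θ * n4K (0, 1, a1, 0) p.1 p.2

theorem n4R_sum (φ : ℕ → ℕ → ℝ) (θ : ℝ) (a0 a1 : ℕ) (f : ℕ × ℕ → ℝ) {s : ℝ}
    (hs : HasSum (fun p : ℕ × ℕ => f p * φ p.1 p.2) s) :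
    HasSum (fun p => f p * n4R φ θ a0 a1 p)
      (s - θ * (f (a0, 0) / 2 + f (a0 + 1, 0) / 2) - θ * (f (a1, 0) / 2 + f (a1, 1) / 2)) := by
  have h1 := (n4_two_sum f (a0, 0) (a0 + 1, 0)).mul_left θ
  have h2 := (n4_two_sum f (a1, 0) (a1, 1)).mul_left θ
  have h3 := (hs.sub h1).sub h2
  have e : (fun p => f p * n4R φ θ a0 a1 p) = fun p : ℕ × ℕ => f p * φ p.1 p.2 -
      θ * (f p * ((if p = (a0, 0) then 1 / 2 else 0) + (if p = (a0 + 1, 0) then 1 / 2 else 0))) -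
      θ * (f p * ((if p = (a1, 0) then 1 / 2 else 0) + (if p = (a1, 1) then 1 / 2 else 0))) := by
    ext p
    unfold n4R
    rw [n4K_x0, n4K_x1]
    ring
  rw [e]
  exact h3

theorem n4R_nonneg {φ : ℕ → ℕ → ℝ} (h : Law φ) {θ : ℝ} {a0 a1 : ℕ} (h1 : θ ≤ φ a0 0) (h2 : θ ≤ φ (a0 + 1) 0)
    (h3 : θ ≤ φ a1 0) (h4 : θ ≤ φ a1 1) (p : ℕ × ℕ) : 0 ≤ n4R φ θ a0 a1 p := by
  unfold n4R
  rw [n4K_x0, n4K_x1]
  have e0 : θ * ((if p = (a0, 0) then 1 / 2 else 0) + (if p = (a0 + 1, 0) then 1 / 2 else 0)) ≤ φ p.1 p.2 / 2 := by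
    by_cases g1 : p = (a0, 0)
    · subst g1
      rw [if_pos rfl, if_neg (by simp)]
      simp only; linarith
    · rw [if_neg g1]
      by_cases g2 : p = (a0 + 1, 0)
      · subst g2
        rw [if_pos rfl]; simp only; linarith
      · rw [if_neg g2]
        have := h.nn p.1 p.2
        linarith
  have e1 : θ * ((if p = (a1, 0) then 1 / 2 else 0) + (if p = (a1, 1) then 1 / 2 else 0)) ≤ φ p.1 p.2 / 2 := by
    by_cases g1 : p = (a1, 0)
    · subst g1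
      rw [if_pos rfl, if_neg (by simp)]
      simp only; linarith
    · rw [if_neg g1]
      by_cases g2 : p = (a1, 1)
      · subst g2
        rw [if_pos rfl]; simp only; linarith
      · rw [if_neg g2]
        have := h.nn p.1 p.2
        linarith
  linarith

theorem n4_mean_x {φ : ℕ → ℕ → ℝ} (h : Law φ) : HasSum (fun p : ℕ × ℕ => (p.1 : ℝ) * φ p.1 p.2) (mu φ) := by
  have hs : Summable (fun p : ℕ × ℕ => (p.1 : ℝ) * φ p.1 p.2) := by
    refine Summable.of_nonneg_of_le (fun p => mul_nonneg (Nat.cast_nonneg _) (h.nn _ _)) (fun p => ?_) h.sx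
    refine mul_le_mul_of_nonneg_right ?_ (h.nn _ _)
    rcases Nat.eq_zero_or_pos p.1 with h0 | h0
    · rw [h0]; simp
    · have : (1 : ℝ) ≤ p.1 := by exact_mod_cast h0
      nlinarith
  have e : ∑' p : ℕ × ℕ, (p.1 : ℝ) * φ p.1 p.2 = mu φ := by
    rw [hs.tsum_prod]
    unfold mu mar
    refine tsum_congr fun a => ?_
    simp only
    rw [tsum_mul_left]
  rw [← e]
  exact hs.hasSum

/-- the local lower bound for every number of steps -/
theorem cv_lower_all {φ : ℕ → ℕ → ℝ} (h : Law φ) : ∃ c : ℝ, 0 < c ∧ ∃ b0 : ℕ, ∀ b n : ℕ, b0 ≤ b →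
    |(n : ℝ) - b * mu φ| ≤ Real.sqrt b → c / b ≤ cv φ b n (b - 1) := by
  obtain ⟨a0, p1, p2⟩ := h.at0
  obtain ⟨a1, p3, p4⟩ := h.at1
  set θ := min (min (φ a0 0) (φ (a0 + 1) 0)) (min (φ a1 0) (φ a1 1)) with hθdef
  have hθ : 0 < θ := lt_min (lt_min p1 p2) (lt_min p3 p4)
  have q1 : θ ≤ φ a0 0 := (min_le_left _ _).trans (min_le_left _ _)
  have q2 : θ ≤ φ (a0 + 1) 0 := (min_le_left _ _).trans (min_le_right _ _)
  have q3 : θ ≤ φ a1 0 := (min_le_right _ _).trans (min_le_left _ _)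
  have q4 : θ ≤ φ a1 1 := (min_le_right _ _).trans (min_le_right _ _)
  have hR := n4R_nonneg h q1 q2 q3 q4
  have t1 : HasSum (n4R φ θ a0 a1) (1 - 2 * θ) := by
    have := n4R_sum φ θ a0 a1 (fun _ => 1) (s := 1) (by simpa using h.one)
    simp only [one_mul] at this
    convert this using 1; ring
  have hθ' : θ ≤ 1 / 2 := by
    have := t1.tsum_eq ▸ tsum_nonneg hR
    linarith
  have d : N4D φ θ (1, 0, a0, 0) (0, 1, a1, 0) (n4R φ θ a0 a1) :=
    ⟨hθ, hR, fun n k => by unfold n4R; simp only; ring, t1⟩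
  have s1 : Summable (fun p : ℕ × ℕ => (p.1 : ℝ) ^ 2 * n4R φ θ a0 a1 p) :=
    (n4R_sum φ θ a0 a1 (fun p => (p.1 : ℝ) ^ 2) h.sx.hasSum).summable
  have s2 : Summable (fun p : ℕ × ℕ => (p.2 : ℝ) ^ 2 * n4R φ θ a0 a1 p) :=
    (n4R_sum φ θ a0 a1 (fun p => (p.2 : ℝ) ^ 2) h.sk.hasSum).summable
  have t3 := n4R_sum φ θ a0 a1 (fun p => (p.1 : ℝ)) (n4_mean_x h)
  have t4 := n4R_sum φ θ a0 a1 (fun p => (p.2 : ℝ)) h.mean
  have hint : ∀ c3 c4 : ℝ, HasSum (fun p : ℕ × ℕ => n4R φ θ a0 a1 p * (c3 * (p.1 : ℝ) + c4 * (p.2 : ℝ)))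
      (c3 * (mu φ - θ * ((a0 : ℝ) / 2 + ((a0 + 1 : ℕ) : ℝ) / 2) - θ * ((a1 : ℝ) / 2 + (a1 : ℝ) / 2)) +
        c4 * (1 - θ * (((0 : ℕ) : ℝ) / 2 + ((0 : ℕ) : ℝ) / 2) - θ * (((0 : ℕ) : ℝ) / 2 + ((1 : ℕ) : ℝ) / 2))) := by
    intro c3 c4
    have := (t3.mul_left c3).add (t4.mul_left c4)
    have e : (fun p : ℕ × ℕ => n4R φ θ a0 a1 p * (c3 * (p.1 : ℝ) + c4 * (p.2 : ℝ))) =
        fun p : ℕ × ℕ => c3 * ((p.1 : ℝ) * n4R φ θ a0 a1 p) + c4 * ((p.2 : ℝ) * n4R φ θ a0 a1 p) := by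
      ext p; ring
    rw [e]
    exact this
  have hI : ∀ c : ℝ × ℝ × ℝ × ℝ, ∫ x, n4L c x ∂(n4P θ (1, 0, a0, 0) (0, 1, a1, 0) (n4R φ θ a0 a1)) =
      θ * (c.1 + c.2.2.1 * a0) + θ * (c.2.1 + c.2.2.1 * a1) +
      (c.2.2.1 * (mu φ - θ * ((a0 : ℝ) / 2 + ((a0 + 1 : ℕ) : ℝ) / 2) - θ * ((a1 : ℝ) / 2 + (a1 : ℝ) / 2)) +
        c.2.2.2 * (1 - θ * (((0 : ℕ) : ℝ) / 2 + ((0 : ℕ) : ℝ) / 2) - θ * (((0 : ℕ) : ℝ) / 2 + ((1 : ℕ) : ℝ) / 2))) := by
    intro c
    have hprob := n4P_prob d.pos.le (1, 0, a0, 0) (0, 1, a1, 0) d.nn d.sm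
    have hsum : Summable (fun p : ℕ × ℕ => n4R φ θ a0 a1 p * |n4L c (0, 0, p.1, p.2)|) := by
      refine Summable.of_nonneg_of_le (fun p => mul_nonneg (hR p) (abs_nonneg _)) (fun p => ?_) (hint |c.2.2.1| |c.2.2.2|).summable
      refine mul_le_mul_of_nonneg_left ?_ (hR p)
      unfold n4L
      simp only [Nat.cast_zero, mul_zero, zero_add]
      refine (abs_add_le _ _).trans ?_
      rw [abs_mul, abs_mul, Nat.abs_cast, Nat.abs_cast]
    rw [(n4P_int hθ.le _ _ hR (n4L c) hsum).2]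
    have e : ∀ p : ℕ × ℕ, n4R φ θ a0 a1 p * n4L c (0, 0, p.1, p.2) =
        n4R φ θ a0 a1 p * (c.2.2.1 * (p.1 : ℝ) + c.2.2.2 * (p.2 : ℝ)) := by
      intro p; unfold n4L; simp
    rw [tsum_congr e, (hint c.2.2.1 c.2.2.2).tsum_eq]
    unfold n4L
    push_cast
    ring
  refine n4_lower d s1 s2 hθ' ?_ ?_ ?_ ?_
  · rw [hI]; push_cast; ring
  · rw [hI]; push_cast; ring
  · rw [hI]; push_cast; ring
  · rw [hI]; push_cast; ring

/-- TARGET. -/
theorem cv_lower (h : Law φ) : ∃ c : ℝ, 0 < c ∧ ∃ N0 : ℕ, ∀ N n : ℕ, N0 ≤ N → |(n : ℝ) - 2 * N * mu φ| ≤ Real.sqrt N →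
    c / N ≤ cv φ (2 * N) n (2 * N - 1) := by
  obtain ⟨c, hc, b0, hb⟩ := cv_lower_all h
  refine ⟨c / 2, by positivity, b0, fun N n hN hn => ?_⟩
  have h1 := hb (2 * N) n (by omega) (by
    push_cast
    refine hn.trans (Real.sqrt_le_sqrt ?_)
    linarith [(Nat.cast_nonneg N : (0 : ℝ) ≤ N)])
  push_cast at h1
  rw [div_div]
  exact h1

/-- TARGET. -/
theorem prog_lower (h : Law φ) {y : ℕ → ℝ} (hy : Prog φ y) : ∃ c : ℝ, 0 < c ∧ ∃ n0 : ℕ, ∀ n : ℕ, n0 ≤ n → c / wt n ≤ y n := by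
  obtain ⟨c, hc, b0, hb⟩ := cv_lower_all h
  have hmu := one_le_mu h
  set m := mu φ with hm
  have hm0 : 0 < m := by linarith
  -- ε
  set ε : ℝ := 1 / (4 * m * Real.sqrt m) with hε
  have hsm : 0 < Real.sqrt m := Real.sqrt_pos.2 hm0
  have hε0 : 0 < ε := by positivity
  obtain ⟨n1, hn1⟩ := exists_nat_gt (4 / ε ^ 2 + 2 * m * b0 + 1)
  refine ⟨c * ε / 2, by positivity, n1, fun n hn => ?_⟩
  have hnr : 4 / ε ^ 2 + 2 * m * b0 + 1 < n := hn1.trans_le (by exact_mod_cast hn)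
  have e1 : 0 < 4 / ε ^ 2 := by positivity
  have e2 : 0 ≤ 2 * m * b0 := by positivity
  have hn0 : (0 : ℝ) < n := by linarith
  have hn1' : 1 ≤ n := by exact_mod_cast hn0
  have hs0 : 0 < Real.sqrt n := Real.sqrt_pos.2 hn0
  have hss : Real.sqrt n * Real.sqrt n = n := Real.mul_self_sqrt hn0.le
  have hmm : Real.sqrt m * Real.sqrt m = m := Real.mul_self_sqrt hm0.le
  have hsm1 : 1 ≤ Real.sqrt m := by rw [Real.one_le_sqrt]; exact hmu
  have hs1 : 1 ≤ Real.sqrt n := by rw [Real.one_le_sqrt]; exact_mod_cast hn1'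
  have h2ε : 2 ≤ ε * Real.sqrt n := by
    have : 2 / ε ≤ Real.sqrt n := Real.le_sqrt_of_sq_le (by rw [div_pow]; norm_num; linarith)
    rw [div_le_iff₀ hε0] at this
    linarith
  have hmε : m * ε = 1 / (4 * Real.sqrt m) := by
    rw [hε]; field_simp
  set T := ⌊ε * Real.sqrt n⌋₊ with hT
  have hT1 : (T : ℝ) ≤ ε * Real.sqrt n := Nat.floor_le (by positivity)
  have hT2 : ε * Real.sqrt n / 2 ≤ T := by
    have := Nat.lt_floor_add_one (ε * Real.sqrt n)
    rw [← hT] at this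
    linarith
  set B := ⌊(n : ℝ) / m⌋₊ with hB
  have hB1 : (B : ℝ) ≤ n / m := Nat.floor_le (by positivity)
  have hB2 : (n : ℝ) / m < B + 1 := Nat.lt_floor_add_one _
  have hB1' : (B : ℝ) * m ≤ n := by rwa [le_div_iff₀ hm0] at hB1
  have hB2' : (n : ℝ) < (B + 1) * m := by rwa [div_lt_iff₀ hm0] at hB2
  -- m T ≤ sqrt n / (4 sqrt m)
  have hmT : m * T ≤ Real.sqrt n / (4 * Real.sqrt m) := by
    calc m * T ≤ m * (ε * Real.sqrt n) := mul_le_mul_of_nonneg_left hT1 hm0.le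
      _ = Real.sqrt n / (4 * Real.sqrt m) := by rw [← mul_assoc, hmε]; ring
  have hmT2 : m * T ≤ n / 4 := by
    refine hmT.trans ?_
    rw [div_le_div_iff₀ (by positivity) (by norm_num)]
    nlinarith
  have hTB : T ≤ B := by
    have : (T : ℝ) < B + 1 := by
      by_contra hcon
      push Not at hcon
      have := mul_le_mul_of_nonneg_left hcon hm0.le
      nlinarith
    have : T < B + 1 := by exact_mod_cast this
    omega
  have hmain : ∀ b ∈ Finset.Ioc (B - T) B, c / n ^ 2 ≤ (1 / (b : ℝ)) * cv φ b n (b - 1) := by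
    intro b hbm
    rw [Finset.mem_Ioc] at hbm
    have g1 : (B : ℝ) + 1 ≤ b + T := by exact_mod_cast (by omega : B + 1 ≤ b + T)
    have g2 : (b : ℝ) ≤ B := by exact_mod_cast hbm.2
    have g3 : 3 * n / 4 < b * m := by
      have := mul_le_mul_of_nonneg_right g1 hm0.le
      nlinarith
    have hb0 : (0 : ℝ) < b := by
      by_contra hcon
      push Not at hcon
      nlinarith
    have hbn : (b : ℝ) ≤ n := by nlinarith
    have g4 : b0 ≤ b := by
      have : (b0 : ℝ) ≤ b := by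
        by_contra hcon
        push Not at hcon
        have := mul_lt_mul_of_pos_right hcon hm0
        nlinarith
      exact_mod_cast this
    have g5 : |(n : ℝ) - b * m| ≤ Real.sqrt b := by
      have k1 : (b : ℝ) * m ≤ n := (mul_le_mul_of_nonneg_right g2 hm0.le).trans hB1'
      have k2 : (n : ℝ) - b * m ≤ m * T := by
        have := mul_le_mul_of_nonneg_right g1 hm0.le
        nlinarith
      rw [abs_of_nonneg (by linarith)]
      refine (k2.trans hmT).trans ?_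
      apply Real.le_sqrt_of_sq_le
      rw [div_pow, Real.sq_sqrt hn0.le, mul_pow, Real.sq_sqrt hm0.le, div_le_iff₀ (by positivity)]
      nlinarith
    have g6 := hb b n g4 g5
    calc c / n ^ 2 ≤ c / b ^ 2 := by
          apply div_le_div_of_nonneg_left hc.le (by positivity)
          exact pow_le_pow_left₀ hb0.le hbn 2
      _ = (1 / (b : ℝ)) * (c / b) := by rw [one_div, sq, div_mul_eq_div_div]; ring
      _ ≤ _ := mul_le_mul_of_nonneg_left g6 (by positivity)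
  have hsub : Finset.Ioc (B - T) B ⊆ Finset.Icc 1 n := by
    intro b hbm
    rw [Finset.mem_Ioc] at hbm
    rw [Finset.mem_Icc]
    refine ⟨by omega, ?_⟩
    have : (B : ℝ) ≤ n := by nlinarith
    have : B ≤ n := by exact_mod_cast this
    omega
  rw [hit_one h.zr hy n hn1']
  have hsum : ∑ b ∈ Finset.Ioc (B - T) B, (1 / (b : ℝ)) * cv φ b n (b - 1) ≤
      ∑ b ∈ Finset.Icc 1 n, (1 / (b : ℝ)) * cv φ b n (b - 1) :=
    Finset.sum_le_sum_of_subset_of_nonneg hsub fun b _ _ => mul_nonneg (by positivity) (cv_nonneg h.nn _ _ _)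
  refine le_trans ?_ hsum
  have hcard := Finset.card_nsmul_le_sum _ _ _ hmain
  refine le_trans ?_ hcard
  rw [Nat.card_Ioc, nsmul_eq_mul, show B - (B - T) = T by omega]
  unfold wt
  calc c * ε / 2 / (n * Real.sqrt n) = (ε * Real.sqrt n / 2) * (c / n ^ 2) := by
        have : (n : ℝ) ^ 2 = n * (Real.sqrt n * Real.sqrt n) := by rw [hss]; ring
        rw [this]
        field_simp
    _ ≤ T * (c / n ^ 2) := mul_le_mul_of_nonneg_right hT2 (by positivity)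

theorem n4_wt_mul (a b : ℕ) : wt (a * b) = wt a * wt b := by
  unfold wt
  push_cast
  rw [Real.sqrt_mul (Nat.cast_nonneg a)]
  ring

theorem n4_wt_nonneg (a : ℕ) : 0 ≤ wt a := by
  unfold wt; positivity

theorem n4_wt_pos {a : ℕ} (h : 1 ≤ a) : 0 < wt a := by
  unfold wt
  have : (0 : ℝ) < a := by exact_mod_cast h
  positivity

theorem n4_wt_mono {a b : ℕ} (h : a ≤ b) : wt a ≤ wt b := by
  unfold wt
  have h' : (a : ℝ) ≤ b := by exact_mod_cast h
  exact mul_le_mul h' (Real.sqrt_le_sqrt h') (Real.sqrt_nonneg _) (Nat.cast_nonneg _)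

theorem n4_wt_sq (a : ℕ) : wt a ^ 2 = (a : ℝ) ^ 3 := by
  unfold wt
  rw [mul_pow, Real.sq_sqrt (Nat.cast_nonneg a)]; ring

theorem n4_wt_succ (a : ℕ) : 1 + wt a ≤ wt (a + 1) := by
  unfold wt
  push_cast
  have h1 : Real.sqrt a ≤ Real.sqrt (a + 1) := Real.sqrt_le_sqrt (by linarith)
  have h2 : 1 ≤ Real.sqrt ((a : ℝ) + 1) := by
    rw [Real.one_le_sqrt]; linarith [(Nat.cast_nonneg a : (0 : ℝ) ≤ a)]
  have h3 : (a : ℝ) * Real.sqrt a ≤ a * Real.sqrt (a + 1) := mul_le_mul_of_nonneg_left h1 (Nat.cast_nonneg _)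
  linarith

theorem n4_pow_nonneg {y : ℕ → ℝ} (h0 : ∀ n, 0 ≤ y n) (k n : ℕ) : 0 ≤ PowerSeries.coeff n ((PowerSeries.mk y) ^ k) := by
  induction k generalizing n with
  | zero => rw [pow_zero, PowerSeries.coeff_one]; split_ifs <;> norm_num
  | succ k ih =>
    rw [pow_succ, PowerSeries.coeff_mul]
    refine Finset.sum_nonneg fun p _ => mul_nonneg (ih _) ?_
    rw [PowerSeries.coeff_mk]; exact h0 _

theorem n4_pow_sum {y : ℕ → ℝ} (h0 : ∀ n, 0 ≤ y n) (h1 : ∀ N, ∑ n ∈ range N, y n ≤ 1) (k N : ℕ) :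
    ∑ n ∈ range N, PowerSeries.coeff n ((PowerSeries.mk y) ^ k) ≤ 1 := by
  induction k with
  | zero =>
    simp only [pow_zero, PowerSeries.coeff_one]
    rw [Finset.sum_ite_eq']
    split_ifs <;> norm_num
  | succ k ih =>
    have e : ∑ n ∈ range N, PowerSeries.coeff n ((PowerSeries.mk y) ^ (k + 1)) ≤
        ∑ a ∈ range N, ∑ b ∈ range N, PowerSeries.coeff a ((PowerSeries.mk y) ^ k) * y b := by
      simp only [pow_succ, PowerSeries.coeff_mul, PowerSeries.coeff_mk]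
      simp only [Finset.Nat.sum_antidiagonal_eq_sum_range_succ_mk]
      rw [Finset.sum_range_diag_flip N (fun a b => PowerSeries.coeff a ((PowerSeries.mk y) ^ k) * y b)]
      refine Finset.sum_le_sum fun a _ => ?_
      refine Finset.sum_le_sum_of_subset_of_nonneg (Finset.range_mono (Nat.sub_le _ _)) fun b _ _ => ?_
      exact mul_nonneg (n4_pow_nonneg h0 k a) (h0 b)
    refine e.trans ?_
    simp only [← Finset.mul_sum]
    rw [← Finset.sum_mul]
    have := h1 N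
    have h2 : 0 ≤ ∑ n ∈ range N, y n := Finset.sum_nonneg fun n _ => h0 n
    have h3 : 0 ≤ ∑ n ∈ range N, PowerSeries.coeff n ((PowerSeries.mk y) ^ k) := Finset.sum_nonneg fun n _ => n4_pow_nonneg h0 k n
    nlinarith

/-- TARGET. convolution powers -/
theorem conv_pow_le {y : ℕ → ℝ} (h0 : ∀ n, 0 ≤ y n) (h1 : ∀ N, ∑ n ∈ range N, y n ≤ 1) {C : ℝ} (hC : ∀ n : ℕ, 1 ≤ n → y n ≤ C / wt n) (k n : ℕ) (hn : 1 ≤ n) :
    PowerSeries.coeff n ((PowerSeries.mk y) ^ k) ≤ C * (k : ℝ) ^ 3 / wt n := by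
  have hC0 : 0 ≤ C := by
    have := (h0 1).trans (hC 1 le_rfl)
    have hw := n4_wt_pos (le_refl 1)
    rw [le_div_iff₀ hw, zero_mul] at this
    exact this
  induction k generalizing n with
  | zero =>
    rw [pow_zero, PowerSeries.coeff_one, if_neg (by omega)]
    simp
  | succ k ih =>
    rcases Nat.eq_zero_or_pos k with hk | hk
    · subst hk
      simpa [PowerSeries.coeff_mk] using hC n hn
    have hwn := n4_wt_pos hn
    have hwk := n4_wt_pos hk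
    have hwk1 := n4_wt_pos (Nat.succ_le_succ (Nat.zero_le k))
    rw [pow_succ, PowerSeries.coeff_mul]
    set f : ℕ → ℝ := fun m => PowerSeries.coeff m ((PowerSeries.mk y) ^ k) with hf
    have hf0 : ∀ m, 0 ≤ f m := fun m => n4_pow_nonneg h0 k m
    have key : ∀ p ∈ antidiagonal n, f p.1 * PowerSeries.coeff p.2 (PowerSeries.mk y) ≤
        (C * wt (k + 1) / wt n) * f p.1 + (C * wt k * wt (k + 1) / wt n) * y p.2 := by
      intro p hp
      rw [Finset.HasAntidiagonal.mem_antidiagonal] at hp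
      rw [PowerSeries.coeff_mk]
      by_cases hc : n ≤ (k + 1) * p.2
      · have hp2 : 1 ≤ p.2 := by
          rcases Nat.eq_zero_or_pos p.2 with h | h
          · rw [h] at hc; omega
          · exact h
        have h2 := n4_wt_mono hc
        rw [n4_wt_mul] at h2
        have h3 : y p.2 ≤ C * wt (k + 1) / wt n := by
          refine (hC _ hp2).trans ?_
          rw [div_le_div_iff₀ (n4_wt_pos hp2) hwn]
          have := mul_le_mul_of_nonneg_left h2 hC0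
          linarith
        have h4 : 0 ≤ (C * wt k * wt (k + 1) / wt n) * y p.2 := by
          have := h0 p.2
          positivity
        have h5 := mul_le_mul_of_nonneg_left h3 (hf0 p.1)
        linarith
      · push Not at hc
        have h1' : n * k ≤ (k + 1) * p.1 := by nlinarith
        have hp1 : 1 ≤ p.1 := by
          rcases Nat.eq_zero_or_pos p.1 with h | h
          · rw [h] at h1'
            have : 0 < n * k := Nat.mul_pos hn hk
            omega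
          · exact h
        have h2 := n4_wt_mono h1'
        rw [n4_wt_mul, n4_wt_mul] at h2
        have h3 : f p.1 ≤ C * wt k * wt (k + 1) / wt n := by
          refine (ih p.1 hp1).trans ?_
          rw [← n4_wt_sq, div_le_div_iff₀ (n4_wt_pos hp1) hwn]
          have := mul_le_mul_of_nonneg_left h2 (mul_nonneg hC0 hwk.le)
          nlinarith
        have h4 : 0 ≤ (C * wt (k + 1) / wt n) * f p.1 := by
          have := hf0 p.1
          positivity
        have h5 := mul_le_mul_of_nonneg_right h3 (h0 p.2)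
        linarith
    refine (Finset.sum_le_sum key).trans ?_
    rw [Finset.sum_add_distrib, ← Finset.mul_sum, ← Finset.mul_sum]
    have e1 : ∑ p ∈ antidiagonal n, f p.1 ≤ 1 := by
      rw [Finset.Nat.sum_antidiagonal_eq_sum_range_succ_mk]
      exact n4_pow_sum h0 h1 k (n + 1)
    have e2 : ∑ p ∈ antidiagonal n, y p.2 ≤ 1 := by
      rw [← Finset.Nat.sum_antidiagonal_swap, Finset.Nat.sum_antidiagonal_eq_sum_range_succ_mk]
      exact h1 (n + 1)
    have h6 : 0 ≤ C * wt (k + 1) / wt n := by positivity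
    have h7 : 0 ≤ C * wt k * wt (k + 1) / wt n := by positivity
    have h8 := mul_le_mul_of_nonneg_left e1 h6
    have h9 := mul_le_mul_of_nonneg_left e2 h7
    refine (add_le_add h8 h9).trans ?_
    rw [mul_one, mul_one, ← n4_wt_sq, ← add_div]
    refine div_le_div_of_nonneg_right ?_ hwn.le
    have h10 := n4_wt_succ k
    have h11 := mul_le_mul_of_nonneg_left h10 (mul_nonneg hC0 hwk1.le)
    nlinarith

end Pool.Agent.Helper910.QT
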