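import Mathlib
import Pool.Agent.Helper910.MDefs

/-!
# Transitive graphs quasi-isometric to a tree: definitions
(MP_4555f0_mp)
-/

namespace Pool.Agent.Helper910.QT

open Classical Finset

variable {V : Type*}

/-- the ground assumptions: infinite, connected, regular of degree `r` -/
structure Gd (D : SimpleGraph V) [D.LocallyFinite] (r : ℕ) : Prop where
  conn : D.Connected
  inf : Infinite V
  reg : D.IsRegularOfDegree r

/-- sum over the neighbours -/
noncomputable def nsum (D : SimpleGraph V) [D.LocallyFinite] {M : Type*} [AddCommMonoid M] (f : V → M) (z : V) : M :=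
  ∑ x ∈ D.neighborFinset z, f x

/-! ### waves with input and weights -/

/-- `W` absorbs the wave with input `g` on `G` -/
def GCl (D : SimpleGraph V) (r : ℕ) (g : V → ℕ) (G : Finset V) (ζ : V → ℕ) (W : Finset V) : Prop :=
  W ⊆ G ∧ ∀ y ∈ G, y ∉ W → ζ y + g y + dg D y W ≤ r

/-- the wave with input `g` on `G`: the least absorbing set -/
noncomputable def gw (D : SimpleGraph V) (r : ℕ) (g : V → ℕ) (G : Finset V) (ζ : V → ℕ) : Finset V :=
  G.filter (fun z => ∀ W, GCl D r g G ζ W → z ∈ W)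

/-- the configuration after the wave with input `g` and weight `w` -/
noncomputable def gs (D : SimpleGraph V) (r : ℕ) (w g : V → ℕ) (G : Finset V) (ζ : V → ℕ) : V → ℕ := fun z =>
  if z ∈ G then ζ z + g z + dg D z (gw D r g G ζ) - (if z ∈ gw D r g G ζ then r - w z else 0) else 0

/-- the weight `w` and the input `g` are admissible on `G` -/
def Adm (D : SimpleGraph V) (r : ℕ) (w g : V → ℕ) (G : Finset V) : Prop := ∀ z ∈ G, w z + g z + dg D z G ≤ r

/-- the unburnt set: the largest `U ⊆ G` with `ξ ≤ w + g + dg(·, U)` on `U` -/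
noncomputable def ub (D : SimpleGraph V) (w g : V → ℕ) (G : Finset V) (ξ : V → ℕ) : Finset V :=
  (G.powerset.filter (fun U => ∀ y ∈ U, ξ y ≤ w y + g y + dg D y U)).sup id

/-- probability under the uniform measure on `RcW w G` -/
noncomputable def prw (D : SimpleGraph V) (r : ℕ) (w : V → ℕ) (G : Finset V) (P : (V → ℕ) → Prop) : ℝ :=
  (((RcW D r w G).filter P).card : ℝ) / (RcW D r w G).card

/-- the probability that the wave with input `g` topples `z` -/
noncomputable def qw (D : SimpleGraph V) (r : ℕ) (w g : V → ℕ) (G : Finset V) (z : V) : ℝ :=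
  prw D r w G (fun ζ => z ∈ gw D r g G ζ)

/-- input coming from the vertices of `A` -/
noncomputable def dgi (D : SimpleGraph V) (A : Finset V) : V → ℕ := fun z => dg D z A

/-- the probability that the wave on `S` started by toppling the vertices of `A` topples `z` (it is `1` on `A`) -/
noncomputable def hu (D : SimpleGraph V) (r : ℕ) (A S : Finset V) (z : V) : ℝ :=
  if z ∈ A then 1 else pr D r S (fun ζ => z ∈ gw D r (dgi D A) S ζ)

/-! ### odometers -/

/-- `u` is a supersolution for adding `f` to `ζ` on `G` -/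
def SolO (D : SimpleGraph V) [D.LocallyFinite] (r : ℕ) (f : V → ℕ) (G : Finset V) (ζ u : V → ℕ) : Prop :=
  (∀ z, z ∉ G → u z = 0) ∧ ∀ z ∈ G, ζ z + f z + nsum D u z ≤ r + r * u z

/-- the odometer of adding `f` to `ζ` on `G`: the least supersolution -/
noncomputable def od (D : SimpleGraph V) [D.LocallyFinite] (r : ℕ) (f : V → ℕ) (G : Finset V) (ζ : V → ℕ) : V → ℕ :=
  fun z => sInf {k | ∃ u, SolO D r f G ζ u ∧ u z = k}

/-- the configuration after adding `f` and stabilising -/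
noncomputable def sb (D : SimpleGraph V) [D.LocallyFinite] (r : ℕ) (f : V → ℕ) (G : Finset V) (ζ : V → ℕ) : V → ℕ :=
  fun z => if z ∈ G then ζ z + f z + nsum D (od D r f G ζ) z - r * od D r f G ζ z else 0

/-- the set of vertices with positive odometer -/
noncomputable def sup' (D : SimpleGraph V) [D.LocallyFinite] (r : ℕ) (f : V → ℕ) (G : Finset V) (ζ : V → ℕ) : Finset V :=
  G.filter (fun z => 0 < od D r f G ζ z)

/-! ### tree structure -/

/-- descendants in generation `j` -/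
noncomputable def deC (ch : Set V → Finset (Set V)) (F : Finset (Set V)) : ℕ → Finset (Set V)
  | 0 => F
  | j + 1 => (deC ch F j).biUnion ch

/-- the decomposition of the graph into cones -/
structure TS (D : SimpleGraph V) [D.LocallyFinite] (r : ℕ) where
  /-- cones -/
  Cn : Set V → Prop
  /-- the finite top piece of a cone -/
  Q : Set V → Finset V
  /-- the outer boundary of a cone -/
  o : Set V → Finset V
  /-- the children of a cone -/
  ch : Set V → Finset (Set V)
  /-- special cones -/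
  sp : Set V → Prop
  /-- a bound for all sizes -/
  m : ℕ
  /-- a bound for the distance to special descendants -/
  h0 : ℕ
  gd : Gd D r
  trans : ∀ x y : V, ∃ φ : D ≃g D, φ x = y
  mem_o : ∀ {C : Set V}, Cn C → ∀ x, x ∈ o C ↔ x ∉ C ∧ ∃ y ∈ C, D.Adj x y
  o_ne : ∀ {C : Set V}, Cn C → (o C).Nonempty
  ch_cn : ∀ {C : Set V}, Cn C → ∀ C' ∈ ch C, Cn C'
  mem_iff : ∀ {C : Set V}, Cn C → ∀ z, z ∈ C ↔ z ∈ Q C ∨ ∃ C' ∈ ch C, z ∈ C'
  Q_notMem : ∀ {C : Set V}, Cn C → ∀ C' ∈ ch C, ∀ z ∈ Q C, z ∉ C'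
  ch_disj : ∀ {C : Set V}, Cn C → ∀ C' ∈ ch C, ∀ C'' ∈ ch C, C' ≠ C'' → Disjoint C' C''
  o_sub : ∀ {C : Set V}, Cn C → ∀ C' ∈ ch C, o C' ⊆ Q C
  Q_conn : ∀ {C : Set V}, Cn C → InConn D (Q C : Set V)
  Q_ne : ∀ {C : Set V}, Cn C → (Q C).Nonempty
  Q_two : ∀ {C : Set V}, Cn C → 2 ≤ (Q C).card
  two : ∀ {C : Set V}, Cn C → 2 ≤ (ch C).card
  Q_card : ∀ {C : Set V}, Cn C → (Q C).card ≤ m
  o_card : ∀ {C : Set V}, Cn C → (o C).card ≤ m
  ch_card : ∀ {C : Set V}, Cn C → (ch C).card ≤ m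
  aut_cn : ∀ {C : Set V}, Cn C → ∀ φ : D ≃g D, Cn (φ '' C)
  aut_Q : ∀ {C : Set V}, Cn C → ∀ φ : D ≃g D, Q (φ '' C) = (Q C).image φ
  aut_ch : ∀ {C : Set V}, Cn C → ∀ φ : D ≃g D, ch (φ '' C) = (ch C).image (fun C' => φ '' C')
  aut_sp : ∀ {C : Set V}, Cn C → sp C → ∀ φ : D ≃g D, sp (φ '' C)
  types : ∃ R : Finset (Set V), (∀ C ∈ R, Cn C) ∧ ∀ C, Cn C → ∃ C0 ∈ R, ∃ φ : D ≃g D, C = φ '' C0
  fill : ∀ B : Finset V, ∃ (Q0 : Finset V) (F : Finset (Set V)), B ⊆ Q0 ∧ InConn D (Q0 : Set V) ∧ (∀ C ∈ F, Cn C) ∧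
    (∀ C ∈ F, ∀ C' ∈ F, C ≠ C' → Disjoint C C') ∧ (∀ C ∈ F, o C ⊆ Q0) ∧ (∀ C ∈ F, ∀ z ∈ Q0, z ∉ C) ∧
    ∀ z, z ∈ Q0 ∨ ∃ C ∈ F, z ∈ C
  sp_desc : ∀ {C : Set V}, Cn C → ∃ j ≤ h0, ∃ U ∈ deC ch {C} j, sp U
  sp_iso : ∀ {U : Set V}, Cn U → sp U → ∀ j, ∀ U' ∈ deC ch {U} j, sp U' → ∃ φ : D ≃g D, φ '' U = U'

variable {D : SimpleGraph V} [D.LocallyFinite] {r : ℕ}

/-- descendants in generation `j` of the cones of `F` -/
noncomputable def TS.de (T : TS D r) (F : Finset (Set V)) (j : ℕ) : Finset (Set V) := deC T.ch F j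

/-- a forest: finitely many pairwise disjoint and non-adjacent cones -/
structure TS.Fo (T : TS D r) (F : Finset (Set V)) : Prop where
  cn : ∀ C ∈ F, T.Cn C
  disj : ∀ C ∈ F, ∀ C' ∈ F, C ≠ C' → Disjoint C C'
  nadj : ∀ C ∈ F, ∀ C' ∈ F, ∀ x ∈ T.o C, x ∉ C'

/-- the union of a family of sets -/
def fs (F : Finset (Set V)) : Set V := {z | ∃ C ∈ F, z ∈ C}

/-- the outer boundary of a forest -/
noncomputable def TS.fo (T : TS D r) (F : Finset (Set V)) : Finset V := F.biUnion T.o

/-- the full input of a forest -/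
noncomputable def TS.fi (T : TS D r) (F : Finset (Set V)) : V → ℕ := dgi D (T.fo F)

/-- the part of `G` in a forest -/
noncomputable def gp (G : Finset V) (F : Finset (Set V)) : Finset V := prt G (fs F)

/-- the vertices of the first `i` generations -/
noncomputable def TS.up (T : TS D r) (F : Finset (Set V)) (i : ℕ) : Finset V :=
  (range i).biUnion (fun k => (T.de F k).biUnion T.Q)

/-- the cone `A` receives a grain when the wave `W` with input `g` passes -/
def rch (D : SimpleGraph V) (g : V → ℕ) (W : Finset V) (A : Set V) : Prop :=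
  ∃ z ∈ A, 0 < g z ∨ ∃ x ∈ W, x ∉ A ∧ D.Adj x z

/-- all heights of the top piece of `A` are `r` -/
def TS.fb (T : TS D r) (ζ : V → ℕ) (A : Set V) : Prop := ∀ z ∈ T.Q A, ζ z = r

/-- no descendant of `F` strictly above `A` with property `S` has all heights `r` on its top piece -/
def TS.nab (T : TS D r) (S : Set V → Prop) (F : Finset (Set V)) (ζ : V → ℕ) (A : Set V) : Prop :=
  ∀ i, ∀ B ∈ T.de F i, S B → A ⊂ B → ¬ T.fb ζ B

/-- `A` is marked: reached by the wave with input `g` on `G`, and nothing with property `S` strictly above is a full piece -/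
def TS.mkd (T : TS D r) (S : Set V → Prop) (F : Finset (Set V)) (g : V → ℕ) (G : Finset V) (ζ : V → ℕ) (A : Set V) : Prop :=
  rch D g (gw D r g (gp G F) ζ) A ∧ T.nab S F ζ A

/-- the number of marked cones in generation `j` -/
noncomputable def TS.fn (T : TS D r) (S : Set V → Prop) (F : Finset (Set V)) (g : V → ℕ) (G : Finset V) (j : ℕ) (ζ : V → ℕ) : ℕ :=
  ((T.de F j).filter (fun A => T.mkd S F g G ζ A)).card

/-- the number of reached cones in generation `j` for the full wave -/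
noncomputable def TS.rn (T : TS D r) (F : Finset (Set V)) (G : Finset V) (j : ℕ) (ζ : V → ℕ) : ℕ :=
  T.fn (fun _ => False) F (T.fi F) G j ζ

end Pool.Agent.Helper910.QT
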