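import Mathlib
import Pool.Agent.Helper910.T0

/-! Waves with input and weights (MP_4555f0_mp) -/

namespace Pool.Agent.Helper910.QT

open Classical Finset

variable {V : Type*} {D : SimpleGraph V} {r : ℕ}

theorem top_GCl (g : V → ℕ) (G : Finset V) (ζ : V → ℕ) : GCl D r g G ζ G := ⟨Finset.Subset.refl G, fun y hy hy' => absurd hy hy'⟩

theorem t1_qw_eq {w g : V → ℕ} {G : Finset V} {z : V} :
    qw D r w g G z = (((RcW D r w G).filter (fun ζ => z ∈ gw D r g G ζ)).card : ℝ) / (RcW D r w G).card := by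
  unfold qw prw
  congr!

/-- TARGET. the intersection of absorbing sets is absorbing -/
theorem gw_GCl (g : V → ℕ) (G : Finset V) (ζ : V → ℕ) : GCl D r g G ζ (gw D r g G ζ) := by
  refine ⟨Finset.filter_subset _ _, ?_⟩
  intro y hy hyn
  have h : ∃ W, GCl D r g G ζ W ∧ y ∉ W := by
    by_contra hcon
    push Not at hcon
    exact hyn (Finset.mem_filter.2 ⟨hy, hcon⟩)
  obtain ⟨W, hW, hyW⟩ := h
  have h1 := hW.2 y hy hyW
  have h2 : dg D y (gw D r g G ζ) ≤ dg D y W := dg_mono (fun z hz => (Finset.mem_filter.1 hz).2 W hW)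
  omega

/-- TARGET. -/
theorem gw_sub (g : V → ℕ) (G : Finset V) (ζ : V → ℕ) : gw D r g G ζ ⊆ G := by
  exact Finset.filter_subset _ _

/-- TARGET. -/
theorem gw_least {g : V → ℕ} {G : Finset V} {ζ : V → ℕ} {W : Finset V} (h : GCl D r g G ζ W) : gw D r g G ζ ⊆ W := by
  exact fun z hz => (Finset.mem_filter.1 hz).2 W h

/-- TARGET. as `gw_least` but `W` need not be a subset of `G` -/
theorem gw_least' {g : V → ℕ} {G : Finset V} {ζ : V → ℕ} {W : Finset V}
    (h : ∀ y ∈ G, y ∉ W → ζ y + g y + dg D y W ≤ r) : gw D r g G ζ ⊆ W := by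
  have hcl : GCl D r g G ζ (G ∩ W) := by
    refine ⟨Finset.inter_subset_left, ?_⟩
    intro y hy hyn
    have hyW : y ∉ W := fun h' => hyn (Finset.mem_inter.2 ⟨hy, h'⟩)
    have h1 := h y hy hyW
    have h2 : dg D y (G ∩ W) ≤ dg D y W := dg_mono Finset.inter_subset_right
    omega
  exact (gw_least hcl).trans Finset.inter_subset_right

/-- TARGET. each nonempty part of the wave has a vertex that is toppled by the rest (otherwise `gw \ X` is absorbing) -/
theorem gw_fd {g : V → ℕ} {G : Finset V} {ζ : V → ℕ} {X : Finset V} (hX : X ⊆ gw D r g G ζ) (hne : X.Nonempty) :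
    ∃ z ∈ X, r < ζ z + g z + dg D z (gw D r g G ζ \ X) := by
  by_contra hcon
  push Not at hcon
  have hcl : GCl D r g G ζ (gw D r g G ζ \ X) := by
    refine ⟨Finset.sdiff_subset.trans (gw_sub g G ζ), ?_⟩
    intro y hy hyn
    by_cases hyX : y ∈ X
    · exact hcon y hyX
    · have hyg : y ∉ gw D r g G ζ := fun h' => hyn (Finset.mem_sdiff.2 ⟨h', hyX⟩)
      have h1 := (gw_GCl (D := D) (r := r) g G ζ).2 y hy hyg
      have h2 : dg D y (gw D r g G ζ \ X) ≤ dg D y (gw D r g G ζ) := dg_mono Finset.sdiff_subset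
      omega
  obtain ⟨x, hx⟩ := hne
  exact (Finset.mem_sdiff.1 (gw_least hcl (hX hx))).2 hx

/-- TARGET. characterization -/
theorem gw_eq {g : V → ℕ} {G : Finset V} {ζ : V → ℕ} {W : Finset V} (h : GCl D r g G ζ W)
    (h2 : ∀ X ⊆ W, X.Nonempty → ∃ z ∈ X, r < ζ z + g z + dg D z (W \ X)) : gw D r g G ζ = W := by
  refine Finset.Subset.antisymm (gw_least h) ?_
  by_contra hcon
  have hne : (W \ gw D r g G ζ).Nonempty := Finset.sdiff_nonempty.2 hcon
  obtain ⟨z, hz, hlt⟩ := h2 (W \ gw D r g G ζ) Finset.sdiff_subset hne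
  rw [Finset.mem_sdiff] at hz
  have h3 := (gw_GCl (D := D) (r := r) g G ζ).2 z (h.1 hz.1) hz.2
  have h4 : dg D z (W \ (W \ gw D r g G ζ)) ≤ dg D z (gw D r g G ζ) := by
    refine dg_mono ?_
    intro x hx
    simp only [Finset.mem_sdiff, not_and, not_not] at hx
    exact hx.2 hx.1
  omega

/-- TARGET. monotonicity in the configuration, the input and the domain -/
theorem gw_mono {g g' : V → ℕ} {G G' : Finset V} {ζ ζ' : V → ℕ} (hG : G ⊆ G') (h : ∀ y ∈ G, ζ y + g y ≤ ζ' y + g' y) :
    gw D r g G ζ ⊆ gw D r g' G' ζ' := by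
  refine gw_least' ?_
  intro y hy hyn
  have h1 := (gw_GCl (D := D) (r := r) g' G' ζ').2 y (hG hy) hyn
  have h2 := h y hy
  omega

/-- TARGET. -/
theorem gw_congr {g g' : V → ℕ} {G : Finset V} {ζ ζ' : V → ℕ} (h : ∀ y ∈ G, ζ y + g y = ζ' y + g' y) :
    gw D r g G ζ = gw D r g' G ζ' := by
  exact Finset.Subset.antisymm (gw_mono (Finset.Subset.refl G) (fun y hy => (h y hy).le))
    (gw_mono (Finset.Subset.refl G) (fun y hy => (h y hy).ge))

/-- TARGET. the wave from a vertex `v` of the earlier files -/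
theorem wav_eq_gw {v : V} {G : Finset V} (hv : v ∉ G) (ζ : V → ℕ) : wav D r v G ζ = gw D r (dgi D {v}) G ζ := by
  have hw := isWave_wav (D := D) (r := r) v G ζ
  symm
  have key : ∀ (z : V) (S : Finset V), S ⊆ G → dg D z (insert v S) = dgi D {v} z + dg D z S := by
    intro z S hS
    rw [dg_insert (fun h' => hv (hS h'))]
    unfold dgi
    rw [dg_singleton]
    omega
  refine gw_eq ⟨hw.sub, ?_⟩ ?_
  · intro y hy hyn
    have h1 := hw.blk y hy hyn
    rw [key y _ hw.sub] at h1
    omega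
  · intro X hX hne
    obtain ⟨z, hz, hlt⟩ := hw.fd X hX hne
    rw [key z _ (Finset.sdiff_subset.trans hw.sub)] at hlt
    exact ⟨z, hz, by omega⟩

/-- TARGET. -/
theorem stp_eq_gs {v : V} {G : Finset V} (hv : v ∉ G) (ζ : V → ℕ) : stp D r v G ζ = gs D r 0 (dgi D {v}) G ζ := by
  have hw := isWave_wav (D := D) (r := r) v G ζ
  have key : ∀ (z : V) (S : Finset V), S ⊆ G → dg D z (insert v S) = dgi D {v} z + dg D z S := by
    intro z S hS
    rw [dg_insert (fun h' => hv (hS h'))]
    unfold dgi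
    rw [dg_singleton]
    omega
  funext z
  unfold stp gs
  rw [key z _ hw.sub, wav_eq_gw hv]
  simp only [Pi.zero_apply, tsub_zero, add_assoc]

/-! ### the wave operator -/

/-- TARGET. (on the wave, `ζ z + g z + dg z (gw) > r` by `gw_fd` with `X = {z}`) -/
theorem gs_balance {w g : V → ℕ} {G : Finset V} {ζ : V → ℕ} {z : V} (hz : z ∈ G) :
    gs D r w g G ζ z + (if z ∈ gw D r g G ζ then r - w z else 0) = ζ z + g z + dg D z (gw D r g G ζ) := by
  by_cases h : z ∈ gw D r g G ζ
  · obtain ⟨y, hy, hlt⟩ := gw_fd (Finset.singleton_subset_iff.2 h) (Finset.singleton_nonempty z)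
    rw [Finset.mem_singleton] at hy
    subst hy
    have h2 : dg D y (gw D r g G ζ \ {y}) ≤ dg D y (gw D r g G ζ) := dg_mono Finset.sdiff_subset
    simp only [gs, hz, h, if_true]
    omega
  · simp only [gs, hz, h, if_true, if_false]
    omega

/-- TARGET. the wave operator maps `RcW w G` to itself. Config: for `z` in the wave `r < ζ z + g z + dg z gw`, so the new height is at
least `1 + w z`; it is at most `ζ z - r + w z + g z + dg z G ≤ r`; off the wave use `gw_GCl`. Weighted recurrence, for nonempty `U ⊆ G`: if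
`U ⊄ gw`, take `z ∈ U \ gw` with `dg z (U \ gw) + w z < ζ z`; then `dg z U + w z ≤ dg z (U \ gw) + dg z gw + w z < new height`. If `U ⊆ gw`
take `z ∈ U` from `gw_fd`: `r < ζ z + g z + dg z (gw \ U)` and the new height is `ζ z + g z + dg z (gw \ U) + dg z U + w z - r > dg z U + w z`
(compare with `stp_rec` in Basic.lean) -/
theorem gs_mem {w g : V → ℕ} {G : Finset V} (h : Adm D r w g G) {ζ : V → ℕ} (hζ : ζ ∈ RcW D r w G) :
    gs D r w g G ζ ∈ RcW D r w G := by
  rw [mem_RcW] at hζ ⊢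
  obtain ⟨hc, hr⟩ := hζ
  have hcl := gw_GCl (D := D) (r := r) g G ζ
  have hfd : ∀ z ∈ gw D r g G ζ, r < ζ z + g z + dg D z (gw D r g G ζ) := by
    intro z hz
    obtain ⟨y, hy, hlt⟩ := gw_fd (Finset.singleton_subset_iff.2 hz) (Finset.singleton_nonempty z)
    rw [Finset.mem_singleton] at hy
    subst hy
    have h2 : dg D y (gw D r g G ζ \ {y}) ≤ dg D y (gw D r g G ζ) := dg_mono Finset.sdiff_subset
    omega
  refine ⟨⟨?_, ?_⟩, ?_⟩
  · intro z hz
    have h1 := hc.1 z hz
    have h2 := h z hz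
    have h3 := gs_balance (D := D) (r := r) (w := w) (g := g) (ζ := ζ) hz
    have h4 : dg D z (gw D r g G ζ) ≤ dg D z G := dg_mono (gw_sub g G ζ)
    by_cases hw : z ∈ gw D r g G ζ
    · have h5 := hfd z hw
      rw [if_pos hw] at h3
      omega
    · have h5 := hcl.2 z hz hw
      rw [if_neg hw] at h3
      omega
  · intro z hz
    simp [gs, hz]
  · intro U hU hne
    by_cases hsub : U ⊆ gw D r g G ζ
    · obtain ⟨z, hz, hlt⟩ := gw_fd hsub hne
      refine ⟨z, hz, ?_⟩
      have h3 := gs_balance (D := D) (r := r) (w := w) (g := g) (ζ := ζ) (hU hz)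
      rw [if_pos (hsub hz)] at h3
      have h4 := dg_sdiff_add (D := D) (v := z) hsub
      have h2 := h z (hU hz)
      omega
    · have hne' : (U \ gw D r g G ζ).Nonempty := Finset.sdiff_nonempty.2 hsub
      obtain ⟨z, hz, hlt⟩ := hr (U \ gw D r g G ζ) (Finset.sdiff_subset.trans hU) hne'
      rw [Finset.mem_sdiff] at hz
      refine ⟨z, hz.1, ?_⟩
      have h3 := gs_balance (D := D) (r := r) (w := w) (g := g) (ζ := ζ) (hU hz.1)
      rw [if_neg hz.2] at h3
      have h4 : dg D z U ≤ dg D z (U \ gw D r g G ζ) + dg D z (gw D r g G ζ) := by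
        rw [← dg_union Finset.sdiff_disjoint]
        refine dg_mono ?_
        intro x hx
        by_cases hxW : x ∈ gw D r g G ζ
        · exact Finset.mem_union_right _ hxW
        · exact Finset.mem_union_left _ (Finset.mem_sdiff.2 ⟨hx, hxW⟩)
      omega

/-- TARGET. the unburnt set of the new configuration is the wave. `gw` is admissible for `ub` (on the wave the new height is
`ζ z + g z + dg z gw - r + w z ≤ w z + g z + dg z gw`). Conversely if `U ⊄ gw` and `new ≤ w + g + dg(., U)` on `U`, take `z ∈ U \ gw` with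
`dg z (U \ gw) + w z < ζ z`; new height `= ζ z + g z + dg z gw > w z + g z + dg z (U \ gw) + dg z gw ≥ w z + g z + dg z U`, a contradiction. -/
theorem ub_gs {w g : V → ℕ} {G : Finset V} (h : Adm D r w g G) {ζ : V → ℕ} (hζ : ζ ∈ RcW D r w G) :
    ub D w g G (gs D r w g G ζ) = gw D r g G ζ := by
  have hζ' := hζ
  rw [mem_RcW] at hζ
  obtain ⟨hc, hr⟩ := hζ
  have hcl := gw_GCl (D := D) (r := r) g G ζ
  refine Finset.Subset.antisymm ?_ ?_
  · unfold ub
    refine Finset.sup_le ?_
    intro U hU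
    rw [Finset.mem_filter, Finset.mem_powerset] at hU
    obtain ⟨hUG, hU⟩ := hU
    simp only [id_eq]
    by_contra hsub
    have hne' : (U \ gw D r g G ζ).Nonempty := Finset.sdiff_nonempty.2 hsub
    obtain ⟨z, hz, hlt⟩ := hr (U \ gw D r g G ζ) (Finset.sdiff_subset.trans hUG) hne'
    rw [Finset.mem_sdiff] at hz
    have h3 := gs_balance (D := D) (r := r) (w := w) (g := g) (ζ := ζ) (hUG hz.1)
    rw [if_neg hz.2] at h3
    have h5 := hU z hz.1
    have h4 : dg D z U ≤ dg D z (U \ gw D r g G ζ) + dg D z (gw D r g G ζ) := by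
      rw [← dg_union Finset.sdiff_disjoint]
      refine dg_mono ?_
      intro x hx
      by_cases hxW : x ∈ gw D r g G ζ
      · exact Finset.mem_union_right _ hxW
      · exact Finset.mem_union_left _ (Finset.mem_sdiff.2 ⟨hx, hxW⟩)
    omega
  · unfold ub
    have hmem : gw D r g G ζ ∈ G.powerset.filter
        (fun U => ∀ y ∈ U, gs D r w g G ζ y ≤ w y + g y + dg D y U) := by
      rw [Finset.mem_filter, Finset.mem_powerset]
      refine ⟨gw_sub g G ζ, ?_⟩
      intro y hy
      have hyG := gw_sub (D := D) (r := r) g G ζ hy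
      have h3 := gs_balance (D := D) (r := r) (w := w) (g := g) (ζ := ζ) hyG
      rw [if_pos hy] at h3
      have h1 := hc.1 y hyG
      have h2 := h y hyG
      omega
    exact Finset.le_sup (f := id) hmem

/-- TARGET. by `ub_gs` the wave is determined by the new configuration, then `ζ` by `gs_balance` (off `G` all are `0`) -/
theorem gs_injOn {w g : V → ℕ} {G : Finset V} (h : Adm D r w g G) :
    Set.InjOn (gs D r w g G) (RcW D r w G : Set (V → ℕ)) := by
  intro ζ₁ h₁ ζ₂ h₂ he
  rw [Finset.mem_coe] at h₁ h₂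
  have hW : gw D r g G ζ₁ = gw D r g G ζ₂ := by
    rw [← ub_gs h h₁, ← ub_gs h h₂, he]
  funext z
  by_cases hz : z ∈ G
  · have b1 := gs_balance (D := D) (r := r) (w := w) (g := g) (ζ := ζ₁) hz
    have b2 := gs_balance (D := D) (r := r) (w := w) (g := g) (ζ := ζ₂) hz
    rw [← hW, ← he] at b2
    omega
  · rw [((mem_RcW.1 h₁).1.2 z hz), ((mem_RcW.1 h₂).1.2 z hz)]

/-- TARGET. sums over `RcW w G` are invariant under the wave operator (an injection of a finite set into itself; see `sum_stp`) -/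
theorem sum_gs {w g : V → ℕ} {G : Finset V} (h : Adm D r w g G) {M : Type*} [AddCommMonoid M] (f : (V → ℕ) → M) :
    ∑ ζ ∈ RcW D r w G, f (gs D r w g G ζ) = ∑ ζ ∈ RcW D r w G, f ζ := by
  have himg : (RcW D r w G).image (gs D r w g G) = RcW D r w G := by
    refine Finset.eq_of_subset_of_card_le ?_ ?_
    · intro ζ hζ
      obtain ⟨ζ', h', rfl⟩ := Finset.mem_image.1 hζ
      exact gs_mem h h'
    · rw [Finset.card_image_of_injOn (gs_injOn h)]
  conv_rhs => rw [← himg]
  rw [Finset.sum_image (gs_injOn h)]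

/-- TARGET. `ξ ∈ RcW w G` is in `RcW (w + g) G` iff its unburnt set is empty -/
theorem mem_RcW_add {w g : V → ℕ} {G : Finset V} {ξ : V → ℕ} (hξ : ξ ∈ RcW D r w G) :
    ξ ∈ RcW D r (w + g) G ↔ ub D w g G ξ = ∅ := by
  rw [mem_RcW] at hξ ⊢
  constructor
  · rintro ⟨_, hr⟩
    refine Finset.subset_empty.1 ?_
    unfold ub
    refine Finset.sup_le ?_
    intro U hU
    rw [Finset.mem_filter, Finset.mem_powerset] at hU
    obtain ⟨hUG, hU⟩ := hU
    simp only [id_eq, Finset.subset_empty]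
    by_contra hne
    obtain ⟨z, hz, hlt⟩ := hr U hUG (Finset.nonempty_iff_ne_empty.2 hne)
    have h1 := hU z hz
    simp only [Pi.add_apply] at hlt
    omega
  · intro hub
    refine ⟨hξ.1, ?_⟩
    intro U hU hne
    by_contra hcon
    push Not at hcon
    have hmem : U ∈ G.powerset.filter (fun U => ∀ y ∈ U, ξ y ≤ w y + g y + dg D y U) := by
      rw [Finset.mem_filter, Finset.mem_powerset]
      refine ⟨hU, ?_⟩
      intro y hy
      have h1 := hcon y hy
      simp only [Pi.add_apply] at h1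
      omega
    have h2 : U ⊆ ub D w g G ξ := by
      unfold ub
      exact Finset.le_sup (f := id) hmem
    rw [hub, Finset.subset_empty] at h2
    exact hne.ne_empty h2

/-- TARGET. hence (by `sum_gs`, `ub_gs`) -/
theorem card_RcW_add {w g : V → ℕ} {G : Finset V} (h : Adm D r w g G) :
    (RcW D r (w + g) G).card = ((RcW D r w G).filter (fun ζ => gw D r g G ζ = ∅)).card := by
  have he : RcW D r (w + g) G = (RcW D r w G).filter (fun ξ => ub D w g G ξ = ∅) := by
    ext ξ
    rw [Finset.mem_filter]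
    constructor
    · intro hξ
      have h1 : ξ ∈ RcW D r w G := by
        rw [mem_RcW] at hξ ⊢
        exact ⟨hξ.1, hξ.2.mono_w (fun z _ => by simp)⟩
      exact ⟨h1, (mem_RcW_add h1).1 hξ⟩
    · rintro ⟨h1, h2⟩
      exact (mem_RcW_add h1).2 h2
  rw [he, Finset.card_filter, Finset.card_filter, ← sum_gs h (fun ξ => if ub D w g G ξ = ∅ then 1 else 0)]
  refine Finset.sum_congr rfl ?_
  intro ζ hζ
  rw [ub_gs h hζ]

/-- TARGET. the law of the unburnt set is the law of the wave -/
theorem sum_ub {w g : V → ℕ} {G : Finset V} (h : Adm D r w g G) {M : Type*} [AddCommMonoid M] (f : Finset V → M) :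
    ∑ ξ ∈ RcW D r w G, f (ub D w g G ξ) = ∑ ζ ∈ RcW D r w G, f (gw D r g G ζ) := by
  rw [← sum_gs h (fun ξ => f (ub D w g G ξ))]
  refine Finset.sum_congr rfl ?_
  intro ζ hζ
  rw [ub_gs h hζ]

/-- TARGET. sum `gs_balance` over `RcW w G` and use `sum_gs` for the height at `z`; note `Adm` gives `w z ≤ r` -/
theorem qw_harm {w g : V → ℕ} {G : Finset V} (h : Adm D r w g G) (hne : (RcW D r w G).Nonempty) {z : V} (hz : z ∈ G) :
    ((r : ℝ) - w z) * qw D r w g G z = g z + ∑ z' ∈ G, if D.Adj z z' then qw D r w g G z' else 0 := by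
  have hN : (0 : ℝ) < (RcW D r w G).card := by exact_mod_cast hne.card_pos
  have hwr : w z ≤ r := by have := h z hz; omega
  have hbal : ∀ ζ ∈ RcW D r w G, (gs D r w g G ζ z : ℝ) + (if z ∈ gw D r g G ζ then ((r : ℝ) - w z) else 0) =
      (ζ z : ℝ) + g z + ∑ z' ∈ G, (if D.Adj z z' then (if z' ∈ gw D r g G ζ then (1 : ℝ) else 0) else 0) := by
    intro ζ _
    have h3 := gs_balance (D := D) (r := r) (w := w) (g := g) (ζ := ζ) hz
    have h4 : (dg D z (gw D r g G ζ) : ℝ) =
        ∑ z' ∈ G, (if D.Adj z z' then (if z' ∈ gw D r g G ζ then (1 : ℝ) else 0) else 0) := by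
      rw [dg_eq_sum]
      push_cast
      rw [← Finset.sum_subset (gw_sub (D := D) (r := r) g G ζ)]
      · refine Finset.sum_congr rfl ?_
        intro x hx
        simp [hx]
      · intro x _ hx
        simp [hx]
    rw [← h4]
    have h5 := congrArg (fun n : ℕ => (n : ℝ)) h3
    push_cast at h5
    rw [← h5]
    split_ifs with hzz
    · rw [Nat.cast_sub hwr]
    · simp
  have hsum := Finset.sum_congr rfl hbal
  rw [Finset.sum_add_distrib, Finset.sum_add_distrib, Finset.sum_add_distrib,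
    sum_gs h (fun ζ => (ζ z : ℝ)), Finset.sum_comm, Finset.sum_const, nsmul_eq_mul] at hsum
  have hcard : ∀ x : V, (((RcW D r w G).filter (fun ζ => x ∈ gw D r g G ζ)).card : ℝ) =
      ∑ ζ ∈ RcW D r w G, (if x ∈ gw D r g G ζ then (1 : ℝ) else 0) := by
    intro x
    rw [Finset.card_filter]
    push_cast
    rfl
  have hL : ∑ ζ ∈ RcW D r w G, (if z ∈ gw D r g G ζ then ((r : ℝ) - w z) else 0) =
      ((r : ℝ) - w z) * ∑ ζ ∈ RcW D r w G, (if z ∈ gw D r g G ζ then (1 : ℝ) else 0) := by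
    rw [Finset.mul_sum]
    refine Finset.sum_congr rfl ?_
    intro ζ _
    split_ifs <;> ring
  have hR : ∑ z' ∈ G, ∑ ζ ∈ RcW D r w G, (if D.Adj z z' then (if z' ∈ gw D r g G ζ then (1 : ℝ) else 0) else 0) =
      (RcW D r w G).card * ∑ z' ∈ G, (if D.Adj z z' then qw D r w g G z' else 0) := by
    rw [Finset.mul_sum]
    refine Finset.sum_congr rfl ?_
    intro x _
    by_cases hx : D.Adj z x
    · simp only [hx, if_true]
      rw [← hcard x, t1_qw_eq]
      field_simp
    · simp [hx]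
  rw [hL, hR, ← hcard z] at hsum
  rw [t1_qw_eq, ← mul_div_assoc, div_eq_iff hN.ne']
  linarith

/-- TARGET. -/
theorem qw_notMem {w g : V → ℕ} {G : Finset V} {z : V} (hz : z ∉ G) : qw D r w g G z = 0 := by
  rw [t1_qw_eq]
  have he : (RcW D r w G).filter (fun ζ => z ∈ gw D r g G ζ) = ∅ := by
    rw [Finset.filter_eq_empty_iff]
    exact fun ζ _ h' => hz (gw_sub g G ζ h')
  rw [he]
  simp

/-- TARGET. -/
theorem qw_nonneg {w g : V → ℕ} {G : Finset V} {z : V} : 0 ≤ qw D r w g G z := by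
  unfold qw prw
  positivity

/-- TARGET. -/
theorem qw_le_one {w g : V → ℕ} {G : Finset V} {z : V} : qw D r w g G z ≤ 1 := by
  rw [t1_qw_eq]
  exact div_le_one_of_le₀ (by exact_mod_cast Finset.card_filter_le _ _) (by positivity)

/-- TARGET. for `g = dl y` (one grain at `y`) the wave is nonempty iff it contains `y` (use `gw_fd` with `X = gw`, resp. that `gw = ∅` is absorbing iff ...; heights are at most `r`) -/
theorem gw_dl_empty {w : V → ℕ} {G : Finset V} {y : V} {ζ : V → ℕ} (hζ : ζ ∈ RcW D r w G) :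
    gw D r (dl y) G ζ = ∅ ↔ y ∉ gw D r (dl y) G ζ := by
  constructor
  · intro h
    rw [h]
    simp
  · intro hy
    by_contra hne
    obtain ⟨z, hz, hlt⟩ := gw_fd (Finset.Subset.refl (gw D r (dl y) G ζ)) (Finset.nonempty_iff_ne_empty.2 hne)
    rw [Finset.sdiff_self] at hlt
    rw [dg_empty] at hlt
    have h1 := ((mem_RcW.1 hζ).1.1 z (gw_sub _ G ζ hz)).2
    by_cases hzy : z = y
    · exact hy (hzy ▸ hz)
    · simp only [dl, hzy, if_false] at hlt
      omega

/-- TARGET. one more unit of weight at `y` -/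
theorem card_RcW_dl {w : V → ℕ} {G : Finset V} {y : V} (h : Adm D r w (dl y) G) (hne : (RcW D r w G).Nonempty) :
    ((RcW D r (w + dl y) G).card : ℝ) = (RcW D r w G).card * (1 - qw D r w (dl y) G y) := by
  have hN : (0 : ℝ) < (RcW D r w G).card := by exact_mod_cast hne.card_pos
  rw [card_RcW_add h]
  have he : (RcW D r w G).filter (fun ζ => gw D r (dl y) G ζ = ∅) =
      (RcW D r w G).filter (fun ζ => ¬ (y ∈ gw D r (dl y) G ζ)) := by
    refine Finset.filter_congr ?_
    intro ζ hζ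
    exact gw_dl_empty hζ
  rw [he]
  have h1 := Finset.card_filter_add_card_filter_not (s := RcW D r w G) (fun ζ => y ∈ gw D r (dl y) G ζ)
  have h2 : (((RcW D r w G).filter (fun ζ => y ∈ gw D r (dl y) G ζ)).card : ℝ) +
      (((RcW D r w G).filter (fun ζ => ¬ (y ∈ gw D r (dl y) G ζ))).card : ℝ) = (RcW D r w G).card := by
    exact_mod_cast h1
  rw [t1_qw_eq, mul_sub, mul_one, mul_div_cancel₀ _ hN.ne']
  linarith

/-- TARGET. raising heights preserves recurrence -/
theorem raise_mem {w : V → ℕ} {G : Finset V} {ζ ζ' : V → ℕ} (hζ : ζ ∈ RcW D r w G) (h1 : ∀ z ∈ G, ζ z ≤ ζ' z) (h2 : ∀ z ∈ G, ζ' z ≤ r)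
    (h3 : ∀ z, z ∉ G → ζ' z = 0) : ζ' ∈ RcW D r w G := by
  rw [mem_RcW] at hζ ⊢
  obtain ⟨hc, hr⟩ := hζ
  refine ⟨⟨fun z hz => ⟨(hc.1 z hz).1.trans (h1 z hz), h2 z hz⟩, h3⟩, ?_⟩
  intro U hU hne
  obtain ⟨z, hz, hlt⟩ := hr U hU hne
  exact ⟨z, hz, hlt.trans_le (h1 z (hU hz))⟩

/-- TARGET. pushing strongly recurrent configurations together: if `ζ` restricted to `B` is recurrent with weight the number of neighbours in `A`
and the restriction to `A` is recurrent, then `ζ` is recurrent on `A ∪ B` -/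
theorem union_mem {A B : Finset V} (hd : Disjoint A B) {ζ : V → ℕ} (h1 : rs A ζ ∈ Rc D r A) (h2 : rs B ζ ∈ RcW D r (dgi D A) B)
    (h3 : ∀ z, z ∉ A ∪ B → ζ z = 0) : ζ ∈ Rc D r (A ∪ B) := by
  rw [mem_Rc] at h1 ⊢
  rw [mem_RcW] at h2
  obtain ⟨hc1, hr1⟩ := h1
  obtain ⟨hc2, hr2⟩ := h2
  refine ⟨⟨?_, h3⟩, ?_⟩
  · intro z hz
    rcases Finset.mem_union.1 hz with hz | hz
    · have := hc1.1 z hz
      rwa [rs_mem hz] at this
    · have := hc2.1 z hz
      rwa [rs_mem hz] at this
  · intro U hU hne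
    by_cases hB : (U ∩ B).Nonempty
    · obtain ⟨z, hz, hlt⟩ := hr2 (U ∩ B) Finset.inter_subset_right hB
      rw [Finset.mem_inter] at hz
      refine ⟨z, hz.1, ?_⟩
      rw [rs_mem hz.2] at hlt
      unfold dgi at hlt
      have hd' : Disjoint (U ∩ B) A := by
        rw [Finset.disjoint_left]
        intro x hx hxA
        exact (Finset.disjoint_left.1 hd hxA) (Finset.mem_inter.1 hx).2
      have h4 : dg D z U ≤ dg D z (U ∩ B) + dg D z A := by
        rw [← dg_union hd']
        refine dg_mono ?_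
        intro x hx
        rcases Finset.mem_union.1 (hU hx) with h' | h'
        · exact Finset.mem_union_right _ h'
        · exact Finset.mem_union_left _ (Finset.mem_inter.2 ⟨hx, h'⟩)
      simp only [Pi.zero_apply, add_zero]
      omega
    · have hUA : U ⊆ A := by
        intro x hx
        rcases Finset.mem_union.1 (hU hx) with h' | h'
        · exact h'
        · exact absurd ⟨x, Finset.mem_inter.2 ⟨hx, h'⟩⟩ hB
      obtain ⟨z, hz, hlt⟩ := hr1 U hUA hne
      rw [rs_mem (hUA hz)] at hlt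
      exact ⟨z, hz, hlt⟩

end Pool.Agent.Helper910.QT
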