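import Mathlib
import Pool.Agent.Helper910.T1

/-! The pivot lemma (MP_4555f0_mp) -/

namespace Pool.Agent.Helper910.QT

open Classical Finset

variable {V : Type*} {D : SimpleGraph V} [D.LocallyFinite] {r : ℕ}

theorem Gd.degLe (H : Gd D r) : DegLe D r := by
  intro v S
  have h1 : dg D v S ≤ (D.neighborFinset v).card := by
    unfold dg
    refine Finset.card_le_card ?_
    intro w hw
    rw [Finset.mem_filter] at hw
    rw [SimpleGraph.mem_neighborFinset]
    exact hw.2
  rw [SimpleGraph.card_neighborFinset_eq_degree, H.reg v] at h1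
  exact h1

/-- TARGET. if `dg z X = r` then all neighbours of `z` are in `X` -/
theorem Gd.full_nbr (H : Gd D r) {z : V} {X : Finset V} (h : r ≤ dg D z X) : ∀ x, D.Adj z x → x ∈ X := by
  intro x hx
  by_contra hxX
  have h1 := H.degLe z (insert x X)
  rw [dg_insert hxX] at h1
  simp only [hx, if_true] at h1
  omega

/-- TARGET. a finite nonempty set has a vertex with a neighbour outside (connected, infinite) -/
theorem Gd.exit (H : Gd D r) {U : Finset V} (hU : U.Nonempty) : ∃ z ∈ U, ∃ b, b ∉ U ∧ D.Adj z b := by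
  by_contra hcon
  push Not at hcon
  obtain ⟨q, hq⟩ := hU
  have hall : ∀ z, z ∈ U := by
    intro z
    refine reach_ind (G := D) (P := fun z => z ∈ U) (a := q) hq ?_ (H.conn.preconnected q z)
    intro a b _ ha hab
    by_contra hb
    exact hcon a ha b hb hab
  have := H.inf
  exact (Set.infinite_univ (α := V)) ((Finset.finite_toSet U).subset (fun z _ => hall z))

/-- TARGET. (see `Ctx.exit_dg`) -/
theorem Gd.exit_dg (H : Gd D r) {U : Finset V} (hU : U.Nonempty) : ∃ z ∈ U, dg D z U < r := by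
  obtain ⟨z, hz, b, hb, hab⟩ := H.exit hU
  refine ⟨z, hz, ?_⟩
  have h1 := H.degLe z (insert b U)
  rw [dg_insert hb] at h1
  simp only [hab, if_true] at h1
  omega

/-- TARGET. -/
theorem Gd.one_le (H : Gd D r) : 1 ≤ r := by
  have := H.inf
  obtain ⟨q⟩ : Nonempty V := inferInstance
  obtain ⟨z, hz, hlt⟩ := H.exit_dg (U := {q}) ⟨q, Finset.mem_singleton_self q⟩
  omega

/-- TARGET. the constant configuration `r` is recurrent -/
theorem Gd.top_mem (H : Gd D r) (G : Finset V) : rs G (fun _ => r) ∈ Rc D r G := by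
  rw [mem_Rc]
  refine ⟨⟨fun v hv => ?_, fun v hv => rs_notMem hv⟩, ?_⟩
  · rw [rs_mem hv]; exact ⟨H.one_le, le_refl _⟩
  · intro U hU hne
    obtain ⟨z, hz, hlt⟩ := H.exit_dg hne
    refine ⟨z, hz, ?_⟩
    rw [rs_mem (hU hz)]
    simpa using hlt

/-- TARGET. -/
theorem Gd.card_pos (H : Gd D r) (G : Finset V) : 0 < (Rc D r G).card :=
  Finset.card_pos.2 ⟨_, H.top_mem G⟩

/-- the data of a pivot: `G1` (outside), `S` (full pieces), `B` (below), `g` an input -/
structure Piv (D : SimpleGraph V) (r : ℕ) (g : V → ℕ) (G1 S B : Finset V) : Prop where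
  d1 : Disjoint G1 S
  d2 : Disjoint G1 B
  d3 : Disjoint S B
  na : ∀ x ∈ G1, ∀ y ∈ B, ¬ D.Adj x y
  gB : ∀ z ∈ B, g z = 0
  adm : Adm D r 0 g (G1 ∪ S ∪ B)

/-- `ζ1` is a triggering configuration: all heights on `S` are `r`, and each vertex of `S` is joined inside `S` to a toppled vertex -/
def Trg (D : SimpleGraph V) (r : ℕ) (g : V → ℕ) (G1 S : Finset V) (ζ1 : V → ℕ) : Prop :=
  (∀ z ∈ S, ζ1 z = r) ∧ ∀ z ∈ S, ∃ x ∈ gw D r g (G1 ∪ S) ζ1, ∃ p : D.Walk z x, ∀ y ∈ p.support, y ∈ S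

/-- TARGET. all of `S` topples (a neighbour of a toppled vertex with height `r` topples) -/
theorem Trg.sub {g : V → ℕ} {G1 S : Finset V} {ζ1 : V → ℕ} (h : Trg D r g G1 S ζ1) : S ⊆ gw D r g (G1 ∪ S) ζ1 := by
  have key : ∀ (z x : V) (p : D.Walk z x), (∀ y ∈ p.support, y ∈ S) → x ∈ gw D r g (G1 ∪ S) ζ1 →
      z ∈ gw D r g (G1 ∪ S) ζ1 := by
    intro z x p
    induction p with
    | nil => intro _ hx; exact hx
    | cons hadj q ih =>
      rename_i a b c
      intro hs hx
      have hb : b ∈ gw D r g (G1 ∪ S) ζ1 := by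
        refine ih (fun y hy => hs y ?_) hx
        rw [SimpleGraph.Walk.support_cons]
        exact List.mem_cons_of_mem _ hy
      have ha : a ∈ S := hs a (SimpleGraph.Walk.start_mem_support _)
      by_contra hna
      have h1 := (gw_GCl (D := D) (r := r) g (G1 ∪ S) ζ1).2 a (Finset.mem_union_right _ ha) hna
      have h2 : ζ1 a = r := h.1 a ha
      have h3 : dg D a {b} ≤ dg D a (gw D r g (G1 ∪ S) ζ1) := dg_mono (Finset.singleton_subset_iff.2 hb)
      rw [dg_singleton] at h3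
      simp only [hadj, if_true] at h3
      omega
  intro z hz
  obtain ⟨x, hx, p, hp⟩ := h.2 z hz
  exact key z x p hp hx

/-- TARGET (recurrence). Let `ζ2 ∈ Rc B` be arbitrary, `ζ = ζ1` on `G1 ∪ S`, `ζ2` on `B`. Proof: let `X` be nonempty with `ζ ≤ dg(., X)` on `X`.
If `X ∩ S = ∅`: `X = (X ∩ G1) ∪ (X ∩ B)` with no edges between, so one of the two parts is nonempty and contradicts recurrence of `ζ1`, `ζ2`.
If `X ∩ S ≠ ∅`: for `z ∈ X ∩ S`, `r = ζ z ≤ dg z X`, so all neighbours of `z` are in `X` (`Gd.full_nbr`); following the walk inside `S` from `z`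
the end `x ∈ gw` is in `X`. So `X ∩ W ≠ ∅` where `W = gw g (G1 ∪ S) ζ1`. By `gw_fd` there is `y ∈ X ∩ W` with `r < ζ1 y + g y + dg y (W \ X)`.
But `ζ1 y ≤ dg y X` and `dg y X + dg y (W \ X) + g y ≤ g y + dg y (G1 ∪ S ∪ B) ≤ r` by admissibility. Contradiction. -/
theorem piv_mem (H : Gd D r) {g : V → ℕ} {G1 S B : Finset V} (P : Piv D r g G1 S B) {ζ : V → ℕ}
    (h0 : ∀ z, z ∉ G1 ∪ S ∪ B → ζ z = 0)
    (h1 : rs (G1 ∪ S) ζ ∈ Rc D r (G1 ∪ S)) (h2 : rs B ζ ∈ Rc D r B) (ht : Trg D r g G1 S (rs (G1 ∪ S) ζ)) :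
    ζ ∈ Rc D r (G1 ∪ S ∪ B) := by
  have c1 := (mem_Rc.1 h1).1
  have c2 := (mem_Rc.1 h2).1
  have r1 : RecW D 0 (G1 ∪ S) ζ := (mem_Rc.1 h1).2.congr (fun z hz => rs_mem hz)
  have r2 : RecW D 0 B ζ := (mem_Rc.1 h2).2.congr (fun z hz => rs_mem hz)
  rw [mem_Rc]
  refine ⟨⟨?_, h0⟩, ?_⟩
  · intro z hz
    rcases Finset.mem_union.1 hz with hz | hz
    · have := c1.1 z hz
      rwa [rs_mem hz] at this
    · have := c2.1 z hz
      rwa [rs_mem hz] at this
  · intro X hX hne
    by_contra hcon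
    push Not at hcon
    have hc : ∀ z ∈ X, ζ z ≤ dg D z X := by
      intro z hz
      have := hcon z hz
      simpa using this
    by_cases hXS : ∃ z, z ∈ X ∧ z ∈ S
    · obtain ⟨z, hzX, hzS⟩ := hXS
      have key : ∀ (z x : V) (p : D.Walk z x), (∀ y ∈ p.support, y ∈ S) → z ∈ X → x ∈ X := by
        intro z x p
        induction p with
        | nil => intro _ hx; exact hx
        | cons hadj q ih =>
          rename_i a b c
          intro hs ha
          refine ih (fun y hy => hs y ?_) ?_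
          · rw [SimpleGraph.Walk.support_cons]
            exact List.mem_cons_of_mem _ hy
          · have haS : a ∈ S := hs a (SimpleGraph.Walk.start_mem_support _)
            have e1 : ζ a = r := by
              have := ht.1 a haS
              rwa [rs_mem (Finset.mem_union_right _ haS)] at this
            exact H.full_nbr (by have := hc a ha; omega) b hadj
      obtain ⟨x, hxW, p, hp⟩ := ht.2 z hzS
      have hxX : x ∈ X := key z x p hp hzX
      obtain ⟨y, hy, hlt⟩ := gw_fd (D := D) (r := r) (g := g) (G := G1 ∪ S) (ζ := rs (G1 ∪ S) ζ)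
        (X := X ∩ gw D r g (G1 ∪ S) (rs (G1 ∪ S) ζ)) Finset.inter_subset_right
        ⟨x, Finset.mem_inter.2 ⟨hxX, hxW⟩⟩
      rw [Finset.mem_inter] at hy
      have hyG : y ∈ G1 ∪ S := gw_sub _ _ _ hy.2
      rw [rs_mem hyG] at hlt
      have h3 := hc y hy.1
      have h4 : dg D y X + dg D y (gw D r g (G1 ∪ S) (rs (G1 ∪ S) ζ) \ (X ∩ gw D r g (G1 ∪ S) (rs (G1 ∪ S) ζ))) ≤
          dg D y (G1 ∪ S ∪ B) := by
        rw [← dg_union]
        · refine dg_mono ?_
          refine Finset.union_subset hX ?_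
          refine Finset.sdiff_subset.trans ?_
          exact (gw_sub _ _ _).trans Finset.subset_union_left
        · rw [Finset.disjoint_left]
          intro a ha hb
          rw [Finset.mem_sdiff, Finset.mem_inter] at hb
          exact hb.2 ⟨ha, hb.1⟩
      have h5 := P.adm y (Finset.mem_union_left _ hyG)
      simp only [Pi.zero_apply] at h5
      omega
    · push Not at hXS
      have hsplit : X = (X ∩ G1) ∪ (X ∩ B) := by
        ext z
        constructor
        · intro hz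
          have h3 := hX hz
          have h4 := hXS z hz
          rw [Finset.mem_union, Finset.mem_union] at h3
          rw [Finset.mem_union, Finset.mem_inter, Finset.mem_inter]
          rcases h3 with (h3 | h3) | h3
          · exact Or.inl ⟨hz, h3⟩
          · exact absurd h3 h4
          · exact Or.inr ⟨hz, h3⟩
        · intro hz
          rw [Finset.mem_union, Finset.mem_inter, Finset.mem_inter] at hz
          rcases hz with hz | hz
          · exact hz.1
          · exact hz.1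
      have hdis : Disjoint (X ∩ G1) (X ∩ B) :=
        Finset.disjoint_of_subset_left Finset.inter_subset_right
          (Finset.disjoint_of_subset_right Finset.inter_subset_right P.d2)
      by_cases hne1 : (X ∩ G1).Nonempty
      · obtain ⟨z, hz, hlt⟩ := r1 (X ∩ G1) (Finset.inter_subset_right.trans Finset.subset_union_left) hne1
        rw [Finset.mem_inter] at hz
        have h3 := hc z hz.1
        have h4 : dg D z X = dg D z (X ∩ G1) + dg D z (X ∩ B) := by
          conv_lhs => rw [hsplit]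
          exact dg_union hdis
        have h5 : dg D z (X ∩ B) = 0 := dg_eq_zero (fun w hw => P.na z hz.2 w (Finset.mem_inter.1 hw).2)
        simp only [Pi.zero_apply] at hlt
        omega
      · have hne2 : (X ∩ B).Nonempty := by
          rw [hsplit] at hne
          rcases hne with ⟨a, ha⟩
          rcases Finset.mem_union.1 ha with ha | ha
          · exact absurd ⟨a, ha⟩ hne1
          · exact ⟨a, ha⟩
        obtain ⟨z, hz, hlt⟩ := r2 (X ∩ B) Finset.inter_subset_right hne2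
        rw [Finset.mem_inter] at hz
        have h3 := hc z hz.1
        have h4 : dg D z X = dg D z (X ∩ G1) + dg D z (X ∩ B) := by
          conv_lhs => rw [hsplit]
          exact dg_union hdis
        have h5 : dg D z (X ∩ G1) = 0 :=
          dg_eq_zero (fun w hw hadj => P.na w (Finset.mem_inter.1 hw).2 z hz.2 hadj.symm)
        simp only [Pi.zero_apply] at hlt
        omega

theorem piv_disj {g : V → ℕ} {G1 S B W W' : Finset V} (P : Piv D r g G1 S B) (hW : W ⊆ G1 ∪ S) (hW' : W' ⊆ B) :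
    Disjoint W W' := by
  refine Finset.disjoint_of_subset_left hW (Finset.disjoint_of_subset_right hW' ?_)
  exact Finset.disjoint_union_left.2 ⟨P.d2, P.d3⟩

theorem t2_dg_right {g : V → ℕ} {G1 S B W' : Finset V} (P : Piv D r g G1 S B) {y : V} (hy : y ∈ G1) (hW' : W' ⊆ B) :
    dg D y W' = 0 := dg_eq_zero (fun w hw => P.na y hy w (hW' hw))

theorem t2_dg_left {g : V → ℕ} {G1 S B W : Finset V} (P : Piv D r g G1 S B) {y : V} (hy : y ∈ B) (hS : S ⊆ W)
    (hW : W ⊆ G1 ∪ S) : dg D y W = dg D y S := by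
  have h1 : dg D y W = dg D y (W \ S) + dg D y S := (dg_sdiff_add hS).symm
  have h2 : dg D y (W \ S) = 0 := by
    refine dg_eq_zero (fun w hw hadj => ?_)
    rw [Finset.mem_sdiff] at hw
    rcases Finset.mem_union.1 (hW hw.1) with h | h
    · exact P.na w h y hy hadj.symm
    · exact hw.2 h
  omega

/-- TARGET (waves). the wave is the union of the wave on `G1 ∪ S` and of the full wave from `S` on `B`.
`⊆`: the union is absorbing: for `y ∈ G1`, `dg y B-part = 0`; for `y ∈ B`, `dg y (W) = dg y S`-part since `W ∩ G1` is not adjacent to `B` and `S ⊆ W`.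
`⊇`: `W ⊆ gw` by `gw_mono`, so `S ⊆ gw`, and then `gw ∩ B` absorbs the wave on `B`. (Recurrence is not needed.) -/
theorem piv_gw {g : V → ℕ} {G1 S B : Finset V} (P : Piv D r g G1 S B) {ζ : V → ℕ}
    (ht : Trg D r g G1 S (rs (G1 ∪ S) ζ)) :
    gw D r g (G1 ∪ S ∪ B) ζ = gw D r g (G1 ∪ S) (rs (G1 ∪ S) ζ) ∪ gw D r (dgi D S) B (rs B ζ) := by
  have hW : gw D r g (G1 ∪ S) (rs (G1 ∪ S) ζ) ⊆ G1 ∪ S := gw_sub _ _ _
  have hW' : gw D r (dgi D S) B (rs B ζ) ⊆ B := gw_sub _ _ _
  have hS := ht.sub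
  have hsub : gw D r g (G1 ∪ S) (rs (G1 ∪ S) ζ) ⊆ gw D r g (G1 ∪ S ∪ B) ζ := by
    refine gw_mono Finset.subset_union_left ?_
    intro y hy
    rw [rs_mem hy]
  refine Finset.Subset.antisymm ?_ ?_
  · refine gw_least' ?_
    intro y hy hyn
    rw [Finset.mem_union, not_or] at hyn
    have hdu : dg D y (gw D r g (G1 ∪ S) (rs (G1 ∪ S) ζ) ∪ gw D r (dgi D S) B (rs B ζ)) =
        dg D y (gw D r g (G1 ∪ S) (rs (G1 ∪ S) ζ)) + dg D y (gw D r (dgi D S) B (rs B ζ)) :=
      dg_union (piv_disj P hW hW')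
    rw [Finset.mem_union, Finset.mem_union] at hy
    rcases hy with (hy | hy) | hy
    · have h1 := (gw_GCl (D := D) (r := r) g (G1 ∪ S) (rs (G1 ∪ S) ζ)).2 y (Finset.mem_union_left _ hy) hyn.1
      rw [rs_mem (Finset.mem_union_left _ hy)] at h1
      have h2 := t2_dg_right P (D := D) hy hW'
      omega
    · exact absurd (hS hy) hyn.1
    · have h1 := (gw_GCl (D := D) (r := r) (dgi D S) B (rs B ζ)).2 y hy hyn.2
      rw [rs_mem hy] at h1
      have h2 := t2_dg_left P (D := D) hy hS hW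
      have h3 := P.gB y hy
      have h4 : dgi D S y = dg D y S := rfl
      omega
  · refine Finset.union_subset hsub ?_
    have : gw D r (dgi D S) B (rs B ζ) ⊆ gw D r g (G1 ∪ S ∪ B) ζ ∩ B := by
      refine gw_least' ?_
      intro y hy hyn
      have hyn' : y ∉ gw D r g (G1 ∪ S ∪ B) ζ := fun h => hyn (Finset.mem_inter.2 ⟨h, hy⟩)
      have h1 := (gw_GCl (D := D) (r := r) g (G1 ∪ S ∪ B) ζ).2 y (Finset.mem_union_right _ hy) hyn'
      rw [rs_mem hy]
      have h2 : dg D y S + dg D y (gw D r g (G1 ∪ S ∪ B) ζ ∩ B) ≤ dg D y (gw D r g (G1 ∪ S ∪ B) ζ) := by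
        rw [← dg_union (Finset.disjoint_of_subset_right Finset.inter_subset_right P.d3)]
        exact dg_mono (Finset.union_subset (hS.trans hsub) Finset.inter_subset_left)
      have h4 : dgi D S y = dg D y S := rfl
      omega
    exact this.trans Finset.inter_subset_left

/-- TARGET. the configuration after the wave, on `G1` -/
theorem piv_gs1 {g : V → ℕ} {G1 S B : Finset V} (P : Piv D r g G1 S B) {ζ : V → ℕ}
    (ht : Trg D r g G1 S (rs (G1 ∪ S) ζ)) {z : V} (hz : z ∈ G1) :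
    gs D r 0 g (G1 ∪ S ∪ B) ζ z = gs D r 0 g (G1 ∪ S) (rs (G1 ∪ S) ζ) z := by
  have hW : gw D r g (G1 ∪ S) (rs (G1 ∪ S) ζ) ⊆ G1 ∪ S := gw_sub _ _ _
  have hW' : gw D r (dgi D S) B (rs B ζ) ⊆ B := gw_sub _ _ _
  have hzS : z ∈ G1 ∪ S := Finset.mem_union_left _ hz
  have hzG : z ∈ G1 ∪ S ∪ B := Finset.mem_union_left _ hzS
  have hzB : z ∉ gw D r (dgi D S) B (rs B ζ) := fun h => Finset.disjoint_left.1 P.d2 hz (hW' h)
  have h2 : dg D z (gw D r g (G1 ∪ S) (rs (G1 ∪ S) ζ) ∪ gw D r (dgi D S) B (rs B ζ)) =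
      dg D z (gw D r g (G1 ∪ S) (rs (G1 ∪ S) ζ)) := by
    rw [dg_union (piv_disj P hW hW'), t2_dg_right P hz hW', add_zero]
  have h3 : (z ∈ gw D r g (G1 ∪ S) (rs (G1 ∪ S) ζ) ∪ gw D r (dgi D S) B (rs B ζ)) ↔
      z ∈ gw D r g (G1 ∪ S) (rs (G1 ∪ S) ζ) := by
    rw [Finset.mem_union]; exact or_iff_left hzB
  unfold gs
  rw [if_pos hzG, if_pos hzS, piv_gw P ht, h2, rs_mem hzS]
  simp only [h3]

/-- TARGET. the configuration after the wave, on `B` -/
theorem piv_gs2 {g : V → ℕ} {G1 S B : Finset V} (P : Piv D r g G1 S B) {ζ : V → ℕ}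
    (ht : Trg D r g G1 S (rs (G1 ∪ S) ζ)) {z : V} (hz : z ∈ B) :
    gs D r 0 g (G1 ∪ S ∪ B) ζ z = gs D r 0 (dgi D S) B (rs B ζ) z := by
  have hW : gw D r g (G1 ∪ S) (rs (G1 ∪ S) ζ) ⊆ G1 ∪ S := gw_sub _ _ _
  have hW' : gw D r (dgi D S) B (rs B ζ) ⊆ B := gw_sub _ _ _
  have hS := ht.sub
  have hzG : z ∈ G1 ∪ S ∪ B := Finset.mem_union_right _ hz
  have hzB : z ∉ gw D r g (G1 ∪ S) (rs (G1 ∪ S) ζ) := by
    intro h
    rcases Finset.mem_union.1 (hW h) with h | h
    · exact Finset.disjoint_left.1 P.d2 h hz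
    · exact Finset.disjoint_left.1 P.d3 h hz
  have h2 : dg D z (gw D r g (G1 ∪ S) (rs (G1 ∪ S) ζ) ∪ gw D r (dgi D S) B (rs B ζ)) =
      dgi D S z + dg D z (gw D r (dgi D S) B (rs B ζ)) := by
    rw [dg_union (piv_disj P hW hW'), t2_dg_left P hz hS hW]
    rfl
  have h3 : (z ∈ gw D r g (G1 ∪ S) (rs (G1 ∪ S) ζ) ∪ gw D r (dgi D S) B (rs B ζ)) ↔
      z ∈ gw D r (dgi D S) B (rs B ζ) := by
    rw [Finset.mem_union]; exact or_iff_right hzB
  unfold gs
  rw [if_pos hzG, if_pos hz, piv_gw P ht, h2, rs_mem hz, P.gB z hz]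
  simp only [h3, add_zero, add_assoc]

/-- TARGET. Exact independence: for an event `E1` on the outside which implies triggering, the configuration below is uniform.
The map `ζ ↦ (rs (G1 ∪ S) ζ, rs B ζ)` is a bijection from the `ζ ∈ Rc (G1 ∪ S ∪ B)` with `E1 (rs (G1 ∪ S) ζ)` onto
`{ζ1 ∈ Rc (G1 ∪ S) | E1 ζ1} × Rc B` (restrictions of recurrent configurations are recurrent, `rs_mem_Rc`; `piv_mem`). -/
theorem piv_sum (H : Gd D r) {g : V → ℕ} {G1 S B : Finset V} (P : Piv D r g G1 S B) (E1 : (V → ℕ) → Prop)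
    (hE : ∀ ζ1 ∈ Rc D r (G1 ∪ S), E1 ζ1 → Trg D r g G1 S ζ1) (h1 h2 : (V → ℕ) → ℝ) :
    ∑ ζ ∈ (Rc D r (G1 ∪ S ∪ B)).filter (fun ζ => E1 (rs (G1 ∪ S) ζ)), h1 (rs (G1 ∪ S) ζ) * h2 (rs B ζ) =
      (∑ ζ1 ∈ (Rc D r (G1 ∪ S)).filter E1, h1 ζ1) * ∑ ζ2 ∈ Rc D r B, h2 ζ2 := by
  have hdis : Disjoint (G1 ∪ S) B := Finset.disjoint_union_left.2 ⟨P.d2, P.d3⟩
  rw [Finset.sum_mul_sum, ← Finset.sum_product']
  refine Finset.sum_bij' (fun ζ _ => (rs (G1 ∪ S) ζ, rs B ζ)) (fun p _ => fun z => p.1 z + p.2 z) ?_ ?_ ?_ ?_ ?_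
  · intro ζ hζ
    rw [Finset.mem_filter] at hζ
    rw [Finset.mem_product, Finset.mem_filter]
    exact ⟨⟨rs_mem_Rc Finset.subset_union_left hζ.1, hζ.2⟩, rs_mem_Rc Finset.subset_union_right hζ.1⟩
  · intro p hp
    rw [Finset.mem_product, Finset.mem_filter] at hp
    obtain ⟨⟨hp1, hpE⟩, hp2⟩ := hp
    have c1 := (mem_Rc.1 hp1).1
    have c2 := (mem_Rc.1 hp2).1
    have e1 : rs (G1 ∪ S) (fun z => p.1 z + p.2 z) = p.1 := by
      funext z
      by_cases h : z ∈ G1 ∪ S
      · rw [rs_mem h, c2.2 z (Finset.disjoint_left.1 hdis h), add_zero]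
      · rw [rs_notMem h, c1.2 z h]
    have e2 : rs B (fun z => p.1 z + p.2 z) = p.2 := by
      funext z
      by_cases h : z ∈ B
      · rw [rs_mem h, c1.2 z (Finset.disjoint_right.1 hdis h), zero_add]
      · rw [rs_notMem h, c2.2 z h]
    rw [Finset.mem_filter]
    refine ⟨piv_mem H P ?_ (by rw [e1]; exact hp1) (by rw [e2]; exact hp2) (by rw [e1]; exact hE _ hp1 hpE), ?_⟩
    · intro z hz
      rw [Finset.mem_union, not_or] at hz
      show p.1 z + p.2 z = 0
      rw [c1.2 z hz.1, c2.2 z hz.2]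
    · rw [e1]; exact hpE
  · intro ζ hζ
    rw [Finset.mem_filter] at hζ
    have c := (mem_Rc.1 hζ.1).1
    funext z
    by_cases h1 : z ∈ G1 ∪ S
    · have h2 : z ∉ B := Finset.disjoint_left.1 hdis h1
      simp only [rs_mem h1, rs_notMem h2, add_zero]
    · by_cases h2 : z ∈ B
      · simp only [rs_notMem h1, rs_mem h2, zero_add]
      · simp only [rs_notMem h1, rs_notMem h2, add_zero]
        refine (c.2 z ?_).symm
        rw [Finset.mem_union, not_or]
        exact ⟨h1, h2⟩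
  · intro p hp
    rw [Finset.mem_product, Finset.mem_filter] at hp
    obtain ⟨⟨hp1, hpE⟩, hp2⟩ := hp
    have c1 := (mem_Rc.1 hp1).1
    have c2 := (mem_Rc.1 hp2).1
    refine Prod.ext ?_ ?_
    · funext z
      by_cases h : z ∈ G1 ∪ S
      · simp only [rs_mem h, c2.2 z (Finset.disjoint_left.1 hdis h), add_zero]
      · simp only [rs_notMem h, c1.2 z h]
    · funext z
      by_cases h : z ∈ B
      · simp only [rs_mem h, c1.2 z (Finset.disjoint_right.1 hdis h), zero_add]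
      · simp only [rs_notMem h, c2.2 z h]
  · intro ζ hζ
    rfl

end Pool.Agent.Helper910.QT
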