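import Mathlib
import Pool.Agent.Helper910.T2

/-! Coarse geometry: definitions (MP_4555f0_mp) -/

namespace Pool.Agent.Helper910.QT

open Classical Finset

universe w

variable {V : Type*}

/-- the outer boundary of a set -/
def oS (D : SimpleGraph V) (C : Set V) : Set V := {x | x ∉ C ∧ ∃ y ∈ C, D.Adj x y}

/-- balls -/
def bS (D : SimpleGraph V) (x : V) (n : ℕ) : Set V := {z | D.dist x z ≤ n}

/-- the component of `z` inside `P` -/
def cmp (D : SimpleGraph V) (P : Set V) (z : V) : Set V := {y | ∃ p : D.Walk z y, ∀ v ∈ p.support, v ∈ P}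

/-- cones: infinite components of complements of balls -/
def IsCn (D : SimpleGraph V) (C : Set V) : Prop := ∃ (x : V) (n : ℕ), ∃ z ∈ (bS D x n)ᶜ, C = cmp D (bS D x n)ᶜ z ∧ C.Infinite

/-- the part of `C` at distance more than `M` from the outer boundary -/
def LM (D : SimpleGraph V) (M : ℕ) (C : Set V) : Set V := {z | z ∈ C ∧ ∀ y ∈ oS D C, M < D.dist y z}

/-- the children of `C`: the infinite components of `LM` -/
def chS (D : SimpleGraph V) (M : ℕ) (C : Set V) : Set (Set V) := {C' | ∃ z ∈ LM D M C, C' = cmp D (LM D M C) z ∧ C'.Infinite}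

/-- the top piece of `C` -/
def QS (D : SimpleGraph V) (M : ℕ) (C : Set V) : Set V := {z | z ∈ C ∧ ∀ C' ∈ chS D M C, z ∉ C'}

/-- `f` is a quasi-isometry from `D` to `T` with constant `K` -/
def IsQI {W : Type*} (D : SimpleGraph V) (T : SimpleGraph W) (f : V → W) (K : ℕ) : Prop :=
  (∀ x y, T.dist (f x) (f y) ≤ K * D.dist x y + K) ∧ (∀ x y, D.dist x y ≤ K * T.dist (f x) (f y) + K) ∧
    ∀ w, ∃ x, T.dist (f x) w ≤ K

/-- the standing assumptions: `D` infinite, connected, vertex-transitive, regular, quasi-isometric to a regular tree of degree at least `3` -/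
structure Qi (D : SimpleGraph V) [D.LocallyFinite] (r : ℕ) : Prop where
  gd : Gd D r
  trans : ∀ x y : V, ∃ φ : D ≃g D, φ x = y
  qi : ∃ (W : Type w) (T : SimpleGraph W) (_ : T.LocallyFinite) (d : ℕ) (f : V → W) (K : ℕ), T.IsTree ∧ 3 ≤ d ∧ T.IsRegularOfDegree d ∧ IsQI D T f K

end Pool.Agent.Helper910.QT
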