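import Mathlib
import Pool.Agent.Helper910.S0

/-! Trees: coarse paths and medians (MP_4555f0_mp) -/

namespace Pool.Agent.Helper910.QT

open Classical Finset

variable {W : Type*} {T : SimpleGraph W}

/-- a path in a tree has length equal to the distance -/
theorem s1_path_len (hT : T.IsTree) {a b : W} (q : T.Walk a b) (hq : q.IsPath) : q.length = T.dist a b := by
  obtain ⟨r, hr⟩ := hT.1.exists_walk_length_eq_dist a b
  have hr' := r.isPath_of_length_eq_dist hr
  have := hT.2.path_unique ⟨q, hq⟩ ⟨r, hr'⟩
  have e : q = r := congrArg Subtype.val this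
  rw [e, hr]

/-- a vertex on a walk of minimal length lies between the ends -/
theorem s1_between (hT : T.IsTree) {a b p : W} (q : T.Walk a b) (hq : q.length = T.dist a b) (hp : p ∈ q.support) :
    T.dist a p + T.dist p b = T.dist a b := by
  have h1 := q.take_spec hp
  have h2 : q.length = (q.takeUntil p hp).length + (q.dropUntil p hp).length := by
    rw [← SimpleGraph.Walk.length_append, h1]
  have h3 := SimpleGraph.dist_le (q.takeUntil p hp)
  have h4 := SimpleGraph.dist_le (q.dropUntil p hp)
  have h5 := hT.1.dist_triangle (u := a) (v := p) (w := b)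
  omega

/-- TARGET. in a tree a walk from `a` to `b` passes through every vertex `p` of the geodesic -/
theorem tree_walk (hT : T.IsTree) {a b p : W} (hp : T.dist a p + T.dist p b = T.dist a b) (q : T.Walk a b) : p ∈ q.support := by
  obtain ⟨r1, h1⟩ := hT.1.exists_walk_length_eq_dist a p
  obtain ⟨r2, h2⟩ := hT.1.exists_walk_length_eq_dist p b
  have h3 : (r1.append r2).length = T.dist a b := by
    rw [SimpleGraph.Walk.length_append, h1, h2, hp]
  have h4 := (r1.append r2).isPath_of_length_eq_dist h3
  have h5 := hT.2.path_unique ⟨q.bypass, q.bypass_isPath⟩ ⟨r1.append r2, h4⟩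
  have e : q.bypass = r1.append r2 := congrArg Subtype.val h5
  apply q.support_bypass_subset_support
  rw [e, SimpleGraph.Walk.mem_support_append_iff]
  left
  exact SimpleGraph.Walk.end_mem_support r1

/-- TARGET. coarse paths: let `u 0 = a`, `u n = b` and `dist (u i) (u (i+1)) ≤ K`; then some `u i` (`i ≤ n`) is at distance `≤ K` from `p`
(otherwise the geodesics between consecutive points avoid `p`, and their concatenation contradicts `tree_walk`) -/
theorem tree_coarse (hT : T.IsTree) {a b p : W} (hp : T.dist a p + T.dist p b = T.dist a b) (K n : ℕ) (u : ℕ → W)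
    (h0 : u 0 = a) (h1 : u n = b) (hs : ∀ i < n, T.dist (u i) (u (i + 1)) ≤ K) : ∃ i ≤ n, T.dist (u i) p ≤ K := by
  have key : ∀ j ≤ n, ∃ q : T.Walk (u 0) (u j), ∀ x ∈ q.support, ∃ i ≤ j, T.dist (u i) x ≤ K := by
    intro j
    induction j with
    | zero =>
      intro _
      refine ⟨SimpleGraph.Walk.nil, fun x hx => ⟨0, le_rfl, ?_⟩⟩
      rw [SimpleGraph.Walk.support_nil, List.mem_singleton] at hx
      rw [hx, SimpleGraph.dist_self]
      exact Nat.zero_le _
    | succ j ih =>
      intro hj
      obtain ⟨q, hq⟩ := ih (by omega)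
      obtain ⟨r, hr⟩ := hT.1.exists_walk_length_eq_dist (u j) (u (j + 1))
      refine ⟨q.append r, fun x hx => ?_⟩
      rw [SimpleGraph.Walk.mem_support_append_iff] at hx
      rcases hx with hx | hx
      · obtain ⟨i, hi, h⟩ := hq x hx
        exact ⟨i, by omega, h⟩
      · refine ⟨j, by omega, ?_⟩
        have h2 := s1_between hT r hr hx
        have h3 := hs j (by omega)
        omega
  obtain ⟨q, hq⟩ := key n le_rfl
  have hp' : T.dist (u 0) p + T.dist p (u n) = T.dist (u 0) (u n) := by rw [h0, h1]; exact hp
  exact hq p (tree_walk hT hp' q)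

/-- gluing of geodesics which meet only at `p` -/
theorem s1_glue (hT : T.IsTree) {a c p : W} (P : T.Walk a p) (R : T.Walk p c) (hP : P.IsPath) (hR : R.IsPath)
    (h : ∀ x ∈ P.support, x ∈ R.support → x = p) : T.dist a p + T.dist p c = T.dist a c := by
  have hq : (P.append R).IsPath := by
    rw [SimpleGraph.Walk.isPath_def, SimpleGraph.Walk.support_append, List.nodup_append']
    refine ⟨hP.support_nodup, hR.support_nodup.sublist (List.tail_sublist _), ?_⟩
    intro x hx hx'
    have hx2 : x ∈ R.support := List.mem_of_mem_tail hx'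
    have hxp := h x hx hx2
    have h3 := hR.support_nodup
    rw [SimpleGraph.Walk.support_eq_cons] at h3
    rw [hxp] at hx'
    exact (List.nodup_cons.1 h3).1 hx'
  have h1 := s1_path_len hT _ hq
  rw [SimpleGraph.Walk.length_append, s1_path_len hT P hP, s1_path_len hT R hR] at h1
  exact h1

/-- TARGET. medians: take the vertex `p` of the geodesic from `a` to `b` closest to `c` -/
theorem tree_median (hT : T.IsTree) (a b c : W) : ∃ p, T.dist a p + T.dist p b = T.dist a b ∧
    T.dist a p + T.dist p c = T.dist a c ∧ T.dist b p + T.dist p c = T.dist b c := by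
  obtain ⟨P, hP⟩ := hT.1.exists_walk_length_eq_dist a b
  have hPp := P.isPath_of_length_eq_dist hP
  obtain ⟨p, hp, hmin⟩ := exists_min_image P.support.toFinset (fun x => T.dist x c)
    ⟨a, List.mem_toFinset.2 (SimpleGraph.Walk.start_mem_support P)⟩
  rw [List.mem_toFinset] at hp
  obtain ⟨R, hR⟩ := hT.1.exists_walk_length_eq_dist p c
  have hRp := R.isPath_of_length_eq_dist hR
  have hmeet : ∀ x ∈ P.support, x ∈ R.support → x = p := by
    intro x hx hx'
    have h1 := hmin x (List.mem_toFinset.2 hx)
    have h2 := s1_between hT R hR hx'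
    have h3 : T.dist p x = 0 := by omega
    exact (hT.1.dist_eq_zero_iff.1 h3).symm
  refine ⟨p, s1_between hT P hP hp, ?_, ?_⟩
  · exact s1_glue hT (P.takeUntil p hp) R (hPp.takeUntil hp) hRp fun x hx hx' =>
      hmeet x (SimpleGraph.Walk.support_takeUntil_subset_support P hp hx) hx'
  · refine s1_glue hT (P.dropUntil p hp).reverse R (hPp.dropUntil hp).reverse hRp fun x hx hx' => ?_
    rw [SimpleGraph.Walk.support_reverse, List.mem_reverse] at hx
    exact hmeet x (SimpleGraph.Walk.support_dropUntil_subset_support P hp hx) hx'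

/-- at most one neighbour of `p` is closer to `w` -/
theorem s1_unique (hT : T.IsTree) {p x y w : W} (hx : T.Adj p x) (hy : T.Adj p y) (hne : x ≠ y)
    (h1 : T.dist w x + 1 = T.dist w p) (h2 : T.dist w y + 1 = T.dist w p) : False := by
  have dx : T.dist x p = 1 := SimpleGraph.dist_eq_one_iff_adj.2 hx.symm
  have dy : T.dist y p = 1 := SimpleGraph.dist_eq_one_iff_adj.2 hy.symm
  obtain ⟨R, hR⟩ := hT.1.exists_walk_length_eq_dist w y
  have h3 := tree_walk hT (a := w) (b := p) (p := x) (by omega) (R.concat hy.symm)
  rw [SimpleGraph.Walk.support_concat, List.mem_append, List.mem_singleton] at h3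
  rcases h3 with h3 | h3
  · have h4 := s1_between hT R hR h3
    have h5 : T.dist x y = 0 := by omega
    exact hne (hT.1.dist_eq_zero_iff.1 h5)
  · exact hx.ne h3.symm

/-- adjacent vertices have different distances from `p` -/
theorem s1_bip (hT : T.IsTree) {w x p : W} (h : T.Adj w x) : T.dist w p ≠ T.dist x p := by
  intro he
  obtain ⟨R, hR⟩ := hT.1.exists_walk_length_eq_dist x p
  have hRp := R.isPath_of_length_eq_dist hR
  have hw : w ∉ R.support := by
    intro hw
    have h1 := s1_between hT R hR hw
    have h2 : T.dist x w = 0 := by omega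
    exact h.ne (hT.1.dist_eq_zero_iff.1 h2).symm
  have h3 : (SimpleGraph.Walk.cons h R).IsPath := by
    rw [SimpleGraph.Walk.cons_isPath_iff]; exact ⟨hRp, hw⟩
  have h4 := s1_path_len hT _ h3
  rw [SimpleGraph.Walk.length_cons, hR] at h4
  omega

/-- a vertex adjacent to a vertex of a branch -/
theorem s1_branch (hT : T.IsTree) {p b w w' : W} (hb : T.Adj p b) (hadj : T.Adj w w') (hw' : w' ≠ p)
    (h : T.dist w b + 1 = T.dist w p) : T.dist w' b + 1 = T.dist w' p := by
  have db : T.dist b p = 1 := SimpleGraph.dist_eq_one_iff_adj.2 hb.symm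
  obtain ⟨R, hR⟩ := hT.1.exists_walk_length_eq_dist w' p
  have h3 := tree_walk hT (a := w) (b := p) (p := b) (by omega) (SimpleGraph.Walk.cons hadj R)
  rw [SimpleGraph.Walk.support_cons, List.mem_cons] at h3
  rcases h3 with h3 | h3
  · subst h3
    -- `w = b`
    have h4 : T.dist w' b = 1 := SimpleGraph.dist_eq_one_iff_adj.2 hadj.symm
    have h5 : T.dist b p ≠ T.dist w' p := s1_bip hT hadj
    have h6 := hT.1.dist_triangle (u := w') (v := b) (w := p)
    have h7 : T.dist w' p ≠ 0 := fun h => hw' (hT.1.dist_eq_zero_iff.1 h)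
    omega
  · have h4 := s1_between hT R hR h3
    omega

/-- TARGET. three branches: in a tree that is regular of degree `d ≥ 3`, for each vertex `p` there are three neighbours `b 0, b 1, b 2` (distinct), and the branches
`B i = {w | the walk from w to p passes through b i, w ≠ p} = {w | dist w (b i) + 1 = dist w p}` are pairwise disjoint, not adjacent to each other (two adjacent vertices both different
from `p`, one of them in `B i`, are both in `B i`), and contain vertices at every distance `≥ 1` from `p` -/
theorem tree_branches (hT : T.IsTree) [T.LocallyFinite] {d : ℕ} (hd : 3 ≤ d) (hreg : T.IsRegularOfDegree d) (p : W) :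
    ∃ b : Fin 3 → W, Function.Injective b ∧ (∀ i, T.Adj p (b i)) ∧
      (∀ i j, i ≠ j → ∀ w, T.dist w (b i) + 1 = T.dist w p → T.dist w (b j) + 1 ≠ T.dist w p) ∧
      (∀ i, ∀ w w', T.Adj w w' → w' ≠ p → T.dist w (b i) + 1 = T.dist w p → T.dist w' (b i) + 1 = T.dist w' p) ∧
      (∀ i, ∀ n : ℕ, 1 ≤ n → ∃ w, T.dist w p = n ∧ T.dist w (b i) + 1 = T.dist w p) := by
  have hdeg : ∀ v, (T.neighborFinset v).card = d := fun v => hreg v
  obtain ⟨s, hs, hs3⟩ := exists_subset_card_eq (s := T.neighborFinset p) (n := 3) (by rw [hdeg]; exact hd)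
  let e := s.equivFinOfCardEq hs3
  let b : Fin 3 → W := fun i => (e.symm i : W)
  have hb : ∀ i, T.Adj p (b i) := fun i => by
    have := hs (e.symm i).2
    rwa [SimpleGraph.mem_neighborFinset] at this
  have hbi : Function.Injective b := fun i j h => e.symm.injective (Subtype.ext h)
  refine ⟨b, hbi, hb, ?_, ?_, ?_⟩
  · intro i j hij w h1 h2
    exact s1_unique hT (hb i) (hb j) (fun h => hij (hbi h)) h1 h2
  · intro i w w' hadj hw' h
    exact s1_branch hT (hb i) hadj hw' h
  · intro i n hn
    induction n, hn using Nat.le_induction with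
    | base =>
      refine ⟨b i, SimpleGraph.dist_eq_one_iff_adj.2 (hb i).symm, ?_⟩
      rw [SimpleGraph.dist_self, SimpleGraph.dist_eq_one_iff_adj.2 (hb i).symm]
    | succ n hn ih =>
      obtain ⟨w, hw, hwb⟩ := ih
      -- two neighbours of `w`
      obtain ⟨x, y, hx, hy, hxy⟩ : ∃ x y, T.Adj w x ∧ T.Adj w y ∧ x ≠ y := by
        have h1 : 1 < (T.neighborFinset w).card := by rw [hdeg]; omega
        obtain ⟨x, hx, y, hy, hxy⟩ := one_lt_card.1 h1
        rw [SimpleGraph.mem_neighborFinset] at hx hy
        exact ⟨x, y, hx, hy, hxy⟩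
      have key : ∃ z, T.Adj w z ∧ T.dist z p = n + 1 := by
        have up : ∀ z, T.Adj w z → T.dist p z + 1 ≠ T.dist p w → T.dist z p = n + 1 := by
          intro z hz hne
          have h1 := s1_bip hT (p := p) hz
          have h2 := hT.1.dist_triangle (u := z) (v := w) (w := p)
          have h3 := hT.1.dist_triangle (u := w) (v := z) (w := p)
          have h4 : T.dist z w = 1 := SimpleGraph.dist_eq_one_iff_adj.2 hz.symm
          have h5 : T.dist w z = 1 := SimpleGraph.dist_eq_one_iff_adj.2 hz
          rw [SimpleGraph.dist_comm (u := p) (v := z), SimpleGraph.dist_comm (u := p) (v := w)] at hne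
          omega
        by_cases hx' : T.dist p x + 1 = T.dist p w
        · by_cases hy' : T.dist p y + 1 = T.dist p w
          · exact absurd (s1_unique hT hx hy hxy hx' hy') id
          · exact ⟨y, hy, up y hy hy'⟩
        · exact ⟨x, hx, up x hx hx'⟩
      obtain ⟨z, hz, hzp⟩ := key
      refine ⟨z, hzp, ?_⟩
      refine s1_branch hT (hb i) hz ?_ hwb
      rintro rfl
      rw [SimpleGraph.dist_self] at hzp
      omega

end Pool.Agent.Helper910.QT
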