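import Mathlib
import Pool.Agent.Helper910.S0


/-! Balls, components, cones (MP_4555f0_mp) -/

namespace Pool.Agent.Helper910.QT

open Classical Finset

variable {V : Type*} {D : SimpleGraph V} [D.LocallyFinite] {r : ℕ}


omit [D.LocallyFinite] in
theorem s2_pred (hc : D.Connected) {x z : V} {n : ℕ} (h : D.dist x z = n + 1) : ∃ w, D.Adj w z ∧ D.dist x w = n := by
  obtain ⟨p, hp⟩ := hc.exists_walk_length_eq_dist z x
  rw [SimpleGraph.dist_comm, h] at hp
  cases p with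
  | nil => simp at hp
  | @cons _ w _ ha q =>
    rw [SimpleGraph.Walk.length_cons] at hp
    refine ⟨w, ha.symm, ?_⟩
    have h1 : D.dist w x ≤ n := (SimpleGraph.dist_le q).trans (by omega)
    have h2 : D.dist x z ≤ D.dist x w + D.dist w z := hc.dist_triangle
    have h3 : D.dist w z = 1 := SimpleGraph.dist_eq_one_iff_adj.2 ha.symm
    rw [SimpleGraph.dist_comm] at h1
    omega

omit [D.LocallyFinite] in
theorem s2_adj_le (hc : D.Connected) {x y z : V} (h : D.Adj y z) : D.dist x z ≤ D.dist x y + 1 := by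
  have h2 : D.dist x z ≤ D.dist x y + D.dist y z := hc.dist_triangle
  rw [SimpleGraph.dist_eq_one_iff_adj.2 h] at h2
  exact h2

omit [D.LocallyFinite] in
theorem s2_geo (hc : D.Connected) (x : V) (k : ℕ) : ∀ a, D.dist x a = k → ∃ p : D.Walk x a, ∀ v ∈ p.support, D.dist x v ≤ k := by
  induction k with
  | zero =>
    intro a ha
    have : x = a := hc.dist_eq_zero_iff.1 ha
    subst this
    exact ⟨SimpleGraph.Walk.nil, by simp⟩
  | succ k ih =>
    intro a ha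
    obtain ⟨w, hw1, hw2⟩ := s2_pred hc ha
    obtain ⟨p, hp⟩ := ih w hw2
    refine ⟨p.concat hw1, ?_⟩
    intro v hv
    rw [SimpleGraph.Walk.support_concat, List.mem_append, List.mem_singleton] at hv
    rcases hv with hv | rfl
    · exact (hp v hv).trans (Nat.le_succ k)
    · exact ha.le

omit [D.LocallyFinite] in
theorem s2_self_bS (x : V) (n : ℕ) : x ∈ bS D x n := by
  show D.dist x x ≤ n
  rw [SimpleGraph.dist_self]
  exact Nat.zero_le _

/-- TARGET. -/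
theorem bS_finite (H : Gd D r) (x : V) (n : ℕ) : (bS D x n).Finite := by
  induction n with
  | zero =>
    refine (Set.finite_singleton x).subset ?_
    intro z hz
    have : D.dist x z = 0 := Nat.le_zero.1 hz
    exact (H.conn.dist_eq_zero_iff.1 this).symm
  | succ n ih =>
    refine (ih.union (ih.biUnion (t := fun w => D.neighborSet w) (fun w _ => Set.toFinite _))).subset ?_
    intro z hz
    have hz' : D.dist x z ≤ n + 1 := hz
    rcases Nat.lt_or_ge (D.dist x z) (n + 1) with h | h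
    · exact Or.inl (show D.dist x z ≤ n by omega)
    · obtain ⟨w, hw1, hw2⟩ := s2_pred H.conn (le_antisymm hz' h)
      exact Or.inr (Set.mem_biUnion (show w ∈ bS D x n from hw2.le) hw1)

/-- TARGET. balls are connected -/
theorem bS_conn (H : Gd D r) (x : V) (n : ℕ) : InConn D (bS D x n) := by
  intro a ha b hb
  obtain ⟨p, hp⟩ := s2_geo H.conn x _ a rfl
  obtain ⟨q, hq⟩ := s2_geo H.conn x _ b rfl
  refine ⟨p.reverse.append q, ?_⟩
  intro v hv
  rw [SimpleGraph.Walk.mem_support_append_iff, SimpleGraph.Walk.support_reverse, List.mem_reverse] at hv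
  rcases hv with hv | hv
  · exact (hp v hv).trans ha
  · exact (hq v hv).trans hb

omit [D.LocallyFinite] in
/-- TARGET. -/
theorem cmp_sub (P : Set V) (z : V) : cmp D P z ⊆ P := by
  rintro y ⟨p, hp⟩
  exact hp y p.end_mem_support

omit [D.LocallyFinite] in
/-- TARGET. -/
theorem self_mem_cmp {P : Set V} {z : V} (h : z ∈ P) : z ∈ cmp D P z :=
  ⟨SimpleGraph.Walk.nil, by simpa using h⟩

omit [D.LocallyFinite] in
theorem s2_supp {P : Set V} {z y : V} (p : D.Walk z y) (hp : ∀ v ∈ p.support, v ∈ P) : ∀ v ∈ p.support, v ∈ cmp D P z := by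
  intro v hv
  exact ⟨p.takeUntil v hv, fun w hw => hp w (SimpleGraph.Walk.support_takeUntil_subset_support p hv hw)⟩

omit [D.LocallyFinite] in
/-- TARGET. -/
theorem cmp_conn (P : Set V) (z : V) : InConn D (cmp D P z) := by
  rintro a ⟨p, hp⟩ b ⟨q, hq⟩
  refine ⟨p.reverse.append q, ?_⟩
  intro v hv
  rw [SimpleGraph.Walk.mem_support_append_iff, SimpleGraph.Walk.support_reverse, List.mem_reverse] at hv
  rcases hv with hv | hv
  · exact s2_supp p hp v hv
  · exact s2_supp q hq v hv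

omit [D.LocallyFinite] in
/-- TARGET. -/
theorem cmp_eq {P : Set V} {z y : V} (h : y ∈ cmp D P z) : cmp D P y = cmp D P z := by
  obtain ⟨p, hp⟩ := h
  ext w
  constructor
  · rintro ⟨q, hq⟩
    refine ⟨p.append q, ?_⟩
    intro v hv
    rw [SimpleGraph.Walk.mem_support_append_iff] at hv
    rcases hv with hv | hv
    · exact hp v hv
    · exact hq v hv
  · rintro ⟨q, hq⟩
    refine ⟨p.reverse.append q, ?_⟩
    intro v hv
    rw [SimpleGraph.Walk.mem_support_append_iff, SimpleGraph.Walk.support_reverse, List.mem_reverse] at hv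
    rcases hv with hv | hv
    · exact hp v hv
    · exact hq v hv

omit [D.LocallyFinite] in
/-- TARGET. maximality -/
theorem cmp_max {P S : Set V} {z y : V} (hS : InConn D S) (hSP : S ⊆ P) (hy : y ∈ S) (hy' : y ∈ cmp D P z) : S ⊆ cmp D P z := by
  intro s hs
  rw [← cmp_eq hy']
  obtain ⟨p, hp⟩ := hS y hy s hs
  exact ⟨p, fun v hv => hSP (hp v hv)⟩

omit [D.LocallyFinite] in
/-- TARGET. a neighbour in `P` of a point of the component is in the component -/
theorem cmp_adj {P : Set V} {z y x : V} (hy : y ∈ cmp D P z) (hx : x ∈ P) (h : D.Adj y x) : x ∈ cmp D P z := by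
  obtain ⟨p, hp⟩ := hy
  refine ⟨p.concat h, ?_⟩
  intro v hv
  rw [SimpleGraph.Walk.support_concat, List.mem_append, List.mem_singleton] at hv
  rcases hv with hv | rfl
  · exact hp v hv
  · exact hx

omit [D.LocallyFinite] in
/-- TARGET. the outer boundary of a component of `P` is disjoint from `P` -/
theorem oS_cmp {P : Set V} {z x : V} (h : x ∈ oS D (cmp D P z)) : x ∉ P := by
  obtain ⟨h1, y, hy, hxy⟩ := h
  exact fun hx => h1 (cmp_adj hy hx hxy.symm)

omit [D.LocallyFinite] in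
/-- TARGET. two components are equal or disjoint -/
theorem cmp_disj {P : Set V} {z y : V} (h : cmp D P z ≠ cmp D P y) : Disjoint (cmp D P z) (cmp D P y) := by
  rw [Set.disjoint_left]
  intro a ha hb
  exact h ((cmp_eq ha).symm.trans (cmp_eq hb))

omit [D.LocallyFinite] in
/-- a walk from outside `S` to `S` -/
theorem s2_exit {S : Set V} {z s : V} (p : D.Walk z s) : z ∉ S → s ∈ S → ∃ w ∈ cmp D Sᶜ z, ∃ s' ∈ S, D.Adj s' w := by
  induction p with
  | nil => exact fun h1 h2 => absurd h2 h1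
  | @cons u w t ha q ih =>
    intro h1 h2
    by_cases hw : w ∈ S
    · exact ⟨u, self_mem_cmp h1, w, hw, ha.symm⟩
    · obtain ⟨w', hw', s', hs', had⟩ := ih hw h2
      have hu : w ∈ cmp D Sᶜ u := cmp_adj (self_mem_cmp (show u ∈ Sᶜ from h1)) hw ha
      refine ⟨w', ?_, s', hs', had⟩
      rw [← cmp_eq hu]
      exact hw'

/-- TARGET. the complement of a finite nonempty set `S` has finitely many components (each contains a neighbour of `S`, since `D` is connected) -/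
theorem cmp_finite (H : Gd D r) {S : Set V} (hS : S.Finite) (hne : S.Nonempty) : {C | ∃ z ∈ Sᶜ, C = cmp D Sᶜ z}.Finite := by
  have hN : (⋃ s ∈ S, D.neighborSet s).Finite := hS.biUnion (fun s _ => Set.toFinite _)
  refine (hN.image (fun w => cmp D Sᶜ w)).subset ?_
  rintro C ⟨z, hz, rfl⟩
  obtain ⟨s, hs⟩ := hne
  obtain ⟨p⟩ := H.conn.preconnected z s
  obtain ⟨w, hw, s', hs', had⟩ := s2_exit p hz hs
  exact ⟨w, Set.mem_biUnion hs' had, cmp_eq hw⟩

/-- TARGET. an infinite subset of the complement of a finite set meets an infinite component in an infinite set -/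
theorem exists_inf_cmp (H : Gd D r) {S A : Set V} (hS : S.Finite) (hA : A.Infinite) (hAS : A ⊆ Sᶜ) :
    ∃ z ∈ A, (cmp D Sᶜ z ∩ A).Infinite := by
  rcases S.eq_empty_or_nonempty with rfl | hne
  · obtain ⟨z, hz⟩ := hA.nonempty
    refine ⟨z, hz, ?_⟩
    have : cmp D (∅ : Set V)ᶜ z ∩ A = A := by
      apply Set.inter_eq_right.2
      intro a _
      obtain ⟨p⟩ := H.conn.preconnected z a
      exact ⟨p, fun v _ => by simp⟩
    rw [this]
    exact hA
  · by_contra hcon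
    push Not at hcon
    apply hA
    have hF := cmp_finite H hS hne
    have h2 : (⋃ C ∈ {C | ∃ z ∈ Sᶜ, C = cmp D Sᶜ z}, C ∩ A).Finite := by
      refine hF.biUnion ?_
      rintro C ⟨z, hz, rfl⟩
      by_cases h3 : (cmp D Sᶜ z ∩ A).Nonempty
      · obtain ⟨a, ha1, ha2⟩ := h3
        have := hcon a ha2
        rw [cmp_eq ha1] at this
        exact this
      · rw [Set.not_nonempty_iff_eq_empty.1 h3]
        exact Set.finite_empty
    refine h2.subset ?_
    intro a ha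
    exact Set.mem_biUnion (show cmp D Sᶜ a ∈ {C | ∃ z ∈ Sᶜ, C = cmp D Sᶜ z} from ⟨a, hAS ha, rfl⟩)
      ⟨self_mem_cmp (hAS ha), ha⟩

/-! ### cones -/

/-- TARGET. let `C = cmp (ball x n)ᶜ z`. Its outer boundary is in the sphere of radius `n` -/
theorem oS_dist (H : Gd D r) {x z : V} {n : ℕ} {y : V} (hz : z ∈ (bS D x n)ᶜ) (h : y ∈ oS D (cmp D (bS D x n)ᶜ z)) : D.dist x y = n := by
  have h1 : y ∈ bS D x n := by
    by_contra hc
    exact oS_cmp h hc
  have h2 : D.dist x y ≤ n := h1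
  obtain ⟨-, w, hw, had⟩ := h
  have h3 : ¬ D.dist x w ≤ n := cmp_sub _ _ hw
  have h4 := s2_adj_le H.conn (x := x) had
  omega

omit [D.LocallyFinite] in
theorem s2_cone (hc : D.Connected) (x : V) (n k : ℕ) : ∀ v, D.dist x v = n + (k + 1) →
    ∃ y, D.dist x y = n ∧ D.dist y v = k + 1 ∧ ∃ w ∈ cmp D (bS D x n)ᶜ v, D.Adj y w := by
  induction k with
  | zero =>
    intro v hv
    obtain ⟨y, hy1, hy2⟩ := s2_pred hc (show D.dist x v = n + 1 from hv)
    refine ⟨y, hy2, SimpleGraph.dist_eq_one_iff_adj.2 hy1, v, self_mem_cmp ?_, hy1⟩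
    show ¬ D.dist x v ≤ n
    omega
  | succ k ih =>
    intro v hv
    obtain ⟨v', hv1, hv2⟩ := s2_pred hc (show D.dist x v = (n + (k + 1)) + 1 from hv)
    obtain ⟨y, hy1, hy2, w, hw1, hw2⟩ := ih v' hv2
    have hvm : v ∈ (bS D x n)ᶜ := by
      show ¬ D.dist x v ≤ n
      omega
    have hvm' : v' ∈ (bS D x n)ᶜ := by
      show ¬ D.dist x v' ≤ n
      omega
    refine ⟨y, hy1, ?_, w, ?_, hw2⟩
    · have h1 := s2_adj_le hc (x := y) hv1
      have h2 : D.dist x v ≤ D.dist x y + D.dist y v := hc.dist_triangle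
      omega
    · rw [← cmp_eq (cmp_adj (self_mem_cmp hvm) hvm' hv1.symm)]
      exact hw1

/-- TARGET. for `v` in the cone, a geodesic from `x` to `v` passes through the outer boundary -/
theorem dist_cone (H : Gd D r) {x z v : V} {n : ℕ} (hz : z ∈ (bS D x n)ᶜ) (hv : v ∈ cmp D (bS D x n)ᶜ z) :
    ∃ y ∈ oS D (cmp D (bS D x n)ᶜ z), D.dist x v = n + D.dist y v := by
  have h1 : ¬ D.dist x v ≤ n := cmp_sub _ _ hv
  obtain ⟨k, hk⟩ : ∃ k, D.dist x v = n + (k + 1) := ⟨D.dist x v - n - 1, by omega⟩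
  obtain ⟨y, hy1, hy2, w, hw1, hw2⟩ := s2_cone H.conn x n k v hk
  rw [cmp_eq hv] at hw1
  refine ⟨y, ⟨fun hy => ?_, w, hw1, hw2⟩, by omega⟩
  have h2 : ¬ D.dist x y ≤ n := cmp_sub _ _ hy
  omega

/-- TARGET. so `LM` is the part of `C` outside the ball of radius `n + M` -/
theorem LM_eq (H : Gd D r) {x z : V} {n : ℕ} (hz : z ∈ (bS D x n)ᶜ) (M : ℕ) :
    LM D M (cmp D (bS D x n)ᶜ z) = cmp D (bS D x n)ᶜ z ∩ (bS D x (n + M))ᶜ := by
  ext v
  constructor
  · rintro ⟨h1, h2⟩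
    refine ⟨h1, ?_⟩
    obtain ⟨y, hy1, hy2⟩ := dist_cone H hz h1
    have := h2 y hy1
    show ¬ D.dist x v ≤ n + M
    omega
  · rintro ⟨h1, h2⟩
    refine ⟨h1, ?_⟩
    intro y hy
    have h3 : ¬ D.dist x v ≤ n + M := h2
    have h4 := oS_dist H hz hy
    have h5 : D.dist x v ≤ D.dist x y + D.dist y v := H.conn.dist_triangle
    omega

omit [D.LocallyFinite] in
theorem s2_mono (x : V) {n m : ℕ} (h : n ≤ m) : (bS D x m)ᶜ ⊆ (bS D x n)ᶜ := by
  intro v hv
  have h1 : ¬ D.dist x v ≤ m := hv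
  show ¬ D.dist x v ≤ n
  omega

/-- TARGET. the components of `LM` are the components of `(ball x (n+M))ᶜ` contained in `C` -/
theorem cmp_LM (H : Gd D r) {x z y : V} {n : ℕ} (hz : z ∈ (bS D x n)ᶜ) (M : ℕ) (hy : y ∈ LM D M (cmp D (bS D x n)ᶜ z)) :
    cmp D (LM D M (cmp D (bS D x n)ᶜ z)) y = cmp D (bS D x (n + M))ᶜ y := by
  rw [LM_eq H hz M] at hy ⊢
  ext v
  constructor
  · rintro ⟨p, hp⟩
    exact ⟨p, fun w hw => (hp w hw).2⟩
  · rintro ⟨p, hp⟩
    refine ⟨p, fun w hw => ⟨?_, hp w hw⟩⟩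
    rw [← cmp_eq hy.1]
    exact s2_supp p (fun u hu => s2_mono x (Nat.le_add_right n M) (hp u hu)) w hw

/-- TARGET. children are cones -/
theorem chS_cn (H : Gd D r) {C C' : Set V} (hC : IsCn D C) {M : ℕ} (h : C' ∈ chS D M C) : IsCn D C' := by
  obtain ⟨x, n, z, hz, rfl, -⟩ := hC
  obtain ⟨y, hy, rfl, hinf⟩ := h
  have hy' := hy
  rw [LM_eq H hz M] at hy'
  rw [cmp_LM H hz M hy] at hinf ⊢
  exact ⟨x, n + M, y, hy'.2, rfl, hinf⟩

/-- TARGET. -/
theorem chS_sub {C C' : Set V} {M : ℕ} (h : C' ∈ chS D M C) : C' ⊆ C := by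
  obtain ⟨y, hy, rfl, -⟩ := h
  exact (cmp_sub _ _).trans (fun v hv => hv.1)

/-- TARGET. finitely many children -/
theorem chS_finite (H : Gd D r) {C : Set V} (hC : IsCn D C) (M : ℕ) : (chS D M C).Finite := by
  obtain ⟨x, n, z, hz, rfl, -⟩ := hC
  refine (cmp_finite H (bS_finite H x (n + M)) ⟨x, s2_self_bS x _⟩).subset ?_
  rintro C' ⟨y, hy, rfl, -⟩
  have hy' := hy
  rw [LM_eq H hz M] at hy'
  exact ⟨y, hy'.2, cmp_LM H hz M hy⟩

omit [D.LocallyFinite] in
/-- TARGET. children are pairwise disjoint -/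
theorem chS_disj {C C' C'' : Set V} {M : ℕ} (h : C' ∈ chS D M C) (h' : C'' ∈ chS D M C) (hne : C' ≠ C'') : Disjoint C' C'' := by
  obtain ⟨y, hy, rfl, -⟩ := h
  obtain ⟨y', hy', rfl, -⟩ := h'
  exact cmp_disj hne

/-- TARGET. the outer boundary of a child is in the top piece if `M ≥ 1`: its points are at distance exactly `n + M` from `x` and in `C` -/
theorem oS_chS (H : Gd D r) {C C' : Set V} (hC : IsCn D C) {M : ℕ} (hM : 1 ≤ M) (h : C' ∈ chS D M C) : oS D C' ⊆ QS D M C := by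
  obtain ⟨x, n, z, hz, rfl, -⟩ := hC
  obtain ⟨y, hy, rfl, -⟩ := h
  have hy' := hy
  rw [LM_eq H hz M] at hy'
  rw [cmp_LM H hz M hy]
  intro u hu
  have hd := oS_dist H hy'.2 hu
  obtain ⟨hu1, w, hw, had⟩ := hu
  have hwC : w ∈ cmp D (bS D x n)ᶜ z := by
    rw [← cmp_LM H hz M hy] at hw
    exact (cmp_sub _ _ hw).1
  refine ⟨cmp_adj hwC ?_ had.symm, ?_⟩
  · show ¬ D.dist x u ≤ n
    omega
  · rintro C'' ⟨y'', hy'', rfl, -⟩ hu''
    have h3 := cmp_sub _ _ hu''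
    rw [LM_eq H hz M] at h3
    have h4 : ¬ D.dist x u ≤ n + M := h3.2
    omega

/-- TARGET. the top piece is finite: it consists of the points of `C` in the ball of radius `n + M` and of the finite components of `LM`, finitely many -/
theorem QS_finite (H : Gd D r) {C : Set V} (hC : IsCn D C) (M : ℕ) : (QS D M C).Finite := by
  obtain ⟨x, n, z, hz, rfl, -⟩ := hC
  by_contra hinf
  have hinf' : (QS D M (cmp D (bS D x n)ᶜ z) \ bS D x (n + M)).Infinite :=
    Set.Infinite.sdiff hinf (bS_finite H x (n + M))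
  obtain ⟨y, hy, hy2⟩ := exists_inf_cmp H (bS_finite H x (n + M)) hinf' (fun v hv => hv.2)
  have hyL : y ∈ LM D M (cmp D (bS D x n)ᶜ z) := by
    rw [LM_eq H hz M]
    exact ⟨hy.1.1, hy.2⟩
  refine hy.1.2 (cmp D (LM D M (cmp D (bS D x n)ᶜ z)) y) ⟨y, hyL, rfl, ?_⟩ (self_mem_cmp hyL)
  rw [cmp_LM H hz M hyL]
  exact hy2.mono Set.inter_subset_left

/-- TARGET. the outer boundary is finite and nonempty -/
theorem oS_finite (H : Gd D r) {C : Set V} (hC : IsCn D C) : (oS D C).Finite ∧ (oS D C).Nonempty := by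
  obtain ⟨x, n, z, hz, rfl, -⟩ := hC
  constructor
  · refine (bS_finite H x n).subset ?_
    intro y hy
    exact (oS_dist H hz hy).le
  · obtain ⟨y, hy, -⟩ := dist_cone H hz (self_mem_cmp hz)
    exact ⟨y, hy⟩

omit [D.LocallyFinite] in
theorem s2_dist (φ : D ≃g D) (x y : V) : D.dist (φ x) (φ y) = D.dist x y := by
  have key : ∀ (ψ : D ≃g D) (a b : V), D.Reachable a b → D.dist (ψ a) (ψ b) ≤ D.dist a b := by
    intro ψ a b h
    obtain ⟨p, hp⟩ := h.exists_walk_length_eq_dist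
    rw [← hp]
    calc D.dist (ψ a) (ψ b) ≤ (p.map ψ.toHom).length := SimpleGraph.dist_le _
      _ = p.length := SimpleGraph.Walk.length_map _ _
  by_cases h : D.Reachable x y
  · apply le_antisymm (key φ x y h)
    have := key φ.symm (φ x) (φ y) (φ.reachable_iff.2 h)
    simpa using this
  · rw [SimpleGraph.dist_eq_zero_of_not_reachable h,
      SimpleGraph.dist_eq_zero_of_not_reachable (fun h' => h (φ.reachable_iff.1 h'))]

omit [D.LocallyFinite] in
theorem s2_aut_bS (φ : D ≃g D) (x : V) (n : ℕ) : φ '' (bS D x n)ᶜ = (bS D (φ x) n)ᶜ := by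
  ext v
  constructor
  · rintro ⟨u, hu, rfl⟩
    show ¬ D.dist (φ x) (φ u) ≤ n
    rw [s2_dist]
    exact hu
  · intro hv
    refine ⟨φ.symm v, ?_, by simp⟩
    have hv' : ¬ D.dist (φ x) v ≤ n := hv
    show ¬ D.dist x (φ.symm v) ≤ n
    rw [← s2_dist φ]
    simpa using hv'

omit [D.LocallyFinite] in
theorem s2_aut_cmp1 (φ : D ≃g D) (P : Set V) (z : V) : φ '' cmp D P z ⊆ cmp D (φ '' P) (φ z) := by
  rintro _ ⟨y, ⟨p, hp⟩, rfl⟩
  refine ⟨p.map φ.toHom, ?_⟩
  intro v hv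
  rw [SimpleGraph.Walk.support_map, List.mem_map] at hv
  obtain ⟨u, hu, rfl⟩ := hv
  exact ⟨u, hp u hu, rfl⟩

omit [D.LocallyFinite] in
theorem s2_symm_image (φ : D ≃g D) (P : Set V) : φ.symm '' (φ '' P) = P := by
  ext v
  constructor
  · rintro ⟨_, ⟨u, hu, rfl⟩, rfl⟩
    simpa using hu
  · intro hv
    exact ⟨φ v, ⟨v, hv, rfl⟩, by simp⟩

omit [D.LocallyFinite] in
theorem s2_image_symm (φ : D ≃g D) (P : Set V) : φ '' (φ.symm '' P) = P := by
  ext v
  constructor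
  · rintro ⟨_, ⟨u, hu, rfl⟩, rfl⟩
    simpa using hu
  · intro hv
    exact ⟨φ.symm v, ⟨v, hv, rfl⟩, by simp⟩

omit [D.LocallyFinite] in
theorem s2_aut_cmp (φ : D ≃g D) (P : Set V) (z : V) : φ '' cmp D P z = cmp D (φ '' P) (φ z) := by
  apply (s2_aut_cmp1 φ P z).antisymm
  have h := s2_aut_cmp1 φ.symm (φ '' P) (φ z)
  rw [s2_symm_image] at h
  have h2 := Set.image_mono (f := φ) h
  rw [s2_image_symm] at h2
  simpa using h2

/-- TARGET. automorphisms -/
theorem aut_cn' {C : Set V} (hC : IsCn D C) (φ : D ≃g D) : IsCn D (φ '' C) := by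
  obtain ⟨x, n, z, hz, rfl, hinf⟩ := hC
  refine ⟨φ x, n, φ z, ?_, ?_, hinf.image φ.injective.injOn⟩
  · rw [← s2_aut_bS]
    exact ⟨z, hz, rfl⟩
  · rw [s2_aut_cmp, s2_aut_bS]

omit [D.LocallyFinite] in
/-- TARGET. -/
theorem aut_oS (C : Set V) (φ : D ≃g D) : oS D (φ '' C) = φ '' (oS D C) := by
  ext v
  constructor
  · rintro ⟨h1, _, ⟨y, hy, rfl⟩, had⟩
    refine ⟨φ.symm v, ⟨fun h => h1 ⟨φ.symm v, h, by simp⟩, y, hy, ?_⟩, by simp⟩
    rw [← φ.map_adj_iff]
    simpa using had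
  · rintro ⟨u, ⟨h1, y, hy, had⟩, rfl⟩
    refine ⟨?_, φ y, ⟨y, hy, rfl⟩, φ.map_adj_iff.2 had⟩
    rintro ⟨w, hw, he⟩
    exact h1 (φ.injective he ▸ hw)

omit [D.LocallyFinite] in
theorem s2_aut_LM (C : Set V) (M : ℕ) (φ : D ≃g D) : LM D M (φ '' C) = φ '' (LM D M C) := by
  ext v
  constructor
  · rintro ⟨⟨u, hu, rfl⟩, h2⟩
    refine ⟨u, ⟨hu, ?_⟩, rfl⟩
    intro y hy
    have := h2 (φ y) (by rw [aut_oS]; exact ⟨y, hy, rfl⟩)
    rwa [s2_dist] at this
  · rintro ⟨u, ⟨h1, h2⟩, rfl⟩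
    refine ⟨⟨u, h1, rfl⟩, ?_⟩
    intro y hy
    rw [aut_oS] at hy
    obtain ⟨y', hy', rfl⟩ := hy
    rw [s2_dist]
    exact h2 y' hy'

omit [D.LocallyFinite] in
/-- TARGET. -/
theorem aut_chS (C : Set V) (M : ℕ) (φ : D ≃g D) : chS D M (φ '' C) = (fun C' => φ '' C') '' (chS D M C) := by
  ext C'
  constructor
  · rintro ⟨z, hz, rfl, hinf⟩
    rw [s2_aut_LM] at hz hinf ⊢
    obtain ⟨u, hu, rfl⟩ := hz
    rw [← s2_aut_cmp] at hinf ⊢
    exact ⟨cmp D (LM D M C) u, ⟨u, hu, rfl, hinf.of_image _⟩, rfl⟩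
  · rintro ⟨_, ⟨u, hu, rfl, hinf⟩, rfl⟩
    refine ⟨φ u, ?_, ?_, hinf.image φ.injective.injOn⟩
    · rw [s2_aut_LM]
      exact ⟨u, hu, rfl⟩
    · rw [s2_aut_LM, ← s2_aut_cmp]

omit [D.LocallyFinite] in
/-- TARGET. -/
theorem aut_QS (C : Set V) (M : ℕ) (φ : D ≃g D) : QS D M (φ '' C) = φ '' (QS D M C) := by
  ext v
  constructor
  · rintro ⟨⟨u, hu, rfl⟩, h2⟩
    refine ⟨u, ⟨hu, ?_⟩, rfl⟩
    intro C' hC' huC
    exact h2 (φ '' C') (by rw [aut_chS]; exact ⟨C', hC', rfl⟩) ⟨u, huC, rfl⟩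
  · rintro ⟨u, ⟨h1, h2⟩, rfl⟩
    refine ⟨⟨u, h1, rfl⟩, ?_⟩
    intro C' hC'
    rw [aut_chS] at hC'
    obtain ⟨C'', hC'', rfl⟩ := hC'
    rintro ⟨w, hw, he⟩
    exact h2 C'' hC'' (φ.injective he ▸ hw)

/-- TARGET. filling: for a finite set `B` take a ball `bS x n ⊇ B`; `Q0` is the ball together with the finite components of its complement (finite and connected), and the
cones are the infinite components -/
theorem fill' (H : Gd D r) (B : Finset V) : ∃ (Q0 : Finset V) (F : Finset (Set V)), B ⊆ Q0 ∧ InConn D (Q0 : Set V) ∧ (∀ C ∈ F, IsCn D C) ∧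
    (∀ C ∈ F, ∀ C' ∈ F, C ≠ C' → Disjoint C C') ∧ (∀ C ∈ F, oS D C ⊆ Q0) ∧ (∀ C ∈ F, ∀ z ∈ Q0, z ∉ C) ∧
    ∀ z, z ∈ Q0 ∨ ∃ C ∈ F, z ∈ C := by
  have := H.inf
  obtain ⟨x⟩ : Nonempty V := inferInstance
  set n : ℕ := B.sup (fun b => D.dist x b) with hn
  have hB : ∀ b ∈ B, b ∈ bS D x n := fun b hb => Finset.le_sup (f := fun b => D.dist x b) hb
  have hSf := bS_finite H x n
  have hcf := cmp_finite H hSf ⟨x, s2_self_bS x n⟩
  -- the infinite components
  have hFf : {C | ∃ z ∈ (bS D x n)ᶜ, C = cmp D (bS D x n)ᶜ z ∧ C.Infinite}.Finite :=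
    hcf.subset (by
      rintro C ⟨z, hz, h1, -⟩
      exact ⟨z, hz, h1⟩)
  have hQf : (bS D x n ∪ {z | z ∈ (bS D x n)ᶜ ∧ (cmp D (bS D x n)ᶜ z).Finite}).Finite := by
    refine hSf.union ?_
    have h2 : (⋃ C ∈ {C | (∃ z ∈ (bS D x n)ᶜ, C = cmp D (bS D x n)ᶜ z) ∧ C.Finite}, C).Finite := by
      refine (hcf.subset (fun C hC => hC.1)).biUnion ?_
      rintro C ⟨-, hC⟩
      exact hC
    refine h2.subset ?_
    rintro z ⟨hz1, hz2⟩
    exact Set.mem_biUnion (show cmp D (bS D x n)ᶜ z ∈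
      {C | (∃ z ∈ (bS D x n)ᶜ, C = cmp D (bS D x n)ᶜ z) ∧ C.Finite} from ⟨⟨z, hz1, rfl⟩, hz2⟩) (self_mem_cmp hz1)
  have hmQ : ∀ z, z ∈ hQf.toFinset ↔ z ∈ bS D x n ∨ (z ∈ (bS D x n)ᶜ ∧ (cmp D (bS D x n)ᶜ z).Finite) := by
    intro z
    rw [Set.Finite.mem_toFinset]
    rfl
  have hmF : ∀ C, C ∈ hFf.toFinset ↔ ∃ z ∈ (bS D x n)ᶜ, C = cmp D (bS D x n)ᶜ z ∧ C.Infinite := by
    intro C
    rw [Set.Finite.mem_toFinset]
    rfl
  -- each point of `Q0` is joined to `x`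
  have hjoin : ∀ z ∈ hQf.toFinset, ∃ p : D.Walk x z, ∀ v ∈ p.support, v ∈ hQf.toFinset := by
    intro z hz
    rcases (hmQ z).1 hz with h | ⟨h, hfin⟩
    · obtain ⟨p, hp⟩ := bS_conn H x n x (s2_self_bS x n) z h
      exact ⟨p, fun v hv => (hmQ v).2 (Or.inl (hp v hv))⟩
    · obtain ⟨y, hy, -⟩ := dist_cone H h (self_mem_cmp h)
      have hyd := oS_dist H h hy
      obtain ⟨-, w, hw, had⟩ := hy
      obtain ⟨p, hp⟩ := bS_conn H x n x (s2_self_bS x n) y hyd.le
      obtain ⟨q, hq⟩ := cmp_conn (D := D) (bS D x n)ᶜ z w hw z (self_mem_cmp h)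
      refine ⟨p.append (SimpleGraph.Walk.cons had q), ?_⟩
      intro v hv
      rw [SimpleGraph.Walk.mem_support_append_iff, SimpleGraph.Walk.support_cons, List.mem_cons] at hv
      rcases hv with hv | rfl | hv
      · exact (hmQ v).2 (Or.inl (hp v hv))
      · exact (hmQ _).2 (Or.inl hyd.le)
      · have h3 := hq v hv
        refine (hmQ v).2 (Or.inr ⟨cmp_sub _ _ h3, ?_⟩)
        rw [cmp_eq h3]
        exact hfin
  refine ⟨hQf.toFinset, hFf.toFinset, ?_, ?_, ?_, ?_, ?_, ?_, ?_⟩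
  · intro b hb
    exact (hmQ b).2 (Or.inl (hB b hb))
  · intro a ha b hb
    obtain ⟨p, hp⟩ := hjoin a (Finset.mem_coe.1 ha)
    obtain ⟨q, hq⟩ := hjoin b (Finset.mem_coe.1 hb)
    refine ⟨p.reverse.append q, ?_⟩
    intro v hv
    rw [SimpleGraph.Walk.mem_support_append_iff, SimpleGraph.Walk.support_reverse, List.mem_reverse] at hv
    rcases hv with hv | hv
    · exact Finset.mem_coe.2 (hp v hv)
    · exact Finset.mem_coe.2 (hq v hv)
  · intro C hC
    obtain ⟨z, hz, h1, h2⟩ := (hmF C).1 hC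
    exact ⟨x, n, z, hz, h1, h2⟩
  · intro C hC C' hC' hne
    obtain ⟨z, hz, h1, h2⟩ := (hmF C).1 hC
    obtain ⟨z', hz', h1', h2'⟩ := (hmF C').1 hC'
    subst h1 h1'
    exact cmp_disj hne
  · intro C hC y hy
    obtain ⟨z, hz, h1, h2⟩ := (hmF C).1 hC
    subst h1
    exact Finset.mem_coe.2 ((hmQ y).2 (Or.inl (oS_dist H hz hy).le))
  · intro C hC z hz hzC
    obtain ⟨z', hz', h1, h2⟩ := (hmF C).1 hC
    subst h1
    rcases (hmQ z).1 hz with h | ⟨h, hfin⟩
    · exact cmp_sub _ _ hzC h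
    · rw [cmp_eq hzC] at hfin
      exact h2 hfin
  · intro z
    by_cases h : z ∈ bS D x n
    · exact Or.inl ((hmQ z).2 (Or.inl h))
    · by_cases hfin : (cmp D (bS D x n)ᶜ z).Finite
      · exact Or.inl ((hmQ z).2 (Or.inr ⟨h, hfin⟩))
      · exact Or.inr ⟨_, (hmF _).2 ⟨z, h, rfl, hfin⟩, self_mem_cmp h⟩

end Pool.Agent.Helper910.QT

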