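import Mathlib
import Pool.Agent.Helper910.S1
import Pool.Agent.Helper910.S2

/-! Boundaries of cones have bounded diameter; finitely many types; three ends (MP_4555f0_mp) -/

namespace Pool.Agent.Helper910.QT

open Classical Finset

variable {V : Type*} {D : SimpleGraph V} [D.LocallyFinite] {r : ℕ}

theorem s3_geo {W : Type*} {T : SimpleGraph W} (hT : T.Connected) (a b : W) : ∃ u : ℕ → W, u 0 = a ∧ u (T.dist a b) = b ∧
    (∀ i < T.dist a b, T.Adj (u i) (u (i + 1))) ∧ ∀ i ≤ T.dist a b, T.dist a (u i) = i ∧ T.dist (u i) b + i = T.dist a b := by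
  obtain ⟨p, hp⟩ := hT.exists_walk_length_eq_dist a b
  refine ⟨p.getVert, p.getVert_zero, by rw [← hp, p.getVert_length], fun i hi => p.adj_getVert_succ (hp ▸ hi), ?_⟩
  have h1 : ∀ i, T.dist a (p.getVert i) ≤ i := by
    intro i
    induction i with
    | zero => rw [p.getVert_zero]; simp
    | succ i ih =>
      by_cases hi : i < p.length
      · have h := hT.dist_triangle (u := a) (v := p.getVert i) (w := p.getVert (i + 1))
        have h' : T.dist (p.getVert i) (p.getVert (i + 1)) = 1 := SimpleGraph.dist_eq_one_iff_adj.2 (p.adj_getVert_succ hi)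
        omega
      · have h2 : p.getVert (i + 1) = p.getVert i := by
          rw [p.getVert_of_length_le (by omega), p.getVert_of_length_le (by omega)]
        rw [h2]; omega
  have h2 : ∀ k, k ≤ p.length → T.dist (p.getVert (p.length - k)) b ≤ k := by
    intro k
    induction k with
    | zero => intro _; rw [Nat.sub_zero, p.getVert_length]; simp
    | succ k ih =>
      intro hk
      have h := hT.dist_triangle (u := p.getVert (p.length - (k + 1))) (v := p.getVert (p.length - k)) (w := b)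
      have e : p.length - k = p.length - (k + 1) + 1 := by omega
      have h' : T.dist (p.getVert (p.length - (k + 1))) (p.getVert (p.length - k)) = 1 := by
        rw [e]
        exact SimpleGraph.dist_eq_one_iff_adj.2 (p.adj_getVert_succ (by omega))
      have := ih (by omega)
      omega
  intro i hi
  have a1 := h1 i
  have a2 := h2 (p.length - i) (by omega)
  have e : p.length - (p.length - i) = i := by omega
  rw [e] at a2
  have a3 := hT.dist_triangle (u := a) (v := p.getVert i) (w := b)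
  omega

omit [D.LocallyFinite] in
/-- images of a coarse path of `D` pass near `p` -/
theorem s3_near {W : Type*} {T : SimpleGraph W} (hT : T.IsTree) {f : V → W} {K : ℕ}
    (hf : ∀ x y, T.dist (f x) (f y) ≤ K * D.dist x y + K) {p : W} {n : ℕ} (u : ℕ → V) (hadj : ∀ i < n, D.Adj (u i) (u (i + 1)))
    (hp : T.dist (f (u 0)) p + T.dist p (f (u n)) = T.dist (f (u 0)) (f (u n))) : ∃ i ≤ n, T.dist (f (u i)) p ≤ 2 * K := by
  refine tree_coarse hT hp (2 * K) n (fun i => f (u i)) rfl rfl ?_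
  intro i hi
  have h := hf (u i) (u (i + 1))
  have h' : D.dist (u i) (u (i + 1)) = 1 := SimpleGraph.dist_eq_one_iff_adj.2 (hadj i hi)
  rw [h'] at h
  show T.dist (f (u i)) (f (u (i + 1))) ≤ 2 * K
  omega

/-- TARGET. Let `f` be a quasi-isometry with constant `K` to a tree `T`, `C` a component of the complement of the ball `B(x, n)`, `y1, y2 ∈ oS C`. Then
`dist y1 y2 ≤ 3 (4 K^2 + K)`. Proof. `dist x y1 = dist x y2 = n`. There is a walk from `y1` to `y2` through `C`; all its vertices `v` have `dist x v ≥ n`. Let `p` be the median of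
`f x, f y1, f y2` in `T`. The images of neighbours are at distance `≤ 2K`. By `tree_coarse` (with `2K`) there are `v` on the walk and `w_i` on a geodesic from `x` to `y_i` whose images
are within `2K` of `p`. So `dist v w_i ≤ K 4K + K =: c0`, `dist w_1 w_2 ≤ c0`; `dist x w_i ≥ n - c0`, hence `dist w_i y_i ≤ c0` (on the geodesic). -/
theorem oS_diam (H : Gd D r) {W : Type*} {T : SimpleGraph W} (hT : T.IsTree) {f : V → W} {K : ℕ} (hf : IsQI D T f K) {C : Set V} (hC : IsCn D C)
    {y1 y2 : V} (h1 : y1 ∈ oS D C) (h2 : y2 ∈ oS D C) : D.dist y1 y2 ≤ 3 * (4 * K ^ 2 + K) := by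
  obtain ⟨x, n, z, hz, rfl, -⟩ := hC
  have d1 := oS_dist H hz h1
  have d2 := oS_dist H hz h2
  obtain ⟨-, c1, hc1, a1⟩ := h1
  obtain ⟨-, c2, hc2, a2⟩ := h2
  obtain ⟨q, hq⟩ := cmp_conn (D := D) (bS D x n)ᶜ z c1 hc1 c2 hc2
  set w : D.Walk y1 y2 := SimpleGraph.Walk.cons a1 (q.concat a2.symm) with hw
  have hsup : ∀ v ∈ w.support, n ≤ D.dist x v := by
    intro v hv
    rw [hw, SimpleGraph.Walk.support_cons, SimpleGraph.Walk.support_concat] at hv
    simp only [List.mem_cons, List.mem_append, List.not_mem_nil, or_false] at hv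
    rcases hv with h | h | h
    · rw [h, d1]
    · have h3 := cmp_sub (D := D) _ _ (hq v h)
      have h4 : ¬ D.dist x v ≤ n := h3
      omega
    · rw [h, d2]
  obtain ⟨p, m1, m2, m3⟩ := tree_median hT (f x) (f y1) (f y2)
  obtain ⟨i, hi, hv⟩ := s3_near (D := D) hT hf.1 (p := p) (n := w.length) w.getVert (fun i hi => w.adj_getVert_succ hi)
    (by rw [w.getVert_zero, w.getVert_length]; exact m3)
  have hvn := hsup _ (w.getVert_mem_support i)
  set v := w.getVert i with hvdef
  have key : ∀ y : V, D.dist x y = n → T.dist (f x) p + T.dist p (f y) = T.dist (f x) (f y) →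
      ∃ t : V, T.dist (f t) p ≤ 2 * K ∧ D.dist x t + D.dist t y = n := by
    intro y hy hm
    obtain ⟨u, u0, ul, ua, ud⟩ := s3_geo H.conn x y
    obtain ⟨j, hj, ht⟩ := s3_near (D := D) hT hf.1 (p := p) (n := D.dist x y) u ua (by rw [u0, ul]; exact hm)
    refine ⟨u j, ht, ?_⟩
    obtain ⟨e1, e2⟩ := ud j hj
    omega
  obtain ⟨t1, ht1, g1⟩ := key y1 d1 m1
  obtain ⟨t2, ht2, g2⟩ := key y2 d2 m2
  have hc : ∀ a b : V, T.dist (f a) p ≤ 2 * K → T.dist (f b) p ≤ 2 * K → D.dist a b ≤ 4 * K ^ 2 + K := by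
    intro a b ha hb
    have e1 := hT.connected.dist_triangle (u := f a) (v := p) (w := f b)
    rw [SimpleGraph.dist_comm (u := p)] at e1
    have e2 := hf.2.1 a b
    have e3 : T.dist (f a) (f b) ≤ 4 * K := by omega
    calc D.dist a b ≤ K * T.dist (f a) (f b) + K := e2
      _ ≤ K * (4 * K) + K := by gcongr
      _ = 4 * K ^ 2 + K := by ring
  have b1 := hc v t1 hv ht1
  have b2 := hc v t2 hv ht2
  have b3 := hc t1 t2 ht1 ht2
  set c := 4 * K ^ 2 + K
  have tr1 := H.conn.dist_triangle (u := x) (v := t1) (w := v)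
  have tr2 := H.conn.dist_triangle (u := x) (v := t2) (w := v)
  rw [SimpleGraph.dist_comm (u := t1) (v := v)] at tr1
  rw [SimpleGraph.dist_comm (u := t2) (v := v)] at tr2
  have tr3 := H.conn.dist_triangle (u := y1) (v := t1) (w := y2)
  have tr4 := H.conn.dist_triangle (u := t1) (v := t2) (w := y2)
  rw [SimpleGraph.dist_comm (u := y1) (v := t1)] at tr3
  omega

omit [D.LocallyFinite] in
/-- a component of `P` stays in a set closed under neighbours in `P` -/
theorem s3_cmp_closed {P A : Set V} {z : V} (hz : z ∈ A) (hcl : ∀ v ∈ A, ∀ v' ∈ P, D.Adj v v' → v' ∈ A) :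
    cmp D P z ⊆ A := by
  rintro y ⟨p, hp⟩
  induction p with
  | nil => exact hz
  | @cons a b c hab p ih =>
    have hb : b ∈ P := hp b (by simp)
    exact ih (hcl a hz b hb hab) (fun v hv => hp v (by
      rw [SimpleGraph.Walk.support_cons]; exact List.mem_cons_of_mem _ hv))

omit [D.LocallyFinite] in
/-- first exit of a walk from a set -/
theorem s3_exit {P : Set V} {a b : V} (p : D.Walk a b) (ha : a ∈ P) (hb : b ∉ P) :
    ∃ u v, (∃ q : D.Walk a u, ∀ w ∈ q.support, w ∈ P ∧ w ∈ p.support) ∧ v ∉ P ∧ v ∈ p.support ∧ D.Adj u v := by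
  induction p with
  | nil => exact absurd ha hb
  | @cons a c b hac p ih =>
    by_cases hc : c ∈ P
    · obtain ⟨u, v, ⟨q, hq⟩, hv, hvs, huv⟩ := ih hc hb
      refine ⟨u, v, ⟨SimpleGraph.Walk.cons hac q, ?_⟩, hv, ?_, huv⟩
      · intro w hw
        rw [SimpleGraph.Walk.support_cons, List.mem_cons] at hw ⊢
        rcases hw with h | h
        · subst h
          exact ⟨ha, Or.inl rfl⟩
        · exact ⟨(hq w h).1, Or.inr (hq w h).2⟩
      · rw [SimpleGraph.Walk.support_cons]
        exact List.mem_cons_of_mem _ hvs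
    · refine ⟨a, c, ⟨SimpleGraph.Walk.nil, ?_⟩, hc, ?_, hac⟩
      · intro w hw
        rw [SimpleGraph.Walk.support_nil, List.mem_singleton] at hw
        subst hw
        exact ⟨ha, by rw [SimpleGraph.Walk.support_cons]; exact List.mem_cons_self⟩
      · rw [SimpleGraph.Walk.support_cons]
        exact List.mem_cons_of_mem _ p.start_mem_support

omit [D.LocallyFinite] in
theorem s3_cmp_oS {C : Set V} (hC : InConn D C) {z : V} (hz : z ∈ C) : C = cmp D (oS D C)ᶜ z := by
  apply Set.Subset.antisymm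
  · intro w hw
    obtain ⟨p, hp⟩ := hC z hz w hw
    exact ⟨p, fun v hv h => h.1 (hp v hv)⟩
  · apply s3_cmp_closed hz
    intro v hv v' hv' hadj
    by_contra h
    exact hv' ⟨h, v, hv, hadj.symm⟩

omit [D.LocallyFinite] in
theorem s3_cn_conn {C : Set V} (hC : IsCn D C) : InConn D C := by
  obtain ⟨x, n, z, hz, rfl, -⟩ := hC
  exact cmp_conn _ _

omit [D.LocallyFinite] in
theorem s3_dist_aut_le (hD : D.Connected) (φ : D ≃g D) (x y : V) : D.dist (φ x) (φ y) ≤ D.dist x y := by
  obtain ⟨p, hp⟩ := hD.exists_walk_length_eq_dist x y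
  rw [← hp, ← SimpleGraph.Walk.length_map φ.toHom p]
  exact SimpleGraph.dist_le _

omit [D.LocallyFinite] in
theorem s3_dist_aut (hD : D.Connected) (φ : D ≃g D) (x y : V) : D.dist (φ x) (φ y) = D.dist x y := by
  apply le_antisymm (s3_dist_aut_le hD φ x y)
  have h := s3_dist_aut_le hD φ.symm (φ x) (φ y)
  simpa using h

omit [D.LocallyFinite] in
theorem s3_aut_bS (hD : D.Connected) (φ : D ≃g D) (x : V) (n : ℕ) {v : V} : φ v ∈ bS D (φ x) n ↔ v ∈ bS D x n := by
  show D.dist (φ x) (φ v) ≤ n ↔ D.dist x v ≤ n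
  rw [s3_dist_aut hD]

omit [D.LocallyFinite] in
theorem s3_aut_cmp_sub (φ : D ≃g D) {P P' : Set V} (h : ∀ v ∈ P, φ v ∈ P') {z y : V} (hy : y ∈ cmp D P z) :
    φ y ∈ cmp D P' (φ z) := by
  obtain ⟨p, hp⟩ := hy
  refine ⟨p.map φ.toHom, ?_⟩
  intro v hv
  rw [SimpleGraph.Walk.support_map, List.mem_map] at hv
  obtain ⟨w, hw, rfl⟩ := hv
  exact h w (hp w hw)

omit [D.LocallyFinite] in
theorem s3_aut_cmp (φ : D ≃g D) {P P' : Set V} (h : ∀ v, φ v ∈ P' ↔ v ∈ P) (z : V) :
    cmp D P' (φ z) = φ '' cmp D P z := by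
  ext y
  constructor
  · intro hy
    refine ⟨φ.symm y, ?_, by simp⟩
    have h1 := s3_aut_cmp_sub φ.symm (P := P') (P' := P) (fun v hv => (h _).1 (by simpa using hv)) hy
    simpa using h1
  · rintro ⟨w, hw, rfl⟩
    exact s3_aut_cmp_sub φ (fun v hv => (h v).2 hv) hw

/-- TARGET. finitely many types. `C` is the component of `(oS C)ᶜ` containing any of its points, in particular a neighbour of a point of `oS C`. Translate a point of `oS C`
to a fixed vertex `o`: then `oS C ⊆ B(o, κ)` and `C = cmp (oS C)ᶜ z` with `z ∈ B(o, κ + 1)`; there are finitely many pairs (subset of `B(o, κ)`, `z ∈ B(o, κ+1)`). -/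
theorem types' (Q : Qi D r) : ∃ R : Finset (Set V), (∀ C ∈ R, IsCn D C) ∧ ∀ C, IsCn D C → ∃ C0 ∈ R, ∃ φ : D ≃g D, C = φ '' C0 := by
  obtain ⟨W, T, _, d, f, K, hT, hd, hreg, hf⟩ := Q.qi
  have := Q.gd.inf
  obtain ⟨o⟩ : Nonempty V := inferInstance
  have hfin : {C | IsCn D C ∧ o ∈ oS D C}.Finite := by
    have h1 : ((fun p : Set V × V => cmp D (p.1)ᶜ p.2) '' ((𝒫 (bS D o (3 * (4 * K ^ 2 + K)))) ×ˢ bS D o 1)).Finite :=
      (((bS_finite Q.gd o _).powerset).prod (bS_finite Q.gd o 1)).image _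
    apply h1.subset
    rintro C ⟨hC, ho⟩
    obtain ⟨-, y, hy, hoy⟩ := id ho
    refine ⟨(oS D C, y), ⟨?_, ?_⟩, ?_⟩
    · intro y' hy'
      exact oS_diam Q.gd hT hf hC ho hy'
    · show D.dist o y ≤ 1
      rw [SimpleGraph.dist_eq_one_iff_adj.2 hoy]
    · exact (s3_cmp_oS (s3_cn_conn hC) hy).symm
  refine ⟨hfin.toFinset, ?_, ?_⟩
  · intro C hC
    exact (hfin.mem_toFinset.1 hC).1
  · intro C hC
    obtain ⟨y, hy⟩ := (oS_finite Q.gd hC).2
    obtain ⟨φ, hφ⟩ := Q.trans y o
    refine ⟨φ '' C, ?_, φ.symm, ?_⟩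
    · rw [hfin.mem_toFinset]
      refine ⟨aut_cn' hC φ, ?_⟩
      rw [aut_oS]
      exact ⟨y, hy, hφ⟩
    · ext v
      constructor
      · intro hv
        exact ⟨φ v, ⟨v, hv, rfl⟩, by simp⟩
      · rintro ⟨w, ⟨v', hv', rfl⟩, rfl⟩
        simpa using hv'


/-- in a tree, a vertex closer to `w` than `p` is in the same branch at `p` as `w` -/
theorem s3_branch {W : Type*} {T : SimpleGraph W} (hT : T.Connected) {p b : W}
    (hadj : ∀ w w', T.Adj w w' → w' ≠ p → T.dist w b + 1 = T.dist w p → T.dist w' b + 1 = T.dist w' p) {w w' : W}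
    (hw : T.dist w b + 1 = T.dist w p) (hlt : T.dist w w' < T.dist w p) : T.dist w' b + 1 = T.dist w' p := by
  obtain ⟨u, u0, ul, ua, ud⟩ := s3_geo hT w w'
  have h : ∀ i ≤ T.dist w w', T.dist (u i) b + 1 = T.dist (u i) p := by
    intro i
    induction i with
    | zero => intro _; rw [u0]; exact hw
    | succ i ih =>
      intro hi
      refine hadj (u i) (u (i + 1)) (ua i (by omega)) ?_ (ih (by omega))
      intro hp
      have h1 := (ud (i + 1) hi).1
      rw [hp] at h1
      omega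
  have h2 := h _ le_rfl
  rwa [ul] at h2

theorem s3_three_ends_one (Q : Qi D r) (x0 : V) : ∃ R : ℕ, ∃ z : Fin 3 → V, (∀ i, z i ∈ (bS D x0 R)ᶜ ∧ (cmp D (bS D x0 R)ᶜ (z i)).Infinite) ∧
    ∀ i j, i ≠ j → cmp D (bS D x0 R)ᶜ (z i) ≠ cmp D (bS D x0 R)ᶜ (z j) := by
  obtain ⟨W, T, _, d, f, K, hT, hd, hreg, hf⟩ := Q.qi
  set p := f x0 with hp
  obtain ⟨b, -, -, hdis, hadj, hfar⟩ := tree_branches hT hd hreg p
  set R := K * (2 * K) + K with hRdef
  have hR : ∀ v, v ∉ bS D x0 R → 2 * K < T.dist (f v) p := by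
    intro v hv
    by_contra h
    push Not at h
    apply hv
    show D.dist x0 v ≤ R
    have h1 := hf.2.1 x0 v
    rw [SimpleGraph.dist_comm, ← hp] at h1
    have h2 : K * T.dist p (f v) ≤ K * (2 * K) := Nat.mul_le_mul_left _ (by rw [SimpleGraph.dist_comm]; exact h)
    rw [SimpleGraph.dist_comm]
    omega
  set A : Fin 3 → Set V := fun i => {v | v ∉ bS D x0 R ∧ T.dist (f v) (b i) + 1 = T.dist (f v) p} with hA
  have hcl : ∀ i, ∀ v ∈ A i, ∀ v' ∈ (bS D x0 R)ᶜ, D.Adj v v' → v' ∈ A i := by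
    intro i v hv v' hv' hvv
    refine ⟨hv', s3_branch hT.connected (hadj i) hv.2 ?_⟩
    have h1 := hf.1 v v'
    rw [SimpleGraph.dist_eq_one_iff_adj.2 hvv] at h1
    have h2 := hR v hv.1
    omega
  have hinf : ∀ i, (A i).Infinite := by
    intro i hfin
    obtain ⟨M, hM⟩ := (hfin.image (fun v => T.dist (f v) p)).bddAbove
    obtain ⟨w, hw, hwb⟩ := hfar i (M + K * R + 2 * K + 1) (by omega)
    obtain ⟨v, hv⟩ := hf.2.2 w
    have h1 := hT.connected.dist_triangle (u := w) (v := f v) (w := p)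
    rw [SimpleGraph.dist_comm] at hv
    have hvA : v ∈ A i := by
      refine ⟨?_, s3_branch hT.connected (hadj i) hwb (by omega)⟩
      intro h
      have h2 := hf.1 v x0
      have h3 : D.dist x0 v ≤ R := h
      rw [SimpleGraph.dist_comm] at h3
      have h4 : K * D.dist v x0 ≤ K * R := Nat.mul_le_mul_left _ h3
      rw [← hp] at h2
      omega
    have h5 := hM ⟨v, hvA, rfl⟩
    have h6 : T.dist (f v) p ≤ M := h5
    omega
  have hz : ∀ i, ∃ z ∈ A i, (cmp D (bS D x0 R)ᶜ z ∩ A i).Infinite := fun i =>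
    exists_inf_cmp Q.gd (bS_finite Q.gd x0 R) (hinf i) (fun v hv => hv.1)
  choose z hzA hzi using hz
  refine ⟨R, z, fun i => ⟨(hzA i).1, (hzi i).mono Set.inter_subset_left⟩, ?_⟩
  intro i j hij h
  have h1 : z j ∈ cmp D (bS D x0 R)ᶜ (z i) := by
    rw [h]
    exact self_mem_cmp (hzA j).1
  have h2 := s3_cmp_closed (hzA i) (hcl i) h1
  exact hdis i j hij (f (z j)) h2.2 (hzA j).2

/-- TARGET. at least three ends, uniformly: there is `R` such that for every `x` the complement of `B(x, R)` contains three infinite connected sets `A 0, A 1, A 2` which lie in different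
components of the complement. By transitivity one `x` suffices; choose `x` with `f x` near a vertex `p` of `T`, `V_i = {v | f v ∈ B_i}` (branches of `tree_branches` at `p`), and `R` such
that `B(x, R)` contains all `v` with `dist (f v) p ≤ 2K`. Adjacent vertices outside `B(x, R)` have images at distance `≤ 2K` and both farther than `2K` from `p`, so they are in the same
branch; each `V_i` is infinite (coarse surjectivity) and so contains an infinite component of the complement of the ball (`exists_inf_cmp`). -/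
theorem three_ends (Q : Qi D r) : ∃ R : ℕ, ∀ x : V, ∃ z : Fin 3 → V, (∀ i, z i ∈ (bS D x R)ᶜ ∧ (cmp D (bS D x R)ᶜ (z i)).Infinite) ∧
    ∀ i j, i ≠ j → cmp D (bS D x R)ᶜ (z i) ≠ cmp D (bS D x R)ᶜ (z j) := by
  have := Q.gd.inf
  obtain ⟨o⟩ : Nonempty V := inferInstance
  obtain ⟨R, z, h1, h2⟩ := s3_three_ends_one Q o
  refine ⟨R, fun x => ?_⟩
  obtain ⟨φ, rfl⟩ := Q.trans o x
  have hc : ∀ v, φ v ∈ (bS D (φ o) R)ᶜ ↔ v ∈ (bS D o R)ᶜ := by
    intro v
    rw [Set.mem_compl_iff, Set.mem_compl_iff, s3_aut_bS Q.gd.conn]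
  refine ⟨fun i => φ (z i), fun i => ⟨(hc _).2 (h1 i).1, ?_⟩, ?_⟩
  · rw [s3_aut_cmp φ hc]
    exact (h1 i).2.image φ.injective.injOn
  · intro i j hij h
    rw [s3_aut_cmp φ hc, s3_aut_cmp φ hc] at h
    exact h2 i j hij (φ.injective.image_injective h)

/-- along a geodesic towards the outer boundary one stays in the part of `C` near the outer boundary -/
theorem s3_to_boundary (H : Gd D r) {C : Set V} {M : ℕ} {v : V} (hv : v ∈ C) (hv' : v ∉ LM D M C) :
    ∃ u ∈ C, (∃ y ∈ oS D C, D.Adj y u) ∧ u ∈ cmp D (C \ LM D M C) v := by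
  have : ∃ y ∈ oS D C, D.dist y v ≤ M := by
    by_contra h
    push Not at h
    exact hv' ⟨hv, h⟩
  obtain ⟨y, hy, hd⟩ := this
  obtain ⟨q, hq⟩ := H.conn.exists_walk_length_eq_dist v y
  have hnear : ∀ c ∈ q.support, D.dist y c ≤ M := by
    intro c hc
    have e := congrArg SimpleGraph.Walk.length (q.take_spec hc)
    rw [SimpleGraph.Walk.length_append] at e
    have e2 := SimpleGraph.dist_le (q.dropUntil c hc)
    rw [SimpleGraph.dist_comm] at e2
    rw [SimpleGraph.dist_comm] at hd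
    omega
  obtain ⟨u, x, ⟨q', hq'⟩, hx, hxs, hux⟩ := s3_exit q hv hy.1
  have hu : u ∈ C := (hq' u q'.end_mem_support).1
  refine ⟨u, hu, ⟨x, ⟨hx, u, hu, hux.symm⟩, hux.symm⟩, q', ?_⟩
  intro c hc
  refine ⟨(hq' c hc).1, ?_⟩
  intro hL
  have h1 := hL.2 y hy
  have h2 := hnear c (hq' c hc).2
  omega


omit [D.LocallyFinite] in
theorem s3_cmp_mono {P P' : Set V} (h : P ⊆ P') (z : V) : cmp D P z ⊆ cmp D P' z := by
  rintro y ⟨p, hp⟩
  exact ⟨p, fun v hv => h (hp v hv)⟩

omit [D.LocallyFinite] in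
theorem s3_cmp_symm {P : Set V} {a b : V} (h : b ∈ cmp D P a) : a ∈ cmp D P b := by
  obtain ⟨p, hp⟩ := h
  exact ⟨p.reverse, fun v hv => hp v (by simpa using hv)⟩

omit [D.LocallyFinite] in
theorem s3_cmp_trans {P : Set V} {a b c : V} (h : b ∈ cmp D P a) (h' : c ∈ cmp D P b) : c ∈ cmp D P a := by
  obtain ⟨p, hp⟩ := h
  obtain ⟨q, hq⟩ := h'
  refine ⟨p.append q, fun v hv => ?_⟩
  rw [SimpleGraph.Walk.mem_support_append_iff] at hv
  rcases hv with hv | hv
  · exact hp v hv
  · exact hq v hv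

omit [D.LocallyFinite] in
theorem s3_sub_QS {C : Set V} (M : ℕ) : C \ LM D M C ⊆ QS D M C := by
  rintro v ⟨hv, hv'⟩
  refine ⟨hv, ?_⟩
  rintro C' ⟨z, hz, rfl, -⟩ h
  exact hv' (cmp_sub _ _ h)

/-- TARGET. For a cone `C` there is `M0` such that for all `M ≥ M0` the top piece `QS M C` is connected.
Every point of `QS M C` is joined inside `QS M C` to a point of `C` adjacent to `oS C`: if `v` is within distance `M` of `oS C`, along a geodesic to `oS C` (it stays in `C` until it reaches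
`oS C`, at distance `≤ M`); if `v` is in a finite component of `LM`, first inside that component to a point at distance `M`. The finitely many points of `C` adjacent to `oS C` are joined
to each other in `C` (`C` is connected) by walks staying within distance `M0` of `oS C`. -/
theorem QS_conn (H : Gd D r) {C : Set V} (hC : IsCn D C) : ∃ M0 : ℕ, ∀ M, M0 ≤ M → InConn D (QS D M C) := by
  have hconn := s3_cn_conn hC
  obtain ⟨hof, y0, hy0⟩ := oS_finite H hC
  -- the inner boundary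
  set I : Set V := {c | c ∈ C ∧ ∃ y ∈ oS D C, D.Adj y c} with hI
  have hIf : I.Finite := by
    have h1 : (⋃ y ∈ oS D C, (bS D y 1)).Finite := hof.biUnion (fun y _ => bS_finite H y 1)
    apply h1.subset
    rintro c ⟨-, y, hy, hyc⟩
    rw [Set.mem_iUnion₂]
    refine ⟨y, hy, ?_⟩
    show D.dist y c ≤ 1
    rw [SimpleGraph.dist_eq_one_iff_adj.2 hyc]
  have hw : ∀ a b : V, ∃ N : ℕ, a ∈ I → b ∈ I → ∃ p : D.Walk a b, ∀ v ∈ p.support, v ∈ C ∧ D.dist y0 v ≤ N := by
    intro a b
    by_cases ha : a ∈ I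
    · by_cases hb : b ∈ I
      · obtain ⟨p, hp⟩ := hconn a ha.1 b hb.1
        refine ⟨p.support.toFinset.sup (fun v => D.dist y0 v), fun _ _ => ⟨p, fun v hv => ⟨hp v hv, ?_⟩⟩⟩
        exact Finset.le_sup (f := fun v => D.dist y0 v) (List.mem_toFinset.2 hv)
      · exact ⟨0, fun _ h => absurd h hb⟩
    · exact ⟨0, fun h => absurd h ha⟩
  choose N hN using hw
  refine ⟨1 + (hIf.toFinset ×ˢ hIf.toFinset).sup (fun q => N q.1 q.2), fun M hM => ?_⟩
  have hM1 : 1 ≤ M := by omega
  -- points of `I` are joined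
  have hII : ∀ a ∈ I, ∀ b ∈ I, b ∈ cmp D (QS D M C) a := by
    intro a ha b hb
    obtain ⟨p, hp⟩ := hN a b ha hb
    have hle : N a b ≤ M := by
      have : N a b ≤ (hIf.toFinset ×ˢ hIf.toFinset).sup (fun q => N q.1 q.2) :=
        Finset.le_sup (f := fun q : V × V => N q.1 q.2) (b := (a, b))
          (Finset.mem_product.2 ⟨hIf.mem_toFinset.2 ha, hIf.mem_toFinset.2 hb⟩)
      omega
    refine ⟨p, fun v hv => s3_sub_QS M ⟨(hp v hv).1, fun hL => ?_⟩⟩
    have h1 := hL.2 y0 hy0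
    have h2 := (hp v hv).2
    omega
  have hInL : ∀ a ∈ I, a ∉ LM D M C := by
    rintro a ⟨ha, y, hy, hya⟩ hL
    have h1 := hL.2 y hy
    rw [SimpleGraph.dist_eq_one_iff_adj.2 hya] at h1
    omega
  have hIne : ∃ a, a ∈ I := by
    obtain ⟨-, c, hc, hyc⟩ := id hy0
    exact ⟨c, hc, y0, hy0, hyc⟩
  -- case (a)
  have hA : ∀ v ∈ C, v ∉ LM D M C → ∃ a ∈ I, a ∈ cmp D (QS D M C) v := by
    intro v hv hv'
    obtain ⟨u, hu, huy, huc⟩ := s3_to_boundary H hv hv'
    exact ⟨u, ⟨hu, huy⟩, s3_cmp_mono (s3_sub_QS M) v huc⟩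
  -- case (b)
  have hB : ∀ v ∈ QS D M C, ∃ a ∈ I, a ∈ cmp D (QS D M C) v := by
    intro v hv
    by_cases hL : v ∈ LM D M C
    · obtain ⟨c, hc⟩ := hIne
      obtain ⟨p, hp⟩ := hconn v hv.1 c hc.1
      obtain ⟨u, x, ⟨q, hq⟩, hx, hxs, hux⟩ := s3_exit p hL (hInL c hc)
      have hxC : x ∈ C := hp x hxs
      have hqQ : ∀ w ∈ q.support, w ∈ QS D M C := by
        intro w hw
        refine ⟨(hq w hw).1.1, ?_⟩
        rintro C' hC' hwC'
        -- then `v ∈ C'`
        obtain ⟨z, hz, rfl, hzi⟩ := id hC'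
        have hwv : v ∈ cmp D (LM D M C) w := by
          have h1 : w ∈ cmp D (LM D M C) v :=
            ⟨q.takeUntil w hw, fun t ht => (hq t (q.support_takeUntil_subset_support hw ht)).1⟩
          exact s3_cmp_symm h1
        exact hv.2 _ hC' (s3_cmp_trans hwC' hwv)
      have hxQ : x ∈ QS D M C := s3_sub_QS M ⟨hxC, hx⟩
      obtain ⟨a, ha, hax⟩ := hA x hxC hx
      refine ⟨a, ha, s3_cmp_trans (b := x) ?_ hax⟩
      refine ⟨q.concat hux, fun t ht => ?_⟩
      rw [SimpleGraph.Walk.support_concat] at ht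
      simp only [List.mem_append, List.mem_singleton] at ht
      rcases ht with ht | ht
      · exact hqQ t ht
      · rw [ht]; exact hxQ
    · exact hA v hv.1 hL
  intro a ha b hb
  obtain ⟨a', ha', haa⟩ := hB a ha
  obtain ⟨b', hb', hbb⟩ := hB b hb
  exact s3_cmp_trans haa (s3_cmp_trans (hII a' ha' b' hb') (s3_cmp_symm hbb))


theorem s3_near_fin (H : Gd D r) {C : Set V} (hC : IsCn D C) (M : ℕ) : {v | ∃ y ∈ oS D C, D.dist y v ≤ M}.Finite := by
  have h1 : (⋃ y ∈ oS D C, (bS D y M)).Finite := (oS_finite H hC).1.biUnion (fun y _ => bS_finite H y M)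
  apply h1.subset
  rintro v ⟨y, hy, hyv⟩
  rw [Set.mem_iUnion₂]
  exact ⟨y, hy, hyv⟩

omit [D.LocallyFinite] in
theorem s3_ball_sub (hD : D.Connected) {C : Set V} {v : V} {R : ℕ} (hv : v ∈ C) (h : ∀ y ∈ oS D C, R < D.dist y v) :
    bS D v R ⊆ C := by
  intro u hu
  by_contra hC
  have hu' : D.dist v u ≤ R := hu
  obtain ⟨q, hq⟩ := hD.exists_walk_length_eq_dist v u
  obtain ⟨a, b, ⟨q', hq'⟩, hb, hbs, hab⟩ := s3_exit q hv hC
  have ha : a ∈ C := (hq' a q'.end_mem_support).1
  have h1 := h b ⟨hb, a, ha, hab.symm⟩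
  have e := congrArg SimpleGraph.Walk.length (q.take_spec hbs)
  rw [SimpleGraph.Walk.length_append] at e
  have e2 := SimpleGraph.dist_le (q.takeUntil b hbs)
  rw [SimpleGraph.dist_comm] at e2
  omega

theorem s3_compl_conn (H : Gd D r) {x z : V} {n : ℕ} : InConn D (cmp D (bS D x n)ᶜ z)ᶜ := by
  set C := cmp D (bS D x n)ᶜ z with hCdef
  have hball : bS D x n ⊆ Cᶜ := fun v hv hC => cmp_sub _ _ hC hv
  have hx : x ∈ bS D x n := by
    show D.dist x x ≤ n
    simp
  have h1 : ∀ a ∈ bS D x n, x ∈ cmp D Cᶜ a := by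
    intro a ha
    obtain ⟨p, hp⟩ := bS_conn H x n a ha x hx
    exact ⟨p, fun v hv => hball (hp v hv)⟩
  have h2 : ∀ a ∈ Cᶜ, x ∈ cmp D Cᶜ a := by
    intro a ha
    by_cases hab : a ∈ bS D x n
    · exact h1 a hab
    · obtain ⟨p⟩ := H.conn.preconnected a x
      obtain ⟨u, v, ⟨q, hq⟩, hv, -, huv⟩ := s3_exit (P := (bS D x n)ᶜ) p hab (fun h => h hx)
      rw [Set.mem_compl_iff, not_not] at hv
      refine s3_cmp_trans (b := v) ⟨q.concat huv, fun t ht => ?_⟩ (h1 v hv)
      rw [SimpleGraph.Walk.support_concat] at ht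
      simp only [List.mem_append, List.mem_singleton] at ht
      rcases ht with ht | ht
      · intro htC
        apply ha
        have h3 : t ∈ cmp D (bS D x n)ᶜ a :=
          ⟨q.takeUntil t ht, fun w hw => (hq w (q.support_takeUntil_subset_support ht hw)).1⟩
        exact s3_cmp_trans htC (s3_cmp_symm h3)
      · rw [ht]
        exact hball hv
  intro a ha b hb
  exact s3_cmp_trans (h2 a ha) (s3_cmp_symm (h2 b hb))

/-- TARGET. For a cone `C` there is `M0` such that for all `M ≥ M0` there are at least two children. Let `R` be from `three_ends`. `C` is infinite, so there is `v ∈ C` at distance `> R`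
from `oS C`; then `B(v, R) ⊆ C`. The complement of `C` is connected (it is the ball together with the other components of the complement of the ball), so it meets at most
one component of the complement of `B(v, R)`; hence two of the three infinite components `E_1, E_2` of the complement of `B(v, R)` are subsets of `C`. Let `M0` be larger than the distance of all points of `B(v, R)` from
`oS C`. For `M ≥ M0`, `E_i ∩ LM M C` is infinite (only finitely many points of `C` are not in `LM`) and so meets an infinite component of `LM` (they are components of complements of balls,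
`cmp_LM`, `exists_inf_cmp`), and these components do not meet `B(v, R)`, so the ones for `E_1` and `E_2` are different. -/
theorem two_chS (Q : Qi D r) {C : Set V} (hC : IsCn D C) : ∃ M0 : ℕ, ∀ M, M0 ≤ M → ∃ A ∈ chS D M C, ∃ B ∈ chS D M C, A ≠ B := by
  have H := Q.gd
  obtain ⟨R, hR⟩ := three_ends Q
  obtain ⟨x, n, z, hz, hCe, hinf⟩ := id hC
  obtain ⟨hof, y0, hy0⟩ := oS_finite H hC
  obtain ⟨v, hvC, hv⟩ : ∃ v ∈ C, ∀ y ∈ oS D C, R < D.dist y v := by
    obtain ⟨v, hv, hv'⟩ := (hinf.sdiff (s3_near_fin H hC R)).nonempty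
    refine ⟨v, hv, fun y hy => ?_⟩
    by_contra h
    exact hv' ⟨y, hy, by omega⟩
  have hball := s3_ball_sub H.conn hvC hv
  have hcc : InConn D Cᶜ := by
    rw [hCe]
    exact s3_compl_conn H
  obtain ⟨e, he, hne⟩ := hR v
  have hxC : x ∈ Cᶜ := by
    rw [hCe]
    intro h
    apply cmp_sub _ _ h
    show D.dist x x ≤ n
    simp
  have hdis : ∀ i j, i ≠ j → ∀ t, t ∈ cmp D (bS D v R)ᶜ (e i) → t ∈ cmp D (bS D v R)ᶜ (e j) → False := by
    intro i j hij t h1 h2
    exact Set.disjoint_left.1 (cmp_disj (hne i j hij)) h1 h2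
  have hbad : ∀ i, ¬ cmp D (bS D v R)ᶜ (e i) ⊆ C → x ∈ cmp D (bS D v R)ᶜ (e i) := by
    intro i hi
    rw [Set.not_subset] at hi
    obtain ⟨t, ht, htC⟩ := hi
    exact cmp_max hcc (Set.compl_subset_compl.2 hball) htC ht hxC
  obtain ⟨i, j, hij, hi, hj⟩ : ∃ i j, i ≠ j ∧ cmp D (bS D v R)ᶜ (e i) ⊆ C ∧ cmp D (bS D v R)ᶜ (e j) ⊆ C := by
    by_cases h0 : cmp D (bS D v R)ᶜ (e 0) ⊆ C
    · by_cases h1 : cmp D (bS D v R)ᶜ (e 1) ⊆ C
      · exact ⟨0, 1, by decide, h0, h1⟩
      · refine ⟨0, 2, by decide, h0, ?_⟩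
        by_contra h2
        exact hdis 1 2 (by decide) x (hbad 1 h1) (hbad 2 h2)
    · refine ⟨1, 2, by decide, ?_, ?_⟩
      · by_contra h1
        exact hdis 0 1 (by decide) x (hbad 0 h0) (hbad 1 h1)
      · by_contra h2
        exact hdis 0 2 (by decide) x (hbad 0 h0) (hbad 2 h2)
  refine ⟨R + D.dist y0 v, fun M hM => ?_⟩
  have hBL : LM D M C ⊆ (bS D v R)ᶜ := by
    intro u hu hub
    have h1 := hu.2 y0 hy0
    have h2 : D.dist v u ≤ R := hub
    have h3 := H.conn.dist_triangle (u := y0) (v := v) (w := u)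
    omega
  have hLe : LM D M C = C ∩ (bS D x (n + M))ᶜ := by
    rw [hCe]
    exact LM_eq H hz M
  have key : ∀ i, cmp D (bS D v R)ᶜ (e i) ⊆ C → ∃ w A, A ∈ chS D M C ∧ w ∈ A ∧ A ⊆ cmp D (bS D v R)ᶜ (e i) := by
    intro i hi
    have h1 : (cmp D (bS D v R)ᶜ (e i) ∩ LM D M C).Infinite := by
      have h2 := (he i).2.sdiff (s3_near_fin H hC M)
      refine h2.mono ?_
      rintro t ⟨ht, ht'⟩
      refine ⟨ht, hi ht, fun y hy => ?_⟩
      by_contra h
      exact ht' ⟨y, hy, by omega⟩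
    obtain ⟨w, hw, hwi⟩ := exists_inf_cmp H (bS_finite H x (n + M)) h1 (by
      rintro t ⟨-, ht⟩
      rw [hLe] at ht
      exact ht.2)
    have h3 : cmp D (LM D M C) w = cmp D (bS D x (n + M))ᶜ w := by
      have hw2 := hw.2
      rw [hCe] at hw2 ⊢
      exact cmp_LM H hz M hw2
    have hwA : w ∈ cmp D (LM D M C) w := self_mem_cmp hw.2
    refine ⟨w, cmp D (LM D M C) w, ⟨w, hw.2, rfl, ?_⟩, hwA, ?_⟩
    · rw [h3]
      exact hwi.mono Set.inter_subset_left
    · exact cmp_max (cmp_conn _ _) ((cmp_sub _ _).trans hBL) hwA hw.1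
  obtain ⟨w, A, hA, hwA, hAE⟩ := key i hi
  obtain ⟨w', B, hB, hwB, hBE⟩ := key j hj
  refine ⟨A, hA, B, hB, ?_⟩
  rintro rfl
  exact hdis i j hij w (hAE hwA) (hBE hwA)

end Pool.Agent.Helper910.QT
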