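import Mathlib
import Pool.Agent.Helper910.S3


/-! Special cones, and the structure theorem (MP_4555f0_mp) -/

namespace Pool.Agent.Helper910.QT

open Classical Finset

variable {V : Type*}

/-! ### auxiliary lemmas for the selection of special cones -/

theorem s4_deC_cn {Cn : Set V → Prop} {ch : Set V → Finset (Set V)} (hcn : ∀ C, Cn C → ∀ C' ∈ ch C, Cn C')
    {C : Set V} (hC : Cn C) (j : ℕ) : ∀ B ∈ deC ch {C} j, Cn B := by
  induction j with
  | zero =>
    intro B hB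
    rw [deC, Finset.mem_singleton] at hB
    rw [hB]
    exact hC
  | succ j ih =>
    intro B hB
    rw [deC, Finset.mem_biUnion] at hB
    obtain ⟨A, hA, hB⟩ := hB
    exact hcn A (ih A hA) B hB

theorem s4_deC_trans {ch : Set V → Finset (Set V)} {B C : Set V} {j : ℕ} (hB : B ∈ deC ch {C} j) (i : ℕ) :
    ∀ A ∈ deC ch {B} i, A ∈ deC ch {C} (j + i) := by
  induction i with
  | zero =>
    intro A hA
    rw [deC, Finset.mem_singleton] at hA
    rw [hA]
    exact hB
  | succ i ih =>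
    intro A hA
    rw [deC, Finset.mem_biUnion] at hA
    obtain ⟨A', hA', hA⟩ := hA
    rw [← Nat.add_assoc, deC, Finset.mem_biUnion]
    exact ⟨A', ih A' hA', hA⟩

theorem s4_deC_E {Cn : Set V → Prop} {ch : Set V → Finset (Set V)} {E : Set V → Set V → Prop}
    (hcn : ∀ C, Cn C → ∀ C' ∈ ch C, Cn C')
    (hE : ∀ C C', Cn C → E C C' → ∀ B ∈ ch C, ∃ B' ∈ ch C', E B B') {C C' : Set V} (hC : Cn C) (h : E C C')
    (j : ℕ) : ∀ B ∈ deC ch {C} j, ∃ B' ∈ deC ch {C'} j, E B B' := by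
  induction j with
  | zero =>
    intro B hB
    rw [deC, Finset.mem_singleton] at hB
    refine ⟨C', ?_, ?_⟩
    · rw [deC, Finset.mem_singleton]
    · rw [hB]; exact h
  | succ j ih =>
    intro B hB
    rw [deC, Finset.mem_biUnion] at hB
    obtain ⟨A, hA, hB⟩ := hB
    obtain ⟨A', hA', hAA⟩ := ih A hA
    obtain ⟨B', hB', hBB⟩ := hE A A' (s4_deC_cn hcn hC j A hA) hAA B hB
    refine ⟨B', ?_, hBB⟩
    rw [deC, Finset.mem_biUnion]
    exact ⟨A', hA', hB'⟩

/-- reachability -/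
def s4_reach (ch : Set V → Finset (Set V)) (E : Set V → Set V → Prop) (C C' : Set V) : Prop :=
  ∃ j, ∃ B ∈ deC ch {C} j, E B C'

theorem s4_reach_self {ch : Set V → Finset (Set V)} {E : Set V → Set V → Prop} {C C' : Set V} (h : E C C') :
    s4_reach ch E C C' := by
  refine ⟨0, C, ?_, h⟩
  rw [deC, Finset.mem_singleton]

theorem s4_reach_trans {Cn : Set V → Prop} {ch : Set V → Finset (Set V)} {E : Set V → Set V → Prop}
    (hEq : Equivalence E) (hcn : ∀ C, Cn C → ∀ C' ∈ ch C, Cn C') (hECn : ∀ C C', E C C' → Cn C → Cn C')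
    (hE : ∀ C C', Cn C → E C C' → ∀ B ∈ ch C, ∃ B' ∈ ch C', E B B') {A B C : Set V} (hA : Cn A)
    (h1 : s4_reach ch E A B) (h2 : s4_reach ch E B C) : s4_reach ch E A C := by
  obtain ⟨j, X, hX, hXB⟩ := h1
  obtain ⟨i, Y, hY, hYC⟩ := h2
  have hXc : Cn X := s4_deC_cn hcn hA j X hX
  have hBc : Cn B := hECn X B hXB hXc
  obtain ⟨Y', hY', hYY⟩ := s4_deC_E hcn hE hBc (hEq.symm hXB) i Y hY
  exact ⟨j + i, Y', s4_deC_trans hX i Y' hY', hEq.trans (hEq.symm hYY) hYC⟩

/-- TARGET. Abstract selection of special cones. Let `reach C C'` mean `∃ j, ∃ B ∈ deC ch {C} j, E B C'`; it is transitive (by `hE`) on `Cn`. `C` is terminal if `reach C C'` implies `reach C' C`.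
Since there are finitely many classes (`R`), from every `C` one reaches a terminal one. Enumerate `R`; for a terminal `C` let `rep C` be the first element of `R` reachable from `C`; it depends only on
the set of classes reachable from `C`, which is the same for all terminal `C'` reachable from `C`. Let `sp C` mean: `Cn C`, `C` is terminal and `E C (rep C)`. `h0` is the maximum over the finitely many classes
of the least generation in which a special descendant is found. -/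
theorem exists_special (Cn : Set V → Prop) (ch : Set V → Finset (Set V)) (E : Set V → Set V → Prop) (hEq : Equivalence E)
    (hcn : ∀ C, Cn C → ∀ C' ∈ ch C, Cn C') (hECn : ∀ C C', E C C' → Cn C → Cn C')
    (hE : ∀ C C', Cn C → E C C' → ∀ B ∈ ch C, ∃ B' ∈ ch C', E B B')
    (hR : ∃ R : Finset (Set V), ∀ C, Cn C → ∃ C0 ∈ R, E C C0) (hne : ∀ C, Cn C → (ch C).Nonempty) :
    ∃ (sp : Set V → Prop) (h0 : ℕ), (∀ C C', Cn C → E C C' → sp C → sp C') ∧ (∀ C, Cn C → ∃ j ≤ h0, ∃ U ∈ deC ch {C} j, sp U) ∧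
      ∀ U, Cn U → sp U → ∀ j, ∀ U' ∈ deC ch {U} j, sp U' → E U U' := by
  obtain ⟨R, hR⟩ := hR
  have hrt : ∀ {A B C : Set V}, Cn A → s4_reach ch E A B → s4_reach ch E B C → s4_reach ch E A C :=
    fun hA h1 h2 => s4_reach_trans hEq hcn hECn hE hA h1 h2
  have hrcn : ∀ {A B : Set V}, Cn A → s4_reach ch E A B → Cn B := by
    rintro A B hA ⟨j, X, hX, hXB⟩
    exact hECn X B hXB (s4_deC_cn hcn hA j X hX)
  let g : Finset (Set V) → Set V := fun s => if h : s.Nonempty then h.choose else ∅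
  have hg : ∀ s : Finset (Set V), s.Nonempty → g s ∈ s := by
    intro s hs
    simp only [g, dif_pos hs]
    exact hs.choose_spec
  let ro : Set V → Finset (Set V) := fun C => R.filter (fun X => s4_reach ch E C X)
  have hro : ∀ {A B : Set V}, Cn A → s4_reach ch E A B → ro B ⊆ ro A := by
    intro A B hA h X hX
    simp only [ro, Finset.mem_filter] at hX ⊢
    exact ⟨hX.1, hrt hA h hX.2⟩
  have hrone : ∀ {A : Set V}, Cn A → (ro A).Nonempty := by
    intro A hA
    obtain ⟨C0, hC0, hE0⟩ := hR A hA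
    refine ⟨C0, ?_⟩
    simp only [ro, Finset.mem_filter]
    exact ⟨hC0, s4_reach_self hE0⟩
  let term : Set V → Prop := fun C => ∀ C', s4_reach ch E C C' → s4_reach ch E C' C
  let sp : Set V → Prop := fun C => Cn C ∧ term C ∧ E C (g (ro C))
  have hterm : ∀ {A B : Set V}, Cn A → s4_reach ch E A B → term A → term B := by
    intro A B hA h ht X hX
    have h1 : s4_reach ch E A X := hrt hA h hX
    exact hrt (hrcn hA h1) (ht X h1) h
  have hroeq : ∀ {A B : Set V}, Cn A → s4_reach ch E A B → term A → ro A = ro B := by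
    intro A B hA h ht
    exact Finset.Subset.antisymm (hro (hrcn hA h) (ht B h)) (hro hA h)
  have h1 : ∀ C C', Cn C → E C C' → sp C → sp C' := by
    rintro C C' hC hCC ⟨_, ht, hrep⟩
    have hr : s4_reach ch E C C' := s4_reach_self hCC
    refine ⟨hECn C C' hCC hC, hterm hC hr ht, ?_⟩
    rw [← hroeq hC hr ht]
    exact hEq.trans (hEq.symm hCC) hrep
  have h2 : ∀ C, Cn C → ∃ j, ∃ U ∈ deC ch {C} j, sp U := by
    intro C hC
    have hex : ∃ n, ∃ j, ∃ U ∈ deC ch {C} j, (ro U).card = n := by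
      refine ⟨_, 0, C, ?_, rfl⟩
      rw [deC, Finset.mem_singleton]
    obtain ⟨j, U, hU, hn⟩ := Nat.find_spec hex
    have hUc : Cn U := s4_deC_cn hcn hC j U hU
    have hUt : term U := by
      rintro X ⟨i, B, hB, hBX⟩
      have hBc : Cn B := s4_deC_cn hcn hUc i B hB
      have hUB : s4_reach ch E U B := ⟨i, B, hB, hEq.refl B⟩
      have h3 : B ∈ deC ch {C} (j + i) := s4_deC_trans hU i B hB
      have h4 : Nat.find hex ≤ (ro B).card := Nat.find_min' hex ⟨j + i, B, h3, rfl⟩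
      have h5 : ro B ⊆ ro U := hro hUc hUB
      have h6 : ro B = ro U := Finset.eq_of_subset_of_card_le h5 (by omega)
      obtain ⟨C0, hC0, hE0⟩ := hR U hUc
      have h7 : C0 ∈ ro U := by
        simp only [ro, Finset.mem_filter]
        exact ⟨hC0, s4_reach_self hE0⟩
      rw [← h6] at h7
      simp only [ro, Finset.mem_filter] at h7
      obtain ⟨i', B', hB', hE'⟩ := h7.2
      have h8 : s4_reach ch E B U := ⟨i', B', hB', hEq.trans hE' (hEq.symm hE0)⟩
      exact hrt (hECn B X hBX hBc) (s4_reach_self (hEq.symm hBX)) h8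
    have h3 : g (ro U) ∈ ro U := hg _ (hrone hUc)
    have h3' := h3
    simp only [ro, Finset.mem_filter] at h3'
    obtain ⟨i, B, hB, hBE⟩ := h3'.2
    have hUB : s4_reach ch E U B := ⟨i, B, hB, hEq.refl B⟩
    refine ⟨j + i, B, s4_deC_trans hU i B hB, s4_deC_cn hcn hUc i B hB, hterm hUc hUB hUt, ?_⟩
    rw [← hroeq hUc hUB hUt]
    exact hBE
  let h0 : ℕ := ∑ C ∈ R, (if h : ∃ j, ∃ U ∈ deC ch {C} j, sp U then h.choose else 0)
  refine ⟨sp, h0, h1, ?_, ?_⟩
  · intro C hC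
    obtain ⟨C0, hC0, hE0⟩ := hR C hC
    have hC0c : Cn C0 := hECn C C0 hE0 hC
    have hex := h2 C0 hC0c
    obtain ⟨U, hU, hUs⟩ := hex.choose_spec
    have hle : hex.choose ≤ h0 := by
      have h3 := Finset.single_le_sum (f := fun C => (if h : ∃ j, ∃ U ∈ deC ch {C} j, sp U then h.choose else 0))
        (fun _ _ => Nat.zero_le _) hC0
      simp only [dif_pos hex] at h3
      exact h3
    obtain ⟨U', hU', hUU⟩ := s4_deC_E hcn hE hC0c (hEq.symm hE0) _ U hU
    exact ⟨hex.choose, hle, U', hU', h1 U U' (s4_deC_cn hcn hC0c _ U hU) hUU hUs⟩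
  · rintro U hU ⟨_, ht, hrep⟩ j U' hU' ⟨_, _, hrep'⟩
    have hr : s4_reach ch E U U' := ⟨j, U', hU', hEq.refl U'⟩
    rw [← hroeq hU hr ht] at hrep'
    exact hEq.trans hrep (hEq.symm hrep')

variable {D : SimpleGraph V} [D.LocallyFinite] {r : ℕ}

theorem s4_two (H : Gd D r) {C : Set V} (hC : IsCn D C) {M : ℕ} (hM : 2 ≤ M) : ∃ a ∈ QS D M C, ∃ b ∈ QS D M C, a ≠ b := by
  have hconn : InConn D C := by
    obtain ⟨x, n, z, hz, rfl, _⟩ := hC
    exact cmp_conn _ _
  have hinf : C.Infinite := by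
    obtain ⟨x, n, z, hz, h, hi⟩ := hC
    exact hi
  obtain ⟨y, hy⟩ := (oS_finite H hC).2
  have hy' := hy
  obtain ⟨hyC, z1, hz1, hadj⟩ := hy'
  obtain ⟨z', hz', hne⟩ := hinf.exists_notMem_finset {z1}
  rw [Finset.mem_singleton] at hne
  obtain ⟨p, hp⟩ := hconn z1 hz1 z' hz'
  have key : ∀ v ∈ C, D.dist y v ≤ 2 → v ∈ QS D M C := by
    intro v hv hd
    refine ⟨hv, ?_⟩
    rintro C' ⟨w, hw, rfl, _⟩ hvC'
    have h1 := (cmp_sub _ _ hvC').2 y hy
    omega
  cases p with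
  | nil => exact absurd rfl hne
  | cons h q =>
    rename_i v
    refine ⟨z1, key z1 hz1 ?_, v, key v (hp v ?_) ?_, h.ne⟩
    · rw [SimpleGraph.dist_eq_one_iff_adj.2 hadj.symm.symm] ; omega
    · rw [SimpleGraph.Walk.support_cons]
      exact List.mem_cons_of_mem _ q.start_mem_support
    · have := SimpleGraph.dist_le (SimpleGraph.Walk.cons hadj.symm.symm (SimpleGraph.Walk.cons h SimpleGraph.Walk.nil))
      simpa using this

/-- TARGET. The structure theorem. Take `M` larger than `1` and than the `M0` of `QS_conn` and `two_chS` for the finitely many types `R` (`types'`); these properties transfer along automorphisms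
(`aut_chS`, `aut_QS`). `Cn = IsCn D`; `Q C`, `o C`, `ch C` are the finite sets `QS D M C`, `oS D C`, `chS D M C` (as `Finset`s, `∅` if `C` is not a cone); `m` bounds the cardinalities over the types;
`mem_iff`, `Q_notMem` by definition of `QS` and `chS_sub`; `Q_ne` since `oS C' ⊆ QS C` is nonempty for a child `C'`; `fill` from `fill'`; `sp`, `h0` from `exists_special` with `E C C' := ∃ φ, φ '' C = C'`. -/
theorem exists_TS (Q : Qi D r) : Nonempty (TS D r) := by
  have H : Gd D r := Q.gd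
  obtain ⟨R, hR1, hR2⟩ := types' Q
  have hm1 : ∀ C : Set V, ∃ M0 : ℕ, IsCn D C → ∀ M, M0 ≤ M → InConn D (QS D M C) := by
    intro C
    by_cases hC : IsCn D C
    · obtain ⟨M0, h⟩ := QS_conn H hC
      exact ⟨M0, fun _ => h⟩
    · exact ⟨0, fun h => absurd h hC⟩
  have hm2 : ∀ C : Set V, ∃ M0 : ℕ, IsCn D C → ∀ M, M0 ≤ M → ∃ A ∈ chS D M C, ∃ B ∈ chS D M C, A ≠ B := by
    intro C
    by_cases hC : IsCn D C
    · obtain ⟨M0, h⟩ := two_chS Q hC
      exact ⟨M0, fun _ => h⟩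
    · exact ⟨0, fun h => absurd h hC⟩
  choose m1 hm1 using hm1
  choose m2 hm2 using hm2
  obtain ⟨M, hM⟩ : ∃ M : ℕ, M = 2 + ∑ C ∈ R, (m1 C + m2 C) := ⟨_, rfl⟩
  have hM1 : 1 ≤ M := by omega
  have hM2 : 2 ≤ M := by omega
  have hMR : ∀ C ∈ R, m1 C + m2 C ≤ M := by
    intro C hC
    have h : m1 C + m2 C ≤ ∑ C ∈ R, (m1 C + m2 C) :=
      Finset.single_le_sum (f := fun C => m1 C + m2 C) (fun _ _ => Nat.zero_le _) hC
    omega
  have hconn : ∀ C, IsCn D C → InConn D (QS D M C) := by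
    intro C hC
    obtain ⟨C0, hC0, φ, rfl⟩ := hR2 C hC
    have h1 := hm1 C0 (hR1 C0 hC0) M (by have := hMR C0 hC0; omega)
    rw [aut_QS]
    rintro _ ⟨a, ha, rfl⟩ _ ⟨b, hb, rfl⟩
    obtain ⟨p, hp⟩ := h1 a ha b hb
    refine ⟨p.map φ.toHom, ?_⟩
    intro z hz
    rw [SimpleGraph.Walk.support_map, List.mem_map] at hz
    obtain ⟨y, hy, rfl⟩ := hz
    exact ⟨y, hp y hy, rfl⟩
  have htwo : ∀ C, IsCn D C → ∃ A ∈ chS D M C, ∃ B ∈ chS D M C, A ≠ B := by
    intro C hC
    obtain ⟨C0, hC0, φ, rfl⟩ := hR2 C hC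
    obtain ⟨A, hA, B, hB, hAB⟩ := hm2 C0 (hR1 C0 hC0) M (by have := hMR C0 hC0; omega)
    rw [aut_chS]
    refine ⟨φ '' A, ⟨A, hA, rfl⟩, φ '' B, ⟨B, hB, rfl⟩, fun h => hAB ?_⟩
    exact Set.image_injective.2 φ.injective h
  let Qf : Set V → Finset V := fun C => if h : (QS D M C).Finite then h.toFinset else ∅
  let of : Set V → Finset V := fun C => if h : (oS D C).Finite then h.toFinset else ∅
  let chf : Set V → Finset (Set V) := fun C => if h : (chS D M C).Finite then h.toFinset else ∅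
  have hQf : ∀ {C : Set V}, IsCn D C → ∀ z, z ∈ Qf C ↔ z ∈ QS D M C := by
    intro C hC z
    simp only [Qf, dif_pos (QS_finite H hC M), Set.Finite.mem_toFinset]
  have hof : ∀ {C : Set V}, IsCn D C → ∀ z, z ∈ of C ↔ z ∈ oS D C := by
    intro C hC z
    simp only [of, dif_pos (oS_finite H hC).1, Set.Finite.mem_toFinset]
  have hchf : ∀ {C : Set V}, IsCn D C → ∀ z, z ∈ chf C ↔ z ∈ chS D M C := by
    intro C hC z
    simp only [chf, dif_pos (chS_finite H hC M), Set.Finite.mem_toFinset]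
  have hautQ : ∀ {C : Set V}, IsCn D C → ∀ φ : D ≃g D, Qf (φ '' C) = (Qf C).image φ := by
    intro C hC φ
    ext z
    rw [hQf (aut_cn' hC φ), aut_QS, Finset.mem_image]
    constructor
    · rintro ⟨y, hy, rfl⟩
      exact ⟨y, (hQf hC y).2 hy, rfl⟩
    · rintro ⟨y, hy, rfl⟩
      exact ⟨y, (hQf hC y).1 hy, rfl⟩
  have hauto : ∀ {C : Set V}, IsCn D C → ∀ φ : D ≃g D, of (φ '' C) = (of C).image φ := by
    intro C hC φ
    ext z
    rw [hof (aut_cn' hC φ), aut_oS, Finset.mem_image]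
    constructor
    · rintro ⟨y, hy, rfl⟩
      exact ⟨y, (hof hC y).2 hy, rfl⟩
    · rintro ⟨y, hy, rfl⟩
      exact ⟨y, (hof hC y).1 hy, rfl⟩
  have hautch : ∀ {C : Set V}, IsCn D C → ∀ φ : D ≃g D, chf (φ '' C) = (chf C).image (fun C' => φ '' C') := by
    intro C hC φ
    ext z
    rw [hchf (aut_cn' hC φ), aut_chS, Finset.mem_image]
    constructor
    · rintro ⟨y, hy, rfl⟩
      exact ⟨y, (hchf hC y).2 hy, rfl⟩
    · rintro ⟨y, hy, rfl⟩
      exact ⟨y, (hchf hC y).1 hy, rfl⟩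
  obtain ⟨m, hm⟩ : ∃ m : ℕ, m = ∑ C ∈ R, ((Qf C).card + (of C).card + (chf C).card) := ⟨_, rfl⟩
  have hmR : ∀ C ∈ R, (Qf C).card + (of C).card + (chf C).card ≤ m := by
    intro C hC
    have h : (Qf C).card + (of C).card + (chf C).card ≤
        ∑ C ∈ R, ((Qf C).card + (of C).card + (chf C).card) :=
      Finset.single_le_sum (f := fun C => (Qf C).card + (of C).card + (chf C).card)
        (fun _ _ => Nat.zero_le _) hC
    omega
  let E : Set V → Set V → Prop := fun C C' => ∃ φ : D ≃g D, φ '' C = C'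
  have hEq : Equivalence E := by
    refine ⟨fun C => ⟨SimpleGraph.Iso.refl, ?_⟩, ?_, ?_⟩
    · ext z
      constructor
      · rintro ⟨y, hy, rfl⟩
        exact hy
      · intro hz
        exact ⟨z, hz, rfl⟩
    · rintro C C' ⟨φ, rfl⟩
      refine ⟨φ.symm, ?_⟩
      ext z
      constructor
      · rintro ⟨_, ⟨y, hy, rfl⟩, rfl⟩
        rw [RelIso.symm_apply_apply]
        exact hy
      · intro hz
        exact ⟨φ z, ⟨z, hz, rfl⟩, RelIso.symm_apply_apply φ z⟩
    · rintro C C' C'' ⟨φ, rfl⟩ ⟨ψ, rfl⟩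
      refine ⟨φ.trans ψ, ?_⟩
      ext z
      constructor
      · rintro ⟨y, hy, rfl⟩
        exact ⟨φ y, ⟨y, hy, rfl⟩, rfl⟩
      · rintro ⟨_, ⟨y, hy, rfl⟩, rfl⟩
        exact ⟨y, hy, rfl⟩
  obtain ⟨sp, h0, hsp1, hsp2, hsp3⟩ := exists_special (IsCn D) chf E hEq
    (fun C hC C' hC' => chS_cn H hC ((hchf hC C').1 hC'))
    (by
      rintro C _ ⟨φ, rfl⟩ hC
      exact aut_cn' hC φ)
    (by
      rintro C _ hC ⟨φ, rfl⟩ B hB
      rw [hautch hC φ]
      exact ⟨φ '' B, Finset.mem_image_of_mem _ hB, φ, rfl⟩)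
    ⟨R, fun C hC => by
      obtain ⟨C0, hC0, φ, hφ⟩ := hR2 C hC
      exact ⟨C0, hC0, hEq.symm ⟨φ, hφ.symm⟩⟩⟩
    (fun C hC => by
      obtain ⟨A, hA, _⟩ := htwo C hC
      exact ⟨A, (hchf hC A).2 hA⟩)
  have hosub : ∀ {C : Set V}, IsCn D C → ∀ C' ∈ chf C, of C' ⊆ Qf C := by
    intro C hC C' hC' z hz
    have h1 := (hchf hC C').1 hC'
    rw [hof (chS_cn H hC h1)] at hz
    rw [hQf hC]
    exact oS_chS H hC hM1 h1 hz
  refine ⟨{
    Cn := IsCn D
    Q := Qf
    o := of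
    ch := chf
    sp := sp
    m := m
    h0 := h0
    gd := H
    trans := Q.trans
    mem_o := fun hC x => (hof hC x).trans Iff.rfl
    o_ne := fun hC => ?_
    ch_cn := fun hC C' hC' => chS_cn H hC ((hchf hC C').1 hC')
    mem_iff := fun hC z => ?_
    Q_notMem := fun hC C' hC' z hz => ((hQf hC z).1 hz).2 C' ((hchf hC C').1 hC')
    ch_disj := fun hC C' hC' C'' hC'' hne => chS_disj ((hchf hC C').1 hC') ((hchf hC C'').1 hC'') hne
    o_sub := hosub
    Q_conn := fun hC => ?_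
    Q_ne := fun hC => ?_
    Q_two := fun hC => ?_
    two := fun hC => ?_
    Q_card := fun hC => ?_
    o_card := fun hC => ?_
    ch_card := fun hC => ?_
    aut_cn := fun hC φ => aut_cn' hC φ
    aut_Q := hautQ
    aut_ch := hautch
    aut_sp := fun hC hs φ => hsp1 _ _ hC ⟨φ, rfl⟩ hs
    types := ⟨R, hR1, hR2⟩
    fill := fun B => ?_
    sp_desc := fun hC => hsp2 _ hC
    sp_iso := fun hU hs j U' hU' hs' => hsp3 _ hU hs j U' hU' hs' }⟩
  · obtain ⟨x, hx⟩ := (oS_finite H hC).2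
    exact ⟨x, (hof hC x).2 hx⟩
  · rename_i C
    constructor
    · intro hz
      by_cases h : ∃ C' ∈ chS D M C, z ∈ C'
      · obtain ⟨C', hC', hz'⟩ := h
        exact Or.inr ⟨C', (hchf hC C').2 hC', hz'⟩
      · push Not at h
        exact Or.inl ((hQf hC z).2 ⟨hz, h⟩)
    · rintro (h | ⟨C', hC', hz'⟩)
      · exact ((hQf hC z).1 h).1
      · exact chS_sub ((hchf hC C').1 hC') hz'
  · rename_i C
    have h1 : ((Qf C : Finset V) : Set V) = QS D M C := by
      ext z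
      exact hQf hC z
    rw [h1]
    exact hconn C hC
  · rename_i C
    obtain ⟨A, hA, _⟩ := htwo C hC
    obtain ⟨x, hx⟩ := (oS_finite H (chS_cn H hC hA)).2
    exact ⟨x, (hQf hC x).2 (oS_chS H hC hM1 hA hx)⟩
  · rename_i C
    obtain ⟨a, ha, b, hb, hab⟩ := s4_two H hC hM2
    exact Finset.one_lt_card.2 ⟨a, (hQf hC a).2 ha, b, (hQf hC b).2 hb, hab⟩
  · rename_i C
    obtain ⟨A, hA, B, hB, hAB⟩ := htwo C hC
    exact Finset.one_lt_card.2 ⟨A, (hchf hC A).2 hA, B, (hchf hC B).2 hB, hAB⟩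
  · rename_i C
    obtain ⟨C0, hC0, φ, rfl⟩ := hR2 C hC
    rw [hautQ (hR1 C0 hC0) φ]
    have := hmR C0 hC0
    exact Finset.card_image_le.trans (by omega)
  · rename_i C
    obtain ⟨C0, hC0, φ, rfl⟩ := hR2 C hC
    rw [hauto (hR1 C0 hC0) φ]
    have := hmR C0 hC0
    exact Finset.card_image_le.trans (by omega)
  · rename_i C
    obtain ⟨C0, hC0, φ, rfl⟩ := hR2 C hC
    rw [hautch (hR1 C0 hC0) φ]
    have := hmR C0 hC0
    exact Finset.card_image_le.trans (by omega)
  · obtain ⟨Q0, F, h1, h2, h3, h4, h5, h6, h7⟩ := fill' H B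
    refine ⟨Q0, F, h1, h2, h3, h4, fun C hC z hz => ?_, h6, h7⟩
    exact Finset.mem_coe.1 (h5 C hC ((hof (h3 C hC) z).1 hz))

end Pool.Agent.Helper910.QT
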