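import Mathlib

namespace Pool.Agent.Helper910.Sph

open Finset MeasureTheory

/-- number of `J ∈ {0..s-1}³` with `a J₁ + b J₂ + c J₃ = w` -/
def Cnt (a b c : ℤ) (s : ℕ) (w : ℤ) : ℕ :=
  ((range s ×ˢ (range s ×ˢ range s)).filter
    (fun J : ℕ × ℕ × ℕ => a * (J.1 : ℤ) + b * (J.2.1 : ℤ) + c * (J.2.2 : ℤ) = w)).card

/-- the norm of `a u₁ + b u₂ + c u₃` for three of the four unit vectors to the vertices of a regular tetrahedron -/
noncomputable def nrm (a b c : ℤ) : ℝ := Real.sqrt ((a : ℝ) ^ 2 + b ^ 2 + c ^ 2 - 2 / 3 * (a * b + a * c + b * c))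

/-- the weights `p` on the points `(y₁ i, y₂ i, y₃ i)` give each slab at most `κ` times its width (plus the rounding error) -/
def Slab {ι : Type} (Y : Finset ι) (p : ι → ℝ) (y₁ y₂ y₃ : ι → ℤ) (κ : ℝ) : Prop :=
  ∀ a b c : ℤ, ¬ (a = 0 ∧ b = 0 ∧ c = 0) → ∀ lo hi : ℤ, lo ≤ hi →
    (∑ i ∈ Y.filter (fun i => lo ≤ a * y₁ i + b * y₂ i + c * y₃ i ∧ a * y₁ i + b * y₂ i + c * y₃ i ≤ hi), p i)
      * nrm a b c ≤ κ * ((hi : ℝ) - lo + |(a : ℝ)| + |(b : ℝ)| + |(c : ℝ)|)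

end Pool.Agent.Helper910.Sph
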