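import Mathlib
import Pool.Agent.Helper910.SphDefs


namespace Pool.Agent.Helper910.Sph

open Finset MeasureTheory

theorem sphE_int (r : Fin 3 → ℚ) : ∃ (N : ℤ) (n : Fin 3 → ℤ), N ≠ 0 ∧
    ∀ i, (n i : ℚ) = N * r i := by
  have h : ∀ i, ∃ M : ℕ, (∏ j, (r j).den) = (r i).den * M := fun i =>
    Finset.dvd_prod_of_mem (fun j => (r j).den) (Finset.mem_univ i)
  choose M hM using h
  refine ⟨((∏ j, (r j).den : ℕ) : ℤ), fun i => (r i).num * (M i : ℤ), ?_, fun i => ?_⟩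
  · have : (∏ j, (r j).den : ℕ) ≠ 0 := Finset.prod_ne_zero_iff.2 fun j _ => (r j).den_nz
    exact_mod_cast this
  · rw [hM i]
    push_cast
    have h1 : (r i) * ((r i).den : ℚ) = (r i).num := Rat.mul_den_eq_num (r i)
    rw [← h1]
    ring

theorem rational_normal (α : Fin 3 → ℝ) (hα : α ≠ 0) (β : ℝ) :
    ∃ a b c w : ℤ, (∀ g : ℤ, g ∣ a → g ∣ b → g ∣ c → IsUnit g) ∧
      ∀ x : Fin 3 → ℤ, ∑ i, α i * (x i : ℝ) = β → a * x 0 + b * x 1 + c * x 2 = w := by
  obtain ⟨i0, hi0⟩ : ∃ i, α i ≠ 0 := by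
    by_contra hcon
    push Not at hcon
    exact hα (funext hcon)
  obtain ⟨φ, hφ⟩ : ∃ φ : Module.Dual ℚ ℝ, φ (α i0) ≠ 0 := by
    by_contra hcon
    push Not at hcon
    exact hi0 ((Module.forall_dual_apply_eq_zero_iff ℚ (α i0)).1 hcon)
  obtain ⟨N, n, hN, hn⟩ := sphE_int fun i => φ (α i)
  obtain ⟨a, ha, ha1⟩ := Finset.extract_gcd n (Finset.univ_nonempty (α := Fin 3))
  have hG : (Finset.univ.gcd n) ≠ 0 := by
    intro hG
    rw [Finset.gcd_eq_zero_iff] at hG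
    have h1 := hn i0
    rw [hG i0 (Finset.mem_univ _), Int.cast_zero] at h1
    exact (mul_ne_zero (Int.cast_ne_zero.2 hN) hφ) h1.symm
  -- two solutions give the same value
  have key : ∀ x y : Fin 3 → ℤ, ∑ i, α i * (x i : ℝ) = β → ∑ i, α i * (y i : ℝ) = β →
      a 0 * x 0 + a 1 * x 1 + a 2 * x 2 = a 0 * y 0 + a 1 * y 1 + a 2 * y 2 := by
    have hφ2 : ∀ x : Fin 3 → ℤ, ∑ i, α i * (x i : ℝ) = β →
        ((Finset.univ.gcd n * (a 0 * x 0 + a 1 * x 1 + a 2 * x 2) : ℤ) : ℚ) = N * φ β := by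
      intro x hx
      have h1 : φ (∑ i, α i * (x i : ℝ)) = φ β := congrArg φ hx
      have h2 : ∀ i, φ (α i * (x i : ℝ)) = (x i : ℚ) * φ (α i) := by
        intro i
        have e : α i * (x i : ℝ) = (x i : ℚ) • α i := by
          rw [Rat.smul_def]
          push_cast
          ring
        rw [e, map_smul, smul_eq_mul]
      rw [map_sum, Finset.sum_congr rfl fun i _ => h2 i, Fin.sum_univ_three] at h1
      have e0 := ha 0 (Finset.mem_univ _)
      have e1 := ha 1 (Finset.mem_univ _)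
      have e2 := ha 2 (Finset.mem_univ _)
      have e3 : Finset.univ.gcd n * (a 0 * x 0 + a 1 * x 1 + a 2 * x 2) =
          n 0 * x 0 + n 1 * x 1 + n 2 * x 2 := by
        rw [e0, e1, e2]; ring
      rw [e3]
      push_cast
      rw [hn 0, hn 1, hn 2, ← h1]
      ring
    intro x y hx hy
    have h1 := (hφ2 x hx).trans (hφ2 y hy).symm
    have h2 := Int.cast_injective (α := ℚ) h1
    exact mul_left_cancel₀ hG h2
  have hu : ∀ g : ℤ, g ∣ a 0 → g ∣ a 1 → g ∣ a 2 → IsUnit g := by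
    intro g h0 h1 h2
    have h3 : g ∣ Finset.univ.gcd a := by
      apply Finset.dvd_gcd
      intro i _
      fin_cases i
      · exact h0
      · exact h1
      · exact h2
    rw [ha1] at h3
    exact isUnit_of_dvd_one h3
  by_cases hex : ∃ y : Fin 3 → ℤ, ∑ i, α i * (y i : ℝ) = β
  · obtain ⟨y, hy⟩ := hex
    exact ⟨a 0, a 1, a 2, a 0 * y 0 + a 1 * y 1 + a 2 * y 2, hu, fun x hx => key x y hx hy⟩
  · exact ⟨a 0, a 1, a 2, 0, hu, fun x hx => absurd ⟨x, hx⟩ hex⟩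

end Pool.Agent.Helper910.Sph
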