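import Mathlib
import Pool.Agent.Helper910.SphDefs


namespace Pool.Agent.Helper910.Sph

open Finset MeasureTheory

/-- area of a (possibly degenerate) annulus in the plane -/
theorem annulus_le (A B : ℝ) (hAB : A ≤ B) :
    volume {y : EuclideanSpace ℝ (Fin 2) | A ≤ ‖y‖ ^ 2 ∧ ‖y‖ ^ 2 ≤ B}
      ≤ ENNReal.ofReal (Real.pi * (B - A)) := by
  rcases lt_or_ge B 0 with hB | hB
  · have h0 : {y : EuclideanSpace ℝ (Fin 2) | A ≤ ‖y‖ ^ 2 ∧ ‖y‖ ^ 2 ≤ B} = ∅ := by
      ext y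
      simp only [Set.mem_ofPred_eq, Set.mem_empty_iff_false, iff_false, not_and, not_le]
      intro _
      nlinarith [sq_nonneg ‖y‖]
    rw [h0]; simp
  have hcl : ∀ y : EuclideanSpace ℝ (Fin 2), ‖y‖ ^ 2 ≤ B ↔ y ∈ Metric.closedBall (0 : EuclideanSpace ℝ (Fin 2)) (Real.sqrt B) := by
    intro y
    rw [mem_closedBall_zero_iff, Real.le_sqrt (norm_nonneg y)]
    exact hB
  have vcl : volume (Metric.closedBall (0 : EuclideanSpace ℝ (Fin 2)) (Real.sqrt B)) = ENNReal.ofReal (Real.pi * B) := by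
    rw [EuclideanSpace.volume_closedBall_fin_two, ← ENNReal.ofReal_pow (Real.sqrt_nonneg _), Real.sq_sqrt hB,
      ← ENNReal.ofReal_mul hB, mul_comm]
  rcases le_or_gt A 0 with hA | hA
  · calc volume {y : EuclideanSpace ℝ (Fin 2) | A ≤ ‖y‖ ^ 2 ∧ ‖y‖ ^ 2 ≤ B}
        ≤ volume (Metric.closedBall (0 : EuclideanSpace ℝ (Fin 2)) (Real.sqrt B)) :=
          measure_mono (fun y hy => (hcl y).1 hy.2)
      _ = ENNReal.ofReal (Real.pi * B) := vcl
      _ ≤ _ := ENNReal.ofReal_le_ofReal (by nlinarith [Real.pi_pos])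
  · have hop : ∀ y : EuclideanSpace ℝ (Fin 2), A ≤ ‖y‖ ^ 2 ↔ y ∉ Metric.ball (0 : EuclideanSpace ℝ (Fin 2)) (Real.sqrt A) := by
      intro y
      rw [mem_ball_zero_iff, not_lt, Real.sqrt_le_left (norm_nonneg y)]
    have hset : {y : EuclideanSpace ℝ (Fin 2) | A ≤ ‖y‖ ^ 2 ∧ ‖y‖ ^ 2 ≤ B}
        = Metric.closedBall 0 (Real.sqrt B) \ Metric.ball 0 (Real.sqrt A) := by
      ext y
      rw [Set.mem_ofPred_eq, Set.mem_sdiff, ← hcl y, ← hop y, and_comm]
    have vop : volume (Metric.ball (0 : EuclideanSpace ℝ (Fin 2)) (Real.sqrt A)) = ENNReal.ofReal (Real.pi * A) := by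
      rw [EuclideanSpace.volume_ball_fin_two, ← ENNReal.ofReal_pow (Real.sqrt_nonneg _), Real.sq_sqrt hA.le,
        ← ENNReal.ofReal_mul hA.le, mul_comm]
    rw [hset, measure_sdiff (Metric.ball_subset_closedBall.trans
      (Metric.closedBall_subset_closedBall (Real.sqrt_le_sqrt hAB))) Metric.isOpen_ball.measurableSet.nullMeasurableSet
      (by rw [vop]; exact ENNReal.ofReal_ne_top), vcl, vop, ← ENNReal.ofReal_sub _ (by positivity)]
    exact ENNReal.ofReal_le_ofReal (by nlinarith [Real.pi_pos])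

/-- the same in `Fin 2 → ℝ` -/
theorem annulus_pi_le (A B : ℝ) (hAB : A ≤ B) :
    volume {y : Fin 2 → ℝ | A ≤ ∑ i, y i ^ 2 ∧ ∑ i, y i ^ 2 ≤ B}
      ≤ ENNReal.ofReal (Real.pi * (B - A)) := by
  have hmeas : MeasurableSet {y : Fin 2 → ℝ | A ≤ ∑ i, y i ^ 2 ∧ ∑ i, y i ^ 2 ≤ B} := by
    apply IsClosed.measurableSet
    have hc : Continuous fun y : Fin 2 → ℝ => ∑ i, y i ^ 2 := by fun_prop
    exact (isClosed_le continuous_const hc).inter (isClosed_le hc continuous_const)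
  have h := (PiLp.volume_preserving_ofLp (Fin 2)).measure_preimage hmeas.nullMeasurableSet
  rw [← h]
  refine le_trans (measure_mono ?_) (annulus_le A B hAB)
  intro y hy
  simp only [Set.mem_preimage, Set.mem_ofPred_eq] at hy
  have hn : ‖y‖ ^ 2 = ∑ i, y i ^ 2 := by
    rw [EuclideanSpace.norm_sq_eq]
    simp [sq_abs]
  rw [Set.mem_ofPred_eq, hn]
  exact hy

theorem shell_slab (v : EuclideanSpace ℝ (Fin 3)) (hv : v ≠ 0) (ρ R α β : ℝ) (hρ : 0 ≤ ρ) (hR : ρ < R) (hαβ : α ≤ β) :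
    volume {z : EuclideanSpace ℝ (Fin 3) | ρ ≤ ‖z‖ ∧ ‖z‖ ≤ R ∧ α ≤ inner ℝ v z ∧ inner ℝ v z ≤ β}
      ≤ ENNReal.ofReal (Real.pi * (R ^ 2 - ρ ^ 2) * (β - α) / ‖v‖) := by
  have hn : 0 < ‖v‖ := norm_pos_iff.2 hv
  obtain ⟨b, hb⟩ : ∃ b : OrthonormalBasis (Fin 3) ℝ (EuclideanSpace ℝ (Fin 3)), b 0 = (‖v‖)⁻¹ • v := by
    have hon : Orthonormal ℝ (Set.domRestrict ({0} : Set (Fin 3)) (fun _ : Fin 3 => (‖v‖)⁻¹ • v)) := by
      constructor
      · intro i
        simp [norm_smul, hn.ne']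
      · intro i j hij
        exact absurd (Subsingleton.elim i j) hij
    obtain ⟨b, hb⟩ := Orthonormal.exists_orthonormalBasis_extension_of_card_eq (𝕜 := ℝ)
      (E := EuclideanSpace ℝ (Fin 3)) (ι := Fin 3) (by simp) hon
    exact ⟨b, hb 0 (by simp)⟩
  have hinner : ∀ z : EuclideanSpace ℝ (Fin 3), inner ℝ v z = ‖v‖ * (b.repr z) 0 := by
    intro z
    rw [OrthonormalBasis.repr_apply_apply, hb, real_inner_smul_left, ← mul_assoc, mul_inv_cancel₀ hn.ne', one_mul]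
  have hnorm : ∀ z : EuclideanSpace ℝ (Fin 3), ‖z‖ ^ 2 = (b.repr z) 0 ^ 2 + ∑ i : Fin 2, (b.repr z) i.succ ^ 2 := by
    intro z
    rw [← b.repr.norm_map z, EuclideanSpace.norm_sq_eq, Fin.sum_univ_succ]
    simp [sq_abs]
  set T : Set (ℝ × (Fin 2 → ℝ)) := {p | (ρ ^ 2 ≤ p.1 ^ 2 + ∑ i, p.2 i ^ 2 ∧ p.1 ^ 2 + ∑ i, p.2 i ^ 2 ≤ R ^ 2) ∧
    (α ≤ ‖v‖ * p.1 ∧ ‖v‖ * p.1 ≤ β)} with hT
  have hTm : MeasurableSet T := by
    apply IsClosed.measurableSet
    have hc : Continuous fun p : ℝ × (Fin 2 → ℝ) => p.1 ^ 2 + ∑ i, p.2 i ^ 2 := by fun_prop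
    have hd : Continuous fun p : ℝ × (Fin 2 → ℝ) => ‖v‖ * p.1 := by fun_prop
    exact ((isClosed_le continuous_const hc).inter (isClosed_le hc continuous_const)).inter
      ((isClosed_le continuous_const hd).inter (isClosed_le hd continuous_const))
  have hF := ((volume_preserving_piFinSuccAbove (fun _ : Fin 3 => ℝ) 0).comp
    (PiLp.volume_preserving_ofLp (Fin 3))).comp b.measurePreserving_repr
  have hpre : {z : EuclideanSpace ℝ (Fin 3) | ρ ≤ ‖z‖ ∧ ‖z‖ ≤ R ∧ α ≤ inner ℝ v z ∧ inner ℝ v z ≤ β}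
      ⊆ (((MeasurableEquiv.piFinSuccAbove (fun _ : Fin 3 => ℝ) 0) ∘ (@WithLp.ofLp 2 (Fin 3 → ℝ))) ∘ b.repr) ⁻¹' T := by
    intro z hz
    obtain ⟨h1, h2, h3, h4⟩ := hz
    have e1 : ((((MeasurableEquiv.piFinSuccAbove (fun _ : Fin 3 => ℝ) 0) ∘ (@WithLp.ofLp 2 (Fin 3 → ℝ))) ∘ b.repr) z).1
        = (b.repr z) 0 := rfl
    have e2 : ∀ i : Fin 2, ((((MeasurableEquiv.piFinSuccAbove (fun _ : Fin 3 => ℝ) 0) ∘ (@WithLp.ofLp 2 (Fin 3 → ℝ))) ∘ b.repr) z).2 i
        = (b.repr z) i.succ := fun i => rfl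
    rw [Set.mem_preimage, hT, Set.mem_ofPred_eq, e1, Finset.sum_congr rfl (fun i _ => by rw [e2 i]), ← hnorm z, ← hinner z]
    refine ⟨⟨?_, ?_⟩, h3, h4⟩
    · nlinarith [norm_nonneg z]
    · nlinarith [norm_nonneg z]
  have hvol := hF.measure_preimage hTm.nullMeasurableSet
  have hTle : volume T ≤ ENNReal.ofReal (Real.pi * (R ^ 2 - ρ ^ 2)) * ENNReal.ofReal ((β - α) / ‖v‖) := by
    rw [Measure.volume_eq_prod, Measure.prod_apply hTm]
    calc ∫⁻ t : ℝ, volume (Prod.mk t ⁻¹' T)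
        ≤ ∫⁻ t : ℝ, (Set.Icc (α / ‖v‖) (β / ‖v‖)).indicator
            (fun _ => ENNReal.ofReal (Real.pi * (R ^ 2 - ρ ^ 2))) t := by
          apply lintegral_mono
          intro t
          by_cases ht : t ∈ Set.Icc (α / ‖v‖) (β / ‖v‖)
          · rw [Set.indicator_of_mem ht]
            have hsub : Prod.mk t ⁻¹' T ⊆ {y : Fin 2 → ℝ | ρ ^ 2 - t ^ 2 ≤ ∑ i, y i ^ 2 ∧ ∑ i, y i ^ 2 ≤ R ^ 2 - t ^ 2} := by
              intro y hy
              obtain ⟨⟨h1, h2⟩, -⟩ := hy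
              dsimp only at h1 h2
              constructor
              · linarith
              · linarith
            refine le_trans (measure_mono hsub) ?_
            refine le_trans (annulus_pi_le _ _ (by nlinarith)) ?_
            apply ENNReal.ofReal_le_ofReal
            apply le_of_eq
            ring
          · have hemp : Prod.mk t ⁻¹' T = ∅ := by
              ext y
              simp only [Set.mem_empty_iff_false, iff_false]
              intro hy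
              obtain ⟨-, h3, h4⟩ := hy
              dsimp only at h3 h4
              apply ht
              constructor
              · rw [div_le_iff₀ hn]; linarith
              · rw [le_div_iff₀ hn]; linarith
            change volume (Prod.mk t ⁻¹' T) ≤ _
            rw [hemp, measure_empty]
            exact bot_le
      _ = ENNReal.ofReal (Real.pi * (R ^ 2 - ρ ^ 2)) * ENNReal.ofReal ((β - α) / ‖v‖) := by
          rw [lintegral_indicator measurableSet_Icc, setLIntegral_const, Real.volume_Icc, sub_div]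
  calc volume {z : EuclideanSpace ℝ (Fin 3) | ρ ≤ ‖z‖ ∧ ‖z‖ ≤ R ∧ α ≤ inner ℝ v z ∧ inner ℝ v z ≤ β}
      ≤ volume ((((MeasurableEquiv.piFinSuccAbove (fun _ : Fin 3 => ℝ) 0) ∘ (@WithLp.ofLp 2 (Fin 3 → ℝ))) ∘ b.repr) ⁻¹' T) :=
        measure_mono hpre
    _ = volume T := hvol
    _ ≤ _ := hTle
    _ = ENNReal.ofReal (Real.pi * (R ^ 2 - ρ ^ 2) * (β - α) / ‖v‖) := by
        rw [← ENNReal.ofReal_mul]
        · congr 1
          ring
        · have : 0 ≤ R ^ 2 - ρ ^ 2 := by nlinarith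
          positivity

theorem shell_vol (ρ R : ℝ) (hρ : 0 ≤ ρ) (hR : ρ < R) :
    volume {z : EuclideanSpace ℝ (Fin 3) | ρ ≤ ‖z‖ ∧ ‖z‖ ≤ R} = ENNReal.ofReal (4 / 3 * Real.pi * (R ^ 3 - ρ ^ 3)) := by
  have hR0 : 0 ≤ R := hρ.trans hR.le
  have hset : {z : EuclideanSpace ℝ (Fin 3) | ρ ≤ ‖z‖ ∧ ‖z‖ ≤ R} = Metric.closedBall 0 R \ Metric.ball 0 ρ := by
    ext z
    rw [Set.mem_ofPred_eq, Set.mem_sdiff, mem_closedBall_zero_iff, mem_ball_zero_iff, not_lt, and_comm]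
  have v1 : volume (Metric.closedBall (0 : EuclideanSpace ℝ (Fin 3)) R) = ENNReal.ofReal (4 / 3 * Real.pi * R ^ 3) := by
    rw [EuclideanSpace.volume_closedBall_fin_three, ← ENNReal.ofReal_pow hR0, ← ENNReal.ofReal_mul (by positivity)]
    congr 1
    ring
  have v2 : volume (Metric.ball (0 : EuclideanSpace ℝ (Fin 3)) ρ) = ENNReal.ofReal (4 / 3 * Real.pi * ρ ^ 3) := by
    rw [EuclideanSpace.volume_ball_fin_three, ← ENNReal.ofReal_pow hρ, ← ENNReal.ofReal_mul (by positivity)]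
    congr 1
    ring
  rw [hset, measure_sdiff (Metric.ball_subset_closedBall.trans (Metric.closedBall_subset_closedBall hR.le))
    Metric.isOpen_ball.measurableSet.nullMeasurableSet (by rw [v2]; exact ENNReal.ofReal_ne_top), v1, v2,
    ← ENNReal.ofReal_sub _ (by positivity)]
  congr 1
  ring

end Pool.Agent.Helper910.Sph
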