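import Mathlib
import Pool.Agent.Helper910.SphDefs
import Pool.Agent.Helper910.SphA

namespace Pool.Agent.Helper910.Sph

open Finset MeasureTheory

/-- `1/√3` -/
noncomputable def ee : ℝ := 1 / Real.sqrt 3

theorem ee_sq : ee * ee = 1 / 3 := by
  unfold ee
  rw [div_mul_div_comm, Real.mul_self_sqrt (by norm_num), one_mul]

/-- three of the four unit vectors -/
noncomputable def uu : Fin 3 → EuclideanSpace ℝ (Fin 3) :=
  ![!₂[ee, ee, ee], !₂[ee, -ee, -ee], !₂[-ee, ee, -ee]]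

/-- the combination -/
noncomputable def vv (a b c : ℝ) : EuclideanSpace ℝ (Fin 3) := a • uu 0 + b • uu 1 + c • uu 2

theorem vv_norm_sq (a b c : ℝ) : ‖vv a b c‖ ^ 2 = a ^ 2 + b ^ 2 + c ^ 2 - 2 / 3 * (a * b + a * c + b * c) := by
  rw [EuclideanSpace.norm_sq_eq, Fin.sum_univ_three]
  simp only [vv, uu, PiLp.add_apply, PiLp.smul_apply, smul_eq_mul, Real.norm_eq_abs, sq_abs,
    Matrix.cons_val_zero, Matrix.cons_val_one, Matrix.cons_val]
  have h := ee_sq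
  ring_nf
  have h2 : ee ^ 2 = 1 / 3 := by rw [sq]; exact h
  rw [h2]
  ring

theorem vv_norm (a b c : ℤ) : ‖vv a b c‖ = nrm a b c := by
  unfold nrm
  rw [← vv_norm_sq, Real.sqrt_sq (norm_nonneg _)]

theorem vv_ne {a b c : ℤ} (h : ¬ (a = 0 ∧ b = 0 ∧ c = 0)) : vv a b c ≠ 0 := by
  intro h0
  have h1 := vv_norm_sq a b c
  rw [h0, norm_zero] at h1
  have h2 : (a : ℝ) = 0 ∧ (b : ℝ) = 0 ∧ (c : ℝ) = 0 := by
    have e1 : (a : ℝ) ^ 2 + b ^ 2 + c ^ 2 + ((a : ℝ) - b) ^ 2 + ((a : ℝ) - c) ^ 2 + ((b : ℝ) - c) ^ 2 = 0 := by nlinarith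
    refine ⟨?_, ?_, ?_⟩
    · nlinarith [sq_nonneg (a : ℝ), sq_nonneg (b : ℝ), sq_nonneg (c : ℝ), sq_nonneg ((a : ℝ) - b), sq_nonneg ((a : ℝ) - c), sq_nonneg ((b : ℝ) - c)]
    · nlinarith [sq_nonneg (a : ℝ), sq_nonneg (b : ℝ), sq_nonneg (c : ℝ), sq_nonneg ((a : ℝ) - b), sq_nonneg ((a : ℝ) - c), sq_nonneg ((b : ℝ) - c)]
    · nlinarith [sq_nonneg (a : ℝ), sq_nonneg (b : ℝ), sq_nonneg (c : ℝ), sq_nonneg ((a : ℝ) - b), sq_nonneg ((a : ℝ) - c), sq_nonneg ((b : ℝ) - c)]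
  exact h (by exact_mod_cast h2)

theorem uu_norm (i : Fin 3) : ‖uu i‖ = 1 := by
  have h : ‖uu i‖ ^ 2 = 1 := by
    fin_cases i
    · have := vv_norm_sq 1 0 0
      simpa [vv] using this
    · have := vv_norm_sq 0 1 0
      simpa [vv] using this
    · have := vv_norm_sq 0 0 1
      simpa [vv] using this
  nlinarith [norm_nonneg (uu i)]

theorem vv_inner (a b c : ℝ) (z : EuclideanSpace ℝ (Fin 3)) :
    inner ℝ (vv a b c) z = a * inner ℝ (uu 0) z + b * inner ℝ (uu 1) z + c * inner ℝ (uu 2) z := by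
  simp only [vv, inner_add_left, real_inner_smul_left]

/-- the coordinates -/
noncomputable def ZZ (R : ℝ) (i : Fin 3) (z : EuclideanSpace ℝ (Fin 3)) : ℝ := R + inner ℝ (uu i) z

theorem ZZ_bd {R : ℝ} {z : EuclideanSpace ℝ (Fin 3)} (hz : ‖z‖ ≤ R) (i : Fin 3) : 0 ≤ ZZ R i z ∧ ZZ R i z ≤ 2 * R := by
  have h := abs_real_inner_le_norm (uu i) z
  rw [uu_norm, one_mul] at h
  have h2 := abs_le.1 (h.trans hz)
  unfold ZZ
  constructor <;> linarith [h2.1, h2.2]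

theorem ZZ_sum {R : ℝ} {z : EuclideanSpace ℝ (Fin 3)} (hz : ‖z‖ ≤ R) : ZZ R 0 z + ZZ R 1 z + ZZ R 2 z ≤ 4 * R := by
  have h := abs_real_inner_le_norm (vv 1 1 1) z
  have h1 : ‖vv 1 1 1‖ = 1 := by
    have := vv_norm_sq 1 1 1
    have h3 : ‖vv 1 1 1‖ ^ 2 = 1 := by rw [this]; norm_num
    nlinarith [norm_nonneg (vv 1 1 1)]
  rw [h1, one_mul] at h
  have h2 := (abs_le.1 (h.trans hz)).2
  rw [vv_inner] at h2
  unfold ZZ
  linarith

/-- the shell -/
def SS (ρ R : ℝ) : Set (EuclideanSpace ℝ (Fin 3)) := {z | ρ ≤ ‖z‖ ∧ ‖z‖ ≤ R}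

/-- the cells -/
def CC (ρ R : ℝ) (y : Fin 3 → ℤ) : Set (EuclideanSpace ℝ (Fin 3)) := {z | z ∈ SS ρ R ∧ ∀ i, ⌊ZZ R i z⌋ = y i}

theorem SS_meas (ρ R : ℝ) : MeasurableSet (SS ρ R) := by
  unfold SS
  exact (measurableSet_le measurable_const measurable_norm).inter (measurableSet_le measurable_norm measurable_const)

theorem CC_meas (ρ R : ℝ) (y : Fin 3 → ℤ) : MeasurableSet (CC ρ R y) := by
  have h : CC ρ R y = SS ρ R ∩ ⋂ i : Fin 3, (fun z => ⌊ZZ R i z⌋) ⁻¹' {y i} := by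
    ext z
    simp [CC]
  rw [h]
  refine (SS_meas ρ R).inter (MeasurableSet.iInter fun i => ?_)
  have hm : Measurable (fun z => ⌊ZZ R i z⌋) := by
    apply Int.measurable_floor.comp
    unfold ZZ
    fun_prop
  exact hm (measurableSet_singleton _)

theorem CC_disj (ρ R : ℝ) : Pairwise (Function.onFun Disjoint (CC ρ R)) := by
  intro y y' hne
  rw [Function.onFun, Set.disjoint_left]
  intro z h1 h2
  apply hne
  funext i
  exact (h1.2 i).symm.trans (h2.2 i)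

theorem max_lem (a t : ℝ) (h0 : 0 ≤ t) (h1 : t ≤ 1) : -max (-a) 0 ≤ a * t ∧ a * t ≤ max a 0 := by
  rcases le_total 0 a with h | h
  · rw [max_eq_left h, max_eq_right (by linarith)]
    constructor <;> nlinarith
  · rw [max_eq_right h, max_eq_left (by linarith)]
    constructor <;> nlinarith

theorem max_abs (a : ℝ) : max a 0 + max (-a) 0 = |a| := by
  rcases le_total 0 a with h | h
  · rw [max_eq_left h, max_eq_right (by linarith), abs_of_nonneg h]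
    ring
  · rw [max_eq_right h, max_eq_left (by linarith), abs_of_nonpos h]
    ring

theorem exists_weights (θ : ℝ) (hθ0 : 0 < θ) (hθ1 : θ < 1) (R : ℕ) (hR : 1 ≤ R) :
    ∃ (Y : Finset (Fin 3 → ℤ)) (p : (Fin 3 → ℤ) → ℝ), (∀ y ∈ Y, 0 ≤ p y) ∧ ∑ y ∈ Y, p y = 1 ∧
      (∀ y ∈ Y, (∀ i, 0 ≤ y i) ∧ y 0 + y 1 + y 2 ≤ 4 * (R : ℤ)) ∧
      Slab Y p (fun y => y 0) (fun y => y 1) (fun y => y 2) (3 / 4 * (1 + θ) / ((1 + θ + θ ^ 2) * (R : ℝ))) := by
  classical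
  have hR' : (1 : ℝ) ≤ R := by exact_mod_cast hR
  have hR0 : (0 : ℝ) < R := by linarith
  have hρ : 0 ≤ θ * (R : ℝ) := by positivity
  have hρR : θ * (R : ℝ) < R := by nlinarith
  have hvol := shell_vol (θ * R) R hρ hρR
  set V : ℝ := 4 / 3 * Real.pi * ((R : ℝ) ^ 3 - (θ * R) ^ 3) with hV
  have hVpos : 0 < V := by
    have h1 : (θ * (R : ℝ)) ^ 3 < (R : ℝ) ^ 3 := pow_lt_pow_left₀ hρR hρ (by norm_num)
    have h2 := Real.pi_pos
    rw [hV]
    have h3 : 0 < (R : ℝ) ^ 3 - (θ * R) ^ 3 := by linarith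
    positivity
  have hSvol : volume (SS (θ * R) R) = ENNReal.ofReal V := hvol
  have hfin : ∀ s : Set (EuclideanSpace ℝ (Fin 3)), s ⊆ SS (θ * R) R → volume s ≠ ⊤ := by
    intro s hs
    exact ne_top_of_le_ne_top (by rw [hSvol]; exact ENNReal.ofReal_ne_top) (measure_mono hs)
  have hCS : ∀ y, CC (θ * R) R y ⊆ SS (θ * R) R := fun y z hz => hz.1
  let Y : Finset (Fin 3 → ℤ) :=
    (Fintype.piFinset (fun _ : Fin 3 => Finset.Icc (0 : ℤ) (2 * (R : ℤ)))).filter (fun y => (CC (θ * R) R y).Nonempty)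
  let p : (Fin 3 → ℤ) → ℝ := fun y => (volume (CC (θ * R) R y)).toReal / V
  have hsum : ∀ T : Finset (Fin 3 → ℤ), (∑ y ∈ T, p y) = (volume (⋃ y ∈ T, CC (θ * R) R y)).toReal / V := by
    intro T
    rw [measure_biUnion_finset (fun y _ y' _ hne => CC_disj _ _ hne) (fun y _ => CC_meas _ _ y),
      ENNReal.toReal_sum (fun y _ => hfin _ (hCS y)), Finset.sum_div]
  refine ⟨Y, p, ?_, ?_, ?_, ?_⟩
  · intro y _
    exact div_nonneg ENNReal.toReal_nonneg hVpos.le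
  · rw [hsum]
    have hU : (⋃ y ∈ Y, CC (θ * R) R y) = SS (θ * R) R := by
      apply Set.Subset.antisymm
      · exact Set.iUnion₂_subset fun y _ => hCS y
      · intro z hz
        have hzc : z ∈ CC (θ * R) R (fun i => ⌊ZZ R i z⌋) := ⟨hz, fun i => rfl⟩
        refine Set.mem_iUnion₂.2 ⟨fun i => ⌊ZZ R i z⌋, ?_, hzc⟩
        refine Finset.mem_filter.2 ⟨?_, ⟨z, hzc⟩⟩
        rw [Fintype.mem_piFinset]
        intro i
        have hb := ZZ_bd hz.2 i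
        rw [Finset.mem_Icc]
        constructor
        · exact Int.floor_nonneg.2 hb.1
        · have : ((⌊ZZ R i z⌋ : ℤ) : ℝ) ≤ ((2 * (R : ℤ) : ℤ) : ℝ) := by
            push_cast
            exact (Int.floor_le _).trans hb.2
          exact_mod_cast this
    rw [hU, hSvol, ENNReal.toReal_ofReal hVpos.le, div_self hVpos.ne']
  · intro y hy
    obtain ⟨hy1, z, hz⟩ := Finset.mem_filter.1 hy
    rw [Fintype.mem_piFinset] at hy1
    refine ⟨fun i => (Finset.mem_Icc.1 (hy1 i)).1, ?_⟩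
    have h4 := ZZ_sum hz.1.2
    have e : ∀ i, ((y i : ℤ) : ℝ) ≤ ZZ R i z := by
      intro i
      rw [← hz.2 i]
      exact Int.floor_le _
    have h5 : ((y 0 + y 1 + y 2 : ℤ) : ℝ) ≤ ((4 * (R : ℤ) : ℤ) : ℝ) := by
      push_cast
      linarith [e 0, e 1, e 2]
    exact_mod_cast h5
  · intro a b c habc lo hi hlh
    show (∑ i ∈ Y.filter (fun i => lo ≤ a * i 0 + b * i 1 + c * i 2 ∧ a * i 0 + b * i 1 + c * i 2 ≤ hi), p i)
      * nrm a b c ≤ _
    rw [hsum]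
    have hv := vv_ne habc
    have hvn : 0 < ‖vv a b c‖ := norm_pos_iff.2 hv
    set α : ℝ := (lo : ℝ) - (max (-(a : ℝ)) 0 + max (-(b : ℝ)) 0 + max (-(c : ℝ)) 0) - (a + b + c) * R with hα
    set β : ℝ := (hi : ℝ) + (max (a : ℝ) 0 + max (b : ℝ) 0 + max (c : ℝ) 0) - (a + b + c) * R with hβ
    have hβα : β - α = (hi : ℝ) - lo + |(a : ℝ)| + |(b : ℝ)| + |(c : ℝ)| := by
      rw [hα, hβ, ← max_abs (a : ℝ), ← max_abs (b : ℝ), ← max_abs (c : ℝ)]
      ring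
    have hlh' : (lo : ℝ) ≤ hi := by exact_mod_cast hlh
    have hαβ : α ≤ β := by
      have : 0 ≤ β - α := by
        rw [hβα]
        have := abs_nonneg (a : ℝ)
        have := abs_nonneg (b : ℝ)
        have := abs_nonneg (c : ℝ)
        linarith
      linarith
    have hsub : (⋃ y ∈ Y.filter (fun i => lo ≤ a * i 0 + b * i 1 + c * i 2 ∧ a * i 0 + b * i 1 + c * i 2 ≤ hi),
        CC (θ * R) R y) ⊆
        {z : EuclideanSpace ℝ (Fin 3) | θ * R ≤ ‖z‖ ∧ ‖z‖ ≤ R ∧ α ≤ inner ℝ (vv a b c) z ∧ inner ℝ (vv a b c) z ≤ β} := by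
      refine Set.iUnion₂_subset fun y hy z hz => ?_
      obtain ⟨_, h1, h2⟩ := Finset.mem_filter.1 hy
      have h1' : (lo : ℝ) ≤ a * y 0 + b * y 1 + c * y 2 := by exact_mod_cast h1
      have h2' : (a : ℝ) * y 0 + b * y 1 + c * y 2 ≤ hi := by exact_mod_cast h2
      refine ⟨hz.1.1, hz.1.2, ?_⟩
      have e : ∀ i, 0 ≤ ZZ R i z - y i ∧ ZZ R i z - y i ≤ 1 := by
        intro i
        rw [← hz.2 i]
        have e1 := Int.floor_le (ZZ R i z)
        have e2 := Int.lt_floor_add_one (ZZ R i z)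
        constructor <;> linarith
      have m0 := max_lem (a : ℝ) _ (e 0).1 (e 0).2
      have m1 := max_lem (b : ℝ) _ (e 1).1 (e 1).2
      have m2 := max_lem (c : ℝ) _ (e 2).1 (e 2).2
      rw [vv_inner]
      have z0 : inner ℝ (uu 0) z = ZZ R 0 z - R := by unfold ZZ; ring
      have z1 : inner ℝ (uu 1) z = ZZ R 1 z - R := by unfold ZZ; ring
      have z2 : inner ℝ (uu 2) z = ZZ R 2 z - R := by unfold ZZ; ring
      rw [z0, z1, z2, hα, hβ]
      constructor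
      · nlinarith [m0.1, m1.1, m2.1]
      · nlinarith [m0.2, m1.2, m2.2]
    have hle := (measure_mono hsub).trans (shell_slab (vv a b c) hv (θ * R) R α β hρ hρR hαβ)
    have hpi := Real.pi_pos
    have hnn : 0 ≤ Real.pi * ((R : ℝ) ^ 2 - (θ * R) ^ 2) * (β - α) / ‖vv a b c‖ := by
      have h1 : 0 ≤ (R : ℝ) ^ 2 - (θ * R) ^ 2 := by nlinarith
      have h2 : 0 ≤ β - α := by linarith
      positivity
    have hle2 := ENNReal.toReal_mono ENNReal.ofReal_ne_top hle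
    rw [ENNReal.toReal_ofReal hnn] at hle2
    rw [← vv_norm, ← hβα]
    have h6 : (volume (⋃ y ∈ Y.filter (fun i => lo ≤ a * i 0 + b * i 1 + c * i 2 ∧ a * i 0 + b * i 1 + c * i 2 ≤ hi),
        CC (θ * R) R y)).toReal / V * ‖vv a b c‖ ≤
        (Real.pi * ((R : ℝ) ^ 2 - (θ * R) ^ 2) * (β - α) / ‖vv a b c‖) / V * ‖vv a b c‖ :=
      mul_le_mul_of_nonneg_right (div_le_div_of_nonneg_right hle2 hVpos.le) hvn.le
    refine h6.trans (le_of_eq ?_)
    have h7 : (1 : ℝ) + θ + θ ^ 2 ≠ 0 := by positivity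
    have h8 : (1 : ℝ) - θ ≠ 0 := by linarith
    have h9 : V = 4 / 3 * Real.pi * (R : ℝ) ^ 3 * ((1 - θ) * (1 + θ + θ ^ 2)) := by
      rw [hV]
      ring
    rw [h9]
    field_simp
    ring

end Pool.Agent.Helper910.Sph
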