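import Mathlib
import Pool.Agent.Helper910.SphDefs


namespace Pool.Agent.Helper910.Sph

open Finset MeasureTheory

theorem cnt_II (a b c : ℤ) (s h : ℕ) (w : ℤ) (ha : a ≠ 0) (hh : 4 ≤ h) (hdiv : ∀ Δ : ℤ, a ∣ b * Δ → (h : ℤ) ∣ Δ) :
    Cnt a b c s w ≤ s * (s / 4 + 1) := by
  unfold Cnt
  have hcard : (range s ×ˢ range (s / 4 + 1)).card = s * (s / 4 + 1) := by simp
  rw [← hcard]
  apply Finset.card_le_card_of_injOn (fun J : ℕ × ℕ × ℕ => (J.2.2, J.2.1 / 4))
  · intro J hJ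
    have hJ' := Finset.mem_filter.1 (Finset.mem_coe.1 hJ)
    have h1 := hJ'.1
    rw [Finset.mem_product, Finset.mem_product, Finset.mem_range, Finset.mem_range, Finset.mem_range] at h1
    apply Finset.mem_coe.2
    rw [Finset.mem_product, Finset.mem_range, Finset.mem_range]
    refine ⟨h1.2.2, ?_⟩
    show J.2.1 / 4 < s / 4 + 1
    omega
  · rintro ⟨j1, j2, j3⟩ hJ ⟨k1, k2, k3⟩ hK hjk
    have hJ' : a * (j1 : ℤ) + b * (j2 : ℤ) + c * (j3 : ℤ) = w :=
      (Finset.mem_filter.1 (Finset.mem_coe.1 hJ)).2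
    have hK' : a * (k1 : ℤ) + b * (k2 : ℤ) + c * (k3 : ℤ) = w :=
      (Finset.mem_filter.1 (Finset.mem_coe.1 hK)).2
    have h3 : j3 = k3 := congrArg Prod.fst hjk
    have h2 : j2 / 4 = k2 / 4 := congrArg Prod.snd hjk
    subst h3
    have hd : a ∣ b * ((k2 : ℤ) - j2) := ⟨(j1 : ℤ) - k1, by linarith⟩
    obtain ⟨t, ht⟩ := hdiv _ hd
    have hh' : (4 : ℤ) ≤ h := by exact_mod_cast hh
    have hlt : |(k2 : ℤ) - j2| < 4 := by
      rw [abs_lt]
      constructor <;> omega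
    have ht0 : t = 0 := by
      by_contra hne
      have h1 : 1 ≤ |t| := Int.one_le_abs hne
      have h4 : |(k2 : ℤ) - j2| = h * |t| := by
        rw [ht, abs_mul, abs_of_nonneg (by linarith : (0 : ℤ) ≤ h)]
      nlinarith
    rw [ht0, mul_zero] at ht
    have h22 : j2 = k2 := by omega
    subst h22
    have h11 : a * ((j1 : ℤ) - k1) = 0 := by linarith
    rcases mul_eq_zero.1 h11 with h | h
    · exact absurd h ha
    · have : j1 = k1 := by omega
      subst this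
      rfl

end Pool.Agent.Helper910.Sph
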