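import Mathlib
import Pool.Agent.Helper910.SphDefs


namespace Pool.Agent.Helper910.Sph

open Finset MeasureTheory

theorem fib_aux : ∀ A ∈ ({1, 2, 3, 6} : Finset ℕ), ∀ b ∈ range 6, ∀ c ∈ range 6, ∀ w ∈ range 6,
    ¬ (2 ∣ A ∧ 2 ∣ b ∧ 2 ∣ c) → ¬ (3 ∣ A ∧ 3 ∣ b ∧ 3 ∣ c) →
    ((range 6 ×ˢ range 6).filter
      (fun r : ℕ × ℕ => (w + (6 - b) * r.1 + (6 - c) * r.2) % A = 0)).card * A ≤ 36 := by
  decide +kernel

theorem fib (A : ℕ) (hA : A ∣ 6) (b c w : ℤ) (hcop : ∀ g : ℤ, g ∣ (A : ℤ) → g ∣ b → g ∣ c → IsUnit g) :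
    ((range 6 ×ˢ range 6).filter (fun r : ℕ × ℕ => (A : ℤ) ∣ w - b * (r.1 : ℤ) - c * (r.2 : ℤ))).card * A ≤ 36 := by
  have hA6 : (A : ℤ) ∣ 6 := by exact_mod_cast hA
  have hAle : A ≤ 6 := Nat.le_of_dvd (by norm_num) hA
  have hAmem : A ∈ ({1, 2, 3, 6} : Finset ℕ) := by
    interval_cases A <;> simp_all
  obtain ⟨b', hb', hb6⟩ : ∃ b' : ℕ, b' < 6 ∧ (6 : ℤ) ∣ b - b' := by
    refine ⟨(b % 6).toNat, by omega, by omega⟩
  obtain ⟨c', hc', hc6⟩ : ∃ c' : ℕ, c' < 6 ∧ (6 : ℤ) ∣ c - c' := by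
    refine ⟨(c % 6).toNat, by omega, by omega⟩
  obtain ⟨w', hw', hw6⟩ : ∃ w' : ℕ, w' < 6 ∧ (6 : ℤ) ∣ w - w' := by
    refine ⟨(w % 6).toNat, by omega, by omega⟩
  have h2 : ¬ (2 ∣ A ∧ 2 ∣ b' ∧ 2 ∣ c') := by
    rintro ⟨h1, h3, h4⟩
    have hu := hcop 2 (by omega) (by omega) (by omega)
    exact absurd (Int.isUnit_iff.1 hu) (by norm_num)
  have h3 : ¬ (3 ∣ A ∧ 3 ∣ b' ∧ 3 ∣ c') := by
    rintro ⟨h1, h3, h4⟩
    have hu := hcop 3 (by omega) (by omega) (by omega)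
    exact absurd (Int.isUnit_iff.1 hu) (by norm_num)
  have hmain := fib_aux A hAmem b' (mem_range.2 hb') c' (mem_range.2 hc') w' (mem_range.2 hw') h2 h3
  have heq : (range 6 ×ˢ range 6).filter (fun r : ℕ × ℕ => (A : ℤ) ∣ w - b * (r.1 : ℤ) - c * (r.2 : ℤ)) =
      (range 6 ×ˢ range 6).filter
        (fun r : ℕ × ℕ => (w' + (6 - b') * r.1 + (6 - c') * r.2) % A = 0) := by
    refine filter_congr fun r _ => ?_
    obtain ⟨kb, hkb⟩ := hb6
    obtain ⟨kc, hkc⟩ := hc6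
    obtain ⟨kw, hkw⟩ := hw6
    have e1 : w - b * (r.1 : ℤ) - c * (r.2 : ℤ) =
        ((w' + (6 - b') * r.1 + (6 - c') * r.2 : ℕ) : ℤ) + 6 * (kw - kb * r.1 - kc * r.2 - r.1 - r.2) := by
      push_cast [Nat.cast_sub hb'.le, Nat.cast_sub hc'.le]
      have f1 : b = b' + 6 * kb := by linarith
      have f2 : c = c' + 6 * kc := by linarith
      have f3 : w = w' + 6 * kw := by linarith
      rw [f1, f2, f3]
      ring
    rw [e1, ← Nat.dvd_iff_mod_eq_zero]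
    constructor
    · intro h
      have h5 := (Int.dvd_add_left (hA6.mul_right (kw - kb * r.1 - kc * r.2 - r.1 - r.2))).1 h
      exact_mod_cast h5
    · intro h
      exact (Int.dvd_add_left (hA6.mul_right _)).2 (by exact_mod_cast h)
  rw [heq]
  exact hmain

theorem cnt_I (A : ℕ) (hA0 : 0 < A) (hA : A ∣ 6) (b c : ℤ) (hb : |b| ≤ A) (hc : |c| ≤ A)
    (hcop : ∀ g : ℤ, g ∣ (A : ℤ) → g ∣ b → g ∣ c → IsUnit g) (q : ℕ) (w : ℤ) :
    Cnt A b c (6 * q) w * A ≤ 36 * ((range q ×ˢ range q).filter (fun P : ℕ × ℕ =>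
      -(10 * (A : ℤ)) ≤ w - 6 * (b * (P.1 : ℤ) + c * (P.2 : ℤ)) ∧
      w - 6 * (b * (P.1 : ℤ) + c * (P.2 : ℤ)) ≤ (A : ℤ) * (6 * (q : ℤ) - 1) + 10 * A)).card := by
  classical
  have hA6 : (A : ℤ) ∣ 6 := by exact_mod_cast hA
  have hAz : (0 : ℤ) < A := by exact_mod_cast hA0
  set Good := (range q ×ˢ range q).filter (fun P : ℕ × ℕ =>
      -(10 * (A : ℤ)) ≤ w - 6 * (b * (P.1 : ℤ) + c * (P.2 : ℤ)) ∧
      w - 6 * (b * (P.1 : ℤ) + c * (P.2 : ℤ)) ≤ (A : ℤ) * (6 * (q : ℤ) - 1) + 10 * A) with hGood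
  set Fib := (range 6 ×ˢ range 6).filter
    (fun r : ℕ × ℕ => (A : ℤ) ∣ w - b * (r.1 : ℤ) - c * (r.2 : ℤ)) with hFib
  have hfib : Fib.card * A ≤ 36 := fib A hA b c w hcop
  have hle : Cnt A b c (6 * q) w ≤ (Good ×ˢ Fib).card := by
    unfold Cnt
    refine card_le_card_of_injOn
      (fun J : ℕ × ℕ × ℕ => ((J.2.1 / 6, J.2.2 / 6), (J.2.1 % 6, J.2.2 % 6))) ?_ ?_
    · intro J hJ
      rw [mem_coe, mem_filter, mem_product, mem_product, mem_range, mem_range, mem_range] at hJ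
      obtain ⟨⟨h1, h2, h3⟩, h4⟩ := hJ
      obtain ⟨J1, J2, J3⟩ := J
      simp only at h1 h2 h3 h4
      have d2 : (J2 : ℤ) = 6 * ((J2 / 6 : ℕ) : ℤ) + ((J2 % 6 : ℕ) : ℤ) := by omega
      have d3 : (J3 : ℤ) = 6 * ((J3 / 6 : ℕ) : ℤ) + ((J3 % 6 : ℕ) : ℤ) := by omega
      have r2 : J2 % 6 < 6 := Nat.mod_lt _ (by norm_num)
      have r3 : J3 % 6 < 6 := Nat.mod_lt _ (by norm_num)
      have p2 : J2 / 6 < q := by omega
      have p3 : J3 / 6 < q := by omega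
      change ((J2 / 6, J3 / 6), (J2 % 6, J3 % 6)) ∈ ((Good ×ˢ Fib : Finset ((ℕ × ℕ) × (ℕ × ℕ))) : Set _)
      generalize J2 / 6 = P2 at *
      generalize J3 / 6 = P3 at *
      generalize J2 % 6 = s2 at *
      generalize J3 % 6 = s3 at *
      rw [d2, d3] at h4
      have hb5 : |b * (s2 : ℤ)| ≤ 5 * A := by
        rw [abs_mul]
        have : |(s2 : ℤ)| ≤ 5 := by rw [abs_of_nonneg (by positivity)]; omega
        calc |b| * |(s2 : ℤ)| ≤ A * 5 := mul_le_mul hb this (abs_nonneg _) hAz.le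
          _ = 5 * A := by ring
      have hc5 : |c * (s3 : ℤ)| ≤ 5 * A := by
        rw [abs_mul]
        have : |(s3 : ℤ)| ≤ 5 := by rw [abs_of_nonneg (by positivity)]; omega
        calc |c| * |(s3 : ℤ)| ≤ A * 5 := mul_le_mul hc this (abs_nonneg _) hAz.le
          _ = 5 * A := by ring
      have hb6 := abs_le.1 hb5
      have hc6 := abs_le.1 hc5
      have hJ1 : (A : ℤ) * (J1 : ℤ) ≤ A * (6 * (q : ℤ) - 1) :=
        mul_le_mul_of_nonneg_left (by omega) hAz.le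
      have hJ0 : (0 : ℤ) ≤ (A : ℤ) * (J1 : ℤ) := by positivity
      have e1 : w - 6 * (b * (P2 : ℤ) + c * (P3 : ℤ)) = A * J1 + b * s2 + c * s3 := by
        rw [← h4]; ring
      rw [mem_coe, mem_product, hGood, hFib, mem_filter, mem_filter, mem_product, mem_product,
        mem_range, mem_range, mem_range, mem_range]
      refine ⟨⟨⟨p2, p3⟩, ?_, ?_⟩, ⟨r2, r3⟩, ?_⟩
      · simp only
        rw [e1]; linarith [hb6.1, hc6.1]
      · simp only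
        rw [e1]; linarith [hb6.2, hc6.2]
      · simp only
        have e2 : w - b * (s2 : ℤ) - c * (s3 : ℤ) = A * J1 + 6 * (b * P2 + c * P3) := by
          rw [← h4]; ring
        rw [e2]
        exact dvd_add (Dvd.intro _ rfl) (hA6.mul_right _)
    · intro J hJ K hK hJK
      rw [mem_coe, mem_filter] at hJ hK
      obtain ⟨J1, J2, J3⟩ := J
      obtain ⟨K1, K2, K3⟩ := K
      simp only [Prod.mk.injEq] at hJK hJ hK
      obtain ⟨⟨h1, h2⟩, h3, h4⟩ := hJK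
      have e2 : J2 = K2 := by omega
      have e3 : J3 = K3 := by omega
      subst e2 e3
      have h5 : (A : ℤ) * (J1 : ℤ) = A * K1 := by linarith [hJ.2, hK.2]
      have h6 : (J1 : ℤ) = K1 := mul_left_cancel₀ hAz.ne' h5
      have h7 : J1 = K1 := by exact_mod_cast h6
      rw [h7]
  rw [card_product] at hle
  calc Cnt A b c (6 * q) w * A ≤ (Good.card * Fib.card) * A := Nat.mul_le_mul_right _ hle
    _ = Good.card * (Fib.card * A) := by ring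
    _ ≤ Good.card * 36 := Nat.mul_le_mul_left _ hfib
    _ = 36 * Good.card := by ring

end Pool.Agent.Helper910.Sph

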