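import Mathlib
import Pool.Agent.Helper910.SphDefs


namespace Pool.Agent.Helper910.Sph

open Finset MeasureTheory

theorem nrm_int (a b c : ℤ) (h : ¬ (a = 0 ∧ b = 0 ∧ c = 0)) :
    3 ≤ (a + b - c) ^ 2 + (a - b + c) ^ 2 + (a - b - c) ^ 2 := by
  have hsq : ∀ x : ℤ, x ≠ 0 → 1 ≤ x ^ 2 := by
    intro x hx
    have h1 : 0 < x ^ 2 := by positivity
    omega
  by_contra hcon
  push Not at hcon
  have h1 : a + b - c = 0 ∨ a - b + c = 0 ∨ a - b - c = 0 := by
    by_contra h2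
    push Not at h2
    have := hsq _ h2.1
    have := hsq _ h2.2.1
    have := hsq _ h2.2.2
    omega
  -- all even
  obtain ⟨k, hk⟩ : ∃ k, a + b - c = 2 * k := by
    rcases h1 with h1 | h1 | h1
    · exact ⟨0, by omega⟩
    · exact ⟨a, by omega⟩
    · exact ⟨b, by omega⟩
  obtain ⟨l, hl⟩ : ∃ l, a - b + c = 2 * l := ⟨a - k, by omega⟩
  obtain ⟨m, hm⟩ : ∃ m, a - b - c = 2 * m := ⟨l - c, by omega⟩
  rw [hk, hl, hm] at hcon
  have hk0 : k = 0 := by
    by_contra h3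
    have := hsq k h3
    have := sq_nonneg l
    have := sq_nonneg m
    nlinarith
  have hl0 : l = 0 := by
    by_contra h3
    have := hsq l h3
    have := sq_nonneg k
    have := sq_nonneg m
    nlinarith
  have hm0 : m = 0 := by
    by_contra h3
    have := hsq m h3
    have := sq_nonneg k
    have := sq_nonneg l
    nlinarith
  subst hk0 hl0 hm0
  exact h ⟨by omega, by omega, by omega⟩

theorem nrm_ge_one (a b c : ℤ) (h : ¬ (a = 0 ∧ b = 0 ∧ c = 0)) : 1 ≤ nrm a b c := by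
  unfold nrm
  rw [Real.one_le_sqrt]
  have h1 := nrm_int a b c h
  have h2 : (3 : ℝ) ≤ ((a : ℝ) + b - c) ^ 2 + ((a : ℝ) - b + c) ^ 2 + ((a : ℝ) - b - c) ^ 2 := by
    exact_mod_cast h1
  nlinarith

theorem nrm_ge (a b c : ℤ) : Real.sqrt (2 / 3) * |(a : ℝ)| ≤ nrm a b c := by
  unfold nrm
  rw [← Real.sqrt_sq_eq_abs, ← Real.sqrt_mul (by norm_num)]
  apply Real.sqrt_le_sqrt
  nlinarith [sq_nonneg ((a : ℝ) - b - c), sq_nonneg ((b : ℝ) - c)]

end Pool.Agent.Helper910.Sph
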