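import Mathlib
import Pool.Agent.Helper910.SphDefs
import Pool.Agent.Helper910.SphB
import Pool.Agent.Helper910.SphC
import Pool.Agent.Helper910.SphN


namespace Pool.Agent.Helper910.Sph

open Finset MeasureTheory

theorem mass_I {ι : Type} (Y : Finset ι) (p : ι → ℝ) (hp : ∀ i ∈ Y, 0 ≤ p i) (y₁ y₂ y₃ : ι → ℤ) (κ : ℝ) (hκ : 0 ≤ κ)
    (hS : Slab Y p y₁ y₂ y₃ κ) (A : ℕ) (hA0 : 0 < A) (hA : A ∣ 6) (b c : ℤ) (hb : |b| ≤ A) (hc : |c| ≤ A)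
    (hcop : ∀ g : ℤ, g ∣ (A : ℤ) → g ∣ b → g ∣ c → IsUnit g) (q : ℕ) (hq : 1 ≤ q) (w : ℤ) :
    ∑ i ∈ Y, p i * (Cnt A b c (6 * q) (w - (A * y₁ i + b * y₂ i + c * y₃ i)) : ℝ)
      ≤ κ * (6 * (q : ℝ)) ^ 2 * (6 * (q : ℝ) + 22) := by
  classical
  have hA' : (0 : ℝ) < A := by exact_mod_cast hA0
  have hAz : (0 : ℤ) < (A : ℤ) := by exact_mod_cast hA0
  have habc : ¬ ((A : ℤ) = 0 ∧ b = 0 ∧ c = 0) := by
    rintro ⟨h, _⟩
    omega
  have hbR : |(b : ℝ)| ≤ A := by exact_mod_cast hb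
  have hcR : |(c : ℝ)| ≤ A := by exact_mod_cast hc
  have hslab : ∀ P : ℕ × ℕ,
      ∑ i ∈ Y.filter (fun i => w - 6 * (b * (P.1 : ℤ) + c * (P.2 : ℤ)) - (A : ℤ) * (6 * (q : ℤ) - 1) - 10 * A
          ≤ (A : ℤ) * y₁ i + b * y₂ i + c * y₃ i ∧
        (A : ℤ) * y₁ i + b * y₂ i + c * y₃ i ≤ w - 6 * (b * (P.1 : ℤ) + c * (P.2 : ℤ)) + 10 * A), p i
        ≤ κ * (A * (6 * (q : ℝ) + 22)) := by
    intro P
    have hle : w - 6 * (b * (P.1 : ℤ) + c * (P.2 : ℤ)) - (A : ℤ) * (6 * (q : ℤ) - 1) - 10 * A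
        ≤ w - 6 * (b * (P.1 : ℤ) + c * (P.2 : ℤ)) + 10 * A := by
      have : (0 : ℤ) ≤ (A : ℤ) * (6 * (q : ℤ) - 1) := mul_nonneg hAz.le (by omega)
      linarith
    have h1 := hS (A : ℤ) b c habc _ _ hle
    have h2 := nrm_ge_one (A : ℤ) b c habc
    have h0 : 0 ≤ ∑ i ∈ Y.filter (fun i => w - 6 * (b * (P.1 : ℤ) + c * (P.2 : ℤ)) - (A : ℤ) * (6 * (q : ℤ) - 1)
          - 10 * A ≤ (A : ℤ) * y₁ i + b * y₂ i + c * y₃ i ∧
        (A : ℤ) * y₁ i + b * y₂ i + c * y₃ i ≤ w - 6 * (b * (P.1 : ℤ) + c * (P.2 : ℤ)) + 10 * A), p i :=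
      Finset.sum_nonneg (fun i hi => hp i (Finset.mem_filter.mp hi).1)
    refine ((le_mul_of_one_le_right h0 h2).trans h1).trans ?_
    apply mul_le_mul_of_nonneg_left _ hκ
    push_cast
    have hAabs : |(A : ℝ)| = A := abs_of_pos hA'
    rw [hAabs]
    nlinarith
  have key : (A : ℝ) * ∑ i ∈ Y, p i * (Cnt A b c (6 * q) (w - (A * y₁ i + b * y₂ i + c * y₃ i)) : ℝ)
      ≤ 36 * ∑ P ∈ range q ×ˢ range q,
        ∑ i ∈ Y.filter (fun i => w - 6 * (b * (P.1 : ℤ) + c * (P.2 : ℤ)) - (A : ℤ) * (6 * (q : ℤ) - 1) - 10 * A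
          ≤ (A : ℤ) * y₁ i + b * y₂ i + c * y₃ i ∧
        (A : ℤ) * y₁ i + b * y₂ i + c * y₃ i ≤ w - 6 * (b * (P.1 : ℤ) + c * (P.2 : ℤ)) + 10 * A), p i := by
    have hswap : ∑ P ∈ range q ×ˢ range q,
        ∑ i ∈ Y.filter (fun i => w - 6 * (b * (P.1 : ℤ) + c * (P.2 : ℤ)) - (A : ℤ) * (6 * (q : ℤ) - 1) - 10 * A
          ≤ (A : ℤ) * y₁ i + b * y₂ i + c * y₃ i ∧
        (A : ℤ) * y₁ i + b * y₂ i + c * y₃ i ≤ w - 6 * (b * (P.1 : ℤ) + c * (P.2 : ℤ)) + 10 * A), p i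
        = ∑ i ∈ Y, ∑ P ∈ range q ×ˢ range q,
          (if (w - 6 * (b * (P.1 : ℤ) + c * (P.2 : ℤ)) - (A : ℤ) * (6 * (q : ℤ) - 1) - 10 * A
          ≤ (A : ℤ) * y₁ i + b * y₂ i + c * y₃ i ∧
        (A : ℤ) * y₁ i + b * y₂ i + c * y₃ i ≤ w - 6 * (b * (P.1 : ℤ) + c * (P.2 : ℤ)) + 10 * A) then p i else 0) := by
      rw [Finset.sum_comm]
      refine Finset.sum_congr rfl fun P _ => ?_
      rw [Finset.sum_filter]
    rw [hswap, Finset.mul_sum, Finset.mul_sum]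
    refine Finset.sum_le_sum fun i hi => ?_
    have hc1 := cnt_I A hA0 hA b c hb hc hcop q (w - (A * y₁ i + b * y₂ i + c * y₃ i))
    have hc2 : ((Cnt A b c (6 * q) (w - (A * y₁ i + b * y₂ i + c * y₃ i)) : ℕ) : ℝ) * A
        ≤ 36 * (((range q ×ˢ range q).filter (fun P : ℕ × ℕ =>
      -(10 * (A : ℤ)) ≤ w - (A * y₁ i + b * y₂ i + c * y₃ i) - 6 * (b * (P.1 : ℤ) + c * (P.2 : ℤ)) ∧
      w - (A * y₁ i + b * y₂ i + c * y₃ i) - 6 * (b * (P.1 : ℤ) + c * (P.2 : ℤ))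
        ≤ (A : ℤ) * (6 * (q : ℤ) - 1) + 10 * A)).card : ℝ) := by
      exact_mod_cast hc1
    have hfilt : (range q ×ˢ range q).filter (fun P : ℕ × ℕ =>
      -(10 * (A : ℤ)) ≤ w - (A * y₁ i + b * y₂ i + c * y₃ i) - 6 * (b * (P.1 : ℤ) + c * (P.2 : ℤ)) ∧
      w - (A * y₁ i + b * y₂ i + c * y₃ i) - 6 * (b * (P.1 : ℤ) + c * (P.2 : ℤ))
        ≤ (A : ℤ) * (6 * (q : ℤ) - 1) + 10 * A)
        = (range q ×ˢ range q).filter (fun P : ℕ × ℕ =>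
          w - 6 * (b * (P.1 : ℤ) + c * (P.2 : ℤ)) - (A : ℤ) * (6 * (q : ℤ) - 1) - 10 * A
          ≤ (A : ℤ) * y₁ i + b * y₂ i + c * y₃ i ∧
        (A : ℤ) * y₁ i + b * y₂ i + c * y₃ i ≤ w - 6 * (b * (P.1 : ℤ) + c * (P.2 : ℤ)) + 10 * A) := by
      refine Finset.filter_congr fun P _ => ?_
      constructor
      · rintro ⟨h1, h2⟩
        constructor <;> linarith
      · rintro ⟨h1, h2⟩
        constructor <;> linarith
    rw [← Finset.sum_filter, Finset.sum_const, nsmul_eq_mul, ← hfilt]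
    have hpi := hp i hi
    calc (A : ℝ) * (p i * (Cnt A b c (6 * q) (w - (A * y₁ i + b * y₂ i + c * y₃ i)) : ℝ))
        = p i * ((Cnt A b c (6 * q) (w - (A * y₁ i + b * y₂ i + c * y₃ i)) : ℝ) * A) := by ring
      _ ≤ p i * (36 * (((range q ×ˢ range q).filter (fun P : ℕ × ℕ =>
      -(10 * (A : ℤ)) ≤ w - (A * y₁ i + b * y₂ i + c * y₃ i) - 6 * (b * (P.1 : ℤ) + c * (P.2 : ℤ)) ∧
      w - (A * y₁ i + b * y₂ i + c * y₃ i) - 6 * (b * (P.1 : ℤ) + c * (P.2 : ℤ))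
        ≤ (A : ℤ) * (6 * (q : ℤ) - 1) + 10 * A)).card : ℝ)) := mul_le_mul_of_nonneg_left hc2 hpi
      _ = _ := by ring
  have hsum : ∑ P ∈ range q ×ˢ range q,
        ∑ i ∈ Y.filter (fun i => w - 6 * (b * (P.1 : ℤ) + c * (P.2 : ℤ)) - (A : ℤ) * (6 * (q : ℤ) - 1) - 10 * A
          ≤ (A : ℤ) * y₁ i + b * y₂ i + c * y₃ i ∧
        (A : ℤ) * y₁ i + b * y₂ i + c * y₃ i ≤ w - 6 * (b * (P.1 : ℤ) + c * (P.2 : ℤ)) + 10 * A), p i
        ≤ (q : ℝ) ^ 2 * (κ * (A * (6 * (q : ℝ) + 22))) := by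
    refine (Finset.sum_le_sum fun P _ => hslab P).trans ?_
    rw [Finset.sum_const, nsmul_eq_mul, Finset.card_product, Finset.card_range]
    push_cast
    apply le_of_eq
    ring
  have hfin : (A : ℝ) * ∑ i ∈ Y, p i * (Cnt A b c (6 * q) (w - (A * y₁ i + b * y₂ i + c * y₃ i)) : ℝ)
      ≤ A * (κ * (6 * (q : ℝ)) ^ 2 * (6 * (q : ℝ) + 22)) := by
    refine key.trans ?_
    calc 36 * ∑ P ∈ range q ×ˢ range q,
        ∑ i ∈ Y.filter (fun i => w - 6 * (b * (P.1 : ℤ) + c * (P.2 : ℤ)) - (A : ℤ) * (6 * (q : ℤ) - 1) - 10 * A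
          ≤ (A : ℤ) * y₁ i + b * y₂ i + c * y₃ i ∧
        (A : ℤ) * y₁ i + b * y₂ i + c * y₃ i ≤ w - 6 * (b * (P.1 : ℤ) + c * (P.2 : ℤ)) + 10 * A), p i
        ≤ 36 * ((q : ℝ) ^ 2 * (κ * (A * (6 * (q : ℝ) + 22)))) := by linarith [hsum]
      _ = A * (κ * (6 * (q : ℝ)) ^ 2 * (6 * (q : ℝ) + 22)) := by ring
  exact le_of_mul_le_mul_left hfin hA'

/-- outside the slab the counting function vanishes -/
theorem cnt_zero (a b c : ℤ) (s : ℕ) (_hs : 1 ≤ s) (w : ℤ)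
    (h : ¬ (((s : ℤ) - 1) * (min a 0 + min b 0 + min c 0) ≤ w ∧
      w ≤ ((s : ℤ) - 1) * (max a 0 + max b 0 + max c 0))) : Cnt a b c s w = 0 := by
  unfold Cnt
  rw [Finset.card_eq_zero, Finset.filter_eq_empty_iff]
  rintro ⟨x, y, z⟩ hJ heq
  simp only [Finset.mem_product, Finset.mem_range] at hJ
  obtain ⟨hx, hy, hz⟩ := hJ
  apply h
  have hcoord : ∀ (a : ℤ) (x : ℕ), x < s →
      ((s : ℤ) - 1) * min a 0 ≤ a * (x : ℤ) ∧ a * (x : ℤ) ≤ ((s : ℤ) - 1) * max a 0 := by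
    intro a x hx
    have hx0 : (0 : ℤ) ≤ x := Int.natCast_nonneg x
    have hx1 : (x : ℤ) ≤ (s : ℤ) - 1 := by omega
    rcases le_total a 0 with ha | ha
    · rw [min_eq_left ha, max_eq_right ha]
      constructor <;> nlinarith
    · rw [min_eq_right ha, max_eq_left ha]
      constructor <;> nlinarith
  have h1 := hcoord a x hx
  have h2 := hcoord b y hy
  have h3 := hcoord c z hz
  simp only at heq
  constructor
  · rw [← heq, mul_add, mul_add]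
    linarith [h1.1, h2.1, h3.1]
  · rw [← heq, mul_add, mul_add]
    linarith [h1.2, h2.2, h3.2]

theorem mass_II {ι : Type} (Y : Finset ι) (p : ι → ℝ) (hp : ∀ i ∈ Y, 0 ≤ p i) (y₁ y₂ y₃ : ι → ℤ) (κ : ℝ) (hκ : 0 ≤ κ)
    (hS : Slab Y p y₁ y₂ y₃ κ) (a b c : ℤ) (ha : a ≠ 0) (hb : |b| ≤ |a|) (hc : |c| ≤ |a|)
    (h : ℕ) (hh : 4 ≤ h) (hdiv : ∀ Δ : ℤ, a ∣ b * Δ → (h : ℤ) ∣ Δ) (q : ℕ) (hq : 1 ≤ q) (w : ℤ) :
    ∑ i ∈ Y, p i * (Cnt a b c (6 * q) (w - (a * y₁ i + b * y₂ i + c * y₃ i)) : ℝ)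
      ≤ κ * (6 * (q : ℝ)) ^ 2 * (6 * (q : ℝ) + 22) := by
  classical
  obtain ⟨s, hs⟩ : ∃ s : ℕ, s = 6 * q := ⟨_, rfl⟩
  have hsR : (s : ℝ) = 6 * (q : ℝ) := by rw [hs]; push_cast; ring
  rw [← hsR, ← hs]
  have hs1 : 1 ≤ s := by omega
  have hs1R : (1 : ℝ) ≤ s := by exact_mod_cast hs1
  have habc : ¬ (a = 0 ∧ b = 0 ∧ c = 0) := fun h' => ha h'.1
  have haR : (0 : ℝ) < |(a : ℝ)| := abs_pos.mpr (by exact_mod_cast ha)
  have hbR : |(b : ℝ)| ≤ |(a : ℝ)| := by exact_mod_cast hb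
  have hcR : |(c : ℝ)| ≤ |(a : ℝ)| := by exact_mod_cast hc
  have hn : 0.8 * |(a : ℝ)| ≤ nrm a b c := by
    refine le_trans ?_ (nrm_ge a b c)
    apply mul_le_mul_of_nonneg_right _ haR.le
    apply Real.le_sqrt_of_sq_le
    norm_num
  have hn0 : 0 < nrm a b c := by linarith
  have hmm : ∀ x : ℤ, max x 0 - min x 0 = |x| := by
    intro x
    rcases le_total x 0 with hx | hx
    · rw [max_eq_right hx, min_eq_left hx, abs_of_nonpos hx]; ring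
    · rw [max_eq_left hx, min_eq_right hx, abs_of_nonneg hx]; ring
  obtain ⟨lo, hlo⟩ : ∃ lo : ℤ, lo = w - ((s : ℤ) - 1) * (max a 0 + max b 0 + max c 0) := ⟨_, rfl⟩
  obtain ⟨hi, hhi⟩ : ∃ hi : ℤ, hi = w - ((s : ℤ) - 1) * (min a 0 + min b 0 + min c 0) := ⟨_, rfl⟩
  have hwid : hi - lo = ((s : ℤ) - 1) * (|a| + |b| + |c|) := by
    rw [hhi, hlo, ← hmm a, ← hmm b, ← hmm c]; ring
  have hlh : lo ≤ hi := by
    have : 0 ≤ ((s : ℤ) - 1) * (|a| + |b| + |c|) := mul_nonneg (by omega) (by positivity)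
    linarith
  have h1 := hS a b c habc lo hi hlh
  set T : ℝ := ∑ i ∈ Y.filter (fun i => lo ≤ a * y₁ i + b * y₂ i + c * y₃ i ∧
    a * y₁ i + b * y₂ i + c * y₃ i ≤ hi), p i with hT
  have hT0 : 0 ≤ T := Finset.sum_nonneg (fun i hi' => hp i (Finset.mem_filter.mp hi').1)
  have hwidR : (hi : ℝ) - lo = ((s : ℝ) - 1) * (|(a : ℝ)| + |(b : ℝ)| + |(c : ℝ)|) := by
    exact_mod_cast hwid
  have h2 : T * nrm a b c ≤ κ * (s * (3 * |(a : ℝ)|)) := by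
    refine h1.trans ?_
    apply mul_le_mul_of_nonneg_left _ hκ
    rw [hwidR]
    have : ((s : ℝ) - 1) * (|(a : ℝ)| + |(b : ℝ)| + |(c : ℝ)|) + |(a : ℝ)| + |(b : ℝ)| + |(c : ℝ)|
        = s * (|(a : ℝ)| + |(b : ℝ)| + |(c : ℝ)|) := by ring
    rw [this]
    apply mul_le_mul_of_nonneg_left _ (by linarith)
    linarith
  have h3 : ∑ i ∈ Y, p i * (Cnt a b c s (w - (a * y₁ i + b * y₂ i + c * y₃ i)) : ℝ)
      ≤ (s * (s / 4 + 1) : ℝ) * T := by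
    rw [hT, Finset.sum_filter, Finset.mul_sum]
    refine Finset.sum_le_sum fun i hi' => ?_
    have hpi := hp i hi'
    split_ifs with hcond
    · have hc1 := cnt_II a b c s h (w - (a * y₁ i + b * y₂ i + c * y₃ i)) ha hh hdiv
      have hc2 : ((Cnt a b c s (w - (a * y₁ i + b * y₂ i + c * y₃ i)) : ℕ) : ℝ) ≤ (s : ℝ) * (s / 4 + 1) := by
        have hc3 : ((Cnt a b c s (w - (a * y₁ i + b * y₂ i + c * y₃ i)) : ℕ) : ℝ)
            ≤ ((s * (s / 4 + 1) : ℕ) : ℝ) := by exact_mod_cast hc1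
        refine hc3.trans ?_
        push_cast
        have hd : ((s / 4 : ℕ) : ℝ) ≤ (s : ℝ) / 4 := by
          have := @Nat.cast_div_le ℝ _ _ _ s 4
          simpa using this
        apply mul_le_mul_of_nonneg_left _ (by linarith)
        linarith
      calc p i * ((Cnt a b c s (w - (a * y₁ i + b * y₂ i + c * y₃ i)) : ℕ) : ℝ)
          ≤ p i * ((s : ℝ) * (s / 4 + 1)) := mul_le_mul_of_nonneg_left hc2 hpi
        _ = _ := by ring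
    · have hz : Cnt a b c s (w - (a * y₁ i + b * y₂ i + c * y₃ i)) = 0 := by
        apply cnt_zero a b c s hs1
        rintro ⟨h4, h5⟩
        apply hcond
        constructor
        · rw [hlo]; linarith
        · rw [hhi]; linarith
      rw [hz]
      simp
  refine h3.trans ?_
  have hgoal : (s * (s / 4 + 1) : ℝ) * T * nrm a b c ≤ κ * (s : ℝ) ^ 2 * (s + 22) * nrm a b c := by
    have hk : 0 ≤ (s : ℝ) * (s / 4 + 1) := by positivity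
    calc (s * (s / 4 + 1) : ℝ) * T * nrm a b c = (s * (s / 4 + 1) : ℝ) * (T * nrm a b c) := by ring
      _ ≤ (s * (s / 4 + 1) : ℝ) * (κ * (s * (3 * |(a : ℝ)|))) := mul_le_mul_of_nonneg_left h2 hk
      _ = κ * (s : ℝ) ^ 2 * ((s / 4 + 1) * 3 * |(a : ℝ)|) := by ring
      _ ≤ κ * (s : ℝ) ^ 2 * ((s + 22) * nrm a b c) := by
          apply mul_le_mul_of_nonneg_left _ (by positivity)
          calc ((s : ℝ) / 4 + 1) * 3 * |(a : ℝ)| ≤ (s + 22) * (0.8 * |(a : ℝ)|) := by nlinarith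
            _ ≤ (s + 22) * nrm a b c := mul_le_mul_of_nonneg_left hn (by linarith)
      _ = _ := by ring
  exact le_of_mul_le_mul_right hgoal hn0

end Pool.Agent.Helper910.Sph
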