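import Mathlib
import Pool.Agent.Helper910.SphDefs
import Pool.Agent.Helper910.SphD

namespace Pool.Agent.Helper910.Sph

open Finset MeasureTheory

theorem Cnt_swap12 (a b c : ℤ) (s : ℕ) (w : ℤ) : Cnt b a c s w = Cnt a b c s w := by
  unfold Cnt
  refine Finset.card_bij' (fun J _ => (J.2.1, J.1, J.2.2)) (fun J _ => (J.2.1, J.1, J.2.2)) ?_ ?_ ?_ ?_
  · rintro ⟨x, y, z⟩ h
    simp only [mem_filter, mem_product, mem_range] at h ⊢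
    refine ⟨⟨h.1.2.1, h.1.1, h.1.2.2⟩, ?_⟩
    linarith [h.2]
  · rintro ⟨x, y, z⟩ h
    simp only [mem_filter, mem_product, mem_range] at h ⊢
    refine ⟨⟨h.1.2.1, h.1.1, h.1.2.2⟩, ?_⟩
    linarith [h.2]
  · rintro ⟨x, y, z⟩ h
    rfl
  · rintro ⟨x, y, z⟩ h
    rfl

theorem Cnt_swap23 (a b c : ℤ) (s : ℕ) (w : ℤ) : Cnt a c b s w = Cnt a b c s w := by
  unfold Cnt
  refine Finset.card_bij' (fun J _ => (J.1, J.2.2, J.2.1)) (fun J _ => (J.1, J.2.2, J.2.1)) ?_ ?_ ?_ ?_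
  · rintro ⟨x, y, z⟩ h
    simp only [mem_filter, mem_product, mem_range] at h ⊢
    refine ⟨⟨h.1.1, h.1.2.2, h.1.2.1⟩, ?_⟩
    linarith [h.2]
  · rintro ⟨x, y, z⟩ h
    simp only [mem_filter, mem_product, mem_range] at h ⊢
    refine ⟨⟨h.1.1, h.1.2.2, h.1.2.1⟩, ?_⟩
    linarith [h.2]
  · rintro ⟨x, y, z⟩ h
    rfl
  · rintro ⟨x, y, z⟩ h
    rfl

theorem Cnt_swap13 (a b c : ℤ) (s : ℕ) (w : ℤ) : Cnt c b a s w = Cnt a b c s w := by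
  rw [Cnt_swap23 c a b, Cnt_swap12 a c b, Cnt_swap23 a b c]

theorem Cnt_neg (a b c : ℤ) (s : ℕ) (w : ℤ) : Cnt (-a) (-b) (-c) s (-w) = Cnt a b c s w := by
  unfold Cnt
  congr 1
  apply Finset.filter_congr
  intro J _
  constructor
  · intro h
    linarith
  · intro h
    linarith

theorem nrm_swap12 (a b c : ℤ) : nrm b a c = nrm a b c := by
  unfold nrm
  congr 1
  ring

theorem nrm_swap23 (a b c : ℤ) : nrm a c b = nrm a b c := by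
  unfold nrm
  congr 1
  ring

theorem Slab_swap12 {ι : Type} {Y : Finset ι} {p : ι → ℝ} {y₁ y₂ y₃ : ι → ℤ} {κ : ℝ}
    (hS : Slab Y p y₁ y₂ y₃ κ) : Slab Y p y₂ y₁ y₃ κ := by
  intro a b c h lo hi hl
  have e : ∀ i, a * y₂ i + b * y₁ i + c * y₃ i = b * y₁ i + a * y₂ i + c * y₃ i := fun i => by ring
  have h2 := hS b a c (fun h3 => h ⟨h3.2.1, h3.1, h3.2.2⟩) lo hi hl
  simp only [e]
  rw [nrm_swap12 a b c] at h2
  have e2 : (hi : ℝ) - lo + |(a : ℝ)| + |(b : ℝ)| + |(c : ℝ)| = (hi : ℝ) - lo + |(b : ℝ)| + |(a : ℝ)| + |(c : ℝ)| := by ring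
  rw [e2]
  exact h2

theorem Slab_swap23 {ι : Type} {Y : Finset ι} {p : ι → ℝ} {y₁ y₂ y₃ : ι → ℤ} {κ : ℝ}
    (hS : Slab Y p y₁ y₂ y₃ κ) : Slab Y p y₁ y₃ y₂ κ := by
  intro a b c h lo hi hl
  have e : ∀ i, a * y₁ i + b * y₃ i + c * y₂ i = a * y₁ i + c * y₂ i + b * y₃ i := fun i => by ring
  have h2 := hS a c b (fun h3 => h ⟨h3.1, h3.2.2, h3.2.1⟩) lo hi hl
  simp only [e]
  rw [nrm_swap23 a b c] at h2
  have e2 : (hi : ℝ) - lo + |(a : ℝ)| + |(b : ℝ)| + |(c : ℝ)| = (hi : ℝ) - lo + |(a : ℝ)| + |(c : ℝ)| + |(b : ℝ)| := by ring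
  rw [e2]
  exact h2

theorem exists_h (a b : ℤ) (ha : a ≠ 0) :
    ∃ h : ℕ, 0 < h ∧ (∀ Δ : ℤ, a ∣ b * Δ → (h : ℤ) ∣ Δ) ∧ a ∣ (h : ℤ) * b := by
  have hg : 0 < Int.gcd a b := Int.gcd_pos_of_ne_zero_left b ha
  obtain ⟨a', b', h1, h2, h3⟩ := Int.exists_gcd_one hg
  set g := Int.gcd a b with hgdef
  have hg0 : (g : ℤ) ≠ 0 := by exact_mod_cast hg.ne'
  have ha' : a' ≠ 0 := by
    rintro rfl
    apply ha
    rw [h2]
    simp
  refine ⟨a'.natAbs, Int.natAbs_pos.mpr ha', ?_, ?_⟩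
  · intro Δ hΔ
    rw [Int.natAbs_dvd]
    rw [h2, h3] at hΔ
    have h4 : a' * g ∣ (b' * Δ) * g := by
      have : b' * (g : ℤ) * Δ = (b' * Δ) * g := by ring
      rwa [this] at hΔ
    have h5 : a' ∣ b' * Δ := (mul_dvd_mul_iff_right hg0).mp h4
    exact (Int.isCoprime_iff_gcd_eq_one.mpr h1).dvd_of_dvd_mul_left h5
  · rw [h2, h3]
    obtain ⟨k, hk⟩ : a' ∣ (a'.natAbs : ℤ) := Int.dvd_natAbs.mpr dvd_rfl
    refine ⟨k * b', ?_⟩
    rw [hk]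
    ring

theorem core {ι : Type} (Y : Finset ι) (p : ι → ℝ) (hp : ∀ i ∈ Y, 0 ≤ p i) (y₁ y₂ y₃ : ι → ℤ) (κ : ℝ) (hκ : 0 ≤ κ)
    (hS : Slab Y p y₁ y₂ y₃ κ) (a b c : ℤ) (hcop : ∀ g : ℤ, g ∣ a → g ∣ b → g ∣ c → IsUnit g)
    (ha : a ≠ 0) (hb : |b| ≤ |a|) (hc : |c| ≤ |a|) (q : ℕ) (hq : 1 ≤ q) (w : ℤ) :
    ∑ i ∈ Y, p i * (Cnt a b c (6 * q) (w - (a * y₁ i + b * y₂ i + c * y₃ i)) : ℝ)
      ≤ κ * (6 * (q : ℝ)) ^ 2 * (6 * (q : ℝ) + 22) := by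
  obtain ⟨h1, h1p, h1d, h1m⟩ := exists_h a b ha
  obtain ⟨h2, h2p, h2d, h2m⟩ := exists_h a c ha
  by_cases H1 : 4 ≤ h1
  · exact mass_II Y p hp y₁ y₂ y₃ κ hκ hS a b c ha hb hc h1 H1 h1d q hq w
  by_cases H2 : 4 ≤ h2
  · have h3 := mass_II Y p hp y₁ y₃ y₂ κ hκ (Slab_swap23 hS) a c b ha hc hb h2 H2 h2d q hq w
    have e : ∀ i, a * y₁ i + b * y₂ i + c * y₃ i = a * y₁ i + c * y₃ i + b * y₂ i := fun i => by ring
    simp only [e]
    simp only [Cnt_swap23 a b c] at h3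
    exact h3
  have d1 : (h1 : ℤ) ∣ 6 := by
    have : h1 = 1 ∨ h1 = 2 ∨ h1 = 3 := by omega
    rcases this with h | h | h <;> subst h <;> norm_num
  have d2 : (h2 : ℤ) ∣ 6 := by
    have : h2 = 1 ∨ h2 = 2 ∨ h2 = 3 := by omega
    rcases this with h | h | h <;> subst h <;> norm_num
  have m1 : a ∣ 6 * b := h1m.trans (mul_dvd_mul_right d1 b)
  have m2 : a ∣ 6 * c := h2m.trans (mul_dvd_mul_right d2 c)
  have m3 : a ∣ 6 := by
    have hu : IsUnit (GCDMonoid.gcd a (GCDMonoid.gcd b c)) :=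
      hcop _ (gcd_dvd_left _ _) ((gcd_dvd_right _ _).trans (gcd_dvd_left _ _)) ((gcd_dvd_right _ _).trans (gcd_dvd_right _ _))
    have hco : IsCoprime a (GCDMonoid.gcd b c) := (gcd_isUnit_iff _ _).mp hu
    have h4 : a ∣ GCDMonoid.gcd (6 * b) (6 * c) := dvd_gcd m1 m2
    have h5 : a ∣ 6 * GCDMonoid.gcd b c := h4.trans (gcd_mul_left' 6 b c).dvd
    exact hco.dvd_of_dvd_mul_right h5
  have hA0 : 0 < a.natAbs := Int.natAbs_pos.mpr ha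
  have hA6 : a.natAbs ∣ 6 := by
    have := Int.natAbs_dvd_natAbs.mpr m3
    simpa using this
  have hAabs : ((a.natAbs : ℕ) : ℤ) = |a| := Int.natCast_natAbs a
  rcases le_or_gt 0 a with hpos | hneg
  · have hA : ((a.natAbs : ℕ) : ℤ) = a := by rw [hAabs, abs_of_nonneg hpos]
    have h6 := mass_I Y p hp y₁ y₂ y₃ κ hκ hS a.natAbs hA0 hA6 b c (by rw [hAabs]; exact hb) (by rw [hAabs]; exact hc)
      (by rw [hA]; exact hcop) q hq w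
    simp only [hA] at h6
    exact h6
  · have hA : ((a.natAbs : ℕ) : ℤ) = -a := by rw [hAabs, abs_of_neg hneg]
    have h6 := mass_I Y p hp y₁ y₂ y₃ κ hκ hS a.natAbs hA0 hA6 (-b) (-c)
      (by rw [hAabs, abs_neg]; exact hb) (by rw [hAabs, abs_neg]; exact hc)
      (by
        intro g hg1 hg2 hg3
        rw [hA] at hg1
        exact hcop g ((dvd_neg).mp hg1) ((dvd_neg).mp hg2) ((dvd_neg).mp hg3)) q hq (-w)
    simp only [hA] at h6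
    have e : ∀ i, Cnt (-a) (-b) (-c) (6 * q) (-w - (-a * y₁ i + -b * y₂ i + -c * y₃ i))
        = Cnt a b c (6 * q) (w - (a * y₁ i + b * y₂ i + c * y₃ i)) := by
      intro i
      rw [← Cnt_neg a b c]
      congr 1
      ring
    simp only [e] at h6
    exact h6

theorem mass {ι : Type} (Y : Finset ι) (p : ι → ℝ) (hp : ∀ i ∈ Y, 0 ≤ p i) (y₁ y₂ y₃ : ι → ℤ) (κ : ℝ) (hκ : 0 ≤ κ)
    (hS : Slab Y p y₁ y₂ y₃ κ) (a b c : ℤ) (hcop : ∀ g : ℤ, g ∣ a → g ∣ b → g ∣ c → IsUnit g) (q : ℕ) (hq : 1 ≤ q) (w : ℤ) :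
    ∑ i ∈ Y, p i * (Cnt a b c (6 * q) (w - (a * y₁ i + b * y₂ i + c * y₃ i)) : ℝ)
      ≤ κ * (6 * (q : ℝ)) ^ 2 * (6 * (q : ℝ) + 22) := by
  have hne : ∀ x : ℤ, |a| ≤ |x| → |b| ≤ |x| → |c| ≤ |x| → x ≠ 0 := by
    rintro x h1 h2 h3 rfl
    simp only [abs_zero] at h1 h2 h3
    have ea : a = 0 := abs_nonpos_iff.mp h1
    have eb : b = 0 := abs_nonpos_iff.mp h2
    have ec : c = 0 := abs_nonpos_iff.mp h3
    have := hcop 0 (by rw [ea]) (by rw [eb]) (by rw [ec])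
    exact not_isUnit_zero this
  by_cases hA : |b| ≤ |a| ∧ |c| ≤ |a|
  · exact core Y p hp y₁ y₂ y₃ κ hκ hS a b c hcop (hne a le_rfl hA.1 hA.2) hA.1 hA.2 q hq w
  by_cases hB : |a| ≤ |b| ∧ |c| ≤ |b|
  · have h := core Y p hp y₂ y₁ y₃ κ hκ (Slab_swap12 hS) b a c (fun g h1 h2 h3 => hcop g h2 h1 h3)
      (hne b hB.1 le_rfl hB.2) hB.1 hB.2 q hq w
    have e : ∀ i, a * y₁ i + b * y₂ i + c * y₃ i = b * y₂ i + a * y₁ i + c * y₃ i := fun i => by ring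
    simp only [e]
    simp only [Cnt_swap12 a b c] at h
    exact h
  · have hC : |a| ≤ |c| ∧ |b| ≤ |c| := by
      constructor <;> by_contra h <;> push Not at h
      · rcases le_total |a| |b| with h' | h'
        · exact hB ⟨h', (h.le.trans h')⟩
        · exact hA ⟨h', h.le⟩
      · rcases le_total |a| |b| with h' | h'
        · exact hB ⟨h', h.le⟩
        · exact hA ⟨h', (h.le.trans h')⟩
    have h := core Y p hp y₃ y₂ y₁ κ hκ (Slab_swap12 (Slab_swap23 (Slab_swap12 hS))) c b a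
      (fun g h1 h2 h3 => hcop g h3 h2 h1) (hne c hC.1 hC.2 le_rfl) hC.2 hC.1 q hq w
    have e : ∀ i, a * y₁ i + b * y₂ i + c * y₃ i = c * y₃ i + b * y₂ i + a * y₁ i := fun i => by ring
    simp only [e]
    simp only [Cnt_swap13 a b c] at h
    exact h

end Pool.Agent.Helper910.Sph
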