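import Mathlib
import Pool.Agent.Helper910.SphDefs
import Pool.Agent.Helper910.SphH
import Pool.Agent.Helper910.SphE
import Pool.Agent.Helper910.SphF


namespace Pool.Agent.Helper910.Sph

open Finset MeasureTheory

theorem cover3_lower (θ : ℝ) (hθ0 : 0 < θ) (hθ1 : θ < 1) (R q : ℕ) (hR : 1 ≤ R) (hq : 1 ≤ q) (n : ℕ) (hn : 4 * R + 18 * q ≤ n)
    (ι : Type) (s : Finset ι) (a : ι → Fin 3 → ℝ) (b : ι → ℝ) (w : ι → ℝ) (hw : ∀ i ∈ s, 0 ≤ w i) (ha : ∀ i ∈ s, a i ≠ 0)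
    (D : ℝ) (hD : 0 ≤ D)
    (hc : ∀ x : Fin 3 → ℕ, ∑ j, x j < n → D ≤ ∑ i ∈ s, if ∑ j, a i j * (x j : ℝ) = b i then w i else 0) :
    D * (6 * (q : ℝ)) ≤ (∑ i ∈ s, w i) * (3 / 4 * (1 + θ) / ((1 + θ + θ ^ 2) * (R : ℝ))) * (6 * (q : ℝ) + 22) := by
  classical
  obtain ⟨Y, p, hp, hsum, hY, hS⟩ := exists_weights θ hθ0 hθ1 R hR
  set κ : ℝ := 3 / 4 * (1 + θ) / ((1 + θ + θ ^ 2) * (R : ℝ)) with hκ
  have hR0 : (0 : ℝ) < R := by exact_mod_cast hR
  have hκ0 : 0 ≤ κ := by positivity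
  have hq0 : (0 : ℝ) < q := by exact_mod_cast hq
  set T := range (6 * q) ×ˢ (range (6 * q) ×ˢ range (6 * q)) with hT
  -- the points
  let X : (Fin 3 → ℤ) → ℕ × ℕ × ℕ → Fin 3 → ℕ := fun y J j =>
    (y j).toNat + (![J.1, J.2.1, J.2.2] : Fin 3 → ℕ) j
  have hX : ∀ y ∈ Y, ∀ J : ℕ × ℕ × ℕ, ∀ j : Fin 3,
      ((X y J j : ℕ) : ℤ) = y j + ((![J.1, J.2.1, J.2.2] : Fin 3 → ℕ) j : ℤ) := by
    intro y hy J j
    have h := (hY y hy).1 j
    change (((y j).toNat + (![J.1, J.2.1, J.2.2] : Fin 3 → ℕ) j : ℕ) : ℤ) = _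
    rw [Nat.cast_add, Int.toNat_of_nonneg h]
  have hXn : ∀ y ∈ Y, ∀ J ∈ T, ∑ j, X y J j < n := by
    intro y hy J hJ
    simp only [hT, Finset.mem_product, Finset.mem_range] at hJ
    have h1 := (hY y hy).2
    have h2 : ((∑ j, X y J j : ℕ) : ℤ) < n := by
      rw [Nat.cast_sum, Fin.sum_univ_three, hX y hy J 0, hX y hy J 1, hX y hy J 2]
      have e0 : ((![J.1, J.2.1, J.2.2] : Fin 3 → ℕ) 0) = J.1 := rfl
      have e1 : ((![J.1, J.2.1, J.2.2] : Fin 3 → ℕ) 1) = J.2.1 := rfl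
      have e2 : ((![J.1, J.2.1, J.2.2] : Fin 3 → ℕ) 2) = J.2.2 := rfl
      rw [e0, e1, e2]
      omega
    exact_mod_cast h2
  -- the number of the translates in one plane
  have hcount : ∀ i ∈ s, ∑ y ∈ Y, p y *
      ((T.filter (fun J => ∑ j, a i j * ((X y J j : ℕ) : ℝ) = b i)).card : ℝ) ≤
      κ * (6 * (q : ℝ)) ^ 2 * (6 * (q : ℝ) + 22) := by
    intro i hi
    obtain ⟨a', b', c', w', hcop, hpl⟩ := rational_normal (a i) (ha i hi) (b i)
    refine le_trans ?_ (mass Y p hp (fun y => y 0) (fun y => y 1) (fun y => y 2) κ hκ0 hS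
      a' b' c' hcop q hq w')
    refine Finset.sum_le_sum fun y hy => mul_le_mul_of_nonneg_left ?_ (hp y hy)
    have hsub : T.filter (fun J => ∑ j, a i j * ((X y J j : ℕ) : ℝ) = b i) ⊆
        T.filter (fun J : ℕ × ℕ × ℕ => a' * (J.1 : ℤ) + b' * (J.2.1 : ℤ) + c' * (J.2.2 : ℤ) =
          w' - (a' * y 0 + b' * y 1 + c' * y 2)) := by
      intro J hJ
      rw [Finset.mem_filter] at hJ ⊢
      refine ⟨hJ.1, ?_⟩
      have h1 := hpl (fun j => ((X y J j : ℕ) : ℤ)) (by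
        rw [← hJ.2]
        exact Finset.sum_congr rfl fun j _ => by push_cast; rfl)
      simp only [hX y hy J] at h1
      have e0 : ((![J.1, J.2.1, J.2.2] : Fin 3 → ℕ) 0) = J.1 := rfl
      have e1 : ((![J.1, J.2.1, J.2.2] : Fin 3 → ℕ) 1) = J.2.1 := rfl
      have e2 : ((![J.1, J.2.1, J.2.2] : Fin 3 → ℕ) 2) = J.2.2 := rfl
      rw [e0, e1, e2] at h1
      linarith
    have := Finset.card_le_card hsub
    exact_mod_cast this
  -- the double counting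
  have hcard : ((T.card : ℕ) : ℝ) = (6 * (q : ℝ)) ^ 3 := by
    rw [hT, Finset.card_product, Finset.card_product, Finset.card_range]
    push_cast
    ring
  have h1 : D * (6 * (q : ℝ)) ^ 3 ≤ ∑ y ∈ Y, p y * ∑ J ∈ T,
      ∑ i ∈ s, (if ∑ j, a i j * ((X y J j : ℕ) : ℝ) = b i then w i else 0) := by
    calc D * (6 * (q : ℝ)) ^ 3 = ∑ y ∈ Y, p y * ∑ J ∈ T, D := by
          rw [← Finset.sum_mul, hsum, Finset.sum_const, nsmul_eq_mul, hcard]
          ring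
      _ ≤ _ := by
          refine Finset.sum_le_sum fun y hy => mul_le_mul_of_nonneg_left ?_ (hp y hy)
          exact Finset.sum_le_sum fun J hJ => hc (X y J) (hXn y hy J hJ)
  have h2 : ∑ y ∈ Y, p y * ∑ J ∈ T,
      ∑ i ∈ s, (if ∑ j, a i j * ((X y J j : ℕ) : ℝ) = b i then w i else 0) =
      ∑ i ∈ s, w i * ∑ y ∈ Y, p y *
        ((T.filter (fun J => ∑ j, a i j * ((X y J j : ℕ) : ℝ) = b i)).card : ℝ) := by
    have e : ∀ y, ∑ J ∈ T, ∑ i ∈ s,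
        (if ∑ j, a i j * ((X y J j : ℕ) : ℝ) = b i then w i else 0) = ∑ i ∈ s, w i *
        ((T.filter (fun J => ∑ j, a i j * ((X y J j : ℕ) : ℝ) = b i)).card : ℝ) := by
      intro y
      rw [Finset.sum_comm]
      refine Finset.sum_congr rfl fun i _ => ?_
      rw [← Finset.sum_filter, Finset.sum_const, nsmul_eq_mul, mul_comm]
    simp only [e, Finset.mul_sum]
    rw [Finset.sum_comm]
    refine Finset.sum_congr rfl fun i _ => Finset.sum_congr rfl fun y _ => ?_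
    ring
  have h3 : D * (6 * (q : ℝ)) ^ 3 ≤
      ∑ i ∈ s, w i * (κ * (6 * (q : ℝ)) ^ 2 * (6 * (q : ℝ) + 22)) := by
    refine h1.trans (h2.le.trans ?_)
    exact Finset.sum_le_sum fun i hi => mul_le_mul_of_nonneg_left (hcount i hi) (hw i hi)
  rw [← Finset.sum_mul] at h3
  have hpos : 0 < (6 * (q : ℝ)) ^ 2 := by positivity
  refine le_of_mul_le_mul_right ?_ hpos
  calc D * (6 * (q : ℝ)) * (6 * (q : ℝ)) ^ 2 = D * (6 * (q : ℝ)) ^ 3 := by ring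
    _ ≤ _ := h3
    _ = _ := by ring

end Pool.Agent.Helper910.Sph
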