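import Mathlib

namespace Pool.Agent.Helper910.Tri

open Finset

/-- the constants of the slicing bound: `ell 0 = ell 1 = 1`, `ell (d+1) = 1 - exp (-ell d)` -/
noncomputable def ell : ℕ → ℝ
  | 0 => 1
  | 1 => 1
  | (d + 2) => 1 - Real.exp (-ell (d + 1))

theorem num1 (x : ℝ) (hx : 0 < x) (n : ℕ) (h : x ≤ n) :
    n - x - x * Real.log (n / x) ≤ ∑ m ∈ range n, max 0 (1 - x / ((m : ℝ) + 1)) := by
  induction n with
  | zero => norm_num at h; linarith
  | succ n ih =>
    rw [Finset.sum_range_succ]
    have hn1 : (0 : ℝ) < (n : ℝ) + 1 := by positivity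
    push_cast
    push_cast at h
    have hb : 1 - x / ((n : ℝ) + 1) ≤ max 0 (1 - x / ((n : ℝ) + 1)) := le_max_right _ _
    by_cases hxn : x ≤ n
    · have ih' := ih hxn
      have hn0 : (0 : ℝ) < n := lt_of_lt_of_le hx hxn
      have hlog : Real.log (((n : ℝ) + 1) / x) = Real.log ((n : ℝ) / x) + Real.log (((n : ℝ) + 1) / n) := by
        rw [← Real.log_mul (by positivity) (by positivity)]
        congr 1
        field_simp
      have h2 : 1 - (((n : ℝ) + 1) / n)⁻¹ ≤ Real.log (((n : ℝ) + 1) / n) :=
        Real.one_sub_inv_le_log_of_pos (by positivity)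
      have h3 : 1 - (((n : ℝ) + 1) / n)⁻¹ = 1 / ((n : ℝ) + 1) := by
        field_simp
        ring
      rw [hlog]
      have h4 : x * (1 / ((n : ℝ) + 1)) ≤ x * Real.log (((n : ℝ) + 1) / n) := by
        apply mul_le_mul_of_nonneg_left _ hx.le
        rw [← h3]; exact h2
      have h5 : x / ((n : ℝ) + 1) = x * (1 / ((n : ℝ) + 1)) := by ring
      rw [h5] at hb ⊢
      linarith
    · push Not at hxn
      have h0 : (0 : ℝ) ≤ ∑ m ∈ range n, max 0 (1 - x / ((m : ℝ) + 1)) :=
        Finset.sum_nonneg (fun _ _ => le_max_left _ _)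
      have h2 : 1 - (((n : ℝ) + 1) / x)⁻¹ ≤ Real.log (((n : ℝ) + 1) / x) :=
        Real.one_sub_inv_le_log_of_pos (by positivity)
      have h3 : (((n : ℝ) + 1) / x)⁻¹ = x / ((n : ℝ) + 1) := by rw [inv_div]
      rw [h3] at h2
      have h4 := mul_le_mul_of_nonneg_left h2 hx.le
      have h5 : x / ((n : ℝ) + 1) ≤ 1 := by rw [div_le_one hn1]; exact h
      have h6 : ((n : ℝ) + 1) * (x / ((n : ℝ) + 1)) = x := by field_simp
      have h7 : ((n : ℝ) + 1 - x) * (1 - x / ((n : ℝ) + 1)) ≤ 1 * (1 - x / ((n : ℝ) + 1)) := by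
        apply mul_le_mul_of_nonneg_right <;> linarith
      nlinarith

theorem num2 (L x : ℝ) (hL : 0 < L) (hL1 : L ≤ 1) (hx : 0 ≤ x) (n : ℕ) :
    (1 - Real.exp (-L)) * n ≤ L * x + ∑ m ∈ range n, max 0 (1 - x / ((m : ℝ) + 1)) := by
  have hexp : 1 - Real.exp (-L) ≤ L := by have := Real.add_one_le_exp (-L); linarith
  have hexp0 : 0 < Real.exp (-L) := Real.exp_pos _
  rcases hx.eq_or_lt with h0 | h0
  · subst h0
    simp only [mul_zero, zero_div, sub_zero, zero_add]
    rw [max_eq_right (by norm_num : (0 : ℝ) ≤ 1)]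
    simp only [Finset.sum_const, Finset.card_range, nsmul_eq_mul, mul_one]
    have hn : (0 : ℝ) ≤ n := Nat.cast_nonneg n
    nlinarith
  · by_cases hxn : x ≤ n
    · have h1 := num1 x h0 n hxn
      have hn : (0 : ℝ) < n := lt_of_lt_of_le h0 hxn
      have h2 : Real.log ((n : ℝ) / x * Real.exp (-L)) ≤ (n : ℝ) / x * Real.exp (-L) - 1 :=
        Real.log_le_sub_one_of_pos (by positivity)
      rw [Real.log_mul (by positivity) hexp0.ne', Real.log_exp] at h2
      have h3 := mul_le_mul_of_nonneg_left h2 h0.le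
      have h4 : x * ((n : ℝ) / x * Real.exp (-L) - 1) = n * Real.exp (-L) - x := by field_simp
      rw [h4] at h3
      nlinarith
    · push Not at hxn
      have h0' : (0 : ℝ) ≤ ∑ m ∈ range n, max 0 (1 - x / ((m : ℝ) + 1)) :=
        Finset.sum_nonneg (fun _ _ => le_max_left _ _)
      have hn : (0 : ℝ) ≤ n := Nat.cast_nonneg n
      have h1 : (1 - Real.exp (-L)) * n ≤ L * n := mul_le_mul_of_nonneg_right hexp hn
      have h2 : L * n ≤ L * x := mul_le_mul_of_nonneg_left hxn.le hL.le
      linarith

/-- scaled form -/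
theorem num3 (L W D : ℝ) (hL : 0 < L) (hL1 : L ≤ 1) (hW : 0 ≤ W) (hD : 0 ≤ D) (n : ℕ) :
    D * (1 - Real.exp (-L)) * n ≤ W + ∑ m ∈ range n, max 0 (D - W / (L * ((m : ℝ) + 1))) := by
  rcases hD.eq_or_lt with h0 | h0
  · subst h0
    have h0' : (0 : ℝ) ≤ ∑ m ∈ range n, max 0 (0 - W / (L * ((m : ℝ) + 1))) :=
      Finset.sum_nonneg (fun _ _ => le_max_left _ _)
    simp only [zero_mul]
    linarith
  · have h1 := num2 L (W / (L * D)) hL hL1 (by positivity) n
    have h2 := mul_le_mul_of_nonneg_left h1 h0.le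
    have h3 : D * (L * (W / (L * D)) + ∑ m ∈ range n, max 0 (1 - W / (L * D) / ((m : ℝ) + 1)))
        = W + ∑ m ∈ range n, max 0 (D - W / (L * ((m : ℝ) + 1))) := by
      rw [mul_add, Finset.mul_sum]
      congr 1
      · field_simp
      · apply Finset.sum_congr rfl
        intro m _
        rw [mul_max_of_nonneg _ _ h0.le, mul_zero]
        congr 1
        have : ((m : ℝ) + 1) ≠ 0 := by positivity
        field_simp
    rw [h3] at h2
    linarith

theorem ell_pos_le : ∀ d : ℕ, 0 < ell d ∧ ell d ≤ 1
  | 0 => by simp [ell]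
  | 1 => by simp [ell]
  | (d + 2) => by
    have h := ell_pos_le (d + 1)
    have : ell (d + 2) = 1 - Real.exp (-ell (d + 1)) := rfl
    rw [this]
    have h1 : Real.exp (-ell (d + 1)) < 1 := by
      rw [Real.exp_lt_one_iff]; linarith [h.1]
    have h2 := Real.exp_pos (-ell (d + 1))
    constructor <;> linarith

/-- the fractional lower bound, for weighted families of hyperplanes and any demand `D` -/
theorem frac_lower : ∀ (d : ℕ) (ι : Type) (s : Finset ι) (a : ι → Fin (d + 1) → ℝ) (b : ι → ℝ) (w : ι → ℝ)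
    (_ : ∀ i ∈ s, 0 ≤ w i) (_ : ∀ i ∈ s, a i ≠ 0) (D : ℝ) (_ : 0 ≤ D) (n : ℕ)
    (_ : ∀ x : Fin (d + 1) → ℕ, ∑ j, x j < n →
      D ≤ ∑ i ∈ s, if ∑ j, a i j * (x j : ℝ) = b i then w i else 0),
    D * ell (d + 1) * n ≤ ∑ i ∈ s, w i := by
  intro d
  induction d with
  | zero =>
    intro ι s a b w hw ha D hD n hc
    have h1 : ∀ x ∈ range n, D ≤ ∑ i ∈ s, if a i 0 * (x : ℝ) = b i then w i else 0 := by
      intro x hx
      have := hc (fun _ => x) (by simpa using hx)
      simpa using this
    have h2 := Finset.sum_le_sum h1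
    simp only [Finset.sum_const, Finset.card_range, nsmul_eq_mul] at h2
    have h3 : ∑ x ∈ range n, ∑ i ∈ s, (if a i 0 * (x : ℝ) = b i then w i else 0) ≤ ∑ i ∈ s, w i := by
      rw [Finset.sum_comm]
      apply Finset.sum_le_sum
      intro i hi
      rw [← Finset.sum_filter, Finset.sum_const, nsmul_eq_mul]
      have hc1 : ((range n).filter (fun x : ℕ => a i 0 * (x : ℝ) = b i)).card ≤ 1 := by
        rw [Finset.card_le_one]
        intro p hp q hq
        simp only [Finset.mem_filter] at hp hq
        have ha0 : a i 0 ≠ 0 := by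
          intro h0
          apply ha i hi
          funext j
          have : j = 0 := Fin.ext (by have := j.2; simp only [Fin.val_zero]; omega)
          rw [this]; exact h0
        have : (p : ℝ) = q := mul_left_cancel₀ ha0 (hp.2.trans hq.2.symm)
        exact_mod_cast this
      have hc2 : (((range n).filter (fun x : ℕ => a i 0 * (x : ℝ) = b i)).card : ℝ) ≤ 1 := by exact_mod_cast hc1
      have := mul_le_mul_of_nonneg_right hc2 (hw i hi)
      simpa using this
    have h4 : ell (0 + 1) = 1 := rfl
    rw [h4]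
    linarith
  | succ d ih =>
    intro ι s a b w hw ha D hD n hc
    classical
    obtain ⟨hL0, hL1⟩ := ell_pos_le (d + 1)
    set L := ell (d + 1) with hL
    set P := s.filter (fun i => Fin.tail (a i) = 0) with hP
    set Q := s.filter (fun i => ¬ Fin.tail (a i) = 0) with hQ
    set W := ∑ i ∈ Q, w i with hWdef
    have hW0 : 0 ≤ W := Finset.sum_nonneg (fun i hi => hw i (Finset.mem_filter.1 hi).1)
    have hsplit : ∑ i ∈ s, w i = ∑ i ∈ P, w i + W := (Finset.sum_filter_add_sum_filter_not s _ _).symm
    let u : ℕ → ℝ := fun c => ∑ i ∈ P, if a i 0 * (c : ℝ) = b i then w i else 0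
    have hu0 : ∀ c, 0 ≤ u c := by
      intro c
      apply Finset.sum_nonneg
      intro i hi
      split_ifs
      · exact hw i (Finset.mem_filter.1 hi).1
      · exact le_rfl
    -- one layer
    have hlayer : ∀ c, c < n → (D - u c) * L * ((n - c : ℕ) : ℝ) ≤ W := by
      intro c hcn
      by_cases hneg : D - u c < 0
      · have : (D - u c) * L * ((n - c : ℕ) : ℝ) ≤ 0 := by
          apply mul_nonpos_of_nonpos_of_nonneg
          · exact mul_nonpos_of_nonpos_of_nonneg hneg.le hL0.le
          · positivity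
        linarith
      · push Not at hneg
        refine ih ι Q (fun i => Fin.tail (a i)) (fun i => b i - a i 0 * (c : ℝ)) w
          (fun i hi => hw i (Finset.mem_filter.1 hi).1) (fun i hi => (Finset.mem_filter.1 hi).2)
          (D - u c) hneg (n - c) ?_
        intro x hx
        have h1 := hc (Fin.cons c x) (by
          rw [Fin.sum_univ_succ]
          simp only [Fin.cons_zero, Fin.cons_succ]
          omega)
        rw [← Finset.sum_filter_add_sum_filter_not s (fun i => Fin.tail (a i) = 0)] at h1
        have e1 : ∑ i ∈ s.filter (fun i => Fin.tail (a i) = 0),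
            (if ∑ j, a i j * (((Fin.cons c x : Fin (d + 1 + 1) → ℕ) j : ℕ) : ℝ) = b i then w i else 0) = u c := by
          apply Finset.sum_congr rfl
          intro i hi
          have hi2 := (Finset.mem_filter.1 hi).2
          have : ∑ j, a i j * (((Fin.cons c x : Fin (d + 1 + 1) → ℕ) j : ℕ) : ℝ) = a i 0 * (c : ℝ) := by
            rw [Fin.sum_univ_succ]
            simp only [Fin.cons_zero, Fin.cons_succ]
            have : ∀ j : Fin (d + 1), a i j.succ = 0 := fun j => congrFun hi2 j
            simp [this]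
          rw [this]
        have e2 : ∑ i ∈ s.filter (fun i => ¬ Fin.tail (a i) = 0),
            (if ∑ j, a i j * (((Fin.cons c x : Fin (d + 1 + 1) → ℕ) j : ℕ) : ℝ) = b i then w i else 0)
            = ∑ i ∈ Q, if ∑ j, Fin.tail (a i) j * (x j : ℝ) = b i - a i 0 * (c : ℝ) then w i else 0 := by
          apply Finset.sum_congr rfl
          intro i hi
          have : (∑ j, a i j * (((Fin.cons c x : Fin (d + 1 + 1) → ℕ) j : ℕ) : ℝ) = b i) ↔
              (∑ j, Fin.tail (a i) j * (x j : ℝ) = b i - a i 0 * (c : ℝ)) := by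
            rw [Fin.sum_univ_succ]
            simp only [Fin.cons_zero, Fin.cons_succ, Fin.tail]
            constructor <;> intro h <;> linarith
          simp only [this]
        rw [e1, e2] at h1
        linarith
    -- lower bound for each layer weight
    have hu1 : ∀ c, c < n → max 0 (D - W / (L * (((n - c : ℕ)) : ℝ))) ≤ u c := by
      intro c hcn
      apply max_le (hu0 c)
      have hpos : (0 : ℝ) < ((n - c : ℕ) : ℝ) := by
        have : 0 < n - c := by omega
        exact_mod_cast this
      have h1 := hlayer c hcn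
      have h2 : D - u c ≤ W / (L * ((n - c : ℕ) : ℝ)) := by
        rw [le_div_iff₀ (by positivity)]
        linarith
      linarith
    -- the parallel weights
    have hsumu : ∑ c ∈ range n, u c ≤ ∑ i ∈ P, w i := by
      rw [Finset.sum_comm]
      apply Finset.sum_le_sum
      intro i hi
      rw [← Finset.sum_filter, Finset.sum_const, nsmul_eq_mul]
      have hi1 := (Finset.mem_filter.1 hi).1
      have hi2 := (Finset.mem_filter.1 hi).2
      have hc1 : ((range n).filter (fun x : ℕ => a i 0 * (x : ℝ) = b i)).card ≤ 1 := by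
        rw [Finset.card_le_one]
        intro p hp q hq
        simp only [Finset.mem_filter] at hp hq
        have ha0 : a i 0 ≠ 0 := by
          intro h0
          apply ha i hi1
          funext j
          refine Fin.cases h0 (fun j => ?_) j
          exact congrFun hi2 j
        have : (p : ℝ) = q := mul_left_cancel₀ ha0 (hp.2.trans hq.2.symm)
        exact_mod_cast this
      have hc2 : (((range n).filter (fun x : ℕ => a i 0 * (x : ℝ) = b i)).card : ℝ) ≤ 1 := by exact_mod_cast hc1
      have := mul_le_mul_of_nonneg_right hc2 (hw i hi1)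
      simpa using this
    have hre : ∑ c ∈ range n, max 0 (D - W / (L * (((n - c : ℕ)) : ℝ)))
        = ∑ m ∈ range n, max 0 (D - W / (L * ((m : ℝ) + 1))) := by
      rw [← Finset.sum_range_reflect (fun m => max 0 (D - W / (L * ((m : ℝ) + 1)))) n]
      apply Finset.sum_congr rfl
      intro c hcr
      have hcn := Finset.mem_range.1 hcr
      have : ((n - c : ℕ) : ℝ) = ((n - 1 - c : ℕ) : ℝ) + 1 := by
        have : n - c = (n - 1 - c) + 1 := by omega
        rw [this]; push_cast; ring
      rw [this]
    have hfin := num3 L W D hL0 hL1 hW0 hD n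
    have hsum1 : ∑ c ∈ range n, max 0 (D - W / (L * (((n - c : ℕ)) : ℝ))) ≤ ∑ c ∈ range n, u c :=
      Finset.sum_le_sum (fun c hcr => hu1 c (Finset.mem_range.1 hcr))
    have hell : ell (d + 1 + 1) = 1 - Real.exp (-L) := rfl
    rw [hell, hsplit]
    rw [hre] at hsum1
    linarith

end Pool.Agent.Helper910.Tri
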