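import Mathlib
import Pool.Agent.Helper910.Tri1

namespace Pool.Agent.Helper910.Tri

open Finset

theorem pade (L : ℝ) (h0 : 0 ≤ L) (_h1 : L ≤ 1) : (2 - L) * Real.exp L ≤ 2 + L := by
  have key : AntitoneOn (fun x : ℝ => (2 - x) * Real.exp x - (2 + x)) (Set.Ici 0) := by
    apply antitoneOn_of_deriv_nonpos (convex_Ici 0)
    · fun_prop
    · fun_prop
    · intro x hx
      rw [interior_Ici] at hx
      have hx0 : 0 < x := hx
      have hd : HasDerivAt (fun x : ℝ => (2 - x) * Real.exp x - (2 + x))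
          ((-1) * Real.exp x + (2 - x) * Real.exp x - 1) x := by
        have e1 : HasDerivAt (fun x : ℝ => 2 - x) (-1) x := by
          simpa using (hasDerivAt_id x).const_sub 2
        have e2 := e1.mul (Real.hasDerivAt_exp x)
        have e3 : HasDerivAt (fun x : ℝ => 2 + x) 1 x := by
          simpa using (hasDerivAt_id x).const_add 2
        exact e2.sub e3
      rw [hd.deriv]
      have h2 : (1 - x) * Real.exp x ≤ 1 := by
        have h3 : 1 - x ≤ Real.exp (-x) := by have := Real.add_one_le_exp (-x); linarith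
        have h4 := mul_le_mul_of_nonneg_right h3 (Real.exp_pos x).le
        rw [← Real.exp_add] at h4
        simpa using h4
      linarith
  have := key (Set.mem_Ici.2 le_rfl) (Set.mem_Ici.2 h0) h0
  simp only [Real.exp_zero] at this
  linarith

theorem ell_le (d : ℕ) (hd : 1 ≤ d) : ell d ≤ 2 / ((d : ℝ) + 1) := by
  induction d, hd using Nat.le_induction with
  | base => norm_num [ell]
  | succ d hd ih =>
    obtain ⟨h0, h1⟩ := ell_pos_le d
    obtain ⟨e, rfl⟩ : ∃ e, d = e + 1 := ⟨d - 1, by omega⟩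
    have he : ell (e + 1 + 1) = 1 - Real.exp (-ell (e + 1)) := rfl
    rw [he]
    set L := ell (e + 1)
    have h2 := pade L h0.le h1
    have h3 : (2 - L) / (2 + L) ≤ Real.exp (-L) := by
      rw [div_le_iff₀ (by linarith), Real.exp_neg, ← div_eq_inv_mul, le_div_iff₀ (Real.exp_pos _)]
      exact h2
    have h4 : 1 - Real.exp (-L) ≤ 2 * L / (2 + L) := by
      have : 1 - (2 - L) / (2 + L) = 2 * L / (2 + L) := by
        field_simp
        ring
      linarith
    refine h4.trans ?_
    push_cast at ih ⊢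
    rw [div_le_div_iff₀ (by linarith) (by positivity)]
    rw [le_div_iff₀ (by positivity)] at ih
    nlinarith

theorem ell_ge (d : ℕ) (hd : 1 ≤ d) : 2 / ((d : ℝ) + (harmonic d : ℝ)) ≤ ell d := by
  induction d, hd using Nat.le_induction with
  | base => norm_num [ell]
  | succ d hd ih =>
    obtain ⟨h0, h1⟩ := ell_pos_le d
    have hle := ell_le d hd
    obtain ⟨e, rfl⟩ : ∃ e, d = e + 1 := ⟨d - 1, by omega⟩
    have he : ell (e + 1 + 1) = 1 - Real.exp (-ell (e + 1)) := rfl
    rw [he]
    set L := ell (e + 1)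
    set H : ℝ := (harmonic (e + 1) : ℝ) with hH
    have hHpos : 0 < H := by
      rw [hH]
      exact_mod_cast harmonic_pos (by omega)
    have hHs : ((harmonic (e + 1 + 1) : ℚ) : ℝ) = H + 1 / ((e : ℝ) + 2) := by
      rw [harmonic_succ, hH]
      push_cast
      ring
    rw [hHs]
    -- exp bound
    have hq : 1 + L + L ^ 2 / 2 ≤ Real.exp L := Real.quadratic_le_exp_of_nonneg h0.le
    have h3 : Real.exp (-L) ≤ 1 / (1 + L + L ^ 2 / 2) := by
      rw [Real.exp_neg, ← one_div]
      apply one_div_le_one_div_of_le (by positivity) hq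
    have h4 : 1 - 1 / (1 + L + L ^ 2 / 2) ≤ 1 - Real.exp (-L) := by linarith
    refine le_trans ?_ h4
    have h5 : 1 - 1 / (1 + L + L ^ 2 / 2) = (2 * L + L ^ 2) / (2 + 2 * L + L ^ 2) := by
      field_simp
      ring
    rw [h5]
    push_cast at ih hle ⊢
    set x : ℝ := (e : ℝ) with hx
    have hx0 : 0 ≤ x := Nat.cast_nonneg e
    rw [div_le_div_iff₀ (by positivity) (by positivity)]
    rw [div_le_iff₀ (by positivity)] at ih
    -- `2 ≤ L (x+1+H)`, `L ≤ 2/(x+2)`; want `2 (2+2L+L²) ≤ (2L+L²)(x+2+H+1/(x+2))`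
    have hLx : L / 2 ≤ 1 / (x + 2) := by
      rw [le_div_iff₀ (by positivity)] at hle ⊢
      nlinarith
    have h6 : x + 1 + H + 1 + L / 2 ≤ x + 1 + 1 + (H + 1 / (x + 2)) := by linarith
    have h7 : (2 * L + L ^ 2) * (x + 1 + H + 1 + L / 2) ≤ (2 * L + L ^ 2) * (x + 1 + 1 + (H + 1 / (x + 2))) :=
      mul_le_mul_of_nonneg_left h6 (by positivity)
    refine le_trans ?_ h7
    nlinarith [mul_nonneg h0.le h0.le, mul_le_mul_of_nonneg_left ih (by positivity : (0:ℝ) ≤ 2 + L), pow_pos h0 3]

end Pool.Agent.Helper910.Tri
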