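import Mathlib

/-!
# k-fold hyperplane covers of the triangular grid (MP_aedd95_co): definitions
-/

namespace Pool.Agent.Helper910.Tri

/-- the triangular grid `T_d(n)`: the points of `ℤ_{≥0}^d` with `x_1 + ... + x_d ≤ n - 1` -/
def Grid (d n : ℕ) : Set (Fin d → ℕ) := {x | ∑ i, x i < n}

/-- an affine hyperplane of `ℝ^d` -/
def IsHyperplane {d : ℕ} (H : Set (Fin d → ℝ)) : Prop :=
  ∃ a : Fin d → ℝ, a ≠ 0 ∧ ∃ b : ℝ, H = {x | ∑ i, a i * x i = b}

open Classical in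
/-- `M` is a finite multiset of hyperplanes and every point of `T_d(n)` is in at least `k` of its members -/
def IsCover (d n k : ℕ) (M : Multiset (Set (Fin d → ℝ))) : Prop :=
  (∀ H ∈ M, IsHyperplane H) ∧
    ∀ x ∈ Grid d n, k ≤ Multiset.card (M.filter (fun H => (fun i => (x i : ℝ)) ∈ H))

/-- `f(n,d,k)`: the least cardinality of a `k`-cover of `T_d(n)` -/
noncomputable def f (n d k : ℕ) : ℕ :=
  sInf {m | ∃ M : Multiset (Set (Fin d → ℝ)), IsCover d n k M ∧ Multiset.card M = m}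

/-- `C` is the slope `C_{d,k}`: `f(n,d,k) = C n + O(1)` as `n → ∞` -/
def IsSlope (d k : ℕ) (C : ℝ) : Prop :=
  ∃ B : ℝ, ∀ n : ℕ, 1 ≤ n → |(f n d k : ℝ) - C * n| ≤ B

end Pool.Agent.Helper910.Tri
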