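import Mathlib
import Pool.Agent.Helper910.TriDefs
import Pool.Agent.Helper910.Tri1

namespace Pool.Agent.Helper910.Tri

open Finset

/-- weights from a cover: the general form of double counting against weights -/
theorem cover_weights {d n k : ℕ} {M : Multiset (Set (Fin d → ℝ))} (hM : IsCover d n k M) :
    ∃ (s : Finset (Set (Fin d → ℝ))) (a : Set (Fin d → ℝ) → Fin d → ℝ) (b : Set (Fin d → ℝ) → ℝ)
      (w : Set (Fin d → ℝ) → ℝ), (∀ i ∈ s, 0 ≤ w i) ∧ (∀ i ∈ s, a i ≠ 0) ∧
      (∀ x : Fin d → ℕ, ∑ j, x j < n → (k : ℝ) ≤ ∑ i ∈ s, if ∑ j, a i j * (x j : ℝ) = b i then w i else 0) ∧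
      ∑ i ∈ s, w i = (Multiset.card M : ℝ) := by
  classical
  obtain ⟨h1, h2⟩ := hM
  choose! a ha b hb using h1
  refine ⟨M.toFinset, a, b, fun H => (M.count H : ℝ), fun _ _ => Nat.cast_nonneg _,
    fun H hH => ha H (Multiset.mem_toFinset.1 hH), ?_, ?_⟩
  · intro x hx
    have h3 := h2 x hx
    have h4 := Multiset.toFinset_sum_count_eq (M.filter (fun H => (fun i => (x i : ℝ)) ∈ H))
    rw [Multiset.toFinset_filter] at h4
    have h5 : ∑ H ∈ M.toFinset.filter (fun H => (fun i => (x i : ℝ)) ∈ H),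
        Multiset.count H (M.filter (fun H => (fun i => (x i : ℝ)) ∈ H))
        = ∑ H ∈ M.toFinset.filter (fun H => (fun i => (x i : ℝ)) ∈ H), Multiset.count H M := by
      apply Finset.sum_congr rfl
      intro H hH
      exact Multiset.count_filter_of_pos (Finset.mem_filter.1 hH).2
    rw [h5] at h4
    have h6 : k ≤ ∑ H ∈ M.toFinset.filter (fun H => (fun i => (x i : ℝ)) ∈ H), Multiset.count H M := by
      rw [h4]; convert h3
    have h7 : (k : ℝ) ≤ ∑ H ∈ M.toFinset.filter (fun H => (fun i => (x i : ℝ)) ∈ H), (Multiset.count H M : ℝ) := by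
      exact_mod_cast h6
    refine h7.trans (le_of_eq ?_)
    rw [Finset.sum_filter]
    apply Finset.sum_congr rfl
    intro H hH
    have h8 := hb H (Multiset.mem_toFinset.1 hH)
    have h9 : ((fun i => (x i : ℝ)) ∈ H) ↔ ∑ j, a H j * (x j : ℝ) = b H := by
      constructor
      · intro h
        rw [h8] at h
        exact h
      · intro h
        rw [h8]
        exact h
    simp only [h9]
  · have := Multiset.toFinset_sum_count_eq M
    show ∑ i ∈ M.toFinset, (Multiset.count i M : ℝ) = _
    exact_mod_cast this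

/-- every `k`-cover of `T_d(n)` has at least `k ell(d) n` members -/
theorem cover_lower {d n k : ℕ} (hd : 1 ≤ d) {M : Multiset (Set (Fin d → ℝ))} (hM : IsCover d n k M) :
    (k : ℝ) * ell d * n ≤ (Multiset.card M : ℝ) := by
  obtain ⟨e, rfl⟩ : ∃ e, d = e + 1 := ⟨d - 1, by omega⟩
  obtain ⟨s, a, b, w, hw, ha, hc, hs⟩ := cover_weights hM
  rw [← hs]
  exact frac_lower e _ s a b w hw ha k (Nat.cast_nonneg k) n hc

/-- the planes used for the upper bound -/
def plane (d n : ℕ) : Option (Fin d) → ℕ → Set (Fin d → ℝ)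
  | none, j => {x | ∑ i, x i = (n : ℝ) - 1 - j}
  | some i, j => {x | x i = j}

theorem plane_isHyperplane {d : ℕ} (hd : 1 ≤ d) (n : ℕ) (o : Option (Fin d)) (j : ℕ) :
    IsHyperplane (plane d n o j) := by
  classical
  cases o with
  | none =>
    refine ⟨fun _ => 1, ?_, (n : ℝ) - 1 - j, ?_⟩
    · intro h
      have := congrFun h ⟨0, hd⟩
      simp at this
    · simp [plane]
  | some i =>
    refine ⟨Pi.single i 1, ?_, (j : ℝ), ?_⟩
    · intro h
      have := congrFun h i
      simp at this
    · ext x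
      simp [plane, Pi.single_apply]

/-- the multiplicities -/
noncomputable def mult (k N t j : ℕ) : ℕ := ⌈((k : ℝ) * (2 * t - j)) / (N * t)⌉₊

noncomputable def coverM (d k t : ℕ) : Multiset (Set (Fin d → ℝ)) :=
  ∑ p ∈ (Finset.univ : Finset (Option (Fin d))) ×ˢ range (2 * t),
    Multiset.replicate (mult k (d + 1) t p.2) (plane d ((d + 1) * t) p.1 p.2)

theorem sum_rev (m : ℕ) : ∑ j ∈ range m, ((m : ℝ) - j) = m * (m + 1) / 2 := by
  induction m with
  | zero => simp
  | succ m ih =>
    rw [Finset.sum_range_succ]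
    have : ∑ j ∈ range m, (((m + 1 : ℕ) : ℝ) - j) = ∑ j ∈ range m, ((m : ℝ) - j) + m := by
      have h : ∀ j ∈ range m, (((m + 1 : ℕ) : ℝ) - j) = ((m : ℝ) - j) + 1 := by
        intro j _; push_cast; ring
      rw [Finset.sum_congr rfl h, Finset.sum_add_distrib]
      simp
    rw [this, ih]
    push_cast
    ring

theorem card_coverM (d k t : ℕ) (ht : 1 ≤ t) :
    (Multiset.card (coverM d k t) : ℝ) ≤ 2 * k * t + k + 2 * ((d : ℝ) + 1) * t := by
  unfold coverM
  rw [Multiset.card_sum]
  simp only [Multiset.card_replicate]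
  rw [Finset.sum_product]
  simp only [Finset.sum_const, Finset.card_univ, Fintype.card_option, Fintype.card_fin, smul_eq_mul]
  push_cast
  have ht0 : (0 : ℝ) < t := by exact_mod_cast ht
  have hN : (0 : ℝ) < (d : ℝ) + 1 := by positivity
  have h1 : ∀ j ∈ range (2 * t), ((mult k (d + 1) t j : ℕ) : ℝ) ≤
      ((k : ℝ) / (((d : ℝ) + 1) * t)) * (((2 * t : ℕ) : ℝ) - j) + 1 := by
    intro j hj
    unfold mult
    have hj' : (j : ℝ) < 2 * t := by exact_mod_cast Finset.mem_range.1 hj
    have h2 : (0 : ℝ) ≤ ((k : ℝ) * (2 * t - j)) / ((((d + 1 : ℕ) : ℕ) : ℝ) * t) := by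
      apply div_nonneg
      · apply mul_nonneg (Nat.cast_nonneg _); linarith
      · positivity
    have h3 := (Nat.ceil_lt_add_one h2).le
    refine h3.trans (le_of_eq ?_)
    push_cast
    ring
  have h2 := Finset.sum_le_sum h1
  rw [Finset.sum_add_distrib, ← Finset.mul_sum, sum_rev] at h2
  simp only [Finset.sum_const, Finset.card_range, nsmul_eq_mul, mul_one] at h2
  have h3 := mul_le_mul_of_nonneg_left h2 hN.le
  refine h3.trans (le_of_eq ?_)
  push_cast
  field_simp

theorem isCover_coverM {d : ℕ} (hd : 1 ≤ d) (k t : ℕ) (ht : 1 ≤ t) :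
    IsCover d ((d + 1) * t) k (coverM d k t) := by
  classical
  refine ⟨?_, ?_⟩
  · intro H hH
    unfold coverM at hH
    rw [Multiset.mem_sum] at hH
    obtain ⟨p, _, hp⟩ := hH
    rw [Multiset.eq_of_mem_replicate hp]
    exact plane_isHyperplane hd _ _ _
  · intro x hx
    have hx' : ∑ i, x i < (d + 1) * t := hx
    have ht0 : (0 : ℝ) < t := by exact_mod_cast ht
    have hN : (0 : ℝ) < (d : ℝ) + 1 := by positivity
    rw [← Multiset.countP_eq_card_filter]
    unfold coverM
    have e1 : Multiset.countP (fun H => (fun i => (x i : ℝ)) ∈ H)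
        (∑ p ∈ (Finset.univ : Finset (Option (Fin d))) ×ˢ range (2 * t),
          Multiset.replicate (mult k (d + 1) t p.2) (plane d ((d + 1) * t) p.1 p.2))
        = ∑ p ∈ (Finset.univ : Finset (Option (Fin d))) ×ˢ range (2 * t),
          Multiset.countP (fun H => (fun i => (x i : ℝ)) ∈ H)
            (Multiset.replicate (mult k (d + 1) t p.2) (plane d ((d + 1) * t) p.1 p.2)) := by
      have := map_sum (Multiset.countPAddMonoidHom (fun H : Set (Fin d → ℝ) => (fun i => (x i : ℝ)) ∈ H))
        (fun p : Option (Fin d) × ℕ => Multiset.replicate (mult k (d + 1) t p.2) (plane d ((d + 1) * t) p.1 p.2))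
        ((Finset.univ : Finset (Option (Fin d))) ×ˢ range (2 * t))
      exact this
    rw [e1, Finset.sum_product]
    -- the values
    let v : Option (Fin d) → ℕ := fun o => match o with
      | none => (d + 1) * t - 1 - ∑ i, x i
      | some i => x i
    have hvsum : (∑ o, (v o : ℝ)) = ((d : ℝ) + 1) * t - 1 := by
      rw [Fintype.sum_option]
      have h1 : v none = (d + 1) * t - 1 - ∑ i, x i := rfl
      have h2 : ∀ i, v (some i) = x i := fun _ => rfl
      simp only [h1, h2]
      have h3 : (d + 1) * t - 1 - ∑ i, x i + ∑ i, x i + 1 = (d + 1) * t := by omega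
      have h4 : (((d + 1) * t - 1 - ∑ i, x i : ℕ) : ℝ) + ∑ i, (x i : ℝ) + 1 = ((d : ℝ) + 1) * t := by
        exact_mod_cast h3
      linarith
    have hmem : ∀ o, (fun i => (x i : ℝ)) ∈ plane d ((d + 1) * t) o (v o) := by
      intro o
      cases o with
      | none =>
        have h1 : v none = (d + 1) * t - 1 - ∑ i, x i := rfl
        have h3 : (d + 1) * t - 1 - ∑ i, x i + ∑ i, x i + 1 = (d + 1) * t := by omega
        have h4 : (((d + 1) * t - 1 - ∑ i, x i : ℕ) : ℝ) + ∑ i, (x i : ℝ) + 1 = (((d + 1) * t : ℕ) : ℝ) := by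
          exact_mod_cast h3
        show ∑ i, (x i : ℝ) = (((d + 1) * t : ℕ) : ℝ) - 1 - (v none : ℝ)
        rw [h1]
        linarith
      | some i => rfl
    have hterm : ∀ o : Option (Fin d), ((k : ℝ) / (((d : ℝ) + 1) * t)) * (2 * t - v o) ≤
        ((∑ j ∈ range (2 * t), Multiset.countP (fun H => (fun i => (x i : ℝ)) ∈ H)
            (Multiset.replicate (mult k (d + 1) t j) (plane d ((d + 1) * t) o j)) : ℕ) : ℝ) := by
      intro o
      by_cases hv : v o < 2 * t
      · have h1 : Multiset.countP (fun H => (fun i => (x i : ℝ)) ∈ H)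
            (Multiset.replicate (mult k (d + 1) t (v o)) (plane d ((d + 1) * t) o (v o)))
            = mult k (d + 1) t (v o) := by
          rw [Multiset.countP_eq_card_filter, Multiset.filter_eq_self.2, Multiset.card_replicate]
          intro H hH
          rw [Multiset.eq_of_mem_replicate hH]
          exact hmem o
        have h2 : Multiset.countP (fun H => (fun i => (x i : ℝ)) ∈ H)
            (Multiset.replicate (mult k (d + 1) t (v o)) (plane d ((d + 1) * t) o (v o)))
            ≤ ∑ j ∈ range (2 * t), Multiset.countP (fun H => (fun i => (x i : ℝ)) ∈ H)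
            (Multiset.replicate (mult k (d + 1) t j) (plane d ((d + 1) * t) o j)) :=
          Finset.single_le_sum (f := fun j => Multiset.countP (fun H => (fun i => (x i : ℝ)) ∈ H)
            (Multiset.replicate (mult k (d + 1) t j) (plane d ((d + 1) * t) o j))) (fun _ _ => Nat.zero_le _)
            (Finset.mem_range.2 hv)
        rw [h1] at h2
        have h3 : ((mult k (d + 1) t (v o) : ℕ) : ℝ) ≤
            ((∑ j ∈ range (2 * t), Multiset.countP (fun H => (fun i => (x i : ℝ)) ∈ H)
            (Multiset.replicate (mult k (d + 1) t j) (plane d ((d + 1) * t) o j)) : ℕ) : ℝ) := by exact_mod_cast h2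
        refine le_trans ?_ h3
        unfold mult
        refine le_trans (le_of_eq ?_) (Nat.le_ceil _)
        push_cast
        ring
      · push Not at hv
        have hv' : (2 : ℝ) * t ≤ v o := by exact_mod_cast hv
        have h1 : ((k : ℝ) / (((d : ℝ) + 1) * t)) * (2 * t - v o) ≤ 0 := by
          apply mul_nonpos_of_nonneg_of_nonpos
          · positivity
          · linarith
        exact h1.trans (Nat.cast_nonneg _)
    have hsum := Finset.sum_le_sum (fun (o : Option (Fin d)) (_ : o ∈ (Finset.univ : Finset (Option (Fin d)))) => hterm o)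
    rw [← Finset.mul_sum, Finset.sum_sub_distrib, hvsum] at hsum
    simp only [Finset.sum_const, Finset.card_univ, Fintype.card_option, Fintype.card_fin, nsmul_eq_mul] at hsum
    have hk : (k : ℝ) ≤ (k : ℝ) / (((d : ℝ) + 1) * t) * (((d + 1 : ℕ) : ℝ) * (2 * t) - (((d : ℝ) + 1) * t - 1)) := by
      have : (k : ℝ) / (((d : ℝ) + 1) * t) * (((d + 1 : ℕ) : ℝ) * (2 * t) - (((d : ℝ) + 1) * t - 1))
          = k + k / (((d : ℝ) + 1) * t) := by
        push_cast
        field_simp
        ring
      rw [this]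
      have : (0 : ℝ) ≤ k / (((d : ℝ) + 1) * t) := by positivity
      linarith
    have := hk.trans hsum
    exact_mod_cast this

/-- two-sided control of `f` along multiples of `d+1` -/
theorem f_bounds {d : ℕ} (hd : 1 ≤ d) (k t : ℕ) (ht : 1 ≤ t) :
    (k : ℝ) * ell d * (((d + 1) * t : ℕ) : ℝ) ≤ f ((d + 1) * t) d k ∧
    (f ((d + 1) * t) d k : ℝ) ≤ 2 * k * t + k + 2 * ((d : ℝ) + 1) * t := by
  have hc := isCover_coverM hd k t ht
  have hne : {m | ∃ M : Multiset (Set (Fin d → ℝ)), IsCover d ((d + 1) * t) k M ∧ Multiset.card M = m}.Nonempty :=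
    ⟨_, _, hc, rfl⟩
  constructor
  · obtain ⟨M, hM, hMc⟩ := Nat.sInf_mem hne
    unfold f
    rw [← hMc]
    exact cover_lower hd hM
  · have h1 : f ((d + 1) * t) d k ≤ Multiset.card (coverM d k t) := Nat.sInf_le ⟨_, hc, rfl⟩
    have h2 : (f ((d + 1) * t) d k : ℝ) ≤ Multiset.card (coverM d k t) := by exact_mod_cast h1
    exact h2.trans (card_coverM d k t ht)

theorem le_of_forall_mul (c B N : ℝ) (hN : 0 < N) (h : ∀ t : ℕ, 1 ≤ t → c * (N * t) ≤ B) : c ≤ 0 := by
  by_contra hc
  push Not at hc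
  obtain ⟨t, ht⟩ := exists_nat_gt (B / (c * N))
  have h1 : B / (c * N) < ((t + 1 : ℕ) : ℝ) := by push_cast; linarith
  have h2 := h (t + 1) (by omega)
  rw [div_lt_iff₀ (by positivity)] at h1
  nlinarith

theorem slope_bounds {d : ℕ} (hd : 1 ≤ d) (k : ℕ) (C : ℝ) (hC : IsSlope d k C) :
    (k : ℝ) * ell d ≤ C ∧ C ≤ 2 * k / ((d : ℝ) + 1) + 2 := by
  obtain ⟨B, hB⟩ := hC
  have hN : (0 : ℝ) < (d : ℝ) + 1 := by positivity
  have hpos : ∀ t : ℕ, 1 ≤ t → 1 ≤ (d + 1) * t := by
    intro t ht
    exact Nat.mul_pos (by omega) ht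
  constructor
  · have h1 : (k : ℝ) * ell d - C ≤ 0 := by
      apply le_of_forall_mul _ B ((d : ℝ) + 1) hN
      intro t ht
      have h2 := (f_bounds hd k t ht).1
      have h3 := (abs_le.1 (hB ((d + 1) * t) (hpos t ht))).2
      push_cast at h2 h3
      nlinarith
    linarith
  · have h1 : C - (2 * k / ((d : ℝ) + 1) + 2) ≤ 0 := by
      apply le_of_forall_mul _ (B + k) ((d : ℝ) + 1) hN
      intro t ht
      have h2 := (f_bounds hd k t ht).2
      have h3 := (abs_le.1 (hB ((d + 1) * t) (hpos t ht))).1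
      push_cast at h2 h3
      have h4 : (2 * (k : ℝ) / ((d : ℝ) + 1) + 2) * (((d : ℝ) + 1) * t) = 2 * k * t + 2 * ((d : ℝ) + 1) * t := by
        field_simp
      have h5 : (C - (2 * k / ((d : ℝ) + 1) + 2)) * (((d : ℝ) + 1) * t)
          = C * (((d : ℝ) + 1) * t) - (2 * (k : ℝ) / ((d : ℝ) + 1) + 2) * (((d : ℝ) + 1) * t) := by ring
      rw [h5, h4]
      linarith
    linarith

end Pool.Agent.Helper910.Tri
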