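import Mathlib
import Pool.Agent.Helper910.TriDefs
import Pool.Agent.Helper910.Tri1
import Pool.Agent.Helper910.Tri2
import Pool.Agent.Helper910.Tri3
import Pool.Agent.Helper910.SphG

namespace Pool.Agent.Helper910.Slope3

open Pool.Agent.Helper910.Tri Pool.Agent.Helper910.Sph

/-- every `k`-cover of `T_3(n)` -/
theorem cover_card (m R k n : ℕ) (hm : 2 ≤ m) (hR : 1 ≤ R) (hn : 4 * R + 18 * m ≤ n) {M : Multiset (Set (Fin 3 → ℝ))}
    (hM : IsCover 3 n k M) : (k : ℝ) * (1 - 5 / m) * (2 * R) ≤ (Multiset.card M : ℝ) := by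
  obtain ⟨s, a, b, w, hw, ha, hc, hs⟩ := cover_weights hM
  have hm0 : (2 : ℝ) ≤ m := by exact_mod_cast hm
  have hR0 : (1 : ℝ) ≤ R := by exact_mod_cast hR
  have hk0 : (0 : ℝ) ≤ k := Nat.cast_nonneg k
  have hi : (1 : ℝ) / m ≤ 1 / 2 := by
    rw [div_le_div_iff₀ (by linarith) (by norm_num)]; linarith
  have hi0 : (0 : ℝ) < 1 / m := by positivity
  set θ : ℝ := 1 - 1 / m with hθ
  have hθ0 : 0 < θ := by rw [hθ]; linarith
  have hθ1 : θ < 1 := by rw [hθ]; linarith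
  have h := cover3_lower θ hθ0 hθ1 R m hR (by omega) n hn _ s a b w hw ha k hk0 hc
  rw [hs] at h
  set W : ℝ := (Multiset.card M : ℝ) with hW
  have hW0 : 0 ≤ W := Nat.cast_nonneg _
  have hden : 0 < (1 + θ + θ ^ 2) * (R : ℝ) := by positivity
  have hden2 : 0 < 6 * (m : ℝ) + 22 := by positivity
  -- κ ≤ 1/(2 θ R)
  have hκ : 3 / 4 * (1 + θ) / ((1 + θ + θ ^ 2) * (R : ℝ)) ≤ 1 / (2 * θ * R) := by
    rw [div_le_div_iff₀ hden (by positivity)]
    have : 3 / 4 * (1 + θ) * (2 * θ * R) ≤ (1 + θ + θ ^ 2) * R := by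
      have h1 : 3 / 4 * (1 + θ) * (2 * θ) ≤ 1 + θ + θ ^ 2 := by nlinarith
      have h2 := mul_le_mul_of_nonneg_right h1 (by linarith : (0 : ℝ) ≤ R)
      nlinarith
    linarith
  have h2 : W * (3 / 4 * (1 + θ) / ((1 + θ + θ ^ 2) * (R : ℝ))) * (6 * (m : ℝ) + 22)
      ≤ W * (1 / (2 * θ * R)) * (6 * (m : ℝ) + 22) := by
    apply mul_le_mul_of_nonneg_right _ hden2.le
    exact mul_le_mul_of_nonneg_left hκ hW0
  have h3 : (k : ℝ) * (6 * m) ≤ W * (1 / (2 * θ * R)) * (6 * (m : ℝ) + 22) := h.trans h2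
  have h4 : W * (1 / (2 * θ * R)) * (6 * (m : ℝ) + 22) = W * (6 * (m : ℝ) + 22) / (2 * θ * R) := by ring
  rw [h4, le_div_iff₀ (by positivity)] at h3
  -- k 6m 2θR ≤ W (6m+22)
  have h5 : (1 - 5 / (m : ℝ)) * (6 * m + 22) ≤ 6 * m * θ := by
    rw [hθ]
    have e1 : (1 - 5 / (m : ℝ)) * (6 * m + 22) = 6 * m + 22 - 30 - 110 / m := by field_simp; ring
    have e2 : 6 * (m : ℝ) * (1 - 1 / m) = 6 * m - 6 := by field_simp
    rw [e1, e2]
    have : (0 : ℝ) ≤ 110 / m := by positivity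
    linarith
  have h6 : (k : ℝ) * (1 - 5 / m) * (2 * R) * (6 * m + 22) ≤ W * (6 * m + 22) := by
    have h7 : (k : ℝ) * (2 * R) * ((1 - 5 / (m : ℝ)) * (6 * m + 22)) ≤ (k : ℝ) * (2 * R) * (6 * m * θ) :=
      mul_le_mul_of_nonneg_left h5 (by positivity)
    nlinarith
  exact le_of_mul_le_mul_right h6 hden2

theorem slope_lower (k : ℕ) (C : ℝ) (hC : IsSlope 3 k C) : (k : ℝ) / 2 ≤ C := by
  obtain ⟨B, hB⟩ := hC
  have hk0 : (0 : ℝ) ≤ k := Nat.cast_nonneg k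
  -- for every m ≥ 2 : k (1 - 5/m) / 2 ≤ C
  have key : ∀ m : ℕ, 2 ≤ m → (k : ℝ) * (1 - 5 / m) / 2 - C ≤ 0 := by
    intro m hm
    apply le_of_forall_mul _ (B + C * (18 * m)) 4 (by norm_num)
    intro R hR
    have hne : {c | ∃ M : Multiset (Set (Fin 3 → ℝ)), IsCover 3 (4 * R + 18 * m) k M ∧ Multiset.card M = c}.Nonempty := by
      have hc := isCover_coverM (d := 3) (by norm_num) k (R + 5 * m) (by omega)
      refine ⟨_, coverM 3 k (R + 5 * m), ⟨hc.1, fun x hx => hc.2 x ?_⟩, rfl⟩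
      have hx' : ∑ i, x i < 4 * R + 18 * m := hx
      show ∑ i, x i < (3 + 1) * (R + 5 * m)
      omega
    obtain ⟨M, hM, hMc⟩ := Nat.sInf_mem hne
    have h1 : (k : ℝ) * (1 - 5 / m) * (2 * R) ≤ (f (4 * R + 18 * m) 3 k : ℝ) := by
      unfold f
      rw [← hMc]
      exact cover_card m R k _ hm hR le_rfl hM
    have h2 := (abs_le.1 (hB (4 * R + 18 * m) (by omega))).2
    push_cast at h2
    nlinarith
  by_contra hcon
  push Not at hcon
  have h0 : 0 < (k : ℝ) / 2 - C := by linarith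
  obtain ⟨m, hm⟩ := exists_nat_gt ((5 * (k : ℝ) / 2) / ((k : ℝ) / 2 - C))
  have h1 := key (m + 2) (by omega)
  rw [div_lt_iff₀ h0] at hm
  have hm2 : (0 : ℝ) < ((m + 2 : ℕ) : ℝ) := by positivity
  have h2 : (k : ℝ) * (1 - 5 / ((m + 2 : ℕ) : ℝ)) / 2 - C = (k : ℝ) / 2 - C - (5 * (k : ℝ) / 2) / ((m + 2 : ℕ) : ℝ) := by
    field_simp
    ring
  rw [h2] at h1
  have h3 : (k : ℝ) / 2 - C ≤ (5 * (k : ℝ) / 2) / ((m + 2 : ℕ) : ℝ) := by linarith
  rw [le_div_iff₀ hm2] at h3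
  push_cast at h3
  nlinarith

end Pool.Agent.Helper910.Slope3
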