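import Mathlib
import Pool.Agent.Helper910.T2

/-! Maximum principle, the functions `hu`, Green functions (MP_4555f0_mp) -/

namespace Pool.Agent.Helper910.QT

open Classical Finset Filter Topology

variable {V : Type*} {D : SimpleGraph V} [D.LocallyFinite] {r : ℕ}

theorem t4_nsum_split (f : V → ℝ) (S : Finset V) (z : V) :
    nsum D f z = (∑ x ∈ S, if D.Adj z x then f x else 0) +
      ∑ x ∈ (D.neighborFinset z).filter (fun x => x ∉ S), f x := by
  unfold nsum
  rw [← Finset.sum_filter_add_sum_filter_not (D.neighborFinset z) (fun x => x ∈ S)]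
  congr 1
  rw [← Finset.sum_filter]
  refine Finset.sum_congr ?_ fun _ _ => rfl
  ext x
  simp only [Finset.mem_filter, SimpleGraph.mem_neighborFinset]
  exact and_comm

theorem t4_nsum_supp {f : V → ℝ} {S : Finset V} (h : ∀ x, x ∉ S → f x = 0) (z : V) :
    nsum D f z = ∑ x ∈ S, if D.Adj z x then f x else 0 := by
  rw [t4_nsum_split f S z, Finset.sum_eq_zero (s := (D.neighborFinset z).filter (fun x => x ∉ S)),
    add_zero]
  intro x hx
  exact h x (Finset.mem_filter.1 hx).2

theorem t4_nsum_const (H : Gd D r) (c : ℝ) (z : V) : nsum D (fun _ => c) z = r * c := by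
  unfold nsum
  rw [Finset.sum_const, SimpleGraph.card_neighborFinset_eq_degree, H.reg z, nsmul_eq_mul]

theorem t4_nsum_sub (f g : V → ℝ) (z : V) :
    nsum D (fun x => f x - g x) z = nsum D f z - nsum D g z := by
  unfold nsum
  rw [Finset.sum_sub_distrib]

theorem t4_nsum_add (f g : V → ℝ) (z : V) :
    nsum D (fun x => f x + g x) z = nsum D f z + nsum D g z := by
  unfold nsum
  rw [Finset.sum_add_distrib]

theorem t4_nsum_neg (f : V → ℝ) (z : V) :
    nsum D (fun x => - f x) z = - nsum D f z := by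
  unfold nsum
  rw [Finset.sum_neg_distrib]

/-- TARGET. maximum principle: `f` subharmonic on the finite set `S` and `≤ 0` off `S` is `≤ 0`. (If the maximum of `f` over `S` is positive, the
set of `z ∈ S` where it is attained is closed under taking neighbours, contradicting `Gd.exit`.) -/
theorem Gd.maxP (H : Gd D r) {S : Finset V} {f : V → ℝ} (h1 : ∀ z ∈ S, (r : ℝ) * f z ≤ nsum D f z) (h2 : ∀ z, z ∉ S → f z ≤ 0) (z : V) :
    f z ≤ 0 := by
  by_contra hz
  push Not at hz
  have hzS : z ∈ S := by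
    by_contra h
    exact absurd (h2 z h) (not_le.2 hz)
  obtain ⟨m, hm, hmax⟩ := Finset.exists_max_image S f ⟨z, hzS⟩
  have hM : 0 < f m := lt_of_lt_of_le hz (hmax z hzS)
  have hall : ∀ x, f x ≤ f m := by
    intro x
    by_cases hx : x ∈ S
    · exact hmax x hx
    · exact (h2 x hx).trans hM.le
  obtain ⟨y, hy, b, hb, hyb⟩ := H.exit (U := S.filter (fun x => f x = f m))
    ⟨m, Finset.mem_filter.2 ⟨hm, rfl⟩⟩
  rw [Finset.mem_filter] at hy
  have hbm : f b < f m := by
    refine lt_of_le_of_ne (hall b) fun h => hb (Finset.mem_filter.2 ⟨?_, h⟩)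
    by_contra hbS
    have := h2 b hbS
    rw [h] at this
    exact absurd this (not_le.2 hM)
  have h3 := h1 y hy.1
  have h4 : nsum D f y < nsum D (fun _ => f m) y := by
    unfold nsum
    refine Finset.sum_lt_sum (fun x _ => hall x) ⟨b, ?_, hbm⟩
    rw [SimpleGraph.mem_neighborFinset]
    exact hyb
  rw [t4_nsum_const H, hy.2.symm] at h4
  linarith

/-- TARGET. comparison -/
theorem Gd.comp (H : Gd D r) {S : Finset V} {f g : V → ℝ} (h1 : ∀ z ∈ S, (r : ℝ) * f z ≤ nsum D f z)
    (h2 : ∀ z ∈ S, nsum D g z ≤ (r : ℝ) * g z) (h3 : ∀ z, z ∉ S → f z ≤ g z) (z : V) : f z ≤ g z := by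
  have := H.maxP (S := S) (f := fun x => f x - g x) (fun x hx => ?_) (fun x hx => ?_) z
  · exact sub_nonpos.1 this
  · rw [t4_nsum_sub, mul_sub]
    exact sub_le_sub (h1 x hx) (h2 x hx)
  · exact sub_nonpos.2 (h3 x hx)

/-- TARGET. maximum principle on infinite regions for functions tending to `0`: `P` an arbitrary set of vertices, `f` harmonic at the points of `P`, `0` off
`P`, and for each `ε > 0`, `|f| ≤ ε` off a finite set. Then `f = 0`. (Apply `comp` with `S` = the finite set `∩ P` and the constant `ε`.) -/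
theorem Gd.maxP_inf (H : Gd D r) {P : Set V} {f : V → ℝ} (h1 : ∀ z ∈ P, (r : ℝ) * f z = nsum D f z) (h2 : ∀ z, z ∉ P → f z = 0)
    (h3 : ∀ ε > 0, ∃ S : Finset V, ∀ z, z ∉ S → |f z| ≤ ε) (z : V) : f z = 0 := by
  have key : ∀ ε > 0, |f z| ≤ ε := by
    intro ε hε
    obtain ⟨S, hS⟩ := h3 ε hε
    have hoff : ∀ x, x ∉ S.filter (fun x => x ∈ P) → |f x| ≤ ε := by
      intro x hx
      by_cases hxS : x ∈ S
      · have hxP : x ∉ P := fun h => hx (Finset.mem_filter.2 ⟨hxS, h⟩)
        rw [h2 x hxP, abs_zero]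
        exact hε.le
      · exact hS x hxS
    rw [abs_le]
    constructor
    · have := H.comp (S := S.filter (fun x => x ∈ P)) (f := fun x => - f x) (g := fun _ => ε)
        (fun x hx => ?_) (fun x _ => ?_) (fun x hx => ?_) z
      · linarith
      · rw [t4_nsum_neg, ← h1 x (Finset.mem_filter.1 hx).2, mul_neg]
      · rw [t4_nsum_const H]
      · have := (abs_le.1 (hoff x hx)).1
        linarith
    · exact H.comp (S := S.filter (fun x => x ∈ P)) (f := f) (g := fun _ => ε)
        (fun x hx => (h1 x (Finset.mem_filter.1 hx).2).le)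
        (fun x _ => by rw [t4_nsum_const H]) (fun x hx => (abs_le.1 (hoff x hx)).2) z
  exact abs_eq_zero.1 (le_antisymm (le_of_forall_pos_le_add fun ε hε => by
    rw [zero_add]; exact key ε hε) (abs_nonneg _))

/-- TARGET. Harnack: a nonnegative function, superharmonic at `z`, satisfies `f x ≤ r f z` for neighbours `x` -/
theorem harnack1 {f : V → ℝ} (h0 : ∀ x, 0 ≤ f x) {z x : V} (hz : nsum D f z ≤ (r : ℝ) * f z) (hx : D.Adj z x) : f x ≤ r * f z := by
  refine le_trans ?_ hz
  unfold nsum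
  exact Finset.single_le_sum (f := f) (fun y _ => h0 y) ((SimpleGraph.mem_neighborFinset _ _ _).2 hx)

/-- TARGET. Harnack for `1 - f`: if `f ≤ 1` and `r f z ≤ nsum f z` then `1 - f x ≤ r (1 - f z)` for neighbours `x` -/
theorem Gd.harnack2 (H : Gd D r) {f : V → ℝ} (h0 : ∀ x, f x ≤ 1) {z x : V} (hz : (r : ℝ) * f z ≤ nsum D f z) (hx : D.Adj z x) :
    1 - f x ≤ r * (1 - f z) := by
  refine harnack1 (D := D) (f := fun x => 1 - f x) (fun x => by linarith [h0 x]) ?_ hx
  rw [t4_nsum_sub, t4_nsum_const H]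
  linarith

/-- TARGET. -/
theorem adm_dgi (H : Gd D r) {A S : Finset V} (hd : Disjoint A S) : Adm D r 0 (dgi D A) S := by
  intro z _
  have h1 := H.degLe z (A ∪ S)
  rw [dg_union hd] at h1
  show 0 + dg D z A + dg D z S ≤ r
  omega

theorem t4_hu_qw {A S : Finset V} {z : V} (hz : z ∉ A) :
    hu D r A S z = qw D r 0 (dgi D A) S z := by
  unfold hu
  rw [if_neg hz]
  rfl

/-- TARGET. `hu` is harmonic on `S` (from `qw_harm` with `w = 0`, `g = dgi A`; `prw 0 = pr` since `Rc = RcW 0` by definition) -/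
theorem hu_harm (H : Gd D r) {A S : Finset V} (hd : Disjoint A S) {z : V} (hz : z ∈ S) : (r : ℝ) * hu D r A S z = nsum D (hu D r A S) z := by
  have hzA : z ∉ A := fun h => (Finset.disjoint_left.1 hd h) hz
  have h1 := qw_harm (adm_dgi H hd) (Finset.card_pos.1 (H.card_pos S)) hz
  rw [t4_hu_qw hzA]
  have h0 : ((0 : V → ℕ) z : ℝ) = 0 := by simp
  rw [h0, sub_zero] at h1
  rw [h1, t4_nsum_supp (S := A ∪ S) (f := hu D r A S), Finset.sum_union hd]
  · congr 1
    · show ((dg D z A : ℕ) : ℝ) = _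
      rw [dg_eq_sum]
      push_cast
      refine Finset.sum_congr rfl fun x hx => ?_
      unfold hu
      rw [if_pos hx]
    · refine Finset.sum_congr rfl fun x hx => ?_
      rw [t4_hu_qw (fun h => (Finset.disjoint_left.1 hd h) hx)]
  · intro x hx
    rw [Finset.mem_union, not_or] at hx
    rw [t4_hu_qw hx.1, qw_notMem hx.2]

/-- TARGET. -/
theorem hu_one {A S : Finset V} {z : V} (hz : z ∈ A) : hu D r A S z = 1 := by
  unfold hu
  rw [if_pos hz]

/-- TARGET. -/
theorem hu_zero {A S : Finset V} {z : V} (hz : z ∉ A) (hz' : z ∉ S) : hu D r A S z = 0 := by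
  rw [t4_hu_qw hz, qw_notMem hz']

/-- TARGET. -/
theorem hu_nonneg {A S : Finset V} (z : V) : 0 ≤ hu D r A S z := by
  by_cases hz : z ∈ A
  · rw [hu_one hz]
    exact zero_le_one
  · rw [t4_hu_qw hz]
    exact qw_nonneg

/-- TARGET. -/
theorem hu_le_one {A S : Finset V} (z : V) : hu D r A S z ≤ 1 := by
  by_cases hz : z ∈ A
  · rw [hu_one hz]
  · rw [t4_hu_qw hz]
    exact qw_le_one

/-- TARGET. off the source, `hu` is the probability -/
theorem hu_eq {A S : Finset V} {z : V} (hz : z ∉ A) : hu D r A S z = pr D r S (fun ζ => z ∈ gw D r (dgi D A) S ζ) := by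
  unfold hu
  rw [if_neg hz]

/-- TARGET. uniqueness -/
theorem hu_unique (H : Gd D r) {A S : Finset V} (hd : Disjoint A S) {f : V → ℝ} (h1 : ∀ z ∈ S, (r : ℝ) * f z = nsum D f z)
    (h2 : ∀ z ∈ A, f z = 1) (h3 : ∀ z, z ∉ A → z ∉ S → f z = 0) (z : V) : f z = hu D r A S z := by
  have hoff : ∀ x, x ∉ S → f x = hu D r A S x := by
    intro x hx
    by_cases hxA : x ∈ A
    · rw [h2 x hxA, hu_one hxA]
    · rw [h3 x hxA hx, hu_zero hxA hx]
  apply le_antisymm
  · exact H.comp (S := S) (fun x hx => (h1 x hx).le) (fun x hx => (hu_harm H hd hx).ge)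
      (fun x hx => (hoff x hx).le) z
  · exact H.comp (S := S) (fun x hx => (hu_harm H hd hx).le) (fun x hx => (h1 x hx).ge)
      (fun x hx => (hoff x hx).ge) z

/-- moving vertices of the domain to the source increases `hu` -/
theorem t4_hu_mono (H : Gd D r) {A A' S S' : Finset V} (hA : A ⊆ A') (hS : S ⊆ S' ∪ A') (hd : Disjoint A S) (hd' : Disjoint A' S') (z : V) :
    hu D r A S z ≤ hu D r A' S' z := by
  refine H.comp (S := S \ A') (fun x hx => ?_) (fun x hx => ?_) (fun x hx => ?_) z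
  · exact (hu_harm H hd (Finset.mem_sdiff.1 hx).1).le
  · rw [Finset.mem_sdiff] at hx
    have hxS : x ∈ S' := by
      rcases Finset.mem_union.1 (hS hx.1) with h | h
      · exact h
      · exact absurd h hx.2
    exact (hu_harm H hd' hxS).ge
  · by_cases hxA : x ∈ A'
    · rw [hu_one hxA]
      exact hu_le_one x
    · have hxS : x ∉ S := fun h => hx (Finset.mem_sdiff.2 ⟨h, hxA⟩)
      rw [hu_zero (fun h => hxA (hA h)) hxS]
      exact hu_nonneg x

/-- TARGET. monotonicity -/
theorem hu_mono (H : Gd D r) {A A' S S' : Finset V} (hA : A ⊆ A') (hS : S ⊆ S') (hd : Disjoint A' S') (z : V) :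
    hu D r A S z ≤ hu D r A' S' z :=
  t4_hu_mono H hA (hS.trans Finset.subset_union_left) (hd.mono hA hS) hd z

/-- TARGET. also: moving vertices of the domain to the source increases `hu` -/
theorem hu_mono' (H : Gd D r) {A A' S S' : Finset V} (hA : A ⊆ A') (hS : S ⊆ S' ∪ A') (hd : Disjoint A S) (hd' : Disjoint A' S') (z : V) :
    hu D r A S z ≤ hu D r A' S' z := t4_hu_mono H hA hS hd hd' z

/-- TARGET. additivity in the source (uniqueness: the sum of the two is harmonic on `S` but the value at `A'` of the first is `0` as `A' ∩ S = ∅`) -/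
theorem hu_add (H : Gd D r) {A A' S : Finset V} (hd : Disjoint A A') (h1 : Disjoint A S) (h2 : Disjoint A' S) (z : V) :
    hu D r (A ∪ A') S z = hu D r A S z + hu D r A' S z := by
  symm
  refine hu_unique H (f := fun z => hu D r A S z + hu D r A' S z) (Finset.disjoint_union_left.2 ⟨h1, h2⟩)
    (fun x hx => ?_) (fun x hx => ?_) (fun x hx hx' => ?_) z
  · rw [t4_nsum_add, mul_add, hu_harm H h1 hx, hu_harm H h2 hx]
  · rcases Finset.mem_union.1 hx with h | h
    · show hu D r A S x + hu D r A' S x = 1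
      rw [hu_one h, hu_zero (Finset.disjoint_left.1 hd h) (Finset.disjoint_left.1 h1 h), add_zero]
    · show hu D r A S x + hu D r A' S x = 1
      rw [hu_one h, hu_zero (Finset.disjoint_right.1 hd h) (Finset.disjoint_left.1 h2 h), zero_add]
  · rw [Finset.mem_union, not_or] at hx
    show hu D r A S x + hu D r A' S x = 0
    rw [hu_zero hx.1 hx', hu_zero hx.2 hx', add_zero]

/-- TARGET. the limit along `S = G ∩ P` exists by monotonicity -/
theorem hu_lim (H : Gd D r) (A : Finset V) (P : Set V) (hP : ∀ z ∈ A, z ∉ P) (z : V) :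
    ∃ ℓ : ℝ, Tendsto (fun G => hu D r A (prt G P) z) (atTop : Filter (Finset V)) (𝓝 ℓ) ∧ ∀ G : Finset V, hu D r A (prt G P) z ≤ ℓ := by
  have hdisj : ∀ G : Finset V, Disjoint A (prt G P) := by
    intro G
    rw [Finset.disjoint_left]
    intro x hx hx'
    exact hP x hx (mem_prt.1 hx').2
  have hmono : Monotone (fun G : Finset V => hu D r A (prt G P) z) := by
    intro G G' hG
    refine hu_mono H (Finset.Subset.refl A) ?_ (hdisj G') z
    intro x hx
    rw [mem_prt] at hx ⊢
    exact ⟨hG hx.1, hx.2⟩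
  have hbdd : BddAbove (Set.range (fun G : Finset V => hu D r A (prt G P) z)) := by
    refine ⟨1, ?_⟩
    rintro _ ⟨G, rfl⟩
    exact hu_le_one z
  exact ⟨_, tendsto_atTop_ciSup hmono hbdd, fun G => le_ciSup hbdd G⟩

/-! ### the Green function of a finite set -/

/-- the matrix `r - adjacency` on `S` -/
noncomputable def t4_M (D : SimpleGraph V) (r : ℕ) (S : Finset V) : Matrix S S ℝ :=
  Matrix.of fun x y => (if x = y then (r : ℝ) else 0) - if D.Adj x.1 y.1 then 1 else 0

/-- extension by zero -/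
noncomputable def t4_ext (S : Finset V) (f : S → ℝ) (x : V) : ℝ := if h : x ∈ S then f ⟨x, h⟩ else 0

theorem t4_ext_mem {S : Finset V} (f : S → ℝ) (x : S) : t4_ext S f x.1 = f x := by
  unfold t4_ext
  rw [dif_pos x.2]

theorem t4_ext_notMem {S : Finset V} (f : S → ℝ) {x : V} (hx : x ∉ S) : t4_ext S f x = 0 := by
  unfold t4_ext
  rw [dif_neg hx]

theorem t4_M_mul (S : Finset V) (f : S → ℝ) (x : S) :
    (t4_M D r S).mulVec f x = (r : ℝ) * t4_ext S f x.1 - nsum D (t4_ext S f) x.1 := by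
  rw [t4_nsum_supp (S := S) (fun y hy => t4_ext_notMem f hy), t4_ext_mem, ← Finset.sum_coe_sort S]
  show ∑ y : S, ((if x = y then (r : ℝ) else 0) - if D.Adj x.1 y.1 then 1 else 0) * f y = _
  simp only [sub_mul, Finset.sum_sub_distrib, ite_mul, zero_mul, one_mul]
  rw [Finset.sum_ite_eq, if_pos (Finset.mem_univ x)]
  congr 1
  refine Finset.sum_congr rfl fun y _ => ?_
  rw [t4_ext_mem]

theorem t4_M_unit (H : Gd D r) (S : Finset V) : IsUnit (t4_M D r S) := by
  rw [← Matrix.mulVec_injective_iff_isUnit]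
  intro f g hfg
  have h0 : (t4_M D r S).mulVec (f - g) = 0 := by
    rw [Matrix.mulVec_sub, hfg, sub_self]
  have h1 : ∀ x ∈ S, (r : ℝ) * t4_ext S (f - g) x = nsum D (t4_ext S (f - g)) x := by
    intro x hx
    have := t4_M_mul (D := D) (r := r) S (f - g) ⟨x, hx⟩
    rw [h0] at this
    have h2 : (0 : S → ℝ) ⟨x, hx⟩ = 0 := rfl
    rw [h2] at this
    linarith
  have h3 : ∀ x, x ∉ S → t4_ext S (f - g) x = 0 := fun x hx => t4_ext_notMem _ hx
  have h4 : ∀ x, t4_ext S (f - g) x = 0 := by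
    intro x
    apply le_antisymm
    · exact H.maxP (S := S) (fun z hz => (h1 z hz).le) (fun z hz => (h3 z hz).le) x
    · have := H.maxP (S := S) (f := fun z => - t4_ext S (f - g) z) (fun z hz => ?_)
        (fun z hz => ?_) x
      · linarith
      · rw [t4_nsum_neg, ← h1 z hz, mul_neg]
      · show - t4_ext S (f - g) z ≤ 0
        rw [h3 z hz, neg_zero]
  funext x
  have h5 := h4 x.1
  rw [t4_ext_mem] at h5
  exact sub_eq_zero.1 h5

theorem t4_M_symm (S : Finset V) : (t4_M D r S).transpose = t4_M D r S := by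
  ext x y
  show ((if y = x then (r : ℝ) else 0) - if D.Adj y.1 x.1 then 1 else 0) =
    (if x = y then (r : ℝ) else 0) - if D.Adj x.1 y.1 then 1 else 0
  rw [D.adj_comm y.1 x.1]
  by_cases h : x = y
  · rw [if_pos h, if_pos h.symm]
  · rw [if_neg h, if_neg (Ne.symm h)]

/-- TARGET. existence and symmetry of the Green function: `γ x z` is `0` unless `x, z ∈ S`, and `r γ(., z) - nsum γ(., z) = δ_z` on `S`.
The linear map `L` on functions `S → ℝ`, `L f z = r f z - Σ_{x ∈ S, x ~ z} f x` is injective by `maxP` (extend by `0`), hence bijective;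
it is symmetric, so its inverse is symmetric; `γ ≥ 0` by `comp`. -/
theorem exists_green (H : Gd D r) (S : Finset V) : ∃ γ : V → V → ℝ, (∀ x z, 0 ≤ γ x z) ∧ (∀ x z, γ x z = γ z x) ∧
    (∀ x z, x ∉ S → γ x z = 0) ∧ (∀ x z, z ∉ S → γ x z = 0) ∧
    ∀ z ∈ S, ∀ x ∈ S, (r : ℝ) * γ x z - nsum D (fun y => γ y z) x = if x = z then 1 else 0 := by
  let N : Matrix S S ℝ := (t4_M D r S)⁻¹
  have hdet : IsUnit (t4_M D r S).det := (Matrix.isUnit_iff_isUnit_det _).1 (t4_M_unit H S)
  have hN : N.transpose = N := by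
    show ((t4_M D r S)⁻¹).transpose = (t4_M D r S)⁻¹
    rw [Matrix.transpose_nonsing_inv, t4_M_symm]
  have hMN : t4_M D r S * N = 1 := Matrix.mul_nonsing_inv _ hdet
  let γ : V → V → ℝ := fun x z => if h : z ∈ S then t4_ext S (fun y => N y ⟨z, h⟩) x else 0
  have hγz : ∀ z (h : z ∈ S), (fun y => γ y z) = t4_ext S (fun y => N y ⟨z, h⟩) := by
    intro z h
    funext y
    show (if h : z ∈ S then t4_ext S (fun y => N y ⟨z, h⟩) y else 0) = _
    rw [dif_pos h]
  have hγ0 : ∀ x z, z ∉ S → γ x z = 0 := by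
    intro x z hz
    show (if h : z ∈ S then t4_ext S (fun y => N y ⟨z, h⟩) x else 0) = _
    rw [dif_neg hz]
  have hγ1 : ∀ x z, x ∉ S → γ x z = 0 := by
    intro x z hx
    by_cases hz : z ∈ S
    · have := congrFun (hγz z hz) x
      rw [t4_ext_notMem _ hx] at this
      exact this
    · exact hγ0 x z hz
  have hγe : ∀ z ∈ S, ∀ x ∈ S, (r : ℝ) * γ x z - nsum D (fun y => γ y z) x =
      if x = z then 1 else 0 := by
    intro z hz x hx
    have h1 : γ x z = t4_ext S (fun y => N y ⟨z, hz⟩) x := congrFun (hγz z hz) x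
    rw [hγz z hz, h1]
    have h2 := t4_M_mul (D := D) (r := r) S (fun y => N y ⟨z, hz⟩) ⟨x, hx⟩
    rw [← h2]
    have h3 : (t4_M D r S).mulVec (fun y => N y ⟨z, hz⟩) ⟨x, hx⟩ = (t4_M D r S * N) ⟨x, hx⟩ ⟨z, hz⟩ := rfl
    rw [h3, hMN, Matrix.one_apply]
    by_cases hxz : x = z
    · subst hxz
      simp
    · rw [if_neg hxz, if_neg (fun h => hxz (congrArg Subtype.val h))]
  refine ⟨γ, ?_, ?_, hγ1, hγ0, hγe⟩
  · intro x z
    by_cases hz : z ∈ S
    · refine H.comp (S := S) (f := fun _ => 0) (g := fun y => γ y z) (fun y _ => ?_)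
        (fun y hy => ?_) (fun y hy => ?_) x
      · rw [t4_nsum_const H]
      · have h1 := hγe z hz y hy
        have h2 : (0 : ℝ) ≤ if y = z then 1 else 0 := by split_ifs <;> norm_num
        rw [← h1] at h2
        exact sub_nonneg.1 h2
      · show 0 ≤ γ y z
        rw [hγ1 y z hy]
    · rw [hγ0 x z hz]
  · intro x z
    by_cases hx : x ∈ S
    · by_cases hz : z ∈ S
      · have h1 : γ x z = N ⟨x, hx⟩ ⟨z, hz⟩ := by
          have h3 : γ x z = t4_ext S (fun y => N y ⟨z, hz⟩) x := congrFun (hγz z hz) x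
          rw [h3]
          exact t4_ext_mem (fun y => N y ⟨z, hz⟩) ⟨x, hx⟩
        have h2 : γ z x = N ⟨z, hz⟩ ⟨x, hx⟩ := by
          have h3 : γ z x = t4_ext S (fun y => N y ⟨x, hx⟩) z := congrFun (hγz x hx) z
          rw [h3]
          exact t4_ext_mem (fun y => N y ⟨x, hx⟩) ⟨z, hz⟩
        rw [h1, h2]
        conv_lhs => rw [← hN]
        rfl
      · rw [hγ0 x z hz, hγ1 z x hz]
    · rw [hγ1 x z hx, hγ0 z x hx]

/-- the Green function of `S` -/
noncomputable def gr (D : SimpleGraph V) [D.LocallyFinite] (r : ℕ) (S : Finset V) : V → V → ℝ :=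
  if h : ∃ γ : V → V → ℝ, (∀ x z, 0 ≤ γ x z) ∧ (∀ x z, γ x z = γ z x) ∧
    (∀ x z, x ∉ S → γ x z = 0) ∧ (∀ x z, z ∉ S → γ x z = 0) ∧
    ∀ z ∈ S, ∀ x ∈ S, (r : ℝ) * γ x z - nsum D (fun y => γ y z) x = if x = z then 1 else 0 then h.choose else fun _ _ => 0

/-- restatement of `exists_green` for `gr` -/
theorem t4_gr_spec (H : Gd D r) (S : Finset V) : (∀ x z, 0 ≤ gr D r S x z) ∧ (∀ x z, gr D r S x z = gr D r S z x) ∧
    (∀ x z, x ∉ S → gr D r S x z = 0) ∧ (∀ x z, z ∉ S → gr D r S x z = 0) ∧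
    ∀ z ∈ S, ∀ x ∈ S, (r : ℝ) * gr D r S x z - nsum D (fun y => gr D r S y z) x = if x = z then 1 else 0 := by
  have h := exists_green H S
  unfold gr
  rw [dif_pos h]
  exact h.choose_spec

/-- TARGET. representation: for every `f : V → ℝ` and `y ∈ S`:
`f y = Σ_{z ∈ S} γ(y, z) (r f z - nsum f z) + Σ_{z ∈ S} γ(y, z) Σ_{x ~ z, x ∉ S} f x`.
(Both sides as functions of `y`: subtract; by symmetry `γ(y,z) = γ(z,y)` and `Σ_z γ(z,y) (r f z - Σ_{x ∈ S} f x) = Σ_z f z (r γ(z,y) - Σ_{x∈S} γ(x,y)) = f y`.) -/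
theorem green_rep (H : Gd D r) {S : Finset V} (f : V → ℝ) {y : V} (hy : y ∈ S) :
    f y = ∑ z ∈ S, gr D r S y z * ((r : ℝ) * f z - nsum D f z) +
      ∑ z ∈ S, gr D r S y z * ∑ x ∈ (D.neighborFinset z).filter (fun x => x ∉ S), f x := by
  obtain ⟨-, hs, h1, -, he⟩ := t4_gr_spec H S
  have e1 : ∀ z, nsum D f z - ∑ x ∈ (D.neighborFinset z).filter (fun x => x ∉ S), f x =
      ∑ x ∈ S, if D.Adj z x then f x else 0 := by
    intro z
    rw [t4_nsum_split f S z]
    ring
  have e2 : ∑ z ∈ S, gr D r S y z * ((r : ℝ) * f z - nsum D f z) +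
      ∑ z ∈ S, gr D r S y z * ∑ x ∈ (D.neighborFinset z).filter (fun x => x ∉ S), f x =
      ∑ z ∈ S, gr D r S y z * ((r : ℝ) * f z - ∑ x ∈ S, if D.Adj z x then f x else 0) := by
    rw [← Finset.sum_add_distrib]
    refine Finset.sum_congr rfl fun z _ => ?_
    rw [← e1 z]
    ring
  have e3 : ∑ z ∈ S, gr D r S y z * ∑ x ∈ S, (if D.Adj z x then f x else 0) =
      ∑ z ∈ S, f z * ∑ x ∈ S, if D.Adj z x then gr D r S x y else 0 := by
    simp only [Finset.mul_sum]
    rw [Finset.sum_comm]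
    refine Finset.sum_congr rfl fun x _ => Finset.sum_congr rfl fun z _ => ?_
    rw [D.adj_comm z x, hs y z]
    split_ifs <;> ring
  have e4 : ∑ z ∈ S, gr D r S y z * ((r : ℝ) * f z - ∑ x ∈ S, if D.Adj z x then f x else 0) =
      ∑ z ∈ S, f z * ((r : ℝ) * gr D r S z y - nsum D (fun x => gr D r S x y) z) := by
    simp only [mul_sub, Finset.sum_sub_distrib]
    rw [e3]
    congr 1
    · refine Finset.sum_congr rfl fun z _ => ?_
      rw [hs y z]
      ring
    · refine Finset.sum_congr rfl fun z _ => ?_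
      rw [t4_nsum_supp (S := S) (f := fun x => gr D r S x y) (fun x hx => h1 x y hx)]
  rw [e2, e4]
  have e5 : ∑ z ∈ S, f z * ((r : ℝ) * gr D r S z y - nsum D (fun x => gr D r S x y) z) =
      ∑ z ∈ S, if z = y then f z else 0 := by
    refine Finset.sum_congr rfl fun z hz => ?_
    rw [he y hy z hz]
    split_ifs <;> ring
  rw [e5, Finset.sum_ite_eq' S y, if_pos hy]

/-- TARGET. restatement of `exists_green` for `gr` -/
theorem gr_spec (H : Gd D r) (S : Finset V) : (∀ x z, 0 ≤ gr D r S x z) ∧ (∀ x z, gr D r S x z = gr D r S z x) ∧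
    (∀ x z, x ∉ S → gr D r S x z = 0) ∧ (∀ x z, z ∉ S → gr D r S x z = 0) ∧
    ∀ z ∈ S, ∀ x ∈ S, (r : ℝ) * gr D r S x z - nsum D (fun y => gr D r S y z) x = if x = z then 1 else 0 :=
  t4_gr_spec H S

end Pool.Agent.Helper910.QT
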