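import Mathlib
import Pool.Agent.Helper910.T2

/-! Combinatorics of cones (MP_4555f0_mp) -/

namespace Pool.Agent.Helper910.QT

open Classical Finset

variable {V : Type*} {D : SimpleGraph V} [D.LocallyFinite] {r : ℕ}

namespace TS

variable (T : TS D r)

/-! ### one cone -/

/-- TARGET. children are subsets -/
theorem ch_sub {C C' : Set V} (hC : T.Cn C) (h : C' ∈ T.ch C) : C' ⊆ C :=
  fun _ hz => (T.mem_iff hC _).2 (Or.inr ⟨C', h, hz⟩)

/-- TARGET. proper subsets (`Q C` is nonempty and disjoint from the children) -/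
theorem ch_ssub {C C' : Set V} (hC : T.Cn C) (h : C' ∈ T.ch C) : C' ⊂ C := by
  refine ⟨fun _ hz => (T.mem_iff hC _).2 (Or.inr ⟨C', h, hz⟩), fun hs => ?_⟩
  obtain ⟨z, hz⟩ := T.Q_ne hC
  exact T.Q_notMem hC C' h z hz (hs ((T.mem_iff hC z).2 (Or.inl hz)))

/-- TARGET. -/
theorem Q_sub {C : Set V} (hC : T.Cn C) {z : V} (h : z ∈ T.Q C) : z ∈ C :=
  (T.mem_iff hC z).2 (Or.inl h)

/-- TARGET. vertices of `C` adjacent to the outside are in the top piece: if `z ∈ C' ∈ ch C` is adjacent to `x ∉ C` then `x ∈ o C' ⊆ Q C ⊆ C` -/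
theorem ib_sub {C : Set V} (hC : T.Cn C) {z x : V} (hz : z ∈ C) (hx : x ∉ C) (h : D.Adj z x) : z ∈ T.Q C ∧ x ∈ T.o C := by
  have hxo : x ∈ T.o C := (T.mem_o hC x).2 ⟨hx, z, hz, h.symm⟩
  refine ⟨?_, hxo⟩
  rcases (T.mem_iff hC z).1 hz with hq | ⟨C', hC', hz'⟩
  · exact hq
  · exfalso
    have hx' : x ∉ C' := fun h' => hx (T.ch_sub hC hC' h')
    have hxo' : x ∈ T.o C' := (T.mem_o (T.ch_cn hC C' hC') x).2 ⟨hx', z, hz', h.symm⟩
    exact hx (T.Q_sub hC (T.o_sub hC C' hC' hxo'))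

/-- TARGET. a vertex of a child `C'` is adjacent only to `C'` and `o C' ⊆ Q C` -/
theorem nbr_ch {C C' : Set V} (hC : T.Cn C) (h : C' ∈ T.ch C) {z x : V} (hz : z ∈ C') (hx : D.Adj z x) : x ∈ C' ∨ x ∈ T.o C' := by
  by_cases hx' : x ∈ C'
  · exact Or.inl hx'
  · exact Or.inr ((T.mem_o (T.ch_cn hC C' h) x).2 ⟨hx', z, hz, hx.symm⟩)

/-- TARGET. the children form a forest -/
theorem fo_ch {C : Set V} (hC : T.Cn C) : T.Fo (T.ch C) :=
  ⟨T.ch_cn hC, T.ch_disj hC, fun C' hC' C'' hC'' x hx =>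
    T.Q_notMem hC C'' hC'' x (T.o_sub hC C' hC' hx)⟩

/-- TARGET. -/
theorem fo_single {C : Set V} (hC : T.Cn C) : T.Fo {C} := by
  refine ⟨?_, ?_, ?_⟩
  · intro A hA
    rw [Finset.mem_singleton.1 hA]
    exact hC
  · intro A hA B hB hAB
    exact absurd ((Finset.mem_singleton.1 hA).trans (Finset.mem_singleton.1 hB).symm) hAB
  · intro A hA B hB x hx
    rw [Finset.mem_singleton.1 hA] at hx
    rw [Finset.mem_singleton.1 hB]
    exact ((T.mem_o hC x).1 hx).1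

theorem fs_single (C : Set V) : fs {C} = C := by ext z; simp [fs]

/-- TARGET. cones are nonempty, and the constants are positive -/
theorem cn_ne {C : Set V} (hC : T.Cn C) : C.Nonempty := by
  obtain ⟨z, hz⟩ := T.Q_ne hC
  exact ⟨z, T.Q_sub hC hz⟩

/-- TARGET. from each `x ∈ o C` there is an edge into `Q C` -/
theorem o_edge {C : Set V} (hC : T.Cn C) {x : V} (hx : x ∈ T.o C) : ∃ y ∈ T.Q C, D.Adj x y := by
  obtain ⟨hx', y, hy, hxy⟩ := (T.mem_o hC x).1 hx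
  exact ⟨y, (T.ib_sub hC hy hx' hxy.symm).1, hxy⟩

/-- TARGET. `o C` is disjoint from `C` -/
theorem o_notMem {C : Set V} (hC : T.Cn C) {x : V} (hx : x ∈ T.o C) : x ∉ C :=
  ((T.mem_o hC x).1 hx).1

end TS

end Pool.Agent.Helper910.QT
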