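import Mathlib
import Pool.Agent.Helper910.T5a

/-! Forests of cones (MP_4555f0_mp) -/

namespace Pool.Agent.Helper910.QT

open Classical Finset

variable {V : Type*} {D : SimpleGraph V} [D.LocallyFinite] {r : ℕ}

namespace TS

variable (T : TS D r)

/-! ### forests -/

/-- TARGET. the next generation of a forest is a forest -/
theorem Fo.next {F : Finset (Set V)} (hF : T.Fo F) : T.Fo (F.biUnion T.ch) := by
  constructor
  · intro C hC
    rw [Finset.mem_biUnion] at hC
    obtain ⟨A, hA, hCA⟩ := hC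
    exact T.ch_cn (hF.cn A hA) C hCA
  · intro C hC C' hC' hne
    rw [Finset.mem_biUnion] at hC hC'
    obtain ⟨A, hA, hCA⟩ := hC
    obtain ⟨A', hA', hCA'⟩ := hC'
    by_cases h : A = A'
    · subst h
      exact T.ch_disj (hF.cn A hA) C hCA C' hCA' hne
    · exact (hF.disj A hA A' hA' h).mono (T.ch_sub (hF.cn A hA) hCA) (T.ch_sub (hF.cn A' hA') hCA')
  · intro C hC C' hC' x hx
    rw [Finset.mem_biUnion] at hC hC'
    obtain ⟨A, hA, hCA⟩ := hC
    obtain ⟨A', hA', hCA'⟩ := hC'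
    have hxQ : x ∈ T.Q A := T.o_sub (hF.cn A hA) C hCA hx
    by_cases h : A = A'
    · subst h
      exact T.Q_notMem (hF.cn A hA) C' hCA' x hxQ
    · intro hxC'
      exact Set.disjoint_left.1 (hF.disj A hA A' hA' h) (T.Q_sub (hF.cn A hA) hxQ)
        (T.ch_sub (hF.cn A' hA') hCA' hxC')

/-- TARGET. -/
theorem Fo.de {F : Finset (Set V)} (hF : T.Fo F) (j : ℕ) : T.Fo (T.de F j) := by
  induction j with
  | zero => exact hF
  | succ j ih => exact Fo.next T ih

/-- TARGET. a subfamily of a forest is a forest -/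
theorem Fo.sub {F F' : Finset (Set V)} (hF : T.Fo F) (h : F' ⊆ F) : T.Fo F' := by
  exact ⟨fun C hC => hF.cn C (h hC), fun C hC C' hC' => hF.disj C (h hC) C' (h hC'),
    fun C hC C' hC' => hF.nadj C (h hC) C' (h hC')⟩

/-- TARGET. -/
theorem de_zero (F : Finset (Set V)) : T.de F 0 = F := by
  rfl

/-- TARGET. -/
theorem de_succ (F : Finset (Set V)) (j : ℕ) : T.de F (j + 1) = (T.de F j).biUnion T.ch := by
  rfl

/-- TARGET. -/
theorem de_succ' (F : Finset (Set V)) (j : ℕ) : T.de F (j + 1) = T.de (F.biUnion T.ch) j := by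
  induction j with
  | zero => rfl
  | succ j ih => rw [de_succ, ih, ← de_succ]

/-- TARGET. -/
theorem de_add (F : Finset (Set V)) (i j : ℕ) : T.de F (i + j) = T.de (T.de F i) j := by
  induction j with
  | zero => rfl
  | succ j ih => rw [← Nat.add_assoc, de_succ, ih, ← de_succ]

/-- TARGET. -/
theorem de_biUnion (F : Finset (Set V)) (j : ℕ) : T.de F j = F.biUnion (fun C => T.de {C} j) := by
  induction j with
  | zero =>
    ext C
    simp [de_zero]
  | succ j ih =>
    rw [de_succ, ih, Finset.biUnion_biUnion]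
    rfl

/-- TARGET. -/
theorem de_card {F : Finset (Set V)} (hF : T.Fo F) (j : ℕ) : (T.de F j).card ≤ F.card * T.m ^ j := by
  induction j with
  | zero => simp [de_zero]
  | succ j ih =>
    rw [de_succ]
    calc ((T.de F j).biUnion T.ch).card ≤ (T.de F j).card * T.m :=
          Finset.card_biUnion_le_card_mul _ _ _ (fun C hC => T.ch_card ((Fo.de T hF j).cn C hC))
      _ ≤ (F.card * T.m ^ j) * T.m := Nat.mul_le_mul_right _ ih
      _ = F.card * T.m ^ (j + 1) := by rw [pow_succ, mul_assoc]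

/-- TARGET. -/
theorem one_le_m {C : Set V} (hC : T.Cn C) : 2 ≤ T.m := by
  exact (T.two hC).trans (T.ch_card hC)

/-- TARGET. descendants of one cone are subsets of it -/
theorem de_single_sub {C A : Set V} (hC : T.Cn C) {j : ℕ} (h : A ∈ T.de {C} j) : A ⊆ C := by
  induction j generalizing A with
  | zero =>
    rw [de_zero, Finset.mem_singleton] at h
    rw [h]
  | succ j ih =>
    rw [de_succ, Finset.mem_biUnion] at h
    obtain ⟨B, hB, hAB⟩ := h
    exact (T.ch_sub ((Fo.de T (T.fo_single hC) j).cn B hB) hAB).trans (ih hB)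

/-- TARGET. a vertex of a forest is adjacent only to the forest and its outer boundary; more precisely a vertex of `C ∈ F` is adjacent only to `C ∪ o C` -/
theorem nbr_fo {F : Finset (Set V)} (hF : T.Fo F) {C : Set V} (hC : C ∈ F) {z x : V} (hz : z ∈ C) (hx : D.Adj z x) : x ∈ C ∨ x ∈ T.o C := by
  by_cases h : x ∈ C
  · exact Or.inl h
  · exact Or.inr ((T.mem_o (hF.cn C hC) x).2 ⟨h, z, hz, hx.symm⟩)

/-- TARGET. nested or disjoint: for `A ∈ de F i`, `B ∈ de F j`, `i ≤ j`: `B ⊆ A` and `B ∈ de {A} (j - i)`, or they are disjoint -/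
theorem nested {F : Finset (Set V)} (hF : T.Fo F) {i k : ℕ} {A B : Set V} (hA : A ∈ T.de F i) (hB : B ∈ T.de F (i + k)) :
    (B ⊆ A ∧ B ∈ T.de {A} k) ∨ Disjoint A B := by
  rw [de_add, de_biUnion, Finset.mem_biUnion] at hB
  obtain ⟨A', hA', hB'⟩ := hB
  have hi := Fo.de T hF i
  by_cases h : A = A'
  · subst h
    exact Or.inl ⟨T.de_single_sub (hi.cn A hA) hB', hB'⟩
  · exact Or.inr ((hi.disj A hA A' hA' h).mono_right (T.de_single_sub (hi.cn A' hA') hB'))

/-- TARGET. each descendant has an ancestor in each earlier generation -/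
theorem ancestor {F : Finset (Set V)} {i k : ℕ} {B : Set V} (hB : B ∈ T.de F (i + k)) :
    ∃ A ∈ T.de F i, B ∈ T.de {A} k := by
  rw [de_add, de_biUnion, Finset.mem_biUnion] at hB
  exact hB

/-- TARGET. -/
theorem de_trans {F : Finset (Set V)} {i k : ℕ} {A B : Set V} (hA : A ∈ T.de F i) (hB : B ∈ T.de {A} k) : B ∈ T.de F (i + k) := by
  rw [de_add, de_biUnion, Finset.mem_biUnion]
  exact ⟨A, hA, hB⟩

/-- TARGET. a descendant in a later generation is a proper subset -/
theorem de_ssub {C A : Set V} (hC : T.Cn C) {j : ℕ} (hj : 1 ≤ j) (h : A ∈ T.de {C} j) : A ⊂ C := by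
  obtain ⟨k, rfl⟩ : ∃ k, j = k + 1 := ⟨j - 1, by omega⟩
  rw [de_succ', Finset.singleton_biUnion, de_biUnion, Finset.mem_biUnion] at h
  obtain ⟨C', hC', h'⟩ := h
  exact lt_of_le_of_lt (T.de_single_sub (T.ch_cn hC C' hC') h') (T.ch_ssub hC hC')

/-- TARGET. strict inclusion between descendants of a forest increases the generation (`nested`, `de_ssub`; two descendants of the same generation are
equal or disjoint) -/
theorem lt_of_ssub {F : Finset (Set V)} (hF : T.Fo F) {i j : ℕ} {A B : Set V} (hA : A ∈ T.de F i) (hB : B ∈ T.de F j) (h : B ⊂ A) : i < j := by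
  by_contra hij
  push Not at hij
  obtain ⟨k, rfl⟩ : ∃ k, i = j + k := ⟨i - j, by omega⟩
  rcases T.nested hF hB hA with h1 | h1
  · exact h.2 h1.1
  · obtain ⟨z, hz⟩ := T.cn_ne ((Fo.de T hF j).cn B hB)
    exact Set.disjoint_left.1 h1 hz (h.1 hz)

theorem t5c_gen_aux {F : Finset (Set V)} (hF : T.Fo F) {i k : ℕ} {A : Set V} (hA : A ∈ T.de F i) (hB : A ∈ T.de F (i + k)) :
    k = 0 := by
  by_contra hk
  have hc := (Fo.de T hF i).cn A hA
  rcases T.nested hF hA hB with h1 | h1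
  · exact (T.de_ssub hc (Nat.one_le_iff_ne_zero.2 hk) h1.2).2 le_rfl
  · obtain ⟨z, hz⟩ := T.cn_ne hc
    exact Set.disjoint_left.1 h1 hz hz

/-- TARGET. the generation of a descendant is unique -/
theorem gen_unique {F : Finset (Set V)} (hF : T.Fo F) {i j : ℕ} {A : Set V} (hA : A ∈ T.de F i) (hB : A ∈ T.de F j) : i = j := by
  rcases le_total i j with h | h
  · obtain ⟨k, rfl⟩ := Nat.exists_eq_add_of_le h
    have := T.t5c_gen_aux hF hA hB
    omega
  · obtain ⟨k, rfl⟩ := Nat.exists_eq_add_of_le h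
    have := T.t5c_gen_aux hF hB hA
    omega

/-- TARGET. the outer boundary of a descendant `A ∈ de F (i+1)` lies in the top piece of its parent -/
theorem o_parent {F : Finset (Set V)} (hF : T.Fo F) {i : ℕ} {A : Set V} (hA : A ∈ T.de F (i + 1)) :
    ∃ B ∈ T.de F i, A ∈ T.ch B ∧ T.o A ⊆ T.Q B := by
  rw [de_succ, Finset.mem_biUnion] at hA
  obtain ⟨B, hB, hAB⟩ := hA
  exact ⟨B, hB, hAB, T.o_sub ((Fo.de T hF i).cn B hB) A hAB⟩

theorem t5c_mem_up {F : Finset (Set V)} {i : ℕ} {z : V} :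
    z ∈ T.up F i ↔ ∃ k < i, ∃ A ∈ T.de F k, z ∈ T.Q A := by
  simp [TS.up]

theorem t5c_fs_step {F : Finset (Set V)} (hF : T.Fo F) (z : V) :
    z ∈ fs F ↔ (∃ A ∈ F, z ∈ T.Q A) ∨ z ∈ fs (F.biUnion T.ch) := by
  constructor
  · rintro ⟨C, hC, hz⟩
    rcases (T.mem_iff (hF.cn C hC) z).1 hz with h | ⟨C', hC', h⟩
    · exact Or.inl ⟨C, hC, h⟩
    · exact Or.inr ⟨C', Finset.mem_biUnion.2 ⟨C, hC, hC'⟩, h⟩
  · rintro (⟨A, hA, h⟩ | ⟨C', hC', h⟩)
    · exact ⟨A, hA, T.Q_sub (hF.cn A hA) h⟩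
    · obtain ⟨C, hC, hC'⟩ := Finset.mem_biUnion.1 hC'
      exact ⟨C, hC, T.ch_sub (hF.cn C hC) hC' h⟩

/-- TARGET. decomposition: a vertex of the forest is in one of the first `i` generations of top pieces or in a cone of generation `i` -/
theorem mem_fs_iff {F : Finset (Set V)} (hF : T.Fo F) (i : ℕ) (z : V) : z ∈ fs F ↔ z ∈ T.up F i ∨ z ∈ fs (T.de F i) := by
  induction i with
  | zero =>
    rw [t5c_mem_up, de_zero]
    simp
  | succ i ih =>
    rw [ih, T.t5c_fs_step (Fo.de T hF i) z, ← de_succ, t5c_mem_up, t5c_mem_up]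
    constructor
    · rintro (⟨k, hk, h⟩ | h | h)
      · exact Or.inl ⟨k, by omega, h⟩
      · exact Or.inl ⟨i, by omega, h⟩
      · exact Or.inr h
    · rintro (⟨k, hk, h⟩ | h)
      · rcases Nat.lt_succ_iff_lt_or_eq.1 hk with h1 | h1
        · exact Or.inl ⟨k, h1, h⟩
        · subst h1
          exact Or.inr (Or.inl h)
      · exact Or.inr (Or.inr h)

theorem t5c_Q_desc {A B : Set V} (hA : T.Cn A) {k : ℕ} (hk : k ≠ 0) (hB : B ∈ T.de {A} k) {z : V} (hz : z ∈ T.Q A) :
    z ∉ B := by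
  obtain ⟨l, rfl⟩ : ∃ l, k = l + 1 := ⟨k - 1, by omega⟩
  rw [de_succ', Finset.singleton_biUnion, de_biUnion, Finset.mem_biUnion] at hB
  obtain ⟨C', hC', h'⟩ := hB
  exact fun h => T.Q_notMem hA C' hC' z hz (T.de_single_sub (T.ch_cn hA C' hC') h' h)

/-- TARGET. -/
theorem up_disj {F : Finset (Set V)} (hF : T.Fo F) {i : ℕ} {z : V} (hz : z ∈ T.up F i) : z ∉ fs (T.de F i) := by
  rw [t5c_mem_up] at hz
  obtain ⟨k, hk, A, hA, hz⟩ := hz
  rintro ⟨B, hB, hzB⟩
  obtain ⟨l, rfl⟩ : ∃ l, i = k + (l + 1) := ⟨i - k - 1, by omega⟩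
  have hc := (Fo.de T hF k).cn A hA
  rcases T.nested hF hA hB with h1 | h1
  · exact T.t5c_Q_desc hc (Nat.succ_ne_zero l) h1.2 hz hzB
  · exact Set.disjoint_left.1 h1 (T.Q_sub hc hz) hzB

/-- TARGET. -/
theorem up_mono (F : Finset (Set V)) {i j : ℕ} (h : i ≤ j) : T.up F i ⊆ T.up F j := by
  intro z hz
  rw [t5c_mem_up] at hz ⊢
  obtain ⟨k, hk, h'⟩ := hz
  exact ⟨k, by omega, h'⟩

theorem t5c_Q_disj_aux {F : Finset (Set V)} (hF : T.Fo F) {i k : ℕ} {A B : Set V} (hA : A ∈ T.de F i)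
    (hB : B ∈ T.de F (i + k)) (h : A ≠ B) : Disjoint (T.Q A) (T.Q B) := by
  rw [Finset.disjoint_left]
  intro z hzA hzB
  have hc := (Fo.de T hF i).cn A hA
  have hc' := (Fo.de T hF (i + k)).cn B hB
  rcases T.nested hF hA hB with h1 | h1
  · by_cases hk : k = 0
    · subst hk
      have h2 := h1.2
      rw [de_zero, Finset.mem_singleton] at h2
      exact h h2.symm
    · exact T.t5c_Q_desc hc hk h1.2 hzA (T.Q_sub hc' hzB)
  · exact Set.disjoint_left.1 h1 (T.Q_sub hc hzA) (T.Q_sub hc' hzB)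

/-- TARGET. top pieces of different descendants are disjoint -/
theorem Q_disj {F : Finset (Set V)} (hF : T.Fo F) {i j : ℕ} {A B : Set V} (hA : A ∈ T.de F i) (hB : B ∈ T.de F j) (h : A ≠ B) :
    Disjoint (T.Q A) (T.Q B) := by
  rcases le_total i j with h' | h'
  · obtain ⟨k, rfl⟩ := Nat.exists_eq_add_of_le h'
    exact T.t5c_Q_disj_aux hF hA hB h
  · obtain ⟨k, rfl⟩ := Nat.exists_eq_add_of_le h'
    exact (T.t5c_Q_disj_aux hF hB hA h.symm).symm

omit [D.LocallyFinite] in
theorem t5c_enter {A : Set V} {x z : V} (p : D.Walk x z) (hx : x ∉ A) (hz : z ∈ A) :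
    ∃ u v, u ∉ A ∧ v ∈ A ∧ D.Adj u v ∧ ∃ q : D.Walk x u, q.length + 1 ≤ p.length := by
  induction p with
  | nil => exact absurd hz hx
  | @cons a b c hab p ih =>
    by_cases hb : b ∈ A
    · exact ⟨a, b, hx, hb, hab, SimpleGraph.Walk.nil, by simp⟩
    · obtain ⟨u, v, hu, hv, huv, q, hq⟩ := ih hb hz
      exact ⟨u, v, hu, hv, huv, SimpleGraph.Walk.cons hab q, by
        rw [SimpleGraph.Walk.length_cons, SimpleGraph.Walk.length_cons]; omega⟩

theorem t5c_fs_de {F : Finset (Set V)} (hF : T.Fo F) {i : ℕ} {A : Set V} (hA : A ∈ T.de F i) {z : V} (hz : z ∈ A) :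
    z ∈ fs F := (T.mem_fs_iff hF i z).2 (Or.inr ⟨A, hA, hz⟩)

/-- TARGET. entering `A ∈ de F i` from outside the forest takes at least `i + 1` steps: a walk from `x ∉ fs F` to `z ∈ A` meets the top pieces of the
`i` strict ancestors of `A` (it enters `A` through `o A ⊆ Q (parent)`, the part before enters the parent, ...), which are disjoint -/
theorem walk_len {F : Finset (Set V)} (hF : T.Fo F) {i : ℕ} {A : Set V} (hA : A ∈ T.de F i) {x z : V} (hx : x ∉ fs F) (hz : z ∈ A)
    (p : D.Walk x z) : i < p.length := by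
  induction i generalizing A z with
  | zero =>
    rw [Nat.pos_iff_ne_zero]
    intro h0
    have : x = z := SimpleGraph.Walk.eq_of_length_eq_zero h0
    subst this
    exact hx (T.t5c_fs_de hF hA hz)
  | succ i ih =>
    obtain ⟨B, hB, hAB, hoB⟩ := T.o_parent hF hA
    have hxA : x ∉ A := fun h => hx (T.t5c_fs_de hF hA h)
    obtain ⟨u, v, hu, hv, huv, q, hq⟩ := t5c_enter p hxA hz
    have hc := (Fo.de T hF (i + 1)).cn A hA
    have huo : u ∈ T.o A := (T.mem_o hc u).2 ⟨hu, v, hv, huv⟩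
    have := ih hB (T.Q_sub ((Fo.de T hF i).cn B hB) (hoB huo)) q
    omega

/-- TARGET. hence every finite set meets only finitely many generations -/
theorem exists_gen {F : Finset (Set V)} (hF : T.Fo F) (S : Finset V) : ∃ i, ∀ z ∈ S, z ∉ fs (T.de F i) := by
  rcases F.eq_empty_or_nonempty with h | ⟨C, hC⟩
  · subst h
    refine ⟨0, fun z _ => ?_⟩
    rintro ⟨C, hC, _⟩
    rw [de_zero] at hC
    exact absurd hC (Finset.notMem_empty C)
  · obtain ⟨x, hx⟩ := T.o_ne (hF.cn C hC)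
    have hxF : x ∉ fs F := by
      rintro ⟨C', hC', hxC'⟩
      exact hF.nadj C hC C' hC' x hx hxC'
    have hw : ∀ z : V, Nonempty (D.Walk x z) := fun z => T.gd.conn.preconnected x z
    let p : ∀ z : V, D.Walk x z := fun z => (hw z).some
    refine ⟨S.sup (fun z => (p z).length), fun z hz => ?_⟩
    rintro ⟨A, hA, hzA⟩
    have h1 := T.walk_len hF hA hxF hzA (p z)
    have h2 : (p z).length ≤ S.sup (fun z => (p z).length) := Finset.le_sup (f := fun z => (p z).length) hz
    omega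

/-- TARGET. and every vertex of the forest is in the top piece of a descendant -/
theorem exists_Q {F : Finset (Set V)} (hF : T.Fo F) {z : V} (hz : z ∈ fs F) : ∃ i, ∃ A ∈ T.de F i, z ∈ T.Q A := by
  obtain ⟨i, hi⟩ := T.exists_gen hF {z}
  have h := hi z (Finset.mem_singleton_self z)
  rcases (T.mem_fs_iff hF i z).1 hz with h1 | h1
  · obtain ⟨k, _, A, hA, hzA⟩ := (T.t5c_mem_up).1 h1
    exact ⟨k, A, hA, hzA⟩
  · exact absurd h1 h

/-- TARGET. the size of the first generations -/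
theorem up_card {F : Finset (Set V)} (hF : T.Fo F) (i : ℕ) : (T.up F i).card ≤ F.card * (i * T.m ^ i) := by
  have h1 : (T.up F i).card ≤ ∑ k ∈ range i, ((T.de F k).biUnion T.Q).card := Finset.card_biUnion_le
  have h2 : ∀ k ∈ range i, ((T.de F k).biUnion T.Q).card ≤ F.card * T.m ^ i := by
    intro k hk
    rw [Finset.mem_range] at hk
    calc ((T.de F k).biUnion T.Q).card ≤ (T.de F k).card * T.m :=
          Finset.card_biUnion_le_card_mul _ _ _ (fun C hC => T.Q_card ((Fo.de T hF k).cn C hC))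
      _ ≤ (F.card * T.m ^ k) * T.m := Nat.mul_le_mul_right _ (T.de_card hF k)
      _ = F.card * T.m ^ (k + 1) := by rw [pow_succ, mul_assoc]
      _ ≤ F.card * T.m ^ i := by
          apply Nat.mul_le_mul_left
          rcases Nat.eq_zero_or_pos T.m with h | h
          · rw [h, pow_succ, mul_zero]
            exact Nat.zero_le _
          · exact Nat.pow_le_pow_right h hk
  calc (T.up F i).card ≤ ∑ k ∈ range i, F.card * T.m ^ i := h1.trans (Finset.sum_le_sum h2)
    _ = F.card * (i * T.m ^ i) := by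
        rw [Finset.sum_const, Finset.card_range, smul_eq_mul]
        ring

end TS

end Pool.Agent.Helper910.QT
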