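import Mathlib
import Pool.Agent.Helper910.T5c

/-! Inputs and reached cones (MP_4555f0_mp) -/

namespace Pool.Agent.Helper910.QT

open Classical Finset

variable {V : Type*} {D : SimpleGraph V} [D.LocallyFinite] {r : ℕ}

namespace TS

variable (T : TS D r)

/-! ### inputs -/

theorem t5b_dg_pos {z x : V} {S : Finset V} (hx : x ∈ S) (h : D.Adj z x) : 0 < dg D z S := by
  unfold dg
  exact Finset.card_pos.2 ⟨x, Finset.mem_filter.2 ⟨hx, h⟩⟩

theorem t5b_dg_pos' {z : V} {S : Finset V} (h : 0 < dg D z S) : ∃ x ∈ S, D.Adj z x := by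
  unfold dg at h
  obtain ⟨x, hx⟩ := Finset.card_pos.1 h
  rw [Finset.mem_filter] at hx
  exact ⟨x, hx.1, hx.2⟩

theorem t5b_dg_le {z : V} {S S' : Finset V} (h : ∀ x ∈ S, D.Adj z x → x ∈ S') : dg D z S ≤ dg D z S' := by
  unfold dg
  refine Finset.card_le_card ?_
  intro x hx
  rw [Finset.mem_filter] at hx ⊢
  exact ⟨h x hx.1 hx.2, hx.2⟩

theorem t5b_dg_add {z : V} {S S' S'' : Finset V} (hd : Disjoint S S') (h : ∀ x ∈ S, D.Adj z x → x ∈ S'')
    (h' : ∀ x ∈ S', D.Adj z x → x ∈ S'') : dg D z S + dg D z S' ≤ dg D z S'' := by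
  rw [← dg_union hd]
  refine t5b_dg_le ?_
  intro x hx hxz
  rcases Finset.mem_union.1 hx with hx | hx
  · exact h x hx hxz
  · exact h' x hx hxz

theorem t5b_mem_fo {F : Finset (Set V)} {x : V} : x ∈ T.fo F ↔ ∃ C ∈ F, x ∈ T.o C := by
  unfold TS.fo
  rw [Finset.mem_biUnion]

theorem t5b_fo_notMem {F : Finset (Set V)} (hF : T.Fo F) {x : V} (hx : x ∈ T.fo F) : x ∉ fs F := by
  obtain ⟨C, hC, hxC⟩ := (T.t5b_mem_fo).1 hx
  rintro ⟨C', hC', hxC'⟩
  exact hF.nadj C hC C' hC' x hxC hxC'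

theorem t5b_cn {F : Finset (Set V)} (hF : T.Fo F) {i : ℕ} {A : Set V} (hA : A ∈ T.de F i) : T.Cn A :=
  (Fo.de T hF i).cn A hA

theorem t5b_sub {F : Finset (Set V)} (hF : T.Fo F) {i : ℕ} {A : Set V} (hA : A ∈ T.de F i) : A ⊆ fs F := by
  have h0 : A ∈ T.de F (0 + i) := by rw [Nat.zero_add]; exact hA
  obtain ⟨C, hC, hAC⟩ := T.ancestor h0
  rw [T.de_zero] at hC
  intro z hz
  exact ⟨C, hC, T.de_single_sub (hF.cn C hC) hAC hz⟩

theorem t5b_fi_pos {F : Finset (Set V)} {z : V} (h : 0 < T.fi F z) : ∃ x ∈ T.fo F, D.Adj z x := t5b_dg_pos' h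

/-- a positive input comes from a vertex outside the cone -/
theorem t5b_inp {F : Finset (Set V)} (hF : T.Fo F) {g : V → ℕ} (hg : ∀ z ∈ fs F, g z ≤ T.fi F z) {i : ℕ} {A : Set V} (hA : A ∈ T.de F i)
    {z : V} (hz : z ∈ A) (h : 0 < g z) : ∃ x, x ∉ A ∧ D.Adj z x := by
  have hzF := T.t5b_sub hF hA hz
  obtain ⟨x, hx, hxz⟩ := T.t5b_fi_pos (lt_of_lt_of_le h (hg z hzF))
  exact ⟨x, fun hxA => T.t5b_fo_notMem hF hx (T.t5b_sub hF hA hxA), hxz⟩

theorem t5b_mem_o {A : Set V} (hA : T.Cn A) {x z : V} (hx : x ∉ A) (hz : z ∈ A) (h : D.Adj z x) : x ∈ T.o A :=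
  (T.mem_o hA x).2 ⟨hx, z, hz, h.symm⟩

theorem t5b_fs_single {A : Set V} {z : V} : z ∈ fs {A} ↔ z ∈ A := by rw [fs_single]

/-- TARGET. on `C ∈ F` the full input is the number of neighbours in `o C` -/
theorem fi_eq {F : Finset (Set V)} (hF : T.Fo F) {C : Set V} (hC : C ∈ F) {z : V} (hz : z ∈ C) : T.fi F z = dg D z (T.o C) := by
  show dg D z (T.fo F) = dg D z (T.o C)
  refine le_antisymm (t5b_dg_le ?_) (t5b_dg_le ?_)
  · intro x hx hxz
    rcases T.nbr_fo hF hC hz hxz with h | h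
    · exact absurd ⟨C, hC, h⟩ (T.t5b_fo_notMem hF hx)
    · exact h
  · intro x hx _
    exact T.t5b_mem_fo.2 ⟨C, hC, hx⟩

/-- TARGET. the full input of the children is the input from the top piece -/
theorem fi_ch {C : Set V} (hC : T.Cn C) {z : V} (hz : z ∈ fs (T.ch C)) : T.fi (T.ch C) z = dgi D (T.Q C) z := by
  obtain ⟨C', hC', hzC'⟩ := hz
  show dg D z (T.fo (T.ch C)) = dg D z (T.Q C)
  refine le_antisymm (t5b_dg_le ?_) (t5b_dg_le ?_)
  · intro x hx _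
    obtain ⟨C'', hC'', hxo⟩ := T.t5b_mem_fo.1 hx
    exact T.o_sub hC C'' hC'' hxo
  · intro x hx hxz
    exact T.t5b_mem_fo.2 ⟨C', hC', T.t5b_mem_o (T.ch_cn hC C' hC') (T.Q_notMem hC C' hC' x hx) hzC' hxz⟩

/-- TARGET. the input vanishes on the descendants of generation `≥ 1` -/
theorem fi_zero {F : Finset (Set V)} (hF : T.Fo F) {i : ℕ} (hi : 1 ≤ i) {z : V} (hz : z ∈ fs (T.de F i)) : T.fi F z = 0 := by
  obtain ⟨k, rfl⟩ : ∃ k, i = k + 1 := ⟨i - 1, by omega⟩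
  obtain ⟨A, hA, hzA⟩ := hz
  obtain ⟨B, hB, hAB, hoB⟩ := T.o_parent hF hA
  by_contra hne
  obtain ⟨x, hx, hxz⟩ := T.t5b_fi_pos (Nat.pos_of_ne_zero hne)
  have hxF := T.t5b_fo_notMem hF hx
  rcases T.nbr_fo (Fo.de T hF (k + 1)) hA hzA hxz with h | h
  · exact hxF (T.t5b_sub hF hA h)
  · exact hxF (T.t5b_sub hF hB (T.Q_sub (T.t5b_cn hF hB) (hoB h)))

theorem t5b_mem_gp {G : Finset V} {F : Finset (Set V)} {z : V} : z ∈ gp G F ↔ z ∈ G ∧ z ∈ fs F := by
  unfold gp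
  exact mem_prt

/-- TARGET. -/
theorem adm_fi {F : Finset (Set V)} (hF : T.Fo F) {g : V → ℕ} (hg : ∀ z ∈ fs F, g z ≤ T.fi F z) (G : Finset V) : Adm D r 0 g (gp G F) := by
  intro z hz
  have hzF : z ∈ fs F := (t5b_mem_gp.1 hz).2
  have h1 := hg z hzF
  have h2 : Disjoint (T.fo F) (gp G F) := by
    rw [Finset.disjoint_left]
    intro x hx hx'
    exact T.t5b_fo_notMem hF hx (t5b_mem_gp.1 hx').2
  have h3 : dg D z (T.fo F) + dg D z (gp G F) ≤ r := by
    rw [← dg_union h2]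
    exact T.gd.degLe z _
  have h4 : T.fi F z = dg D z (T.fo F) := rfl
  simp only [Pi.zero_apply, zero_add]
  omega

/-- TARGET. membership -/
theorem mem_gp {G : Finset V} {F : Finset (Set V)} {z : V} : z ∈ gp G F ↔ z ∈ G ∧ z ∈ fs F := by
  exact t5b_mem_gp

/-- TARGET. -/
theorem gp_de_sub {F : Finset (Set V)} (hF : T.Fo F) (G : Finset V) (i : ℕ) : gp G (T.de F i) ⊆ gp G F := by
  intro z hz
  obtain ⟨h1, A, hA, hzA⟩ := t5b_mem_gp.1 hz
  exact t5b_mem_gp.2 ⟨h1, T.t5b_sub hF hA hzA⟩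

/-- TARGET. the outer boundary of a forest is disjoint from it -/
theorem fo_disj {F : Finset (Set V)} (hF : T.Fo F) (G : Finset V) : Disjoint (T.fo F) (gp G F) := by
  rw [Finset.disjoint_left]
  intro x hx hx'
  exact T.t5b_fo_notMem hF hx (t5b_mem_gp.1 hx').2

/-! ### reached cones -/

/-- TARGET. for an input `g ≤ fi F` and `A ∈ de F (i+1)`: `A` is reached iff some vertex of `o A` topples -/
theorem rch_iff {F : Finset (Set V)} (hF : T.Fo F) {g : V → ℕ} (hg : ∀ z ∈ fs F, g z ≤ T.fi F z) {i : ℕ} {A : Set V} (hA : A ∈ T.de F (i + 1))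
    (W : Finset V) (hW : ∀ z ∈ W, z ∈ fs F) : rch D g W A ↔ ∃ x ∈ T.o A, x ∈ W := by
  have hcn := T.t5b_cn hF hA
  constructor
  · rintro ⟨z, hz, h | ⟨x, hxW, hxA, hxz⟩⟩
    · have hzF := T.t5b_sub hF hA hz
      have h1 := hg z hzF
      have h2 : T.fi F z = 0 := T.fi_zero hF (Nat.succ_le_succ (Nat.zero_le i)) ⟨A, hA, hz⟩
      omega
    · exact ⟨x, T.t5b_mem_o hcn hxA hz hxz.symm, hxW⟩
  · rintro ⟨x, hx, hxW⟩
    obtain ⟨hxA, y, hy, hxy⟩ := (T.mem_o hcn x).1 hx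
    exact ⟨y, hy, Or.inr ⟨x, hxW, hxA, hxy⟩⟩

theorem t5b_not_rch {F : Finset (Set V)} {g : V → ℕ} {A : Set V} {G : Finset V} {ζ : V → ℕ} (hζ : ζ ∈ Rc D r (gp G F))
    (h : ¬ rch D g (gw D r g (gp G F) ζ) A) {z : V} (hz : z ∈ A) : z ∉ gw D r g (gp G F) ζ := by
  intro hzW
  obtain ⟨X, hX⟩ : ∃ X : Finset V, X = (gw D r g (gp G F) ζ).filter (fun y => y ∈ A) := ⟨_, rfl⟩
  have hXsub : X ⊆ gw D r g (gp G F) ζ := by
    rw [hX]
    exact Finset.filter_subset _ _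
  have hzX : z ∈ X := by
    rw [hX]
    exact Finset.mem_filter.2 ⟨hzW, hz⟩
  obtain ⟨y, hy, hlt⟩ := gw_fd hXsub ⟨z, hzX⟩
  have hy' := hy
  rw [hX, Finset.mem_filter] at hy
  have hg0 : g y = 0 := by
    by_contra hne
    exact h ⟨y, hy.2, Or.inl (Nat.pos_of_ne_zero hne)⟩
  have hd0 : dg D y (gw D r g (gp G F) ζ \ X) = 0 := by
    by_contra hne
    obtain ⟨x, hx, hxy⟩ := t5b_dg_pos' (Nat.pos_of_ne_zero hne)
    rw [Finset.mem_sdiff] at hx
    refine h ⟨y, hy.2, Or.inr ⟨x, hx.1, fun hxA => hx.2 ?_, hxy.symm⟩⟩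
    rw [hX]
    exact Finset.mem_filter.2 ⟨hx.1, hxA⟩
  have hyG : y ∈ gp G F := gw_sub g (gp G F) ζ hy.1
  have h1 := ((mem_Rc.1 hζ).1.1 y hyG).2
  omega

/-- TARGET. a parent of a reached cone is reached: let `W = gw g (gp G F) ζ`, `A ∈ ch B`, `B ∈ de F i`. Some `x ∈ o A ⊆ Q B ⊆ B` is in `W`. If no vertex of `B` received a grain
from outside `B`, then `W \ B` would be absorbing (by `gw_least`), contradiction. -/
theorem rch_parent {F : Finset (Set V)} (hF : T.Fo F) {g : V → ℕ} (hg : ∀ z ∈ fs F, g z ≤ T.fi F z) {i : ℕ} {A B : Set V} (hB : B ∈ T.de F i)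
    (hA : A ∈ T.ch B) {G : Finset V} {ζ : V → ℕ} (hζ : ζ ∈ Rc D r (gp G F)) (h : rch D g (gw D r g (gp G F) ζ) A) :
    rch D g (gw D r g (gp G F) ζ) B := by
  have hcn := T.t5b_cn hF hB
  have hA' : A ∈ T.de F (i + 1) := by
    rw [T.de_succ, Finset.mem_biUnion]
    exact ⟨B, hB, hA⟩
  have hW : ∀ z ∈ gw D r g (gp G F) ζ, z ∈ fs F := fun z hz => (t5b_mem_gp.1 (gw_sub g (gp G F) ζ hz)).2
  obtain ⟨x, hx, hxW⟩ := (T.rch_iff hF hg hA' _ hW).1 h
  by_contra hcon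
  exact t5b_not_rch hζ hcon (T.Q_sub hcn (T.o_sub hcn A hA hx)) hxW

/-- TARGET. if `A ∈ de F i` is not reached, the wave does not meet `A` -/
theorem not_rch {F : Finset (Set V)} (hF : T.Fo F) {g : V → ℕ} {i : ℕ} {A : Set V} (hA : A ∈ T.de F i)
    {G : Finset V} {ζ : V → ℕ} (hζ : ζ ∈ Rc D r (gp G F)) (h : ¬ rch D g (gw D r g (gp G F) ζ) A) {z : V} (hz : z ∈ A) :
    z ∉ gw D r g (gp G F) ζ := by
  exact t5b_not_rch hζ h hz

/-- TARGET. being reached depends only on the configuration off `A`: for `A ∈ de F i`, with `G' = gp G F \ A`,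
`A` is reached on `gp G F` iff it is reached by the wave on `G'` (before a vertex of `A` topples, a vertex of `A` has to receive a grain from outside) -/
theorem rch_off {F : Finset (Set V)} (hF : T.Fo F) {g : V → ℕ} {i : ℕ} {A : Set V} (hA : A ∈ T.de F i) {G : Finset V} {ζ : V → ℕ}
    (hζ : ζ ∈ Rc D r (gp G F)) :
    rch D g (gw D r g (gp G F) ζ) A ↔
      rch D g (gw D r g ((gp G F).filter (fun z => z ∉ A)) (rs ((gp G F).filter (fun z => z ∉ A)) ζ)) A := by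
  set G' := (gp G F).filter (fun z => z ∉ A) with hG'
  have hsub : G' ⊆ gp G F := Finset.filter_subset _ _
  constructor
  · intro h
    by_contra hcon
    have habs : gw D r g (gp G F) ζ ⊆ gw D r g G' (rs G' ζ) := by
      refine gw_least' ?_
      intro y hy hyW
      by_cases hyA : y ∈ A
      · have hg0 : g y = 0 := by
          by_contra hne
          exact hcon ⟨y, hyA, Or.inl (Nat.pos_of_ne_zero hne)⟩
        have hd0 : dg D y (gw D r g G' (rs G' ζ)) = 0 := by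
          by_contra hne
          obtain ⟨x, hx, hxy⟩ := t5b_dg_pos' (Nat.pos_of_ne_zero hne)
          have hxG : x ∈ G' := gw_sub g G' _ hx
          rw [hG', Finset.mem_filter] at hxG
          exact hcon ⟨y, hyA, Or.inr ⟨x, hx, hxG.2, hxy.symm⟩⟩
        have h1 := ((mem_Rc.1 hζ).1.1 y hy).2
        omega
      · have hyG' : y ∈ G' := by
          rw [hG', Finset.mem_filter]
          exact ⟨hy, hyA⟩
        have h1 := (gw_GCl (D := D) (r := r) g G' (rs G' ζ)).2 y hyG' hyW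
        rw [rs_mem hyG'] at h1
        exact h1
    obtain ⟨z, hz, h1 | ⟨x, hx, hxA, hxz⟩⟩ := h
    · exact hcon ⟨z, hz, Or.inl h1⟩
    · exact hcon ⟨z, hz, Or.inr ⟨x, habs hx, hxA, hxz⟩⟩
  · rintro ⟨z, hz, h1 | ⟨x, hx, hxA, hxz⟩⟩
    · exact ⟨z, hz, Or.inl h1⟩
    · refine ⟨z, hz, Or.inr ⟨x, ?_, hxA, hxz⟩⟩
      refine gw_mono hsub ?_ hx
      intro y hy
      rw [rs_mem hy]

/-- the input of the full wave of `A` dominates what `A` receives from outside -/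
theorem t5b_inp_le {F : Finset (Set V)} (hF : T.Fo F) {g : V → ℕ} (hg : ∀ z ∈ fs F, g z ≤ T.fi F z) {i : ℕ} {A : Set V} (hA : A ∈ T.de F i)
    {G : Finset V} {y : V} (hy : y ∈ A) : g y + dg D y ((gp G F).filter (fun z => z ∉ A)) ≤ T.fi {A} y := by
  have hcn := T.t5b_cn hF hA
  have h1 := hg y (T.t5b_sub hF hA hy)
  have h2 : T.fi F y = dg D y (T.fo F) := rfl
  have h3 : T.fi {A} y = dg D y (T.o A) := T.fi_eq (T.fo_single hcn) (Finset.mem_singleton_self A) hy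
  have h4 : dg D y (T.fo F) + dg D y ((gp G F).filter (fun z => z ∉ A)) ≤ dg D y (T.o A) := by
    refine t5b_dg_add ?_ ?_ ?_
    · rw [Finset.disjoint_left]
      intro x hx hx'
      exact T.t5b_fo_notMem hF hx (t5b_mem_gp.1 (Finset.mem_filter.1 hx').1).2
    · intro x hx hxy
      exact T.t5b_mem_o hcn (fun hxA => T.t5b_fo_notMem hF hx (T.t5b_sub hF hA hxA)) hy hxy
    · intro x hx hxy
      exact T.t5b_mem_o hcn (Finset.mem_filter.1 hx).2 hy hxy
  omega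

/-- TARGET. restart: the part of the wave in `A ∈ de F i` is contained in the full wave of `A` (the union of the full wave of `A` and of everything outside `A` is absorbing) -/
theorem restart {F : Finset (Set V)} (hF : T.Fo F) {g : V → ℕ} (hg : ∀ z ∈ fs F, g z ≤ T.fi F z) {i : ℕ} {A : Set V} (hA : A ∈ T.de F i)
    {G : Finset V} {ζ : V → ℕ} {z : V} (hz : z ∈ gw D r g (gp G F) ζ) (hzA : z ∈ A) :
    z ∈ gw D r (T.fi {A}) (gp G {A}) (rs (gp G {A}) ζ) := by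
  have hsub : gw D r g (gp G F) ζ ⊆ gw D r (T.fi {A}) (gp G {A}) (rs (gp G {A}) ζ) ∪ (gp G F).filter (fun z => z ∉ A) := by
    refine gw_least' ?_
    intro y hy hyW
    rw [Finset.mem_union, not_or] at hyW
    have hyA : y ∈ A := by
      by_contra hcon
      exact hyW.2 (Finset.mem_filter.2 ⟨hy, hcon⟩)
    have hyG : y ∈ gp G {A} := t5b_mem_gp.2 ⟨(t5b_mem_gp.1 hy).1, t5b_fs_single.2 hyA⟩
    have h1 := (gw_GCl (D := D) (r := r) (T.fi {A}) (gp G {A}) (rs (gp G {A}) ζ)).2 y hyG hyW.1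
    rw [rs_mem hyG] at h1
    have h2 := T.t5b_inp_le hF hg hA (G := G) hyA
    have h3 : dg D y (gw D r (T.fi {A}) (gp G {A}) (rs (gp G {A}) ζ) ∪ (gp G F).filter (fun z => z ∉ A)) =
        dg D y (gw D r (T.fi {A}) (gp G {A}) (rs (gp G {A}) ζ)) + dg D y ((gp G F).filter (fun z => z ∉ A)) := by
      refine dg_union ?_
      rw [Finset.disjoint_left]
      intro x hx hx'
      exact (Finset.mem_filter.1 hx').2 (t5b_fs_single.1 (t5b_mem_gp.1 (gw_sub _ _ _ hx)).2)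
    omega
  rcases Finset.mem_union.1 (hsub hz) with h | h
  · exact h
  · exact absurd hzA (Finset.mem_filter.1 h).2

/-- TARGET. restart for marked cones: if `B ∈ de {A} k` is marked in `F` then it is marked in `{A}` with the full input -/
theorem mkd_restart {S : Set V → Prop} {F : Finset (Set V)} (hF : T.Fo F) {g : V → ℕ} (hg : ∀ z ∈ fs F, g z ≤ T.fi F z) {i k : ℕ} {A B : Set V}
    (hA : A ∈ T.de F i) (hB : B ∈ T.de {A} k) {G : Finset V} {ζ : V → ℕ} (h : T.mkd S F g G ζ B) :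
    T.mkd S {A} (T.fi {A}) G (rs (gp G {A}) ζ) B := by
  have hcn := T.t5b_cn hF hA
  have hBA : B ⊆ A := T.de_single_sub hcn hB
  have hpos : ∀ z ∈ A, ∀ x, x ∉ A → D.Adj z x → 0 < T.fi {A} z := by
    intro z hz x hx hxz
    rw [T.fi_eq (T.fo_single hcn) (Finset.mem_singleton_self A) hz]
    exact t5b_dg_pos (T.t5b_mem_o hcn hx hz hxz) hxz
  refine ⟨?_, ?_⟩
  · obtain ⟨z, hz, h1 | ⟨x, hxW, hxB, hxz⟩⟩ := h.1
    · obtain ⟨x, hx, hxz⟩ := T.t5b_inp hF hg hA (hBA hz) h1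
      exact ⟨z, hz, Or.inl (hpos z (hBA hz) x hx hxz)⟩
    · by_cases hxA : x ∈ A
      · exact ⟨z, hz, Or.inr ⟨x, T.restart hF hg hA hxW hxA, hxB, hxz⟩⟩
      · exact ⟨z, hz, Or.inl (hpos z (hBA hz) x hxA hxz.symm)⟩
  · intro j B' hB' hS hss hfb
    refine h.2 (i + j) B' (T.de_trans hA hB') hS hss ?_
    intro z hz
    have h1 := hfb z hz
    have h2 := T.gd.one_le
    by_cases hzG : z ∈ gp G {A}
    · rw [rs_mem hzG] at h1
      exact h1
    · rw [rs_notMem hzG] at h1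
      omega

/-- TARGET. marks are hereditary -/
theorem mkd_parent {S : Set V → Prop} {F : Finset (Set V)} (hF : T.Fo F) {g : V → ℕ} (hg : ∀ z ∈ fs F, g z ≤ T.fi F z) {i : ℕ} {A B : Set V}
    (hB : B ∈ T.de F i) (hA : A ∈ T.ch B) {G : Finset V} {ζ : V → ℕ} (hζ : ζ ∈ Rc D r (gp G F)) (h : T.mkd S F g G ζ A) :
    T.mkd S F g G ζ B := by
  refine ⟨T.rch_parent hF hg hB hA hζ h.1, ?_⟩
  intro j B' hB' hS hss
  exact h.2 j B' hB' hS (lt_of_le_of_lt (T.ch_sub (T.t5b_cn hF hB) hA) hss)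

/-- the top piece of a strict ancestor of `A` does not meet `A` -/
theorem t5b_Q_notMem {F : Finset (Set V)} (hF : T.Fo F) {i j : ℕ} {A B : Set V} (hA : A ∈ T.de F i) (hB : B ∈ T.de F j) (h : A ⊂ B) {z : V}
    (hz : z ∈ T.Q B) : z ∉ A := by
  have hcn := T.t5b_cn hF hB
  have hlt := T.lt_of_ssub hF hB hA h
  obtain ⟨k, rfl⟩ : ∃ k, i = j + (k + 1) := ⟨i - j - 1, by omega⟩
  have hne : ¬ Disjoint B A := by
    intro hd
    obtain ⟨x, hx⟩ := T.cn_ne (T.t5b_cn hF hA)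
    exact Set.disjoint_left.1 hd (h.1 hx) hx
  have hd : A ∈ T.de {B} (k + 1) := by
    rcases T.nested hF hB hA with h1 | h1
    · exact h1.2
    · exact absurd h1 hne
  rw [T.de_succ'] at hd
  have hd' : A ∈ T.de (({B} : Finset (Set V)).biUnion T.ch) (0 + k) := by rw [Nat.zero_add]; exact hd
  obtain ⟨C, hC, hAC⟩ := T.ancestor hd'
  rw [T.de_zero, Finset.singleton_biUnion] at hC
  intro hzA
  exact T.Q_notMem hcn C hC z hz (T.de_single_sub (T.ch_cn hcn C hC) hAC hzA)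

theorem t5b_nab_off {S : Set V → Prop} {F : Finset (Set V)} (hF : T.Fo F) {i : ℕ} {A : Set V} (hA : A ∈ T.de F i)
    {ζ ζ' : V → ℕ} (h : ∀ z, z ∉ A → ζ z = ζ' z) (h1 : T.nab S F ζ A) : T.nab S F ζ' A := by
  intro j B hB hS hss hfb
  refine h1 j B hB hS hss ?_
  intro z hz
  rw [h z (T.t5b_Q_notMem hF hA hB hss hz)]
  exact hfb z hz

/-- TARGET. being marked depends only on the configuration off `A` -/
theorem mkd_off {S : Set V → Prop} {F : Finset (Set V)} (hF : T.Fo F) {g : V → ℕ} {i : ℕ} {A : Set V} (hA : A ∈ T.de F i) {G : Finset V}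
    {ζ ζ' : V → ℕ} (hζ : ζ ∈ Rc D r (gp G F)) (hζ' : ζ' ∈ Rc D r (gp G F)) (h : ∀ z, z ∉ A → ζ z = ζ' z) :
    T.mkd S F g G ζ A ↔ T.mkd S F g G ζ' A := by
  have hrs : rs ((gp G F).filter (fun z => z ∉ A)) ζ = rs ((gp G F).filter (fun z => z ∉ A)) ζ' := by
    funext z
    by_cases hz : z ∈ (gp G F).filter (fun z => z ∉ A)
    · rw [rs_mem hz, rs_mem hz]
      exact h z (Finset.mem_filter.1 hz).2
    · rw [rs_notMem hz, rs_notMem hz]
  have h1 : rch D g (gw D r g (gp G F) ζ) A ↔ rch D g (gw D r g (gp G F) ζ') A := by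
    rw [T.rch_off hF hA hζ, T.rch_off hF hA hζ', hrs]
  constructor
  · rintro ⟨h2, h3⟩
    exact ⟨h1.1 h2, T.t5b_nab_off hF hA h h3⟩
  · rintro ⟨h2, h3⟩
    exact ⟨h1.2 h2, T.t5b_nab_off hF hA (fun z hz => (h z hz).symm) h3⟩

/-- TARGET. monotonicity of being reached in the input -/
theorem rch_mono {F : Finset (Set V)} {g g' : V → ℕ} (hg : ∀ z ∈ fs F, g z ≤ g' z) {A : Set V} (hA : A ⊆ fs F) {G : Finset V} {ζ : V → ℕ}
    (h : rch D g (gw D r g (gp G F) ζ) A) : rch D g' (gw D r g' (gp G F) ζ) A := by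
  obtain ⟨z, hz, h1 | ⟨x, hxW, hxA, hxz⟩⟩ := h
  · exact ⟨z, hz, Or.inl (lt_of_lt_of_le h1 (hg z (hA hz)))⟩
  · refine ⟨z, hz, Or.inr ⟨x, gw_mono (Finset.Subset.refl _) ?_ hxW, hxA, hxz⟩⟩
    intro y hy
    have := hg y (t5b_mem_gp.1 hy).2
    omega

/-- following a walk along vertices of height `r` -/
theorem t5b_walk {g : V → ℕ} {G : Finset V} {ζ : V → ℕ} {Q : Finset V} (hQ : ∀ z ∈ Q, z ∈ G ∧ ζ z = r) :
    ∀ {a b : V} (p : D.Walk a b), (∀ z ∈ p.support, z ∈ (Q : Set V)) → a ∈ gw D r g G ζ → b ∈ gw D r g G ζ := by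
  intro a b p
  induction p with
  | nil => intro _ h; exact h
  | cons hadj p ih =>
    rename_i u v w
    intro hs hu
    refine ih (fun z hz => hs z (by rw [SimpleGraph.Walk.support_cons]; exact List.mem_cons_of_mem _ hz)) ?_
    have hv : v ∈ Q := by
      have := hs v (by rw [SimpleGraph.Walk.support_cons]; exact List.mem_cons_of_mem _ p.start_mem_support)
      exact Finset.mem_coe.1 this
    by_contra hcon
    have h1 := (gw_GCl (D := D) (r := r) g G ζ).2 v (hQ v hv).1 hcon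
    have h2 := t5b_dg_pos hu hadj.symm
    have h3 := (hQ v hv).2
    omega

/-- TARGET. a reached cone with a full piece topples the whole piece (the vertex of `A` that receives a grain from outside is in `Q A` by `ib_sub`, its height is `r`, so it topples; then follow walks in `Q A`) -/
theorem fb_sub {F : Finset (Set V)} (hF : T.Fo F) {g : V → ℕ} (hg : ∀ z ∈ fs F, g z ≤ T.fi F z) {i : ℕ} {A : Set V} (hA : A ∈ T.de F i) {G : Finset V} {ζ : V → ℕ}
    (hζ : ζ ∈ Rc D r (gp G F)) (h : rch D g (gw D r g (gp G F) ζ) A) (hb : T.fb ζ A) : ∀ z ∈ T.Q A, z ∈ gw D r g (gp G F) ζ := by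
  have hcn := T.t5b_cn hF hA
  have hQ : ∀ z ∈ T.Q A, z ∈ gp G F ∧ ζ z = r := by
    intro z hz
    have h1 := hb z hz
    refine ⟨?_, h1⟩
    by_contra hcon
    have h2 := (mem_Rc.1 hζ).1.2 z hcon
    have h3 := T.gd.one_le
    omega
  obtain ⟨z0, hz0, hz0W⟩ : ∃ z0 ∈ T.Q A, z0 ∈ gw D r g (gp G F) ζ := by
    obtain ⟨z0, hz0, h1 | ⟨x, hxW, hxA, hxz⟩⟩ := h
    · obtain ⟨x, hx, hxz⟩ := T.t5b_inp hF hg hA hz0 h1
      have hz0Q := (T.ib_sub hcn hz0 hx hxz).1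
      refine ⟨z0, hz0Q, ?_⟩
      by_contra hcon
      have h2 := (gw_GCl (D := D) (r := r) g (gp G F) ζ).2 z0 (hQ z0 hz0Q).1 hcon
      have h3 := (hQ z0 hz0Q).2
      omega
    · have hz0Q := (T.ib_sub hcn hz0 hxA hxz.symm).1
      refine ⟨z0, hz0Q, ?_⟩
      by_contra hcon
      have h2 := (gw_GCl (D := D) (r := r) g (gp G F) ζ).2 z0 (hQ z0 hz0Q).1 hcon
      have h3 := (hQ z0 hz0Q).2
      have h4 := t5b_dg_pos hxW hxz.symm
      omega
  intro z hz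
  obtain ⟨p, hp⟩ := T.Q_conn hcn z0 (Finset.mem_coe.2 hz0) z (Finset.mem_coe.2 hz)
  exact t5b_walk hQ p hp hz0W

end TS

end Pool.Agent.Helper910.QT
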