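import Mathlib
import Pool.Agent.Helper910.T4
import Pool.Agent.Helper910.T5b

/-! Flux and escape (MP_4555f0_mp) -/

namespace Pool.Agent.Helper910.QT

open Classical Finset

variable {V : Type*} {D : SimpleGraph V} [D.LocallyFinite] {r : ℕ}

/-- number of neighbours of `z` in `C` outside `G` -/
noncomputable def eo (D : SimpleGraph V) [D.LocallyFinite] (C : Set V) (G : Finset V) (z : V) : ℕ :=
  ((D.neighborFinset z).filter (fun y => y ∈ C ∧ y ∉ G)).card

/-- escape flux of `f` in the cone `C` -/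
noncomputable def TS.esc (T : TS D r) (C : Set V) (G : Finset V) (f : V → ℝ) : ℝ := ∑ z ∈ gp G {C} ∪ T.o C, f z * (eo D C G z : ℝ)

/-- flux of `f` into the cone `C` -/
noncomputable def TS.fl (T : TS D r) (C : Set V) (f : V → ℝ) : ℝ :=
  ∑ x ∈ T.o C, ∑ y ∈ (D.neighborFinset x).filter (fun y => y ∈ C), (f x - f y)

/-- the function `u` of a cone -/
noncomputable def TS.uc (T : TS D r) (C : Set V) (G : Finset V) : V → ℝ := hu D r (T.o C) (gp G {C})

omit [D.LocallyFinite] in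
/-- TARGET. a connected finite set contains a short walk between any two of its points (take a walk without repetitions) -/
theorem short_walk {S : Finset V} (hS : InConn D (S : Set V)) {a b : V} (ha : a ∈ S) (hb : b ∈ S) :
    ∃ p : D.Walk a b, p.length < S.card ∧ ∀ v ∈ p.support, v ∈ S := by
  obtain ⟨p, hp⟩ := hS a (Finset.mem_coe.2 ha) b (Finset.mem_coe.2 hb)
  have hsub : ∀ v ∈ p.bypass.support, v ∈ S := fun v hv =>
    Finset.mem_coe.1 (hp v (SimpleGraph.Walk.support_bypass_subset_support p hv))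
  refine ⟨p.bypass, ?_, hsub⟩
  have hnd : p.bypass.support.Nodup := (SimpleGraph.Walk.bypass_isPath p).support_nodup
  have h1 : p.bypass.support.toFinset ⊆ S := by
    intro v hv
    exact hsub v (List.mem_toFinset.1 hv)
  have h2 := Finset.card_le_card h1
  rw [List.toFinset_card_of_nodup hnd, SimpleGraph.Walk.length_support] at h2
  omega

omit [D.LocallyFinite] in
theorem t6_chain {f : V → ℝ} {P : V → Prop}
    (h : ∀ z, P z → ∀ x, D.Adj z x → f x ≤ r * f z) :
    ∀ {a b : V} (p : D.Walk a b), (∀ v ∈ p.support, P v) → f a ≤ (r : ℝ) ^ p.length * f b := by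
  intro a b p
  induction p with
  | nil => intro _; simp
  | @cons u v w e q ih =>
    intro hp
    have hq : ∀ x ∈ q.support, P x := fun x hx => hp x (by
      rw [SimpleGraph.Walk.support_cons]; exact List.mem_cons_of_mem _ hx)
    have h1 := ih hq
    have h2 := h v (hq v (SimpleGraph.Walk.start_mem_support q)) u e.symm
    rw [SimpleGraph.Walk.length_cons, pow_succ']
    have hr0 : (0 : ℝ) ≤ r := Nat.cast_nonneg r
    calc f u ≤ r * f v := h2
      _ ≤ r * ((r : ℝ) ^ q.length * f w) := mul_le_mul_of_nonneg_left h1 hr0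
      _ = _ := by ring

omit [D.LocallyFinite] in
/-- TARGET. Harnack chains -/
theorem chain1 {S : Finset V} (hS : InConn D (S : Set V)) (hr : 1 ≤ r) {f : V → ℝ} (h0 : ∀ z, 0 ≤ f z)
    (h : ∀ z ∈ S, ∀ x, D.Adj z x → f x ≤ r * f z) {a b : V} (ha : a ∈ S) (hb : b ∈ S) : f a ≤ (r : ℝ) ^ S.card * f b := by
  obtain ⟨p, hp, hps⟩ := short_walk hS ha hb
  have h1 := t6_chain (r := r) (P := fun z => z ∈ S) h p hps
  have hr1 : (1 : ℝ) ≤ r := by exact_mod_cast hr
  exact h1.trans (mul_le_mul_of_nonneg_right (pow_le_pow_right₀ hr1 hp.le) (h0 b))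

omit [D.LocallyFinite] in
theorem t6_chain2 {S : Finset V} {G : Finset V} (hr : 1 ≤ r) {f : V → ℝ} (h0 : ∀ z, 0 ≤ f z)
    (h : ∀ z ∈ S, z ∈ G → ∀ x, D.Adj z x → f x ≤ r * f z) :
    ∀ {a b : V} (p : D.Walk a b), (∀ v ∈ p.support, v ∈ S) → a ∈ G → b ∉ G →
      ∃ z ∈ S, z ∈ G ∧ (∃ y ∈ S, y ∉ G ∧ D.Adj z y) ∧ f a ≤ (r : ℝ) ^ p.length * f z := by
  have hr1 : (1 : ℝ) ≤ r := by exact_mod_cast hr
  intro a b p
  induction p with
  | nil => intro _ h1 h2; exact absurd h1 h2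
  | @cons u v w e q ih =>
    intro hp hu hw
    have hq : ∀ x ∈ q.support, x ∈ S := fun x hx => hp x (by
      rw [SimpleGraph.Walk.support_cons]; exact List.mem_cons_of_mem _ hx)
    have huS : u ∈ S := hp u (SimpleGraph.Walk.start_mem_support _)
    have hvS : v ∈ S := hq v (SimpleGraph.Walk.start_mem_support q)
    by_cases hv : v ∈ G
    · obtain ⟨z, hzS, hzG, hy, hz⟩ := ih hq hv hw
      refine ⟨z, hzS, hzG, hy, ?_⟩
      rw [SimpleGraph.Walk.length_cons, pow_succ']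
      have h2 := h v hvS hv u e.symm
      have hr0 : (0 : ℝ) ≤ r := Nat.cast_nonneg r
      calc f u ≤ r * f v := h2
        _ ≤ r * ((r : ℝ) ^ q.length * f z) := mul_le_mul_of_nonneg_left hz hr0
        _ = _ := by ring
    · refine ⟨u, huS, hu, ⟨v, hvS, hv, e⟩, ?_⟩
      have h1 : (1 : ℝ) ≤ (r : ℝ) ^ (SimpleGraph.Walk.cons e q).length := one_le_pow₀ hr1
      nlinarith [h0 u]

omit [D.LocallyFinite] in
/-- TARGET. Harnack chain up to the first missing vertex -/
theorem chain2 {S G : Finset V} (hS : InConn D (S : Set V)) (hr : 1 ≤ r) (hG : ¬ S ⊆ G) {f : V → ℝ} (h0 : ∀ z, 0 ≤ f z)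
    (h : ∀ z ∈ S, z ∈ G → ∀ x, D.Adj z x → f x ≤ r * f z) {a : V} (ha : a ∈ S) (haG : a ∈ G) :
    ∃ z ∈ S, z ∈ G ∧ (∃ y ∈ S, y ∉ G ∧ D.Adj z y) ∧ f a ≤ (r : ℝ) ^ S.card * f z := by
  have hr1 : (1 : ℝ) ≤ r := by exact_mod_cast hr
  obtain ⟨b, hbS, hbG⟩ := Finset.not_subset.1 hG
  obtain ⟨p, hp, hps⟩ := short_walk hS ha hbS
  obtain ⟨z, hzS, hzG, hy, hz⟩ := t6_chain2 hr h0 h p hps haG hbG
  exact ⟨z, hzS, hzG, hy, hz.trans (mul_le_mul_of_nonneg_right (pow_le_pow_right₀ hr1 hp.le) (h0 z))⟩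

theorem t6_nsum_sub (H : Gd D r) (f : V → ℝ) (z : V) :
    (r : ℝ) * f z - nsum D f z = ∑ x ∈ D.neighborFinset z, (f z - f x) := by
  rw [Finset.sum_sub_distrib, Finset.sum_const, SimpleGraph.card_neighborFinset_eq_degree, H.reg z, nsmul_eq_mul]
  rfl

theorem t6_disj (T : TS D r) {C : Set V} (hC : T.Cn C) (G : Finset V) : Disjoint (T.o C) (gp G {C}) := by
  rw [Finset.disjoint_left]
  intro x hx hx'
  rw [TS.mem_gp] at hx'
  exact T.o_notMem hC hx (TS.t5b_fs_single.1 hx'.2)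

theorem t6_mem_gp {C : Set V} {G : Finset V} {z : V} : z ∈ gp G {C} ↔ z ∈ G ∧ z ∈ C := by
  rw [TS.mem_gp, TS.t5b_fs_single]

theorem t6_swap {P Q : Finset V} {F : V → V → ℝ} (hF : ∀ a b, F a b = - F b a) :
    ∑ x ∈ P, ∑ y ∈ (D.neighborFinset x).filter (fun y => y ∈ Q), F x y =
      - ∑ y ∈ Q, ∑ x ∈ (D.neighborFinset y).filter (fun x => x ∈ P), F y x := by
  rw [Finset.sum_comm' (s' := fun y => (D.neighborFinset y).filter (fun x => x ∈ P)) (t' := Q), ← Finset.sum_neg_distrib]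
  · refine Finset.sum_congr rfl fun y _ => ?_
    rw [← Finset.sum_neg_distrib]
    exact Finset.sum_congr rfl fun x _ => hF x y
  · intro x y
    simp only [Finset.mem_filter, SimpleGraph.mem_neighborFinset]
    constructor
    · rintro ⟨h1, h2, h3⟩
      exact ⟨⟨h2.symm, h1⟩, h3⟩
    · rintro ⟨⟨h1, h2⟩, h3⟩
      exact ⟨h2, h1.symm, h3⟩

/-- TARGET. conservation: sum of `r f z - nsum f z = 0` over `z ∈ gp G {C}`; the inner edges cancel -/
theorem TS.fl_eq_esc (T : TS D r) {C : Set V} (hC : T.Cn C) {G : Finset V} {f : V → ℝ} (h1 : ∀ z ∈ gp G {C}, (r : ℝ) * f z = nsum D f z)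
    (h2 : ∀ z ∈ C, z ∉ G → f z = 0) : T.fl C f = T.esc C G f := by
  have hS : ∀ z, z ∈ gp G {C} ↔ z ∈ G ∧ z ∈ C := fun z => t6_mem_gp
  -- neighbours of a vertex of the cone
  have hsplit : ∀ z ∈ gp G {C}, ∑ x ∈ D.neighborFinset z, (f z - f x) =
      ∑ x ∈ (D.neighborFinset z).filter (fun x => x ∈ gp G {C}), (f z - f x) +
      ∑ x ∈ (D.neighborFinset z).filter (fun x => x ∈ T.o C), (f z - f x) + f z * (eo D C G z : ℝ) := by
    intro z hz
    have hzC : z ∈ C := ((hS z).1 hz).2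
    rw [← Finset.sum_filter_add_sum_filter_not (D.neighborFinset z) (fun x => x ∈ gp G {C}), add_assoc]
    congr 1
    rw [← Finset.sum_filter_add_sum_filter_not ((D.neighborFinset z).filter (fun x => ¬ x ∈ gp G {C})) (fun x => x ∈ T.o C)]
    congr 1
    · refine Finset.sum_congr ?_ fun _ _ => rfl
      ext x
      simp only [Finset.mem_filter, SimpleGraph.mem_neighborFinset]
      constructor
      · rintro ⟨⟨h1, _⟩, h3⟩
        exact ⟨h1, h3⟩
      · rintro ⟨h1, h3⟩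
        exact ⟨⟨h1, fun h => T.o_notMem hC h3 ((hS x).1 h).2⟩, h3⟩
    · have hset : ((D.neighborFinset z).filter (fun x => ¬ x ∈ gp G {C})).filter (fun x => ¬ x ∈ T.o C) =
          (D.neighborFinset z).filter (fun y => y ∈ C ∧ y ∉ G) := by
        ext x
        simp only [Finset.mem_filter, SimpleGraph.mem_neighborFinset, hS]
        constructor
        · rintro ⟨⟨h1, h3⟩, h4⟩
          have hxC : x ∈ C := by
            by_contra hx
            exact h4 (T.ib_sub hC hzC hx h1).2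
          exact ⟨h1, hxC, fun hG => h3 ⟨hG, hxC⟩⟩
        · rintro ⟨h1, h3, h4⟩
          exact ⟨⟨h1, fun h => h4 h.1⟩, fun h => T.o_notMem hC h h3⟩
      rw [hset]
      unfold eo
      rw [mul_comm, ← nsmul_eq_mul, ← Finset.sum_const]
      refine Finset.sum_congr rfl fun x hx => ?_
      obtain ⟨_, hx1, hx2⟩ := Finset.mem_filter.1 hx
      rw [h2 x hx1 hx2, sub_zero]
  have hA : ∑ z ∈ gp G {C}, ∑ x ∈ (D.neighborFinset z).filter (fun x => x ∈ gp G {C}), (f z - f x) = 0 := by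
    have := t6_swap (D := D) (P := gp G {C}) (Q := gp G {C}) (F := fun a b => f a - f b) (fun a b => by ring)
    linarith
  have hB := t6_swap (D := D) (P := T.o C) (Q := gp G {C}) (F := fun a b => f a - f b) (fun a b => by ring)
  have hsum : ∑ z ∈ gp G {C}, ∑ x ∈ D.neighborFinset z, (f z - f x) = 0 := by
    refine Finset.sum_eq_zero fun z hz => ?_
    rw [← t6_nsum_sub T.gd, h1 z hz, sub_self]
  rw [Finset.sum_congr rfl hsplit, Finset.sum_add_distrib, Finset.sum_add_distrib, hA] at hsum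
  have hfl : T.fl C f = ∑ x ∈ T.o C, ∑ y ∈ (D.neighborFinset x).filter (fun y => y ∈ gp G {C}), (f x - f y) +
      ∑ x ∈ T.o C, f x * (eo D C G x : ℝ) := by
    unfold TS.fl
    rw [← Finset.sum_add_distrib]
    refine Finset.sum_congr rfl fun x hx => ?_
    rw [← Finset.sum_filter_add_sum_filter_not ((D.neighborFinset x).filter (fun y => y ∈ C)) (fun y => y ∈ G)]
    congr 1
    · refine Finset.sum_congr ?_ fun _ _ => rfl
      ext y
      simp only [Finset.mem_filter, hS]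
      tauto
    · unfold eo
      have hset : ((D.neighborFinset x).filter (fun y => y ∈ C)).filter (fun y => ¬ y ∈ G) =
          (D.neighborFinset x).filter (fun y => y ∈ C ∧ y ∉ G) := by
        ext y
        simp only [Finset.mem_filter]
        tauto
      rw [hset, mul_comm, ← nsmul_eq_mul, ← Finset.sum_const]
      refine Finset.sum_congr rfl fun y hy => ?_
      obtain ⟨_, hy1, hy2⟩ := Finset.mem_filter.1 hy
      rw [h2 y hy1 hy2, sub_zero]
  have hesc : T.esc C G f = ∑ z ∈ gp G {C}, f z * (eo D C G z : ℝ) + ∑ x ∈ T.o C, f x * (eo D C G x : ℝ) := by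
    unfold TS.esc
    rw [Finset.sum_union (t6_disj T hC G).symm]
  rw [hfl, hesc, hB]
  linarith

/-- TARGET. the escape flux is at least the escape flux in the children plus, if the top piece is not in `G`, the flux through one missing edge. (A vertex adjacent to a vertex of the child `C'`
is in `C'` or in `o C' ⊆ Q C`; `f = 0` on `C \ G`.) -/
theorem TS.esc_ch (T : TS D r) {C : Set V} (hC : T.Cn C) {G : Finset V} {f : V → ℝ} (h0 : ∀ z, 0 ≤ f z) (h2 : ∀ z ∈ C, z ∉ G → f z = 0) :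
    ∑ C' ∈ T.ch C, T.esc C' G f + ∑ z ∈ gp G {C} ∪ T.o C, f z * (((D.neighborFinset z).filter (fun y => y ∈ T.Q C ∧ y ∉ G)).card : ℝ) ≤ T.esc C G f := by
  have hkey : ∀ z, (∑ C' ∈ T.ch C, (eo D C' G z : ℝ)) + (((D.neighborFinset z).filter (fun y => y ∈ T.Q C ∧ y ∉ G)).card : ℝ) ≤ (eo D C G z : ℝ) := by
    intro z
    have h3 : ∑ C' ∈ T.ch C, eo D C' G z = ((T.ch C).biUnion (fun C' => (D.neighborFinset z).filter (fun y => y ∈ C' ∧ y ∉ G))).card := by
      rw [Finset.card_biUnion]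
      · rfl
      · intro A hA B hB hAB
        rw [Function.onFun, Finset.disjoint_left]
        intro y hy hy'
        exact Set.disjoint_left.1 (T.ch_disj hC A hA B hB hAB) (Finset.mem_filter.1 hy).2.1 (Finset.mem_filter.1 hy').2.1
    have h4 : ((T.ch C).biUnion (fun C' => (D.neighborFinset z).filter (fun y => y ∈ C' ∧ y ∉ G))).card +
        ((D.neighborFinset z).filter (fun y => y ∈ T.Q C ∧ y ∉ G)).card ≤ eo D C G z := by
      rw [← Finset.card_union_of_disjoint]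
      · unfold eo
        refine Finset.card_le_card ?_
        intro y hy
        rw [Finset.mem_union, Finset.mem_biUnion] at hy
        rw [Finset.mem_filter]
        rcases hy with ⟨C', hC', hy⟩ | hy
        · rw [Finset.mem_filter] at hy
          exact ⟨hy.1, T.ch_sub hC hC' hy.2.1, hy.2.2⟩
        · rw [Finset.mem_filter] at hy
          exact ⟨hy.1, T.Q_sub hC hy.2.1, hy.2.2⟩
      · rw [Finset.disjoint_left]
        intro y hy hy'
        rw [Finset.mem_biUnion] at hy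
        obtain ⟨C', hC', hy⟩ := hy
        exact T.Q_notMem hC C' hC' y (Finset.mem_filter.1 hy').2.1 (Finset.mem_filter.1 hy).2.1
    rw [← h3] at h4
    exact_mod_cast h4
  have hsub : ∀ C' ∈ T.ch C, T.esc C' G f ≤ ∑ z ∈ gp G {C} ∪ T.o C, f z * (eo D C' G z : ℝ) := by
    intro C' hC'
    unfold TS.esc
    have hz0 : ∀ z ∈ gp G {C'} ∪ T.o C', z ∉ gp G {C} ∪ T.o C → f z * (eo D C' G z : ℝ) = 0 := by
      intro z hz hz'
      have hzC : z ∈ C := by
        rcases Finset.mem_union.1 hz with hz | hz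
        · exact T.ch_sub hC hC' (t6_mem_gp.1 hz).2
        · exact T.Q_sub hC (T.o_sub hC C' hC' hz)
      have hzG : z ∉ G := fun h => hz' (Finset.mem_union.2 (Or.inl (t6_mem_gp.2 ⟨h, hzC⟩)))
      rw [h2 z hzC hzG, zero_mul]
    calc ∑ z ∈ gp G {C'} ∪ T.o C', f z * (eo D C' G z : ℝ)
        ≤ ∑ z ∈ (gp G {C'} ∪ T.o C') ∪ (gp G {C} ∪ T.o C), f z * (eo D C' G z : ℝ) :=
          Finset.sum_le_sum_of_subset_of_nonneg Finset.subset_union_left
            (fun z _ _ => mul_nonneg (h0 z) (Nat.cast_nonneg _))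
      _ = ∑ z ∈ gp G {C} ∪ T.o C, f z * (eo D C' G z : ℝ) := by
          symm
          refine Finset.sum_subset Finset.subset_union_right fun z hz hz' => ?_
          rcases Finset.mem_union.1 hz with hz | hz
          · exact hz0 z hz hz'
          · exact absurd hz hz'
  calc ∑ C' ∈ T.ch C, T.esc C' G f + ∑ z ∈ gp G {C} ∪ T.o C, f z * (((D.neighborFinset z).filter (fun y => y ∈ T.Q C ∧ y ∉ G)).card : ℝ)
      ≤ ∑ C' ∈ T.ch C, ∑ z ∈ gp G {C} ∪ T.o C, f z * (eo D C' G z : ℝ) +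
        ∑ z ∈ gp G {C} ∪ T.o C, f z * (((D.neighborFinset z).filter (fun y => y ∈ T.Q C ∧ y ∉ G)).card : ℝ) :=
        add_le_add (Finset.sum_le_sum hsub) le_rfl
    _ = ∑ z ∈ gp G {C} ∪ T.o C, f z * ((∑ C' ∈ T.ch C, (eo D C' G z : ℝ)) + (((D.neighborFinset z).filter (fun y => y ∈ T.Q C ∧ y ∉ G)).card : ℝ)) := by
        rw [Finset.sum_comm, ← Finset.sum_add_distrib]
        refine Finset.sum_congr rfl fun z _ => ?_
        rw [mul_add, Finset.mul_sum]
    _ ≤ T.esc C G f := by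
        unfold TS.esc
        exact Finset.sum_le_sum fun z _ => mul_le_mul_of_nonneg_left (hkey z) (h0 z)

/-- TARGET. -/
theorem TS.esc_mono (T : TS D r) {C : Set V} {G : Finset V} {f f' : V → ℝ} (h : ∀ z ∈ gp G {C} ∪ T.o C, f z ≤ f' z) : T.esc C G f ≤ T.esc C G f' := by
  unfold TS.esc
  exact Finset.sum_le_sum fun z hz => mul_le_mul_of_nonneg_right (h z hz) (Nat.cast_nonneg _)

/-- TARGET. -/
theorem TS.esc_nonneg (T : TS D r) {C : Set V} {G : Finset V} {f : V → ℝ} (h : ∀ z, 0 ≤ f z) : 0 ≤ T.esc C G f := by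
  unfold TS.esc
  exact Finset.sum_nonneg fun z _ => mul_nonneg (h z) (Nat.cast_nonneg _)

/-- TARGET. basic properties of `uc` -/
theorem TS.uc_spec (T : TS D r) {C : Set V} (hC : T.Cn C) (G : Finset V) :
    (∀ z ∈ gp G {C}, (r : ℝ) * T.uc C G z = nsum D (T.uc C G) z) ∧ (∀ z ∈ T.o C, T.uc C G z = 1) ∧
      (∀ z, z ∉ T.o C → z ∉ gp G {C} → T.uc C G z = 0) ∧ (∀ z, 0 ≤ T.uc C G z) ∧ (∀ z, T.uc C G z ≤ 1) :=
  ⟨fun _ hz => hu_harm T.gd (t6_disj T hC G) hz, fun _ hz => hu_one hz, fun _ hz hz' => hu_zero hz hz', fun z => hu_nonneg z,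
    fun z => hu_le_one z⟩

/-- TARGET. comparison on a cone: if `f ≥ 0` is superharmonic on `gp G {C}` and `f ≥ t` on `o C`, then `f ≥ t · uc` -/
theorem TS.uc_le (T : TS D r) {C : Set V} (hC : T.Cn C) {G : Finset V} {f : V → ℝ} {t : ℝ} (h0 : ∀ z, 0 ≤ f z)
    (h1 : ∀ z ∈ gp G {C}, nsum D f z ≤ (r : ℝ) * f z) (h2 : ∀ z ∈ T.o C, t ≤ f z) (z : V) : t * T.uc C G z ≤ f z := by
  obtain ⟨u1, u2, u3, _, _⟩ := T.uc_spec hC G
  refine T.gd.comp (S := gp G {C}) (f := fun x => t * T.uc C G x) ?_ h1 ?_ z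
  · intro x hx
    have : nsum D (fun x => t * T.uc C G x) x = t * nsum D (T.uc C G) x := by
      unfold nsum; rw [Finset.mul_sum]
    rw [this, ← u1 x hx]
    exact le_of_eq (by ring)
  · intro x hx
    by_cases hxo : x ∈ T.o C
    · show t * T.uc C G x ≤ f x
      rw [u2 x hxo, mul_one]
      exact h2 x hxo
    · show t * T.uc C G x ≤ f x
      rw [u3 x hxo hx, mul_zero]
      exact h0 x

/-- TARGET. comparison from above: if `f` is subharmonic on `gp G {C}`, `f ≤ t` on `o C` (`t ≥ 0`), and `f ≤ 0` on `C \ G`, then `f ≤ t · uc` on `C` -/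
theorem TS.le_uc (T : TS D r) {C : Set V} (hC : T.Cn C) {G : Finset V} {f : V → ℝ} {t : ℝ} (ht : 0 ≤ t)
    (h1 : ∀ z ∈ gp G {C}, (r : ℝ) * f z ≤ nsum D f z) (h2 : ∀ z ∈ T.o C, f z ≤ t) (h3 : ∀ z ∈ C, z ∉ G → f z ≤ 0) {z : V} (hz : z ∈ C) :
    f z ≤ t * T.uc C G z := by
  obtain ⟨u1, u2, u3, u4, _⟩ := T.uc_spec hC G
  have key := T.gd.comp (S := gp G {C}) (f := fun x => if x ∈ C ∨ x ∈ T.o C then f x else 0) (g := fun x => t * T.uc C G x) ?_ ?_ ?_ z
  · simpa [hz] using key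
  · intro x hx
    have hxC : x ∈ C := (t6_mem_gp.1 hx).2
    have : nsum D (fun x => if x ∈ C ∨ x ∈ T.o C then f x else 0) x = nsum D f x := by
      unfold nsum
      refine Finset.sum_congr rfl fun y hy => ?_
      rw [SimpleGraph.mem_neighborFinset] at hy
      have : y ∈ C ∨ y ∈ T.o C := by
        by_cases hyC : y ∈ C
        · exact Or.inl hyC
        · exact Or.inr (T.ib_sub hC hxC hyC hy).2
      exact if_pos this
    rw [this]
    simpa [hxC] using h1 x hx
  · intro x hx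
    have : nsum D (fun x => t * T.uc C G x) x = t * nsum D (T.uc C G) x := by
      unfold nsum; rw [Finset.mul_sum]
    rw [this, ← u1 x hx]
    exact le_of_eq (by ring)
  · intro x hx
    have hnn : 0 ≤ t * T.uc C G x := mul_nonneg ht (u4 x)
    show (if x ∈ C ∨ x ∈ T.o C then f x else 0) ≤ t * T.uc C G x
    split_ifs with h
    · rcases h with h | h
      · have hxG : x ∉ G := fun hG => hx (t6_mem_gp.2 ⟨hG, h⟩)
        exact (h3 x h hxG).trans hnn
      · rw [u2 x h, mul_one]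
        exact h2 x h
    · exact hnn

theorem t6_eo_pos {C : Set V} {G : Finset V} {z y : V} (hy : y ∈ C) (hG : y ∉ G) (h : D.Adj z y) : 1 ≤ eo D C G z := by
  unfold eo
  refine Finset.card_pos.2 ⟨y, ?_⟩
  rw [Finset.mem_filter, SimpleGraph.mem_neighborFinset]
  exact ⟨h, hy, hG⟩

theorem t6_esc_ge (T : TS D r) {C : Set V} {G : Finset V} {f : V → ℝ} (h0 : ∀ z, 0 ≤ f z) {z y : V} (hz : z ∈ gp G {C} ∪ T.o C)
    (hy : y ∈ C) (hG : y ∉ G) (h : D.Adj z y) : f z ≤ T.esc C G f := by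
  unfold TS.esc
  refine le_trans ?_ (Finset.single_le_sum (f := fun z => f z * (eo D C G z : ℝ)) (fun z _ => mul_nonneg (h0 z) (Nat.cast_nonneg _)) hz)
  have : (1 : ℝ) ≤ (eo D C G z : ℝ) := by exact_mod_cast t6_eo_pos hy hG h
  show f z ≤ f z * (eo D C G z : ℝ)
  nlinarith [h0 z]

theorem t6_fl_ge (T : TS D r) {C : Set V} {f : V → ℝ} (h0 : ∀ x ∈ T.o C, ∀ y, f y ≤ f x) {x y : V} (hx : x ∈ T.o C)
    (hy : y ∈ C) (h : D.Adj x y) : f x - f y ≤ T.fl C f := by
  unfold TS.fl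
  have h1 : f x - f y ≤ ∑ y ∈ (D.neighborFinset x).filter (fun y => y ∈ C), (f x - f y) := by
    refine Finset.single_le_sum (f := fun y => f x - f y) (fun z _ => by have := h0 x hx z; linarith) ?_
    rw [Finset.mem_filter, SimpleGraph.mem_neighborFinset]
    exact ⟨h, hy⟩
  refine h1.trans ?_
  exact Finset.single_le_sum (f := fun x => ∑ y ∈ (D.neighborFinset x).filter (fun y => y ∈ C), (f x - f y))
    (fun x hx => Finset.sum_nonneg fun z _ => by have := h0 x hx z; linarith) hx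

theorem t6_g0_step (T : TS D r) {C : Set V} (hC : T.Cn C) (G : Finset V) (hpos : 0 < 1 / (2 * (r : ℝ) ^ (T.m + 1)))
    (ih : ∀ C' ∈ T.ch C, (gp G {C'}).card < (gp G {C}).card → 1 / (2 * (r : ℝ) ^ (T.m + 1)) ≤ T.esc C' G (T.uc C' G)) :
    1 / (2 * (r : ℝ) ^ (T.m + 1)) ≤ T.esc C G (T.uc C G) := by
  have hr1 : (1 : ℝ) ≤ r := by exact_mod_cast T.gd.one_le
  have hr0 : (0 : ℝ) < r := by linarith
  obtain ⟨u1, u2, u3, u4, u5⟩ := T.uc_spec hC G
  set P : ℝ := (r : ℝ) ^ (T.m + 1) with hP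
  have hP1 : 1 ≤ P := one_le_pow₀ hr1
  have hPm : (r : ℝ) ^ T.m * r = P := by rw [hP, pow_succ]
  have hPm1 : (1 : ℝ) ≤ (r : ℝ) ^ T.m := one_le_pow₀ hr1
  have hQc : (r : ℝ) ^ (T.Q C).card ≤ (r : ℝ) ^ T.m := pow_le_pow_right₀ hr1 (T.Q_card hC)
  have hle1 : 1 / (2 * P) ≤ 1 / P := one_div_le_one_div_of_le (by positivity) (by linarith)
  obtain ⟨x, hx⟩ := T.o_ne hC
  obtain ⟨y, hyQ, hxy⟩ := T.o_edge hC hx
  have hyC : y ∈ C := T.Q_sub hC hyQ
  by_cases hQG : T.Q C ⊆ G
  · have hyS : ∀ z ∈ T.Q C, z ∈ gp G {C} := fun z hz => t6_mem_gp.2 ⟨hQG hz, T.Q_sub hC hz⟩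
    by_cases hhalf : ∃ z ∈ T.Q C, T.uc C G z ≤ 1 / 2
    · -- case (b)
      obtain ⟨z, hz, hzu⟩ := hhalf
      have hch := chain1 (f := fun v => 1 - T.uc C G v) (r := r) (T.Q_conn hC) T.gd.one_le (fun v => by have := u5 v; linarith)
        (fun v hv w hw => T.gd.harnack2 u5 (le_of_eq (u1 v (hyS v hv))) hw) hz hyQ
      have h1 : (1 : ℝ) / 2 ≤ (r : ℝ) ^ T.m * (1 - T.uc C G y) := by
        have h2 : (r : ℝ) ^ (T.Q C).card * (1 - T.uc C G y) ≤ (r : ℝ) ^ T.m * (1 - T.uc C G y) :=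
          mul_le_mul_of_nonneg_right hQc (by have := u5 y; linarith)
        have h3 : 1 - T.uc C G z ≤ (r : ℝ) ^ (T.Q C).card * (1 - T.uc C G y) := hch
        linarith
      have h2 : T.uc C G x - T.uc C G y ≤ T.fl C (T.uc C G) :=
        t6_fl_ge T (fun x hx v => by rw [u2 x hx]; exact u5 v) hx hyC hxy
      rw [u2 x hx] at h2
      rw [T.fl_eq_esc hC u1 (fun z hz hzG => u3 z (fun h => T.o_notMem hC h hz) (fun h => hzG (t6_mem_gp.1 h).1))] at h2
      refine le_trans ?_ h2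
      rw [div_le_iff₀ (by positivity)]
      have h4 : 0 ≤ 1 - T.uc C G y := by have := u5 y; linarith
      rw [← hPm]
      nlinarith [mul_nonneg (by linarith : (0 : ℝ) ≤ (r : ℝ) - 1) (mul_nonneg (by positivity : (0 : ℝ) ≤ (r : ℝ) ^ T.m) h4)]
    · -- case (c)
      push Not at hhalf
      have hch : ∀ C' ∈ T.ch C, 1 / (2 * P) ≤ T.esc C' G (T.uc C' G) := by
        intro C' hC'
        refine ih C' hC' (Finset.card_lt_card ?_)
        rw [Finset.ssubset_iff_of_subset]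
        · exact ⟨y, hyS y hyQ, fun h => T.Q_notMem hC C' hC' y hyQ (t6_mem_gp.1 h).2⟩
        · intro v hv
          rw [t6_mem_gp] at hv ⊢
          exact ⟨hv.1, T.ch_sub hC hC' hv.2⟩
      have hcmp : ∀ C' ∈ T.ch C, (1 / 2) * T.esc C' G (T.uc C' G) ≤ T.esc C' G (T.uc C G) := by
        intro C' hC'
        have hC'' := T.ch_cn hC C' hC'
        have h1 : ∀ z, 1 / 2 * T.uc C' G z ≤ T.uc C G z := by
          intro z
          refine T.uc_le hC'' u4 ?_ ?_ z
          · intro v hv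
            refine le_of_eq (u1 v ?_).symm
            rw [t6_mem_gp] at hv ⊢
            exact ⟨hv.1, T.ch_sub hC hC' hv.2⟩
          · intro v hv
            exact (hhalf v (T.o_sub hC C' hC' hv)).le
        have h2 : (1 / 2) * T.esc C' G (T.uc C' G) = T.esc C' G (fun z => 1 / 2 * T.uc C' G z) := by
          unfold TS.esc
          rw [Finset.mul_sum]
          exact Finset.sum_congr rfl fun v _ => by ring
        rw [h2]
        exact T.esc_mono fun z _ => h1 z
      have h3 := T.esc_ch hC (G := G) u4 (fun z hz hzG => u3 z (fun h => T.o_notMem hC h hz) (fun h => hzG (t6_mem_gp.1 h).1))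
      have h4 : 0 ≤ ∑ z ∈ gp G {C} ∪ T.o C, T.uc C G z * (((D.neighborFinset z).filter (fun y => y ∈ T.Q C ∧ y ∉ G)).card : ℝ) :=
        Finset.sum_nonneg fun z _ => mul_nonneg (u4 z) (Nat.cast_nonneg _)
      have h5 : ∑ C' ∈ T.ch C, (1 / 2) * (1 / (2 * P)) ≤ ∑ C' ∈ T.ch C, T.esc C' G (T.uc C G) :=
        Finset.sum_le_sum fun C' hC' => (mul_le_mul_of_nonneg_left (hch C' hC') (by norm_num)).trans (hcmp C' hC')
      rw [Finset.sum_const, nsmul_eq_mul] at h5
      have h6 : (2 : ℝ) ≤ (T.ch C).card := by exact_mod_cast T.two hC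
      have h7 : 0 < 1 / (2 * P) := hpos
      nlinarith
  · -- case (a)
    by_cases hyG : y ∈ G
    · have hyS : y ∈ gp G {C} := t6_mem_gp.2 ⟨hyG, hyC⟩
      have h1 : T.uc C G x ≤ r * T.uc C G y := harnack1 u4 (le_of_eq (u1 y hyS).symm) hxy.symm
      rw [u2 x hx] at h1
      obtain ⟨z, hzQ, hzG, ⟨w, hwQ, hwG, hzw⟩, hzle⟩ := chain2 (T.Q_conn hC) T.gd.one_le hQG u4
        (fun v hv hvG w hw => harnack1 u4 (le_of_eq (u1 v (t6_mem_gp.2 ⟨hvG, T.Q_sub hC hv⟩)).symm) hw) hyQ hyG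
      have h2 : T.uc C G z ≤ T.esc C G (T.uc C G) :=
        t6_esc_ge T u4 (Finset.mem_union.2 (Or.inl (t6_mem_gp.2 ⟨hzG, T.Q_sub hC hzQ⟩))) (T.Q_sub hC hwQ) hwG hzw
      refine hle1.trans (le_trans ?_ h2)
      rw [div_le_iff₀ (by positivity), ← hPm]
      have h3 : (r : ℝ) ^ (T.Q C).card * T.uc C G z ≤ (r : ℝ) ^ T.m * T.uc C G z := mul_le_mul_of_nonneg_right hQc (u4 z)
      nlinarith [mul_le_mul_of_nonneg_left (hzle.trans h3) hr0.le]
    · have h2 : T.uc C G x ≤ T.esc C G (T.uc C G) :=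
        t6_esc_ge T u4 (Finset.mem_union.2 (Or.inr hx)) hyC hyG hxy
      rw [u2 x hx] at h2
      refine hle1.trans (le_trans ?_ h2)
      rw [div_le_one (by positivity)]
      exact hP1

/-- TARGET. ESCAPE. Claim: `g0 = 1/(2 r^(m+1))` works, by induction on `(gp G {C}).card`. Let `u = uc C G`, `m ≥ |Q C|`.
(a) If `Q C ⊄ G`: take `x ∈ o C` (value `1`) and a neighbour `y ∈ Q C` of `x`. If `y ∉ G`, the edge `x y` gives `esc ≥ 1`. Otherwise `u y ≥ 1/r` (Harnack, `r u y = nsum u y ≥ u x`), and `chain2` gives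
`z ∈ Q C ∩ G` with a missing neighbour in `Q C` and `u z ≥ r^(-m) u y`; so `esc ≥ u z ≥ r^(-m-1)`.
(b) If `Q C ⊆ G` and `1 - u z ≥ 1/2` for some `z ∈ Q C`: for `x ∈ o C` with neighbour `y ∈ Q C`, `chain1` for `1 - u` (which satisfies `(1-u)(x) ≤ r (1-u)(z)` at all `z ∈ G` by `harnack2`) gives
`1 - u y ≥ r^(-m)/2`, and `esc = fl ≥ 1 - u y` (`fl_eq_esc`; all terms `u x - u y` are `≥ 0`).
(c) Otherwise `u ≥ 1/2` on `Q C ⊇ o C'` for all children, so `u ≥ (1/2) uc C' G` and `esc C G u ≥ Σ_{C'} esc C' G u ≥ (1/2) Σ_{C'} esc C' G (uc C' G) ≥ (1/2) · 2 · g0` by the induction hypothesis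
(`gp G {C'}` is a proper subset of `gp G {C}` since `Q C ⊆ G` is nonempty) and `two`. -/
theorem TS.exists_g0 (T : TS D r) : ∃ g : ℝ, 0 < g ∧ g ≤ 1 ∧ ∀ C, T.Cn C → ∀ G : Finset V, g ≤ T.esc C G (T.uc C G) := by
  have hr1 : (1 : ℝ) ≤ r := by exact_mod_cast T.gd.one_le
  have hr0 : (0 : ℝ) < r := by linarith
  set P : ℝ := (r : ℝ) ^ (T.m + 1) with hP
  have hP1 : 1 ≤ P := one_le_pow₀ hr1
  have hPm : (r : ℝ) ^ T.m * r = P := by rw [hP, pow_succ]
  refine ⟨1 / (2 * P), by positivity, ?_, ?_⟩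
  · rw [div_le_one (by positivity)]; linarith
  have main : ∀ n : ℕ, ∀ C, T.Cn C → ∀ G : Finset V, (gp G {C}).card ≤ n → 1 / (2 * P) ≤ T.esc C G (T.uc C G) := by
    intro n
    induction n with
    | zero => 
      intro C hC G hn
      exact t6_g0_step T hC G (by rw [← hP]; positivity) (by
        intro C' hC' hlt
        omega)
    | succ n ih => 
      intro C hC G hn
      exact t6_g0_step T hC G (by rw [← hP]; positivity) (by
        intro C' hC' hlt
        exact ih C' (T.ch_cn hC C' hC') G (by omega))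
  intro C hC G
  exact main _ C hC G le_rfl

noncomputable def TS.g0 (T : TS D r) : ℝ := T.exists_g0.choose

theorem TS.g0_pos (T : TS D r) : 0 < T.g0 := T.exists_g0.choose_spec.1

theorem TS.g0_le (T : TS D r) {C : Set V} (hC : T.Cn C) (G : Finset V) : T.g0 ≤ T.esc C G (T.uc C G) := T.exists_g0.choose_spec.2.2 C hC G

/-- TARGET. hence `u` stays away from `1` on the top piece: the flux `fl C u ≤ Σ_{edges} (1 - u y)` over at most `m r` edges is `≥ g0`, so `1 - u y ≥ g0/(m r)` for some `y ∈ C` adjacent to `o C`,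
`y ∈ Q C`; and `1 - u` satisfies the Harnack inequality on all of `Q C` (it is `1` off `G`), so `1 - u y ≤ r^m (1 - u z)` for all `z ∈ Q C` -/
theorem TS.exists_rho (T : TS D r) : ∃ ρ : ℝ, 0 < ρ ∧ ρ < 1 ∧ ∀ C, T.Cn C → ∀ G : Finset V, ∀ z ∈ T.Q C, T.uc C G z ≤ ρ := by
  have hr1 : (1 : ℝ) ≤ r := by exact_mod_cast T.gd.one_le
  have hr0 : (0 : ℝ) < r := by linarith
  have hg0 : 0 < T.g0 := T.g0_pos
  have hg1 : T.g0 ≤ 1 := T.exists_g0.choose_spec.2.1
  set P : ℝ := (r : ℝ) ^ (T.m + 1) with hP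
  have hP1 : 1 ≤ P := one_le_pow₀ hr1
  have hPm : (r : ℝ) ^ T.m * r = P := by rw [hP, pow_succ]
  have hPm1 : (1 : ℝ) ≤ (r : ℝ) ^ T.m := one_le_pow₀ hr1
  have hm0 : (0 : ℝ) ≤ T.m := Nat.cast_nonneg _
  have hden : 0 < 2 * ((T.m : ℝ) + 1) * P := by positivity
  have hc0 : 0 < T.g0 / (2 * ((T.m : ℝ) + 1) * P) := by positivity
  have hc1 : T.g0 / (2 * ((T.m : ℝ) + 1) * P) < 1 := by
    rw [div_lt_one hden]
    nlinarith [mul_nonneg hm0 (by linarith : (0 : ℝ) ≤ P)]
  refine ⟨1 - T.g0 / (2 * ((T.m : ℝ) + 1) * P), by linarith, by linarith, ?_⟩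
  intro C hC G z hz
  obtain ⟨u1, u2, u3, u4, u5⟩ := T.uc_spec hC G
  have hfl : T.g0 ≤ T.fl C (T.uc C G) := by
    rw [T.fl_eq_esc hC u1 (fun z hz hzG => u3 z (fun h => T.o_notMem hC h hz) (fun h => hzG (t6_mem_gp.1 h).1))]
    exact T.g0_le hC G
  -- some edge carries a large flux
  obtain ⟨x, hx, y, hy, hxy, hlarge⟩ : ∃ x ∈ T.o C, ∃ y ∈ C, D.Adj x y ∧ T.g0 ≤ ((T.m : ℝ) + 1) * r * (1 - T.uc C G y) := by
    by_contra hcon
    push Not at hcon
    have hb : ∀ x ∈ T.o C, ∑ y ∈ (D.neighborFinset x).filter (fun y => y ∈ C), (T.uc C G x - T.uc C G y) ≤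
        T.g0 / ((T.m : ℝ) + 1) := by
      intro x hx
      have h1 : ∀ y ∈ (D.neighborFinset x).filter (fun y => y ∈ C), (T.uc C G x - T.uc C G y) ≤ T.g0 / (((T.m : ℝ) + 1) * r) := by
        intro y hy
        rw [Finset.mem_filter, SimpleGraph.mem_neighborFinset] at hy
        rw [u2 x hx, le_div_iff₀ (by positivity)]
        have := hcon x hx y hy.2 hy.1
        linarith
      have h2 := Finset.sum_le_card_nsmul _ _ _ h1
      refine h2.trans ?_
      rw [nsmul_eq_mul]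
      have h3 : (((D.neighborFinset x).filter (fun y => y ∈ C)).card : ℝ) ≤ r := by
        have h4 := Finset.card_filter_le (D.neighborFinset x) (fun y => y ∈ C)
        rw [SimpleGraph.card_neighborFinset_eq_degree, T.gd.reg x] at h4
        exact_mod_cast h4
      calc (((D.neighborFinset x).filter (fun y => y ∈ C)).card : ℝ) * (T.g0 / (((T.m : ℝ) + 1) * r))
          ≤ r * (T.g0 / (((T.m : ℝ) + 1) * r)) := mul_le_mul_of_nonneg_right h3 (by positivity)
        _ = T.g0 / ((T.m : ℝ) + 1) := by field_simp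
    have h5 : T.fl C (T.uc C G) ≤ (T.o C).card • (T.g0 / ((T.m : ℝ) + 1)) := Finset.sum_le_card_nsmul _ _ _ hb
    rw [nsmul_eq_mul] at h5
    have h6 : ((T.o C).card : ℝ) ≤ T.m := by exact_mod_cast T.o_card hC
    have h7 : ((T.o C).card : ℝ) * (T.g0 / ((T.m : ℝ) + 1)) ≤ (T.m : ℝ) * (T.g0 / ((T.m : ℝ) + 1)) :=
      mul_le_mul_of_nonneg_right h6 (by positivity)
    have h8 : (T.m : ℝ) * (T.g0 / ((T.m : ℝ) + 1)) < T.g0 := by
      rw [mul_div_assoc', div_lt_iff₀ (by positivity)]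
      nlinarith
    linarith
  have hxC : x ∉ C := T.o_notMem hC hx
  have hyQ : y ∈ T.Q C := (T.ib_sub hC hy hxC hxy.symm).1
  have hch := chain1 (f := fun v => 1 - T.uc C G v) (r := r) (T.Q_conn hC) T.gd.one_le (fun v => by have := u5 v; linarith)
    (fun v hv w hw => by
      by_cases hvG : v ∈ G
      · exact T.gd.harnack2 u5 (le_of_eq (u1 v (t6_mem_gp.2 ⟨hvG, T.Q_sub hC hv⟩))) hw
      · have h0 : T.uc C G v = 0 := u3 v (fun h => T.o_notMem hC h (T.Q_sub hC hv)) (fun h => hvG (t6_mem_gp.1 h).1)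
        show 1 - T.uc C G w ≤ r * (1 - T.uc C G v)
        rw [h0]
        have := u4 w
        linarith) hyQ hz
  have hch' : 1 - T.uc C G y ≤ (r : ℝ) ^ (T.Q C).card * (1 - T.uc C G z) := hch
  have h9 : (r : ℝ) ^ (T.Q C).card * (1 - T.uc C G z) ≤ (r : ℝ) ^ T.m * (1 - T.uc C G z) :=
    mul_le_mul_of_nonneg_right (pow_le_pow_right₀ hr1 (T.Q_card hC)) (by have := u5 z; linarith)
  have h10 : T.g0 ≤ ((T.m : ℝ) + 1) * P * (1 - T.uc C G z) := by
    calc T.g0 ≤ ((T.m : ℝ) + 1) * r * (1 - T.uc C G y) := hlarge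
      _ ≤ ((T.m : ℝ) + 1) * r * ((r : ℝ) ^ T.m * (1 - T.uc C G z)) :=
          mul_le_mul_of_nonneg_left (hch'.trans h9) (by positivity)
      _ = ((T.m : ℝ) + 1) * P * (1 - T.uc C G z) := by rw [← hPm]; ring
  have h11 : T.g0 / (2 * ((T.m : ℝ) + 1) * P) ≤ 1 - T.uc C G z := by
    rw [div_le_iff₀ hden]
    have : 0 ≤ ((T.m : ℝ) + 1) * P * (1 - T.uc C G z) := by
      have := u5 z
      have h12 : 0 ≤ 1 - T.uc C G z := by linarith
      positivity
    nlinarith
  linarith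

noncomputable def TS.rho (T : TS D r) : ℝ := T.exists_rho.choose

theorem TS.rho_pos (T : TS D r) : 0 < T.rho := T.exists_rho.choose_spec.1

theorem TS.rho_lt (T : TS D r) : T.rho < 1 := T.exists_rho.choose_spec.2.1

theorem TS.uc_Q (T : TS D r) {C : Set V} (hC : T.Cn C) (G : Finset V) {z : V} (hz : z ∈ T.Q C) : T.uc C G z ≤ T.rho :=
  T.exists_rho.choose_spec.2.2 C hC G z hz

/-- TARGET. exponential decay over the generations (`le_uc` in each child) -/
theorem TS.uc_decay (T : TS D r) {C : Set V} (hC : T.Cn C) (G : Finset V) {j : ℕ} {A : Set V} (hA : A ∈ T.de {C} j) {z : V}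
    (hz : z ∈ A ∨ z ∈ T.o A) : T.uc C G z ≤ T.rho ^ j := by
  obtain ⟨u1, u2, u3, u4, u5⟩ := T.uc_spec hC G
  have hρ0 := T.rho_pos
  -- subharmonicity on the part in a descendant
  have hsub : ∀ B : Set V, B ⊆ C → ∀ v ∈ gp G {B}, (r : ℝ) * T.uc C G v ≤ nsum D (T.uc C G) v := by
    intro B hB v hv
    refine le_of_eq (u1 v ?_)
    rw [t6_mem_gp] at hv ⊢
    exact ⟨hv.1, hB hv.2⟩
  have hzero : ∀ v ∈ C, v ∉ G → T.uc C G v ≤ 0 := fun v hv hvG =>
    le_of_eq (u3 v (fun h => T.o_notMem hC h hv) (fun h => hvG (t6_mem_gp.1 h).1))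
  induction j generalizing A z with
  | zero => rw [pow_zero]; exact u5 z
  | succ j ih =>
    rw [T.de_succ, Finset.mem_biUnion] at hA
    obtain ⟨B, hB, hAB⟩ := hA
    have hFo := T.fo_single hC
    have hBc : T.Cn B := T.t5b_cn hFo hB
    have hAc : T.Cn A := T.ch_cn hBc A hAB
    have hBC : B ⊆ C := T.de_single_sub hC hB
    have hAC : A ⊆ C := (T.ch_sub hBc hAB).trans hBC
    have hoA : ∀ v ∈ T.o A, T.uc C G v ≤ T.rho ^ (j + 1) := by
      intro v hv
      have hvQ : v ∈ T.Q B := T.o_sub hBc A hAB hv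
      have h1 := T.le_uc hBc (G := G) (t := T.rho ^ j) (pow_nonneg hρ0.le _) (hsub B hBC)
        (fun w hw => ih hB (Or.inr hw)) (fun w hw hwG => hzero w (hBC hw) hwG) (T.Q_sub hBc hvQ)
      refine h1.trans ?_
      rw [pow_succ]
      exact mul_le_mul_of_nonneg_left (T.uc_Q hBc G hvQ) (pow_nonneg hρ0.le _)
    rcases hz with hz | hz
    · have h1 := T.le_uc hAc (G := G) (t := T.rho ^ (j + 1)) (pow_nonneg hρ0.le _) (hsub A hAC)
        hoA (fun w hw hwG => hzero w (hAC hw) hwG) hz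
      refine h1.trans ?_
      have h2 := (T.uc_spec hAc G).2.2.2.2 z
      have h3 : 0 ≤ T.rho ^ (j + 1) := pow_nonneg hρ0.le _
      nlinarith
    · exact hoA z hz

/-- TARGET. uniform escape from a vertex. By transitivity (`hu {φ x} (φ G) (φ y) = hu {x} G y`) it suffices to treat one vertex `o`. By `fill` with `B = {o}` there is a cone `C` not containing `o` (`V` is infinite).
For `z ∈ Q C`, `hu {o} G z ≤ uc C G z ≤ ρ` (`le_uc` with `t = 1`). Fix a path without repetitions from `o` to `z`; `f = 1 - hu {o} G` satisfies `f x ≤ r f v` for all `v ≠ o` and neighbours `x`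
(harmonic if `v ∈ G`, `f v = 1` otherwise), so `f y ≥ r^(-len) (1 - ρ)` for the first vertex `y` after `o`. -/
theorem TS.exists_g2 (T : TS D r) : ∃ g : ℝ, 0 < g ∧ ∀ (x : V) (G : Finset V), x ∉ G → g ≤ ∑ y ∈ D.neighborFinset x, (1 - hu D r {x} G y) := by
  have hr1 : (1 : ℝ) ≤ r := by exact_mod_cast T.gd.one_le
  have hr0 : (0 : ℝ) < r := by linarith
  have hinf := T.gd.inf
  obtain ⟨o⟩ : Nonempty V := hinf.nonempty
  obtain ⟨Q0, F, hoQ, _, hFc, _, _, hFQ, hcov⟩ := T.fill {o}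
  have hFne : F.Nonempty := by
    rw [Finset.nonempty_iff_ne_empty]
    intro hF
    obtain ⟨v, hv⟩ := Infinite.exists_notMem_finset Q0
    rcases hcov v with h | ⟨C, hC, _⟩
    · exact hv h
    · rw [hF] at hC; exact absurd hC (Finset.notMem_empty _)
  obtain ⟨C, hCF⟩ := hFne
  have hC := hFc C hCF
  have hoC : o ∉ C := hFQ C hCF o (hoQ (Finset.mem_singleton_self o))
  obtain ⟨z, hz⟩ := T.Q_ne hC
  obtain ⟨p0⟩ := T.gd.conn.preconnected o z
  have hoz : o ≠ z := fun h => hoC (h ▸ T.Q_sub hC hz)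
  -- a path from `o` to `z`
  obtain ⟨y, e, q, hq⟩ : ∃ (y : V) (_ : D.Adj o y) (q : D.Walk y z), ∀ v ∈ q.support, v ≠ o := by
    have hp : p0.bypass.IsPath := SimpleGraph.Walk.bypass_isPath p0
    generalize p0.bypass = p at hp
    cases p with
    | nil => exact absurd rfl hoz
    | @cons _ y _ e q =>
      refine ⟨y, e, q, ?_⟩
      intro v hv hvo
      rw [SimpleGraph.Walk.cons_isPath_iff] at hp
      exact hp.2 (hvo ▸ hv)
  refine ⟨(1 - T.rho) / (r : ℝ) ^ q.length, div_pos (by linarith [T.rho_lt]) (by positivity), ?_⟩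
  intro x G hxG
  obtain ⟨φ, hφ⟩ := T.trans o x
  have hCφ := T.aut_cn hC φ
  have hzφ : φ z ∈ T.Q (φ '' C) := by
    rw [T.aut_Q hC φ]
    exact Finset.mem_image_of_mem _ hz
  have hxC : x ∉ φ '' C := by
    rintro ⟨w, hw, hwx⟩
    rw [← hφ] at hwx
    exact hoC (φ.injective hwx ▸ hw)
  have hd : Disjoint ({x} : Finset V) G := Finset.disjoint_singleton_left.2 hxG
  have h1 : hu D r {x} G (φ z) ≤ T.rho := by
    have h2 := T.le_uc hCφ (G := G) (f := hu D r {x} G) (t := 1) zero_le_one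
      (fun v hv => le_of_eq (hu_harm T.gd hd (t6_mem_gp.1 hv).1)) (fun v _ => hu_le_one v)
      (fun v hv hvG => by
        refine le_of_eq (hu_zero ?_ hvG)
        rw [Finset.mem_singleton]
        rintro rfl
        exact hxC hv) (T.Q_sub hCφ hzφ)
    rw [one_mul] at h2
    exact h2.trans (T.uc_Q hCφ G hzφ)
  have h3 := t6_chain (r := r) (D := D) (f := fun v => 1 - hu D r {x} G v) (P := fun v => v ≠ x)
    (fun v hv w hw => by
      by_cases hvG : v ∈ G
      · exact T.gd.harnack2 (fun w => hu_le_one w) (le_of_eq (hu_harm T.gd hd hvG)) hw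
      · have h0 : hu D r {x} G v = 0 := hu_zero (by rw [Finset.mem_singleton]; exact hv) hvG
        show 1 - hu D r {x} G w ≤ r * (1 - hu D r {x} G v)
        rw [h0]
        have : 0 ≤ hu D r {x} G w := hu_nonneg w
        linarith) (q.map φ.toHom).reverse ?_
  · rw [SimpleGraph.Walk.length_reverse, SimpleGraph.Walk.length_map] at h3
    have h4 : 1 - hu D r {x} G (φ z) ≤ (r : ℝ) ^ q.length * (1 - hu D r {x} G (φ y)) := h3
    have h5 : (1 - T.rho) / (r : ℝ) ^ q.length ≤ 1 - hu D r {x} G (φ y) := by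
      rw [div_le_iff₀ (by positivity)]
      linarith
    refine h5.trans ?_
    refine Finset.single_le_sum (f := fun y => 1 - hu D r {x} G y) (fun v _ => by
      have : hu D r {x} G v ≤ 1 := hu_le_one v
      linarith) ?_
    rw [SimpleGraph.mem_neighborFinset, ← hφ]
    exact φ.map_adj_iff.2 e
  · intro v hv
    rw [SimpleGraph.Walk.support_reverse, List.mem_reverse, SimpleGraph.Walk.support_map, List.mem_map] at hv
    obtain ⟨w, hw, rfl⟩ := hv
    intro h
    rw [← hφ] at h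
    exact hq w hw (φ.injective h)

/-- TARGET. the Green function is bounded: `gr S y z = gr S z z · hu {z} (S \ {z}) y` for `y ≠ z` (uniqueness), so `gr S z z · Σ_{y ~ z} (1 - hu {z} (S \ {z}) y) = 1` -/
theorem TS.exists_gr (T : TS D r) : ∃ c : ℝ, 0 < c ∧ ∀ (S : Finset V) (x z : V), gr D r S x z ≤ c := by
  obtain ⟨g, hg, hg2⟩ := T.exists_g2
  refine ⟨1 / g, by positivity, ?_⟩
  intro S x z
  obtain ⟨g1, g2, g3, g4, g5⟩ := gr_spec T.gd S
  by_cases hzS : z ∉ S
  · rw [g4 x z hzS]; positivity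
  push Not at hzS
  set γ : ℝ := gr D r S z z with hγ
  have hγ0 : 0 ≤ γ := g1 z z
  have hd : Disjoint ({z} : Finset V) (S.erase z) := by
    rw [Finset.disjoint_singleton_left]; exact Finset.notMem_erase z S
  -- the Green function is a multiple of the hitting function
  have hcomp1 : ∀ y, nsum D (fun v => γ * hu D r {z} (S.erase z) v) y = γ * nsum D (hu D r {z} (S.erase z)) y := by
    intro y
    unfold nsum; rw [Finset.mul_sum]
  have hharm : ∀ y ∈ S.erase z, (r : ℝ) * gr D r S y z = nsum D (fun v => gr D r S v z) y := by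
    intro y hy
    have := g5 z hzS y (Finset.mem_of_mem_erase hy)
    rw [if_neg (Finset.ne_of_mem_erase hy)] at this
    linarith
  have hoff : ∀ y, y ∉ S.erase z → gr D r S y z = γ * hu D r {z} (S.erase z) y := by
    intro y hy
    by_cases hyz : y = z
    · rw [hyz, hu_one (Finset.mem_singleton_self z), mul_one]
    · have hyS : y ∉ S := fun h => hy (Finset.mem_erase.2 ⟨hyz, h⟩)
      rw [g3 y z hyS, hu_zero (by rw [Finset.mem_singleton]; exact hyz) hy, mul_zero]
  have hrel : ∀ y, gr D r S y z = γ * hu D r {z} (S.erase z) y := by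
    intro y
    apply le_antisymm
    · refine T.gd.comp (S := S.erase z) (f := fun v => gr D r S v z) (g := fun v => γ * hu D r {z} (S.erase z) v)
        (fun v hv => le_of_eq (hharm v hv)) (fun v hv => ?_) (fun v hv => le_of_eq (hoff v hv)) y
      rw [hcomp1, ← hu_harm T.gd hd hv]
      exact le_of_eq (by ring)
    · refine T.gd.comp (S := S.erase z) (g := fun v => gr D r S v z) (f := fun v => γ * hu D r {z} (S.erase z) v)
        (fun v hv => ?_) (fun v hv => le_of_eq (hharm v hv).symm) (fun v hv => le_of_eq (hoff v hv).symm) y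
      rw [hcomp1, ← hu_harm T.gd hd hv]
      exact le_of_eq (by ring)
  have h1 := g5 z hzS z hzS
  rw [if_pos rfl, t6_nsum_sub T.gd (fun v => gr D r S v z) z] at h1
  have h2 : ∑ y ∈ D.neighborFinset z, (gr D r S z z - gr D r S y z) = γ * ∑ y ∈ D.neighborFinset z, (1 - hu D r {z} (S.erase z) y) := by
    rw [Finset.mul_sum]
    refine Finset.sum_congr rfl fun y _ => ?_
    rw [hrel y]
    ring
  have h1' : ∑ y ∈ D.neighborFinset z, (gr D r S z z - gr D r S y z) = 1 := h1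
  rw [h2] at h1'
  have h3 := hg2 z (S.erase z) (Finset.notMem_erase z S)
  have h4 : γ ≤ 1 / g := by
    rw [le_div_iff₀ hg]
    nlinarith [mul_le_mul_of_nonneg_left h3 hγ0]
  have h5 : gr D r S x z ≤ γ := by
    rw [hrel x]
    have : hu D r {z} (S.erase z) x ≤ 1 := hu_le_one x
    nlinarith
  exact h5.trans h4

end Pool.Agent.Helper910.QT
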