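import Mathlib
import Pool.Agent.Helper910.T6

/-! Strong ratio and product bounds (MP_4555f0_mp) -/

namespace Pool.Agent.Helper910.QT

open Classical Finset

variable {V : Type*} {D : SimpleGraph V} [D.LocallyFinite] {r : ℕ}

/-! ### gluing -/

omit [D.LocallyFinite] in
theorem t7_rs_rs {A B : Finset V} (h : A ⊆ B) (ζ : V → ℕ) : rs A (rs B ζ) = rs A ζ := by
  funext z
  by_cases hz : z ∈ A
  · rw [rs_mem hz, rs_mem hz, rs_mem (h hz)]
  · rw [rs_notMem hz, rs_notMem hz]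

omit [D.LocallyFinite] in
theorem t7_rs_self {A : Finset V} {ζ : V → ℕ} (h : ∀ z, z ∉ A → ζ z = 0) : rs A ζ = ζ := by
  funext z
  by_cases hz : z ∈ A
  · rw [rs_mem hz]
  · rw [rs_notMem hz, h z hz]

omit [D.LocallyFinite] in
theorem t7_off {w : V → ℕ} {A : Finset V} {ζ : V → ℕ} (h : ζ ∈ RcW D r w A) {z : V} (hz : z ∉ A) : ζ z = 0 :=
  (mem_RcW.1 h).1.2 z hz

/-- gluing of two configurations -/
noncomputable def t7_gl (p : (V → ℕ) × (V → ℕ)) : V → ℕ := fun z => p.1 z + p.2 z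

omit [D.LocallyFinite] in
theorem t7_rs_gl1 {A B : Finset V} (hd : Disjoint A B) {ζ1 ζ2 : V → ℕ} (h1 : ∀ z, z ∉ A → ζ1 z = 0)
    (h2 : ∀ z, z ∉ B → ζ2 z = 0) : rs A (t7_gl (ζ1, ζ2)) = ζ1 := by
  funext z
  by_cases hz : z ∈ A
  · rw [rs_mem hz]
    show ζ1 z + ζ2 z = ζ1 z
    rw [h2 z (Finset.disjoint_left.1 hd hz), add_zero]
  · rw [rs_notMem hz, h1 z hz]

omit [D.LocallyFinite] in
theorem t7_rs_gl2 {A B : Finset V} (hd : Disjoint A B) {ζ1 ζ2 : V → ℕ} (h1 : ∀ z, z ∉ A → ζ1 z = 0)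
    (h2 : ∀ z, z ∉ B → ζ2 z = 0) : rs B (t7_gl (ζ1, ζ2)) = ζ2 := by
  funext z
  by_cases hz : z ∈ B
  · rw [rs_mem hz]
    show ζ1 z + ζ2 z = ζ2 z
    rw [h1 z (Finset.disjoint_right.1 hd hz), zero_add]
  · rw [rs_notMem hz, h2 z hz]

omit [D.LocallyFinite] in
theorem t7_rs_inj {A B : Finset V} {ζ ζ' : V → ℕ} (hζ : ∀ z, z ∉ A ∪ B → ζ z = 0) (hζ' : ∀ z, z ∉ A ∪ B → ζ' z = 0)
    (h1 : rs A ζ = rs A ζ') (h2 : rs B ζ = rs B ζ') : ζ = ζ' := by
  funext z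
  by_cases hA : z ∈ A
  · have := congrFun h1 z
    rwa [rs_mem hA, rs_mem hA] at this
  · by_cases hB : z ∈ B
    · have := congrFun h2 z
      rwa [rs_mem hB, rs_mem hB] at this
    · have : z ∉ A ∪ B := by
        rw [Finset.mem_union, not_or]
        exact ⟨hA, hB⟩
      rw [hζ z this, hζ' z this]

omit [D.LocallyFinite] in
theorem t7_sum_le {A B : Finset V} (f g : (V → ℕ) → ℝ) (hf : ∀ ζ, 0 ≤ f ζ) (hg : ∀ ζ, 0 ≤ g ζ) :
    ∑ ζ ∈ Rc D r (A ∪ B), f (rs A ζ) * g (rs B ζ) ≤ (∑ ζ ∈ Rc D r A, f ζ) * ∑ ζ ∈ Rc D r B, g ζ := by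
  rw [Finset.sum_mul_sum, ← Finset.sum_product']
  have hinj : Set.InjOn (fun ζ : V → ℕ => (rs A ζ, rs B ζ)) (Rc D r (A ∪ B) : Set (V → ℕ)) := by
    intro ζ hζ ζ' hζ' h
    have h1 : rs A ζ = rs A ζ' := congrArg Prod.fst h
    have h2 : rs B ζ = rs B ζ' := congrArg Prod.snd h
    exact t7_rs_inj (fun z hz => t7_off (Finset.mem_coe.1 hζ) hz)
      (fun z hz => t7_off (Finset.mem_coe.1 hζ') hz) h1 h2
  rw [← Finset.sum_image (f := fun p : (V → ℕ) × (V → ℕ) => f p.1 * g p.2) hinj]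
  refine Finset.sum_le_sum_of_subset_of_nonneg ?_ (fun p _ _ => mul_nonneg (hf _) (hg _))
  intro p hp
  rw [Finset.mem_image] at hp
  obtain ⟨ζ, hζ, rfl⟩ := hp
  exact Finset.mem_product.2 ⟨rs_mem_Rc Finset.subset_union_left hζ, rs_mem_Rc Finset.subset_union_right hζ⟩

omit [D.LocallyFinite] in
/-- gluing a recurrent configuration and a strongly recurrent one -/
theorem t7_gl_mem {A B : Finset V} (hd : Disjoint A B) {w : V → ℕ} (hw : ∀ z ∈ B, dg D z A ≤ w z)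
    {ζ1 ζ2 : V → ℕ} (h1 : ζ1 ∈ Rc D r A) (h2 : ζ2 ∈ RcW D r w B) : t7_gl (ζ1, ζ2) ∈ Rc D r (A ∪ B) := by
  have o1 : ∀ z, z ∉ A → ζ1 z = 0 := fun z hz => t7_off h1 hz
  have o2 : ∀ z, z ∉ B → ζ2 z = 0 := fun z hz => t7_off h2 hz
  refine union_mem hd ?_ ?_ ?_
  · rw [t7_rs_gl1 hd o1 o2]
    exact h1
  · rw [t7_rs_gl2 hd o1 o2]
    rw [mem_RcW] at h2 ⊢
    exact ⟨h2.1, h2.2.mono_w (fun z hz => hw z hz)⟩
  · intro z hz
    rw [Finset.mem_union, not_or] at hz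
    show ζ1 z + ζ2 z = 0
    rw [o1 z hz.1, o2 z hz.2]

omit [D.LocallyFinite] in
theorem t7_sum_ge {A B : Finset V} (hd : Disjoint A B) {w : V → ℕ} (hw : ∀ z ∈ B, dg D z A ≤ w z)
    (f g : (V → ℕ) → ℝ) (hf : ∀ ζ, 0 ≤ f ζ) (hg : ∀ ζ, 0 ≤ g ζ) :
    (∑ ζ ∈ Rc D r A, f ζ) * ∑ ζ ∈ RcW D r w B, g ζ ≤ ∑ ζ ∈ Rc D r (A ∪ B), f (rs A ζ) * g (rs B ζ) := by
  rw [Finset.sum_mul_sum, ← Finset.sum_product']
  have hinj : Set.InjOn (t7_gl : (V → ℕ) × (V → ℕ) → V → ℕ) ((Rc D r A ×ˢ RcW D r w B : Finset _) : Set _) := by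
    rintro ⟨p1, p2⟩ hp ⟨q1, q2⟩ hq h
    rw [Finset.mem_coe, Finset.mem_product] at hp hq
    have e1 := t7_rs_gl1 hd (fun z hz => t7_off hp.1 hz) (fun z hz => t7_off hp.2 hz)
    have e2 := t7_rs_gl2 hd (fun z hz => t7_off hp.1 hz) (fun z hz => t7_off hp.2 hz)
    have e3 := t7_rs_gl1 hd (fun z hz => t7_off hq.1 hz) (fun z hz => t7_off hq.2 hz)
    have e4 := t7_rs_gl2 hd (fun z hz => t7_off hq.1 hz) (fun z hz => t7_off hq.2 hz)
    simp only at e1 e2 e3 e4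
    rw [h] at e1 e2
    exact Prod.ext (e1.symm.trans e3) (e2.symm.trans e4)
  have key : ∑ p ∈ Rc D r A ×ˢ RcW D r w B, f p.1 * g p.2 =
      ∑ p ∈ Rc D r A ×ˢ RcW D r w B, f (rs A (t7_gl p)) * g (rs B (t7_gl p)) := by
    refine Finset.sum_congr rfl ?_
    rintro ⟨p1, p2⟩ hp
    rw [Finset.mem_product] at hp
    rw [t7_rs_gl1 hd (fun z hz => t7_off hp.1 hz) (fun z hz => t7_off hp.2 hz),
      t7_rs_gl2 hd (fun z hz => t7_off hp.1 hz) (fun z hz => t7_off hp.2 hz)]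
  rw [key, ← Finset.sum_image (f := fun ζ : V → ℕ => f (rs A ζ) * g (rs B ζ)) hinj]
  refine Finset.sum_le_sum_of_subset_of_nonneg ?_ (fun p _ _ => mul_nonneg (hf _) (hg _))
  intro ζ hζ
  rw [Finset.mem_image] at hζ
  obtain ⟨⟨p1, p2⟩, hp, rfl⟩ := hζ
  rw [Finset.mem_product] at hp
  exact t7_gl_mem hd hw hp.1 hp.2

omit [D.LocallyFinite] in
/-- without edges the law is a product -/
theorem t7_sum_eq {A B : Finset V} (hd : Disjoint A B) (hn : ∀ z ∈ B, ∀ x ∈ A, ¬ D.Adj z x)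
    (f g : (V → ℕ) → ℝ) :
    ∑ ζ ∈ Rc D r (A ∪ B), f (rs A ζ) * g (rs B ζ) = (∑ ζ ∈ Rc D r A, f ζ) * ∑ ζ ∈ Rc D r B, g ζ := by
  rw [Finset.sum_mul_sum, ← Finset.sum_product']
  have hw : ∀ z ∈ B, dg D z A ≤ (0 : V → ℕ) z := by
    intro z hz
    rw [dg_eq_zero (fun x hx => hn z hz x hx)]
    exact Nat.zero_le _
  refine Finset.sum_bij' (fun ζ _ => (rs A ζ, rs B ζ)) (fun p _ => t7_gl p) ?_ ?_ ?_ ?_ ?_
  · intro ζ hζ
    exact Finset.mem_product.2 ⟨rs_mem_Rc Finset.subset_union_left hζ, rs_mem_Rc Finset.subset_union_right hζ⟩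
  · rintro ⟨p1, p2⟩ hp
    rw [Finset.mem_product] at hp
    exact t7_gl_mem hd hw hp.1 hp.2
  · intro ζ hζ
    funext z
    show rs A ζ z + rs B ζ z = ζ z
    by_cases hA : z ∈ A
    · rw [rs_mem hA, rs_notMem (Finset.disjoint_left.1 hd hA), add_zero]
    · by_cases hB : z ∈ B
      · rw [rs_notMem hA, rs_mem hB, zero_add]
      · rw [rs_notMem hA, rs_notMem hB, t7_off hζ (by rw [Finset.mem_union, not_or]; exact ⟨hA, hB⟩)]
  · rintro ⟨p1, p2⟩ hp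
    rw [Finset.mem_product] at hp
    exact Prod.ext (t7_rs_gl1 hd (fun z hz => t7_off hp.1 hz) (fun z hz => t7_off hp.2 hz))
      (t7_rs_gl2 hd (fun z hz => t7_off hp.1 hz) (fun z hz => t7_off hp.2 hz))
  · intro ζ hζ
    rfl

/-! ### forests -/

omit [D.LocallyFinite] in
theorem t7_gp_empty (G : Finset V) : gp G ∅ = ∅ := by
  rw [Finset.eq_empty_iff_forall_notMem]
  intro z hz
  obtain ⟨_, C, hC, _⟩ := (mem_prt.1 hz)
  exact absurd hC (Finset.notMem_empty C)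

theorem t7_mem_gp {G : Finset V} {F : Finset (Set V)} {z : V} : z ∈ gp G F ↔ z ∈ G ∧ z ∈ fs F := mem_prt

theorem t7_mem_gp1 {G : Finset V} {C : Set V} {z : V} : z ∈ gp G {C} ↔ z ∈ G ∧ z ∈ C := by
  rw [t7_mem_gp]
  unfold fs
  simp

theorem t7_gp_insert (G : Finset V) (C : Set V) (F : Finset (Set V)) :
    gp G (insert C F) = gp G F ∪ gp G {C} := by
  ext z
  rw [Finset.mem_union, t7_mem_gp, t7_mem_gp, t7_mem_gp1]
  unfold fs
  simp only [Finset.mem_insert, Set.mem_ofPred_eq]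
  constructor
  · rintro ⟨h1, C', rfl | h2, h3⟩
    · exact Or.inr ⟨h1, h3⟩
    · exact Or.inl ⟨h1, C', h2, h3⟩
  · rintro (⟨h1, C', h2, h3⟩ | ⟨h1, h2⟩)
    · exact ⟨h1, C', Or.inr h2, h3⟩
    · exact ⟨h1, C, Or.inl rfl, h2⟩

theorem t7_gp_sub {G : Finset V} {F : Finset (Set V)} {C : Set V} (hC : C ∈ F) : gp G {C} ⊆ gp G F := by
  intro z hz
  rw [t7_mem_gp1] at hz
  exact t7_mem_gp.2 ⟨hz.1, C, hC, hz.2⟩

theorem t7_fo_insert {T : TS D r} {C : Set V} {F : Finset (Set V)} (hF : T.Fo (insert C F)) : T.Fo F :=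
  ⟨fun A hA => hF.cn A (Finset.mem_insert_of_mem hA),
    fun A hA B hB => hF.disj A (Finset.mem_insert_of_mem hA) B (Finset.mem_insert_of_mem hB),
    fun A hA B hB => hF.nadj A (Finset.mem_insert_of_mem hA) B (Finset.mem_insert_of_mem hB)⟩

theorem t7_hd {C : Set V} {F : Finset (Set V)} {G1 : Finset V} (hd : ∀ z ∈ G1, z ∉ fs (insert C F)) :
    ∀ z ∈ G1, z ∉ fs F := by
  rintro z hz ⟨A, hA, hzA⟩
  exact hd z hz ⟨A, Finset.mem_insert_of_mem hA, hzA⟩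

theorem t7_out {T : TS D r} {C : Set V} {F : Finset (Set V)} (hC : C ∉ F) (hF : T.Fo (insert C F)) {G1 G : Finset V}
    (hd : ∀ z ∈ G1, z ∉ fs (insert C F)) {z : V} (hz : z ∈ G1 ∪ gp G F) : z ∉ C := by
  rcases Finset.mem_union.1 hz with h | h
  · exact fun hzC => hd z h ⟨C, Finset.mem_insert_self _ _, hzC⟩
  · obtain ⟨_, A, hA, hzA⟩ := t7_mem_gp.1 h
    have hne : A ≠ C := fun h' => hC (h' ▸ hA)
    exact Set.disjoint_left.1 (hF.disj A (Finset.mem_insert_of_mem hA) C (Finset.mem_insert_self _ _) hne) hzA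

theorem t7_dg_le {T : TS D r} {C : Set V} (hC : T.Cn C) {A : Finset V} (hA : ∀ z ∈ A, z ∉ C) {z : V} (hz : z ∈ C) :
    dg D z A ≤ T.fi {C} z := by
  rw [T.fi_eq (T.fo_single hC) (Finset.mem_singleton_self C) hz]
  refine TS.t5b_dg_le ?_
  intro x hx hxz
  exact T.t5b_mem_o hC (hA x hx) hz hxz

omit [D.LocallyFinite] in
theorem t7_prod_le (F : Finset (Set V)) (G1 G : Finset V) (h1 : (V → ℕ) → ℝ)
    (h2 : Set V → (V → ℕ) → ℝ) (h10 : ∀ ζ, 0 ≤ h1 ζ) (h20 : ∀ C ζ, 0 ≤ h2 C ζ) :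
    ∑ ζ ∈ Rc D r (G1 ∪ gp G F), h1 (rs G1 ζ) * ∏ C ∈ F, h2 C (rs (gp G {C}) ζ) ≤
      (∑ ζ ∈ Rc D r G1, h1 ζ) * ∏ C ∈ F, ∑ ζ ∈ Rc D r (gp G {C}), h2 C ζ := by
  induction F using Finset.induction_on with
  | empty =>
    rw [t7_gp_empty, Finset.union_empty]
    simp only [Finset.prod_empty, mul_one]
    refine le_of_eq (Finset.sum_congr rfl fun ζ hζ => ?_)
    rw [t7_rs_self (fun z hz => t7_off hζ hz)]
  | insert C F hC ih =>
    have e1 : G1 ∪ gp G (insert C F) = (G1 ∪ gp G F) ∪ gp G {C} := by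
      rw [t7_gp_insert, Finset.union_assoc]
    rw [e1, Finset.prod_insert hC]
    have key := t7_sum_le (D := D) (r := r) (A := G1 ∪ gp G F) (B := gp G {C})
      (fun η => h1 (rs G1 η) * ∏ C' ∈ F, h2 C' (rs (gp G {C'}) η)) (h2 C)
      (fun η => mul_nonneg (h10 _) (Finset.prod_nonneg fun C' _ => h20 C' _)) (h20 C)
    have e2 : ∑ ζ ∈ Rc D r (G1 ∪ gp G F ∪ gp G {C}), h1 (rs G1 ζ) * ∏ C' ∈ insert C F, h2 C' (rs (gp G {C'}) ζ) =
        ∑ ζ ∈ Rc D r (G1 ∪ gp G F ∪ gp G {C}), (h1 (rs G1 (rs (G1 ∪ gp G F) ζ)) *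
          ∏ C' ∈ F, h2 C' (rs (gp G {C'}) (rs (G1 ∪ gp G F) ζ))) * h2 C (rs (gp G {C}) ζ) := by
      refine Finset.sum_congr rfl fun ζ _ => ?_
      rw [Finset.prod_insert hC, t7_rs_rs Finset.subset_union_left]
      have e3 : ∏ C' ∈ F, h2 C' (rs (gp G {C'}) (rs (G1 ∪ gp G F) ζ)) = ∏ C' ∈ F, h2 C' (rs (gp G {C'}) ζ) := by
        refine Finset.prod_congr rfl fun C' hC' => ?_
        rw [t7_rs_rs ((t7_gp_sub hC').trans Finset.subset_union_right)]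
      rw [e3]
      ring
    rw [e2]
    refine le_trans key ?_
    have h3 : 0 ≤ ∑ ζ ∈ Rc D r (gp G {C}), h2 C ζ := Finset.sum_nonneg fun ζ _ => h20 C ζ
    calc (∑ ζ ∈ Rc D r (G1 ∪ gp G F), h1 (rs G1 ζ) * ∏ C' ∈ F, h2 C' (rs (gp G {C'}) ζ)) *
          ∑ ζ ∈ Rc D r (gp G {C}), h2 C ζ
        ≤ ((∑ ζ ∈ Rc D r G1, h1 ζ) * ∏ C ∈ F, ∑ ζ ∈ Rc D r (gp G {C}), h2 C ζ) *
          ∑ ζ ∈ Rc D r (gp G {C}), h2 C ζ := mul_le_mul_of_nonneg_right ih h3
      _ = _ := by ring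

theorem t7_prod_ge {T : TS D r} (F : Finset (Set V)) (hF : T.Fo F) (G1 G : Finset V) (hd : ∀ z ∈ G1, z ∉ fs F)
    (h1 : (V → ℕ) → ℝ) (h2 : Set V → (V → ℕ) → ℝ) (h10 : ∀ ζ, 0 ≤ h1 ζ) (h20 : ∀ C ζ, 0 ≤ h2 C ζ) :
    (∑ ζ ∈ Rc D r G1, h1 ζ) * ∏ C ∈ F, ∑ ζ ∈ RcW D r (T.fi {C}) (gp G {C}), h2 C ζ ≤
      ∑ ζ ∈ Rc D r (G1 ∪ gp G F), h1 (rs G1 ζ) * ∏ C ∈ F, h2 C (rs (gp G {C}) ζ) := by
  induction F using Finset.induction_on with
  | empty =>
    rw [t7_gp_empty, Finset.union_empty]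
    simp only [Finset.prod_empty, mul_one]
    refine le_of_eq (Finset.sum_congr rfl fun ζ hζ => ?_)
    rw [t7_rs_self (fun z hz => t7_off hζ hz)]
  | insert C F hC ih =>
    have e1 : G1 ∪ gp G (insert C F) = (G1 ∪ gp G F) ∪ gp G {C} := by
      rw [t7_gp_insert, Finset.union_assoc]
    rw [e1, Finset.prod_insert hC]
    have hcn := hF.cn C (Finset.mem_insert_self _ _)
    have hdis : Disjoint (G1 ∪ gp G F) (gp G {C}) := by
      rw [Finset.disjoint_left]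
      intro z hz hz'
      exact t7_out hC hF hd hz (t7_mem_gp1.1 hz').2
    have key := t7_sum_ge (D := D) (r := r) (A := G1 ∪ gp G F) (B := gp G {C}) hdis (w := T.fi {C})
      (fun z hz => t7_dg_le hcn (fun x hx => t7_out hC hF hd hx) (t7_mem_gp1.1 hz).2)
      (fun η => h1 (rs G1 η) * ∏ C' ∈ F, h2 C' (rs (gp G {C'}) η)) (h2 C)
      (fun η => mul_nonneg (h10 _) (Finset.prod_nonneg fun C' _ => h20 C' _)) (h20 C)
    have e2 : ∑ ζ ∈ Rc D r (G1 ∪ gp G F ∪ gp G {C}), h1 (rs G1 ζ) * ∏ C' ∈ insert C F, h2 C' (rs (gp G {C'}) ζ) =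
        ∑ ζ ∈ Rc D r (G1 ∪ gp G F ∪ gp G {C}), (h1 (rs G1 (rs (G1 ∪ gp G F) ζ)) *
          ∏ C' ∈ F, h2 C' (rs (gp G {C'}) (rs (G1 ∪ gp G F) ζ))) * h2 C (rs (gp G {C}) ζ) := by
      refine Finset.sum_congr rfl fun ζ _ => ?_
      rw [Finset.prod_insert hC, t7_rs_rs Finset.subset_union_left]
      have e3 : ∏ C' ∈ F, h2 C' (rs (gp G {C'}) (rs (G1 ∪ gp G F) ζ)) = ∏ C' ∈ F, h2 C' (rs (gp G {C'}) ζ) := by
        refine Finset.prod_congr rfl fun C' hC' => ?_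
        rw [t7_rs_rs ((t7_gp_sub hC').trans Finset.subset_union_right)]
      rw [e3]
      ring
    rw [e2]
    refine le_trans ?_ key
    have h3 : 0 ≤ ∑ ζ ∈ RcW D r (T.fi {C}) (gp G {C}), h2 C ζ := Finset.sum_nonneg fun ζ _ => h20 C ζ
    calc (∑ ζ ∈ Rc D r G1, h1 ζ) * ((∑ ζ ∈ RcW D r (T.fi {C}) (gp G {C}), h2 C ζ) *
          ∏ C ∈ F, ∑ ζ ∈ RcW D r (T.fi {C}) (gp G {C}), h2 C ζ)
        = ((∑ ζ ∈ Rc D r G1, h1 ζ) * ∏ C ∈ F, ∑ ζ ∈ RcW D r (T.fi {C}) (gp G {C}), h2 C ζ) *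
          ∑ ζ ∈ RcW D r (T.fi {C}) (gp G {C}), h2 C ζ := by ring
      _ ≤ _ := mul_le_mul_of_nonneg_right (ih (t7_fo_insert hF) (t7_hd hd)) h3

omit [D.LocallyFinite] in
theorem t7_Rc_empty : Rc D r (∅ : Finset V) = {0} := by
  ext ζ
  rw [mem_Rc, Finset.mem_singleton]
  constructor
  · intro h
    funext z
    exact h.1.2 z (Finset.notMem_empty z)
  · rintro rfl
    refine ⟨⟨fun v hv => absurd hv (Finset.notMem_empty v), fun v _ => rfl⟩, ?_⟩
    intro U hU hne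
    exact absurd (Finset.subset_empty.1 hU) hne.ne_empty

theorem t7_nadj {T : TS D r} {C : Set V} {F : Finset (Set V)} (hC : C ∉ F) (hF : T.Fo (insert C F)) {G : Finset V} :
    ∀ z ∈ gp G {C}, ∀ x ∈ gp G F, ¬ D.Adj z x := by
  intro z hz x hx h
  obtain ⟨_, A, hA, hxA⟩ := t7_mem_gp.1 hx
  have hz' := (t7_mem_gp1.1 hz).2
  rcases T.nbr_fo hF (Finset.mem_insert_self C F) hz' h with h' | h'
  · exact t7_out (G1 := ∅) hC hF (fun z hz => absurd hz (Finset.notMem_empty z)) (Finset.mem_union_right _ hx) h'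
  · exact hF.nadj C (Finset.mem_insert_self C F) A (Finset.mem_insert_of_mem hA) x h' hxA

theorem t7_prod_eq {T : TS D r} (F : Finset (Set V)) (hF : T.Fo F) (G : Finset V) (h2 : Set V → (V → ℕ) → ℝ) :
    ∑ ζ ∈ Rc D r (gp G F), ∏ C ∈ F, h2 C (rs (gp G {C}) ζ) = ∏ C ∈ F, ∑ ζ ∈ Rc D r (gp G {C}), h2 C ζ := by
  induction F using Finset.induction_on with
  | empty =>
    rw [t7_gp_empty, t7_Rc_empty]
    simp
  | insert C F hC ih =>
    rw [t7_gp_insert, Finset.prod_insert hC]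
    have hdis : Disjoint (gp G F) (gp G {C}) := by
      rw [Finset.disjoint_left]
      intro z hz hz'
      exact t7_out (G1 := ∅) hC hF (fun z hz => absurd hz (Finset.notMem_empty z)) (Finset.mem_union_right _ hz)
        (t7_mem_gp1.1 hz').2
    have key := t7_sum_eq (D := D) (r := r) (A := gp G F) (B := gp G {C}) hdis (t7_nadj hC hF)
      (fun η => ∏ C' ∈ F, h2 C' (rs (gp G {C'}) η)) (h2 C)
    have e2 : ∑ ζ ∈ Rc D r (gp G F ∪ gp G {C}), ∏ C' ∈ insert C F, h2 C' (rs (gp G {C'}) ζ) =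
        ∑ ζ ∈ Rc D r (gp G F ∪ gp G {C}), (∏ C' ∈ F, h2 C' (rs (gp G {C'}) (rs (gp G F) ζ))) *
          h2 C (rs (gp G {C}) ζ) := by
      refine Finset.sum_congr rfl fun ζ _ => ?_
      rw [Finset.prod_insert hC]
      have e3 : ∏ C' ∈ F, h2 C' (rs (gp G {C'}) (rs (gp G F) ζ)) = ∏ C' ∈ F, h2 C' (rs (gp G {C'}) ζ) := by
        refine Finset.prod_congr rfl fun C' hC' => ?_
        rw [t7_rs_rs (t7_gp_sub hC')]
      rw [e3]
      ring
    rw [e2, key, ih (t7_fo_insert hF)]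
    ring

theorem t7_adm {T : TS D r} {C : Set V} (hC : T.Cn C) {G : Finset V} {w : V → ℕ} {y : V}
    (hw : ∀ z ∈ gp G {C}, w z + dl y z ≤ T.fi {C} z) : Adm D r w (dl y) (gp G {C}) := by
  intro z hz
  have h1 := T.adm_fi (T.fo_single hC) (g := T.fi {C}) (fun _ _ => le_rfl) G z hz
  have h2 := hw z hz
  simp only [Pi.zero_apply, zero_add] at h1
  omega

theorem t7_dg_eo {T : TS D r} {C : Set V} (hC : T.Cn C) {G : Finset V} {z : V} (hz : z ∈ gp G {C}) :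
    T.fi {C} z + dg D z (gp G {C}) + eo D C G z ≤ r := by
  have hzC := (t7_mem_gp1.1 hz).2
  rw [T.fi_eq (T.fo_single hC) (Finset.mem_singleton_self C) hzC]
  obtain ⟨N, hN⟩ : ∃ N, N = (D.neighborFinset z).filter (fun y => y ∈ C ∧ y ∉ G) := ⟨_, rfl⟩
  have e1 : eo D C G z = dg D z N := by
    unfold eo dg
    rw [← hN]
    congr 1
    symm
    rw [Finset.filter_eq_self]
    intro x hx
    rw [hN, Finset.mem_filter, SimpleGraph.mem_neighborFinset] at hx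
    exact hx.1
  have d1 : Disjoint (T.o C) (gp G {C}) := by
    rw [Finset.disjoint_left]
    intro x hx hx'
    exact T.o_notMem hC hx (t7_mem_gp1.1 hx').2
  have d2 : Disjoint (T.o C ∪ gp G {C}) N := by
    rw [Finset.disjoint_left]
    intro x hx hx'
    rw [hN, Finset.mem_filter] at hx'
    rcases Finset.mem_union.1 hx with h | h
    · exact T.o_notMem hC h hx'.2.1
    · exact hx'.2.2 (t7_mem_gp1.1 h).1
  rw [e1, ← dg_union d1, ← dg_union d2]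
  exact T.gd.degLe z _

theorem t7_esc_le {T : TS D r} {C : Set V} (hC : T.Cn C) {G : Finset V} {w : V → ℕ} {y : V}
    (hne : (RcW D r w (gp G {C})).Nonempty) (hy : y ∈ gp G {C})
    (hw : ∀ z ∈ gp G {C}, w z + dl y z ≤ T.fi {C} z) :
    qw D r w (dl y) (gp G {C}) y + T.esc C G (qw D r w (dl y) (gp G {C})) ≤ 1 := by
  have hadm := t7_adm hC hw
  set S := gp G {C} with hS
  set p : V → ℝ := qw D r w (dl y) S with hp
  have harm : ∀ z ∈ S, ((r : ℝ) - w z) * p z = dl y z + ∑ z' ∈ S, if D.Adj z z' then p z' else 0 :=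
    fun z hz => qw_harm hadm hne hz
  have h1 : ∑ z ∈ S, ((r : ℝ) - w z) * p z = 1 + ∑ z ∈ S, p z * dg D z S := by
    rw [Finset.sum_congr rfl harm, Finset.sum_add_distrib]
    congr 1
    · have : ∑ z ∈ S, ((dl y z : ℕ) : ℝ) = ∑ z ∈ S, if z = y then (1 : ℝ) else 0 := by
        refine Finset.sum_congr rfl fun z _ => ?_
        unfold dl
        split_ifs <;> simp
      rw [this, Finset.sum_ite_eq' S y, if_pos hy]
    · rw [Finset.sum_comm]
      refine Finset.sum_congr rfl fun x _ => ?_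
      rw [dg_eq_sum]
      push_cast
      rw [Finset.mul_sum]
      refine Finset.sum_congr rfl fun z _ => ?_
      rw [D.adj_comm z x]
      split_ifs <;> simp
  have h2 : ∑ z ∈ S, p z * ((dl y z : ℕ) + (eo D C G z : ℝ)) ≤ 1 := by
    have h3 : ∑ z ∈ S, p z * ((dl y z : ℕ) + (eo D C G z : ℝ)) ≤
        ∑ z ∈ S, (((r : ℝ) - w z) * p z - p z * dg D z S) := by
      refine Finset.sum_le_sum fun z hz => ?_
      have a1 : w z + dl y z + dg D z S + eo D C G z ≤ r := by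
        have b1 := t7_dg_eo hC hz
        rw [← hS] at b1
        have b2 := hw z hz
        omega
      have a2 : (w z : ℝ) + dl y z + dg D z S + eo D C G z ≤ r := by exact_mod_cast a1
      have a3 : 0 ≤ p z := qw_nonneg
      nlinarith
    rw [Finset.sum_sub_distrib, h1] at h3
    linarith
  have h4 : ∑ z ∈ S, p z * ((dl y z : ℕ) + (eo D C G z : ℝ)) = p y + ∑ z ∈ S, p z * (eo D C G z : ℝ) := by
    simp only [mul_add]
    rw [Finset.sum_add_distrib]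
    congr 1
    have : ∑ z ∈ S, p z * ((dl y z : ℕ) : ℝ) = ∑ z ∈ S, if z = y then p z else 0 := by
      refine Finset.sum_congr rfl fun z _ => ?_
      unfold dl
      split_ifs <;> simp
    rw [this, Finset.sum_ite_eq' S y, if_pos hy]
  have h5 : T.esc C G p = ∑ z ∈ S, p z * (eo D C G z : ℝ) := by
    unfold TS.esc
    rw [← hS]
    symm
    refine Finset.sum_subset Finset.subset_union_left ?_
    intro x _ hx
    have : p x = 0 := qw_notMem hx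
    rw [this, zero_mul]
  rw [h5]
  linarith

theorem t7_le_esc {T : TS D r} {C : Set V} (hC : T.Cn C) {G : Finset V} {w : V → ℕ} {y : V}
    (hne : (RcW D r w (gp G {C})).Nonempty) (hy : y ∈ gp G {C})
    (hw : ∀ z ∈ gp G {C}, w z + dl y z ≤ T.fi {C} z) :
    T.g0 / (r : ℝ) ^ T.m * qw D r w (dl y) (gp G {C}) y ≤ T.esc C G (qw D r w (dl y) (gp G {C})) := by
  have hadm := t7_adm hC hw
  have hr : 1 ≤ r := T.gd.one_le
  have hr1 : (1 : ℝ) ≤ r := by exact_mod_cast hr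
  have hRm : (0 : ℝ) < (r : ℝ) ^ T.m := pow_pos (by linarith) _
  have hg0 := T.g0_pos
  have hg1 : T.g0 ≤ 1 := T.exists_g0.choose_spec.2.1
  set S := gp G {C} with hS
  set p : V → ℝ := qw D r w (dl y) S with hp
  have pnn : ∀ z, 0 ≤ p z := fun z => qw_nonneg
  have p0 : ∀ z, z ∉ S → p z = 0 := fun z hz => qw_notMem hz
  have harm : ∀ z ∈ S, ((r : ℝ) - w z) * p z = dl y z + ∑ z' ∈ S, if D.Adj z z' then p z' else 0 :=
    fun z hz => qw_harm hadm hne hz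
  have hsum0 : ∀ z, 0 ≤ ∑ z' ∈ S, if D.Adj z z' then p z' else 0 := fun z =>
    Finset.sum_nonneg fun z' _ => by split_ifs; exacts [pnn z', le_rfl]
  have hH : ∀ z ∈ S, ∀ x, D.Adj z x → p x ≤ r * p z := by
    intro z hz x hx
    by_cases hxS : x ∈ S
    · have a1 : p x ≤ ∑ z' ∈ S, if D.Adj z z' then p z' else 0 := by
        have := Finset.single_le_sum (f := fun z' => if D.Adj z z' then p z' else 0)
          (fun z' _ => by
            show 0 ≤ if D.Adj z z' then p z' else 0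
            split_ifs
            exacts [pnn z', le_rfl]) hxS
        simpa [hx] using this
      have a2 := harm z hz
      have a3 : (0 : ℝ) ≤ (dl y z : ℕ) := Nat.cast_nonneg _
      have a4 : (0 : ℝ) ≤ (w z : ℝ) := Nat.cast_nonneg _
      have a5 := mul_nonneg a4 (pnn z)
      linarith
    · rw [p0 x hxS]
      exact mul_nonneg (by linarith) (pnn z)
  obtain ⟨hyG, hyC⟩ := t7_mem_gp1.1 hy
  have hyQ : y ∈ T.Q C := by
    have h1 := hw y hy
    have h2 : dl y y = 1 := by simp [dl]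
    obtain ⟨x, hx, hxy⟩ := T.t5b_fi_pos (F := {C}) (z := y) (by omega)
    have hx' := T.t5b_fo_notMem (T.fo_single hC) hx
    rw [TS.t5b_fs_single] at hx'
    exact (T.ib_sub hC hyC hx' hxy).1
  have hpow : (r : ℝ) ^ (T.Q C).card ≤ (r : ℝ) ^ T.m := pow_le_pow_right₀ hr1 (T.Q_card hC)
  by_cases hQG : T.Q C ⊆ G
  · -- all of the top piece is present
    have hQS : ∀ z ∈ T.Q C, z ∈ S := fun z hz => t7_mem_gp1.2 ⟨hQG hz, T.Q_sub hC hz⟩
    have hlow : ∀ b ∈ T.Q C, p y / (r : ℝ) ^ T.m ≤ p b := by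
      intro b hb
      have h1 := chain1 (D := D) (T.Q_conn hC) hr pnn (fun z hz x hx => hH z (hQS z hz) x hx) hyQ hb
      rw [div_le_iff₀ hRm]
      calc p y ≤ (r : ℝ) ^ (T.Q C).card * p b := h1
        _ ≤ (r : ℝ) ^ T.m * p b := mul_le_mul_of_nonneg_right hpow (pnn b)
        _ = p b * (r : ℝ) ^ T.m := mul_comm _ _
    obtain ⟨τ, hτ⟩ : ∃ τ : ℝ, τ = p y / (r : ℝ) ^ T.m := ⟨_, rfl⟩
    have hτ0 : 0 ≤ τ := by rw [hτ]; exact div_nonneg (pnn y) hRm.le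
    rw [← hτ] at hlow
    have hchild : ∀ C' ∈ T.ch C, τ * T.g0 ≤ T.esc C' G p := by
      intro C' hC'
      have hcn' := T.ch_cn hC C' hC'
      have hsup : ∀ z ∈ gp G {C'}, nsum D p z ≤ (r : ℝ) * p z := by
        intro z hz
        obtain ⟨hzG, hzC'⟩ := t7_mem_gp1.1 hz
        have hzS : z ∈ S := t7_mem_gp1.2 ⟨hzG, T.ch_sub hC hC' hzC'⟩
        have h1 : T.fi {C} z = 0 := by
          refine T.fi_zero (T.fo_single hC) (i := 1) le_rfl ?_
          refine ⟨C', ?_, hzC'⟩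
          rw [T.de_succ, T.de_zero, Finset.mem_biUnion]
          exact ⟨C, Finset.mem_singleton_self C, hC'⟩
        have h2 := hw z hzS
        have h3 : w z = 0 := by omega
        have h4 : dl y z = 0 := by omega
        have h5 := harm z hzS
        rw [h3, h4] at h5
        rw [t4_nsum_supp (S := S) p0 z]
        simp only [Nat.cast_zero, sub_zero, zero_add] at h5
        exact h5.ge
      have huc : ∀ z, τ * T.uc C' G z ≤ p z :=
        T.uc_le hcn' pnn hsup (fun z hz => hlow z (T.o_sub hC C' hC' hz))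
      have h6 : T.esc C' G (fun z => τ * T.uc C' G z) ≤ T.esc C' G p := T.esc_mono (fun z _ => huc z)
      have h7 : T.esc C' G (fun z => τ * T.uc C' G z) = τ * T.esc C' G (T.uc C' G) := by
        unfold TS.esc
        rw [Finset.mul_sum]
        exact Finset.sum_congr rfl fun z _ => by ring
      rw [h7] at h6
      exact le_trans (mul_le_mul_of_nonneg_left (T.g0_le hcn' G) hτ0) h6
    have hsc := T.esc_ch hC (G := G) pnn (fun z _ hzG => p0 z (fun h => hzG (t7_mem_gp1.1 h).1))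
    have hrest : 0 ≤ ∑ z ∈ gp G {C} ∪ T.o C, p z *
        (((D.neighborFinset z).filter (fun y => y ∈ T.Q C ∧ y ∉ G)).card : ℝ) :=
      Finset.sum_nonneg fun z _ => mul_nonneg (pnn z) (Nat.cast_nonneg _)
    have hsum : τ * T.g0 ≤ ∑ C' ∈ T.ch C, T.esc C' G p := by
      have hcard : (1 : ℝ) ≤ ((T.ch C).card : ℝ) := by
        have := T.two hC
        exact_mod_cast (by omega : 1 ≤ (T.ch C).card)
      have h8 : ((T.ch C).card : ℝ) * (τ * T.g0) ≤ ∑ C' ∈ T.ch C, T.esc C' G p := by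
        rw [← nsmul_eq_mul]
        exact Finset.card_nsmul_le_sum _ _ _ hchild
      have h9 : 0 ≤ τ * T.g0 := mul_nonneg hτ0 hg0.le
      nlinarith
    have hfin : T.g0 / (r : ℝ) ^ T.m * p y = τ * T.g0 := by
      rw [hτ]
      ring
    rw [hfin]
    linarith
  · -- some vertex of the top piece is missing
    obtain ⟨z, hzQ, hzG, ⟨y', hy'Q, hy'G, hadj⟩, hle⟩ := chain2 (D := D) (T.Q_conn hC) hr hQG pnn
      (fun z hz hzG x hx => hH z (t7_mem_gp1.2 ⟨hzG, T.Q_sub hC hz⟩) x hx) hyQ hyG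
    have hzS : z ∈ S := t7_mem_gp1.2 ⟨hzG, T.Q_sub hC hzQ⟩
    have heo : (1 : ℝ) ≤ (eo D C G z : ℝ) := by
      have : 1 ≤ eo D C G z := by
        unfold eo
        refine Finset.card_pos.2 ⟨y', ?_⟩
        rw [Finset.mem_filter, SimpleGraph.mem_neighborFinset]
        exact ⟨hadj, T.Q_sub hC hy'Q, hy'G⟩
      exact_mod_cast this
    have hesc : p z * (eo D C G z : ℝ) ≤ T.esc C G p := by
      unfold TS.esc
      exact Finset.single_le_sum (f := fun z => p z * (eo D C G z : ℝ))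
        (fun x _ => mul_nonneg (pnn x) (Nat.cast_nonneg _)) (Finset.mem_union_left _ hzS)
    have h1 : p y ≤ (r : ℝ) ^ T.m * p z := le_trans hle (mul_le_mul_of_nonneg_right hpow (pnn z))
    have h2 : T.g0 / (r : ℝ) ^ T.m * p y ≤ p z := by
      rw [div_mul_eq_mul_div, div_le_iff₀ hRm]
      have := mul_le_mul_of_nonneg_right hg1 (pnn y)
      linarith
    have h3 : p z ≤ p z * (eo D C G z : ℝ) := by
      have := mul_le_mul_of_nonneg_left heo (pnn z)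
      linarith
    linarith

/-- TARGET. escape with weights. Let `w + dl y ≤ fi {C}` on `gp G {C}`, `y ∈ gp G {C}`, `p z = qw w (dl y) (gp G {C}) z` (`0` off `gp G {C}`), so `(r - w z) p z = dl y z + Σ_{z' ∈ gp G {C}, z' ~ z} p z'` (`qw_harm`).
Summing over `z ∈ gp G {C}`: `Σ_z p z (r - w z - dg z (gp G {C})) = 1`, and `r - w z - dg z (gp G {C}) ≥ dl y z + #{neighbours of z in C \ G}`; so `p y + esc C G p ≤ 1`.
Harnack: `p z' ≤ r p z` for neighbours `z' ∈ gp G {C}` of `z ∈ gp G {C}`. If `Q C ⊄ G`, `chain2` (note `y ∈ Q C` as `dl y y ≤ fi {C} y`) gives `esc ≥ r^(-m) p y`. If `Q C ⊆ G`, `p ≥ r^(-m) p y` on `Q C`, `p` is harmonic on the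
children (`w = 0` there), so `esc C G p ≥ Σ_{C'} r^(-m) p y · esc C' G (uc C' G) ≥ r^(-m) p y g0`. So `p y (1 + r^(-m) g0) ≤ 1`. -/
theorem TS.exists_g3 (T : TS D r) : ∃ g : ℝ, 0 < g ∧ g ≤ 1 ∧ ∀ C, T.Cn C → ∀ (G : Finset V) (w : V → ℕ) (y : V), y ∈ gp G {C} →
    (∀ z ∈ gp G {C}, w z + dl y z ≤ T.fi {C} z) → g ≤ 1 - qw D r w (dl y) (gp G {C}) y := by
  have hr1 : (1 : ℝ) ≤ r := by exact_mod_cast T.gd.one_le
  have hRm : (0 : ℝ) < (r : ℝ) ^ T.m := pow_pos (by linarith) _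
  have hg0 := T.g0_pos
  have hg1 : T.g0 ≤ 1 := T.exists_g0.choose_spec.2.1
  obtain ⟨t, ht⟩ : ∃ t : ℝ, t = T.g0 / (r : ℝ) ^ T.m := ⟨_, rfl⟩
  have htp : 0 < t := by rw [ht]; positivity
  refine ⟨t / (1 + t), by positivity, (div_le_one (by linarith)).2 (by linarith), ?_⟩
  intro C hC G w y hy hw
  by_cases hne : (RcW D r w (gp G {C})).Nonempty
  · have h := t7_esc_le hC hne hy hw
    have h2 := t7_le_esc hC hne hy hw
    rw [← ht] at h2
    have h3 : qw D r w (dl y) (gp G {C}) y * (1 + t) ≤ 1 := by linarith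
    have h4 : qw D r w (dl y) (gp G {C}) y ≤ 1 / (1 + t) := by
      rw [le_div_iff₀ (by linarith)]
      exact h3
    have h5 : t / (1 + t) = 1 - 1 / (1 + t) := by
      field_simp
      ring
    rw [h5]
    linarith
  · rw [Finset.not_nonempty_iff_eq_empty] at hne
    have h0 : qw D r w (dl y) (gp G {C}) y = 0 := by
      rw [t1_qw_eq, hne]
      simp
    rw [h0, sub_zero]
    exact (div_le_one (by linarith)).2 (by linarith)

omit [D.LocallyFinite] in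
theorem t7_RcW_congr {w w' : V → ℕ} {G : Finset V} (h : ∀ z ∈ G, w z = w' z) : RcW D r w G = RcW D r w' G := by
  ext ζ
  rw [mem_RcW, mem_RcW]
  constructor
  · rintro ⟨h1, h2⟩
    exact ⟨h1, h2.mono_w (fun z hz => (h z hz).ge)⟩
  · rintro ⟨h1, h2⟩
    exact ⟨h1, h2.mono_w (fun z hz => (h z hz).le)⟩

theorem t7_c0_aux {T : TS D r} {g : ℝ} (hg0 : 0 < g) {C : Set V} (hC : T.Cn C) {G : Finset V}
    (H : ∀ (w : V → ℕ) (y : V), y ∈ gp G {C} →
      (∀ z ∈ gp G {C}, w z + dl y z ≤ T.fi {C} z) → g ≤ 1 - qw D r w (dl y) (gp G {C}) y) :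
    ∀ (k : ℕ) (w : V → ℕ), (∀ z ∈ gp G {C}, w z ≤ T.fi {C} z) → ∑ z ∈ gp G {C}, w z = k →
      g ^ k * (Rc D r (gp G {C})).card ≤ (RcW D r w (gp G {C})).card := by
  intro k
  induction k with
  | zero =>
    intro w _ hs
    have h0 : ∀ z ∈ gp G {C}, w z = (0 : V → ℕ) z := by
      intro z hz
      exact (Finset.sum_eq_zero_iff.1 hs) z hz
    rw [t7_RcW_congr h0, pow_zero, one_mul]
    exact le_rfl
  | succ k ih =>
    intro w hw hs
    obtain ⟨y, hy, hwy⟩ : ∃ y ∈ gp G {C}, w y ≠ 0 := by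
      by_contra hcon
      push Not at hcon
      rw [Finset.sum_eq_zero hcon] at hs
      omega
    obtain ⟨w', hw'⟩ : ∃ w' : V → ℕ, w' = fun z => w z - dl y z := ⟨_, rfl⟩
    have hadd : ∀ z, w' z + dl y z = w z := by
      intro z
      rw [hw']
      show w z - dl y z + dl y z = w z
      unfold dl
      split_ifs with h
      · subst h
        omega
      · omega
    have hfun : w' + dl y = w := funext hadd
    have hsum : ∑ z ∈ gp G {C}, w' z = k := by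
      have e1 : ∑ z ∈ gp G {C}, (w' z + dl y z) = k + 1 := by
        rw [← hs]
        exact Finset.sum_congr rfl fun z _ => hadd z
      rw [Finset.sum_add_distrib] at e1
      have e2 : ∑ z ∈ gp G {C}, dl y z = 1 := by
        unfold dl
        rw [Finset.sum_ite_eq' (gp G {C}) y, if_pos hy]
      omega
    have hle : ∀ z ∈ gp G {C}, w' z + dl y z ≤ T.fi {C} z := fun z hz => by
      rw [hadd]
      exact hw z hz
    have h1 := ih w' (fun z hz => by have := hle z hz; omega) hsum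
    have hpos : (0 : ℝ) < (RcW D r w' (gp G {C})).card :=
      lt_of_lt_of_le (mul_pos (pow_pos hg0 _) (by exact_mod_cast T.gd.card_pos _)) h1
    have hne : (RcW D r w' (gp G {C})).Nonempty := Finset.card_pos.1 (by exact_mod_cast hpos)
    have h2 := card_RcW_dl (t7_adm hC hle) hne
    rw [hfun] at h2
    rw [h2]
    have h3 := H w' y hy hle
    have h4 : 0 ≤ g ^ k * ((Rc D r (gp G {C})).card : ℝ) := mul_nonneg (pow_pos hg0 _).le (Nat.cast_nonneg _)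
    calc g ^ (k + 1) * ((Rc D r (gp G {C})).card : ℝ) = (g ^ k * (Rc D r (gp G {C})).card) * g := by ring
      _ ≤ (RcW D r w' (gp G {C})).card * (1 - qw D r w' (dl y) (gp G {C}) y) :=
        mul_le_mul h1 h3 hg0.le hpos.le

/-- TARGET. Strong ratio: adding the at most `m r` units of weight one by one (`card_RcW_dl`; total weight `Σ_{z ∈ gp G {C}} fi {C} z ≤ m r`) -/
theorem TS.exists_c0 (T : TS D r) : ∃ c : ℝ, 0 < c ∧ c ≤ 1 ∧ ∀ C, T.Cn C → ∀ G : Finset V,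
    c * (Rc D r (gp G {C})).card ≤ (RcW D r (T.fi {C}) (gp G {C})).card := by
  obtain ⟨g, hg0, hg1, H⟩ := T.exists_g3
  refine ⟨g ^ (T.m * r), pow_pos hg0 _, pow_le_one₀ hg0.le hg1, ?_⟩
  intro C hC G
  have h1 := t7_c0_aux hg0 hC (H C hC G) (∑ z ∈ gp G {C}, T.fi {C} z) (T.fi {C}) (fun _ _ => le_rfl) rfl
  have h2 : ∑ z ∈ gp G {C}, T.fi {C} z ≤ T.m * r := by
    have e1 : ∑ z ∈ gp G {C}, T.fi {C} z = ∑ x ∈ T.o C, dg D x (gp G {C}) := by
      have e2 : ∀ z ∈ gp G {C}, T.fi {C} z = ∑ x ∈ T.o C, if D.Adj z x then 1 else 0 := by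
        intro z hz
        rw [T.fi_eq (T.fo_single hC) (Finset.mem_singleton_self C) (t7_mem_gp1.1 hz).2, dg_eq_sum]
      rw [Finset.sum_congr rfl e2, Finset.sum_comm]
      refine Finset.sum_congr rfl fun x _ => ?_
      rw [dg_eq_sum]
      refine Finset.sum_congr rfl fun z _ => ?_
      rw [D.adj_comm x z]
    rw [e1]
    calc ∑ x ∈ T.o C, dg D x (gp G {C}) ≤ ∑ _x ∈ T.o C, r := Finset.sum_le_sum fun x _ => T.gd.degLe x _
      _ = (T.o C).card * r := by rw [Finset.sum_const, smul_eq_mul]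
      _ ≤ T.m * r := Nat.mul_le_mul_right _ (T.o_card hC)
  refine le_trans (mul_le_mul_of_nonneg_right (pow_le_pow_of_le_one hg0.le hg1 h2) (Nat.cast_nonneg _)) h1

noncomputable def TS.c0 (T : TS D r) : ℝ := T.exists_c0.choose

theorem TS.c0_pos (T : TS D r) : 0 < T.c0 := T.exists_c0.choose_spec.1

theorem TS.c0_le_one (T : TS D r) : T.c0 ≤ 1 := T.exists_c0.choose_spec.2.1

theorem TS.c0_card (T : TS D r) {C : Set V} (hC : T.Cn C) (G : Finset V) :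
    T.c0 * (Rc D r (gp G {C})).card ≤ (RcW D r (T.fi {C}) (gp G {C})).card := T.exists_c0.choose_spec.2.2 C hC G

theorem t7_card_pos (T : TS D r) (G : Finset V) : (0 : ℝ) < (Rc D r G).card := by
  exact_mod_cast T.gd.card_pos G

theorem t7_prod_pos (T : TS D r) (F : Finset (Set V)) (G : Finset V) :
    0 < ∏ C ∈ F, ((Rc D r (gp G {C})).card : ℝ) :=
  Finset.prod_pos fun C _ => t7_card_pos T (gp G {C})

/-- lower bound for the sum over the first marginal -/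
theorem t7_marg_ge (T : TS D r) {F : Finset (Set V)} (hF : T.Fo F) (G1 G : Finset V) (hd : ∀ z ∈ G1, z ∉ fs F)
    (h1 : (V → ℕ) → ℝ) (h10 : ∀ ζ, 0 ≤ h1 ζ) :
    T.c0 ^ F.card * ((∑ ζ ∈ Rc D r G1, h1 ζ) * ∏ C ∈ F, ((Rc D r (gp G {C})).card : ℝ)) ≤
      ∑ ζ ∈ Rc D r (G1 ∪ gp G F), h1 (rs G1 ζ) := by
  have h := t7_prod_ge (T := T) F hF G1 G hd h1 (fun _ _ => 1) h10 (fun _ _ => zero_le_one)
  simp only [Finset.prod_const_one, mul_one, Finset.sum_const, nsmul_eq_mul] at h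
  refine le_trans ?_ h
  have hs : 0 ≤ ∑ ζ ∈ Rc D r G1, h1 ζ := Finset.sum_nonneg fun ζ _ => h10 ζ
  have e : T.c0 ^ F.card * ∏ C ∈ F, ((Rc D r (gp G {C})).card : ℝ) ≤
      ∏ C ∈ F, ((RcW D r (T.fi {C}) (gp G {C})).card : ℝ) := by
    rw [← Finset.prod_const, ← Finset.prod_mul_distrib]
    refine Finset.prod_le_prod (fun C _ => ?_) (fun C hC => T.c0_card (hF.cn C hC) G)
    exact mul_nonneg T.c0_pos.le (Nat.cast_nonneg _)
  calc T.c0 ^ F.card * ((∑ ζ ∈ Rc D r G1, h1 ζ) * ∏ C ∈ F, ((Rc D r (gp G {C})).card : ℝ))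
      = (∑ ζ ∈ Rc D r G1, h1 ζ) * (T.c0 ^ F.card * ∏ C ∈ F, ((Rc D r (gp G {C})).card : ℝ)) := by ring
    _ ≤ _ := mul_le_mul_of_nonneg_left e hs

/-- TARGET. a forest attached to a set: `G1` is disjoint from the forest -/
theorem TS.card_le (T : TS D r) {F : Finset (Set V)} (hF : T.Fo F) (G1 G : Finset V) (hd : ∀ z ∈ G1, z ∉ fs F) :
    (Rc D r (G1 ∪ gp G F)).card ≤ (Rc D r G1).card * ∏ C ∈ F, (Rc D r (gp G {C})).card := by
  have h := t7_prod_le (D := D) (r := r) F G1 G (fun _ => 1) (fun _ _ => 1) (fun _ => zero_le_one) (fun _ _ => zero_le_one)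
  simp only [Finset.prod_const_one, mul_one, Finset.sum_const, nsmul_eq_mul] at h
  exact_mod_cast h

/-- TARGET. lower bound: a recurrent configuration on `G1` together with strongly recurrent ones on the cones is recurrent (`union_mem`; the neighbours in `G1` and in the other cones
of a vertex of `C` are in `o C`) -/
theorem TS.card_ge (T : TS D r) {F : Finset (Set V)} (hF : T.Fo F) (G1 G : Finset V) (hd : ∀ z ∈ G1, z ∉ fs F) :
    T.c0 ^ F.card * ((Rc D r G1).card * ∏ C ∈ F, ((Rc D r (gp G {C})).card : ℝ)) ≤ (Rc D r (G1 ∪ gp G F)).card := by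
  have h := t7_marg_ge T hF G1 G hd (fun _ => 1) (fun _ => zero_le_one)
  simp only [Finset.sum_const, nsmul_eq_mul, mul_one] at h
  exact h

/-- TARGET. product upper bound for expectations -/
theorem TS.prod_le (T : TS D r) {F : Finset (Set V)} (hF : T.Fo F) (G1 G : Finset V) (hd : ∀ z ∈ G1, z ∉ fs F) (h1 : (V → ℕ) → ℝ)
    (h2 : Set V → (V → ℕ) → ℝ) (h10 : ∀ ζ, 0 ≤ h1 ζ) (h20 : ∀ C ζ, 0 ≤ h2 C ζ) :
    ex D r (G1 ∪ gp G F) (fun ζ => h1 (rs G1 ζ) * ∏ C ∈ F, h2 C (rs (gp G {C}) ζ)) ≤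
      (T.c0⁻¹) ^ F.card * (ex D r G1 h1 * ∏ C ∈ F, ex D r (gp G {C}) (h2 C)) := by
  have h := t7_prod_le (D := D) (r := r) F G1 G h1 h2 h10 h20
  have hc := T.card_ge hF G1 G hd
  have hN := t7_card_pos T (G1 ∪ gp G F)
  have hN1 := t7_card_pos T G1
  have hP := t7_prod_pos T F G
  have hc0 := T.c0_pos
  have hcp : 0 < T.c0 ^ F.card := pow_pos hc0 _
  have hS : 0 ≤ (∑ ζ ∈ Rc D r G1, h1 ζ) * ∏ C ∈ F, ∑ ζ ∈ Rc D r (gp G {C}), h2 C ζ :=
    mul_nonneg (Finset.sum_nonneg fun ζ _ => h10 ζ)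
      (Finset.prod_nonneg fun C _ => Finset.sum_nonneg fun ζ _ => h20 C ζ)
  unfold ex
  rw [Finset.prod_div_distrib, div_le_iff₀ hN]
  refine le_trans h ?_
  rw [div_mul_div_comm, inv_pow, inv_mul_eq_div, div_div, div_mul_eq_mul_div,
    le_div_iff₀ (mul_pos (mul_pos hN1 hP) hcp)]
  refine mul_le_mul_of_nonneg_left ?_ hS
  linarith

/-- TARGET. lower bound for the marginal on `G1` -/
theorem TS.marg_ge (T : TS D r) {F : Finset (Set V)} (hF : T.Fo F) (G1 G : Finset V) (hd : ∀ z ∈ G1, z ∉ fs F) (h1 : (V → ℕ) → ℝ)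
    (h10 : ∀ ζ, 0 ≤ h1 ζ) : T.c0 ^ F.card * ex D r G1 h1 ≤ ex D r (G1 ∪ gp G F) (fun ζ => h1 (rs G1 ζ)) := by
  have h := t7_marg_ge T hF G1 G hd h1 h10
  have hc : ((Rc D r (G1 ∪ gp G F)).card : ℝ) ≤ (Rc D r G1).card * ∏ C ∈ F, ((Rc D r (gp G {C})).card : ℝ) := by
    exact_mod_cast T.card_le hF G1 G hd
  have hN := t7_card_pos T (G1 ∪ gp G F)
  have hN1 := t7_card_pos T G1
  have hP := t7_prod_pos T F G
  have hc0 := T.c0_pos
  have hcp : 0 < T.c0 ^ F.card := pow_pos hc0 _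
  have hs : 0 ≤ ∑ ζ ∈ Rc D r G1, h1 ζ := Finset.sum_nonneg fun ζ _ => h10 ζ
  unfold ex
  rw [le_div_iff₀ hN]
  refine le_trans ?_ h
  have e1 : T.c0 ^ F.card * ((∑ ζ ∈ Rc D r G1, h1 ζ) / ((Rc D r G1).card : ℝ)) * ((Rc D r (G1 ∪ gp G F)).card : ℝ) ≤
      T.c0 ^ F.card * ((∑ ζ ∈ Rc D r G1, h1 ζ) / ((Rc D r G1).card : ℝ)) *
        ((Rc D r G1).card * ∏ C ∈ F, ((Rc D r (gp G {C})).card : ℝ)) :=
    mul_le_mul_of_nonneg_left hc (mul_nonneg hcp.le (div_nonneg hs hN1.le))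
  refine le_trans e1 (le_of_eq ?_)
  field_simp

/-- TARGET. (`prod_le` with `h2 = 1`) -/
theorem TS.marg_le (T : TS D r) {F : Finset (Set V)} (hF : T.Fo F) (G1 G : Finset V) (hd : ∀ z ∈ G1, z ∉ fs F) (h1 : (V → ℕ) → ℝ)
    (h10 : ∀ ζ, 0 ≤ h1 ζ) : ex D r (G1 ∪ gp G F) (fun ζ => h1 (rs G1 ζ)) ≤ (T.c0⁻¹) ^ F.card * ex D r G1 h1 := by
  have h := T.prod_le hF G1 G hd h1 (fun _ _ => 1) h10 (fun _ _ => zero_le_one)
  have e : ∏ C ∈ F, ex D r (gp G {C}) ((fun _ _ => 1 : Set V → (V → ℕ) → ℝ) C) = 1 := by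
    refine Finset.prod_eq_one fun C _ => ?_
    unfold ex
    simp only [Finset.sum_const, nsmul_eq_mul, mul_one]
    exact div_self (t7_card_pos T _).ne'
  rw [e, mul_one] at h
  simpa using h

theorem t7_out1 (G : Finset V) (F : Finset (Set V)) (A : Set V) :
    ∀ z ∈ (gp G F).filter (fun z => z ∉ A), z ∉ fs {A} := by
  rintro z hz ⟨B, hB, hzB⟩
  rw [Finset.mem_singleton] at hB
  rw [hB] at hzB
  exact (Finset.mem_filter.1 hz).2 hzB

theorem t7_split {T : TS D r} {F : Finset (Set V)} (hF : T.Fo F) {i : ℕ} {A : Set V} (hA : A ∈ T.de F i) (G : Finset V) :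
    (gp G F).filter (fun z => z ∉ A) ∪ gp G {A} = gp G F := by
  ext z
  rw [Finset.mem_union, Finset.mem_filter, t7_mem_gp1]
  constructor
  · rintro (h | h)
    · exact h.1
    · exact t7_mem_gp.2 ⟨h.1, T.t5b_sub hF hA h.2⟩
  · intro h
    by_cases hz : z ∈ A
    · exact Or.inr ⟨(t7_mem_gp.1 h).1, hz⟩
    · exact Or.inl ⟨h, hz⟩

/-- TARGET. one cone of generation `i` and the rest -/
theorem TS.two_le (T : TS D r) {F : Finset (Set V)} (hF : T.Fo F) {i : ℕ} {A : Set V} (hA : A ∈ T.de F i) (G : Finset V) (h1 h2 : (V → ℕ) → ℝ)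
    (h10 : ∀ ζ, 0 ≤ h1 ζ) (h20 : ∀ ζ, 0 ≤ h2 ζ) :
    ex D r (gp G F) (fun ζ => h1 (rs ((gp G F).filter (fun z => z ∉ A)) ζ) * h2 (rs (gp G {A}) ζ)) ≤
      T.c0⁻¹ * (ex D r ((gp G F).filter (fun z => z ∉ A)) h1 * ex D r (gp G {A}) h2) := by
  have hcn := T.t5b_cn hF hA
  have h := T.prod_le (T.fo_single hcn) ((gp G F).filter (fun z => z ∉ A)) G (t7_out1 G F A) h1 (fun _ => h2) h10
    (fun _ => h20)
  rw [t7_split hF hA G] at h
  simpa using h

/-- TARGET. -/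
theorem TS.two_marg (T : TS D r) {F : Finset (Set V)} (hF : T.Fo F) {i : ℕ} {A : Set V} (hA : A ∈ T.de F i) (G : Finset V) (h1 : (V → ℕ) → ℝ)
    (h10 : ∀ ζ, 0 ≤ h1 ζ) :
    ex D r ((gp G F).filter (fun z => z ∉ A)) h1 ≤ T.c0⁻¹ * ex D r (gp G F) (fun ζ => h1 (rs ((gp G F).filter (fun z => z ∉ A)) ζ)) := by
  have hcn := T.t5b_cn hF hA
  have h := T.marg_ge (T.fo_single hcn) ((gp G F).filter (fun z => z ∉ A)) G (t7_out1 G F A) h1 h10
  rw [t7_split hF hA G] at h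
  rw [Finset.card_singleton, pow_one] at h
  rw [inv_mul_eq_div, le_div_iff₀ T.c0_pos, mul_comm]
  exact h

/-- TARGET. the children of `A ∈ de F i` and the outside of `A`, with the marginal of `gp G F` on the right. Let `G1' = gp G F \ fs (ch A)`; `prod_le` for the forest `ch A`, then `marg_ge`
for `ch A` (with the function `ζ ↦ h1 (rs (gp G F \ A) ζ)` of the configuration on `G1'`) -/
theorem TS.child_le (T : TS D r) {F : Finset (Set V)} (hF : T.Fo F) {i : ℕ} {A : Set V} (hA : A ∈ T.de F i) (G : Finset V) (h1 : (V → ℕ) → ℝ)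
    (h2 : Set V → (V → ℕ) → ℝ) (h10 : ∀ ζ, 0 ≤ h1 ζ) (h20 : ∀ C ζ, 0 ≤ h2 C ζ) :
    ex D r (gp G F) (fun ζ => h1 (rs ((gp G F).filter (fun z => z ∉ A)) ζ) * ∏ C ∈ T.ch A, h2 C (rs (gp G {C}) ζ)) ≤
      (T.c0⁻¹) ^ (2 * T.m) * (ex D r (gp G F) (fun ζ => h1 (rs ((gp G F).filter (fun z => z ∉ A)) ζ)) * ∏ C ∈ T.ch A, ex D r (gp G {C}) (h2 C)) := by
  have hcn := T.t5b_cn hF hA
  set G0 := (gp G F).filter (fun z => z ∉ A) with hG0
  obtain ⟨G1, hG1⟩ : ∃ G1, G1 = (gp G F).filter (fun z => z ∉ fs (T.ch A)) := ⟨_, rfl⟩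
  have hd : ∀ z ∈ G1, z ∉ fs (T.ch A) := fun z hz => by
    rw [hG1] at hz
    exact (Finset.mem_filter.1 hz).2
  have hU : G1 ∪ gp G (T.ch A) = gp G F := by
    ext z
    rw [Finset.mem_union, hG1, Finset.mem_filter]
    constructor
    · rintro (h | h)
      · exact h.1
      · obtain ⟨h1, B, hB, hzB⟩ := t7_mem_gp.1 h
        exact t7_mem_gp.2 ⟨h1, T.t5b_sub hF hA (T.ch_sub hcn hB hzB)⟩
    · intro h
      by_cases hz : z ∈ fs (T.ch A)
      · exact Or.inr (t7_mem_gp.2 ⟨(t7_mem_gp.1 h).1, hz⟩)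
      · exact Or.inl ⟨h, hz⟩
  have hsub : G0 ⊆ G1 := by
    intro z hz
    rw [hG0, Finset.mem_filter] at hz
    rw [hG1, Finset.mem_filter]
    refine ⟨hz.1, ?_⟩
    rintro ⟨B, hB, hzB⟩
    exact hz.2 (T.ch_sub hcn hB hzB)
  have k1 := T.prod_le (T.fo_ch hcn) G1 G hd (fun ζ => h1 (rs G0 ζ)) h2 (fun ζ => h10 _) h20
  have k2 := T.marg_ge (T.fo_ch hcn) G1 G hd (fun ζ => h1 (rs G0 ζ)) (fun ζ => h10 _)
  rw [hU] at k1 k2
  simp only [t7_rs_rs hsub] at k1 k2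
  have hc0 := T.c0_pos
  have hci : 1 ≤ T.c0⁻¹ := (one_le_inv₀ hc0).2 T.c0_le_one
  have hP : 0 ≤ ∏ C ∈ T.ch A, ex D r (gp G {C}) (h2 C) :=
    Finset.prod_nonneg fun C _ => div_nonneg (Finset.sum_nonneg fun ζ _ => h20 C ζ) (Nat.cast_nonneg _)
  have hE : 0 ≤ ex D r (gp G F) (fun ζ => h1 (rs G0 ζ)) :=
    div_nonneg (Finset.sum_nonneg fun ζ _ => h10 _) (Nat.cast_nonneg _)
  have hcp : 0 < T.c0 ^ (T.ch A).card := pow_pos hc0 _
  have k3 : ex D r G1 (fun ζ => h1 (rs G0 ζ)) ≤ (T.c0⁻¹) ^ (T.ch A).card * ex D r (gp G F) (fun ζ => h1 (rs G0 ζ)) := by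
    rw [inv_pow, inv_mul_eq_div, le_div_iff₀ hcp, mul_comm]
    exact k2
  have hpc : 0 ≤ (T.c0⁻¹) ^ (T.ch A).card := pow_nonneg (inv_nonneg.2 hc0.le) _
  refine le_trans k1 ?_
  have k4 : (T.c0⁻¹) ^ (T.ch A).card * (ex D r G1 (fun ζ => h1 (rs G0 ζ)) * ∏ C ∈ T.ch A, ex D r (gp G {C}) (h2 C)) ≤
      (T.c0⁻¹) ^ (T.ch A).card * (((T.c0⁻¹) ^ (T.ch A).card * ex D r (gp G F) (fun ζ => h1 (rs G0 ζ))) *
        ∏ C ∈ T.ch A, ex D r (gp G {C}) (h2 C)) :=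
    mul_le_mul_of_nonneg_left (mul_le_mul_of_nonneg_right k3 hP) hpc
  refine le_trans k4 ?_
  have k5 : (T.c0⁻¹) ^ (T.ch A).card * (T.c0⁻¹) ^ (T.ch A).card ≤ (T.c0⁻¹) ^ (2 * T.m) := by
    rw [← pow_add]
    refine pow_le_pow_right₀ hci ?_
    have := T.ch_card hcn
    omega
  calc (T.c0⁻¹) ^ (T.ch A).card * (((T.c0⁻¹) ^ (T.ch A).card * ex D r (gp G F) (fun ζ => h1 (rs G0 ζ))) *
        ∏ C ∈ T.ch A, ex D r (gp G {C}) (h2 C))
      = ((T.c0⁻¹) ^ (T.ch A).card * (T.c0⁻¹) ^ (T.ch A).card) * (ex D r (gp G F) (fun ζ => h1 (rs G0 ζ)) *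
        ∏ C ∈ T.ch A, ex D r (gp G {C}) (h2 C)) := by ring
    _ ≤ _ := mul_le_mul_of_nonneg_right k5 (mul_nonneg hE hP)

/-- TARGET. exact product formula for a forest alone (there are no edges between its cones) -/
theorem TS.fo_prod (T : TS D r) {F : Finset (Set V)} (hF : T.Fo F) (G : Finset V) (h2 : Set V → (V → ℕ) → ℝ) :
    ex D r (gp G F) (fun ζ => ∏ C ∈ F, h2 C (rs (gp G {C}) ζ)) = ∏ C ∈ F, ex D r (gp G {C}) (h2 C) := by
  have e1 := t7_prod_eq (T := T) F hF G h2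
  have e2 := t7_prod_eq (T := T) F hF G (fun _ _ => 1)
  simp only [Finset.prod_const_one, Finset.sum_const, nsmul_eq_mul, mul_one] at e2
  unfold ex
  rw [e1, e2, Finset.prod_div_distrib]

/-- TARGET. two disjoint parts of a forest -/
theorem TS.fo_two (T : TS D r) {F F' : Finset (Set V)} (hF : T.Fo (F ∪ F')) (hd : Disjoint F F') (G : Finset V) (h1 h2 : (V → ℕ) → ℝ) :
    ex D r (gp G (F ∪ F')) (fun ζ => h1 (rs (gp G F) ζ) * h2 (rs (gp G F') ζ)) = ex D r (gp G F) h1 * ex D r (gp G F') h2 := by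
  have hU : gp G (F ∪ F') = gp G F ∪ gp G F' := by
    ext z
    rw [Finset.mem_union, t7_mem_gp, t7_mem_gp, t7_mem_gp]
    constructor
    · rintro ⟨h1, C, hC, h3⟩
      rcases Finset.mem_union.1 hC with h | h
      · exact Or.inl ⟨h1, C, h, h3⟩
      · exact Or.inr ⟨h1, C, h, h3⟩
    · rintro (⟨h1, C, hC, h3⟩ | ⟨h1, C, hC, h3⟩)
      · exact ⟨h1, C, Finset.mem_union_left _ hC, h3⟩
      · exact ⟨h1, C, Finset.mem_union_right _ hC, h3⟩
  have hne : ∀ A ∈ F, ∀ B ∈ F', A ≠ B := fun A hA B hB h => Finset.disjoint_left.1 hd hA (h ▸ hB)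
  have hdis : Disjoint (gp G F) (gp G F') := by
    rw [Finset.disjoint_left]
    intro z hz hz'
    obtain ⟨_, A, hA, hzA⟩ := t7_mem_gp.1 hz
    obtain ⟨_, B, hB, hzB⟩ := t7_mem_gp.1 hz'
    exact Set.disjoint_left.1 (hF.disj A (Finset.mem_union_left _ hA) B (Finset.mem_union_right _ hB) (hne A hA B hB))
      hzA hzB
  have hn : ∀ z ∈ gp G F', ∀ x ∈ gp G F, ¬ D.Adj z x := by
    intro z hz x hx h
    obtain ⟨_, A, hA, hxA⟩ := t7_mem_gp.1 hx
    obtain ⟨_, B, hB, hzB⟩ := t7_mem_gp.1 hz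
    rcases T.nbr_fo hF (Finset.mem_union_right _ hB) hzB h with h' | h'
    · exact Set.disjoint_left.1 (hF.disj A (Finset.mem_union_left _ hA) B (Finset.mem_union_right _ hB)
        (hne A hA B hB)) hxA h'
    · exact hF.nadj B (Finset.mem_union_right _ hB) A (Finset.mem_union_left _ hA) x h' hxA
  have e1 := t7_sum_eq (D := D) (r := r) hdis hn h1 h2
  have e2 := t7_sum_eq (D := D) (r := r) hdis hn (fun _ => 1) (fun _ => 1)
  simp only [Finset.sum_const, nsmul_eq_mul, mul_one] at e2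
  unfold ex
  rw [hU, e1, e2, div_mul_div_comm]

end Pool.Agent.Helper910.QT
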