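import Mathlib
import Pool.Agent.Helper910.T7

/-! First moment bounds (MP_4555f0_mp) -/

namespace Pool.Agent.Helper910.QT

open Classical Finset Filter Topology

variable {V : Type*} {D : SimpleGraph V} [D.LocallyFinite] {r : ℕ}

/-! ### helper lemmas -/

theorem t8_Fo (T : TS D r) {C : Set V} (hC : T.Cn C) (j : ℕ) : T.Fo (T.de {C} j) := TS.Fo.de T (T.fo_single hC) j

theorem t8_cn (T : TS D r) {C : Set V} (hC : T.Cn C) {j : ℕ} {A : Set V} (hA : A ∈ T.de {C} j) : T.Cn A := (t8_Fo T hC j).cn A hA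

/-- the sum over generation `j + 1` as a double sum -/
theorem t8_sum_de (T : TS D r) {C : Set V} (hC : T.Cn C) (j : ℕ) (f : Set V → ℝ) :
    ∑ A ∈ T.de {C} (j + 1), f A = ∑ B ∈ T.de {C} j, ∑ A ∈ T.ch B, f A := by
  rw [T.de_succ, Finset.sum_biUnion]
  intro B hB B' hB' hne
  rw [Function.onFun, Finset.disjoint_left]
  intro A hA hA'
  have h1 := (t8_Fo T hC j).disj B hB B' hB' hne
  have hcB := t8_cn T hC hB
  have hcB' := t8_cn T hC hB'
  obtain ⟨z, hz⟩ := T.cn_ne (T.ch_cn hcB A hA)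
  exact Set.disjoint_left.1 h1 (T.ch_sub hcB hA hz) (T.ch_sub hcB' hA' hz)

theorem t8_gp_sub {G : Finset V} {A C : Set V} (h : A ⊆ C) {z : V} (hz : z ∈ gp G {A}) : z ∈ gp G {C} := by
  rw [TS.mem_gp, TS.fs_single] at *
  exact ⟨hz.1, h hz.2⟩

/-- `uc` vanishes on `C \ G` -/
theorem t8_uc_zero (T : TS D r) {C : Set V} (hC : T.Cn C) (G : Finset V) {z : V} (hz : z ∈ C) (hG : z ∉ G) : T.uc C G z = 0 := by
  refine (T.uc_spec hC G).2.2.1 z ?_ ?_
  · intro h; exact T.o_notMem hC h hz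
  · intro h; exact hG ((TS.mem_gp).1 h).1

theorem t8_fl_le (T : TS D r) {A : Set V} {f : V → ℝ} (h0 : ∀ z, 0 ≤ f z) : T.fl A f ≤ ∑ x ∈ T.o A, (r : ℝ) * f x := by
  unfold TS.fl
  refine Finset.sum_le_sum fun x _ => ?_
  calc ∑ y ∈ (D.neighborFinset x).filter (fun y => y ∈ A), (f x - f y)
      ≤ ∑ y ∈ (D.neighborFinset x).filter (fun y => y ∈ A), f x := Finset.sum_le_sum fun y _ => by linarith [h0 y]
    _ ≤ ∑ y ∈ D.neighborFinset x, f x := Finset.sum_le_sum_of_subset_of_nonneg (Finset.filter_subset _ _) (fun _ _ _ => h0 x)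
    _ = (r : ℝ) * f x := by
        rw [Finset.sum_const, nsmul_eq_mul, D.card_neighborFinset_eq_degree, T.gd.reg.degree_eq]

/-- the sum of the escape fluxes over a generation is at most the escape flux of the root -/
theorem t8_sum_le (T : TS D r) {C : Set V} (hC : T.Cn C) (G : Finset V) (j : ℕ) :
    ∑ A ∈ T.de {C} j, T.esc A G (T.uc C G) ≤ T.esc C G (T.uc C G) := by
  obtain ⟨-, -, -, h0, -⟩ := T.uc_spec hC G
  induction j with
  | zero => rw [T.de_zero, Finset.sum_singleton]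
  | succ j ih =>
    rw [t8_sum_de T hC]
    refine le_trans (Finset.sum_le_sum fun B hB => ?_) ih
    have hB' := t8_cn T hC hB
    have h := T.esc_ch hB' (G := G) (f := T.uc C G) h0
      (fun z hz hG => t8_uc_zero T hC G (T.de_single_sub hC hB hz) hG)
    refine le_trans ?_ h
    refine le_add_of_nonneg_right (Finset.sum_nonneg fun z _ => mul_nonneg (h0 z) (Nat.cast_nonneg _))

theorem t8_fl_eq (T : TS D r) {C : Set V} (hC : T.Cn C) (G : Finset V) {j : ℕ} {A : Set V} (hA : A ∈ T.de {C} j) :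
    T.fl A (T.uc C G) = T.esc A G (T.uc C G) := by
  refine T.fl_eq_esc (t8_cn T hC hA) ?_ ?_
  · intro z hz
    exact (T.uc_spec hC G).1 z (t8_gp_sub (T.de_single_sub hC hA) hz)
  · intro z hz hG
    exact t8_uc_zero T hC G (T.de_single_sub hC hA hz) hG

theorem t8_self_mem (T : TS D r) (C : Set V) : C ∈ T.de {C} 0 := by
  rw [T.de_zero]; exact Finset.mem_singleton_self C

/-- the values on the top piece are controlled by the escape flux -/
theorem t8_key (T : TS D r) {C : Set V} (hC : T.Cn C) (G : Finset V) {j : ℕ} {B : Set V} (hB : B ∈ T.de {C} j) {x : V} (hx : x ∈ T.Q B) :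
    T.uc C G x ≤ T.g0⁻¹ * (r : ℝ) ^ T.m * T.esc B G (T.uc C G) := by
  obtain ⟨hh, -, -, h0, -⟩ := T.uc_spec hC G
  have hBc := t8_cn T hC hB
  have hBC := T.de_single_sub hC hB
  have hr : 1 ≤ r := T.gd.one_le
  have hr' : (1 : ℝ) ≤ r := by exact_mod_cast hr
  have hg := T.g0_pos
  have hg1 : T.g0 ≤ 1 := T.exists_g0.choose_spec.2.1
  have hesc : 0 ≤ T.esc B G (T.uc C G) := T.esc_nonneg h0
  have hpow : (r : ℝ) ^ (T.Q B).card ≤ (r : ℝ) ^ T.m := pow_le_pow_right₀ hr' (T.Q_card hBc)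
  have hpos : (0 : ℝ) < (r : ℝ) ^ T.m := by positivity
  have hgi : (1 : ℝ) ≤ T.g0⁻¹ := (one_le_inv₀ hg).2 hg1
  have hz2 : ∀ z ∈ B, z ∉ G → T.uc C G z = 0 := fun z hz hG => t8_uc_zero T hC G (hBC hz) hG
  have hharm : ∀ z ∈ B, z ∈ G → ∀ y, D.Adj z y → T.uc C G y ≤ r * T.uc C G z := by
    intro z hz hG y hy
    refine harnack1 h0 (le_of_eq ?_) hy
    refine (hh z ?_).symm
    rw [TS.mem_gp, TS.fs_single]
    exact ⟨hG, hBC hz⟩
  by_cases hxG : x ∈ G
  · by_cases hQ : T.Q B ⊆ G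
    · -- the top piece is inside
      obtain ⟨A, hA⟩ : (T.ch B).Nonempty := Finset.card_pos.1 (by have := T.two hBc; omega)
      have hAc := T.ch_cn hBc A hA
      have hAB := T.ch_sub hBc hA
      have hchain : ∀ b ∈ T.Q B, T.uc C G x ≤ (r : ℝ) ^ T.m * T.uc C G b := by
        intro b hb
        have := chain1 (T.Q_conn hBc) hr h0 (fun z hz y hy => hharm z (T.Q_sub hBc hz) (hQ hz) y hy) hx hb
        exact le_trans this (mul_le_mul_of_nonneg_right hpow (h0 b))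
      have ht : ∀ z ∈ T.o A, ((r : ℝ) ^ T.m)⁻¹ * T.uc C G x ≤ T.uc C G z := by
        intro z hz
        rw [inv_mul_le_iff₀ hpos]
        exact hchain z (T.o_sub hBc A hA hz)
      have hle := T.uc_le hAc (G := G) h0 (fun z hz => le_of_eq (hh z (t8_gp_sub (subset_trans hAB hBC) hz)).symm) ht
      have hmono : T.esc A G (fun z => ((r : ℝ) ^ T.m)⁻¹ * T.uc C G x * T.uc A G z) ≤ T.esc A G (T.uc C G) :=
        T.esc_mono fun z _ => hle z
      have hmul : T.esc A G (fun z => ((r : ℝ) ^ T.m)⁻¹ * T.uc C G x * T.uc A G z) =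
          ((r : ℝ) ^ T.m)⁻¹ * T.uc C G x * T.esc A G (T.uc A G) := by
        unfold TS.esc
        rw [Finset.mul_sum]
        exact Finset.sum_congr rfl fun z _ => by ring
      rw [hmul] at hmono
      have hchs : T.esc A G (T.uc C G) ≤ T.esc B G (T.uc C G) := by
        have h := T.esc_ch hBc (G := G) (f := T.uc C G) h0 hz2
        have h1 : T.esc A G (T.uc C G) ≤ ∑ C' ∈ T.ch B, T.esc C' G (T.uc C G) :=
          Finset.single_le_sum (f := fun C' => T.esc C' G (T.uc C G)) (fun C' _ => T.esc_nonneg h0) hA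
        have h2 : 0 ≤ ∑ z ∈ gp G {B} ∪ T.o B, T.uc C G z * (((D.neighborFinset z).filter (fun y => y ∈ T.Q B ∧ y ∉ G)).card : ℝ) :=
          Finset.sum_nonneg fun z _ => mul_nonneg (h0 z) (Nat.cast_nonneg _)
        linarith
      have hg0 := T.g0_le hAc G
      have h3 : ((r : ℝ) ^ T.m)⁻¹ * T.uc C G x * T.g0 ≤ T.esc B G (T.uc C G) := by
        refine le_trans ?_ (le_trans hmono hchs)
        exact mul_le_mul_of_nonneg_left hg0 (mul_nonneg (inv_nonneg.2 hpos.le) (h0 x))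
      calc T.uc C G x = T.g0⁻¹ * (r : ℝ) ^ T.m * (((r : ℝ) ^ T.m)⁻¹ * T.uc C G x * T.g0) := by
            field_simp
        _ ≤ T.g0⁻¹ * (r : ℝ) ^ T.m * T.esc B G (T.uc C G) :=
            mul_le_mul_of_nonneg_left h3 (mul_nonneg (inv_nonneg.2 hg.le) hpos.le)
    · -- a missing vertex in the top piece
      obtain ⟨z, hz, hzG, ⟨y, hy, hyG, hzy⟩, hle⟩ := chain2 (T.Q_conn hBc) hr hQ h0
        (fun z hz hG y hy => hharm z (T.Q_sub hBc hz) hG y hy) hx hxG
      have h := T.esc_ch hBc (G := G) (f := T.uc C G) h0 hz2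
      have h1 : 0 ≤ ∑ C' ∈ T.ch B, T.esc C' G (T.uc C G) := Finset.sum_nonneg fun C' _ => T.esc_nonneg h0
      have hzm : z ∈ gp G {B} ∪ T.o B := by
        rw [Finset.mem_union, TS.mem_gp, TS.fs_single]
        exact Or.inl ⟨hzG, T.Q_sub hBc hz⟩
      have h2 : T.uc C G z * (((D.neighborFinset z).filter (fun y => y ∈ T.Q B ∧ y ∉ G)).card : ℝ) ≤
          ∑ z ∈ gp G {B} ∪ T.o B, T.uc C G z * (((D.neighborFinset z).filter (fun y => y ∈ T.Q B ∧ y ∉ G)).card : ℝ) :=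
        Finset.single_le_sum (f := fun z => T.uc C G z * (((D.neighborFinset z).filter (fun y => y ∈ T.Q B ∧ y ∉ G)).card : ℝ))
          (fun z _ => mul_nonneg (h0 z) (Nat.cast_nonneg _)) hzm
      have h3 : (1 : ℝ) ≤ (((D.neighborFinset z).filter (fun y => y ∈ T.Q B ∧ y ∉ G)).card : ℝ) := by
        have : 0 < ((D.neighborFinset z).filter (fun y => y ∈ T.Q B ∧ y ∉ G)).card :=
          Finset.card_pos.2 ⟨y, Finset.mem_filter.2 ⟨(D.mem_neighborFinset z y).2 hzy, hy, hyG⟩⟩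
        exact_mod_cast this
      have h4 : T.uc C G z ≤ T.esc B G (T.uc C G) := by
        have := mul_le_mul_of_nonneg_left h3 (h0 z)
        linarith
      calc T.uc C G x ≤ (r : ℝ) ^ (T.Q B).card * T.uc C G z := hle
        _ ≤ (r : ℝ) ^ T.m * T.esc B G (T.uc C G) := mul_le_mul hpow h4 (h0 z) hpos.le
        _ ≤ T.g0⁻¹ * ((r : ℝ) ^ T.m * T.esc B G (T.uc C G)) :=
            le_mul_of_one_le_left (mul_nonneg hpos.le hesc) hgi
        _ = T.g0⁻¹ * (r : ℝ) ^ T.m * T.esc B G (T.uc C G) := by ring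
  · rw [hz2 x (T.Q_sub hBc hx) hxG]
    exact mul_nonneg (mul_nonneg (inv_nonneg.2 hg.le) hpos.le) hesc

/-- TARGET. the sum over generation `j` of the escape fluxes is at most the flux of the cone, `≤ r m` (iterate `esc_ch`; `esc C G u = fl C u ≤` number of edges from `o C` to `C`) -/
theorem TS.sum_esc (T : TS D r) {C : Set V} (hC : T.Cn C) (G : Finset V) (j : ℕ) :
    ∑ A ∈ T.de {C} j, T.esc A G (T.uc C G) ≤ r * T.m := by
  obtain ⟨-, h1, -, h0, -⟩ := T.uc_spec hC G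
  refine le_trans (t8_sum_le T hC G j) ?_
  rw [← t8_fl_eq T hC G (t8_self_mem T C)]
  refine le_trans (t8_fl_le T h0) ?_
  calc ∑ x ∈ T.o C, (r : ℝ) * T.uc C G x = ∑ x ∈ T.o C, (r : ℝ) :=
        Finset.sum_congr rfl fun x hx => by rw [h1 x hx, mul_one]
    _ = ((T.o C).card : ℝ) * r := by rw [Finset.sum_const, nsmul_eq_mul]
    _ ≤ r * T.m := by
        have : ((T.o C).card : ℝ) ≤ T.m := by exact_mod_cast T.o_card hC
        rw [mul_comm]
        exact mul_le_mul_of_nonneg_left this (Nat.cast_nonneg r)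

/-- TARGET. `Σ_{A ∈ de {C} j} Σ_{x ∈ o A} u x ≤ C1`. For `j = 0` the sum is `≤ m`. For `j + 1`, group by the parent `B ∈ de {C} j` (`o A ⊆ Q B`): let `M_B = max_{Q B} u`; if `Q B ⊄ G`, `chain2` and
`esc_ch` give `esc B G u ≥ r^(-m) M_B` (the maximum is attained in `G` as `u = 0` on `C \ G`); if `Q B ⊆ G`, `u ≥ r^(-m) M_B` on `Q B` and `esc B G u ≥ Σ_{A ∈ ch B} esc A G u ≥ r^(-m) M_B g0` (`uc_le`, `esc_mono`).
So `Σ_{A ∈ ch B} Σ_{x ∈ o A} u x ≤ m · m · M_B ≤ m^2 r^m g0^(-1) esc B G u`, and sum with `sum_esc`. -/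
theorem TS.exists_C1u (T : TS D r) : ∃ c : ℝ, 0 < c ∧ ∀ C, T.Cn C → ∀ (G : Finset V) (j : ℕ), ∑ A ∈ T.de {C} j, ∑ x ∈ T.o A, T.uc C G x ≤ c := by
  have hg := T.g0_pos
  have hm : (0 : ℝ) ≤ T.m := Nat.cast_nonneg _
  have hr0 : (0 : ℝ) ≤ r := Nat.cast_nonneg _
  refine ⟨1 + T.m + T.m * (T.m * (T.g0⁻¹ * (r : ℝ) ^ T.m)) * (r * T.m), by positivity, ?_⟩
  intro C hC G j
  obtain ⟨-, h1, -, h0, hle⟩ := T.uc_spec hC G
  have hK : 0 ≤ T.g0⁻¹ * (r : ℝ) ^ T.m := by positivity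
  cases j with
  | zero =>
    rw [T.de_zero, Finset.sum_singleton]
    have h2 : ∑ x ∈ T.o C, T.uc C G x ≤ T.m := by
      calc ∑ x ∈ T.o C, T.uc C G x ≤ ∑ x ∈ T.o C, (1 : ℝ) := Finset.sum_le_sum fun x _ => hle x
        _ = ((T.o C).card : ℝ) := by simp
        _ ≤ T.m := by exact_mod_cast T.o_card hC
    have h3 : 0 ≤ T.m * (T.m * (T.g0⁻¹ * (r : ℝ) ^ T.m)) * (r * T.m) := by positivity
    linarith
  | succ j =>
    rw [t8_sum_de T hC]
    have h2 : ∑ B ∈ T.de {C} j, ∑ A ∈ T.ch B, ∑ x ∈ T.o A, T.uc C G x ≤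
        ∑ B ∈ T.de {C} j, T.m * (T.m * (T.g0⁻¹ * (r : ℝ) ^ T.m)) * T.esc B G (T.uc C G) := by
      refine Finset.sum_le_sum fun B hB => ?_
      have hBc := t8_cn T hC hB
      have hesc : 0 ≤ T.esc B G (T.uc C G) := T.esc_nonneg h0
      have hb : ∀ A ∈ T.ch B, ∑ x ∈ T.o A, T.uc C G x ≤ T.m * (T.g0⁻¹ * (r : ℝ) ^ T.m * T.esc B G (T.uc C G)) := by
        intro A hA
        calc ∑ x ∈ T.o A, T.uc C G x ≤ ∑ x ∈ T.o A, T.g0⁻¹ * (r : ℝ) ^ T.m * T.esc B G (T.uc C G) :=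
              Finset.sum_le_sum fun x hx => t8_key T hC G hB (T.o_sub hBc A hA hx)
          _ = ((T.o A).card : ℝ) * (T.g0⁻¹ * (r : ℝ) ^ T.m * T.esc B G (T.uc C G)) := by rw [Finset.sum_const, nsmul_eq_mul]
          _ ≤ T.m * (T.g0⁻¹ * (r : ℝ) ^ T.m * T.esc B G (T.uc C G)) := by
              refine mul_le_mul_of_nonneg_right ?_ (mul_nonneg hK hesc)
              exact_mod_cast T.o_card (T.ch_cn hBc A hA)
      calc ∑ A ∈ T.ch B, ∑ x ∈ T.o A, T.uc C G x
          ≤ ∑ A ∈ T.ch B, T.m * (T.g0⁻¹ * (r : ℝ) ^ T.m * T.esc B G (T.uc C G)) := Finset.sum_le_sum hb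
        _ = ((T.ch B).card : ℝ) * (T.m * (T.g0⁻¹ * (r : ℝ) ^ T.m * T.esc B G (T.uc C G))) := by rw [Finset.sum_const, nsmul_eq_mul]
        _ ≤ T.m * (T.m * (T.g0⁻¹ * (r : ℝ) ^ T.m * T.esc B G (T.uc C G))) := by
            refine mul_le_mul_of_nonneg_right ?_ (mul_nonneg hm (mul_nonneg hK hesc))
            exact_mod_cast T.ch_card hBc
        _ = T.m * (T.m * (T.g0⁻¹ * (r : ℝ) ^ T.m)) * T.esc B G (T.uc C G) := by ring
    rw [← Finset.mul_sum] at h2
    have h3 := mul_le_mul_of_nonneg_left (T.sum_esc hC G j) (show 0 ≤ T.m * (T.m * (T.g0⁻¹ * (r : ℝ) ^ T.m)) by positivity)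
    linarith

/-- TARGET. also the sum over the top pieces of generation `j` is bounded (same proof: `Σ_{x ∈ Q B} u x ≤ m M_B`) -/
theorem TS.exists_C1q (T : TS D r) : ∃ c : ℝ, 0 < c ∧ ∀ C, T.Cn C → ∀ (G : Finset V) (j : ℕ), ∑ A ∈ T.de {C} j, ∑ x ∈ T.Q A, T.uc C G x ≤ c := by
  have hg := T.g0_pos
  have hm : (0 : ℝ) ≤ T.m := Nat.cast_nonneg _
  have hr0 : (0 : ℝ) ≤ r := Nat.cast_nonneg _
  refine ⟨1 + T.m * (T.g0⁻¹ * (r : ℝ) ^ T.m) * (r * T.m), by positivity, ?_⟩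
  intro C hC G j
  obtain ⟨-, h1, -, h0, hle⟩ := T.uc_spec hC G
  have hK : 0 ≤ T.g0⁻¹ * (r : ℝ) ^ T.m := by positivity
  have h2 : ∑ B ∈ T.de {C} j, ∑ x ∈ T.Q B, T.uc C G x ≤
      ∑ B ∈ T.de {C} j, T.m * (T.g0⁻¹ * (r : ℝ) ^ T.m) * T.esc B G (T.uc C G) := by
    refine Finset.sum_le_sum fun B hB => ?_
    have hBc := t8_cn T hC hB
    have hesc : 0 ≤ T.esc B G (T.uc C G) := T.esc_nonneg h0
    calc ∑ x ∈ T.Q B, T.uc C G x ≤ ∑ x ∈ T.Q B, T.g0⁻¹ * (r : ℝ) ^ T.m * T.esc B G (T.uc C G) :=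
          Finset.sum_le_sum fun x hx => t8_key T hC G hB hx
      _ = ((T.Q B).card : ℝ) * (T.g0⁻¹ * (r : ℝ) ^ T.m * T.esc B G (T.uc C G)) := by rw [Finset.sum_const, nsmul_eq_mul]
      _ ≤ T.m * (T.g0⁻¹ * (r : ℝ) ^ T.m * T.esc B G (T.uc C G)) := by
          refine mul_le_mul_of_nonneg_right ?_ (mul_nonneg hK hesc)
          exact_mod_cast T.Q_card hBc
      _ = T.m * (T.g0⁻¹ * (r : ℝ) ^ T.m) * T.esc B G (T.uc C G) := by ring
  rw [← Finset.mul_sum] at h2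
  have h3 := mul_le_mul_of_nonneg_left (T.sum_esc hC G j) (show 0 ≤ T.m * (T.g0⁻¹ * (r : ℝ) ^ T.m) by positivity)
  linarith

/-- without special pieces every reached cone is marked -/
theorem t8_rn_eq (T : TS D r) (F : Finset (Set V)) (G : Finset V) (j : ℕ) (ζ : V → ℕ) :
    (T.rn F G j ζ : ℝ) = ∑ A ∈ T.de F j, (if rch D (T.fi F) (gw D r (T.fi F) (gp G F) ζ) A then (1 : ℝ) else 0) := by
  unfold TS.rn TS.fn
  rw [Finset.sum_ite, Finset.sum_const_zero, add_zero, Finset.sum_const, nsmul_eq_mul, mul_one]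
  congr 2
  refine Finset.filter_congr fun A _ => ?_
  unfold TS.mkd TS.nab
  simp

/-- the expected number of reached cones is the sum of the probabilities -/
theorem t8_ex_rn (T : TS D r) (F : Finset (Set V)) (G : Finset V) (j : ℕ) :
    ex D r (gp G F) (fun ζ => (T.rn F G j ζ : ℝ)) =
      ∑ A ∈ T.de F j, pr D r (gp G F) (fun ζ => rch D (T.fi F) (gw D r (T.fi F) (gp G F) ζ) A) := by
  unfold ex pr
  simp only [t8_rn_eq]
  rw [Finset.sum_comm, Finset.sum_div]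
  refine Finset.sum_congr rfl fun A _ => ?_
  rw [Finset.sum_ite, Finset.sum_const_zero, add_zero, Finset.sum_const, nsmul_eq_mul, mul_one]

omit [D.LocallyFinite] in
theorem t8_pr_mono {S : Finset V} {P P' : (V → ℕ) → Prop} (h : ∀ ζ ∈ Rc D r S, P ζ → P' ζ) : pr D r S P ≤ pr D r S P' := by
  unfold pr
  refine div_le_div_of_nonneg_right ?_ (Nat.cast_nonneg _)
  have : ((Rc D r S).filter P).card ≤ ((Rc D r S).filter P').card := by
    refine Finset.card_le_card fun ζ hζ => ?_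
    rw [Finset.mem_filter] at hζ ⊢
    exact ⟨hζ.1, h ζ hζ.1 hζ.2⟩
  exact_mod_cast this

omit [D.LocallyFinite] in
theorem t8_pr_union {S X : Finset V} {P : (V → ℕ) → Prop} {P' : V → (V → ℕ) → Prop} (h : ∀ ζ ∈ Rc D r S, P ζ → ∃ x ∈ X, P' x ζ) :
    pr D r S P ≤ ∑ x ∈ X, pr D r S (P' x) := by
  unfold pr
  rw [← Finset.sum_div]
  refine div_le_div_of_nonneg_right ?_ (Nat.cast_nonneg _)
  have h1 : ((Rc D r S).filter P).card ≤ (X.biUnion fun x => (Rc D r S).filter (P' x)).card := by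
    refine Finset.card_le_card fun ζ hζ => ?_
    rw [Finset.mem_filter] at hζ
    obtain ⟨x, hx, hP⟩ := h ζ hζ.1 hζ.2
    rw [Finset.mem_biUnion]
    exact ⟨x, hx, Finset.mem_filter.2 ⟨hζ.1, hP⟩⟩
  have h2 := le_trans h1 Finset.card_biUnion_le
  exact_mod_cast h2

theorem t8_fi_single (T : TS D r) (C : Set V) : T.fi {C} = dgi D (T.o C) := by
  unfold TS.fi TS.fo
  rw [Finset.singleton_biUnion]

/-- `uc` as a probability, at the outer boundary of a descendant -/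
theorem t8_uc_pr (T : TS D r) {C : Set V} (hC : T.Cn C) (G : Finset V) {j : ℕ} {A : Set V} (hA : A ∈ T.de {C} (j + 1)) {x : V} (hx : x ∈ T.o A) :
    T.uc C G x = pr D r (gp G {C}) (fun ζ => x ∈ gw D r (T.fi {C}) (gp G {C}) ζ) := by
  obtain ⟨B, hB, -, hAB⟩ := T.o_parent (T.fo_single hC) hA
  have hxC : x ∈ C := T.de_single_sub hC hB (T.Q_sub (t8_cn T hC hB) (hAB hx))
  unfold TS.uc
  rw [hu_eq (fun h => T.o_notMem hC h hxC), t8_fi_single]

theorem t8_rch (T : TS D r) {C : Set V} (hC : T.Cn C) (G : Finset V) {j : ℕ} {A : Set V} (hA : A ∈ T.de {C} (j + 1)) (ζ : V → ℕ) :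
    rch D (T.fi {C}) (gw D r (T.fi {C}) (gp G {C}) ζ) A ↔ ∃ x ∈ T.o A, x ∈ gw D r (T.fi {C}) (gp G {C}) ζ :=
  T.rch_iff (T.fo_single hC) (fun _ _ => le_rfl) hA _ (fun _ hz => ((TS.mem_gp).1 (gw_sub (T.fi {C}) (gp G {C}) ζ hz)).2)

omit [D.LocallyFinite] in
theorem t8_pr_le_one (S : Finset V) (P : (V → ℕ) → Prop) : pr D r S P ≤ 1 := by
  unfold pr
  refine div_le_one_of_le₀ ?_ (Nat.cast_nonneg _)
  exact_mod_cast Finset.card_filter_le _ _

/-- if the top piece is contained in `G`, the escape flux is at most the sum of the escape fluxes of the children -/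
theorem t8_esc_le (T : TS D r) {B : Set V} (hB : T.Cn B) {G : Finset V} (hQ : T.Q B ⊆ G) {f : V → ℝ} (h0 : ∀ z, 0 ≤ f z) :
    T.esc B G f ≤ ∑ A ∈ T.ch B, T.esc A G f := by
  have h1 : T.esc B G f ≤ ∑ z ∈ gp G {B} ∪ T.o B, ∑ A ∈ T.ch B, f z * (eo D A G z : ℝ) := by
    unfold TS.esc
    refine Finset.sum_le_sum fun z _ => ?_
    rw [← Finset.mul_sum]
    refine mul_le_mul_of_nonneg_left ?_ (h0 z)
    have h2 : eo D B G z ≤ ∑ A ∈ T.ch B, eo D A G z := by
      unfold eo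
      refine le_trans (Finset.card_le_card ?_) Finset.card_biUnion_le
      intro y hy
      rw [Finset.mem_filter] at hy
      rw [Finset.mem_biUnion]
      rcases (T.mem_iff hB y).1 hy.2.1 with h | ⟨A, hA, hyA⟩
      · exact absurd (hQ h) hy.2.2
      · exact ⟨A, hA, Finset.mem_filter.2 ⟨hy.1, hyA, hy.2.2⟩⟩
    exact_mod_cast h2
  rw [Finset.sum_comm] at h1
  refine le_trans h1 (Finset.sum_le_sum fun A hA => ?_)
  have hAc := T.ch_cn hB A hA
  have hAB := T.ch_sub hB hA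
  unfold TS.esc
  calc ∑ z ∈ gp G {B} ∪ T.o B, f z * (eo D A G z : ℝ)
      = ∑ z ∈ (gp G {B} ∪ T.o B).filter (fun z => f z * (eo D A G z : ℝ) ≠ 0), f z * (eo D A G z : ℝ) :=
        (Finset.sum_filter_ne_zero _).symm
    _ ≤ ∑ z ∈ gp G {A} ∪ T.o A, f z * (eo D A G z : ℝ) := by
        refine Finset.sum_le_sum_of_subset_of_nonneg ?_ (fun z _ _ => mul_nonneg (h0 z) (Nat.cast_nonneg _))
        intro z hz
        rw [Finset.mem_filter] at hz
        obtain ⟨hz1, hz2⟩ := hz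
        have hne : eo D A G z ≠ 0 := by
          intro h; apply hz2; rw [h]; simp
        unfold eo at hne
        obtain ⟨y, hy⟩ := Finset.card_pos.1 (Nat.pos_of_ne_zero hne)
        rw [Finset.mem_filter, D.mem_neighborFinset] at hy
        rw [Finset.mem_union]
        by_cases hzA : z ∈ A
        · left
          rw [TS.mem_gp, TS.fs_single]
          refine ⟨?_, hzA⟩
          rw [Finset.mem_union, TS.mem_gp] at hz1
          rcases hz1 with h | h
          · exact h.1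
          · exact absurd (hAB hzA) (T.o_notMem hB h)
        · right
          exact (T.mem_o hAc z).2 ⟨hzA, y, hy.2.1, hy.1⟩

theorem t8_esc_le_sum (T : TS D r) {C : Set V} (hC : T.Cn C) {G : Finset V} {f : V → ℝ} (h0 : ∀ z, 0 ≤ f z) (j : ℕ) (hG : T.up {C} j ⊆ G) :
    T.esc C G f ≤ ∑ A ∈ T.de {C} j, T.esc A G f := by
  induction j with
  | zero => rw [T.de_zero, Finset.sum_singleton]
  | succ j ih =>
    refine le_trans (ih (subset_trans (T.up_mono {C} (Nat.le_succ j)) hG)) ?_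
    rw [t8_sum_de T hC]
    refine Finset.sum_le_sum fun B hB => t8_esc_le T (t8_cn T hC hB) ?_ h0
    intro z hz
    exact hG ((T.t5c_mem_up).2 ⟨j, Nat.lt_succ_self j, B, hB, hz⟩)

/-- TARGET. expected number of reached cones: `P(A reached) ≤ Σ_{x ∈ o A} P(x ∈ W) = Σ_{x ∈ o A} u x` for `A` of generation `≥ 1` (`rch_iff`, `hu_eq`; the input `fi {C}` is `dgi (o C)`); generation `0` contributes at most `1` -/
theorem TS.exists_C1 (T : TS D r) : ∃ c : ℝ, 1 ≤ c ∧ ∀ C, T.Cn C → ∀ (G : Finset V) (j : ℕ), ex D r (gp G {C}) (fun ζ => (T.rn {C} G j ζ : ℝ)) ≤ c := by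
  obtain ⟨c, hc, h⟩ := T.exists_C1u
  refine ⟨1 + c, by linarith, ?_⟩
  intro C hC G j
  rw [t8_ex_rn]
  cases j with
  | zero =>
    rw [T.de_zero, Finset.sum_singleton]
    have := t8_pr_le_one (D := D) (r := r) (gp G {C}) (fun ζ => rch D (T.fi {C}) (gw D r (T.fi {C}) (gp G {C}) ζ) C)
    linarith
  | succ j =>
    have h1 : ∑ A ∈ T.de {C} (j + 1), pr D r (gp G {C}) (fun ζ => rch D (T.fi {C}) (gw D r (T.fi {C}) (gp G {C}) ζ) A) ≤
        ∑ A ∈ T.de {C} (j + 1), ∑ x ∈ T.o A, T.uc C G x := by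
      refine Finset.sum_le_sum fun A hA => ?_
      refine le_trans (t8_pr_union (X := T.o A) (P' := fun x ζ => x ∈ gw D r (T.fi {C}) (gp G {C}) ζ)
        (fun ζ _ hr => (t8_rch T hC G hA ζ).1 hr)) ?_
      exact le_of_eq (Finset.sum_congr rfl fun x hx => (t8_uc_pr T hC G hA hx).symm)
    have := h C hC G (j + 1)
    linarith

/-- TARGET. lower bound, as soon as `G` contains the first `j` generations: then `esc C G u = Σ_{A ∈ de {C} j} esc A G u` (equality in `esc_ch`, or directly by `fl_eq_esc` and conservation),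
`esc A G u = fl A u ≤ Σ_{x ∈ o A} r u x ≤ r m max_{o A} u ≤ r m P(A reached)` for `j ≥ 1` (for `j = 0` all is trivial: `A = C` is always reached), and `esc C G u ≥ g0` -/
theorem TS.exists_c1 (T : TS D r) : ∃ c : ℝ, 0 < c ∧ c ≤ 1 ∧ ∀ C, T.Cn C → ∀ (j : ℕ) (G : Finset V), T.up {C} j ⊆ G →
    c ≤ ex D r (gp G {C}) (fun ζ => (T.rn {C} G j ζ : ℝ)) := by
  have hg := T.g0_pos
  have hg1 : T.g0 ≤ 1 := T.exists_g0.choose_spec.2.1
  have hK : (0 : ℝ) < r * T.m + 1 := by positivity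
  refine ⟨T.g0 / (r * T.m + 1), div_pos hg hK, ?_, ?_⟩
  · rw [div_le_one hK]
    have : (0 : ℝ) ≤ r * T.m := by positivity
    linarith
  intro C hC j G hG
  rw [t8_ex_rn, div_le_iff₀ hK]
  cases j with
  | zero =>
    rw [T.de_zero, Finset.sum_singleton]
    have h1 : pr D r (gp G {C}) (fun ζ => rch D (T.fi {C}) (gw D r (T.fi {C}) (gp G {C}) ζ) C) = 1 := by
      have hre : ∀ ζ, rch D (T.fi {C}) (gw D r (T.fi {C}) (gp G {C}) ζ) C := by
        intro ζ
        obtain ⟨x, hx⟩ := T.o_ne hC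
        obtain ⟨y, hy, hxy⟩ := T.o_edge hC hx
        refine ⟨y, T.Q_sub hC hy, Or.inl ?_⟩
        rw [t8_fi_single]
        exact TS.t5b_dg_pos hx hxy.symm
      unfold pr
      rw [Finset.filter_true_of_mem (fun ζ _ => hre ζ)]
      refine div_self ?_
      have := T.gd.card_pos (gp G {C})
      exact_mod_cast this.ne'
    rw [h1, one_mul]
    have : (0 : ℝ) ≤ r * T.m := by positivity
    linarith
  | succ j =>
    obtain ⟨-, -, -, h0, -⟩ := T.uc_spec hC G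
    have h1 : T.g0 ≤ ∑ A ∈ T.de {C} (j + 1), T.esc A G (T.uc C G) :=
      le_trans (T.g0_le hC G) (t8_esc_le_sum T hC h0 (j + 1) hG)
    have h2 : ∑ A ∈ T.de {C} (j + 1), T.esc A G (T.uc C G) ≤
        ∑ A ∈ T.de {C} (j + 1), pr D r (gp G {C}) (fun ζ => rch D (T.fi {C}) (gw D r (T.fi {C}) (gp G {C}) ζ) A) * (r * T.m) := by
      refine Finset.sum_le_sum fun A hA => ?_
      have hAc := t8_cn T hC hA
      obtain ⟨p, hp⟩ : ∃ p, p = pr D r (gp G {C}) (fun ζ => rch D (T.fi {C}) (gw D r (T.fi {C}) (gp G {C}) ζ) A) := ⟨_, rfl⟩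
      have hp0 : 0 ≤ p := by
        rw [hp]; unfold pr; positivity
      rw [← hp, ← t8_fl_eq T hC G hA]
      refine le_trans (t8_fl_le T h0) ?_
      calc ∑ x ∈ T.o A, (r : ℝ) * T.uc C G x ≤ ∑ x ∈ T.o A, (r : ℝ) * p := by
            refine Finset.sum_le_sum fun x hx => mul_le_mul_of_nonneg_left ?_ (Nat.cast_nonneg r)
            rw [t8_uc_pr T hC G hA hx, hp]
            exact t8_pr_mono fun ζ _ hxW => (t8_rch T hC G hA ζ).2 ⟨x, hx, hxW⟩
        _ = ((T.o A).card : ℝ) * (r * p) := by rw [Finset.sum_const, nsmul_eq_mul]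
        _ ≤ (T.m : ℝ) * (r * p) := by
            refine mul_le_mul_of_nonneg_right ?_ (mul_nonneg (Nat.cast_nonneg r) hp0)
            exact_mod_cast T.o_card hAc
        _ = p * (r * T.m) := by ring
    rw [← Finset.sum_mul] at h2
    have h3 : 0 ≤ ∑ A ∈ T.de {C} (j + 1), pr D r (gp G {C}) (fun ζ => rch D (T.fi {C}) (gw D r (T.fi {C}) (gp G {C}) ζ) A) :=
      Finset.sum_nonneg fun A _ => by unfold pr; positivity
    rw [mul_add, mul_one]
    linarith

noncomputable def TS.C1 (T : TS D r) : ℝ := T.exists_C1.choose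

theorem TS.one_le_C1 (T : TS D r) : 1 ≤ T.C1 := T.exists_C1.choose_spec.1

theorem TS.rn_le (T : TS D r) {C : Set V} (hC : T.Cn C) (G : Finset V) (j : ℕ) : ex D r (gp G {C}) (fun ζ => (T.rn {C} G j ζ : ℝ)) ≤ T.C1 :=
  T.exists_C1.choose_spec.2 C hC G j

noncomputable def TS.c1 (T : TS D r) : ℝ := T.exists_c1.choose

theorem TS.c1_pos (T : TS D r) : 0 < T.c1 := T.exists_c1.choose_spec.1

theorem TS.rn_ge (T : TS D r) {C : Set V} (hC : T.Cn C) (j : ℕ) (G : Finset V) (hG : T.up {C} j ⊆ G) :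
    T.c1 ≤ ex D r (gp G {C}) (fun ζ => (T.rn {C} G j ζ : ℝ)) := T.exists_c1.choose_spec.2.2 C hC j G hG

end Pool.Agent.Helper910.QT
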