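import Mathlib
import Pool.Agent.Helper910.T8

/-! Exponential moments by last common ancestors (MP_4555f0_mp) -/

namespace Pool.Agent.Helper910.QT

open Classical Finset Filter Topology

variable {V : Type*} {D : SimpleGraph V} [D.LocallyFinite] {r : ℕ}

/-! ### helper lemmas -/

theorem t9_ch_disj (T : TS D r) {A : Set V} (hA : T.Cn A) (j : ℕ) :
    Set.PairwiseDisjoint (↑(T.ch A) : Set (Set V)) (fun B => T.de {B} j) := by
  intro B hB B' hB' hne
  have hB1 := T.ch_cn hA B (Finset.mem_coe.1 hB)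
  have hB2 := T.ch_cn hA B' (Finset.mem_coe.1 hB')
  show Disjoint (T.de {B} j) (T.de {B'} j)
  rw [Finset.disjoint_left]
  intro X hX hX'
  obtain ⟨z, hz⟩ := T.cn_ne ((TS.Fo.de T (T.fo_single hB1) j).cn X hX)
  exact Set.disjoint_left.1 (T.ch_disj hA B (Finset.mem_coe.1 hB) B' (Finset.mem_coe.1 hB') hne)
    (T.de_single_sub hB1 hX hz) (T.de_single_sub hB2 hX' hz)

theorem t9_sum_ch (T : TS D r) {A : Set V} (hA : T.Cn A) (j : ℕ) {M : Type*} [AddCommMonoid M] (h : Set V → M) :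
    ∑ X ∈ T.de {A} (j + 1), h X = ∑ B ∈ T.ch A, ∑ X ∈ T.de {B} j, h X := by
  rw [T.de_succ', Finset.singleton_biUnion, T.de_biUnion, Finset.sum_biUnion (t9_ch_disj T hA j)]

theorem t9_cn (T : TS D r) {C A : Set V} (hC : T.Cn C) {i : ℕ} (hA : A ∈ T.de {C} i) : T.Cn A :=
  (TS.Fo.de T (T.fo_single hC) i).cn A hA

theorem t9_ch_de (T : TS D r) {C A B : Set V} {i : ℕ} (hA : A ∈ T.de {C} i) (hB : B ∈ T.ch A) : B ∈ T.de {C} (i + 1) := by
  rw [T.de_succ, Finset.mem_biUnion]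
  exact ⟨A, hA, hB⟩

theorem t9_card_pos (T : TS D r) (G : Finset V) : (0 : ℝ) < (Rc D r G).card := by
  exact_mod_cast T.gd.card_pos G

omit [D.LocallyFinite] in
theorem t9_ex_mono {G : Finset V} {f f' : (V → ℕ) → ℝ} (h : ∀ ζ ∈ Rc D r G, f ζ ≤ f' ζ) : ex D r G f ≤ ex D r G f' := by
  unfold ex
  exact div_le_div_of_nonneg_right (Finset.sum_le_sum h) (Nat.cast_nonneg _)

omit [D.LocallyFinite] in
theorem t9_ex_congr {G : Finset V} {f f' : (V → ℕ) → ℝ} (h : ∀ ζ ∈ Rc D r G, f ζ = f' ζ) : ex D r G f = ex D r G f' := by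
  unfold ex
  rw [Finset.sum_congr rfl h]

omit [D.LocallyFinite] in
theorem t9_ex_nonneg {G : Finset V} {f : (V → ℕ) → ℝ} (h : ∀ ζ ∈ Rc D r G, 0 ≤ f ζ) : 0 ≤ ex D r G f := by
  unfold ex
  exact div_nonneg (Finset.sum_nonneg h) (Nat.cast_nonneg _)

omit [D.LocallyFinite] in
theorem t9_ex_add (G : Finset V) (f f' : (V → ℕ) → ℝ) : ex D r G (fun ζ => f ζ + f' ζ) = ex D r G f + ex D r G f' := by
  unfold ex
  rw [Finset.sum_add_distrib, add_div]

omit [D.LocallyFinite] in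
theorem t9_ex_mul (G : Finset V) (c : ℝ) (f : (V → ℕ) → ℝ) : ex D r G (fun ζ => c * f ζ) = c * ex D r G f := by
  unfold ex
  rw [← Finset.mul_sum, mul_div_assoc]

omit [D.LocallyFinite] in
theorem t9_ex_sum {ι : Type*} (G : Finset V) (A : Finset ι) (f : ι → (V → ℕ) → ℝ) :
    ex D r G (fun ζ => ∑ i ∈ A, f i ζ) = ∑ i ∈ A, ex D r G (f i) := by
  unfold ex
  rw [Finset.sum_comm, Finset.sum_div]

theorem t9_ex_one (T : TS D r) (G : Finset V) : ex D r G (fun _ => (1 : ℝ)) = 1 := by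
  unfold ex
  rw [Finset.sum_const, nsmul_eq_mul, mul_one]
  exact div_self (t9_card_pos T G).ne'

omit [D.LocallyFinite] in
theorem t9_pr_eq (G : Finset V) (P : (V → ℕ) → Prop) : pr D r G P = ex D r G (fun ζ => if P ζ then (1 : ℝ) else 0) := by
  unfold pr ex
  rw [Finset.card_filter]
  push_cast
  rfl

theorem t9_mkd_anc (T : TS D r) {S : Set V → Prop} {C : Set V} (hC : T.Cn C) {g : V → ℕ} (hg : ∀ z ∈ fs {C}, g z ≤ T.fi {C} z) {G : Finset V}
    {ζ : V → ℕ} (hζ : ζ ∈ Rc D r (gp G {C})) {i : ℕ} {A : Set V} (hA : A ∈ T.de {C} i) :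
    ∀ (k : ℕ) (B : Set V), B ∈ T.de {A} k → T.mkd S {C} g G ζ B → T.mkd S {C} g G ζ A := by
  intro k
  induction k with
  | zero =>
    intro B hB h
    rw [T.de_zero, Finset.mem_singleton] at hB
    rwa [hB] at h
  | succ k ih =>
    intro B hB h
    rw [T.de_succ, Finset.mem_biUnion] at hB
    obtain ⟨B', hB', hBB'⟩ := hB
    exact ih B' hB' (T.mkd_parent (T.fo_single hC) hg (T.de_trans hA hB') hBB' hζ h)

/-- number of marked cones in generation `j` below `A`, for marks computed in the forest `F` -/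
noncomputable def TS.bn (T : TS D r) (S : Set V → Prop) (F : Finset (Set V)) (g : V → ℕ) (G : Finset V) (A : Set V) (j : ℕ) (ζ : V → ℕ) : ℕ :=
  ((T.de {A} j).filter (fun B => T.mkd S F g G ζ B)).card

/-- TARGET. the count below `A` is the sum over the children -/
theorem TS.bn_succ (T : TS D r) {S : Set V → Prop} {A : Set V} (hA : T.Cn A) (F : Finset (Set V)) (g : V → ℕ) (G : Finset V) (j : ℕ) (ζ : V → ℕ) :
    T.bn S F g G A (j + 1) ζ = ∑ B ∈ T.ch A, T.bn S F g G B j ζ := by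
  unfold TS.bn
  simp only [Finset.card_filter]
  exact t9_sum_ch T hA j _


/-- the excess over linearity at `A`, for `j` generations below the children -/
noncomputable def TS.bx (T : TS D r) (S : Set V → Prop) (F : Finset (Set V)) (g : V → ℕ) (G : Finset V) (s : ℝ) (A : Set V) (j : ℕ) (ζ : V → ℕ) : ℝ :=
  ∏ B ∈ T.ch A, (1 + s) ^ (T.bn S F g G B j ζ) - 1 - ∑ B ∈ T.ch A, ((1 + s) ^ (T.bn S F g G B j ζ) - 1)

theorem t9_bn_zero (T : TS D r) (S : Set V → Prop) (F : Finset (Set V)) (g : V → ℕ) (G : Finset V) (A : Set V) (ζ : V → ℕ) :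
    T.bn S F g G A 0 ζ = if T.mkd S F g G ζ A then 1 else 0 := by
  unfold TS.bn
  rw [Finset.card_filter, T.de_zero, Finset.sum_singleton]

theorem t9_expand (T : TS D r) (S : Set V → Prop) (F : Finset (Set V)) (g : V → ℕ) (G : Finset V) (s : ℝ) (ζ : V → ℕ) :
    ∀ (j : ℕ) (A : Set V), T.Cn A → (1 + s) ^ (T.bn S F g G A j ζ) - 1 = s * (T.bn S F g G A j ζ : ℝ) +
      ∑ i ∈ range j, ∑ B ∈ T.de {A} i, T.bx S F g G s B (j - i - 1) ζ := by
  intro j
  induction j with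
  | zero =>
    intro A hA
    rw [t9_bn_zero]
    by_cases h : T.mkd S F g G ζ A
    · simp [h]
    · simp [h]
  | succ j ih =>
    intro A hA
    have h1 : (1 + s) ^ (T.bn S F g G A (j + 1) ζ) = ∏ B ∈ T.ch A, (1 + s) ^ (T.bn S F g G B j ζ) := by
      rw [TS.bn_succ T hA, Finset.prod_pow_eq_pow_sum]
    have h2 : ∑ B ∈ T.ch A, ((1 + s) ^ (T.bn S F g G B j ζ) - 1) = s * (T.bn S F g G A (j + 1) ζ : ℝ) +
        ∑ i ∈ range j, ∑ B ∈ T.de {A} (i + 1), T.bx S F g G s B (j - i - 1) ζ := by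
      rw [Finset.sum_congr rfl fun B hB => ih B (T.ch_cn hA B hB), Finset.sum_add_distrib, TS.bn_succ T hA]
      push_cast
      rw [Finset.mul_sum, Finset.sum_comm]
      congr 1
      refine Finset.sum_congr rfl fun i _ => ?_
      rw [t9_sum_ch T hA i]
    have h3 : ∑ B ∈ T.de {A} 0, T.bx S F g G s B (j + 1 - 0 - 1) ζ = T.bx S F g G s A j ζ := by
      rw [T.de_zero, Finset.sum_singleton]
      rfl
    have h4 : ∑ i ∈ range j, ∑ B ∈ T.de {A} (i + 1), T.bx S F g G s B (j + 1 - (i + 1) - 1) ζ =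
        ∑ i ∈ range j, ∑ B ∈ T.de {A} (i + 1), T.bx S F g G s B (j - i - 1) ζ := by
      refine Finset.sum_congr rfl fun i _ => ?_
      have h6 : j + 1 - (i + 1) - 1 = j - i - 1 := by omega
      rw [h6]
    rw [Finset.sum_range_succ', h1, h3, h4]
    have h5 : T.bx S F g G s A j ζ = ∏ B ∈ T.ch A, (1 + s) ^ (T.bn S F g G B j ζ) - 1 -
        ∑ B ∈ T.ch A, ((1 + s) ^ (T.bn S F g G B j ζ) - 1) := rfl
    rw [h5]
    linarith

/-- TARGET. the deterministic expansion: with `f A = (1+s)^(bn A) - 1` one has `f A = Σ_{B ∈ ch A} f B + bx A`; iterate over the generations -/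
theorem TS.expand (T : TS D r) {S : Set V → Prop} {C : Set V} (hC : T.Cn C) (g : V → ℕ) (G : Finset V) (s : ℝ) (j : ℕ) (ζ : V → ℕ) :
    (1 + s) ^ (T.fn S {C} g G j ζ) - 1 = s * (T.fn S {C} g G j ζ : ℝ) +
      ∑ i ∈ range j, ∑ A ∈ T.de {C} i, T.bx S {C} g G s A (j - i - 1) ζ := by
  exact t9_expand T S {C} g G s ζ j C hC


/-- TARGET. elementary: for numbers `0 ≤ x_B`, `Π (1 + x_B) - 1 - Σ x_B` is the sum over the subsets with at least two elements of the products; it is monotone in the `x_B`,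
and if all `x_B ≤ h ≤ 1` it is at most `2^k h^2` -/
theorem prod_excess {ι : Type*} (A : Finset ι) (x y : ι → ℝ) (hx : ∀ i ∈ A, 0 ≤ x i) (hxy : ∀ i ∈ A, x i ≤ y i) :
    ∏ i ∈ A, (1 + x i) - 1 - ∑ i ∈ A, x i ≤ ∏ i ∈ A, (1 + y i) - 1 - ∑ i ∈ A, y i := by
  classical
  have key : ∀ B ⊆ A, ((1 : ℝ) ≤ ∏ i ∈ B, (1 + x i)) ∧ (∏ i ∈ B, (1 + x i) ≤ ∏ i ∈ B, (1 + y i)) ∧
      ∏ i ∈ B, (1 + x i) - 1 - ∑ i ∈ B, x i ≤ ∏ i ∈ B, (1 + y i) - 1 - ∑ i ∈ B, y i := by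
    intro B
    induction B using Finset.induction_on with
    | empty => intro _; simp
    | insert a B ha ih =>
      intro hB
      have haA : a ∈ A := hB (Finset.mem_insert_self a B)
      obtain ⟨h1, h2, h3⟩ := ih (fun b hb => hB (Finset.mem_insert_of_mem hb))
      have hx0 := hx a haA
      have hxy0 := hxy a haA
      rw [Finset.prod_insert ha, Finset.prod_insert ha, Finset.sum_insert ha, Finset.sum_insert ha]
      refine ⟨by nlinarith, by nlinarith, ?_⟩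
      have h4 : x a * (∏ i ∈ B, (1 + x i) - 1) ≤ y a * (∏ i ∈ B, (1 + y i) - 1) :=
        mul_le_mul hxy0 (by linarith) (by linarith) (by linarith)
      nlinarith
  exact (key A (Finset.Subset.refl A)).2.2


/-- TARGET. expansion of the excess over the subsets with at least two elements -/
theorem prod_excess_eq {ι : Type*} (A : Finset ι) (x : ι → ℝ) :
    ∏ i ∈ A, (1 + x i) - 1 - ∑ i ∈ A, x i = ∑ J ∈ A.powerset.filter (fun J => 2 ≤ J.card), ∏ i ∈ J, x i := by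
  classical
  rw [Finset.prod_one_add, ← Finset.sum_filter_add_sum_filter_not A.powerset (fun J => 2 ≤ J.card)]
  have h1 : A.powerset.filter (fun J => ¬ 2 ≤ J.card) = insert ∅ (A.image (fun i => ({i} : Finset ι))) := by
    ext J
    rw [Finset.mem_filter, Finset.mem_powerset, Finset.mem_insert, Finset.mem_image]
    constructor
    · rintro ⟨h2, h3⟩
      by_cases h0 : J.card = 0
      · exact Or.inl (Finset.card_eq_zero.1 h0)
      · obtain ⟨i, hi⟩ := Finset.card_eq_one.1 (show J.card = 1 by omega)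
        refine Or.inr ⟨i, ?_, hi.symm⟩
        rw [hi] at h2
        exact h2 (Finset.mem_singleton_self i)
    · rintro (h2 | ⟨i, hi, h2⟩)
      · rw [h2]
        exact ⟨Finset.empty_subset _, by simp⟩
      · rw [← h2]
        exact ⟨Finset.singleton_subset_iff.2 hi, by simp⟩
  have h2 : (∅ : Finset ι) ∉ A.image (fun i => ({i} : Finset ι)) := by
    rw [Finset.mem_image]
    rintro ⟨i, -, hi⟩
    exact Finset.singleton_ne_empty i hi
  rw [h1, Finset.sum_insert h2, Finset.sum_image (fun i _ j _ h => Finset.singleton_injective h), Finset.prod_empty]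
  simp only [Finset.prod_singleton]
  ring


theorem t9_bn_le (T : TS D r) {S : Set V → Prop} {C : Set V} (hC : T.Cn C) {g : V → ℕ} (hg : ∀ z ∈ fs {C}, g z ≤ T.fi {C} z) {G : Finset V}
    {i : ℕ} {B : Set V} (hB : B ∈ T.de {C} i) (j : ℕ) (ζ : V → ℕ) :
    T.bn S {C} g G B j ζ ≤ T.fn S {B} (T.fi {B}) G j (rs (gp G {B}) ζ) := by
  unfold TS.bn TS.fn
  refine Finset.card_le_card fun X hX => ?_
  rw [Finset.mem_filter] at hX ⊢
  exact ⟨hX.1, T.mkd_restart (T.fo_single hC) hg hB hX.1 hX.2⟩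

theorem t9_pow_nonneg {s : ℝ} (hs : 0 ≤ s) (n : ℕ) : 0 ≤ (1 + s) ^ n - 1 := by
  have h : (1 : ℝ) ≤ (1 + s) ^ n := one_le_pow₀ (by linarith)
  linarith

/-- TARGET. the excess at `A`, for `s ≥ 0`, vanishes unless `A` is marked, and is at most the excess for the restarted counts: by `mkd_parent` and `mkd_restart`
(`bn S {C} g G B j ζ ≤ fn S {B} (fi {B}) G j (rs (gp G {B}) ζ)`) -/
theorem TS.bx_le (T : TS D r) {S : Set V → Prop} {C : Set V} (hC : T.Cn C) {g : V → ℕ} (hg : ∀ z ∈ fs {C}, g z ≤ T.fi {C} z) {G : Finset V} {s : ℝ} (hs : 0 ≤ s)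
    {i j : ℕ} {A : Set V} (hA : A ∈ T.de {C} i) {ζ : V → ℕ} (hζ : ζ ∈ Rc D r (gp G {C})) :
    T.bx S {C} g G s A j ζ ≤ (if T.mkd S {C} g G ζ A then 1 else 0) *
      ∑ J ∈ (T.ch A).powerset.filter (fun J => 2 ≤ J.card), ∏ B ∈ J, ((1 + s) ^ (T.fn S {B} (T.fi {B}) G j (rs (gp G {B}) ζ)) - 1) := by
  have hF := T.fo_single hC
  have hprod : ∏ B ∈ T.ch A, (1 + s) ^ (T.bn S {C} g G B j ζ) =
      ∏ B ∈ T.ch A, (1 + ((1 + s) ^ (T.bn S {C} g G B j ζ) - 1)) :=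
    Finset.prod_congr rfl fun B _ => by ring
  unfold TS.bx
  rw [hprod, prod_excess_eq]
  by_cases h : T.mkd S {C} g G ζ A
  · rw [if_pos h, one_mul]
    refine Finset.sum_le_sum fun J hJ => ?_
    rw [Finset.mem_filter, Finset.mem_powerset] at hJ
    refine Finset.prod_le_prod (fun B _ => t9_pow_nonneg hs _) (fun B hB => ?_)
    have h1 := t9_bn_le T (S := S) hC hg (G := G) (t9_ch_de T hA (hJ.1 hB)) j ζ
    have h2 : (1 + s) ^ (T.bn S {C} g G B j ζ) ≤ (1 + s) ^ (T.fn S {B} (T.fi {B}) G j (rs (gp G {B}) ζ)) :=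
      pow_le_pow_right₀ (by linarith) h1
    linarith
  · rw [if_neg h, zero_mul]
    refine le_of_eq (Finset.sum_eq_zero fun J hJ => ?_)
    rw [Finset.mem_filter, Finset.mem_powerset] at hJ
    obtain ⟨B, hB⟩ : J.Nonempty := Finset.card_pos.1 (by omega)
    refine Finset.prod_eq_zero hB ?_
    have h0 : T.bn S {C} g G B j ζ = 0 := by
      unfold TS.bn
      rw [Finset.card_eq_zero, Finset.filter_eq_empty_iff]
      intro X hX hm
      exact h (T.mkd_parent hF hg hA (hJ.1 hB) hζ (t9_mkd_anc T hC hg hζ (t9_ch_de T hA (hJ.1 hB)) j X hX hm))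
    rw [h0, pow_zero, sub_self]


/-- TARGET. expectation of the excess. The mark of `A` is a function of the configuration off `A` (`mkd_off`: choose the representative `rs (gp G {C} \ A) ζ` extended by `r` on `gp G {C} ∩ A`, or argue with
the function `h1 ξ = 1` iff some `ζ ∈ Rc (gp G {C})` with restriction `ξ` to `gp G {C} \ A` has `A` marked); then `child_le` for each `J` (with `h2 B = 1` for `B ∉ J`) -/
theorem TS.ex_bx (T : TS D r) {S : Set V → Prop} {C : Set V} (hC : T.Cn C) {g : V → ℕ} (hg : ∀ z ∈ fs {C}, g z ≤ T.fi {C} z) {G : Finset V} {s h : ℝ} (hs : 0 ≤ s)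
    (h1 : h ≤ 1) {i j : ℕ} {A : Set V} (hA : A ∈ T.de {C} i)
    (hh : ∀ B ∈ T.ch A, ex D r (gp G {B}) (fun ζ => (1 + s) ^ (T.fn S {B} (T.fi {B}) G j ζ) - 1) ≤ h) :
    ex D r (gp G {C}) (fun ζ => T.bx S {C} g G s A j ζ) ≤
      (T.c0⁻¹) ^ (2 * T.m) * pr D r (gp G {C}) (fun ζ => T.mkd S {C} g G ζ A) * (2 ^ T.m * h ^ 2) := by
  have hF := T.fo_single hC
  have hAc : T.Cn A := t9_cn T hC hA
  have hne : (T.ch A).Nonempty := Finset.card_pos.1 (by have := T.two hAc; omega)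
  have hc0 : 0 ≤ (T.c0⁻¹) ^ (2 * T.m) := pow_nonneg (inv_nonneg.2 T.c0_pos.le) _
  let y : Set V → (V → ℕ) → ℝ := fun B ζ => (1 + s) ^ (T.fn S {B} (T.fi {B}) G j ζ) - 1
  have hy0 : ∀ B ζ, 0 ≤ y B ζ := fun B ζ => t9_pow_nonneg hs _
  have hyh : ∀ B ∈ T.ch A, ex D r (gp G {B}) (y B) ≤ h := hh
  have h0 : 0 ≤ h := by
    obtain ⟨B, hB⟩ := hne
    exact (t9_ex_nonneg (fun ζ _ => hy0 B ζ)).trans (hyh B hB)
  let G' := (gp G {C}).filter (fun z => z ∉ A)
  let f1 : (V → ℕ) → ℝ := fun ξ => if ∃ ζ ∈ Rc D r (gp G {C}), rs G' ζ = ξ ∧ T.mkd S {C} g G ζ A then 1 else 0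
  have hf10 : ∀ ξ, 0 ≤ f1 ξ := by
    intro ξ
    show (0 : ℝ) ≤ if _ then 1 else 0
    split_ifs
    · exact zero_le_one
    · exact le_refl 0
  have hf1 : ∀ ζ ∈ Rc D r (gp G {C}), f1 (rs G' ζ) = if T.mkd S {C} g G ζ A then 1 else 0 := by
    intro ζ hζ
    by_cases hm : T.mkd S {C} g G ζ A
    · rw [if_pos hm]
      exact if_pos ⟨ζ, hζ, rfl, hm⟩
    · rw [if_neg hm]
      refine if_neg ?_
      rintro ⟨ζ', hζ', he, hm'⟩
      refine hm ((T.mkd_off hF hA hζ' hζ ?_).1 hm')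
      intro z hz
      by_cases hzG : z ∈ gp G {C}
      · have hzG' : z ∈ G' := Finset.mem_filter.2 ⟨hzG, hz⟩
        have := congrFun he z
        rwa [rs_mem hzG', rs_mem hzG'] at this
      · rw [(mem_Rc.1 hζ).1.2 z hzG, (mem_Rc.1 hζ').1.2 z hzG]
  have hpr : ex D r (gp G {C}) (fun ζ => f1 (rs G' ζ)) = pr D r (gp G {C}) (fun ζ => T.mkd S {C} g G ζ A) := by
    rw [t9_pr_eq]
    exact t9_ex_congr hf1
  have hpr0 : 0 ≤ pr D r (gp G {C}) (fun ζ => T.mkd S {C} g G ζ A) := by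
    rw [← hpr]
    exact t9_ex_nonneg fun ζ _ => hf10 _
  have key : ∀ J ∈ (T.ch A).powerset.filter (fun J => 2 ≤ J.card),
      ex D r (gp G {C}) (fun ζ => f1 (rs G' ζ) * ∏ B ∈ J, y B (rs (gp G {B}) ζ)) ≤
        (T.c0⁻¹) ^ (2 * T.m) * (pr D r (gp G {C}) (fun ζ => T.mkd S {C} g G ζ A) * h ^ 2) := by
    intro J hJ
    rw [Finset.mem_filter, Finset.mem_powerset] at hJ
    have h2 := T.child_le hF hA G f1 (fun B ζ => if B ∈ J then y B ζ else 1) hf10
      (fun B ζ => by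
        by_cases hB : B ∈ J
        · simp only [hB, if_true]; exact hy0 B ζ
        · simp only [hB, if_false]; exact zero_le_one)
    have e1 : ∀ ζ : V → ℕ, ∏ B ∈ T.ch A, (if B ∈ J then y B (rs (gp G {B}) ζ) else 1) = ∏ B ∈ J, y B (rs (gp G {B}) ζ) := by
      intro ζ
      rw [Finset.prod_ite_mem, Finset.inter_eq_right.2 hJ.1]
    have e2 : ∏ B ∈ T.ch A, ex D r (gp G {B}) (fun ζ => if B ∈ J then y B ζ else 1) = ∏ B ∈ J, ex D r (gp G {B}) (y B) := by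
      have e3 : ∀ B ∈ T.ch A, ex D r (gp G {B}) (fun ζ => if B ∈ J then y B ζ else 1) =
          if B ∈ J then ex D r (gp G {B}) (y B) else 1 := by
        intro B _
        by_cases hB : B ∈ J
        · simp only [hB, if_true]
        · simp only [hB, if_false]
          exact t9_ex_one T _
      rw [Finset.prod_congr rfl e3, Finset.prod_ite_mem, Finset.inter_eq_right.2 hJ.1]
    simp only [e1] at h2
    rw [e2] at h2
    refine h2.trans ?_
    refine mul_le_mul_of_nonneg_left ?_ hc0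
    have h3 : ex D r (gp G {C}) (fun ζ => f1 (rs ((gp G {C}).filter (fun z => z ∉ A)) ζ)) =
      pr D r (gp G {C}) (fun ζ => T.mkd S {C} g G ζ A) := hpr
    rw [h3]
    refine mul_le_mul_of_nonneg_left ?_ hpr0
    calc ∏ B ∈ J, ex D r (gp G {B}) (y B) ≤ ∏ _B ∈ J, h :=
          Finset.prod_le_prod (fun B _ => t9_ex_nonneg fun ζ _ => hy0 B ζ) (fun B hB => hyh B (hJ.1 hB))
      _ = h ^ J.card := by rw [Finset.prod_const]
      _ ≤ h ^ 2 := pow_le_pow_of_le_one h0 h1 hJ.2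
  have hle : ex D r (gp G {C}) (fun ζ => T.bx S {C} g G s A j ζ) ≤
      ex D r (gp G {C}) (fun ζ => ∑ J ∈ (T.ch A).powerset.filter (fun J => 2 ≤ J.card),
        f1 (rs G' ζ) * ∏ B ∈ J, y B (rs (gp G {B}) ζ)) := by
    refine t9_ex_mono fun ζ hζ => ?_
    rw [← Finset.mul_sum, hf1 ζ hζ]
    exact T.bx_le hC hg hs hA hζ
  refine hle.trans ?_
  rw [t9_ex_sum]
  refine (Finset.sum_le_sum key).trans ?_
  rw [Finset.sum_const, nsmul_eq_mul]
  have hcard : (((T.ch A).powerset.filter (fun J => 2 ≤ J.card)).card : ℝ) ≤ 2 ^ T.m := by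
    have h3 : ((T.ch A).powerset.filter (fun J => 2 ≤ J.card)).card ≤ 2 ^ T.m := by
      refine (Finset.card_filter_le _ _).trans ?_
      rw [Finset.card_powerset]
      exact Nat.pow_le_pow_right (by norm_num) (T.ch_card hAc)
    exact_mod_cast h3
  calc (((T.ch A).powerset.filter (fun J => 2 ≤ J.card)).card : ℝ) *
        ((T.c0⁻¹) ^ (2 * T.m) * (pr D r (gp G {C}) (fun ζ => T.mkd S {C} g G ζ A) * h ^ 2))
      ≤ 2 ^ T.m * ((T.c0⁻¹) ^ (2 * T.m) * (pr D r (gp G {C}) (fun ζ => T.mkd S {C} g G ζ A) * h ^ 2)) :=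
        mul_le_mul_of_nonneg_right hcard (by positivity)
    _ = (T.c0⁻¹) ^ (2 * T.m) * pr D r (gp G {C}) (fun ζ => T.mkd S {C} g G ζ A) * (2 ^ T.m * h ^ 2) := by ring


/-- TARGET. THE RECURSION. Fix `G`, a cone `C0`, `J`, and a sequence `w` with `E fn_i ≤ w i` for all cones `B ∈ de {C0} k`, `k + i ≤ J` (full input); let `h` satisfy
`s w i + K Σ_{i' < i} w i' (h (i - i' - 1))^2 ≤ h i ≤ 1` with `K = c0^(-2m) 2^m`. Then `E[(1+s)^fn_i - 1] ≤ h i`, by strong induction on `i` (for all `B ∈ de {C0} k`, `k + i ≤ J`): `expand`, `ex_bx` and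
`Σ_{A ∈ de {B} i'} P(A marked) = E fn_i'`. -/
theorem TS.moment (T : TS D r) {S : Set V → Prop} {C0 : Set V} (hC : T.Cn C0) (G : Finset V) (J : ℕ) (w h : ℕ → ℝ) {s : ℝ} (hs : 0 ≤ s)
    (hw : ∀ k i, k + i ≤ J → ∀ B ∈ T.de {C0} k, ex D r (gp G {B}) (fun ζ => (T.fn S {B} (T.fi {B}) G i ζ : ℝ)) ≤ w i)
    (hh : ∀ i ≤ J, s * w i + (T.c0⁻¹) ^ (2 * T.m) * 2 ^ T.m * ∑ i' ∈ range i, w i' * (h (i - i' - 1)) ^ 2 ≤ h i)
    (hh1 : ∀ i ≤ J, h i ≤ 1) :
    ∀ k i, k + i ≤ J → ∀ B ∈ T.de {C0} k, ex D r (gp G {B}) (fun ζ => (1 + s) ^ (T.fn S {B} (T.fi {B}) G i ζ) - 1) ≤ h i := by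
  have hc0 : 0 ≤ (T.c0⁻¹) ^ (2 * T.m) := pow_nonneg (inv_nonneg.2 T.c0_pos.le) _
  intro k i
  induction i using Nat.strong_induction_on generalizing k with
  | _ i ih =>
    intro hki B hB
    have hBc : T.Cn B := t9_cn T hC hB
    have hg : ∀ z ∈ fs {B}, T.fi {B} z ≤ T.fi {B} z := fun z _ => le_refl _
    have h1 : ex D r (gp G {B}) (fun ζ => (1 + s) ^ (T.fn S {B} (T.fi {B}) G i ζ) - 1) =
        s * ex D r (gp G {B}) (fun ζ => (T.fn S {B} (T.fi {B}) G i ζ : ℝ)) +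
          ∑ i' ∈ range i, ∑ A ∈ T.de {B} i', ex D r (gp G {B}) (fun ζ => T.bx S {B} (T.fi {B}) G s A (i - i' - 1) ζ) := by
      rw [t9_ex_congr (fun ζ _ => T.expand hBc (T.fi {B}) G s i ζ), t9_ex_add, t9_ex_mul, t9_ex_sum]
      congr 1
      refine Finset.sum_congr rfl fun i' _ => ?_
      rw [t9_ex_sum]
    rw [h1]
    refine le_trans (add_le_add (mul_le_mul_of_nonneg_left (hw k i hki B hB) hs) ?_) (hh i (by omega))
    rw [Finset.mul_sum]
    refine Finset.sum_le_sum fun i' hi' => ?_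
    rw [Finset.mem_range] at hi'
    have h2 : ∀ A ∈ T.de {B} i', ex D r (gp G {B}) (fun ζ => T.bx S {B} (T.fi {B}) G s A (i - i' - 1) ζ) ≤
        (T.c0⁻¹) ^ (2 * T.m) * pr D r (gp G {B}) (fun ζ => T.mkd S {B} (T.fi {B}) G ζ A) * (2 ^ T.m * h (i - i' - 1) ^ 2) := by
      intro A hA
      refine T.ex_bx hBc hg hs (hh1 (i - i' - 1) (by omega)) hA ?_
      intro B' hB'
      exact ih (i - i' - 1) (by omega) (k + i' + 1) (by omega) B' (t9_ch_de T (T.de_trans hB hA) hB')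
    refine (Finset.sum_le_sum h2).trans ?_
    rw [← Finset.sum_mul, ← Finset.mul_sum]
    have h3 : ∑ A ∈ T.de {B} i', pr D r (gp G {B}) (fun ζ => T.mkd S {B} (T.fi {B}) G ζ A) =
        ex D r (gp G {B}) (fun ζ => (T.fn S {B} (T.fi {B}) G i' ζ : ℝ)) := by
      rw [Finset.sum_congr rfl fun A _ => t9_pr_eq (D := D) (r := r) (gp G {B}) (fun ζ => T.mkd S {B} (T.fi {B}) G ζ A),
        ← t9_ex_sum]
      refine t9_ex_congr fun ζ _ => ?_
      unfold TS.fn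
      rw [Finset.card_filter]
      push_cast
      rfl
    rw [h3]
    have h4 := hw k i' (by omega) B hB
    calc (T.c0⁻¹) ^ (2 * T.m) * ex D r (gp G {B}) (fun ζ => (T.fn S {B} (T.fi {B}) G i' ζ : ℝ)) * (2 ^ T.m * h (i - i' - 1) ^ 2)
        ≤ (T.c0⁻¹) ^ (2 * T.m) * w i' * (2 ^ T.m * h (i - i' - 1) ^ 2) :=
          mul_le_mul_of_nonneg_right (mul_le_mul_of_nonneg_left h4 hc0) (by positivity)
      _ = (T.c0⁻¹) ^ (2 * T.m) * 2 ^ T.m * (w i' * h (i - i' - 1) ^ 2) := by ring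


/-- the recursion for the full waves with constant bounds -/
theorem t9_eps (T : TS D r) : ∃ ε : ℝ, 0 < ε ∧ ε ≤ 1 ∧ 2 * T.C1 * ε ≤ 1 ∧ ∀ C, T.Cn C → ∀ (G : Finset V) (j : ℕ),
    ex D r (gp G {C}) (fun ζ => (1 + ε / (j + 1)) ^ (T.rn {C} G j ζ) - 1) ≤ 2 * T.C1 * (ε / (j + 1)) := by
  have hC1 := T.one_le_C1
  set K : ℝ := (T.c0⁻¹) ^ (2 * T.m) * 2 ^ T.m with hK
  have hK1 : 1 ≤ K := by
    rw [hK]
    have h1 : (1 : ℝ) ≤ (T.c0⁻¹) ^ (2 * T.m) := one_le_pow₀ ((one_le_inv₀ T.c0_pos).2 T.c0_le_one)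
    have h2 : (1 : ℝ) ≤ 2 ^ T.m := one_le_pow₀ (by norm_num)
    nlinarith
  have hpos : 0 < 4 * K * T.C1 ^ 2 := by positivity
  have hC2 : 1 ≤ T.C1 ^ 2 := one_le_pow₀ hC1
  refine ⟨1 / (4 * K * T.C1 ^ 2), by positivity, ?_, ?_, ?_⟩
  · rw [div_le_one hpos]
    nlinarith
  · rw [mul_one_div, div_le_one hpos]
    nlinarith [mul_nonneg (sub_nonneg.2 hK1) (by positivity : (0 : ℝ) ≤ T.C1 ^ 2)]
  · intro C hC G j
    set s : ℝ := 1 / (4 * K * T.C1 ^ 2) / (j + 1) with hs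
    have hj : (0 : ℝ) < (j : ℝ) + 1 := by positivity
    have hs0 : 0 ≤ s := by positivity
    have hsj : 4 * K * T.C1 ^ 2 * s * (j + 1) = 1 := by
      rw [hs]
      field_simp
    have hs1 : 2 * T.C1 * s ≤ 1 := by
      have h1 : s ≤ 1 / (4 * K * T.C1 ^ 2) := by
        rw [hs]
        exact div_le_self (by positivity) (by have := Nat.cast_nonneg (α := ℝ) j; linarith)
      have h2 : 2 * T.C1 * (1 / (4 * K * T.C1 ^ 2)) ≤ 1 := by
        rw [mul_one_div, div_le_one hpos]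
        nlinarith [mul_nonneg (sub_nonneg.2 hK1) (by positivity : (0 : ℝ) ≤ T.C1 ^ 2)]
      have h3 : 2 * T.C1 * s ≤ 2 * T.C1 * (1 / (4 * K * T.C1 ^ 2)) := mul_le_mul_of_nonneg_left h1 (by positivity)
      linarith
    have h1 := T.moment (S := fun _ => False) hC G j (fun _ => T.C1) (fun _ => 2 * T.C1 * s) hs0
      (fun k i _ B hB => T.rn_le (t9_cn T hC hB) G i)
      (by
        intro i hi
        rw [Finset.sum_const, Finset.card_range, nsmul_eq_mul, ← hK]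
        have hij : (i : ℝ) ≤ j := by exact_mod_cast hi
        have h2 : K * ((i : ℝ) * (T.C1 * (2 * T.C1 * s) ^ 2)) = (4 * K * T.C1 ^ 2 * s * i) * (T.C1 * s) := by ring
        rw [h2]
        have h3 : 4 * K * T.C1 ^ 2 * s * i ≤ 1 := by
          rw [← hsj]
          exact mul_le_mul_of_nonneg_left (by linarith) (by positivity)
        have h4 : 0 ≤ T.C1 * s := by positivity
        nlinarith)
      (fun i _ => hs1) 0 j (by omega) C (by rw [T.de_zero]; exact Finset.mem_singleton_self C)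
    exact h1

/-- TARGET. exponential moment of the number of reached cones: `moment` with `S = False`, `w i = C1`, `h i = 2 C1 s`; this works if `2 C1 s ≤ 1` and `4 K C1^2 s j ≤ 1`. So for `s ≤ ε/(j+1)` -/
theorem TS.exists_eps (T : TS D r) : ∃ ε : ℝ, 0 < ε ∧ ε ≤ 1 ∧ ∀ C, T.Cn C → ∀ (G : Finset V) (j : ℕ),
    ex D r (gp G {C}) (fun ζ => (1 + ε / (j + 1)) ^ (T.rn {C} G j ζ)) ≤ 2 := by
  obtain ⟨ε, h1, h2, h3, h4⟩ := t9_eps T
  refine ⟨ε, h1, h2, fun C hC G j => ?_⟩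
  have h5 := h4 C hC G j
  have h6 : ex D r (gp G {C}) (fun ζ => (1 + ε / (j + 1)) ^ (T.rn {C} G j ζ)) =
      ex D r (gp G {C}) (fun ζ => (1 + ε / (j + 1)) ^ (T.rn {C} G j ζ) - 1) + 1 := by
    have h9 := t9_ex_add (D := D) (r := r) (gp G {C}) (fun ζ => (1 + ε / ((j : ℝ) + 1)) ^ (T.rn {C} G j ζ) - 1) (fun _ => (1 : ℝ))
    rw [t9_ex_one T (gp G {C})] at h9
    rw [← h9]
    exact t9_ex_congr fun ζ _ => by ring
  rw [h6]
  have hj : (0 : ℝ) ≤ j := Nat.cast_nonneg j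
  have hC1 := T.one_le_C1
  have h7 : ε / ((j : ℝ) + 1) ≤ ε := div_le_self h1.le (by linarith)
  have h8 : 2 * T.C1 * (ε / ((j : ℝ) + 1)) ≤ 2 * T.C1 * ε := mul_le_mul_of_nonneg_left h7 (by linarith)
  linarith


theorem t9_binom {s : ℝ} (hs : 0 ≤ s) (n : ℕ) : s ^ 2 * ((n : ℝ) * (n - 1)) ≤ 2 * ((1 + s) ^ n - 1) := by
  induction n with
  | zero => simp
  | succ n ih =>
    have h1 : 1 + (n : ℝ) * s ≤ (1 + s) ^ n := one_add_mul_le_pow (by linarith) n
    rw [pow_succ (1 + s) n]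
    push_cast
    nlinarith [mul_nonneg hs (sub_nonneg.2 h1), mul_nonneg (mul_nonneg hs hs) (Nat.cast_nonneg (α := ℝ) n)]

theorem t9_C2 (T : TS D r) : ∃ c : ℝ, 0 < c ∧ ∀ C, T.Cn C → ∀ (G : Finset V) (j : ℕ),
    ex D r (gp G {C}) (fun ζ => (T.rn {C} G j ζ : ℝ) ^ 2) ≤ c * (j + 1) := by
  obtain ⟨ε, h1, h2, h3, h4⟩ := t9_eps T
  have hC1 := T.one_le_C1
  refine ⟨T.C1 + 4 * T.C1 / ε, by positivity, fun C hC G j => ?_⟩
  have hj : (0 : ℝ) ≤ j := Nat.cast_nonneg j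
  set s : ℝ := ε / (j + 1) with hs
  have hs0 : 0 < s := by positivity
  have h5 := h4 C hC G j
  have h6 : s ^ 2 * ex D r (gp G {C}) (fun ζ => (T.rn {C} G j ζ : ℝ) * ((T.rn {C} G j ζ : ℝ) - 1)) ≤ 2 * (2 * T.C1 * s) := by
    refine le_trans ?_ (mul_le_mul_of_nonneg_left h5 (by norm_num))
    rw [← t9_ex_mul, ← t9_ex_mul]
    exact t9_ex_mono fun ζ _ => t9_binom hs0.le _
  have h7 : ex D r (gp G {C}) (fun ζ => (T.rn {C} G j ζ : ℝ) ^ 2) =
      ex D r (gp G {C}) (fun ζ => (T.rn {C} G j ζ : ℝ) * ((T.rn {C} G j ζ : ℝ) - 1)) +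
        ex D r (gp G {C}) (fun ζ => (T.rn {C} G j ζ : ℝ)) := by
    rw [← t9_ex_add]
    exact t9_ex_congr fun ζ _ => by ring
  have h8 := T.rn_le hC G j
  have h9 : ex D r (gp G {C}) (fun ζ => (T.rn {C} G j ζ : ℝ) * ((T.rn {C} G j ζ : ℝ) - 1)) ≤ 4 * T.C1 / s := by
    rw [le_div_iff₀ hs0]
    have h10 : s * (ex D r (gp G {C}) (fun ζ => (T.rn {C} G j ζ : ℝ) * ((T.rn {C} G j ζ : ℝ) - 1)) * s) ≤ s * (4 * T.C1) := by
      nlinarith
    exact le_of_mul_le_mul_left h10 hs0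
  have h11 : 4 * T.C1 / s = 4 * T.C1 / ε * (j + 1) := by
    rw [hs]
    field_simp
  rw [h7]
  rw [h11] at h9
  nlinarith

/-- TARGET. second moment: from `moment` as before, `E[(1+s)^N - 1] ≤ 2 C1 s` with `s = ε/(j+1)`, and `(1+s)^N - 1 ≥ N(N-1)s^2/2` -/
theorem TS.exists_C2 (T : TS D r) : ∃ c : ℝ, 0 < c ∧ ∀ C, T.Cn C → ∀ (G : Finset V) (j : ℕ),
    ex D r (gp G {C}) (fun ζ => (T.rn {C} G j ζ : ℝ) ^ 2) ≤ c * (j + 1) := by
  exact t9_C2 T


/-- TARGET. Paley-Zygmund (Cauchy-Schwarz): `P(N_j ≥ 1) ≥ (E N_j)^2 / E N_j^2 ≥ c/(j+1)` once `G` contains the first `j` generations -/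
theorem TS.exists_pz (T : TS D r) : ∃ c : ℝ, 0 < c ∧ c ≤ 1 ∧ ∀ C, T.Cn C → ∀ (j : ℕ) (G : Finset V), T.up {C} j ⊆ G →
    c / (j + 1) ≤ pr D r (gp G {C}) (fun ζ => 1 ≤ T.rn {C} G j ζ) := by
  obtain ⟨c2, hc2, h2⟩ := t9_C2 T
  have hc1 := T.c1_pos
  refine ⟨min 1 (T.c1 ^ 2 / c2), lt_min zero_lt_one (by positivity), min_le_left _ _, fun C hC j G hG => ?_⟩
  have hj : (0 : ℝ) < (j : ℝ) + 1 := by positivity
  have h3 := h2 C hC G j
  have h4 := T.rn_ge hC j G hG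
  have hN := t9_card_pos T (gp G {C})
  set N : ℝ := ((Rc D r (gp G {C})).card : ℝ) with hNdef
  set p := pr D r (gp G {C}) (fun ζ => 1 ≤ T.rn {C} G j ζ) with hp
  have hp0 : 0 ≤ p := by
    rw [hp, t9_pr_eq]
    exact t9_ex_nonneg fun ζ _ => by split_ifs <;> norm_num
  have h5 : (ex D r (gp G {C}) (fun ζ => (T.rn {C} G j ζ : ℝ))) ^ 2 ≤
      ex D r (gp G {C}) (fun ζ => (T.rn {C} G j ζ : ℝ) ^ 2) * p := by
    rw [hp, t9_pr_eq]
    unfold ex
    rw [← hNdef, div_pow, div_mul_div_comm, ← pow_two]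
    refine div_le_div_of_nonneg_right ?_ (by positivity)
    have h6 := Finset.sum_mul_sq_le_sq_mul_sq (Rc D r (gp G {C})) (fun ζ => (T.rn {C} G j ζ : ℝ))
      (fun ζ => if 1 ≤ T.rn {C} G j ζ then (1 : ℝ) else 0)
    have h7 : ∑ ζ ∈ Rc D r (gp G {C}), (T.rn {C} G j ζ : ℝ) * (if 1 ≤ T.rn {C} G j ζ then (1 : ℝ) else 0) =
        ∑ ζ ∈ Rc D r (gp G {C}), (T.rn {C} G j ζ : ℝ) := by
      refine Finset.sum_congr rfl fun ζ _ => ?_
      split_ifs with h
      · rw [mul_one]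
      · have : T.rn {C} G j ζ = 0 := by omega
        rw [this]
        simp
    have h8 : ∑ ζ ∈ Rc D r (gp G {C}), (if 1 ≤ T.rn {C} G j ζ then (1 : ℝ) else 0) ^ 2 =
        ∑ ζ ∈ Rc D r (gp G {C}), (if 1 ≤ T.rn {C} G j ζ then (1 : ℝ) else 0) := by
      refine Finset.sum_congr rfl fun ζ _ => ?_
      split_ifs <;> norm_num
    rw [h7, h8] at h6
    convert h6
  have h9 : T.c1 ^ 2 ≤ c2 * (j + 1) * p := by
    calc T.c1 ^ 2 ≤ (ex D r (gp G {C}) (fun ζ => (T.rn {C} G j ζ : ℝ))) ^ 2 := pow_le_pow_left₀ hc1.le h4 2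
      _ ≤ _ := h5
      _ ≤ c2 * (j + 1) * p := mul_le_mul_of_nonneg_right h3 hp0
  rw [div_le_iff₀ hj]
  have h10 : T.c1 ^ 2 / c2 ≤ p * (j + 1) := by
    rw [div_le_iff₀ hc2]
    linarith
  exact (min_le_right _ _).trans h10


end Pool.Agent.Helper910.QT
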