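import Mathlib
import Pool.Agent.Helper910.T9

/-! Tightness of the wave (MP_4555f0_mp) -/

namespace Pool.Agent.Helper910.QT

open Classical Finset Filter Topology

variable {V : Type*} {D : SimpleGraph V} [D.LocallyFinite] {r : ℕ}

/-- `A` is reached by the full wave of the cone `C` -/
def TS.rc (T : TS D r) (C : Set V) (G : Finset V) (ζ : V → ℕ) (A : Set V) : Prop := rch D (T.fi {C}) (gw D r (T.fi {C}) (gp G {C}) ζ) A

/-- the ancestors of a reached cone are reached -/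
theorem TS.t10_rc_anc (T : TS D r) {C : Set V} (hC : T.Cn C) {G : Finset V} {ζ : V → ℕ} (hζ : ζ ∈ Rc D r (gp G {C})) {i k : ℕ} {A E : Set V}
    (hA : A ∈ T.de {C} i) (hE : E ∈ T.de {A} k) (h : T.rc C G ζ E) : T.rc C G ζ A := by
  induction k generalizing E with
  | zero =>
    rw [T.de_zero, Finset.mem_singleton] at hE
    rwa [hE] at h
  | succ k ih =>
    rw [T.de_succ, Finset.mem_biUnion] at hE
    obtain ⟨E', hE', hEE'⟩ := hE
    exact ih hE' (T.rch_parent (T.fo_single hC) (fun z _ => le_refl _) (T.de_trans hA hE') hEE' hζ h)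

/-- a reached cone with all heights `r` on the top piece: some vertex of the top piece topples -/
theorem TS.t10_trig (T : TS D r) {C : Set V} (hC : T.Cn C) {j : ℕ} {A : Set V} (hA : A ∈ T.de {C} j) {G' W : Finset V} {ζ : V → ℕ}
    (hQ : ∀ z ∈ T.Q A, z ∈ G' ∧ ζ z = r) (hW : W ⊆ gw D r (T.fi {C}) G' ζ) (h : rch D (T.fi {C}) W A) :
    ∃ z ∈ T.Q A, z ∈ gw D r (T.fi {C}) G' ζ := by
  have hcn := T.t5b_cn (T.fo_single hC) hA
  obtain ⟨z0, hz0, h1 | ⟨x, hxW, hxA, hxz⟩⟩ := h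
  · obtain ⟨x, hx, hxz⟩ := T.t5b_inp (T.fo_single hC) (fun z _ => le_refl _) hA hz0 h1
    have hz0Q := (T.ib_sub hcn hz0 hx hxz).1
    refine ⟨z0, hz0Q, ?_⟩
    by_contra hcon
    have h2 := (gw_GCl (D := D) (r := r) (T.fi {C}) G' ζ).2 z0 (hQ z0 hz0Q).1 hcon
    have h3 := (hQ z0 hz0Q).2
    omega
  · have hz0Q := (T.ib_sub hcn hz0 hxA hxz.symm).1
    refine ⟨z0, hz0Q, ?_⟩
    by_contra hcon
    have h2 := (gw_GCl (D := D) (r := r) (T.fi {C}) G' ζ).2 z0 (hQ z0 hz0Q).1 hcon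
    have h3 := (hQ z0 hz0Q).2
    have h4 := TS.t5b_dg_pos (D := D) (hW hxW) hxz.symm
    omega

theorem TS.t10_mem_gp1 {G : Finset V} {A : Set V} {z : V} : z ∈ gp G {A} ↔ z ∈ G ∧ z ∈ A := by
  rw [TS.t5b_mem_gp, TS.t5b_fs_single]

/-- TARGET. RESAMPLING, deterministic part. Let `A ∈ de {C} j`, `B ∈ ch A`, `B' ∈ ch A`, `B' ≠ B`, `E ∈ de {B'} k` (so `E` is a descendant of `A` not below `B`), `Q A ⊆ G`, `ζ ∈ Rc (gp G {C})` with `E` reached.
Let `ζ'` be equal to `ζ` off `Q A ∪ B`, `r` on `Q A`, and an arbitrary element `ξ` of `Rc (gp G {B})` on `B`. Then `ζ' ∈ Rc (gp G {C})` and `E` is reached in `ζ'`.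
Proof: pivot with `S = Q A`, `B` below, `G1` = the rest: `ζ1 = rs (G1 ∪ S) ζ'` is obtained from `rs (G1 ∪ S) ζ` by raising heights (`raise_mem`), `A` is reached by `ζ` hence by `ζ1` (`rch_off`, `rch_parent`: reached-ness of `A`
depends only on the configuration off `A`), so some vertex of `Q A` receives a grain and topples, then all of `Q A` (connected, heights `r`): `Trg` holds; `piv_mem`. `E` is reached in `ζ'`: the set
`gw ζ' ∪ (gp G {B})` absorbs the wave of `ζ` (a vertex off `B` adjacent to `B` is in `o B ⊆ Q A ⊆ gw ζ'`; heights of `ζ'` are `≥` those of `ζ` off `B`), so `gw ζ ⊆ gw ζ' ∪ B`, and the vertex of `o E` toppled in `ζ`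
is not in `B`. (`E` has generation `≥ 1`, so `rch_iff` applies.) -/
theorem TS.resample (T : TS D r) {C : Set V} (hC : T.Cn C) {G : Finset V} {j k : ℕ} {A B B' E : Set V} (hA : A ∈ T.de {C} j) (hB : B ∈ T.ch A)
    (hB' : B' ∈ T.ch A) (hne : B' ≠ B) (hE : E ∈ T.de {B'} k) (hG : T.Q A ⊆ G) {ζ ξ : V → ℕ} (hζ : ζ ∈ Rc D r (gp G {C})) (hr : T.rc C G ζ E)
    (hξ : ξ ∈ Rc D r (gp G {B})) :
    (fun z => if z ∈ T.Q A then r else if z ∈ B then ξ z else ζ z) ∈ Rc D r (gp G {C}) ∧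
      T.rc C G (fun z => if z ∈ T.Q A then r else if z ∈ B then ξ z else ζ z) E := by
  obtain ⟨ζ', hζ'⟩ : ∃ ζ' : V → ℕ, ζ' = fun z => if z ∈ T.Q A then r else if z ∈ B then ξ z else ζ z := ⟨_, rfl⟩
  rw [← hζ']
  have hF := T.fo_single hC
  have hAcn : T.Cn A := T.t5b_cn hF hA
  have hBcn : T.Cn B := T.ch_cn hAcn B hB
  have hB'cn : T.Cn B' := T.ch_cn hAcn B' hB'
  have hAC : A ⊆ C := T.de_single_sub hC hA
  have hBA : B ⊆ A := T.ch_sub hAcn hB
  have hBde : B ∈ T.de {C} (j + 1) := by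
    rw [T.de_succ, Finset.mem_biUnion]; exact ⟨A, hA, hB⟩
  have hB'de : B' ∈ T.de {C} (j + 1) := by
    rw [T.de_succ, Finset.mem_biUnion]; exact ⟨A, hA, hB'⟩
  have hEde : E ∈ T.de {C} (j + 1 + k) := T.de_trans hB'de hE
  have hAr : T.rc C G ζ A := T.t10_rc_anc hC hζ hA (T.de_trans (i := 1) (k := k) (by
    rw [T.de_succ, T.de_zero, Finset.singleton_biUnion]; exact hB') hE) hr
  -- values of the new configuration
  have vQ : ∀ z ∈ T.Q A, ζ' z = r := by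
    intro z hz; rw [hζ']; simp only [hz, if_true]
  have vB : ∀ z ∈ B, ζ' z = ξ z := by
    intro z hz
    have hzQ : z ∉ T.Q A := fun h => T.Q_notMem hAcn B hB z h hz
    rw [hζ']; simp only [hz, hzQ, if_true, if_false]
  have vO : ∀ z, z ∉ T.Q A → z ∉ B → ζ' z = ζ z := by
    intro z h1 h2; rw [hζ']; simp only [h1, h2, if_false]
  have hzr : ∀ z, ζ z ≤ r := by
    intro z
    by_cases hz : z ∈ gp G {C}
    · exact ((mem_Rc.1 hζ).1.1 z hz).2
    · rw [(mem_Rc.1 hζ).1.2 z hz]; exact Nat.zero_le _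
  have vle : ∀ z, z ∉ B → ζ z ≤ ζ' z := by
    intro z hz
    by_cases hzQ : z ∈ T.Q A
    · rw [vQ z hzQ]; exact hzr z
    · rw [vO z hzQ hz]
  have hQG : ∀ z ∈ T.Q A, z ∈ gp G {C} := fun z hz => TS.t10_mem_gp1.2 ⟨hG hz, hAC (T.Q_sub hAcn hz)⟩
  have hBG : ∀ z ∈ gp G {B}, z ∈ gp G {C} := fun z hz =>
    TS.t10_mem_gp1.2 ⟨(TS.t10_mem_gp1.1 hz).1, hAC (hBA (TS.t10_mem_gp1.1 hz).2)⟩
  -- the pivot
  obtain ⟨G1, hG1⟩ : ∃ G1 : Finset V, G1 = (gp G {C}).filter (fun z => z ∉ T.Q A ∧ z ∉ B) := ⟨_, rfl⟩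
  have mG1 : ∀ z, z ∈ G1 ↔ z ∈ gp G {C} ∧ z ∉ T.Q A ∧ z ∉ B := by
    intro z; rw [hG1, Finset.mem_filter]
  have hall : G1 ∪ T.Q A ∪ gp G {B} = gp G {C} := by
    ext z
    rw [Finset.mem_union, Finset.mem_union, mG1]
    constructor
    · rintro ((h | h) | h)
      · exact h.1
      · exact hQG z h
      · exact hBG z h
    · intro h
      by_cases h1 : z ∈ T.Q A
      · exact Or.inl (Or.inr h1)
      · by_cases h2 : z ∈ B
        · exact Or.inr (TS.t10_mem_gp1.2 ⟨(TS.t10_mem_gp1.1 h).1, h2⟩)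
        · exact Or.inl (Or.inl ⟨h, h1, h2⟩)
  have P : Piv D r (T.fi {C}) G1 (T.Q A) (gp G {B}) := by
    refine ⟨?_, ?_, ?_, ?_, ?_, ?_⟩
    · rw [Finset.disjoint_left]; intro z hz hz'; exact ((mG1 z).1 hz).2.1 hz'
    · rw [Finset.disjoint_left]; intro z hz hz'; exact ((mG1 z).1 hz).2.2 (TS.t10_mem_gp1.1 hz').2
    · rw [Finset.disjoint_left]; intro z hz hz'; exact T.Q_notMem hAcn B hB z hz (TS.t10_mem_gp1.1 hz').2
    · intro x hx y hy hxy
      have hyB := (TS.t10_mem_gp1.1 hy).2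
      have hxB := ((mG1 x).1 hx).2.2
      exact ((mG1 x).1 hx).2.1 (T.o_sub hAcn B hB (T.t5b_mem_o hBcn hxB hyB hxy.symm))
    · intro z hz
      exact T.fi_zero hF (Nat.succ_le_succ (Nat.zero_le j)) ⟨B, hBde, (TS.t10_mem_gp1.1 hz).2⟩
    · rw [hall]
      exact T.adm_fi hF (fun z _ => le_refl _) G
  have hsub1 : G1 ∪ T.Q A ⊆ gp G {C} := by rw [← hall]; exact Finset.subset_union_left
  have hr1 : rs (G1 ∪ T.Q A) ζ ∈ Rc D r (G1 ∪ T.Q A) := rs_mem_Rc hsub1 hζ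
  have hnB : ∀ z ∈ G1 ∪ T.Q A, z ∉ B := by
    intro z hz hzB
    rcases Finset.mem_union.1 hz with h | h
    · exact ((mG1 z).1 h).2.2 hzB
    · exact T.Q_notMem hAcn B hB z h hzB
  have h1 : rs (G1 ∪ T.Q A) ζ' ∈ Rc D r (G1 ∪ T.Q A) := by
    refine raise_mem hr1 ?_ ?_ ?_
    · intro z hz
      rw [rs_mem hz, rs_mem hz]
      exact vle z (hnB z hz)
    · intro z hz
      rw [rs_mem hz]
      by_cases hzQ : z ∈ T.Q A
      · rw [vQ z hzQ]
      · rw [vO z hzQ (hnB z hz)]; exact hzr z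
    · intro z hz
      exact rs_notMem hz
  have h2 : rs (gp G {B}) ζ' = ξ := by
    funext z
    by_cases hz : z ∈ gp G {B}
    · rw [rs_mem hz]; exact vB z (TS.t10_mem_gp1.1 hz).2
    · rw [rs_notMem hz, (mem_Rc.1 hξ).1.2 z hz]
  have h0 : ∀ z, z ∉ G1 ∪ T.Q A ∪ gp G {B} → ζ' z = 0 := by
    intro z hz
    have hzC : z ∉ gp G {C} := by rw [← hall]; exact hz
    have hzQ : z ∉ T.Q A := fun h => hzC (hQG z h)
    by_cases hzB : z ∈ B
    · rw [vB z hzB]
      refine (mem_Rc.1 hξ).1.2 z (fun h => hzC (hBG z h))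
    · rw [vO z hzQ hzB]
      exact (mem_Rc.1 hζ).1.2 z hzC
  -- the top piece topples
  have hsubA : (gp G {C}).filter (fun z => z ∉ A) ⊆ G1 ∪ T.Q A := by
    intro z hz
    rw [Finset.mem_filter] at hz
    exact Finset.mem_union_left _ ((mG1 z).2 ⟨hz.1, fun h => hz.2 (T.Q_sub hAcn h), fun h => hz.2 (hBA h)⟩)
  have hArA := (T.rch_off hF hA hζ).1 hAr
  have hmono : gw D r (T.fi {C}) ((gp G {C}).filter (fun z => z ∉ A)) (rs ((gp G {C}).filter (fun z => z ∉ A)) ζ) ⊆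
      gw D r (T.fi {C}) (G1 ∪ T.Q A) (rs (G1 ∪ T.Q A) ζ') := by
    refine gw_mono hsubA ?_
    intro y hy
    rw [rs_mem hy, rs_mem (hsubA hy)]
    have := vle y (fun h => (Finset.mem_filter.1 hy).2 (hBA h))
    omega
  obtain ⟨x0, hx0, hx0W⟩ := T.t10_trig hC hA (G' := G1 ∪ T.Q A) (ζ := rs (G1 ∪ T.Q A) ζ')
    (fun z hz => ⟨Finset.mem_union_right _ hz, by rw [rs_mem (Finset.mem_union_right _ hz)]; exact vQ z hz⟩) hmono hArA
  have ht : Trg D r (T.fi {C}) G1 (T.Q A) (rs (G1 ∪ T.Q A) ζ') := by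
    refine ⟨?_, ?_⟩
    · intro z hz
      rw [rs_mem (Finset.mem_union_right _ hz)]
      exact vQ z hz
    · intro z hz
      obtain ⟨p, hp⟩ := T.Q_conn hAcn z (Finset.mem_coe.2 hz) x0 (Finset.mem_coe.2 hx0)
      exact ⟨x0, hx0W, p, fun y hy => Finset.mem_coe.1 (hp y hy)⟩
  have hmem : ζ' ∈ Rc D r (gp G {C}) := by
    have := piv_mem T.gd P h0 h1 (by rw [h2]; exact hξ) ht
    rwa [hall] at this
  refine ⟨hmem, ?_⟩
  have hQW : T.Q A ⊆ gw D r (T.fi {C}) (gp G {C}) ζ' := by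
    refine ht.sub.trans ?_
    refine gw_mono hsub1 ?_
    intro y hy
    rw [rs_mem hy]
  have hWsub : gw D r (T.fi {C}) (gp G {C}) ζ ⊆ gw D r (T.fi {C}) (gp G {C}) ζ' ∪ gp G {B} := by
    refine gw_least' ?_
    intro y hy hyW
    rw [Finset.mem_union, not_or] at hyW
    have hyB : y ∉ B := fun h => hyW.2 (TS.t10_mem_gp1.2 ⟨(TS.t10_mem_gp1.1 hy).1, h⟩)
    have e1 : dg D y (gw D r (T.fi {C}) (gp G {C}) ζ' ∪ gp G {B}) ≤ dg D y (gw D r (T.fi {C}) (gp G {C}) ζ') := by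
      refine TS.t5b_dg_le ?_
      intro x hx hxy
      rcases Finset.mem_union.1 hx with h | h
      · exact h
      · exact absurd (hQW (T.o_sub hAcn B hB (T.t5b_mem_o hBcn hyB (TS.t10_mem_gp1.1 h).2 hxy.symm))) hyW.1
    have e2 := (gw_GCl (D := D) (r := r) (T.fi {C}) (gp G {C}) ζ').2 y hy hyW.1
    have e3 := vle y hyB
    omega
  have hWC : ∀ z ∈ gw D r (T.fi {C}) (gp G {C}) ζ, z ∈ fs {C} := fun z hz => (TS.t5b_mem_gp.1 (gw_sub _ _ _ hz)).2
  have hWC' : ∀ z ∈ gw D r (T.fi {C}) (gp G {C}) ζ', z ∈ fs {C} := fun z hz => (TS.t5b_mem_gp.1 (gw_sub _ _ _ hz)).2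
  have hEde' : E ∈ T.de {C} (j + k + 1) := by
    have : j + k + 1 = j + 1 + k := by omega
    rw [this]; exact hEde
  obtain ⟨x, hx, hxW⟩ := (T.rch_iff hF (fun z _ => le_refl _) hEde' _ hWC).1 hr
  refine (T.rch_iff hF (fun z _ => le_refl _) hEde' _ hWC').2 ⟨x, hx, ?_⟩
  rcases Finset.mem_union.1 (hWsub hxW) with h | h
  · exact h
  · exfalso
    have hxB := (TS.t10_mem_gp1.1 h).2
    rcases Nat.eq_zero_or_pos k with hk | hk
    · subst hk
      rw [T.de_zero, Finset.mem_singleton] at hE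
      rw [hE] at hx
      exact T.Q_notMem hAcn B hB x (T.o_sub hAcn B' hB' hx) hxB
    · obtain ⟨k', rfl⟩ : ∃ k', k = k' + 1 := ⟨k - 1, by omega⟩
      obtain ⟨E', hE', hEE', hoE⟩ := T.o_parent (T.fo_single hB'cn) hE
      have hxB' : x ∈ B' := T.de_single_sub hB'cn hE' (T.Q_sub (T.t5b_cn (T.fo_single hB'cn) hE') (hoE hx))
      exact Set.disjoint_left.1 (T.ch_disj hAcn B' hB' B hB hne) hxB' hxB

/-- TARGET. if `A ∈ de {C} j` is reached and a full piece, then everything reached by the full wave of a child `B` of `A` is reached -/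
theorem TS.rc_below (T : TS D r) {C : Set V} (hC : T.Cn C) {G : Finset V} {j k : ℕ} {A B E : Set V} (hA : A ∈ T.de {C} j) (hB : B ∈ T.ch A) (hE : E ∈ T.de {B} k)
    {ζ : V → ℕ} (hζ : ζ ∈ Rc D r (gp G {C})) (hr : T.rc C G ζ A) (hb : T.fb ζ A) (h : T.rc B G (rs (gp G {B}) ζ) E) : T.rc C G ζ E := by
  have hF := T.fo_single hC
  have hAcn : T.Cn A := T.t5b_cn hF hA
  have hBcn : T.Cn B := T.ch_cn hAcn B hB
  have hAC : A ⊆ C := T.de_single_sub hC hA
  have hBA : B ⊆ A := T.ch_sub hAcn hB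
  have hEB : E ⊆ B := T.de_single_sub hBcn hE
  have hQW := T.fb_sub hF (fun z _ => le_refl _) hA hζ hr hb
  have hoW : ∀ z ∈ T.o B, z ∈ gw D r (T.fi {C}) (gp G {C}) ζ := fun z hz => hQW z (T.o_sub hAcn B hB hz)
  have hsub : gw D r (T.fi {B}) (gp G {B}) (rs (gp G {B}) ζ) ⊆ (gw D r (T.fi {C}) (gp G {C}) ζ).filter (fun z => z ∈ B) := by
    refine gw_least' ?_
    intro y hy hyW
    rw [rs_mem hy]
    have hyB := (TS.t10_mem_gp1.1 hy).2
    have hyC : y ∈ gp G {C} := TS.t10_mem_gp1.2 ⟨(TS.t10_mem_gp1.1 hy).1, hAC (hBA hyB)⟩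
    have hyW' : y ∉ gw D r (T.fi {C}) (gp G {C}) ζ := fun h => hyW (Finset.mem_filter.2 ⟨h, hyB⟩)
    have e1 := (gw_GCl (D := D) (r := r) (T.fi {C}) (gp G {C}) ζ).2 y hyC hyW'
    have e2 : T.fi {B} y = dg D y (T.o B) := T.fi_eq (T.fo_single hBcn) (Finset.mem_singleton_self B) hyB
    have e3 : dg D y (T.o B) + dg D y ((gw D r (T.fi {C}) (gp G {C}) ζ).filter (fun z => z ∈ B)) ≤
        dg D y (gw D r (T.fi {C}) (gp G {C}) ζ) := by
      refine TS.t5b_dg_add ?_ (fun x hx _ => hoW x hx) (fun x hx _ => (Finset.mem_filter.1 hx).1)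
      rw [Finset.disjoint_left]
      intro x hx hx'
      exact T.o_notMem hBcn hx (Finset.mem_filter.1 hx').2
    omega
  obtain ⟨z, hz, h1 | ⟨x, hxW, hxE, hxz⟩⟩ := h
  · have e2 : T.fi {B} z = dg D z (T.o B) := T.fi_eq (T.fo_single hBcn) (Finset.mem_singleton_self B) (hEB hz)
    rw [e2] at h1
    obtain ⟨x, hx, hxz⟩ := TS.t5b_dg_pos' h1
    exact ⟨z, hz, Or.inr ⟨x, hoW x hx, fun hxE => T.o_notMem hBcn hx (hEB hxE), hxz.symm⟩⟩
  · exact ⟨z, hz, Or.inr ⟨x, (Finset.mem_filter.1 (hsub hxW)).1, hxE, hxz⟩⟩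


/-- TARGET. RESAMPLING, probabilistic part: `h` does not depend on the configuration on `Q A ∪ B`. Fix the configuration off `Q A ∪ B`; the set of completions in `Rc (gp G {C})` with `E` reached has at most `r^m |Rc (gp G {B})|`
elements (heights on `Q A`; the restriction to `gp G {B}` is recurrent); if it is nonempty, it contains all completions `r` on `Q A`, `ξ ∈ Rc (gp G {B})` on `B` by `resample`, so at least `|{ξ : E2 ξ}|` completions with the event on the left. -/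
theorem TS.resample_pr (T : TS D r) {C : Set V} (hC : T.Cn C) {G : Finset V} {j k : ℕ} {A B B' E : Set V} (hA : A ∈ T.de {C} j) (hB : B ∈ T.ch A)
    (hB' : B' ∈ T.ch A) (hne : B' ≠ B) (hE : E ∈ T.de {B'} k) (hG : T.Q A ⊆ G) (h : (V → ℕ) → ℝ) (h0 : ∀ ζ, 0 ≤ h ζ)
    (hh : ∀ ζ ζ' : V → ℕ, (∀ z, z ∉ T.Q A → z ∉ B → ζ z = ζ' z) → h ζ = h ζ') (E2 : (V → ℕ) → Prop) :
    ((r : ℝ) ^ T.m)⁻¹ * pr D r (gp G {B}) E2 * ex D r (gp G {C}) (fun ζ => if T.rc C G ζ E then h ζ else 0) ≤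
      ex D r (gp G {C}) (fun ζ => if T.rc C G ζ E ∧ T.fb ζ A ∧ E2 (rs (gp G {B}) ζ) then h ζ else 0) := by
  have hF := T.fo_single hC
  have hAcn : T.Cn A := T.t5b_cn hF hA
  have hBcn : T.Cn B := T.ch_cn hAcn B hB
  have hAC : A ⊆ C := T.de_single_sub hC hA
  have hBA : B ⊆ A := T.ch_sub hAcn hB
  have hQG : ∀ z ∈ T.Q A, z ∈ gp G {C} := fun z hz => TS.t10_mem_gp1.2 ⟨hG hz, hAC (T.Q_sub hAcn hz)⟩
  have hBG : gp G {B} ⊆ gp G {C} := fun z hz =>
    TS.t10_mem_gp1.2 ⟨(TS.t10_mem_gp1.1 hz).1, hAC (hBA (TS.t10_mem_gp1.1 hz).2)⟩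
  have hN : (0 : ℝ) < (Rc D r (gp G {C})).card := by exact_mod_cast T.gd.card_pos _
  have hM : (0 : ℝ) < (Rc D r (gp G {B})).card := by exact_mod_cast T.gd.card_pos _
  have hr1 : 1 ≤ r := T.gd.one_le
  have hrm : (0 : ℝ) < (r : ℝ) ^ T.m := by
    have : (0 : ℝ) < r := by exact_mod_cast hr1
    positivity
  obtain ⟨X, hX⟩ : ∃ X : Finset (V → ℕ), X = (Rc D r (gp G {B})).filter E2 := ⟨_, rfl⟩
  obtain ⟨R1, hR1⟩ : ∃ R1 : Finset (V → ℕ), R1 = (Rc D r (gp G {C})).filter (fun ζ => T.rc C G ζ E) := ⟨_, rfl⟩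
  obtain ⟨R2, hR2⟩ : ∃ R2 : Finset (V → ℕ), R2 = (Rc D r (gp G {C})).filter
    (fun ζ => T.rc C G ζ E ∧ T.fb ζ A ∧ E2 (rs (gp G {B}) ζ)) := ⟨_, rfl⟩
  obtain ⟨Φ, hΦ⟩ : ∃ Φ : (V → ℕ) × (V → ℕ) → V → ℕ, Φ = fun p z => if z ∈ T.Q A then r else if z ∈ B then p.2 z else p.1 z := ⟨_, rfl⟩
  have vQ : ∀ p, ∀ z ∈ T.Q A, Φ p z = r := by
    intro p z hz; rw [hΦ]; simp only [hz, if_true]
  have vB : ∀ p, ∀ z ∈ B, Φ p z = p.2 z := by
    intro p z hz
    have hzQ : z ∉ T.Q A := fun h => T.Q_notMem hAcn B hB z h hz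
    rw [hΦ]; simp only [hz, hzQ, if_true, if_false]
  have vO : ∀ p, ∀ z, z ∉ T.Q A → z ∉ B → Φ p z = p.1 z := by
    intro p z h1 h2; rw [hΦ]; simp only [h1, h2, if_false]
  have mX : ∀ ξ, ξ ∈ X ↔ ξ ∈ Rc D r (gp G {B}) ∧ E2 ξ := by intro ξ; rw [hX, Finset.mem_filter]
  have mR1 : ∀ ζ, ζ ∈ R1 ↔ ζ ∈ Rc D r (gp G {C}) ∧ T.rc C G ζ E := by intro ζ; rw [hR1, Finset.mem_filter]
  have mR2 : ∀ ζ, ζ ∈ R2 ↔ ζ ∈ Rc D r (gp G {C}) ∧ T.rc C G ζ E ∧ T.fb ζ A ∧ E2 (rs (gp G {B}) ζ) := by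
    intro ζ; rw [hR2, Finset.mem_filter]
  have hmaps : ∀ p ∈ R1 ×ˢ X, Φ p ∈ R2 := by
    intro p hp
    rw [Finset.mem_product, mR1, mX] at hp
    obtain ⟨⟨hp1, hp2⟩, hp3, hp4⟩ := hp
    have hres := T.resample hC hA hB hB' hne hE hG hp1 hp2 hp3
    have hΦp : Φ p = fun z => if z ∈ T.Q A then r else if z ∈ B then p.2 z else p.1 z := by rw [hΦ]
    rw [← hΦp] at hres
    rw [mR2]
    refine ⟨hres.1, hres.2, vQ p, ?_⟩
    have e1 : rs (gp G {B}) (Φ p) = p.2 := by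
      funext z
      by_cases hz : z ∈ gp G {B}
      · rw [rs_mem hz]; exact vB p z (TS.t10_mem_gp1.1 hz).2
      · rw [rs_notMem hz, (mem_Rc.1 hp3).1.2 z hz]
    rw [e1]; exact hp4
  have hfib : ∀ ζ'' ∈ R2, (((R1 ×ˢ X).filter (fun p => Φ p = ζ'')).card : ℝ) ≤ (r : ℝ) ^ T.m * (Rc D r (gp G {B})).card := by
    intro ζ'' _
    have e1 : ((R1 ×ˢ X).filter (fun p => Φ p = ζ'')).card ≤
        ((Fintype.piFinset (fun _ : {z // z ∈ T.Q A} => Finset.Icc 1 r)) ×ˢ (Rc D r (gp G {B}))).card := by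
      refine Finset.card_le_card_of_injOn (fun p => ((fun z : {z // z ∈ T.Q A} => p.1 z.1), rs (gp G {B}) p.1)) ?_ ?_
      · intro p hp
        rw [Finset.mem_coe, Finset.mem_filter, Finset.mem_product, mR1, mX] at hp
        obtain ⟨⟨⟨hp1, hp2⟩, hp3, hp4⟩, hp5⟩ := hp
        rw [Finset.mem_coe, Finset.mem_product]
        refine ⟨?_, rs_mem_Rc hBG hp1⟩
        rw [Fintype.mem_piFinset]
        intro z
        rw [Finset.mem_Icc]
        exact (mem_Rc.1 hp1).1.1 z.1 (hQG z.1 z.2)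
      · intro p hp q hq hpq
        rw [Finset.mem_coe, Finset.mem_filter, Finset.mem_product, mR1, mX] at hp hq
        obtain ⟨⟨⟨hp1, hp2⟩, hp3, hp4⟩, hp5⟩ := hp
        obtain ⟨⟨⟨hq1, hq2⟩, hq3, hq4⟩, hq5⟩ := hq
        have hpq1 := (Prod.mk.inj hpq).1
        have hpq2 := (Prod.mk.inj hpq).2
        have hΦe : Φ p = Φ q := hp5.trans hq5.symm
        refine Prod.ext ?_ ?_
        · funext z
          by_cases hzQ : z ∈ T.Q A
          · exact congrFun hpq1 ⟨z, hzQ⟩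
          · by_cases hzB : z ∈ B
            · by_cases hzG : z ∈ gp G {B}
              · have := congrFun hpq2 z
                rwa [rs_mem hzG, rs_mem hzG] at this
              · have hzC : z ∉ gp G {C} := fun hz => hzG (TS.t10_mem_gp1.2 ⟨(TS.t10_mem_gp1.1 hz).1, hzB⟩)
                rw [(mem_Rc.1 hp1).1.2 z hzC, (mem_Rc.1 hq1).1.2 z hzC]
            · rw [← vO p z hzQ hzB, ← vO q z hzQ hzB, hΦe]
        · funext z
          by_cases hzB : z ∈ B
          · rw [← vB p z hzB, ← vB q z hzB, hΦe]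
          · have hzG : z ∉ gp G {B} := fun hz => hzB (TS.t10_mem_gp1.1 hz).2
            rw [(mem_Rc.1 hp3).1.2 z hzG, (mem_Rc.1 hq3).1.2 z hzG]
    have e2 : ((Fintype.piFinset (fun _ : {z // z ∈ T.Q A} => Finset.Icc 1 r)) ×ˢ (Rc D r (gp G {B}))).card ≤
        r ^ T.m * (Rc D r (gp G {B})).card := by
      rw [Finset.card_product, Fintype.card_piFinset]
      refine Nat.mul_le_mul_right _ ?_
      rw [Finset.prod_const, Nat.card_Icc, Finset.card_univ, Fintype.card_coe]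
      simp only [Nat.add_sub_cancel]
      exact Nat.pow_le_pow_right hr1 (T.Q_card hAcn)
    exact_mod_cast e1.trans e2
  have key : (X.card : ℝ) * ∑ ζ ∈ R1, h ζ ≤ ((r : ℝ) ^ T.m * (Rc D r (gp G {B})).card) * ∑ ζ ∈ R2, h ζ := by
    have e1 : ∑ p ∈ R1 ×ˢ X, h (Φ p) = (X.card : ℝ) * ∑ ζ ∈ R1, h ζ := by
      rw [Finset.sum_product, Finset.mul_sum]
      refine Finset.sum_congr rfl ?_
      intro ζ _
      have : ∀ ξ ∈ X, h (Φ (ζ, ξ)) = h ζ := by
        intro ξ _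
        exact hh _ _ (fun z h1 h2 => vO (ζ, ξ) z h1 h2)
      rw [Finset.sum_congr rfl this, Finset.sum_const, nsmul_eq_mul]
    rw [← e1, ← Finset.sum_fiberwise_of_maps_to hmaps, Finset.mul_sum]
    refine Finset.sum_le_sum ?_
    intro ζ'' hζ''
    have e2 : ∑ p ∈ (R1 ×ˢ X).filter (fun p => Φ p = ζ''), h (Φ p) = (((R1 ×ˢ X).filter (fun p => Φ p = ζ'')).card : ℝ) * h ζ'' := by
      rw [← nsmul_eq_mul, ← Finset.sum_const]
      refine Finset.sum_congr rfl ?_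
      intro p hp
      rw [(Finset.mem_filter.1 hp).2]
    rw [e2]
    exact mul_le_mul_of_nonneg_right (hfib ζ'' hζ'') (h0 ζ'')
  have e1 : ex D r (gp G {C}) (fun ζ => if T.rc C G ζ E then h ζ else 0) = (∑ ζ ∈ R1, h ζ) / (Rc D r (gp G {C})).card := by
    unfold ex
    rw [hR1, Finset.sum_filter]
  have e2 : ex D r (gp G {C}) (fun ζ => if T.rc C G ζ E ∧ T.fb ζ A ∧ E2 (rs (gp G {B}) ζ) then h ζ else 0) =
      (∑ ζ ∈ R2, h ζ) / (Rc D r (gp G {C})).card := by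
    unfold ex
    rw [hR2, Finset.sum_filter]
  have e3 : pr D r (gp G {B}) E2 = (X.card : ℝ) / (Rc D r (gp G {B})).card := by
    unfold pr
    rw [hX]
  rw [e1, e2, e3]
  have e4 : ((r : ℝ) ^ T.m)⁻¹ * ((X.card : ℝ) / (Rc D r (gp G {B})).card) * ((∑ ζ ∈ R1, h ζ) / (Rc D r (gp G {C})).card) =
      ((X.card : ℝ) * ∑ ζ ∈ R1, h ζ) / (((r : ℝ) ^ T.m * (Rc D r (gp G {B})).card) * (Rc D r (gp G {C})).card) := by
    field_simp
  rw [e4, div_le_div_iff₀ (by positivity) hN]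
  calc ((X.card : ℝ) * ∑ ζ ∈ R1, h ζ) * (Rc D r (gp G {C})).card
      ≤ (((r : ℝ) ^ T.m * (Rc D r (gp G {B})).card) * ∑ ζ ∈ R2, h ζ) * (Rc D r (gp G {C})).card :=
        mul_le_mul_of_nonneg_right key hN.le
    _ = (∑ ζ ∈ R2, h ζ) * (((r : ℝ) ^ T.m * (Rc D r (gp G {B})).card) * (Rc D r (gp G {C})).card) := by ring

omit [D.LocallyFinite] in
theorem t10_ex_mono {G : Finset V} {f g : (V → ℕ) → ℝ} (h : ∀ ζ ∈ Rc D r G, f ζ ≤ g ζ) : ex D r G f ≤ ex D r G g := by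
  unfold ex
  exact div_le_div_of_nonneg_right (Finset.sum_le_sum h) (Nat.cast_nonneg _)

omit [D.LocallyFinite] in
theorem t10_ex_congr {G : Finset V} {f g : (V → ℕ) → ℝ} (h : ∀ ζ ∈ Rc D r G, f ζ = g ζ) : ex D r G f = ex D r G g := by
  unfold ex
  rw [Finset.sum_congr rfl h]

omit [D.LocallyFinite] in
theorem t10_ex_lin {G : Finset V} (f g : (V → ℕ) → ℝ) (a b : ℝ) : ex D r G (fun ζ => a * f ζ + b * g ζ) = a * ex D r G f + b * ex D r G g := by
  unfold ex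
  rw [Finset.sum_add_distrib, ← Finset.mul_sum, ← Finset.mul_sum]
  ring

omit [D.LocallyFinite] in
theorem t10_ex_sum {ι : Type*} {G : Finset V} (s : Finset ι) (f : ι → (V → ℕ) → ℝ) :
    ex D r G (fun ζ => ∑ i ∈ s, f i ζ) = ∑ i ∈ s, ex D r G (f i) := by
  unfold ex
  rw [Finset.sum_comm, Finset.sum_div]

omit [D.LocallyFinite] in
theorem t10_pr_ex {G : Finset V} (P : (V → ℕ) → Prop) : pr D r G P = ex D r G (fun ζ => if P ζ then 1 else 0) := by
  unfold pr ex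
  rw [Finset.sum_boole]

omit [D.LocallyFinite] in
theorem t10_pr_nonneg {G : Finset V} (P : (V → ℕ) → Prop) : 0 ≤ pr D r G P := by
  unfold pr
  positivity

/-- the number of reached cones -/
theorem TS.t10_rn_eq (T : TS D r) {C : Set V} {G : Finset V} {L : ℕ} {ζ : V → ℕ} :
    T.rn {C} G L ζ = ((T.de {C} L).filter (fun A => T.rc C G ζ A)).card := by
  unfold TS.rn TS.fn
  congr 1
  refine Finset.filter_congr ?_
  intro A _
  unfold TS.mkd TS.nab TS.rc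
  constructor
  · rintro ⟨h, _⟩; exact h
  · intro h
    exact ⟨h, fun i B _ hS => absurd hS (by simp)⟩

/-- the spine of `E` -/
theorem TS.t10_path (T : TS D r) {C : Set V} (hC : T.Cn C) : ∀ (L : ℕ) (E : Set V), E ∈ T.de {C} L → ∃ A B : ℕ → Set V, A 0 = C ∧ A L = E ∧
    (∀ j < L, A (j + 1) ∈ T.ch (A j)) ∧ (∀ j < L, B j ∈ T.ch (A j)) ∧ ∀ j < L, A (j + 1) ≠ B j := by
  intro L
  induction L with
  | zero =>
    intro E hE
    rw [T.de_zero, Finset.mem_singleton] at hE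
    refine ⟨fun _ => C, fun _ => C, rfl, hE.symm, ?_, ?_, ?_⟩
    · intro j hj; omega
    · intro j hj; omega
    · intro j hj; omega
  | succ L ih =>
    intro E hE
    rw [T.de_succ, Finset.mem_biUnion] at hE
    obtain ⟨E', hE', hEE'⟩ := hE
    obtain ⟨A, B, h0, hL, h1, h2, h3⟩ := ih E' hE'
    have hcn : T.Cn E' := T.t5b_cn (T.fo_single hC) hE'
    obtain ⟨B', hB', hne⟩ : ∃ B' ∈ T.ch E', B' ≠ E := by
      by_contra hcon
      push Not at hcon
      have : (T.ch E').card ≤ 1 := by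
        rw [Finset.card_le_one]
        intro a ha b hb
        rw [hcon a ha, hcon b hb]
      have := T.two hcn
      omega
    refine ⟨fun j => if j ≤ L then A j else E, fun j => if j < L then B j else B', ?_, ?_, ?_, ?_, ?_⟩
    · simp only [Nat.zero_le, if_true]; exact h0
    · simp only [Nat.not_succ_le_self, if_false]
    · intro j hj
      rcases Nat.lt_succ_iff_lt_or_eq.1 hj with h | h
      · simp only [Nat.succ_le_of_lt h, h.le, if_true]; exact h1 j h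
      · subst h
        simp only [Nat.not_succ_le_self, le_refl, if_true, if_false, hL]; exact hEE'
    · intro j hj
      rcases Nat.lt_succ_iff_lt_or_eq.1 hj with h | h
      · simp only [h, h.le, if_true]; exact h2 j h
      · subst h
        simp only [lt_irrefl, le_refl, if_true, if_false, hL]; exact hB'
    · intro j hj
      rcases Nat.lt_succ_iff_lt_or_eq.1 hj with h | h
      · simp only [Nat.succ_le_of_lt h, h, if_true]; exact h3 j h
      · subst h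
        simp only [Nat.not_succ_le_self, lt_irrefl, if_false]; exact hne.symm

theorem TS.t10_path_de (T : TS D r) {L : ℕ} {A : ℕ → Set V} (h1 : ∀ j < L, A (j + 1) ∈ T.ch (A j)) (i : ℕ) :
    ∀ j, i + j ≤ L → A (i + j) ∈ T.de {A i} j := by
  intro j
  induction j with
  | zero => intro _; rw [T.de_zero]; exact Finset.mem_singleton_self _
  | succ j ih =>
    intro h
    rw [T.de_succ, Finset.mem_biUnion]
    exact ⟨A (i + j), ih (by omega), h1 (i + j) (by omega)⟩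

/-- the event that the piece at level `j` of the spine is full and its side branch survives -/
def TS.t10_S (T : TS D r) (G : Finset V) (L : ℕ) (A B : ℕ → Set V) (j : ℕ) (ζ : V → ℕ) : Prop :=
  T.fb ζ (A j) ∧ 1 ≤ T.rn {B j} G (L - j - 1) (rs (gp G {B j}) ζ)

/-- many side branches give many reached cones -/
theorem TS.t10_count (T : TS D r) {C : Set V} (hC : T.Cn C) {L : ℕ} {G : Finset V} {A B : ℕ → Set V} (h0 : A 0 = C)
    (h1 : ∀ j < L, A (j + 1) ∈ T.ch (A j)) (h2 : ∀ j < L, B j ∈ T.ch (A j)) (h3 : ∀ j < L, A (j + 1) ≠ B j)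
    {ζ : V → ℕ} (hζ : ζ ∈ Rc D r (gp G {C})) (hE : T.rc C G ζ (A L)) :
    ((range L).filter (fun j => T.t10_S G L A B j ζ)).card + 1 ≤ T.rn {C} G L ζ := by
  have hde : ∀ i j, i + j ≤ L → A (i + j) ∈ T.de {A i} j := fun i => T.t10_path_de h1 i
  have hdeC : ∀ j, j ≤ L → A j ∈ T.de {C} j := by
    intro j hj
    have := hde 0 j (by omega)
    rwa [h0, Nat.zero_add] at this
  have hcn : ∀ j, j ≤ L → T.Cn (A j) := fun j hj => T.t5b_cn (T.fo_single hC) (hdeC j hj)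
  have hsub : ∀ i j, i ≤ j → j ≤ L → A j ⊆ A i := by
    intro i j hij hj
    have := hde i (j - i) (by omega)
    rw [show i + (j - i) = j by omega] at this
    exact T.de_single_sub (hcn i (by omega)) this
  have hBcn : ∀ j, j < L → T.Cn (B j) := fun j hj => T.ch_cn (hcn j hj.le) _ (h2 j hj)
  have hr : ∀ j, j ≤ L → T.rc C G ζ (A j) := by
    intro j hj
    have := hde j (L - j) (by omega)
    rw [show j + (L - j) = L by omega] at this
    exact T.t10_rc_anc hC hζ (hdeC j hj) this hE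
  have hdisj : ∀ j, j < L → Disjoint (A (j + 1)) (B j) := fun j hj =>
    T.ch_disj (hcn j hj.le) _ (h1 j hj) _ (h2 j hj) (h3 j hj)
  have hex : ∀ j, j ∈ (range L).filter (fun j => T.t10_S G L A B j ζ) → ∃ E', E' ∈ T.de {C} L ∧ T.rc C G ζ E' ∧ E' ⊆ B j ∧ E'.Nonempty := by
    intro j hj
    rw [Finset.mem_filter, Finset.mem_range] at hj
    obtain ⟨hjL, hfb, hrn⟩ := hj
    rw [T.t10_rn_eq] at hrn
    obtain ⟨E', hE'⟩ := Finset.card_pos.1 (Nat.lt_of_lt_of_le Nat.zero_lt_one hrn)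
    rw [Finset.mem_filter] at hE'
    have hBde : B j ∈ T.de {C} (j + 1) := by
      rw [T.de_succ, Finset.mem_biUnion]
      exact ⟨A j, hdeC j hjL.le, h2 j hjL⟩
    have hE'de : E' ∈ T.de {C} (j + 1 + (L - j - 1)) := T.de_trans hBde hE'.1
    rw [show j + 1 + (L - j - 1) = L by omega] at hE'de
    exact ⟨E', hE'de, T.rc_below hC (hdeC j hjL.le) (h2 j hjL) hE'.1 hζ (hr j hjL.le) hfb hE'.2,
      T.de_single_sub (hBcn j hjL) hE'.1, T.cn_ne (T.t5b_cn (T.fo_single hC) hE'de)⟩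
  choose! e he using hex
  have hinj : Set.InjOn e ((range L).filter (fun j => T.t10_S G L A B j ζ) : Finset ℕ) := by
    have aux : ∀ i j, i ∈ (range L).filter (fun j => T.t10_S G L A B j ζ) → j ∈ (range L).filter (fun j => T.t10_S G L A B j ζ) →
        i < j → e i ≠ e j := by
      intro i j hi hj hij heq
      obtain ⟨z, hz⟩ := (he i hi).2.2.2
      have hjL := Finset.mem_range.1 (Finset.mem_filter.1 hj).1
      have hiL := Finset.mem_range.1 (Finset.mem_filter.1 hi).1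
      have hzi : z ∈ B i := (he i hi).2.2.1 hz
      have hzj : z ∈ B j := (he j hj).2.2.1 (heq ▸ hz)
      have hzA : z ∈ A j := T.ch_sub (hcn j hjL.le) (h2 j hjL) hzj
      exact Set.disjoint_left.1 (hdisj i hiL) (hsub (i + 1) j hij hjL.le hzA) hzi
    intro i hi j hj heq
    rcases lt_trichotomy i j with h | h | h
    · exact absurd heq (aux i j (Finset.mem_coe.1 hi) (Finset.mem_coe.1 hj) h)
    · exact h
    · exact absurd heq.symm (aux j i (Finset.mem_coe.1 hj) (Finset.mem_coe.1 hi) h)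
  have hnot : A L ∉ ((range L).filter (fun j => T.t10_S G L A B j ζ)).image e := by
    intro h
    rw [Finset.mem_image] at h
    obtain ⟨j, hj, hje⟩ := h
    obtain ⟨z, hz⟩ := (he j hj).2.2.2
    have hjL := Finset.mem_range.1 (Finset.mem_filter.1 hj).1
    have hzB : z ∈ B j := (he j hj).2.2.1 hz
    rw [hje] at hz
    exact Set.disjoint_left.1 (hdisj j hjL) (hsub (j + 1) L hjL (le_refl L) hz) hzB
  rw [T.t10_rn_eq, ← Finset.card_image_of_injOn hinj, ← Finset.card_insert_of_notMem hnot]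
  refine Finset.card_le_card ?_
  intro E' hE'
  rw [Finset.mem_insert, Finset.mem_image] at hE'
  rw [Finset.mem_filter]
  rcases hE' with h | ⟨j, hj, hje⟩
  · rw [h]; exact ⟨hdeC L (le_refl L), hE⟩
  · rw [← hje]; exact ⟨(he j hj).1, (he j hj).2.1⟩

/-- `1/(1+x) ≤ 1/(K+1) + 2^K 2^(-x)` -/
theorem t10_elem (K x : ℕ) : (1 : ℝ) / (x + 1) ≤ 1 / (K + 1) + 2 ^ K * (1 / 2) ^ x := by
  have hx : (0 : ℝ) < (x : ℝ) + 1 := by positivity
  have hK : (0 : ℝ) < (K : ℝ) + 1 := by positivity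
  by_cases h : K ≤ x
  · have h1 : (1 : ℝ) / (x + 1) ≤ 1 / (K + 1) := by
      refine one_div_le_one_div_of_le hK ?_
      have : (K : ℝ) ≤ x := by exact_mod_cast h
      linarith
    have h2 : (0 : ℝ) ≤ 2 ^ K * (1 / 2) ^ x := by positivity
    linarith
  · push Not at h
    have h1 : (1 : ℝ) / (x + 1) ≤ 1 := by
      rw [div_le_one hx]
      have : (0 : ℝ) ≤ x := Nat.cast_nonneg x
      linarith
    have h2 : (1 : ℝ) ≤ 2 ^ K * (1 / 2) ^ x := by
      have e1 : (2 : ℝ) ^ K = 2 ^ (K - x) * 2 ^ x := by rw [← pow_add]; congr 1; omega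
      rw [e1, mul_assoc, ← mul_pow]
      norm_num
      exact one_le_pow₀ (by norm_num)
    have h3 : (0 : ℝ) ≤ 1 / (K + 1) := by positivity
    linarith

/-- TARGET. THE SPINE ESTIMATE. Let `E ∈ de {C} L` with ancestors `A_j ∈ de {C} j`, `A_0 = C`, `A_L = E`, and let `B_j ∈ ch A_j`, `B_j ≠ A_{j+1}` for `j < L` (exists by `two`). Let `S_j` be the event: `fb ζ A_j` and the full wave
of `rs (gp G {B_j}) ζ` in `B_j` reaches generation `L - j - 1` (`1 ≤ rn {B_j} G (L-j-1)`). On `{E reached}`: all `A_j` are reached (`rch_parent`) and `rn {C} G L ζ ≥ 1 + #{j : S_j}` (`rc_below`; the sets below the `B_j` and `E` are disjoint).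
By `resample_pr` with `h = Π_{i<j} 2^{-1_{S_i}}` (which depends only on the configuration off `A_j`), `E[1_E Π_{i ≤ j} 2^{-1_{S_i}}] ≤ (1 - q_j/2) E[1_E Π_{i<j} 2^{-1_{S_i}}]`, `q_j = r^(-m) P(1 ≤ rn {B_j} G (L-j-1)) ≥ r^(-m) c/(L-j)` by
`exists_pz`. Since `1/(1+x) ≤ 1/(K+1) + 2^K 2^(-x)`, `E[1_E/N_L] ≤ P(E)(1/(K+1) + 2^K Π_j (1 - q_j/2))`. -/
theorem TS.spine (T : TS D r) : ∃ c : ℝ, 0 < c ∧ c ≤ 1 ∧ ∀ C, T.Cn C → ∀ (L : ℕ) (G : Finset V), T.up {C} L ⊆ G → ∀ E ∈ T.de {C} L, ∀ K : ℕ,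
    ex D r (gp G {C}) (fun ζ => if T.rc C G ζ E then (1 : ℝ) / (T.rn {C} G L ζ) else 0) ≤
      pr D r (gp G {C}) (fun ζ => T.rc C G ζ E) * (1 / (K + 1) + 2 ^ K * ∏ j ∈ range L, (1 - c / (j + 1))) := by
  obtain ⟨c0, hc0, hc1, hpz⟩ := T.exists_pz
  have hr1 : (1 : ℝ) ≤ r := by exact_mod_cast T.gd.one_le
  have hrm : (1 : ℝ) ≤ (r : ℝ) ^ T.m := one_le_pow₀ hr1
  have hrm0 : (0 : ℝ) < (r : ℝ) ^ T.m := by linarith
  have hinv : ((r : ℝ) ^ T.m)⁻¹ ≤ 1 := inv_le_one_of_one_le₀ hrm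
  have hinv0 : 0 < ((r : ℝ) ^ T.m)⁻¹ := inv_pos.2 hrm0
  refine ⟨1 / 2 * (((r : ℝ) ^ T.m)⁻¹ * c0), by positivity, ?_, ?_⟩
  · have : ((r : ℝ) ^ T.m)⁻¹ * c0 ≤ 1 * 1 := mul_le_mul hinv hc1 hc0.le zero_le_one
    linarith
  intro C hC L G hG E hEde K
  obtain ⟨c, hc⟩ : ∃ c : ℝ, c = 1 / 2 * (((r : ℝ) ^ T.m)⁻¹ * c0) := ⟨_, rfl⟩
  rw [← hc]
  have hcpos : 0 < c := by rw [hc]; positivity
  have hcle : c ≤ 1 := by
    have : ((r : ℝ) ^ T.m)⁻¹ * c0 ≤ 1 * 1 := mul_le_mul hinv hc1 hc0.le zero_le_one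
    rw [hc]; linarith
  obtain ⟨A, B, h0, hL, h1, h2, h3⟩ := T.t10_path hC L E hEde
  have hde : ∀ i j, i + j ≤ L → A (i + j) ∈ T.de {A i} j := fun i => T.t10_path_de h1 i
  have hdeC : ∀ j, j ≤ L → A j ∈ T.de {C} j := by
    intro j hj
    have := hde 0 j (by omega)
    rwa [h0, Nat.zero_add] at this
  have hcn : ∀ j, j ≤ L → T.Cn (A j) := fun j hj => T.t5b_cn (T.fo_single hC) (hdeC j hj)
  have hsub : ∀ i j, i ≤ j → j ≤ L → A j ⊆ A i := by
    intro i j hij hj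
    have := hde i (j - i) (by omega)
    rw [show i + (j - i) = j by omega] at this
    exact T.de_single_sub (hcn i (by omega)) this
  have hBcn : ∀ j, j < L → T.Cn (B j) := fun j hj => T.ch_cn (hcn j hj.le) _ (h2 j hj)
  have hdisj : ∀ j, j < L → Disjoint (A (j + 1)) (B j) := fun j hj =>
    T.ch_disj (hcn j hj.le) _ (h1 j hj) _ (h2 j hj) (h3 j hj)
  have hBde : ∀ j, j < L → B j ∈ T.de {C} (j + 1) := by
    intro j hj
    rw [T.de_succ, Finset.mem_biUnion]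
    exact ⟨A j, hdeC j hj.le, h2 j hj⟩
  obtain ⟨H, hH⟩ : ∃ H : ℕ → (V → ℕ) → ℝ, H = fun j ζ => ∏ i ∈ range j, (if T.t10_S G L A B i ζ then (1 / 2 : ℝ) else 1) := ⟨_, rfl⟩
  have hH0 : ∀ j ζ, 0 ≤ H j ζ := by
    intro j ζ
    rw [hH]
    refine Finset.prod_nonneg ?_
    intro i _
    split_ifs <;> norm_num
  have hHsucc : ∀ j ζ, H (j + 1) ζ = H j ζ * (if T.t10_S G L A B j ζ then (1 / 2 : ℝ) else 1) := by
    intro j ζ
    rw [hH]
    exact Finset.prod_range_succ _ _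
  have hHloc : ∀ j, j < L → ∀ ζ ζ' : V → ℕ, (∀ z, z ∉ T.Q (A j) → z ∉ B j → ζ z = ζ' z) → H j ζ = H j ζ' := by
    intro j hj ζ ζ' hzz
    have hoff : ∀ z, z ∉ A j → ζ z = ζ' z := by
      intro z hz
      exact hzz z (fun h => hz (T.Q_sub (hcn j hj.le) h)) (fun h => hz (T.ch_sub (hcn j hj.le) (h2 j hj) h))
    rw [hH]
    refine Finset.prod_congr rfl ?_
    intro i hi
    have hij : i < j := Finset.mem_range.1 hi
    have hiL : i < L := hij.trans hj
    have e1 : T.fb ζ (A i) ↔ T.fb ζ' (A i) := by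
      have : ∀ z ∈ T.Q (A i), ζ z = ζ' z := by
        intro z hz
        refine hoff z (fun hzA => ?_)
        exact T.Q_notMem (hcn i hiL.le) _ (h1 i hiL) z hz (hsub (i + 1) j hij hj.le hzA)
      unfold TS.fb
      constructor
      · intro h z hz; rw [← this z hz]; exact h z hz
      · intro h z hz; rw [this z hz]; exact h z hz
    have e2 : rs (gp G {B i}) ζ = rs (gp G {B i}) ζ' := by
      funext z
      by_cases hz : z ∈ gp G {B i}
      · rw [rs_mem hz, rs_mem hz]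
        refine hoff z (fun hzA => ?_)
        exact Set.disjoint_left.1 (hdisj i hiL) (hsub (i + 1) j hij hj.le hzA) (TS.t10_mem_gp1.1 hz).2
      · rw [rs_notMem hz, rs_notMem hz]
    have e3 : T.t10_S G L A B i ζ ↔ T.t10_S G L A B i ζ' := by
      unfold TS.t10_S
      rw [e1, e2]
    simp only [e3]
  have hstep : ∀ j, j < L → ex D r (gp G {C}) (fun ζ => if T.rc C G ζ E then H (j + 1) ζ else 0) ≤
      (1 - c / (((L - 1 - j : ℕ) : ℝ) + 1)) * ex D r (gp G {C}) (fun ζ => if T.rc C G ζ E then H j ζ else 0) := by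
    intro j hj
    have hEj : E ∈ T.de {A (j + 1)} (L - j - 1) := by
      have := hde (j + 1) (L - j - 1) (by omega)
      rwa [show j + 1 + (L - j - 1) = L by omega, hL] at this
    have hQG : T.Q (A j) ⊆ G := by
      refine Finset.Subset.trans ?_ hG
      intro z hz
      unfold TS.up
      rw [Finset.mem_biUnion]
      exact ⟨j, Finset.mem_range.2 hj, Finset.mem_biUnion.2 ⟨A j, hdeC j hj.le, hz⟩⟩
    have hupB : T.up {B j} (L - j - 1) ⊆ G := by
      refine Finset.Subset.trans ?_ hG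
      intro z hz
      unfold TS.up at hz ⊢
      rw [Finset.mem_biUnion] at hz ⊢
      obtain ⟨k, hk, hz⟩ := hz
      obtain ⟨A', hA', hz⟩ := Finset.mem_biUnion.1 hz
      have hk' := Finset.mem_range.1 hk
      exact ⟨j + 1 + k, Finset.mem_range.2 (by omega), Finset.mem_biUnion.2 ⟨A', T.de_trans (hBde j hj) hA', hz⟩⟩
    obtain ⟨E2, hE2⟩ : ∃ E2 : (V → ℕ) → Prop, E2 = fun ξ => 1 ≤ T.rn {B j} G (L - j - 1) ξ := ⟨_, rfl⟩
    have hp : c0 / (((L - j - 1 : ℕ) : ℝ) + 1) ≤ pr D r (gp G {B j}) E2 := by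
      rw [hE2]
      exact hpz (B j) (hBcn j hj) (L - j - 1) G hupB
    have hres := T.resample_pr hC (hdeC j hj.le) (h2 j hj) (h1 j hj) (h3 j hj) hEj hQG (H j) (hH0 j) (hHloc j hj) E2
    have hSE : ∀ ζ, T.t10_S G L A B j ζ ↔ (T.fb ζ (A j) ∧ E2 (rs (gp G {B j}) ζ)) := by
      intro ζ
      rw [hE2]
      exact Iff.rfl
    have hEe : ex D r (gp G {C}) (fun ζ => if T.rc C G ζ E then H (j + 1) ζ else 0) =
        1 * ex D r (gp G {C}) (fun ζ => if T.rc C G ζ E then H j ζ else 0) +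
        (-(1 / 2)) * ex D r (gp G {C}) (fun ζ => if T.rc C G ζ E ∧ T.fb ζ (A j) ∧ E2 (rs (gp G {B j}) ζ) then H j ζ else 0) := by
      rw [← t10_ex_lin]
      refine t10_ex_congr ?_
      intro ζ _
      rw [hHsucc]
      by_cases hr : T.rc C G ζ E
      · by_cases hS : T.t10_S G L A B j ζ
        · have hS' := (hSE ζ).1 hS
          simp only [hr, hS, hS'.1, hS'.2, true_and, if_true]
          ring
        · have hS' : ¬ (T.fb ζ (A j) ∧ E2 (rs (gp G {B j}) ζ)) := fun h => hS ((hSE ζ).2 h)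
          simp only [hr, hS, hS', true_and, if_true, if_false]
          ring
      · simp only [hr, false_and, if_false]
        ring
    have hEnn : 0 ≤ ex D r (gp G {C}) (fun ζ => if T.rc C G ζ E then H j ζ else 0) := by
      unfold ex
      refine div_nonneg (Finset.sum_nonneg ?_) (Nat.cast_nonneg _)
      intro ζ _
      split_ifs
      · exact hH0 j ζ
      · exact le_refl 0
    have hidx : (L - j - 1 : ℕ) = L - 1 - j := by omega
    have hlow : 2 * (c / (((L - 1 - j : ℕ) : ℝ) + 1)) * ex D r (gp G {C}) (fun ζ => if T.rc C G ζ E then H j ζ else 0) ≤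
        ex D r (gp G {C}) (fun ζ => if T.rc C G ζ E ∧ T.fb ζ (A j) ∧ E2 (rs (gp G {B j}) ζ) then H j ζ else 0) := by
      refine le_trans ?_ hres
      refine mul_le_mul_of_nonneg_right ?_ hEnn
      have e1 : 2 * (c / (((L - 1 - j : ℕ) : ℝ) + 1)) = ((r : ℝ) ^ T.m)⁻¹ * (c0 / (((L - j - 1 : ℕ) : ℝ) + 1)) := by
        rw [hc, hidx]; ring
      rw [e1]
      exact mul_le_mul_of_nonneg_left hp hinv0.le
    rw [hEe]
    linarith
  have hiter : ∀ j, j ≤ L → ex D r (gp G {C}) (fun ζ => if T.rc C G ζ E then H j ζ else 0) ≤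
      (∏ i ∈ range j, (1 - c / (((L - 1 - i : ℕ) : ℝ) + 1))) * pr D r (gp G {C}) (fun ζ => T.rc C G ζ E) := by
    intro j
    induction j with
    | zero =>
      intro _
      rw [Finset.prod_range_zero, one_mul, t10_pr_ex]
      refine t10_ex_mono ?_
      intro ζ _
      rw [hH]
      simp only [Finset.range_zero, Finset.prod_empty, le_refl]
    | succ j ih =>
      intro hj
      have ihj := ih (by omega)
      have hfac : 0 ≤ 1 - c / (((L - 1 - j : ℕ) : ℝ) + 1) := by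
        have : c / (((L - 1 - j : ℕ) : ℝ) + 1) ≤ 1 := by
          rw [div_le_one (by positivity)]
          have : (0 : ℝ) ≤ ((L - 1 - j : ℕ) : ℝ) := Nat.cast_nonneg _
          linarith
        linarith
      calc ex D r (gp G {C}) (fun ζ => if T.rc C G ζ E then H (j + 1) ζ else 0)
          ≤ (1 - c / (((L - 1 - j : ℕ) : ℝ) + 1)) * ex D r (gp G {C}) (fun ζ => if T.rc C G ζ E then H j ζ else 0) := hstep j (by omega)
        _ ≤ (1 - c / (((L - 1 - j : ℕ) : ℝ) + 1)) * ((∏ i ∈ range j, (1 - c / (((L - 1 - i : ℕ) : ℝ) + 1))) * pr D r (gp G {C}) (fun ζ => T.rc C G ζ E)) :=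
            mul_le_mul_of_nonneg_left ihj hfac
        _ = (∏ i ∈ range (j + 1), (1 - c / (((L - 1 - i : ℕ) : ℝ) + 1))) * pr D r (gp G {C}) (fun ζ => T.rc C G ζ E) := by
            rw [Finset.prod_range_succ]; ring
  have hprod : ∏ i ∈ range L, (1 - c / (((L - 1 - i : ℕ) : ℝ) + 1)) = ∏ j ∈ range L, (1 - c / ((j : ℝ) + 1)) :=
    Finset.prod_range_reflect (fun j => 1 - c / ((j : ℝ) + 1)) L
  have hfin := hiter L (le_refl L)
  rw [hprod] at hfin
  have hpw : ex D r (gp G {C}) (fun ζ => if T.rc C G ζ E then (1 : ℝ) / (T.rn {C} G L ζ) else 0) ≤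
      ex D r (gp G {C}) (fun ζ => (1 / ((K : ℝ) + 1)) * (if T.rc C G ζ E then 1 else 0) + 2 ^ K * (if T.rc C G ζ E then H L ζ else 0)) := by
    refine t10_ex_mono ?_
    intro ζ hζ
    by_cases hr : T.rc C G ζ E
    · simp only [hr, if_true, mul_one]
      have hcount := T.t10_count hC h0 h1 h2 h3 hζ (by rw [hL]; exact hr)
      have hHL : H L ζ = (1 / 2) ^ ((range L).filter (fun j => T.t10_S G L A B j ζ)).card := by
        rw [hH]
        show ∏ i ∈ range L, (if T.t10_S G L A B i ζ then (1 / 2 : ℝ) else 1) = _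
        rw [← Finset.prod_filter, Finset.prod_const]
      rw [hHL]
      refine le_trans ?_ (t10_elem K _)
      refine one_div_le_one_div_of_le (by positivity) ?_
      exact_mod_cast hcount
    · simp only [hr, if_false, mul_zero, add_zero, le_refl]
  refine hpw.trans ?_
  rw [t10_ex_lin, ← t10_pr_ex]
  have h2K : (0 : ℝ) ≤ 2 ^ K := by positivity
  have := mul_le_mul_of_nonneg_left hfin h2K
  linarith

theorem t10_prod_tendsto {c : ℝ} (hc : 0 < c) (hc1 : c ≤ 1) : Tendsto (fun L : ℕ => ∏ j ∈ range L, (1 - c / ((j : ℝ) + 1))) atTop (𝓝 0) := by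
  have h1 : Tendsto (fun L : ℕ => Real.exp (-(c * ∑ j ∈ range L, 1 / ((j : ℝ) + 1)))) atTop (𝓝 0) := by
    refine Real.tendsto_exp_neg_atTop_nhds_zero.comp ?_
    exact Real.tendsto_sum_range_one_div_nat_succ_atTop.const_mul_atTop hc
  have hfac : ∀ j : ℕ, 0 ≤ 1 - c / ((j : ℝ) + 1) := by
    intro j
    have : c / ((j : ℝ) + 1) ≤ 1 := by
      rw [div_le_one (by positivity)]
      have : (0 : ℝ) ≤ (j : ℝ) := Nat.cast_nonneg _
      linarith
    linarith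
  refine squeeze_zero (fun L => Finset.prod_nonneg (fun j _ => hfac j)) ?_ h1
  intro L
  rw [Finset.mul_sum, ← Finset.sum_neg_distrib, Real.exp_sum]
  refine Finset.prod_le_prod (fun j _ => hfac j) ?_
  intro j _
  have := Real.add_one_le_exp (-(c * (1 / ((j : ℝ) + 1))))
  have e : c / ((j : ℝ) + 1) = c * (1 / ((j : ℝ) + 1)) := by ring
  rw [e]
  linarith

/-- TARGET. tightness: `P(N_L ≥ 1) = Σ_{E ∈ de {C} L} E[1_{E reached}/N_L] ≤ C1 (1/(K+1) + 2^K Π (1 - c/(j+1)))`, and the product tends to `0` -/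
theorem TS.tight (T : TS D r) : ∀ ε > 0, ∃ L0 : ℕ, ∀ L, L0 ≤ L → ∀ C, T.Cn C → ∀ G : Finset V, T.up {C} L ⊆ G →
    pr D r (gp G {C}) (fun ζ => 1 ≤ T.rn {C} G L ζ) ≤ ε := by
  intro ε hε
  obtain ⟨c, hc, hc1, hsp⟩ := T.spine
  have hC1 : 0 < T.C1 := lt_of_lt_of_le one_pos T.one_le_C1
  obtain ⟨K, hK⟩ : ∃ K : ℕ, 1 / ((K : ℝ) + 1) < ε / (2 * T.C1) := exists_nat_one_div_lt (by positivity)
  have ht := (Metric.tendsto_atTop.1 (t10_prod_tendsto hc hc1)) (ε / (2 * T.C1 * 2 ^ K)) (by positivity)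
  obtain ⟨L0, hL0⟩ := ht
  refine ⟨L0, ?_⟩
  intro L hL C hC G hG
  have hprod : ∏ j ∈ range L, (1 - c / ((j : ℝ) + 1)) ≤ ε / (2 * T.C1 * 2 ^ K) := by
    have := hL0 L hL
    rw [Real.dist_eq, sub_zero] at this
    exact (le_abs_self _).trans this.le
  have hsum : pr D r (gp G {C}) (fun ζ => 1 ≤ T.rn {C} G L ζ) =
      ∑ E ∈ T.de {C} L, ex D r (gp G {C}) (fun ζ => if T.rc C G ζ E then (1 : ℝ) / (T.rn {C} G L ζ) else 0) := by
    rw [t10_pr_ex, ← t10_ex_sum]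
    refine t10_ex_congr ?_
    intro ζ _
    rw [← Finset.sum_filter, Finset.sum_const, nsmul_eq_mul, ← T.t10_rn_eq]
    by_cases h : 1 ≤ T.rn {C} G L ζ
    · simp only [h, if_true]
      have : (0 : ℝ) < (T.rn {C} G L ζ : ℝ) := by exact_mod_cast h
      field_simp
    · have h' : T.rn {C} G L ζ = 0 := by omega
      rw [h']; simp
  have hsumP : ∑ E ∈ T.de {C} L, pr D r (gp G {C}) (fun ζ => T.rc C G ζ E) ≤ T.C1 := by
    refine le_trans (le_of_eq ?_) (T.rn_le hC G L)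
    rw [Finset.sum_congr rfl (fun E _ => t10_pr_ex (D := D) (r := r) (G := gp G {C}) (fun ζ => T.rc C G ζ E)), ← t10_ex_sum]
    refine t10_ex_congr ?_
    intro ζ _
    rw [T.t10_rn_eq, Finset.sum_boole]
  have hfacnn : 0 ≤ 1 / ((K : ℝ) + 1) + 2 ^ K * ∏ j ∈ range L, (1 - c / ((j : ℝ) + 1)) := by
    have h1 : 0 ≤ ∏ j ∈ range L, (1 - c / ((j : ℝ) + 1)) := by
      refine Finset.prod_nonneg (fun j _ => ?_)
      have : c / ((j : ℝ) + 1) ≤ 1 := by
        rw [div_le_one (by positivity)]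
        have : (0 : ℝ) ≤ (j : ℝ) := Nat.cast_nonneg _
        linarith
      linarith
    positivity
  calc pr D r (gp G {C}) (fun ζ => 1 ≤ T.rn {C} G L ζ)
      = ∑ E ∈ T.de {C} L, ex D r (gp G {C}) (fun ζ => if T.rc C G ζ E then (1 : ℝ) / (T.rn {C} G L ζ) else 0) := hsum
    _ ≤ ∑ E ∈ T.de {C} L, pr D r (gp G {C}) (fun ζ => T.rc C G ζ E) * (1 / ((K : ℝ) + 1) + 2 ^ K * ∏ j ∈ range L, (1 - c / ((j : ℝ) + 1))) :=
        Finset.sum_le_sum (fun E hE => hsp C hC L G hG E hE K)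
    _ = (∑ E ∈ T.de {C} L, pr D r (gp G {C}) (fun ζ => T.rc C G ζ E)) * (1 / ((K : ℝ) + 1) + 2 ^ K * ∏ j ∈ range L, (1 - c / ((j : ℝ) + 1))) := by
        rw [Finset.sum_mul]
    _ ≤ T.C1 * (1 / ((K : ℝ) + 1) + 2 ^ K * ∏ j ∈ range L, (1 - c / ((j : ℝ) + 1))) := mul_le_mul_of_nonneg_right hsumP hfacnn
    _ ≤ T.C1 * (ε / (2 * T.C1) + 2 ^ K * (ε / (2 * T.C1 * 2 ^ K))) := by
        refine mul_le_mul_of_nonneg_left ?_ hC1.le
        exact add_le_add hK.le (mul_le_mul_of_nonneg_left hprod (by positivity))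
    _ = ε := by field_simp; ring

end Pool.Agent.Helper910.QT
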