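import Mathlib
import Pool.Agent.Helper910.T10

/-! Limits of local events (MP_4555f0_mp) -/

namespace Pool.Agent.Helper910.QT

open Classical Finset Filter Topology

variable {V : Type*} {D : SimpleGraph V} [D.LocallyFinite] {r : ℕ}

/-! ### auxiliary lemmas -/

section t11aux

omit [D.LocallyFinite]

theorem t11_pr_def {G : Finset V} {P : (V → ℕ) → Prop} [DecidablePred P] :
    pr D r G P = (((Rc D r G).filter P).card : ℝ) / (Rc D r G).card := by
  unfold pr
  congr!

theorem t11_pr_congr {G : Finset V} {P Q : (V → ℕ) → Prop} (h : ∀ ζ ∈ Rc D r G, P ζ ↔ Q ζ) :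
    pr D r G P = pr D r G Q := by
  unfold pr
  rw [Finset.filter_congr h]

theorem t11_pr_nonneg {G : Finset V} {P : (V → ℕ) → Prop} : 0 ≤ pr D r G P := by
  unfold pr; positivity

theorem t11_pr_le_one {G : Finset V} {P : (V → ℕ) → Prop} : pr D r G P ≤ 1 := by
  unfold pr
  refine div_le_one_of_le₀ ?_ (by positivity)
  exact_mod_cast Finset.card_le_card (Finset.filter_subset _ _)

theorem t11_pr_mono {G : Finset V} {P Q : (V → ℕ) → Prop} (h : ∀ ζ ∈ Rc D r G, P ζ → Q ζ) :
    pr D r G P ≤ pr D r G Q := by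
  unfold pr
  refine div_le_div_of_nonneg_right ?_ (by positivity)
  have h1 : (Rc D r G).filter P ⊆ (Rc D r G).filter Q := by
    intro ζ hζ
    rw [Finset.mem_filter] at hζ ⊢
    exact ⟨hζ.1, h ζ hζ.1 hζ.2⟩
  exact_mod_cast Finset.card_le_card h1

theorem t11_pr_or {G : Finset V} {P Q : (V → ℕ) → Prop} :
    pr D r G (fun ζ => P ζ ∨ Q ζ) ≤ pr D r G P + pr D r G Q := by
  rw [t11_pr_def, t11_pr_def, t11_pr_def, ← add_div]
  refine div_le_div_of_nonneg_right ?_ (by positivity)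
  have h1 : (Rc D r G).filter (fun ζ => P ζ ∨ Q ζ) ⊆ (Rc D r G).filter P ∪ (Rc D r G).filter Q := by
    intro ζ hζ
    rw [Finset.mem_union, Finset.mem_filter, Finset.mem_filter]
    rw [Finset.mem_filter] at hζ
    rcases hζ.2 with h | h
    · exact Or.inl ⟨hζ.1, h⟩
    · exact Or.inr ⟨hζ.1, h⟩
  exact_mod_cast (Finset.card_le_card h1).trans (Finset.card_union_le _ _)

theorem t11_pr_exists {ι : Type*} {G : Finset V} (F : Finset ι) (P : ι → (V → ℕ) → Prop) :
    pr D r G (fun ζ => ∃ i ∈ F, P i ζ) ≤ ∑ i ∈ F, pr D r G (P i) := by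
  induction F using Finset.induction_on with
  | empty =>
    rw [Finset.sum_empty]
    refine le_of_eq ?_
    have h1 : (Rc D r G).filter (fun ζ => ∃ i ∈ (∅ : Finset ι), P i ζ) = ∅ := by
      refine Finset.eq_empty_of_forall_notMem fun ζ hζ => ?_
      obtain ⟨i, hi, -⟩ := (Finset.mem_filter.1 hζ).2
      exact absurd hi (Finset.notMem_empty i)
    rw [t11_pr_def, h1, Finset.card_empty, Nat.cast_zero, zero_div]
  | insert a F ha ih =>
    rw [Finset.sum_insert ha]
    refine le_trans (t11_pr_mono (Q := fun ζ => P a ζ ∨ ∃ i ∈ F, P i ζ) ?_) ?_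
    · rintro ζ _ ⟨i, hi, hp⟩
      rcases Finset.mem_insert.1 hi with rfl | hi
      · exact Or.inl hp
      · exact Or.inr ⟨i, hi, hp⟩
    · exact t11_pr_or.trans (by gcongr)

theorem t11_ex_ind {G : Finset V} {P : (V → ℕ) → Prop} :
    ex D r G (fun ζ => if P ζ then (1 : ℝ) else 0) = pr D r G P := by
  unfold ex pr
  rw [Finset.sum_boole]

theorem t11_ex_congr {G : Finset V} {f g : (V → ℕ) → ℝ} (h : ∀ ζ ∈ Rc D r G, f ζ = g ζ) :
    ex D r G f = ex D r G g := by
  unfold ex
  rw [Finset.sum_congr rfl h]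

theorem t11_ub_adm (w g : V → ℕ) (G : Finset V) (ξ : V → ℕ) :
    ub D w g G ξ ⊆ G ∧ ∀ y ∈ ub D w g G ξ, ξ y ≤ w y + g y + dg D y (ub D w g G ξ) := by
  unfold ub
  refine ⟨?_, ?_⟩
  · refine Finset.sup_le fun U hU => ?_
    exact Finset.mem_powerset.1 (Finset.mem_filter.1 hU).1
  · intro y hy
    rw [Finset.mem_sup] at hy
    obtain ⟨U, hU, hy⟩ := hy
    have h1 := (Finset.mem_filter.1 hU).2 y hy
    have h2 : U ⊆ (G.powerset.filter (fun U => ∀ y ∈ U, ξ y ≤ w y + g y + dg D y U)).sup id :=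
      Finset.le_sup (f := id) hU
    have h3 := dg_mono (D := D) (v := y) h2
    omega

theorem t11_ub_max {w g : V → ℕ} {G : Finset V} {ξ : V → ℕ} {U : Finset V} (hU : U ⊆ G)
    (h : ∀ y ∈ U, ξ y ≤ w y + g y + dg D y U) : U ⊆ ub D w g G ξ := by
  unfold ub
  exact Finset.le_sup (f := id) (Finset.mem_filter.2 ⟨Finset.mem_powerset.2 hU, h⟩)

theorem t11_dg_irrefl {v : V} {S : Finset V} : dg D v (insert v S) = dg D v S := by
  unfold dg
  rw [Finset.filter_insert, if_neg (SimpleGraph.irrefl D)]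

theorem t11_rs_rs {A B : Finset V} (h : A ⊆ B) (ζ : V → ℕ) : rs A (rs B ζ) = rs A ζ := by
  funext z
  by_cases hz : z ∈ A
  · rw [rs_mem hz, rs_mem hz, rs_mem (h hz)]
  · rw [rs_notMem hz, rs_notMem hz]

end t11aux

/-- nice regions: finite set plus forest, with arbitrarily large finite part -/
def TS.Nc (T : TS D r) (P : Set V) : Prop := ∀ B : Finset V, ∃ (Q0 : Finset V) (F : Finset (Set V)), T.Fo F ∧
  (∀ z, z ∈ P ↔ z ∈ Q0 ∨ z ∈ fs F) ∧ (∀ z ∈ Q0, z ∉ fs F) ∧ ∀ z ∈ B, z ∈ P → z ∈ Q0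

/-- TARGET. (`TS.fill`) -/
theorem TS.nc_univ (T : TS D r) : T.Nc Set.univ := by
  intro B
  obtain ⟨Q0, F, h1, -, h3, h4, h5, h6, h7⟩ := T.fill B
  refine ⟨Q0, F, ⟨h3, h4, ?_⟩, ?_, ?_, ?_⟩
  · intro C hC C' hC' x hx
    exact h6 C' hC' x (h5 C hC hx)
  · intro z
    refine ⟨fun _ => h7 z, fun _ => Set.mem_univ _⟩
  · rintro z hz ⟨C, hC, hzC⟩
    exact h6 C hC z hz hzC
  · intro z hz _
    exact h1 hz

/-- TARGET. (`exists_gen`, `mem_fs_iff`, `up_disj`) -/
theorem TS.nc_fs (T : TS D r) {F : Finset (Set V)} (hF : T.Fo F) : T.Nc (fs F) := by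
  intro B
  obtain ⟨i, hi⟩ := T.exists_gen hF B
  refine ⟨T.up F i, T.de F i, Fo.de T hF i, fun z => T.mem_fs_iff hF i z, fun z hz => T.up_disj hF hz, ?_⟩
  intro z hz hzF
  rcases (T.mem_fs_iff hF i z).1 hzF with h | h
  · exact h
  · exact absurd h (hi z hz)

/-! ### the unburnt set -/

/-- the finite set reached by burning from outside when `Q` never burns -/
noncomputable def un (D : SimpleGraph V) (Q H : Finset V) (ζ : V → ℕ) : Finset V := ub D 0 (dgi D Q) (H \ Q) (rs (H \ Q) ζ)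

/-- gluing two functions -/
noncomputable def t11_gl (K : Finset V) (ξ η : V → ℕ) : V → ℕ := fun z => if z ∈ K then ξ z else η z

omit [D.LocallyFinite] in
theorem t11_un_adm (Q H : Finset V) (ζ : V → ℕ) :
    un D Q H ζ ⊆ H \ Q ∧ ∀ y ∈ un D Q H ζ, ζ y ≤ dg D y (Q ∪ un D Q H ζ) := by
  have h : un D Q H ζ ⊆ H \ Q ∧ ∀ y ∈ un D Q H ζ, rs (H \ Q) ζ y ≤
      (0 : V → ℕ) y + dgi D Q y + dg D y (un D Q H ζ) :=
    t11_ub_adm (D := D) 0 (dgi D Q) (H \ Q) (rs (H \ Q) ζ)
  refine ⟨h.1, fun y hy => ?_⟩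
  have h1 := h.2 y hy
  rw [rs_mem (h.1 hy)] at h1
  rw [dg_union (Finset.disjoint_of_subset_right h.1 Finset.disjoint_sdiff)]
  simp only [Pi.zero_apply, zero_add] at h1
  exact h1

omit [D.LocallyFinite] in
theorem t11_un_max {Q H U : Finset V} {ζ : V → ℕ} (hU : U ⊆ H \ Q)
    (h : ∀ y ∈ U, ζ y ≤ dg D y (Q ∪ U)) : U ⊆ un D Q H ζ := by
  refine t11_ub_max hU fun y hy => ?_
  rw [rs_mem (hU hy)]
  have h1 := h y hy
  rw [dg_union (Finset.disjoint_of_subset_right hU Finset.disjoint_sdiff)] at h1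
  simp only [Pi.zero_apply, zero_add]
  exact h1

/-- TARGET. Decomposition according to the unburnt set. -/
theorem card_un {Q H U : Finset V} (hQ : Q ⊆ H) (hU : U ⊆ H \ Q) (E : (V → ℕ) → Prop) :
    ((Rc D r H).filter (fun ζ => un D Q H ζ = U ∧ E (rs Q ζ))).card =
      ((Rc D r (Q ∪ U)).filter (fun ξ => (∀ y ∈ U, ξ y ≤ dg D y (Q ∪ U)) ∧ E (rs Q ξ))).card *
        (RcW D r (dgi D (Q ∪ U)) (H \ (Q ∪ U))).card := by
  have hUH : U ⊆ H := hU.trans Finset.sdiff_subset
  have hKH : Q ∪ U ⊆ H := Finset.union_subset hQ hUH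
  have hQU : Disjoint Q U := Finset.disjoint_of_subset_right hU Finset.disjoint_sdiff
  rw [← Finset.card_product]
  refine Finset.card_bij' (fun ζ _ => (rs (Q ∪ U) ζ, rs (H \ (Q ∪ U)) ζ))
    (fun p _ => t11_gl (Q ∪ U) p.1 p.2) ?_ ?_ ?_ ?_
  · intro ζ hζ
    rw [Finset.mem_filter] at hζ
    obtain ⟨hζ, hun, hE⟩ := hζ
    have hun' := t11_un_adm (D := D) Q H ζ
    rw [hun] at hun'
    rw [Finset.mem_product, Finset.mem_filter]
    refine ⟨⟨rs_mem_Rc hKH hζ, fun y hy => ?_, ?_⟩, ?_⟩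
    · change rs (Q ∪ U) ζ y ≤ _
      rw [rs_mem (Finset.mem_union_right _ hy)]
      exact hun'.2 y hy
    · change E (rs Q (rs (Q ∪ U) ζ))
      rw [t11_rs_rs Finset.subset_union_left]
      exact hE
    · change rs (H \ (Q ∪ U)) ζ ∈ _
      rw [mem_Rc] at hζ
      rw [mem_RcW]
      refine ⟨rs_config Finset.sdiff_subset hζ.1, ?_⟩
      intro X hX hne
      by_contra hcon
      push Not at hcon
      have hXd : Disjoint (Q ∪ U) X := Finset.disjoint_of_subset_right hX Finset.disjoint_sdiff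
      have h1 : U ∪ X ⊆ un D Q H ζ := by
        refine t11_un_max ?_ ?_
        · refine Finset.union_subset hU fun z hz => ?_
          have := hX hz
          rw [Finset.mem_sdiff, Finset.mem_union, not_or] at this
          exact Finset.mem_sdiff.2 ⟨this.1, this.2.1⟩
        · intro y hy
          rcases Finset.mem_union.1 hy with hy | hy
          · refine (hun'.2 y hy).trans (dg_mono ?_)
            rw [← Finset.union_assoc]
            exact Finset.subset_union_left
          · have h2 := hcon y hy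
            rw [rs_mem (hX hy)] at h2
            rw [← Finset.union_assoc, dg_union hXd, add_comm]
            exact h2
      rw [hun] at h1
      obtain ⟨x, hx⟩ := hne
      have h2 := h1 (Finset.mem_union_right _ hx)
      exact (Finset.mem_sdiff.1 (hX hx)).2 (Finset.mem_union_right _ h2)
  · intro p hp
    rw [Finset.mem_product, Finset.mem_filter] at hp
    obtain ⟨⟨h1, h2, h3⟩, h4⟩ := hp
    rw [mem_Rc] at h1
    rw [mem_RcW] at h4
    have hgK : ∀ z ∈ Q ∪ U, t11_gl (Q ∪ U) p.1 p.2 z = p.1 z := fun z hz => if_pos hz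
    have hgK' : ∀ z, z ∉ Q ∪ U → t11_gl (Q ∪ U) p.1 p.2 z = p.2 z := fun z hz => if_neg hz
    rw [Finset.mem_filter]
    refine ⟨?_, ?_, ?_⟩
    · rw [mem_Rc]
      refine ⟨⟨fun z hz => ?_, fun z hz => ?_⟩, ?_⟩
      · by_cases hzK : z ∈ Q ∪ U
        · rw [hgK z hzK]; exact h1.1.1 z hzK
        · rw [hgK' z hzK]; exact h4.1.1 z (Finset.mem_sdiff.2 ⟨hz, hzK⟩)
      · have hzK : z ∉ Q ∪ U := fun h => hz (hKH h)
        rw [hgK' z hzK]
        exact h4.1.2 z (fun h => hz (Finset.mem_sdiff.1 h).1)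
      · intro X hX hne
        by_cases hXK : X ⊆ Q ∪ U
        · obtain ⟨z, hz, hlt⟩ := h1.2 X hXK hne
          exact ⟨z, hz, by rw [hgK z (hXK hz)]; exact hlt⟩
        · obtain ⟨z, hz, hlt⟩ := h4.2 (X \ (Q ∪ U)) (Finset.sdiff_subset_sdiff hX (Finset.Subset.refl _))
            (Finset.sdiff_nonempty.2 hXK)
          have hz' := Finset.mem_sdiff.1 hz
          refine ⟨z, hz'.1, ?_⟩
          rw [hgK' z hz'.2]
          have h5 : dg D z X ≤ dg D z (X \ (Q ∪ U)) + dg D z (Q ∪ U) := by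
            rw [← dg_union Finset.sdiff_disjoint]
            refine dg_mono ?_
            rw [Finset.sdiff_union_self_eq_union]
            exact Finset.subset_union_left
          simp only [dgi] at hlt
          simp only [Pi.zero_apply, add_zero]
          omega
    · refine Finset.Subset.antisymm ?_ ?_
      · by_contra hcon
        have hun' := t11_un_adm (D := D) Q H (t11_gl (Q ∪ U) p.1 p.2)
        have hX : un D Q H (t11_gl (Q ∪ U) p.1 p.2) \ U ⊆ H \ (Q ∪ U) := by
          intro z hz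
          rw [Finset.mem_sdiff] at hz
          have h5 := Finset.mem_sdiff.1 (hun'.1 hz.1)
          rw [Finset.mem_sdiff, Finset.mem_union, not_or]
          exact ⟨h5.1, h5.2, hz.2⟩
        obtain ⟨z, hz, hlt⟩ := h4.2 _ hX (Finset.sdiff_nonempty.2 hcon)
        have hz' := Finset.mem_sdiff.1 hz
        have h6 := hun'.2 z hz'.1
        rw [hgK' z (Finset.mem_sdiff.1 (hX hz)).2] at h6
        simp only [dgi] at hlt
        have h7 : dg D z (Q ∪ un D Q H (t11_gl (Q ∪ U) p.1 p.2)) ≤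
            dg D z (un D Q H (t11_gl (Q ∪ U) p.1 p.2) \ U) + dg D z (Q ∪ U) := by
          rw [← dg_union]
          · refine dg_mono ?_
            intro y hy
            simp only [Finset.mem_union, Finset.mem_sdiff] at hy ⊢
            tauto
          · exact Finset.disjoint_of_subset_left hX Finset.sdiff_disjoint
        omega
      · refine t11_un_max hU fun y hy => ?_
        rw [hgK y (Finset.mem_union_right _ hy)]
        exact h2 y hy
    · have h5 : rs Q (t11_gl (Q ∪ U) p.1 p.2) = rs Q p.1 := by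
        funext z
        by_cases hz : z ∈ Q
        · rw [rs_mem hz, rs_mem hz, hgK z (Finset.mem_union_left _ hz)]
        · rw [rs_notMem hz, rs_notMem hz]
      rw [h5]; exact h3
  · intro ζ hζ
    rw [Finset.mem_filter, mem_Rc] at hζ
    funext z
    by_cases hz : z ∈ Q ∪ U
    · change (if z ∈ Q ∪ U then rs (Q ∪ U) ζ z else _) = ζ z
      rw [if_pos hz, rs_mem hz]
    · change (if z ∈ Q ∪ U then _ else rs (H \ (Q ∪ U)) ζ z) = ζ z
      rw [if_neg hz]
      by_cases hzH : z ∈ H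
      · rw [rs_mem (Finset.mem_sdiff.2 ⟨hzH, hz⟩)]
      · rw [rs_notMem (fun h => hzH (Finset.mem_sdiff.1 h).1), hζ.1.1.2 z hzH]
  · intro p hp
    rw [Finset.mem_product, Finset.mem_filter, mem_Rc, mem_RcW] at hp
    refine Prod.ext ?_ ?_
    · funext z
      by_cases hz : z ∈ Q ∪ U
      · change rs (Q ∪ U) (t11_gl (Q ∪ U) p.1 p.2) z = p.1 z
        rw [rs_mem hz]; exact if_pos hz
      · change rs (Q ∪ U) (t11_gl (Q ∪ U) p.1 p.2) z = p.1 z
        rw [rs_notMem hz, hp.1.1.1.2 z hz]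
    · funext z
      by_cases hz : z ∈ H \ (Q ∪ U)
      · change rs (H \ (Q ∪ U)) (t11_gl (Q ∪ U) p.1 p.2) z = p.2 z
        rw [rs_mem hz]; exact if_neg (Finset.mem_sdiff.1 hz).2
      · change rs (H \ (Q ∪ U)) (t11_gl (Q ∪ U) p.1 p.2) z = p.2 z
        rw [rs_notMem hz, hp.2.1.2 z hz]

omit [D.LocallyFinite] in
theorem t11_erase_mem {H : Finset V} {k : V} (hk : k ∈ H) {ζ : V → ℕ} :
    ζ ∈ Rc D r H ↔ rs (H.erase k) ζ ∈ Rc D r (H.erase k) ∧
      dg D k (ub D 0 (dgi D {k}) (H.erase k) (rs (H.erase k) ζ)) < ζ k ∧ ζ k ≤ r ∧ ∀ z, z ∉ H → ζ z = 0 := by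
  set U := ub D 0 (dgi D {k}) (H.erase k) (rs (H.erase k) ζ) with hU
  have hadm := t11_ub_adm (D := D) 0 (dgi D {k}) (H.erase k) (rs (H.erase k) ζ)
  rw [← hU] at hadm
  have hkU : k ∉ U := fun h => Finset.notMem_erase k H (hadm.1 h)
  constructor
  · intro hζ
    have hζ' := mem_Rc.1 hζ
    refine ⟨rs_mem_Rc (Finset.erase_subset k H) hζ, ?_, (hζ'.1.1 k hk).2, hζ'.1.2⟩
    by_contra hcon
    push Not at hcon
    obtain ⟨z, hz, hlt⟩ := hζ'.2 (insert k U)
      (Finset.insert_subset hk (hadm.1.trans (Finset.erase_subset k H))) (Finset.insert_nonempty k U)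
    simp only [Pi.zero_apply, add_zero] at hlt
    rcases Finset.mem_insert.1 hz with rfl | hz
    · rw [t11_dg_irrefl] at hlt
      omega
    · have h1 := hadm.2 z hz
      rw [rs_mem (hadm.1 hz)] at h1
      rw [Finset.insert_eq, dg_union (Finset.disjoint_singleton_left.2 hkU)] at hlt
      simp only [Pi.zero_apply, zero_add, dgi] at h1
      omega
  · rintro ⟨h1, h2, h3, h4⟩
    rw [mem_Rc] at h1 ⊢
    refine ⟨⟨fun z hz => ?_, h4⟩, ?_⟩
    · by_cases hzk : z = k
      · subst hzk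
        exact ⟨by omega, h3⟩
      · have hz' := Finset.mem_erase.2 ⟨hzk, hz⟩
        have := h1.1.1 z hz'
        rwa [rs_mem hz'] at this
    · intro X hX hne
      by_contra hcon
      push Not at hcon
      simp only [Pi.zero_apply, add_zero] at hcon
      by_cases hkX : k ∈ X
      · have hX' : X.erase k ⊆ U := by
          rw [hU]
          refine t11_ub_max (Finset.erase_subset_erase k hX) fun y hy => ?_
          rw [rs_mem (Finset.erase_subset_erase k hX hy)]
          have h5 := hcon y (Finset.mem_of_mem_erase hy)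
          have h6 : dg D y X = dg D y {k} + dg D y (X.erase k) := by
            rw [← dg_union (Finset.disjoint_singleton_left.2 (Finset.notMem_erase k X)), ← Finset.insert_eq,
              Finset.insert_erase hkX]
          simp only [Pi.zero_apply, zero_add, dgi]
          omega
        have h5 := hcon k hkX
        have h6 : dg D k X = dg D k (X.erase k) := by
          conv_lhs => rw [← Finset.insert_erase hkX, t11_dg_irrefl]
        have h7 := dg_mono (D := D) (v := k) hX'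
        omega
      · have hX' : X ⊆ H.erase k := fun z hz => Finset.mem_erase.2 ⟨fun h => hkX (h ▸ hz), hX hz⟩
        obtain ⟨z, hz, hlt⟩ := h1.2 X hX' hne
        rw [rs_mem (hX' hz)] at hlt
        have h5 := hcon z hz
        simp only [Pi.zero_apply, add_zero] at hlt
        omega

omit [D.LocallyFinite] in
theorem t11_card_erase_sum {H : Finset V} {k : V} (hk : k ∈ H) :
    (Rc D r H).card = ∑ ξ ∈ Rc D r (H.erase k), (r - dg D k (ub D 0 (dgi D {k}) (H.erase k) ξ)) := by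
  rw [Finset.card_eq_sum_card_fiberwise (f := rs (H.erase k)) (t := Rc D r (H.erase k))
    (fun ζ hζ => rs_mem_Rc (Finset.erase_subset k H) hζ)]
  refine Finset.sum_congr rfl fun ξ hξ => ?_
  rw [← Nat.card_Ioc]
  have hξ' := mem_Rc.1 hξ
  have hupd : ∀ h, rs (H.erase k) (Function.update ξ k h) = ξ := by
    intro h
    funext z
    by_cases hz : z ∈ H.erase k
    · rw [rs_mem hz, Function.update_of_ne (Finset.ne_of_mem_erase hz)]
    · rw [rs_notMem hz, hξ'.1.2 z hz]
  refine Finset.card_bij' (fun ζ _ => ζ k) (fun h _ => Function.update ξ k h) ?_ ?_ ?_ ?_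
  · intro ζ hζ
    rw [Finset.mem_filter] at hζ
    obtain ⟨hζ, rfl⟩ := hζ
    have h1 := (t11_erase_mem hk).1 hζ
    exact Finset.mem_Ioc.2 ⟨h1.2.1, h1.2.2.1⟩
  · intro h hh
    rw [Finset.mem_Ioc] at hh
    rw [Finset.mem_filter]
    refine ⟨?_, hupd h⟩
    rw [t11_erase_mem hk, hupd h, Function.update_self]
    refine ⟨hξ, hh.1, hh.2, fun z hz => ?_⟩
    have hzk : z ≠ k := fun h => hz (h ▸ hk)
    rw [Function.update_of_ne hzk]
    exact hξ'.1.2 z (fun h => hz (Finset.mem_of_mem_erase h))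
  · intro ζ hζ
    rw [Finset.mem_filter] at hζ
    obtain ⟨hζ, rfl⟩ := hζ
    funext z
    by_cases hzk : z = k
    · subst hzk; exact Function.update_self _ _ _
    · change Function.update (rs (H.erase k) ζ) k (ζ k) z = ζ z
      rw [Function.update_of_ne hzk]
      by_cases hz : z ∈ H
      · rw [rs_mem (Finset.mem_erase.2 ⟨hzk, hz⟩)]
      · rw [rs_notMem (fun h => hz (Finset.mem_of_mem_erase h)), (mem_Rc.1 hζ).1.2 z hz]
  · intro h _
    exact Function.update_self _ _ _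

theorem t11_dg_nbr (H0 : Gd D r) (k : V) (U : Finset V) :
    ((r - dg D k U : ℕ) : ℝ) = ∑ y ∈ D.neighborFinset k, (1 - if y ∈ U then (1 : ℝ) else 0) := by
  rw [Nat.cast_sub (H0.degLe k U), Finset.sum_sub_distrib, Finset.sum_boole, Finset.sum_const,
    D.card_neighborFinset_eq_degree, H0.reg.degree_eq k, nsmul_eq_mul, mul_one]
  congr 2
  unfold dg
  congr 1
  ext y
  rw [Finset.mem_filter, Finset.mem_filter, SimpleGraph.mem_neighborFinset, and_comm]

/-- TARGET. removing one vertex: for `ζ' ∈ Rc (H \ {k})` the admissible heights at `k` are those `> dg k (un)`, `un = ub 0 (dgi {k}) (H \ {k}) ζ'`; by `sum_ub` -/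
theorem card_erase (H0 : Gd D r) {H : Finset V} {k : V} (hk : k ∈ H) :
    ((Rc D r H).card : ℝ) = (Rc D r (H.erase k)).card * ∑ y ∈ D.neighborFinset k, (1 - hu D r {k} (H.erase k) y) := by
  have hadm : Adm D r 0 (dgi D {k}) (H.erase k) :=
    adm_dgi H0 (Finset.disjoint_singleton_left.2 (Finset.notMem_erase k H))
  rw [t11_card_erase_sum hk, Nat.cast_sum]
  rw [Finset.sum_congr rfl fun ξ _ => t11_dg_nbr H0 k _, Finset.sum_comm, Finset.mul_sum]
  refine Finset.sum_congr rfl fun y hy => ?_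
  have hyk : y ∉ ({k} : Finset V) := by
    rw [Finset.mem_singleton]
    rintro rfl
    exact D.irrefl ((SimpleGraph.mem_neighborFinset _ _ _).1 hy)
  rw [hu_eq hyk, t11_pr_def, Finset.sum_sub_distrib, Finset.sum_const, nsmul_eq_mul, mul_one]
  have h1 := sum_ub hadm (fun W => if y ∈ W then (1 : ℝ) else 0)
  have h2 : ∑ ξ ∈ Rc D r (H.erase k), (if y ∈ ub D 0 (dgi D {k}) (H.erase k) ξ then (1 : ℝ) else 0) =
      ∑ ζ ∈ Rc D r (H.erase k), (if y ∈ gw D r (dgi D {k}) (H.erase k) ζ then (1 : ℝ) else 0) := h1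
  rw [h2, Finset.sum_boole]
  have h3 : ((Rc D r (H.erase k)).card : ℝ) ≠ 0 := by
    exact_mod_cast (H0.card_pos (H.erase k)).ne'
  field_simp

/-- TARGET. hence (`exists_g2`) -/
theorem TS.exists_er (T : TS D r) : ∃ c : ℝ, 0 < c ∧ c ≤ 1 ∧ ∀ Q H : Finset V, c ^ Q.card * (Rc D r (H \ Q)).card ≤ (Rc D r H).card := by
  obtain ⟨g, hg0, hg⟩ := T.exists_g2
  refine ⟨min g 1, lt_min hg0 one_pos, min_le_right _ _, ?_⟩
  have hc0 : (0 : ℝ) < min g 1 := lt_min hg0 one_pos
  intro Q
  induction Q using Finset.induction_on with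
  | empty => intro H; simp
  | insert k Q hkQ ih =>
    intro H
    rw [Finset.card_insert_of_notMem hkQ, pow_succ]
    by_cases hk : k ∈ H
    · have h1 : H \ insert k Q = (H.erase k) \ Q := by
        ext z
        simp only [Finset.mem_sdiff, Finset.mem_insert, Finset.mem_erase, not_or]
        tauto
      have h2 := ih (H.erase k)
      have h3 := hg k (H.erase k) (Finset.notMem_erase k H)
      rw [h1, card_erase T.gd hk]
      have h4 : min g 1 ≤ ∑ y ∈ D.neighborFinset k, (1 - hu D r {k} (H.erase k) y) :=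
        (min_le_left _ _).trans h3
      calc (min g 1) ^ Q.card * min g 1 * ((Rc D r (H.erase k \ Q)).card : ℝ)
          = ((min g 1) ^ Q.card * ((Rc D r (H.erase k \ Q)).card : ℝ)) * min g 1 := by ring
        _ ≤ ((Rc D r (H.erase k)).card : ℝ) * ∑ y ∈ D.neighborFinset k, (1 - hu D r {k} (H.erase k) y) :=
            mul_le_mul h2 h4 hc0.le (by positivity)
    · have h1 : H \ insert k Q = H \ Q := by
        ext z
        simp only [Finset.mem_sdiff, Finset.mem_insert, not_or]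
        constructor
        · rintro ⟨h, -, h'⟩; exact ⟨h, h'⟩
        · rintro ⟨h, h'⟩; exact ⟨h, fun e => hk (e ▸ h), h'⟩
      rw [h1]
      have h2 := ih H
      refine le_trans ?_ h2
      have h3 : (0 : ℝ) ≤ (min g 1) ^ Q.card * ((Rc D r (H \ Q)).card : ℝ) := by positivity
      calc (min g 1) ^ Q.card * min g 1 * ((Rc D r (H \ Q)).card : ℝ)
          = ((min g 1) ^ Q.card * ((Rc D r (H \ Q)).card : ℝ)) * min g 1 := by ring
        _ ≤ ((min g 1) ^ Q.card * ((Rc D r (H \ Q)).card : ℝ)) * 1 :=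
            mul_le_mul_of_nonneg_left (min_le_right _ _) h3
        _ = _ := mul_one _

/-- TARGET. the unburnt set is small, in terms of the wave from `Q`: the restriction to `H \ Q` is at most `r^|Q|` to one; `sum_ub` -/
theorem pr_un (T : TS D r) : ∃ c : ℝ, 0 < c ∧ ∀ (Q H : Finset V) (E : Finset V → Prop), Q ⊆ H →
    pr D r H (fun ζ => E (un D Q H ζ)) ≤ c ^ Q.card * pr D r (H \ Q) (fun ξ => E (gw D r (dgi D Q) (H \ Q) ξ)) := by
  obtain ⟨c, hc0, -, hc⟩ := T.exists_er
  have hr : (0 : ℝ) < r := by exact_mod_cast T.gd.one_le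
  refine ⟨r / c, by positivity, fun Q H E hQ => ?_⟩
  have hadm : Adm D r 0 (dgi D Q) (H \ Q) := adm_dgi T.gd Finset.disjoint_sdiff
  rw [t11_pr_def, t11_pr_def]
  have h1 : ((Rc D r H).filter (fun ζ => E (un D Q H ζ))).card ≤
      ((Rc D r (H \ Q)).filter (fun ξ => E (ub D 0 (dgi D Q) (H \ Q) ξ))).card * r ^ Q.card := by
    have h2 : (Fintype.piFinset (fun _ : Q => Finset.Icc 1 r)).card = r ^ Q.card := by
      rw [Fintype.card_piFinset, Finset.prod_const, Nat.card_Icc, Finset.card_univ, Fintype.card_coe, Nat.add_sub_cancel]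
    rw [← h2, ← Finset.card_product]
    refine Finset.card_le_card_of_injOn (fun ζ => (rs (H \ Q) ζ, fun q : Q => ζ q.1)) ?_ ?_
    · intro ζ hζ
      rw [Finset.mem_coe, Finset.mem_filter] at hζ
      rw [Finset.mem_coe, Finset.mem_product, Finset.mem_filter, Fintype.mem_piFinset]
      refine ⟨⟨rs_mem_Rc Finset.sdiff_subset hζ.1, hζ.2⟩, fun q => ?_⟩
      exact Finset.mem_Icc.2 ((mem_Rc.1 hζ.1).1.1 q.1 (hQ q.2))
    · intro ζ hζ ζ' hζ' he
      rw [Finset.mem_coe, Finset.mem_filter, mem_Rc] at hζ hζ'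
      rw [Prod.mk.injEq] at he
      funext z
      by_cases hzQ : z ∈ Q
      · exact congrFun he.2 ⟨z, hzQ⟩
      · by_cases hzH : z ∈ H
        · have h3 := congrFun he.1 z
          have h4 : z ∈ H \ Q := Finset.mem_sdiff.2 ⟨hzH, hzQ⟩
          rwa [rs_mem h4, rs_mem h4] at h3
        · rw [hζ.1.1.2 z hzH, hζ'.1.1.2 z hzH]
  have h2 : ((Rc D r (H \ Q)).filter (fun ξ => E (ub D 0 (dgi D Q) (H \ Q) ξ))).card =
      ((Rc D r (H \ Q)).filter (fun ξ => E (gw D r (dgi D Q) (H \ Q) ξ))).card := by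
    rw [Finset.card_filter, Finset.card_filter]
    exact sum_ub hadm (fun W => if E W then 1 else 0)
  rw [h2] at h1
  have h3 : (((Rc D r H).filter (fun ζ => E (un D Q H ζ))).card : ℝ) ≤
      ((Rc D r (H \ Q)).filter (fun ξ => E (gw D r (dgi D Q) (H \ Q) ξ))).card * (r : ℝ) ^ Q.card := by
    exact_mod_cast h1
  have h4 := hc Q H
  have h5 : (0 : ℝ) < (Rc D r (H \ Q)).card := by exact_mod_cast T.gd.card_pos (H \ Q)
  have h6 : (0 : ℝ) < (Rc D r H).card := by exact_mod_cast T.gd.card_pos H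
  have h7 : (0 : ℝ) < c ^ Q.card := by positivity
  rw [div_le_iff₀ h6, div_pow]
  refine h3.trans ?_
  generalize (((Rc D r (H \ Q)).filter (fun ξ => E (gw D r (dgi D Q) (H \ Q) ξ))).card) = M
  generalize ((Rc D r (H \ Q)).card : ℝ) = a at *
  generalize ((Rc D r H).card : ℝ) = b at *
  generalize c ^ Q.card = d at *
  have h8 : (M : ℝ) * (r : ℝ) ^ Q.card = (r : ℝ) ^ Q.card / d * (M / a) * (d * a) := by
    field_simp
  rw [h8]
  exact mul_le_mul_of_nonneg_left h4 (by positivity)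

/-- the part of the wave from `Q` in a cone is contained in the full wave of the cone -/
theorem TS.t11_restart (T : TS D r) {C : Set V} (hC : T.Cn C) {G H : Finset V} {g : V → ℕ} {ζ : V → ℕ}
    (hH : ∀ z ∈ C, z ∈ H ↔ z ∈ G) (hg : ∀ z ∈ C, g z = 0) {z : V}
    (hz : z ∈ gw D r g H ζ) (hzC : z ∈ C) : z ∈ gw D r (T.fi {C}) (gp G {C}) (rs (gp G {C}) ζ) := by
  have hfo := T.fo_single hC
  set W := gw D r (T.fi {C}) (gp G {C}) (rs (gp G {C}) ζ) with hW
  have hWs : W ⊆ gp G {C} := gw_sub _ _ _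
  have hcl := gw_GCl (D := D) (r := r) (T.fi {C}) (gp G {C}) (rs (gp G {C}) ζ)
  rw [← hW] at hcl
  have hWC : ∀ y ∈ W, y ∈ C := by
    intro y hy
    have := (mem_gp.1 (hWs hy)).2
    rwa [fs_single] at this
  have h1 : gw D r g H ζ ⊆ (H.filter (fun y => y ∉ C)) ∪ W := by
    refine gw_least' fun y hy hyW => ?_
    rw [Finset.mem_union, not_or, Finset.mem_filter, not_and, not_not] at hyW
    have hyC : y ∈ C := hyW.1 hy
    have hyG : y ∈ gp G {C} := by
      rw [mem_gp, fs_single]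
      exact ⟨(hH y hyC).1 hy, hyC⟩
    have h2 := hcl.2 y hyG hyW.2
    rw [rs_mem hyG] at h2
    have h3 : dg D y ((H.filter (fun y => y ∉ C)) ∪ W) = dg D y (H.filter (fun y => y ∉ C)) + dg D y W := by
      refine dg_union ?_
      rw [Finset.disjoint_left]
      intro x hx hx'
      exact (Finset.mem_filter.1 hx).2 (hWC x hx')
    have h4 : dg D y (H.filter (fun y => y ∉ C)) ≤ T.fi {C} y := by
      rw [T.fi_eq hfo (Finset.mem_singleton_self C) hyC]
      unfold dg
      refine Finset.card_le_card fun x hx => ?_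
      rw [Finset.mem_filter, Finset.mem_filter] at hx
      exact Finset.mem_filter.2 ⟨(T.ib_sub hC hyC hx.1.2 hx.2).2, hx.2⟩
    rw [h3, hg y hyC]
    omega
  rcases Finset.mem_union.1 (h1 hz) with h | h
  · exact absurd hzC (Finset.mem_filter.1 h).2
  · exact h

/-- probability that the full wave of one cone reaches generation `L`, for a forest attached to a set -/
theorem TS.t11_one (T : TS D r) {F : Finset (Set V)} (hF : T.Fo F) (G1 G : Finset V) (hd : ∀ z ∈ G1, z ∉ fs F)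
    {C : Set V} (hC : C ∈ F) (E : (V → ℕ) → Prop) :
    pr D r (G1 ∪ gp G F) (fun ζ => E (rs (gp G {C}) ζ)) ≤ (T.c0⁻¹) ^ F.card * pr D r (gp G {C}) E := by
  have h := T.prod_le hF G1 G hd (fun _ => 1)
    (fun C' ζ => if C' = C then (if E ζ then 1 else 0) else 1) (fun _ => zero_le_one)
    (fun C' ζ => by split_ifs <;> norm_num)
  have h1 : ∀ ζ : V → ℕ, (1 : ℝ) * ∏ C' ∈ F, (if C' = C then (if E (rs (gp G {C'}) ζ) then (1 : ℝ) else 0) else 1) =
      if E (rs (gp G {C}) ζ) then 1 else 0 := by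
    intro ζ
    rw [one_mul, Finset.prod_eq_single C]
    · rw [if_pos rfl]
    · intro C' _ hne
      rw [if_neg hne]
    · intro h; exact absurd hC h
  simp only [h1] at h
  rw [t11_ex_ind] at h
  have h2 : ex D r G1 (fun _ => (1 : ℝ)) = 1 := by
    unfold ex
    rw [Finset.sum_const, nsmul_eq_mul, mul_one]
    exact div_self (by exact_mod_cast (T.gd.card_pos G1).ne')
  have h3 : ∏ C' ∈ F, ex D r (gp G {C'}) (fun ζ => if C' = C then (if E ζ then (1 : ℝ) else 0) else 1) =
      pr D r (gp G {C}) E := by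
    rw [Finset.prod_eq_single C]
    · simp only [if_true]
      exact t11_ex_ind
    · intro C' _ hne
      simp only [if_neg hne]
      unfold ex
      rw [Finset.sum_const, nsmul_eq_mul, mul_one]
      exact div_self (by exact_mod_cast (T.gd.card_pos (gp G {C'})).ne')
    · intro h; exact absurd hC h
  rw [h2, one_mul, h3] at h
  exact h

/-- TARGET. the wave from a finite set `Q` is tight in a nice region: take `Q0, F` from `Nc` for `B = Q ∪` neighbours of `Q` (so the input `dgi Q` vanishes on the forest); for `G` large, `prt G P \ Q = (Q0 \ Q) ∪ gp G F` and a wave leaving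
`Q0 ∪ ⋃_C up {C} L` makes, for some `C ∈ F`, the full wave of `rs (gp G {C}) ζ` in `C` reach generation `L`; `marg`: the probability is at most `c0^(-|F|) pr (gp G {C}) (1 ≤ rn {C} G L)` (`prod_le`), `tight` -/
theorem TS.tight_set (T : TS D r) {P : Set V} (hP : T.Nc P) (Q : Finset V) (ε : ℝ) (hε : 0 < ε) : ∃ B : Finset V, ∀ᶠ G in (atTop : Filter (Finset V)),
    pr D r (prt G P \ Q) (fun ζ => ¬ gw D r (dgi D Q) (prt G P \ Q) ζ ⊆ B) ≤ ε := by
  obtain ⟨Q0, F, hF, hP1, hP2, hP3⟩ := hP (Q ∪ Q.biUnion (fun q => D.neighborFinset q))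
  have hc0 := T.c0_pos
  have hε' : 0 < ε * T.c0 ^ F.card / (F.card + 1) := by positivity
  obtain ⟨L, hL⟩ := T.tight _ hε'
  refine ⟨Q0 ∪ F.biUnion (fun C => T.up {C} L), ?_⟩
  filter_upwards [eventually_ge_atTop (Q0 ∪ F.biUnion (fun C => T.up {C} L))] with G hG
  have hQ0G : Q0 ⊆ G := Finset.subset_union_left.trans hG
  have hupG : ∀ C ∈ F, T.up {C} L ⊆ G := fun C hC =>
    (Finset.subset_biUnion_of_mem (fun C => T.up {C} L) hC).trans (Finset.subset_union_right.trans hG)
  have hQF : ∀ z ∈ fs F, z ∉ Q := by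
    intro z hz hzQ
    exact hP2 z (hP3 z (Finset.mem_union_left _ hzQ) ((hP1 z).2 (Or.inr hz))) hz
  have hgF : ∀ z ∈ fs F, dgi D Q z = 0 := by
    intro z hz
    refine dg_eq_zero fun q hq hadj => ?_
    refine hP2 z (hP3 z (Finset.mem_union_right _ ?_) ((hP1 z).2 (Or.inr hz))) hz
    exact Finset.mem_biUnion.2 ⟨q, hq, (SimpleGraph.mem_neighborFinset _ _ _).2 hadj.symm⟩
  have hH : prt G P \ Q = (Q0 \ Q) ∪ gp G F := by
    ext z
    rw [Finset.mem_sdiff, mem_prt, Finset.mem_union, Finset.mem_sdiff, mem_gp, hP1 z]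
    constructor
    · rintro ⟨⟨h1, h2 | h2⟩, h3⟩
      · exact Or.inl ⟨h2, h3⟩
      · exact Or.inr ⟨h1, h2⟩
    · rintro (⟨h1, h2⟩ | ⟨h1, h2⟩)
      · exact ⟨⟨hQ0G h1, Or.inl h1⟩, h2⟩
      · exact ⟨⟨h1, Or.inr h2⟩, hQF z h2⟩
  have hd : ∀ z ∈ Q0 \ Q, z ∉ fs F := fun z hz => hP2 z (Finset.mem_sdiff.1 hz).1
  rw [hH]
  have key : ∀ ζ ∈ Rc D r ((Q0 \ Q) ∪ gp G F),
      ¬ gw D r (dgi D Q) ((Q0 \ Q) ∪ gp G F) ζ ⊆ Q0 ∪ F.biUnion (fun C => T.up {C} L) →
      ∃ C ∈ F, 1 ≤ T.rn {C} G L (rs (gp G {C}) ζ) := by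
    intro ζ hζ hsub
    rw [Finset.not_subset] at hsub
    obtain ⟨z, hz, hzB⟩ := hsub
    rw [Finset.mem_union, not_or] at hzB
    have hzH := gw_sub _ _ _ hz
    rcases Finset.mem_union.1 hzH with h | h
    · exact absurd (Finset.mem_sdiff.1 h).1 hzB.1
    · obtain ⟨hzG, C, hC, hzC⟩ := mem_gp.1 h
      have hCn := hF.cn C hC
      have hfo := T.fo_single hCn
      refine ⟨C, hC, ?_⟩
      have h1 : z ∈ gw D r (T.fi {C}) (gp G {C}) (rs (gp G {C}) ζ) := by
        refine T.t11_restart hCn ?_ (fun y hy => hgF y ⟨C, hC, hy⟩) hz hzC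
        intro y hy
        rw [Finset.mem_union, mem_gp]
        constructor
        · rintro (h2 | h2)
          · exact absurd ⟨C, hC, hy⟩ (hd y h2)
          · exact h2.1
        · intro h2
          exact Or.inr ⟨h2, C, hC, hy⟩
      have h2 : z ∈ fs (T.de {C} L) := by
        rcases (T.mem_fs_iff hfo L z).1 (by rw [fs_single]; exact hzC) with h3 | h3
        · exact absurd (Finset.mem_biUnion.2 ⟨C, hC, h3⟩) hzB.2
        · exact h3
      obtain ⟨A, hA, hzA⟩ := h2
      have hζC : rs (gp G {C}) ζ ∈ Rc D r (gp G {C}) := by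
        refine rs_mem_Rc ?_ hζ
        intro y hy
        rw [mem_gp, fs_single] at hy
        exact Finset.mem_union_right _ (mem_gp.2 ⟨hy.1, C, hC, hy.2⟩)
      have h3 : rch D (T.fi {C}) (gw D r (T.fi {C}) (gp G {C}) (rs (gp G {C}) ζ)) A := by
        by_contra hcon
        exact T.not_rch hfo hA hζC hcon hzA h1
      unfold TS.rn TS.fn
      rw [Nat.one_le_iff_ne_zero, ← Nat.pos_iff_ne_zero, Finset.card_pos]
      refine ⟨A, Finset.mem_filter.2 ⟨hA, h3, ?_⟩⟩
      intro i B' _ hfalse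
      exact absurd hfalse not_false
  refine (t11_pr_mono key).trans ?_
  refine (t11_pr_exists F (fun C ζ => 1 ≤ T.rn {C} G L (rs (gp G {C}) ζ))).trans ?_
  have h1 : ∀ C ∈ F, pr D r ((Q0 \ Q) ∪ gp G F) (fun ζ => 1 ≤ T.rn {C} G L (rs (gp G {C}) ζ)) ≤ ε / (F.card + 1) := by
    intro C hC
    refine (T.t11_one hF (Q0 \ Q) G hd hC (fun ζ => 1 ≤ T.rn {C} G L ζ)).trans ?_
    have h2 := hL L le_rfl C (hF.cn C hC) G (hupG C hC)
    calc (T.c0⁻¹) ^ F.card * pr D r (gp G {C}) (fun ζ => 1 ≤ T.rn {C} G L ζ)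
        ≤ (T.c0⁻¹) ^ F.card * (ε * T.c0 ^ F.card / (F.card + 1)) :=
          mul_le_mul_of_nonneg_left h2 (by positivity)
      _ = ε / (F.card + 1) := by
          rw [inv_pow]; field_simp
  refine (Finset.sum_le_sum h1).trans ?_
  rw [Finset.sum_const, nsmul_eq_mul]
  have h2 : (0 : ℝ) < F.card + 1 := by positivity
  rw [mul_div_assoc', div_le_iff₀ h2]
  nlinarith

/-! ### convergence of ratios -/

/-- TARGET. weighted monotonicity: `H ⊆ H'`, `RcW w H'` nonempty. Let `f = qw w (dl y) H' - qw w (dl y) H` (`0` off `H'`), `(r - w z) f z = Σ_{z' ∈ H'} f z'` on `H` and `f ≥ 0` off `H`. If the minimum of `f` over `H` is negative, the set `Z` where it is attained satisfies: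
all neighbours in `H'` of `z ∈ Z` are in `Z` and `r - w z = dg z H'`, i.e. `w z + dg z Z = r`, contradicting that a configuration of `RcW w H'` has `ζ z > w z + dg z Z` for some `z ∈ Z`. -/
theorem qw_mono {w : V → ℕ} {H H' : Finset V} (h : H ⊆ H') {y : V} (hadm : Adm D r w (dl y) H') (hne : (RcW D r w H').Nonempty) :
    qw D r w (dl y) H y ≤ qw D r w (dl y) H' y := by
  have hadm' : Adm D r w (dl y) H := fun z hz => by
    have h1 := hadm z (h hz)
    have h2 := dg_mono (D := D) (v := z) h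
    omega
  have hne' : (RcW D r w H).Nonempty := by
    obtain ⟨ζ, hζ⟩ := hne
    exact ⟨_, rs_mem_RcW h hζ⟩
  by_cases hy : y ∈ H
  swap
  · rw [qw_notMem hy]; exact qw_nonneg
  obtain ⟨f, hf⟩ : ∃ f : V → ℝ, f = fun z => qw D r w (dl y) H' z - qw D r w (dl y) H z := ⟨_, rfl⟩
  have hf0 : ∀ z, z ∉ H → 0 ≤ f z := by
    intro z hz
    rw [hf]
    simp only [qw_notMem hz, sub_zero]
    exact qw_nonneg
  have hfe : ∀ z ∈ H, ((r : ℝ) - w z) * f z = ∑ z' ∈ H', if D.Adj z z' then f z' else 0 := by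
    intro z hz
    have h1 := qw_harm hadm hne (h hz)
    have h2 := qw_harm hadm' hne' hz
    have h3 : ∑ z' ∈ H, (if D.Adj z z' then qw D r w (dl y) H z' else 0) =
        ∑ z' ∈ H', (if D.Adj z z' then qw D r w (dl y) H z' else 0) := by
      refine Finset.sum_subset h fun z' _ hz' => ?_
      rw [qw_notMem hz']; simp
    rw [h3] at h2
    rw [hf]
    simp only
    rw [mul_sub, h1, h2, add_sub_add_left_eq_sub, ← Finset.sum_sub_distrib]
    refine Finset.sum_congr rfl fun z' _ => ?_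
    split_ifs <;> simp
  suffices hpos : 0 ≤ f y by
    rw [hf] at hpos
    simpa using hpos
  by_contra hneg
  push Not at hneg
  obtain ⟨z0, hz0, hmin⟩ := Finset.exists_min_image H f ⟨y, hy⟩
  have hm : f z0 < 0 := (hmin y hy).trans_lt hneg
  have hall : ∀ z, f z0 ≤ f z := by
    intro z
    by_cases hz : z ∈ H
    · exact hmin z hz
    · exact hm.le.trans (hf0 z hz)
  obtain ⟨Z, hZ⟩ : ∃ Z : Finset V, Z = H.filter (fun z => f z = f z0) := ⟨_, rfl⟩
  have hZH : Z ⊆ H := by rw [hZ]; exact Finset.filter_subset _ _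
  have hZne : Z.Nonempty := ⟨z0, by rw [hZ]; exact Finset.mem_filter.2 ⟨hz0, rfl⟩⟩
  have hclosed : ∀ z ∈ Z, r ≤ w z + dg D z Z := by
    intro z hz
    have hz' : z ∈ H ∧ f z = f z0 := by rw [hZ] at hz; exact Finset.mem_filter.1 hz
    have h1 := hfe z hz'.1
    rw [hz'.2] at h1
    have h2 := hadm z (h hz'.1)
    -- all neighbours in `H'` attain the minimum
    have h3 : ∑ z' ∈ H', (if D.Adj z z' then f z0 else 0) = (dg D z H' : ℝ) * f z0 := by
      rw [dg_eq_sum, Nat.cast_sum, Finset.sum_mul]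
      refine Finset.sum_congr rfl fun z' _ => ?_
      split_ifs <;> simp
    have h4 : ∑ z' ∈ H', (if D.Adj z z' then f z0 else 0) ≤ ∑ z' ∈ H', (if D.Adj z z' then f z' else 0) := by
      refine Finset.sum_le_sum fun z' _ => ?_
      split_ifs
      · exact hall z'
      · exact le_rfl
    have h5 : (dg D z H' : ℝ) ≤ (r : ℝ) - w z := by
      have : w z + dg D z H' ≤ r := by omega
      have h6 : (w z : ℝ) + dg D z H' ≤ r := by exact_mod_cast this
      linarith
    have h6 : ((r : ℝ) - w z) * f z0 ≤ (dg D z H' : ℝ) * f z0 := by nlinarith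
    have h7 : ∑ z' ∈ H', (if D.Adj z z' then f z0 else 0) = ∑ z' ∈ H', (if D.Adj z z' then f z' else 0) := by
      refine le_antisymm h4 ?_
      rw [← h1, h3]; exact h6
    have h8 := (Finset.sum_eq_sum_iff_of_le (fun z' _ => by
      split_ifs
      · exact hall z'
      · exact le_rfl)).1 h7
    have h9 : dg D z H' ≤ dg D z Z := by
      unfold dg
      refine Finset.card_le_card fun z' hz1 => ?_
      rw [Finset.mem_filter] at hz1
      have h10 := h8 z' hz1.1
      rw [if_pos hz1.2, if_pos hz1.2] at h10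
      rw [Finset.mem_filter, hZ, Finset.mem_filter]
      refine ⟨⟨?_, h10.symm⟩, hz1.2⟩
      by_contra hcon
      have := hf0 z' hcon
      linarith
    have h10 : (r : ℝ) - w z ≤ dg D z H' := by
      by_contra hcon
      push Not at hcon
      have : ((r : ℝ) - w z) * f z0 < (dg D z H' : ℝ) * f z0 := mul_lt_mul_of_neg_right hcon hm
      rw [h1, ← h7, h3] at this
      exact lt_irrefl _ this
    have h11 : (r : ℝ) ≤ w z + dg D z H' := by linarith
    have h12 : r ≤ w z + dg D z H' := by exact_mod_cast h11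
    omega
  obtain ⟨ζ, hζ⟩ := hne
  rw [mem_RcW] at hζ
  obtain ⟨z, hz, hlt⟩ := hζ.2 Z (hZH.trans h) hZne
  have h1 := (hζ.1.1 z (h (hZH hz))).2
  have h2 := hclosed z hz
  omega

/-- TARGET. by `card_erase` and `hu_lim`, removing the vertices of `K` one by one; the denominators are `≥ g2` -/
theorem TS.lim_er (T : TS D r) (P : Set V) (K : Finset V) (hK : ∀ z ∈ K, z ∈ P) : ∃ ℓ : ℝ,
    Tendsto (fun G : Finset V => ((Rc D r (prt G P \ K)).card : ℝ) / (Rc D r (prt G P)).card) atTop (𝓝 ℓ) := by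
  induction K using Finset.induction_on with
  | empty =>
    refine ⟨1, ?_⟩
    refine (tendsto_congr fun G => ?_).2 tendsto_const_nhds
    rw [Finset.sdiff_empty]
    exact div_self (by exact_mod_cast (T.gd.card_pos (prt G P)).ne')
  | insert k K hkK ih =>
    obtain ⟨ℓ, hℓ⟩ := ih fun z hz => hK z (Finset.mem_insert_of_mem hz)
    obtain ⟨g, hg0, hg⟩ := T.exists_g2
    have hkP : k ∈ P := hK k (Finset.mem_insert_self k K)
    have hlim := fun y => hu_lim T.gd {k} (P \ (insert k K : Finset V)) (fun z hz hz' => by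
      rw [Finset.mem_singleton] at hz
      subst hz
      exact hz'.2 (Finset.mem_coe.2 (Finset.mem_insert_self z K))) y
    choose s hs using hlim
    have hset : ∀ G : Finset V, (prt G P \ K).erase k = prt G (P \ (insert k K : Finset V)) := by
      intro G
      ext z
      simp only [Finset.mem_erase, Finset.mem_sdiff, mem_prt, Set.mem_sdiff, Finset.mem_coe, Finset.mem_insert, not_or]
      tauto
    have hset' : ∀ G : Finset V, prt G P \ insert k K = (prt G P \ K).erase k := by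
      intro G
      ext z
      simp only [Finset.mem_erase, Finset.mem_sdiff, Finset.mem_insert, not_or]
      tauto
    have hsum : Tendsto (fun G : Finset V => ∑ y ∈ D.neighborFinset k, (1 - hu D r {k} ((prt G P \ K).erase k) y)) atTop
        (𝓝 (∑ y ∈ D.neighborFinset k, (1 - s y))) := by
      refine tendsto_finsetSum _ fun y _ => ?_
      refine Tendsto.sub tendsto_const_nhds ?_
      simp only [hset]
      exact (hs y).1
    have hpos : g ≤ ∑ y ∈ D.neighborFinset k, (1 - s y) :=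
      ge_of_tendsto' hsum fun G => hg k _ (Finset.notMem_erase k _)
    refine ⟨(∑ y ∈ D.neighborFinset k, (1 - s y))⁻¹ * ℓ, ?_⟩
    refine Tendsto.congr' ?_ ((hsum.inv₀ (hg0.trans_le hpos).ne').mul hℓ)
    filter_upwards [eventually_ge_atTop ({k} : Finset V)] with G hG
    have hkG : k ∈ prt G P \ K := by
      rw [Finset.mem_sdiff, mem_prt]
      exact ⟨⟨hG (Finset.mem_singleton_self k), hkP⟩, hkK⟩
    have h1 := card_erase T.gd hkG
    rw [hset']
    have h2 : (0 : ℝ) < (Rc D r ((prt G P \ K).erase k)).card := by exact_mod_cast T.gd.card_pos _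
    have h3 : (0 : ℝ) < (Rc D r (prt G P \ K)).card := by exact_mod_cast T.gd.card_pos _
    have h4 := hg k ((prt G P \ K).erase k) (Finset.notMem_erase k _)
    have h5 : 0 < ∑ y ∈ D.neighborFinset k, (1 - hu D r {k} ((prt G P \ K).erase k) y) := by linarith
    rw [h1]
    field_simp

/-- the ratios for all weights below `dgi K` -/
theorem TS.t11_lim_w (T : TS D r) (P : Set V) (K : Finset V) (n : ℕ) : ∀ w : V → ℕ, (∀ z, w z ≤ dg D z K) →
    ∑ y ∈ K.biUnion (fun q => D.neighborFinset q), w y = n → ∃ ℓ : ℝ,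
    Tendsto (fun G : Finset V => ((RcW D r w (prt G P \ K)).card : ℝ) / (Rc D r (prt G P \ K)).card) atTop (𝓝 ℓ) := by
  have hN : ∀ z, z ∉ K.biUnion (fun q => D.neighborFinset q) → dg D z K = 0 := by
    intro z hz
    refine dg_eq_zero fun q hq hadj => hz ?_
    exact Finset.mem_biUnion.2 ⟨q, hq, (SimpleGraph.mem_neighborFinset _ _ _).2 hadj.symm⟩
  induction n with
  | zero =>
    intro w hw hsum
    have hw0 : w = 0 := by
      funext z
      by_cases hz : z ∈ K.biUnion (fun q => D.neighborFinset q)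
      · exact (Finset.sum_eq_zero_iff.1 hsum) z hz
      · have := hw z
        rw [hN z hz] at this
        exact Nat.le_zero.1 this
    refine ⟨1, ?_⟩
    refine (tendsto_congr fun G => ?_).2 tendsto_const_nhds
    rw [hw0]
    exact div_self (by exact_mod_cast (T.gd.card_pos (prt G P \ K)).ne')
  | succ n ih =>
    intro w hw hsum
    obtain ⟨y, hy, hwy⟩ : ∃ y ∈ K.biUnion (fun q => D.neighborFinset q), 0 < w y := by
      by_contra hcon
      push Not at hcon
      rw [Finset.sum_eq_zero fun y hy => Nat.le_zero.1 (hcon y hy)] at hsum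
      omega
    obtain ⟨w', hw'⟩ : ∃ w' : V → ℕ, w' = fun z => w z - dl y z := ⟨_, rfl⟩
    have hww' : w = w' + dl y := by
      funext z
      rw [Pi.add_apply, hw']
      simp only [dl]
      by_cases hz : z = y
      · subst hz; simp; omega
      · simp [hz]
    have hw'K : ∀ z, w' z ≤ dg D z K := fun z => by
      have := hw z
      rw [hww', Pi.add_apply] at this
      omega
    have hsum' : ∑ y ∈ K.biUnion (fun q => D.neighborFinset q), w' y = n := by
      have h1 : ∑ y ∈ K.biUnion (fun q => D.neighborFinset q), w y =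
          (∑ y ∈ K.biUnion (fun q => D.neighborFinset q), w' y) + 1 := by
        rw [hww']
        simp only [Pi.add_apply, Finset.sum_add_distrib]
        congr 1
        simp only [dl]
        rw [Finset.sum_ite_eq', if_pos hy]
      omega
    obtain ⟨ℓ, hℓ⟩ := ih w' hw'K hsum'
    have hmono : ∀ {G G' : Finset V}, G ⊆ G' → prt G P \ K ⊆ prt G' P \ K := by
      intro G G' h z hz
      rw [Finset.mem_sdiff, mem_prt] at hz ⊢
      exact ⟨⟨h hz.1.1, hz.1.2⟩, hz.2⟩
    have hadm : ∀ G : Finset V, Adm D r w' (dl y) (prt G P \ K) := by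
      intro G z _
      have h1 := hw z
      rw [hww', Pi.add_apply] at h1
      have h2 := T.gd.degLe z (K ∪ (prt G P \ K))
      rw [dg_union Finset.disjoint_sdiff] at h2
      omega
    by_cases hemp : ∃ G0 : Finset V, ¬ (RcW D r w' (prt G0 P \ K)).Nonempty
    · obtain ⟨G0, hG0⟩ := hemp
      refine ⟨0, ?_⟩
      refine tendsto_const_nhds.congr' ?_
      filter_upwards [eventually_ge_atTop G0] with G hG
      have h1 : RcW D r w (prt G P \ K) = ∅ := by
        refine Finset.eq_empty_of_forall_notMem fun ζ hζ => hG0 ?_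
        rw [mem_RcW] at hζ
        have h2 : ζ ∈ RcW D r w' (prt G P \ K) := by
          rw [mem_RcW]
          refine ⟨hζ.1, hζ.2.mono_w fun z _ => ?_⟩
          rw [hww', Pi.add_apply]; omega
        exact ⟨_, rs_mem_RcW (hmono hG) h2⟩
      rw [h1, Finset.card_empty, Nat.cast_zero, zero_div]
    · push Not at hemp
      have hmo : Monotone (fun G : Finset V => qw D r w' (dl y) (prt G P \ K) y) := by
        intro G G' h
        exact qw_mono (hmono h) (hadm G') (hemp G')
      have hbd : BddAbove (Set.range (fun G : Finset V => qw D r w' (dl y) (prt G P \ K) y)) :=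
        ⟨1, by rintro _ ⟨G, rfl⟩; exact qw_le_one⟩
      have hq := tendsto_atTop_ciSup hmo hbd
      refine ⟨_, ((hℓ.mul (tendsto_const_nhds.sub hq) : Tendsto _ atTop (𝓝 (ℓ * (1 - _))))).congr fun G => ?_⟩
      have h1 := card_RcW_dl (hadm G) (hemp G)
      rw [← hww'] at h1
      rw [h1]
      ring

/-- TARGET. adding the units of the weight `dgi K` one by one (finitely many, at the neighbours of `K`; `G` large contains them): each ratio is `1 - qw w (dl y) (prt G P \ K) y`, monotone in `G` (`qw_mono`) as long as `RcW w` is nonempty for all `G`;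
if `RcW w (prt G P \ K)` is empty for some `G`, it is empty for all larger `G` (restriction), and the limit is `0` -/
theorem TS.lim_w (T : TS D r) (P : Set V) (K : Finset V) : ∃ ℓ : ℝ,
    Tendsto (fun G : Finset V => ((RcW D r (dgi D K) (prt G P \ K)).card : ℝ) / (Rc D r (prt G P \ K)).card) atTop (𝓝 ℓ) :=
  T.t11_lim_w P K _ (dgi D K) (fun _ => le_rfl) rfl

/-- approximation by convergent nets -/
theorem t11_cauchy (f : Finset V → ℝ) (h : ∀ ε > 0, ∃ g : Finset V → ℝ, (∃ ℓ, Tendsto g atTop (𝓝 ℓ)) ∧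
    ∀ᶠ G in (atTop : Filter (Finset V)), |f G - g G| ≤ ε) : ∃ ℓ, Tendsto f atTop (𝓝 ℓ) := by
  refine cauchySeq_tendsto_of_complete ?_
  rw [Metric.cauchySeq_iff']
  intro ε hε
  obtain ⟨g, ⟨ℓ, hℓ⟩, hg⟩ := h (ε / 8) (by positivity)
  have h1 : ∀ᶠ G in (atTop : Filter (Finset V)), |g G - ℓ| < ε / 8 := by
    have h2 := (Metric.tendsto_nhds.1 hℓ) (ε / 8) (by positivity)
    simpa [Real.dist_eq] using h2
  obtain ⟨N, hN⟩ := (hg.and h1).exists_forall_of_atTop
  refine ⟨N, fun n hn => ?_⟩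
  obtain ⟨a1, a2⟩ := hN n hn
  obtain ⟨b1, b2⟩ := hN N le_rfl
  rw [Real.dist_eq]
  rw [abs_le] at a1 b1
  rw [abs_lt] at a2 b2 ⊢
  constructor <;> linarith [a1.1, a1.2, a2.1, a2.2, b1.1, b1.2, b2.1, b2.2]

/-- limits of local events inside the region -/
theorem TS.t11_lim_loc (T : TS D r) {P : Set V} (hP : T.Nc P) (Q : Finset V) (hQP : ∀ z ∈ Q, z ∈ P) (E : (V → ℕ) → Prop) : ∃ ℓ : ℝ,
    Tendsto (fun G : Finset V => pr D r (prt G P) (fun ζ => E (rs Q ζ))) atTop (𝓝 ℓ) := by
  refine t11_cauchy _ fun ε hε => ?_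
  obtain ⟨c, hc0, hc⟩ := pr_un T
  obtain ⟨B, hB⟩ := T.tight_set hP Q (ε / c ^ Q.card) (by positivity)
  refine ⟨fun G => pr D r (prt G P) (fun ζ => un D Q (prt G P) ζ ⊆ B ∧ E (rs Q ζ)), ?_, ?_⟩
  · -- convergence
    have hterm : ∀ U ∈ (prt B P \ Q).powerset, ∃ ℓ : ℝ, Tendsto (fun G : Finset V =>
        ((((Rc D r (Q ∪ U)).filter (fun ξ => (∀ y ∈ U, ξ y ≤ dg D y (Q ∪ U)) ∧ E (rs Q ξ))).card : ℝ) *
          (((RcW D r (dgi D (Q ∪ U)) (prt G P \ (Q ∪ U))).card : ℝ) / (Rc D r (prt G P \ (Q ∪ U))).card)) *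
          (((Rc D r (prt G P \ (Q ∪ U))).card : ℝ) / (Rc D r (prt G P)).card)) atTop (𝓝 ℓ) := by
      intro U hU
      obtain ⟨ℓ1, h1⟩ := T.lim_w P (Q ∪ U)
      obtain ⟨ℓ2, h2⟩ := T.lim_er P (Q ∪ U) (fun z hz => by
        rcases Finset.mem_union.1 hz with hz | hz
        · exact hQP z hz
        · exact (mem_prt.1 (Finset.mem_sdiff.1 (Finset.mem_powerset.1 hU hz)).1).2)
      exact ⟨_, (h1.const_mul _).mul h2⟩
    choose! ℓ hℓ using hterm
    refine ⟨∑ U ∈ (prt B P \ Q).powerset, ℓ U, ?_⟩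
    refine Tendsto.congr' ?_ (tendsto_finsetSum _ fun U hU => hℓ U hU)
    filter_upwards [eventually_ge_atTop (Q ∪ B)] with G hG
    have hQG : Q ⊆ prt G P := fun z hz => mem_prt.2 ⟨hG (Finset.mem_union_left _ hz), hQP z hz⟩
    have hBG : prt B P ⊆ prt G P := fun z hz => by
      rw [mem_prt] at hz ⊢
      exact ⟨hG (Finset.mem_union_right _ hz.1), hz.2⟩
    have hpos : (0 : ℝ) < (Rc D r (prt G P)).card := by exact_mod_cast T.gd.card_pos _
    rw [t11_pr_def, eq_div_iff hpos.ne', Finset.sum_mul]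
    have h1 : ((Rc D r (prt G P)).filter (fun ζ => un D Q (prt G P) ζ ⊆ B ∧ E (rs Q ζ))).card =
        ∑ U ∈ (prt B P \ Q).powerset, ((Rc D r (prt G P)).filter (fun ζ => un D Q (prt G P) ζ = U ∧ E (rs Q ζ))).card := by
      rw [Finset.card_eq_sum_card_fiberwise (f := fun ζ => un D Q (prt G P) ζ) (t := (prt B P \ Q).powerset)]
      · refine Finset.sum_congr rfl fun U hU => ?_
        congr 1
        ext ζ
        simp only [Finset.mem_filter]
        rw [Finset.mem_powerset] at hU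
        constructor
        · rintro ⟨⟨h1, h2, h3⟩, h4⟩; exact ⟨h1, h4, h3⟩
        · rintro ⟨h1, h4, h3⟩
          refine ⟨⟨h1, ?_, h3⟩, h4⟩
          rw [h4]
          exact fun z hz => (mem_prt.1 (Finset.mem_sdiff.1 (hU hz)).1).1
      · intro ζ hζ
        rw [Finset.mem_coe, Finset.mem_filter] at hζ
        rw [Finset.mem_coe, Finset.mem_powerset]
        intro z hz
        have h2 := Finset.mem_sdiff.1 ((t11_un_adm Q (prt G P) ζ).1 hz)
        exact Finset.mem_sdiff.2 ⟨mem_prt.2 ⟨hζ.2.1 hz, (mem_prt.1 h2.1).2⟩, h2.2⟩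
    rw [h1, Nat.cast_sum]
    refine Finset.sum_congr rfl fun U hU => ?_
    have hUH : U ⊆ prt G P \ Q := (Finset.mem_powerset.1 hU).trans (Finset.sdiff_subset_sdiff hBG (Finset.Subset.refl _))
    rw [card_un hQG hUH E, Nat.cast_mul]
    have hpos' : (0 : ℝ) < (Rc D r (prt G P \ (Q ∪ U))).card := by exact_mod_cast T.gd.card_pos _
    field_simp
  · -- approximation
    filter_upwards [hB, eventually_ge_atTop Q] with G hG hQG
    have hQG' : Q ⊆ prt G P := fun z hz => mem_prt.2 ⟨hQG hz, hQP z hz⟩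
    have h1 := hc Q (prt G P) (fun U => ¬ U ⊆ B) hQG'
    have h2 : pr D r (prt G P) (fun ζ => ¬ un D Q (prt G P) ζ ⊆ B) ≤ ε := by
      refine h1.trans ?_
      have h3 : (0 : ℝ) < c ^ Q.card := by positivity
      calc c ^ Q.card * pr D r (prt G P \ Q) (fun ξ => ¬ gw D r (dgi D Q) (prt G P \ Q) ξ ⊆ B)
          ≤ c ^ Q.card * (ε / c ^ Q.card) := mul_le_mul_of_nonneg_left hG h3.le
        _ = ε := by field_simp
    have h3 : pr D r (prt G P) (fun ζ => un D Q (prt G P) ζ ⊆ B ∧ E (rs Q ζ)) ≤ pr D r (prt G P) (fun ζ => E (rs Q ζ)) :=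
      t11_pr_mono fun ζ _ h => h.2
    have h4 : pr D r (prt G P) (fun ζ => E (rs Q ζ)) ≤
        pr D r (prt G P) (fun ζ => un D Q (prt G P) ζ ⊆ B ∧ E (rs Q ζ)) + pr D r (prt G P) (fun ζ => ¬ un D Q (prt G P) ζ ⊆ B) := by
      refine le_trans (t11_pr_mono (Q := fun ζ => (un D Q (prt G P) ζ ⊆ B ∧ E (rs Q ζ)) ∨ ¬ un D Q (prt G P) ζ ⊆ B) ?_) t11_pr_or
      intro ζ _ h
      by_cases h5 : un D Q (prt G P) ζ ⊆ B
      · exact Or.inl ⟨h5, h⟩
      · exact Or.inr h5
    rw [abs_le]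
    constructor <;> linarith

/-- TARGET. LIMITS OF LOCAL EVENTS. Let first `Q ⊆ P`. `pr (prt G P) (E (rs Q ζ)) = Σ_{U ⊆ prt G P \ Q} (…)/|Rc (prt G P)|` by `card_un`; the terms with `U ⊆ B` converge (`lim_er`, `lim_w`), the others sum to at most
`pr (un ⊄ B)`, which is small by `pr_un` and `tight_set` (choose `B`, then `G` large). So the sequence is Cauchy. For general `Q` replace it by `Q ∩ P` (`ζ = 0` off `P`). -/
theorem TS.lim_loc (T : TS D r) {P : Set V} (hP : T.Nc P) (Q : Finset V) (E : (V → ℕ) → Prop) : ∃ ℓ : ℝ,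
    Tendsto (fun G : Finset V => pr D r (prt G P) (fun ζ => E (rs Q ζ))) atTop (𝓝 ℓ) := by
  obtain ⟨ℓ, hℓ⟩ := T.t11_lim_loc hP (prt Q P) (fun z hz => (mem_prt.1 hz).2) E
  refine ⟨ℓ, hℓ.congr fun G => t11_pr_congr fun ζ hζ => ?_⟩
  have h1 : rs (prt Q P) ζ = rs Q ζ := by
    funext z
    by_cases hz : z ∈ prt Q P
    · rw [rs_mem hz, rs_mem (mem_prt.1 hz).1]
    · rw [rs_notMem hz]
      by_cases hz' : z ∈ Q
      · rw [rs_mem hz']
        symm
        refine (mem_Rc.1 hζ).1.2 z fun h => hz ?_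
        exact mem_prt.2 ⟨hz', (mem_prt.1 h).2⟩
      · rw [rs_notMem hz']
  rw [h1]

/-- TARGET. quasi-local bounded functions: Cauchy by approximation; `ex (f0 (rs Q ζ))` is a finite combination of probabilities of local events (finitely many values `rs Q ζ`) -/
theorem TS.lim_ql (T : TS D r) {P : Set V} (hP : T.Nc P) (f : Finset V → (V → ℕ) → ℝ) (b : ℝ) (hb : ∀ G ζ, |f G ζ| ≤ b)
    (h : ∀ ε > 0, ∃ (Q : Finset V) (f0 : (V → ℕ) → ℝ), ∀ᶠ G in (atTop : Filter (Finset V)),
      pr D r (prt G P) (fun ζ => f G ζ ≠ f0 (rs Q ζ)) ≤ ε) : ∃ ℓ : ℝ,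
    Tendsto (fun G : Finset V => ex D r (prt G P) (f G)) atTop (𝓝 ℓ) := by
  have hb0 : 0 ≤ b := (abs_nonneg _).trans (hb ∅ 0)
  refine t11_cauchy _ fun ε hε => ?_
  obtain ⟨Q, f0, hf0⟩ := h (ε / (2 * b + 1)) (by positivity)
  obtain ⟨f1, hf1⟩ : ∃ f1 : (V → ℕ) → ℝ, f1 = fun ξ => max (-b) (min b (f0 ξ)) := ⟨_, rfl⟩
  have hf1b : ∀ ξ, |f1 ξ| ≤ b := by
    intro ξ
    rw [hf1, abs_le]
    exact ⟨le_max_left _ _, max_le (by linarith) (min_le_left _ _)⟩
  have hf1e : ∀ G ζ, f G ζ = f0 (rs Q ζ) → f G ζ = f1 (rs Q ζ) := by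
    intro G ζ he
    have h1 := abs_le.1 (hb G ζ)
    rw [hf1]
    simp only
    rw [← he, min_eq_right h1.2, max_eq_right h1.1]
  refine ⟨fun G => ex D r (prt G P) (fun ζ => f1 (rs Q ζ)), ?_, ?_⟩
  · -- finitely many values
    obtain ⟨S, hS⟩ : ∃ S : Finset (V → ℕ), ∀ G : Finset V, ∀ ζ ∈ Rc D r (prt G P), rs Q ζ ∈ S := by
      have hfin : {ξ : V → ℕ | (∀ z ∈ Q, ξ z ≤ r) ∧ ∀ z, z ∉ Q → ξ z = 0}.Finite := by
        refine (Set.finite_range (fun (a : Q → Fin (r + 1)) => fun v : V =>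
          if h : v ∈ Q then ((a ⟨v, h⟩ : Fin (r + 1)) : ℕ) else 0)).subset ?_
        rintro ξ ⟨h1, h2⟩
        refine ⟨fun v => ⟨ξ v.1, Nat.lt_succ_of_le (h1 v.1 v.2)⟩, ?_⟩
        funext v
        by_cases hv : v ∈ Q
        · simp [hv]
        · simp [hv, h2 v hv]
      refine ⟨hfin.toFinset, fun G ζ hζ => ?_⟩
      rw [Set.Finite.mem_toFinset]
      refine ⟨fun z hz => ?_, fun z hz => rs_notMem hz⟩
      rw [rs_mem hz]
      by_cases hzG : z ∈ prt G P
      · exact ((mem_Rc.1 hζ).1.1 z hzG).2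
      · rw [(mem_Rc.1 hζ).1.2 z hzG]; exact Nat.zero_le _
    have hterm : ∀ v ∈ S, ∃ ℓ : ℝ, Tendsto (fun G : Finset V => f1 v * pr D r (prt G P) (fun ζ => rs Q ζ = v)) atTop (𝓝 ℓ) := by
      intro v _
      obtain ⟨ℓ, hℓ⟩ := T.lim_loc hP Q (fun ξ => ξ = v)
      exact ⟨_, hℓ.const_mul _⟩
    choose! ℓ hℓ using hterm
    refine ⟨∑ v ∈ S, ℓ v, (tendsto_finsetSum _ fun v hv => hℓ v hv).congr fun G => ?_⟩
    unfold ex
    rw [← Finset.sum_fiberwise_of_maps_to (g := rs Q) (t := S) (fun ζ hζ => hS G ζ hζ), Finset.sum_div]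
    refine Finset.sum_congr rfl fun v _ => ?_
    rw [t11_pr_def, Finset.sum_congr rfl (g := fun _ => f1 v), Finset.sum_const, nsmul_eq_mul]
    · ring
    · intro ζ hζ
      rw [(Finset.mem_filter.1 hζ).2]
  · filter_upwards [hf0] with G hG
    have hpos : (0 : ℝ) < (Rc D r (prt G P)).card := by exact_mod_cast T.gd.card_pos _
    have h1 : |ex D r (prt G P) (f G) - ex D r (prt G P) (fun ζ => f1 (rs Q ζ))| ≤
        2 * b * pr D r (prt G P) (fun ζ => f G ζ ≠ f0 (rs Q ζ)) := by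
      unfold ex
      rw [t11_pr_def, ← sub_div, ← Finset.sum_sub_distrib, abs_div, abs_of_pos hpos, mul_div_assoc']
      refine div_le_div_of_nonneg_right ?_ hpos.le
      refine (Finset.abs_sum_le_sum_abs _ _).trans ?_
      have h2 : ∀ ζ ∈ Rc D r (prt G P), |f G ζ - f1 (rs Q ζ)| ≤ if f G ζ ≠ f0 (rs Q ζ) then 2 * b else 0 := by
        intro ζ _
        split_ifs with h3
        · have h4 := abs_le.1 (hb G ζ)
          have h5 := abs_le.1 (hf1b (rs Q ζ))
          rw [abs_le]; constructor <;> linarith [h4.1, h4.2, h5.1, h5.2]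
        · rw [not_not] at h3
          rw [hf1e G ζ h3, sub_self, abs_zero]
      refine (Finset.sum_le_sum h2).trans ?_
      rw [← Finset.sum_filter, Finset.sum_const, nsmul_eq_mul, mul_comm]
    refine h1.trans ?_
    have h2 : (0 : ℝ) < 2 * b + 1 := by linarith
    calc 2 * b * pr D r (prt G P) (fun ζ => f G ζ ≠ f0 (rs Q ζ))
        ≤ (2 * b) * (ε / (2 * b + 1)) := mul_le_mul_of_nonneg_left hG (by linarith)
      _ ≤ ε := by
          rw [mul_div_assoc', div_le_iff₀ h2]
          nlinarith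

end Pool.Agent.Helper910.QT
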