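import Mathlib
import Pool.Agent.Helper910.T2

/-! Odometers (MP_4555f0_mp) -/

namespace Pool.Agent.Helper910.QT

open Classical Finset

variable {V : Type*} {D : SimpleGraph V} [D.LocallyFinite] {r : ℕ}

/-- the input `f` is at most `t` times the number of edges leaving `G` -/
def InB (D : SimpleGraph V) (r t : ℕ) (f : V → ℕ) (G : Finset V) : Prop := ∀ z ∈ G, f z + t * dg D z G ≤ t * r

theorem t3_nsum_supp {S : Finset V} {u : V → ℕ} (hu : ∀ x, x ∉ S → u x = 0) (z : V) :
    nsum D u z = ∑ x ∈ S, if D.Adj z x then u x else 0 := by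
  unfold nsum
  rw [← Finset.sum_filter]
  have h1 : S.filter (fun x => D.Adj z x) = (D.neighborFinset z).filter (fun x => x ∈ S) := by
    ext x
    simp [and_comm]
  rw [h1, Finset.sum_filter]
  refine Finset.sum_congr rfl fun x _ => ?_
  by_cases hx : x ∈ S
  · rw [if_pos hx]
  · rw [if_neg hx, hu x hx]

theorem t3_nsum_ind (G : Finset V) (t : ℕ) (z : V) :
    nsum D (fun x => if x ∈ G then t else 0) z = t * dg D z G := by
  rw [t3_nsum_supp (S := G) (fun x hx => if_neg hx), dg_eq_sum, Finset.mul_sum]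
  refine Finset.sum_congr rfl fun x hx => ?_
  rw [if_pos hx]
  split_ifs <;> simp

theorem t3_nsum_mono {u v : V → ℕ} (h : ∀ x, u x ≤ v x) (z : V) : nsum D u z ≤ nsum D v z :=
  Finset.sum_le_sum fun x _ => h x

theorem t3_nsum_add (u v : V → ℕ) (z : V) :
    nsum D (fun x => u x + v x) z = nsum D u z + nsum D v z := Finset.sum_add_distrib

/-- TARGET. `t` topplings everywhere form a supersolution -/
theorem solO_const {t : ℕ} {f : V → ℕ} {G : Finset V} {ζ : V → ℕ} (hf : InB D r t f G)
    (hζ : ∀ z ∈ G, ζ z ≤ r) : SolO D r f G ζ (fun z => if z ∈ G then t else 0) := by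
  refine ⟨fun z hz => if_neg hz, fun z hz => ?_⟩
  rw [t3_nsum_ind]
  simp only [if_pos hz]
  have h1 := hf z hz
  have h2 := hζ z hz
  rw [Nat.mul_comm r t]
  omega

/-- TARGET. the pointwise minimum of supersolutions is one -/
theorem solO_min {f : V → ℕ} {G : Finset V} {ζ u v : V → ℕ} (hu : SolO D r f G ζ u) (hv : SolO D r f G ζ v) :
    SolO D r f G ζ (fun z => min (u z) (v z)) := by
  refine ⟨fun z hz => by simp [hu.1 z hz], fun z hz => ?_⟩
  have h1 := hu.2 z hz
  have h2 := hv.2 z hz
  have h3 : nsum D (fun z => min (u z) (v z)) z ≤ nsum D u z := t3_nsum_mono (fun x => min_le_left _ _) z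
  have h4 : nsum D (fun z => min (u z) (v z)) z ≤ nsum D v z := t3_nsum_mono (fun x => min_le_right _ _) z
  rcases le_total (u z) (v z) with h | h
  · simp only [min_eq_left h]
    omega
  · simp only [min_eq_right h]
    omega

/-- TARGET. if a supersolution exists, the odometer is one: for each `x` some supersolution attains the infimum at `x`; the minimum of these
finitely many (`x ∈ G`) supersolutions is a supersolution which is the odometer -/
theorem od_sol {f : V → ℕ} {G : Finset V} {ζ u : V → ℕ} (hu : SolO D r f G ζ u) : SolO D r f G ζ (od D r f G ζ) := by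
  have hle : ∀ w, SolO D r f G ζ w → ∀ z, od D r f G ζ z ≤ w z := fun w hw z => Nat.sInf_le ⟨w, hw, rfl⟩
  have key : ∀ S : Finset V, ∃ w, SolO D r f G ζ w ∧ ∀ x ∈ S, w x = od D r f G ζ x := by
    intro S
    induction S using Finset.induction_on with
    | empty => exact ⟨u, hu, by simp⟩
    | insert a S ha ih =>
      obtain ⟨w, hw, hwS⟩ := ih
      obtain ⟨w', hw', hwa⟩ := Nat.sInf_mem (s := {k | ∃ u, SolO D r f G ζ u ∧ u a = k}) ⟨u a, u, hu, rfl⟩
      refine ⟨_, solO_min hw hw', fun x hx => ?_⟩
      rcases Finset.mem_insert.1 hx with rfl | hx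
      · have h1 : w' x = od D r f G ζ x := hwa
        have h2 := hle w hw x
        show min (w x) (w' x) = _
        rw [h1, min_eq_right h2]
      · have h1 := hwS x hx
        have h2 := hle w' hw' x
        show min (w x) (w' x) = _
        rw [h1, min_eq_left h2]
  obtain ⟨w, hw, hwG⟩ := key G
  have : od D r f G ζ = w := by
    funext x
    by_cases hx : x ∈ G
    · exact (hwG x hx).symm
    · have h1 := hle w hw x
      rw [hw.1 x hx] at h1
      rw [hw.1 x hx]
      omega
  rw [this]
  exact hw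

/-- TARGET. -/
theorem od_le {f : V → ℕ} {G : Finset V} {ζ u : V → ℕ} (hu : SolO D r f G ζ u) (z : V) : od D r f G ζ z ≤ u z :=
  Nat.sInf_le ⟨u, hu, rfl⟩

/-- TARGET. -/
theorem od_notMem {f : V → ℕ} {G : Finset V} {ζ : V → ℕ} {z : V} (hz : z ∉ G) : od D r f G ζ z = 0 := by
  by_cases h : ∃ u, SolO D r f G ζ u
  · obtain ⟨u, hu⟩ := h
    have h1 := od_le hu z
    rw [hu.1 z hz] at h1
    omega
  · have h1 : {k | ∃ u, SolO D r f G ζ u ∧ u z = k} = ∅ := by
      rw [Set.eq_empty_iff_forall_notMem]
      rintro k ⟨u, hu, _⟩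
      exact h ⟨u, hu⟩
    show sInf {k | ∃ u, SolO D r f G ζ u ∧ u z = k} = 0
    rw [h1, Nat.sInf_empty]

/-- TARGET. -/
theorem od_le_t {t : ℕ} {f : V → ℕ} {G : Finset V} {ζ : V → ℕ} (hf : InB D r t f G) (hζ : ∀ z ∈ G, ζ z ≤ r) (z : V) :
    od D r f G ζ z ≤ t := by
  refine (od_le (solO_const hf hζ) z).trans ?_
  show (if z ∈ G then t else 0) ≤ t
  split_ifs
  · exact le_rfl
  · exact Nat.zero_le _

/-- TARGET. a supersolution for larger data is one for smaller data (values outside `G` have to be set to `0`, the sum over neighbours decreases) -/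
theorem od_mono {f f' : V → ℕ} {G G' : Finset V} {ζ ζ' u : V → ℕ} (hG : G ⊆ G') (h : ∀ z ∈ G, ζ z + f z ≤ ζ' z + f' z)
    (hu : SolO D r f' G' ζ' u) (z : V) : od D r f G ζ z ≤ od D r f' G' ζ' z := by
  have hv := od_sol hu
  set v := od D r f' G' ζ' with hvd
  have hw : SolO D r f G ζ (fun z => if z ∈ G then v z else 0) := by
    refine ⟨fun z hz => if_neg hz, fun z hz => ?_⟩
    have h1 := hv.2 z (hG hz)
    have h2 := h z hz
    have h3 : nsum D (fun z => if z ∈ G then v z else 0) z ≤ nsum D v z :=
      t3_nsum_mono (fun x => by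
        show (if x ∈ G then v x else 0) ≤ v x
        split_ifs
        · exact le_rfl
        · exact Nat.zero_le _) z
    simp only [if_pos hz]
    omega
  refine (od_le hw z).trans ?_
  show (if z ∈ G then v z else 0) ≤ v z
  split_ifs
  · exact le_rfl
  · exact Nat.zero_le _

/-- TARGET. only the sum `ζ + f` on `G` matters -/
theorem od_congr {f f' : V → ℕ} {G : Finset V} {ζ ζ' : V → ℕ} (h : ∀ z ∈ G, ζ z + f z = ζ' z + f' z) :
    od D r f G ζ = od D r f' G ζ' := by
  have h1 : ∀ u, SolO D r f G ζ u ↔ SolO D r f' G ζ' u := by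
    intro u
    unfold SolO
    refine and_congr Iff.rfl ⟨fun h2 z hz => ?_, fun h2 z hz => ?_⟩
    · have := h2 z hz
      have := h z hz
      omega
    · have := h2 z hz
      have := h z hz
      omega
  funext z
  unfold od
  simp only [h1]

/-- the strict least action principle -/
theorem t3_strict {f : V → ℕ} {G : Finset V} {ζ u : V → ℕ} (hu : SolO D r f G ζ u) {z : V} (hz : z ∈ G)
    (hpos : 0 < od D r f G ζ z) : r * od D r f G ζ z < ζ z + f z + nsum D (od D r f G ζ) z := by
  by_contra hcon
  rw [not_lt] at hcon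
  have hv := od_sol hu
  set v := od D r f G ζ with hvd
  have hle : ∀ x, Function.update v z (v z - 1) x ≤ v x := by
    intro x
    by_cases hx : x = z
    · subst hx
      rw [Function.update_self]
      omega
    · rw [Function.update_of_ne hx]
  have hw : SolO D r f G ζ (Function.update v z (v z - 1)) := by
    refine ⟨fun x hx => ?_, fun x hx => ?_⟩
    · have := hle x
      rw [hv.1 x hx] at this
      omega
    · have h3 := t3_nsum_mono (D := D) hle x
      by_cases hxz : x = z
      · subst hxz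
        rw [Function.update_self]
        have h4 : r + r * (v x - 1) = r * v x := by
          obtain ⟨k, hk⟩ : ∃ k, v x = k + 1 := ⟨v x - 1, by omega⟩
          rw [hk, Nat.add_sub_cancel]
          ring
        rw [h4]
        omega
      · rw [Function.update_of_ne hxz]
        have := hv.2 x hx
        omega
  have h5 := od_le hw z
  rw [Function.update_self] at h5
  have h6 : v z ≤ v z - 1 := h5
  omega

/-- TARGET. balance of the heights; the least action principle gives nonnegativity: at a vertex with positive odometer `k`, since decreasing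
the odometer by one at `z` alone is not a supersolution at `z`, `ζ z + f z + nsum od z > r + r (k - 1)`, so the new height is positive -/
theorem sb_balance {f : V → ℕ} {G : Finset V} {ζ u : V → ℕ} (hu : SolO D r f G ζ u) {z : V} (hz : z ∈ G) :
    sb D r f G ζ z + r * od D r f G ζ z = ζ z + f z + nsum D (od D r f G ζ) z := by
  unfold sb
  rw [if_pos hz]
  rcases Nat.eq_zero_or_pos (od D r f G ζ z) with h0 | h0
  · rw [h0]
    omega
  · have := t3_strict hu hz h0
    omega

/-- TARGET. -/
theorem sb_le {f : V → ℕ} {G : Finset V} {ζ u : V → ℕ} (hu : SolO D r f G ζ u) {z : V} (hz : z ∈ G) : sb D r f G ζ z ≤ r := by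
  have h1 := sb_balance hu hz
  have h2 := (od_sol hu).2 z hz
  omega

/-- TARGET. -/
theorem one_le_sb {f : V → ℕ} {G : Finset V} {ζ u : V → ℕ} (hu : SolO D r f G ζ u) {z : V} (hz : z ∈ G) (h1 : 1 ≤ ζ z) :
    1 ≤ sb D r f G ζ z := by
  have h2 := sb_balance hu hz
  rcases Nat.eq_zero_or_pos (od D r f G ζ z) with h0 | h0
  · rw [h0] at h2
    omega
  · have := t3_strict hu hz h0
    omega

theorem t3_sol_left {f f' : V → ℕ} {G : Finset V} {ζ u : V → ℕ} (hu : SolO D r (f + f') G ζ u) :
    SolO D r f G ζ u := by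
  refine ⟨hu.1, fun z hz => ?_⟩
  have := hu.2 z hz
  rw [Pi.add_apply] at this
  omega

theorem t3_sol_right {f f' : V → ℕ} {G : Finset V} {ζ u : V → ℕ} (hu : SolO D r (f + f') G ζ u) :
    SolO D r f' G (sb D r f G ζ) (fun z => od D r (f + f') G ζ z - od D r f G ζ z) := by
  have hv := od_sol hu
  have ha := t3_sol_left hv
  have hle : ∀ x, od D r f G ζ x ≤ od D r (f + f') G ζ x := fun x => od_le ha x
  refine ⟨fun z hz => ?_, fun z hz => ?_⟩
  · show od D r (f + f') G ζ z - od D r f G ζ z = 0
    rw [hv.1 z hz, Nat.zero_sub]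
  · have h1 := sb_balance ha hz
    have h2 := hv.2 z hz
    rw [Pi.add_apply] at h2
    have h3 : nsum D (fun z => od D r (f + f') G ζ z - od D r f G ζ z) z + nsum D (od D r f G ζ) z =
        nsum D (od D r (f + f') G ζ) z := by
      rw [← t3_nsum_add]
      exact Finset.sum_congr rfl fun x _ => Nat.sub_add_cancel (hle x)
    have h4 : r * (od D r (f + f') G ζ z - od D r f G ζ z) + r * od D r f G ζ z =
        r * od D r (f + f') G ζ z := by
      rw [← Nat.mul_add, Nat.sub_add_cancel (hle z)]
    show _ ≤ r + r * (od D r (f + f') G ζ z - od D r f G ζ z)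
    omega

/-- TARGET. Abelian property: first add `f`, then `f'`.
`≤`: `od f ζ + od f' (sb f ζ)` is a supersolution for `f + f'`. `≥`: let `v` be the odometer for `f + f'`; `od f ζ ≤ v` (`od_mono`), and
`v - od f ζ` is a supersolution for `f'` and `sb f ζ`. -/
theorem od_add {f f' : V → ℕ} {G : Finset V} {ζ u : V → ℕ} (hu : SolO D r (f + f') G ζ u) (z : V) :
    od D r (f + f') G ζ z = od D r f G ζ z + od D r f' G (sb D r f G ζ) z := by
  have hv := od_sol hu
  have ha := t3_sol_left hv
  have hr := t3_sol_right hu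
  have hle : ∀ x, od D r f G ζ x ≤ od D r (f + f') G ζ x := fun x => od_le ha x
  apply le_antisymm
  · have hs : SolO D r (f + f') G ζ (fun z => od D r f G ζ z + od D r f' G (sb D r f G ζ) z) := by
      have h1 := od_sol ha
      have h2 := od_sol hr
      refine ⟨fun z hz => ?_, fun z hz => ?_⟩
      · show od D r f G ζ z + od D r f' G (sb D r f G ζ) z = 0
        rw [h1.1 z hz, h2.1 z hz]
      · rw [t3_nsum_add, Pi.add_apply]
        have h3 := sb_balance ha hz
        have h4 := h2.2 z hz
        show _ ≤ r + r * (od D r f G ζ z + od D r f' G (sb D r f G ζ) z)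
        rw [Nat.mul_add]
        omega
    exact od_le hs z
  · have h1 : od D r f' G (sb D r f G ζ) z ≤ od D r (f + f') G ζ z - od D r f G ζ z := od_le hr z
    have h2 := hle z
    omega

/-- TARGET. and the final configurations agree -/
theorem sb_add {f f' : V → ℕ} {G : Finset V} {ζ u : V → ℕ} (hu : SolO D r (f + f') G ζ u) :
    sb D r (f + f') G ζ = sb D r f' G (sb D r f G ζ) := by
  have hv := od_sol hu
  have ha := t3_sol_left hv
  have hr := t3_sol_right hu
  funext z
  by_cases hz : z ∈ G
  · have h1 := sb_balance hu hz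
    have h2 := sb_balance ha hz
    have h3 := sb_balance hr hz
    have h4 := od_add hu z
    have h5 : nsum D (od D r (f + f') G ζ) z =
        nsum D (od D r f G ζ) z + nsum D (od D r f' G (sb D r f G ζ)) z := by
      rw [← t3_nsum_add]
      exact Finset.sum_congr rfl fun x _ => od_add hu x
    rw [h4, h5, Nat.mul_add, Pi.add_apply] at h1
    omega
  · unfold sb
    rw [if_neg hz, if_neg hz]

theorem t3_nsum_split {G1 G2 : Finset V} (hd : Disjoint G1 G2) {v : V → ℕ} (hv : ∀ x, x ∉ G1 ∪ G2 → v x = 0) (z : V) :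
    nsum D v z = nsum D (fun x => if x ∈ G1 then v x else 0) z + ∑ x ∈ G2, if D.Adj z x then v x else 0 := by
  rw [t3_nsum_supp hv, t3_nsum_supp (S := G1) (u := fun x => if x ∈ G1 then v x else 0) (fun x hx => if_neg hx),
    Finset.sum_union hd]
  congr 1
  refine Finset.sum_congr rfl fun x hx => ?_
  rw [if_pos hx]

/-- TARGET. Restriction: the odometer on `G1 ∪ G2`, restricted to `G1`, is the odometer on `G1` with the additional input from the topplings on `G2`.
(`≤`: glue the odometer of `G1` for that input with the odometer of `G1 ∪ G2` on `G2`; taking the minimum with the whole odometer gives a supersolution;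
`≥`: the restriction of the whole odometer is a supersolution on `G1`) -/
theorem od_restrict {f : V → ℕ} {G1 G2 : Finset V} (hd : Disjoint G1 G2) {ζ u : V → ℕ} (hu : SolO D r f (G1 ∪ G2) ζ u) {z : V} (hz : z ∈ G1) :
    od D r f (G1 ∪ G2) ζ z =
      od D r (fun y => f y + ∑ x ∈ G2, if D.Adj y x then od D r f (G1 ∪ G2) ζ x else 0) G1 ζ z := by
  have hv := od_sol hu
  set v := od D r f (G1 ∪ G2) ζ with hvd
  have h1 : SolO D r (fun y => f y + ∑ x ∈ G2, if D.Adj y x then v x else 0) G1 ζ
      (fun x => if x ∈ G1 then v x else 0) := by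
    refine ⟨fun x hx => if_neg hx, fun y hy => ?_⟩
    have h2 := hv.2 y (Finset.mem_union_left _ hy)
    rw [t3_nsum_split hd hv.1 y] at h2
    simp only [if_pos hy]
    omega
  have h3 := od_sol h1
  set w := od D r (fun y => f y + ∑ x ∈ G2, if D.Adj y x then v x else 0) G1 ζ with hwd
  have hwv : ∀ x, w x ≤ v x := by
    intro x
    refine (od_le h1 x).trans ?_
    show (if x ∈ G1 then v x else 0) ≤ v x
    split_ifs
    · exact le_rfl
    · exact Nat.zero_le _
  apply le_antisymm
  · have h4 : SolO D r f (G1 ∪ G2) ζ (fun x => if x ∈ G1 then w x else v x) := by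
      refine ⟨fun x hx => ?_, fun y hy => ?_⟩
      · have h5 : x ∉ G1 := fun h => hx (Finset.mem_union_left _ h)
        show (if x ∈ G1 then w x else v x) = 0
        rw [if_neg h5]
        exact hv.1 x hx
      · by_cases hy1 : y ∈ G1
        · have h5 := h3.2 y hy1
          have h6 := t3_nsum_split (D := D) (v := fun x => if x ∈ G1 then w x else v x) hd (fun x hx => by
            have h5 : x ∉ G1 := fun h => hx (Finset.mem_union_left _ h)
            show (if x ∈ G1 then w x else v x) = 0
            rw [if_neg h5]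
            exact hv.1 x hx) y
          have h7 : nsum D (fun x => if x ∈ G1 then (if x ∈ G1 then w x else v x) else 0) y = nsum D w y := by
            refine Finset.sum_congr rfl fun x _ => ?_
            by_cases hx : x ∈ G1
            · simp only [if_pos hx]
            · simp only [if_neg hx]
              exact (h3.1 x hx).symm
          have h8 : (∑ x ∈ G2, if D.Adj y x then (if x ∈ G1 then w x else v x) else 0) =
              ∑ x ∈ G2, if D.Adj y x then v x else 0 := by
            refine Finset.sum_congr rfl fun x hx => ?_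
            have hx1 : x ∉ G1 := fun h => (Finset.disjoint_left.1 hd h) hx
            simp only [if_neg hx1]
          have h9 : ζ y + (f y + ∑ x ∈ G2, if D.Adj y x then v x else 0) + nsum D w y ≤ r + r * w y := h5
          rw [h6]
          simp only
          rw [h7, h8, if_pos hy1]
          omega
        · have h5 := hv.2 y hy
          have h6 : nsum D (fun x => if x ∈ G1 then w x else v x) y ≤ nsum D v y := t3_nsum_mono (fun x => by
            show (if x ∈ G1 then w x else v x) ≤ v x
            split_ifs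
            · exact hwv x
            · exact le_rfl) y
          simp only [if_neg hy1]
          omega
    have h5 := od_le h4 z
    have h6 : v z ≤ if z ∈ G1 then w z else v z := h5
    rw [if_pos hz] at h6
    exact h6
  · exact hwv z

/-- TARGET. one wave: for an admissible input `g` the odometer is the indicator of the wave -/
theorem od_wave {g : V → ℕ} {G : Finset V} {ζ : V → ℕ} (hg : Adm D r 0 g G) (hζ : ∀ z ∈ G, ζ z ≤ r) (z : V) :
    od D r g G ζ z = if z ∈ gw D r g G ζ then 1 else 0 := by
  have hsub := gw_sub (D := D) (r := r) g G ζ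
  have h1 : SolO D r g G ζ (fun z => if z ∈ gw D r g G ζ then 1 else 0) := by
    refine ⟨fun x hx => if_neg fun h => hx (hsub h), fun y hy => ?_⟩
    rw [t3_nsum_ind, Nat.one_mul]
    by_cases hyW : y ∈ gw D r g G ζ
    · simp only [if_pos hyW]
      have h2 := hg y hy
      have h3 := hζ y hy
      have h4 := dg_mono (D := D) (v := y) hsub
      simp only [Pi.zero_apply] at h2
      omega
    · simp only [if_neg hyW]
      have h2 := (gw_GCl (D := D) (r := r) g G ζ).2 y hy hyW
      omega
  have h2 := od_sol h1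
  have h3 : GCl D r g G ζ (G.filter fun x => 0 < od D r g G ζ x) := by
    refine ⟨Finset.filter_subset _ _, fun y hy hy' => ?_⟩
    have h4 := h2.2 y hy
    have h5 : od D r g G ζ y = 0 := by
      by_contra h
      exact hy' (Finset.mem_filter.2 ⟨hy, Nat.pos_of_ne_zero h⟩)
    rw [h5] at h4
    have h6 : nsum D (fun x => if x ∈ (G.filter fun x => 0 < od D r g G ζ x) then 1 else 0) y ≤
        nsum D (od D r g G ζ) y := t3_nsum_mono (fun x => by
      show (if x ∈ (G.filter fun x => 0 < od D r g G ζ x) then 1 else 0) ≤ _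
      split_ifs with h
      · exact (Finset.mem_filter.1 h).2
      · exact Nat.zero_le _) y
    rw [t3_nsum_ind, Nat.one_mul] at h6
    omega
  have h4 := gw_least h3
  have h5 : od D r g G ζ z ≤ if z ∈ gw D r g G ζ then 1 else 0 := od_le h1 z
  by_cases hz : z ∈ gw D r g G ζ
  · rw [if_pos hz] at h5 ⊢
    have := (Finset.mem_filter.1 (h4 hz)).2
    omega
  · rw [if_neg hz] at h5 ⊢
    omega

/-- TARGET. -/
theorem sb_wave {g : V → ℕ} {G : Finset V} {ζ : V → ℕ} (hg : Adm D r 0 g G) (hζ : ∀ z ∈ G, ζ z ≤ r) :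
    sb D r g G ζ = gs D r 0 g G ζ := by
  have h1 : od D r g G ζ = fun z => if z ∈ gw D r g G ζ then 1 else 0 := by
    funext z
    exact od_wave hg hζ z
  funext z
  unfold sb gs
  rw [h1]
  by_cases hz : z ∈ G
  · rw [if_pos hz, if_pos hz, t3_nsum_ind, Nat.one_mul]
    by_cases hw : z ∈ gw D r g G ζ
    · simp [if_pos hw]
    · simp [if_neg hw]
  · rw [if_neg hz, if_neg hz]

/-- the configuration after `t` waves with input `g` -/
noncomputable def gi (D : SimpleGraph V) (r : ℕ) (g : V → ℕ) (G : Finset V) (t : ℕ) (ζ : V → ℕ) : V → ℕ :=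
  (gs D r 0 g G)^[t] ζ

/-- TARGET. -/
theorem gi_mem {g : V → ℕ} {G : Finset V} (hg : Adm D r 0 g G) (t : ℕ) {ζ : V → ℕ} (hζ : ζ ∈ Rc D r G) : gi D r g G t ζ ∈ Rc D r G := by
  induction t with
  | zero => exact hζ
  | succ t ih =>
    unfold gi at *
    rw [Function.iterate_succ_apply']
    exact gs_mem hg ih

/-- TARGET. (iterate `sum_gs`) -/
theorem sum_gi {g : V → ℕ} {G : Finset V} (hg : Adm D r 0 g G) (t : ℕ) {M : Type*} [AddCommMonoid M] (f : (V → ℕ) → M) :
    ∑ ζ ∈ Rc D r G, f (gi D r g G t ζ) = ∑ ζ ∈ Rc D r G, f ζ := by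
  induction t with
  | zero => rfl
  | succ t ih =>
    have h1 : ∀ ζ, gi D r g G (t + 1) ζ = gi D r g G t (gs D r 0 g G ζ) := fun ζ =>
      Function.iterate_succ_apply _ _ _
    simp only [h1]
    rw [← ih]
    exact sum_gs hg (fun ζ => f (gi D r g G t ζ))

theorem t3_inB {g : V → ℕ} {G : Finset V} (hg : Adm D r 0 g G) (t : ℕ) : InB D r t (t • g) G := by
  intro z hz
  have h := hg z hz
  rw [Pi.smul_apply, smul_eq_mul, ← Nat.mul_add]
  refine Nat.mul_le_mul_left _ ?_
  simp only [Pi.zero_apply] at h
  omega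

theorem t3_rc_le {G : Finset V} {ζ : V → ℕ} (hζ : ζ ∈ Rc D r G) : ∀ z ∈ G, ζ z ≤ r := fun z hz =>
  ((mem_Rc.1 hζ).1.1 z hz).2

theorem t3_waves {g : V → ℕ} {G : Finset V} {ζ : V → ℕ} (hg : Adm D r 0 g G) (hζ : ζ ∈ Rc D r G) (t : ℕ) :
    (∀ z, od D r (t • g) G ζ z = ((range t).filter (fun i => z ∈ gw D r g G (gi D r g G i ζ))).card) ∧
      sb D r (t • g) G ζ = gi D r g G t ζ := by
  induction t with
  | zero =>
    have h0 : ∀ z, od D r (0 • g) G ζ z = 0 := fun z =>
      Nat.le_zero.1 (od_le_t (t3_inB hg 0) (t3_rc_le hζ) z)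
    refine ⟨fun z => by rw [h0]; simp, ?_⟩
    funext z
    have h1 : nsum D (od D r (0 • g) G ζ) z = 0 := Finset.sum_eq_zero fun x _ => h0 x
    show sb D r (0 • g) G ζ z = ζ z
    unfold sb
    rw [h1, h0]
    by_cases hz : z ∈ G
    · rw [if_pos hz]
      simp
    · rw [if_neg hz]
      exact ((mem_Rc.1 hζ).1.2 z hz).symm
  | succ t ih =>
    have hu : SolO D r (t • g + g) G ζ (fun z => if z ∈ G then t + 1 else 0) := by
      have := solO_const (t3_inB hg (t + 1)) (t3_rc_le hζ)
      rwa [succ_nsmul] at this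
    have hm := gi_mem hg t hζ
    refine ⟨fun z => ?_, ?_⟩
    · rw [succ_nsmul, od_add hu z, ih.1 z, ih.2, od_wave hg (t3_rc_le hm), Finset.range_add_one,
        Finset.filter_insert]
      split_ifs with h
      · rw [Finset.card_insert_of_notMem (by simp)]
      · rfl
    · rw [succ_nsmul, sb_add hu, ih.2, sb_wave hg (t3_rc_le hm)]
      unfold gi
      rw [Function.iterate_succ_apply']

/-- TARGET. `t` waves (`od_add`, `od_wave`, induction) -/
theorem od_waves {g : V → ℕ} {G : Finset V} {ζ : V → ℕ} (hg : Adm D r 0 g G) (hζ : ζ ∈ Rc D r G) (t : ℕ) (z : V) :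
    od D r (t • g) G ζ z = ((range t).filter (fun i => z ∈ gw D r g G (gi D r g G i ζ))).card :=
  (t3_waves hg hζ t).1 z

/-- TARGET. -/
theorem sb_waves {g : V → ℕ} {G : Finset V} {ζ : V → ℕ} (hg : Adm D r 0 g G) (hζ : ζ ∈ Rc D r G) (t : ℕ) :
    sb D r (t • g) G ζ = gi D r g G t ζ :=
  (t3_waves hg hζ t).2

/-- TARGET. `D = t - od` (with `t` on the source set `A` and `0` at other outer vertices) is nearly harmonic: for the input `t • dgi A`,
at `z ∈ G`: `|r (t - u z) - nsum (t - u) z| ≤ r - 1` where `u = od` on `G`, `t` on `A`, `0` elsewhere -/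
theorem od_near_harm (H : Gd D r) {A G : Finset V} (hA : Disjoint A G) {ζ : V → ℕ} (hζ : ζ ∈ Rc D r G) (t : ℕ) {z : V} (hz : z ∈ G) :
    |(r : ℝ) * ((t : ℝ) - od D r (t • dgi D A) G ζ z) -
      nsum D (fun x => (t : ℝ) - if x ∈ A then (t : ℝ) else (od D r (t • dgi D A) G ζ x : ℝ)) z| ≤ r - 1 := by
  have hreg : ∀ y, (D.neighborFinset y).card = r := fun y => H.reg y
  have hg : Adm D r 0 (dgi D A) G := by
    intro y _
    have h1 : dg D y (A ∪ G) ≤ r := by
      rw [← hreg y]
      unfold dg
      refine Finset.card_le_card fun x hx => ?_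
      rw [SimpleGraph.mem_neighborFinset]
      exact (Finset.mem_filter.1 hx).2
    rw [dg_union hA] at h1
    simp only [Pi.zero_apply, dgi]
    omega
  have hu := solO_const (t3_inB hg t) (t3_rc_le hζ)
  have hb := sb_balance hu hz
  have hs1 := sb_le hu hz
  have hc := (mem_Rc.1 hζ).1.1 z hz
  have hs2 := one_le_sb hu hz hc.1
  set u := od D r (t • dgi D A) G ζ with hud
  have hf : (t • dgi D A) z = t * dg D z A := rfl
  rw [hf] at hb
  have e1 : nsum D (fun x => (t : ℝ) - if x ∈ A then (t : ℝ) else (u x : ℝ)) z =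
      (r : ℝ) * t - ((t : ℝ) * (dg D z A : ℝ) + ((nsum D u z : ℕ) : ℝ)) := by
    have e2 : nsum D (fun x => (t : ℝ) - if x ∈ A then (t : ℝ) else (u x : ℝ)) z =
        (∑ _x ∈ D.neighborFinset z, (t : ℝ)) - ∑ x ∈ D.neighborFinset z, (if x ∈ A then (t : ℝ) else (u x : ℝ)) := by
      unfold nsum
      rw [Finset.sum_sub_distrib]
    have e3 : ∑ x ∈ D.neighborFinset z, (if x ∈ A then (t : ℝ) else (u x : ℝ)) =
        ((nsum D (fun x => if x ∈ A then t else 0) z + nsum D u z : ℕ) : ℝ) := by
      unfold nsum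
      rw [← Finset.sum_add_distrib, Nat.cast_sum]
      refine Finset.sum_congr rfl fun x _ => ?_
      by_cases hx : x ∈ A
      · have h0 : u x = 0 := od_notMem (Finset.disjoint_left.1 hA hx)
        rw [if_pos hx, if_pos hx, h0]
        simp
      · rw [if_neg hx, if_neg hx]
        simp
    rw [e2, e3, t3_nsum_ind, Finset.sum_const, hreg z, nsmul_eq_mul]
    push_cast
    ring
  rw [e1]
  have hb' : (sb D r (t • dgi D A) G ζ z : ℝ) + r * (u z : ℝ) = (ζ z : ℝ) + t * (dg D z A : ℝ) + ((nsum D u z : ℕ) : ℝ) := by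
    exact_mod_cast hb
  have hs1' : (sb D r (t • dgi D A) G ζ z : ℝ) ≤ r := by exact_mod_cast hs1
  have hs2' : (1 : ℝ) ≤ (sb D r (t • dgi D A) G ζ z : ℝ) := by exact_mod_cast hs2
  have hc1 : (1 : ℝ) ≤ (ζ z : ℝ) := by exact_mod_cast hc.1
  have hc2 : (ζ z : ℝ) ≤ r := by exact_mod_cast hc.2
  rw [abs_le]
  constructor <;> linarith

end Pool.Agent.Helper910.QT
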