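import Mathlib
import Pool.Agent.Helper910.T11
import Pool.Agent.Helper910.T3


/-! Quasi-local functions of waves; automorphisms (MP_4555f0_mp) -/

namespace Pool.Agent.Helper910.QT

open Classical Finset Filter Topology

variable {V : Type*} {D : SimpleGraph V} [D.LocallyFinite] {r : ℕ}

/-! ### forests and single cones -/

omit [D.LocallyFinite] in
theorem t12_gw_rs {g : V → ℕ} {G : Finset V} {ζ : V → ℕ} : gw D r g G (rs G ζ) = gw D r g G ζ :=
  gw_congr (fun y hy => by rw [rs_mem hy])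

theorem t12_gp_sub {F F' : Finset (Set V)} (h : F ⊆ F') (G : Finset V) : gp G F ⊆ gp G F' := by
  intro z hz
  obtain ⟨h1, C, hC, hzC⟩ := TS.mem_gp.1 hz
  exact TS.mem_gp.2 ⟨h1, C, h hC, hzC⟩

theorem t12_mem_gp1 {G : Finset V} {C : Set V} {z : V} : z ∈ gp G {C} ↔ z ∈ G ∧ z ∈ C := by
  rw [TS.mem_gp, TS.fs_single]

/-- TARGET. the wave of a forest is the union of the waves of its cones: for `z ∈ C ∈ F` -/
theorem TS.gw_fo (T : TS D r) {F : Finset (Set V)} (hF : T.Fo F) {C : Set V} (hC : C ∈ F) {g : V → ℕ} (G : Finset V) (ζ : V → ℕ) {z : V} (hz : z ∈ C) :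
    z ∈ gw D r g (gp G F) ζ ↔ z ∈ gw D r g (gp G {C}) (rs (gp G {C}) ζ) := by
  rw [t12_gw_rs]
  have hsub : gp G {C} ⊆ gp G F := t12_gp_sub (Finset.singleton_subset_iff.2 hC) G
  constructor
  · intro h
    have key : gw D r g (gp G F) ζ ⊆ gw D r g (gp G {C}) ζ ∪ (gp G F).filter (fun x => x ∉ C) := by
      refine gw_least' ?_
      intro y hy hyn
      rw [Finset.mem_union, not_or, Finset.mem_filter, not_and, not_not] at hyn
      have hyC := hyn.2 hy
      have hy1 : y ∈ gp G {C} := t12_mem_gp1.2 ⟨(TS.mem_gp.1 hy).1, hyC⟩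
      have h1 := (gw_GCl (D := D) (r := r) g (gp G {C}) ζ).2 y hy1 hyn.1
      have h2 : dg D y (gw D r g (gp G {C}) ζ ∪ (gp G F).filter (fun x => x ∉ C)) ≤ dg D y (gw D r g (gp G {C}) ζ) := by
        refine TS.t5b_dg_le ?_
        intro x hx hxy
        rcases Finset.mem_union.1 hx with hx | hx
        · exact hx
        · exfalso
          rw [Finset.mem_filter] at hx
          rcases T.nbr_fo hF hC hyC hxy with h3 | h3
          · exact hx.2 h3
          · obtain ⟨-, C', hC', hxC'⟩ := TS.mem_gp.1 hx.1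
            exact hF.nadj C hC C' hC' x h3 hxC'
      omega
    rcases Finset.mem_union.1 (key h) with h1 | h1
    · exact h1
    · exact absurd hz (Finset.mem_filter.1 h1).2
  · intro h
    exact gw_mono hsub (fun y _ => le_rfl) h

/-- the marks of a forest -/
theorem TS.t12_rch (T : TS D r) {F : Finset (Set V)} (hF : T.Fo F) {C : Set V} (hC : C ∈ F) (G : Finset V) (ζ : V → ℕ) {j : ℕ} {A : Set V} (hA : A ∈ T.de {C} j) :
    rch D (T.fi F) (gw D r (T.fi F) (gp G F) ζ) A ↔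
      rch D (T.fi {C}) (gw D r (T.fi {C}) (gp G {C}) (rs (gp G {C}) ζ)) A := by
  have hAC : A ⊆ C := T.de_single_sub (hF.cn C hC) hA
  have hfi : ∀ z ∈ C, T.fi F z = T.fi {C} z := fun z hz => by
    rw [T.fi_eq hF hC hz, T.fi_eq (T.fo_single (hF.cn C hC)) (Finset.mem_singleton_self C) hz]
  have hw : ∀ z ∈ C, z ∈ gw D r (T.fi F) (gp G F) ζ ↔ z ∈ gw D r (T.fi {C}) (gp G {C}) (rs (gp G {C}) ζ) := by
    intro z hz
    rw [T.gw_fo hF hC G ζ hz]
    have : gw D r (T.fi F) (gp G {C}) (rs (gp G {C}) ζ) = gw D r (T.fi {C}) (gp G {C}) (rs (gp G {C}) ζ) :=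
      gw_congr (fun y hy => by rw [hfi y (t12_mem_gp1.1 hy).2])
    rw [this]
  have hsup : ∀ x z, z ∈ C → D.Adj x z → x ∈ gw D r (T.fi F) (gp G F) ζ → x ∈ C := by
    intro x z hz hxz hx
    rcases T.nbr_fo hF hC hz hxz.symm with h | h
    · exact h
    · obtain ⟨-, C', hC', hxC'⟩ := TS.mem_gp.1 (gw_sub _ _ _ hx)
      exact absurd hxC' (hF.nadj C hC C' hC' x h)
  constructor
  · rintro ⟨z, hz, h | ⟨x, hx, hxA, hxz⟩⟩
    · exact ⟨z, hz, Or.inl (by rw [← hfi z (hAC hz)]; exact h)⟩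
    · exact ⟨z, hz, Or.inr ⟨x, (hw x (hsup x z (hAC hz) hxz hx)).1 hx, hxA, hxz⟩⟩
  · rintro ⟨z, hz, h | ⟨x, hx, hxA, hxz⟩⟩
    · exact ⟨z, hz, Or.inl (by rw [hfi z (hAC hz)]; exact h)⟩
    · have hxC : x ∈ C := (t12_mem_gp1.1 (gw_sub _ _ _ hx)).2
      exact ⟨z, hz, Or.inr ⟨x, (hw x hxC).2 hx, hxA, hxz⟩⟩

/-- an ancestor, in a forest, of a descendant of `C ∈ F` is a descendant of `C` -/
theorem TS.t12_anc (T : TS D r) {F : Finset (Set V)} (hF : T.Fo F) {C : Set V} (hC : C ∈ F) {i j : ℕ} {A B : Set V} (hA : A ∈ T.de {C} j)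
    (hB : B ∈ T.de F i) (h : A ⊆ B) : B ∈ T.de {C} i := by
  rw [T.de_biUnion, Finset.mem_biUnion] at hB
  obtain ⟨C', hC', hB⟩ := hB
  by_cases hCC : C = C'
  · rw [hCC]; exact hB
  · exfalso
    have h1 : A ⊆ C := T.de_single_sub (hF.cn C hC) hA
    have h2 : B ⊆ C' := T.de_single_sub (hF.cn C' hC') hB
    obtain ⟨z, hz⟩ := T.cn_ne (T.t5b_cn (T.fo_single (hF.cn C hC)) hA)
    exact Set.disjoint_left.1 (hF.disj C hC C' hC' hCC) (h1 hz) (h2 (h hz))

theorem TS.t12_card (T : TS D r) {F : Finset (Set V)} (hF : T.Fo F) (j : ℕ) (P : Set V → Prop) :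
    ((T.de F j).filter P).card = ∑ C ∈ F, ((T.de {C} j).filter P).card := by
  have h1 : (T.de F j).filter P = F.biUnion (fun C => (T.de {C} j).filter P) := by
    rw [T.de_biUnion, Finset.filter_biUnion]
  rw [h1, Finset.card_biUnion]
  intro C hC C' hC' hne
  show Disjoint _ _
  rw [Finset.disjoint_left]
  intro A hA hA'
  rw [Finset.mem_filter] at hA hA'
  have h2 : A ⊆ C := T.de_single_sub (hF.cn C hC) hA.1
  have h3 : A ⊆ C' := T.de_single_sub (hF.cn C' hC') hA'.1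
  obtain ⟨z, hz⟩ := T.cn_ne (T.t5b_cn (T.fo_single (hF.cn C hC)) hA.1)
  exact Set.disjoint_left.1 (hF.disj C hC C' hC' hne) (h2 hz) (h3 hz)

/-- TARGET (CORRECTED: the hypothesis `hζ` is needed, because `nab` looks at the heights of `ζ` also outside `G`). -/
theorem TS.fn_fo (T : TS D r) {S : Set V → Prop} {F : Finset (Set V)} (hF : T.Fo F) (G : Finset V) (j : ℕ) (ζ : V → ℕ)
    (hζ : ∀ z ∈ fs F, z ∉ G → ζ z ≠ r) :
    T.fn S F (T.fi F) G j ζ = ∑ C ∈ F, T.fn S {C} (T.fi {C}) G j (rs (gp G {C}) ζ) := by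
  unfold TS.fn
  rw [T.t12_card hF]
  refine Finset.sum_congr rfl (fun C hC => ?_)
  congr 1
  refine Finset.filter_congr (fun A hA => ?_)
  unfold TS.mkd
  rw [T.t12_rch hF hC G ζ hA]
  refine and_congr_right (fun _ => ?_)
  have hfb : ∀ i, ∀ B ∈ T.de {C} i, (T.fb ζ B ↔ T.fb (rs (gp G {C}) ζ) B) := by
    intro i B hB
    have hcn := T.t5b_cn (T.fo_single (hF.cn C hC)) hB
    have hBC : B ⊆ C := T.de_single_sub (hF.cn C hC) hB
    constructor
    · intro h z hz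
      have hzC := hBC (T.Q_sub hcn hz)
      have h1 := h z hz
      have hzG : z ∈ G := by
        by_contra hzG
        exact hζ z ⟨C, hC, hzC⟩ hzG h1
      rw [rs_mem (t12_mem_gp1.2 ⟨hzG, hzC⟩)]
      exact h1
    · intro h z hz
      have h1 := h z hz
      by_cases hzG : z ∈ gp G {C}
      · rwa [rs_mem hzG] at h1
      · rw [rs_notMem hzG] at h1
        have := T.gd.one_le
        omega
  constructor
  · intro h i B hB hS hAB
    rw [← hfb i B hB]
    exact h i B (by rw [T.de_biUnion, Finset.mem_biUnion]; exact ⟨C, hC, hB⟩) hS hAB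
  · intro h i B hB hS hAB
    have hB' := T.t12_anc hF hC hA hB hAB.1
    rw [hfb i B hB']
    exact h i B hB' hS hAB

/-- TARGET. -/
theorem TS.rn_fo (T : TS D r) {F : Finset (Set V)} (hF : T.Fo F) (G : Finset V) (j : ℕ) (ζ : V → ℕ) :
    T.rn F G j ζ = ∑ C ∈ F, T.rn {C} G j (rs (gp G {C}) ζ) := by
  unfold TS.rn TS.fn
  rw [T.t12_card hF]
  refine Finset.sum_congr rfl (fun C hC => ?_)
  congr 1
  refine Finset.filter_congr (fun A hA => ?_)
  unfold TS.mkd
  rw [T.t12_rch hF hC G ζ hA]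
  refine and_congr_right (fun _ => ?_)
  exact ⟨fun _ _ _ _ hS => hS.elim, fun _ _ _ _ hS => hS.elim⟩

/-- TARGET. monotonicity in the input -/
theorem TS.fn_mono (T : TS D r) {S : Set V → Prop} {F : Finset (Set V)} (hF : T.Fo F) {g : V → ℕ} (hg : ∀ z ∈ fs F, g z ≤ T.fi F z) (G : Finset V) (j : ℕ) (ζ : V → ℕ) :
    T.fn S F g G j ζ ≤ T.fn S F (T.fi F) G j ζ := by
  unfold TS.fn
  refine Finset.card_le_card ?_
  intro A hA
  rw [Finset.mem_filter] at hA ⊢
  exact ⟨hA.1, TS.rch_mono hg (T.t5b_sub hF hA.1) hA.2.1, hA.2.2⟩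

theorem TS.t12_ex_one (T : TS D r) (G : Finset V) : ex D r G (fun _ => (1:ℝ)) = 1 := by
  unfold ex
  rw [Finset.sum_const, nsmul_eq_mul, mul_one]
  have := T.gd.card_pos G
  exact div_self (by exact_mod_cast this.ne')

/-- TARGET. marginal of a forest on one of its cones -/
theorem TS.fo_marg (T : TS D r) {F : Finset (Set V)} (hF : T.Fo F) {C : Set V} (hC : C ∈ F) (G : Finset V) (h : (V → ℕ) → ℝ) :
    ex D r (gp G F) (fun ζ => h (rs (gp G {C}) ζ)) = ex D r (gp G {C}) h := by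
  have h1 := T.fo_prod hF G (fun C' => if C' = C then h else fun _ => 1)
  have h2 : (fun ζ : V → ℕ => ∏ C' ∈ F, (fun C' => if C' = C then h else fun _ => (1:ℝ)) C' (rs (gp G {C'}) ζ)) =
      fun ζ => h (rs (gp G {C}) ζ) := by
    funext ζ
    rw [Finset.prod_eq_single C]
    · simp
    · intro C' _ hne
      simp [hne]
    · intro hn; exact absurd hC hn
  rw [h2] at h1
  rw [h1, Finset.prod_eq_single C]
  · simp
  · intro C' _ hne
    simp only [if_neg hne]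
    exact T.t12_ex_one _
  · intro hn; exact absurd hC hn

/-- the first `p` full waves do not reach generation `L` -/
def TS.nr (T : TS D r) (F : Finset (Set V)) (G : Finset V) (L p : ℕ) (ζ : V → ℕ) : Prop :=
  ∀ i < p, T.rn F G L (gi D r (T.fi F) (gp G F) i ζ) = 0

theorem TS.t12_up_mono (T : TS D r) {F F' : Finset (Set V)} (h : F ⊆ F') (L : ℕ) : T.up F L ⊆ T.up F' L := by
  intro z hz
  rw [TS.t5c_mem_up] at hz ⊢
  obtain ⟨k, hk, A, hA, hz⟩ := hz
  refine ⟨k, hk, A, ?_, hz⟩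
  rw [T.de_biUnion, Finset.mem_biUnion] at hA ⊢
  obtain ⟨C, hC, hA⟩ := hA
  exact ⟨C, h hC, hA⟩

theorem TS.t12_up_fs (T : TS D r) {F : Finset (Set V)} (hF : T.Fo F) {L : ℕ} {z : V} (hz : z ∈ T.up F L) : z ∈ fs F :=
  (T.mem_fs_iff hF L z).2 (Or.inl hz)

theorem TS.t12_pr_mono (T : TS D r) {G : Finset V} {P Q : (V → ℕ) → Prop} (h : ∀ ζ ∈ Rc D r G, P ζ → Q ζ) : pr D r G P ≤ pr D r G Q := by
  unfold pr
  refine div_le_div_of_nonneg_right ?_ (by positivity)
  have : ((Rc D r G).filter P).card ≤ ((Rc D r G).filter Q).card := by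
    refine Finset.card_le_card ?_
    intro ζ hζ
    rw [Finset.mem_filter] at hζ ⊢
    exact ⟨hζ.1, h ζ hζ.1 hζ.2⟩
  exact_mod_cast this

theorem TS.t12_pr_eq (T : TS D r) {G : Finset V} {P : (V → ℕ) → Prop} : pr D r G P = ex D r G (fun ζ => if P ζ then (1:ℝ) else 0) := by
  unfold pr ex
  rw [Finset.sum_ite, Finset.sum_const_zero, add_zero, Finset.sum_const, nsmul_eq_mul, mul_one]

theorem TS.t12_ex_mono (T : TS D r) {G : Finset V} {f g : (V → ℕ) → ℝ} (h : ∀ ζ ∈ Rc D r G, f ζ ≤ g ζ) : ex D r G f ≤ ex D r G g := by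
  unfold ex
  exact div_le_div_of_nonneg_right (Finset.sum_le_sum h) (by positivity)

theorem TS.t12_ex_sum (T : TS D r) {G : Finset V} {ι : Type*} (s : Finset ι) (f : ι → (V → ℕ) → ℝ) :
    ex D r G (fun ζ => ∑ i ∈ s, f i ζ) = ∑ i ∈ s, ex D r G (f i) := by
  unfold ex
  rw [Finset.sum_comm, Finset.sum_div]

/-- TARGET. tightness for forests and several waves (the waves preserve the uniform measure: `sum_gi`) -/
theorem TS.tight_fo (T : TS D r) {F : Finset (Set V)} (hF : T.Fo F) (p : ℕ) (ε : ℝ) (hε : 0 < ε) : ∃ L0 : ℕ, ∀ L, L0 ≤ L → ∀ G : Finset V, T.up F L ⊆ G →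
    pr D r (gp G F) (fun ζ => ¬ T.nr F G L p ζ) ≤ ε := by
  have hδ : 0 < ε / ((p : ℝ) * F.card + 1) := by positivity
  obtain ⟨L0, hL0⟩ := T.tight _ hδ
  refine ⟨L0, fun L hL G hG => ?_⟩
  have hadm : Adm D r 0 (T.fi F) (gp G F) := T.adm_fi hF (fun z _ => le_rfl) G
  -- one wave
  have h1 : ex D r (gp G F) (fun ζ => if T.rn F G L ζ ≠ 0 then (1:ℝ) else 0) ≤ F.card * (ε / ((p : ℝ) * F.card + 1)) := by
    calc ex D r (gp G F) (fun ζ => if T.rn F G L ζ ≠ 0 then (1:ℝ) else 0)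
        ≤ ex D r (gp G F) (fun ζ => ∑ C ∈ F, if 1 ≤ T.rn {C} G L (rs (gp G {C}) ζ) then (1:ℝ) else 0) := by
          refine T.t12_ex_mono (fun ζ _ => ?_)
          have hnn : ∀ C ∈ F, (0:ℝ) ≤ (if 1 ≤ T.rn {C} G L (rs (gp G {C}) ζ) then (1:ℝ) else 0) := by
            intro C _; split_ifs <;> norm_num
          split_ifs with h0
          · rw [T.rn_fo hF] at h0
            obtain ⟨C, hC, hne⟩ := Finset.exists_ne_zero_of_sum_ne_zero h0
            have h2 := Finset.single_le_sum hnn hC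
            rw [if_pos (Nat.one_le_iff_ne_zero.2 hne)] at h2
            exact h2
          · exact Finset.sum_nonneg hnn
      _ = ∑ C ∈ F, pr D r (gp G {C}) (fun ζ => 1 ≤ T.rn {C} G L ζ) := by
          rw [T.t12_ex_sum]
          refine Finset.sum_congr rfl (fun C hC => ?_)
          rw [T.t12_pr_eq]
          have h5 := T.fo_marg hF hC G (fun ζ => if 1 ≤ T.rn {C} G L ζ then (1:ℝ) else 0)
          convert h5
      _ ≤ ∑ C ∈ F, (ε / ((p : ℝ) * F.card + 1)) := by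
          refine Finset.sum_le_sum (fun C hC => hL0 L hL C (hF.cn C hC) G ?_)
          exact (T.t12_up_mono (Finset.singleton_subset_iff.2 hC) L).trans hG
      _ = F.card * (ε / ((p : ℝ) * F.card + 1)) := by rw [Finset.sum_const, nsmul_eq_mul]
  -- several waves
  have h2 : pr D r (gp G F) (fun ζ => ¬ T.nr F G L p ζ) ≤ ∑ i ∈ range p, ex D r (gp G F) (fun ζ => if T.rn F G L (gi D r (T.fi F) (gp G F) i ζ) ≠ 0 then (1:ℝ) else 0) := by
    rw [T.t12_pr_eq, ← T.t12_ex_sum]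
    refine T.t12_ex_mono (fun ζ _ => ?_)
    have hnn : ∀ i ∈ range p, (0:ℝ) ≤ (if T.rn F G L (gi D r (T.fi F) (gp G F) i ζ) ≠ 0 then (1:ℝ) else 0) := by
      intro i _; split_ifs <;> norm_num
    by_cases h0 : T.nr F G L p ζ
    · rw [if_neg (not_not.2 h0)]
      exact Finset.sum_nonneg hnn
    · rw [if_pos h0]
      unfold TS.nr at h0
      push Not at h0
      obtain ⟨i, hi, hne⟩ := h0
      have h3 := Finset.single_le_sum hnn (Finset.mem_range.2 hi)
      rw [if_pos hne] at h3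
      exact h3
  have h3 : ∀ i ∈ range p, ex D r (gp G F) (fun ζ => if T.rn F G L (gi D r (T.fi F) (gp G F) i ζ) ≠ 0 then (1:ℝ) else 0) ≤
      F.card * (ε / ((p : ℝ) * F.card + 1)) := by
    intro i _
    refine le_trans (le_of_eq ?_) h1
    unfold ex
    rw [sum_gi hadm i (fun ζ => if T.rn F G L ζ ≠ 0 then (1:ℝ) else 0)]
  refine h2.trans ((Finset.sum_le_sum h3).trans ?_)
  rw [Finset.sum_const, Finset.card_range, nsmul_eq_mul]
  have hpos : (0:ℝ) < (p : ℝ) * F.card + 1 := by positivity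
  rw [← mul_assoc, mul_div_assoc', div_le_iff₀ hpos]
  nlinarith

omit [D.LocallyFinite] in
theorem TS.t12_not_rch {g : V → ℕ} {A : Set V} {G : Finset V} {ζ : V → ℕ} (hζ : ∀ z ∈ G, ζ z ≤ r)
    (h : ¬ rch D g (gw D r g G ζ) A) {z : V} (hz : z ∈ A) : z ∉ gw D r g G ζ := by
  intro hzW
  have hXsub : (gw D r g G ζ).filter (fun y => y ∈ A) ⊆ gw D r g G ζ := Finset.filter_subset _ _
  obtain ⟨y, hy, hlt⟩ := gw_fd hXsub ⟨z, Finset.mem_filter.2 ⟨hzW, hz⟩⟩
  rw [Finset.mem_filter] at hy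
  have h1 : g y = 0 := by
    by_contra h0
    exact h ⟨y, hy.2, Or.inl (Nat.pos_of_ne_zero h0)⟩
  have h2 : dg D y (gw D r g G ζ \ (gw D r g G ζ).filter (fun y => y ∈ A)) = 0 := by
    refine dg_eq_zero (fun x hx hadj => ?_)
    rw [Finset.mem_sdiff, Finset.mem_filter, not_and] at hx
    exact h ⟨y, hy.2, Or.inr ⟨x, hx.1, hx.2 hx.1, hadj.symm⟩⟩
  have h3 := hζ y (gw_sub _ _ _ hy.1)
  omega

/-- TARGET. locality of a wave that does not reach generation `L`: with `H = up F L` (note `gp H F = H`) -/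
theorem TS.gw_loc (T : TS D r) {F : Finset (Set V)} (hF : T.Fo F) {g : V → ℕ} (hg : ∀ z ∈ fs F, g z ≤ T.fi F z) {G : Finset V} {L L' : ℕ} (hLL : L ≤ L') (hG : T.up F L' ⊆ G) {ζ : V → ℕ}
    (hζ : ∀ z ∈ gp G F, ζ z ≤ r) (hn : ∀ A ∈ T.de F L, ¬ rch D g (gw D r g (gp G F) ζ) A) :
    gw D r g (gp G F) ζ = gw D r g (gp (T.up F L') F) (rs (T.up F L') ζ) ∧ gw D r g (gp G F) ζ ⊆ T.up F L := by
  have h2 : gw D r g (gp G F) ζ ⊆ T.up F L := by
    intro z hz
    rcases (T.mem_fs_iff hF L z).1 (TS.mem_gp.1 (gw_sub _ _ _ hz)).2 with h | ⟨A, hA, hzA⟩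
    · exact h
    · exact absurd hz (TS.t12_not_rch hζ (hn A hA) hzA)
  have hup : T.up F L ⊆ T.up F L' := T.up_mono F hLL
  have hsub : gp (T.up F L') F ⊆ gp G F := fun z hz =>
    TS.mem_gp.2 ⟨hG (TS.mem_gp.1 hz).1, (TS.mem_gp.1 hz).2⟩
  have h3 : gw D r g (gp (T.up F L') F) (rs (T.up F L') ζ) ⊆ gw D r g (gp G F) ζ := by
    refine gw_mono hsub (fun y hy => ?_)
    rw [rs_mem (TS.mem_gp.1 hy).1]
  refine ⟨Finset.Subset.antisymm ?_ h3, h2⟩
  refine gw_least' ?_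
  intro y hy hyn
  by_cases hyH : y ∈ T.up F L'
  · have h4 := (gw_GCl (D := D) (r := r) g (gp (T.up F L') F) (rs (T.up F L') ζ)).2 y
      (TS.mem_gp.2 ⟨hyH, (TS.mem_gp.1 hy).2⟩) hyn
    rwa [rs_mem hyH] at h4
  · have hyF := (TS.mem_gp.1 hy).2
    have h5 : y ∉ T.up F L := fun h => hyH (hup h)
    rcases (T.mem_fs_iff hF L y).1 hyF with h | ⟨A, hA, hyA⟩
    · exact absurd h h5
    · have h6 : g y = 0 := by
        by_contra h0
        exact hn A hA ⟨y, hyA, Or.inl (Nat.pos_of_ne_zero h0)⟩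
      have h7 : dg D y (gw D r g (gp (T.up F L') F) (rs (T.up F L') ζ)) = 0 := by
        refine dg_eq_zero (fun x hx hadj => ?_)
        have hxW := h3 hx
        exact hn A hA ⟨y, hyA, Or.inr ⟨x, hxW, fun hxA => TS.t12_not_rch hζ (hn A hA) hxA hxW, hadj.symm⟩⟩
      have h8 := hζ y hy
      omega

/-- TARGET. the configuration after such a wave, on the first `L'` generations -/
theorem TS.gs_loc (T : TS D r) {F : Finset (Set V)} (hF : T.Fo F) {g : V → ℕ} (hg : ∀ z ∈ fs F, g z ≤ T.fi F z) {G : Finset V} {L L' : ℕ} (hLL : L ≤ L') (hG : T.up F L' ⊆ G) {ζ : V → ℕ}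
    (hζ : ∀ z ∈ gp G F, ζ z ≤ r) (hn : ∀ A ∈ T.de F L, ¬ rch D g (gw D r g (gp G F) ζ) A) :
    rs (T.up F L') (gs D r 0 g (gp G F) ζ) = gs D r 0 g (gp (T.up F L') F) (rs (T.up F L') ζ) := by
  have hw := (T.gw_loc hF hg hLL hG hζ hn).1
  funext z
  by_cases hz : z ∈ T.up F L'
  · have hzF := T.t12_up_fs hF hz
    have h1 : z ∈ gp G F := TS.mem_gp.2 ⟨hG hz, hzF⟩
    have h2 : z ∈ gp (T.up F L') F := TS.mem_gp.2 ⟨hz, hzF⟩
    rw [rs_mem hz]
    unfold gs
    rw [if_pos h1, if_pos h2, ← hw, rs_mem hz]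
  · rw [rs_notMem hz]
    unfold gs
    rw [if_neg (fun h => hz (TS.mem_gp.1 h).1)]

/-- TARGET. LIMITS of bounded functions which are determined by the first `L+1` generations when the first `p` full waves do not reach generation `L` -/
theorem TS.lim_wv (T : TS D r) {F : Finset (Set V)} (hF : T.Fo F) (p : ℕ) (f : Finset V → (V → ℕ) → ℝ) (b : ℝ) (hb : ∀ G ζ, |f G ζ| ≤ b) (L0 : ℕ)
    (h : ∀ L, L0 ≤ L → ∀ G : Finset V, T.up F (L + 1) ⊆ G → ∀ ζ ∈ Rc D r (gp G F), T.nr F G L p ζ →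
      f G ζ = f (T.up F (L + 1)) (rs (T.up F (L + 1)) ζ)) : ∃ ℓ : ℝ,
    Tendsto (fun G : Finset V => ex D r (gp G F) (f G)) atTop (𝓝 ℓ) := by
  refine T.lim_ql (T.nc_fs hF) f b hb ?_
  intro ε hε
  obtain ⟨L1, hL1⟩ := T.tight_fo hF p ε hε
  have e1 : L0 ≤ max L0 L1 := le_max_left _ _
  have e2 : L1 ≤ max L0 L1 := le_max_right _ _
  generalize max L0 L1 = L at e1 e2
  refine ⟨T.up F (L + 1), f (T.up F (L + 1)), ?_⟩
  filter_upwards [Filter.eventually_ge_atTop (T.up F (L + 1))] with G hG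
  have hG' : T.up F (L + 1) ⊆ G := hG
  refine le_trans (T.t12_pr_mono (G := gp G F) (Q := fun ζ => ¬ T.nr F G L p ζ) ?_)
    (hL1 L e2 G ((T.up_mono F (Nat.le_succ L)).trans hG'))
  intro ζ hζ hne hnr
  exact hne (h L e1 G hG' ζ hζ hnr)

/-! ### automorphisms -/

/-- the image of a family of sets -/
noncomputable def im (φ : D ≃g D) (F : Finset (Set V)) : Finset (Set V) := F.image (fun C => φ '' C)

omit [D.LocallyFinite] in
theorem t12_mem_im {φ : D ≃g D} {F : Finset (Set V)} {A : Set V} : A ∈ im φ F ↔ ∃ C ∈ F, φ '' C = A := by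
  unfold im
  rw [Finset.mem_image]

omit [D.LocallyFinite] in
theorem t12_mem_image {φ : D ≃g D} {G : Finset V} {z : V} : z ∈ G.image φ ↔ φ.symm z ∈ G := by
  rw [Finset.mem_image]
  constructor
  · rintro ⟨x, hx, rfl⟩
    simpa using hx
  · intro h
    exact ⟨φ.symm z, h, by simp⟩

omit [D.LocallyFinite] in
theorem t12_mem_img {φ : D ≃g D} {C : Set V} {z : V} : z ∈ φ '' C ↔ φ.symm z ∈ C := by
  constructor
  · rintro ⟨x, hx, rfl⟩
    simpa using hx
  · intro h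
    exact ⟨φ.symm z, h, by simp⟩

omit [D.LocallyFinite] in
theorem t12_adj {φ : D ≃g D} {x y : V} : D.Adj (φ.symm x) (φ.symm y) ↔ D.Adj x y := φ.symm.map_adj_iff

omit [D.LocallyFinite] in
theorem t12_dg {φ : D ≃g D} {z : V} {S : Finset V} : dg D z (S.image φ) = dg D (φ.symm z) S := by
  unfold dg
  rw [Finset.filter_image, Finset.card_image_of_injective _ φ.injective]
  congr 1
  refine Finset.filter_congr (fun x _ => ?_)
  rw [← t12_adj (φ := φ) (x := z)]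
  simp

omit [D.LocallyFinite] in
theorem t12_image_symm {φ : D ≃g D} (G : Finset V) : (G.image φ.symm).image φ = G := by
  ext z
  rw [t12_mem_image]
  constructor
  · intro h
    obtain ⟨x, hx, hxz⟩ := Finset.mem_image.1 h
    rw [← φ.symm.injective hxz]; exact hx
  · intro h
    exact Finset.mem_image_of_mem _ h

omit [D.LocallyFinite] in
theorem t12_symm_image {φ : D ≃g D} (G : Finset V) : (G.image φ).image φ.symm = G := by
  ext z
  constructor
  · intro h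
    obtain ⟨y, hy, rfl⟩ := Finset.mem_image.1 h
    exact t12_mem_image.1 hy
  · intro h
    refine Finset.mem_image.2 ⟨φ z, Finset.mem_image_of_mem _ h, ?_⟩
    simp

omit [D.LocallyFinite] in
theorem t12_comp {φ : D ≃g D} (ζ : V → ℕ) : (ζ ∘ φ.symm) ∘ φ = ζ := by
  funext x
  simp

omit [D.LocallyFinite] in
theorem t12_comp' {φ : D ≃g D} (ζ : V → ℕ) : (ζ ∘ φ) ∘ φ.symm = ζ := by
  funext x
  simp

omit [D.LocallyFinite] in
theorem t12_Rc {φ : D ≃g D} {G : Finset V} {ζ : V → ℕ} : ζ ∈ Rc D r (G.image φ) ↔ ζ ∘ φ ∈ Rc D r G := by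
  rw [mem_Rc, mem_Rc]
  have h1 : ∀ z, z ∈ G ↔ φ z ∈ G.image φ := fun z => by rw [t12_mem_image]; simp
  refine and_congr ?_ ?_
  · unfold IsConfig
    constructor
    · rintro ⟨ha, hb⟩
      exact ⟨fun v hv => ha (φ v) ((h1 v).1 hv), fun v hv => hb (φ v) (fun h => hv ((h1 v).2 h))⟩
    · rintro ⟨ha, hb⟩
      refine ⟨fun v hv => ?_, fun v hv => ?_⟩
      · have := ha (φ.symm v) (t12_mem_image.1 hv)
        simpa using this
      · have := hb (φ.symm v) (fun h => hv (t12_mem_image.2 h))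
        simpa using this
  · unfold RecW
    constructor
    · intro h U hU hne
      obtain ⟨z, hz, hlt⟩ := h (U.image φ) (Finset.image_subset_image hU) (hne.image φ)
      refine ⟨φ.symm z, t12_mem_image.1 hz, ?_⟩
      rw [t12_dg] at hlt
      simpa using hlt
    · intro h U hU hne
      have hU' : U.image φ.symm ⊆ G := by
        intro x hx
        obtain ⟨y, hy, rfl⟩ := Finset.mem_image.1 hx
        exact t12_mem_image.1 (hU hy)
      obtain ⟨z, hz, hlt⟩ := h (U.image φ.symm) hU' (hne.image _)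
      obtain ⟨y, hy, rfl⟩ := Finset.mem_image.1 hz
      refine ⟨y, hy, ?_⟩
      rw [← t12_dg, t12_image_symm] at hlt
      simpa using hlt

omit [D.LocallyFinite] in
/-- TARGET. -/
theorem ex_map (φ : D ≃g D) (G : Finset V) (f : (V → ℕ) → ℝ) : ex D r (G.image φ) f = ex D r G (fun ζ => f (ζ ∘ φ.symm)) := by
  have h : Rc D r (G.image φ) = (Rc D r G).image (fun ζ => ζ ∘ φ.symm) := by
    ext ζ
    rw [t12_Rc, Finset.mem_image]
    constructor
    · intro h
      exact ⟨ζ ∘ φ, h, t12_comp' ζ⟩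
    · rintro ⟨ξ, hξ, rfl⟩
      rwa [t12_comp]
  have hinj : Function.Injective (fun ζ : V → ℕ => ζ ∘ φ.symm) := by
    intro ζ ξ he
    have : (ζ ∘ φ.symm) ∘ φ = (ξ ∘ φ.symm) ∘ φ := congrArg (fun x : V → ℕ => x ∘ φ) he
    rwa [t12_comp, t12_comp] at this
  unfold ex
  rw [h, Finset.sum_image (fun _ _ _ _ he => hinj he), Finset.card_image_of_injective _ hinj]

omit [D.LocallyFinite] in
theorem t12_gw_le (φ : D ≃g D) (g : V → ℕ) (G : Finset V) (ζ : V → ℕ) : gw D r (g ∘ φ.symm) (G.image φ) (ζ ∘ φ.symm) ⊆ (gw D r g G ζ).image φ := by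
  refine gw_least' ?_
  intro y hy hyn
  rw [t12_mem_image] at hy hyn
  rw [t12_dg]
  exact (gw_GCl g G ζ).2 _ hy hyn

omit [D.LocallyFinite] in
/-- TARGET. -/
theorem gw_map (φ : D ≃g D) (g : V → ℕ) (G : Finset V) (ζ : V → ℕ) : gw D r (g ∘ φ.symm) (G.image φ) (ζ ∘ φ.symm) = (gw D r g G ζ).image φ := by
  refine Finset.Subset.antisymm (t12_gw_le φ g G ζ) ?_
  have h := t12_gw_le (r := r) φ.symm (g ∘ φ.symm) (G.image φ) (ζ ∘ φ.symm)
  have e1 : ((g ∘ φ.symm) ∘ φ.symm.symm : V → ℕ) = g := by funext x; simp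
  have e2 : ((ζ ∘ φ.symm) ∘ φ.symm.symm : V → ℕ) = ζ := by funext x; simp
  rw [e1, e2, t12_symm_image] at h
  have h2 := Finset.image_subset_image (f := φ) h
  rwa [t12_image_symm] at h2

omit [D.LocallyFinite] in
/-- TARGET. -/
theorem gs_map (φ : D ≃g D) (g : V → ℕ) (G : Finset V) (ζ : V → ℕ) : gs D r 0 (g ∘ φ.symm) (G.image φ) (ζ ∘ φ.symm) = (gs D r 0 g G ζ) ∘ φ.symm := by
  funext z
  unfold gs
  rw [gw_map, t12_dg]
  simp only [Function.comp_apply, t12_mem_image, Pi.zero_apply]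

/-- TARGET. -/
theorem gp_map (φ : D ≃g D) (G : Finset V) (F : Finset (Set V)) : gp (G.image φ) (im φ F) = (gp G F).image φ := by
  ext z
  rw [TS.mem_gp, t12_mem_image, t12_mem_image, TS.mem_gp]
  refine and_congr_right (fun _ => ?_)
  constructor
  · rintro ⟨A, hA, hz⟩
    obtain ⟨C, hC, rfl⟩ := t12_mem_im.1 hA
    exact ⟨C, hC, t12_mem_img.1 hz⟩
  · rintro ⟨C, hC, hz⟩
    exact ⟨φ '' C, t12_mem_im.2 ⟨C, hC, rfl⟩, t12_mem_img.2 hz⟩

theorem TS.t12_o (T : TS D r) (φ : D ≃g D) {C : Set V} (hC : T.Cn C) : T.o (φ '' C) = (T.o C).image φ := by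
  ext x
  rw [T.mem_o (T.aut_cn hC φ), t12_mem_image, T.mem_o hC, t12_mem_img]
  refine and_congr_right (fun _ => ?_)
  constructor
  · rintro ⟨y, hy, hxy⟩
    exact ⟨φ.symm y, t12_mem_img.1 hy, t12_adj.2 hxy⟩
  · rintro ⟨y, hy, hxy⟩
    refine ⟨φ y, ⟨y, hy, rfl⟩, ?_⟩
    rw [← t12_adj (φ := φ)]
    simpa using hxy

omit [D.LocallyFinite] in
theorem t12_img_inj (φ : D ≃g D) : Function.Injective (fun C : Set V => φ '' C) := φ.injective.image_injective

/-- TARGET. -/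
theorem TS.fo_map (T : TS D r) (φ : D ≃g D) {F : Finset (Set V)} (hF : T.Fo F) : T.Fo (im φ F) := by
  refine ⟨?_, ?_, ?_⟩
  · intro A hA
    obtain ⟨C, hC, rfl⟩ := t12_mem_im.1 hA
    exact T.aut_cn (hF.cn C hC) φ
  · intro A hA A' hA' hne
    obtain ⟨C, hC, rfl⟩ := t12_mem_im.1 hA
    obtain ⟨C', hC', rfl⟩ := t12_mem_im.1 hA'
    have hne' : C ≠ C' := fun h => hne (by rw [h])
    exact (Set.disjoint_image_iff φ.injective).2 (hF.disj C hC C' hC' hne')
  · intro A hA A' hA' x hx hx'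
    obtain ⟨C, hC, rfl⟩ := t12_mem_im.1 hA
    obtain ⟨C', hC', rfl⟩ := t12_mem_im.1 hA'
    rw [T.t12_o φ (hF.cn C hC), t12_mem_image] at hx
    exact hF.nadj C hC C' hC' _ hx (t12_mem_img.1 hx')

/-- TARGET. -/
theorem TS.ch_map (T : TS D r) (φ : D ≃g D) {C : Set V} (hC : T.Cn C) : T.ch (φ '' C) = im φ (T.ch C) := by
  rw [T.aut_ch hC φ]
  rfl

/-- TARGET. -/
theorem TS.de_map (T : TS D r) (φ : D ≃g D) {F : Finset (Set V)} (hF : T.Fo F) (j : ℕ) : T.de (im φ F) j = im φ (T.de F j) := by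
  induction j with
  | zero => rfl
  | succ j ih =>
    rw [T.de_succ, T.de_succ, ih]
    ext A
    rw [Finset.mem_biUnion, t12_mem_im]
    constructor
    · rintro ⟨B, hB, hA⟩
      obtain ⟨C, hC, rfl⟩ := t12_mem_im.1 hB
      rw [T.ch_map φ (T.t5b_cn hF hC)] at hA
      obtain ⟨A', hA', rfl⟩ := t12_mem_im.1 hA
      exact ⟨A', Finset.mem_biUnion.2 ⟨C, hC, hA'⟩, rfl⟩
    · rintro ⟨A', hA', rfl⟩
      obtain ⟨C, hC, hA'⟩ := Finset.mem_biUnion.1 hA'
      refine ⟨φ '' C, t12_mem_im.2 ⟨C, hC, rfl⟩, ?_⟩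
      rw [T.ch_map φ (T.t5b_cn hF hC)]
      exact t12_mem_im.2 ⟨A', hA', rfl⟩

/-- TARGET. -/
theorem TS.fi_map (T : TS D r) (φ : D ≃g D) {F : Finset (Set V)} (hF : T.Fo F) : T.fi (im φ F) = T.fi F ∘ φ.symm := by
  have h : T.fo (im φ F) = (T.fo F).image φ := by
    ext x
    rw [T.t5b_mem_fo, t12_mem_image, T.t5b_mem_fo]
    constructor
    · rintro ⟨A, hA, hx⟩
      obtain ⟨C, hC, rfl⟩ := t12_mem_im.1 hA
      rw [T.t12_o φ (hF.cn C hC), t12_mem_image] at hx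
      exact ⟨C, hC, hx⟩
    · rintro ⟨C, hC, hx⟩
      refine ⟨φ '' C, t12_mem_im.2 ⟨C, hC, rfl⟩, ?_⟩
      rw [T.t12_o φ (hF.cn C hC), t12_mem_image]
      exact hx
  funext z
  unfold TS.fi dgi
  rw [h, t12_dg]
  rfl

/-- TARGET. -/
theorem TS.fb_map (T : TS D r) (φ : D ≃g D) {C : Set V} (hC : T.Cn C) (ζ : V → ℕ) : T.fb (ζ ∘ φ.symm) (φ '' C) ↔ T.fb ζ C := by
  unfold TS.fb
  rw [T.aut_Q hC φ]
  constructor
  · intro h z hz
    have := h (φ z) (Finset.mem_image_of_mem _ hz)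
    simpa using this
  · intro h z hz
    exact h _ (t12_mem_image.1 hz)

omit [D.LocallyFinite] in
/-- TARGET. -/
theorem rch_map (φ : D ≃g D) (g : V → ℕ) (W : Finset V) (A : Set V) : rch D (g ∘ φ.symm) (W.image φ) (φ '' A) ↔ rch D g W A := by
  unfold rch
  constructor
  · rintro ⟨z, hz, h | ⟨x, hx, hxA, hxz⟩⟩
    · exact ⟨φ.symm z, t12_mem_img.1 hz, Or.inl h⟩
    · exact ⟨φ.symm z, t12_mem_img.1 hz, Or.inr ⟨φ.symm x, t12_mem_image.1 hx, fun h => hxA (t12_mem_img.2 h), t12_adj.2 hxz⟩⟩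
  · rintro ⟨z, hz, h | ⟨x, hx, hxA, hxz⟩⟩
    · refine ⟨φ z, ⟨z, hz, rfl⟩, Or.inl ?_⟩
      simpa using h
    · refine ⟨φ z, ⟨z, hz, rfl⟩, Or.inr ⟨φ x, Finset.mem_image_of_mem _ hx, fun h => hxA ?_, ?_⟩⟩
      · have := t12_mem_img.1 h
        simpa using this
      · rw [← t12_adj (φ := φ)]
        simpa using hxz

/-- TARGET. -/
theorem TS.sp_map (T : TS D r) (φ : D ≃g D) {C : Set V} (hC : T.Cn C) : T.sp (φ '' C) ↔ T.sp C := by
  constructor
  · intro h
    have h1 := T.aut_sp (T.aut_cn hC φ) h φ.symm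
    have h2 : φ.symm '' (φ '' C) = C := by
      ext z
      constructor
      · rintro ⟨y, ⟨x, hx, rfl⟩, rfl⟩
        simpa using hx
      · intro hz
        exact ⟨φ z, ⟨z, hz, rfl⟩, by simp⟩
    rwa [h2] at h1
  · intro h
    exact T.aut_sp hC h φ

omit [D.LocallyFinite] in
theorem t12_ssub {φ : D ≃g D} {A B : Set V} : φ '' A ⊂ φ '' B ↔ A ⊂ B := by
  rw [Set.ssubset_def, Set.ssubset_def, Set.image_subset_image_iff φ.injective, Set.image_subset_image_iff φ.injective]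

/-- TARGET. -/
theorem TS.mkd_map (T : TS D r) (φ : D ≃g D) {F : Finset (Set V)} (hF : T.Fo F) (g : V → ℕ) (G : Finset V) (ζ : V → ℕ) {j : ℕ} {A : Set V} (hA : A ∈ T.de F j) :
    T.mkd T.sp (im φ F) (g ∘ φ.symm) (G.image φ) (ζ ∘ φ.symm) (φ '' A) ↔ T.mkd T.sp F g G ζ A := by
  unfold TS.mkd
  rw [gp_map, gw_map, rch_map]
  refine and_congr_right (fun _ => ?_)
  unfold TS.nab
  constructor
  · intro h i B hB hS hAB hfb
    have hcn := T.t5b_cn hF hB
    refine h i (φ '' B) ?_ ((T.sp_map φ hcn).2 hS) ?_ ((T.fb_map φ hcn ζ).2 hfb)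
    · rw [T.de_map φ hF]
      exact t12_mem_im.2 ⟨B, hB, rfl⟩
    · exact t12_ssub.2 hAB
  · intro h i B' hB' hS hAB hfb
    rw [T.de_map φ hF] at hB'
    obtain ⟨B, hB, rfl⟩ := t12_mem_im.1 hB'
    have hcn := T.t5b_cn hF hB
    exact h i B hB ((T.sp_map φ hcn).1 hS) (t12_ssub.1 hAB) ((T.fb_map φ hcn ζ).1 hfb)

/-- TARGET. -/
theorem TS.rn_map (T : TS D r) (φ : D ≃g D) {F : Finset (Set V)} (hF : T.Fo F) (G : Finset V) (j : ℕ) (ζ : V → ℕ) :
    T.rn (im φ F) (G.image φ) j (ζ ∘ φ.symm) = T.rn F G j ζ := by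
  unfold TS.rn TS.fn
  rw [T.de_map φ hF, T.fi_map φ hF]
  unfold im
  rw [Finset.filter_image, Finset.card_image_of_injective _ (t12_img_inj φ)]
  congr 1
  refine Finset.filter_congr (fun A _ => ?_)
  unfold TS.mkd
  have h1 : gp (G.image φ) (F.image (fun C => φ '' C)) = (gp G F).image φ := gp_map φ G F
  rw [h1, gw_map, rch_map]
  refine and_congr_right (fun _ => ?_)
  exact ⟨fun _ _ _ _ hS => hS.elim, fun _ _ _ _ hS => hS.elim⟩

/-- TARGET. limits are invariant: if `f' (φ G) (ζ ∘ φ⁻¹) = f G ζ`, then the limits along all finite sets agree (`G ↦ φ G` is a bijection of `Finset V` preserving `atTop`) -/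
theorem lim_map (φ : D ≃g D) {F : Finset (Set V)} (f f' : Finset V → (V → ℕ) → ℝ)
    (hff : ∀ G ζ, f' (G.image φ) (ζ ∘ φ.symm) = f G ζ) {ℓ : ℝ} (h : Tendsto (fun G : Finset V => ex D r (gp G F) (f G)) atTop (𝓝 ℓ)) :
    Tendsto (fun G : Finset V => ex D r (gp G (im φ F)) (f' G)) atTop (𝓝 ℓ) := by
  have h1 : (fun G : Finset V => ex D r (gp G (im φ F)) (f' G)) =
      (fun G : Finset V => ex D r (gp G F) (f G)) ∘ (fun G : Finset V => G.image φ.symm) := by
    funext G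
    show ex D r (gp G (im φ F)) (f' G) = ex D r (gp (G.image φ.symm) F) (f (G.image φ.symm))
    have h2 : G = (G.image φ.symm).image φ := (t12_image_symm G).symm
    have h3 : gp G (im φ F) = (gp (G.image φ.symm) F).image φ := by
      rw [← gp_map, t12_image_symm]
    rw [h3, ex_map]
    congr 1
    funext ζ
    rw [← hff, t12_image_symm]
  rw [h1]
  refine h.comp ?_
  rw [tendsto_atTop]
  intro B
  filter_upwards [Filter.eventually_ge_atTop (B.image φ)] with G hG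
  have hG' : B.image φ ⊆ G := hG
  have h4 := Finset.image_subset_image (f := φ.symm) hG'
  rwa [t12_symm_image] at h4

end Pool.Agent.Helper910.QT
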