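import Mathlib
import Pool.Agent.Helper910.T12

/-! Units and renewals (MP_4555f0_mp) -/

namespace Pool.Agent.Helper910.QT

open Classical Finset Filter Topology

variable {V : Type*} {D : SimpleGraph V} [D.LocallyFinite] {r : ℕ}

/-- `A` is a first unit: special, all heights of its top piece are `r`, reached, and no special full piece strictly above -/
def TS.fu (T : TS D r) (F : Finset (Set V)) (g : V → ℕ) (G : Finset V) (ζ : V → ℕ) (A : Set V) : Prop :=
  T.sp A ∧ T.fb ζ A ∧ T.mkd T.sp F g G ζ A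

/-- number of first units in generation `j` -/
noncomputable def TS.fc (T : TS D r) (F : Finset (Set V)) (g : V → ℕ) (G : Finset V) (j : ℕ) (ζ : V → ℕ) : ℕ :=
  ((T.de F j).filter (fun A => T.fu F g G ζ A)).card

/-- the outside of the cones below `A` -/
noncomputable def TS.out (T : TS D r) (F : Finset (Set V)) (G : Finset V) (A : Set V) : Finset V := (gp G F).filter (fun z => z ∉ fs (T.ch A))

/-! ### geometry of the pivot at a full piece -/

/-- the vertices of the children of `A` are in `A` -/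
theorem t13_fs_ch (T : TS D r) {A : Set V} (hA : T.Cn A) {z : V} (hz : z ∈ fs (T.ch A)) : z ∈ A := by
  obtain ⟨C, hC, hzC⟩ := hz
  exact T.ch_sub hA hC hzC

/-- the vertices of the children of `A` are in the next generation -/
theorem t13_fs_de (T : TS D r) {F : Finset (Set V)} {j : ℕ} {A : Set V} (hA : A ∈ T.de F j) {z : V} (hz : z ∈ fs (T.ch A)) :
    z ∈ fs (T.de F (j + 1)) := by
  obtain ⟨C, hC, hzC⟩ := hz
  refine ⟨C, ?_, hzC⟩
  rw [T.de_succ, Finset.mem_biUnion]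
  exact ⟨A, hA, hC⟩

/-- the input vanishes below `A` -/
theorem t13_g_zero (T : TS D r) {F : Finset (Set V)} (hF : T.Fo F) {g : V → ℕ} (hg : ∀ z ∈ fs F, g z ≤ T.fi F z) {j : ℕ} {A : Set V}
    (hA : A ∈ T.de F j) {z : V} (hz : z ∈ fs (T.ch A)) : g z = 0 := by
  have h1 := hg z (T.t5b_sub hF hA (t13_fs_ch T (T.t5b_cn hF hA) hz))
  have h2 := T.fi_zero hF (Nat.succ_le_succ (Nat.zero_le j)) (t13_fs_de T hA hz)
  omega

theorem t13_Q_notMem (T : TS D r) {A : Set V} (hA : T.Cn A) {z : V} (hz : z ∈ T.Q A) : z ∉ fs (T.ch A) := by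
  rintro ⟨C, hC, hzC⟩
  exact T.Q_notMem hA C hC z hz hzC

/-- a full piece is in `G` -/
theorem t13_Q_gp (T : TS D r) {F : Finset (Set V)} {G : Finset V} {ζ : V → ℕ} (hζ : ζ ∈ Rc D r (gp G F)) {A : Set V} (hb : T.fb ζ A) :
    ∀ z ∈ T.Q A, z ∈ gp G F := by
  intro z hz
  have h1 := hb z hz
  by_contra hcon
  have h2 := (mem_Rc.1 hζ).1.2 z hcon
  have h3 := T.gd.one_le
  omega

/-- the decomposition of `gp G F` -/
theorem t13_geo (T : TS D r) {F : Finset (Set V)} (hF : T.Fo F) {j : ℕ} {A : Set V} (hA : A ∈ T.de F j) {G : Finset V}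
    (hQ : ∀ z ∈ T.Q A, z ∈ gp G F) : (gp G F).filter (fun z => z ∉ A) ∪ T.Q A ∪ gp G (T.ch A) = gp G F := by
  have hcn := T.t5b_cn hF hA
  ext z
  simp only [Finset.mem_union, Finset.mem_filter]
  constructor
  · rintro ((h | h) | h)
    · exact h.1
    · exact hQ z h
    · rw [TS.t5b_mem_gp] at h ⊢
      exact ⟨h.1, T.t5b_sub hF hA (t13_fs_ch T hcn h.2)⟩
  · intro h
    by_cases hzA : z ∈ A
    · rcases (T.mem_iff hcn z).1 hzA with h1 | ⟨C, hC, hzC⟩
      · exact Or.inl (Or.inr h1)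
      · exact Or.inr (TS.t5b_mem_gp.2 ⟨(TS.t5b_mem_gp.1 h).1, C, hC, hzC⟩)
    · exact Or.inl (Or.inl ⟨h, hzA⟩)

/-- the pivot at a full piece -/
theorem t13_piv (T : TS D r) {F : Finset (Set V)} (hF : T.Fo F) {g : V → ℕ} (hg : ∀ z ∈ fs F, g z ≤ T.fi F z) {j : ℕ} {A : Set V} (hA : A ∈ T.de F j)
    {G : Finset V} (hQ : ∀ z ∈ T.Q A, z ∈ gp G F) :
    Piv D r g ((gp G F).filter (fun z => z ∉ A)) (T.Q A) (gp G (T.ch A)) := by
  have hcn := T.t5b_cn hF hA
  refine ⟨?_, ?_, ?_, ?_, ?_, ?_⟩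
  · rw [Finset.disjoint_left]
    intro z hz hz'
    exact (Finset.mem_filter.1 hz).2 (T.Q_sub hcn hz')
  · rw [Finset.disjoint_left]
    intro z hz hz'
    exact (Finset.mem_filter.1 hz).2 (t13_fs_ch T hcn (TS.t5b_mem_gp.1 hz').2)
  · rw [Finset.disjoint_left]
    intro z hz hz'
    exact t13_Q_notMem T hcn hz (TS.t5b_mem_gp.1 hz').2
  · intro x hx y hy hxy
    obtain ⟨C, hC, hyC⟩ := (TS.t5b_mem_gp.1 hy).2
    have hxA := (Finset.mem_filter.1 hx).2
    rcases T.nbr_ch hcn hC hyC hxy.symm with h | h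
    · exact hxA (T.ch_sub hcn hC h)
    · exact hxA (T.Q_sub hcn (T.o_sub hcn C hC h))
  · intro z hz
    exact t13_g_zero T hF hg hA (TS.t5b_mem_gp.1 hz).2
  · rw [t13_geo T hF hA hQ]
    exact T.adm_fi hF hg G

/-- the trigger at a reached full piece -/
theorem t13_trg (T : TS D r) {F : Finset (Set V)} (hF : T.Fo F) {g : V → ℕ} (hg : ∀ z ∈ fs F, g z ≤ T.fi F z) {j : ℕ} {A : Set V} (hA : A ∈ T.de F j)
    {G : Finset V} {ζ : V → ℕ} (hζ : ζ ∈ Rc D r (gp G F)) (hr : rch D g (gw D r g (gp G F) ζ) A) (hb : T.fb ζ A) :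
    Trg D r g ((gp G F).filter (fun z => z ∉ A)) (T.Q A) (rs ((gp G F).filter (fun z => z ∉ A) ∪ T.Q A) ζ) := by
  have hcn := T.t5b_cn hF hA
  have hQr : ∀ z ∈ T.Q A, rs ((gp G F).filter (fun z => z ∉ A) ∪ T.Q A) ζ z = r := by
    intro z hz
    rw [rs_mem (Finset.mem_union_right _ hz)]
    exact hb z hz
  refine ⟨hQr, ?_⟩
  obtain ⟨z0, hz0, hz0W⟩ : ∃ z0 ∈ T.Q A, z0 ∈ gw D r g ((gp G F).filter (fun z => z ∉ A) ∪ T.Q A)
      (rs ((gp G F).filter (fun z => z ∉ A) ∪ T.Q A) ζ) := by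
    rw [T.rch_off hF hA hζ] at hr
    obtain ⟨z0, hz0, h1 | ⟨x, hxW, hxA, hxz⟩⟩ := hr
    · obtain ⟨x, hx, hxz⟩ := T.t5b_inp hF hg hA hz0 h1
      have hz0Q := (T.ib_sub hcn hz0 hx hxz).1
      refine ⟨z0, hz0Q, ?_⟩
      by_contra hcon
      have h2 := (gw_GCl (D := D) (r := r) g _ (rs ((gp G F).filter (fun z => z ∉ A) ∪ T.Q A) ζ)).2 z0 (Finset.mem_union_right _ hz0Q) hcon
      have h3 := hQr z0 hz0Q
      omega
    · have hz0Q := (T.ib_sub hcn hz0 hxA hxz.symm).1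
      refine ⟨z0, hz0Q, ?_⟩
      by_contra hcon
      have h2 := (gw_GCl (D := D) (r := r) g _ (rs ((gp G F).filter (fun z => z ∉ A) ∪ T.Q A) ζ)).2 z0 (Finset.mem_union_right _ hz0Q) hcon
      have h3 := hQr z0 hz0Q
      have hxW' : x ∈ gw D r g ((gp G F).filter (fun z => z ∉ A) ∪ T.Q A) (rs ((gp G F).filter (fun z => z ∉ A) ∪ T.Q A) ζ) := by
        refine gw_mono Finset.subset_union_left ?_ hxW
        intro y hy
        rw [rs_mem hy, rs_mem (Finset.mem_union_left _ hy)]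
      have h4 := TS.t5b_dg_pos hxW' hxz.symm
      omega
  intro z hz
  obtain ⟨p, hp⟩ := T.Q_conn hcn z (Finset.mem_coe.2 hz) z0 (Finset.mem_coe.2 hz0)
  exact ⟨z0, hz0W, p, fun y hy => Finset.mem_coe.1 (hp y hy)⟩

/-- TARGET. being a first unit depends only on the configuration outside the children of `A` (heights on `Q A`; `mkd_off`) -/
theorem TS.fu_out (T : TS D r) {F : Finset (Set V)} (hF : T.Fo F) {g : V → ℕ} {j : ℕ} {A : Set V} (hA : A ∈ T.de F j) {G : Finset V}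
    {ζ ζ' : V → ℕ} (hζ : ζ ∈ Rc D r (gp G F)) (hζ' : ζ' ∈ Rc D r (gp G F)) (h : ∀ z, z ∉ fs (T.ch A) → ζ z = ζ' z) :
    T.fu F g G ζ A ↔ T.fu F g G ζ' A := by
  have hcn := T.t5b_cn hF hA
  have h1 : T.mkd T.sp F g G ζ A ↔ T.mkd T.sp F g G ζ' A :=
    T.mkd_off hF hA hζ hζ' (fun z hz => h z (fun hz' => hz (t13_fs_ch T hcn hz')))
  have h2 : T.fb ζ A ↔ T.fb ζ' A := by
    constructor
    · intro hb z hz
      rw [← h z (t13_Q_notMem T hcn hz)]
      exact hb z hz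
    · intro hb z hz
      rw [h z (t13_Q_notMem T hcn hz)]
      exact hb z hz
  unfold TS.fu
  rw [h1, h2]

/-- TARGET. the pivot at a reached full piece (`G1 = out \ Q A`, `S = Q A`, `B = gp G (ch A)`; the input from `Q A` is `fi (ch A)`, `fi_ch`). Waves: below `A`, the wave is the full wave of the forest `ch A` -/
theorem TS.fb_gw (T : TS D r) {F : Finset (Set V)} (hF : T.Fo F) {g : V → ℕ} (hg : ∀ z ∈ fs F, g z ≤ T.fi F z) {j : ℕ} {A : Set V} (hA : A ∈ T.de F j) {G : Finset V}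
    {ζ : V → ℕ} (hζ : ζ ∈ Rc D r (gp G F)) (hr : rch D g (gw D r g (gp G F) ζ) A) (hb : T.fb ζ A) {z : V} (hz : z ∈ fs (T.ch A)) :
    z ∈ gw D r g (gp G F) ζ ↔ z ∈ gw D r (T.fi (T.ch A)) (gp G (T.ch A)) (rs (gp G (T.ch A)) ζ) := by
  have hcn := T.t5b_cn hF hA
  have hQ := t13_Q_gp T hζ hb
  have hP := t13_piv T hF hg hA hQ
  have ht := t13_trg T hF hg hA hζ hr hb
  have h1 := piv_gw hP ht
  rw [t13_geo T hF hA hQ] at h1
  have h2 : gw D r (T.fi (T.ch A)) (gp G (T.ch A)) (rs (gp G (T.ch A)) ζ) = gw D r (dgi D (T.Q A)) (gp G (T.ch A)) (rs (gp G (T.ch A)) ζ) := by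
    refine gw_congr ?_
    intro y hy
    rw [T.fi_ch hcn (TS.t5b_mem_gp.1 hy).2]
  rw [h1, h2, Finset.mem_union]
  constructor
  · rintro (h | h)
    · exfalso
      have h3 := gw_sub _ _ _ h
      rw [Finset.mem_union, Finset.mem_filter] at h3
      rcases h3 with h3 | h3
      · exact h3.2 (t13_fs_ch T hcn hz)
      · exact t13_Q_notMem T hcn h3 hz
    · exact h
  · intro h
    exact Or.inr h

/-- TARGET. and so are the configurations after the wave -/
theorem TS.fb_gs (T : TS D r) {F : Finset (Set V)} (hF : T.Fo F) {g : V → ℕ} (hg : ∀ z ∈ fs F, g z ≤ T.fi F z) {j : ℕ} {A : Set V} (hA : A ∈ T.de F j) {G : Finset V}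
    {ζ : V → ℕ} (hζ : ζ ∈ Rc D r (gp G F)) (hr : rch D g (gw D r g (gp G F) ζ) A) (hb : T.fb ζ A) :
    rs (gp G (T.ch A)) (gs D r 0 g (gp G F) ζ) = gs D r 0 (T.fi (T.ch A)) (gp G (T.ch A)) (rs (gp G (T.ch A)) ζ) := by
  have hcn := T.t5b_cn hF hA
  have hQ := t13_Q_gp T hζ hb
  have hP := t13_piv T hF hg hA hQ
  have ht := t13_trg T hF hg hA hζ hr hb
  have h2 : gw D r (T.fi (T.ch A)) (gp G (T.ch A)) (rs (gp G (T.ch A)) ζ) = gw D r (dgi D (T.Q A)) (gp G (T.ch A)) (rs (gp G (T.ch A)) ζ) := by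
    refine gw_congr ?_
    intro y hy
    rw [T.fi_ch hcn (TS.t5b_mem_gp.1 hy).2]
  funext z
  by_cases hz : z ∈ gp G (T.ch A)
  · have h1 := piv_gs2 hP ht hz
    rw [t13_geo T hF hA hQ] at h1
    rw [rs_mem hz, h1]
    unfold gs
    rw [if_pos hz, if_pos hz, h2, T.fi_ch hcn (TS.t5b_mem_gp.1 hz).2]
  · rw [rs_notMem hz]
    unfold gs
    rw [if_neg hz]

/-- TARGET. EXACT INDEPENDENCE below a reached full piece. `E` is an event, determined on `Rc (gp G F)` by the configuration outside `ch A`, which implies that `A` is reached and a full piece. By `piv_sum` with `G1 = out \ Q A`, `S = Q A`,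
`B = gp G (ch A)` (sum form; divide by the numbers of configurations; take `E1 ξ :=` some `ζ ∈ Rc (gp G F)` with `rs (out) ζ = ξ` has `E ζ`). -/
theorem TS.fb_ex (T : TS D r) {F : Finset (Set V)} (hF : T.Fo F) {g : V → ℕ} (hg : ∀ z ∈ fs F, g z ≤ T.fi F z) {j : ℕ} {A : Set V} (hA : A ∈ T.de F j) {G : Finset V}
    (E : (V → ℕ) → Prop) (hE : ∀ ζ ∈ Rc D r (gp G F), E ζ → rch D g (gw D r g (gp G F) ζ) A ∧ T.fb ζ A)
    (hE' : ∀ ζ ∈ Rc D r (gp G F), ∀ ζ' ∈ Rc D r (gp G F), (∀ z, z ∉ fs (T.ch A) → ζ z = ζ' z) → (E ζ ↔ E ζ')) (h : (V → ℕ) → ℝ) :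
    ex D r (gp G F) (fun ζ => if E ζ then h (rs (gp G (T.ch A)) ζ) else 0) = pr D r (gp G F) E * ex D r (gp G (T.ch A)) h := by
  have hcn := T.t5b_cn hF hA
  by_cases hQ : ∀ z ∈ T.Q A, z ∈ gp G F
  · have hP := t13_piv T hF hg hA hQ
    have hgeo := t13_geo T hF hA hQ
    obtain ⟨G1, hG1⟩ : ∃ G1, G1 = (gp G F).filter (fun z => z ∉ A) := ⟨_, rfl⟩
    rw [← hG1] at hP hgeo
    obtain ⟨E1, hE1⟩ : ∃ E1 : (V → ℕ) → Prop, E1 = fun ξ => ∃ ζ ∈ Rc D r (gp G F), rs (G1 ∪ T.Q A) ζ = ξ ∧ E ζ := ⟨_, rfl⟩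
    have hE1t : ∀ ζ1 ∈ Rc D r (G1 ∪ T.Q A), E1 ζ1 → Trg D r g G1 (T.Q A) ζ1 := by
      intro ζ1 _ h1
      rw [hE1] at h1
      obtain ⟨ζ, hζ, hζ1, hEζ⟩ := h1
      have h2 := hE ζ hζ hEζ
      have h3 := t13_trg T hF hg hA hζ h2.1 h2.2
      rw [← hG1, hζ1] at h3
      exact h3
    have hiff : ∀ ζ ∈ Rc D r (gp G F), (E1 (rs (G1 ∪ T.Q A) ζ) ↔ E ζ) := by
      intro ζ hζ
      rw [hE1]
      constructor
      · rintro ⟨ζ', hζ', h1, h2⟩
        refine (hE' ζ' hζ' ζ hζ ?_).1 h2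
        intro z hz
        by_cases hzG : z ∈ gp G F
        · have hz1 : z ∈ G1 ∪ T.Q A := by
            rw [← hgeo, Finset.mem_union] at hzG
            rcases hzG with h3 | h3
            · exact h3
            · exact absurd (TS.t5b_mem_gp.1 h3).2 hz
          have h4 := congrFun h1 z
          rw [rs_mem hz1, rs_mem hz1] at h4
          exact h4
        · rw [(mem_Rc.1 hζ).1.2 z hzG, (mem_Rc.1 hζ').1.2 z hzG]
      · intro h1
        exact ⟨ζ, hζ, rfl, h1⟩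
    have hs1 := piv_sum T.gd hP E1 hE1t (fun _ => 1) h
    have hs2 := piv_sum T.gd hP E1 hE1t (fun _ => 1) (fun _ => 1)
    rw [hgeo] at hs1 hs2
    have hfil : (Rc D r (gp G F)).filter (fun ζ => E1 (rs (G1 ∪ T.Q A) ζ)) = (Rc D r (gp G F)).filter E :=
      Finset.filter_congr (fun ζ hζ => hiff ζ hζ)
    rw [hfil] at hs1 hs2
    simp only [one_mul, Finset.sum_const, nsmul_eq_mul, mul_one] at hs1 hs2
    unfold ex pr
    rw [← Finset.sum_filter, hs1, hs2]
    have hB : (0 : ℝ) < (Rc D r (gp G (T.ch A))).card := by exact_mod_cast T.gd.card_pos _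
    have hF' : (0 : ℝ) < (Rc D r (gp G F)).card := by exact_mod_cast T.gd.card_pos _
    field_simp
  · have hno : ∀ ζ ∈ Rc D r (gp G F), ¬ E ζ := by
      intro ζ hζ hEζ
      exact hQ (t13_Q_gp T hζ (hE ζ hζ hEζ).2)
    have h1 : ex D r (gp G F) (fun ζ => if E ζ then h (rs (gp G (T.ch A)) ζ) else 0) = 0 := by
      unfold ex
      rw [Finset.sum_eq_zero (fun ζ hζ => if_neg (hno ζ hζ)), zero_div]
    have h2 : pr D r (gp G F) E = 0 := by
      unfold pr
      rw [Finset.filter_false_of_mem hno, Finset.card_empty, Nat.cast_zero, zero_div]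
    rw [h1, h2, zero_mul]


/-- ancestors of reached cones are reached -/
theorem t13_rch_anc (T : TS D r) {F : Finset (Set V)} (hF : T.Fo F) {g : V → ℕ} (hg : ∀ z ∈ fs F, g z ≤ T.fi F z) {j : ℕ} {A : Set V}
    (hA : A ∈ T.de F j) {G : Finset V} {ζ : V → ℕ} (hζ : ζ ∈ Rc D r (gp G F)) :
    ∀ (k : ℕ) (B : Set V), B ∈ T.de {A} k → rch D g (gw D r g (gp G F) ζ) B → rch D g (gw D r g (gp G F) ζ) A := by
  intro k
  induction k with
  | zero =>
    intro B hB h
    rw [T.de_zero, Finset.mem_singleton] at hB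
    rw [← hB]
    exact h
  | succ k ih =>
    intro B hB h
    rw [T.de_succ, Finset.mem_biUnion] at hB
    obtain ⟨B', hB', hBB'⟩ := hB
    exact ih B' hB' (T.rch_parent hF hg (T.de_trans hA hB') hBB' hζ h)

/-- descendants of the children -/
theorem t13_de_ch (T : TS D r) {A : Set V} (k : ℕ) : T.de {A} (k + 1) = T.de (T.ch A) k := by
  rw [T.de_succ', Finset.singleton_biUnion]

/-- below a reached full piece, being reached is being reached by the full wave of the children -/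
theorem t13_rch_ch (T : TS D r) {F : Finset (Set V)} (hF : T.Fo F) {g : V → ℕ} (hg : ∀ z ∈ fs F, g z ≤ T.fi F z) {j : ℕ} {A : Set V}
    (hA : A ∈ T.de F j) {G : Finset V} {ζ : V → ℕ} (hζ : ζ ∈ Rc D r (gp G F)) (hr : rch D g (gw D r g (gp G F) ζ) A) (hb : T.fb ζ A)
    {k : ℕ} {B : Set V} (hB : B ∈ T.de (T.ch A) k) :
    rch D (T.fi (T.ch A)) (gw D r (T.fi (T.ch A)) (gp G (T.ch A)) (rs (gp G (T.ch A)) ζ)) B ↔ rch D g (gw D r g (gp G F) ζ) B := by
  have hcn := T.t5b_cn hF hA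
  have hch := T.fo_ch hcn
  have hBs : B ⊆ fs (T.ch A) := T.t5b_sub hch hB
  constructor
  · rintro ⟨z, hz, h1 | ⟨x, hxW, hxB, hxz⟩⟩
    · rw [T.fi_ch hcn (hBs hz)] at h1
      obtain ⟨x, hx, hxz⟩ := TS.t5b_dg_pos' h1
      exact ⟨z, hz, Or.inr ⟨x, T.fb_sub hF hg hA hζ hr hb x hx, fun hxB => t13_Q_notMem T hcn hx (hBs hxB), hxz.symm⟩⟩
    · have hx := (TS.t5b_mem_gp.1 (gw_sub _ _ _ hxW)).2
      exact ⟨z, hz, Or.inr ⟨x, (T.fb_gw hF hg hA hζ hr hb hx).2 hxW, hxB, hxz⟩⟩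
  · rintro ⟨z, hz, h1 | ⟨x, hxW, hxB, hxz⟩⟩
    · have := t13_g_zero T hF hg hA (hBs hz)
      omega
    · obtain ⟨C, hC, hzC⟩ := hBs hz
      rcases T.nbr_ch hcn hC hzC hxz.symm with h | h
      · exact ⟨z, hz, Or.inr ⟨x, (T.fb_gw hF hg hA hζ hr hb ⟨C, hC, h⟩).1 hxW, hxB, hxz⟩⟩
      · refine ⟨z, hz, Or.inl ?_⟩
        rw [T.fi_ch hcn (hBs hz)]
        exact TS.t5b_dg_pos (T.o_sub hcn C hC h) hxz.symm

theorem t13_nab_false (T : TS D r) {F : Finset (Set V)} {ζ : V → ℕ} {A : Set V} : T.nab (fun _ => False) F ζ A :=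
  fun _ _ _ h => h.elim

/-- the number of reached cones, with trivial marks -/
theorem t13_fn_false (T : TS D r) (F : Finset (Set V)) (g : V → ℕ) (G : Finset V) (l : ℕ) (ζ : V → ℕ) :
    T.fn (fun _ => False) F g G l ζ = ((T.de F l).filter (fun B => rch D g (gw D r g (gp G F) ζ) B)).card := by
  unfold TS.fn
  congr 1
  refine Finset.filter_congr (fun B _ => ?_)
  exact ⟨fun h => h.1, fun h => ⟨h, t13_nab_false T⟩⟩

/-- the count below a first unit -/
theorem t13_rn_eq (T : TS D r) {F : Finset (Set V)} (hF : T.Fo F) {g : V → ℕ} (hg : ∀ z ∈ fs F, g z ≤ T.fi F z) {j : ℕ} {A : Set V}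
    (hA : A ∈ T.de F j) {G : Finset V} {ζ : V → ℕ} (hζ : ζ ∈ Rc D r (gp G F)) (hr : rch D g (gw D r g (gp G F) ζ) A) (hb : T.fb ζ A)
    (k : ℕ) : T.rn (T.ch A) G k (rs (gp G (T.ch A)) ζ) = ((T.de {A} (k + 1)).filter (fun B => rch D g (gw D r g (gp G F) ζ) B)).card := by
  unfold TS.rn
  rw [t13_fn_false, t13_de_ch]
  congr 1
  refine Finset.filter_congr (fun B hB => ?_)
  exact t13_rch_ch T hF hg hA hζ hr hb hB

/-- nested cones of two generations -/
theorem t13_nest (T : TS D r) {F : Finset (Set V)} (hF : T.Fo F) {i j : ℕ} {A B : Set V} (hA : A ∈ T.de F i) (hB : B ∈ T.de F j) (hij : i ≤ j)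
    {z : V} (hzA : z ∈ A) (hzB : z ∈ B) : B ⊆ A ∧ B ∈ T.de {A} (j - i) := by
  obtain ⟨k, rfl⟩ : ∃ k, j = i + k := ⟨j - i, by omega⟩
  rw [Nat.add_sub_cancel_left]
  rcases T.nested hF hA hB with h | h
  · exact h
  · exact absurd hzB (Set.disjoint_left.1 h hzA)

/-- TARGET. a reached cone is either marked (free) or there is a unique first unit strictly above it, relative to which it is reached -/
theorem TS.rn_split (T : TS D r) {F : Finset (Set V)} (hF : T.Fo F) {g : V → ℕ} (hg : ∀ z ∈ fs F, g z ≤ T.fi F z) {G : Finset V} {ζ : V → ℕ} (hζ : ζ ∈ Rc D r (gp G F)) (l : ℕ) :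
    T.fn (fun _ => False) F g G l ζ = T.fn T.sp F g G l ζ +
      ∑ j ∈ range l, ∑ A ∈ T.de F j, if T.fu F g G ζ A then T.rn (T.ch A) G (l - j - 1) (rs (gp G (T.ch A)) ζ) else 0 := by
  rw [t13_fn_false]
  obtain ⟨R, hR⟩ : ∃ R : Set V → Prop, R = fun B => rch D g (gw D r g (gp G F) ζ) B := ⟨_, rfl⟩
  have h1 : ((T.de F l).filter (fun B => rch D g (gw D r g (gp G F) ζ) B)).card =
      (((T.de F l).filter R).filter (fun B => T.nab T.sp F ζ B)).card + (((T.de F l).filter R).filter (fun B => ¬ T.nab T.sp F ζ B)).card := by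
    rw [Finset.card_filter_add_card_filter_not, hR]
  have h2 : (((T.de F l).filter R).filter (fun B => T.nab T.sp F ζ B)).card = T.fn T.sp F g G l ζ := by
    unfold TS.fn
    rw [Finset.filter_filter, hR]
    congr 1
    exact Finset.filter_congr (fun B _ => Iff.rfl)
  rw [h1, h2]
  congr 1
  have h3 : ((T.de F l).filter R).filter (fun B => ¬ T.nab T.sp F ζ B) =
      ((range l).sigma (fun j => (T.de F j).filter (fun A => T.fu F g G ζ A))).biUnion
        (fun p => (T.de {p.2} (l - p.1 - 1 + 1)).filter R) := by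
    ext B
    simp only [Finset.mem_filter, Finset.mem_biUnion, Finset.mem_sigma, Finset.mem_range]
    constructor
    · rintro ⟨⟨hB, hRB⟩, hn⟩
      have hex : ∃ i, ∃ A ∈ T.de F i, T.sp A ∧ B ⊂ A ∧ T.fb ζ A := by
        unfold TS.nab at hn
        push Not at hn
        obtain ⟨i, A, hA, hs, hss, hb⟩ := hn
        exact ⟨i, A, hA, hs, hss, hb⟩
      obtain ⟨A, hA, hs, hss, hb⟩ := Nat.find_spec hex
      have hmin : ∀ i, i < Nat.find hex → ¬ ∃ A ∈ T.de F i, T.sp A ∧ B ⊂ A ∧ T.fb ζ A := fun i hi => Nat.find_min hex hi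
      obtain ⟨j, hj⟩ : ∃ j, j = Nat.find hex := ⟨_, rfl⟩
      rw [← hj] at hA hmin
      have hjl : j < l := T.lt_of_ssub hF hA hB hss
      obtain ⟨z, hz⟩ := T.cn_ne (T.t5b_cn hF hB)
      have hBA := (t13_nest T hF hA hB hjl.le (hss.1 hz) hz).2
      rw [hR] at hRB
      refine ⟨⟨j, A⟩, ⟨hjl, hA, hs, hb, ?_, ?_⟩, ?_, ?_⟩
      · exact t13_rch_anc T hF hg hA hζ _ B hBA hRB
      · intro i A' hA' hs' hss' hb'
        have hij : i < j := T.lt_of_ssub hF hA' hA hss'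
        exact hmin i hij ⟨A', hA', hs', lt_trans hss hss', hb'⟩
      · have : l - j - 1 + 1 = l - j := by omega
        show B ∈ T.de {A} (l - j - 1 + 1)
        rw [this]
        exact hBA
      · rw [hR]
        exact hRB
    · rintro ⟨⟨j, A⟩, ⟨hj, hA, hs, hb, hm⟩, hB, hRB⟩
      simp only at hj hA hs hb hm hB
      have hBl : B ∈ T.de F (j + (l - j - 1 + 1)) := T.de_trans hA hB
      have : j + (l - j - 1 + 1) = l := by omega
      rw [this] at hBl
      refine ⟨⟨hBl, hRB⟩, ?_⟩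
      intro hn
      exact hn j A hA hs (T.de_ssub (T.t5b_cn hF hA) (Nat.succ_le_succ (Nat.zero_le _)) hB) hb
  rw [h3, Finset.card_biUnion]
  · rw [Finset.sum_sigma]
    refine Finset.sum_congr rfl (fun j hj => ?_)
    rw [Finset.sum_filter]
    refine Finset.sum_congr rfl (fun A hA => ?_)
    by_cases hfu : T.fu F g G ζ A
    · rw [if_pos hfu, if_pos hfu, hR]
      exact (t13_rn_eq T hF hg hA hζ hfu.2.2.1 hfu.2.1 _).symm
    · rw [if_neg hfu, if_neg hfu]
  · rintro ⟨j, A⟩ hp ⟨j', A'⟩ hp' hne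
    rw [Finset.mem_coe, Finset.mem_sigma, Finset.mem_filter] at hp hp'
    obtain ⟨hj, hA, hs, hb, hm⟩ := hp
    obtain ⟨hj', hA', hs', hb', hm'⟩ := hp'
    simp only at hj hA hs hb hm hj' hA' hs' hb' hm'
    rw [Function.onFun, Finset.disjoint_left]
    intro B hB hB'
    simp only [Finset.mem_filter] at hB hB'
    have hcn := T.t5b_cn hF hA
    have hcn' := T.t5b_cn hF hA'
    have hBA := T.de_single_sub hcn hB.1
    have hBA' := T.de_single_sub hcn' hB'.1
    obtain ⟨z, hz⟩ := T.cn_ne (T.t5b_cn hF (T.de_trans hA hB.1))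
    have key : ∀ (j j' : ℕ) (A A' : Set V), j ≤ j' → A ∈ T.de F j → A' ∈ T.de F j' → T.sp A → T.fb ζ A →
        T.mkd T.sp F g G ζ A' → z ∈ A → z ∈ A' → A = A' := by
      intro j j' A A' hjj hA hA' hs hb hm' hz hz'
      by_contra hcon
      have h5 := (t13_nest T hF hA hA' hjj hz hz').1
      exact hm'.2 j A hA hs (lt_of_le_of_ne h5 (fun h => hcon h.symm)) hb
    have hAA : A = A' := by
      rcases le_total j j' with h | h
      · exact key j j' A A' h hA hA' hs hb hm' (hBA hz) (hBA' hz)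
      · exact (key j' j A' A h hA' hA hs' hb' hm (hBA' hz) (hBA hz)).symm
    subst hAA
    have hjj : j = j' := T.gen_unique hF hA hA'
    subst hjj
    exact hne rfl

/-- TARGET. expectations (`fb_ex`, `fu_out`) -/
theorem TS.rn_renew (T : TS D r) {F : Finset (Set V)} (hF : T.Fo F) {g : V → ℕ} (hg : ∀ z ∈ fs F, g z ≤ T.fi F z) (G : Finset V) (l : ℕ) :
    ex D r (gp G F) (fun ζ => (T.fn (fun _ => False) F g G l ζ : ℝ)) = ex D r (gp G F) (fun ζ => (T.fn T.sp F g G l ζ : ℝ)) +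
      ∑ j ∈ range l, ∑ A ∈ T.de F j, pr D r (gp G F) (fun ζ => T.fu F g G ζ A) * ex D r (gp G (T.ch A)) (fun ζ => (T.rn (T.ch A) G (l - j - 1) ζ : ℝ)) := by
  have h1 : ∀ ζ ∈ Rc D r (gp G F), (T.fn (fun _ => False) F g G l ζ : ℝ) = (T.fn T.sp F g G l ζ : ℝ) +
      ∑ j ∈ range l, ∑ A ∈ T.de F j, if T.fu F g G ζ A then (T.rn (T.ch A) G (l - j - 1) (rs (gp G (T.ch A)) ζ) : ℝ) else 0 := by
    intro ζ hζ
    rw [T.rn_split hF hg hζ l]
    push_cast
    rfl
  have h2 : ∀ j ∈ range l, ∀ A ∈ T.de F j,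
      pr D r (gp G F) (fun ζ => T.fu F g G ζ A) * ex D r (gp G (T.ch A)) (fun ζ => (T.rn (T.ch A) G (l - j - 1) ζ : ℝ)) =
      ex D r (gp G F) (fun ζ => if T.fu F g G ζ A then (T.rn (T.ch A) G (l - j - 1) (rs (gp G (T.ch A)) ζ) : ℝ) else 0) := by
    intro j _ A hA
    refine (T.fb_ex hF hg hA (fun ζ => T.fu F g G ζ A) ?_ ?_ (fun ξ => (T.rn (T.ch A) G (l - j - 1) ξ : ℝ))).symm
    · intro ζ _ hfu
      exact ⟨hfu.2.2.1, hfu.2.1⟩
    · intro ζ hζ ζ' hζ' h
      exact T.fu_out hF hA hζ hζ' h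
  rw [Finset.sum_congr rfl (fun j hj => Finset.sum_congr rfl (fun A hA => h2 j hj A hA))]
  unfold ex
  rw [Finset.sum_congr rfl h1, Finset.sum_add_distrib, add_div]
  congr 1
  rw [Finset.sum_comm, Finset.sum_div]
  refine Finset.sum_congr rfl (fun j _ => ?_)
  rw [Finset.sum_comm, Finset.sum_div]


/-- raising the heights along a path of top pieces -/
theorem t13_path (T : TS D r) {F : Finset (Set V)} (hF : T.Fo F) {g : V → ℕ} (hg : ∀ z ∈ fs F, g z ≤ T.fi F z) {l : ℕ} {A : Set V}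
    (hA : A ∈ T.de F l) (G : Finset V) :
    ∀ (j : ℕ) (U : Set V), U ∈ T.de {A} j → ∃ P : Finset V, P.card ≤ T.m * (j + 1) ∧ (∀ z ∈ P, z ∈ A ∧ z ∈ T.up F (l + j + 1)) ∧
      ∀ ζ ∈ Rc D r (gp G F), (∀ z ∈ P, ζ z = r) → rch D g (gw D r g (gp G F) ζ) A → T.fb ζ U ∧ rch D g (gw D r g (gp G F) ζ) U := by
  intro j
  induction j with
  | zero =>
    intro U hU
    rw [T.de_zero, Finset.mem_singleton] at hU
    subst hU
    have hcn := T.t5b_cn hF hA
    refine ⟨T.Q U, by simpa using T.Q_card hcn, ?_, ?_⟩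
    · intro z hz
      exact ⟨T.Q_sub hcn hz, TS.t5c_mem_up T |>.2 ⟨l, by omega, U, hA, hz⟩⟩
    · intro ζ _ h1 h2
      exact ⟨h1, h2⟩
  | succ j ih =>
    intro U hU
    have hU' := hU
    rw [T.de_succ, Finset.mem_biUnion] at hU'
    obtain ⟨B, hB, hUB⟩ := hU'
    obtain ⟨P, hP1, hP2, hP3⟩ := ih B hB
    have hBF : B ∈ T.de F (l + j) := T.de_trans hA hB
    have hUF : U ∈ T.de F (l + (j + 1)) := T.de_trans hA hU
    have hcnB := T.t5b_cn hF hBF
    have hcnU := T.t5b_cn hF hUF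
    refine ⟨P ∪ T.Q U, ?_, ?_, ?_⟩
    · calc (P ∪ T.Q U).card ≤ P.card + (T.Q U).card := Finset.card_union_le _ _
        _ ≤ T.m * (j + 1) + T.m := Nat.add_le_add hP1 (T.Q_card hcnU)
        _ = T.m * (j + 1 + 1) := by ring
    · intro z hz
      rcases Finset.mem_union.1 hz with h | h
      · exact ⟨(hP2 z h).1, T.up_mono F (by omega) (hP2 z h).2⟩
      · exact ⟨T.de_single_sub (T.t5b_cn hF hA) hU (T.Q_sub hcnU h), TS.t5c_mem_up T |>.2 ⟨l + (j + 1), by omega, U, hUF, h⟩⟩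
    · intro ζ hζ h1 h2
      obtain ⟨h3, h4⟩ := hP3 ζ hζ (fun z hz => h1 z (Finset.mem_union_left _ hz)) h2
      refine ⟨fun z hz => h1 z (Finset.mem_union_right _ hz), ?_⟩
      have h5 := T.fb_sub hF hg hBF hζ h4 h3
      obtain ⟨x, hx⟩ := T.o_ne hcnU
      have hxB := T.o_sub hcnB U hUB hx
      obtain ⟨hxU, y, hy, hxy⟩ := (T.mem_o hcnU x).1 hx
      exact ⟨y, hy, Or.inr ⟨x, h5 x hxB, hxU, hxy⟩⟩

omit [D.LocallyFinite] in
/-- counting: resetting the heights on `P` to `r` is at most `r ^ |P|` to one -/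
theorem t13_count {G P : Finset V} (hP : P ⊆ G) (s t : Finset (V → ℕ)) (hs : ∀ ζ ∈ s, ζ ∈ Rc D r G)
    (hm : ∀ ζ ∈ s, (fun z => if z ∈ P then r else ζ z) ∈ t) : s.card ≤ r ^ P.card * t.card := by
  refine Finset.card_le_mul_card_image_of_maps_to (f := fun ζ => (fun z => if z ∈ P then r else ζ z)) hm (r ^ P.card) ?_
  intro b _
  have h1 : (Fintype.piFinset (fun _ : P => Icc 1 r)).card = r ^ P.card := by
    rw [Fintype.card_piFinset]
    simp
  rw [← h1]
  refine Finset.card_le_card_of_injOn (fun ζ => fun z : P => ζ z.1) ?_ ?_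
  · intro ζ hζ
    rw [Finset.mem_coe, Finset.mem_filter] at hζ
    rw [Finset.mem_coe, Fintype.mem_piFinset]
    intro z
    rw [Finset.mem_Icc]
    exact (mem_Rc.1 (hs ζ hζ.1)).1.1 z.1 (hP z.2)
  · intro ζ hζ ζ' hζ' h
    rw [Finset.mem_coe, Finset.mem_filter] at hζ hζ'
    funext z
    by_cases hz : z ∈ P
    · exact congrFun h ⟨z, hz⟩
    · have h2 := congrFun (hζ.2.trans hζ'.2.symm) z
      simp only [if_neg hz] at h2
      exact h2

/-- TARGET. RAISING. For `A ∈ de F l` let `A = A_0 ⊃ A_1 ⊃ ... ⊃ A_j = U`, `A_{i+1} ∈ ch A_i`, `j ≤ h0`, be a path to a special descendant with `j` minimal (`sp_desc`), so `A_i` is not special for `i < j`. Let `ζ̂` be `ζ` with all heights on the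
`Q A_i`, `i ≤ j`, raised to `r` (they are in `G`). If `A` is marked for `ζ` then `U` is a first unit for `ζ̂`: `A` is still reached (`mkd_off`), so `Q A_0` topples (`fb_sub`), so `A_1` is reached, ...; the special pieces strictly above `U` are strictly above
`A`, and not full. The map `ζ ↦ ζ̂` is at most `r^(m (h0+1))` to one. Different `A ∈ de F l` give different `U`. -/
theorem TS.raise_free (T : TS D r) {F : Finset (Set V)} (hF : T.Fo F) {g : V → ℕ} (hg : ∀ z ∈ fs F, g z ≤ T.fi F z) (G : Finset V) (l : ℕ)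
    (hG : T.up F (l + T.h0 + 1) ⊆ G) :
    ex D r (gp G F) (fun ζ => (T.fn T.sp F g G l ζ : ℝ)) ≤ (r : ℝ) ^ (T.m * (T.h0 + 1)) *
      ∑ j ∈ Icc l (l + T.h0), ex D r (gp G F) (fun ζ => (T.fc F g G j ζ : ℝ)) := by
  -- the choice of the special descendant
  have hch : ∀ A ∈ T.de F l, ∃ j, j ≤ T.h0 ∧ ∃ U, U ∈ T.de {A} j ∧ T.sp U ∧ ∀ i, i < j → ∀ U' ∈ T.de {A} i, ¬ T.sp U' := by
    intro A hA
    have hcn := T.t5b_cn hF hA
    obtain ⟨j0, hj0, U0, hU0, hs0⟩ := T.sp_desc hcn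
    have hex : ∃ j, ∃ U, U ∈ T.de {A} j ∧ T.sp U := ⟨j0, U0, hU0, hs0⟩
    obtain ⟨U, hU, hs⟩ := Nat.find_spec hex
    refine ⟨Nat.find hex, (Nat.find_min' hex ⟨U0, hU0, hs0⟩).trans hj0, U, hU, hs, ?_⟩
    intro i hi U' hU' hs'
    exact Nat.find_min hex hi ⟨U', hU', hs'⟩
  choose! J hJ U hU hsp hmin using hch
  have hr1 : 1 ≤ r := T.gd.one_le
  -- the counting inequality for one cone
  have hone : ∀ A ∈ T.de F l, ((Rc D r (gp G F)).filter (fun ζ => T.mkd T.sp F g G ζ A)).card ≤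
      r ^ (T.m * (T.h0 + 1)) * ((Rc D r (gp G F)).filter (fun ζ => T.fu F g G ζ (U A))).card := by
    intro A hA
    obtain ⟨P, hP1, hP2, hP3⟩ := t13_path T hF hg hA G (J A) (U A) (hU A hA)
    have hPG : P ⊆ gp G F := by
      intro z hz
      obtain ⟨h1, h2⟩ := hP2 z hz
      rw [TS.t5b_mem_gp]
      refine ⟨hG (T.up_mono F ?_ h2), T.t5b_sub hF hA h1⟩
      have := hJ A hA
      omega
    have hUF : U A ∈ T.de F (l + J A) := T.de_trans hA (hU A hA)
    have hc := t13_count (D := D) hPG ((Rc D r (gp G F)).filter (fun ζ => T.mkd T.sp F g G ζ A))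
      ((Rc D r (gp G F)).filter (fun ζ => T.fu F g G ζ (U A))) (fun ζ hζ => (Finset.mem_filter.1 hζ).1) ?_
    · refine hc.trans (Nat.mul_le_mul_right _ (Nat.pow_le_pow_right hr1 (hP1.trans ?_)))
      exact Nat.mul_le_mul_left _ (by have := hJ A hA; omega)
    · intro ζ hζ
      rw [Finset.mem_filter] at hζ
      obtain ⟨hζ, hm⟩ := hζ
      obtain ⟨ξ, hξ⟩ : ∃ ξ : V → ℕ, ξ = fun z => if z ∈ P then r else ζ z := ⟨_, rfl⟩
      rw [← hξ]
      have hξP : ∀ z ∈ P, ξ z = r := by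
        intro z hz
        rw [hξ]
        exact if_pos hz
      have hξn : ∀ z, z ∉ P → ξ z = ζ z := by
        intro z hz
        rw [hξ]
        exact if_neg hz
      have hξR : ξ ∈ Rc D r (gp G F) := by
        refine raise_mem (w := 0) hζ ?_ ?_ ?_
        · intro z hz
          by_cases hzP : z ∈ P
          · rw [hξP z hzP]
            exact ((mem_Rc.1 hζ).1.1 z hz).2
          · rw [hξn z hzP]
        · intro z hz
          by_cases hzP : z ∈ P
          · rw [hξP z hzP]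
          · rw [hξn z hzP]
            exact ((mem_Rc.1 hζ).1.1 z hz).2
        · intro z hz
          rw [hξn z (fun h => hz (hPG h))]
          exact (mem_Rc.1 hζ).1.2 z hz
      have hm' : T.mkd T.sp F g G ξ A := by
        refine (T.mkd_off hF hA hζ hξR ?_).1 hm
        intro z hz
        exact (hξn z (fun h => hz (hP2 z h).1)).symm
      obtain ⟨h3, h4⟩ := hP3 ξ hξR hξP hm'.1
      rw [Finset.mem_filter]
      refine ⟨hξR, hsp A hA, h3, h4, ?_⟩
      intro i B hB hsB hss hfb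
      have hlt := T.lt_of_ssub hF hB hUF hss
      obtain ⟨z, hz⟩ := T.cn_ne (T.t5b_cn hF hUF)
      have hzA : z ∈ A := T.de_single_sub (T.t5b_cn hF hA) (hU A hA) hz
      have hzB : z ∈ B := hss.1 hz
      by_cases hil : i < l
      · have h5 := (t13_nest T hF hB hA hil.le hzB hzA).1
        refine hm'.2 i B hB hsB (lt_of_le_of_ne h5 ?_) hfb
        intro h
        subst h
        have := T.gen_unique hF hB hA
        omega
      · have h5 := (t13_nest T hF hA hB (by omega) hzA hzB).2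
        exact hmin A hA (i - l) (by omega) B h5 hsB
  -- sums
  have hL : ex D r (gp G F) (fun ζ => (T.fn T.sp F g G l ζ : ℝ)) =
      (∑ A ∈ T.de F l, (((Rc D r (gp G F)).filter (fun ζ => T.mkd T.sp F g G ζ A)).card : ℝ)) / (Rc D r (gp G F)).card := by
    unfold ex TS.fn
    congr 1
    simp only [Finset.card_filter, Nat.cast_sum]
    rw [Finset.sum_comm]
  have hR : ∀ j, ex D r (gp G F) (fun ζ => (T.fc F g G j ζ : ℝ)) =
      (∑ A ∈ T.de F j, (((Rc D r (gp G F)).filter (fun ζ => T.fu F g G ζ A)).card : ℝ)) / (Rc D r (gp G F)).card := by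
    intro j
    unfold ex TS.fc
    congr 1
    simp only [Finset.card_filter, Nat.cast_sum]
    rw [Finset.sum_comm]
  have hFc : (0 : ℝ) < (Rc D r (gp G F)).card := by exact_mod_cast T.gd.card_pos _
  have hkey : ∑ A ∈ T.de F l, (((Rc D r (gp G F)).filter (fun ζ => T.fu F g G ζ (U A))).card : ℝ) ≤
      ∑ j ∈ Icc l (l + T.h0), ∑ A ∈ T.de F j, (((Rc D r (gp G F)).filter (fun ζ => T.fu F g G ζ A)).card : ℝ) := by
    have hinj : Set.InjOn (fun A => (⟨l + J A, U A⟩ : Σ _ : ℕ, Set V)) (T.de F l : Set (Set V)) := by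
      intro A hA A' hA' h
      rw [Finset.mem_coe] at hA hA'
      have hUU : U A = U A' := congrArg Sigma.snd h
      obtain ⟨z, hz⟩ := T.cn_ne (T.t5b_cn hF (T.de_trans hA (hU A hA)))
      have hzA : z ∈ A := T.de_single_sub (T.t5b_cn hF hA) (hU A hA) hz
      have hzA' : z ∈ A' := T.de_single_sub (T.t5b_cn hF hA') (hU A' hA') (hUU ▸ hz)
      exact Set.Subset.antisymm (t13_nest T hF hA' hA le_rfl hzA' hzA).1 (t13_nest T hF hA hA' le_rfl hzA hzA').1
    have h1 : ∑ A ∈ T.de F l, (((Rc D r (gp G F)).filter (fun ζ => T.fu F g G ζ (U A))).card : ℝ) =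
        ∑ p ∈ (T.de F l).image (fun A => (⟨l + J A, U A⟩ : Σ _ : ℕ, Set V)),
          (((Rc D r (gp G F)).filter (fun ζ => T.fu F g G ζ p.2)).card : ℝ) := by
      rw [Finset.sum_image hinj]
    have h2 : ∑ j ∈ Icc l (l + T.h0), ∑ A ∈ T.de F j, (((Rc D r (gp G F)).filter (fun ζ => T.fu F g G ζ A)).card : ℝ) =
        ∑ p ∈ (Icc l (l + T.h0)).sigma (fun j => T.de F j), (((Rc D r (gp G F)).filter (fun ζ => T.fu F g G ζ p.2)).card : ℝ) := by
      rw [Finset.sum_sigma]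
    rw [h1, h2]
    refine Finset.sum_le_sum_of_subset_of_nonneg ?_ (fun _ _ _ => Nat.cast_nonneg _)
    intro p hp
    rw [Finset.mem_image] at hp
    obtain ⟨A, hA, rfl⟩ := hp
    rw [Finset.mem_sigma, Finset.mem_Icc]
    have := hJ A hA
    exact ⟨⟨by simp, by simpa using this⟩, T.de_trans hA (hU A hA)⟩
  have hsum : ∑ A ∈ T.de F l, (((Rc D r (gp G F)).filter (fun ζ => T.mkd T.sp F g G ζ A)).card : ℝ) ≤
      (r : ℝ) ^ (T.m * (T.h0 + 1)) * ∑ A ∈ T.de F l, (((Rc D r (gp G F)).filter (fun ζ => T.fu F g G ζ (U A))).card : ℝ) := by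
    rw [Finset.mul_sum]
    refine Finset.sum_le_sum (fun A hA => ?_)
    exact_mod_cast hone A hA
  rw [hL, Finset.sum_congr rfl (fun j _ => hR j), ← Finset.sum_div, ← mul_div_assoc]
  refine div_le_div_of_nonneg_right (hsum.trans ?_) hFc.le
  exact mul_le_mul_of_nonneg_left hkey (by positivity)



theorem t13_summable_w {w a : ℕ → ℝ} {K : ℝ} {h0 : ℕ} (hw : ∀ l, 0 ≤ w l) (hs : Summable a)
    (hK : ∀ l, w l ≤ K * ∑ j ∈ Icc l (l + h0), a j) : Summable w := by
  have h1 : ∀ l, ∑ j ∈ Icc l (l + h0), a j = ∑ i ∈ range (h0 + 1), a (l + i) := by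
    intro l
    have e1 : Icc l (l + h0) = Ico l (l + (h0 + 1)) := by
      ext x; simp only [Finset.mem_Icc, Finset.mem_Ico]; omega
    rw [e1, Finset.sum_Ico_eq_sum_range, Nat.add_sub_cancel_left]
  have h2 : Summable (fun l => K * ∑ i ∈ range (h0 + 1), a (l + i)) := by
    apply Summable.mul_left
    apply summable_sum
    intro i _
    exact (summable_nat_add_iff i).2 hs
  refine Summable.of_nonneg_of_le hw (fun l => ?_) h2
  rw [← h1 l]; exact hK l

theorem t13_summable_a {a : ℕ → ℝ} {c C : ℝ} (hc : 0 < c) (ha : ∀ l, 0 ≤ a l) (h : ∀ l, (∑ j ∈ range l, a j) * c ≤ C) : Summable a := by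
  refine summable_of_sum_range_le (c := C / c) ha (fun l => ?_)
  rw [le_div_iff₀ hc]; exact h l

theorem t13_conv {n w a : ℕ → ℝ} (hren : ∀ l, n l = w l + ∑ j ∈ range l, a j * n (l - j - 1)) (L : ℕ) :
    ∑ l ∈ range L, n l = ∑ l ∈ range L, w l + ∑ j ∈ range L, a j * ∑ i ∈ range (L - j - 1), n i := by
  induction L with
  | zero => simp
  | succ L ih =>
    have h1 : ∑ j ∈ range (L + 1), a j * ∑ i ∈ range (L + 1 - j - 1), n i =
        ∑ j ∈ range L, a j * (∑ i ∈ range (L - j - 1), n i + n (L - j - 1)) := by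
      rw [Finset.sum_range_succ]
      have : L + 1 - L - 1 = 0 := by omega
      rw [this, Finset.range_zero, Finset.sum_empty, mul_zero, add_zero]
      refine Finset.sum_congr rfl (fun j hj => ?_)
      have hj' := Finset.mem_range.1 hj
      have : L + 1 - j - 1 = (L - j - 1) + 1 := by omega
      rw [this, Finset.sum_range_succ]
    rw [h1, Finset.sum_range_succ, Finset.sum_range_succ, ih, hren L]
    simp only [mul_add, Finset.sum_add_distrib]
    ring

/-- TARGET. analysis: renewal with bounded, bounded below `n`. (Summing: `c Σ_{j<l} a j ≤ n l ≤ C`. For `s < 1`: `N(s) = W(s) + s A(s) N(s)`, `N(s) ≥ c s^0.../(1-s) → ∞`, `W(1) < ∞`, `N(s) < ∞`; so `0 ≤ 1 - s A(s) = W(s)/N(s) → 0`.) -/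
theorem renewal_one {n w a : ℕ → ℝ} {c C K : ℝ} {h0 : ℕ} (hc : 0 < c) (hn : ∀ l, c ≤ n l) (hn' : ∀ l, n l ≤ C) (hw : ∀ l, 0 ≤ w l) (ha : ∀ l, 0 ≤ a l)
    (hren : ∀ l, n l = w l + ∑ j ∈ range l, a j * n (l - j - 1)) (hK : ∀ l, w l ≤ K * ∑ j ∈ Icc l (l + h0), a j) :
    HasSum a 1 ∧ Summable w := by
  have hs : Summable a := by
    refine t13_summable_a (C := C) hc ha (fun l => ?_)
    have h1 : (∑ j ∈ range l, a j) * c ≤ ∑ j ∈ range l, a j * n (l - j - 1) := by
      rw [Finset.sum_mul]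
      exact Finset.sum_le_sum (fun j _ => mul_le_mul_of_nonneg_left (hn _) (ha j))
    have h2 := hren l
    have h3 := hw l
    have h4 := hn' l
    linarith
  have hsw : Summable w := t13_summable_w hw hs hK
  refine ⟨?_, hsw⟩
  have hN0 : ∀ L, 0 ≤ ∑ l ∈ range L, n l := fun L => Finset.sum_nonneg (fun l _ => hc.le.trans (hn l))
  have hNc : ∀ L : ℕ, (L : ℝ) * c ≤ ∑ l ∈ range L, n l := by
    intro L
    have := Finset.card_nsmul_le_sum (range L) n c (fun l _ => hn l)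
    simpa [nsmul_eq_mul] using this
  have hC : 0 < C := hc.trans_le ((hn 0).trans (hn' 0))
  have hNm : ∀ L L' : ℕ, L ≤ L' → ∑ l ∈ range L, n l ≤ ∑ l ∈ range L', n l := by
    intro L L' h
    exact Finset.sum_le_sum_of_subset_of_nonneg (Finset.range_mono h) (fun i _ _ => hc.le.trans (hn i))
  have hND : ∀ L k : ℕ, ∑ l ∈ range L, n l ≤ ∑ l ∈ range (L - k), n l + (k : ℝ) * C := by
    intro L k
    induction k with
    | zero => simp
    | succ k ih =>
      refine ih.trans ?_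
      by_cases hk : L - k = 0
      · have : L - (k + 1) = 0 := by omega
        rw [hk, this]
        push_cast
        nlinarith
      · have : L - k = (L - (k + 1)) + 1 := by omega
        rw [this, Finset.sum_range_succ]
        have := hn' (L - (k + 1))
        push_cast
        nlinarith
  have hle : ∀ J, ∑ j ∈ range J, a j ≤ 1 := by
    intro J
    by_contra hcon
    push Not at hcon
    set AJ := ∑ j ∈ range J, a j with hAJ
    obtain ⟨L, hL⟩ := exists_nat_gt (AJ * (J * C) / ((AJ - 1) * c))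
    have hpos : 0 < (AJ - 1) * c := mul_pos (by linarith) hc
    rw [div_lt_iff₀ hpos] at hL
    -- enlarge L
    set L' := L + J with hL'
    have h1 := t13_conv hren L'
    have h2 : ∑ j ∈ range J, a j * ∑ i ∈ range (L' - j - 1), n i ≤ ∑ j ∈ range L', a j * ∑ i ∈ range (L' - j - 1), n i := by
      refine Finset.sum_le_sum_of_subset_of_nonneg (Finset.range_mono (by omega)) (fun i _ _ => mul_nonneg (ha i) (hN0 _))
    have h3 : ∑ j ∈ range J, a j * (∑ i ∈ range L', n i - (J : ℝ) * C) ≤ ∑ j ∈ range J, a j * ∑ i ∈ range (L' - j - 1), n i := by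
      refine Finset.sum_le_sum (fun j hj => mul_le_mul_of_nonneg_left ?_ (ha j))
      have hj' := Finset.mem_range.1 hj
      have h4 := hND L' J
      have h5 := hNm (L' - J) (L' - j - 1) (by omega)
      linarith
    rw [← Finset.sum_mul, ← hAJ] at h3
    have h6 : 0 ≤ ∑ l ∈ range L', w l := Finset.sum_nonneg (fun l _ => hw l)
    have h7 := hNc L'
    have h8 : (L : ℝ) ≤ L' := by rw [hL']; push_cast; linarith [Nat.cast_nonneg (α := ℝ) J]
    have h9 : (AJ - 1) * ((L : ℝ) * c) ≤ (AJ - 1) * ∑ l ∈ range L', n l := by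
      refine mul_le_mul_of_nonneg_left (le_trans ?_ h7) (by linarith)
      exact mul_le_mul_of_nonneg_right h8 hc.le
    nlinarith
  have hA : ∑' j, a j ≤ 1 := by
    refine hs.tsum_le_of_sum_range_le hle
  have hA' : 1 ≤ ∑' j, a j := by
    by_contra hcon
    push Not at hcon
    set A := ∑' j, a j with hA0
    obtain ⟨L, hL⟩ := exists_nat_gt ((∑' l, w l) / ((1 - A) * c))
    have hpos : 0 < (1 - A) * c := mul_pos (by linarith) hc
    rw [div_lt_iff₀ hpos] at hL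
    have h1 := t13_conv hren L
    have h2 : ∑ j ∈ range L, a j * ∑ i ∈ range (L - j - 1), n i ≤ ∑ j ∈ range L, a j * ∑ i ∈ range L, n i := by
      refine Finset.sum_le_sum (fun j _ => mul_le_mul_of_nonneg_left (hNm _ _ (by omega)) (ha j))
    rw [← Finset.sum_mul] at h2
    have h3 : ∑ j ∈ range L, a j ≤ A := hs.sum_le_tsum _ (fun j _ => ha j)
    have h4 : ∑ l ∈ range L, w l ≤ ∑' l, w l := hsw.sum_le_tsum _ (fun j _ => hw j)
    have h5 := hNc L
    have h6 := hN0 L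
    have h7 : (∑ j ∈ range L, a j) * ∑ i ∈ range L, n i ≤ A * ∑ i ∈ range L, n i := mul_le_mul_of_nonneg_right h3 h6
    have h8 : (1 - A) * ((L : ℝ) * c) ≤ (1 - A) * ∑ l ∈ range L, n l := mul_le_mul_of_nonneg_left h5 (by linarith)
    nlinarith
  have : ∑' j, a j = 1 := le_antisymm hA hA'
  rw [← this]
  exact hs.hasSum

/-- TARGET. analysis: one-sided version, for general starting forests -/
theorem renewal_fin {n w a : ℕ → ℝ} {c C K : ℝ} {h0 : ℕ} (hc : 0 < c) (hn' : ∀ l, n l ≤ C) (hw : ∀ l, 0 ≤ w l) (ha : ∀ l, 0 ≤ a l)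
    (hren : ∀ l, w l + ∑ j ∈ range l, a j * c ≤ n l) (hK : ∀ l, w l ≤ K * ∑ j ∈ Icc l (l + h0), a j) :
    Summable a ∧ Summable w := by
  have hs : Summable a := by
    refine t13_summable_a (C := C) hc ha (fun l => ?_)
    have h2 := hren l
    have h3 := hw l
    have h4 := hn' l
    rw [Finset.sum_mul]
    linarith
  exact ⟨hs, t13_summable_w hw hs hK⟩

/-- TARGET. analysis: summable and submultiplicative up to a constant implies exponential decay -/
theorem submult_decay {w : ℕ → ℝ} {K : ℝ} (hw : ∀ l, 0 ≤ w l) (hs : Summable w) (hK : ∀ i j, w (i + j) ≤ K * (w i * w j)) :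
    ∃ ρ C : ℝ, 0 < ρ ∧ ρ < 1 ∧ 0 < C ∧ ∀ l, w l ≤ C * ρ ^ l := by
  obtain ⟨K', hK1, hKK'⟩ : ∃ K' : ℝ, 1 ≤ K' ∧ K ≤ K' := ⟨max K 1, le_max_right _ _, le_max_left _ _⟩
  have hKp : 0 < K' := by linarith
  have ht : Tendsto w atTop (𝓝 0) := hs.tendsto_atTop_zero
  have he : ∀ᶠ p in atTop, w p < (2 * K')⁻¹ := ht.eventually (gt_mem_nhds (by positivity))
  obtain ⟨p, hp, hp1⟩ := (he.and (eventually_ge_atTop 1)).exists
  have hstep : ∀ i, w (i + p) ≤ (1 / 2) * w i := by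
    intro i
    have h1 := hK i p
    have h2 : K * (w i * w p) ≤ K' * (w i * w p) := mul_le_mul_of_nonneg_right hKK' (mul_nonneg (hw i) (hw p))
    have h3 : w i * w p ≤ w i * (2 * K')⁻¹ := mul_le_mul_of_nonneg_left hp.le (hw i)
    have h4 : K' * (w i * (2 * K')⁻¹) = (1 / 2) * w i := by field_simp
    have h5 := mul_le_mul_of_nonneg_left h3 hKp.le
    linarith
  have hp1' : (1 : ℝ) ≤ p := by exact_mod_cast hp1
  set ρ : ℝ := 1 - 1 / (2 * p) with hρ
  have hq : 1 / (2 * (p : ℝ)) ≤ 1 / 2 := by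
    apply one_div_le_one_div_of_le <;> linarith
  have hq0 : 0 < 1 / (2 * (p : ℝ)) := by positivity
  have hρ0 : 0 < ρ := by rw [hρ]; linarith
  have hρ1 : ρ < 1 := by rw [hρ]; linarith
  have hb : 1 / 2 ≤ ρ ^ p := by
    have h1 := one_add_mul_le_pow (a := -(1 / (2 * (p : ℝ)))) (by linarith) p
    have h2 : 1 + (p : ℝ) * -(1 / (2 * (p : ℝ))) = 1 / 2 := by field_simp; ring
    rw [h2] at h1
    have h3 : 1 + -(1 / (2 * (p : ℝ))) = ρ := by rw [hρ]; ring
    rwa [h3] at h1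
  have hρp : 0 < ρ ^ p := pow_pos hρ0 p
  set B : ℝ := ∑ i ∈ range p, w i + 1 with hB
  have hB0 : 0 < B := by
    have : 0 ≤ ∑ i ∈ range p, w i := Finset.sum_nonneg (fun i _ => hw i)
    linarith
  refine ⟨ρ, B * (ρ ^ p)⁻¹, hρ0, hρ1, by positivity, ?_⟩
  intro l
  induction l using Nat.strong_induction_on with
  | _ l ih =>
    by_cases hl : l < p
    · have h1 : w l ≤ ∑ i ∈ range p, w i := Finset.single_le_sum (fun i _ => hw i) (Finset.mem_range.2 hl)
      have h2 : (1 : ℝ) ≤ (ρ ^ p)⁻¹ * ρ ^ l := by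
        rw [inv_mul_eq_div, le_div_iff₀ hρp, one_mul]
        exact pow_le_pow_of_le_one hρ0.le hρ1.le hl.le
      calc w l ≤ B := by linarith
        _ = B * 1 := by ring
        _ ≤ B * ((ρ ^ p)⁻¹ * ρ ^ l) := mul_le_mul_of_nonneg_left h2 hB0.le
        _ = _ := by ring
    · push Not at hl
      obtain ⟨i, rfl⟩ : ∃ i, l = i + p := ⟨l - p, by omega⟩
      have h1 := hstep i
      have h2 := ih i (by omega)
      have h3 : 0 ≤ B * (ρ ^ p)⁻¹ * ρ ^ i := by positivity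
      calc w (i + p) ≤ (1 / 2) * w i := h1
        _ ≤ (1 / 2) * (B * (ρ ^ p)⁻¹ * ρ ^ i) := mul_le_mul_of_nonneg_left h2 (by norm_num)
        _ ≤ ρ ^ p * (B * (ρ ^ p)⁻¹ * ρ ^ i) := mul_le_mul_of_nonneg_right hb h3
        _ = B * (ρ ^ p)⁻¹ * ρ ^ (i + p) := by rw [pow_add]; ring

end Pool.Agent.Helper910.QT
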