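import Mathlib
import Pool.Agent.Helper910.T13

/-! Limits of the numbers of units, free cones and reached cones (MP_4555f0_mp) -/

namespace Pool.Agent.Helper910.QT

open Classical Finset Filter Topology

variable {V : Type*} {D : SimpleGraph V} [D.LocallyFinite] {r : ℕ}

/-- bounded functions determined by the first generations when the first `p` full waves stay there -/
def TS.QL (T : TS D r) (F : Finset (Set V)) (p : ℕ) (f : Finset V → (V → ℕ) → ℝ) : Prop :=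
  (∃ b : ℝ, ∀ G ζ, |f G ζ| ≤ b) ∧ ∃ L0 : ℕ, ∀ L, L0 ≤ L → ∀ G : Finset V, T.up F (L + 1) ⊆ G → ∀ ζ ∈ Rc D r (gp G F), T.nr F G L p ζ →
      f G ζ = f (T.up F (L + 1)) (rs (T.up F (L + 1)) ζ)

/-- the limit -/
noncomputable def TS.lm (T : TS D r) (F : Finset (Set V)) (f : Finset V → (V → ℕ) → ℝ) : ℝ :=
  limUnder atTop (fun G : Finset V => ex D r (gp G F) (f G))

/-- TARGET. (`lim_wv`) -/
theorem TS.tendsto_lm (T : TS D r) {F : Finset (Set V)} (hF : T.Fo F) {p : ℕ} {f : Finset V → (V → ℕ) → ℝ} (h : T.QL F p f) :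
    Tendsto (fun G : Finset V => ex D r (gp G F) (f G)) atTop (𝓝 (T.lm F f)) := by
  obtain ⟨⟨b, hb⟩, L0, hL⟩ := h
  exact tendsto_nhds_limUnder (T.lim_wv hF p f b hb L0 hL)

theorem t14a_lm_eq (T : TS D r) {F : Finset (Set V)} {f : Finset V → (V → ℕ) → ℝ} {ℓ : ℝ}
    (h : Tendsto (fun G : Finset V => ex D r (gp G F) (f G)) atTop (𝓝 ℓ)) : T.lm F f = ℓ := h.limUnder_eq

/-- TARGET. algebra of `QL` -/
theorem TS.QL.add {T : TS D r} {F : Finset (Set V)} {p : ℕ} {f f' : Finset V → (V → ℕ) → ℝ} (h : T.QL F p f) (h' : T.QL F p f') : T.QL F p (fun G ζ => f G ζ + f' G ζ) := by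
  obtain ⟨⟨b, hb⟩, L0, hL⟩ := h
  obtain ⟨⟨b', hb'⟩, L0', hL'⟩ := h'
  refine ⟨⟨b + b', fun G ζ => (abs_add_le _ _).trans (add_le_add (hb G ζ) (hb' G ζ))⟩, max L0 L0', ?_⟩
  intro L hLL G hG ζ hζ hn
  have e1 := hL L ((le_max_left _ _).trans hLL) G hG ζ hζ hn
  have e2 := hL' L ((le_max_right _ _).trans hLL) G hG ζ hζ hn
  simp only
  rw [e1, e2]

/-- TARGET. -/
theorem TS.QL.mul {T : TS D r} {F : Finset (Set V)} {p : ℕ} {f f' : Finset V → (V → ℕ) → ℝ} (h : T.QL F p f) (h' : T.QL F p f') : T.QL F p (fun G ζ => f G ζ * f' G ζ) := by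
  obtain ⟨⟨b, hb⟩, L0, hL⟩ := h
  obtain ⟨⟨b', hb'⟩, L0', hL'⟩ := h'
  refine ⟨⟨b * b', fun G ζ => ?_⟩, max L0 L0', ?_⟩
  · simp only
    rw [abs_mul]
    exact mul_le_mul (hb G ζ) (hb' G ζ) (abs_nonneg _) ((abs_nonneg _).trans (hb G ζ))
  intro L hLL G hG ζ hζ hn
  have e1 := hL L ((le_max_left _ _).trans hLL) G hG ζ hζ hn
  have e2 := hL' L ((le_max_right _ _).trans hLL) G hG ζ hζ hn
  simp only
  rw [e1, e2]

/-- TARGET. -/
theorem TS.QL.mono {T : TS D r} {F : Finset (Set V)} {p p' : ℕ} (hp : p ≤ p') {f : Finset V → (V → ℕ) → ℝ} (h : T.QL F p f) : T.QL F p' f := by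
  obtain ⟨hb, L0, hL⟩ := h
  exact ⟨hb, L0, fun L hLL G hG ζ hζ hn => hL L hLL G hG ζ hζ (fun i hi => hn i (lt_of_lt_of_le hi hp))⟩

theorem t14a_QL_const (T : TS D r) (F : Finset (Set V)) (p : ℕ) (c : ℝ) : T.QL F p (fun _ _ => c) :=
  ⟨⟨|c|, fun _ _ => le_refl _⟩, 0, fun _ _ _ _ _ _ _ => rfl⟩

theorem t14a_QL_sum {ι : Type*} {T : TS D r} {F : Finset (Set V)} {p : ℕ} (s : Finset ι) (f : ι → Finset V → (V → ℕ) → ℝ)
    (h : ∀ i ∈ s, T.QL F p (f i)) : T.QL F p (fun G ζ => ∑ i ∈ s, f i G ζ) := by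
  induction s using Finset.induction_on with
  | empty => simpa using t14a_QL_const T F p 0
  | insert a s ha ih =>
    have h1 := h a (Finset.mem_insert_self _ _)
    have h2 := ih (fun i hi => h i (Finset.mem_insert_of_mem hi))
    have h3 := h1.add h2
    simp only [Finset.sum_insert ha]
    exact h3

/-- consequences of not reaching generation `L` -/
theorem t14a_nr (T : TS D r) {F : Finset (Set V)} (hF : T.Fo F) {g : V → ℕ} (hg : ∀ z ∈ fs F, g z ≤ T.fi F z)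
    {G : Finset V} {L : ℕ} (hG : T.up F (L + 1) ⊆ G) {ζ : V → ℕ} (hζ : ζ ∈ Rc D r (gp G F)) (hn : T.nr F G L 1 ζ) :
    gw D r g (gp G F) ζ = gw D r g (gp (T.up F (L + 1)) F) (rs (T.up F (L + 1)) ζ) := by
  have h0 := hn 0 Nat.zero_lt_one
  have h1 : gi D r (T.fi F) (gp G F) 0 ζ = ζ := rfl
  rw [h1] at h0
  have h2 : ∀ A ∈ T.de F L, ¬ rch D g (gw D r g (gp G F) ζ) A := by
    intro A hA hr
    have hr' := TS.rch_mono hg (T.t5b_sub hF hA) hr
    unfold TS.rn TS.fn at h0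
    rw [Finset.card_eq_zero, Finset.filter_eq_empty_iff] at h0
    exact h0 hA ⟨hr', fun _ _ _ hfalse => absurd hfalse id⟩
  have hle : ∀ z ∈ gp G F, ζ z ≤ r := fun z hz => ((mem_Rc.1 hζ).1.1 z hz).2
  exact (T.gw_loc hF hg (Nat.le_succ L) hG hle h2).1

theorem t14a_Q_up (T : TS D r) {F : Finset (Set V)} {j L : ℕ} {A : Set V} (hA : A ∈ T.de F j) (hj : j ≤ L) :
    T.Q A ⊆ T.up F (L + 1) := by
  intro z hz
  unfold TS.up
  rw [Finset.mem_biUnion]
  refine ⟨j, Finset.mem_range.2 (Nat.lt_succ_of_le hj), ?_⟩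
  rw [Finset.mem_biUnion]
  exact ⟨A, hA, hz⟩

theorem t14a_fb (T : TS D r) {F : Finset (Set V)} {j L : ℕ} {A : Set V} (hA : A ∈ T.de F j) (hj : j ≤ L) (ζ : V → ℕ) :
    T.fb ζ A ↔ T.fb (rs (T.up F (L + 1)) ζ) A := by
  unfold TS.fb
  constructor
  · intro h z hz
    rw [rs_mem (t14a_Q_up T hA hj hz)]
    exact h z hz
  · intro h z hz
    have := h z hz
    rwa [rs_mem (t14a_Q_up T hA hj hz)] at this

theorem t14a_mkd (T : TS D r) {F : Finset (Set V)} (hF : T.Fo F) (S : Set V → Prop) {g : V → ℕ} (hg : ∀ z ∈ fs F, g z ≤ T.fi F z)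
    {j L : ℕ} {A : Set V} (hA : A ∈ T.de F j) (hj : j ≤ L)
    {G : Finset V} (hG : T.up F (L + 1) ⊆ G) {ζ : V → ℕ} (hζ : ζ ∈ Rc D r (gp G F)) (hn : T.nr F G L 1 ζ) :
    T.mkd S F g G ζ A ↔ T.mkd S F g (T.up F (L + 1)) (rs (T.up F (L + 1)) ζ) A := by
  have h1 := t14a_nr T hF hg hG hζ hn
  unfold TS.mkd
  rw [← h1]
  have h2 : T.nab S F ζ A ↔ T.nab S F (rs (T.up F (L + 1)) ζ) A := by
    unfold TS.nab
    refine forall_congr' fun i => forall_congr' fun B => forall_congr' fun hB => forall_congr' fun _ =>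
      forall_congr' fun hAB => ?_
    have hij := T.lt_of_ssub hF hB hA hAB
    rw [← t14a_fb T hB (by omega)]
  rw [h2]

/-- TARGET. marks of a cone: for `A ∈ de F j`, if the full wave does not reach generation `L > j` then the wave with input `g ≤ fi F` is the one computed in the first `L + 1` generations (`gw_loc`), and `rch`, `nab` are determined -/
theorem TS.ql_mkd (T : TS D r) {F : Finset (Set V)} (hF : T.Fo F) (S : Set V → Prop) {g : V → ℕ} (hg : ∀ z ∈ fs F, g z ≤ T.fi F z) {j : ℕ} {A : Set V} (hA : A ∈ T.de F j) :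
    T.QL F 1 (fun G ζ => if T.mkd S F g G ζ A then 1 else 0) := by
  refine ⟨⟨1, fun G ζ => by simp only; split_ifs <;> simp⟩, j, ?_⟩
  intro L hL G hG ζ hζ hn
  have h1 := t14a_mkd T hF S hg hA hL hG hζ hn
  simp only [h1]

/-- TARGET. -/
theorem TS.ql_fu (T : TS D r) {F : Finset (Set V)} (hF : T.Fo F) {g : V → ℕ} (hg : ∀ z ∈ fs F, g z ≤ T.fi F z) {j : ℕ} {A : Set V} (hA : A ∈ T.de F j) :
    T.QL F 1 (fun G ζ => if T.fu F g G ζ A then 1 else 0) := by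
  refine ⟨⟨1, fun G ζ => by simp only; split_ifs <;> simp⟩, j, ?_⟩
  intro L hL G hG ζ hζ hn
  have h1 := t14a_mkd T hF T.sp hg hA hL hG hζ hn
  have h2 := t14a_fb T hA hL ζ
  have h3 : T.fu F g G ζ A ↔ T.fu F g (T.up F (L + 1)) (rs (T.up F (L + 1)) ζ) A := by
    unfold TS.fu
    rw [h1, ← h2]
  simp only [h3]

theorem t14a_fn_eq (T : TS D r) (F : Finset (Set V)) (S : Set V → Prop) (g : V → ℕ) (j : ℕ) (G : Finset V) (ζ : V → ℕ) :
    (T.fn S F g G j ζ : ℝ) = ∑ A ∈ T.de F j, (if T.mkd S F g G ζ A then (1 : ℝ) else 0) := by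
  unfold TS.fn
  rw [Finset.card_filter]
  push_cast
  rfl

theorem t14a_fc_eq (T : TS D r) (F : Finset (Set V)) (g : V → ℕ) (j : ℕ) (G : Finset V) (ζ : V → ℕ) :
    (T.fc F g G j ζ : ℝ) = ∑ A ∈ T.de F j, (if T.fu F g G ζ A then (1 : ℝ) else 0) := by
  unfold TS.fc
  rw [Finset.card_filter]
  push_cast
  rfl

/-- TARGET. -/
theorem TS.ql_fn (T : TS D r) {F : Finset (Set V)} (hF : T.Fo F) (S : Set V → Prop) {g : V → ℕ} (hg : ∀ z ∈ fs F, g z ≤ T.fi F z) (j : ℕ) :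
    T.QL F 1 (fun G ζ => (T.fn S F g G j ζ : ℝ)) := by
  simp only [t14a_fn_eq]
  exact t14a_QL_sum _ _ (fun A hA => T.ql_mkd hF S hg hA)

/-- TARGET. -/
theorem TS.ql_fc (T : TS D r) {F : Finset (Set V)} (hF : T.Fo F) {g : V → ℕ} (hg : ∀ z ∈ fs F, g z ≤ T.fi F z) (j : ℕ) :
    T.QL F 1 (fun G ζ => (T.fc F g G j ζ : ℝ)) := by
  simp only [t14a_fc_eq]
  exact t14a_QL_sum _ _ (fun A hA => T.ql_fu hF hg hA)

/-- limiting means: reached cones, free cones, first units (full input) -/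
noncomputable def TS.nL (T : TS D r) (F : Finset (Set V)) (l : ℕ) : ℝ := T.lm F (fun G ζ => (T.rn F G l ζ : ℝ))

noncomputable def TS.wL (T : TS D r) (F : Finset (Set V)) (l : ℕ) : ℝ := T.lm F (fun G ζ => (T.fn T.sp F (T.fi F) G l ζ : ℝ))

noncomputable def TS.aL (T : TS D r) (F : Finset (Set V)) (l : ℕ) : ℝ := T.lm F (fun G ζ => (T.fc F (T.fi F) G l ζ : ℝ))

/-- limiting probability that `A` is a first unit -/
noncomputable def TS.pL (T : TS D r) (F : Finset (Set V)) (A : Set V) : ℝ := T.lm F (fun G ζ => if T.fu F (T.fi F) G ζ A then 1 else 0)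

theorem t14a_nT (T : TS D r) {F : Finset (Set V)} (hF : T.Fo F) (l : ℕ) :
    Tendsto (fun G : Finset V => ex D r (gp G F) (fun ζ => (T.rn F G l ζ : ℝ))) atTop (𝓝 (T.nL F l)) :=
  T.tendsto_lm hF (T.ql_fn hF (fun _ => False) (fun _ _ => le_refl _) l)

theorem t14a_wT (T : TS D r) {F : Finset (Set V)} (hF : T.Fo F) (l : ℕ) :
    Tendsto (fun G : Finset V => ex D r (gp G F) (fun ζ => (T.fn T.sp F (T.fi F) G l ζ : ℝ))) atTop (𝓝 (T.wL F l)) :=
  T.tendsto_lm hF (T.ql_fn hF T.sp (fun _ _ => le_refl _) l)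

theorem t14a_aT (T : TS D r) {F : Finset (Set V)} (hF : T.Fo F) (l : ℕ) :
    Tendsto (fun G : Finset V => ex D r (gp G F) (fun ζ => (T.fc F (T.fi F) G l ζ : ℝ))) atTop (𝓝 (T.aL F l)) :=
  T.tendsto_lm hF (T.ql_fc hF (fun _ _ => le_refl _) l)

theorem t14a_pT (T : TS D r) {F : Finset (Set V)} (hF : T.Fo F) {j : ℕ} {A : Set V} (hA : A ∈ T.de F j) :
    Tendsto (fun G : Finset V => ex D r (gp G F) (fun ζ => if T.fu F (T.fi F) G ζ A then (1 : ℝ) else 0)) atTop (𝓝 (T.pL F A)) :=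
  T.tendsto_lm hF (T.ql_fu hF (fun _ _ => le_refl _) hA)

theorem t14a_rn_sum (T : TS D r) {F : Finset (Set V)} (hF : T.Fo F) (G : Finset V) (l : ℕ) :
    ex D r (gp G F) (fun ζ => (T.rn F G l ζ : ℝ)) = ∑ C ∈ F, ex D r (gp G {C}) (fun ζ => (T.rn {C} G l ζ : ℝ)) := by
  have h1 : (fun ζ => (T.rn F G l ζ : ℝ)) = fun ζ => ∑ C ∈ F, (T.rn {C} G l (rs (gp G {C}) ζ) : ℝ) := by
    funext ζ
    rw [T.rn_fo hF]
    push_cast
    rfl
  rw [h1, t9_ex_sum]
  refine Finset.sum_congr rfl fun C hC => ?_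
  exact T.fo_marg hF hC G (fun ζ => (T.rn {C} G l ζ : ℝ))

theorem t14a_nL_le (T : TS D r) {F : Finset (Set V)} (hF : T.Fo F) (l : ℕ) : T.nL F l ≤ F.card * T.C1 := by
  refine le_of_tendsto' (t14a_nT T hF l) fun G => ?_
  rw [t14a_rn_sum T hF]
  have : ∀ C ∈ F, ex D r (gp G {C}) (fun ζ => (T.rn {C} G l ζ : ℝ)) ≤ T.C1 := fun C hC => T.rn_le (hF.cn C hC) G l
  have h2 := Finset.sum_le_card_nsmul F _ _ this
  rwa [nsmul_eq_mul] at h2

/-- TARGET. (bounds of single cones summed over the forest: `rn_fo`, `fo_marg`, `rn_le`, `rn_ge`) -/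
theorem TS.nL_bounds (T : TS D r) {F : Finset (Set V)} (hF : T.Fo F) (hne : F.Nonempty) (l : ℕ) : T.c1 ≤ T.nL F l ∧ T.nL F l ≤ F.card * T.C1 := by
  refine ⟨?_, t14a_nL_le T hF l⟩
  obtain ⟨C, hC⟩ := hne
  refine ge_of_tendsto (t14a_nT T hF l) ?_
  filter_upwards [eventually_ge_atTop (T.up {C} l)] with G hG
  rw [t14a_rn_sum T hF]
  refine (T.rn_ge (hF.cn C hC) l G hG).trans ?_
  refine Finset.single_le_sum (f := fun C => ex D r (gp G {C}) (fun ζ => (T.rn {C} G l ζ : ℝ))) ?_ hC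
  intro C' _
  exact t9_ex_nonneg (fun ζ _ => Nat.cast_nonneg _)

/-- TARGET. -/
theorem TS.wL_nonneg (T : TS D r) {F : Finset (Set V)} (hF : T.Fo F) (l : ℕ) : 0 ≤ T.wL F l ∧ 0 ≤ T.aL F l :=
  ⟨ge_of_tendsto' (t14a_wT T hF l) (fun _ => t9_ex_nonneg (fun _ _ => Nat.cast_nonneg _)),
    ge_of_tendsto' (t14a_aT T hF l) (fun _ => t9_ex_nonneg (fun _ _ => Nat.cast_nonneg _))⟩

theorem t14a_pL_nonneg (T : TS D r) {F : Finset (Set V)} (hF : T.Fo F) {j : ℕ} {A : Set V} (hA : A ∈ T.de F j) : 0 ≤ T.pL F A :=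
  ge_of_tendsto' (t14a_pT T hF hA) (fun G => t9_ex_nonneg (fun ζ _ => by split_ifs <;> norm_num))

/-- TARGET. -/
theorem TS.aL_eq (T : TS D r) {F : Finset (Set V)} (hF : T.Fo F) (l : ℕ) : T.aL F l = ∑ A ∈ T.de F l, T.pL F A := by
  refine t14a_lm_eq T ?_
  have h1 := tendsto_finsetSum (T.de F l) (fun A hA => t14a_pT T hF hA)
  refine h1.congr fun G => ?_
  rw [← t9_ex_sum]
  simp only [t14a_fc_eq]

/-- TARGET. limit of `rn_renew` -/
theorem TS.nL_renew (T : TS D r) {F : Finset (Set V)} (hF : T.Fo F) (l : ℕ) :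
    T.nL F l = T.wL F l + ∑ j ∈ range l, ∑ A ∈ T.de F j, T.pL F A * T.nL (T.ch A) (l - j - 1) := by
  refine t14a_lm_eq T ?_
  have h1 : Tendsto (fun G : Finset V => ex D r (gp G F) (fun ζ => (T.fn T.sp F (T.fi F) G l ζ : ℝ)) +
      ∑ j ∈ range l, ∑ A ∈ T.de F j, ex D r (gp G F) (fun ζ => if T.fu F (T.fi F) G ζ A then (1 : ℝ) else 0) *
        ex D r (gp G (T.ch A)) (fun ζ => (T.rn (T.ch A) G (l - j - 1) ζ : ℝ))) atTop
      (𝓝 (T.wL F l + ∑ j ∈ range l, ∑ A ∈ T.de F j, T.pL F A * T.nL (T.ch A) (l - j - 1))) := by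
    refine (t14a_wT T hF l).add (tendsto_finsetSum _ fun j _ => tendsto_finsetSum _ fun A hA => ?_)
    exact (t14a_pT T hF hA).mul (t14a_nT T (T.fo_ch (T.t5b_cn hF hA)) _)
  refine h1.congr fun G => ?_
  have h2 := T.rn_renew hF (g := T.fi F) (fun _ _ => le_refl _) G l
  simp only [t9_pr_eq] at h2
  exact h2.symm

/-- TARGET. invariance under automorphisms (`lim_map`, `rn_map`, `mkd_map`, ...) -/
theorem TS.nL_map (T : TS D r) {F : Finset (Set V)} (hF : T.Fo F) (φ : D ≃g D) (l : ℕ) : T.nL (im φ F) l = T.nL F l ∧ T.wL (im φ F) l = T.wL F l ∧ T.aL (im φ F) l = T.aL F l := by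
  have hinj : Function.Injective (fun C : Set V => φ '' C) := Set.image_injective.2 φ.injective
  refine ⟨t14a_lm_eq T (lim_map φ _ _ (fun G ζ => ?_) (t14a_nT T hF l)), t14a_lm_eq T (lim_map φ _ _ (fun G ζ => ?_) (t14a_wT T hF l)),
    t14a_lm_eq T (lim_map φ _ _ (fun G ζ => ?_) (t14a_aT T hF l))⟩
  · rw [T.rn_map φ hF]
  · rw [t14a_fn_eq, t14a_fn_eq, T.de_map φ hF, T.fi_map φ hF]
    unfold im
    rw [Finset.sum_image (fun _ _ _ _ h => hinj h)]
    refine Finset.sum_congr rfl fun A hA => ?_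
    have h1 := T.mkd_map φ hF (T.fi F) G ζ hA
    unfold im at h1
    simp only [h1]
  · rw [t14a_fc_eq, t14a_fc_eq, T.de_map φ hF, T.fi_map φ hF]
    unfold im
    rw [Finset.sum_image (fun _ _ _ _ h => hinj h)]
    refine Finset.sum_congr rfl fun A hA => ?_
    have h1 := T.mkd_map φ hF (T.fi F) G ζ hA
    have h2 := T.fb_map φ (T.t5b_cn hF hA) ζ
    have h3 := T.sp_map φ (T.t5b_cn hF hA)
    unfold im at h1
    have h4 : T.fu (Finset.image (fun C => φ '' C) F) (T.fi F ∘ φ.symm) (G.image φ) (ζ ∘ φ.symm) (φ '' A) ↔ T.fu F (T.fi F) G ζ A := by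
      unfold TS.fu
      rw [h1, h2, h3]
    simp only [h4]

/-- TARGET. a special descendant `A` of a special cone `U` has the same `nL (ch A)` (`sp_iso`, `ch_map`) -/
theorem TS.nL_sp (T : TS D r) {U A : Set V} (hU : T.Cn U) (hs : T.sp U) {j : ℕ} (hA : A ∈ T.de {U} j) (hsA : T.sp A) (l : ℕ) : T.nL (T.ch A) l = T.nL (T.ch U) l := by
  obtain ⟨φ, rfl⟩ := T.sp_iso hU hs j A hA hsA
  rw [T.ch_map φ hU]
  exact (T.nL_map (T.fo_ch hU) φ l).1

/-- TARGET. limit of `raise_free` -/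
theorem TS.wL_le (T : TS D r) {F : Finset (Set V)} (hF : T.Fo F) (l : ℕ) :
    T.wL F l ≤ (r : ℝ) ^ (T.m * (T.h0 + 1)) * ∑ j ∈ Icc l (l + T.h0), T.aL F j := by
  refine le_of_tendsto_of_tendsto (t14a_wT T hF l)
    ((tendsto_finsetSum (Icc l (l + T.h0)) (fun j _ => t14a_aT T hF j)).const_mul _) ?_
  filter_upwards [eventually_ge_atTop (T.up F (l + T.h0 + 1))] with G hG
  exact T.raise_free hF (fun _ _ => le_refl _) G l hG

theorem t14a_pL_zero (T : TS D r) {F : Finset (Set V)} {A : Set V} (hA : ¬ T.sp A) : T.pL F A = 0 := by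
  refine t14a_lm_eq T ?_
  have h1 : (fun G : Finset V => ex D r (gp G F) (fun ζ => if T.fu F (T.fi F) G ζ A then (1 : ℝ) else 0)) = fun _ => 0 := by
    funext G
    have h2 : ∀ ζ, ¬ T.fu F (T.fi F) G ζ A := fun ζ h => hA h.1
    unfold ex
    simp [h2]
  rw [h1]
  exact tendsto_const_nhds

theorem t14a_ch_ne (T : TS D r) {A : Set V} (hA : T.Cn A) : (T.ch A).Nonempty := by
  have := T.two hA
  exact Finset.card_pos.1 (by omega)

/-- TARGET. CRITICALITY: the mean number of first units below a unit is one (`renewal_one`; `pL F A = 0` unless `sp A`) -/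
theorem TS.critical (T : TS D r) {U : Set V} (hU : T.Cn U) (hs : T.sp U) : HasSum (T.aL (T.ch U)) 1 ∧ Summable (T.wL (T.ch U)) := by
  have hF := T.fo_ch hU
  refine renewal_one (n := T.nL (T.ch U)) (c := T.c1) (C := (T.ch U).card * T.C1) (K := (r : ℝ) ^ (T.m * (T.h0 + 1))) (h0 := T.h0) T.c1_pos
    (fun l => (T.nL_bounds hF (t14a_ch_ne T hU) l).1) (fun l => (T.nL_bounds hF (t14a_ch_ne T hU) l).2)
    (fun l => (T.wL_nonneg hF l).1) (fun l => (T.wL_nonneg hF l).2) ?_ (fun l => T.wL_le hF l)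
  intro l
  rw [T.nL_renew hF l]
  congr 1
  refine Finset.sum_congr rfl fun j _ => ?_
  rw [T.aL_eq hF, Finset.sum_mul]
  refine Finset.sum_congr rfl fun A hA => ?_
  by_cases hsA : T.sp A
  · have hA' : A ∈ T.de {U} (j + 1) := by
      rw [T.de_succ']
      simpa using hA
    rw [T.nL_sp hU hs hA' hsA]
  · rw [t14a_pL_zero T hsA, zero_mul, zero_mul]

/-- TARGET. (`renewal_fin`, `nL (ch A) ≥ c1`) -/
theorem TS.summable_wL (T : TS D r) {F : Finset (Set V)} (hF : T.Fo F) : Summable (T.aL F) ∧ Summable (T.wL F) := by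
  refine renewal_fin (n := T.nL F) (c := T.c1) (C := F.card * T.C1) (K := (r : ℝ) ^ (T.m * (T.h0 + 1))) (h0 := T.h0) T.c1_pos
    (fun l => t14a_nL_le T hF l) (fun l => (T.wL_nonneg hF l).1) (fun l => (T.wL_nonneg hF l).2) ?_ (fun l => T.wL_le hF l)
  intro l
  rw [T.nL_renew hF l]
  refine add_le_add_right (Finset.sum_le_sum fun j _ => ?_) _
  rw [T.aL_eq hF, Finset.sum_mul]
  refine Finset.sum_le_sum fun A hA => ?_
  have hcn := T.t5b_cn hF hA
  exact mul_le_mul_of_nonneg_left (T.nL_bounds (T.fo_ch hcn) (t14a_ch_ne T hcn) _).1 (t14a_pL_nonneg T hF hA)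

end Pool.Agent.Helper910.QT
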