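import Mathlib
import Pool.Agent.Helper910.T14a

/-! Decay and moments of the free counts (MP_4555f0_mp) -/

namespace Pool.Agent.Helper910.QT

open Classical Finset Filter Topology

variable {V : Type*} {D : SimpleGraph V} [D.LocallyFinite] {r : ℕ}

/-- the limit of the mean of the free counts -/
theorem t14b_lim (T : TS D r) {F : Finset (Set V)} (hF : T.Fo F) (l : ℕ) :
    Tendsto (fun G : Finset V => ex D r (gp G F) (fun ζ => (T.fn T.sp F (T.fi F) G l ζ : ℝ))) atTop (𝓝 (T.wL F l)) :=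
  T.tendsto_lm hF (T.ql_fn hF T.sp (fun z _ => le_refl (T.fi F z)) l)

/-- the mark of `A` and a function below `A` -/
theorem t14b_two (T : TS D r) {S : Set V → Prop} {C : Set V} (hC : T.Cn C) {g : V → ℕ} {G : Finset V}
    {i : ℕ} {A : Set V} (hA : A ∈ T.de {C} i) (h2 : (V → ℕ) → ℝ) (h20 : ∀ ζ, 0 ≤ h2 ζ) :
    ex D r (gp G {C}) (fun ζ => (if T.mkd S {C} g G ζ A then 1 else 0) * h2 (rs (gp G {A}) ζ)) ≤
      (T.c0⁻¹) ^ 2 * (pr D r (gp G {C}) (fun ζ => T.mkd S {C} g G ζ A) * ex D r (gp G {A}) h2) := by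
  have hF := T.fo_single hC
  have hc0 : 0 ≤ T.c0⁻¹ := inv_nonneg.2 T.c0_pos.le
  let G' := (gp G {C}).filter (fun z => z ∉ A)
  let f1 : (V → ℕ) → ℝ := fun ξ => if ∃ ζ ∈ Rc D r (gp G {C}), rs G' ζ = ξ ∧ T.mkd S {C} g G ζ A then 1 else 0
  have hf10 : ∀ ξ, 0 ≤ f1 ξ := by
    intro ξ
    show (0 : ℝ) ≤ if _ then 1 else 0
    split_ifs
    · exact zero_le_one
    · exact le_refl 0
  have hf1 : ∀ ζ ∈ Rc D r (gp G {C}), f1 (rs G' ζ) = if T.mkd S {C} g G ζ A then 1 else 0 := by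
    intro ζ hζ
    by_cases hm : T.mkd S {C} g G ζ A
    · rw [if_pos hm]
      exact if_pos ⟨ζ, hζ, rfl, hm⟩
    · rw [if_neg hm]
      refine if_neg ?_
      rintro ⟨ζ', hζ', he, hm'⟩
      refine hm ((T.mkd_off hF hA hζ' hζ ?_).1 hm')
      intro z hz
      by_cases hzG : z ∈ gp G {C}
      · have hzG' : z ∈ G' := Finset.mem_filter.2 ⟨hzG, hz⟩
        have := congrFun he z
        rwa [rs_mem hzG', rs_mem hzG'] at this
      · rw [(mem_Rc.1 hζ).1.2 z hzG, (mem_Rc.1 hζ').1.2 z hzG]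
  have hpr : ex D r (gp G {C}) (fun ζ => f1 (rs G' ζ)) = pr D r (gp G {C}) (fun ζ => T.mkd S {C} g G ζ A) := by
    rw [t9_pr_eq]
    exact t9_ex_congr hf1
  have e1 : ex D r (gp G {C}) (fun ζ => (if T.mkd S {C} g G ζ A then 1 else 0) * h2 (rs (gp G {A}) ζ)) =
      ex D r (gp G {C}) (fun ζ => f1 (rs G' ζ) * h2 (rs (gp G {A}) ζ)) :=
    t9_ex_congr fun ζ hζ => by rw [hf1 ζ hζ]
  have h20' : 0 ≤ ex D r (gp G {A}) h2 := t9_ex_nonneg fun ζ _ => h20 ζ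
  have e2 := T.two_le hF hA G f1 h2 hf10 h20
  have e3 := T.two_marg hF hA G f1 hf10
  have e4 : ex D r G' f1 ≤ T.c0⁻¹ * pr D r (gp G {C}) (fun ζ => T.mkd S {C} g G ζ A) := by
    rw [← hpr]
    exact e3
  rw [e1]
  refine e2.trans ?_
  calc T.c0⁻¹ * (ex D r G' f1 * ex D r (gp G {A}) h2)
      ≤ T.c0⁻¹ * ((T.c0⁻¹ * pr D r (gp G {C}) (fun ζ => T.mkd S {C} g G ζ A)) * ex D r (gp G {A}) h2) :=
        mul_le_mul_of_nonneg_left (mul_le_mul_of_nonneg_right e4 h20') hc0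
    _ = _ := by ring

/-- the mean of the free counts is the sum of the probabilities of the marks -/
theorem t14b_fn_eq (T : TS D r) {F : Finset (Set V)} (g : V → ℕ) (G : Finset V) (i : ℕ) :
    ex D r (gp G F) (fun ζ => (T.fn T.sp F g G i ζ : ℝ)) =
      ∑ A ∈ T.de F i, ex D r (gp G F) (fun ζ => if T.mkd T.sp F g G ζ A then (1 : ℝ) else 0) := by
  rw [← t9_ex_sum]
  refine t9_ex_congr fun ζ _ => ?_
  unfold TS.fn
  rw [Finset.card_filter]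
  push_cast
  rfl

/-- free counts of later generations -/
theorem t14b_sub (T : TS D r) {C : Set V} (hC : T.Cn C) (G : Finset V) (i j : ℕ) :
    ex D r (gp G {C}) (fun ζ => (T.fn T.sp {C} (T.fi {C}) G (i + j) ζ : ℝ)) ≤
      (T.c0⁻¹) ^ 2 * ∑ A ∈ T.de {C} i, ex D r (gp G {C}) (fun ζ => if T.mkd T.sp {C} (T.fi {C}) G ζ A then (1 : ℝ) else 0) *
        ex D r (gp G {A}) (fun ζ => (T.fn T.sp {A} (T.fi {A}) G j ζ : ℝ)) := by
  have hg : ∀ z ∈ fs {C}, T.fi {C} z ≤ T.fi {C} z := fun z _ => le_refl _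
  have h1 : ∀ ζ ∈ Rc D r (gp G {C}), (T.fn T.sp {C} (T.fi {C}) G (i + j) ζ : ℝ) ≤
      ∑ A ∈ T.de {C} i, (if T.mkd T.sp {C} (T.fi {C}) G ζ A then (1 : ℝ) else 0) *
        (T.fn T.sp {A} (T.fi {A}) G j (rs (gp G {A}) ζ) : ℝ) := by
    intro ζ hζ
    have h2 : T.fn T.sp {C} (T.fi {C}) G (i + j) ζ ≤ ∑ A ∈ T.de {C} i, T.bn T.sp {C} (T.fi {C}) G A j ζ := by
      unfold TS.fn TS.bn
      rw [T.de_add, T.de_biUnion, Finset.filter_biUnion]
      exact Finset.card_biUnion_le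
    have h3 : ∀ A ∈ T.de {C} i, (T.bn T.sp {C} (T.fi {C}) G A j ζ : ℝ) ≤
        (if T.mkd T.sp {C} (T.fi {C}) G ζ A then (1 : ℝ) else 0) * (T.fn T.sp {A} (T.fi {A}) G j (rs (gp G {A}) ζ) : ℝ) := by
      intro A hA
      by_cases hm : T.mkd T.sp {C} (T.fi {C}) G ζ A
      · rw [if_pos hm, one_mul]
        exact_mod_cast t9_bn_le T hC hg hA j ζ
      · rw [if_neg hm, zero_mul]
        have h4 : T.bn T.sp {C} (T.fi {C}) G A j ζ = 0 := by
          unfold TS.bn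
          rw [Finset.card_eq_zero, Finset.filter_eq_empty_iff]
          intro B hB hmB
          exact hm (t9_mkd_anc T hC hg hζ hA j B hB hmB)
        rw [h4]
        simp
    calc (T.fn T.sp {C} (T.fi {C}) G (i + j) ζ : ℝ) ≤ ((∑ A ∈ T.de {C} i, T.bn T.sp {C} (T.fi {C}) G A j ζ : ℕ) : ℝ) := by
          exact_mod_cast h2
      _ = ∑ A ∈ T.de {C} i, (T.bn T.sp {C} (T.fi {C}) G A j ζ : ℝ) := by push_cast; rfl
      _ ≤ _ := Finset.sum_le_sum h3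
  refine (t9_ex_mono h1).trans ?_
  rw [t9_ex_sum, Finset.mul_sum]
  refine Finset.sum_le_sum fun A hA => ?_
  have h5 := t14b_two T (S := T.sp) hC (g := T.fi {C}) (G := G) hA (fun ζ => (T.fn T.sp {A} (T.fi {A}) G j ζ : ℝ)) (fun ζ => Nat.cast_nonneg _)
  rw [t9_pr_eq] at h5
  exact h5

/-- submultiplicativity in the limit -/
theorem t14b_wL (T : TS D r) {C : Set V} (hC : T.Cn C) (i j : ℕ) {w : ℝ} (hw : ∀ A, T.Cn A → T.wL {A} j ≤ w) :
    T.wL {C} (i + j) ≤ (T.c0⁻¹) ^ 2 * (T.wL {C} i * w) := by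
  have hF := T.fo_single hC
  have hg : ∀ z ∈ fs {C}, T.fi {C} z ≤ T.fi {C} z := fun z _ => le_refl _
  let mA : Set V → ℝ := fun A => T.lm {C} (fun G ζ => if T.mkd T.sp {C} (T.fi {C}) G ζ A then 1 else 0)
  have hmA : ∀ A ∈ T.de {C} i, Tendsto (fun G : Finset V => ex D r (gp G {C})
      (fun ζ => if T.mkd T.sp {C} (T.fi {C}) G ζ A then (1 : ℝ) else 0)) atTop (𝓝 (mA A)) :=
    fun A hA => T.tendsto_lm hF (T.ql_mkd hF T.sp hg hA)
  have hm0 : ∀ A ∈ T.de {C} i, 0 ≤ mA A := by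
    intro A hA
    refine ge_of_tendsto' (hmA A hA) fun G => ?_
    exact t9_ex_nonneg fun ζ _ => by split_ifs <;> norm_num
  have hsum : ∑ A ∈ T.de {C} i, mA A = T.wL {C} i := by
    have h1 : Tendsto (fun G : Finset V => ∑ A ∈ T.de {C} i, ex D r (gp G {C})
        (fun ζ => if T.mkd T.sp {C} (T.fi {C}) G ζ A then (1 : ℝ) else 0)) atTop (𝓝 (∑ A ∈ T.de {C} i, mA A)) :=
      tendsto_finset_sum _ fun A hA => hmA A hA
    refine tendsto_nhds_unique h1 ?_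
    have h2 := t14b_lim T hF i
    refine h2.congr fun G => ?_
    exact t14b_fn_eq T (T.fi {C}) G i
  have hlim : Tendsto (fun G : Finset V => (T.c0⁻¹) ^ 2 * ∑ A ∈ T.de {C} i, ex D r (gp G {C})
      (fun ζ => if T.mkd T.sp {C} (T.fi {C}) G ζ A then (1 : ℝ) else 0) *
        ex D r (gp G {A}) (fun ζ => (T.fn T.sp {A} (T.fi {A}) G j ζ : ℝ))) atTop
      (𝓝 ((T.c0⁻¹) ^ 2 * ∑ A ∈ T.de {C} i, mA A * T.wL {A} j)) := by
    refine Tendsto.const_mul _ (tendsto_finset_sum _ fun A hA => ?_)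
    exact (hmA A hA).mul (t14b_lim T (T.fo_single (t9_cn T hC hA)) j)
  have hle := le_of_tendsto_of_tendsto' (t14b_lim T hF (i + j)) hlim (fun G => t14b_sub T hC G i j)
  refine hle.trans ?_
  have hc0 : 0 ≤ (T.c0⁻¹) ^ 2 := sq_nonneg _
  refine mul_le_mul_of_nonneg_left ?_ hc0
  rw [← hsum, Finset.sum_mul]
  exact Finset.sum_le_sum fun A hA => mul_le_mul_of_nonneg_left (hw A (t9_cn T hC hA)) (hm0 A hA)

/-- fourth powers and exponentials -/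
theorem t14b_pow4 {s : ℝ} (hs : 0 < s) : ∃ c : ℝ, 0 < c ∧ ∀ N : ℕ, (N : ℝ) ^ 4 ≤ c * ((1 + s) ^ N - 1) := by
  have h1 := tendsto_pow_const_div_const_pow_of_one_lt 4 (show (1 : ℝ) < 1 + s by linarith)
  obtain ⟨c, hc⟩ := h1.bddAbove_range
  have h1s : (0 : ℝ) < 1 + s := by linarith
  refine ⟨(|c| + 1) * ((1 + s) / s), by positivity, fun N => ?_⟩
  rcases Nat.eq_zero_or_pos N with h0 | h0
  · subst h0; simp
  obtain ⟨n, rfl⟩ : ∃ n, N = n + 1 := ⟨N - 1, by omega⟩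
  have h2 : ((n + 1 : ℕ) : ℝ) ^ 4 / (1 + s) ^ (n + 1) ≤ c := hc ⟨n + 1, rfl⟩
  rw [div_le_iff₀ (by positivity)] at h2
  have h3 : c * (1 + s) ^ (n + 1) ≤ (|c| + 1) * (1 + s) ^ (n + 1) :=
    mul_le_mul_of_nonneg_right (by linarith [le_abs_self c]) (by positivity)
  have h4 : (1 + s) ^ (n + 1) ≤ (1 + s) / s * ((1 + s) ^ (n + 1) - 1) := by
    have h5 : (1 : ℝ) ≤ (1 + s) ^ n := one_le_pow₀ (by linarith)
    rw [div_mul_eq_mul_div, le_div_iff₀ hs, pow_succ]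
    nlinarith
  calc ((n + 1 : ℕ) : ℝ) ^ 4 ≤ (|c| + 1) * (1 + s) ^ (n + 1) := h2.trans h3
    _ ≤ (|c| + 1) * ((1 + s) / s * ((1 + s) ^ (n + 1) - 1)) := mul_le_mul_of_nonneg_left h4 (by positivity)
    _ = _ := by ring

/-- weighted fourth power of a sum -/
theorem t14b_hold (L : ℕ) {t : ℝ} (ht : 0 < t) (x : ℕ → ℝ) :
    (∑ l ∈ range L, x l) ^ 4 ≤ (∑ l ∈ range L, t ^ l) ^ 3 * ∑ l ∈ range L, x l ^ 4 / t ^ (3 * l) := by
  have h1 : (∑ l ∈ range L, x l) ^ 2 ≤ (∑ l ∈ range L, t ^ l) * ∑ l ∈ range L, x l ^ 2 / t ^ l := by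
    refine Finset.sum_sq_le_sum_mul_sum_of_sq_eq_mul _ (fun i _ => by positivity) (fun i _ => by positivity) (fun i _ => ?_)
    field_simp
  have h2 : (∑ l ∈ range L, x l ^ 2 / t ^ l) ^ 2 ≤ (∑ l ∈ range L, t ^ l) * ∑ l ∈ range L, x l ^ 4 / t ^ (3 * l) := by
    refine Finset.sum_sq_le_sum_mul_sum_of_sq_eq_mul _ (fun i _ => by positivity) (fun i _ => by positivity) (fun i _ => ?_)
    have e : t ^ (3 * i) = t ^ i * t ^ i * t ^ i := by rw [← pow_add, ← pow_add]; congr 1; ring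
    rw [e]
    field_simp
  have h0 : 0 ≤ ∑ l ∈ range L, t ^ l := Finset.sum_nonneg fun i _ => by positivity
  calc (∑ l ∈ range L, x l) ^ 4 = ((∑ l ∈ range L, x l) ^ 2) ^ 2 := by ring
    _ ≤ ((∑ l ∈ range L, t ^ l) * ∑ l ∈ range L, x l ^ 2 / t ^ l) ^ 2 := pow_le_pow_left₀ (sq_nonneg _) h1 2
    _ = (∑ l ∈ range L, t ^ l) ^ 2 * (∑ l ∈ range L, x l ^ 2 / t ^ l) ^ 2 := by rw [mul_pow]
    _ ≤ (∑ l ∈ range L, t ^ l) ^ 2 * ((∑ l ∈ range L, t ^ l) * ∑ l ∈ range L, x l ^ 4 / t ^ (3 * l)) :=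
        mul_le_mul_of_nonneg_left h2 (sq_nonneg _)
    _ = _ := by ring

/-- fourth power of a sum over a finite set -/
theorem t14b_card4 {ι : Type*} (A : Finset ι) (x : ι → ℝ) : (∑ i ∈ A, x i) ^ 4 ≤ (A.card : ℝ) ^ 3 * ∑ i ∈ A, x i ^ 4 := by
  have h1 : (∑ i ∈ A, x i) ^ 2 ≤ (A.card : ℝ) * ∑ i ∈ A, x i ^ 2 := sq_sum_le_card_mul_sum_sq
  have h2 : (∑ i ∈ A, x i ^ 2) ^ 2 ≤ (A.card : ℝ) * ∑ i ∈ A, (x i ^ 2) ^ 2 := sq_sum_le_card_mul_sum_sq
  have e : ∑ i ∈ A, (x i ^ 2) ^ 2 = ∑ i ∈ A, x i ^ 4 := Finset.sum_congr rfl fun i _ => by ring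
  rw [e] at h2
  calc (∑ i ∈ A, x i) ^ 4 = ((∑ i ∈ A, x i) ^ 2) ^ 2 := by ring
    _ ≤ ((A.card : ℝ) * ∑ i ∈ A, x i ^ 2) ^ 2 := pow_le_pow_left₀ (sq_nonneg _) h1 2
    _ = (A.card : ℝ) ^ 2 * (∑ i ∈ A, x i ^ 2) ^ 2 := by rw [mul_pow]
    _ ≤ (A.card : ℝ) ^ 2 * ((A.card : ℝ) * ∑ i ∈ A, x i ^ 4) := mul_le_mul_of_nonneg_left h2 (sq_nonneg _)
    _ = _ := by ring

/-- TARGET. exponential decay for all cones. `W l = Σ_{C ∈ R} wL {C} l` over the representatives `R` (`types`) dominates `wL {C} l` for every cone `C` (`nL_map`), is summable, and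
`W (i + j) ≤ c0^(-1) W i W j`: a free cone of generation `i + j` has a free ancestor `A` of generation `i` (`mkd_parent` iterated), and is free for the full wave of `A` (`mkd_restart`); `two_le`/`child_le`-type bound with the mark of `A`
(a function of the configuration off `A`) and `two_marg`. (The constant may be `c0^(-2)`.) -/
theorem TS.exists_decay (T : TS D r) : ∃ ρ K : ℝ, 0 < ρ ∧ ρ < 1 ∧ 0 < K ∧ ∀ C, T.Cn C → ∀ l, T.wL {C} l ≤ K * ρ ^ l := by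
  obtain ⟨R, hR, hR'⟩ := T.types
  let W : ℕ → ℝ := fun l => ∑ C ∈ R, T.wL {C} l
  have hW0 : ∀ l, 0 ≤ W l := fun l => Finset.sum_nonneg fun C hC => (T.wL_nonneg (T.fo_single (hR C hC)) l).1
  have hWle : ∀ C, T.Cn C → ∀ l, T.wL {C} l ≤ W l := by
    intro C hC l
    obtain ⟨C0, hC0, φ, rfl⟩ := hR' C hC
    have h1 := (T.nL_map (T.fo_single (hR C0 hC0)) φ l).2.1
    rw [im, Finset.image_singleton] at h1
    rw [h1]
    exact Finset.single_le_sum (f := fun C => T.wL {C} l) (fun C hC => (T.wL_nonneg (T.fo_single (hR C hC)) l).1) hC0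
  have hWs : Summable W := summable_sum fun C hC => (T.summable_wL (T.fo_single (hR C hC))).2
  have hWm : ∀ i j, W (i + j) ≤ (T.c0⁻¹) ^ 2 * (W i * W j) := by
    intro i j
    have h1 : ∀ C ∈ R, T.wL {C} (i + j) ≤ (T.c0⁻¹) ^ 2 * (T.wL {C} i * W j) :=
      fun C hC => t14b_wL T (hR C hC) i j (fun A hA => hWle A hA j)
    calc W (i + j) ≤ ∑ C ∈ R, (T.c0⁻¹) ^ 2 * (T.wL {C} i * W j) := Finset.sum_le_sum h1
      _ = _ := by rw [← Finset.mul_sum, ← Finset.sum_mul]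
  obtain ⟨ρ, K, h1, h2, h3, h4⟩ := submult_decay hW0 hWs hWm
  exact ⟨ρ, K, h1, h2, h3, fun C hC l => (hWle C hC l).trans (h4 l)⟩

/-- TARGET. for every cone and every `J`, eventually in `G` the means of the free counts are at most `2 K ρ^i` (plus a positive slack to absorb zero limits: use `(K+1) ρ^i`), for all `B ∈ de {C} k`, `k + i ≤ J` -/
theorem TS.exists_decay' (T : TS D r) : ∃ ρ K : ℝ, 0 < ρ ∧ ρ < 1 ∧ 0 < K ∧ ∀ C, T.Cn C → ∀ J : ℕ, ∀ᶠ G in (atTop : Filter (Finset V)),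
    ∀ k i, k + i ≤ J → ∀ B ∈ T.de {C} k, ex D r (gp G {B}) (fun ζ => (T.fn T.sp {B} (T.fi {B}) G i ζ : ℝ)) ≤ K * ρ ^ i := by
  obtain ⟨ρ, K, h1, h2, h3, h4⟩ := T.exists_decay
  refine ⟨ρ, K + 1, h1, h2, by linarith, fun C hC J => ?_⟩
  have key : ∀ k ∈ range (J + 1), ∀ i ∈ range (J + 1), ∀ B ∈ T.de {C} k, ∀ᶠ G in (atTop : Filter (Finset V)),
      ex D r (gp G {B}) (fun ζ => (T.fn T.sp {B} (T.fi {B}) G i ζ : ℝ)) ≤ (K + 1) * ρ ^ i := by
    intro k _ i _ B hB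
    have hBc := t9_cn T hC hB
    have ht := t14b_lim T (T.fo_single hBc) i
    have hlt : T.wL {B} i < (K + 1) * ρ ^ i :=
      lt_of_le_of_lt (h4 B hBc i) (by have := pow_pos h1 i; nlinarith)
    exact (ht.eventually_lt_const hlt).mono fun G hG => hG.le
  have key2 : ∀ᶠ G in (atTop : Filter (Finset V)), ∀ k ∈ range (J + 1), ∀ i ∈ range (J + 1), ∀ B ∈ T.de {C} k,
      ex D r (gp G {B}) (fun ζ => (T.fn T.sp {B} (T.fi {B}) G i ζ : ℝ)) ≤ (K + 1) * ρ ^ i := by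
    rw [Filter.eventually_all_finset]
    intro k hk
    rw [Filter.eventually_all_finset]
    intro i hi
    rw [Filter.eventually_all_finset]
    intro B hB
    exact key k hk i hi B hB
  refine key2.mono fun G hG k i hki B hB => ?_
  exact hG k (Finset.mem_range.2 (by omega)) i (Finset.mem_range.2 (by omega)) B hB

/-- TARGET. exponential moments of the free counts. `moment` with `S = sp`, `w i = K ρ^i`, `h i = B s ρ2^i`, `ρ2 = sqrt ρ` and `s` small: `s K ρ^i + c Σ_{i'<i} K ρ^i' B^2 s^2 ρ2^(2(i-i'-1)) ≤ s K ρ2^i + c K B^2 s^2 i ρ2^(2i-2)` and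
`i ρ2^(i-2)` is bounded -/
theorem TS.exists_mom (T : TS D r) : ∃ s ρ K : ℝ, 0 < s ∧ 0 < ρ ∧ ρ < 1 ∧ 0 < K ∧ ∀ C, T.Cn C → ∀ l : ℕ, ∀ᶠ G in (atTop : Filter (Finset V)),
    ex D r (gp G {C}) (fun ζ => (1 + s) ^ (T.fn T.sp {C} (T.fi {C}) G l ζ) - 1) ≤ K * ρ ^ l := by
  obtain ⟨ρ, K, h1, h2, h3, h4⟩ := T.exists_decay'
  set M : ℝ := (T.c0⁻¹) ^ (2 * T.m) * 2 ^ T.m with hM
  have hM0 : 0 < M := by
    have := T.c0_pos
    positivity
  set ρ2 : ℝ := (1 + ρ) / 2 with hρ2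
  have hρ21 : ρ2 < 1 := by rw [hρ2]; linarith
  have hρ2ρ : ρ < ρ2 := by rw [hρ2]; linarith
  have hρ20 : 0 < ρ2 := by linarith
  set δ : ℝ := ρ2 - ρ with hδ
  have hδ0 : 0 < δ := by rw [hδ]; linarith
  set B0 : ℝ := K + 1 with hB0
  have hB00 : 0 < B0 := by rw [hB0]; linarith
  set X : ℝ := M * K * B0 ^ 2 / δ with hX
  have hX0 : 0 < X := by positivity
  set s : ℝ := 1 / (X + B0) with hs
  have hs0 : 0 < s := by positivity
  have hsX : X * s ≤ 1 := by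
    rw [hs, mul_one_div, div_le_one (by positivity)]; linarith
  have hsB : B0 * s ≤ 1 := by
    rw [hs, mul_one_div, div_le_one (by positivity)]; linarith
  refine ⟨s, ρ2, B0 * s, hs0, hρ20, hρ21, by positivity, fun C hC l => ?_⟩
  refine (h4 C hC l).mono fun G hG => ?_
  have hmom := T.moment (S := T.sp) hC G l (fun i => K * ρ ^ i) (fun i => B0 * s * ρ2 ^ i) hs0.le hG
    (fun i _ => by
      have e1 : ∑ i' ∈ range i, (K * ρ ^ i') * (B0 * s * ρ2 ^ (i - i' - 1)) ^ 2 ≤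
          K * B0 ^ 2 * s ^ 2 * (ρ2 ^ i / δ) := by
        have e2 : ∀ i' ∈ range i, (K * ρ ^ i') * (B0 * s * ρ2 ^ (i - i' - 1)) ^ 2 ≤
            K * B0 ^ 2 * s ^ 2 * (ρ ^ i' * ρ2 ^ (i - 1 - i')) := by
          intro i' _
          have e3 : (ρ2 ^ (i - i' - 1)) ^ 2 ≤ ρ2 ^ (i - 1 - i') := by
            have e4 : i - i' - 1 = i - 1 - i' := by omega
            rw [e4, sq]
            have e5 : ρ2 ^ (i - 1 - i') ≤ 1 := pow_le_one₀ hρ20.le hρ21.le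
            have e6 : 0 ≤ ρ2 ^ (i - 1 - i') := by positivity
            nlinarith
          calc (K * ρ ^ i') * (B0 * s * ρ2 ^ (i - i' - 1)) ^ 2 =
                (K * B0 ^ 2 * s ^ 2 * ρ ^ i') * (ρ2 ^ (i - i' - 1)) ^ 2 := by ring
            _ ≤ (K * B0 ^ 2 * s ^ 2 * ρ ^ i') * ρ2 ^ (i - 1 - i') :=
                mul_le_mul_of_nonneg_left e3 (by positivity)
            _ = _ := by ring
        refine (Finset.sum_le_sum e2).trans ?_
        rw [← Finset.mul_sum]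
        refine mul_le_mul_of_nonneg_left ?_ (by positivity)
        have e7 := (Commute.all ρ ρ2).geom_sum₂_mul i
        have e8 : ∑ i' ∈ range i, ρ ^ i' * ρ2 ^ (i - 1 - i') = (ρ2 ^ i - ρ ^ i) / δ := by
          rw [eq_div_iff hδ0.ne', hδ]
          linarith
        rw [e8]
        apply div_le_div_of_nonneg_right _ hδ0.le
        have : 0 ≤ ρ ^ i := by positivity
        linarith
      have e9 : s * (K * ρ ^ i) ≤ s * (K * ρ2 ^ i) := by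
        have := pow_le_pow_left₀ h1.le hρ2ρ.le i
        gcongr
      have e10 : M * ∑ i' ∈ range i, (K * ρ ^ i') * (B0 * s * ρ2 ^ (i - i' - 1)) ^ 2 ≤ s * ρ2 ^ i := by
        calc M * ∑ i' ∈ range i, (K * ρ ^ i') * (B0 * s * ρ2 ^ (i - i' - 1)) ^ 2
            ≤ M * (K * B0 ^ 2 * s ^ 2 * (ρ2 ^ i / δ)) := mul_le_mul_of_nonneg_left e1 hM0.le
          _ = (X * s) * (s * ρ2 ^ i) := by rw [hX]; ring
          _ ≤ 1 * (s * ρ2 ^ i) := mul_le_mul_of_nonneg_right hsX (by positivity)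
          _ = s * ρ2 ^ i := one_mul _
      calc s * (K * ρ ^ i) + M * ∑ i' ∈ range i, (K * ρ ^ i') * (B0 * s * ρ2 ^ (i - i' - 1)) ^ 2
          ≤ s * (K * ρ2 ^ i) + s * ρ2 ^ i := add_le_add e9 e10
        _ = B0 * s * ρ2 ^ i := by rw [hB0]; ring)
    (fun i _ => by
      have := pow_le_one₀ hρ20.le hρ21.le (n := i)
      calc B0 * s * ρ2 ^ i ≤ B0 * s * 1 := mul_le_mul_of_nonneg_left this (by positivity)
        _ ≤ 1 := by rw [mul_one]; exact hsB)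
  exact hmom 0 l (by omega) C (by rw [T.de_zero]; exact Finset.mem_singleton_self C)

/-- TARGET. fourth moment of the total number of free cones in the first `L` generations: `N^4 ≤ c ((1+s)^N - 1)`, so `E fn_l^4 ≤ c K ρ^l`; Hölder `(Σ x_l)^4 ≤ (Σ θ^l)^3 Σ θ^(-3l) x_l^4` with `θ^3 > ρ`, e.g. `θ = ρ^(1/4)` -/
theorem TS.exists_K4 (T : TS D r) : ∃ K : ℝ, 0 < K ∧ ∀ C, T.Cn C → ∀ L : ℕ, ∀ᶠ G in (atTop : Filter (Finset V)),
    ex D r (gp G {C}) (fun ζ => (∑ l ∈ range L, (T.fn T.sp {C} (T.fi {C}) G l ζ : ℝ)) ^ 4) ≤ K := by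
  obtain ⟨s, ρ, K, hs, h1, h2, h3, h4⟩ := T.exists_mom
  obtain ⟨c, hc, hc4⟩ := t14b_pow4 hs
  set t : ℝ := Real.sqrt (Real.sqrt ρ) with ht
  have ht0 : 0 < t := Real.sqrt_pos.2 (Real.sqrt_pos.2 h1)
  have ht4 : t ^ 4 = ρ := by
    have e1 : t ^ 2 = Real.sqrt ρ := Real.sq_sqrt (Real.sqrt_nonneg _)
    calc t ^ 4 = (t ^ 2) ^ 2 := by ring
      _ = ρ := by rw [e1]; exact Real.sq_sqrt h1.le
  have ht1 : t < 1 := by
    by_contra hcon
    push Not at hcon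
    have : (1 : ℝ) ≤ t ^ 4 := one_le_pow₀ hcon
    rw [ht4] at this
    linarith
  have hgeo : ∀ L : ℕ, ∑ l ∈ range L, t ^ l ≤ 1 / (1 - t) := by
    intro L
    rw [le_div_iff₀ (by linarith), geom_sum_mul_neg]
    have : 0 ≤ t ^ L := by positivity
    linarith
  refine ⟨(1 / (1 - t)) ^ 3 * (c * K * (1 / (1 - t))), ?_, fun C hC L => ?_⟩
  · have : 0 < 1 - t := by linarith
    positivity
  have hev : ∀ᶠ G in (atTop : Filter (Finset V)), ∀ l ∈ range L,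
      ex D r (gp G {C}) (fun ζ => (1 + s) ^ (T.fn T.sp {C} (T.fi {C}) G l ζ) - 1) ≤ K * ρ ^ l := by
    rw [Filter.eventually_all_finset]
    intro l _
    exact h4 C hC l
  refine hev.mono fun G hG => ?_
  have hS0 : 0 ≤ ∑ l ∈ range L, t ^ l := Finset.sum_nonneg fun i _ => by positivity
  have e1 : ex D r (gp G {C}) (fun ζ => (∑ l ∈ range L, (T.fn T.sp {C} (T.fi {C}) G l ζ : ℝ)) ^ 4) ≤
      (∑ l ∈ range L, t ^ l) ^ 3 * ∑ l ∈ range L, (1 / t ^ (3 * l)) *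
        ex D r (gp G {C}) (fun ζ => (T.fn T.sp {C} (T.fi {C}) G l ζ : ℝ) ^ 4) := by
    have e2 : ex D r (gp G {C}) (fun ζ => (∑ l ∈ range L, t ^ l) ^ 3 * ∑ l ∈ range L, (1 / t ^ (3 * l)) *
        (T.fn T.sp {C} (T.fi {C}) G l ζ : ℝ) ^ 4) = (∑ l ∈ range L, t ^ l) ^ 3 * ∑ l ∈ range L, (1 / t ^ (3 * l)) *
        ex D r (gp G {C}) (fun ζ => (T.fn T.sp {C} (T.fi {C}) G l ζ : ℝ) ^ 4) := by
      rw [t9_ex_mul, t9_ex_sum]
      congr 1
      refine Finset.sum_congr rfl fun l _ => ?_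
      rw [t9_ex_mul]
    rw [← e2]
    refine t9_ex_mono fun ζ _ => ?_
    refine (t14b_hold L ht0 (fun l => (T.fn T.sp {C} (T.fi {C}) G l ζ : ℝ))).trans (le_of_eq ?_)
    congr 1
    refine Finset.sum_congr rfl fun l _ => ?_
    ring
  have e3 : ∀ l ∈ range L, (1 / t ^ (3 * l)) *
      ex D r (gp G {C}) (fun ζ => (T.fn T.sp {C} (T.fi {C}) G l ζ : ℝ) ^ 4) ≤ c * K * t ^ l := by
    intro l hl
    have e4 : ex D r (gp G {C}) (fun ζ => (T.fn T.sp {C} (T.fi {C}) G l ζ : ℝ) ^ 4) ≤ c * (K * ρ ^ l) := by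
      refine (t9_ex_mono fun ζ _ => hc4 _).trans ?_
      rw [t9_ex_mul]
      exact mul_le_mul_of_nonneg_left (hG l hl) hc.le
    have e5 : (1 / t ^ (3 * l)) * (c * (K * ρ ^ l)) = c * K * t ^ l := by
      have e6 : ρ ^ l = t ^ (3 * l) * t ^ l := by
        rw [← ht4, ← pow_mul, ← pow_add]
        congr 1
        ring
      rw [e6]
      have : t ^ (3 * l) ≠ 0 := by positivity
      field_simp
    rw [← e5]
    exact mul_le_mul_of_nonneg_left e4 (by positivity)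
  have e7 : ∑ l ∈ range L, (1 / t ^ (3 * l)) *
      ex D r (gp G {C}) (fun ζ => (T.fn T.sp {C} (T.fi {C}) G l ζ : ℝ) ^ 4) ≤ c * K * (1 / (1 - t)) := by
    refine (Finset.sum_le_sum e3).trans ?_
    rw [← Finset.mul_sum]
    exact mul_le_mul_of_nonneg_left (hgeo L) (by positivity)
  have e8 : 0 < 1 / (1 - t) := by
    have : 0 < 1 - t := by linarith
    positivity
  refine e1.trans ?_
  calc (∑ l ∈ range L, t ^ l) ^ 3 * ∑ l ∈ range L, (1 / t ^ (3 * l)) *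
        ex D r (gp G {C}) (fun ζ => (T.fn T.sp {C} (T.fi {C}) G l ζ : ℝ) ^ 4)
      ≤ (∑ l ∈ range L, t ^ l) ^ 3 * (c * K * (1 / (1 - t))) := mul_le_mul_of_nonneg_left e7 (by positivity)
    _ ≤ (1 / (1 - t)) ^ 3 * (c * K * (1 / (1 - t))) :=
        mul_le_mul_of_nonneg_right (pow_le_pow_left₀ hS0 (hgeo L) 3) (by positivity)

/-- TARGET. the same for forests and smaller inputs (`fn_mono`, `fn_fo`, `(Σ_{C ∈ F} x_C)^4 ≤ |F|^3 Σ x_C^4`, `fo_marg`) -/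
theorem TS.K4_fo (T : TS D r) : ∃ K : ℝ, 0 < K ∧ ∀ F, T.Fo F → ∀ g : V → ℕ, (∀ z ∈ fs F, g z ≤ T.fi F z) → ∀ L : ℕ, ∀ᶠ G in (atTop : Filter (Finset V)),
    ex D r (gp G F) (fun ζ => (∑ l ∈ range L, (T.fn T.sp F g G l ζ : ℝ)) ^ 4) ≤ K * (F.card : ℝ) ^ 4 := by
  obtain ⟨K, hK, h⟩ := T.exists_K4
  refine ⟨K, hK, fun F hF g hg L => ?_⟩
  have hev : ∀ᶠ G in (atTop : Filter (Finset V)), ∀ C ∈ F,
      ex D r (gp G {C}) (fun ζ => (∑ l ∈ range L, (T.fn T.sp {C} (T.fi {C}) G l ζ : ℝ)) ^ 4) ≤ K := by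
    rw [Filter.eventually_all_finset]
    intro C hC
    exact h C (hF.cn C hC) L
  refine hev.mono fun G hG => ?_
  have e1 : ∀ ζ ∈ Rc D r (gp G F), (∑ l ∈ range L, (T.fn T.sp F g G l ζ : ℝ)) ^ 4 ≤
      (F.card : ℝ) ^ 3 * ∑ C ∈ F, (∑ l ∈ range L, (T.fn T.sp {C} (T.fi {C}) G l (rs (gp G {C}) ζ) : ℝ)) ^ 4 := by
    intro ζ hζR
    have hζ0 : ∀ z ∈ fs F, z ∉ G → ζ z ≠ r := by
      intro z _ hzG h0
      have h1 := (mem_Rc.1 hζR).1.2 z (fun h => hzG (TS.mem_gp.1 h).1)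
      have h2 := T.gd.one_le
      omega
    have e2 : ∑ l ∈ range L, (T.fn T.sp F g G l ζ : ℝ) ≤
        ∑ C ∈ F, ∑ l ∈ range L, (T.fn T.sp {C} (T.fi {C}) G l (rs (gp G {C}) ζ) : ℝ) := by
      rw [Finset.sum_comm]
      refine Finset.sum_le_sum fun l _ => ?_
      have e3 := T.fn_mono (S := T.sp) hF hg G l ζ
      rw [T.fn_fo hF G l ζ hζ0] at e3
      exact_mod_cast e3
    have e4 : 0 ≤ ∑ l ∈ range L, (T.fn T.sp F g G l ζ : ℝ) := Finset.sum_nonneg fun l _ => Nat.cast_nonneg _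
    exact (pow_le_pow_left₀ e4 e2 4).trans (t14b_card4 F _)
  refine (t9_ex_mono e1).trans ?_
  rw [t9_ex_mul, t9_ex_sum]
  have e5 : ∀ C ∈ F, ex D r (gp G F) (fun ζ => (∑ l ∈ range L, (T.fn T.sp {C} (T.fi {C}) G l (rs (gp G {C}) ζ) : ℝ)) ^ 4) ≤ K := by
    intro C hC
    rw [T.fo_marg hF hC G (fun ζ => (∑ l ∈ range L, (T.fn T.sp {C} (T.fi {C}) G l ζ : ℝ)) ^ 4)]
    exact hG C hC
  calc (F.card : ℝ) ^ 3 * ∑ C ∈ F, ex D r (gp G F)
        (fun ζ => (∑ l ∈ range L, (T.fn T.sp {C} (T.fi {C}) G l (rs (gp G {C}) ζ) : ℝ)) ^ 4)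
      ≤ (F.card : ℝ) ^ 3 * ∑ _C ∈ F, K := mul_le_mul_of_nonneg_left (Finset.sum_le_sum e5) (by positivity)
    _ = K * (F.card : ℝ) ^ 4 := by rw [Finset.sum_const, nsmul_eq_mul]; ring

end Pool.Agent.Helper910.QT
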