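import Mathlib
import Pool.Agent.Helper910.T14b

/-! The set of first units; exact decomposition of the size of a wave (MP_4555f0_mp) -/

namespace Pool.Agent.Helper910.QT

open Classical Finset Filter Topology

variable {V : Type*} {D : SimpleGraph V} [D.LocallyFinite] {r : ℕ}

/-- the first units in the first `L` generations -/
noncomputable def TS.fus (T : TS D r) (F : Finset (Set V)) (g : V → ℕ) (G : Finset V) (L : ℕ) (ζ : V → ℕ) : Finset (Set V) :=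
  (range L).biUnion (fun j => (T.de F j).filter (fun A => T.fu F g G ζ A))

/-- number of toppled vertices outside the cones of the first units (of the first `L` generations) -/
noncomputable def TS.xv (T : TS D r) (F : Finset (Set V)) (g : V → ℕ) (G : Finset V) (L : ℕ) (ζ : V → ℕ) : ℕ :=
  ((gw D r g (gp G F) ζ).filter (fun z => ∀ A ∈ T.fus F g G L ζ, z ∉ A)).card

/-- an antichain of special cones in the first `L` generations -/
def TS.An (T : TS D r) (F : Finset (Set V)) (L : ℕ) (U : Finset (Set V)) : Prop :=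
  (∀ A ∈ U, T.sp A ∧ ∃ j < L, A ∈ T.de F j) ∧ ∀ A ∈ U, ∀ B ∈ U, A ≠ B → Disjoint A B

/-- all descendants in the first `L` generations -/
noncomputable def TS.dl (T : TS D r) (F : Finset (Set V)) (L : ℕ) : Finset (Set V) := (range L).biUnion (fun j => T.de F j)

/-- total size of the top pieces -/
noncomputable def TS.qs (T : TS D r) (U : Finset (Set V)) : ℕ := ∑ A ∈ U, (T.Q A).card

/-- the distribution of the size of a unit together with the full wave below it -/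
noncomputable def TS.tl (T : TS D r) (G : Finset V) (A : Set V) (n : ℕ) : ℝ :=
  pr D r (gp G (T.ch A)) (fun ζ => (T.Q A).card + (gw D r (T.fi (T.ch A)) (gp G (T.ch A)) ζ).card = n)

/-! ### helper lemmas -/

theorem t15_ite {p q : Prop} {ip : Decidable p} {iq : Decidable q} (h : p ↔ q) {a b : ℝ} : @ite ℝ p ip a b = @ite ℝ q iq a b := by
  by_cases hp : p
  · rw [if_pos hp, if_pos (h.1 hp)]
  · rw [if_neg hp, if_neg (fun hq => hp (h.2 hq))]

theorem t15_pr_ex {G : Finset V} {P : (V → ℕ) → Prop} {ip : ∀ ζ, Decidable (P ζ)} :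
    pr D r G P = ex D r G (fun ζ => @ite ℝ (P ζ) (ip ζ) 1 0) := by
  rw [t9_pr_eq]
  congr 1
  funext ζ
  exact t15_ite Iff.rfl

theorem t15_pr_zero {G : Finset V} {P : (V → ℕ) → Prop} (h : ∀ ζ ∈ Rc D r G, ¬ P ζ) : pr D r G P = 0 := by
  unfold pr
  rw [filter_eq_empty_iff.2 h]
  simp


theorem t15_mem_fus {T : TS D r} {F : Finset (Set V)} {g : V → ℕ} {G : Finset V} {L : ℕ} {ζ : V → ℕ} {A : Set V} :
    A ∈ T.fus F g G L ζ ↔ ∃ j < L, A ∈ T.de F j ∧ T.fu F g G ζ A := by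
  unfold TS.fus
  simp only [mem_biUnion, mem_range, mem_filter]

theorem t15_nested {T : TS D r} {F : Finset (Set V)} (hF : T.Fo F) {i j : ℕ} {A B : Set V} (hA : A ∈ T.de F i) (hB : B ∈ T.de F j) :
    A ⊆ B ∨ B ⊆ A ∨ Disjoint A B := by
  rcases le_total i j with h | h
  · obtain ⟨k, rfl⟩ := Nat.exists_eq_add_of_le h
    rcases T.nested hF hA hB with h | h
    · exact Or.inr (Or.inl h.1)
    · exact Or.inr (Or.inr h)
  · obtain ⟨k, rfl⟩ := Nat.exists_eq_add_of_le h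
    rcases T.nested hF hB hA with h | h
    · exact Or.inl h.1
    · exact Or.inr (Or.inr h.symm)

/-- TARGET. two different first units are disjoint (nested ones are excluded by `nab`) -/
theorem TS.fus_an (T : TS D r) {F : Finset (Set V)} (hF : T.Fo F) {g : V → ℕ} (G : Finset V) (L : ℕ) (ζ : V → ℕ) : T.An F L (T.fus F g G L ζ) := by
  constructor
  · intro A hA
    obtain ⟨j, hj, hA, hf⟩ := t15_mem_fus.1 hA
    exact ⟨hf.1, j, hj, hA⟩
  · intro A hA B hB hne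
    obtain ⟨i, hi, hA, hfA⟩ := t15_mem_fus.1 hA
    obtain ⟨j, hj, hB, hfB⟩ := t15_mem_fus.1 hB
    rcases t15_nested hF hA hB with h | h | h
    · exact (hfA.2.2.2 j B hB hfB.1 (h.ssubset_of_ne hne) hfB.2.1).elim
    · exact (hfB.2.2.2 i A hA hfA.1 (h.ssubset_of_ne hne.symm) hfA.2.1).elim
    · exact h

theorem t15_cn {T : TS D r} {F : Finset (Set V)} (hF : T.Fo F) {L : ℕ} {U : Finset (Set V)} (h : T.An F L U) {A : Set V} (hA : A ∈ U) : T.Cn A := by
  obtain ⟨-, j, -, hj⟩ := h.1 A hA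
  exact T.t5b_cn hF hj

/-- TARGET. the children of an antichain form a forest (descendants of different, disjoint cones are not adjacent: `o B ⊆ Q A` for `B ∈ ch A`) -/
theorem TS.An.fo {T : TS D r} {F : Finset (Set V)} (hF : T.Fo F) {L : ℕ} {U : Finset (Set V)} (h : T.An F L U) : T.Fo (U.biUnion T.ch) := by
  refine ⟨?_, ?_, ?_⟩
  · intro C hC
    obtain ⟨A, hA, hC⟩ := mem_biUnion.1 hC
    exact T.ch_cn (t15_cn hF h hA) C hC
  · intro C hC C' hC' hne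
    obtain ⟨A, hA, hC⟩ := mem_biUnion.1 hC
    obtain ⟨A', hA', hC'⟩ := mem_biUnion.1 hC'
    by_cases e : A = A'
    · subst e
      exact T.ch_disj (t15_cn hF h hA) C hC C' hC' hne
    · exact (h.2 A hA A' hA' e).mono (T.ch_sub (t15_cn hF h hA) hC) (T.ch_sub (t15_cn hF h hA') hC')
  · intro C hC C' hC' x hx hxC
    obtain ⟨A, hA, hC⟩ := mem_biUnion.1 hC
    obtain ⟨A', hA', hC'⟩ := mem_biUnion.1 hC'
    have hxQ : x ∈ T.Q A := T.o_sub (t15_cn hF h hA) C hC hx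
    by_cases e : A = A'
    · subst e
      exact T.Q_notMem (t15_cn hF h hA) C' hC' x hxQ hxC
    · exact Set.disjoint_left.1 (h.2 A hA A' hA' e) (T.Q_sub (t15_cn hF h hA) hxQ)
        (T.ch_sub (t15_cn hF h hA') hC' hxC)

theorem t15_ssub {T : TS D r} {F : Finset (Set V)} (hF : T.Fo F) {i j : ℕ} {A B : Set V} (hA : A ∈ T.de F i) (hB : B ∈ T.de F j) {z : V} (hz : z ∈ A) (hz' : z ∈ B) :
    A ⊂ B ∨ A = B ∨ B ⊂ A := by
  by_cases e : A = B
  · exact Or.inr (Or.inl e)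
  rcases t15_nested hF hA hB with h | h | h
  · exact Or.inl (h.ssubset_of_ne e)
  · exact Or.inr (Or.inr (h.ssubset_of_ne (Ne.symm e)))
  · exact (Set.disjoint_left.1 h hz hz').elim

/-! ### the pivot at an antichain -/

/-- the union of the top pieces -/
noncomputable def t15_S (T : TS D r) (U : Finset (Set V)) : Finset V := U.biUnion T.Q

/-- the vertices outside the cones of `U` -/
noncomputable def t15_G (G : Finset V) (F U : Finset (Set V)) : Finset V := (gp G F).filter (fun z => ∀ A ∈ U, z ∉ A)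

/-- the vertices below `U` -/
noncomputable def t15_B (T : TS D r) (G : Finset V) (U : Finset (Set V)) : Finset V := gp G (U.biUnion T.ch)

theorem t15_mem_S {T : TS D r} {U : Finset (Set V)} {z : V} : z ∈ t15_S T U ↔ ∃ A ∈ U, z ∈ T.Q A := by
  unfold t15_S; rw [mem_biUnion]

theorem t15_mem_G {G : Finset V} {F U : Finset (Set V)} {z : V} : z ∈ t15_G G F U ↔ z ∈ gp G F ∧ ∀ A ∈ U, z ∉ A := by
  unfold t15_G; rw [mem_filter]

theorem t15_mem_fs {T : TS D r} {U : Finset (Set V)} {z : V} : z ∈ fs (U.biUnion T.ch) ↔ ∃ A ∈ U, ∃ C ∈ T.ch A, z ∈ C := by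
  constructor
  · rintro ⟨C, hC, hz⟩
    obtain ⟨A, hA, hC⟩ := mem_biUnion.1 hC
    exact ⟨A, hA, C, hC, hz⟩
  · rintro ⟨A, hA, C, hC, hz⟩
    exact ⟨C, mem_biUnion.2 ⟨A, hA, hC⟩, hz⟩

theorem t15_mem_B {T : TS D r} {G : Finset V} {U : Finset (Set V)} {z : V} : z ∈ t15_B T G U ↔ z ∈ G ∧ ∃ A ∈ U, ∃ C ∈ T.ch A, z ∈ C := by
  unfold t15_B; rw [TS.mem_gp, t15_mem_fs]

section piv

variable {T : TS D r} {F : Finset (Set V)} {g : V → ℕ} {G : Finset V} {L : ℕ} {U : Finset (Set V)}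

/-- a vertex of the antichain is in a top piece or below -/
theorem t15_split (hF : T.Fo F) (h : T.An F L U) {A : Set V} (hA : A ∈ U) (z : V) : z ∈ A ↔ z ∈ T.Q A ∨ ∃ C ∈ T.ch A, z ∈ C :=
  T.mem_iff (t15_cn hF h hA) z

theorem t15_sub_fs (hF : T.Fo F) (h : T.An F L U) {A : Set V} (hA : A ∈ U) {z : V} (hz : z ∈ A) : z ∈ fs F := by
  obtain ⟨-, j, -, hj⟩ := h.1 A hA
  exact T.t5b_sub hF hj hz

theorem t15_uniq (h : T.An F L U) {A A' : Set V} (hA : A ∈ U) (hA' : A' ∈ U) {z : V} (hz : z ∈ A) (hz' : z ∈ A') : A = A' := by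
  by_contra e
  exact Set.disjoint_left.1 (h.2 A hA A' hA' e) hz hz'

theorem t15_Q_fs (hF : T.Fo F) (h : T.An F L U) {A : Set V} (hA : A ∈ U) {z : V} (hz : z ∈ T.Q A) : z ∉ fs (U.biUnion T.ch) := by
  rw [t15_mem_fs]
  rintro ⟨A', hA', C, hC, hz'⟩
  have e := t15_uniq h hA hA' (T.Q_sub (t15_cn hF h hA) hz) (T.ch_sub (t15_cn hF h hA') hC hz')
  subst e
  exact T.Q_notMem (t15_cn hF h hA) C hC z hz hz'

/-- neighbours of a vertex below `A` -/
theorem t15_nbr (hF : T.Fo F) (h : T.An F L U) {A : Set V} (hA : A ∈ U) {C : Set V} (hC : C ∈ T.ch A) {z x : V} (hz : z ∈ C) (hx : D.Adj z x) :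
    x ∈ C ∨ x ∈ T.Q A := by
  rcases T.nbr_ch (t15_cn hF h hA) hC hz hx with h1 | h1
  · exact Or.inl h1
  · exact Or.inr (T.o_sub (t15_cn hF h hA) C hC h1)

theorem t15_nbr' (hF : T.Fo F) (h : T.An F L U) {A : Set V} (hA : A ∈ U) {C : Set V} (hC : C ∈ T.ch A) {z x : V} (hz : z ∈ C) (hx : D.Adj z x) :
    x ∈ A := by
  rcases t15_nbr hF h hA hC hz hx with h1 | h1
  · exact T.ch_sub (t15_cn hF h hA) hC h1
  · exact T.Q_sub (t15_cn hF h hA) h1

theorem t15_g_zero (hF : T.Fo F) (hg : ∀ z ∈ fs F, g z ≤ T.fi F z) (h : T.An F L U) {A : Set V} (hA : A ∈ U) {C : Set V} (hC : C ∈ T.ch A) {z : V} (hz : z ∈ C) :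
    g z = 0 := by
  obtain ⟨-, j, -, hj⟩ := h.1 A hA
  have h1 : z ∈ fs (T.de F (j + 1)) := by
    rw [T.de_succ]
    exact ⟨C, mem_biUnion.2 ⟨A, hj, hC⟩, hz⟩
  have h2 := T.fi_zero hF (i := j + 1) (by omega) h1
  have h3 := hg z (t15_sub_fs hF h hA (T.ch_sub (t15_cn hF h hA) hC hz))
  omega

theorem t15_union (hF : T.Fo F) (h : T.An F L U) (hS : t15_S T U ⊆ G) :
    t15_G G F U ∪ t15_S T U ∪ t15_B T G U = gp G F := by
  ext z
  rw [mem_union, mem_union, t15_mem_G, t15_mem_S, t15_mem_B, TS.mem_gp]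
  constructor
  · rintro ((h1 | ⟨A, hA, hz⟩) | ⟨h1, A, hA, C, hC, hz⟩)
    · exact h1.1
    · exact ⟨hS (t15_mem_S.2 ⟨A, hA, hz⟩), t15_sub_fs hF h hA (T.Q_sub (t15_cn hF h hA) hz)⟩
    · exact ⟨h1, t15_sub_fs hF h hA (T.ch_sub (t15_cn hF h hA) hC hz)⟩
  · rintro ⟨h1, h2⟩
    by_cases h3 : ∃ A ∈ U, z ∈ A
    · obtain ⟨A, hA, hz⟩ := h3
      rcases (t15_split hF h hA z).1 hz with h4 | ⟨C, hC, h4⟩
      · exact Or.inl (Or.inr ⟨A, hA, h4⟩)
      · exact Or.inr ⟨h1, A, hA, C, hC, h4⟩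
    · push Not at h3
      exact Or.inl (Or.inl ⟨⟨h1, h2⟩, h3⟩)

theorem t15_piv (hF : T.Fo F) (hg : ∀ z ∈ fs F, g z ≤ T.fi F z) (h : T.An F L U) (hS : t15_S T U ⊆ G) :
    Piv D r g (t15_G G F U) (t15_S T U) (t15_B T G U) := by
  refine ⟨?_, ?_, ?_, ?_, ?_, ?_⟩
  · rw [Finset.disjoint_left]
    intro z h1 h2
    obtain ⟨A, hA, hz⟩ := t15_mem_S.1 h2
    exact (t15_mem_G.1 h1).2 A hA (T.Q_sub (t15_cn hF h hA) hz)
  · rw [Finset.disjoint_left]
    intro z h1 h2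
    obtain ⟨-, A, hA, C, hC, hz⟩ := t15_mem_B.1 h2
    exact (t15_mem_G.1 h1).2 A hA (T.ch_sub (t15_cn hF h hA) hC hz)
  · rw [Finset.disjoint_left]
    intro z h1 h2
    obtain ⟨A, hA, hz⟩ := t15_mem_S.1 h1
    exact t15_Q_fs hF h hA hz (t15_mem_fs.2 (t15_mem_B.1 h2).2)
  · intro x hx y hy hxy
    obtain ⟨-, A, hA, C, hC, hz⟩ := t15_mem_B.1 hy
    exact (t15_mem_G.1 hx).2 A hA (t15_nbr' hF h hA hC hz hxy.symm)
  · intro z hz
    obtain ⟨-, A, hA, C, hC, hz⟩ := t15_mem_B.1 hz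
    exact t15_g_zero hF hg h hA hC hz
  · rw [t15_union hF h hS]
    exact T.adm_fi hF hg G

/-- on the event that the pieces of `U` are full, they are contained in `G` -/
theorem t15_S_sub (hF : T.Fo F) {ζ : V → ℕ} (hζ : ζ ∈ Rc D r (gp G F)) (hb : ∀ A ∈ U, T.fb ζ A) : t15_S T U ⊆ G := by
  intro z hz
  obtain ⟨A, hA, hz⟩ := t15_mem_S.1 hz
  by_contra hG
  have h1 := (mem_Rc.1 hζ).1.2 z (fun h => hG (TS.mem_gp.1 h).1)
  have h2 := hb A hA z hz
  have h3 := T.gd.one_le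
  omega

theorem t15_dg_zero {z : V} {X : Finset V} (h : ∀ x ∈ X, ¬ D.Adj z x) : dg D z X = 0 := dg_eq_zero h

/-- the full pieces reached by the wave are reached by the wave outside -/
theorem t15_reach (hF : T.Fo F) (hg : ∀ z ∈ fs F, g z ≤ T.fi F z) (h : T.An F L U) (hS : t15_S T U ⊆ G) {ζ : V → ℕ} (hζ : ζ ∈ Rc D r (gp G F))
    (hb : ∀ A ∈ U, T.fb ζ A) {A : Set V} (hA : A ∈ U) (hr : rch D g (gw D r g (gp G F) ζ) A) :
    rch D g (gw D r g (t15_G G F U ∪ t15_S T U) ζ) A := by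
  set W1 := gw D r g (t15_G G F U ∪ t15_S T U) ζ with hW1
  have P := t15_piv hF hg h hS
  have hu := t15_union hF h hS
  have hle : ∀ z ∈ gp G F, ζ z ≤ r := fun z hz => ((mem_Rc.1 hζ).1.1 z hz).2
  have hle1 : ∀ z ∈ t15_G G F U ∪ t15_S T U, ζ z ≤ r := fun z hz => hle z (by rw [← hu]; exact mem_union_left _ hz)
  have hcl := gw_GCl (D := D) (r := r) g (t15_G G F U ∪ t15_S T U) ζ
  rw [← hW1] at hcl
  -- a reached piece topples
  have htop : ∀ A ∈ U, rch D g W1 A → ∀ z ∈ T.Q A, z ∈ W1 := by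
    intro A hA hr z hz
    obtain ⟨z0, hz0, h0⟩ := hr
    have hz0Q : z0 ∈ T.Q A := by
      obtain ⟨-, j, -, hj⟩ := h.1 A hA
      rcases h0 with h0 | ⟨x, -, hx, hxz⟩
      · obtain ⟨x, hx, hxz⟩ := T.t5b_inp hF hg hj hz0 h0
        exact (T.ib_sub (t15_cn hF h hA) hz0 hx hxz).1
      · exact (T.ib_sub (t15_cn hF h hA) hz0 hx hxz.symm).1
    have hz0S : z0 ∈ t15_G G F U ∪ t15_S T U := mem_union_right _ (t15_mem_S.2 ⟨A, hA, hz0Q⟩)
    have hz0W : z0 ∈ W1 := by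
      by_contra hn
      have h1 := hcl.2 z0 hz0S hn
      have h2 : ζ z0 = r := hb A hA z0 hz0Q
      rcases h0 with h0 | ⟨x, hxW, -, hxz⟩
      · omega
      · have := TS.t5b_dg_pos (D := D) hxW hxz.symm
        omega
    obtain ⟨p, hp⟩ := T.Q_conn (t15_cn hF h hA) z0 hz0Q z hz
    refine TS.t5b_walk (Q := T.Q A) ?_ p hp hz0W
    intro y hy
    exact ⟨mem_union_right _ (t15_mem_S.2 ⟨A, hA, hy⟩), hb A hA y hy⟩
  have hnot : ∀ A, ¬ rch D g W1 A → ∀ z ∈ A, z ∉ W1 := fun A hn z hz => TS.t12_not_rch hle1 hn hz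
  have hsub : gw D r g (gp G F) ζ ⊆ W1 ∪ (t15_B T G U).filter (fun z => ∃ A ∈ U, z ∈ A ∧ rch D g W1 A) := by
    refine gw_least' ?_
    intro y hy hyX
    rw [mem_union, not_or, mem_filter] at hyX
    have hyle := hle y hy
    have hun : ∀ A ∈ U, y ∈ A → ¬ rch D g W1 A → ζ y + g y + dg D y (W1 ∪ (t15_B T G U).filter (fun z => ∃ A ∈ U, z ∈ A ∧ rch D g W1 A)) ≤ r := by
      intro A hA hyA hn
      have h1 : g y = 0 := by
        by_contra hne
        exact hn ⟨y, hyA, Or.inl (Nat.pos_of_ne_zero hne)⟩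
      have h2 : dg D y (W1 ∪ (t15_B T G U).filter (fun z => ∃ A ∈ U, z ∈ A ∧ rch D g W1 A)) = 0 := by
        refine dg_eq_zero ?_
        intro x hx hxy
        rcases mem_union.1 hx with hx | hx
        · by_cases hxA : x ∈ A
          · exact hnot A hn x hxA hx
          · exact hn ⟨y, hyA, Or.inr ⟨x, hx, hxA, hxy.symm⟩⟩
        · obtain ⟨hxB, A2, hA2, hxA2, hr2⟩ := mem_filter.1 hx
          obtain ⟨-, A1, hA1, C, hC, hxC⟩ := t15_mem_B.1 hxB
          have e1 := t15_uniq h hA1 hA2 (T.ch_sub (t15_cn hF h hA1) hC hxC) hxA2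
          have e2 := t15_uniq h hA1 hA (t15_nbr' hF h hA1 hC hxC hxy.symm) hyA
          rw [← e2, e1] at hn
          exact hn hr2
      omega
    rw [← hu] at hy
    rcases mem_union.1 hy with hy | hy
    · rcases mem_union.1 hy with hy' | hy'
      · have h1 := hcl.2 y hy hyX.1
        have h2 : dg D y (W1 ∪ (t15_B T G U).filter (fun z => ∃ A ∈ U, z ∈ A ∧ rch D g W1 A)) ≤ dg D y W1 := by
          refine TS.t5b_dg_le ?_
          intro x hx hxy
          rcases mem_union.1 hx with hx | hx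
          · exact hx
          · exact (P.na y hy' x (mem_filter.1 hx).1 hxy).elim
        omega
      · obtain ⟨A, hA, hyQ⟩ := t15_mem_S.1 hy'
        refine hun A hA (T.Q_sub (t15_cn hF h hA) hyQ) ?_
        intro hr
        exact hyX.1 (htop A hA hr y hyQ)
    · obtain ⟨-, A, hA, C, hC, hyC⟩ := t15_mem_B.1 hy
      have hyA := T.ch_sub (t15_cn hF h hA) hC hyC
      refine hun A hA hyA ?_
      intro hr
      exact hyX.2 ⟨hy, A, hA, hyA, hr⟩
  obtain ⟨z, hz, h0⟩ := hr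
  rcases h0 with h0 | ⟨x, hxW, hxA, hxz⟩
  · exact ⟨z, hz, Or.inl h0⟩
  · rcases mem_union.1 (hsub hxW) with hx | hx
    · exact ⟨z, hz, Or.inr ⟨x, hx, hxA, hxz⟩⟩
    · obtain ⟨-, A1, hA1, C, hC, hxC⟩ := t15_mem_B.1 (mem_filter.1 hx).1
      have e := t15_uniq h hA1 hA (t15_nbr' hF h hA1 hC hxC hxz) hz
      rw [← e] at hxA
      exact (hxA (T.ch_sub (t15_cn hF h hA1) hC hxC)).elim

/-- a reached full piece topples, for the wave outside -/
theorem t15_trg (hF : T.Fo F) (hg : ∀ z ∈ fs F, g z ≤ T.fi F z) (h : T.An F L U) {ζ : V → ℕ} (hζ : ζ ∈ Rc D r (gp G F))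
    (hb : ∀ A ∈ U, T.fb ζ A) (hr : ∀ A ∈ U, rch D g (gw D r g (gp G F) ζ) A) :
    Trg D r g (t15_G G F U) (t15_S T U) (rs (t15_G G F U ∪ t15_S T U) ζ) := by
  have hS := t15_S_sub hF hζ hb
  constructor
  · intro z hz
    rw [rs_mem (mem_union_right _ hz)]
    obtain ⟨A, hA, hz⟩ := t15_mem_S.1 hz
    exact hb A hA z hz
  · intro z hz
    rw [t12_gw_rs]
    obtain ⟨A, hA, hz⟩ := t15_mem_S.1 hz
    obtain ⟨z0, hz0, h0⟩ := t15_reach hF hg h hS hζ hb hA (hr A hA)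
    have hz0Q : z0 ∈ T.Q A := by
      obtain ⟨-, j, -, hj⟩ := h.1 A hA
      rcases h0 with h0 | ⟨x, -, hx, hxz⟩
      · obtain ⟨x, hx, hxz⟩ := T.t5b_inp hF hg hj hz0 h0
        exact (T.ib_sub (t15_cn hF h hA) hz0 hx hxz).1
      · exact (T.ib_sub (t15_cn hF h hA) hz0 hx hxz.symm).1
    have hz0S : z0 ∈ t15_G G F U ∪ t15_S T U := mem_union_right _ (t15_mem_S.2 ⟨A, hA, hz0Q⟩)
    refine ⟨z0, ?_, ?_⟩
    · by_contra hn
      have h1 := (gw_GCl (D := D) (r := r) g (t15_G G F U ∪ t15_S T U) ζ).2 z0 hz0S hn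
      have h2 : ζ z0 = r := hb A hA z0 hz0Q
      rcases h0 with h0 | ⟨x, hxW, -, hxz⟩
      · omega
      · have := TS.t5b_dg_pos (D := D) hxW hxz.symm
        omega
    · obtain ⟨p, hp⟩ := T.Q_conn (t15_cn hF h hA) z hz z0 hz0Q
      exact ⟨p, fun y hy => t15_mem_S.2 ⟨A, hA, hp y hy⟩⟩

/-- the input into the cones below -/
theorem t15_fi (hF : T.Fo F) (h : T.An F L U) {z : V} (hz : z ∈ t15_B T G U) : dgi D (t15_S T U) z = T.fi (U.biUnion T.ch) z := by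
  obtain ⟨-, A, hA, C, hC, hz⟩ := t15_mem_B.1 hz
  refine le_antisymm (TS.t5b_dg_le ?_) (TS.t5b_dg_le ?_)
  · intro x hx hxz
    rw [T.t5b_mem_fo]
    refine ⟨C, mem_biUnion.2 ⟨A, hA, hC⟩, ?_⟩
    rcases T.nbr_ch (t15_cn hF h hA) hC hz hxz with h1 | h1
    · obtain ⟨A', hA', hx⟩ := t15_mem_S.1 hx
      exact (t15_Q_fs hF h hA' hx (t15_mem_fs.2 ⟨A, hA, C, hC, h1⟩)).elim
    · exact h1
  · intro x hx hxz
    obtain ⟨C', hC', hx⟩ := T.t5b_mem_fo.1 hx
    obtain ⟨A', hA', hC'⟩ := mem_biUnion.1 hC'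
    exact t15_mem_S.2 ⟨A', hA', T.o_sub (t15_cn hF h hA') C' hC' hx⟩

/-- the wave is the union of the outer wave and of the full wave of the forest below -/
theorem t15_gw (hF : T.Fo F) (hg : ∀ z ∈ fs F, g z ≤ T.fi F z) (h : T.An F L U) {ζ : V → ℕ} (hζ : ζ ∈ Rc D r (gp G F))
    (hb : ∀ A ∈ U, T.fb ζ A) (hr : ∀ A ∈ U, rch D g (gw D r g (gp G F) ζ) A) :
    gw D r g (gp G F) ζ = gw D r g (t15_G G F U ∪ t15_S T U) (rs (t15_G G F U ∪ t15_S T U) ζ) ∪
      gw D r (T.fi (U.biUnion T.ch)) (gp G (U.biUnion T.ch)) (rs (gp G (U.biUnion T.ch)) ζ) := by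
  have hS := t15_S_sub hF hζ hb
  have h1 := piv_gw (t15_piv hF hg h hS) (t15_trg hF hg h hζ hb hr)
  rw [t15_union hF h hS] at h1
  rw [h1]
  congr 1
  refine gw_congr ?_
  intro y hy
  rw [t15_fi hF h hy]
  rfl

end piv


/-! ### changing the configuration below an antichain -/

/-- the pieces of `U` are full and reached -/
structure T15Ok (T : TS D r) (F : Finset (Set V)) (g : V → ℕ) (G : Finset V) (U : Finset (Set V)) (ζ : V → ℕ) : Prop where
  rc : ζ ∈ Rc D r (gp G F)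
  fb : ∀ A ∈ U, T.fb ζ A
  re : ∀ A ∈ U, rch D g (gw D r g (gp G F) ζ) A

theorem t15_rch_mono {g : V → ℕ} {W W' : Finset V} (h : W ⊆ W') {A : Set V} (hr : rch D g W A) : rch D g W' A := by
  obtain ⟨z, hz, h0⟩ := hr
  refine ⟨z, hz, ?_⟩
  rcases h0 with h0 | ⟨x, hx, h0⟩
  · exact Or.inl h0
  · exact Or.inr ⟨x, h hx, h0⟩

section change

variable {T : TS D r} {F : Finset (Set V)} {g : V → ℕ} {G : Finset V} {L : ℕ} {U : Finset (Set V)}

/-- the outer region is disjoint from the forest below -/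
theorem t15_out (hF : T.Fo F) (h : T.An F L U) {z : V} (hz : z ∈ t15_G G F U ∪ t15_S T U) : z ∉ fs (U.biUnion T.ch) := by
  rcases mem_union.1 hz with hz | hz
  · intro hc
    obtain ⟨A, hA, C, hC, hz'⟩ := t15_mem_fs.1 hc
    exact (t15_mem_G.1 hz).2 A hA (T.ch_sub (t15_cn hF h hA) hC hz')
  · obtain ⟨A, hA, hz⟩ := t15_mem_S.1 hz
    exact t15_Q_fs hF h hA hz

theorem t15_rs_eq (hF : T.Fo F) (h : T.An F L U) {ζ ζ' : V → ℕ} (hz : ∀ z, z ∉ fs (U.biUnion T.ch) → ζ z = ζ' z) :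
    rs (t15_G G F U ∪ t15_S T U) ζ = rs (t15_G G F U ∪ t15_S T U) ζ' := by
  funext z
  by_cases hz1 : z ∈ t15_G G F U ∪ t15_S T U
  · rw [rs_mem hz1, rs_mem hz1]
    exact hz z (t15_out hF h hz1)
  · rw [rs_notMem hz1, rs_notMem hz1]

theorem t15_of_rs (hF : T.Fo F) (h : T.An F L U) (hS : t15_S T U ⊆ G) {ζ ζ' : V → ℕ} (hζ : ζ ∈ Rc D r (gp G F)) (hζ' : ζ' ∈ Rc D r (gp G F))
    (he : rs (t15_G G F U ∪ t15_S T U) ζ = rs (t15_G G F U ∪ t15_S T U) ζ') {z : V} (hz : z ∉ fs (U.biUnion T.ch)) : ζ z = ζ' z := by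
  by_cases h1 : z ∈ gp G F
  · rw [← t15_union hF h hS, mem_union] at h1
    rcases h1 with h1 | h1
    · have := congrFun he z
      rwa [rs_mem h1, rs_mem h1] at this
    · exact (hz (t15_mem_fs.2 (t15_mem_B.1 h1).2)).elim
  · rw [(mem_Rc.1 hζ).1.2 z h1, (mem_Rc.1 hζ').1.2 z h1]

theorem T15Ok.sub (hF : T.Fo F) {ζ : V → ℕ} (h : T15Ok T F g G U ζ) : t15_S T U ⊆ G := t15_S_sub hF h.rc h.fb

theorem T15Ok.gwe (hF : T.Fo F) (hg : ∀ z ∈ fs F, g z ≤ T.fi F z) (h : T.An F L U) {ζ : V → ℕ} (hk : T15Ok T F g G U ζ) :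
    gw D r g (gp G F) ζ = gw D r g (t15_G G F U ∪ t15_S T U) (rs (t15_G G F U ∪ t15_S T U) ζ) ∪
      gw D r (T.fi (U.biUnion T.ch)) (gp G (U.biUnion T.ch)) (rs (gp G (U.biUnion T.ch)) ζ) := t15_gw hF hg h hk.rc hk.fb hk.re

/-- the wave off the forest below -/
theorem T15Ok.gw_off (hF : T.Fo F) (hg : ∀ z ∈ fs F, g z ≤ T.fi F z) (h : T.An F L U) {ζ : V → ℕ} (hk : T15Ok T F g G U ζ) {z : V}
    (hz : z ∉ fs (U.biUnion T.ch)) : z ∈ gw D r g (gp G F) ζ ↔ z ∈ gw D r g (t15_G G F U ∪ t15_S T U) (rs (t15_G G F U ∪ t15_S T U) ζ) := by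
  rw [hk.gwe hF hg h, mem_union]
  constructor
  · rintro (h1 | h1)
    · exact h1
    · exact (hz (TS.mem_gp.1 (gw_sub _ _ _ h1)).2).elim
  · exact Or.inl

theorem T15Ok.change (hF : T.Fo F) (hg : ∀ z ∈ fs F, g z ≤ T.fi F z) (h : T.An F L U) {ζ ζ' : V → ℕ} (hk : T15Ok T F g G U ζ)
    (hζ' : ζ' ∈ Rc D r (gp G F)) (he : ∀ z, z ∉ fs (U.biUnion T.ch) → ζ z = ζ' z) : T15Ok T F g G U ζ' := by
  refine ⟨hζ', ?_, ?_⟩
  · intro A hA z hz
    rw [← he z (t15_Q_fs hF h hA hz)]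
    exact hk.fb A hA z hz
  · intro A hA
    have h1 := t15_reach hF hg h (hk.sub hF) hk.rc hk.fb hA (hk.re A hA)
    refine t15_rch_mono ?_ h1
    rw [← t12_gw_rs, t15_rs_eq hF h he, t12_gw_rs]
    refine gw_mono ?_ (fun _ _ => le_rfl)
    rw [← t15_union hF h (hk.sub hF)]
    exact subset_union_left

theorem T15Ok.same (hF : T.Fo F) (hg : ∀ z ∈ fs F, g z ≤ T.fi F z) (h : T.An F L U) {ζ ζ' : V → ℕ} (hk : T15Ok T F g G U ζ)
    (hζ' : ζ' ∈ Rc D r (gp G F)) (he : ∀ z, z ∉ fs (U.biUnion T.ch) → ζ z = ζ' z) {z : V} (hz : z ∉ fs (U.biUnion T.ch)) :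
    z ∈ gw D r g (gp G F) ζ ↔ z ∈ gw D r g (gp G F) ζ' := by
  rw [hk.gw_off hF hg h hz, (hk.change hF hg h hζ' he).gw_off hF hg h hz, t15_rs_eq hF h he]

theorem T15Ok.fu (hF : T.Fo F) (hg : ∀ z ∈ fs F, g z ≤ T.fi F z) (h : T.An F L U) {ζ ζ' : V → ℕ} (hk : T15Ok T F g G U ζ)
    (hζ' : ζ' ∈ Rc D r (gp G F)) (he : ∀ z, z ∉ fs (U.biUnion T.ch) → ζ z = ζ' z) {j : ℕ} {A : Set V} (hA : A ∈ T.de F j)
    (hf : T.fu F g G ζ A) : T.fu F g G ζ' A := by
  obtain ⟨hsp, hfb, hrch, hnab⟩ := hf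
  have hA2 : ∀ A2 ∈ U, ¬ A ⊂ A2 := by
    intro A2 hA2 hlt
    obtain ⟨hs2, j2, -, hj2⟩ := h.1 A2 hA2
    exact hnab j2 A2 hj2 hs2 hlt (hk.fb A2 hA2)
  have key : ∀ (i : ℕ) (B : Set V), B ∈ T.de F i → (∀ A2 ∈ U, ¬ B ⊂ A2) → ∀ z ∈ T.Q B, z ∉ fs (U.biUnion T.ch) := by
    intro i B hB hB2 z hz hc
    obtain ⟨A2, hA2, C, hC, hzC⟩ := t15_mem_fs.1 hc
    obtain ⟨hs2, j2, -, hj2⟩ := h.1 A2 hA2
    have hzA2 := T.ch_sub (t15_cn hF h hA2) hC hzC
    rcases t15_ssub hF hB hj2 (T.Q_sub (T.t5b_cn hF hB) hz) hzA2 with h1 | h1 | h1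
    · exact hB2 A2 hA2 h1
    · subst h1
      exact T.Q_notMem (t15_cn hF h hA2) C hC z hz hzC
    · exact T.t5b_Q_notMem hF hj2 hB h1 hz hzA2
  refine ⟨hsp, ?_, ?_, ?_⟩
  · intro z hz
    rw [← he z (key j A hA hA2 z hz)]
    exact hfb z hz
  · obtain ⟨z, hz, h0⟩ := hrch
    rcases h0 with h0 | ⟨x, hxW, hxA, hxz⟩
    · exact ⟨z, hz, Or.inl h0⟩
    · have hx : x ∉ fs (U.biUnion T.ch) := by
        intro hc
        obtain ⟨A2, hAU, C, hC, hxC⟩ := t15_mem_fs.1 hc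
        obtain ⟨hs2, j2, -, hj2⟩ := h.1 A2 hAU
        have hxA2 := T.ch_sub (t15_cn hF h hAU) hC hxC
        rcases t15_ssub hF hA hj2 hz (t15_nbr' hF h hAU hC hxC hxz) with h1 | h1 | h1
        · exact hA2 A2 hAU h1
        · subst h1
          exact hxA hxA2
        · exact hxA (h1.1 hxA2)
      exact ⟨z, hz, Or.inr ⟨x, (hk.same hF hg h hζ' he hx).1 hxW, hxA, hxz⟩⟩
  · intro i B hB hsB hAB hfB
    refine hnab i B hB hsB hAB ?_
    intro z hz
    rw [he z (key i B hB (fun A2 hA2' hlt => hA2 A2 hA2' (hAB.trans hlt)) z hz)]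
    exact hfB z hz

theorem T15Ok.fus (hF : T.Fo F) (hg : ∀ z ∈ fs F, g z ≤ T.fi F z) (h : T.An F L U) {ζ ζ' : V → ℕ} (hk : T15Ok T F g G U ζ)
    (hζ' : ζ' ∈ Rc D r (gp G F)) (he : ∀ z, z ∉ fs (U.biUnion T.ch) → ζ z = ζ' z) : T.fus F g G L ζ' = T.fus F g G L ζ := by
  ext A
  rw [t15_mem_fus, t15_mem_fus]
  constructor
  · rintro ⟨j, hj, hA, hf⟩
    exact ⟨j, hj, hA, (hk.change hF hg h hζ' he).fu hF hg h hk.rc (fun z hz => (he z hz).symm) hA hf⟩
  · rintro ⟨j, hj, hA, hf⟩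
    exact ⟨j, hj, hA, hk.fu hF hg h hζ' he hA hf⟩

end change

theorem t15_ok {T : TS D r} {F : Finset (Set V)} {g : V → ℕ} {G : Finset V} {L : ℕ} {ζ : V → ℕ} (hζ : ζ ∈ Rc D r (gp G F)) :
    T15Ok T F g G (T.fus F g G L ζ) ζ := by
  refine ⟨hζ, ?_, ?_⟩
  · intro A hA
    obtain ⟨j, -, -, hf⟩ := t15_mem_fus.1 hA
    exact hf.2.1
  · intro A hA
    obtain ⟨j, -, -, hf⟩ := t15_mem_fus.1 hA
    exact hf.2.2.1

/-- TARGET. size decomposition -/
theorem TS.size_dec (T : TS D r) {F : Finset (Set V)} (hF : T.Fo F) {g : V → ℕ} (hg : ∀ z ∈ fs F, g z ≤ T.fi F z) (G : Finset V) (L : ℕ) {ζ : V → ℕ}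
    (hζ : ζ ∈ Rc D r (gp G F)) : (gw D r g (gp G F) ζ).card = T.xv F g G L ζ + T.qs (T.fus F g G L ζ) +
      (gw D r (T.fi ((T.fus F g G L ζ).biUnion T.ch)) (gp G ((T.fus F g G L ζ).biUnion T.ch)) (rs (gp G ((T.fus F g G L ζ).biUnion T.ch)) ζ)).card := by
  have hk := t15_ok (T := T) (g := g) (L := L) hζ
  have h := T.fus_an hF (g := g) G L ζ
  have hxv : T.xv F g G L ζ = ((gw D r g (gp G F) ζ).filter (fun z => ∀ A ∈ T.fus F g G L ζ, z ∉ A)).card := rfl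
  rw [hxv]
  set U := T.fus F g G L ζ with hU
  have hW := hk.gwe hF hg h
  have ht := t15_trg hF hg h hk.rc hk.fb hk.re
  set W1 := gw D r g (t15_G G F U ∪ t15_S T U) (rs (t15_G G F U ∪ t15_S T U) ζ) with hW1
  set W2 := gw D r (T.fi (U.biUnion T.ch)) (gp G (U.biUnion T.ch)) (rs (gp G (U.biUnion T.ch)) ζ) with hW2
  have hW1s : W1 ⊆ t15_G G F U ∪ t15_S T U := gw_sub _ _ _
  have hW2s : W2 ⊆ t15_B T G U := gw_sub _ _ _
  have hS : t15_S T U ⊆ W1 := ht.sub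
  have hd : Disjoint W1 W2 := by
    rw [Finset.disjoint_left]
    intro z h1 h2
    exact t15_out hF h (hW1s h1) (t15_mem_fs.2 (t15_mem_B.1 (hW2s h2)).2)
  have hX : (gw D r g (gp G F) ζ).filter (fun z => ∀ A ∈ U, z ∉ A) = W1.filter (fun z => ∀ A ∈ U, z ∉ A) := by
    ext z
    rw [mem_filter, mem_filter, hW, mem_union]
    constructor
    · rintro ⟨h1 | h1, h2⟩
      · exact ⟨h1, h2⟩
      · obtain ⟨-, A, hA, C, hC, hz⟩ := t15_mem_B.1 (hW2s h1)
        exact (h2 A hA (T.ch_sub (t15_cn hF h hA) hC hz)).elim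
    · rintro ⟨h1, h2⟩
      exact ⟨Or.inl h1, h2⟩
  have hY : W1.filter (fun z => ¬ ∀ A ∈ U, z ∉ A) = t15_S T U := by
    ext z
    rw [mem_filter]
    constructor
    · rintro ⟨h1, h2⟩
      rcases mem_union.1 (hW1s h1) with h3 | h3
      · exact (h2 (t15_mem_G.1 h3).2).elim
      · exact h3
    · intro h1
      refine ⟨hS h1, fun h2 => ?_⟩
      obtain ⟨A, hA, hz⟩ := t15_mem_S.1 h1
      exact h2 A hA (T.Q_sub (t15_cn hF h hA) hz)
  have hqs : T.qs U = (t15_S T U).card := by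
    unfold TS.qs t15_S
    rw [card_biUnion]
    intro A hA B hB hne
    obtain ⟨-, i, -, hi⟩ := h.1 A hA
    obtain ⟨-, j, -, hj⟩ := h.1 B hB
    exact T.Q_disj hF hi hj hne
  rw [hX, hqs, ← hY, card_filter_add_card_filter_not, hW, card_union_of_disjoint hd]

theorem t15_card_pos (T : TS D r) (G : Finset V) : (0 : ℝ) < (Rc D r G).card := by exact_mod_cast T.gd.card_pos G

theorem t15_ex_if (G : Finset V) (E : (V → ℕ) → Prop) (f : (V → ℕ) → ℝ) :
    ex D r G (fun ζ => if E ζ then f ζ else 0) = (∑ ζ ∈ (Rc D r G).filter E, f ζ) / (Rc D r G).card := by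
  unfold ex
  rw [sum_filter]

theorem t15_fus_ex (T : TS D r) {F : Finset (Set V)} (hF : T.Fo F) {g : V → ℕ} (hg : ∀ z ∈ fs F, g z ≤ T.fi F z) (G : Finset V) (L : ℕ) (U : Finset (Set V)) (a : ℕ)
    (h : (V → ℕ) → ℝ) (E : (V → ℕ) → Prop) (hE : ∀ ζ, E ζ ↔ (T.fus F g G L ζ = U ∧ T.xv F g G L ζ = a)) :
    ex D r (gp G F) (fun ζ => if E ζ then h (rs (gp G (U.biUnion T.ch)) ζ) else 0) =
      pr D r (gp G F) E * ex D r (gp G (U.biUnion T.ch)) h := by
  by_cases hex : ∃ ζ ∈ Rc D r (gp G F), E ζ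
  swap
  · push Not at hex
    have h0 : (Rc D r (gp G F)).filter E = ∅ := filter_eq_empty_iff.2 (fun ζ hζ hc => hex ζ hζ hc)
    rw [t15_ex_if, h0]
    unfold pr
    rw [h0]
    simp
  obtain ⟨ζ0, hζ0, hE0⟩ := hex
  rw [hE] at hE0
  have hAn : T.An F L U := by rw [← hE0.1]; exact T.fus_an hF G L ζ0
  have hok : ∀ ζ ∈ Rc D r (gp G F), T.fus F g G L ζ = U → T15Ok T F g G U ζ := by
    intro ζ hζ hU
    rw [← hU]
    exact t15_ok hζ
  have hk0 := hok ζ0 hζ0 hE0.1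
  have hS := hk0.sub hF
  have P := t15_piv hF hg hAn hS
  have hu := t15_union hF hAn hS
  obtain ⟨E1, hE1⟩ : ∃ E1 : (V → ℕ) → Prop, ∀ ξ, E1 ξ ↔ ∃ ζ' ∈ Rc D r (gp G F), rs (t15_G G F U ∪ t15_S T U) ζ' = ξ ∧
      T.fus F g G L ζ' = U ∧ T.xv F g G L ζ' = a := ⟨_, fun _ => Iff.rfl⟩
  have hEE : ∀ ζ ∈ Rc D r (gp G F), E1 (rs (t15_G G F U ∪ t15_S T U) ζ) ↔ E ζ := by
    intro ζ hζ
    rw [hE1, hE]
    constructor
    · rintro ⟨ζ', hζ', he, h1, h2⟩
      have hk' := hok ζ' hζ' h1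
      have he' : ∀ z, z ∉ fs (U.biUnion T.ch) → ζ' z = ζ z := fun z hz => t15_of_rs hF hAn hS hζ' hζ he hz
      have hfus := hk'.fus hF hg hAn hζ he'
      have hxv : T.xv F g G L ζ = T.xv F g G L ζ' := by
        unfold TS.xv
        rw [hfus, h1]
        congr 1
        ext z
        rw [mem_filter, mem_filter]
        constructor
        · rintro ⟨h3, h4⟩
          refine ⟨(hk'.same hF hg hAn hζ he' ?_).2 h3, h4⟩
          intro hc
          obtain ⟨A, hA, C, hC, hz⟩ := t15_mem_fs.1 hc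
          exact h4 A hA (T.ch_sub (t15_cn hF hAn hA) hC hz)
        · rintro ⟨h3, h4⟩
          refine ⟨(hk'.same hF hg hAn hζ he' ?_).1 h3, h4⟩
          intro hc
          obtain ⟨A, hA, C, hC, hz⟩ := t15_mem_fs.1 hc
          exact h4 A hA (T.ch_sub (t15_cn hF hAn hA) hC hz)
      exact ⟨hfus.trans h1, hxv.trans h2⟩
    · intro h1
      exact ⟨ζ, hζ, rfl, h1⟩
  have hE1' : ∀ ζ1 ∈ Rc D r (t15_G G F U ∪ t15_S T U), E1 ζ1 → Trg D r g (t15_G G F U) (t15_S T U) ζ1 := by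
    intro ζ1 _ h0
    obtain ⟨ζ', hζ', rfl, h1, h2⟩ := (hE1 ζ1).1 h0
    have hk' := hok ζ' hζ' h1
    exact t15_trg hF hg hAn hk'.rc hk'.fb hk'.re
  have s1 := piv_sum T.gd P E1 hE1' (fun _ => 1) h
  have s2 := piv_sum T.gd P E1 hE1' (fun _ => 1) (fun _ => 1)
  rw [hu] at s1 s2
  rw [filter_congr hEE] at s1 s2
  simp only [one_mul, sum_const, nsmul_eq_mul, mul_one] at s1 s2
  have hB : (0 : ℝ) < (Rc D r (gp G (U.biUnion T.ch))).card := t15_card_pos T _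
  have hBe : t15_B T G U = gp G (U.biUnion T.ch) := rfl
  rw [hBe] at s1 s2
  rw [t15_ex_if, s1]
  unfold pr ex
  rw [s2]
  field_simp

/-- TARGET. EXACT INDEPENDENCE for all first units simultaneously: `piv_sum` with `S = ⋃ Q A`, `B = gp G (U.biUnion ch)`, `G1` the rest (`A ∈ U`). The event `fus = U ∧ xv = a` is determined by the configuration outside the children of the `A ∈ U`
(by `piv_gw` the wave outside `B` depends only on the configuration outside `B`). If `U` is not an antichain the probability is zero. -/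
theorem TS.fus_ex (T : TS D r) {F : Finset (Set V)} (hF : T.Fo F) {g : V → ℕ} (hg : ∀ z ∈ fs F, g z ≤ T.fi F z) (G : Finset V) (L : ℕ) (U : Finset (Set V)) (a : ℕ)
    (h : (V → ℕ) → ℝ) :
    ex D r (gp G F) (fun ζ => if T.fus F g G L ζ = U ∧ T.xv F g G L ζ = a then h (rs (gp G (U.biUnion T.ch)) ζ) else 0) =
      pr D r (gp G F) (fun ζ => T.fus F g G L ζ = U ∧ T.xv F g G L ζ = a) * ex D r (gp G (U.biUnion T.ch)) h := by
  have h1 := t15_fus_ex T hF hg G L U a h (fun ζ => T.fus F g G L ζ = U ∧ T.xv F g G L ζ = a) (fun _ => Iff.rfl)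
  convert h1 using 3
  exact t15_ite Iff.rfl


theorem t15_gw_union (T : TS D r) {F F' : Finset (Set V)} (hF : T.Fo (F ∪ F')) (G : Finset V) (ζ : V → ℕ) :
    gw D r (T.fi (F ∪ F')) (gp G (F ∪ F')) ζ = gw D r (T.fi F) (gp G F) (rs (gp G F) ζ) ∪ gw D r (T.fi F') (gp G F') (rs (gp G F') ζ) := by
  have hF1 : T.Fo F := TS.Fo.sub T hF subset_union_left
  have hF2 : T.Fo F' := TS.Fo.sub T hF subset_union_right
  have key : ∀ F0 : Finset (Set V), T.Fo F0 → F0 ⊆ F ∪ F' → ∀ C ∈ F0, ∀ z ∈ C,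
      (z ∈ gw D r (T.fi (F ∪ F')) (gp G (F ∪ F')) ζ ↔ z ∈ gw D r (T.fi F0) (gp G F0) (rs (gp G F0) ζ)) := by
    intro F0 h0 hs C hC z hz
    rw [T.gw_fo hF (hs hC) G ζ hz, T.gw_fo h0 hC G _ hz, t7_rs_rs (t7_gp_sub hC)]
    have : gw D r (T.fi (F ∪ F')) (gp G {C}) (rs (gp G {C}) ζ) = gw D r (T.fi F0) (gp G {C}) (rs (gp G {C}) ζ) := by
      refine gw_congr ?_
      intro y hy
      have hyC : y ∈ C := (t12_mem_gp1.1 hy).2
      rw [T.fi_eq hF (hs hC) hyC, T.fi_eq h0 hC hyC]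
    rw [this]
  ext z
  rw [mem_union]
  constructor
  · intro h
    obtain ⟨C, hC, hz⟩ := (TS.mem_gp.1 (gw_sub _ _ _ h)).2
    rcases mem_union.1 hC with hC | hC
    · exact Or.inl ((key F hF1 subset_union_left C hC z hz).1 h)
    · exact Or.inr ((key F' hF2 subset_union_right C hC z hz).1 h)
  · rintro (h | h)
    · obtain ⟨C, hC, hz⟩ := (TS.mem_gp.1 (gw_sub _ _ _ h)).2
      exact (key F hF1 subset_union_left C hC z hz).2 h
    · obtain ⟨C, hC, hz⟩ := (TS.mem_gp.1 (gw_sub _ _ _ h)).2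
      exact (key F' hF2 subset_union_right C hC z hz).2 h

theorem t15_fs_disj (T : TS D r) {F F' : Finset (Set V)} (hF : T.Fo (F ∪ F')) (hd : Disjoint F F') {z : V} (hz : z ∈ fs F) : z ∉ fs F' := by
  rintro ⟨C', hC', hz'⟩
  obtain ⟨C, hC, hz⟩ := hz
  have hne : C ≠ C' := by
    rintro rfl
    exact Finset.disjoint_left.1 hd hC hC'
  exact Set.disjoint_left.1 (hF.disj C (mem_union_left _ hC) C' (mem_union_right _ hC') hne) hz hz'

theorem t15_gw_card (T : TS D r) {F F' : Finset (Set V)} (hF : T.Fo (F ∪ F')) (hd : Disjoint F F') (G : Finset V) (ζ : V → ℕ) :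
    (gw D r (T.fi (F ∪ F')) (gp G (F ∪ F')) ζ).card = (gw D r (T.fi F) (gp G F) (rs (gp G F) ζ)).card + (gw D r (T.fi F') (gp G F') (rs (gp G F') ζ)).card := by
  rw [t15_gw_union T hF G ζ, card_union_of_disjoint]
  rw [Finset.disjoint_left]
  intro z h1 h2
  exact t15_fs_disj T hF hd (TS.mem_gp.1 (gw_sub _ _ _ h1)).2 (TS.mem_gp.1 (gw_sub _ _ _ h2)).2

theorem t15_conv (T : TS D r) {F F' : Finset (Set V)} (hF : T.Fo (F ∪ F')) (hd : Disjoint F F') (G : Finset V) (X Y : (V → ℕ) → ℕ) (n : ℕ) :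
    pr D r (gp G (F ∪ F')) (fun ζ => X (rs (gp G F) ζ) + Y (rs (gp G F') ζ) = n) =
      ∑ p ∈ antidiagonal n, pr D r (gp G F) (fun ζ => X ζ = p.1) * pr D r (gp G F') (fun ζ => Y ζ = p.2) := by
  have h1 : ∀ p ∈ antidiagonal n, pr D r (gp G F) (fun ζ => X ζ = p.1) * pr D r (gp G F') (fun ζ => Y ζ = p.2) =
      ex D r (gp G (F ∪ F')) (fun ζ => (if X (rs (gp G F) ζ) = p.1 then (1:ℝ) else 0) * (if Y (rs (gp G F') ζ) = p.2 then (1:ℝ) else 0)) := by
    intro p _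
    rw [t15_pr_ex (P := fun ζ => X ζ = p.1) (ip := fun _ => inferInstance), t15_pr_ex (P := fun ζ => Y ζ = p.2) (ip := fun _ => inferInstance),
      ← T.fo_two hF hd G (fun ζ => if X ζ = p.1 then (1:ℝ) else 0) (fun ζ => if Y ζ = p.2 then (1:ℝ) else 0)]
  rw [sum_congr rfl h1, ← t9_ex_sum, T.t12_pr_eq]
  congr 1
  funext ζ
  by_cases h : X (rs (gp G F) ζ) + Y (rs (gp G F') ζ) = n
  · rw [if_pos h, sum_eq_single (X (rs (gp G F) ζ), Y (rs (gp G F') ζ))]
    · simp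
    · intro p _ hne
      by_cases h2 : X (rs (gp G F) ζ) = p.1
      · have h3 : Y (rs (gp G F') ζ) ≠ p.2 := fun h3 => hne (Prod.ext h2.symm h3.symm)
        rw [if_neg h3, mul_zero]
      · rw [if_neg h2, zero_mul]
    · intro h2
      exact (h2 (HasAntidiagonal.mem_antidiagonal.2 h)).elim
  · rw [if_neg h, sum_eq_zero]
    intro p hp
    rw [HasAntidiagonal.mem_antidiagonal] at hp
    by_cases h2 : X (rs (gp G F) ζ) = p.1
    · have h3 : Y (rs (gp G F') ζ) ≠ p.2 := by omega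
      rw [if_neg h3, mul_zero]
    · rw [if_neg h2, zero_mul]

theorem t15_An_sub {T : TS D r} {F : Finset (Set V)} {L : ℕ} {U U' : Finset (Set V)} (h : T.An F L U) (hs : U' ⊆ U) : T.An F L U' :=
  ⟨fun A hA => h.1 A (hs hA), fun A hA B hB => h.2 A (hs hA) B (hs hB)⟩

/-- TARGET. convolution: for an antichain `U` the wave sizes in the different `ch A`, `A ∈ U`, are independent (`fo_two`, induction on `U`; `gw_fo`) -/
theorem TS.conv_tl (T : TS D r) {F : Finset (Set V)} (hF : T.Fo F) {L : ℕ} {U : Finset (Set V)} (h : T.An F L U) (G : Finset V) (n : ℕ) :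
    pr D r (gp G (U.biUnion T.ch)) (fun ζ => T.qs U + (gw D r (T.fi (U.biUnion T.ch)) (gp G (U.biUnion T.ch)) ζ).card = n) =
      PowerSeries.coeff n (∏ A ∈ U, PowerSeries.mk (T.tl G A)) := by
  induction U using Finset.induction_on generalizing n with
  | empty =>
    rw [prod_empty]
    have hg : gp G ((∅ : Finset (Set V)).biUnion T.ch) = ∅ := by rw [biUnion_empty]; exact t7_gp_empty G
    have h1 : (fun ζ : V → ℕ => T.qs ∅ + (gw D r (T.fi ((∅ : Finset (Set V)).biUnion T.ch)) (gp G ((∅ : Finset (Set V)).biUnion T.ch)) ζ).card = n) =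
        fun _ => n = 0 := by
      funext ζ
      have h2 : gw D r (T.fi ((∅ : Finset (Set V)).biUnion T.ch)) (gp G ((∅ : Finset (Set V)).biUnion T.ch)) ζ = ∅ := by
        rw [← subset_empty, ← hg]
        exact gw_sub _ _ _
      rw [h2]
      unfold TS.qs
      simp only [sum_empty, card_empty, add_zero]
      exact propext eq_comm
    rw [h1, t15_pr_ex (P := fun _ => n = 0) (ip := fun _ => inferInstance), PowerSeries.coeff_one]
    have h3 := t9_ex_mul (D := D) (r := r) (gp G ((∅ : Finset (Set V)).biUnion T.ch)) (if n = 0 then (1:ℝ) else 0) (fun _ => 1)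
    simp only [mul_one] at h3
    rw [h3, T.t12_ex_one, mul_one]
  | insert A U hA ih =>
    have hAn := t15_An_sub h (subset_insert A U)
    have hfo := h.fo hF
    rw [biUnion_insert] at hfo
    have hd : Disjoint (T.ch A) (U.biUnion T.ch) := by
      rw [Finset.disjoint_left]
      intro C hC hC'
      obtain ⟨A', hA', hC'⟩ := mem_biUnion.1 hC'
      have hne : A ≠ A' := by
        rintro rfl
        exact hA hA'
      have hcA := t15_cn hF h (mem_insert_self A U)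
      have hcA' := t15_cn hF h (mem_insert_of_mem hA')
      obtain ⟨z, hz⟩ := T.cn_ne (T.ch_cn hcA C hC)
      exact Set.disjoint_left.1 (h.2 A (mem_insert_self A U) A' (mem_insert_of_mem hA') hne) (T.ch_sub hcA hC hz) (T.ch_sub hcA' hC' hz)
    rw [biUnion_insert, prod_insert hA, PowerSeries.coeff_mul]
    have h1 := t15_conv T hfo hd G (fun ζ => (T.Q A).card + (gw D r (T.fi (T.ch A)) (gp G (T.ch A)) ζ).card)
      (fun ζ => T.qs U + (gw D r (T.fi (U.biUnion T.ch)) (gp G (U.biUnion T.ch)) ζ).card) n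
    have h2 : (fun ζ => T.qs (insert A U) + (gw D r (T.fi (T.ch A ∪ U.biUnion T.ch)) (gp G (T.ch A ∪ U.biUnion T.ch)) ζ).card = n) =
        (fun ζ : V → ℕ => (T.Q A).card + (gw D r (T.fi (T.ch A)) (gp G (T.ch A)) (rs (gp G (T.ch A)) ζ)).card +
          (T.qs U + (gw D r (T.fi (U.biUnion T.ch)) (gp G (U.biUnion T.ch)) (rs (gp G (U.biUnion T.ch)) ζ)).card) = n) := by
      funext ζ
      rw [t15_gw_card T hfo hd G ζ]
      have : T.qs (insert A U) = (T.Q A).card + T.qs U := by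
        unfold TS.qs
        rw [sum_insert hA]
      rw [this]
      apply propext
      constructor <;> intro h <;> omega
    rw [h2, h1]
    refine sum_congr rfl ?_
    intro p _
    rw [ih hAn p.2, PowerSeries.coeff_mk]
    rfl

/-- TARGET. the law of the size of the wave in finite volume -/
theorem TS.law_fin (T : TS D r) {F : Finset (Set V)} (hF : T.Fo F) {g : V → ℕ} (hg : ∀ z ∈ fs F, g z ≤ T.fi F z) (G : Finset V) (L n : ℕ) :
    pr D r (gp G F) (fun ζ => (gw D r g (gp G F) ζ).card = n) =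
      ∑ U ∈ (T.dl F L).powerset, ∑ a ∈ range (n + 1), pr D r (gp G F) (fun ζ => T.fus F g G L ζ = U ∧ T.xv F g G L ζ = a) *
        PowerSeries.coeff (n - a) (∏ A ∈ U, PowerSeries.mk (T.tl G A)) := by
  have key : ∀ U ∈ (T.dl F L).powerset, ∀ a ∈ range (n + 1), pr D r (gp G F) (fun ζ => T.fus F g G L ζ = U ∧ T.xv F g G L ζ = a) *
        PowerSeries.coeff (n - a) (∏ A ∈ U, PowerSeries.mk (T.tl G A)) =
      ex D r (gp G F) (fun ζ => if T.fus F g G L ζ = U ∧ T.xv F g G L ζ = a then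
        (if T.qs U + (gw D r (T.fi (U.biUnion T.ch)) (gp G (U.biUnion T.ch)) (rs (gp G (U.biUnion T.ch)) ζ)).card = n - a then (1:ℝ) else 0) else 0) := by
    intro U _ a _
    have h1 := T.fus_ex hF hg G L U a (fun ξ => if T.qs U + (gw D r (T.fi (U.biUnion T.ch)) (gp G (U.biUnion T.ch)) ξ).card = n - a then (1:ℝ) else 0)
    rw [h1]
    by_cases hex : ∃ ζ ∈ Rc D r (gp G F), T.fus F g G L ζ = U ∧ T.xv F g G L ζ = a
    · obtain ⟨ζ0, hζ0, hE0⟩ := hex
      have hAn : T.An F L U := by rw [← hE0.1]; exact T.fus_an hF G L ζ0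
      rw [← T.conv_tl hF hAn G (n - a), t15_pr_ex (G := gp G (U.biUnion T.ch)) (ip := fun _ => inferInstance)]
    · push Not at hex
      rw [t15_pr_zero (fun ζ hζ hc => hex ζ hζ hc.1 hc.2), zero_mul, zero_mul]
  rw [sum_congr rfl (fun U hU => sum_congr rfl (key U hU)), t15_pr_ex (P := fun ζ => (gw D r g (gp G F) ζ).card = n) (ip := fun _ => inferInstance)]
  simp only [← t9_ex_sum]
  refine t9_ex_congr ?_
  intro ζ hζ
  have hU : T.fus F g G L ζ ∈ (T.dl F L).powerset := by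
    rw [mem_powerset]
    intro A hA
    obtain ⟨j, hj, hA, -⟩ := t15_mem_fus.1 hA
    unfold TS.dl
    exact mem_biUnion.2 ⟨j, mem_range.2 hj, hA⟩
  have hsz := T.size_dec hF hg G L hζ
  rw [sum_eq_single (T.fus F g G L ζ)]
  · by_cases hn : T.xv F g G L ζ ≤ n
    · rw [sum_eq_single (T.xv F g G L ζ)]
      · rw [if_pos (show T.fus F g G L ζ = T.fus F g G L ζ ∧ T.xv F g G L ζ = T.xv F g G L ζ from ⟨rfl, rfl⟩)]
        refine t15_ite ?_
        omega
      · intro a _ hne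
        exact if_neg fun hc => hne hc.2.symm
      · intro h
        exact (h (mem_range.2 (by omega))).elim
    · rw [if_neg (by omega), sum_eq_zero]
      intro a ha
      rw [mem_range] at ha
      exact if_neg fun hc => hn (by omega)
  · intro U _ hne
    exact sum_eq_zero fun a _ => if_neg fun hc => hne hc.1.symm
  · intro h
    exact (h hU).elim


/-! ### free cones and the outer part of the wave -/

theorem t15_mkd_anc (T : TS D r) {S : Set V → Prop} {F : Finset (Set V)} (hF : T.Fo F) {g : V → ℕ} (hg : ∀ z ∈ fs F, g z ≤ T.fi F z) {G : Finset V}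
    {ζ : V → ℕ} (hζ : ζ ∈ Rc D r (gp G F)) {i : ℕ} {A : Set V} (hA : A ∈ T.de F i) :
    ∀ (k : ℕ) (B : Set V), B ∈ T.de {A} k → T.mkd S F g G ζ B → T.mkd S F g G ζ A := by
  intro k
  induction k with
  | zero =>
    intro B hB hm
    rw [T.de_zero, mem_singleton] at hB
    rwa [hB] at hm
  | succ k ih =>
    intro B hB hm
    rw [T.de_succ] at hB
    obtain ⟨B', hB', hBc⟩ := mem_biUnion.1 hB
    exact ih B' hB' (T.mkd_parent hF hg (T.de_trans hA hB') hBc hζ hm)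

theorem t15_gw_fs {F : Finset (Set V)} {g : V → ℕ} {G : Finset V} {ζ : V → ℕ} {z : V} (hz : z ∈ gw D r g (gp G F) ζ) : z ∈ fs F :=
  (TS.mem_gp.1 (gw_sub _ _ _ hz)).2

/-- a free cone of generation `i + 1`: the top piece of its parent contains a toppled vertex outside the first units -/
theorem t15_top (T : TS D r) {F : Finset (Set V)} (hF : T.Fo F) {g : V → ℕ} (hg : ∀ z ∈ fs F, g z ≤ T.fi F z) (G : Finset V) (L : ℕ) {ζ : V → ℕ}
    {i : ℕ} {A : Set V} (hA : A ∈ T.de F (i + 1)) (hm : T.mkd T.sp F g G ζ A) :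
    ∃ B ∈ T.de F i, A ∈ T.ch B ∧ ∃ x ∈ T.Q B, x ∈ gw D r g (gp G F) ζ ∧ ∀ E ∈ T.fus F g G L ζ, x ∉ E := by
  obtain ⟨x, hxo, hxW⟩ := (T.rch_iff hF hg hA (gw D r g (gp G F) ζ) (fun z hz => t15_gw_fs hz)).1 hm.1
  obtain ⟨B, hB, hAB, ho⟩ := T.o_parent hF hA
  refine ⟨B, hB, hAB, x, ho hxo, hxW, ?_⟩
  intro E hE hxE
  obtain ⟨j, hj, hEj, hfE⟩ := t15_mem_fus.1 hE
  have hcB := T.t5b_cn hF hB
  have hlt := T.ch_ssub hcB hAB
  rcases t15_ssub hF hB hEj (T.Q_sub hcB (ho hxo)) hxE with h1 | h1 | h1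
  · exact hm.2 j E hEj hfE.1 (hlt.trans h1) hfE.2.1
  · rw [h1] at hlt
    exact hm.2 j E hEj hfE.1 hlt hfE.2.1
  · exact T.t5b_Q_notMem hF hEj hB h1 (ho hxo) hxE

/-- TARGET. a free (marked) cone of generation `l` has `l` strict ancestors, whose top pieces contain toppled vertices lying outside the cones of all first units: so `l ≤ xv` -/
theorem TS.le_xv (T : TS D r) {F : Finset (Set V)} (hF : T.Fo F) {g : V → ℕ} (hg : ∀ z ∈ fs F, g z ≤ T.fi F z) (G : Finset V) (L : ℕ) {ζ : V → ℕ}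
    (hζ : ζ ∈ Rc D r (gp G F)) {l : ℕ} {A : Set V} (hA : A ∈ T.de F l) (hm : T.mkd T.sp F g G ζ A) : l ≤ T.xv F g G L ζ := by
  have key : ∀ i : ℕ, i < l → ∃ x, (∃ B ∈ T.de F i, x ∈ T.Q B) ∧ x ∈ (gw D r g (gp G F) ζ).filter (fun z => ∀ A ∈ T.fus F g G L ζ, z ∉ A) := by
    intro i hi
    obtain ⟨k, rfl⟩ := Nat.exists_eq_add_of_le (show i + 1 ≤ l by omega)
    obtain ⟨A', hA', hAA'⟩ := T.ancestor hA
    have hm' := t15_mkd_anc T hF hg hζ hA' k A hAA' hm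
    obtain ⟨B, hB, -, x, hxQ, hxW, hx⟩ := t15_top T hF hg G L hA' hm'
    exact ⟨x, ⟨B, hB, hxQ⟩, mem_filter.2 ⟨hxW, hx⟩⟩
  have := T.gd.inf
  have : Nonempty V := Infinite.nonempty V
  choose! f hf using key
  have hinj : Set.InjOn f (range l : Set ℕ) := by
    intro i hi j hj hij
    rw [coe_range, Set.mem_Iio] at hi hj
    obtain ⟨⟨B, hB, hx⟩, -⟩ := hf i hi
    obtain ⟨⟨B', hB', hx'⟩, -⟩ := hf j hj
    by_cases e : B = B'
    · subst e
      exact T.gen_unique hF hB hB'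
    · rw [hij] at hx
      exact (Finset.disjoint_left.1 (T.Q_disj hF hB hB' e) hx hx').elim
  have := card_le_card_of_injOn f (s := range l) (t := (gw D r g (gp G F) ζ).filter (fun z => ∀ A ∈ T.fus F g G L ζ, z ∉ A))
    (fun i hi => (hf i (mem_range.1 hi)).2) hinj
  rwa [card_range] at this

/-- TARGET. stability -/
theorem TS.fus_stab (T : TS D r) {F : Finset (Set V)} (hF : T.Fo F) {g : V → ℕ} (hg : ∀ z ∈ fs F, g z ≤ T.fi F z) (G : Finset V) {L L' : ℕ} (hLL : L ≤ L') {ζ : V → ℕ}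
    (hζ : ζ ∈ Rc D r (gp G F)) (h : T.xv F g G L ζ < L ∨ T.xv F g G L' ζ < L) :
    T.fus F g G L' ζ = T.fus F g G L ζ ∧ T.xv F g G L' ζ = T.xv F g G L ζ := by
  have h1 : T.fus F g G L' ζ = T.fus F g G L ζ := by
    ext A
    rw [t15_mem_fus, t15_mem_fus]
    constructor
    · rintro ⟨j, hj, hA, hf⟩
      have h2 := T.le_xv hF hg G L hζ hA hf.2.2
      have h3 := T.le_xv hF hg G L' hζ hA hf.2.2
      exact ⟨j, by rcases h with h | h <;> omega, hA, hf⟩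
    · rintro ⟨j, hj, hA, hf⟩
      exact ⟨j, by omega, hA, hf⟩
  refine ⟨h1, ?_⟩
  unfold TS.xv
  rw [h1]

/-- TARGET. each first unit of generation `≥ 1` has a parent whose top piece contains a toppled vertex outside the cones of the first units; different parents have disjoint top pieces -/
theorem TS.fus_card_le (T : TS D r) {F : Finset (Set V)} (hF : T.Fo F) {g : V → ℕ} (hg : ∀ z ∈ fs F, g z ≤ T.fi F z) (G : Finset V) (L : ℕ) {ζ : V → ℕ}
    (hζ : ζ ∈ Rc D r (gp G F)) : (T.fus F g G L ζ).card ≤ F.card + T.m * T.xv F g G L ζ := by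
  have key : ∀ A ∈ (T.fus F g G L ζ).filter (fun A => A ∉ F), ∃ x, (∃ i, ∃ B ∈ T.de F i, A ∈ T.ch B ∧ x ∈ T.Q B) ∧
      x ∈ (gw D r g (gp G F) ζ).filter (fun z => ∀ A ∈ T.fus F g G L ζ, z ∉ A) := by
    intro A hA
    rw [mem_filter] at hA
    obtain ⟨j, hj, hAj, hf⟩ := t15_mem_fus.1 hA.1
    cases j with
    | zero =>
      rw [T.de_zero] at hAj
      exact (hA.2 hAj).elim
    | succ i =>
      obtain ⟨B, hB, hAB, x, hxQ, hxW, hx⟩ := t15_top T hF hg G L hAj hf.2.2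
      exact ⟨x, ⟨i, B, hB, hAB, hxQ⟩, mem_filter.2 ⟨hxW, hx⟩⟩
  have := T.gd.inf
  have : Nonempty V := Infinite.nonempty V
  choose! f hf using key
  have h1 : ((T.fus F g G L ζ).filter (fun A => A ∈ F)).card ≤ F.card := card_le_card (fun A hA => (mem_filter.1 hA).2)
  have h2 : ((T.fus F g G L ζ).filter (fun A => A ∉ F)).card ≤ T.m * (((T.fus F g G L ζ).filter (fun A => A ∉ F)).image f).card := by
    refine card_le_mul_card_image _ _ ?_
    intro x hx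
    obtain ⟨A, hA, rfl⟩ := mem_image.1 hx
    obtain ⟨⟨i, B, hB, hAB, hxQ⟩, -⟩ := hf A hA
    refine le_trans (card_le_card ?_) (T.ch_card (T.t5b_cn hF hB))
    intro A' hA'
    obtain ⟨hA'1, he⟩ := mem_filter.1 hA'
    obtain ⟨⟨i', B', hB', hAB', hxQ'⟩, -⟩ := hf A' hA'1
    rw [he] at hxQ'
    by_cases e : B = B'
    · rw [e]; exact hAB'
    · exact (Finset.disjoint_left.1 (T.Q_disj hF hB hB' e) hxQ hxQ').elim
  have h3 : (((T.fus F g G L ζ).filter (fun A => A ∉ F)).image f).card ≤ T.xv F g G L ζ := by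
    refine card_le_card ?_
    intro x hx
    obtain ⟨A, hA, rfl⟩ := mem_image.1 hx
    exact (hf A hA).2
  have h4 := card_filter_add_card_filter_not (s := T.fus F g G L ζ) (fun A => A ∈ F)
  have h5 := Nat.mul_le_mul_left T.m h3
  omega

/-- TARGET. bounds by the number of free cones -/
theorem TS.fus_card_le' (T : TS D r) {F : Finset (Set V)} (hF : T.Fo F) {g : V → ℕ} (G : Finset V) (L : ℕ) (ζ : V → ℕ) :
    (T.fus F g G L ζ).card ≤ ∑ l ∈ range L, T.fn T.sp F g G l ζ := by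
  unfold TS.fus
  refine card_biUnion_le.trans (sum_le_sum ?_)
  intro l _
  unfold TS.fn
  refine card_le_card ?_
  intro A hA
  rw [mem_filter] at hA ⊢
  exact ⟨hA.1, hA.2.2.2⟩

/-- TARGET. if `xv < L`, every toppled vertex outside the first units' cones is in the top piece of a free cone of generation `< L` (`le_xv`) -/
theorem TS.xv_le (T : TS D r) {F : Finset (Set V)} (hF : T.Fo F) {g : V → ℕ} (hg : ∀ z ∈ fs F, g z ≤ T.fi F z) (G : Finset V) (L : ℕ) {ζ : V → ℕ}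
    (hζ : ζ ∈ Rc D r (gp G F)) (h : T.xv F g G L ζ < L) : T.xv F g G L ζ ≤ T.m * ∑ l ∈ range L, T.fn T.sp F g G l ζ := by
  have key : (gw D r g (gp G F) ζ).filter (fun z => ∀ A ∈ T.fus F g G L ζ, z ∉ A) ⊆
      (range L).biUnion (fun l => ((T.de F l).filter (fun A => T.mkd T.sp F g G ζ A)).biUnion T.Q) := by
    intro z hz
    obtain ⟨hzW, hzE⟩ := mem_filter.1 hz
    obtain ⟨i, A, hA, hzQ⟩ := T.exists_Q hF (t15_gw_fs hzW)
    have hzA := T.Q_sub (T.t5b_cn hF hA) hzQ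
    have hr : ∀ {j : ℕ} {B : Set V}, B ∈ T.de F j → z ∈ B → rch D g (gw D r g (gp G F) ζ) B := by
      intro j B hB hzB
      by_contra hn
      exact T.not_rch hF hB hζ hn hzB hzW
    have hnab : T.nab T.sp F ζ A := by
      by_contra hn
      unfold TS.nab at hn
      push Not at hn
      have hex : ∃ j, ∃ B ∈ T.de F j, T.sp B ∧ A ⊂ B ∧ T.fb ζ B := hn
      obtain ⟨B, hB, hsB, hAB, hfB⟩ := Nat.find_spec hex
      have hmin := fun j (hj : j < Nat.find hex) => Nat.find_min hex hj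
      have hmB : T.mkd T.sp F g G ζ B := by
        refine ⟨hr hB (hAB.1 hzA), ?_⟩
        intro j B' hB' hsB' hBB' hfB'
        exact hmin j (T.lt_of_ssub hF hB' hB hBB') ⟨B', hB', hsB', hAB.trans hBB', hfB'⟩
      have hle := T.le_xv hF hg G L hζ hB hmB
      exact hzE B (t15_mem_fus.2 ⟨_, by omega, hB, hsB, hfB, hmB⟩) (hAB.1 hzA)
    have hm : T.mkd T.sp F g G ζ A := ⟨hr hA hzA, hnab⟩
    have hle := T.le_xv hF hg G L hζ hA hm
    exact mem_biUnion.2 ⟨i, mem_range.2 (by omega), mem_biUnion.2 ⟨A, mem_filter.2 ⟨hA, hm⟩, hzQ⟩⟩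
  refine (card_le_card key).trans (card_biUnion_le.trans ?_)
  rw [mul_sum]
  refine sum_le_sum ?_
  intro l _
  refine card_biUnion_le.trans ?_
  unfold TS.fn
  rw [mul_comm, ← smul_eq_mul]
  refine sum_le_card_nsmul _ _ _ ?_
  intro A hA
  exact T.Q_card (T.t5b_cn hF (mem_filter.1 hA).1)

/-! ### quasi-locality -/

theorem t15_nr (T : TS D r) {F : Finset (Set V)} (hF : T.Fo F) {g : V → ℕ} (hg : ∀ z ∈ fs F, g z ≤ T.fi F z) {G : Finset V} {M : ℕ} {ζ : V → ℕ}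
    (hn : T.nr F G M 1 ζ) : ∀ A ∈ T.de F M, ¬ rch D g (gw D r g (gp G F) ζ) A := by
  intro A hA hr
  have h0 := hn 0 (by norm_num)
  have h1 : T.rn F G M ζ = 0 := h0
  unfold TS.rn TS.fn at h1
  rw [card_eq_zero, filter_eq_empty_iff] at h1
  refine h1 hA ⟨?_, fun i B hB hs => hs.elim⟩
  exact TS.rch_mono hg (T.t5b_sub hF hA) hr

/-- the wave and the first units are determined by the first generations -/
theorem t15_loc (T : TS D r) {F : Finset (Set V)} (hF : T.Fo F) {g : V → ℕ} (hg : ∀ z ∈ fs F, g z ≤ T.fi F z) {G : Finset V} {L M : ℕ} (hLM : L ≤ M)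
    (hG : T.up F (M + 1) ⊆ G) {ζ : V → ℕ} (hζ : ζ ∈ Rc D r (gp G F)) (hn : T.nr F G M 1 ζ) :
    gw D r g (gp G F) ζ = gw D r g (gp (T.up F (M + 1)) F) (rs (T.up F (M + 1)) ζ) ∧
    T.fus F g G L ζ = T.fus F g (T.up F (M + 1)) L (rs (T.up F (M + 1)) ζ) ∧
    T.xv F g G L ζ = T.xv F g (T.up F (M + 1)) L (rs (T.up F (M + 1)) ζ) := by
  have h1 := (T.gw_loc hF hg (Nat.le_succ M) hG (fun z hz => ((mem_Rc.1 hζ).1.1 z hz).2) (t15_nr T hF hg hn)).1
  have hfb : ∀ (j : ℕ) (B : Set V), B ∈ T.de F j → j ≤ M → (T.fb ζ B ↔ T.fb (rs (T.up F (M + 1)) ζ) B) := by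
    intro j B hB hj
    unfold TS.fb
    refine forall₂_congr ?_
    intro z hz
    rw [rs_mem (T.t5c_mem_up.2 ⟨j, by omega, B, hB, hz⟩)]
  have h2 : T.fus F g G L ζ = T.fus F g (T.up F (M + 1)) L (rs (T.up F (M + 1)) ζ) := by
    ext A
    rw [t15_mem_fus, t15_mem_fus]
    refine exists_congr fun j => and_congr_right fun hj => and_congr_right fun hA => ?_
    unfold TS.fu TS.mkd
    rw [← h1, ← hfb j A hA (by omega)]
    refine and_congr_right fun _ => and_congr_right fun _ => and_congr_right fun _ => ?_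
    unfold TS.nab
    refine forall_congr' fun i => forall_congr' fun B => forall_congr' fun hB => forall_congr' fun _ => forall_congr' fun hAB => ?_
    rw [hfb i B hB (by have := T.lt_of_ssub hF hB hA hAB; omega)]
  refine ⟨h1, h2, ?_⟩
  unfold TS.xv
  rw [← h1, ← h2]

theorem t15_ite_le {p : Prop} {ip : Decidable p} : |@ite ℝ p ip 1 0| ≤ 1 := by
  by_cases h : p
  · rw [if_pos h]; simp
  · rw [if_neg h]; simp

/-- TARGET. quasi-locality of the joint event -/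
theorem TS.ql_fus (T : TS D r) {F : Finset (Set V)} (hF : T.Fo F) {g : V → ℕ} (hg : ∀ z ∈ fs F, g z ≤ T.fi F z) (L : ℕ) (P : Finset (Set V) → ℕ → Prop) :
    T.QL F 1 (fun G ζ => if P (T.fus F g G L ζ) (T.xv F g G L ζ) then 1 else 0) := by
  refine ⟨⟨1, fun G ζ => t15_ite_le⟩, L, ?_⟩
  intro M hM G hG ζ hζ hn
  obtain ⟨-, h2, h3⟩ := t15_loc T hF hg hM hG hζ hn
  refine t15_ite ?_
  rw [h2, h3]

/-- TARGET. quasi-locality of functions of the size of the wave -/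
theorem TS.ql_size (T : TS D r) {F : Finset (Set V)} (hF : T.Fo F) {g : V → ℕ} (hg : ∀ z ∈ fs F, g z ≤ T.fi F z) (P : ℕ → Prop) :
    T.QL F 1 (fun G ζ => if P (gw D r g (gp G F) ζ).card then 1 else 0) := by
  refine ⟨⟨1, fun G ζ => t15_ite_le⟩, 0, ?_⟩
  intro M hM G hG ζ hζ hn
  obtain ⟨h1, -, -⟩ := t15_loc T hF hg hM hG hζ hn
  refine t15_ite ?_
  rw [h1]

/-- TARGET. tightness of the size of the wave and of `xv` (on `rn F G l ζ = 0` the wave is inside `up F l`, `gw_loc`) -/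
theorem TS.tight_size (T : TS D r) {F : Finset (Set V)} (hF : T.Fo F) {g : V → ℕ} (hg : ∀ z ∈ fs F, g z ≤ T.fi F z) (ε : ℝ) (hε : 0 < ε) :
    ∃ N : ℕ, ∀ᶠ G in (atTop : Filter (Finset V)), pr D r (gp G F) (fun ζ => N < (gw D r g (gp G F) ζ).card) ≤ ε := by
  obtain ⟨L0, hL0⟩ := T.tight_fo hF 1 ε hε
  refine ⟨(T.up F L0).card, ?_⟩
  filter_upwards [eventually_ge_atTop (T.up F L0)] with G hG
  refine (t8_pr_mono ?_).trans (hL0 L0 le_rfl G hG)
  intro ζ hζ hlt hn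
  have h1 := (T.gw_loc hF hg le_rfl hG (fun z hz => ((mem_Rc.1 hζ).1.1 z hz).2) (t15_nr T hF hg hn)).2
  have := card_le_card h1
  omega

end Pool.Agent.Helper910.QT
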