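import Mathlib
import Pool.Agent.Helper910.T15

/-! Patterns: the four atoms of the step law (MP_4555f0_mp) -/

namespace Pool.Agent.Helper910.QT

open Classical Finset Filter Topology

variable {V : Type*} {D : SimpleGraph V} [D.LocallyFinite] {r : ℕ}

/-- the graph induced on `P` has no finite component -/
def NF (D : SimpleGraph V) (P : Set V) : Prop := ∀ X : Finset V, X.Nonempty → (∀ z ∈ X, z ∈ P) → ∃ z ∈ X, ∃ y, D.Adj z y ∧ y ∈ P ∧ y ∉ X

/-- `X` is a finite nonempty set, closed under adjacency in `P \ {y}` -/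
def t16_Bad (D : SimpleGraph V) (P : Set V) (y : V) (X : Finset V) : Prop :=
  X.Nonempty ∧ (∀ z ∈ X, z ∈ P ∧ z ≠ y) ∧ ∀ z ∈ X, ∀ b, D.Adj z b → b ∈ P → b = y ∨ b ∈ X

omit [D.LocallyFinite] in
/-- two closed sets cross -/
theorem t16_cross {P : Set V} (hP : NF D P) {y y' : V} {X X' : Finset V} (h : t16_Bad D P y X) (h' : t16_Bad D P y' X')
    (hy' : y' ∈ X) : t16_Bad D P y' (X ∩ X') ∧ (X ∩ X').card < X.card := by
  obtain ⟨hne, hX, hc⟩ := h
  obtain ⟨hne', hX', hc'⟩ := h'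
  have hyX' : y ∉ X' := by
    intro hy
    obtain ⟨z, hz, b, hzb, hbP, hb⟩ := hP (X ∪ X') (hne.mono Finset.subset_union_left) (by
      intro z hz
      rcases Finset.mem_union.1 hz with hz | hz
      · exact (hX z hz).1
      · exact (hX' z hz).1)
    apply hb
    rcases Finset.mem_union.1 hz with hz | hz
    · rcases hc z hz b hzb hbP with rfl | hb'
      · exact Finset.mem_union_right _ hy
      · exact Finset.mem_union_left _ hb'
    · rcases hc' z hz b hzb hbP with rfl | hb'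
      · exact Finset.mem_union_left _ hy'
      · exact Finset.mem_union_right _ hb'
  have hne2 : (X ∩ X').Nonempty := by
    obtain ⟨w, hw, b, hwb, hbP, hb⟩ := hP X' hne' (fun z hz => (hX' z hz).1)
    have hby : b = y' := (hc' w hw b hwb hbP).resolve_right hb
    subst hby
    rcases hc b hy' w hwb.symm (hX' w hw).1 with rfl | hw'
    · exact absurd hw hyX'
    · exact ⟨w, Finset.mem_inter.2 ⟨hw', hw⟩⟩
  refine ⟨⟨hne2, ?_, ?_⟩, ?_⟩
  · intro z hz
    exact hX' z (Finset.mem_inter.1 hz).2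
  · intro z hz b hzb hbP
    rw [Finset.mem_inter] at hz
    rcases hc' z hz.2 b hzb hbP with hb | hb
    · exact Or.inl hb
    · right
      rcases hc z hz.1 b hzb hbP with hb' | hb'
      · exact absurd (hb' ▸ hb) hyX'
      · exact Finset.mem_inter.2 ⟨hb', hb⟩
  · refine Finset.card_lt_card ⟨Finset.inter_subset_left, fun hs => ?_⟩
    exact (hX' y' (Finset.mem_inter.1 (hs hy')).2).2 rfl

omit [D.LocallyFinite] in
theorem t16_bad_of_not {P : Set V} {y : V} (h : ¬ NF D (P \ {y})) : ∃ X, t16_Bad D P y X := by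
  unfold NF at h
  push Not at h
  obtain ⟨X, hne, hX, hc⟩ := h
  refine ⟨X, hne, fun z hz => ⟨(hX z hz).1, (hX z hz).2⟩, fun z hz b hzb hbP => ?_⟩
  by_cases hby : b = y
  · exact Or.inl hby
  · exact Or.inr (hc z hz b hzb ⟨hbP, hby⟩)

/-- TARGET. deleting one vertex leaves no finite component. Otherwise let `K` be a finite set of maximal size among the finite components of all `V \ {z}` ... precisely: suppose some `V \ {z}` contains a finite nonempty set closed under adjacency in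
`V \ {z}`; take a connected one, `K`, of maximal size over all `z` (sizes are bounded: by transitivity every `z` has the same sizes, and `V \ {z}` has at most `r` components). For `y ∈ K` let `K'` be such a set for `y` of the same
maximal size (transitivity). The component of `z` in `V \ {y}` contains `V \ K`, which is infinite; so `K'` does not contain `z`, is connected and avoids `z`, and is adjacent to `y ∈ K`; hence `K' ⊆ K \ {y}`: smaller. -/
theorem no_fin_vertex (H : Gd D r) (ht : ∀ x y : V, ∃ φ : D ≃g D, φ x = y) (z : V) : NF D {x | x ≠ z} := by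
  have hU : NF D (Set.univ : Set V) := by
    intro X hne _
    obtain ⟨z, hz, b, hb, hzb⟩ := H.exit hne
    exact ⟨z, hz, b, hzb, Set.mem_univ _, hb⟩
  have key : ∀ n : ℕ, ∀ (z : V) (X : Finset V), X.card = n → ¬ t16_Bad D Set.univ z X := by
    intro n
    induction n using Nat.strong_induction_on with
    | _ n ih =>
      intro z X hn hb
      obtain ⟨y', hy'⟩ := hb.1
      obtain ⟨φ, hφ⟩ := ht z y'
      have hb' : t16_Bad D Set.univ y' (X.image φ) := by
        refine ⟨hb.1.image _, fun w hw => ⟨Set.mem_univ _, ?_⟩, fun w hw b hwb _ => ?_⟩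
        · obtain ⟨v, hv, rfl⟩ := Finset.mem_image.1 hw
          intro hvy
          rw [← hφ] at hvy
          exact (hb.2.1 v hv).2 (φ.injective hvy)
        · obtain ⟨v, hv, rfl⟩ := Finset.mem_image.1 hw
          have h1 : D.Adj v (φ.symm b) := by
            rw [← φ.map_adj_iff]
            simpa using hwb
          rcases hb.2.2 v hv (φ.symm b) h1 (Set.mem_univ _) with h2 | h2
          · left
            rw [← hφ, ← h2]
            simp
          · right
            refine Finset.mem_image.2 ⟨φ.symm b, h2, by simp⟩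
      obtain ⟨h1, h2⟩ := t16_cross hU hb hb' hy'
      exact ih _ (hn ▸ h2) y' _ rfl h1
  by_contra hcon
  have h1 : ({x | x ≠ z} : Set V) = Set.univ \ {z} := by
    ext x
    simp
  rw [h1] at hcon
  obtain ⟨X, hX⟩ := t16_bad_of_not hcon
  exact key _ z X rfl hX

/-- TARGET. cones have no finite component (they are connected and infinite) -/
theorem TS.nf_cone (T : TS D r) {C : Set V} (hC : T.Cn C) : NF D C := by
  intro X hne hX
  by_contra hcon
  push Not at hcon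
  have hstep : ∀ i, (∀ z ∈ X, z ∉ fs (T.de {C} (i + 1))) → ∀ z ∈ X, z ∉ fs (T.de {C} i) := by
    intro i hi z hz hzi
    obtain ⟨A, hA, hzA⟩ := hzi
    have hAc : T.Cn A := T.t5b_cn (T.fo_single hC) hA
    have hAC : A ⊆ C := T.de_single_sub hC hA
    have hzQ : z ∈ T.Q A := by
      rcases (T.mem_iff hAc z).1 hzA with h | ⟨C', hC', h⟩
      · exact h
      · exfalso
        refine hi z hz ⟨C', ?_, h⟩
        rw [T.de_succ]
        exact Finset.mem_biUnion.2 ⟨A, hA, hC'⟩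
    have hQX : ∀ {a b : V} (p : D.Walk a b), (∀ w ∈ p.support, w ∈ (T.Q A : Set V)) → a ∈ X → b ∈ X := by
      intro a b p
      induction p with
      | nil => intro _ h; exact h
      | cons hadj q ih =>
        intro hs ha
        refine ih (fun w hw => hs w (by simp [hw])) ?_
        refine hcon _ ha _ hadj (hAC (T.Q_sub hAc ?_))
        exact Finset.mem_coe.1 (hs _ (by simp))
    obtain ⟨C', hC'⟩ : (T.ch A).Nonempty := by
      rw [← Finset.card_pos]
      have := T.two hAc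
      omega
    have hC'c := T.ch_cn hAc C' hC'
    obtain ⟨x, hx⟩ := T.o_ne hC'c
    obtain ⟨y, hy, hxy⟩ := T.o_edge hC'c hx
    have hxQ : x ∈ T.Q A := T.o_sub hAc C' hC' hx
    obtain ⟨p, hp⟩ := T.Q_conn hAc z (Finset.mem_coe.2 hzQ) x (Finset.mem_coe.2 hxQ)
    have hxX : x ∈ X := hQX p hp hz
    have hyC' : y ∈ C' := T.Q_sub hC'c hy
    have hyX : y ∈ X := hcon x hxX y hxy (hAC (T.ch_sub hAc hC' hyC'))
    refine hi y hyX ⟨C', ?_, hyC'⟩
    rw [T.de_succ]
    exact Finset.mem_biUnion.2 ⟨A, hA, hC'⟩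
  obtain ⟨i, hi⟩ := T.exists_gen (T.fo_single hC) X
  have h0 : ∀ j, j ≤ i → ∀ z ∈ X, z ∉ fs (T.de {C} (i - j)) := by
    intro j
    induction j with
    | zero => intro _; simpa using hi
    | succ j ih =>
      intro hj
      refine hstep _ ?_
      have h1 : i - (j + 1) + 1 = i - j := by omega
      rw [h1]
      exact ih (by omega)
  have h1 := h0 i le_rfl
  rw [Nat.sub_self, T.de_zero] at h1
  obtain ⟨z, hz⟩ := hne
  exact h1 z hz ⟨C, Finset.mem_singleton_self C, hX z hz⟩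

/-- TARGET. there is a vertex `z0` of the cone `C`, adjacent to `o C`, such that `C \ {z0}` has no finite component. Let `ib` be the finite set of vertices of `C` adjacent to `o C`; for `y ∈ ib` let `K y` be the (finite) union of the finite components of
`C \ {y}`. Choose `y ∈ ib` with `|K y|` minimal and suppose `K y ≠ ∅`; let `F1` be a finite component of `C \ {y}`. By `no_fin_vertex` it has a neighbour outside `C ∪ {y}`, so it contains some `y' ∈ ib`. The component of `y` in `C \ {y'}` contains `C \ K y`, which is infinite;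
a finite component of `C \ {y'}` does not contain `y`, is adjacent to `y' ∈ F1`, hence is contained in `F1 \ {y'}`. So `K y' ⊆ F1 \ {y'}` is smaller. -/
theorem TS.exists_z0 (T : TS D r) {C : Set V} (hC : T.Cn C) : ∃ z0 ∈ C, (∃ x ∈ T.o C, D.Adj x z0) ∧ NF D (C \ {z0}) := by
  by_contra hcon
  push Not at hcon
  have key : ∀ n : ℕ, ∀ y ∈ C, (∃ x ∈ T.o C, D.Adj x y) → ∀ X : Finset V, X.card = n → ¬ t16_Bad D C y X := by
    intro n
    induction n using Nat.strong_induction_on with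
    | _ n ih =>
      intro y hy hyo X hn hb
      obtain ⟨y', hy', b, hyb, hby, hbX⟩ := no_fin_vertex T.gd T.trans y X hb.1 (fun z hz => (hb.2.1 z hz).2)
      have hbC : b ∉ C := by
        intro hbC
        rcases hb.2.2 y' hy' b hyb hbC with h | h
        · exact hby h
        · exact hbX h
      have hy'C : y' ∈ C := (hb.2.1 y' hy').1
      have hbo : b ∈ T.o C := (T.mem_o hC b).2 ⟨hbC, y', hy'C, hyb.symm⟩
      obtain ⟨X', hX'⟩ := t16_bad_of_not (hcon y' hy'C ⟨b, hbo, hyb.symm⟩)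
      obtain ⟨h1, h2⟩ := t16_cross (T.nf_cone hC) hb hX' hy'
      exact ih _ (hn ▸ h2) y' hy'C ⟨b, hbo, hyb.symm⟩ _ rfl h1
  obtain ⟨x, hx⟩ := T.o_ne hC
  obtain ⟨y, hy, hxy⟩ := T.o_edge hC hx
  have hyC : y ∈ C := T.Q_sub hC hy
  obtain ⟨X, hX⟩ := t16_bad_of_not (hcon y hyC ⟨x, hx, hxy⟩)
  exact key _ y hyC ⟨x, hx, hxy⟩ X rfl hX

omit [D.LocallyFinite] in
theorem t16_card_le (Z : Finset V) : (Rc D r Z).card ≤ r ^ Z.card := by
  have h1 : (Z.pi (fun _ => Finset.Icc 1 r)).card = r ^ Z.card := by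
    rw [Finset.card_pi]
    simp
  rw [← h1]
  refine Finset.card_le_card_of_injOn (fun ζ => fun z _ => ζ z) ?_ ?_
  · intro ζ hζ
    rw [Finset.mem_coe, Finset.mem_pi]
    intro z hz
    have := (mem_Rc.1 hζ).1.1 z hz
    rw [Finset.mem_Icc]
    exact this
  · intro ζ hζ ζ' hζ' h
    funext z
    by_cases hz : z ∈ Z
    · exact congrFun (congrFun h z) hz
    · rw [(mem_Rc.1 hζ).1.2 z hz, (mem_Rc.1 hζ').1.2 z hz]

theorem t16_rpos (T : TS D r) : (0 : ℝ) < r := by
  have := T.gd.one_le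
  exact_mod_cast this

omit [D.LocallyFinite] in
theorem t16_pr_congr {G : Finset V} {P Q : (V → ℕ) → Prop} (h : ∀ ζ ∈ Rc D r G, P ζ ↔ Q ζ) : pr D r G P = pr D r G Q := by
  unfold pr
  rw [Finset.filter_congr h]

/-- marginals, for events -/
theorem t16_marg (T : TS D r) {F : Finset (Set V)} (hF : T.Fo F) (G1 G : Finset V) (hd : ∀ z ∈ G1, z ∉ fs F)
    (P : (V → ℕ) → Prop) : T.c0 ^ F.card * pr D r G1 P ≤ pr D r (G1 ∪ gp G F) (fun ζ => P (rs G1 ζ)) := by
  rw [t9_pr_eq, t9_pr_eq]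
  exact T.marg_ge hF G1 G hd (fun ζ => if P ζ then (1 : ℝ) else 0) (fun ζ => by split_ifs <;> norm_num)

omit [D.LocallyFinite] in
theorem t16_pr_ge {Z : Finset V} {χ : V → ℕ} (hχ : χ ∈ Rc D r Z) {P : (V → ℕ) → Prop} (hP : P χ) :
    ((r : ℝ) ^ Z.card)⁻¹ ≤ pr D r Z P := by
  have h1 : 0 < (Rc D r Z).card := Finset.card_pos.2 ⟨χ, hχ⟩
  have h2 : 0 < ((Rc D r Z).filter P).card := Finset.card_pos.2 ⟨χ, Finset.mem_filter.2 ⟨hχ, hP⟩⟩
  have h3 : (0 : ℝ) < (Rc D r Z).card := by exact_mod_cast h1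
  have h4 : (1 : ℝ) ≤ ((Rc D r Z).filter P).card := by exact_mod_cast h2
  have h5 : ((Rc D r Z).card : ℝ) ≤ (r : ℝ) ^ Z.card := by exact_mod_cast t16_card_le Z
  calc ((r : ℝ) ^ Z.card)⁻¹ ≤ ((Rc D r Z).card : ℝ)⁻¹ := inv_anti₀ h3 h5
    _ = 1 / (Rc D r Z).card := by rw [one_div]
    _ ≤ _ := div_le_div_of_nonneg_right h4 h3.le

/-- the pivot, for events -/
theorem t16_piv_card (H : Gd D r) {g : V → ℕ} {G1 S B : Finset V} (P : Piv D r g G1 S B) (E1 E : (V → ℕ) → Prop)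
    (hE : ∀ ζ1 ∈ Rc D r (G1 ∪ S), E1 ζ1 → Trg D r g G1 S ζ1) :
    (((Rc D r (G1 ∪ S ∪ B)).filter (fun ζ => E1 (rs (G1 ∪ S) ζ) ∧ E (rs B ζ))).card : ℝ) =
      ((Rc D r (G1 ∪ S)).filter E1).card * ((Rc D r B).filter E).card := by
  have h1 := piv_sum H P E1 hE (fun _ => 1) (fun ζ => if E ζ then (1 : ℝ) else 0)
  simp only [one_mul] at h1
  have h8 : (((Rc D r (G1 ∪ S ∪ B)).filter (fun ζ => E1 (rs (G1 ∪ S) ζ) ∧ E (rs B ζ))).card : ℝ) =
      ∑ ζ ∈ (Rc D r (G1 ∪ S ∪ B)).filter (fun ζ => E1 (rs (G1 ∪ S) ζ)), if E (rs B ζ) then (1 : ℝ) else 0 := by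
    rw [← Finset.sum_filter, Finset.filter_filter, Finset.sum_const, nsmul_eq_mul, mul_one]
  have h9 : (((Rc D r B).filter E).card : ℝ) = ∑ ζ ∈ Rc D r B, if E ζ then (1 : ℝ) else 0 := by
    rw [← Finset.sum_filter, Finset.sum_const, nsmul_eq_mul, mul_one]
  rw [h8, h9, h1, Finset.sum_const, nsmul_eq_mul, mul_one]

/-- TARGET. GENERAL PATTERN BOUND. The region of the forest `F` is the disjoint union of the finite set `Z` and of the forest `F'`. Let `χ` be recurrent on `Z`. All `ζ` which agree with `χ` on `Z` and are strongly recurrent (`RcW (fi {C})`) on the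
`gp G {C}`, `C ∈ F'`, are in `Rc (gp G F)` (`union_mem`: the neighbours in `Z` of a vertex of `C` are in `o C`), and they have probability at least `c0^|F'| r^(-|Z|)` (`c0_card`; `card_le`: `|Rc (gp G F)| ≤ |Rc Z| Π |Rc (gp G {C})|`, `|Rc Z| ≤ r^|Z|`). -/
theorem TS.pat_strong (T : TS D r) {F F' : Finset (Set V)} (hF : T.Fo F) (hF' : T.Fo F') {Z : Finset V} (hZ : ∀ z, z ∈ fs F ↔ z ∈ Z ∨ z ∈ fs F') (hd : ∀ z ∈ Z, z ∉ fs F')
    {χ : V → ℕ} (hχ : χ ∈ Rc D r Z) {G : Finset V} (hG : Z ⊆ G) :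
    T.c0 ^ F'.card / (r : ℝ) ^ Z.card ≤ pr D r (gp G F) (fun ζ => ∀ z ∈ Z, ζ z = χ z) := by
  have hgp : gp G F = Z ∪ gp G F' := by
    ext z
    rw [Finset.mem_union, TS.mem_gp, TS.mem_gp, hZ z]
    constructor
    · rintro ⟨h1, h2 | h2⟩
      · exact Or.inl h2
      · exact Or.inr ⟨h1, h2⟩
    · rintro (h | ⟨h1, h2⟩)
      · exact ⟨hG h, Or.inl h⟩
      · exact ⟨h1, Or.inr h2⟩
  have h1 := t16_marg T hF' Z G hd (fun ζ => ∀ z ∈ Z, ζ z = χ z)
  have h2 : pr D r (Z ∪ gp G F') (fun ζ => ∀ z ∈ Z, rs Z ζ z = χ z) =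
      pr D r (gp G F) (fun ζ => ∀ z ∈ Z, ζ z = χ z) := by
    rw [hgp]
    refine t16_pr_congr (fun ζ _ => ?_)
    exact forall₂_congr (fun z hz => by rw [rs_mem hz])
  rw [h2] at h1
  refine le_trans ?_ h1
  rw [div_eq_mul_inv]
  refine mul_le_mul_of_nonneg_left ?_ (pow_nonneg T.c0_pos.le _)
  exact t16_pr_ge hχ (fun z _ => rfl)

/-- the full wave on the first generations with all heights `r` topples everything -/
theorem t16_top (T : TS D r) {F : Finset (Set V)} (hF : T.Fo F) (l : ℕ) {G : Finset V} {ζ : V → ℕ}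
    (hG : T.up F l ⊆ G) (hζ : ∀ z ∈ T.up F l, ζ z = r) : ∀ z ∈ T.up F l, z ∈ gw D r (T.fi F) G ζ := by
  have key : ∀ k, k < l → ∀ A ∈ T.de F k, ∀ z ∈ T.Q A, z ∈ gw D r (T.fi F) G ζ := by
    intro k
    induction k with
    | zero =>
      intro hk A hA z hz
      have hAF : A ∈ F := by rwa [T.de_zero] at hA
      have hAc := hF.cn A hAF
      have hQ : ∀ z ∈ T.Q A, z ∈ G ∧ ζ z = r := fun z hz => by
        have : z ∈ T.up F l := T.t5c_mem_up.2 ⟨0, hk, A, hA, hz⟩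
        exact ⟨hG this, hζ z this⟩
      obtain ⟨x, hx⟩ := T.o_ne hAc
      obtain ⟨y, hy, hxy⟩ := T.o_edge hAc hx
      have hyw : y ∈ gw D r (T.fi F) G ζ := by
        by_contra hcon
        have h1 := (gw_GCl (D := D) (r := r) (T.fi F) G ζ).2 y (hQ y hy).1 hcon
        have h2 : 0 < T.fi F y := by
          unfold TS.fi dgi
          exact TS.t5b_dg_pos (T.t5b_mem_fo.2 ⟨A, hAF, hx⟩) hxy.symm
        rw [(hQ y hy).2] at h1
        omega
      obtain ⟨p, hp⟩ := T.Q_conn hAc y (Finset.mem_coe.2 hy) z (Finset.mem_coe.2 hz)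
      exact TS.t5b_walk hQ p hp hyw
    | succ k ih =>
      intro hk A hA z hz
      obtain ⟨B, hB, hAB, hoB⟩ := T.o_parent hF hA
      have hAc : T.Cn A := T.t5b_cn hF hA
      have hQ : ∀ z ∈ T.Q A, z ∈ G ∧ ζ z = r := fun z hz => by
        have : z ∈ T.up F l := T.t5c_mem_up.2 ⟨k + 1, hk, A, hA, hz⟩
        exact ⟨hG this, hζ z this⟩
      obtain ⟨x, hx⟩ := T.o_ne hAc
      obtain ⟨y, hy, hxy⟩ := T.o_edge hAc hx
      have hxw := ih (by omega) B hB x (hoB hx)
      have hyw : y ∈ gw D r (T.fi F) G ζ := by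
        by_contra hcon
        have h1 := (gw_GCl (D := D) (r := r) (T.fi F) G ζ).2 y (hQ y hy).1 hcon
        have h2 : 0 < dg D y (gw D r (T.fi F) G ζ) := TS.t5b_dg_pos hxw hxy.symm
        rw [(hQ y hy).2] at h1
        omega
      obtain ⟨p, hp⟩ := T.Q_conn hAc y (Finset.mem_coe.2 hy) z (Finset.mem_coe.2 hz)
      exact TS.t5b_walk hQ p hp hyw
  intro z hz
  obtain ⟨k, hk, A, hA, hzA⟩ := T.t5c_mem_up.1 hz
  exact key k hk A hA z hzA

/-- `gp G F` splits into the first generations and the forest of generation `l` -/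
theorem t16_split (T : TS D r) {F : Finset (Set V)} (hF : T.Fo F) (l : ℕ) {G : Finset V} (hG : T.up F l ⊆ G) :
    gp G F = T.up F l ∪ gp G (T.de F l) := by
  ext z
  rw [Finset.mem_union, TS.mem_gp, TS.mem_gp, T.mem_fs_iff hF l z]
  constructor
  · rintro ⟨h1, h2 | h2⟩
    · exact Or.inl h2
    · exact Or.inr ⟨h1, h2⟩
  · rintro (h | ⟨h1, h2⟩)
    · exact ⟨hG h, Or.inl h⟩
    · exact ⟨h1, Or.inr h2⟩

/-- the pivot of the first generations, `l ≥ 1` -/
theorem t16_piv (T : TS D r) {F : Finset (Set V)} (hF : T.Fo F) {l : ℕ} (hl : 1 ≤ l) {G : Finset V} (hG : T.up F l ⊆ G) :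
    Piv D r (T.fi F) ∅ (T.up F l) (gp G (T.de F l)) := by
  refine ⟨Finset.disjoint_empty_left _, Finset.disjoint_empty_left _, ?_, ?_, ?_, ?_⟩
  · rw [Finset.disjoint_left]
    intro z hz hz'
    exact T.up_disj hF hz (TS.mem_gp.1 hz').2
  · intro x hx
    exact absurd hx (Finset.notMem_empty x)
  · intro z hz
    exact T.fi_zero hF hl (TS.mem_gp.1 hz).2
  · rw [Finset.empty_union, ← t16_split T hF l hG]
    exact T.adm_fi hF (fun z _ => le_rfl) G

theorem t16_trg (T : TS D r) {F : Finset (Set V)} (hF : T.Fo F) {l : ℕ} {ζ : V → ℕ} (hζ : ∀ z ∈ T.up F l, ζ z = r) :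
    Trg D r (T.fi F) ∅ (T.up F l) ζ := by
  refine ⟨hζ, fun z hz => ⟨z, ?_, SimpleGraph.Walk.nil, ?_⟩⟩
  · exact t16_top T hF l (by simp) hζ z hz
  · intro y hy
    simp only [SimpleGraph.Walk.support_nil, List.mem_singleton] at hy
    rw [hy]
    exact hz

/-- TARGET. ALL HEIGHTS `r` ON THE FIRST GENERATIONS. Pivot with `G1 = ∅`, `S = up F l`, `B = gp G (de F l)`, `g = fi F`: the full wave topples all of `S` (vertices adjacent to `o C`, `C ∈ F`, topple; each `Q A` is connected; for `A' ∈ ch A` a vertex of `Q A'` is adjacent to `o A' ⊆ Q A`).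
So for every `ξ ∈ Rc B` the configuration `r` on `S`, `ξ` on `B` is recurrent; and `|Rc (gp G F)| ≤ r^|S| |Rc B|`. -/
theorem TS.pat_top (T : TS D r) {F : Finset (Set V)} (hF : T.Fo F) (l : ℕ) {G : Finset V} (hG : T.up F l ⊆ G) (E : (V → ℕ) → Prop) :
    pr D r (gp G (T.de F l)) E / (r : ℝ) ^ (T.up F l).card ≤
      pr D r (gp G F) (fun ζ => (∀ z ∈ T.up F l, ζ z = r) ∧ E (rs (gp G (T.de F l)) ζ)) := by
  rcases Nat.eq_zero_or_pos l with rfl | hl
  · have hup : T.up F 0 = ∅ := by simp [TS.up]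
    rw [hup, T.de_zero, Finset.card_empty, pow_zero, div_one]
    refine (t16_pr_congr (fun ζ hζ => ?_)).le
    rw [t7_rs_self (mem_Rc.1 hζ).1.2]
    simp
  · have hP := t16_piv T hF hl hG
    obtain ⟨E1, hE1⟩ : ∃ E1 : (V → ℕ) → Prop, E1 = fun ζ => ∀ z ∈ T.up F l, ζ z = r := ⟨_, rfl⟩
    have h1 := t16_piv_card T.gd hP E1 E (fun ζ1 _ h => t16_trg T hF (by rw [hE1] at h; exact h))
    simp only [Finset.empty_union] at h1
    rw [← t16_split T hF l hG] at h1
    have h2 : (1 : ℝ) ≤ ((Rc D r (T.up F l)).filter E1).card := by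
      have h3 : rs (T.up F l) (fun _ => r) ∈ (Rc D r (T.up F l)).filter E1 := by
        rw [Finset.mem_filter]
        refine ⟨T.gd.top_mem _, ?_⟩
        rw [hE1]
        exact fun z hz => rs_mem hz
      have h4 : 0 < ((Rc D r (T.up F l)).filter E1).card := Finset.card_pos.2 ⟨_, h3⟩
      exact_mod_cast h4
    have h5 : ((Rc D r (gp G F)).card : ℝ) ≤ (r : ℝ) ^ (T.up F l).card * (Rc D r (gp G (T.de F l))).card := by
      have h6 := t7_sum_le (D := D) (r := r) (A := T.up F l) (B := gp G (T.de F l)) (fun _ => 1) (fun _ => 1)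
        (fun _ => zero_le_one) (fun _ => zero_le_one)
      simp only [mul_one, Finset.sum_const, nsmul_eq_mul] at h6
      rw [← t16_split T hF l hG] at h6
      refine h6.trans ?_
      refine mul_le_mul_of_nonneg_right ?_ (Nat.cast_nonneg _)
      exact_mod_cast t16_card_le (T.up F l)
    have h7 : (((Rc D r (gp G (T.de F l))).filter E).card : ℝ) ≤
        ((Rc D r (gp G F)).filter (fun ζ => E1 (rs (T.up F l) ζ) ∧ E (rs (gp G (T.de F l)) ζ))).card := by
      rw [h1]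
      exact le_mul_of_one_le_left (Nat.cast_nonneg _) h2
    have hr : (0 : ℝ) < r := t16_rpos T
    have hc1 : (0 : ℝ) < (Rc D r (gp G F)).card := t9_card_pos T _
    have hc2 : (0 : ℝ) < (Rc D r (gp G (T.de F l))).card := t9_card_pos T _
    have hrp : (0 : ℝ) < (r : ℝ) ^ (T.up F l).card := pow_pos hr _
    have h10 : pr D r (gp G F) (fun ζ => (∀ z ∈ T.up F l, ζ z = r) ∧ E (rs (gp G (T.de F l)) ζ)) =
        pr D r (gp G F) (fun ζ => E1 (rs (T.up F l) ζ) ∧ E (rs (gp G (T.de F l)) ζ)) := by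
      refine t16_pr_congr (fun ζ _ => ?_)
      rw [hE1]
      refine and_congr ?_ Iff.rfl
      exact forall₂_congr (fun z hz => by rw [rs_mem hz])
    rw [h10]
    unfold pr
    rw [div_div, div_le_div_iff₀ (by positivity) hc1]
    refine mul_le_mul ?_ ?_ hc1.le (Nat.cast_nonneg _)
    · refine h7.trans (le_of_eq ?_)
      congr!
    · rw [mul_comm]
      exact h5

/-- TARGET. the full wave of a cone is empty with probability at least `c0` (`card_RcW_add`, `c0_card`) -/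
theorem TS.calm_pr (T : TS D r) {C : Set V} (hC : T.Cn C) (G : Finset V) :
    T.c0 ≤ pr D r (gp G {C}) (fun ξ => gw D r (T.fi {C}) (gp G {C}) ξ = ∅) := by
  have h1 := card_RcW_add (T.adm_fi (T.fo_single hC) (g := T.fi {C}) (fun z _ => le_rfl) G)
  rw [zero_add] at h1
  have h2 := T.c0_card hC G
  rw [h1] at h2
  unfold pr
  rw [le_div_iff₀ (t9_card_pos T _)]
  refine h2.trans (le_of_eq ?_)
  unfold Rc
  congr!

/-! ### atoms -/

omit [D.LocallyFinite] in
theorem t16_pr_mono {G : Finset V} {P Q : (V → ℕ) → Prop} (h : ∀ ζ ∈ Rc D r G, P ζ → Q ζ) : pr D r G P ≤ pr D r G Q := by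
  unfold pr
  refine div_le_div_of_nonneg_right ?_ (Nat.cast_nonneg _)
  have h1 : ((Rc D r G).filter P).card ≤ ((Rc D r G).filter Q).card := by
    refine Finset.card_le_card (fun ζ hζ => ?_)
    rw [Finset.mem_filter] at hζ ⊢
    exact ⟨hζ.1, h ζ hζ.1 hζ.2⟩
  exact_mod_cast h1

omit [D.LocallyFinite] in
theorem t16_pr_nonneg {G : Finset V} {P : (V → ℕ) → Prop} : 0 ≤ pr D r G P :=
  div_nonneg (Nat.cast_nonneg _) (Nat.cast_nonneg _)

theorem t16_pr_true (T : TS D r) {G : Finset V} {P : (V → ℕ) → Prop} (h : ∀ ζ ∈ Rc D r G, P ζ) : pr D r G P = 1 := by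
  unfold pr
  rw [Finset.filter_true_of_mem h]
  exact div_self (t9_card_pos T _).ne'

/-- product formula for events -/
theorem t16_prod_pr (T : TS D r) {F : Finset (Set V)} (hF : T.Fo F) (G : Finset V) (P : Set V → (V → ℕ) → Prop) :
    pr D r (gp G F) (fun ζ => ∀ C ∈ F, P C (rs (gp G {C}) ζ)) = ∏ C ∈ F, pr D r (gp G {C}) (P C) := by
  have h1 := T.fo_prod hF G (fun C ζ => if P C ζ then (1 : ℝ) else 0)
  have h2 : ∀ C ∈ F, pr D r (gp G {C}) (P C) = ex D r (gp G {C}) (fun ζ => if P C ζ then (1 : ℝ) else 0) :=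
    fun C _ => t9_pr_eq _ _
  rw [Finset.prod_congr rfl h2, ← h1, t9_pr_eq]
  refine t9_ex_congr (fun ζ _ => ?_)
  rw [Finset.prod_ite_zero]
  simp only [Finset.prod_const_one]
  congr!

theorem t16_fi_eq (T : TS D r) {F : Finset (Set V)} (hF : T.Fo F) {C : Set V} (hC : C ∈ F) {z : V} (hz : z ∈ C) :
    T.fi F z = T.fi {C} z := by
  rw [T.fi_eq hF hC hz, T.fi_eq (T.fo_single (hF.cn C hC)) (Finset.mem_singleton_self C) hz]

/-- the cone `A` is calm -/
def t16_calm (T : TS D r) (G : Finset V) (A : Set V) (ξ : V → ℕ) : Prop := gw D r (T.fi {A}) (gp G {A}) ξ = ∅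

/-- a calm cone does not meet the wave -/
theorem t16_calm_notMem (T : TS D r) {F : Finset (Set V)} (hF : T.Fo F) {i : ℕ} {A : Set V} (hA : A ∈ T.de F i) {G : Finset V} {ζ : V → ℕ}
    (h : t16_calm T G A (rs (gp G {A}) ζ)) {z : V} (hz : z ∈ A) : z ∉ gw D r (T.fi F) (gp G F) ζ := by
  intro hzw
  have h1 := T.restart hF (g := T.fi F) (fun z _ => le_rfl) hA hzw hz
  unfold t16_calm at h
  rw [h] at h1
  exact absurd h1 (Finset.notMem_empty z)

/-- no first units -/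
theorem t16_fus_empty (T : TS D r) {F : Finset (Set V)} (hF : T.Fo F) {G : Finset V} {L : ℕ} {ζ : V → ℕ} (hζ : ζ ∈ Rc D r (gp G F))
    (h : ∀ j, ∀ A ∈ T.de F j, T.sp A → ∃ z ∈ T.Q A, z ∉ gw D r (T.fi F) (gp G F) ζ) : T.fus F (T.fi F) G L ζ = ∅ := by
  rw [Finset.eq_empty_iff_forall_notMem]
  intro A hA
  unfold TS.fus at hA
  rw [Finset.mem_biUnion] at hA
  obtain ⟨j, _, hA⟩ := hA
  rw [Finset.mem_filter] at hA
  obtain ⟨hAj, hs, hb, hm⟩ := hA
  obtain ⟨z, hz, hzw⟩ := h j A hAj hs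
  exact hzw (T.fb_sub hF (fun z _ => le_rfl) hAj hζ hm.1 hb z hz)

theorem t16_xv (T : TS D r) {F : Finset (Set V)} {g : V → ℕ} {G : Finset V} {L : ℕ} {ζ : V → ℕ}
    (h : T.fus F g G L ζ = ∅) : T.xv F g G L ζ = (gw D r g (gp G F) ζ).card := by
  unfold TS.xv
  rw [h]
  congr 1
  refine Finset.filter_true_of_mem (fun z _ A hA => ?_)
  exact absurd hA (Finset.notMem_empty A)

omit [D.LocallyFinite] in
theorem t16_gw_fs {F : Finset (Set V)} {g : V → ℕ} {G : Finset V} {ζ : V → ℕ} {z : V} (hz : z ∈ gw D r g (gp G F) ζ) : z ∈ fs F :=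
  (TS.mem_gp.1 (gw_sub _ _ _ hz)).2

/-- TARGET. atom 0: all cones of `F` calm: nothing topples -/
theorem TS.atom0 (T : TS D r) {F : Finset (Set V)} (hF : T.Fo F) (L : ℕ) (G : Finset V) :
    T.c0 ^ F.card ≤ pr D r (gp G F) (fun ζ => T.fus F (T.fi F) G L ζ = ∅ ∧ T.xv F (T.fi F) G L ζ = 0) := by
  have h1 : T.c0 ^ F.card ≤ ∏ C ∈ F, pr D r (gp G {C}) (t16_calm T G C) := by
    rw [← Finset.prod_const]
    exact Finset.prod_le_prod (fun _ _ => T.c0_pos.le) (fun C hC => T.calm_pr (hF.cn C hC) G)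
  rw [← t16_prod_pr T hF] at h1
  refine h1.trans (t16_pr_mono (fun ζ hζ h => ?_))
  have hgw : gw D r (T.fi F) (gp G F) ζ = ∅ := by
    rw [Finset.eq_empty_iff_forall_notMem]
    intro z hz
    obtain ⟨C, hC, hzC⟩ := t16_gw_fs hz
    exact t16_calm_notMem T hF (i := 0) (by rwa [T.de_zero]) (h C hC) hzC hz
  have hfus : T.fus F (T.fi F) G L ζ = ∅ := by
    refine t16_fus_empty T hF hζ (fun j A hA _ => ?_)
    obtain ⟨z, hz⟩ := T.Q_ne (T.t5b_cn hF hA)
    exact ⟨z, hz, by rw [hgw]; exact Finset.notMem_empty z⟩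
  refine ⟨hfus, ?_⟩
  rw [t16_xv T hfus, hgw, Finset.card_empty]

/-- TARGET. atom 1: exactly one vertex topples. Let `C ∈ F` and `z0` from `exists_z0` (so `z0 ∈ Q C`); `Z = up F 2`, `F' = de F 2` (all neighbours of `z0` in `fs F` are in `Z`). `χ z0 = r` and `χ y = r - fi F y - 1[y ~ z0]` for `y ∈ Z`, `y ≠ z0`. Every finite nonempty `X ⊆ fs F \ {z0}` has a vertex `y` with a neighbour in
`fs F \ {z0}` not in `X` (`exists_z0` for `X ∩ C`, `nf_cone` for the other cones). With `X = {y}` this gives `χ y ≥ 1`. `χ ∈ Rc Z`: if `z0 ∈ X`, `dg z0 X < r` (`z0` has a neighbour in `o C`); otherwise `dg y X ≤ r - fi F y - 1[y ~ z0] - 1 < χ y` for that `y`.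
Use `pat_strong`; the full wave is exactly `{z0}` (`gw_eq`). No piece `Q A` is full and reached (`fb_sub`, `2 ≤ |Q A|`: field `Q_two`), so `fus = ∅`, `xv = 1`. -/
theorem TS.atom1 (T : TS D r) {F : Finset (Set V)} (hF : T.Fo F) (hne : F.Nonempty) : ∃ c : ℝ, 0 < c ∧ ∀ L : ℕ, ∀ᶠ G in (atTop : Filter (Finset V)),
    c ≤ pr D r (gp G F) (fun ζ => T.fus F (T.fi F) G L ζ = ∅ ∧ T.xv F (T.fi F) G L ζ = 1) := by
  obtain ⟨C, hC⟩ := hne
  have hCc := hF.cn C hC
  obtain ⟨z0, hz0C, ⟨x0, hx0, hxz⟩, hNF⟩ := T.exists_z0 hCc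
  have hx0C : x0 ∉ C := T.o_notMem hCc hx0
  have hz0Q : z0 ∈ T.Q C := (T.ib_sub hCc hz0C hx0C hxz.symm).1
  have hz0F : z0 ∈ fs F := ⟨C, hC, hz0C⟩
  have hx0F : x0 ∈ T.fo F := T.t5b_mem_fo.2 ⟨C, hC, hx0⟩
  have hC0 : C ∈ T.de F 0 := by rwa [T.de_zero]
  have hz0Z : z0 ∈ T.up F 2 := T.t5c_mem_up.2 ⟨0, by norm_num, C, hC0, hz0Q⟩
  have hnb : ∀ y ∈ fs F, D.Adj y z0 → y ∈ T.up F 2 := by
    intro y hy hyz
    have hyC : y ∈ C := by
      rcases T.nbr_fo hF hC hz0C hyz.symm with h | h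
      · exact h
      · exact absurd hy (T.t5b_fo_notMem hF (T.t5b_mem_fo.2 ⟨C, hC, h⟩))
    rcases (T.mem_iff hCc y).1 hyC with h | ⟨C', hC', h⟩
    · exact T.t5c_mem_up.2 ⟨0, by norm_num, C, hC0, h⟩
    · have hC'c := T.ch_cn hCc C' hC'
      have hzC' : z0 ∉ C' := T.Q_notMem hCc C' hC' z0 hz0Q
      refine T.t5c_mem_up.2 ⟨1, by norm_num, C', ?_, (T.ib_sub hC'c h hzC' hyz).1⟩
      rw [T.de_succ, T.de_zero]
      exact Finset.mem_biUnion.2 ⟨C, hC, hC'⟩
  have hkey : ∀ X : Finset V, X.Nonempty → (∀ z ∈ X, z ∈ fs F ∧ z ≠ z0) →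
      ∃ y ∈ X, ∃ b, D.Adj y b ∧ b ∈ fs F ∧ b ≠ z0 ∧ b ∉ X := by
    intro X hXne hX
    obtain ⟨x, hx⟩ := hXne
    obtain ⟨C1, hC1, hxC1⟩ := (hX x hx).1
    by_cases h : C1 = C
    · subst h
      obtain ⟨y, hy, b, hyb, hb, hbX⟩ := hNF (X.filter (fun z => z ∈ C1)) ⟨x, Finset.mem_filter.2 ⟨hx, hxC1⟩⟩
        (fun z hz => ⟨(Finset.mem_filter.1 hz).2, (hX z (Finset.mem_filter.1 hz).1).2⟩)
      refine ⟨y, (Finset.mem_filter.1 hy).1, b, hyb, ⟨C1, hC1, hb.1⟩, hb.2, fun hbX' => ?_⟩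
      exact hbX (Finset.mem_filter.2 ⟨hbX', hb.1⟩)
    · obtain ⟨y, hy, b, hyb, hb, hbX⟩ := T.nf_cone (hF.cn C1 hC1) (X.filter (fun z => z ∈ C1)) ⟨x, Finset.mem_filter.2 ⟨hx, hxC1⟩⟩
        (fun z hz => (Finset.mem_filter.1 hz).2)
      refine ⟨y, (Finset.mem_filter.1 hy).1, b, hyb, ⟨C1, hC1, hb⟩, fun hbz => ?_, fun hbX' => ?_⟩
      · subst hbz
        exact Set.disjoint_left.1 (hF.disj C1 hC1 C hC h) hb hz0C
      · exact hbX (Finset.mem_filter.2 ⟨hbX', hb⟩)
  have hdeg : ∀ y, ∀ X : Finset V, (∀ x ∈ X, x ∈ fs F ∧ x ≠ z0) → (∃ b, D.Adj y b ∧ b ∈ fs F ∧ b ≠ z0 ∧ b ∉ X) →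
      dg D y X + T.fi F y + (if D.Adj y z0 then 1 else 0) + 1 ≤ r := by
    intro y X hX hb
    obtain ⟨b, hyb, hbF, hbz, hbX⟩ := hb
    have hd : Disjoint X (T.fo F) := by
      rw [Finset.disjoint_left]
      intro x hx hx'
      exact T.t5b_fo_notMem hF hx' (hX x hx).1
    have h0 : z0 ∉ X ∪ T.fo F := by
      intro h
      rcases Finset.mem_union.1 h with h | h
      · exact (hX z0 h).2 rfl
      · exact T.t5b_fo_notMem hF h hz0F
    have h1 : b ∉ insert z0 (X ∪ T.fo F) := by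
      intro h
      rcases Finset.mem_insert.1 h with h | h
      · exact hbz h
      · rcases Finset.mem_union.1 h with h | h
        · exact hbX h
        · exact T.t5b_fo_notMem hF h hbF
    have h2 := T.gd.degLe y (insert b (insert z0 (X ∪ T.fo F)))
    rw [dg_insert h1, dg_insert h0, dg_union hd, if_pos hyb] at h2
    have h3 : T.fi F y = dg D y (T.fo F) := rfl
    rw [h3]
    omega
  obtain ⟨χ, hχd⟩ : ∃ χ : V → ℕ, χ = fun z => if z ∈ T.up F 2 then (if z = z0 then r else r - T.fi F z - (if D.Adj z z0 then 1 else 0)) else 0 := ⟨_, rfl⟩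
  have hχ0 : χ z0 = r := by rw [hχd]; simp [hz0Z]
  have hχ1 : ∀ y ∈ T.up F 2, y ≠ z0 → χ y = r - T.fi F y - (if D.Adj y z0 then 1 else 0) := by
    intro y hy hyz
    rw [hχd]
    simp [hy, hyz]
  have hupF : ∀ z ∈ T.up F 2, z ∈ fs F := fun z hz => (T.mem_fs_iff hF 2 z).2 (Or.inl hz)
  have hχ : χ ∈ Rc D r (T.up F 2) := by
    rw [mem_Rc]
    refine ⟨⟨fun y hy => ?_, fun y hy => by rw [hχd]; simp [hy]⟩, fun X hX hXne => ?_⟩
    · by_cases hyz : y = z0
      · rw [hyz, hχ0]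
        exact ⟨T.gd.one_le, le_rfl⟩
      · rw [hχ1 y hy hyz]
        obtain ⟨w, hw, b, hb⟩ := hkey {y} ⟨y, Finset.mem_singleton_self y⟩ (fun z hz => by
          rw [Finset.mem_singleton.1 hz]
          exact ⟨hupF y hy, hyz⟩)
        rw [Finset.mem_singleton] at hw
        subst hw
        have h1 := hdeg w ∅ (fun x hx => absurd hx (Finset.notMem_empty x)) ⟨b, hb.1, hb.2.1, hb.2.2.1, Finset.notMem_empty b⟩
        omega
    · by_cases hzX : z0 ∈ X
      · refine ⟨z0, hzX, ?_⟩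
        have hx0X : x0 ∉ X := fun h => T.t5b_fo_notMem hF hx0F (hupF x0 (hX h))
        have h1 := T.gd.degLe z0 (insert x0 X)
        rw [dg_insert hx0X, if_pos hxz.symm] at h1
        rw [hχ0]
        simp only [Pi.zero_apply]
        omega
      · obtain ⟨y, hy, hb⟩ := hkey X hXne (fun z hz => ⟨hupF z (hX hz), fun h => hzX (h ▸ hz)⟩)
        refine ⟨y, hy, ?_⟩
        have h1 := hdeg y X (fun z hz => ⟨hupF z (hX hz), fun h => hzX (h ▸ hz)⟩) hb
        rw [hχ1 y (hX hy) (fun h => hzX (h ▸ hy))]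
        simp only [Pi.zero_apply]
        omega
  have hF' : T.Fo (T.de F 2) := TS.Fo.de T hF 2
  refine ⟨T.c0 ^ (T.de F 2).card / (r : ℝ) ^ (T.up F 2).card, div_pos (pow_pos T.c0_pos _) (pow_pos (t16_rpos T) _), fun L => ?_⟩
  filter_upwards [eventually_ge_atTop (T.up F 2)] with G hG
  refine (T.pat_strong hF hF' (fun z => T.mem_fs_iff hF 2 z) (fun z hz => T.up_disj hF hz) hχ hG).trans (t16_pr_mono (fun ζ hζ h => ?_))
  have hζr : ∀ z ∈ gp G F, ζ z ≤ r := fun z hz => ((mem_Rc.1 hζ).1.1 z hz).2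
  have hgw : gw D r (T.fi F) (gp G F) ζ = {z0} := by
    refine gw_eq ⟨?_, fun y hy hyz => ?_⟩ (fun X hX hXne => ?_)
    · rw [Finset.singleton_subset_iff]
      exact TS.mem_gp.2 ⟨hG hz0Z, hz0F⟩
    · rw [Finset.mem_singleton] at hyz
      rw [dg_singleton]
      by_cases hyZ : y ∈ T.up F 2
      · rw [h y hyZ, hχ1 y hyZ hyz]
        obtain ⟨w, hw, b, hb⟩ := hkey {y} ⟨y, Finset.mem_singleton_self y⟩ (fun z hz => by
          rw [Finset.mem_singleton.1 hz]
          exact ⟨hupF y hyZ, hyz⟩)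
        rw [Finset.mem_singleton] at hw
        subst hw
        have h1 := hdeg w ∅ (fun x hx => absurd hx (Finset.notMem_empty x)) ⟨b, hb.1, hb.2.1, hb.2.2.1, Finset.notMem_empty b⟩
        omega
      · have h1 : ¬ D.Adj y z0 := fun hadj => hyZ (hnb y (TS.mem_gp.1 hy).2 hadj)
        have h2 : y ∈ fs (T.de F 2) := ((T.mem_fs_iff hF 2 y).1 (TS.mem_gp.1 hy).2).resolve_left hyZ
        rw [T.fi_zero hF (by norm_num) h2, if_neg h1]
        have := hζr y hy
        omega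
    · have hX0 : X = {z0} := by
        rcases Finset.subset_singleton_iff.1 hX with h1 | h1
        · exact absurd h1 hXne.ne_empty
        · exact h1
      refine ⟨z0, by rw [hX0]; exact Finset.mem_singleton_self z0, ?_⟩
      rw [h z0 hz0Z, hχ0]
      have h2 : 0 < T.fi F z0 := TS.t5b_dg_pos hx0F hxz.symm
      omega
  have hfus : T.fus F (T.fi F) G L ζ = ∅ := by
    refine t16_fus_empty T hF hζ (fun j A hA _ => ?_)
    have h2 := T.Q_two (T.t5b_cn hF hA)
    obtain ⟨z, hz, hzz⟩ := Finset.exists_mem_ne (show 1 < (T.Q A).card by omega) z0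
    refine ⟨z, hz, ?_⟩
    rw [hgw, Finset.mem_singleton]
    exact hzz
  refine ⟨hfus, ?_⟩
  rw [t16_xv T hfus, hgw, Finset.card_singleton]

theorem t16_de_ne (T : TS D r) {F : Finset (Set V)} (hF : T.Fo F) (hne : F.Nonempty) (l : ℕ) : (T.de F l).Nonempty := by
  induction l with
  | zero => rwa [T.de_zero]
  | succ l ih =>
    obtain ⟨A, hA⟩ := ih
    have h2 := T.two (T.t5b_cn hF hA)
    obtain ⟨B, hB⟩ : (T.ch A).Nonempty := by
      rw [← Finset.card_pos]
      omega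
    refine ⟨B, ?_⟩
    rw [T.de_succ]
    exact Finset.mem_biUnion.2 ⟨A, hA, hB⟩

theorem t16_le_card (T : TS D r) {F : Finset (Set V)} (hF : T.Fo F) (hne : F.Nonempty) (l : ℕ) : l ≤ (T.up F l).card := by
  induction l with
  | zero => exact Nat.zero_le _
  | succ l ih =>
    obtain ⟨A, hA⟩ := t16_de_ne T hF hne l
    obtain ⟨z, hz⟩ := T.Q_ne (T.t5b_cn hF hA)
    have h1 : z ∈ T.up F (l + 1) := T.t5c_mem_up.2 ⟨l, Nat.lt_succ_self l, A, hA, hz⟩
    have h2 : z ∉ T.up F l := fun h => T.up_disj hF h ⟨A, hA, T.Q_sub (T.t5b_cn hF hA) hz⟩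
    have h3 : (T.up F l).card < (T.up F (l + 1)).card :=
      Finset.card_lt_card ⟨T.up_mono F (Nat.le_succ l), fun hs => h2 (hs h1)⟩
    omega

/-- TARGET. atoms 2 and 3: let `l` be minimal such that `de F l` contains a special cone `U1` (`sp_desc`). `pat_top`: all heights `r` on `up F l`; in case 2 all cones of `de F l` are calm: `fus = ∅`, `xv = |up F l|`; in case 3 all cones of `de F l` except `U1` are calm and `U1` is a full piece
(probability `≥ r^(-m)` by `pat_top` for `{U1}` and `l = 1`): `fus = {U1}`, `xv = |up F l|`. `L > l`. (`fo_prod` for the probabilities of the product events.) -/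
theorem TS.atom2 (T : TS D r) {F : Finset (Set V)} (hF : T.Fo F) (hne : F.Nonempty) : ∃ (c : ℝ) (l x : ℕ), 0 < c ∧ l ≤ x ∧ ∀ L : ℕ, l < L → ∀ᶠ G in (atTop : Filter (Finset V)),
    c ≤ pr D r (gp G F) (fun ζ => T.fus F (T.fi F) G L ζ = ∅ ∧ T.xv F (T.fi F) G L ζ = x) ∧
    c ≤ pr D r (gp G F) (fun ζ => (T.fus F (T.fi F) G L ζ).card = 1 ∧ T.xv F (T.fi F) G L ζ = x) := by
  have hex : ∃ l, ∃ U ∈ T.de F l, T.sp U := by
    obtain ⟨C, hC⟩ := hne
    obtain ⟨j, _, U, hU, hs⟩ := T.sp_desc (hF.cn C hC)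
    refine ⟨j, U, ?_, hs⟩
    have h1 := T.de_trans (F := F) (i := 0) (k := j) (A := C) (by rwa [T.de_zero]) hU
    rwa [Nat.zero_add] at h1
  obtain ⟨l, ⟨U1, hU1, hs1⟩, hmin⟩ : ∃ l, (∃ U ∈ T.de F l, T.sp U) ∧ ∀ k, (∃ U ∈ T.de F k, T.sp U) → l ≤ k :=
    ⟨Nat.find hex, Nat.find_spec hex, fun k hk => Nat.find_min' hex hk⟩
  have hB : T.Fo (T.de F l) := TS.Fo.de T hF l
  have hU1c : T.Cn U1 := hB.cn U1 hU1
  have hr := t16_rpos T
  have hr1 : (1 : ℝ) ≤ r := by exact_mod_cast T.gd.one_le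
  have hrQ : (1 : ℝ) ≤ (r : ℝ) ^ (T.Q U1).card := one_le_pow₀ hr1
  have hrQ0 : (0 : ℝ) < (r : ℝ) ^ (T.Q U1).card := by positivity
  obtain ⟨c', hc'⟩ : ∃ c' : ℝ, c' = T.c0 / (r : ℝ) ^ (T.Q U1).card := ⟨_, rfl⟩
  have hc'0 : 0 < c' := by rw [hc']; exact div_pos T.c0_pos hrQ0
  have hc'1 : c' ≤ T.c0 := by
    rw [hc']
    exact div_le_self T.c0_pos.le hrQ
  have hc'2 : c' ≤ ((r : ℝ) ^ (T.Q U1).card)⁻¹ := by
    rw [hc', div_eq_mul_inv]
    exact mul_le_of_le_one_left (inv_nonneg.2 hrQ0.le) T.c0_le_one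
  refine ⟨c' ^ (T.de F l).card / (r : ℝ) ^ (T.up F l).card, l, (T.up F l).card, div_pos (pow_pos hc'0 _) (pow_pos hr _), t16_le_card T hF hne l, fun L hL => ?_⟩
  filter_upwards [eventually_ge_atTop (T.up F l), eventually_ge_atTop (T.Q U1)] with G hG hGQ
  have hrs : ∀ A ∈ T.de F l, ∀ ζ : V → ℕ, rs (gp G {A}) (rs (gp G (T.de F l)) ζ) = rs (gp G {A}) ζ :=
    fun A hA ζ => t7_rs_rs (t7_gp_sub hA) ζ
  have hnA : ∀ ζ : V → ℕ, ∀ z, z ∈ gw D r (T.fi F) (gp G F) ζ → z ∈ T.up F l ∨ ∃ A ∈ T.de F l, z ∈ A := by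
    intro ζ z hz
    exact (T.mem_fs_iff hF l z).1 (t16_gw_fs hz)
  have hupG : T.up F l ⊆ gp G F := fun z hz => TS.mem_gp.2 ⟨hG hz, (T.mem_fs_iff hF l z).2 (Or.inl hz)⟩
  have hanc : ∀ j, ∀ A ∈ T.de F j, T.sp A → ∃ k, j = l + k ∧ ∃ A' ∈ T.de F l, A ∈ T.de {A'} k := by
    intro j A hA hs
    obtain ⟨k, rfl⟩ := Nat.exists_eq_add_of_le (hmin j ⟨A, hA, hs⟩)
    exact ⟨k, rfl, T.ancestor hA⟩
  constructor
  · have h1 : c' ^ (T.de F l).card ≤ pr D r (gp G (T.de F l)) (fun ζ => ∀ A ∈ T.de F l, t16_calm T G A (rs (gp G {A}) ζ)) := by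
      rw [t16_prod_pr T hB, ← Finset.prod_const]
      exact Finset.prod_le_prod (fun _ _ => hc'0.le) (fun A hA => hc'1.trans (T.calm_pr (hB.cn A hA) G))
    refine (div_le_div_of_nonneg_right h1 (pow_nonneg hr.le _)).trans ((T.pat_top hF l hG _).trans (t16_pr_mono (fun ζ hζ h => ?_)))
    obtain ⟨h2, h3⟩ := h
    have hgw : gw D r (T.fi F) (gp G F) ζ = T.up F l := by
      ext z
      constructor
      · intro hz
        rcases hnA ζ z hz with h4 | ⟨A, hA, hzA⟩
        · exact h4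
        · exfalso
          have h5 := h3 A hA
          rw [hrs A hA] at h5
          exact t16_calm_notMem T hF hA h5 hzA hz
      · exact t16_top T hF l hupG h2 z
    have hfus : T.fus F (T.fi F) G L ζ = ∅ := by
      refine t16_fus_empty T hF hζ (fun j A hA hs => ?_)
      obtain ⟨z, hz⟩ := T.Q_ne (T.t5b_cn hF hA)
      refine ⟨z, hz, ?_⟩
      rw [hgw]
      intro hzu
      obtain ⟨k, _, A', hA', hAA'⟩ := hanc j A hA hs
      exact T.up_disj hF hzu ⟨A', hA', T.de_single_sub (hB.cn A' hA') hAA' (T.Q_sub (T.t5b_cn hF hA) hz)⟩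
    refine ⟨hfus, ?_⟩
    rw [t16_xv T hfus, hgw]
  · obtain ⟨P, hPd⟩ : ∃ P : Set V → (V → ℕ) → Prop, P = fun A ξ => if A = U1 then (∀ z ∈ T.Q U1, ξ z = r) else t16_calm T G A ξ := ⟨_, rfl⟩
    have hP1 : ∀ ξ, P U1 ξ ↔ ∀ z ∈ T.Q U1, ξ z = r := fun ξ => by rw [hPd]; simp
    have hP2 : ∀ A, A ≠ U1 → ∀ ξ, P A ξ ↔ t16_calm T G A ξ := fun A hA ξ => by rw [hPd]; simp [hA]
    have hup1 : T.up {U1} 1 = T.Q U1 := by
      ext z
      rw [T.t5c_mem_up]
      constructor
      · rintro ⟨k, hk, A, hA, hz⟩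
        have hk0 : k = 0 := by omega
        subst hk0
        rw [T.de_zero, Finset.mem_singleton] at hA
        rwa [hA] at hz
      · intro hz
        exact ⟨0, Nat.zero_lt_one, U1, by rw [T.de_zero]; exact Finset.mem_singleton_self U1, hz⟩
    have hpU : c' ≤ pr D r (gp G {U1}) (P U1) := by
      have h1 := T.pat_top (T.fo_single hU1c) 1 (G := G) (by rw [hup1]; exact hGQ) (fun _ => True)
      have h2 : pr D r (gp G (T.de {U1} 1)) (fun _ => True) = 1 := t16_pr_true T (fun _ _ => trivial)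
      rw [h2, hup1, one_div] at h1
      refine hc'2.trans (h1.trans (t16_pr_mono (fun ζ _ h => ?_)))
      exact (hP1 ζ).2 h.1
    have h1 : c' ^ (T.de F l).card ≤ pr D r (gp G (T.de F l)) (fun ζ => ∀ A ∈ T.de F l, P A (rs (gp G {A}) ζ)) := by
      rw [t16_prod_pr T hB, ← Finset.prod_const]
      refine Finset.prod_le_prod (fun _ _ => hc'0.le) (fun A hA => ?_)
      by_cases hAU : A = U1
      · rw [hAU]
        exact hpU
      · refine (hc'1.trans (T.calm_pr (hB.cn A hA) G)).trans (t16_pr_mono (fun ζ _ h => ?_))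
        exact (hP2 A hAU ζ).2 h
    refine (div_le_div_of_nonneg_right h1 (pow_nonneg hr.le _)).trans ((T.pat_top hF l hG _).trans (t16_pr_mono (fun ζ hζ h => ?_)))
    obtain ⟨h2, h3⟩ := h
    have hfb : T.fb ζ U1 := by
      intro z hz
      have h4 := h3 U1 hU1
      rw [hrs U1 hU1] at h4
      have h5 := (hP1 _).1 h4 z hz
      rwa [rs_mem] at h5
      exact TS.mem_gp.2 ⟨hGQ hz, ⟨U1, Finset.mem_singleton_self U1, T.Q_sub hU1c hz⟩⟩
    have hcalm : ∀ A ∈ T.de F l, A ≠ U1 → ∀ z ∈ A, z ∉ gw D r (T.fi F) (gp G F) ζ := by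
      intro A hA hAU z hz
      have h4 := h3 A hA
      rw [hrs A hA] at h4
      exact t16_calm_notMem T hF hA ((hP2 A hAU _).1 h4) hz
    have htop := t16_top T hF l hupG h2
    have hrch : rch D (T.fi F) (gw D r (T.fi F) (gp G F) ζ) U1 := by
      obtain ⟨x, hx⟩ := T.o_ne hU1c
      obtain ⟨y, hy, hxy⟩ := T.o_edge hU1c hx
      refine ⟨y, T.Q_sub hU1c hy, ?_⟩
      rcases Nat.eq_zero_or_pos l with h0 | h0
      · left
        rw [h0, T.de_zero] at hU1
        exact TS.t5b_dg_pos (T.t5b_mem_fo.2 ⟨U1, hU1, hx⟩) hxy.symm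
      · right
        obtain ⟨k, rfl⟩ := Nat.exists_eq_add_of_lt h0
        rw [Nat.zero_add] at hU1 htop
        obtain ⟨B, hB', hAB, hoB⟩ := T.o_parent hF hU1
        refine ⟨x, htop x ?_, T.o_notMem hU1c hx, hxy⟩
        exact T.t5c_mem_up.2 ⟨k, Nat.lt_succ_self k, B, hB', hoB hx⟩
    have hnab : T.nab T.sp F ζ U1 := by
      intro i B hBi hsB hUB _
      have h4 := T.lt_of_ssub hF hBi hU1 hUB
      have h5 := hmin i ⟨B, hBi, hsB⟩
      omega
    have hfus : T.fus F (T.fi F) G L ζ = {U1} := by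
      ext A
      rw [Finset.mem_singleton]
      unfold TS.fus
      rw [Finset.mem_biUnion]
      constructor
      · rintro ⟨j, _, hA⟩
        rw [Finset.mem_filter] at hA
        obtain ⟨hAj, hsA, hbA, hmA⟩ := hA
        obtain ⟨k, hjk, A', hA', hAA'⟩ := hanc j A hAj hsA
        have hAc := T.t5b_cn hF hAj
        obtain ⟨z, hz⟩ := T.Q_ne hAc
        have hzw := T.fb_sub hF (fun z _ => le_rfl) hAj hζ hmA.1 hbA z hz
        have hA'c := hB.cn A' hA'
        have hA'U : A' = U1 := by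
          by_contra hne'
          exact hcalm A' hA' hne' z (T.de_single_sub hA'c hAA' (T.Q_sub hAc hz)) hzw
        subst hA'U
        rcases Nat.eq_zero_or_pos k with hk | hk
        · subst hk
          rw [T.de_zero, Finset.mem_singleton] at hAA'
          exact hAA'
        · exact absurd hfb (hmA.2 l A' hA' hs1 (T.de_ssub hA'c hk hAA'))
      · intro hA
        subst hA
        exact ⟨l, Finset.mem_range.2 hL, Finset.mem_filter.2 ⟨hU1, hs1, hfb, hrch, hnab⟩⟩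
    refine ⟨by rw [hfus, Finset.card_singleton], ?_⟩
    unfold TS.xv
    rw [hfus]
    congr 1
    ext z
    rw [Finset.mem_filter]
    constructor
    · rintro ⟨hz, hzU⟩
      rcases hnA ζ z hz with h4 | ⟨A, hA, hzA⟩
      · exact h4
      · exfalso
        by_cases hAU : A = U1
        · exact hzU A (by rw [hAU]; exact Finset.mem_singleton_self U1) hzA
        · exact hcalm A hA hAU z hzA hz
    · intro hz
      refine ⟨htop z hz, fun A hA hzA => ?_⟩
      rw [Finset.mem_singleton] at hA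
      subst hA
      exact T.up_disj hF hz ⟨A, hU1, hzA⟩

end Pool.Agent.Helper910.QT
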