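import Mathlib
import Pool.Agent.Helper910.T16
import Pool.Agent.Helper910.N4

/-! The limiting law of a wave below a unit, and one-wave bounds (MP_4555f0_mp) -/

namespace Pool.Agent.Helper910.QT

open Classical Finset Filter Topology

variable {V : Type*} {D : SimpleGraph V} [D.LocallyFinite] {r : ℕ}

/-- limiting law of the size of a unit and of everything below it -/
noncomputable def TS.yl (T : TS D r) (U : Set V) (n : ℕ) : ℝ :=
  T.lm (T.ch U) (fun G ζ => if (T.Q U).card + (gw D r (T.fi (T.ch U)) (gp G (T.ch U)) ζ).card = n then 1 else 0)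

/-- limiting joint law of the mass at a unit and of the number of first units below it -/
noncomputable def TS.ph (T : TS D r) (U : Set V) (a k : ℕ) : ℝ :=
  T.lm (T.ch U) (fun G ζ => if (T.fus (T.ch U) (T.fi (T.ch U)) G (a + 1) ζ).card = k ∧ (T.Q U).card + T.xv (T.ch U) (T.fi (T.ch U)) G (a + 1) ζ = a then 1 else 0)

/-! ### generalities -/

/-- indicator of a proposition -/
noncomputable def t17_i (p : Prop) : ℝ := if p then 1 else 0

theorem t17_i_true {p : Prop} (h : p) : t17_i p = 1 := if_pos h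

theorem t17_i_false {p : Prop} (h : ¬ p) : t17_i p = 0 := if_neg h

theorem t17_i_nonneg (p : Prop) : 0 ≤ t17_i p := by
  unfold t17_i
  split_ifs <;> norm_num

theorem t17_i_le_one (p : Prop) : t17_i p ≤ 1 := by
  unfold t17_i
  split_ifs <;> norm_num

theorem t17_i_congr {p q : Prop} (h : p ↔ q) : t17_i p = t17_i q := by rw [propext h]

/-- sum over the possible values -/
theorem t17_i_sum {ι : Type*} (s : Finset ι) (a : ι) (w : ι → ℝ) :
    ∑ i ∈ s, w i * t17_i (a = i) = if a ∈ s then w a else 0 := by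
  split_ifs with h
  · rw [Finset.sum_eq_single_of_mem a h]
    · rw [t17_i_true rfl, mul_one]
    · intro b _ hb
      rw [t17_i_false (fun h => hb h.symm), mul_zero]
  · refine Finset.sum_eq_zero (fun i hi => ?_)
    rw [t17_i_false (fun h' : a = i => h (by rw [h']; exact hi)), mul_zero]

omit [D.LocallyFinite] in
theorem t17_pr_nonneg {G : Finset V} {P : (V → ℕ) → Prop} : 0 ≤ pr D r G P := by
  unfold pr
  positivity

omit [D.LocallyFinite] in
theorem t17_pr_le_one {G : Finset V} {P : (V → ℕ) → Prop} : pr D r G P ≤ 1 := by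
  unfold pr
  refine div_le_one_of_le₀ ?_ (Nat.cast_nonneg _)
  exact_mod_cast Finset.card_filter_le _ _

omit [D.LocallyFinite] in
theorem t17_pr_congr {G : Finset V} {P Q : (V → ℕ) → Prop} (h : ∀ ζ ∈ Rc D r G, P ζ ↔ Q ζ) : pr D r G P = pr D r G Q := by
  unfold pr
  rw [Finset.filter_congr h]

omit [D.LocallyFinite] in
theorem t17_pr_zero {G : Finset V} {P : (V → ℕ) → Prop} (h : ∀ ζ ∈ Rc D r G, ¬ P ζ) : pr D r G P = 0 := by
  unfold pr
  rw [Finset.filter_false_of_mem h]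
  simp

omit [D.LocallyFinite] in
theorem t17_pr_eq {G : Finset V} {P : (V → ℕ) → Prop} : pr D r G P = ex D r G (fun ζ => t17_i (P ζ)) := by
  unfold pr ex t17_i
  rw [Finset.sum_ite, Finset.sum_const_zero, add_zero, Finset.sum_const, nsmul_eq_mul, mul_one]

omit [D.LocallyFinite] in
theorem t17_ex_congr {G : Finset V} {f f' : (V → ℕ) → ℝ} (h : ∀ ζ ∈ Rc D r G, f ζ = f' ζ) : ex D r G f = ex D r G f' := by
  unfold ex
  rw [Finset.sum_congr rfl h]

omit [D.LocallyFinite] in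
theorem t17_ex_mono {G : Finset V} {f f' : (V → ℕ) → ℝ} (h : ∀ ζ ∈ Rc D r G, f ζ ≤ f' ζ) : ex D r G f ≤ ex D r G f' := by
  unfold ex
  exact div_le_div_of_nonneg_right (Finset.sum_le_sum h) (by positivity)

omit [D.LocallyFinite] in
theorem t17_ex_add {G : Finset V} {f f' : (V → ℕ) → ℝ} : ex D r G (fun ζ => f ζ + f' ζ) = ex D r G f + ex D r G f' := by
  unfold ex
  rw [Finset.sum_add_distrib, add_div]

omit [D.LocallyFinite] in
theorem t17_ex_mul {G : Finset V} {f : (V → ℕ) → ℝ} {c : ℝ} : ex D r G (fun ζ => c * f ζ) = c * ex D r G f := by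
  unfold ex
  rw [← Finset.mul_sum, mul_div_assoc]

omit [D.LocallyFinite] in
theorem t17_ex_sum {G : Finset V} {ι : Type*} (s : Finset ι) (f : ι → (V → ℕ) → ℝ) :
    ex D r G (fun ζ => ∑ i ∈ s, f i ζ) = ∑ i ∈ s, ex D r G (f i) := by
  unfold ex
  rw [Finset.sum_comm, Finset.sum_div]

theorem TS.t17_fi (T : TS D r) (F : Finset (Set V)) : ∀ z ∈ fs F, T.fi F z ≤ T.fi F z := fun _ _ => le_rfl

/-- limits of the probabilities of events determined by the first units -/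
noncomputable def TS.t17_jp (T : TS D r) (F : Finset (Set V)) (g : V → ℕ) (L : ℕ) (P : Finset (Set V) → ℕ → Prop) : ℝ :=
  T.lm F (fun G ζ => t17_i (P (T.fus F g G L ζ) (T.xv F g G L ζ)))

theorem TS.t17_lim (T : TS D r) {F : Finset (Set V)} (hF : T.Fo F) {g : V → ℕ} (hg : ∀ z ∈ fs F, g z ≤ T.fi F z) (L : ℕ)
    (P : Finset (Set V) → ℕ → Prop) :
    Tendsto (fun G : Finset V => pr D r (gp G F) (fun ζ => P (T.fus F g G L ζ) (T.xv F g G L ζ))) atTop (𝓝 (T.t17_jp F g L P)) := by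
  have h0 : T.QL F 1 (fun G ζ => t17_i (P (T.fus F g G L ζ) (T.xv F g G L ζ))) := T.ql_fus hF hg L P
  refine (T.tendsto_lm hF h0).congr (fun G => ?_)
  rw [t17_pr_eq]

theorem TS.t17_jp_nonneg (T : TS D r) {F : Finset (Set V)} (hF : T.Fo F) {g : V → ℕ} (hg : ∀ z ∈ fs F, g z ≤ T.fi F z) (L : ℕ)
    (P : Finset (Set V) → ℕ → Prop) : 0 ≤ T.t17_jp F g L P :=
  ge_of_tendsto' (T.t17_lim hF hg L P) (fun _ => t17_pr_nonneg)

theorem TS.t17_jp_eq (T : TS D r) {F : Finset (Set V)} (hF : T.Fo F) {g : V → ℕ} (hg : ∀ z ∈ fs F, g z ≤ T.fi F z) {L L' : ℕ}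
    {P P' : Finset (Set V) → ℕ → Prop}
    (h : ∀ (G : Finset V), ∀ ζ ∈ Rc D r (gp G F), P (T.fus F g G L ζ) (T.xv F g G L ζ) ↔ P' (T.fus F g G L' ζ) (T.xv F g G L' ζ)) :
    T.t17_jp F g L P = T.t17_jp F g L' P' := by
  refine tendsto_nhds_unique (T.t17_lim hF hg L P) ((T.t17_lim hF hg L' P').congr (fun G => ?_))
  exact (t17_pr_congr (h G)).symm

theorem TS.t17_jp_stab (T : TS D r) {F : Finset (Set V)} (hF : T.Fo F) {g : V → ℕ} (hg : ∀ z ∈ fs F, g z ≤ T.fi F z) {L L' : ℕ} (hLL : L ≤ L')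
    {P : Finset (Set V) → ℕ → Prop} (hP : ∀ U x, P U x → x < L) : T.t17_jp F g L' P = T.t17_jp F g L P := by
  refine T.t17_jp_eq hF hg (fun G ζ hζ => ?_)
  constructor
  · intro h
    obtain ⟨h1, h2⟩ := T.fus_stab hF hg G hLL hζ (Or.inr (hP _ _ h))
    rwa [h1, h2] at h
  · intro h
    obtain ⟨h1, h2⟩ := T.fus_stab hF hg G hLL hζ (Or.inl (hP _ _ h))
    rwa [h1, h2]

theorem TS.t17_jp_zero (T : TS D r) {F : Finset (Set V)} (hF : T.Fo F) {g : V → ℕ} (hg : ∀ z ∈ fs F, g z ≤ T.fi F z) {L : ℕ}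
    {P : Finset (Set V) → ℕ → Prop}
    (h : ∀ (G : Finset V), ∀ ζ ∈ Rc D r (gp G F), ¬ P (T.fus F g G L ζ) (T.xv F g G L ζ)) :
    T.t17_jp F g L P = 0 := by
  refine tendsto_nhds_unique (T.t17_lim hF hg L P) ?_
  have : (fun G : Finset V => pr D r (gp G F) (fun ζ => P (T.fus F g G L ζ) (T.xv F g G L ζ))) = fun _ => 0 := by
    funext G
    unfold pr
    rw [Finset.filter_false_of_mem (h G)]
    simp
  rw [this]
  exact tendsto_const_nhds

/-- limit of a finite combination -/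
theorem TS.t17_comb (T : TS D r) {F : Finset (Set V)} (hF : T.Fo F) {g : V → ℕ} (hg : ∀ z ∈ fs F, g z ≤ T.fi F z) (L : ℕ)
    {ι : Type*} (s : Finset ι) (c : ι → ℝ) (P : ι → Finset (Set V) → ℕ → Prop) :
    Tendsto (fun G : Finset V => ex D r (gp G F) (fun ζ => ∑ i ∈ s, c i * t17_i (P i (T.fus F g G L ζ) (T.xv F g G L ζ)))) atTop
      (𝓝 (∑ i ∈ s, c i * T.t17_jp F g L (P i))) := by
  have h : Tendsto (fun G : Finset V => ∑ i ∈ s, c i * pr D r (gp G F) (fun ζ => P i (T.fus F g G L ζ) (T.xv F g G L ζ))) atTop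
      (𝓝 (∑ i ∈ s, c i * T.t17_jp F g L (P i))) :=
    tendsto_finsetSum _ (fun i _ => (T.t17_lim hF hg L (P i)).const_mul (c i))
  refine h.congr (fun G => ?_)
  rw [t17_ex_sum]
  refine Finset.sum_congr rfl (fun i _ => ?_)
  rw [t17_pr_eq, t17_ex_mul]

/-! ### the law of the size of a unit -/

/-- the size of a wave -/
noncomputable def TS.t17_sz (T : TS D r) (F : Finset (Set V)) (g : V → ℕ) (P : ℕ → Prop) : ℝ :=
  T.lm F (fun G ζ => t17_i (P (gw D r g (gp G F) ζ).card))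

theorem TS.t17_lim_sz (T : TS D r) {F : Finset (Set V)} (hF : T.Fo F) {g : V → ℕ} (hg : ∀ z ∈ fs F, g z ≤ T.fi F z) (P : ℕ → Prop) :
    Tendsto (fun G : Finset V => pr D r (gp G F) (fun ζ => P (gw D r g (gp G F) ζ).card)) atTop (𝓝 (T.t17_sz F g P)) := by
  have h0 : T.QL F 1 (fun G ζ => t17_i (P (gw D r g (gp G F) ζ).card)) := T.ql_size hF hg P
  refine (T.tendsto_lm hF h0).congr (fun G => ?_)
  rw [t17_pr_eq]

theorem TS.t17_yl (T : TS D r) (U : Set V) (n : ℕ) : T.yl U n = T.t17_sz (T.ch U) (T.fi (T.ch U)) (fun k => (T.Q U).card + k = n) := by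
  unfold TS.yl TS.t17_sz t17_i
  congr 1
  funext G ζ
  congr

theorem TS.t17_ph (T : TS D r) (U : Set V) (a k : ℕ) :
    T.ph U a k = T.t17_jp (T.ch U) (T.fi (T.ch U)) (a + 1) (fun U' x => U'.card = k ∧ (T.Q U).card + x = a) := by
  unfold TS.ph TS.t17_jp t17_i
  congr 1
  funext G ζ
  congr

/-- TARGET. (`ql_size`, `tendsto_lm`; `tl` is the probability) -/
theorem TS.tendsto_tl (T : TS D r) {U : Set V} (hU : T.Cn U) (n : ℕ) : Tendsto (fun G : Finset V => T.tl G U n) atTop (𝓝 (T.yl U n)) := by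
  rw [T.t17_yl]
  exact T.t17_lim_sz (T.fo_ch hU) (T.t17_fi _) (fun k => (T.Q U).card + k = n)

/-- TARGET. invariance under automorphisms -/
theorem TS.yl_map (T : TS D r) {U : Set V} (hU : T.Cn U) (φ : D ≃g D) (n : ℕ) : T.yl (φ '' U) n = T.yl U n := by
  have hF := T.fo_ch hU
  have hch : T.ch (φ '' U) = im φ (T.ch U) := T.ch_map φ hU
  have hQ : (T.Q (φ '' U)).card = (T.Q U).card := by
    rw [T.aut_Q hU φ, Finset.card_image_of_injective _ φ.injective]
  have h0 : T.QL (T.ch U) 1 (fun G ζ => t17_i ((T.Q U).card + (gw D r (T.fi (T.ch U)) (gp G (T.ch U)) ζ).card = n)) :=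
    T.ql_size hF (T.t17_fi _) (fun k => (T.Q U).card + k = n)
  have h1 := T.tendsto_lm hF h0
  have h3 := lim_map φ (F := T.ch U)
    (fun G ζ => t17_i ((T.Q U).card + (gw D r (T.fi (T.ch U)) (gp G (T.ch U)) ζ).card = n))
    (fun G ζ => t17_i ((T.Q (φ '' U)).card + (gw D r (T.fi (T.ch (φ '' U))) (gp G (T.ch (φ '' U))) ζ).card = n))
    (fun G ζ => by
      rw [hQ, hch, T.fi_map φ hF, gp_map, gw_map, Finset.card_image_of_injective _ φ.injective]) h1
  rw [← hch] at h3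
  have h2 := T.tendsto_tl (T.aut_cn hU φ) n
  rw [T.t17_yl U]
  refine tendsto_nhds_unique h2 (h3.congr (fun G => ?_))
  unfold TS.tl
  rw [t17_pr_eq]

/-- TARGET. invariance: `A` a special descendant of the special cone `U` -/
theorem TS.yl_sp (T : TS D r) {U A : Set V} (hU : T.Cn U) (hs : T.sp U) {j : ℕ} (hA : A ∈ T.de {U} j) (hsA : T.sp A) (n : ℕ) : T.yl A n = T.yl U n := by
  obtain ⟨φ, hφ⟩ := T.sp_iso hU hs j A hA hsA
  rw [← hφ, T.yl_map hU]

/-- TARGET. the total mass of `yl` is one; finite sums are at most one -/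
theorem TS.yl_sum (T : TS D r) {U : Set V} (hU : T.Cn U) : (∀ n, 0 ≤ T.yl U n) ∧ ∀ N, ∑ n ∈ range N, T.yl U n ≤ 1 := by
  refine ⟨fun n => ge_of_tendsto' (T.tendsto_tl hU n) (fun _ => t17_pr_nonneg), fun N => ?_⟩
  refine le_of_tendsto' (tendsto_finsetSum _ (fun n _ => T.tendsto_tl hU n)) (fun G => ?_)
  unfold TS.tl
  simp only [t17_pr_eq]
  rw [← t17_ex_sum]
  refine (t17_ex_mono (f' := fun _ => (1 : ℝ)) (fun ζ _ => ?_)).trans (T.t12_ex_one _).le
  have h := t17_i_sum (range N) ((T.Q U).card + (gw D r (T.fi (T.ch U)) (gp G (T.ch U)) ζ).card) (fun _ => 1)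
  simp only [one_mul] at h
  rw [h]
  split_ifs <;> norm_num

/-! ### products of laws -/

theorem t17_prod_nonneg {ι : Type*} (s : Finset ι) (y : ι → ℕ → ℝ) (h0 : ∀ i ∈ s, ∀ n, 0 ≤ y i n) (n : ℕ) :
    0 ≤ PowerSeries.coeff n (∏ i ∈ s, PowerSeries.mk (y i)) := by
  induction s using Finset.induction_on generalizing n with
  | empty =>
    rw [Finset.prod_empty, PowerSeries.coeff_one]
    split_ifs <;> norm_num
  | insert a s ha ih =>
    rw [Finset.prod_insert ha, PowerSeries.coeff_mul]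
    refine Finset.sum_nonneg (fun p _ => mul_nonneg ?_ ?_)
    · rw [PowerSeries.coeff_mk]
      exact h0 a (Finset.mem_insert_self _ _) _
    · exact ih (fun i hi => h0 i (Finset.mem_insert_of_mem hi)) _

theorem t17_prod_sum {ι : Type*} (s : Finset ι) (y : ι → ℕ → ℝ) (h0 : ∀ i ∈ s, ∀ n, 0 ≤ y i n)
    (h1 : ∀ i ∈ s, ∀ N, ∑ n ∈ range N, y i n ≤ 1) (N : ℕ) :
    ∑ n ∈ range N, PowerSeries.coeff n (∏ i ∈ s, PowerSeries.mk (y i)) ≤ 1 := by
  induction s using Finset.induction_on with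
  | empty =>
    simp only [Finset.prod_empty, PowerSeries.coeff_one]
    rw [Finset.sum_ite_eq']
    split_ifs <;> norm_num
  | insert a s ha ih =>
    have h0' : ∀ i ∈ s, ∀ n, 0 ≤ y i n := fun i hi => h0 i (Finset.mem_insert_of_mem hi)
    have ih' := ih h0' (fun i hi => h1 i (Finset.mem_insert_of_mem hi))
    have h0a := h0 a (Finset.mem_insert_self _ _)
    have h1a := h1 a (Finset.mem_insert_self _ _) N
    have e : ∑ n ∈ range N, PowerSeries.coeff n (∏ i ∈ insert a s, PowerSeries.mk (y i)) ≤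
        ∑ c ∈ range N, ∑ b ∈ range N, y a c * PowerSeries.coeff b (∏ i ∈ s, PowerSeries.mk (y i)) := by
      simp only [Finset.prod_insert ha, PowerSeries.coeff_mul, PowerSeries.coeff_mk]
      simp only [Finset.Nat.sum_antidiagonal_eq_sum_range_succ_mk]
      rw [Finset.sum_range_diag_flip N (fun c b => y a c * PowerSeries.coeff b (∏ i ∈ s, PowerSeries.mk (y i)))]
      refine Finset.sum_le_sum fun c _ => ?_
      refine Finset.sum_le_sum_of_subset_of_nonneg (Finset.range_mono (Nat.sub_le _ _)) fun b _ _ => ?_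
      exact mul_nonneg (h0a c) (t17_prod_nonneg s y h0' b)
    refine e.trans ?_
    simp only [← Finset.mul_sum]
    rw [← Finset.sum_mul]
    have h2 : 0 ≤ ∑ n ∈ range N, y a n := Finset.sum_nonneg fun n _ => h0a n
    have h3 : 0 ≤ ∑ n ∈ range N, PowerSeries.coeff n (∏ i ∈ s, PowerSeries.mk (y i)) :=
      Finset.sum_nonneg fun n _ => t17_prod_nonneg s y h0' n
    nlinarith

theorem t17_prod_le_one {ι : Type*} (s : Finset ι) (y : ι → ℕ → ℝ) (h0 : ∀ i ∈ s, ∀ n, 0 ≤ y i n)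
    (h1 : ∀ i ∈ s, ∀ N, ∑ n ∈ range N, y i n ≤ 1) (n : ℕ) :
    PowerSeries.coeff n (∏ i ∈ s, PowerSeries.mk (y i)) ≤ 1 := by
  refine le_trans ?_ (t17_prod_sum s y h0 h1 (n + 1))
  exact Finset.single_le_sum (f := fun n => PowerSeries.coeff n (∏ i ∈ s, PowerSeries.mk (y i)))
    (fun i _ => t17_prod_nonneg s y h0 i) (Finset.mem_range.2 (Nat.lt_succ_self n))

/-- convolution of different laws -/
theorem t17_prod_le {ι : Type*} (s : Finset ι) (y : ι → ℕ → ℝ) (h0 : ∀ i ∈ s, ∀ n, 0 ≤ y i n)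
    (h1 : ∀ i ∈ s, ∀ N, ∑ n ∈ range N, y i n ≤ 1) {C : ℝ} (hC0 : 0 ≤ C) (hC : ∀ i ∈ s, ∀ n : ℕ, 1 ≤ n → y i n ≤ C / wt n) (n : ℕ) (hn : 1 ≤ n) :
    PowerSeries.coeff n (∏ i ∈ s, PowerSeries.mk (y i)) ≤ C * (s.card : ℝ) ^ 3 / wt n := by
  induction s using Finset.induction_on generalizing n with
  | empty =>
    rw [Finset.prod_empty, PowerSeries.coeff_one, if_neg (by omega)]
    simp
  | insert a s ha ih =>
    have h0' : ∀ i ∈ s, ∀ n, 0 ≤ y i n := fun i hi => h0 i (Finset.mem_insert_of_mem hi)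
    have h1' : ∀ i ∈ s, ∀ N, ∑ n ∈ range N, y i n ≤ 1 := fun i hi => h1 i (Finset.mem_insert_of_mem hi)
    have ih' := ih h0' h1' (fun i hi => hC i (Finset.mem_insert_of_mem hi))
    have h0a := h0 a (Finset.mem_insert_self _ _)
    have h1a := h1 a (Finset.mem_insert_self _ _)
    have hCa := hC a (Finset.mem_insert_self _ _)
    rw [Finset.card_insert_of_notMem ha]
    obtain ⟨k, hk'⟩ : ∃ k, k = s.card := ⟨_, rfl⟩
    rw [← hk'] at ih' ⊢
    rcases Nat.eq_zero_or_pos k with hk | hk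
    · have hs : s = ∅ := Finset.card_eq_zero.1 (by omega)
      subst hs
      rw [Finset.prod_insert ha, Finset.prod_empty, mul_one, PowerSeries.coeff_mk, hk]
      simpa using hCa n hn
    have hwn := n4_wt_pos hn
    have hwk := n4_wt_pos hk
    have hwk1 := n4_wt_pos (Nat.succ_le_succ (Nat.zero_le k))
    rw [Finset.prod_insert ha, mul_comm, PowerSeries.coeff_mul]
    set f : ℕ → ℝ := fun m => PowerSeries.coeff m (∏ i ∈ s, PowerSeries.mk (y i)) with hf
    have hf0 : ∀ m, 0 ≤ f m := fun m => t17_prod_nonneg s y h0' m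
    have key : ∀ p ∈ antidiagonal n, f p.1 * PowerSeries.coeff p.2 (PowerSeries.mk (y a)) ≤
        (C * wt (k + 1) / wt n) * f p.1 + (C * wt k * wt (k + 1) / wt n) * y a p.2 := by
      intro p hp
      rw [Finset.HasAntidiagonal.mem_antidiagonal] at hp
      rw [PowerSeries.coeff_mk]
      by_cases hc : n ≤ (k + 1) * p.2
      · have hp2 : 1 ≤ p.2 := by
          rcases Nat.eq_zero_or_pos p.2 with h | h
          · rw [h] at hc; omega
          · exact h
        have h2 := n4_wt_mono hc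
        rw [n4_wt_mul] at h2
        have h3 : y a p.2 ≤ C * wt (k + 1) / wt n := by
          refine (hCa _ hp2).trans ?_
          rw [div_le_div_iff₀ (n4_wt_pos hp2) hwn]
          have := mul_le_mul_of_nonneg_left h2 hC0
          linarith
        have h4 : 0 ≤ (C * wt k * wt (k + 1) / wt n) * y a p.2 := by
          have := h0a p.2
          positivity
        have h5 := mul_le_mul_of_nonneg_left h3 (hf0 p.1)
        linarith
      · push Not at hc
        have h1' : n * k ≤ (k + 1) * p.1 := by nlinarith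
        have hp1 : 1 ≤ p.1 := by
          rcases Nat.eq_zero_or_pos p.1 with h | h
          · rw [h] at h1'
            have : 0 < n * k := Nat.mul_pos hn hk
            omega
          · exact h
        have h2 := n4_wt_mono h1'
        rw [n4_wt_mul, n4_wt_mul] at h2
        have h3 : f p.1 ≤ C * wt k * wt (k + 1) / wt n := by
          refine (ih' p.1 hp1).trans ?_
          rw [← n4_wt_sq, div_le_div_iff₀ (n4_wt_pos hp1) hwn]
          have := mul_le_mul_of_nonneg_left h2 (mul_nonneg hC0 hwk.le)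
          nlinarith
        have h4 : 0 ≤ (C * wt (k + 1) / wt n) * f p.1 := by
          have := hf0 p.1
          positivity
        have h5 := mul_le_mul_of_nonneg_right h3 (h0a p.2)
        linarith
    refine (Finset.sum_le_sum key).trans ?_
    rw [Finset.sum_add_distrib, ← Finset.mul_sum, ← Finset.mul_sum]
    have e1 : ∑ p ∈ antidiagonal n, f p.1 ≤ 1 := by
      rw [Finset.Nat.sum_antidiagonal_eq_sum_range_succ_mk]
      exact t17_prod_sum s y h0' h1' (n + 1)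
    have e2 : ∑ p ∈ antidiagonal n, y a p.2 ≤ 1 := by
      rw [← Finset.Nat.sum_antidiagonal_swap, Finset.Nat.sum_antidiagonal_eq_sum_range_succ_mk]
      exact h1a (n + 1)
    have h6 : 0 ≤ C * wt (k + 1) / wt n := by positivity
    have h7 : 0 ≤ C * wt k * wt (k + 1) / wt n := by positivity
    have h8 := mul_le_mul_of_nonneg_left e1 h6
    have h9 := mul_le_mul_of_nonneg_left e2 h7
    refine (add_le_add h8 h9).trans ?_
    rw [mul_one, mul_one, ← n4_wt_sq, ← add_div]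
    refine div_le_div_of_nonneg_right ?_ hwn.le
    have h10 := n4_wt_succ k
    have h11 := mul_le_mul_of_nonneg_left h10 (mul_nonneg hC0 hwk1.le)
    nlinarith

theorem t17_prod_tendsto {ι α : Type*} {l : Filter α} (s : Finset ι) (y : α → ι → ℕ → ℝ) (y' : ι → ℕ → ℝ)
    (h : ∀ i ∈ s, ∀ n, Tendsto (fun G => y G i n) l (𝓝 (y' i n))) (m : ℕ) :
    Tendsto (fun G => PowerSeries.coeff m (∏ i ∈ s, PowerSeries.mk (y G i))) l (𝓝 (PowerSeries.coeff m (∏ i ∈ s, PowerSeries.mk (y' i)))) := by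
  induction s using Finset.induction_on generalizing m with
  | empty =>
    simp only [Finset.prod_empty]
    exact tendsto_const_nhds
  | insert a s ha ih =>
    simp only [Finset.prod_insert ha, PowerSeries.coeff_mul, PowerSeries.coeff_mk]
    refine tendsto_finsetSum _ (fun p _ => Tendsto.mul (h a (Finset.mem_insert_self _ _) _) ?_)
    exact ih (fun i hi => h i (Finset.mem_insert_of_mem hi)) _

/-- the limiting law of the size of a wave -/
theorem TS.t17_law (T : TS D r) {F : Finset (Set V)} (hF : T.Fo F) {g : V → ℕ} (hg : ∀ z ∈ fs F, g z ≤ T.fi F z) (L n : ℕ) :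
    T.t17_sz F g (fun k => k = n) = ∑ U ∈ (T.dl F L).powerset, ∑ a ∈ range (n + 1),
      T.t17_jp F g L (fun U' x => U' = U ∧ x = a) * PowerSeries.coeff (n - a) (∏ A ∈ U, PowerSeries.mk (T.yl A)) := by
  refine tendsto_nhds_unique (T.t17_lim_sz hF hg (fun k => k = n)) ?_
  have h : Tendsto (fun G : Finset V => ∑ U ∈ (T.dl F L).powerset, ∑ a ∈ range (n + 1), pr D r (gp G F) (fun ζ => T.fus F g G L ζ = U ∧ T.xv F g G L ζ = a) *
        PowerSeries.coeff (n - a) (∏ A ∈ U, PowerSeries.mk (T.tl G A))) atTop (𝓝 (∑ U ∈ (T.dl F L).powerset, ∑ a ∈ range (n + 1),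
      T.t17_jp F g L (fun U' x => U' = U ∧ x = a) * PowerSeries.coeff (n - a) (∏ A ∈ U, PowerSeries.mk (T.yl A)))) := by
    refine tendsto_finsetSum _ (fun U _ => tendsto_finsetSum _ (fun a _ => ?_))
    by_cases hU : T.An F L U
    · refine Tendsto.mul (T.t17_lim hF hg L (fun U' x => U' = U ∧ x = a)) ?_
      refine t17_prod_tendsto U (fun G A => T.tl G A) (fun A => T.yl A) (fun A hA m => ?_) _
      obtain ⟨_, j, _, hj⟩ := hU.1 A hA
      exact T.tendsto_tl (T.t5b_cn hF hj) m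
    · have h1 : T.t17_jp F g L (fun U' x => U' = U ∧ x = a) = 0 := by
        refine T.t17_jp_zero hF hg (fun G ζ _ hcon => hU ?_)
        rw [← hcon.1]
        exact T.fus_an hF G L ζ
      have h2 : (fun G : Finset V => pr D r (gp G F) (fun ζ => T.fus F g G L ζ = U ∧ T.xv F g G L ζ = a) *
        PowerSeries.coeff (n - a) (∏ A ∈ U, PowerSeries.mk (T.tl G A))) = fun _ => 0 := by
        funext G
        have : pr D r (gp G F) (fun ζ => T.fus F g G L ζ = U ∧ T.xv F g G L ζ = a) = 0 := by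
          refine t17_pr_zero (fun ζ _ hcon => hU ?_)
          rw [← hcon.1]
          exact T.fus_an hF G L ζ
        rw [this, zero_mul]
      rw [h1, zero_mul, h2]
      exact tendsto_const_nhds
  refine h.congr (fun G => ?_)
  rw [T.law_fin hF hg G L n]

/-! ### the recursion -/

theorem TS.t17_fus_mem (T : TS D r) (F : Finset (Set V)) (g : V → ℕ) (G : Finset V) (L : ℕ) (ζ : V → ℕ) :
    T.fus F g G L ζ ∈ (T.dl F L).powerset := by
  rw [Finset.mem_powerset]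
  unfold TS.fus TS.dl
  exact Finset.biUnion_mono (fun j _ => Finset.filter_subset _ _)

theorem TS.t17_regroup (T : TS D r) {F : Finset (Set V)} (hF : T.Fo F) {g : V → ℕ} (hg : ∀ z ∈ fs F, g z ≤ T.fi F z) (L a K : ℕ)
    (w : ℕ → ℝ) (hw : ∀ k, K ≤ k → w k = 0) :
    ∑ U ∈ (T.dl F L).powerset, w U.card * T.t17_jp F g L (fun U' x => U' = U ∧ x = a) =
      ∑ k ∈ range K, w k * T.t17_jp F g L (fun U' x => U'.card = k ∧ x = a) := by
  refine tendsto_nhds_unique (T.t17_comb hF hg L (T.dl F L).powerset (fun U => w U.card) (fun U U' x => U' = U ∧ x = a))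
    ((T.t17_comb hF hg L (range K) w (fun k U' x => U'.card = k ∧ x = a)).congr (fun G => ?_))
  refine t17_ex_congr (fun ζ _ => ?_)
  by_cases hx : T.xv F g G L ζ = a
  · have e1 : ∀ k, t17_i ((T.fus F g G L ζ).card = k ∧ T.xv F g G L ζ = a) = t17_i ((T.fus F g G L ζ).card = k) :=
      fun k => t17_i_congr (and_iff_left hx)
    have e2 : ∀ U, t17_i (T.fus F g G L ζ = U ∧ T.xv F g G L ζ = a) = t17_i (T.fus F g G L ζ = U) :=
      fun U => t17_i_congr (and_iff_left hx)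
    simp only [e1, e2]
    rw [t17_i_sum, t17_i_sum, if_pos (T.t17_fus_mem F g G L ζ)]
    split_ifs with h
    · rfl
    · rw [hw _ (by simpa using h)]
  · have e1 : ∀ k, t17_i ((T.fus F g G L ζ).card = k ∧ T.xv F g G L ζ = a) = 0 :=
      fun k => t17_i_false (fun h => hx h.2)
    have e2 : ∀ U, t17_i (T.fus F g G L ζ = U ∧ T.xv F g G L ζ = a) = 0 :=
      fun U => t17_i_false (fun h => hx h.2)
    simp only [e1, e2, mul_zero, Finset.sum_const_zero]

theorem TS.t17_sz_zero (T : TS D r) {F : Finset (Set V)} (hF : T.Fo F) {g : V → ℕ} (hg : ∀ z ∈ fs F, g z ≤ T.fi F z) {P : ℕ → Prop}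
    (hP : ∀ k, ¬ P k) : T.t17_sz F g P = 0 := by
  refine tendsto_nhds_unique (T.t17_lim_sz hF hg P) ?_
  have : (fun G : Finset V => pr D r (gp G F) (fun ζ => P (gw D r g (gp G F) ζ).card)) = fun _ => 0 := by
    funext G
    exact t17_pr_zero (fun ζ _ => hP _)
  rw [this]
  exact tendsto_const_nhds

theorem TS.t17_yl_zero (T : TS D r) {U : Set V} (hU : T.Cn U) {n : ℕ} (hn : n < (T.Q U).card) : T.yl U n = 0 := by
  rw [T.t17_yl]
  exact T.t17_sz_zero (T.fo_ch hU) (T.t17_fi _) (fun k h => by omega)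

theorem TS.t17_ph_zero (T : TS D r) {U : Set V} (hU : T.Cn U) {a : ℕ} (ha : a < (T.Q U).card) (k : ℕ) : T.ph U a k = 0 := by
  rw [T.t17_ph]
  exact T.t17_jp_zero (T.fo_ch hU) (T.t17_fi _) (fun G ζ _ h => by omega)

theorem TS.t17_ph_eq (T : TS D r) {U : Set V} (hU : T.Cn U) {L a k : ℕ} (ha : a < L) :
    T.t17_jp (T.ch U) (T.fi (T.ch U)) L (fun U' x => U'.card = k ∧ (T.Q U).card + x = a) = T.ph U a k := by
  rw [T.t17_ph]
  exact T.t17_jp_stab (T.fo_ch hU) (T.t17_fi _) (by omega) (fun U' x h => by omega)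

/-- TARGET. THE RECURSION: limit of `law_fin` for `F = ch U`, `g = fi`, `L = n + 1` (finitely many terms; `ql_fus` for the limits of the joint probabilities; all `A ∈ U'` in a contributing antichain are special descendants of `U`, `yl_sp`; group the antichains by cardinality;
by `fus_stab` the event with `L = n + 1` and `xv = a` is the event with `L = a' + 1` in the definition of `ph`; `[t^i] Y^k = 0` for `k > i` since `yl U 0 = 0`) -/
theorem TS.prog (T : TS D r) {U : Set V} (hU : T.Cn U) (hs : T.sp U) : Prog (T.ph U) (T.yl U) := by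
  intro n
  have hF := T.fo_ch hU
  have hg := T.t17_fi (T.ch U)
  have hq := T.Q_two hU
  have hy0 : T.yl U 0 = 0 := T.t17_yl_zero hU (by omega)
  rcases lt_or_ge n (T.Q U).card with hn | hn
  · rw [T.t17_yl_zero hU hn]
    symm
    refine Finset.sum_eq_zero (fun a ha => Finset.sum_eq_zero (fun k _ => ?_))
    rw [Finset.mem_range] at ha
    rw [T.t17_ph_zero hU (by omega), zero_mul]
  · obtain ⟨n', rfl⟩ : ∃ n', n = (T.Q U).card + n' := ⟨n - (T.Q U).card, by omega⟩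
    have h1 : T.yl U ((T.Q U).card + n') = T.t17_sz (T.ch U) (T.fi (T.ch U)) (fun k => k = n') := by
      rw [T.t17_yl]
      congr 1
      funext k
      exact propext ⟨fun h => by omega, fun h => by omega⟩
    rw [h1, T.t17_law hF hg ((T.Q U).card + n' + 1) n']
    have h2 : ∀ U' ∈ (T.dl (T.ch U) ((T.Q U).card + n' + 1)).powerset, ∀ a ∈ range (n' + 1),
        T.t17_jp (T.ch U) (T.fi (T.ch U)) ((T.Q U).card + n' + 1) (fun U'' x => U'' = U' ∧ x = a) * PowerSeries.coeff (n' - a) (∏ A ∈ U', PowerSeries.mk (T.yl A)) =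
        PowerSeries.coeff (n' - a) ((PowerSeries.mk (T.yl U)) ^ U'.card) *
          T.t17_jp (T.ch U) (T.fi (T.ch U)) ((T.Q U).card + n' + 1) (fun U'' x => U'' = U' ∧ x = a) := by
      intro U' _ a _
      by_cases hA : T.An (T.ch U) ((T.Q U).card + n' + 1) U'
      · have h3 : ∏ A ∈ U', PowerSeries.mk (T.yl A) = (PowerSeries.mk (T.yl U)) ^ U'.card := by
          rw [← Finset.prod_const]
          refine Finset.prod_congr rfl (fun A hA' => ?_)
          obtain ⟨hsA, j, _, hj⟩ := hA.1 A hA'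
          have hj' : A ∈ T.de {U} (j + 1) := by
            rw [T.de_succ', Finset.singleton_biUnion]
            exact hj
          congr 1
          funext m
          exact T.yl_sp hU hs hj' hsA m
        rw [h3, mul_comm]
      · have h3 : T.t17_jp (T.ch U) (T.fi (T.ch U)) ((T.Q U).card + n' + 1) (fun U'' x => U'' = U' ∧ x = a) = 0 := by
          refine T.t17_jp_zero hF hg (fun G ζ _ hcon => hA ?_)
          rw [← hcon.1]
          exact T.fus_an hF G _ ζ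
        rw [h3, mul_zero, zero_mul]
    rw [Finset.sum_congr rfl (fun U' hU' => Finset.sum_congr rfl (h2 U' hU')), Finset.sum_comm]
    have h4 : (T.Q U).card + n' + 1 = (T.Q U).card + (n' + 1) := by ring
    rw [h4, Finset.sum_range_add _ (T.Q U).card (n' + 1), Finset.sum_eq_zero (s := range (T.Q U).card), zero_add]
    · refine Finset.sum_congr rfl (fun a ha => ?_)
      rw [Finset.mem_range] at ha
      rw [T.t17_regroup hF hg _ a ((T.Q U).card + (n' + 1))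
        (fun k => PowerSeries.coeff (n' - a) ((PowerSeries.mk (T.yl U)) ^ k))
        (fun k hk => n1_coeff_pow_lt hy0 (by omega))]
      refine Finset.sum_congr rfl (fun k _ => ?_)
      have e1 : (T.Q U).card + n' - ((T.Q U).card + a) = n' - a := by omega
      rw [e1, mul_comm, ← T.t17_ph_eq hU (L := (T.Q U).card + (n' + 1)) (a := (T.Q U).card + a) (k := k) (by omega)]
      congr 2
      funext U' x
      exact propext ⟨fun h => ⟨h.1, by omega⟩, fun h => ⟨h.1, by omega⟩⟩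
    · intro a ha
      rw [Finset.mem_range] at ha
      refine Finset.sum_eq_zero (fun k _ => ?_)
      rw [T.t17_ph_zero hU ha, zero_mul]

/-! ### the step law -/

/-- exhaustion of the support -/
theorem t17_exh {f : ℕ × ℕ → ℝ} (h0 : ∀ p, 0 ≤ f p) {κ : ℕ} (hk : ∀ a k, κ * a < k → f (a, k) = 0) (s : Finset (ℕ × ℕ)) :
    ∃ N0, ∀ N, N0 ≤ N → ∑ p ∈ s, f p ≤ ∑ p ∈ range N ×ˢ range (κ * N + 1), f p := by
  obtain ⟨N0, hN0⟩ := (s.image Prod.fst).exists_nat_subset_range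
  refine ⟨N0, fun N hN => ?_⟩
  have h1 : ∑ p ∈ s, f p = ∑ p ∈ s with p.2 ≤ κ * p.1, f p := by
    symm
    refine Finset.sum_filter_of_ne (fun p _ hp => ?_)
    by_contra hcon
    exact hp (hk p.1 p.2 (by omega))
  rw [h1]
  refine Finset.sum_le_sum_of_subset_of_nonneg (fun p hp => ?_) (fun p _ _ => h0 p)
  rw [Finset.mem_filter] at hp
  have h2 := Finset.mem_range.1 (hN0 (Finset.mem_image_of_mem Prod.fst hp.1))
  rw [Finset.mem_product, Finset.mem_range, Finset.mem_range]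
  refine ⟨by omega, ?_⟩
  have h3 : κ * p.1 ≤ κ * N := Nat.mul_le_mul_left _ (by omega)
  omega

theorem t17_hasSum {f : ℕ × ℕ → ℝ} (h0 : ∀ p, 0 ≤ f p) {κ : ℕ} (hk : ∀ a k, κ * a < k → f (a, k) = 0) {S : ℝ}
    (h : Tendsto (fun N => ∑ p ∈ range N ×ˢ range (κ * N + 1), f p) atTop (𝓝 S)) : HasSum f S := by
  refine hasSum_of_isLUB_of_nonneg S h0 ⟨?_, ?_⟩
  · rintro _ ⟨s, rfl⟩
    obtain ⟨N0, hN0⟩ := t17_exh h0 hk s
    refine ge_of_tendsto h ?_
    filter_upwards [Filter.eventually_ge_atTop N0] with N hN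
    exact hN0 N hN
  · intro b hb
    exact le_of_tendsto' h (fun N => hb ⟨_, rfl⟩)

theorem t17_summable {f : ℕ × ℕ → ℝ} (h0 : ∀ p, 0 ≤ f p) {κ : ℕ} (hk : ∀ a k, κ * a < k → f (a, k) = 0) {B : ℝ}
    (h : ∀ N, ∑ p ∈ range N ×ˢ range (κ * N + 1), f p ≤ B) : Summable f := by
  refine summable_of_sum_le (c := B) h0 (fun s => ?_)
  obtain ⟨N0, hN0⟩ := t17_exh h0 hk s
  exact (hN0 N0 le_rfl).trans (h N0)

theorem TS.t17_ex_aff (T : TS D r) {G : Finset V} {f : (V → ℕ) → ℝ} {a b : ℝ} : ex D r G (fun ζ => a + b * f ζ) = a + b * ex D r G f := by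
  rw [t17_ex_add, t17_ex_mul]
  have h1 := t17_ex_mul (D := D) (r := r) (G := G) (f := fun _ => (1 : ℝ)) (c := a)
  rw [T.t12_ex_one, mul_one] at h1
  rw [h1]

/-- total number of free cones -/
noncomputable def TS.t17_X (T : TS D r) (F : Finset (Set V)) (g : V → ℕ) (G : Finset V) (L : ℕ) (ζ : V → ℕ) : ℝ :=
  ∑ l ∈ range L, (T.fn T.sp F g G l ζ : ℝ)

theorem TS.t17_X_nonneg (T : TS D r) (F : Finset (Set V)) (g : V → ℕ) (G : Finset V) (L : ℕ) (ζ : V → ℕ) : 0 ≤ T.t17_X F g G L ζ :=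
  Finset.sum_nonneg (fun _ _ => Nat.cast_nonneg _)

theorem TS.t17_fus_X (T : TS D r) {F : Finset (Set V)} (hF : T.Fo F) {g : V → ℕ} (G : Finset V) (L : ℕ) (ζ : V → ℕ) :
    ((T.fus F g G L ζ).card : ℝ) ≤ T.t17_X F g G L ζ := by
  unfold TS.t17_X
  exact_mod_cast T.fus_card_le' hF G L ζ

theorem TS.t17_xv_X (T : TS D r) {F : Finset (Set V)} (hF : T.Fo F) {g : V → ℕ} (hg : ∀ z ∈ fs F, g z ≤ T.fi F z) (G : Finset V) (L : ℕ) {ζ : V → ℕ}
    (hζ : ζ ∈ Rc D r (gp G F)) (h : T.xv F g G L ζ < L) : (T.xv F g G L ζ : ℝ) ≤ T.m * T.t17_X F g G L ζ := by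
  unfold TS.t17_X
  exact_mod_cast T.xv_le hF hg G L hζ h

theorem TS.t17_xv_sz (T : TS D r) (F : Finset (Set V)) (g : V → ℕ) (G : Finset V) (L : ℕ) (ζ : V → ℕ) :
    T.xv F g G L ζ ≤ (gw D r g (gp G F) ζ).card := Finset.card_filter_le _ _

theorem TS.t17_fus_le (T : TS D r) {U : Set V} (hU : T.Cn U) (G : Finset V) (L : ℕ) {ζ : V → ℕ} (hζ : ζ ∈ Rc D r (gp G (T.ch U))) :
    (T.fus (T.ch U) (T.fi (T.ch U)) G L ζ).card ≤ T.m * ((T.Q U).card + T.xv (T.ch U) (T.fi (T.ch U)) G L ζ) := by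
  have h1 := T.fus_card_le (T.fo_ch hU) (T.t17_fi _) G L hζ
  have h2 := T.ch_card hU
  have h3 := T.Q_two hU
  rw [mul_add]
  have h4 : T.m * 1 ≤ T.m * (T.Q U).card := Nat.mul_le_mul_left _ (by omega)
  omega

theorem TS.t17_ph_fin (T : TS D r) {U : Set V} (hU : T.Cn U) (a k : ℕ) (h : T.m * a < k) : T.ph U a k = 0 := by
  rw [T.t17_ph]
  refine T.t17_jp_zero (T.fo_ch hU) (T.t17_fi _) (fun G ζ hζ hcon => ?_)
  have := T.t17_fus_le hU G (a + 1) hζ
  rw [hcon.1, hcon.2] at this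
  omega

theorem TS.t17_ph_nonneg (T : TS D r) {U : Set V} (hU : T.Cn U) (a k : ℕ) : 0 ≤ T.ph U a k := by
  rw [T.t17_ph]
  exact T.t17_jp_nonneg (T.fo_ch hU) (T.t17_fi _) _ _

/-- finite sums of moments of the step law as limits -/
theorem TS.t17_law_lim (T : TS D r) {U : Set V} (hU : T.Cn U) (w : ℕ × ℕ → ℝ) (N : ℕ) :
    Tendsto (fun G : Finset V => ex D r (gp G (T.ch U)) (fun ζ => if (T.Q U).card + T.xv (T.ch U) (T.fi (T.ch U)) G N ζ < N then
      w ((T.Q U).card + T.xv (T.ch U) (T.fi (T.ch U)) G N ζ, (T.fus (T.ch U) (T.fi (T.ch U)) G N ζ).card) else 0)) atTop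
      (𝓝 (∑ p ∈ range N ×ˢ range (T.m * N + 1), w p * T.ph U p.1 p.2)) := by
  have hF := T.fo_ch hU
  have hg := T.t17_fi (T.ch U)
  have h := T.t17_comb hF hg N (range N ×ˢ range (T.m * N + 1)) w (fun p U' x => U'.card = p.2 ∧ (T.Q U).card + x = p.1)
  have e : ∑ p ∈ range N ×ˢ range (T.m * N + 1), w p * T.t17_jp (T.ch U) (T.fi (T.ch U)) N (fun U' x => U'.card = p.2 ∧ (T.Q U).card + x = p.1) =
      ∑ p ∈ range N ×ˢ range (T.m * N + 1), w p * T.ph U p.1 p.2 := by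
    refine Finset.sum_congr rfl (fun p hp => ?_)
    rw [Finset.mem_product, Finset.mem_range] at hp
    rw [T.t17_ph_eq hU hp.1]
  rw [e] at h
  refine h.congr (fun G => ?_)
  refine t17_ex_congr (fun ζ hζ => ?_)
  have h1 : ∀ p : ℕ × ℕ, t17_i ((T.fus (T.ch U) (T.fi (T.ch U)) G N ζ).card = p.2 ∧ (T.Q U).card + T.xv (T.ch U) (T.fi (T.ch U)) G N ζ = p.1) =
      t17_i (((T.Q U).card + T.xv (T.ch U) (T.fi (T.ch U)) G N ζ, (T.fus (T.ch U) (T.fi (T.ch U)) G N ζ).card) = p) := by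
    intro p
    refine t17_i_congr ⟨fun h => Prod.ext h.2 h.1, fun h => ⟨(Prod.ext_iff.1 h).2, (Prod.ext_iff.1 h).1⟩⟩
  simp only [h1]
  rw [t17_i_sum]
  by_cases h : (T.Q U).card + T.xv (T.ch U) (T.fi (T.ch U)) G N ζ < N
  · rw [if_pos h, if_pos]
    rw [Finset.mem_product, Finset.mem_range, Finset.mem_range]
    refine ⟨h, ?_⟩
    have h2 := T.t17_fus_le hU G N hζ
    have h3 : T.m * ((T.Q U).card + T.xv (T.ch U) (T.fi (T.ch U)) G N ζ) ≤ T.m * N := Nat.mul_le_mul_left _ (by omega)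
    show (T.fus (T.ch U) (T.fi (T.ch U)) G N ζ).card < T.m * N + 1
    omega
  · rw [if_neg h, if_neg]
    intro hm
    rw [Finset.mem_product, Finset.mem_range] at hm
    exact h hm.1

theorem TS.t17_bad (T : TS D r) {U : Set V} (hU : T.Cn U) {ε : ℝ} (hε : 0 < ε) : ∃ N0 : ℕ, ∀ N, N0 ≤ N → ∀ᶠ G in (atTop : Filter (Finset V)),
    pr D r (gp G (T.ch U)) (fun ζ => ¬ (T.Q U).card + T.xv (T.ch U) (T.fi (T.ch U)) G N ζ < N) ≤ ε := by
  obtain ⟨N1, hN1⟩ := T.tight_size (T.fo_ch hU) (T.t17_fi _) ε hε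
  refine ⟨(T.Q U).card + N1 + 1, fun N hN => ?_⟩
  filter_upwards [hN1] with G hG
  refine (T.t12_pr_mono (fun ζ _ h => ?_)).trans hG
  have := T.t17_xv_sz (T.ch U) (T.fi (T.ch U)) G N ζ
  omega

theorem TS.t17_one (T : TS D r) {U : Set V} (hU : T.Cn U) : HasSum (fun p : ℕ × ℕ => T.ph U p.1 p.2) 1 := by
  refine t17_hasSum (f := fun p : ℕ × ℕ => T.ph U p.1 p.2) (fun p => T.t17_ph_nonneg hU p.1 p.2) (κ := T.m) (fun a k h => T.t17_ph_fin hU a k h) ?_
  have hlim : ∀ N, Tendsto (fun G : Finset V => pr D r (gp G (T.ch U)) (fun ζ => (T.Q U).card + T.xv (T.ch U) (T.fi (T.ch U)) G N ζ < N)) atTop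
      (𝓝 (∑ p ∈ range N ×ˢ range (T.m * N + 1), T.ph U p.1 p.2)) := by
    intro N
    have h := T.t17_law_lim hU (fun _ => 1) N
    simp only [one_mul] at h
    refine h.congr (fun G => ?_)
    rw [t17_pr_eq]
    refine t17_ex_congr (fun ζ _ => ?_)
    unfold t17_i
    split_ifs <;> rfl
  rw [Metric.tendsto_atTop]
  intro ε hε
  obtain ⟨N0, hN0⟩ := T.t17_bad hU (half_pos hε)
  refine ⟨N0, fun N hN => ?_⟩
  have h1 : ∑ p ∈ range N ×ˢ range (T.m * N + 1), T.ph U p.1 p.2 ≤ 1 := le_of_tendsto' (hlim N) (fun _ => t17_pr_le_one)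
  have h2 : 1 - ε / 2 ≤ ∑ p ∈ range N ×ˢ range (T.m * N + 1), T.ph U p.1 p.2 := by
    refine ge_of_tendsto (hlim N) ?_
    filter_upwards [hN0 N hN] with G hG
    rw [t17_pr_eq] at hG ⊢
    have h3 : ex D r (gp G (T.ch U)) (fun ζ => t17_i ((T.Q U).card + T.xv (T.ch U) (T.fi (T.ch U)) G N ζ < N)) +
        ex D r (gp G (T.ch U)) (fun ζ => t17_i (¬ (T.Q U).card + T.xv (T.ch U) (T.fi (T.ch U)) G N ζ < N)) = 1 := by
      rw [← t17_ex_add, ← T.t12_ex_one (gp G (T.ch U))]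
      refine t17_ex_congr (fun ζ _ => ?_)
      by_cases h : (T.Q U).card + T.xv (T.ch U) (T.fi (T.ch U)) G N ζ < N
      · rw [t17_i_true h, t17_i_false (not_not.2 h), add_zero]
      · rw [t17_i_false h, t17_i_true h, zero_add]
    linarith
  rw [Real.dist_eq, abs_lt]
  constructor <;> linarith

theorem TS.t17_mom (T : TS D r) {F : Finset (Set V)} (hF : T.Fo F) {g : V → ℕ} (hg : ∀ z ∈ fs F, g z ≤ T.fi F z) :
    ∃ K : ℝ, 0 < K ∧ ∀ L : ℕ, ∀ᶠ G in (atTop : Filter (Finset V)), ex D r (gp G F) (fun ζ => 1 + 1 * T.t17_X F g G L ζ ^ 4) ≤ K := by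
  obtain ⟨K, hK, hK'⟩ := T.K4_fo
  refine ⟨1 + K * (F.card : ℝ) ^ 4, by positivity, fun L => ?_⟩
  filter_upwards [hK' F hF g hg L] with G hG
  rw [T.t17_ex_aff]
  unfold TS.t17_X
  linarith

theorem TS.t17_mom2 (T : TS D r) {U : Set V} (hU : T.Cn U) (w : ℕ × ℕ → ℝ) (hw : ∀ p, 0 ≤ w p) (a b : ℝ)
    (hab : ∀ (G : Finset V) (N : ℕ), ∀ ζ ∈ Rc D r (gp G (T.ch U)), (T.Q U).card + T.xv (T.ch U) (T.fi (T.ch U)) G N ζ < N →
      w ((T.Q U).card + T.xv (T.ch U) (T.fi (T.ch U)) G N ζ, (T.fus (T.ch U) (T.fi (T.ch U)) G N ζ).card) ≤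
        a + b * (1 + 1 * T.t17_X (T.ch U) (T.fi (T.ch U)) G N ζ ^ 4)) (ha : 0 ≤ a) (hb : 0 ≤ b) :
    Summable (fun p : ℕ × ℕ => w p * T.ph U p.1 p.2) := by
  obtain ⟨K, hK, hK'⟩ := T.t17_mom (T.fo_ch hU) (T.t17_fi _)
  refine t17_summable (f := fun p : ℕ × ℕ => w p * T.ph U p.1 p.2) (fun p => mul_nonneg (hw p) (T.t17_ph_nonneg hU p.1 p.2)) (κ := T.m) (B := a + b * K)
    (fun a k h => by
      show w (a, k) * T.ph U a k = 0
      rw [T.t17_ph_fin hU a k h, mul_zero]) (fun N => ?_)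
  refine le_of_tendsto (T.t17_law_lim hU w N) ?_
  filter_upwards [hK' N] with G hG
  calc ex D r (gp G (T.ch U)) (fun ζ => if (T.Q U).card + T.xv (T.ch U) (T.fi (T.ch U)) G N ζ < N then
      w ((T.Q U).card + T.xv (T.ch U) (T.fi (T.ch U)) G N ζ, (T.fus (T.ch U) (T.fi (T.ch U)) G N ζ).card) else 0)
      ≤ ex D r (gp G (T.ch U)) (fun ζ => a + b * (1 + 1 * T.t17_X (T.ch U) (T.fi (T.ch U)) G N ζ ^ 4)) := by
        refine t17_ex_mono (fun ζ hζ => ?_)
        split_ifs with h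
        · exact hab G N ζ hζ h
        · have := T.t17_X_nonneg (T.ch U) (T.fi (T.ch U)) G N ζ
          positivity
    _ = a + b * ex D r (gp G (T.ch U)) (fun ζ => 1 + 1 * T.t17_X (T.ch U) (T.fi (T.ch U)) G N ζ ^ 4) := T.t17_ex_aff
    _ ≤ a + b * K := by nlinarith

theorem t17_sq (x : ℝ) : x ^ 2 ≤ 1 + 1 * x ^ 4 := by nlinarith [sq_nonneg (x ^ 2 - 1), sq_nonneg x]

theorem TS.t17_fus_sum (T : TS D r) {F : Finset (Set V)} (hF : T.Fo F) (g : V → ℕ) (G : Finset V) (L : ℕ) (ζ : V → ℕ) :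
    ((T.fus F g G L ζ).card : ℝ) = ∑ l ∈ range L, (T.fc F g G l ζ : ℝ) := by
  unfold TS.fus TS.fc
  rw [Finset.card_biUnion]
  · push_cast
    rfl
  · intro i _ j _ hij
    rw [Function.onFun, Finset.disjoint_left]
    intro A hA hA'
    exact hij (T.gen_unique hF (Finset.mem_filter.1 hA).1 (Finset.mem_filter.1 hA').1)

theorem TS.t17_mean (T : TS D r) {U : Set V} (hU : T.Cn U) (hs : T.sp U) : HasSum (fun p : ℕ × ℕ => (p.2 : ℝ) * T.ph U p.1 p.2) 1 := by
  refine t17_hasSum (f := fun p : ℕ × ℕ => (p.2 : ℝ) * T.ph U p.1 p.2) (fun p => mul_nonneg (Nat.cast_nonneg _) (T.t17_ph_nonneg hU p.1 p.2)) (κ := T.m)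
    (fun a k h => by
      show ((k : ℕ) : ℝ) * T.ph U a k = 0
      rw [T.t17_ph_fin hU a k h, mul_zero]) ?_
  have hF := T.fo_ch hU
  have hg := T.t17_fi (T.ch U)
  obtain ⟨K, hK, hK'⟩ := T.t17_mom hF hg
  have hα := (T.critical hU hs).1.tendsto_sum_nat
  have hA : ∀ N, Tendsto (fun G : Finset V => ex D r (gp G (T.ch U)) (fun ζ => ((T.fus (T.ch U) (T.fi (T.ch U)) G N ζ).card : ℝ))) atTop
      (𝓝 (∑ l ∈ range N, T.aL (T.ch U) l)) := by
    intro N
    have h := tendsto_finsetSum (range N) (fun l _ => T.tendsto_lm hF (T.ql_fc hF hg l))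
    refine h.congr (fun G => ?_)
    rw [← t17_ex_sum]
    refine t17_ex_congr (fun ζ _ => ?_)
    rw [T.t17_fus_sum hF]
  have hB : ∀ N, Tendsto (fun G : Finset V => ex D r (gp G (T.ch U)) (fun ζ => if (T.Q U).card + T.xv (T.ch U) (T.fi (T.ch U)) G N ζ < N then
      ((T.fus (T.ch U) (T.fi (T.ch U)) G N ζ).card : ℝ) else 0)) atTop
      (𝓝 (∑ p ∈ range N ×ˢ range (T.m * N + 1), (p.2 : ℝ) * T.ph U p.1 p.2)) := fun N => T.t17_law_lim hU (fun p => (p.2 : ℝ)) N
  have hdiff : Tendsto (fun N => ∑ l ∈ range N, T.aL (T.ch U) l - ∑ p ∈ range N ×ˢ range (T.m * N + 1), (p.2 : ℝ) * T.ph U p.1 p.2) atTop (𝓝 0) := by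
    rw [Metric.tendsto_atTop]
    intro δ hδ
    obtain ⟨η, hη⟩ : ∃ η : ℝ, η = δ / (4 * K) := ⟨_, rfl⟩
    have hη0 : 0 < η := by rw [hη]; positivity
    obtain ⟨N0, hN0⟩ := T.t17_bad hU (ε := η * δ / 4) (by positivity)
    refine ⟨N0, fun N hN => ?_⟩
    have h1 : 0 ≤ ∑ l ∈ range N, T.aL (T.ch U) l - ∑ p ∈ range N ×ˢ range (T.m * N + 1), (p.2 : ℝ) * T.ph U p.1 p.2 := by
      refine ge_of_tendsto' ((hA N).sub (hB N)) (fun G => ?_)
      rw [sub_nonneg]
      refine t17_ex_mono (fun ζ _ => ?_)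
      split_ifs
      · exact le_rfl
      · exact Nat.cast_nonneg _
    have h2 : ∑ l ∈ range N, T.aL (T.ch U) l - ∑ p ∈ range N ×ˢ range (T.m * N + 1), (p.2 : ℝ) * T.ph U p.1 p.2 ≤ δ / 2 := by
      refine le_of_tendsto ((hA N).sub (hB N)) ?_
      filter_upwards [hN0 N hN, hK' N] with G hG1 hG2
      have h3 : ex D r (gp G (T.ch U)) (fun ζ => ((T.fus (T.ch U) (T.fi (T.ch U)) G N ζ).card : ℝ)) ≤
          ex D r (gp G (T.ch U)) (fun ζ => (if (T.Q U).card + T.xv (T.ch U) (T.fi (T.ch U)) G N ζ < N then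
            ((T.fus (T.ch U) (T.fi (T.ch U)) G N ζ).card : ℝ) else 0) +
            (η * (1 + 1 * T.t17_X (T.ch U) (T.fi (T.ch U)) G N ζ ^ 4) +
              1 / η * t17_i (¬ (T.Q U).card + T.xv (T.ch U) (T.fi (T.ch U)) G N ζ < N))) := by
        refine t17_ex_mono (fun ζ _ => ?_)
        have hX := T.t17_X_nonneg (T.ch U) (T.fi (T.ch U)) G N ζ
        have hX' := T.t17_fus_X hF (g := T.fi (T.ch U)) G N ζ
        have hX2 := t17_sq (T.t17_X (T.ch U) (T.fi (T.ch U)) G N ζ)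
        split_ifs with h
        · rw [t17_i_false (not_not.2 h)]
          have : 0 ≤ η * (1 + 1 * T.t17_X (T.ch U) (T.fi (T.ch U)) G N ζ ^ 4) := by positivity
          linarith
        · rw [t17_i_true h, mul_one, zero_add]
          have h4 : T.t17_X (T.ch U) (T.fi (T.ch U)) G N ζ ≤ η * T.t17_X (T.ch U) (T.fi (T.ch U)) G N ζ ^ 2 + 1 / η := by
            rw [← sub_nonneg]
            have : η * T.t17_X (T.ch U) (T.fi (T.ch U)) G N ζ ^ 2 + 1 / η - T.t17_X (T.ch U) (T.fi (T.ch U)) G N ζ =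
                ((η * T.t17_X (T.ch U) (T.fi (T.ch U)) G N ζ - 1 / 2) ^ 2 + 3 / 4) / η := by
              field_simp
              ring
            rw [this]
            positivity
          have h5 := mul_le_mul_of_nonneg_left hX2 hη0.le
          linarith
      rw [t17_ex_add, t17_ex_add, t17_ex_mul, t17_ex_mul, ← t17_pr_eq] at h3
      have h4 : η * ex D r (gp G (T.ch U)) (fun ζ => 1 + 1 * T.t17_X (T.ch U) (T.fi (T.ch U)) G N ζ ^ 4) ≤ δ / 4 := by
        calc _ ≤ η * K := mul_le_mul_of_nonneg_left hG2 hη0.le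
          _ = δ / 4 := by rw [hη]; field_simp
      have h5 : 1 / η * pr D r (gp G (T.ch U)) (fun ζ => ¬ (T.Q U).card + T.xv (T.ch U) (T.fi (T.ch U)) G N ζ < N) ≤ δ / 4 := by
        calc _ ≤ 1 / η * (η * δ / 4) := mul_le_mul_of_nonneg_left hG1 (by positivity)
          _ = δ / 4 := by field_simp
      linarith
    rw [Real.dist_eq, sub_zero, abs_lt]
    constructor <;> linarith
  have := hα.sub hdiff
  simpa using this

theorem TS.t17_ph_lb (T : TS D r) {U : Set V} (hU : T.Cn U) {k x : ℕ} {c : ℝ}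
    (h : ∀ᶠ G in (atTop : Filter (Finset V)), c ≤ pr D r (gp G (T.ch U)) (fun ζ =>
      (T.fus (T.ch U) (T.fi (T.ch U)) G ((T.Q U).card + x + 1) ζ).card = k ∧ T.xv (T.ch U) (T.fi (T.ch U)) G ((T.Q U).card + x + 1) ζ = x)) :
    c ≤ T.ph U ((T.Q U).card + x) k := by
  rw [T.t17_ph]
  refine ge_of_tendsto (T.t17_lim (T.fo_ch hU) (T.t17_fi _) _ _) ?_
  filter_upwards [h] with G hG
  refine hG.trans (T.t12_pr_mono (fun ζ _ h => ⟨h.1, by omega⟩))

/-- TARGET. the step law. `zr`: `|Q U| ≥ 1`. `fin`: `fus_card_le`, `|ch U| ≤ m`, with `κ = m`. `one`: tightness (`tight_size`: `xv ≤ |gw| ≤ N` with probability `≥ 1 - ε`; for a cutoff `N ≥ N0` the sum of `ph a k` over `a ≤ N`, all `k`, is the limit of `pr (|Q U| + xv_{N+1} ≤ N)`, using `fus_stab`).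
`mean`: for each `N`, `Σ_{a ≤ N} Σ_k k ph a k = lim E[|fus_{N+1}| ; |Q U| + xv_{N+1} ≤ N]`; `lim E |fus_{N+1}| = Σ_{l ≤ N} aL (ch U) l → 1` (`critical`), and the difference is at most `(E |fus_{N+1}|^2)^(1/2) P(|Q U| + xv_{N+1} > N)^(1/2)`, small uniformly by `fus_card_le'`, `K4_fo`, `tight_size`.
`sx`, `sk`: `E[(|Q U| + xv_{N+1})^2 ; xv_{N+1} < N + 1]` and `E |fus|^2` are bounded by `xv_le`, `fus_card_le'`, `K4_fo`. `at0`: `atom0`, `atom1` with `a0 = |Q U|`. `at1`: `atom2`. -/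
theorem TS.law (T : TS D r) {U : Set V} (hU : T.Cn U) (hs : T.sp U) : Law (T.ph U) := by
  have hF := T.fo_ch hU
  have hg := T.t17_fi (T.ch U)
  have hq := T.Q_two hU
  have hne : (T.ch U).Nonempty := by
    rw [← Finset.card_pos]
    have := T.two hU
    omega
  refine ⟨T.t17_ph_nonneg hU, fun k => T.t17_ph_zero hU (by omega) k, ⟨T.m, T.t17_ph_fin hU⟩, T.t17_one hU, T.t17_mean hU hs, ?_, ?_, ?_, ?_⟩
  · refine T.t17_mom2 hU (fun p => (p.1 : ℝ) ^ 2) (fun p => by positivity) (2 * ((T.Q U).card : ℝ) ^ 2) (2 * (T.m : ℝ) ^ 2) (fun G N ζ hζ h => ?_)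
      (by positivity) (by positivity)
    have h1 := T.t17_xv_X hF hg G N hζ (by omega)
    have h2 := t17_sq (T.t17_X (T.ch U) (T.fi (T.ch U)) G N ζ)
    have h3 : (T.xv (T.ch U) (T.fi (T.ch U)) G N ζ : ℝ) ^ 2 ≤ (T.m : ℝ) ^ 2 * T.t17_X (T.ch U) (T.fi (T.ch U)) G N ζ ^ 2 := by
      rw [← mul_pow]
      exact pow_le_pow_left₀ (Nat.cast_nonneg _) h1 2
    have h4 : (T.m : ℝ) ^ 2 * T.t17_X (T.ch U) (T.fi (T.ch U)) G N ζ ^ 2 ≤ (T.m : ℝ) ^ 2 * (1 + 1 * T.t17_X (T.ch U) (T.fi (T.ch U)) G N ζ ^ 4) :=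
      mul_le_mul_of_nonneg_left h2 (by positivity)
    show ((((T.Q U).card + T.xv (T.ch U) (T.fi (T.ch U)) G N ζ : ℕ)) : ℝ) ^ 2 ≤ _
    push_cast
    nlinarith [sq_nonneg (((T.Q U).card : ℝ) - (T.xv (T.ch U) (T.fi (T.ch U)) G N ζ : ℝ))]
  · refine T.t17_mom2 hU (fun p => (p.2 : ℝ) ^ 2) (fun p => by positivity) 0 1 (fun G N ζ hζ h => ?_) le_rfl zero_le_one
    have h1 := T.t17_fus_X hF (g := T.fi (T.ch U)) G N ζ
    have h2 := t17_sq (T.t17_X (T.ch U) (T.fi (T.ch U)) G N ζ)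
    have h3 : ((T.fus (T.ch U) (T.fi (T.ch U)) G N ζ).card : ℝ) ^ 2 ≤ T.t17_X (T.ch U) (T.fi (T.ch U)) G N ζ ^ 2 :=
      pow_le_pow_left₀ (Nat.cast_nonneg _) h1 2
    show (((T.fus (T.ch U) (T.fi (T.ch U)) G N ζ).card : ℕ) : ℝ) ^ 2 ≤ _
    linarith
  · refine ⟨(T.Q U).card, ?_, ?_⟩
    · have h1 : T.c0 ^ (T.ch U).card ≤ T.ph U ((T.Q U).card + 0) 0 := by
        refine T.t17_ph_lb hU (Filter.Eventually.of_forall (fun G => ?_))
        refine (T.atom0 hF ((T.Q U).card + 0 + 1) G).trans (T.t12_pr_mono (fun ζ _ h => ⟨?_, h.2⟩))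
        rw [h.1, Finset.card_empty]
      exact lt_of_lt_of_le (pow_pos T.c0_pos _) h1
    · obtain ⟨c, hc, h⟩ := T.atom1 hF hne
      have h1 : c ≤ T.ph U ((T.Q U).card + 1) 0 := by
        refine T.t17_ph_lb hU ?_
        filter_upwards [h ((T.Q U).card + 1 + 1)] with G hG
        refine hG.trans (T.t12_pr_mono (fun ζ _ h => ⟨?_, h.2⟩))
        rw [h.1, Finset.card_empty]
      exact lt_of_lt_of_le hc h1
  · obtain ⟨c, l, x, hc, hlx, h⟩ := T.atom2 hF hne
    have hL := h ((T.Q U).card + x + 1) (by omega)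
    refine ⟨(T.Q U).card + x, ?_, ?_⟩
    · have h1 : c ≤ T.ph U ((T.Q U).card + x) 0 := by
        refine T.t17_ph_lb hU ?_
        filter_upwards [hL] with G hG
        refine hG.1.trans (T.t12_pr_mono (fun ζ _ h => ⟨?_, h.2⟩))
        rw [h.1, Finset.card_empty]
      exact lt_of_lt_of_le hc h1
    · have h1 : c ≤ T.ph U ((T.Q U).card + x) 1 := by
        refine T.t17_ph_lb hU ?_
        filter_upwards [hL] with G hG
        exact hG.2
      exact lt_of_lt_of_le hc h1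

theorem TS.t17_yl_fin (T : TS D r) (R : Finset (Set V)) (hR : ∀ C ∈ R, T.Cn C) : ∃ c C : ℝ, 0 < c ∧ 0 < C ∧ ∃ n0 : ℕ, ∀ U ∈ R, T.sp U →
    (∀ n : ℕ, n0 ≤ n → c / wt n ≤ T.yl U n) ∧ ∀ n : ℕ, 1 ≤ n → T.yl U n ≤ C / wt n := by
  induction R using Finset.induction_on with
  | empty => exact ⟨1, 1, one_pos, one_pos, 0, fun U hU => absurd hU (Finset.notMem_empty U)⟩
  | insert A R hA ih =>
    obtain ⟨c, C, hc, hC, n0, h⟩ := ih (fun B hB => hR B (Finset.mem_insert_of_mem hB))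
    have hcn := hR A (Finset.mem_insert_self _ _)
    by_cases hs : T.sp A
    · have hl := T.law hcn hs
      have hp := T.prog hcn hs
      obtain ⟨C', hC', h1⟩ := prog_upper hl hp
      obtain ⟨c', hc', n1, h2⟩ := prog_lower hl hp
      refine ⟨min c c', max C C', lt_min hc hc', lt_max_of_lt_left hC, max n0 n1, fun U hU hsU => ?_⟩
      rcases Finset.mem_insert.1 hU with rfl | hU
      · refine ⟨fun n hn => ?_, fun n hn => ?_⟩
        · exact (div_le_div_of_nonneg_right (min_le_right _ _) (n4_wt_nonneg n)).trans (h2 n ((le_max_right _ _).trans hn))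
        · exact (h1 n hn).trans (div_le_div_of_nonneg_right (le_max_right _ _) (n4_wt_nonneg n))
      · refine ⟨fun n hn => ?_, fun n hn => ?_⟩
        · exact (div_le_div_of_nonneg_right (min_le_left _ _) (n4_wt_nonneg n)).trans ((h U hU hsU).1 n ((le_max_left _ _).trans hn))
        · exact ((h U hU hsU).2 n hn).trans (div_le_div_of_nonneg_right (le_max_left _ _) (n4_wt_nonneg n))
    · refine ⟨c, C, hc, hC, n0, fun U hU hsU => ?_⟩
      rcases Finset.mem_insert.1 hU with rfl | hU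
      · exact absurd hsU hs
      · exact h U hU hsU

/-- TARGET. two-sided bounds, uniformly over the special cones (finitely many types) -/
theorem TS.exists_yl (T : TS D r) : ∃ c C : ℝ, 0 < c ∧ 0 < C ∧ ∃ n0 : ℕ, ∀ U, T.Cn U → T.sp U → (∀ n : ℕ, n0 ≤ n → c / wt n ≤ T.yl U n) ∧ ∀ n : ℕ, 1 ≤ n → T.yl U n ≤ C / wt n := by
  obtain ⟨R, hR, hR'⟩ := T.types
  obtain ⟨c, C, hc, hC, n0, h⟩ := T.t17_yl_fin R hR
  refine ⟨c, C, hc, hC, n0, fun U hU hs => ?_⟩
  obtain ⟨C0, hC0, φ, rfl⟩ := hR' U hU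
  have hs0 : T.sp C0 := (T.sp_map φ (hR C0 hC0)).1 hs
  have := h C0 hC0 hs0
  refine ⟨fun n hn => ?_, fun n hn => ?_⟩
  · rw [T.yl_map (hR C0 hC0)]
    exact this.1 n hn
  · rw [T.yl_map (hR C0 hC0)]
    exact this.2 n hn

/-- TARGET. lower bound for the full wave from a unit, eventually in `G` -/
theorem TS.unit_lower (T : TS D r) : ∃ c : ℝ, 0 < c ∧ ∃ n0 : ℕ, ∀ U, T.Cn U → T.sp U → ∀ n : ℕ, n0 ≤ n → ∀ᶠ G in (atTop : Filter (Finset V)), c / wt n ≤ T.tl G U n := by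
  obtain ⟨c, C, hc, hC, n0, h⟩ := T.exists_yl
  refine ⟨c / 2, by positivity, max n0 1, fun U hU hs n hn => ?_⟩
  have hn1 : 1 ≤ n := (le_max_right _ _).trans hn
  have hw := n4_wt_pos hn1
  have h1 := (h U hU hs).1 n ((le_max_left _ _).trans hn)
  have h2 : c / 2 / wt n < T.yl U n := by
    refine lt_of_lt_of_le ?_ h1
    exact div_lt_div_of_pos_right (by linarith) hw
  filter_upwards [(T.tendsto_tl hU n).eventually_const_lt h2] with G hG
  exact hG.le

/-! ### one wave -/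

theorem t17_cube {x : ℝ} (hx : 0 ≤ x) : x ^ 3 ≤ 1 + 1 * x ^ 4 := by
  rcases le_total x 1 with h | h
  · have h1 : x ^ 3 ≤ 1 := pow_le_one₀ hx h
    have h2 : 0 ≤ x ^ 4 := by positivity
    linarith
  · have h1 : x ^ 3 ≤ x ^ 4 := pow_le_pow_right₀ h (by norm_num)
    linarith

theorem t17_wt_le (n : ℕ) (hn : 1 ≤ n) : wt n ≤ (n : ℝ) ^ 4 := by
  have h1 : (1 : ℝ) ≤ n := by exact_mod_cast hn
  have h2 : Real.sqrt n ≤ n := by
    rw [Real.sqrt_le_left (by linarith)]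
    nlinarith
  unfold wt
  have h3 : (n : ℝ) * Real.sqrt n ≤ (n : ℝ) ^ 2 := by nlinarith
  have h4 : (n : ℝ) ^ 2 ≤ (n : ℝ) ^ 4 := pow_le_pow_right₀ h1 (by norm_num)
  linarith

theorem TS.t17_sz_le (T : TS D r) {F : Finset (Set V)} (hF : T.Fo F) {g : V → ℕ} (hg : ∀ z ∈ fs F, g z ≤ T.fi F z) {C1 : ℝ} (hC1 : 0 < C1)
    (hy : ∀ A, T.Cn A → T.sp A → ∀ n : ℕ, 1 ≤ n → T.yl A n ≤ C1 / wt n) {B : ℝ}
    (hB : ∀ L : ℕ, ∀ᶠ G in (atTop : Filter (Finset V)), ex D r (gp G F) (fun ζ => 1 + 1 * T.t17_X F g G L ζ ^ 4) ≤ B) (n : ℕ) (hn : 1 ≤ n) :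
    T.t17_sz F g (fun k => k = n) ≤ (C1 * wt 2 + 16 * (T.m : ℝ) ^ 4) / wt n * B := by
  have hw := n4_wt_pos hn
  have hw2 := n4_wt_pos (a := 2) (by norm_num)
  obtain ⟨C', hC'⟩ : ∃ C', C' = C1 * wt 2 / wt n := ⟨_, rfl⟩
  have hC'0 : 0 ≤ C' := by rw [hC']; positivity
  have h1 : T.t17_sz F g (fun k => k = n) ≤ ∑ p ∈ (T.dl F (n + 1)).powerset ×ˢ range (n + 1),
      (C' * (p.1.card : ℝ) ^ 3 + t17_i (n < 2 * p.2)) * T.t17_jp F g (n + 1) (fun U' x => U' = p.1 ∧ x = p.2) := by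
    rw [T.t17_law hF hg (n + 1) n, Finset.sum_product]
    refine Finset.sum_le_sum (fun U' _ => Finset.sum_le_sum (fun a ha => ?_))
    rw [Finset.mem_range] at ha
    by_cases hA : T.An F (n + 1) U'
    · rw [mul_comm]
      refine mul_le_mul_of_nonneg_right ?_ (T.t17_jp_nonneg hF hg _ _)
      have hcn : ∀ A ∈ U', T.Cn A := by
        intro A hA'
        obtain ⟨_, j, _, hj⟩ := hA.1 A hA'
        exact T.t5b_cn hF hj
      have h0 : ∀ A ∈ U', ∀ k, 0 ≤ T.yl A k := fun A hA' => (T.yl_sum (hcn A hA')).1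
      have h0' : ∀ A ∈ U', ∀ N, ∑ k ∈ range N, T.yl A k ≤ 1 := fun A hA' => (T.yl_sum (hcn A hA')).2
      by_cases h : n < 2 * a
      · rw [t17_i_true h]
        have h2 := t17_prod_le_one U' (fun A => T.yl A) h0 h0' (n - a)
        have h3 : 0 ≤ C' * (U'.card : ℝ) ^ 3 := by positivity
        linarith
      · rw [t17_i_false h, add_zero]
        have h2 := t17_prod_le U' (fun A => T.yl A) h0 h0' hC1.le (fun A hA' => hy A (hcn A hA') (hA.1 A hA').1) (n - a) (by omega)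
        refine h2.trans ?_
        have h3 : wt n ≤ wt 2 * wt (n - a) := by
          rw [← n4_wt_mul]
          exact n4_wt_mono (by omega)
        have h4 := n4_wt_pos (a := n - a) (by omega)
        rw [hC', div_mul_eq_mul_div, div_le_div_iff₀ h4 hw]
        have h5 : 0 ≤ C1 * (U'.card : ℝ) ^ 3 := by positivity
        nlinarith [mul_le_mul_of_nonneg_left h3 h5]
    · have h2 : T.t17_jp F g (n + 1) (fun U'' x => U'' = U' ∧ x = a) = 0 := by
        refine T.t17_jp_zero hF hg (fun G ζ _ hcon => hA ?_)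
        rw [← hcon.1]
        exact T.fus_an hF G _ ζ
      simp only [h2, zero_mul, mul_zero, le_refl]
  refine h1.trans ?_
  refine le_of_tendsto (T.t17_comb hF hg (n + 1) ((T.dl F (n + 1)).powerset ×ˢ range (n + 1))
    (fun p => C' * (p.1.card : ℝ) ^ 3 + t17_i (n < 2 * p.2)) (fun p U' x => U' = p.1 ∧ x = p.2)) ?_
  filter_upwards [hB (n + 1)] with G hG
  have hn0 : (0 : ℝ) < n := by exact_mod_cast hn
  have hfin : ex D r (gp G F) (fun ζ => ∑ p ∈ (T.dl F (n + 1)).powerset ×ˢ range (n + 1), (C' * (p.1.card : ℝ) ^ 3 + t17_i (n < 2 * p.2)) *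
      t17_i (T.fus F g G (n + 1) ζ = p.1 ∧ T.xv F g G (n + 1) ζ = p.2)) ≤
      ex D r (gp G F) (fun ζ => (C1 * wt 2 + 16 * (T.m : ℝ) ^ 4) / wt n * (1 + 1 * T.t17_X F g G (n + 1) ζ ^ 4)) := by
    refine t17_ex_mono (fun ζ hζ => ?_)
    have e : ∀ p : Finset (Set V) × ℕ, t17_i (T.fus F g G (n + 1) ζ = p.1 ∧ T.xv F g G (n + 1) ζ = p.2) =
        t17_i ((T.fus F g G (n + 1) ζ, T.xv F g G (n + 1) ζ) = p) :=
      fun p => t17_i_congr ⟨fun h => Prod.ext h.1 h.2, fun h => ⟨(Prod.ext_iff.1 h).1, (Prod.ext_iff.1 h).2⟩⟩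
    simp only [e]
    rw [t17_i_sum]
    have hX := T.t17_X_nonneg F g G (n + 1) ζ
    have hm0 : (0 : ℝ) ≤ T.m := Nat.cast_nonneg _
    have hpos : 0 ≤ (C1 * wt 2 + 16 * (T.m : ℝ) ^ 4) / wt n * (1 + 1 * T.t17_X F g G (n + 1) ζ ^ 4) := by positivity
    split_ifs with hmem
    · rw [Finset.mem_product, Finset.mem_range] at hmem
      have hxL : T.xv F g G (n + 1) ζ < n + 1 := hmem.2
      have h2 := T.t17_fus_X hF (g := g) G (n + 1) ζ
      have h3 : ((T.fus F g G (n + 1) ζ).card : ℝ) ^ 3 ≤ 1 + 1 * T.t17_X F g G (n + 1) ζ ^ 4 :=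
        (pow_le_pow_left₀ (Nat.cast_nonneg _) h2 3).trans (t17_cube hX)
      have h4 := T.t17_xv_X hF hg G (n + 1) hζ hxL
      have h5 : t17_i (n < 2 * T.xv F g G (n + 1) ζ) ≤ 16 * (T.m : ℝ) ^ 4 / wt n * (1 + 1 * T.t17_X F g G (n + 1) ζ ^ 4) := by
        by_cases h : n < 2 * T.xv F g G (n + 1) ζ
        · rw [t17_i_true h]
          have h6 : (n : ℝ) ≤ 2 * (T.m * T.t17_X F g G (n + 1) ζ) := by
            have : (n : ℝ) < 2 * (T.xv F g G (n + 1) ζ : ℝ) := by exact_mod_cast h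
            linarith
          have h7 : (n : ℝ) ^ 4 ≤ (2 * (T.m * T.t17_X F g G (n + 1) ζ)) ^ 4 := pow_le_pow_left₀ hn0.le h6 4
          have h8 := t17_wt_le n hn
          rw [div_mul_eq_mul_div, le_div_iff₀ hw, one_mul]
          have h9 : (2 * ((T.m : ℝ) * T.t17_X F g G (n + 1) ζ)) ^ 4 = 16 * (T.m : ℝ) ^ 4 * T.t17_X F g G (n + 1) ζ ^ 4 := by ring
          have h10 : 0 ≤ 16 * (T.m : ℝ) ^ 4 := by positivity
          nlinarith
        · rw [t17_i_false h]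
          positivity
      have h6 : C' * ((T.fus F g G (n + 1) ζ).card : ℝ) ^ 3 ≤ C1 * wt 2 / wt n * (1 + 1 * T.t17_X F g G (n + 1) ζ ^ 4) := by
        rw [hC']
        exact mul_le_mul_of_nonneg_left h3 (by positivity)
      have h7 : (C1 * wt 2 + 16 * (T.m : ℝ) ^ 4) / wt n * (1 + 1 * T.t17_X F g G (n + 1) ζ ^ 4) =
          C1 * wt 2 / wt n * (1 + 1 * T.t17_X F g G (n + 1) ζ ^ 4) + 16 * (T.m : ℝ) ^ 4 / wt n * (1 + 1 * T.t17_X F g G (n + 1) ζ ^ 4) := by
        rw [add_div, add_mul]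
      rw [h7]
      exact add_le_add h6 h5
    · exact hpos
  refine hfin.trans ?_
  rw [t17_ex_mul]
  exact mul_le_mul_of_nonneg_left hG (by positivity)

/-- TARGET. ONE WAVE, pointwise upper bound for all forests of at most `M` cones and inputs: in the limit of `law_fin` (`L = n + 1`): `Σ_U Σ_{a ≤ n} p(U, a) [t^(n-a)] Π_{A ∈ U} Y_A`, where the product is bounded by the power of a common majorant: let `ŷ n = max_A yl A n` be replaced by
the sum of `yl` over representatives of types divided suitably, or argue directly as in `conv_pow_le`: one of the `|U|` parts is `≥ (n-a)/|U|`, so `[t^(n-a)] Π ≤ C |U|^3 / wt (n - a)` for `a ≤ n/2`; for `a > n/2` use `Σ_{U} p(U, a)`, `a ≥ n/2`: total at most `P(xv ≥ n/2, xv < L) ≤ 16 E[xv^4]/n^4`.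
Then `K4_fo` with `xv_le`, `fus_card_le'`. -/
theorem TS.one_wave (T : TS D r) (M : ℕ) : ∃ C : ℝ, 0 < C ∧ ∀ F, T.Fo F → F.card ≤ M → ∀ g : V → ℕ, (∀ z ∈ fs F, g z ≤ T.fi F z) → ∀ n : ℕ, 1 ≤ n → ∀ᶠ G in (atTop : Filter (Finset V)),
    pr D r (gp G F) (fun ζ => (gw D r g (gp G F) ζ).card = n) ≤ C / wt n := by
  obtain ⟨c, C1, hc, hC1, n0, hyl⟩ := T.exists_yl
  obtain ⟨K, hK, hK'⟩ := T.K4_fo
  have hw2 := n4_wt_pos (a := 2) (by norm_num)
  refine ⟨2 * ((C1 * wt 2 + 16 * (T.m : ℝ) ^ 4) * (1 + K * (M : ℝ) ^ 4)), by positivity, ?_⟩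
  intro F hF hM g hg n hn
  have hw := n4_wt_pos hn
  have hB : ∀ L : ℕ, ∀ᶠ G in (atTop : Filter (Finset V)), ex D r (gp G F) (fun ζ => 1 + 1 * T.t17_X F g G L ζ ^ 4) ≤ 1 + K * (M : ℝ) ^ 4 := by
    intro L
    filter_upwards [hK' F hF g hg L] with G hG
    rw [T.t17_ex_aff, one_mul]
    have h1 : (F.card : ℝ) ^ 4 ≤ (M : ℝ) ^ 4 := pow_le_pow_left₀ (Nat.cast_nonneg _) (by exact_mod_cast hM) 4
    have h2 := mul_le_mul_of_nonneg_left h1 hK.le
    unfold TS.t17_X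
    linarith
  have h1 := T.t17_sz_le hF hg hC1 (fun A hA hs n hn => (hyl A hA hs).2 n hn) hB n hn
  have h2 : T.t17_sz F g (fun k => k = n) < 2 * ((C1 * wt 2 + 16 * (T.m : ℝ) ^ 4) * (1 + K * (M : ℝ) ^ 4)) / wt n := by
    refine lt_of_le_of_lt h1 ?_
    rw [div_mul_eq_mul_div]
    refine div_lt_div_of_pos_right ?_ hw
    have : 0 < (C1 * wt 2 + 16 * (T.m : ℝ) ^ 4) * (1 + K * (M : ℝ) ^ 4) := by positivity
    linarith
  filter_upwards [(T.t17_lim_sz hF hg (fun k => k = n)).eventually_lt_const h2] with G hG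
  exact hG.le

theorem t17_wt_step (n : ℕ) (hn : 1 ≤ n) : 1 / wt n ≤ 4 / Real.sqrt n - 4 / Real.sqrt ((n + 1 : ℕ) : ℝ) := by
  have hn1 : (1 : ℝ) ≤ n := by exact_mod_cast hn
  obtain ⟨s, hs⟩ : ∃ s, s = Real.sqrt n := ⟨_, rfl⟩
  obtain ⟨t, ht⟩ : ∃ t, t = Real.sqrt ((n + 1 : ℕ) : ℝ) := ⟨_, rfl⟩
  have hs2 : s ^ 2 = n := by rw [hs]; exact Real.sq_sqrt (by linarith)
  have ht2 : t ^ 2 = n + 1 := by
    rw [ht, Real.sq_sqrt (Nat.cast_nonneg _)]
    push_cast
    rfl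
  have hs0 : 0 < s := by rw [hs]; exact Real.sqrt_pos.2 (by linarith)
  have ht0 : 0 < t := by rw [ht]; exact Real.sqrt_pos.2 (by exact_mod_cast Nat.succ_pos n)
  unfold wt
  rw [← hs, ← ht, ← hs2]
  have h1 : 4 / s - 4 / t = 4 / (s * t * (s + t)) := by
    have h2 : (t - s) * (s + t) = 1 := by nlinarith
    rw [div_sub_div _ _ hs0.ne' ht0.ne', div_eq_div_iff (by positivity) (by positivity)]
    linear_combination 4 * (s * t) * h2
  rw [h1, div_le_div_iff₀ (by positivity) (by positivity)]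
  have h3 : s ≤ t := by nlinarith
  have h4 : t ^ 2 ≤ 2 * s ^ 2 := by nlinarith
  have h5 : t * (s + t) ≤ 4 * s ^ 2 := by nlinarith
  nlinarith [mul_le_mul_of_nonneg_left h5 hs0.le]

theorem t17_wt_sum (N M : ℕ) (hN : 1 ≤ N) : ∑ n ∈ Ico N M, 1 / wt n ≤ 4 / Real.sqrt N := by
  rcases Nat.lt_or_ge M N with h | h
  · rw [Finset.Ico_eq_empty (by omega), Finset.sum_empty]
    positivity
  · have h1 : ∑ n ∈ Ico N M, 1 / wt n ≤ 4 / Real.sqrt N - 4 / Real.sqrt M := by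
      induction M, h using Nat.le_induction with
      | base => simp
      | succ M hM ih =>
        rw [Finset.sum_Ico_succ_top hM]
        have := t17_wt_step M (hN.trans hM)
        linarith
    have h2 : 0 ≤ 4 / Real.sqrt M := by positivity
    linarith

/-- TARGET. tail bound: the limits of `pr (|gw| = n)` sum to one by tightness, so `pr (|gw| ≥ N)` has limit `Σ_{n ≥ N} ≤ Σ_{n ≥ N} C/wt n ≤ 3 C/sqrt N` (for `N ≥ 1`) -/
theorem TS.one_tail (T : TS D r) (M : ℕ) : ∃ C : ℝ, 0 < C ∧ ∀ F, T.Fo F → F.card ≤ M → ∀ g : V → ℕ, (∀ z ∈ fs F, g z ≤ T.fi F z) → ∀ N : ℕ, 1 ≤ N → ∀ᶠ G in (atTop : Filter (Finset V)),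
    pr D r (gp G F) (fun ζ => N ≤ (gw D r g (gp G F) ζ).card) ≤ C / Real.sqrt N := by
  obtain ⟨C1, hC1, hw⟩ := T.one_wave M
  refine ⟨5 * C1, by positivity, fun F hF hM g hg N hN => ?_⟩
  have hN0 : (0 : ℝ) < N := by exact_mod_cast hN
  have hsN : 0 < Real.sqrt N := Real.sqrt_pos.2 hN0
  obtain ⟨N1, hN1⟩ := T.tight_size hF hg (C1 / Real.sqrt N) (by positivity)
  have hall : ∀ᶠ G in (atTop : Filter (Finset V)), ∀ n ∈ Ico N (N1 + 1), pr D r (gp G F) (fun ζ => (gw D r g (gp G F) ζ).card = n) ≤ C1 / wt n := by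
    rw [Filter.eventually_all_finset]
    intro n hn
    exact hw F hF hM g hg n (hN.trans (Finset.mem_Ico.1 hn).1)
  filter_upwards [hN1, hall] with G hG1 hG2
  have h1 : pr D r (gp G F) (fun ζ => N ≤ (gw D r g (gp G F) ζ).card) ≤
      ∑ n ∈ Ico N (N1 + 1), pr D r (gp G F) (fun ζ => (gw D r g (gp G F) ζ).card = n) +
        pr D r (gp G F) (fun ζ => N1 < (gw D r g (gp G F) ζ).card) := by
    simp only [t17_pr_eq]
    rw [← t17_ex_sum, ← t17_ex_add]
    refine t17_ex_mono (fun ζ _ => ?_)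
    have h := t17_i_sum (Ico N (N1 + 1)) (gw D r g (gp G F) ζ).card (fun _ => 1)
    simp only [one_mul] at h
    rw [h]
    by_cases h2 : N1 < (gw D r g (gp G F) ζ).card
    · rw [t17_i_true h2]
      have := t17_i_le_one (N ≤ (gw D r g (gp G F) ζ).card)
      split_ifs <;> linarith
    · rw [t17_i_false h2, add_zero]
      by_cases h3 : N ≤ (gw D r g (gp G F) ζ).card
      · rw [t17_i_true h3, if_pos (Finset.mem_Ico.2 ⟨h3, by omega⟩)]
      · rw [t17_i_false h3]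
        split_ifs <;> norm_num
  have h2 : ∑ n ∈ Ico N (N1 + 1), pr D r (gp G F) (fun ζ => (gw D r g (gp G F) ζ).card = n) ≤ C1 * (4 / Real.sqrt N) := by
    calc _ ≤ ∑ n ∈ Ico N (N1 + 1), C1 * (1 / wt n) := Finset.sum_le_sum (fun n hn => by rw [mul_one_div]; exact hG2 n hn)
      _ = C1 * ∑ n ∈ Ico N (N1 + 1), 1 / wt n := by rw [Finset.mul_sum]
      _ ≤ C1 * (4 / Real.sqrt N) := mul_le_mul_of_nonneg_left (t17_wt_sum N (N1 + 1) hN) hC1.le
  have h3 : 5 * C1 / Real.sqrt N = C1 * (4 / Real.sqrt N) + C1 / Real.sqrt N := by ring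
  rw [h3]
  linarith


end Pool.Agent.Helper910.QT
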