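import Mathlib
import Pool.Agent.Helper910.T13

/-! Two waves: the second wave fails with positive probability (MP_4555f0_mp) -/

namespace Pool.Agent.Helper910.QT

open Classical Finset Filter Topology

variable {V : Type*} {D : SimpleGraph V} [D.LocallyFinite] {r : ℕ}

/-- the region of the forest `F` without the cone `A` -/
noncomputable def rg' (G : Finset V) (F : Finset (Set V)) (A : Set V) : Finset V := (gp G F).filter (fun z => z ∉ A)

/-- the wave from the outside reaches `A` (on the region without `A`) -/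
def TS.Dr (T : TS D r) (F : Finset (Set V)) (G : Finset V) (A : Set V) (ξ : V → ℕ) : Prop := rch D (T.fi F) (gw D r (T.fi F) (rg' G F A) ξ) A

/-- input from the outside and from the top piece of `A` -/
noncomputable def TS.ff (T : TS D r) (F : Finset (Set V)) (A : Set V) : V → ℕ := fun z => T.fi F z + dgi D (T.Q A) z

/-- the configuration after the wave from the outside and from the top piece of `A` -/
noncomputable def TS.ps (T : TS D r) (F : Finset (Set V)) (G : Finset V) (A : Set V) (ξ : V → ℕ) : V → ℕ := gs D r 0 (T.ff F A) (rg' G F A) ξ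

/-- the harmonic function of that wave -/
noncomputable def TS.hf (T : TS D r) (F : Finset (Set V)) (G : Finset V) (A : Set V) : V → ℝ := hu D r (T.fo F ∪ T.Q A) (rg' G F A)

/-! helper lemmas -/

theorem t18a_mem {G : Finset V} {F : Finset (Set V)} {A : Set V} {z : V} : z ∈ rg' G F A ↔ (z ∈ G ∧ z ∈ fs F) ∧ z ∉ A := by
  unfold rg' gp
  rw [Finset.mem_filter, mem_prt]

theorem t18a_disj_fo (T : TS D r) {F : Finset (Set V)} (hF : T.Fo F) (G : Finset V) (A : Set V) : Disjoint (T.fo F) (rg' G F A) := by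
  rw [Finset.disjoint_left]
  intro x hx hx'
  exact T.t5b_fo_notMem hF hx (t18a_mem.1 hx').1.2

theorem t18a_disj_Q (T : TS D r) {A : Set V} (hA : T.Cn A) (G : Finset V) (F : Finset (Set V)) : Disjoint (T.Q A) (rg' G F A) := by
  rw [Finset.disjoint_left]
  intro x hx hx'
  exact (t18a_mem.1 hx').2 (T.Q_sub hA hx)

theorem t18a_disj_foQ (T : TS D r) {F : Finset (Set V)} (hF : T.Fo F) {j : ℕ} {A : Set V} (hA : A ∈ T.de F j) :
    Disjoint (T.fo F) (T.Q A) := by
  rw [Finset.disjoint_left]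
  intro x hx hx'
  exact T.t5b_fo_notMem hF hx (T.t5b_sub hF hA (T.Q_sub (T.t5b_cn hF hA) hx'))

theorem t18a_nsum_nonneg {f : V → ℝ} (h : ∀ z, 0 ≤ f z) (z : V) : 0 ≤ nsum D f z :=
  Finset.sum_nonneg fun x _ => h x

/-- comparison of `hu` with `uc` on a cone -/
theorem t18a_cmp (T : TS D r) {X S : Finset V} (hd : Disjoint X S) {C : Set V} (hC : T.Cn C) {G : Finset V} (hX : ∀ z ∈ C, z ∉ X)
    (hS : ∀ z ∈ S, z ∈ G) {z : V} (hz : z ∈ C) : hu D r X S z ≤ T.uc C G z := by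
  have := T.le_uc hC (G := G) (f := hu D r X S) (t := 1) zero_le_one (fun y hy => ?_) (fun y _ => hu_le_one y)
    (fun y hy hyG => ?_) hz
  · rwa [one_mul] at this
  · by_cases hyS : y ∈ S
    · exact (hu_harm T.gd hd hyS).le
    · rw [hu_zero (hX y (t6_mem_gp.1 hy).2) hyS, mul_zero]
      exact t18a_nsum_nonneg (fun x => hu_nonneg x) y
  · exact (hu_zero (hX y hy) (fun h => hyG (hS y h))).le

theorem t18a_o_in (T : TS D r) {C : Set V} (hC : T.Cn C) {k : ℕ} {A : Set V} (hA : A ∈ T.de {C} (k + 1)) {x : V} (hx : x ∈ T.o A) :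
    x ∈ C := by
  obtain ⟨B0, hB0, hch, ho⟩ := T.o_parent (T.fo_single hC) hA
  exact T.de_single_sub hC hB0 (T.Q_sub (T.t5b_cn (T.fo_single hC) hB0) (ho hx))

theorem t18a_rho_le_one (T : TS D r) : T.rho ≤ 1 := T.rho_lt.le

/-- TARGET. -/
theorem TS.ff_eq (T : TS D r) {F : Finset (Set V)} (hF : T.Fo F) {j : ℕ} {A : Set V} (hA : A ∈ T.de F j) : T.ff F A = dgi D (T.fo F ∪ T.Q A) := by
  funext z
  show dg D z (T.fo F) + dg D z (T.Q A) = dg D z (T.fo F ∪ T.Q A)
  rw [dg_union (t18a_disj_foQ T hF hA)]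

/-- TARGET. downward decay: `B ∈ de F i`, `x ∈ o B` or `x ∈ B`: the part of `hf` coming from the outside is at most `ρ^i` (for `i = 0` trivial). Here `A ∈ de {B} k`. Compare on the cone `C ∈ F` containing `B` with `uc C G`. -/
theorem TS.hf_down (T : TS D r) {F : Finset (Set V)} (hF : T.Fo F) {i k : ℕ} {A B : Set V} (hB : B ∈ T.de F i) (hA : A ∈ T.de {B} k) (G : Finset V) {x : V} (hx : x ∈ T.o B) :
    hu D r (T.fo F) (rg' G F A) x ≤ T.rho ^ i := by
  rcases i with _ | i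
  · rw [pow_zero]
    exact hu_le_one x
  · have hB' : B ∈ T.de F (0 + (i + 1)) := by rw [zero_add]; exact hB
    obtain ⟨C, hCF, hBC⟩ := T.ancestor hB'
    have hC : T.Cn C := T.t5b_cn hF hCF
    have hxC : x ∈ C := t18a_o_in T hC hBC hx
    refine (t18a_cmp T (t18a_disj_fo T hF G A) hC (G := G) (fun z hz h => ?_) (fun z hz => (t18a_mem.1 hz).1.1) hxC).trans
      (T.uc_decay hC G hBC (Or.inr hx))
    exact T.t5b_fo_notMem hF h (T.t5b_sub hF hCF hz)

/-- the bound for the Green function -/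
theorem t18a_gr_le (T : TS D r) {c0 : ℝ} (hc0 : 0 < c0) (hgr : ∀ (S : Finset V) (x z : V), gr D r S x z ≤ c0) {F : Finset (Set V)} (hF : T.Fo F)
    {i k : ℕ} {A B : Set V} (hB : B ∈ T.de F i) (hA : A ∈ T.de {B} (k + 1)) (G : Finset V) {x : V} (hx : x ∈ T.o B) {z : V} (hz : z ∈ T.o A) :
    gr D r (rg' G F A) x z ≤ c0 * T.rho ^ (k + 1) := by
  obtain ⟨g1, g2, g3, g4, g5⟩ := gr_spec T.gd (rg' G F A)
  have hBc : T.Cn B := T.t5b_cn hF hB
  have hzB : z ∈ B := t18a_o_in T hBc hA hz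
  rw [g2]
  by_cases hxS : x ∈ rg' G F A
  · have h := T.le_uc hBc (G := G) (f := fun y => gr D r (rg' G F A) y x) (t := c0) hc0.le (fun y hy => ?_) (fun y _ => hgr _ _ _)
      (fun y hy hyG => ?_) hzB
    · exact h.trans (mul_le_mul_of_nonneg_left (T.uc_decay hBc G hA (Or.inr hz)) hc0.le)
    · have hyB := (t6_mem_gp.1 hy).2
      by_cases hyS : y ∈ rg' G F A
      · have h5 := g5 x hxS y hyS
        have hyx : y ≠ x := by
          rintro rfl
          exact T.o_notMem hBc hx hyB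
        rw [if_neg hyx] at h5
        exact (sub_eq_zero.1 h5).le
      · show (r : ℝ) * gr D r (rg' G F A) y x ≤ _
        rw [g3 y x hyS, mul_zero]
        exact t18a_nsum_nonneg (fun v => g1 v x) y
    · exact (g3 y x (fun h => hyG (t18a_mem.1 h).1.1)).le
  · rw [g4 z x hxS]
    have := T.rho_pos
    positivity

/-- TARGET. upward decay by the symmetry of the Green function. With `S = rg' G F A`: `hu (Q A) S x = Σ_{z ∈ S} gr S x z · dg z (Q A)` (`green_rep`), only `z ∈ o A` contribute (`≤ m` of them, `dg ≤ r`), and `gr S x z = gr S z x ≤ c · uc B G z ≤ c ρ^k` for `z ∈ o A`, `x ∈ o B`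
(`k ≥ 1`; the function `z ↦ gr S z x` is subharmonic on `gp G {B}` — it is `0` on `A` — bounded by the constant of `exists_gr`; `le_uc`, `uc_decay`) -/
theorem TS.exists_up (T : TS D r) : ∃ c : ℝ, 0 < c ∧ ∀ F, T.Fo F → ∀ (i k : ℕ) (A B : Set V), B ∈ T.de F i → A ∈ T.de {B} k → 1 ≤ k → ∀ (G : Finset V), ∀ x ∈ T.o B,
    hu D r (T.Q A) (rg' G F A) x ≤ c * T.rho ^ k := by
  obtain ⟨c0, hc0, hgr⟩ := T.exists_gr
  refine ⟨T.m * (r * c0) + 1, by positivity, ?_⟩
  intro F hF i k A B hB hA hk G x hx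
  obtain ⟨k, rfl⟩ : ∃ k', k = k' + 1 := ⟨k - 1, by omega⟩
  have hρ := T.rho_pos
  have hBc : T.Cn B := T.t5b_cn hF hB
  have hAc : T.Cn A := T.t5b_cn (T.fo_single hBc) hA
  have hAF : A ∈ T.de F (i + (k + 1)) := T.de_trans hB hA
  have hd := t18a_disj_Q T hAc G F
  obtain ⟨g1, g2, g3, g4, g5⟩ := gr_spec T.gd (rg' G F A)
  have hxQ : x ∉ T.Q A := fun h => T.o_notMem hBc hx (T.de_single_sub hBc hA (T.Q_sub hAc h))
  have hpow : (0 : ℝ) ≤ T.rho ^ (k + 1) := by positivity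
  by_cases hxS : x ∈ rg' G F A
  · rw [green_rep T.gd (hu D r (T.Q A) (rg' G F A)) hxS]
    have e1 : ∑ z ∈ rg' G F A, gr D r (rg' G F A) x z * ((r : ℝ) * hu D r (T.Q A) (rg' G F A) z
        - nsum D (hu D r (T.Q A) (rg' G F A)) z) = 0 := by
      refine Finset.sum_eq_zero fun z hz => ?_
      rw [hu_harm T.gd hd hz, sub_self, mul_zero]
    have e2 : ∀ z ∈ rg' G F A, ∑ y ∈ (D.neighborFinset z).filter (fun y => y ∉ rg' G F A),
        hu D r (T.Q A) (rg' G F A) y ≤ if z ∈ T.o A then (r : ℝ) else 0 := by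
      intro z hz
      by_cases hzo : z ∈ T.o A
      · rw [if_pos hzo]
        calc ∑ y ∈ (D.neighborFinset z).filter (fun y => y ∉ rg' G F A), hu D r (T.Q A) (rg' G F A) y
            ≤ ∑ y ∈ (D.neighborFinset z).filter (fun y => y ∉ rg' G F A), (1 : ℝ) :=
              Finset.sum_le_sum fun y _ => hu_le_one y
          _ = (((D.neighborFinset z).filter (fun y => y ∉ rg' G F A)).card : ℝ) := by
              rw [Finset.sum_const, nsmul_eq_mul, mul_one]
          _ ≤ ((D.neighborFinset z).card : ℝ) := by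
              exact_mod_cast Finset.card_filter_le _ _
          _ = r := by
              rw [SimpleGraph.card_neighborFinset_eq_degree, T.gd.reg z]
      · rw [if_neg hzo]
        refine (Finset.sum_eq_zero fun y hy => ?_).le
        rw [Finset.mem_filter, SimpleGraph.mem_neighborFinset] at hy
        refine hu_zero (fun hyQ => hzo ?_) hy.2
        exact (T.mem_o hAc z).2 ⟨(t18a_mem.1 hz).2, y, T.Q_sub hAc hyQ, hy.1⟩
    rw [e1, zero_add]
    have e3 : ∑ z ∈ rg' G F A, gr D r (rg' G F A) x z * ∑ y ∈ (D.neighborFinset z).filter (fun y => y ∉ rg' G F A),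
        hu D r (T.Q A) (rg' G F A) y ≤ ∑ z ∈ rg' G F A, gr D r (rg' G F A) x z * (if z ∈ T.o A then (r : ℝ) else 0) :=
      Finset.sum_le_sum fun z hz => mul_le_mul_of_nonneg_left (e2 z hz) (g1 x z)
    refine e3.trans ?_
    have e4 : ∑ z ∈ rg' G F A, gr D r (rg' G F A) x z * (if z ∈ T.o A then (r : ℝ) else 0)
        = ∑ z ∈ (rg' G F A).filter (fun z => z ∈ T.o A), gr D r (rg' G F A) x z * (r : ℝ) := by
      rw [Finset.sum_filter]
      refine Finset.sum_congr rfl fun z _ => ?_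
      split_ifs
      · rfl
      · rw [mul_zero]
    rw [e4]
    have e5 : ∑ z ∈ (rg' G F A).filter (fun z => z ∈ T.o A), gr D r (rg' G F A) x z * (r : ℝ)
        ≤ ∑ z ∈ (rg' G F A).filter (fun z => z ∈ T.o A), (c0 * T.rho ^ (k + 1)) * (r : ℝ) := by
      refine Finset.sum_le_sum fun z hz => ?_
      exact mul_le_mul_of_nonneg_right (t18a_gr_le T hc0 hgr hF hB hA G hx (Finset.mem_filter.1 hz).2) (Nat.cast_nonneg r)
    refine e5.trans ?_
    rw [Finset.sum_const, nsmul_eq_mul]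
    have e6 : (((rg' G F A).filter (fun z => z ∈ T.o A)).card : ℝ) ≤ T.m := by
      have h1 : ((rg' G F A).filter (fun z => z ∈ T.o A)).card ≤ (T.o A).card := by
        refine Finset.card_le_card fun z hz => (Finset.mem_filter.1 hz).2
      exact_mod_cast h1.trans (T.o_card hAc)
    have e7 : (0 : ℝ) ≤ c0 * T.rho ^ (k + 1) * r := by positivity
    have e8 := mul_le_mul_of_nonneg_right e6 e7
    have e9 : ((T.m : ℝ) * (r * c0) + 1) * T.rho ^ (k + 1) = (T.m : ℝ) * (c0 * T.rho ^ (k + 1) * r) + T.rho ^ (k + 1) := by ring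
    rw [e9]
    linarith
  · rw [hu_zero hxQ hxS]
    positivity

theorem t18a_hf_split (T : TS D r) {F : Finset (Set V)} (hF : T.Fo F) {j : ℕ} {A : Set V} (hA : A ∈ T.de F j) (G : Finset V) (x : V) :
    T.hf F G A x = hu D r (T.fo F) (rg' G F A) x + hu D r (T.Q A) (rg' G F A) x := by
  unfold TS.hf
  exact hu_add T.gd (t18a_disj_foQ T hF hA) (t18a_disj_fo T hF G A) (t18a_disj_Q T (T.t5b_cn hF hA) G F) x

/-- TARGET. hence (`hu_add`): there is `N` such that for `i, k ≥ N` the sum of `hf` over `o B` is at most `1/2` -/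
theorem TS.exists_mid (T : TS D r) : ∃ N : ℕ, ∀ F, T.Fo F → ∀ (i k : ℕ) (A B : Set V), B ∈ T.de F i → A ∈ T.de {B} k → N ≤ i → N ≤ k → ∀ (G : Finset V),
    ∑ x ∈ T.o B, T.hf F G A x ≤ 1 / 2 := by
  obtain ⟨c, hc, hup⟩ := T.exists_up
  have hρ := T.rho_pos
  have hρ1 := T.rho_lt
  have hM : (0 : ℝ) < 2 * ((T.m : ℝ) + 1) * (1 + c) := by positivity
  obtain ⟨N, hN⟩ := exists_pow_lt_of_lt_one (show (0 : ℝ) < 1 / (2 * ((T.m : ℝ) + 1) * (1 + c)) by positivity) hρ1
  refine ⟨N + 1, ?_⟩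
  intro F hF i k A B hB hA hi hk G
  have hBc : T.Cn B := T.t5b_cn hF hB
  have hAF : A ∈ T.de F (i + k) := T.de_trans hB hA
  have hb : ∀ x ∈ T.o B, T.hf F G A x ≤ (1 + c) * T.rho ^ N := by
    intro x hx
    rw [t18a_hf_split T hF hAF]
    have h1 := T.hf_down hF hB hA G hx
    have h2 := hup F hF i k A B hB hA (by omega) G x hx
    have h3 : T.rho ^ i ≤ T.rho ^ N := pow_le_pow_of_le_one hρ.le hρ1.le (by omega)
    have h4 : T.rho ^ k ≤ T.rho ^ N := pow_le_pow_of_le_one hρ.le hρ1.le (by omega)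
    have h5 := mul_le_mul_of_nonneg_left h4 hc.le
    have h6 : (1 + c) * T.rho ^ N = T.rho ^ N + c * T.rho ^ N := by ring
    rw [h6]
    linarith
  calc ∑ x ∈ T.o B, T.hf F G A x ≤ ∑ x ∈ T.o B, (1 + c) * T.rho ^ N := Finset.sum_le_sum hb
    _ = ((T.o B).card : ℝ) * ((1 + c) * T.rho ^ N) := by rw [Finset.sum_const, nsmul_eq_mul]
    _ ≤ ((T.m : ℝ) + 1) * ((1 + c) * T.rho ^ N) := by
        have h1 : ((T.o B).card : ℝ) ≤ T.m := by exact_mod_cast T.o_card hBc
        exact mul_le_mul_of_nonneg_right (by linarith) (by positivity)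
    _ ≤ 1 / 2 := by
        have h2 := hN.le
        rw [le_div_iff₀ hM] at h2
        nlinarith

/-- TARGET. `hf` is uniformly small far away: `z ∈ B' ∈ de F L`, `z ∉ A`, `A ∈ de F j`, `j < L`: the ancestor `C1` of `B'` of generation `j + 1` is disjoint from `A`, and `hf ≤ uc C1 G` on `C1`, so `hf z ≤ ρ^(L - j - 1)` -/
theorem TS.hf_far (T : TS D r) {F : Finset (Set V)} (hF : T.Fo F) {j L : ℕ} {A B' : Set V} (hA : A ∈ T.de F j) (hB : B' ∈ T.de F L) (hj : j < L) (G : Finset V) {z : V} (hz : z ∈ B') (hzA : z ∉ A) :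
    T.hf F G A z ≤ T.rho ^ (L - j - 1) := by
  obtain ⟨l, rfl⟩ : ∃ l, L = (j + 1) + l := ⟨L - (j + 1), by omega⟩
  obtain ⟨C1, hC1, hBC⟩ := T.ancestor hB
  have hC1c : T.Cn C1 := T.t5b_cn hF hC1
  have hAc : T.Cn A := T.t5b_cn hF hA
  have hzC : z ∈ C1 := T.de_single_sub hC1c hBC hz
  have hdis : Disjoint A C1 := by
    rcases T.nested hF hA hC1 with h | h
    · exact absurd (h.1 hzC) hzA
    · exact h
  have e : j + 1 + l - j - 1 = l := by omega
  rw [e]
  unfold TS.hf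
  refine (t18a_cmp T (C := C1) (G := G) ?_ hC1c (fun y hy h => ?_) (fun y hy => (t18a_mem.1 hy).1.1) hzC).trans
    (T.uc_decay hC1c G hBC (Or.inl hz))
  · exact Finset.disjoint_union_left.2 ⟨t18a_disj_fo T hF G A, t18a_disj_Q T hAc G F⟩
  · rcases Finset.mem_union.1 h with h | h
    · exact T.t5b_fo_notMem hF h (T.t5b_sub hF hC1 hy)
    · exact Set.disjoint_left.1 hdis (T.Q_sub hAc h) hy

/-- Harnack step: from the outer boundary of `B` to the top piece -/
theorem t18a_step (T : TS D r) {B : Set V} (hB : T.Cn B) {f : V → ℝ} (h0 : ∀ z, 0 ≤ f z)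
    (hf : ∀ z ∈ T.Q B, nsum D f z ≤ (r : ℝ) * f z) {t : ℝ} (ht : ∀ x ∈ T.o B, t ≤ f x) {y : V} (hy : y ∈ T.Q B) :
    t ≤ (r : ℝ) ^ (T.m + 1) * f y := by
  have hr : 1 ≤ r := T.gd.one_le
  have hr' : (1 : ℝ) ≤ r := by exact_mod_cast hr
  obtain ⟨x, hx⟩ := T.o_ne hB
  obtain ⟨y0, hy0, hadj⟩ := T.o_edge hB hx
  have h1 : f x ≤ r * f y0 := harnack1 h0 (hf y0 hy0) hadj.symm
  have h2 : f y0 ≤ (r : ℝ) ^ (T.Q B).card * f y :=
    chain1 (T.Q_conn hB) hr h0 (fun z hz v hv => harnack1 h0 (hf z hz) hv) hy0 hy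
  have h3 : (r : ℝ) ^ (T.Q B).card ≤ (r : ℝ) ^ T.m := pow_le_pow_right₀ hr' (T.Q_card hB)
  have h4 : (r : ℝ) ^ (T.Q B).card * f y ≤ (r : ℝ) ^ T.m * f y := mul_le_mul_of_nonneg_right h3 (h0 y)
  calc t ≤ f x := ht x hx
    _ ≤ r * f y0 := h1
    _ ≤ r * ((r : ℝ) ^ T.m * f y) := mul_le_mul_of_nonneg_left (h2.trans h4) (by positivity)
    _ = (r : ℝ) ^ (T.m + 1) * f y := by ring

/-- lower bound on the top pieces of the ancestors of `A` -/
theorem t18a_low (T : TS D r) {F : Finset (Set V)} (hF : T.Fo F) {j : ℕ} {A : Set V} (hA : A ∈ T.de F (j + 1)) {G : Finset V}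
    (hG : T.up F (j + 1) ⊆ G) : ∀ (i : ℕ) (B : Set V) (k : ℕ), B ∈ T.de F i → A ∈ T.de {B} (k + 1) → i + (k + 1) = j + 1 →
    ∀ y ∈ T.Q B, 1 ≤ (r : ℝ) ^ ((T.m + 1) * (i + 1)) * hu D r (T.fo F) (rg' G F A) y := by
  have hharm : ∀ (i : ℕ) (B : Set V) (k : ℕ), B ∈ T.de F i → A ∈ T.de {B} (k + 1) → i + (k + 1) = j + 1 →
      ∀ y ∈ T.Q B, nsum D (hu D r (T.fo F) (rg' G F A)) y ≤ (r : ℝ) * hu D r (T.fo F) (rg' G F A) y := by
    intro i B k hB hAB hik y hy
    have hBc : T.Cn B := T.t5b_cn hF hB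
    have hyS : y ∈ rg' G F A := by
      rw [t18a_mem]
      refine ⟨⟨hG ?_, T.t5b_sub hF hB (T.Q_sub hBc hy)⟩, T.t5c_Q_desc hBc (Nat.succ_ne_zero k) hAB hy⟩
      rw [T.t5c_mem_up]
      exact ⟨i, by omega, B, hB, hy⟩
    exact (hu_harm T.gd (t18a_disj_fo T hF G A) hyS).ge
  intro i
  induction i with
  | zero =>
    intro B k hB hAB hik y hy
    have hBc : T.Cn B := T.t5b_cn hF hB
    rw [zero_add, mul_one]
    refine t18a_step T hBc (fun z => hu_nonneg z) (hharm 0 B k hB hAB hik) (fun x hx => ?_) hy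
    have hBF : B ∈ F := by rwa [T.de_zero] at hB
    rw [hu_one (T.t5b_mem_fo.2 ⟨B, hBF, hx⟩)]
  | succ i ih =>
    intro B k hB hAB hik y hy
    have hBc : T.Cn B := T.t5b_cn hF hB
    obtain ⟨B0, hB0, hch, ho⟩ := T.o_parent hF hB
    have hB0c : T.Cn B0 := T.t5b_cn hF hB0
    have hB1 : B ∈ T.de {B0} 1 := by
      rw [show (1 : ℕ) = 0 + 1 from rfl, T.de_succ, T.de_zero, Finset.singleton_biUnion]
      exact hch
    have hAB0 : A ∈ T.de {B0} (k + 1 + 1) := by
      have := T.de_trans hB1 hAB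
      rwa [add_comm 1 (k + 1)] at this
    have ih' := ih B0 (k + 1) hB0 hAB0 (by omega)
    have hrp : (0 : ℝ) < r := by
      have := T.gd.one_le
      exact_mod_cast this
    have hP : (0 : ℝ) < (r : ℝ) ^ ((T.m + 1) * (i + 1)) := by positivity
    have h1 := t18a_step T hBc (f := hu D r (T.fo F) (rg' G F A)) (t := ((r : ℝ) ^ ((T.m + 1) * (i + 1)))⁻¹)
      (fun z => hu_nonneg z) (hharm (i + 1) B k hB hAB hik) (fun x hx => ?_) hy
    · have h2 : (r : ℝ) ^ ((T.m + 1) * (i + 1 + 1)) = (r : ℝ) ^ ((T.m + 1) * (i + 1)) * (r : ℝ) ^ (T.m + 1) := by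
        rw [← pow_add]; ring_nf
      rw [h2, mul_assoc]
      rw [inv_le_iff_one_le_mul₀' hP] at h1
      exact h1
    · rw [inv_le_iff_one_le_mul₀' hP]
      exact ih' x (ho hx)

omit [D.LocallyFinite] in
theorem t18a_pr_mono {S : Finset V} {P P' : (V → ℕ) → Prop} (h : ∀ ζ, P ζ → P' ζ) : pr D r S P ≤ pr D r S P' := by
  unfold pr
  refine div_le_div_of_nonneg_right ?_ (Nat.cast_nonneg _)
  exact_mod_cast Finset.card_le_card (Finset.monotone_filter_right _ fun ζ _ => h ζ)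

/-- TARGET. reaching `A` has a probability bounded below: for `x ∈ o A`, `P(Dr) ≥ hu (fo F) (rg' G F A) x ≥ r^(-K)` by Harnack chains along a path from `fo F` to `x` in the first generations (`A ∈ de F (j+1)`; for `A ∈ F` the event `Dr` is certain) -/
theorem TS.Dr_pos (T : TS D r) {F : Finset (Set V)} (hF : T.Fo F) {j : ℕ} {A : Set V} (hA : A ∈ T.de F j) : ∃ c : ℝ, 0 < c ∧ ∀ᶠ G in (atTop : Filter (Finset V)),
    c ≤ pr D r (rg' G F A) (fun ξ => T.Dr F G A ξ) := by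
  have hAc : T.Cn A := T.t5b_cn hF hA
  have hrp : (0 : ℝ) < r := by
    have := T.gd.one_le
    exact_mod_cast this
  rcases j with _ | j
  · have hAF : A ∈ F := by rwa [T.de_zero] at hA
    refine ⟨1, one_pos, Filter.Eventually.of_forall fun G => ?_⟩
    obtain ⟨x, hx⟩ := T.o_ne hAc
    obtain ⟨y, hy, hadj⟩ := T.o_edge hAc hx
    have hall : ∀ ξ : V → ℕ, T.Dr F G A ξ := fun ξ =>
      ⟨y, T.Q_sub hAc hy, Or.inl (TS.t5b_dg_pos (T.t5b_mem_fo.2 ⟨A, hAF, hx⟩) hadj.symm)⟩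
    unfold pr
    rw [Finset.filter_true_of_mem fun ξ _ => hall ξ, div_self]
    exact_mod_cast (T.gd.card_pos _).ne'
  · obtain ⟨x, hx⟩ := T.o_ne hAc
    obtain ⟨B, hB, hch, ho⟩ := T.o_parent hF hA
    have hBc : T.Cn B := T.t5b_cn hF hB
    have hA1 : A ∈ T.de {B} (0 + 1) := by
      rw [T.de_succ, T.de_zero, Finset.singleton_biUnion]
      exact hch
    have hP : (0 : ℝ) < (r : ℝ) ^ ((T.m + 1) * (j + 1)) := by positivity
    refine ⟨((r : ℝ) ^ ((T.m + 1) * (j + 1)))⁻¹, inv_pos.2 hP, ?_⟩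
    filter_upwards [Filter.eventually_ge_atTop (T.up F (j + 1))] with G hG
    have h1 := t18a_low T hF hA hG j B 0 hB hA1 rfl x (ho hx)
    rw [inv_le_iff_one_le_mul₀' hP]
    refine h1.trans (mul_le_mul_of_nonneg_left ?_ hP.le)
    have hxf : x ∉ T.fo F := fun h => T.t5b_fo_notMem hF h (T.t5b_sub hF hB (T.Q_sub hBc (ho hx)))
    rw [hu_eq hxf]
    refine t18a_pr_mono fun ξ hξ => ?_
    obtain ⟨hxA, y, hyA, hadj⟩ := (T.mem_o hAc x).1 hx
    exact ⟨y, hyA, Or.inr ⟨x, hξ, hxA, hadj⟩⟩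

end Pool.Agent.Helper910.QT
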