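import Mathlib
import Pool.Agent.Helper910.T18a

/-! Two waves: the second wave fails with positive probability, part 2 (MP_4555f0_mp) -/

namespace Pool.Agent.Helper910.QT

open Classical Finset Filter Topology

variable {V : Type*} {D : SimpleGraph V} [D.LocallyFinite] {r : ℕ}

/-! ### helper lemmas -/

theorem t18b_mem_rg {G : Finset V} {F : Finset (Set V)} {A : Set V} {z : V} : z ∈ rg' G F A ↔ z ∈ G ∧ z ∈ fs F ∧ z ∉ A := by
  rw [rg', Finset.mem_filter, t7_mem_gp, and_assoc]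

theorem t18b_rg_prt (G : Finset V) (F : Finset (Set V)) (A : Set V) : rg' G F A = prt G {z | z ∈ fs F ∧ z ∉ A} := by
  ext z
  rw [t18b_mem_rg, mem_prt]
  rfl

theorem t18b_disj (T : TS D r) {F : Finset (Set V)} (hF : T.Fo F) {j : ℕ} {A : Set V} (hA : A ∈ T.de F j) (G : Finset V) :
    Disjoint (T.fo F ∪ T.Q A) (rg' G F A) := by
  rw [Finset.disjoint_left]
  intro z hz hz'
  obtain ⟨-, h1, h2⟩ := t18b_mem_rg.1 hz'
  rcases Finset.mem_union.1 hz with h | h
  · exact T.t5b_fo_notMem hF h h1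
  · exact h2 (T.Q_sub (T.t5b_cn hF hA) h)

theorem t18b_adm (T : TS D r) {F : Finset (Set V)} (hF : T.Fo F) {j : ℕ} {A : Set V} (hA : A ∈ T.de F j) (G : Finset V) :
    Adm D r 0 (T.ff F A) (rg' G F A) := by
  rw [T.ff_eq hF hA]
  exact adm_dgi T.gd (t18b_disj T hF hA G)

theorem t18b_pr (H : Gd D r) {S : Finset V} (P : (V → ℕ) → Prop) [DecidablePred P] :
    pr D r S P * ((Rc D r S).card : ℝ) = ∑ ξ ∈ Rc D r S, (if P ξ then (1 : ℝ) else 0) := by
  have hN : ((Rc D r S).card : ℝ) ≠ 0 := by exact_mod_cast (H.card_pos S).ne'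
  unfold pr
  rw [div_mul_cancel₀ _ hN, Finset.card_filter]
  push_cast
  refine Finset.sum_congr rfl fun ξ _ => ?_
  by_cases h : P ξ <;> simp [h]

theorem t18b_dg_ge {W S : Finset V} (hW : W ⊆ S) (z : V) :
    ((dg D z W : ℕ) : ℝ) = ∑ z' ∈ S, (if D.Adj z z' then (if z' ∈ W then (1 : ℝ) else 0) else 0) := by
  rw [dg_eq_sum]
  push_cast
  rw [← Finset.sum_subset hW]
  · refine Finset.sum_congr rfl fun x hx => ?_
    rw [if_pos hx]
  · intro x _ hx
    rw [if_neg hx, ite_self]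

/-- resetting the heights on `P` to `r` is at most `r ^ |P|` to one -/
theorem t18b_pr_le {G P : Finset V} (hP : P ⊆ G) (E E' : (V → ℕ) → Prop)
    (h : ∀ ζ ∈ Rc D r G, E ζ → (fun z => if z ∈ P then r else ζ z) ∈ Rc D r G ∧ E' (fun z => if z ∈ P then r else ζ z)) :
    pr D r G E ≤ (r : ℝ) ^ P.card * pr D r G E' := by
  have h1 := t13_count (D := D) (r := r) hP ((Rc D r G).filter E) ((Rc D r G).filter E') (fun ζ hζ => (Finset.mem_filter.1 hζ).1)
    (fun ζ hζ => Finset.mem_filter.2 (h ζ (Finset.mem_filter.1 hζ).1 (Finset.mem_filter.1 hζ).2))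
  unfold pr
  rw [← mul_div_assoc]
  refine div_le_div_of_nonneg_right ?_ (Nat.cast_nonneg _)
  exact_mod_cast h1

/-- approximate harmonicity, general form -/
theorem t18b_harm (H : Gd D r) {g : V → ℕ} {S : Finset V} (hadm : Adm D r 0 g S) (P : (V → ℕ) → Prop) {z : V} (hz : z ∈ S) :
    |(r : ℝ) * pr D r S (fun ξ => z ∈ gw D r g S ξ ∧ P ξ) - (g z : ℝ) * pr D r S (fun ξ => P ξ) -
      ∑ z' ∈ S, (if D.Adj z z' then pr D r S (fun ξ => z' ∈ gw D r g S ξ ∧ P ξ) else 0)| ≤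
      2 * r * pr D r S (fun ξ => P ξ ∧ ¬ P (gs D r 0 g S ξ)) := by
  have hN : (0 : ℝ) < (Rc D r S).card := by exact_mod_cast H.card_pos S
  have hsum := sum_gs (D := D) (r := r) (w := 0) (g := g) (G := S) hadm (fun ξ => (if P ξ then (1 : ℝ) else 0) * (ξ z : ℝ))
  have hcnt := sum_gs (D := D) (r := r) (w := 0) (g := g) (G := S) hadm (fun ξ => (if P ξ then (1 : ℝ) else 0))
  have hpt : ∀ ξ : V → ℕ, (r : ℝ) * (if z ∈ gw D r g S ξ ∧ P ξ then (1 : ℝ) else 0) - (g z : ℝ) * (if P ξ then (1 : ℝ) else 0) -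
      ∑ z' ∈ S, (if D.Adj z z' then (if z' ∈ gw D r g S ξ ∧ P ξ then (1 : ℝ) else 0) else 0) =
      (if P ξ then (1 : ℝ) else 0) * ((ξ z : ℝ) - (gs D r 0 g S ξ z : ℝ)) := by
    intro ξ
    by_cases hP : P ξ
    · have h1 := gs_balance (D := D) (r := r) (w := 0) (g := g) (ζ := ξ) hz
      have h2 := congrArg (fun n : ℕ => (n : ℝ)) h1
      simp only [Pi.zero_apply, Nat.sub_zero] at h2
      push_cast at h2
      rw [t18b_dg_ge (gw_sub g S ξ) z] at h2
      simp only [hP, and_true, if_true]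
      have h3 : (if z ∈ gw D r g S ξ then (r : ℝ) else 0) = (r : ℝ) * (if z ∈ gw D r g S ξ then (1 : ℝ) else 0) := by
        split_ifs <;> simp
      rw [h3] at h2
      linarith
    · simp [hP]
  have hE : ((r : ℝ) * pr D r S (fun ξ => z ∈ gw D r g S ξ ∧ P ξ) - (g z : ℝ) * pr D r S (fun ξ => P ξ) -
      ∑ z' ∈ S, (if D.Adj z z' then pr D r S (fun ξ => z' ∈ gw D r g S ξ ∧ P ξ) else 0)) * ((Rc D r S).card : ℝ) =
      ∑ ξ ∈ Rc D r S, ((if P (gs D r 0 g S ξ) then (1 : ℝ) else 0) - (if P ξ then (1 : ℝ) else 0)) * (gs D r 0 g S ξ z : ℝ) := by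
    have h1 : ∑ ξ ∈ Rc D r S, ((if P (gs D r 0 g S ξ) then (1 : ℝ) else 0) - (if P ξ then (1 : ℝ) else 0)) * (gs D r 0 g S ξ z : ℝ) =
        ∑ ξ ∈ Rc D r S, (if P ξ then (1 : ℝ) else 0) * ((ξ z : ℝ) - (gs D r 0 g S ξ z : ℝ)) := by
      have h2 : ∑ ξ ∈ Rc D r S, (if P (gs D r 0 g S ξ) then (1 : ℝ) else 0) * (gs D r 0 g S ξ z : ℝ) =
          ∑ ξ ∈ Rc D r S, (if P ξ then (1 : ℝ) else 0) * (ξ z : ℝ) := hsum
      simp only [sub_mul, mul_sub, Finset.sum_sub_distrib]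
      rw [h2]
    rw [h1, ← Finset.sum_congr rfl (fun ξ _ => hpt ξ)]
    rw [Finset.sum_sub_distrib, Finset.sum_sub_distrib, ← Finset.mul_sum, ← Finset.mul_sum, ← t18b_pr H, ← t18b_pr H, Finset.sum_comm,
      sub_mul, sub_mul, Finset.sum_mul]
    have h3 : ∀ z' ∈ S, (if D.Adj z z' then pr D r S (fun ξ => z' ∈ gw D r g S ξ ∧ P ξ) else 0) * ((Rc D r S).card : ℝ) =
        ∑ ξ ∈ Rc D r S, (if D.Adj z z' then (if z' ∈ gw D r g S ξ ∧ P ξ then (1 : ℝ) else 0) else 0) := by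
      intro z' _
      by_cases h : D.Adj z z'
      · simp only [h, if_true]
        exact t18b_pr H _
      · simp [h]
    rw [Finset.sum_congr rfl h3]
    ring
  have hle : ∀ ξ ∈ Rc D r S, ((gs D r 0 g S ξ z : ℕ) : ℝ) ≤ r := by
    intro ξ hξ
    have := (mem_RcW.1 (gs_mem hadm hξ)).1.1 z hz
    exact_mod_cast this.2
  have hB : ∑ ξ ∈ Rc D r S, (if P ξ ∧ ¬ P (gs D r 0 g S ξ) then (1 : ℝ) else 0) =
      ∑ ξ ∈ Rc D r S, (if P (gs D r 0 g S ξ) ∧ ¬ P ξ then (1 : ℝ) else 0) := by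
    have h1 : ∑ ξ ∈ Rc D r S, (if P (gs D r 0 g S ξ) then (1 : ℝ) else 0) = ∑ ξ ∈ Rc D r S, (if P ξ then (1 : ℝ) else 0) := hcnt
    have h2 : ∑ ξ ∈ Rc D r S, ((if P ξ ∧ ¬ P (gs D r 0 g S ξ) then (1 : ℝ) else 0) - (if P (gs D r 0 g S ξ) ∧ ¬ P ξ then (1 : ℝ) else 0)) =
        ∑ ξ ∈ Rc D r S, ((if P ξ then (1 : ℝ) else 0) - (if P (gs D r 0 g S ξ) then (1 : ℝ) else 0)) := by
      refine Finset.sum_congr rfl fun ξ _ => ?_
      by_cases h3 : P ξ <;> by_cases h4 : P (gs D r 0 g S ξ) <;> simp [h3, h4]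
    rw [Finset.sum_sub_distrib, Finset.sum_sub_distrib, h1, sub_self] at h2
    linarith
  have habs : |∑ ξ ∈ Rc D r S, ((if P (gs D r 0 g S ξ) then (1 : ℝ) else 0) - (if P ξ then (1 : ℝ) else 0)) * (gs D r 0 g S ξ z : ℝ)| ≤
      2 * r * (pr D r S (fun ξ => P ξ ∧ ¬ P (gs D r 0 g S ξ)) * ((Rc D r S).card : ℝ)) := by
    refine (Finset.abs_sum_le_sum_abs _ _).trans ?_
    rw [t18b_pr H]
    have h1 : (2 : ℝ) * r * ∑ ξ ∈ Rc D r S, (if P ξ ∧ ¬ P (gs D r 0 g S ξ) then (1 : ℝ) else 0) =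
        ∑ ξ ∈ Rc D r S, (r : ℝ) * ((if P ξ ∧ ¬ P (gs D r 0 g S ξ) then (1 : ℝ) else 0) + (if P (gs D r 0 g S ξ) ∧ ¬ P ξ then (1 : ℝ) else 0)) := by
      rw [← Finset.mul_sum, Finset.sum_add_distrib, ← hB]
      ring
    rw [h1]
    refine Finset.sum_le_sum fun ξ hξ => ?_
    have h2 := hle ξ hξ
    have h3 : (0 : ℝ) ≤ (gs D r 0 g S ξ z : ℕ) := Nat.cast_nonneg _
    by_cases h4 : P ξ <;> by_cases h5 : P (gs D r 0 g S ξ) <;> simp [h4, h5, h2]
  rw [← hE, abs_mul, abs_of_pos hN, ← mul_assoc] at habs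
  exact le_of_mul_le_mul_right habs hN


/-- the configuration off `A` after the wave, when the top piece of `A` is full and `A` is reached -/
theorem t18b_gs_off (T : TS D r) {F : Finset (Set V)} (hF : T.Fo F) {j : ℕ} {A : Set V} (hA : A ∈ T.de F j) {G : Finset V}
    {ζ : V → ℕ} (hζ : ζ ∈ Rc D r (gp G F)) (hr : rch D (T.fi F) (gw D r (T.fi F) (gp G F) ζ) A) (hb : T.fb ζ A) :
    rs (rg' G F A) (gs D r 0 (T.fi F) (gp G F) ζ) = T.ps F G A (rs (rg' G F A) ζ) := by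
  have hcn := T.t5b_cn hF hA
  have hQW := T.fb_sub hF (fun z _ => le_refl _) hA hζ hr hb
  have hnb : ∀ y, y ∉ A → dg D y (gp G {A}) ≤ dg D y (T.Q A) := by
    intro y hy
    refine TS.t5b_dg_le ?_
    intro x hx hyx
    exact (T.ib_sub hcn (t7_mem_gp1.1 hx).2 hy hyx.symm).1
  have h1 : gw D r (T.ff F A) (rg' G F A) (rs (rg' G F A) ζ) ⊆ (gw D r (T.fi F) (gp G F) ζ).filter (fun y => y ∈ rg' G F A) := by
    refine gw_least' ?_
    intro y hy hyW
    have hyW' : y ∉ gw D r (T.fi F) (gp G F) ζ := fun h' => hyW (Finset.mem_filter.2 ⟨h', hy⟩)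
    have hy' := t18b_mem_rg.1 hy
    have h2 := (gw_GCl (D := D) (r := r) (T.fi F) (gp G F) ζ).2 y (t7_mem_gp.2 ⟨hy'.1, hy'.2.1⟩) hyW'
    have h3 : dg D y (T.Q A) + dg D y ((gw D r (T.fi F) (gp G F) ζ).filter (fun y => y ∈ rg' G F A)) ≤ dg D y (gw D r (T.fi F) (gp G F) ζ) := by
      rw [← dg_union]
      · refine dg_mono ?_
        intro x hx
        rcases Finset.mem_union.1 hx with h | h
        · exact hQW x h
        · exact (Finset.mem_filter.1 h).1
      · rw [Finset.disjoint_left]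
        intro x hx hx'
        exact (t18b_mem_rg.1 (Finset.mem_filter.1 hx').2).2.2 (T.Q_sub hcn hx)
    rw [rs_mem hy]
    show ζ y + (T.fi F y + dg D y (T.Q A)) + _ ≤ r
    omega
  have h2 : gw D r (T.fi F) (gp G F) ζ ⊆ gw D r (T.ff F A) (rg' G F A) (rs (rg' G F A) ζ) ∪ gp G {A} := by
    refine gw_least' ?_
    intro y hy hyW
    have hyG := t7_mem_gp.1 hy
    have hyA : y ∉ A := fun h => hyW (Finset.mem_union_right _ (t7_mem_gp1.2 ⟨hyG.1, h⟩))
    have hyr : y ∈ rg' G F A := t18b_mem_rg.2 ⟨hyG.1, hyG.2, hyA⟩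
    have h3 := (gw_GCl (D := D) (r := r) (T.ff F A) (rg' G F A) (rs (rg' G F A) ζ)).2 y hyr (fun h => hyW (Finset.mem_union_left _ h))
    rw [rs_mem hyr] at h3
    have h3' : ζ y + (T.fi F y + dg D y (T.Q A)) + dg D y (gw D r (T.ff F A) (rg' G F A) (rs (rg' G F A) ζ)) ≤ r := h3
    have h4 := hnb y hyA
    have h5 : dg D y (gw D r (T.ff F A) (rg' G F A) (rs (rg' G F A) ζ) ∪ gp G {A}) =
        dg D y (gw D r (T.ff F A) (rg' G F A) (rs (rg' G F A) ζ)) + dg D y (gp G {A}) := by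
      refine dg_union ?_
      rw [Finset.disjoint_left]
      intro x hx hx'
      exact (t18b_mem_rg.1 (gw_sub _ _ _ hx)).2.2 (t7_mem_gp1.1 hx').2
    rw [h5]
    omega
  funext z
  by_cases hz : z ∈ rg' G F A
  · have hz' := t18b_mem_rg.1 hz
    have hzG : z ∈ gp G F := t7_mem_gp.2 ⟨hz'.1, hz'.2.1⟩
    have hiff : z ∈ gw D r (T.fi F) (gp G F) ζ ↔ z ∈ gw D r (T.ff F A) (rg' G F A) (rs (rg' G F A) ζ) := by
      constructor
      · intro h
        rcases Finset.mem_union.1 (h2 h) with h | h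
        · exact h
        · exact absurd (t7_mem_gp1.1 h).2 hz'.2.2
      · intro h
        exact (Finset.mem_filter.1 (h1 h)).1
    have hd1 : dg D z (gw D r (T.ff F A) (rg' G F A) (rs (rg' G F A) ζ)) + dg D z (T.Q A) ≤ dg D z (gw D r (T.fi F) (gp G F) ζ) := by
      rw [← dg_union]
      · refine dg_mono ?_
        intro x hx
        rcases Finset.mem_union.1 hx with h | h
        · exact (Finset.mem_filter.1 (h1 h)).1
        · exact hQW x h
      · rw [Finset.disjoint_left]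
        intro x hx hx'
        exact (t18b_mem_rg.1 (gw_sub _ _ _ hx)).2.2 (T.Q_sub hcn hx')
    have hd2 : dg D z (gw D r (T.fi F) (gp G F) ζ) ≤ dg D z (gw D r (T.ff F A) (rg' G F A) (rs (rg' G F A) ζ)) + dg D z (T.Q A) := by
      refine (dg_mono h2).trans ?_
      have h5 : dg D z (gw D r (T.ff F A) (rg' G F A) (rs (rg' G F A) ζ) ∪ gp G {A}) =
          dg D z (gw D r (T.ff F A) (rg' G F A) (rs (rg' G F A) ζ)) + dg D z (gp G {A}) := by
        refine dg_union ?_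
        rw [Finset.disjoint_left]
        intro x hx hx'
        exact (t18b_mem_rg.1 (gw_sub _ _ _ hx)).2.2 (t7_mem_gp1.1 hx').2
      rw [h5]
      exact Nat.add_le_add_left (hnb z hz'.2.2) _
    rw [rs_mem hz]
    show gs D r 0 (T.fi F) (gp G F) ζ z = gs D r 0 (T.ff F A) (rg' G F A) (rs (rg' G F A) ζ) z
    unfold gs
    rw [if_pos hzG, if_pos hz, rs_mem hz]
    have hif : (if z ∈ gw D r (T.fi F) (gp G F) ζ then r - (0 : V → ℕ) z else 0) =
        (if z ∈ gw D r (T.ff F A) (rg' G F A) (rs (rg' G F A) ζ) then r - (0 : V → ℕ) z else 0) := by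
      by_cases h : z ∈ gw D r (T.fi F) (gp G F) ζ
      · rw [if_pos h, if_pos (hiff.1 h)]
      · rw [if_neg h, if_neg (fun h' => h (hiff.2 h'))]
    rw [hif]
    have hff : T.ff F A z = T.fi F z + dg D z (T.Q A) := rfl
    rw [hff]
    congr 1
    omega
  · rw [rs_notMem hz]
    show 0 = gs D r 0 (T.ff F A) (rg' G F A) (rs (rg' G F A) ζ) z
    unfold gs
    rw [if_neg hz]


/-- TARGET. approximate harmonicity. Let `S = rg' G F A`, `p z = pr S (z ∈ gw (ff) S ξ ∧ Dr ξ)`, `δ = pr S (Dr ξ ∧ ¬ Dr (ps ξ))`. For `z ∈ S`: `|r p z - ff z · pr S Dr - Σ_{z' ∈ S, z' ~ z} p z'| ≤ 2 r δ`.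
(`gs_balance` integrated over `Dr`; `E[ps ξ z ; Dr ξ] - E[ξ z ; Dr ξ] = E[ps ξ z (1_{Dr ξ} - 1_{Dr (ps ξ)})]` by the invariance `sum_gs`, of absolute value at most `r` times the probability of the symmetric difference, which is `2 δ` since both events have the same probability.) -/
theorem TS.appr_harm (T : TS D r) {F : Finset (Set V)} (hF : T.Fo F) {j : ℕ} {A : Set V} (hA : A ∈ T.de F j) (G : Finset V) {z : V} (hz : z ∈ rg' G F A) :
    |(r : ℝ) * pr D r (rg' G F A) (fun ξ => z ∈ gw D r (T.ff F A) (rg' G F A) ξ ∧ T.Dr F G A ξ) -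
        (T.ff F A z : ℝ) * pr D r (rg' G F A) (fun ξ => T.Dr F G A ξ) -
        ∑ z' ∈ rg' G F A, (if D.Adj z z' then pr D r (rg' G F A) (fun ξ => z' ∈ gw D r (T.ff F A) (rg' G F A) ξ ∧ T.Dr F G A ξ) else 0)| ≤
      2 * r * pr D r (rg' G F A) (fun ξ => T.Dr F G A ξ ∧ ¬ T.Dr F G A (T.ps F G A ξ)) :=
  t18b_harm T.gd (t18b_adm T hF hA G) (fun ξ => T.Dr F G A ξ) hz

/-- TARGET. on `Dr` the wave with input `ff` meets `o B` for every `B` with `A ⊂ B`, `B ∈ de F (i+1)` (the wave with the smaller input `fi F` reaches `A ⊆ B`) -/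
theorem TS.Dr_mid (T : TS D r) {F : Finset (Set V)} (hF : T.Fo F) {i k : ℕ} {A B : Set V} (hB : B ∈ T.de F (i + 1)) (hA : A ∈ T.de {B} (k + 1)) (G : Finset V) {ξ : V → ℕ}
    (hξ : ξ ∈ Rc D r (rg' G F A)) (h : T.Dr F G A ξ) : ∃ x ∈ T.o B, x ∈ gw D r (T.ff F A) (rg' G F A) ξ := by
  have hcB := T.t5b_cn hF hB
  have hAB : A ∈ T.de F (i + 1 + (k + 1)) := T.de_trans hB hA
  have hcA := T.t5b_cn hF hAB
  obtain ⟨C, hC, hAC, hoC⟩ := T.o_parent (T.fo_single hcB) hA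
  have hsub : gw D r (T.fi F) (rg' G F A) ξ ⊆ gw D r (T.ff F A) (rg' G F A) ξ :=
    gw_mono (Finset.Subset.refl _) (fun y _ => by unfold TS.ff; omega)
  obtain ⟨z, hzA, hz⟩ := h
  have hz0 : T.fi F z = 0 := T.fi_zero hF (by omega) ⟨A, hAB, hzA⟩
  rcases hz with hz | ⟨x, hx, hxA, hxz⟩
  · omega
  have hxo : x ∈ T.o A := (T.mem_o hcA x).2 ⟨hxA, z, hzA, hxz⟩
  have hxB : x ∈ B := T.de_single_sub hcB hC (T.Q_sub (T.t5b_cn (T.fo_single hcB) hC) (hoC hxo))
  by_contra hno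
  have hnoW : ∀ y ∈ T.o B, y ∉ gw D r (T.fi F) (rg' G F A) ξ := fun y hy hy' => hno ⟨y, hy, hsub hy'⟩
  have hle : gw D r (T.fi F) (rg' G F A) ξ ⊆ (gw D r (T.fi F) (rg' G F A) ξ).filter (fun y => y ∉ B) := by
    refine gw_least' ?_
    intro y hy hyW
    by_cases hyB : y ∈ B
    · have h0 : T.fi F y = 0 := T.fi_zero hF (by omega) ⟨B, hB, hyB⟩
      have h1 : dg D y ((gw D r (T.fi F) (rg' G F A) ξ).filter (fun y => y ∉ B)) = 0 := by
        refine dg_eq_zero ?_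
        intro w hw hyw
        rw [Finset.mem_filter] at hw
        exact hnoW w ((T.mem_o hcB w).2 ⟨hw.2, y, hyB, hyw.symm⟩) hw.1
      rw [h0, h1]
      exact ((mem_Rc.1 hξ).1.1 y hy).2
    · have hyW' : y ∉ gw D r (T.fi F) (rg' G F A) ξ := fun h' => hyW (Finset.mem_filter.2 ⟨h', hyB⟩)
      have h1 := (gw_GCl (D := D) (r := r) (T.fi F) (rg' G F A) ξ).2 y hy hyW'
      exact le_trans (Nat.add_le_add_left (dg_mono (Finset.filter_subset _ _)) _) h1
  exact (Finset.mem_filter.1 (hle hx)).2 hxB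

theorem t18b_pr_mono {S : Finset V} {P Q : (V → ℕ) → Prop} (h : ∀ ζ ∈ Rc D r S, P ζ → Q ζ) : pr D r S P ≤ pr D r S Q := by
  unfold pr
  refine div_le_div_of_nonneg_right ?_ (Nat.cast_nonneg _)
  exact_mod_cast Finset.card_le_card (fun ζ hζ => Finset.mem_filter.2 ⟨(Finset.mem_filter.1 hζ).1, h ζ (Finset.mem_filter.1 hζ).1 (Finset.mem_filter.1 hζ).2⟩)

theorem t18b_pr_false {S : Finset V} {P : (V → ℕ) → Prop} (h : ∀ ζ ∈ Rc D r S, ¬ P ζ) : pr D r S P = 0 := by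
  unfold pr
  rw [Finset.filter_false_of_mem h, Finset.card_empty, Nat.cast_zero, zero_div]

theorem t18b_lim (u : Ultrafilter (Finset V)) (f : Finset V → ℝ) (h0 : ∀ G, 0 ≤ f G) (h1 : ∀ G, f G ≤ 1) :
    ∃ ℓ : ℝ, Tendsto f (u : Filter (Finset V)) (𝓝 ℓ) := by
  obtain ⟨ℓ, -, hℓ⟩ := (isCompact_Icc (a := (0 : ℝ)) (b := 1)).ultrafilter_le_nhds (u.map f) (by
    rw [Filter.le_principal_iff]
    exact Filter.mem_map.2 (Filter.univ_mem' fun G => ⟨h0 G, h1 G⟩))
  exact ⟨ℓ, hℓ⟩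

theorem t18b_nsum_lim {u : Filter (Finset V)} {f : Finset V → V → ℝ} {g : V → ℝ} (h : ∀ z, Tendsto (fun G => f G z) u (𝓝 (g z))) (z : V) :
    Tendsto (fun G => nsum D (f G) z) u (𝓝 (nsum D g z)) := by
  unfold nsum
  exact tendsto_finsetSum _ (fun x _ => h x)

theorem t18b_nsum_ind (S : Finset V) (z : V) : nsum D (fun x => if x ∈ S then (1 : ℝ) else 0) z = (dg D z S : ℝ) := by
  rw [t4_nsum_supp (S := S) (fun x hx => if_neg hx), dg_eq_sum]
  push_cast
  refine Finset.sum_congr rfl fun x hx => ?_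
  rw [if_pos hx]

/-- the number of neighbours as a sum, the main contradiction -/
theorem t18b_main (T : TS D r) {N : ℕ} (hN : ∀ F, T.Fo F → ∀ (i k : ℕ) (A B : Set V), B ∈ T.de F i → A ∈ T.de {B} k → N ≤ i → N ≤ k → ∀ (G : Finset V),
    ∑ x ∈ T.o B, T.hf F G A x ≤ 1 / 2) {F : Finset (Set V)} (hF : T.Fo F) {j : ℕ} (hj : 2 * N + 2 ≤ j) {A : Set V} (hA : A ∈ T.de F j)
    (u : Ultrafilter (Finset V)) (hua : (u : Filter (Finset V)) ≤ atTop)
    (hδ : Tendsto (fun G => pr D r (rg' G F A) (fun ξ => T.Dr F G A ξ ∧ ¬ T.Dr F G A (T.ps F G A ξ))) (u : Filter (Finset V)) (𝓝 0)) : False := by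
  have hcn := T.t5b_cn hF hA
  obtain ⟨src, hsrc⟩ : ∃ src : Finset V, src = T.fo F ∪ T.Q A := ⟨_, rfl⟩
  obtain ⟨P, hP⟩ : ∃ P : Set V, P = {z | z ∈ fs F ∧ z ∉ A} := ⟨_, rfl⟩
  have hsP : ∀ z ∈ src, z ∉ P := by
    intro z hz hzP
    rw [hP] at hzP
    rw [hsrc, Finset.mem_union] at hz
    rcases hz with h | h
    · exact T.t5b_fo_notMem hF h hzP.1
    · exact hzP.2 (T.Q_sub hcn h)
  have hrg : ∀ G, rg' G F A = prt G P := fun G => by rw [hP]; exact t18b_rg_prt G F A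
  have hmem : ∀ G z, z ∈ rg' G F A ↔ z ∈ G ∧ z ∈ P := fun G z => by rw [hrg, mem_prt]
  have hdisj : ∀ G, Disjoint src (rg' G F A) := fun G => by rw [hsrc]; exact t18b_disj T hF hA G
  have hff : T.ff F A = dgi D src := by rw [hsrc]; exact T.ff_eq hF hA
  obtain ⟨p, hp⟩ : ∃ p : Finset V → V → ℝ, p = fun G z => pr D r (rg' G F A) (fun ξ => z ∈ gw D r (T.ff F A) (rg' G F A) ξ ∧ T.Dr F G A ξ) := ⟨_, rfl⟩
  obtain ⟨q, hq⟩ : ∃ q : Finset V → ℝ, q = fun G => pr D r (rg' G F A) (fun ξ => T.Dr F G A ξ) := ⟨_, rfl⟩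
  have hp0 : ∀ G z, 0 ≤ p G z := fun G z => by rw [hp]; exact t10_pr_nonneg _
  have hpq : ∀ G z, p G z ≤ q G := fun G z => by rw [hp, hq]; exact t18b_pr_mono (fun ζ _ h => h.2)
  have hq1 : ∀ G, q G ≤ 1 := fun G => by rw [hq]; exact t8_pr_le_one _ _
  have hpz : ∀ G z, z ∉ rg' G F A → p G z = 0 := fun G z hz => by
    rw [hp]
    exact t18b_pr_false (fun ζ _ h => hz (gw_sub _ _ _ h.1))
  have hph : ∀ G z, z ∉ src → p G z ≤ T.hf F G A z := fun G z hz => by
    rw [TS.hf, ← hsrc, hu_eq hz, hp, ← hff]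
    exact t18b_pr_mono (fun ζ _ h => h.1)
  choose p' hp' using fun z => t18b_lim u (fun G => p G z) (fun G => hp0 G z) (fun G => (hpq G z).trans (hq1 G))
  obtain ⟨q', hq'⟩ := t18b_lim u q (fun G => (hp0 G (Classical.choice ⟨(T.cn_ne hcn).some⟩)).trans (hpq G _)) hq1
  have hlim := fun z => hu_lim T.gd src P hsP z
  choose h hh hhle using hlim
  have hhf : ∀ z, Tendsto (fun G => T.hf F G A z) atTop (𝓝 (h z)) := by
    intro z
    have h1 := hh z
    have h2 : (fun G => T.hf F G A z) = fun G => hu D r src (prt G P) z := by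
      funext G
      rw [TS.hf, hrg, hsrc]
    rw [h2]
    exact h1
  obtain ⟨c, hc, hcev⟩ := T.Dr_pos hF hA
  have hcq : c ≤ q' := by
    refine ge_of_tendsto hq' (hua ?_)
    filter_upwards [hcev] with G hG
    rw [hq]
    exact hG
  have hq0 : 0 < q' := hc.trans_le hcq
  have hq'1 : q' ≤ 1 := le_of_tendsto hq' (Filter.Eventually.of_forall hq1)
  have hp'0 : ∀ z, 0 ≤ p' z := fun z => ge_of_tendsto (hp' z) (Filter.Eventually.of_forall (fun G => hp0 G z))
  have hp'h : ∀ z, z ∉ src → p' z ≤ h z := fun z hz =>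
    le_of_tendsto_of_tendsto (hp' z) ((hhf z).mono_left hua) (Filter.Eventually.of_forall (fun G => hph G z hz))
  have hp'z : ∀ z, z ∉ P → p' z = 0 := fun z hz => by
    have h1 : (fun G => p G z) = fun _ => 0 := by
      funext G
      exact hpz G z (fun h => hz ((hmem G z).1 h).2)
    have h2 := hp' z
    rw [h1] at h2
    exact tendsto_nhds_unique h2 tendsto_const_nhds |>.symm ▸ rfl
  have hhs : ∀ z ∈ src, h z = 1 := fun z hz => by
    have h1 : (fun G => T.hf F G A z) = fun _ => 1 := by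
      funext G
      rw [TS.hf, ← hsrc]
      exact hu_one hz
    have h2 := hhf z
    rw [h1] at h2
    exact (tendsto_nhds_unique h2 tendsto_const_nhds)
  have hhz : ∀ z, z ∉ src → z ∉ P → h z = 0 := fun z hz hz' => by
    have h1 : (fun G => T.hf F G A z) = fun _ => 0 := by
      funext G
      rw [TS.hf, ← hsrc]
      exact hu_zero hz (fun h => hz' ((hmem G z).1 h).2)
    have h2 := hhf z
    rw [h1] at h2
    exact (tendsto_nhds_unique h2 tendsto_const_nhds)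
  have hPev : ∀ z ∈ P, ∀ᶠ G in (atTop : Filter (Finset V)), z ∈ rg' G F A := by
    intro z hz
    filter_upwards [Filter.eventually_ge_atTop ({z} : Finset V)] with G hG
    exact (hmem G z).2 ⟨hG (Finset.mem_singleton_self z), hz⟩
  have hhharm : ∀ z ∈ P, (r : ℝ) * h z = nsum D h z := by
    intro z hz
    refine tendsto_nhds_unique ((hhf z).const_mul (r : ℝ)) ?_
    refine (t18b_nsum_lim hhf z).congr' ?_
    filter_upwards [hPev z hz] with G hG
    exact (hu_harm T.gd (by rw [← hsrc]; exact hdisj G) hG).symm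
  have hpharm : ∀ z ∈ P, (r : ℝ) * p' z = (dg D z src : ℝ) * q' + nsum D p' z := by
    intro z hz
    have h1 : Tendsto (fun G => |(r : ℝ) * p G z - (dg D z src : ℝ) * q G - nsum D (p G) z|) (u : Filter (Finset V))
        (𝓝 |(r : ℝ) * p' z - (dg D z src : ℝ) * q' - nsum D p' z|) :=
      ((((hp' z).const_mul (r : ℝ)).sub (hq'.const_mul _)).sub (t18b_nsum_lim hp' z)).abs
    have h2 := hδ.const_mul (2 * (r : ℝ))
    rw [mul_zero] at h2
    have h3 : |(r : ℝ) * p' z - (dg D z src : ℝ) * q' - nsum D p' z| ≤ 0 := by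
      refine le_of_tendsto_of_tendsto h1 h2 (hua ?_)
      filter_upwards [hPev z hz] with G hG
      have h4 := T.appr_harm hF hA G hG
      have h5 : nsum D (p G) z = ∑ z' ∈ rg' G F A, (if D.Adj z z' then p G z' else 0) := t4_nsum_supp (fun x hx => hpz G x hx) z
      rw [h5]
      rw [hff] at h4
      rw [hp, hq]
      simp only [hff]
      exact h4
    have h4 := abs_nonpos_iff.1 h3
    linarith
  -- the function `v`
  have hv : ∀ z, (if z ∈ src then (1 : ℝ) else 0) + q'⁻¹ * p' z - h z = 0 := by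
    refine T.gd.maxP_inf (P := P) ?_ ?_ ?_
    · intro z hz
      rw [t4_nsum_sub, t4_nsum_add, t18b_nsum_ind]
      have h1 : nsum D (fun x => q'⁻¹ * p' x) z = q'⁻¹ * nsum D p' z := by
        unfold nsum
        rw [Finset.mul_sum]
      rw [h1, ← hhharm z hz, if_neg (fun h => hsP z h hz)]
      have h2 := hpharm z hz
      have h3 : nsum D p' z = (r : ℝ) * p' z - (dg D z src : ℝ) * q' := by linarith
      rw [h3]
      field_simp
      ring
    · intro z hz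
      by_cases hs : z ∈ src
      · rw [if_pos hs, hp'z z hz, hhs z hs]
        ring
      · rw [if_neg hs, hp'z z hz, hhz z hs hz]
        ring
    · intro ε hε
      obtain ⟨n, hn⟩ := exists_pow_lt_of_lt_one (mul_pos hε hq0) T.rho_lt
      refine ⟨src ∪ T.up F (j + 1 + n), fun z hz => ?_⟩
      rw [Finset.mem_union, not_or] at hz
      obtain ⟨hzs, hzu⟩ := hz
      rw [if_neg hzs]
      by_cases hzP : z ∈ P
      · have hz' := hzP
        rw [hP] at hz'
        obtain ⟨hzF, hzA⟩ := hz'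
        rcases (T.mem_fs_iff hF (j + 1 + n) z).1 hzF with h1 | ⟨B', hB', hzB'⟩
        · exact absurd h1 hzu
        have h2 : h z ≤ ε * q' := by
          refine le_of_tendsto (hhf z) (Filter.Eventually.of_forall (fun G => ?_))
          have h3 := T.hf_far hF hA hB' (by omega) G hzB' hzA
          have h4 : j + 1 + n - j - 1 = n := by omega
          rw [h4] at h3
          exact h3.trans hn.le
        have h0 : 0 ≤ h z := (hp'0 z).trans (hp'h z hzs)
        have h5 : q'⁻¹ * p' z ≤ ε := by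
          rw [inv_mul_le_iff₀ hq0]
          calc p' z ≤ h z := hp'h z hzs
            _ ≤ ε * q' := h2
            _ = q' * ε := mul_comm _ _
        have h6 : 0 ≤ q'⁻¹ * p' z := mul_nonneg (inv_nonneg.2 hq0.le) (hp'0 z)
        have h7 : h z ≤ ε := h2.trans (by nlinarith)
        rw [abs_le]
        constructor <;> linarith
      · rw [hp'z z hzP, hhz z hzs hzP]
        simp [hε.le]
  -- the ancestor
  obtain ⟨k, hk⟩ : ∃ k, j = N + 1 + (k + 1) := ⟨j - (N + 2), by omega⟩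
  rw [hk] at hA
  obtain ⟨B, hB, hAB⟩ := T.ancestor hA
  have h1 : ∑ x ∈ T.o B, h x ≤ 1 / 2 := by
    refine le_of_tendsto (tendsto_finsetSum _ (fun x _ => hhf x)) (Filter.Eventually.of_forall (fun G => ?_))
    exact hN F hF (N + 1) (k + 1) A B hB hAB (by omega) (by omega) G
  have h2 : q' ≤ ∑ x ∈ T.o B, p' x := by
    refine le_of_tendsto_of_tendsto hq' (tendsto_finsetSum _ (fun x _ => hp' x)) (Filter.Eventually.of_forall (fun G => ?_))
    rw [hp, hq]
    refine t8_pr_union (fun ζ hζ hD => ?_)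
    obtain ⟨x, hx, hxw⟩ := T.Dr_mid hF hB hAB G hζ hD
    exact ⟨x, hx, hxw, hD⟩
  have h3 : (1 : ℝ) ≤ ∑ x ∈ T.o B, h x := by
    have h4 : ∑ x ∈ T.o B, q'⁻¹ * p' x ≤ ∑ x ∈ T.o B, h x := by
      refine Finset.sum_le_sum fun x _ => ?_
      have h5 := hv x
      have h6 : (0 : ℝ) ≤ if x ∈ src then (1 : ℝ) else 0 := by split_ifs <;> norm_num
      linarith
    rw [← Finset.mul_sum] at h4
    refine le_trans ?_ h4
    rw [← inv_mul_cancel₀ hq0.ne']
    exact mul_le_mul_of_nonneg_left h2 (inv_nonneg.2 hq0.le)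
  linarith

/-- TARGET. THE SECOND WAVE FAILS WITH POSITIVE PROBABILITY. `N` from `exists_mid`; `A ∈ de F j` with `j ≥ 2N + 2`. Suppose not: then there is an ultrafilter `u ≤ atTop` on `Finset V` along which `pr (Dr ∧ ¬ Dr ∘ ps) → 0`. Let `v z` be the limit along `u` of `pr (z ∈ gw ff ∧ Dr)/pr Dr` for `z ∈ P := fs F \ A`, `v = 1` on the
sources `fo F ∪ Q A`, `0` elsewhere; by `appr_harm` and `Dr_pos` `v` is harmonic on `P`. Let `h` be the limit of `hf F G A` (`hu_lim`), harmonic on `P` with the same boundary values. `0 ≤ v ≤ c^(-1) h` and `h` tends to `0` at infinity (`hf_far`), so `v = h` by `maxP_inf` applied to `v - h`. For the ancestor `B` of `A` of generation `i = N + 1`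
(`k = j - i ≥ N + 1`), `Dr_mid` gives `Σ_{x ∈ o B} v x ≥ 1`, while `Σ_{x ∈ o B} h x ≤ 1/2` (`exists_mid`). -/
theorem TS.exists_fail (T : TS D r) : ∃ N : ℕ, ∀ F, T.Fo F → ∀ j, N ≤ j → ∀ A ∈ T.de F j, ∃ c : ℝ, 0 < c ∧ ∀ᶠ G in (atTop : Filter (Finset V)),
    c ≤ pr D r (rg' G F A) (fun ξ => T.Dr F G A ξ ∧ ¬ T.Dr F G A (T.ps F G A ξ)) := by
  obtain ⟨N, hN⟩ := T.exists_mid
  refine ⟨2 * N + 2, fun F hF j hj A hA => ?_⟩
  by_contra hno
  push Not at hno
  have hcl : MapClusterPt (0 : ℝ) (atTop : Filter (Finset V))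
      (fun G => pr D r (rg' G F A) (fun ξ => T.Dr F G A ξ ∧ ¬ T.Dr F G A (T.ps F G A ξ))) := by
    rw [mapClusterPt_iff_frequently]
    intro s hs
    obtain ⟨ε, hε, hεs⟩ := Metric.mem_nhds_iff.1 hs
    refine (hno ε hε).mono ?_
    intro G hG
    refine hεs ?_
    rw [Metric.mem_ball, Real.dist_eq, sub_zero, abs_of_nonneg (t10_pr_nonneg _)]
    exact hG
  obtain ⟨u, hua, hu0⟩ := mapClusterPt_iff_ultrafilter.1 hcl
  exact t18b_main T hN hF hj hA u hua hu0

/-- TARGET. consequence on `gp G F`: with positive probability `A` is reached and a full piece and the second full wave does not reach `A`. For `ξ` as in `exists_fail`, the configuration `ζ = ξ` off `A`, `r` on `Q A`, arbitrary recurrent below is recurrent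
(`piv_mem`, `G1 = rg' G F A`, `S = Q A`, `B = gp G (ch A)`, input `fi F`), after the first wave it equals `ps F G A ξ` off `A` (`piv_gs1`; the wave on `G1 ∪ S` restricted to `G1` is the wave with input `ff` since all of `Q A` topples), and the second wave reaches `A` iff it does on `rg'` (`rch_off`).
The proportion is at least that of `ξ` divided by `r^m`. -/
theorem TS.exists_fail2 (T : TS D r) : ∃ N : ℕ, ∀ F, T.Fo F → ∀ j, N ≤ j → ∀ A ∈ T.de F j, ∃ c : ℝ, 0 < c ∧ ∀ᶠ G in (atTop : Filter (Finset V)),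
    c ≤ pr D r (gp G F) (fun ζ => T.fb ζ A ∧ rch D (T.fi F) (gw D r (T.fi F) (gp G F) ζ) A ∧
      ¬ rch D (T.fi F) (gw D r (T.fi F) (gp G F) (gs D r 0 (T.fi F) (gp G F) ζ)) A) := by
  obtain ⟨N, hN⟩ := T.exists_fail
  refine ⟨N, fun F hF j hj A hA => ?_⟩
  obtain ⟨c, hc, hev⟩ := hN F hF j hj A hA
  have hr0 : (0 : ℝ) < (r : ℝ) ^ T.m := by
    have := T.gd.one_le
    positivity
  have hcn := T.t5b_cn hF hA
  refine ⟨T.c0 * c / (r : ℝ) ^ T.m, div_pos (mul_pos T.c0_pos hc) hr0, ?_⟩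
  filter_upwards [hev, Filter.eventually_ge_atTop (T.Q A)] with G hG hQG
  have hQ : T.Q A ⊆ gp G F := fun z hz => t7_mem_gp.2 ⟨hQG hz, T.t5b_sub hF hA (T.Q_sub hcn hz)⟩
  have hcard := t18b_pr_le (D := D) (r := r) hQ (fun ζ => T.Dr F G A (rs (rg' G F A) ζ) ∧ ¬ T.Dr F G A (T.ps F G A (rs (rg' G F A) ζ)))
    (fun ζ => T.fb ζ A ∧ rch D (T.fi F) (gw D r (T.fi F) (gp G F) ζ) A ∧
      ¬ rch D (T.fi F) (gw D r (T.fi F) (gp G F) (gs D r 0 (T.fi F) (gp G F) ζ)) A) ?_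
  · have hpos : (0 : ℝ) < (Rc D r (gp G F)).card := by exact_mod_cast T.gd.card_pos (gp G F)
    have h1 := T.two_marg hF hA G (fun ξ => if T.Dr F G A ξ ∧ ¬ T.Dr F G A (T.ps F G A ξ) then (1 : ℝ) else 0)
      (fun ξ => by split_ifs <;> norm_num)
    have h2 : pr D r (rg' G F A) (fun ξ => T.Dr F G A ξ ∧ ¬ T.Dr F G A (T.ps F G A ξ)) =
        ex D r (rg' G F A) (fun ξ => if T.Dr F G A ξ ∧ ¬ T.Dr F G A (T.ps F G A ξ) then (1 : ℝ) else 0) := by
      have h3 := t18b_pr T.gd (S := rg' G F A) (fun ξ => T.Dr F G A ξ ∧ ¬ T.Dr F G A (T.ps F G A ξ))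
      have h4 : (0 : ℝ) < (Rc D r (rg' G F A)).card := by exact_mod_cast T.gd.card_pos _
      unfold ex
      rw [eq_div_iff h4.ne']
      exact h3
    have h5 : pr D r (gp G F) (fun ζ => T.Dr F G A (rs (rg' G F A) ζ) ∧ ¬ T.Dr F G A (T.ps F G A (rs (rg' G F A) ζ))) =
        ex D r (gp G F) (fun ζ => (fun ξ => if T.Dr F G A ξ ∧ ¬ T.Dr F G A (T.ps F G A ξ) then (1 : ℝ) else 0) (rs (rg' G F A) ζ)) := by
      have h3 := t18b_pr T.gd (S := gp G F) (fun ζ => T.Dr F G A (rs (rg' G F A) ζ) ∧ ¬ T.Dr F G A (T.ps F G A (rs (rg' G F A) ζ)))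
      unfold ex
      rw [eq_div_iff hpos.ne']
      exact h3
    have h1' : pr D r (rg' G F A) (fun ξ => T.Dr F G A ξ ∧ ¬ T.Dr F G A (T.ps F G A ξ)) ≤
        T.c0⁻¹ * pr D r (gp G F) (fun ζ => T.Dr F G A (rs (rg' G F A) ζ) ∧ ¬ T.Dr F G A (T.ps F G A (rs (rg' G F A) ζ))) := by
      rw [h2, h5]
      exact h1
    rw [inv_mul_eq_div, le_div_iff₀ T.c0_pos] at h1'
    have h6 : (r : ℝ) ^ (T.Q A).card ≤ (r : ℝ) ^ T.m := by
      exact_mod_cast Nat.pow_le_pow_right T.gd.one_le (T.Q_card hcn)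
    have h7 := hcard.trans (mul_le_mul_of_nonneg_right h6 (t10_pr_nonneg _))
    rw [div_le_iff₀ hr0]
    have h10 : T.c0 * c ≤ pr D r (rg' G F A) (fun ξ => T.Dr F G A ξ ∧ ¬ T.Dr F G A (T.ps F G A ξ)) * T.c0 := by
      rw [mul_comm T.c0 c]
      exact mul_le_mul_of_nonneg_right hG T.c0_pos.le
    refine (h10.trans (h1'.trans h7)).trans (le_of_eq (mul_comm _ _))
  · intro ζ hζ hDD
    obtain ⟨hD, hD'⟩ := hDD
    obtain ⟨ξ, hξ⟩ : ∃ ξ : V → ℕ, ξ = fun z => if z ∈ T.Q A then r else ζ z := ⟨_, rfl⟩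
    rw [← hξ]
    have hcfg := (mem_Rc.1 hζ).1
    have hξR : ξ ∈ Rc D r (gp G F) := by
      refine raise_mem hζ ?_ ?_ ?_
      · intro z hz
        rw [hξ]
        dsimp only
        split_ifs
        · exact (hcfg.1 z hz).2
        · exact le_refl _
      · intro z hz
        rw [hξ]
        dsimp only
        split_ifs
        · exact le_refl _
        · exact (hcfg.1 z hz).2
      · intro z hz
        rw [hξ]
        dsimp only
        rw [if_neg (fun h => hz (hQ h))]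
        exact hcfg.2 z hz
    have hfb : T.fb ξ A := by
      intro z hz
      rw [hξ]
      exact if_pos hz
    have hrs : rs (rg' G F A) ξ = rs (rg' G F A) ζ := by
      funext z
      by_cases hz : z ∈ rg' G F A
      · rw [rs_mem hz, rs_mem hz, hξ]
        exact if_neg (fun h => (t18b_mem_rg.1 hz).2.2 (T.Q_sub hcn h))
      · rw [rs_notMem hz, rs_notMem hz]
    have hrch : rch D (T.fi F) (gw D r (T.fi F) (gp G F) ξ) A := by
      rw [T.rch_off hF hA hξR]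
      have : T.Dr F G A (rs (rg' G F A) ξ) := by rw [hrs]; exact hD
      exact this
    refine ⟨hξR, hfb, hrch, ?_⟩
    have hgsR : gs D r 0 (T.fi F) (gp G F) ξ ∈ Rc D r (gp G F) :=
      gs_mem (T.adm_fi hF (fun z _ => le_refl _) G) hξR
    rw [T.rch_off hF hA hgsR]
    have h1 : ¬ T.Dr F G A (rs (rg' G F A) (gs D r 0 (T.fi F) (gp G F) ξ)) := by
      rw [t18b_gs_off T hF hA hξR hrch hfb, hrs]
      exact hD'
    exact h1

end Pool.Agent.Helper910.QT
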