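import Mathlib
import Pool.Agent.Helper910.T18b
import Pool.Agent.Helper910.T15

/-! Two waves: decay of the number of cones reached twice (MP_4555f0_mp) -/

namespace Pool.Agent.Helper910.QT

open Classical Finset Filter Topology

variable {V : Type*} {D : SimpleGraph V} [D.LocallyFinite] {r : ℕ}

/-- number of special full pieces strictly above `A` (`A ∈ de F j`) -/
noncomputable def TS.na (T : TS D r) (F : Finset (Set V)) (j : ℕ) (ζ : V → ℕ) (A : Set V) : ℕ :=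
  ((T.dl F j).filter (fun B => T.sp B ∧ A ⊂ B ∧ T.fb ζ B)).card

/-- reached by the first full wave -/
def TS.r1 (T : TS D r) (F : Finset (Set V)) (G : Finset V) (ζ : V → ℕ) (A : Set V) : Prop := rch D (T.fi F) (gw D r (T.fi F) (gp G F) ζ) A

/-- reached by the second full wave -/
def TS.r2 (T : TS D r) (F : Finset (Set V)) (G : Finset V) (ζ : V → ℕ) (A : Set V) : Prop := T.r1 F G (gs D r 0 (T.fi F) (gp G F) ζ) A

/-- number of units of depth `p` in generation `j` -/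
noncomputable def TS.ku (T : TS D r) (F : Finset (Set V)) (p : ℕ) (G : Finset V) (j : ℕ) (ζ : V → ℕ) : ℕ :=
  ((T.de F j).filter (fun A => T.sp A ∧ T.fb ζ A ∧ T.r1 F G ζ A ∧ T.na F j ζ A = p)).card

/-- number of units of depth `p` in generation `j` which are reached by the second full wave -/
noncomputable def TS.kt (T : TS D r) (F : Finset (Set V)) (p : ℕ) (G : Finset V) (j : ℕ) (ζ : V → ℕ) : ℕ :=
  ((T.de F j).filter (fun A => T.sp A ∧ T.fb ζ A ∧ T.r1 F G ζ A ∧ T.na F j ζ A = p ∧ T.r2 F G ζ A)).card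

/-- number of reached cones in generation `j` with at most `p` special full pieces strictly above -/
noncomputable def TS.kf (T : TS D r) (F : Finset (Set V)) (p : ℕ) (G : Finset V) (j : ℕ) (ζ : V → ℕ) : ℕ :=
  ((T.de F j).filter (fun A => T.r1 F G ζ A ∧ T.na F j ζ A ≤ p)).card

/-- limits -/
noncomputable def TS.kL (T : TS D r) (F : Finset (Set V)) (p j : ℕ) : ℝ := T.lm F (fun G ζ => (T.ku F p G j ζ : ℝ))

noncomputable def TS.tL (T : TS D r) (F : Finset (Set V)) (p j : ℕ) : ℝ := T.lm F (fun G ζ => (T.kt F p G j ζ : ℝ))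

noncomputable def TS.fL (T : TS D r) (F : Finset (Set V)) (p j : ℕ) : ℝ := T.lm F (fun G ζ => (T.kf F p G j ζ : ℝ))

theorem t19_mem_dl (T : TS D r) {F : Finset (Set V)} {L : ℕ} {B : Set V} : B ∈ T.dl F L ↔ ∃ i < L, B ∈ T.de F i := by
  unfold TS.dl
  simp only [Finset.mem_biUnion, Finset.mem_range]

/-- no special full piece strictly above -/
theorem t19_na_zero (T : TS D r) {F : Finset (Set V)} (hF : T.Fo F) {j : ℕ} {A : Set V} (hA : A ∈ T.de F j) (ζ : V → ℕ) :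
    T.na F j ζ A = 0 ↔ T.nab T.sp F ζ A := by
  unfold TS.na TS.nab
  rw [Finset.card_eq_zero, Finset.filter_eq_empty_iff]
  constructor
  · intro h i B hB hs hss hb
    exact h ((t19_mem_dl T).2 ⟨i, T.lt_of_ssub hF hB hA hss, hB⟩) ⟨hs, hss, hb⟩
  · intro h B hB hc
    obtain ⟨i, _, hB'⟩ := (t19_mem_dl T).1 hB
    exact h i B hB' hc.1 hc.2.1 hc.2.2

theorem t19_rs_eq (T : TS D r) {F : Finset (Set V)} {A : Set V} {G : Finset V} {ζ : V → ℕ}
    (hζ : ζ ∈ Rc D r (gp G F)) {z : V} (hz : z ∈ fs (T.ch A)) : rs (gp G (T.ch A)) ζ z = ζ z := by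
  by_cases h : z ∈ gp G (T.ch A)
  · exact rs_mem h
  · rw [rs_notMem h]
    refine ((mem_Rc.1 hζ).1.2 z ?_).symm
    intro h'
    exact h (TS.t5b_mem_gp.2 ⟨(TS.t5b_mem_gp.1 h').1, hz⟩)

theorem t19_fb_rs (T : TS D r) {F : Finset (Set V)} (hF : T.Fo F) {j : ℕ} {A : Set V} (hA : A ∈ T.de F j) {G : Finset V} {ζ : V → ℕ}
    (hζ : ζ ∈ Rc D r (gp G F)) {k : ℕ} {B : Set V} (hB : B ∈ T.de (T.ch A) k) :
    T.fb (rs (gp G (T.ch A)) ζ) B ↔ T.fb ζ B := by
  have hcn := T.t5b_cn hF hA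
  have hch := T.fo_ch hcn
  have hs : ∀ z ∈ T.Q B, z ∈ fs (T.ch A) := fun z hz => T.t5b_sub hch hB (T.Q_sub (T.t5b_cn hch hB) hz)
  unfold TS.fb
  refine forall_congr' fun z => forall_congr' fun hz => ?_
  rw [t19_rs_eq T hζ (hs z hz)]

/-- the number of special full pieces above, relative to a first unit -/
theorem t19_na_succ (T : TS D r) {F : Finset (Set V)} (hF : T.Fo F) {j k : ℕ} {A B : Set V} (hA : A ∈ T.de F j) (hB : B ∈ T.de (T.ch A) k)
    {G : Finset V} {ζ : V → ℕ} (hζ : ζ ∈ Rc D r (gp G F)) (hs : T.sp A) (hb : T.fb ζ A) (hn : T.nab T.sp F ζ A) :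
    T.na F (j + (k + 1)) ζ B = T.na (T.ch A) k (rs (gp G (T.ch A)) ζ) B + 1 := by
  have hcn := T.t5b_cn hF hA
  have hBA : B ∈ T.de {A} (k + 1) := by
    rw [t13_de_ch]
    exact hB
  have hBF : B ∈ T.de F (j + (k + 1)) := T.de_trans hA hBA
  have hBcn := T.t5b_cn hF hBF
  obtain ⟨z, hz⟩ := T.cn_ne hBcn
  have hBsA : B ⊂ A := T.de_ssub hcn (Nat.succ_le_succ (Nat.zero_le _)) hBA
  have hzA : z ∈ A := hBsA.1 hz
  have h1 : (T.dl F (j + (k + 1))).filter (fun B' => T.sp B' ∧ B ⊂ B' ∧ T.fb ζ B') =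
      insert A ((T.dl (T.ch A) k).filter (fun B' => T.sp B' ∧ B ⊂ B' ∧ T.fb (rs (gp G (T.ch A)) ζ) B')) := by
    ext B'
    simp only [Finset.mem_filter, Finset.mem_insert, t19_mem_dl]
    constructor
    · rintro ⟨⟨i, hi, hB'⟩, hs', hss, hb'⟩
      have hzB' : z ∈ B' := hss.1 hz
      rcases lt_trichotomy i j with h | h | h
      · exfalso
        have h2 := (t13_nest T hF hB' hA h.le hzB' hzA).1
        refine hn i B' hB' hs' (lt_of_le_of_ne h2 ?_) hb'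
        intro h3
        rw [h3] at hA
        have := T.gen_unique hF hB' hA
        omega
      · left
        subst h
        exact Set.Subset.antisymm (t13_nest T hF hA hB' le_rfl hzA hzB').1 (t13_nest T hF hB' hA le_rfl hzB' hzA).1
      · right
        have h2 := (t13_nest T hF hA hB' h.le hzA hzB').2
        obtain ⟨i', rfl⟩ : ∃ i', i = j + (i' + 1) := ⟨i - j - 1, by omega⟩
        have e : j + (i' + 1) - j = i' + 1 := by omega
        rw [e, t13_de_ch] at h2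
        exact ⟨⟨i', by omega, h2⟩, hs', hss, (t19_fb_rs T hF hA hζ h2).2 hb'⟩
    · rintro (rfl | ⟨⟨i, hi, hB'⟩, hs', hss, hb'⟩)
      · exact ⟨⟨j, by omega, hA⟩, hs, hBsA, hb⟩
      · have h2 : B' ∈ T.de {A} (i + 1) := by
          rw [t13_de_ch]
          exact hB'
        exact ⟨⟨j + (i + 1), by omega, T.de_trans hA h2⟩, hs', hss, (t19_fb_rs T hF hA hζ hB').1 hb'⟩
  unfold TS.na
  rw [h1, Finset.card_insert_of_notMem]
  intro h
  rw [Finset.mem_filter, t19_mem_dl] at h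
  obtain ⟨⟨i, _, h2⟩, _⟩ := h
  have h3 : A ∈ T.de {A} (i + 1) := by
    rw [t13_de_ch]
    exact h2
  exact (T.de_ssub hcn (Nat.succ_le_succ (Nat.zero_le _)) h3).ne rfl

/-- splitting the reached cones below a special full piece according to the topmost such piece -/
theorem t19_split (T : TS D r) {F : Finset (Set V)} (hF : T.Fo F) {G : Finset V} {ζ : V → ℕ} (hζ : ζ ∈ Rc D r (gp G F)) (l : ℕ) (R : Set V → Prop) [DecidablePred R]
    (hR1 : ∀ B ∈ T.de F l, R B → rch D (T.fi F) (gw D r (T.fi F) (gp G F) ζ) B) (hR2 : ∀ B ∈ T.de F l, R B → ¬ T.nab T.sp F ζ B) :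
    ((T.de F l).filter R).card =
      ∑ j ∈ range l, ∑ A ∈ T.de F j, if T.fu F (T.fi F) G ζ A then ((T.de (T.ch A) (l - j - 1)).filter R).card else 0 := by
  have hg : ∀ z ∈ fs F, T.fi F z ≤ T.fi F z := fun _ _ => le_refl _
  have h3 : (T.de F l).filter R =
      ((range l).sigma (fun j => (T.de F j).filter (fun A => T.fu F (T.fi F) G ζ A))).biUnion
        (fun p => (T.de (T.ch p.2) (l - p.1 - 1)).filter R) := by
    ext B
    simp only [Finset.mem_filter, Finset.mem_biUnion, Finset.mem_sigma, Finset.mem_range]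
    constructor
    · rintro ⟨hB, hRB⟩
      have hn := hR2 B hB hRB
      have hex : ∃ i, ∃ A ∈ T.de F i, T.sp A ∧ B ⊂ A ∧ T.fb ζ A := by
        unfold TS.nab at hn
        push Not at hn
        obtain ⟨i, A, hA, hs, hss, hb⟩ := hn
        exact ⟨i, A, hA, hs, hss, hb⟩
      obtain ⟨A, hA, hs, hss, hb⟩ := Nat.find_spec hex
      have hmin : ∀ i, i < Nat.find hex → ¬ ∃ A ∈ T.de F i, T.sp A ∧ B ⊂ A ∧ T.fb ζ A := fun i hi => Nat.find_min hex hi
      obtain ⟨j, hj⟩ : ∃ j, j = Nat.find hex := ⟨_, rfl⟩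
      rw [← hj] at hA hmin
      have hjl : j < l := T.lt_of_ssub hF hA hB hss
      obtain ⟨z, hz⟩ := T.cn_ne (T.t5b_cn hF hB)
      have hBA := (t13_nest T hF hA hB hjl.le (hss.1 hz) hz).2
      refine ⟨⟨j, A⟩, ⟨hjl, hA, hs, hb, ?_, ?_⟩, ?_, hRB⟩
      · exact t13_rch_anc T hF hg hA hζ _ B hBA (hR1 B hB hRB)
      · intro i A' hA' hs' hss' hb'
        have hij : i < j := T.lt_of_ssub hF hA' hA hss'
        exact hmin i hij ⟨A', hA', hs', lt_trans hss hss', hb'⟩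
      · have : l - j = l - j - 1 + 1 := by omega
        rw [this, t13_de_ch] at hBA
        exact hBA
    · rintro ⟨⟨j, A⟩, ⟨hj, hA, hs, hb, hm⟩, hB, hRB⟩
      simp only at hj hA hs hb hm hB
      rw [← t13_de_ch] at hB
      have hBl : B ∈ T.de F (j + (l - j - 1 + 1)) := T.de_trans hA hB
      have : j + (l - j - 1 + 1) = l := by omega
      rw [this] at hBl
      exact ⟨hBl, hRB⟩
  rw [h3, Finset.card_biUnion]
  · rw [Finset.sum_sigma]
    refine Finset.sum_congr rfl (fun j hj => ?_)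
    rw [Finset.sum_filter]
  · rintro ⟨j, A⟩ hp ⟨j', A'⟩ hp' hne
    rw [Finset.mem_coe, Finset.mem_sigma, Finset.mem_filter] at hp hp'
    obtain ⟨hj, hA, hs, hb, hm⟩ := hp
    obtain ⟨hj', hA', hs', hb', hm'⟩ := hp'
    simp only at hj hA hs hb hm hj' hA' hs' hb' hm'
    rw [Function.onFun, Finset.disjoint_left]
    intro B hB hB'
    simp only [Finset.mem_filter, ← t13_de_ch] at hB hB'
    have hcn := T.t5b_cn hF hA
    have hcn' := T.t5b_cn hF hA'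
    have hBA := T.de_single_sub hcn hB.1
    have hBA' := T.de_single_sub hcn' hB'.1
    obtain ⟨z, hz⟩ := T.cn_ne (T.t5b_cn hF (T.de_trans hA hB.1))
    have key : ∀ (j j' : ℕ) (A A' : Set V), j ≤ j' → A ∈ T.de F j → A' ∈ T.de F j' → T.sp A → T.fb ζ A →
        T.mkd T.sp F (T.fi F) G ζ A' → z ∈ A → z ∈ A' → A = A' := by
      intro j j' A A' hjj hA hA' hs hb hm' hz hz'
      by_contra hcon
      have h5 := (t13_nest T hF hA hA' hjj hz hz').1
      exact hm'.2 j A hA hs (lt_of_le_of_ne h5 (fun h => hcon h.symm)) hb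
    have hAA : A = A' := by
      rcases le_total j j' with h | h
      · exact key j j' A A' h hA hA' hs hb hm' (hBA hz) (hBA' hz)
      · exact (key j' j A' A h hA' hA hs' hb' hm (hBA' hz) (hBA hz)).symm
    subst hAA
    have hjj : j = j' := T.gen_unique hF hA hA'
    subst hjj
    exact hne rfl

/-- below a first unit -/
theorem t19_r1_ch (T : TS D r) {F : Finset (Set V)} (hF : T.Fo F) {j : ℕ} {A : Set V} (hA : A ∈ T.de F j) {G : Finset V} {ζ : V → ℕ}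
    (hζ : ζ ∈ Rc D r (gp G F)) (hfu : T.fu F (T.fi F) G ζ A) {k : ℕ} {B : Set V} (hB : B ∈ T.de (T.ch A) k) :
    T.r1 (T.ch A) G (rs (gp G (T.ch A)) ζ) B ↔ T.r1 F G ζ B :=
  t13_rch_ch T hF (fun _ _ => le_refl _) hA hζ hfu.2.2.1 hfu.2.1 hB

theorem t19_ku_split (T : TS D r) {F : Finset (Set V)} (hF : T.Fo F) (p : ℕ) {G : Finset V} {ζ : V → ℕ} (hζ : ζ ∈ Rc D r (gp G F)) (l : ℕ) :
    T.ku F (p + 1) G l ζ =
      ∑ j ∈ range l, ∑ A ∈ T.de F j, if T.fu F (T.fi F) G ζ A then T.ku (T.ch A) p G (l - j - 1) (rs (gp G (T.ch A)) ζ) else 0 := by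
  unfold TS.ku
  rw [t19_split T hF hζ l (fun B => T.sp B ∧ T.fb ζ B ∧ T.r1 F G ζ B ∧ T.na F l ζ B = p + 1) (fun B _ h => h.2.2.1)
    (fun B hB h hn => by have := (t19_na_zero T hF hB ζ).2 hn; have h2 := h.2.2.2; omega)]
  refine Finset.sum_congr rfl (fun j hj => Finset.sum_congr rfl (fun A hA => ?_))
  by_cases hfu : T.fu F (T.fi F) G ζ A
  · rw [if_pos hfu, if_pos hfu]
    congr 1
    refine Finset.filter_congr (fun B hB => ?_)
    have hjl := Finset.mem_range.1 hj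
    have h2 := t19_na_succ T hF hA hB hζ hfu.1 hfu.2.1 hfu.2.2.2
    have e : j + ((l - j - 1) + 1) = l := by omega
    rw [e] at h2
    rw [t19_r1_ch T hF hA hζ hfu hB, t19_fb_rs T hF hA hζ hB, h2]
    refine and_congr_right fun _ => and_congr_right fun _ => and_congr_right fun _ => ?_
    omega
  · rw [if_neg hfu, if_neg hfu]

theorem t19_kf_split (T : TS D r) {F : Finset (Set V)} (hF : T.Fo F) (p : ℕ) {G : Finset V} {ζ : V → ℕ} (hζ : ζ ∈ Rc D r (gp G F)) (l : ℕ) :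
    T.kf F (p + 1) G l ζ = T.fn T.sp F (T.fi F) G l ζ +
      ∑ j ∈ range l, ∑ A ∈ T.de F j, if T.fu F (T.fi F) G ζ A then T.kf (T.ch A) p G (l - j - 1) (rs (gp G (T.ch A)) ζ) else 0 := by
  have h1 : T.kf F (p + 1) G l ζ = T.fn T.sp F (T.fi F) G l ζ +
      ((T.de F l).filter (fun B => T.r1 F G ζ B ∧ T.na F l ζ B ≤ p + 1 ∧ 1 ≤ T.na F l ζ B)).card := by
    unfold TS.kf TS.fn
    rw [← Finset.card_filter_add_card_filter_not (s := (T.de F l).filter (fun A => T.r1 F G ζ A ∧ T.na F l ζ A ≤ p + 1)) (fun B => T.nab T.sp F ζ B),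
      Finset.filter_filter, Finset.filter_filter]
    congr 2
    · refine Finset.filter_congr (fun B hB => ?_)
      rw [← t19_na_zero T hF hB]
      unfold TS.mkd
      rw [← t19_na_zero T hF hB]
      constructor
      · rintro ⟨⟨h1, _⟩, h3⟩
        exact ⟨h1, h3⟩
      · rintro ⟨h1, h3⟩
        exact ⟨⟨h1, by omega⟩, h3⟩
    · refine Finset.filter_congr (fun B hB => ?_)
      rw [← t19_na_zero T hF hB]
      constructor
      · rintro ⟨⟨h1, h2⟩, h3⟩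
        exact ⟨h1, h2, by omega⟩
      · rintro ⟨h1, h2, h3⟩
        exact ⟨⟨h1, h2⟩, by omega⟩
  rw [h1]
  congr 1
  rw [t19_split T hF hζ l (fun B => T.r1 F G ζ B ∧ T.na F l ζ B ≤ p + 1 ∧ 1 ≤ T.na F l ζ B) (fun B _ h => h.1)
    (fun B hB h hn => by have := (t19_na_zero T hF hB ζ).2 hn; have h2 := h.2.2; omega)]
  refine Finset.sum_congr rfl (fun j hj => Finset.sum_congr rfl (fun A hA => ?_))
  by_cases hfu : T.fu F (T.fi F) G ζ A
  · rw [if_pos hfu, if_pos hfu]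
    unfold TS.kf
    congr 1
    refine Finset.filter_congr (fun B hB => ?_)
    have hjl := Finset.mem_range.1 hj
    have h2 := t19_na_succ T hF hA hB hζ hfu.1 hfu.2.1 hfu.2.2.2
    have e : j + ((l - j - 1) + 1) = l := by omega
    rw [e] at h2
    rw [t19_r1_ch T hF hA hζ hfu hB, h2]
    refine and_congr_right fun _ => ?_
    constructor
    · rintro ⟨h3, _⟩
      omega
    · intro h3
      exact ⟨by omega, by omega⟩
  · rw [if_neg hfu, if_neg hfu]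

/-- expectations of sums over first units -/
theorem t19_renew (T : TS D r) {F : Finset (Set V)} (hF : T.Fo F) (G : Finset V) (l : ℕ) (h : Set V → ℕ → (V → ℕ) → ℝ) :
    ex D r (gp G F) (fun ζ => ∑ j ∈ range l, ∑ A ∈ T.de F j, if T.fu F (T.fi F) G ζ A then h A j (rs (gp G (T.ch A)) ζ) else 0) =
      ∑ j ∈ range l, ∑ A ∈ T.de F j, pr D r (gp G F) (fun ζ => T.fu F (T.fi F) G ζ A) * ex D r (gp G (T.ch A)) (h A j) := by
  rw [t9_ex_sum]
  refine Finset.sum_congr rfl (fun j _ => ?_)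
  rw [t9_ex_sum]
  refine Finset.sum_congr rfl (fun A hA => ?_)
  refine T.fb_ex hF (fun _ _ => le_refl _) hA (fun ζ => T.fu F (T.fi F) G ζ A) ?_ ?_ (h A j)
  · intro ζ _ hfu
    exact ⟨hfu.2.2.1, hfu.2.1⟩
  · intro ζ hζ ζ' hζ' h
    exact T.fu_out hF hA hζ hζ' h

/-- quasi-locality of counts -/
theorem t19_ql (T : TS D r) {F : Finset (Set V)} (p j : ℕ) (P : Finset V → (V → ℕ) → Set V → Prop) [∀ G ζ, DecidablePred (P G ζ)]
    (h : ∀ L, j ≤ L → ∀ G : Finset V, T.up F (L + 1) ⊆ G → ∀ ζ ∈ Rc D r (gp G F), T.nr F G L p ζ → ∀ A ∈ T.de F j,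
      (P G ζ A ↔ P (T.up F (L + 1)) (rs (T.up F (L + 1)) ζ) A)) : T.QL F p (fun G ζ => (((T.de F j).filter (P G ζ)).card : ℝ)) := by
  refine ⟨⟨(T.de F j).card, fun G ζ => ?_⟩, j, ?_⟩
  · simp only
    rw [abs_of_nonneg (Nat.cast_nonneg _)]
    exact_mod_cast Finset.card_filter_le _ _
  · intro L hL G hG ζ hζ hn
    simp only
    rw [Finset.filter_congr (h L hL G hG ζ hζ hn)]

theorem t19_loc1 (T : TS D r) {F : Finset (Set V)} (hF : T.Fo F) {L : ℕ} {A : Set V} {G : Finset V}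
    (hG : T.up F (L + 1) ⊆ G) {ζ : V → ℕ} (hζ : ζ ∈ Rc D r (gp G F)) (hn : T.nr F G L 1 ζ) :
    T.r1 F G ζ A ↔ T.r1 F (T.up F (L + 1)) (rs (T.up F (L + 1)) ζ) A := by
  unfold TS.r1
  rw [t14a_nr T hF (fun _ _ => le_refl _) hG hζ hn]

theorem t19_loc2 (T : TS D r) {F : Finset (Set V)} {j L : ℕ} (hj : j ≤ L) (A : Set V) (ζ : V → ℕ) :
    T.na F j (rs (T.up F (L + 1)) ζ) A = T.na F j ζ A := by
  unfold TS.na
  congr 1
  refine Finset.filter_congr (fun B hB => ?_)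
  obtain ⟨i, hi, hB'⟩ := (t19_mem_dl T).1 hB
  rw [← t14a_fb T hB' (show i ≤ L by omega) ζ]

theorem t19_loc3 (T : TS D r) {F : Finset (Set V)} (hF : T.Fo F) {L : ℕ} {A : Set V} {G : Finset V}
    (hG : T.up F (L + 1) ⊆ G) {ζ : V → ℕ} (hζ : ζ ∈ Rc D r (gp G F)) (hn : T.nr F G L 2 ζ) :
    T.r2 F G ζ A ↔ T.r2 F (T.up F (L + 1)) (rs (T.up F (L + 1)) ζ) A := by
  have hadm : Adm D r 0 (T.fi F) (gp G F) := T.adm_fi hF (fun _ _ => le_refl _) G
  have hζ' : gs D r 0 (T.fi F) (gp G F) ζ ∈ Rc D r (gp G F) := gs_mem hadm hζ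
  have hn2 : T.nr F G L 1 (gs D r 0 (T.fi F) (gp G F) ζ) := by
    intro i hi
    obtain rfl : i = 0 := by omega
    exact hn 1 (by omega)
  have h1 := t14a_nr T hF (fun _ _ => le_refl _) hG hζ' hn2
  have h0 : T.rn F G L ζ = 0 := hn 0 (by omega)
  have h2 : ∀ A ∈ T.de F L, ¬ rch D (T.fi F) (gw D r (T.fi F) (gp G F) ζ) A := by
    intro A hA hr
    unfold TS.rn at h0
    rw [t13_fn_false, Finset.card_eq_zero, Finset.filter_eq_empty_iff] at h0
    exact h0 hA hr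
  have hle : ∀ z ∈ gp G F, ζ z ≤ r := fun z hz => ((mem_Rc.1 hζ).1.1 z hz).2
  have h3 := T.gs_loc hF (fun _ _ => le_refl _) (Nat.le_succ L) hG hle h2
  unfold TS.r2 TS.r1
  rw [h1, h3]

/-- TARGET. quasi-locality with one wave, resp. two waves (`gs_loc`: if the first wave does not reach generation `L`, the configuration after it is the one computed in the first `L + 1` generations) -/
theorem TS.ql_ku (T : TS D r) {F : Finset (Set V)} (hF : T.Fo F) (p j : ℕ) : T.QL F 1 (fun G ζ => (T.ku F p G j ζ : ℝ)) ∧ T.QL F 1 (fun G ζ => (T.kf F p G j ζ : ℝ)) := by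
  refine ⟨t19_ql T 1 j (fun G ζ A => T.sp A ∧ T.fb ζ A ∧ T.r1 F G ζ A ∧ T.na F j ζ A = p) ?_,
    t19_ql T 1 j (fun G ζ A => T.r1 F G ζ A ∧ T.na F j ζ A ≤ p) ?_⟩
  · intro L hL G hG ζ hζ hn A hA
    have h1 := t14a_fb T hA hL ζ
    have h2 := t19_loc1 T hF (A := A) hG hζ hn
    have h3 := t19_loc2 T (F := F) hL A ζ
    simp only [h3, ← h1, ← h2]
  · intro L hL G hG ζ hζ hn A hA
    have h2 := t19_loc1 T hF (A := A) hG hζ hn
    have h3 := t19_loc2 T (F := F) hL A ζ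
    simp only [h3, ← h2]

/-- TARGET. -/
theorem TS.ql_kt (T : TS D r) {F : Finset (Set V)} (hF : T.Fo F) (p j : ℕ) : T.QL F 2 (fun G ζ => (T.kt F p G j ζ : ℝ)) := by
  refine t19_ql T 2 j (fun G ζ A => T.sp A ∧ T.fb ζ A ∧ T.r1 F G ζ A ∧ T.na F j ζ A = p ∧ T.r2 F G ζ A) ?_
  intro L hL G hG ζ hζ hn A hA
  have h1 := t14a_fb T hA hL ζ
  have h2 := t19_loc1 T hF (A := A) hG hζ (fun i hi => hn i (by omega))
  have h3 := t19_loc2 T (F := F) hL A ζ
  have h4 := t19_loc3 T hF (A := A) hG hζ hn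
  simp only [h3, ← h1, ← h2, ← h4]

/-- TARGET. depth `0` units are the first units -/
theorem TS.ku_zero (T : TS D r) {F : Finset (Set V)} (hF : T.Fo F) (G : Finset V) (j : ℕ) (ζ : V → ℕ) : T.ku F 0 G j ζ = T.fc F (T.fi F) G j ζ := by
  unfold TS.ku TS.fc
  congr 1
  refine Finset.filter_congr (fun A hA => ?_)
  rw [t19_na_zero T hF hA]
  exact Iff.rfl

/-- TARGET. a unit of depth `p + 1` is a unit of depth `p` relative to a unique first unit (`fb_gw`); expectations by `fb_ex` -/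
theorem TS.ku_succ (T : TS D r) {F : Finset (Set V)} (hF : T.Fo F) (p : ℕ) (G : Finset V) (l : ℕ) :
    ex D r (gp G F) (fun ζ => (T.ku F (p + 1) G l ζ : ℝ)) =
      ∑ j ∈ range l, ∑ A ∈ T.de F j, pr D r (gp G F) (fun ζ => T.fu F (T.fi F) G ζ A) * ex D r (gp G (T.ch A)) (fun ζ => (T.ku (T.ch A) p G (l - j - 1) ζ : ℝ)) := by
  rw [← t19_renew T hF G l (fun A j ζ => (T.ku (T.ch A) p G (l - j - 1) ζ : ℝ))]
  refine t9_ex_congr fun ζ hζ => ?_
  rw [t19_ku_split T hF p hζ l]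
  push_cast
  rfl

/-- TARGET. the same for `kf`: either free, or relative to a unique first unit -/
theorem TS.kf_succ (T : TS D r) {F : Finset (Set V)} (hF : T.Fo F) (p : ℕ) (G : Finset V) (l : ℕ) :
    ex D r (gp G F) (fun ζ => (T.kf F (p + 1) G l ζ : ℝ)) = ex D r (gp G F) (fun ζ => (T.fn T.sp F (T.fi F) G l ζ : ℝ)) +
      ∑ j ∈ range l, ∑ A ∈ T.de F j, pr D r (gp G F) (fun ζ => T.fu F (T.fi F) G ζ A) * ex D r (gp G (T.ch A)) (fun ζ => (T.kf (T.ch A) p G (l - j - 1) ζ : ℝ)) := by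
  rw [← t19_renew T hF G l (fun A j ζ => (T.kf (T.ch A) p G (l - j - 1) ζ : ℝ)), ← t9_ex_add]
  refine t9_ex_congr fun ζ hζ => ?_
  rw [t19_kf_split T hF p hζ l]
  push_cast
  rfl

/-- TARGET. `kf` with `p = 0` counts the free cones -/
theorem TS.kf_zero (T : TS D r) {F : Finset (Set V)} (hF : T.Fo F) (G : Finset V) (j : ℕ) (ζ : V → ℕ) : T.kf F 0 G j ζ = T.fn T.sp F (T.fi F) G j ζ := by
  unfold TS.kf TS.fn
  congr 1
  refine Finset.filter_congr (fun A hA => ?_)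
  rw [Nat.le_zero, t19_na_zero T hF hA]
  exact Iff.rfl

/-! ### invariance -/

theorem t19_dl_map (T : TS D r) (φ : D ≃g D) {F : Finset (Set V)} (hF : T.Fo F) (j : ℕ) : T.dl (im φ F) j = im φ (T.dl F j) := by
  ext A
  rw [t19_mem_dl, t12_mem_im]
  constructor
  · rintro ⟨i, hi, h⟩
    rw [T.de_map φ hF, t12_mem_im] at h
    obtain ⟨C, hC, rfl⟩ := h
    exact ⟨C, (t19_mem_dl T).2 ⟨i, hi, hC⟩, rfl⟩
  · rintro ⟨C, hC, rfl⟩
    obtain ⟨i, hi, h⟩ := (t19_mem_dl T).1 hC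
    refine ⟨i, hi, ?_⟩
    rw [T.de_map φ hF, t12_mem_im]
    exact ⟨C, h, rfl⟩

omit [D.LocallyFinite] in
theorem t19_card_im (φ : D ≃g D) (S : Finset (Set V)) (P P' : Set V → Prop) [DecidablePred P] [DecidablePred P'] (h : ∀ A ∈ S, (P' (φ '' A) ↔ P A)) :
    ((im φ S).filter P').card = (S.filter P).card := by
  unfold im
  rw [Finset.filter_image, Finset.card_image_of_injective _ (t12_img_inj φ)]
  congr 1
  exact Finset.filter_congr h

theorem t19_na_map (T : TS D r) (φ : D ≃g D) {F : Finset (Set V)} (hF : T.Fo F) (j : ℕ) (ζ : V → ℕ) (A : Set V) :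
    T.na (im φ F) j (ζ ∘ φ.symm) (φ '' A) = T.na F j ζ A := by
  unfold TS.na
  rw [t19_dl_map T φ hF]
  refine t19_card_im φ _ _ _ (fun B hB => ?_)
  obtain ⟨i, _, hB'⟩ := (t19_mem_dl T).1 hB
  have hcn := T.t5b_cn hF hB'
  rw [T.sp_map φ hcn, t12_ssub, T.fb_map φ hcn]

theorem t19_r1_map (T : TS D r) (φ : D ≃g D) {F : Finset (Set V)} (hF : T.Fo F) (G : Finset V) (ζ : V → ℕ) (A : Set V) :
    T.r1 (im φ F) (G.image φ) (ζ ∘ φ.symm) (φ '' A) ↔ T.r1 F G ζ A := by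
  unfold TS.r1
  rw [T.fi_map φ hF, gp_map, gw_map, rch_map]

theorem t19_r2_map (T : TS D r) (φ : D ≃g D) {F : Finset (Set V)} (hF : T.Fo F) (G : Finset V) (ζ : V → ℕ) (A : Set V) :
    T.r2 (im φ F) (G.image φ) (ζ ∘ φ.symm) (φ '' A) ↔ T.r2 F G ζ A := by
  unfold TS.r2
  rw [← t19_r1_map T φ hF, T.fi_map φ hF, gp_map, gs_map]

theorem t19_kT (T : TS D r) {F : Finset (Set V)} (hF : T.Fo F) (p l : ℕ) :
    Tendsto (fun G : Finset V => ex D r (gp G F) (fun ζ => (T.ku F p G l ζ : ℝ))) atTop (𝓝 (T.kL F p l)) :=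
  T.tendsto_lm hF (T.ql_ku hF p l).1

theorem t19_fT (T : TS D r) {F : Finset (Set V)} (hF : T.Fo F) (p l : ℕ) :
    Tendsto (fun G : Finset V => ex D r (gp G F) (fun ζ => (T.kf F p G l ζ : ℝ))) atTop (𝓝 (T.fL F p l)) :=
  T.tendsto_lm hF (T.ql_ku hF p l).2

theorem t19_tT (T : TS D r) {F : Finset (Set V)} (hF : T.Fo F) (p l : ℕ) :
    Tendsto (fun G : Finset V => ex D r (gp G F) (fun ζ => (T.kt F p G l ζ : ℝ))) atTop (𝓝 (T.tL F p l)) :=
  T.tendsto_lm hF (T.ql_kt hF p l)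

theorem t19_map (T : TS D r) {F : Finset (Set V)} (hF : T.Fo F) (φ : D ≃g D) (p l : ℕ) :
    T.kL (im φ F) p l = T.kL F p l ∧ T.tL (im φ F) p l = T.tL F p l ∧ T.fL (im φ F) p l = T.fL F p l := by
  refine ⟨t14a_lm_eq T (lim_map φ _ _ (fun G ζ => ?_) (t19_kT T hF p l)), t14a_lm_eq T (lim_map φ _ _ (fun G ζ => ?_) (t19_tT T hF p l)),
    t14a_lm_eq T (lim_map φ _ _ (fun G ζ => ?_) (t19_fT T hF p l))⟩
  · unfold TS.ku
    rw [T.de_map φ hF]
    congr 1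
    refine t19_card_im φ _ _ _ (fun A hA => ?_)
    have hcn := T.t5b_cn hF hA
    rw [T.sp_map φ hcn, T.fb_map φ hcn, t19_r1_map T φ hF, t19_na_map T φ hF]
  · unfold TS.kt
    rw [T.de_map φ hF]
    congr 1
    refine t19_card_im φ _ _ _ (fun A hA => ?_)
    have hcn := T.t5b_cn hF hA
    rw [T.sp_map φ hcn, T.fb_map φ hcn, t19_r1_map T φ hF, t19_na_map T φ hF, t19_r2_map T φ hF]
  · unfold TS.kf
    rw [T.de_map φ hF]
    congr 1
    refine t19_card_im φ _ _ _ (fun A hA => ?_)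
    rw [t19_r1_map T φ hF, t19_na_map T φ hF]

/-- TARGET. invariance under automorphisms: for a special descendant `A` of a special cone `U` -/
theorem TS.kL_sp (T : TS D r) {U A : Set V} (hU : T.Cn U) (hs : T.sp U) {j : ℕ} (hA : A ∈ T.de {U} j) (hsA : T.sp A) (p l : ℕ) :
    T.kL (T.ch A) p l = T.kL (T.ch U) p l ∧ T.tL (T.ch A) p l = T.tL (T.ch U) p l ∧ T.fL (T.ch A) p l = T.fL (T.ch U) p l := by
  obtain ⟨φ, rfl⟩ := T.sp_iso hU hs j A hA hsA
  rw [T.ch_map φ hU]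
  exact t19_map T (T.fo_ch hU) φ p l

/-! ### recursions in the limit -/

theorem t19_kL_zero (T : TS D r) {F : Finset (Set V)} (hF : T.Fo F) (l : ℕ) : T.kL F 0 l = T.aL F l := by
  refine t14a_lm_eq T ?_
  simp only [T.ku_zero hF]
  exact t14a_aT T hF l

theorem t19_fL_zero (T : TS D r) {F : Finset (Set V)} (hF : T.Fo F) (l : ℕ) : T.fL F 0 l = T.wL F l := by
  refine t14a_lm_eq T ?_
  simp only [T.kf_zero hF]
  exact t14a_wT T hF l

theorem t19_kL_nonneg (T : TS D r) {F : Finset (Set V)} (hF : T.Fo F) (p l : ℕ) : 0 ≤ T.kL F p l :=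
  ge_of_tendsto' (t19_kT T hF p l) (fun _ => t9_ex_nonneg (fun _ _ => Nat.cast_nonneg _))

theorem t19_fL_nonneg (T : TS D r) {F : Finset (Set V)} (hF : T.Fo F) (p l : ℕ) : 0 ≤ T.fL F p l :=
  ge_of_tendsto' (t19_fT T hF p l) (fun _ => t9_ex_nonneg (fun _ _ => Nat.cast_nonneg _))

theorem t19_tL_nonneg (T : TS D r) {F : Finset (Set V)} (hF : T.Fo F) (p l : ℕ) : 0 ≤ T.tL F p l :=
  ge_of_tendsto' (t19_tT T hF p l) (fun _ => t9_ex_nonneg (fun _ _ => Nat.cast_nonneg _))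

theorem t19_kt_le (T : TS D r) (F : Finset (Set V)) (p : ℕ) (G : Finset V) (j : ℕ) (ζ : V → ℕ) : T.kt F p G j ζ ≤ T.ku F p G j ζ := by
  unfold TS.kt TS.ku
  refine Finset.card_le_card (fun A hA => ?_)
  rw [Finset.mem_filter] at hA ⊢
  exact ⟨hA.1, hA.2.1, hA.2.2.1, hA.2.2.2.1, hA.2.2.2.2.1⟩

theorem t19_tL_le (T : TS D r) {F : Finset (Set V)} (hF : T.Fo F) (p l : ℕ) : T.tL F p l ≤ T.kL F p l :=
  le_of_tendsto_of_tendsto' (t19_tT T hF p l) (t19_kT T hF p l)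
    (fun G => t9_ex_mono (fun ζ _ => by exact_mod_cast t19_kt_le T F p G l ζ))

theorem t19_kL_succ (T : TS D r) {F : Finset (Set V)} (hF : T.Fo F) (p l : ℕ) :
    T.kL F (p + 1) l = ∑ j ∈ range l, ∑ A ∈ T.de F j, T.pL F A * T.kL (T.ch A) p (l - j - 1) := by
  refine t14a_lm_eq T ?_
  have h1 : Tendsto (fun G : Finset V => ∑ j ∈ range l, ∑ A ∈ T.de F j, ex D r (gp G F) (fun ζ => if T.fu F (T.fi F) G ζ A then (1 : ℝ) else 0) *
        ex D r (gp G (T.ch A)) (fun ζ => (T.ku (T.ch A) p G (l - j - 1) ζ : ℝ))) atTop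
      (𝓝 (∑ j ∈ range l, ∑ A ∈ T.de F j, T.pL F A * T.kL (T.ch A) p (l - j - 1))) := by
    refine tendsto_finsetSum _ fun j _ => tendsto_finsetSum _ fun A hA => ?_
    exact (t14a_pT T hF hA).mul (t19_kT T (T.fo_ch (T.t5b_cn hF hA)) p _)
  refine h1.congr fun G => ?_
  have h2 := T.ku_succ hF p G l
  simp only [t9_pr_eq] at h2
  exact h2.symm

theorem t19_fL_succ (T : TS D r) {F : Finset (Set V)} (hF : T.Fo F) (p l : ℕ) :
    T.fL F (p + 1) l = T.wL F l + ∑ j ∈ range l, ∑ A ∈ T.de F j, T.pL F A * T.fL (T.ch A) p (l - j - 1) := by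
  refine t14a_lm_eq T ?_
  have h1 : Tendsto (fun G : Finset V => ex D r (gp G F) (fun ζ => (T.fn T.sp F (T.fi F) G l ζ : ℝ)) +
      ∑ j ∈ range l, ∑ A ∈ T.de F j, ex D r (gp G F) (fun ζ => if T.fu F (T.fi F) G ζ A then (1 : ℝ) else 0) *
        ex D r (gp G (T.ch A)) (fun ζ => (T.kf (T.ch A) p G (l - j - 1) ζ : ℝ))) atTop
      (𝓝 (T.wL F l + ∑ j ∈ range l, ∑ A ∈ T.de F j, T.pL F A * T.fL (T.ch A) p (l - j - 1))) := by
    refine (t14a_wT T hF l).add (tendsto_finsetSum _ fun j _ => tendsto_finsetSum _ fun A hA => ?_)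
    exact (t14a_pT T hF hA).mul (t19_fT T (T.fo_ch (T.t5b_cn hF hA)) p _)
  refine h1.congr fun G => ?_
  have h2 := T.kf_succ hF p G l
  simp only [t9_pr_eq] at h2
  exact h2.symm

theorem t19_kL_conv (T : TS D r) {U : Set V} (hU : T.Cn U) (hs : T.sp U) (p l : ℕ) :
    T.kL (T.ch U) (p + 1) l = ∑ j ∈ range l, T.aL (T.ch U) j * T.kL (T.ch U) p (l - j - 1) := by
  have hF := T.fo_ch hU
  rw [t19_kL_succ T hF]
  refine Finset.sum_congr rfl fun j _ => ?_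
  rw [T.aL_eq hF, Finset.sum_mul]
  refine Finset.sum_congr rfl fun A hA => ?_
  by_cases hsA : T.sp A
  · have hA' : A ∈ T.de {U} (j + 1) := by
      rw [t13_de_ch]
      exact hA
    rw [(T.kL_sp hU hs hA' hsA p _).1]
  · rw [t14a_pL_zero T hsA, zero_mul, zero_mul]

theorem t19_fL_conv (T : TS D r) {U : Set V} (hU : T.Cn U) (hs : T.sp U) (p l : ℕ) :
    T.fL (T.ch U) (p + 1) l = T.wL (T.ch U) l + ∑ j ∈ range l, T.aL (T.ch U) j * T.fL (T.ch U) p (l - j - 1) := by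
  have hF := T.fo_ch hU
  rw [t19_fL_succ T hF]
  congr 1
  refine Finset.sum_congr rfl fun j _ => ?_
  rw [T.aL_eq hF, Finset.sum_mul]
  refine Finset.sum_congr rfl fun A hA => ?_
  by_cases hsA : T.sp A
  · have hA' : A ∈ T.de {U} (j + 1) := by
      rw [t13_de_ch]
      exact hA
    rw [(T.kL_sp hU hs hA' hsA p _).2.2]
  · rw [t14a_pL_zero T hsA, zero_mul, zero_mul]

theorem t19_series {a b c : ℕ → ℝ} (h1 : HasSum a 1) (h2 : HasSum b 1)
    (hc : ∀ l, c l = ∑ j ∈ range l, a j * b (l - j - 1)) : HasSum c 1 := by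
  have h3 := hasSum_sum_range_mul_of_summable_norm (f := a) (g := b) h1.summable.norm h2.summable.norm
  rw [h1.tsum_eq, h2.tsum_eq, mul_one] at h3
  have h4 : (fun n => c (n + 1)) = fun n => ∑ k ∈ range (n + 1), a k * b (n - k) := by
    funext n
    rw [hc (n + 1)]
    refine Finset.sum_congr rfl fun k _ => ?_
    congr 2
    omega
  have h5 : c 0 = 0 := by
    rw [hc 0, Finset.range_zero, Finset.sum_empty]
  rw [← hasSum_nat_add_iff' 1, Finset.sum_range_one, h5, sub_zero, h4]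
  exact h3

/-- TARGET. the mean number of units of depth `p` is one: `kL (p+1) l = Σ_{j<l} aL j · kL p (l-j-1)` in the limit; `critical`; products of series -/
theorem TS.kL_sum (T : TS D r) {U : Set V} (hU : T.Cn U) (hs : T.sp U) (p : ℕ) : HasSum (T.kL (T.ch U) p) 1 := by
  have hF := T.fo_ch hU
  have hcr := (T.critical hU hs).1
  induction p with
  | zero =>
    have h1 : T.kL (T.ch U) 0 = T.aL (T.ch U) := funext fun l => t19_kL_zero T hF l
    rw [h1]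
    exact hcr
  | succ p ih =>
    exact t19_series hcr ih (fun l => t19_kL_conv T hU hs p l)

theorem t19_aL_le (T : TS D r) {F : Finset (Set V)} (hF : T.Fo F) (l : ℕ) : T.aL F l ≤ T.wL F l := by
  refine le_of_tendsto_of_tendsto' (t14a_aT T hF l) (t14a_wT T hF l) (fun G => t9_ex_mono (fun ζ _ => ?_))
  have h : T.fc F (T.fi F) G l ζ ≤ T.fn T.sp F (T.fi F) G l ζ := by
    unfold TS.fc TS.fn
    refine Finset.card_le_card (fun A hA => ?_)
    rw [Finset.mem_filter] at hA ⊢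
    exact ⟨hA.1, hA.2.2.2⟩
  exact_mod_cast h

theorem t19_wL_fo (T : TS D r) {F : Finset (Set V)} (hF : T.Fo F) (l : ℕ) : T.wL F l = ∑ C ∈ F, T.wL {C} l := by
  refine t14a_lm_eq T ?_
  have h1 : Tendsto (fun G : Finset V => ∑ C ∈ F, ex D r (gp G {C}) (fun ζ => (T.fn T.sp {C} (T.fi {C}) G l ζ : ℝ))) atTop
      (𝓝 (∑ C ∈ F, T.wL {C} l)) :=
    tendsto_finsetSum _ fun C hC => t14a_wT T (T.fo_single (hF.cn C hC)) l
  refine h1.congr fun G => ?_
  have h2 : ex D r (gp G F) (fun ζ => (T.fn T.sp F (T.fi F) G l ζ : ℝ)) =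
      ex D r (gp G F) (fun ζ => ∑ C ∈ F, (T.fn T.sp {C} (T.fi {C}) G l (rs (gp G {C}) ζ) : ℝ)) := by
    refine t9_ex_congr fun ζ hζ => ?_
    rw [T.fn_fo hF G l ζ ?_]
    · push_cast
      rfl
    · intro z hz hzG
      have h3 := (mem_Rc.1 hζ).1.2 z (fun h => hzG (TS.t5b_mem_gp.1 h).1)
      have h4 := T.gd.one_le
      omega
  rw [h2, t9_ex_sum]
  refine Finset.sum_congr rfl fun C hC => ?_
  exact (T.fo_marg hF hC G (fun ζ => (T.fn T.sp {C} (T.fi {C}) G l ζ : ℝ))).symm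

theorem t19_conv_le {a b : ℕ → ℝ} {K K' ρ ρ' : ℝ} (hb : ∀ j, 0 ≤ b j) (hK : 0 ≤ K) (hK' : 0 ≤ K') (hρ : 0 < ρ) (hρ' : ρ < ρ')
    (h1 : ∀ l, a l ≤ K * ρ ^ l) (h2 : ∀ l, b l ≤ K' * ρ' ^ l) (l : ℕ) :
    ∑ j ∈ range l, a j * b (l - j - 1) ≤ K * K' / (ρ' - ρ) * ρ' ^ l := by
  have hd : 0 < ρ' - ρ := sub_pos.2 hρ'
  have hρ'0 : 0 < ρ' := hρ.trans hρ'
  have h3 : ∑ j ∈ range l, a j * b (l - j - 1) ≤ ∑ j ∈ range l, K * K' * (ρ ^ j * ρ' ^ (l - 1 - j)) := by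
    refine Finset.sum_le_sum fun j _ => ?_
    have e : l - j - 1 = l - 1 - j := by omega
    rw [e]
    calc a j * b (l - 1 - j) ≤ (K * ρ ^ j) * (K' * ρ' ^ (l - 1 - j)) :=
          mul_le_mul (h1 j) (h2 _) (hb _) (by positivity)
      _ = _ := by ring
  refine h3.trans ?_
  rw [← Finset.mul_sum]
  have h4 : ∑ j ∈ range l, ρ ^ j * ρ' ^ (l - 1 - j) ≤ ρ' ^ l / (ρ' - ρ) := by
    rw [(Commute.all ρ ρ').geom_sum₂ hρ'.ne l, ← neg_div_neg_eq, neg_sub, neg_sub]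
    refine div_le_div_of_nonneg_right ?_ hd.le
    have : 0 ≤ ρ ^ l := by positivity
    linarith
  calc K * K' * ∑ j ∈ range l, ρ ^ j * ρ' ^ (l - 1 - j) ≤ K * K' * (ρ' ^ l / (ρ' - ρ)) :=
        mul_le_mul_of_nonneg_left h4 (mul_nonneg hK hK')
    _ = _ := by ring

theorem t19_pow_le {x K K' ρ ρ' : ℝ} {l : ℕ} (hK : 0 ≤ K) (hKK : K ≤ K') (hρ : 0 ≤ ρ) (hρρ : ρ ≤ ρ') (h : x ≤ K * ρ ^ l) : x ≤ K' * ρ' ^ l :=
  h.trans (mul_le_mul hKK (pow_le_pow_left₀ hρ hρρ l) (pow_nonneg hρ l) (hK.trans hKK))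

/-- TARGET. exponential decay of `kL` and `fL` for each fixed `p`: `aL ≤ wL`, `wL (ch U) l ≤ m K ρ^l` (`exists_decay`, additivity `fn_fo`), and convolutions of exponentially decaying sequences (any `ρ' > ρ`) -/
theorem TS.kL_decay (T : TS D r) {U : Set V} (hU : T.Cn U) (hs : T.sp U) (p : ℕ) : ∃ ρ K : ℝ, 0 < ρ ∧ ρ < 1 ∧ 0 < K ∧ ∀ l, T.kL (T.ch U) p l ≤ K * ρ ^ l ∧ T.fL (T.ch U) p l ≤ K * ρ ^ l := by
  have hF := T.fo_ch hU
  obtain ⟨ρ0, K0, hρ0, hρ01, hK0, h0⟩ := T.exists_decay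
  obtain ⟨K1, hK1⟩ : ∃ K1 : ℝ, K1 = ((T.ch U).card + 1) * K0 := ⟨_, rfl⟩
  have hK1p : 0 < K1 := by
    rw [hK1]
    positivity
  have hw : ∀ l, T.wL (T.ch U) l ≤ K1 * ρ0 ^ l := by
    intro l
    rw [t19_wL_fo T hF l]
    have h1 : ∑ C ∈ T.ch U, T.wL {C} l ≤ ∑ C ∈ T.ch U, K0 * ρ0 ^ l := Finset.sum_le_sum fun C hC => h0 C (hF.cn C hC) l
    rw [Finset.sum_const, nsmul_eq_mul] at h1
    refine h1.trans ?_
    rw [hK1]
    have : 0 < K0 * ρ0 ^ l := by positivity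
    nlinarith
  have ha : ∀ l, T.aL (T.ch U) l ≤ K1 * ρ0 ^ l := fun l => (t19_aL_le T hF l).trans (hw l)
  induction p with
  | zero =>
    refine ⟨ρ0, K1, hρ0, hρ01, hK1p, fun l => ⟨?_, ?_⟩⟩
    · rw [t19_kL_zero T hF]
      exact ha l
    · rw [t19_fL_zero T hF]
      exact hw l
  | succ p ih =>
    obtain ⟨ρ, K, hρ, hρ1, hK, h⟩ := ih
    obtain ⟨ρ', hρ'⟩ : ∃ ρ' : ℝ, ρ' = (1 + max ρ0 ρ) / 2 := ⟨_, rfl⟩
    have hm1 : max ρ0 ρ < 1 := max_lt hρ01 hρ1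
    have h2 : max ρ0 ρ < ρ' := by rw [hρ']; linarith
    have hρ'1 : ρ' < 1 := by rw [hρ']; linarith
    have h3 : ρ0 < ρ' := (le_max_left _ _).trans_lt h2
    have h4 : ρ < ρ' := (le_max_right _ _).trans_lt h2
    have hρ'0 : 0 < ρ' := hρ.trans h4
    have hd : 0 < ρ' - ρ0 := sub_pos.2 h3
    have hc1 : 0 < K1 * K / (ρ' - ρ0) := by positivity
    refine ⟨ρ', K1 + K1 * K / (ρ' - ρ0), hρ'0, hρ'1, by positivity, fun l => ⟨?_, ?_⟩⟩
    · rw [t19_kL_conv T hU hs]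
      have h5 := t19_conv_le (fun j => t19_kL_nonneg T hF p j) hK1p.le hK.le hρ0 h3 ha
        (fun l => t19_pow_le hK.le le_rfl hρ.le h4.le (h l).1) l
      refine h5.trans ?_
      have : 0 ≤ ρ' ^ l := by positivity
      nlinarith
    · rw [t19_fL_conv T hU hs]
      have h5 := t19_conv_le (fun j => t19_fL_nonneg T hF p j) hK1p.le hK.le hρ0 h3 ha
        (fun l => t19_pow_le hK.le le_rfl hρ.le h4.le (h l).2) l
      have h6 := t19_pow_le hK1p.le le_rfl hρ0.le h3.le (hw l)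
      calc _ ≤ K1 * ρ' ^ l + K1 * K / (ρ' - ρ0) * ρ' ^ l := add_le_add h6 h5
        _ = _ := by ring

theorem t19_de_ne (T : TS D r) {F : Finset (Set V)} (hF : T.Fo F) (hne : F.Nonempty) (j : ℕ) : (T.de F j).Nonempty := by
  induction j with
  | zero =>
    rw [T.de_zero]
    exact hne
  | succ j ih =>
    obtain ⟨A, hA⟩ := ih
    obtain ⟨B, hB⟩ := t14a_ch_ne T (T.t5b_cn hF hA)
    refine ⟨B, ?_⟩
    rw [T.de_succ, Finset.mem_biUnion]
    exact ⟨A, hA, hB⟩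

/-- TARGET. `exists_fail2` for a special `A ∈ de (ch U) j` (such `A` exist in arbitrarily late generations by `sp_desc`): `Σ_{p ≤ j} (kL p j - tL p j) ≥ c > 0`, so for some `p` the sum of `tL p` is less than one -/
theorem TS.exists_p (T : TS D r) {U : Set V} (hU : T.Cn U) (hs : T.sp U) : ∃ p, Summable (T.tL (T.ch U) p) ∧ ∑' j, T.tL (T.ch U) p j < 1 := by
  have hF := T.fo_ch hU
  obtain ⟨N, hN⟩ := T.exists_fail2
  obtain ⟨C, hC⟩ := t19_de_ne T hF (t14a_ch_ne T hU) N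
  obtain ⟨j', _, A, hA', hsA⟩ := T.sp_desc (T.t5b_cn hF hC)
  have hA : A ∈ T.de (T.ch U) (N + j') := T.de_trans hC hA'
  obtain ⟨c, hc, hev⟩ := hN (T.ch U) hF (N + j') (by omega) A hA
  obtain ⟨j, hj⟩ : ∃ j, j = N + j' := ⟨_, rfl⟩
  rw [← hj] at hA
  obtain ⟨M, hM⟩ : ∃ M, M = (T.dl (T.ch U) j).card := ⟨_, rfl⟩
  have key : c ≤ ∑ p ∈ range (M + 1), (T.kL (T.ch U) p j - T.tL (T.ch U) p j) := by
    refine ge_of_tendsto (tendsto_finsetSum _ fun p _ => (t19_kT T hF p j).sub (t19_tT T hF p j)) ?_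
    filter_upwards [hev] with G hG
    refine hG.trans ?_
    have h1 : ∀ p, ex D r (gp G (T.ch U)) (fun ζ => (T.ku (T.ch U) p G j ζ : ℝ)) - ex D r (gp G (T.ch U)) (fun ζ => (T.kt (T.ch U) p G j ζ : ℝ)) =
        ex D r (gp G (T.ch U)) (fun ζ => (T.ku (T.ch U) p G j ζ : ℝ) - (T.kt (T.ch U) p G j ζ : ℝ)) := by
      intro p
      unfold ex
      rw [Finset.sum_sub_distrib, sub_div]
    simp only [h1]
    rw [← t9_ex_sum, t9_pr_eq]
    refine t9_ex_mono (fun ζ _ => ?_)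
    have hnn : ∀ p ∈ range (M + 1), (0 : ℝ) ≤ (T.ku (T.ch U) p G j ζ : ℝ) - (T.kt (T.ch U) p G j ζ : ℝ) := by
      intro p _
      have : (T.kt (T.ch U) p G j ζ : ℝ) ≤ T.ku (T.ch U) p G j ζ := by exact_mod_cast t19_kt_le T (T.ch U) p G j ζ
      linarith
    split_ifs with hE
    · obtain ⟨hb, hr, hnr⟩ := hE
      have hp : T.na (T.ch U) j ζ A ∈ range (M + 1) := by
        rw [Finset.mem_range, hM]
        refine Nat.lt_succ_of_le ?_
        unfold TS.na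
        exact Finset.card_filter_le _ _
      refine le_trans ?_ (Finset.single_le_sum hnn hp)
      have h2 : T.kt (T.ch U) (T.na (T.ch U) j ζ A) G j ζ < T.ku (T.ch U) (T.na (T.ch U) j ζ A) G j ζ := by
        unfold TS.kt TS.ku
        refine Finset.card_lt_card ?_
        rw [Finset.ssubset_iff_of_subset]
        · refine ⟨A, Finset.mem_filter.2 ⟨hA, hsA, hb, hr, rfl⟩, fun h => ?_⟩
          exact hnr (Finset.mem_filter.1 h).2.2.2.2.2
        · intro B hB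
          rw [Finset.mem_filter] at hB ⊢
          exact ⟨hB.1, hB.2.1, hB.2.2.1, hB.2.2.2.1, hB.2.2.2.2.1⟩
      have h3 : (T.kt (T.ch U) (T.na (T.ch U) j ζ A) G j ζ : ℝ) + 1 ≤ T.ku (T.ch U) (T.na (T.ch U) j ζ A) G j ζ := by exact_mod_cast h2
      linarith
    · exact Finset.sum_nonneg hnn
  obtain ⟨p, hp⟩ : ∃ p, T.tL (T.ch U) p j < T.kL (T.ch U) p j := by
    by_contra hcon
    push Not at hcon
    have : ∑ p ∈ range (M + 1), (T.kL (T.ch U) p j - T.tL (T.ch U) p j) ≤ 0 :=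
      Finset.sum_nonpos fun p _ => by have := hcon p; linarith
    linarith
  have hsum := T.kL_sum hU hs p
  refine ⟨p, Summable.of_nonneg_of_le (fun l => t19_tL_nonneg T hF p l) (fun l => t19_tL_le T hF p l) hsum.summable, ?_⟩
  have h5 := Summable.tsum_lt_tsum_of_nonneg (fun l => t19_tL_nonneg T hF p l) (fun l => t19_tL_le T hF p l) hp hsum.summable
  rw [hsum.tsum_eq] at h5
  exact h5

/-- TARGET. and by `kL_decay`, for some `s > 1` close to one -/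
theorem TS.exists_s (T : TS D r) {U : Set V} (hU : T.Cn U) (hs : T.sp U) : ∃ (p : ℕ) (s : ℝ), 1 < s ∧ Summable (fun j => T.tL (T.ch U) p j * s ^ (j + 1)) ∧
    ∑' j, T.tL (T.ch U) p j * s ^ (j + 1) < 1 := by
  have hF := T.fo_ch hU
  obtain ⟨p, hp1, hp2⟩ := T.exists_p hU hs
  obtain ⟨ρ, K, hρ, hρ1, hK, h⟩ := T.kL_decay hU hs p
  have ht : ∀ l, T.tL (T.ch U) p l ≤ K * ρ ^ l := fun l => (t19_tL_le T hF p l).trans (h l).1
  have ht0 : ∀ l, 0 ≤ T.tL (T.ch U) p l := fun l => t19_tL_nonneg T hF p l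
  -- the radius
  obtain ⟨s1, hs1, hs1ρ⟩ : ∃ s1 : ℝ, 1 < s1 ∧ s1 * ρ < 1 := by
    refine ⟨(1 + 1 / ρ) / 2, ?_, ?_⟩
    · have : 1 < 1 / ρ := by rw [lt_div_iff₀ hρ]; linarith
      linarith
    · have e : (1 + 1 / ρ) / 2 * ρ = (ρ + 1) / 2 := by field_simp
      rw [e]
      linarith
  have hs1p : 0 < s1 := by linarith
  have hbs : Summable (fun j : ℕ => K * s1 * (s1 * ρ) ^ j) :=
    (summable_geometric_of_lt_one (by positivity) hs1ρ).mul_left _
  have hbound : ∀ s : ℝ, 1 ≤ s → s ≤ s1 → ∀ j, ‖T.tL (T.ch U) p j * s ^ (j + 1)‖ ≤ K * s1 * (s1 * ρ) ^ j := by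
    intro s h1 h2 j
    have hs0 : 0 ≤ s := by linarith
    rw [Real.norm_of_nonneg (mul_nonneg (ht0 j) (pow_nonneg hs0 _))]
    calc T.tL (T.ch U) p j * s ^ (j + 1) ≤ (K * ρ ^ j) * s1 ^ (j + 1) :=
          mul_le_mul (ht j) (pow_le_pow_left₀ hs0 h2 _) (pow_nonneg hs0 _) (by positivity)
      _ = _ := by rw [mul_pow, pow_succ]; ring
  have hlim : Tendsto (fun s : ℝ => ∑' j, T.tL (T.ch U) p j * s ^ (j + 1)) (𝓝[>] 1) (𝓝 (∑' j, T.tL (T.ch U) p j)) := by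
    refine tendsto_tsum_of_dominated_convergence hbs ?_ ?_
    · intro j
      have h1 : Tendsto (fun s : ℝ => T.tL (T.ch U) p j * s ^ (j + 1)) (𝓝 1) (𝓝 (T.tL (T.ch U) p j * 1 ^ (j + 1))) :=
        ((continuous_id.pow (j + 1)).const_mul _).tendsto 1 |>.congr (fun _ => rfl)
      rw [one_pow, mul_one] at h1
      exact h1.mono_left nhdsWithin_le_nhds
    · have h1 : ∀ᶠ s : ℝ in 𝓝[>] 1, s < s1 := nhdsWithin_le_nhds (Iio_mem_nhds hs1)
      have h2 : ∀ᶠ s : ℝ in 𝓝[>] 1, 1 < s := self_mem_nhdsWithin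
      filter_upwards [h1, h2] with s h3 h4
      exact hbound s h4.le h3.le
  have h1 : ∀ᶠ s : ℝ in 𝓝[>] 1, s < s1 := nhdsWithin_le_nhds (Iio_mem_nhds hs1)
  have h2 : ∀ᶠ s : ℝ in 𝓝[>] 1, 1 < s := self_mem_nhdsWithin
  have h3 := hlim.eventually (gt_mem_nhds hp2)
  obtain ⟨s, ⟨h4, h5⟩, h6⟩ := ((h1.and h2).and h3).exists
  exact ⟨p, s, h5, Summable.of_norm_bounded hbs (hbound s h5.le h4.le), h6⟩

end Pool.Agent.Helper910.QT
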