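import Mathlib
import Pool.Agent.Helper910.T19

/-! Cones reached by two waves with one extra source below (MP_4555f0_mp) -/

namespace Pool.Agent.Helper910.QT

open Classical Finset Filter Topology

variable {V : Type*} {D : SimpleGraph V} [D.LocallyFinite] {r : ℕ}

/-- `C` is reached by the first full wave, and by the second full wave after the first one has been helped by some source `b ⊆ C` (all computed off `C`) -/
def TS.tw (T : TS D r) (F : Finset (Set V)) (G : Finset V) (ξ : V → ℕ) (C : Set V) : Prop :=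
  rch D (T.fi F) (gw D r (T.fi F) (rg' G F C) ξ) C ∧
    ∃ b : Finset V, (∀ z ∈ b, z ∈ C) ∧
      rch D (T.fi F) (gw D r (T.fi F) (rg' G F C) (gs D r 0 (fun z => T.fi F z + dgi D b z) (rg' G F C) ξ)) C

/-- number of such cones in generation `l` -/
noncomputable def TS.tn (T : TS D r) (F : Finset (Set V)) (G : Finset V) (l : ℕ) (ζ : V → ℕ) : ℕ :=
  ((T.de F l).filter (fun C => T.tw F G (rs (rg' G F C) ζ) C)).card


/-! ### auxiliary lemmas -/

theorem t20_gs_rs {w g : V → ℕ} {G : Finset V} {ζ : V → ℕ} : gs D r w g G (rs G ζ) = gs D r w g G ζ := by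
  funext z
  unfold gs
  rw [t12_gw_rs]
  by_cases hz : z ∈ G
  · rw [if_pos hz, if_pos hz, rs_mem hz]
  · rw [if_neg hz, if_neg hz]

theorem t20_gw_rs2 {g : V → ℕ} {G G' : Finset V} {ζ : V → ℕ} (h : G' ⊆ G) : gw D r g G' (rs G ζ) = gw D r g G' ζ := by
  apply gw_congr
  intro y hy
  rw [rs_mem (h hy)]

theorem t20_rch_mono {g : V → ℕ} {W W' : Finset V} {A : Set V} (h : W ⊆ W') (hr : rch D g W A) : rch D g W' A := by
  obtain ⟨z, hz, h1⟩ := hr
  refine ⟨z, hz, ?_⟩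
  rcases h1 with h1 | ⟨x, hx, hxA, hadj⟩
  · exact Or.inl h1
  · exact Or.inr ⟨x, h hx, hxA, hadj⟩

/-- being reached is decided off the cone -/
theorem t20_off {g : V → ℕ} {G G1 : Finset V} {A : Set V} {ζ : V → ℕ} (hG : ∀ z ∈ G, z ∉ A → z ∈ G1) (hG1 : ∀ z ∈ G1, z ∉ A)
    (hζ : ∀ z ∈ G, ζ z ≤ r) (h : rch D g (gw D r g G ζ) A) : rch D g (gw D r g G1 ζ) A := by
  by_contra hcon
  have hsub : gw D r g G ζ ⊆ gw D r g G1 ζ := by
    apply gw_least'
    intro y hy hyW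
    by_cases hyA : y ∈ A
    · have h1 : g y = 0 := by
        by_contra h0
        exact hcon ⟨y, hyA, Or.inl (Nat.pos_of_ne_zero h0)⟩
      have h2 : dg D y (gw D r g G1 ζ) = 0 := by
        apply dg_eq_zero
        intro x hx hadj
        exact hcon ⟨y, hyA, Or.inr ⟨x, hx, hG1 x (gw_sub _ _ _ hx), hadj.symm⟩⟩
      rw [h1, h2]
      have := hζ y hy
      omega
    · exact (gw_GCl (D := D) (r := r) g G1 ζ).2 y (hG y hy hyA) hyW
  exact hcon (t20_rch_mono hsub h)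

/-- the number of neighbours in the part of a wave off a cone -/
theorem t20_dg_out (T : TS D r) {A : Set V} (hA : T.Cn A) {W : Finset V} (hQ : T.Q A ⊆ W) {z : V} (hz : z ∉ A) :
    dg D z W = dg D z (T.Q A) + dg D z (W.filter (fun x => x ∉ A)) := by
  have hd : Disjoint (T.Q A) (W.filter (fun x => x ∉ A)) := by
    rw [Finset.disjoint_left]
    intro x hx hx'
    exact (Finset.mem_filter.1 hx').2 (T.Q_sub hA hx)
  rw [← dg_union hd]
  apply le_antisymm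
  · apply TS.t5b_dg_le
    intro x hx hadj
    by_cases hxA : x ∈ A
    · exact Finset.mem_union_left _ (T.ib_sub hA hxA hz hadj.symm).1
    · exact Finset.mem_union_right _ (Finset.mem_filter.2 ⟨hx, hxA⟩)
  · apply dg_mono
    apply Finset.union_subset hQ (Finset.filter_subset _ _)

/-- the part of a wave off a cone whose top piece topples -/
theorem t20_out (T : TS D r) {A : Set V} (hA : T.Cn A) {g g1 : V → ℕ} {G G1 : Finset V} {ζ : V → ℕ}
    (hG1 : ∀ z, z ∈ G1 ↔ z ∈ G ∧ z ∉ A) (hg : ∀ z ∈ G1, g1 z = g z + dg D z (T.Q A))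
    (hQ : T.Q A ⊆ gw D r g G ζ) : gw D r g1 G1 ζ = (gw D r g G ζ).filter (fun z => z ∉ A) := by
  apply gw_eq
  · refine ⟨?_, ?_⟩
    · intro z hz
      rw [Finset.mem_filter] at hz
      exact (hG1 z).2 ⟨gw_sub _ _ _ hz.1, hz.2⟩
    · intro y hy hyW
      have hy1 := (hG1 y).1 hy
      have hyW' : y ∉ gw D r g G ζ := fun h => hyW (Finset.mem_filter.2 ⟨h, hy1.2⟩)
      have h1 := (gw_GCl (D := D) (r := r) g G ζ).2 y hy1.1 hyW'
      rw [t20_dg_out T hA hQ hy1.2] at h1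
      rw [hg y hy]
      omega
  · intro X hX hne
    obtain ⟨z, hz, h1⟩ := gw_fd (D := D) (r := r) (g := g) (G := G) (ζ := ζ) (X := X)
      (fun x hx => (Finset.mem_filter.1 (hX hx)).1) hne
    refine ⟨z, hz, ?_⟩
    have hzf := Finset.mem_filter.1 (hX hz)
    have hz1 : z ∈ G1 := (hG1 z).2 ⟨gw_sub _ _ _ hzf.1, hzf.2⟩
    have hQX : T.Q A ⊆ gw D r g G ζ \ X := by
      intro x hx
      refine Finset.mem_sdiff.2 ⟨hQ hx, fun hxX => ?_⟩
      exact (Finset.mem_filter.1 (hX hxX)).2 (T.Q_sub hA hx)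
    rw [t20_dg_out T hA hQX hzf.2] at h1
    rw [hg z hz1]
    have h2 : (gw D r g G ζ \ X).filter (fun x => x ∉ A) = (gw D r g G ζ).filter (fun x => x ∉ A) \ X := by
      ext x
      simp only [Finset.mem_filter, Finset.mem_sdiff]
      tauto
    rw [h2] at h1
    omega

/-- the configuration after such a wave, off the cone -/
theorem t20_out_gs (T : TS D r) {A : Set V} (hA : T.Cn A) {g g1 : V → ℕ} {G G1 : Finset V} {ζ : V → ℕ}
    (hG1 : ∀ z, z ∈ G1 ↔ z ∈ G ∧ z ∉ A) (hg : ∀ z ∈ G1, g1 z = g z + dg D z (T.Q A))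
    (hQ : T.Q A ⊆ gw D r g G ζ) {z : V} (hz : z ∈ G1) : gs D r 0 g G ζ z = gs D r 0 g1 G1 ζ z := by
  have hz1 := (hG1 z).1 hz
  unfold gs
  rw [if_pos hz1.1, if_pos hz, t20_out T hA hG1 hg hQ, hg z hz, t20_dg_out T hA hQ hz1.2]
  have h1 : (z ∈ (gw D r g G ζ).filter (fun x => x ∉ A)) ↔ z ∈ gw D r g G ζ := by
    rw [Finset.mem_filter]
    exact ⟨fun h => h.1, fun h => ⟨h, hz1.2⟩⟩
  by_cases hzW : z ∈ gw D r g G ζ
  · rw [if_pos hzW, if_pos (h1.2 hzW)]
    omega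
  · rw [if_neg hzW, if_neg (fun h => hzW (h1.1 h))]
    omega

/-- neighbours of a vertex below a piece -/
theorem t20_nbr_in (T : TS D r) {A : Set V} (hA : T.Cn A) {z x : V} (hz : z ∈ fs (T.ch A)) (h : D.Adj z x) :
    x ∈ fs (T.ch A) ∨ x ∈ T.Q A := by
  obtain ⟨C', hC', hzC⟩ := hz
  rcases T.nbr_ch hA hC' hzC h with h1 | h1
  · exact Or.inl ⟨C', hC', h1⟩
  · exact Or.inr (T.o_sub hA C' hC' h1)

theorem t20_dg_in (T : TS D r) {A : Set V} (hA : T.Cn A) {W : Finset V} (hQ : T.Q A ⊆ W) {z : V} (hz : z ∈ fs (T.ch A)) :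
    dg D z W = dg D z (T.Q A) + dg D z (W.filter (fun x => x ∈ fs (T.ch A))) := by
  have hd : Disjoint (T.Q A) (W.filter (fun x => x ∈ fs (T.ch A))) := by
    rw [Finset.disjoint_left]
    intro x hx hx'
    exact t13_Q_notMem T hA hx (Finset.mem_filter.1 hx').2
  rw [← dg_union hd]
  apply le_antisymm
  · apply TS.t5b_dg_le
    intro x hx hadj
    rcases t20_nbr_in T hA hz hadj with h1 | h1
    · exact Finset.mem_union_right _ (Finset.mem_filter.2 ⟨hx, h1⟩)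
    · exact Finset.mem_union_left _ h1
  · apply dg_mono
    apply Finset.union_subset hQ (Finset.filter_subset _ _)

/-- the part of a wave below a piece is contained in the wave with the full input -/
theorem t20_in_le (T : TS D r) {A : Set V} (hA : T.Cn A) {g g1 : V → ℕ} {G G1 : Finset V} {ζ : V → ℕ}
    (hG1 : ∀ z, z ∈ G1 ↔ z ∈ G ∧ z ∈ fs (T.ch A)) (hg : ∀ z ∈ G1, g1 z = g z + dg D z (T.Q A)) :
    ∀ z ∈ gw D r g G ζ, z ∈ fs (T.ch A) → z ∈ gw D r g1 G1 ζ := by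
  have hsub : gw D r g G ζ ⊆ gw D r g1 G1 ζ ∪ G.filter (fun z => z ∉ fs (T.ch A)) := by
    apply gw_least'
    intro y hy hyW
    rw [Finset.mem_union, not_or, Finset.mem_filter, not_and, not_not] at hyW
    have hy1 := hyW.2 hy
    have hyG : y ∈ G1 := (hG1 y).2 ⟨hy, hy1⟩
    have h1 := (gw_GCl (D := D) (r := r) g1 G1 ζ).2 y hyG hyW.1
    rw [hg y hyG] at h1
    have h2 : dg D y (gw D r g1 G1 ζ ∪ G.filter (fun z => z ∉ fs (T.ch A))) ≤ dg D y (T.Q A ∪ gw D r g1 G1 ζ) := by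
      apply TS.t5b_dg_le
      intro x hx hadj
      rcases Finset.mem_union.1 hx with h | h
      · exact Finset.mem_union_right _ h
      · rcases t20_nbr_in T hA hy1 hadj with h3 | h3
        · exact absurd h3 (Finset.mem_filter.1 h).2
        · exact Finset.mem_union_left _ h3
    have hd : Disjoint (T.Q A) (gw D r g1 G1 ζ) := by
      rw [Finset.disjoint_left]
      intro x hx hx'
      exact t13_Q_notMem T hA hx ((hG1 x).1 (gw_sub _ _ _ hx')).2
    rw [dg_union hd] at h2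
    omega
  intro z hz hzf
  rcases Finset.mem_union.1 (hsub hz) with h | h
  · exact h
  · exact absurd hzf (Finset.mem_filter.1 h).2

/-- the part of a wave below a piece which topples -/
theorem t20_in (T : TS D r) {A : Set V} (hA : T.Cn A) {g g1 : V → ℕ} {G G1 : Finset V} {ζ : V → ℕ}
    (hG1 : ∀ z, z ∈ G1 ↔ z ∈ G ∧ z ∈ fs (T.ch A)) (hg : ∀ z ∈ G1, g1 z = g z + dg D z (T.Q A))
    (hQ : T.Q A ⊆ gw D r g G ζ) : gw D r g1 G1 ζ = (gw D r g G ζ).filter (fun z => z ∈ fs (T.ch A)) := by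
  apply Finset.Subset.antisymm
  · apply gw_least'
    intro y hy hyW
    have hy1 := (hG1 y).1 hy
    have hyW' : y ∉ gw D r g G ζ := fun h => hyW (Finset.mem_filter.2 ⟨h, hy1.2⟩)
    have h1 := (gw_GCl (D := D) (r := r) g G ζ).2 y hy1.1 hyW'
    rw [t20_dg_in T hA hQ hy1.2] at h1
    rw [hg y hy]
    omega
  · intro z hz
    rw [Finset.mem_filter] at hz
    exact t20_in_le T hA hG1 hg z hz.1 hz.2

theorem t20_in_gs (T : TS D r) {A : Set V} (hA : T.Cn A) {g g1 : V → ℕ} {G G1 : Finset V} {ζ : V → ℕ}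
    (hG1 : ∀ z, z ∈ G1 ↔ z ∈ G ∧ z ∈ fs (T.ch A)) (hg : ∀ z ∈ G1, g1 z = g z + dg D z (T.Q A))
    (hQ : T.Q A ⊆ gw D r g G ζ) {z : V} (hz : z ∈ G1) : gs D r 0 g G ζ z = gs D r 0 g1 G1 ζ z := by
  have hz1 := (hG1 z).1 hz
  unfold gs
  rw [if_pos hz1.1, if_pos hz, t20_in T hA hG1 hg hQ, hg z hz, t20_dg_in T hA hQ hz1.2]
  have h1 : (z ∈ (gw D r g G ζ).filter (fun x => x ∈ fs (T.ch A))) ↔ z ∈ gw D r g G ζ := by
    rw [Finset.mem_filter]
    exact ⟨fun h => h.1, fun h => ⟨h, hz1.2⟩⟩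
  by_cases hzW : z ∈ gw D r g G ζ
  · rw [if_pos hzW, if_pos (h1.2 hzW)]
    omega
  · rw [if_neg hzW, if_neg (fun h => hzW (h1.1 h))]
    omega

/-- a reached full piece topples -/
theorem t20_trig (T : TS D r) {F : Finset (Set V)} (hF : T.Fo F) {g : V → ℕ} (hg : ∀ z ∈ fs F, g z ≤ T.fi F z) {j : ℕ} {A : Set V}
    (hA : A ∈ T.de F j) {G : Finset V} {ζ : V → ℕ} (hQ : ∀ z ∈ T.Q A, z ∈ G ∧ ζ z = r)
    (h : rch D g (gw D r g G ζ) A) : T.Q A ⊆ gw D r g G ζ := by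
  have cA := T.t5b_cn hF hA
  obtain ⟨z, hz, h1⟩ := h
  have key : z ∈ T.Q A ∧ z ∈ gw D r g G ζ := by
    rcases h1 with h1 | ⟨x, hx, hxA, hadj⟩
    · obtain ⟨x, hxA, hadj⟩ := T.t5b_inp hF hg hA hz h1
      have hzQ := (T.ib_sub cA hz hxA hadj).1
      refine ⟨hzQ, ?_⟩
      by_contra hn
      have h2 := (gw_GCl (D := D) (r := r) g G ζ).2 z (hQ z hzQ).1 hn
      rw [(hQ z hzQ).2] at h2
      omega
    · have hzQ := (T.ib_sub cA hz hxA hadj.symm).1
      refine ⟨hzQ, ?_⟩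
      by_contra hn
      have h2 := (gw_GCl (D := D) (r := r) g G ζ).2 z (hQ z hzQ).1 hn
      rw [(hQ z hzQ).2] at h2
      have h3 := TS.t5b_dg_pos hx hadj.symm
      omega
  intro a ha
  obtain ⟨p, hp⟩ := T.Q_conn cA z key.1 a ha
  exact TS.t5b_walk hQ p hp key.2

theorem t20_le {G : Finset V} {ζ : V → ℕ} (hζ : ζ ∈ Rc D r G) : ∀ z ∈ G, ζ z ≤ r := t3_rc_le hζ

theorem t20_mem_rg {G : Finset V} {F : Finset (Set V)} {A : Set V} {z : V} : z ∈ rg' G F A ↔ (z ∈ G ∧ z ∈ fs F) ∧ z ∉ A := by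
  unfold rg'
  rw [Finset.mem_filter, TS.mem_gp]

theorem t20_rg_sub {G : Finset V} {F : Finset (Set V)} {A : Set V} : rg' G F A ⊆ gp G F := Finset.filter_subset _ _


/-- the extra input of a source inside a cone `C` below `A` vanishes off `A` -/
theorem t20_dgi_off (T : TS D r) {A C : Set V} (hA : T.Cn A) (hQC : ∀ z ∈ T.Q A, z ∉ C) (hCA : C ⊆ A) {b : Finset V} (hb : ∀ z ∈ b, z ∈ C)
    {z : V} (hz : z ∉ A) : dgi D b z = 0 := by
  unfold dgi
  apply dg_eq_zero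
  intro x hx hadj
  exact hQC x (T.ib_sub hA (hCA (hb x hx)) hz hadj.symm).1 (hb x hx)

/-- admissibility of the input helped by a source inside `C` -/
theorem t20_adm (T : TS D r) {F : Finset (Set V)} (hF : T.Fo F) {C : Set V} (hCF : C ⊆ fs F) {G : Finset V} {b : Finset V} (hb : ∀ z ∈ b, z ∈ C) :
    Adm D r 0 (fun z => T.fi F z + dgi D b z) (rg' G F C) := by
  intro z hz
  have h1 : Disjoint (T.fo F) b := by
    rw [Finset.disjoint_left]
    intro x hx hx'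
    exact T.t5b_fo_notMem hF hx (hCF (hb x hx'))
  have h2 : Disjoint (T.fo F ∪ b) (rg' G F C) := by
    rw [Finset.disjoint_left]
    intro x hx hx'
    rw [t20_mem_rg] at hx'
    rcases Finset.mem_union.1 hx with h | h
    · exact T.t5b_fo_notMem hF h hx'.1.2
    · exact hx'.2 (hb x h)
  have h3 := (T.gd).degLe z ((T.fo F ∪ b) ∪ rg' G F C)
  rw [dg_union h2, dg_union h1] at h3
  change 0 + (dg D z (T.fo F) + dg D z b) + dg D z (rg' G F C) ≤ r
  omega

/-- TARGET. SHIELDING. Let `C ∈ de {A} (k+1)`, `A ∈ de F j`, `ζ ∈ Rc (gp G F)`, `fb ζ A`, and `tw F G (rs (rg' G F C) ζ) C`. Then `A` is reached by the first and by the second full wave on `gp G F`, and `tw (ch A) G (rs (rg' G (ch A) C) ζ) C`.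
Proof. Let `H = rg' G F C`, `W^b = gw (fi F + dgi b) H ζ ⊇ W^∅ = gw (fi F) H ζ`. `W^∅` reaches `C`, hence `A` (`rch_parent`-type argument), so `Q A ⊆ W^∅` (heights `r`; `Q A ⊆ H`). The extra input `dgi b` is nonzero only at vertices of `o C ⊆ A`. For any wave on `H` or on `gp G F` containing `Q A`, with extra input
only inside the children of `A`... the part off `A` is the wave on `gp G F \ A` with input `fi F + dgi (Q A)`, so it is the same for `W^b` and for the first full wave `W` on `gp G F`, and the configurations after these waves agree off `A` (vertices off `A` adjacent to `A` are in `o A` and see only `Q A`-vertices of `A`).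
The second wave on `H` from the configuration after `W^b` reaches `C ⊆ A`, so it reaches `A`; being reached depends only on the configuration off `A` (`rch_off`-type argument on `H`), so the second full wave on `gp G F` reaches `A`.
Inside: `W^∅ ∩ fs (ch A)` is the full wave of `ch A` on `rg' G (ch A) C` and `W^b ∩ fs (ch A)` the wave with the extra input `dgi b` (as in `piv_gw`; all of `Q A` topples), the configurations after them agree, and the second wave of `H` inside `fs (ch A)` is contained in the one with the full input from `Q A`.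
If `C ∈ ch A` (`k = 0`) being reached in `ch A` is automatic for the full input. -/
theorem TS.shield (T : TS D r) {F : Finset (Set V)} (hF : T.Fo F) {j k : ℕ} {A C : Set V} (hA : A ∈ T.de F j) (hC : C ∈ T.de {A} (k + 1)) {G : Finset V} {ζ : V → ℕ}
    (hζ : ζ ∈ Rc D r (gp G F)) (hb : T.fb ζ A) (h : T.tw F G (rs (rg' G F C) ζ) C) :
    T.r1 F G ζ A ∧ T.r2 F G ζ A ∧ T.tw (T.ch A) G (rs (rg' G (T.ch A) C) ζ) C := by
  have cA : T.Cn A := T.t5b_cn hF hA
  have hCF : C ∈ T.de F (j + (k + 1)) := T.de_trans hA hC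
  have cC : T.Cn C := T.t5b_cn hF hCF
  have hCA : C ⊆ A := T.de_single_sub cA hC
  have hC' : C ∈ T.de (T.ch A) k := by rw [← t13_de_ch]; exact hC
  have hCs : C ⊆ fs (T.ch A) := T.t5b_sub (T.fo_ch cA) hC'
  have hQC : ∀ z ∈ T.Q A, z ∉ C := fun z hz => T.t5c_Q_desc cA (Nat.succ_ne_zero k) hC hz
  have hAF : A ⊆ fs F := T.t5b_sub hF hA
  have hs : ∀ z ∈ fs (T.ch A), z ∈ A := fun z hz => t13_fs_ch T cA hz
  have hfi0 : ∀ z ∈ fs (T.ch A), T.fi F z = 0 := fun z hz =>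
    T.fi_zero hF (Nat.succ_le_succ (Nat.zero_le j)) (t13_fs_de T hA hz)
  have hQg : ∀ z ∈ T.Q A, z ∈ gp G F := t13_Q_gp T hζ hb
  have hζH : rs (rg' G F C) ζ ∈ Rc D r (rg' G F C) := rs_mem_Rc t20_rg_sub hζ
  obtain ⟨h1, b, hbC, h2⟩ := h
  have hfC : ∀ z ∈ C, T.fi F z = 0 := fun z hz => hfi0 z (hCs hz)
  -- the first wave on the region without `C`
  rw [t12_gw_rs] at h1
  rw [t20_gs_rs] at h2
  have hleH : ∀ z ∈ rg' G F C, ζ z ≤ r := fun z hz => t20_le hζ z (t20_rg_sub hz)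
  -- what reaches `C` reaches `A`
  have up : ∀ {g η : V → ℕ}, (∀ z ∈ C, g z = 0) → (∀ z ∈ rg' G F C, η z ≤ r) → rch D g (gw D r g (rg' G F C) η) C →
      (∃ x ∈ gw D r g (rg' G F C) η, x ∈ T.o C ∧ x ∈ A ∧ x ∉ C) ∧ rch D g (gw D r g (rg' G F C) η) A := by
    intro g η hg hη hr
    obtain ⟨z, hz, h3⟩ := hr
    rcases h3 with h3 | ⟨x, hx, hxC, hadj⟩
    · rw [hg z hz] at h3
      exact absurd h3 (lt_irrefl 0)
    have hxo : x ∈ T.o C := T.t5b_mem_o cC hxC hz hadj.symm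
    have hxA : x ∈ A := by
      rcases t20_nbr_in T cA (hCs hz) hadj.symm with h | h
      · exact hs x h
      · exact T.Q_sub cA h
    refine ⟨⟨x, hx, hxo, hxA, hxC⟩, ?_⟩
    by_contra hcon
    exact TS.t12_not_rch hη hcon hxA hx
  have hfiC : ∀ z ∈ C, T.fi F z = 0 := hfC
  obtain ⟨⟨x0, hx0, hx0o, hx0A, hx0C⟩, hA0⟩ := up hfiC hleH h1
  have hQH : ∀ z ∈ T.Q A, z ∈ rg' G F C ∧ ζ z = r := fun z hz =>
    ⟨Finset.mem_filter.2 ⟨hQg z hz, hQC z hz⟩, hb z hz⟩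
  have hQ0 : T.Q A ⊆ gw D r (T.fi F) (rg' G F C) ζ := t20_trig T hF (fun _ _ => le_rfl) hA hQH hA0
  -- the helped wave
  have hQb : T.Q A ⊆ gw D r (fun z => T.fi F z + dgi D b z) (rg' G F C) ζ :=
    hQ0.trans (gw_mono le_rfl (fun y _ => by
      change ζ y + T.fi F y ≤ ζ y + (T.fi F y + dgi D b y)
      omega))
  -- the first full wave
  have hQ1 : T.Q A ⊆ gw D r (T.fi F) (gp G F) ζ := hQ0.trans (gw_mono t20_rg_sub (fun y _ => le_rfl))
  have r1A : T.r1 F G ζ A := t20_rch_mono (gw_mono t20_rg_sub (fun y _ => le_rfl)) hA0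
  refine ⟨r1A, ?_, ?_⟩
  · -- the second wave
    have hηH : gs D r 0 (fun z => T.fi F z + dgi D b z) (rg' G F C) ζ ∈ Rc D r (rg' G F C) := by
      rw [← t20_gs_rs]
      exact gs_mem (t20_adm T hF (hCA.trans hAF) hbC) hζH
    have hη : gs D r 0 (T.fi F) (gp G F) ζ ∈ Rc D r (gp G F) := gs_mem (T.adm_fi hF (fun _ _ => le_rfl) G) hζ
    obtain ⟨-, h4⟩ := up hfiC (t20_le hηH) h2
    have hG1 : ∀ z, z ∈ rg' G F A ↔ z ∈ rg' G F C ∧ z ∉ A := by
      intro z
      rw [t20_mem_rg, t20_mem_rg]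
      constructor
      · rintro ⟨h5, h6⟩
        exact ⟨⟨h5, fun h7 => h6 (hCA h7)⟩, h6⟩
      · rintro ⟨⟨h5, -⟩, h6⟩
        exact ⟨h5, h6⟩
    have hG1' : ∀ z, z ∈ rg' G F A ↔ z ∈ gp G F ∧ z ∉ A := by
      intro z
      rw [t20_mem_rg, TS.mem_gp]
    have h5 := t20_off (D := D) (r := r) (g := T.fi F) (A := A) (fun z hz hzA => (hG1 z).2 ⟨hz, hzA⟩) (fun z hz => ((hG1 z).1 hz).2) (t20_le hηH) h4
    have h6 : ∀ z ∈ rg' G F A, gs D r 0 (fun z => T.fi F z + dgi D b z) (rg' G F C) ζ z = gs D r 0 (T.fi F) (gp G F) ζ z := by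
      intro z hz
      rw [t20_out_gs T cA (g1 := fun z => T.fi F z + dg D z (T.Q A)) hG1 (fun y hy => by
        have := t20_dgi_off T cA hQC hCA hbC ((hG1 y).1 hy).2
        change T.fi F y + dg D y (T.Q A) = T.fi F y + dgi D b y + dg D y (T.Q A)
        omega) hQb hz]
      rw [t20_out_gs T cA (g1 := fun z => T.fi F z + dg D z (T.Q A)) hG1' (fun y hy => rfl) hQ1 hz]
    have h7 : gw D r (T.fi F) (rg' G F A) (gs D r 0 (fun z => T.fi F z + dgi D b z) (rg' G F C) ζ) =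
        gw D r (T.fi F) (rg' G F A) (gs D r 0 (T.fi F) (gp G F) ζ) := by
      apply gw_congr
      intro y hy
      rw [h6 y hy]
    rw [h7] at h5
    exact t20_rch_mono (gw_mono t20_rg_sub (fun y _ => le_rfl)) h5
  · -- inside
    have hG1 : ∀ z, z ∈ rg' G (T.ch A) C ↔ z ∈ rg' G F C ∧ z ∈ fs (T.ch A) := by
      intro z
      rw [t20_mem_rg, t20_mem_rg]
      constructor
      · rintro ⟨⟨h5, h6⟩, h7⟩
        exact ⟨⟨⟨h5, hAF (hs z h6)⟩, h7⟩, h6⟩
      · rintro ⟨⟨⟨h5, -⟩, h7⟩, h6⟩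
        exact ⟨⟨h5, h6⟩, h7⟩
    have hfi1 : ∀ z ∈ fs (T.ch A), T.fi (T.ch A) z = dg D z (T.Q A) := fun z hz => T.fi_ch cA hz
    have hg0 : ∀ z ∈ rg' G (T.ch A) C, T.fi (T.ch A) z = T.fi F z + dg D z (T.Q A) := by
      intro z hz
      have hzf := ((hG1 z).1 hz).2
      rw [hfi0 z hzf, hfi1 z hzf, zero_add]
    have hgb : ∀ z ∈ rg' G (T.ch A) C, T.fi (T.ch A) z + dgi D b z = T.fi F z + dgi D b z + dg D z (T.Q A) := by
      intro z hz
      rw [hg0 z hz]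
      omega
    -- reached inside
    have inside : ∀ {η : V → ℕ}, (∃ x ∈ gw D r (T.fi F) (rg' G F C) η, x ∈ T.o C ∧ x ∈ A ∧ x ∉ C) →
        rch D (T.fi (T.ch A)) (gw D r (T.fi (T.ch A)) (rg' G (T.ch A) C) η) C := by
      rintro η ⟨x, hx, hxo, hxA, hxC⟩
      obtain ⟨z, hz, hadj⟩ := ((T.mem_o cC x).1 hxo).2
      rcases t20_nbr_in T cA (hCs hz) hadj.symm with h3 | h3
      · exact ⟨z, hz, Or.inr ⟨x, t20_in_le T cA hG1 hg0 x hx h3, hxC, hadj⟩⟩
      · refine ⟨z, hz, Or.inl ?_⟩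
        rw [hfi1 z (hCs hz)]
        exact TS.t5b_dg_pos h3 hadj.symm
    refine ⟨?_, b, hbC, ?_⟩
    · rw [t12_gw_rs]
      exact inside ⟨x0, hx0, hx0o, hx0A, hx0C⟩
    · rw [t20_gs_rs]
      have hηH : gs D r 0 (fun z => T.fi F z + dgi D b z) (rg' G F C) ζ ∈ Rc D r (rg' G F C) := by
        rw [← t20_gs_rs]
        exact gs_mem (t20_adm T hF (hCA.trans hAF) hbC) hζH
      have h4 := inside (up hfiC (t20_le hηH) h2).1
      have h6 : gw D r (T.fi (T.ch A)) (rg' G (T.ch A) C) (gs D r 0 (fun z => T.fi F z + dgi D b z) (rg' G F C) ζ) =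
          gw D r (T.fi (T.ch A)) (rg' G (T.ch A) C) (gs D r 0 (fun z => T.fi (T.ch A) z + dgi D b z) (rg' G (T.ch A) C) ζ) := by
        apply gw_congr
        intro y hy
        rw [t20_in_gs T cA (g1 := fun z => T.fi (T.ch A) z + dgi D b z) hG1 hgb hQb hy]
      rw [h6] at h4
      exact h4

/-- TARGET. `tw` implies reached (`rch_off`) -/
theorem TS.tw_r1 (T : TS D r) {F : Finset (Set V)} (hF : T.Fo F) {l : ℕ} {C : Set V} (hC : C ∈ T.de F l) {G : Finset V} {ζ : V → ℕ}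
    (hζ : ζ ∈ Rc D r (gp G F)) (h : T.tw F G (rs (rg' G F C) ζ) C) : T.r1 F G ζ C := by
  have h1 := h.1
  rw [t12_gw_rs] at h1
  exact t20_rch_mono (gw_mono t20_rg_sub (fun y _ => le_rfl)) h1


theorem t20_mem_dl (T : TS D r) {F : Finset (Set V)} {i : ℕ} {B : Set V} : B ∈ T.dl F i ↔ ∃ k < i, B ∈ T.de F k := by
  unfold TS.dl
  simp only [Finset.mem_biUnion, Finset.mem_range]

theorem t20_na_zero (T : TS D r) (F : Finset (Set V)) (ζ : V → ℕ) (C : Set V) : T.na F 0 ζ C = 0 := by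
  unfold TS.na
  rw [Finset.card_eq_zero, Finset.filter_eq_empty_iff]
  intro B hB
  rw [t20_mem_dl] at hB
  obtain ⟨k, hk, -⟩ := hB
  exact absurd hk (Nat.not_lt_zero k)

theorem t20_na_split (T : TS D r) (F : Finset (Set V)) (i : ℕ) (ζ : V → ℕ) (C : Set V) :
    T.na F (i + 1) ζ C ≤ T.na F i ζ C + ((T.de F i).filter (fun B => T.sp B ∧ C ⊂ B ∧ T.fb ζ B)).card := by
  unfold TS.na
  refine le_trans (Finset.card_le_card ?_) (Finset.card_union_le _ _)
  intro B hB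
  rw [Finset.mem_filter, t20_mem_dl] at hB
  obtain ⟨⟨k, hk, hBk⟩, h1⟩ := hB
  rw [Finset.mem_union, Finset.mem_filter, Finset.mem_filter, t20_mem_dl]
  rcases Nat.lt_succ_iff_lt_or_eq.1 hk with h | h
  · exact Or.inl ⟨⟨k, h, hBk⟩, h1⟩
  · subst h
    exact Or.inr ⟨hBk, h1⟩

theorem t20_one (T : TS D r) {F : Finset (Set V)} (hF : T.Fo F) (i : ℕ) (ζ : V → ℕ) {C : Set V} (hC : C.Nonempty) :
    ((T.de F i).filter (fun B => T.sp B ∧ C ⊂ B ∧ T.fb ζ B)).card ≤ 1 := by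
  rw [Finset.card_le_one]
  intro A hA B hB
  rw [Finset.mem_filter] at hA hB
  obtain ⟨z, hz⟩ := hC
  have hzA := hA.2.2.1.1 hz
  have hzB := hB.2.2.1.1 hz
  exact Set.Subset.antisymm (t13_nest T hF hB.1 hA.1 le_rfl hzB hzA).1 (t13_nest T hF hA.1 hB.1 le_rfl hzA hzB).1

theorem t20_pick (T : TS D r) {F : Finset (Set V)} (hF : T.Fo F) (p : ℕ) (ζ : V → ℕ) {C : Set V} (hC : C.Nonempty) :
    ∀ l, p < T.na F l ζ C → ∃ i < l, T.na F i ζ C = p ∧ ∃ A ∈ T.de F i, T.sp A ∧ C ⊂ A ∧ T.fb ζ A := by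
  intro l
  induction l with
  | zero =>
    intro h
    rw [t20_na_zero] at h
    exact absurd h (Nat.not_lt_zero p)
  | succ l ih =>
    intro h
    by_cases h1 : p < T.na F l ζ C
    · obtain ⟨i, hi, h2⟩ := ih h1
      exact ⟨i, Nat.lt_succ_of_lt hi, h2⟩
    · have h2 := t20_na_split T F l ζ C
      have h3 := t20_one T hF l ζ hC
      refine ⟨l, Nat.lt_succ_self l, by omega, ?_⟩
      have h4 : 0 < ((T.de F l).filter (fun B => T.sp B ∧ C ⊂ B ∧ T.fb ζ B)).card := by omega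
      obtain ⟨A, hA⟩ := Finset.card_pos.1 h4
      rw [Finset.mem_filter] at hA
      exact ⟨A, hA.1, hA.2⟩

theorem t20_na_eq (T : TS D r) {F : Finset (Set V)} (hF : T.Fo F) {i : ℕ} {A C : Set V} (hA : A ∈ T.de F i) (hCA : C ⊂ A) (hC : C.Nonempty) (ζ : V → ℕ) :
    T.na F i ζ A = T.na F i ζ C := by
  unfold TS.na
  congr 1
  apply Finset.filter_congr
  intro B hB
  rw [t20_mem_dl] at hB
  obtain ⟨k, hk, hBk⟩ := hB
  constructor
  · rintro ⟨h1, h2, h3⟩
    exact ⟨h1, hCA.trans h2, h3⟩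
  · rintro ⟨h1, h2, h3⟩
    refine ⟨h1, ?_, h3⟩
    obtain ⟨z, hz⟩ := hC
    have h4 := t13_nest T hF hBk hA hk.le (h2.1 hz) (hCA.1 hz)
    exact T.de_ssub (T.t5b_cn hF hBk) (by omega) h4.2

/-- the event that `A` is a unit of depth `p` reached by the second wave -/
def TS.t20_E (T : TS D r) (F : Finset (Set V)) (p : ℕ) (G : Finset V) (j : ℕ) (A : Set V) (ζ : V → ℕ) : Prop :=
  T.sp A ∧ T.fb ζ A ∧ T.r1 F G ζ A ∧ T.na F j ζ A = p ∧ T.r2 F G ζ A

theorem t20_tn_le (T : TS D r) {F : Finset (Set V)} (hF : T.Fo F) (p : ℕ) (G : Finset V) (l : ℕ) {ζ : V → ℕ} (hζ : ζ ∈ Rc D r (gp G F)) :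
    T.tn F G l ζ ≤ T.kf F p G l ζ + ∑ j ∈ range l, ∑ A ∈ T.de F j,
      if T.t20_E F p G j A ζ then T.tn (T.ch A) G (l - j - 1) (rs (gp G (T.ch A)) ζ) else 0 := by
  have hsub : (T.de F l).filter (fun C => T.tw F G (rs (rg' G F C) ζ) C) ⊆
      (T.de F l).filter (fun A => T.r1 F G ζ A ∧ T.na F l ζ A ≤ p) ∪
      (range l).biUnion (fun j => (T.de F j).biUnion (fun A => if T.t20_E F p G j A ζ then
        (T.de (T.ch A) (l - j - 1)).filter (fun C => T.tw (T.ch A) G (rs (rg' G (T.ch A) C) (rs (gp G (T.ch A)) ζ)) C) else ∅)) := by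
    intro C hC
    rw [Finset.mem_filter] at hC
    obtain ⟨hCl, hCt⟩ := hC
    have hr := T.tw_r1 hF hCl hζ hCt
    have cC := T.t5b_cn hF hCl
    by_cases hn : T.na F l ζ C ≤ p
    · exact Finset.mem_union_left _ (Finset.mem_filter.2 ⟨hCl, hr, hn⟩)
    · apply Finset.mem_union_right
      obtain ⟨i, hi, h1, A, hA, hs, hCA, hb⟩ := t20_pick T hF p ζ (T.cn_ne cC) l (not_le.1 hn)
      obtain ⟨z, hz⟩ := T.cn_ne cC
      have h2 := t13_nest T hF hA hCl hi.le (hCA.1 hz) hz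
      have h3 : C ∈ T.de {A} ((l - i - 1) + 1) := by
        have : l - i - 1 + 1 = l - i := by omega
        rw [this]
        exact h2.2
      obtain ⟨h4, h5, h6⟩ := T.shield hF hA h3 hζ hb hCt
      rw [Finset.mem_biUnion]
      refine ⟨i, Finset.mem_range.2 hi, ?_⟩
      rw [Finset.mem_biUnion]
      refine ⟨A, hA, ?_⟩
      have hE : T.t20_E F p G i A ζ := ⟨hs, hb, h4, by rw [t20_na_eq T hF hA hCA (T.cn_ne cC)]; exact h1, h5⟩
      rw [if_pos hE, Finset.mem_filter]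
      refine ⟨by rw [← t13_de_ch]; exact h3, ?_⟩
      rw [t7_rs_rs t20_rg_sub]
      exact h6
  unfold TS.tn TS.kf
  refine le_trans (Finset.card_le_card hsub) (le_trans (Finset.card_union_le _ _) (Nat.add_le_add_left ?_ _))
  refine le_trans Finset.card_biUnion_le (Finset.sum_le_sum fun j _ => ?_)
  refine le_trans Finset.card_biUnion_le (Finset.sum_le_sum fun A _ => ?_)
  split_ifs
  · exact le_rfl
  · rw [Finset.card_empty]

/-- the configurations after the first wave agree off `A` -/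
theorem t20_r2_imp (T : TS D r) {F : Finset (Set V)} (hF : T.Fo F) {j : ℕ} {A : Set V} (hA : A ∈ T.de F j) {G : Finset V}
    {ζ ζ' : V → ℕ} (hζ : ζ ∈ Rc D r (gp G F)) (hζ' : ζ' ∈ Rc D r (gp G F)) (h : ∀ z, z ∉ fs (T.ch A) → ζ z = ζ' z)
    (hb : T.fb ζ A) (h1 : T.r1 F G ζ A) (h2 : T.r2 F G ζ A) : T.r1 F G ζ' A ∧ T.r2 F G ζ' A := by
  have cA := T.t5b_cn hF hA
  have hoff : ∀ z, z ∉ A → ζ z = ζ' z := fun z hz => h z (fun h3 => hz (t13_fs_ch T cA h3))
  have hb' : T.fb ζ' A := fun z hz => by rw [← h z (t13_Q_notMem T cA hz)]; exact hb z hz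
  have hrs : rs ((gp G F).filter (fun z => z ∉ A)) ζ = rs ((gp G F).filter (fun z => z ∉ A)) ζ' := by
    funext z
    unfold rs
    by_cases hz : z ∈ (gp G F).filter (fun z => z ∉ A)
    · rw [if_pos hz, if_pos hz, hoff z (Finset.mem_filter.1 hz).2]
    · rw [if_neg hz, if_neg hz]
  have h1' : T.r1 F G ζ' A := by
    unfold TS.r1 at h1 ⊢
    rw [T.rch_off hF hA hζ, hrs] at h1
    rw [T.rch_off hF hA hζ']
    exact h1
  refine ⟨h1', ?_⟩
  have hadm := T.adm_fi hF (g := T.fi F) (fun _ _ => le_rfl) G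
  have hη := gs_mem hadm hζ
  have hη' := gs_mem hadm hζ'
  have hQ := T.fb_sub hF (g := T.fi F) (fun _ _ => le_rfl) hA hζ h1 hb
  have hQ' := T.fb_sub hF (g := T.fi F) (fun _ _ => le_rfl) hA hζ' h1' hb'
  have hG1 : ∀ z, z ∈ rg' G F A ↔ z ∈ gp G F ∧ z ∉ A := by
    intro z
    rw [t20_mem_rg, TS.mem_gp]
  have hrs2 : rs ((gp G F).filter (fun z => z ∉ A)) (gs D r 0 (T.fi F) (gp G F) ζ) =
      rs ((gp G F).filter (fun z => z ∉ A)) (gs D r 0 (T.fi F) (gp G F) ζ') := by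
    funext z
    unfold rs
    by_cases hz : z ∈ (gp G F).filter (fun z => z ∉ A)
    · rw [if_pos hz, if_pos hz]
      rw [t20_out_gs T cA (g1 := fun z => T.fi F z + dg D z (T.Q A)) hG1 (fun y hy => rfl) hQ hz]
      rw [t20_out_gs T cA (g1 := fun z => T.fi F z + dg D z (T.Q A)) hG1 (fun y hy => rfl) hQ' hz]
      rw [← t20_gs_rs (ζ := ζ), ← t20_gs_rs (ζ := ζ')]
      have : rs (rg' G F A) ζ = rs (rg' G F A) ζ' := hrs
      rw [this]
    · rw [if_neg hz, if_neg hz]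
  unfold TS.r2 TS.r1 at h2 ⊢
  rw [T.rch_off hF hA hη, hrs2] at h2
  rw [T.rch_off hF hA hη']
  exact h2

theorem t20_na_off (T : TS D r) {F : Finset (Set V)} (hF : T.Fo F) {j : ℕ} {A : Set V} (hA : A ∈ T.de F j)
    {ζ ζ' : V → ℕ} (h : ∀ z, z ∉ A → ζ z = ζ' z) : T.na F j ζ A = T.na F j ζ' A := by
  unfold TS.na
  congr 1
  apply Finset.filter_congr
  intro B hB
  rw [t20_mem_dl] at hB
  obtain ⟨k, hk, hBk⟩ := hB
  constructor
  · rintro ⟨h1, h2, h3⟩
    exact ⟨h1, h2, fun z hz => by rw [← h z (T.t5b_Q_notMem hF hA hBk h2 hz)]; exact h3 z hz⟩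
  · rintro ⟨h1, h2, h3⟩
    exact ⟨h1, h2, fun z hz => by rw [h z (T.t5b_Q_notMem hF hA hBk h2 hz)]; exact h3 z hz⟩

theorem t20_E_imp (T : TS D r) {F : Finset (Set V)} (hF : T.Fo F) {p j : ℕ} {A : Set V} (hA : A ∈ T.de F j) {G : Finset V}
    {ζ ζ' : V → ℕ} (hζ : ζ ∈ Rc D r (gp G F)) (hζ' : ζ' ∈ Rc D r (gp G F)) (h : ∀ z, z ∉ fs (T.ch A) → ζ z = ζ' z)
    (hE : T.t20_E F p G j A ζ) : T.t20_E F p G j A ζ' := by
  have cA := T.t5b_cn hF hA
  obtain ⟨hs, hb, h1, hn, h2⟩ := hE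
  have h3 := t20_r2_imp T hF hA hζ hζ' h hb h1 h2
  refine ⟨hs, fun z hz => by rw [← h z (t13_Q_notMem T cA hz)]; exact hb z hz, h3.1, ?_, h3.2⟩
  rw [← t20_na_off T hF hA (fun z hz => h z (fun h3 => hz (t13_fs_ch T cA h3)))]
  exact hn

/-- TARGET. recursion at depth `p`: a cone `C` with `tw` has at most `p` special full pieces strictly above it, or there is one, `A`, with exactly `p` special full pieces strictly above `A`; `shield`; `fb_ex` for the event that `A` is a unit of depth `p` reached by the second wave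
(determined by the configuration outside `ch A`: the first wave contains `Q A`, so off `A` neither it nor the configuration after it depends on the inside; `rch_off`) -/
theorem TS.tn_rec (T : TS D r) {F : Finset (Set V)} (hF : T.Fo F) (p : ℕ) (G : Finset V) (l : ℕ) :
    ex D r (gp G F) (fun ζ => (T.tn F G l ζ : ℝ)) ≤ ex D r (gp G F) (fun ζ => (T.kf F p G l ζ : ℝ)) +
      ∑ j ∈ range l, ∑ A ∈ T.de F j, pr D r (gp G F) (fun ζ => T.sp A ∧ T.fb ζ A ∧ T.r1 F G ζ A ∧ T.na F j ζ A = p ∧ T.r2 F G ζ A) *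
        ex D r (gp G (T.ch A)) (fun ζ => (T.tn (T.ch A) G (l - j - 1) ζ : ℝ)) := by
  have h1 : ex D r (gp G F) (fun ζ => (T.tn F G l ζ : ℝ)) ≤ ex D r (gp G F) (fun ζ => (T.kf F p G l ζ : ℝ) +
      ∑ j ∈ range l, ∑ A ∈ T.de F j, if T.t20_E F p G j A ζ then (T.tn (T.ch A) G (l - j - 1) (rs (gp G (T.ch A)) ζ) : ℝ) else 0) := by
    apply t9_ex_mono
    intro ζ hζ
    have h2 := t20_tn_le T hF p G l hζ
    have h3 : (T.tn F G l ζ : ℝ) ≤ ((T.kf F p G l ζ + ∑ j ∈ range l, ∑ A ∈ T.de F j,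
      if T.t20_E F p G j A ζ then T.tn (T.ch A) G (l - j - 1) (rs (gp G (T.ch A)) ζ) else 0 : ℕ) : ℝ) := by
      exact_mod_cast h2
    refine le_trans h3 (le_of_eq ?_)
    push_cast
    rfl
  refine le_trans h1 (le_of_eq ?_)
  rw [t9_ex_add]
  congr 1
  rw [t9_ex_sum]
  refine Finset.sum_congr rfl fun j _ => ?_
  rw [t9_ex_sum]
  refine Finset.sum_congr rfl fun A hA => ?_
  exact T.fb_ex hF (g := T.fi F) (fun _ _ => le_rfl) hA (T.t20_E F p G j A)
    (fun ζ _ hE => ⟨hE.2.2.1, hE.2.1⟩)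
    (fun ζ hζ ζ' hζ' h => ⟨t20_E_imp T hF hA hζ hζ' h, t20_E_imp T hF hA hζ' hζ (fun z hz => (h z hz).symm)⟩)
    (fun ζ => (T.tn (T.ch A) G (l - j - 1) ζ : ℝ))


theorem t20_rg_map (φ : D ≃g D) (G : Finset V) (F : Finset (Set V)) (C : Set V) :
    rg' (G.image φ) (im φ F) (φ '' C) = (rg' G F C).image φ := by
  ext z
  rw [t12_mem_image, t20_mem_rg, t20_mem_rg, t12_mem_image, t12_mem_img]
  have h : z ∈ fs (im φ F) ↔ φ.symm z ∈ fs F := by
    constructor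
    · rintro ⟨A, hA, hz⟩
      obtain ⟨C, hC, rfl⟩ := t12_mem_im.1 hA
      exact ⟨C, hC, t12_mem_img.1 hz⟩
    · rintro ⟨C, hC, hz⟩
      exact ⟨φ '' C, t12_mem_im.2 ⟨C, hC, rfl⟩, t12_mem_img.2 hz⟩
  rw [h]

theorem t20_rs_map (φ : D ≃g D) (S : Finset V) (ζ : V → ℕ) : rs (S.image φ) (ζ ∘ φ.symm) = (rs S ζ) ∘ φ.symm := by
  funext z
  change (if z ∈ S.image φ then ζ (φ.symm z) else 0) = if φ.symm z ∈ S then ζ (φ.symm z) else 0
  by_cases h : φ.symm z ∈ S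
  · rw [if_pos (t12_mem_image.2 h), if_pos h]
  · rw [if_neg (fun h2 => h (t12_mem_image.1 h2)), if_neg h]

theorem t20_tw_map (T : TS D r) (φ : D ≃g D) {F : Finset (Set V)} (hF : T.Fo F) (G : Finset V) (ξ : V → ℕ) (C : Set V) :
    T.tw (im φ F) (G.image φ) (ξ ∘ φ.symm) (φ '' C) ↔ T.tw F G ξ C := by
  have hg : ∀ b : Finset V, (fun z => T.fi (im φ F) z + dgi D (b.image φ) z) = (fun z => T.fi F z + dgi D b z) ∘ φ.symm := by
    intro b
    funext z
    rw [T.fi_map φ hF]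
    change T.fi F (φ.symm z) + dg D z (b.image φ) = T.fi F (φ.symm z) + dg D (φ.symm z) b
    rw [t12_dg]
  have key : ∀ b : Finset V, rch D (T.fi (im φ F)) (gw D r (T.fi (im φ F)) (rg' (G.image φ) (im φ F) (φ '' C))
      (gs D r 0 (fun z => T.fi (im φ F) z + dgi D (b.image φ) z) (rg' (G.image φ) (im φ F) (φ '' C)) (ξ ∘ φ.symm))) (φ '' C) ↔
      rch D (T.fi F) (gw D r (T.fi F) (rg' G F C) (gs D r 0 (fun z => T.fi F z + dgi D b z) (rg' G F C) ξ)) C := by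
    intro b
    rw [hg b, t20_rg_map, gs_map, T.fi_map φ hF, gw_map, rch_map]
  unfold TS.tw
  constructor
  · rintro ⟨h1, b, hb, h2⟩
    refine ⟨?_, b.image φ.symm, ?_, ?_⟩
    · rw [t20_rg_map, T.fi_map φ hF, gw_map, rch_map] at h1
      exact h1
    · intro z hz
      rw [Finset.mem_image] at hz
      obtain ⟨y, hy, rfl⟩ := hz
      exact t12_mem_img.1 (hb y hy)
    · rw [← key, t12_image_symm]
      exact h2
  · rintro ⟨h1, b, hb, h2⟩
    refine ⟨?_, b.image φ, ?_, ?_⟩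
    · rw [t20_rg_map, T.fi_map φ hF, gw_map, rch_map]
      exact h1
    · intro z hz
      rw [Finset.mem_image] at hz
      obtain ⟨y, hy, rfl⟩ := hz
      exact ⟨y, hb y hy, rfl⟩
    · exact (key b).2 h2

theorem t20_tn_map (T : TS D r) (φ : D ≃g D) {F : Finset (Set V)} (hF : T.Fo F) (G : Finset V) (l : ℕ) (ζ : V → ℕ) :
    T.tn (im φ F) (G.image φ) l (ζ ∘ φ.symm) = T.tn F G l ζ := by
  unfold TS.tn
  rw [T.de_map φ hF]
  unfold im
  rw [Finset.filter_image, Finset.card_image_of_injective _ (t12_img_inj φ)]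
  congr 1
  apply Finset.filter_congr
  intro C _
  have h := t20_tw_map T φ hF G (rs (rg' G F C) ζ) C
  rw [← t20_rs_map, ← t20_rg_map] at h
  exact h

/-- TARGET. naturality, so that an eventual bound for one special cone holds for all cones of its type -/
theorem TS.tn_map (T : TS D r) (φ : D ≃g D) {F : Finset (Set V)} (hF : T.Fo F) (G : Finset V) (l : ℕ) :
    ex D r (gp (G.image φ) (im φ F)) (fun ζ => (T.tn (im φ F) (G.image φ) l ζ : ℝ)) = ex D r (gp G F) (fun ζ => (T.tn F G l ζ : ℝ)) := by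
  rw [gp_map, ex_map]
  simp only [t20_tn_map T φ hF]

theorem t20_ev_map (φ : D ≃g D) {P : Finset V → Prop} (h : ∀ᶠ G in (atTop : Filter (Finset V)), P (G.image φ)) :
    ∀ᶠ G in (atTop : Filter (Finset V)), P G := by
  rw [eventually_atTop] at h ⊢
  obtain ⟨G0, h⟩ := h
  refine ⟨G0.image φ, fun G hG => ?_⟩
  have h1 := h (G.image φ.symm) (by
    intro x hx
    have h2 : φ x ∈ G := hG (Finset.mem_image_of_mem _ hx)
    exact Finset.mem_image.2 ⟨φ x, h2, φ.symm_apply_apply x⟩)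
  rw [t12_image_symm] at h1
  exact h1

theorem t20_unif {ι : Type*} (R : Finset ι) (P : ι → ℝ → ℝ → Prop)
    (hP : ∀ i ∈ R, ∃ ρ K : ℝ, 0 < ρ ∧ ρ < 1 ∧ 0 < K ∧ P i ρ K)
    (hmono : ∀ i ρ K ρ' K', 0 < ρ → ρ ≤ ρ' → 0 < K → K ≤ K' → P i ρ K → P i ρ' K') :
    ∃ ρ K : ℝ, 0 < ρ ∧ ρ < 1 ∧ 0 < K ∧ ∀ i ∈ R, P i ρ K := by
  induction R using Finset.induction_on with
  | empty => exact ⟨1 / 2, 1, by norm_num, by norm_num, by norm_num, fun i hi => absurd hi (Finset.notMem_empty i)⟩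
  | insert a R ha ih =>
    obtain ⟨ρ1, K1, h1, h2, h3, h4⟩ := ih (fun i hi => hP i (Finset.mem_insert_of_mem hi))
    obtain ⟨ρ2, K2, g1, g2, g3, g4⟩ := hP a (Finset.mem_insert_self a R)
    refine ⟨max ρ1 ρ2, max K1 K2, lt_max_of_lt_left h1, max_lt h2 g2, lt_max_of_lt_left h3, ?_⟩
    intro i hi
    rcases Finset.mem_insert.1 hi with rfl | hi
    · exact hmono i ρ2 K2 _ _ g1 (le_max_right _ _) g3 (le_max_right _ _) g4
    · exact hmono i ρ1 K1 _ _ h1 (le_max_left _ _) h3 (le_max_left _ _) (h4 i hi)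


/-- the count `kt` as a sum of probabilities -/
theorem t20_kt_eq (T : TS D r) (F : Finset (Set V)) (p : ℕ) (G : Finset V) (j : ℕ) :
    ex D r (gp G F) (fun ζ => (T.kt F p G j ζ : ℝ)) =
      ∑ A ∈ T.de F j, pr D r (gp G F) (fun ζ => T.sp A ∧ T.fb ζ A ∧ T.r1 F G ζ A ∧ T.na F j ζ A = p ∧ T.r2 F G ζ A) := by
  have h1 : ∀ ζ : V → ℕ, (T.kt F p G j ζ : ℝ) = ∑ A ∈ T.de F j,
      (if (T.sp A ∧ T.fb ζ A ∧ T.r1 F G ζ A ∧ T.na F j ζ A = p ∧ T.r2 F G ζ A) then (1 : ℝ) else 0) := by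
    intro ζ
    unfold TS.kt
    rw [Finset.sum_boole]
  simp only [h1]
  rw [t9_ex_sum]
  refine Finset.sum_congr rfl fun A _ => ?_
  rw [t9_pr_eq]
  refine t9_ex_congr fun ζ _ => ?_
  split_ifs <;> rfl

theorem t20_pr_nonneg {S : Finset V} {P : (V → ℕ) → Prop} : 0 ≤ pr D r S P := t10_pr_nonneg P

theorem t20_pr_zero {S : Finset V} {P : (V → ℕ) → Prop} (h : ∀ ζ, ¬ P ζ) : pr D r S P = 0 := by
  unfold pr
  rw [Finset.filter_false_of_mem (fun ζ _ => h ζ), Finset.card_empty, Nat.cast_zero, zero_div]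

/-- the limits are nonnegative -/
theorem t20_tL_nonneg (T : TS D r) {F : Finset (Set V)} (hF : T.Fo F) (p j : ℕ) : 0 ≤ T.tL F p j := by
  have h := T.tendsto_lm hF (T.ql_kt hF p j)
  exact ge_of_tendsto' h (fun G => t9_ex_nonneg (fun ζ _ => Nat.cast_nonneg _))

/-- one step of the recursion: the sum over the units -/
theorem t20_step (T : TS D r) {F : Finset (Set V)} (hF : T.Fo F) (p : ℕ) (G : Finset V) (l : ℕ) {c : ℕ → ℝ} {a : ℕ → ℝ} {b : ℝ}
    (hc : ∀ j < l, 0 ≤ c j)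
    (h1 : ex D r (gp G F) (fun ζ => (T.kf F p G l ζ : ℝ)) ≤ b)
    (h2 : ∀ j < l, ex D r (gp G F) (fun ζ => (T.kt F p G j ζ : ℝ)) ≤ a j)
    (h3 : ∀ j < l, ∀ A ∈ T.de F j, T.sp A → ex D r (gp G (T.ch A)) (fun ζ => (T.tn (T.ch A) G (l - j - 1) ζ : ℝ)) ≤ c j) :
    ex D r (gp G F) (fun ζ => (T.tn F G l ζ : ℝ)) ≤ b + ∑ j ∈ range l, a j * c j := by
  refine le_trans (T.tn_rec hF p G l) (add_le_add h1 (Finset.sum_le_sum fun j hj => ?_))
  have hj := Finset.mem_range.1 hj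
  refine le_trans ?_ (mul_le_mul_of_nonneg_right (h2 j hj) (hc j hj))
  rw [t20_kt_eq, Finset.sum_mul]
  refine Finset.sum_le_sum fun A hA => ?_
  by_cases hs : T.sp A
  · exact mul_le_mul_of_nonneg_left (h3 j hj A hA hs) t20_pr_nonneg
  · have h0 : pr D r (gp G F) (fun ζ => T.sp A ∧ T.fb ζ A ∧ T.r1 F G ζ A ∧ T.na F j ζ A = p ∧ T.r2 F G ζ A) = 0 := by
      exact t20_pr_zero (fun ζ h => hs h.1)
    rw [h0, zero_mul, zero_mul]

/-- decay for one special cone -/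
theorem t20_core (T : TS D r) {U : Set V} (hU : T.Cn U) (hs : T.sp U) : ∃ ρ K : ℝ, 0 < ρ ∧ ρ < 1 ∧ 0 < K ∧
    ∀ l : ℕ, ∀ᶠ G in (atTop : Filter (Finset V)), ex D r (gp G (T.ch U)) (fun ζ => (T.tn (T.ch U) G l ζ : ℝ)) ≤ K * ρ ^ l := by
  obtain ⟨p, s0, hs0, hsum, hlt⟩ := T.exists_s hU hs
  obtain ⟨ρ0, K0, hρ0, hρ1, hK0, hdec⟩ := T.kL_decay hU hs p
  -- decrease `s`
  obtain ⟨s, hs1, hss, hsρ⟩ : ∃ s : ℝ, 1 < s ∧ s ≤ s0 ∧ s * ρ0 ≤ 1 := by
    refine ⟨min s0 ρ0⁻¹, lt_min hs0 ((one_lt_inv₀ hρ0).2 hρ1), min_le_left _ _, ?_⟩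
    calc min s0 ρ0⁻¹ * ρ0 ≤ ρ0⁻¹ * ρ0 := mul_le_mul_of_nonneg_right (min_le_right _ _) hρ0.le
      _ = 1 := inv_mul_cancel₀ hρ0.ne'
  have hspos : 0 < s := by linarith
  have hfU := T.fo_ch hU
  have htn : ∀ j, 0 ≤ T.tL (T.ch U) p j := fun j => t20_tL_nonneg T hfU p j
  obtain ⟨θ, hθ1, hθ⟩ : ∃ θ : ℝ, θ < 1 ∧ ∀ l, ∑ j ∈ range l, T.tL (T.ch U) p j * s ^ (j + 1) ≤ θ := by
    refine ⟨_, hlt, fun l => ?_⟩
    refine le_trans (Finset.sum_le_sum fun j _ => ?_) (hsum.sum_le_tsum (range l) (fun j _ => ?_))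
    · exact mul_le_mul_of_nonneg_left (pow_le_pow_left₀ hspos.le hss _) (htn j)
    · exact mul_nonneg (htn j) (pow_nonneg (by linarith) _)
  -- constants
  obtain ⟨θ', hθθ', hθ'1⟩ := exists_between hθ1
  have hθ0 : 0 ≤ θ := by
    have := hθ 0
    rw [Finset.sum_range_zero] at this
    exact this
  have h1θ : 0 < 1 - θ' := by linarith
  have hKpos : 0 < (K0 + 1) / (1 - θ') := by positivity
  have hρpos : 0 < s⁻¹ := inv_pos.2 hspos
  refine ⟨s⁻¹, (K0 + 1) / (1 - θ'), hρpos, inv_lt_one_of_one_lt₀ hs1, hKpos, ?_⟩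
  -- the induction
  have main : ∀ l : ℕ, ∀ (i : ℕ) (A : Set V), A ∈ T.de {U} i → T.sp A → ∀ᶠ G in (atTop : Filter (Finset V)),
      ex D r (gp G (T.ch A)) (fun ζ => (T.tn (T.ch A) G l ζ : ℝ)) ≤ (K0 + 1) / (1 - θ') * s⁻¹ ^ l := by
    intro l
    induction l using Nat.strong_induction_on with
    | _ l ih =>
      intro i A hA hsA
      have cA : T.Cn A := T.t5b_cn (T.fo_single hU) hA
      have hfA := T.fo_ch cA
      set M : ℝ := ∑ j ∈ range l, s ^ (j + 1) with hM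
      have hM0 : 0 ≤ M := Finset.sum_nonneg fun j _ => pow_nonneg hspos.le _
      set ε : ℝ := (θ' - θ) / (M + 1) with hε
      have hε0 : 0 < ε := div_pos (by linarith) (by linarith)
      have hεM : ε * M ≤ θ' - θ := by
        rw [hε, div_mul_eq_mul_div, div_le_iff₀ (by linarith)]
        nlinarith
      -- the free part
      have e1 : ∀ᶠ G in (atTop : Filter (Finset V)), ex D r (gp G (T.ch A)) (fun ζ => (T.kf (T.ch A) p G l ζ : ℝ)) ≤ (K0 + 1) * ρ0 ^ l := by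
        have h1 := T.tendsto_lm hfA (T.ql_ku hfA p l).2
        refine h1.eventually_le_const ?_
        have h2 : T.lm (T.ch A) (fun G ζ => (T.kf (T.ch A) p G l ζ : ℝ)) = T.fL (T.ch U) p l := (T.kL_sp hU hs hA hsA p l).2.2
        rw [h2]
        have h3 := (hdec l).2
        have h4 : 0 < ρ0 ^ l := pow_pos hρ0 l
        linarith
      -- the units
      have e2 : ∀ᶠ G in (atTop : Filter (Finset V)), ∀ j ∈ range l, ex D r (gp G (T.ch A)) (fun ζ => (T.kt (T.ch A) p G j ζ : ℝ)) ≤ T.tL (T.ch U) p j + ε := by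
        rw [Filter.eventually_all_finset]
        intro j _
        have h1 := T.tendsto_lm hfA (T.ql_kt hfA p j)
        refine h1.eventually_le_const ?_
        have h2 : T.lm (T.ch A) (fun G ζ => (T.kt (T.ch A) p G j ζ : ℝ)) = T.tL (T.ch U) p j := (T.kL_sp hU hs hA hsA p j).2.1
        rw [h2]
        linarith
      -- the descendants
      have e3 : ∀ᶠ G in (atTop : Filter (Finset V)), ∀ j ∈ range l, ∀ B ∈ T.de (T.ch A) j, T.sp B →
          ex D r (gp G (T.ch B)) (fun ζ => (T.tn (T.ch B) G (l - j - 1) ζ : ℝ)) ≤ (K0 + 1) / (1 - θ') * s⁻¹ ^ (l - j - 1) := by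
        rw [Filter.eventually_all_finset]
        intro j hj
        rw [Filter.eventually_all_finset]
        intro B hB
        by_cases hsB : T.sp B
        · have hj := Finset.mem_range.1 hj
          have hB' : B ∈ T.de {A} (j + 1) := by rw [t13_de_ch]; exact hB
          have h1 := ih (l - j - 1) (by omega) (i + (j + 1)) B (T.de_trans hA hB') hsB
          exact h1.mono fun G hG _ => hG
        · exact Filter.Eventually.of_forall fun G h => absurd h hsB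
      filter_upwards [e1, e2, e3] with G g1 g2 g3
      refine le_trans (t20_step T hfA p G l (c := fun j => (K0 + 1) / (1 - θ') * s⁻¹ ^ (l - j - 1)) (a := fun j => T.tL (T.ch U) p j + ε)
        (fun j _ => mul_nonneg hKpos.le (pow_nonneg hρpos.le _)) g1 (fun j hj => g2 j (Finset.mem_range.2 hj))
        (fun j hj B hB hsB => g3 j (Finset.mem_range.2 hj) B hB hsB)) ?_
      -- the sum
      have h5 : ∑ j ∈ range l, (T.tL (T.ch U) p j + ε) * ((K0 + 1) / (1 - θ') * s⁻¹ ^ (l - j - 1)) =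
          (K0 + 1) / (1 - θ') * s⁻¹ ^ l * (∑ j ∈ range l, T.tL (T.ch U) p j * s ^ (j + 1) + ε * M) := by
        rw [hM, Finset.mul_sum (range l) _ ε, ← Finset.sum_add_distrib, Finset.mul_sum]
        refine Finset.sum_congr rfl fun j hj => ?_
        have hj := Finset.mem_range.1 hj
        have h6 : s⁻¹ ^ (l - j - 1) = s⁻¹ ^ l * s ^ (j + 1) := by
          have h7 : l = (l - j - 1) + (j + 1) := by omega
          conv_rhs => rw [h7, pow_add]
          rw [mul_assoc, ← mul_pow, inv_mul_cancel₀ hspos.ne', one_pow, mul_one]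
        rw [h6]
        ring
      rw [h5]
      have h8 : ∑ j ∈ range l, T.tL (T.ch U) p j * s ^ (j + 1) + ε * M ≤ θ' := by
        have := hθ l
        linarith
      have h9 : ρ0 ^ l ≤ s⁻¹ ^ l := by
        apply pow_le_pow_left₀ hρ0.le
        rw [← one_div, le_div_iff₀ hspos]
        linarith
      have h10 : 0 < s⁻¹ ^ l := pow_pos hρpos l
      calc (K0 + 1) * ρ0 ^ l + (K0 + 1) / (1 - θ') * s⁻¹ ^ l * (∑ j ∈ range l, T.tL (T.ch U) p j * s ^ (j + 1) + ε * M)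
          ≤ (K0 + 1) * s⁻¹ ^ l + (K0 + 1) / (1 - θ') * s⁻¹ ^ l * θ' := by
            apply add_le_add
            · exact mul_le_mul_of_nonneg_left h9 (by linarith)
            · exact mul_le_mul_of_nonneg_left h8 (mul_nonneg hKpos.le h10.le)
        _ = (K0 + 1) / (1 - θ') * s⁻¹ ^ l := by
            field_simp
            ring
  intro l
  exact main l 0 U (by rw [T.de_zero]; exact Finset.mem_singleton_self U) hs

/-- TARGET. DECAY for special cones. Fix a special `U`; `p, s` from `exists_s`, `θ = Σ_j tL p j s^(j+1) < 1`, `fL p l ≤ K ρ^l`; decrease `s` so that also `s ρ < 1` (the sum `θ` decreases). Let `K' (1 - θ') ≥ K + 1` for some `θ < θ' < 1`. By strong induction on `l`: for every special descendant `A` of `U` (or `U` itself), eventually in `G`,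
`E tn (ch A) G l ≤ K' s^(-l)`: in `tn_rec` the first term is eventually `≤ (K + slack) ρ^l`, the sum over `A ∈ de j` of the probabilities is `E kt p G j`, eventually `≤ tL p j + slack`, and `tn (ch A)` is bounded by induction; `Σ_j tL p j K' s^(-(l-j-1)) = K' s^(-l) Σ_j tL p j s^(j+1)`.
By the finiteness of types (`types`, `tn_map`) the constants can be chosen uniformly. -/
theorem TS.exists_tn (T : TS D r) : ∃ ρ K : ℝ, 0 < ρ ∧ ρ < 1 ∧ 0 < K ∧ ∀ U, T.Cn U → T.sp U → ∀ l : ℕ, ∀ᶠ G in (atTop : Filter (Finset V)),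
    ex D r (gp G (T.ch U)) (fun ζ => (T.tn (T.ch U) G l ζ : ℝ)) ≤ K * ρ ^ l := by
  obtain ⟨R, hR, hty⟩ := T.types
  obtain ⟨ρ, K, h1, h2, h3, h4⟩ := t20_unif (R.filter (fun C => T.sp C))
    (fun C ρ K => ∀ l : ℕ, ∀ᶠ G in (atTop : Filter (Finset V)), ex D r (gp G (T.ch C)) (fun ζ => (T.tn (T.ch C) G l ζ : ℝ)) ≤ K * ρ ^ l)
    (fun C hC => t20_core T (hR C (Finset.mem_filter.1 hC).1) (Finset.mem_filter.1 hC).2)
    (fun C ρ K ρ' K' hρ hρρ' hK hKK' h l => (h l).mono fun G hG =>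
      le_trans hG (mul_le_mul hKK' (pow_le_pow_left₀ hρ.le hρρ' l) (pow_nonneg hρ.le l) (le_trans hK.le hKK')))
  refine ⟨ρ, K, h1, h2, h3, ?_⟩
  intro U hU hs l
  obtain ⟨C, hC, φ, rfl⟩ := hty U hU
  have cC := hR C hC
  have hsC : T.sp C := (T.sp_map φ cC).1 hs
  apply t20_ev_map φ
  refine (h4 C (Finset.mem_filter.2 ⟨hC, hsC⟩) l).mono fun G hG => ?_
  rw [T.ch_map φ cC, T.tn_map φ (T.fo_ch cC)]
  exact hG

/-- convolution of geometric sequences -/
theorem t20_conv {σ τ : ℝ} (hσ : 0 < σ) (hστ : σ < τ) {ρ1 ρ2 : ℝ} (h1 : 0 < ρ1) (h2 : 0 < ρ2) (h1σ : ρ1 ≤ σ) (h2σ : ρ2 ≤ σ) (l : ℕ) :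
    ∑ j ∈ range l, ρ1 ^ j * ρ2 ^ (l - j - 1) ≤ τ ^ l / (τ - σ) := by
  have h3 : 0 < τ - σ := by linarith
  have h4 : ∑ j ∈ range l, ρ1 ^ j * ρ2 ^ (l - j - 1) ≤ ∑ j ∈ range l, σ ^ j * τ ^ (l - 1 - j) := by
    refine Finset.sum_le_sum fun j _ => ?_
    have h5 : l - j - 1 = l - 1 - j := by omega
    rw [h5]
    exact mul_le_mul (pow_le_pow_left₀ h1.le h1σ j) (pow_le_pow_left₀ h2.le (by linarith) _) (pow_nonneg h2.le _) (pow_nonneg hσ.le _)
  refine le_trans h4 ?_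
  rw [le_div_iff₀ h3]
  have h6 := geom_sum₂_mul σ τ l
  have h7 : 0 ≤ σ ^ l := pow_nonneg hσ.le l
  nlinarith

/-- TARGET. DECAY for all cones: `tn_rec` with `p = 0`... for a general cone `C`: a cone with `tw` is free or below a first unit `A`, and then `tw` relative to `ch A`: `E tn {C} G l ≤ E fn sp + Σ_j Σ_A P(fu A) E tn (ch A) G (l-j-1)` and both `wL {C}`, `aL {C}` decay exponentially -/
theorem TS.exists_tn' (T : TS D r) : ∃ ρ K : ℝ, 0 < ρ ∧ ρ < 1 ∧ 0 < K ∧ ∀ C, T.Cn C → ∀ l : ℕ, ∀ᶠ G in (atTop : Filter (Finset V)),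
    ex D r (gp G {C}) (fun ζ => (T.tn {C} G l ζ : ℝ)) ≤ K * ρ ^ l := by
  obtain ⟨ρ1, K1, h11, h12, h13, h14⟩ := T.exists_decay'
  obtain ⟨ρ2, K2, h21, h22, h23, h24⟩ := T.exists_tn
  obtain ⟨τ, hτ1, hτ2⟩ := exists_between (max_lt h12 h22)
  set σ : ℝ := max ρ1 ρ2 with hσ
  have hσ0 : 0 < σ := lt_max_of_lt_left h11
  have hd : 0 < τ - σ := by linarith
  have hτ0 : 0 < τ := by linarith
  refine ⟨τ, K1 + K1 * K2 / (τ - σ), hτ0, hτ2, by positivity, ?_⟩
  intro C hC l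
  have hF := T.fo_single hC
  have hCC : C ∈ T.de {C} 0 := by rw [T.de_zero]; exact Finset.mem_singleton_self C
  have e1 := h14 C hC l
  have e3 : ∀ᶠ G in (atTop : Filter (Finset V)), ∀ j ∈ range l, ∀ B ∈ T.de {C} j, T.sp B →
      ex D r (gp G (T.ch B)) (fun ζ => (T.tn (T.ch B) G (l - j - 1) ζ : ℝ)) ≤ K2 * ρ2 ^ (l - j - 1) := by
    rw [Filter.eventually_all_finset]
    intro j _
    rw [Filter.eventually_all_finset]
    intro B hB
    by_cases hsB : T.sp B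
    · exact (h24 B (T.t5b_cn hF hB) hsB (l - j - 1)).mono fun G hG _ => hG
    · exact Filter.Eventually.of_forall fun G h => absurd h hsB
  filter_upwards [e1, e3] with G g1 g3
  have gfn : ∀ j ≤ l, ex D r (gp G {C}) (fun ζ => (T.fn T.sp {C} (T.fi {C}) G j ζ : ℝ)) ≤ K1 * ρ1 ^ j :=
    fun j hj => g1 0 j (by omega) C hCC
  refine le_trans (t20_step T hF 0 G l (b := K1 * ρ1 ^ l) (c := fun j => K2 * ρ2 ^ (l - j - 1)) (a := fun j => K1 * ρ1 ^ j)
    (fun j _ => by positivity) ?_ ?_ (fun j hj B hB hsB => g3 j (Finset.mem_range.2 hj) B hB hsB)) ?_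
  · refine le_trans (t9_ex_mono fun ζ _ => ?_) (gfn l le_rfl)
    rw [T.kf_zero hF]
  · intro j hj
    refine le_trans (t9_ex_mono fun ζ _ => ?_) (gfn j hj.le)
    have h5 : T.kt {C} 0 G j ζ ≤ T.ku {C} 0 G j ζ := by
      unfold TS.kt TS.ku
      apply Finset.card_le_card
      intro A hA
      rw [Finset.mem_filter] at hA ⊢
      exact ⟨hA.1, hA.2.1, hA.2.2.1, hA.2.2.2.1, hA.2.2.2.2.1⟩
    rw [T.ku_zero hF] at h5
    have h6 : T.fc {C} (T.fi {C}) G j ζ ≤ T.fn T.sp {C} (T.fi {C}) G j ζ := by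
      unfold TS.fc TS.fn
      apply Finset.card_le_card
      intro A hA
      rw [Finset.mem_filter] at hA ⊢
      exact ⟨hA.1, hA.2.2.2⟩
    exact_mod_cast h5.trans h6
  · have h7 : ∑ j ∈ range l, K1 * ρ1 ^ j * (K2 * ρ2 ^ (l - j - 1)) = K1 * K2 * ∑ j ∈ range l, ρ1 ^ j * ρ2 ^ (l - j - 1) := by
      rw [Finset.mul_sum]
      refine Finset.sum_congr rfl fun j _ => ?_
      ring
    rw [h7]
    have h8 := t20_conv hσ0 hτ1 h11 h21 (le_max_left _ _) (le_max_right _ _) l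
    have h9 : K1 * ρ1 ^ l ≤ K1 * τ ^ l :=
      mul_le_mul_of_nonneg_left (pow_le_pow_left₀ h11.le (le_trans (le_max_left _ _) hτ1.le) l) h13.le
    have h10 := mul_le_mul_of_nonneg_left h8 (mul_nonneg h13.le h23.le)
    have h11' : K1 * K2 * (τ ^ l / (τ - σ)) = K1 * K2 / (τ - σ) * τ ^ l := by ring
    rw [h11'] at h10
    linarith

/-- TARGET. in terms of the measures off the cones (`two_marg`) -/
theorem TS.exists_two (T : TS D r) : ∃ ρ K : ℝ, 0 < ρ ∧ ρ < 1 ∧ 0 < K ∧ ∀ C, T.Cn C → ∀ l : ℕ, ∀ᶠ G in (atTop : Filter (Finset V)),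
    ∑ A ∈ T.de {C} l, pr D r (rg' G {C} A) (fun ξ => T.tw {C} G ξ A) ≤ K * ρ ^ l := by
  obtain ⟨ρ, K, h1, h2, h3, h4⟩ := T.exists_tn'
  have hc : 0 < T.c0⁻¹ := inv_pos.2 T.c0_pos
  refine ⟨ρ, T.c0⁻¹ * K, h1, h2, mul_pos hc h3, ?_⟩
  intro C hC l
  have hF := T.fo_single hC
  refine (h4 C hC l).mono fun G hG => ?_
  have h5 : ∑ A ∈ T.de {C} l, pr D r (rg' G {C} A) (fun ξ => T.tw {C} G ξ A) ≤
      ∑ A ∈ T.de {C} l, T.c0⁻¹ * ex D r (gp G {C}) (fun ζ => if T.tw {C} G (rs (rg' G {C} A) ζ) A then (1 : ℝ) else 0) := by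
    refine Finset.sum_le_sum fun A hA => ?_
    rw [t9_pr_eq]
    exact T.two_marg hF hA G (fun ξ => if T.tw {C} G ξ A then (1 : ℝ) else 0) (fun ξ => by split_ifs <;> norm_num)
  refine le_trans h5 ?_
  rw [← Finset.mul_sum, ← t9_ex_sum, mul_assoc]
  refine mul_le_mul_of_nonneg_left (le_trans (le_of_eq ?_) hG) hc.le
  congr 1
  funext ζ
  unfold TS.tn
  rw [Finset.sum_boole]


end Pool.Agent.Helper910.QT
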