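import Mathlib
import Pool.Agent.Helper910.T9
import Pool.Agent.Helper910.T3


/-! Many waves are superexponentially unlikely to return (MP_4555f0_mp) -/

namespace Pool.Agent.Helper910.QT

open Classical Finset Filter Topology

variable {V : Type*} {D : SimpleGraph V} [D.LocallyFinite] {r : ℕ}

/-- the part of `gp G {C}` in the first `j` generations -/
noncomputable def TS.lam (T : TS D r) (C : Set V) (G : Finset V) (j : ℕ) : Finset V := (gp G {C}).filter (fun z => z ∈ T.up {C} j)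

/-- TARGET. for `y ∈ C` adjacent to `o C`, the Green function of `lam` with pole `y` is at most `uc` (`r uc z - nsum uc z = 0` on `gp G {C}` with the value `1` on `o C`: as a function equal to `uc` on `lam` and `0` elsewhere it is superharmonic with excess `≥ dg y (o C) ≥ 1` at `y`; `comp`) -/
theorem TS.gr_le_uc (T : TS D r) {C : Set V} (hC : T.Cn C) (G : Finset V) (j : ℕ) {x y : V} (hy : y ∈ C) (hx : x ∈ T.o C) (hxy : D.Adj x y) (z : V) :
    gr D r (T.lam C G j) y z ≤ T.uc C G z := by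
  set S := T.lam C G j with hS
  obtain ⟨g0, gs, gl, gr', gd⟩ := gr_spec T.gd S
  obtain ⟨u1, u2, u3, u4, u5⟩ := T.uc_spec hC G
  by_cases hyS : y ∈ S
  swap
  · rw [gl y z hyS]
    exact u4 z
  rw [gs y z]
  have hsub : ∀ z ∈ S, z ∈ gp G {C} := fun z hz => (Finset.mem_filter.1 hz).1
  have hxC : x ∉ C := T.o_notMem hC hx
  have hxS : x ∉ S := fun h => hxC (t6_mem_gp.1 (hsub x h)).2
  have key : ∀ w ∈ S, (r : ℝ) * (gr D r S w y - (if w ∈ S then T.uc C G w else 0)) ≤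
      nsum D (fun v => gr D r S v y - (if v ∈ S then T.uc C G v else 0)) w := by
    intro w hw
    have e1 := gd y hyS w hw
    have e2 := u1 w (hsub w hw)
    have e3 := t4_nsum_sub (D := D) (fun v => gr D r S v y) (fun v => if v ∈ S then T.uc C G v else 0) w
    have e4 := t4_nsum_split (D := D) (T.uc C G) S w
    have e5 : nsum D (fun v => if v ∈ S then T.uc C G v else 0) w = ∑ v ∈ S, if D.Adj w v then T.uc C G v else 0 := by
      rw [t4_nsum_supp (S := S) (fun v hv => if_neg hv)]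
      refine Finset.sum_congr rfl fun v hv => ?_
      rw [if_pos hv]
    have e6 : (if w = y then (1 : ℝ) else 0) ≤ ∑ v ∈ (D.neighborFinset w).filter (fun v => v ∉ S), T.uc C G v := by
      split_ifs with hwy
      · have hmem : x ∈ (D.neighborFinset w).filter (fun v => v ∉ S) := by
          rw [Finset.mem_filter, SimpleGraph.mem_neighborFinset, hwy]
          exact ⟨hxy.symm, hxS⟩
        calc (1 : ℝ) = T.uc C G x := (u2 x hx).symm
          _ ≤ _ := Finset.single_le_sum (fun v _ => u4 v) hmem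
      · exact Finset.sum_nonneg fun v _ => u4 v
    rw [if_pos hw, e3, e5]
    rw [e4] at e2
    linarith
  have h1 := T.gd.maxP key (fun w hw => by
    rw [gl w y hw, if_neg hw, sub_zero]) z
  have h2 : (if z ∈ S then T.uc C G z else 0) ≤ T.uc C G z := by
    split_ifs
    · exact le_rfl
    · exact u4 z
  linarith

theorem t21_biU {ι : Type*} (A : Finset ι) (Q : ι → Finset V) {f : V → ℝ} (h0 : ∀ z, 0 ≤ f z) :
    ∑ z ∈ A.biUnion Q, f z ≤ ∑ i ∈ A, ∑ z ∈ Q i, f z := by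
  induction A using Finset.induction_on with
  | empty => simp
  | insert a s ha ih =>
    rw [Finset.biUnion_insert, Finset.sum_insert ha]
    have h1 := Finset.sum_union_inter (s₁ := Q a) (s₂ := s.biUnion Q) (f := f)
    have h2 : 0 ≤ ∑ z ∈ Q a ∩ s.biUnion Q, f z := Finset.sum_nonneg fun z _ => h0 z
    linarith

/-- TARGET. the sum over `z`: at most `c (j + 1)` (`exists_C1q`) -/
theorem TS.exists_C3 (T : TS D r) : ∃ c : ℝ, 0 < c ∧ ∀ C, T.Cn C → ∀ (G : Finset V) (j : ℕ) (x y : V), y ∈ C → x ∈ T.o C → D.Adj x y →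
    ∑ z ∈ T.lam C G j, gr D r (T.lam C G j) y z ≤ c * (j + 1) := by
  obtain ⟨c, hc, h⟩ := T.exists_C1q
  refine ⟨c, hc, fun C hC G j x y hy hx hxy => ?_⟩
  have u4 := (T.uc_spec hC G).2.2.2.1
  calc ∑ z ∈ T.lam C G j, gr D r (T.lam C G j) y z ≤ ∑ z ∈ T.lam C G j, T.uc C G z :=
        Finset.sum_le_sum fun z _ => T.gr_le_uc hC G j hy hx hxy z
    _ ≤ ∑ z ∈ T.up {C} j, T.uc C G z :=
        Finset.sum_le_sum_of_subset_of_nonneg (fun z hz => (Finset.mem_filter.1 hz).2) (fun z _ _ => u4 z)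
    _ ≤ ∑ k ∈ range j, ∑ z ∈ (T.de {C} k).biUnion T.Q, T.uc C G z := t21_biU _ _ u4
    _ ≤ ∑ k ∈ range j, c := Finset.sum_le_sum fun k _ => (t21_biU _ _ u4).trans (h C hC G k)
    _ = c * j := by rw [Finset.sum_const, Finset.card_range, nsmul_eq_mul, mul_comm]
    _ ≤ c * (j + 1) := by nlinarith

theorem t21_mem_lam (T : TS D r) {C : Set V} {G : Finset V} {j : ℕ} {z : V} :
    z ∈ T.lam C G j ↔ (z ∈ G ∧ z ∈ C) ∧ z ∈ T.up {C} j := by
  unfold TS.lam
  rw [Finset.mem_filter, t6_mem_gp]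

/-- the weight of the bad vertices -/
theorem t21_wBad (T : TS D r) {C : Set V} (hC : T.Cn C) (G : Finset V) (j : ℕ) {x0 y : V} (hy : y ∈ C) (hx0 : x0 ∈ T.o C) (hxy : D.Adj x0 y)
    (Bad : Finset V) (hB : Bad ⊆ (T.de {C} j).biUnion T.Q) :
    ∑ z ∈ T.lam C G j, gr D r (T.lam C G j) y z * ∑ x ∈ (D.neighborFinset z).filter (fun x => x ∉ T.lam C G j), (if x ∈ Bad then (1 : ℝ) else 0) ≤
      (Bad.card : ℝ) * (r * T.rho ^ j) := by
  set S := T.lam C G j with hS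
  obtain ⟨g0, gs, gl, gr', gd⟩ := gr_spec T.gd S
  have h1 : ∀ z ∈ S, gr D r S y z * ∑ x ∈ (D.neighborFinset z).filter (fun x => x ∉ S), (if x ∈ Bad then (1 : ℝ) else 0) ≤
      ∑ x ∈ Bad, if D.Adj z x then gr D r S y z else 0 := by
    intro z _
    have h2 : ∑ x ∈ (D.neighborFinset z).filter (fun x => x ∉ S), (if x ∈ Bad then (1 : ℝ) else 0) ≤
        ∑ x ∈ Bad, if D.Adj z x then (1 : ℝ) else 0 := by
      rw [← Finset.sum_filter, ← Finset.sum_filter]
      refine Finset.sum_le_sum_of_subset_of_nonneg (fun x hx => ?_) (fun _ _ _ => zero_le_one)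
      rw [Finset.mem_filter, Finset.mem_filter, SimpleGraph.mem_neighborFinset] at hx
      exact Finset.mem_filter.2 ⟨hx.2, hx.1.1⟩
    refine (mul_le_mul_of_nonneg_left h2 (g0 y z)).trans (le_of_eq ?_)
    rw [Finset.mul_sum]
    refine Finset.sum_congr rfl fun x _ => ?_
    split_ifs
    · rw [mul_one]
    · rw [mul_zero]
  refine (Finset.sum_le_sum h1).trans ?_
  rw [Finset.sum_comm]
  have h3 : ∀ x ∈ Bad, (∑ z ∈ S, if D.Adj z x then gr D r S y z else 0) ≤ r * T.rho ^ j := by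
    intro x hx
    obtain ⟨A, hA, hxA⟩ := Finset.mem_biUnion.1 (hB hx)
    have hcn := t9_cn T hC hA
    rw [← Finset.sum_filter]
    have h4 : ∀ z ∈ S.filter (fun z => D.Adj z x), gr D r S y z ≤ T.rho ^ j := by
      intro z hz
      obtain ⟨hzS, hzx⟩ := Finset.mem_filter.1 hz
      have hzup := ((t21_mem_lam T).1 hzS).2
      have hzA : z ∉ A := fun h => T.up_disj (T.fo_single hC) hzup ⟨A, hA, h⟩
      have hzo : z ∈ T.o A := T.t5b_mem_o hcn hzA (T.Q_sub hcn hxA) hzx.symm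
      exact (T.gr_le_uc hC G j hy hx0 hxy z).trans (T.uc_decay hC G hA (Or.inr hzo))
    refine (Finset.sum_le_card_nsmul _ _ _ h4).trans ?_
    rw [nsmul_eq_mul]
    refine mul_le_mul_of_nonneg_right ?_ (pow_nonneg T.rho_pos.le _)
    have h5 : (S.filter (fun z => D.Adj z x)).card ≤ (D.neighborFinset x).card := Finset.card_le_card fun z hz => by
      rw [SimpleGraph.mem_neighborFinset]
      exact (Finset.mem_filter.1 hz).2.symm
    have h6 : (D.neighborFinset x).card = r := T.gd.reg x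
    rw [h6] at h5
    exact_mod_cast h5
  refine (Finset.sum_le_card_nsmul _ _ _ h3).trans (le_of_eq ?_)
  rw [nsmul_eq_mul]

/-- TARGET. a purely analytic lemma. Let `f : V → ℝ` satisfy `0 ≤ f`, `f = 0` on `o C`, `f ≥ t` at the vertices of `C \ G`, `|r f - nsum f| ≤ r - 1` on `gp G {C}`, and `f y ≤ a` for some `y ∈ Q C ∩ G` adjacent to `o C`.
`green_rep` on `S = lam C G j`: `a ≥ f y ≥ -(r-1) c3 (j+1) + Σ_{z ∈ S} γ(y,z) Σ_{x ~ z, x ∉ S, x ∉ o C} f x`. The total weight `Σ_z γ(y,z) #{x ~ z, x ∉ S}` is `1` (`green_rep` for the constant `1`), the weight on `o C` is at most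
`uc C G y ≤ ρ`. So the weight of the set `Bad` of the `x ∈ C` of generation exactly `j` (i.e. `x ∈ fs (de {C} j)`, adjacent to `S`) with `f x < t/2` is at least `1 - ρ - 2 (a + (r-1) c3 (j+1))/t`; each such `x` has weight at most `r ρ^j` (`gr_le_uc`, `uc_decay`; its neighbours in `S`
are in `o A`, `x ∈ A ∈ de {C} j`). Here `1 ≤ j`. The conclusion: at least the stated number of vertices `x ∈ Q A`, `A ∈ de {C} j` with `f x < t/2`. -/
theorem TS.exists_bad (T : TS D r) : ∃ c3 : ℝ, 0 < c3 ∧ ∀ C, T.Cn C → ∀ (G : Finset V) (j : ℕ), 1 ≤ j → ∀ (t a : ℝ) (f : V → ℝ), 0 < t → (∀ z, 0 ≤ f z) → (∀ z ∈ T.o C, f z = 0) →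
    (∀ z ∈ C, z ∉ G → t ≤ f z) → (∀ z ∈ gp G {C}, |(r : ℝ) * f z - nsum D f z| ≤ r - 1) → ∀ y ∈ T.Q C, y ∈ G → (∃ x ∈ T.o C, D.Adj x y) → f y ≤ a →
    (1 - T.rho - 2 * (a + r * c3 * (j + 1)) / t) / (r * T.rho ^ j) ≤
      ((((T.de {C} j).biUnion T.Q).filter (fun x => x ∈ G ∧ f x < t / 2)).card : ℝ) := by
  obtain ⟨c3, hc3, h3⟩ := T.exists_C3
  refine ⟨c3, hc3, fun C hC G j hj t a f ht hf0 hfo hft hfh y hyQ hyG hyx hya => ?_⟩
  obtain ⟨x0, hx0, hxy⟩ := hyx
  have hyC : y ∈ C := T.Q_sub hC hyQ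
  have hsum := h3 C hC G j x0 y hyC hx0 hxy
  have hwB := t21_wBad T hC G j hyC hx0 hxy (((T.de {C} j).biUnion T.Q).filter (fun x => x ∈ G ∧ f x < t / 2)) (Finset.filter_subset _ _)
  set S := T.lam C G j with hS
  set Bad := ((T.de {C} j).biUnion T.Q).filter (fun x => x ∈ G ∧ f x < t / 2) with hBad
  obtain ⟨g0, gs, gl, gr', gd⟩ := gr_spec T.gd S
  obtain ⟨u1, u2, u3, u4, u5⟩ := T.uc_spec hC G
  have hr : (1 : ℝ) ≤ r := by exact_mod_cast T.gd.one_le
  have hsub : ∀ z ∈ S, z ∈ gp G {C} := fun z hz => (Finset.mem_filter.1 hz).1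
  have hyS : y ∈ S := by
    rw [hS, t21_mem_lam]
    exact ⟨⟨hyG, hyC⟩, T.t5c_mem_up.2 ⟨0, hj, C, by rw [T.de_zero]; exact Finset.mem_singleton_self _, hyQ⟩⟩
  have W1 : ∑ z ∈ S, gr D r S y z * ∑ x ∈ (D.neighborFinset z).filter (fun x => x ∉ S), (1 : ℝ) = 1 := by
    have h := green_rep T.gd (fun _ => (1 : ℝ)) hyS
    have h0 : ∑ z ∈ S, gr D r S y z * ((r : ℝ) * 1 - nsum D (fun _ => (1 : ℝ)) z) = 0 := Finset.sum_eq_zero fun z _ => by
      rw [t4_nsum_const T.gd]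
      ring
    rw [h0, zero_add] at h
    exact h.symm
  have Wo : ∑ z ∈ S, gr D r S y z * ∑ x ∈ (D.neighborFinset z).filter (fun x => x ∉ S), (if x ∈ T.o C then (1 : ℝ) else 0) ≤ T.rho := by
    have h := green_rep T.gd (T.uc C G) hyS
    have h0 : ∑ z ∈ S, gr D r S y z * ((r : ℝ) * T.uc C G z - nsum D (T.uc C G) z) = 0 := Finset.sum_eq_zero fun z hz => by
      rw [u1 z (hsub z hz), sub_self, mul_zero]
    rw [h0, zero_add] at h
    have h1 := T.uc_Q hC G hyQ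
    rw [h] at h1
    refine le_trans (Finset.sum_le_sum fun z _ => mul_le_mul_of_nonneg_left (Finset.sum_le_sum fun x _ => ?_) (g0 y z)) h1
    split_ifs with hx
    · exact (u2 x hx).symm.le
    · exact u4 x
  have hlow : ∀ z ∈ S, ∀ x ∈ (D.neighborFinset z).filter (fun x => x ∉ S),
      t / 2 * (1 - (if x ∈ T.o C then (1 : ℝ) else 0) - (if x ∈ Bad then (1 : ℝ) else 0)) ≤ f x := by
    intro z hz x hx
    obtain ⟨hzx, hxS⟩ := Finset.mem_filter.1 hx
    rw [SimpleGraph.mem_neighborFinset] at hzx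
    have hzC : z ∈ C := ((t21_mem_lam T).1 hz).1.2
    have hzup := ((t21_mem_lam T).1 hz).2
    have hfx := hf0 x
    by_cases h1 : x ∈ T.o C
    · rw [if_pos h1]
      split_ifs
      · linarith
      · linarith
    · rw [if_neg h1]
      by_cases h2 : x ∈ Bad
      · rw [if_pos h2]
        linarith
      · rw [if_neg h2]
        have hxC : x ∈ C := by
          by_contra h4
          exact h1 ((T.mem_o hC x).2 ⟨h4, z, hzC, hzx.symm⟩)
        by_cases h5 : x ∈ G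
        · have hxup : x ∉ T.up {C} j := fun h => hxS ((t21_mem_lam T).2 ⟨⟨h5, hxC⟩, h⟩)
          have hxfs : x ∈ fs {C} := by rw [TS.fs_single]; exact hxC
          rcases (T.mem_fs_iff (T.fo_single hC) j x).1 hxfs with h6 | ⟨A, hA, hxA⟩
          · exact absurd h6 hxup
          · have hcn := t9_cn T hC hA
            have hzA : z ∉ A := fun h => T.up_disj (T.fo_single hC) hzup ⟨A, hA, h⟩
            have hxQ := (T.ib_sub hcn hxA hzA hzx.symm).1
            by_contra h7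
            apply h2
            rw [hBad, Finset.mem_filter]
            refine ⟨Finset.mem_biUnion.2 ⟨A, hA, hxQ⟩, h5, ?_⟩
            push Not at h7
            linarith
        · have := hft x hxC h5
          linarith
  have hrep := green_rep T.gd f hyS
  have hfirst : -((r : ℝ) * c3 * (j + 1)) ≤ ∑ z ∈ S, gr D r S y z * ((r : ℝ) * f z - nsum D f z) := by
    have h1 : ∑ z ∈ S, gr D r S y z * (-((r : ℝ) - 1)) ≤ ∑ z ∈ S, gr D r S y z * ((r : ℝ) * f z - nsum D f z) :=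
      Finset.sum_le_sum fun z hz => mul_le_mul_of_nonneg_left (abs_le.1 (hfh z (hsub z hz))).1 (g0 y z)
    rw [← Finset.sum_mul] at h1
    have h2 : 0 ≤ ∑ z ∈ S, gr D r S y z := Finset.sum_nonneg fun z _ => g0 y z
    have h4 : (∑ z ∈ S, gr D r S y z) * ((r : ℝ) - 1) ≤ c3 * (j + 1) * r := by
      have h5 : (0 : ℝ) ≤ (r : ℝ) - 1 := by linarith
      calc (∑ z ∈ S, gr D r S y z) * ((r : ℝ) - 1) ≤ (c3 * (j + 1)) * ((r : ℝ) - 1) := mul_le_mul_of_nonneg_right hsum h5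
        _ ≤ c3 * (j + 1) * r := by
          have h6 : 0 ≤ c3 * ((j : ℝ) + 1) := by positivity
          nlinarith
    linarith
  have hsecond : t / 2 * (1 - T.rho - Bad.card * (r * T.rho ^ j)) ≤
      ∑ z ∈ S, gr D r S y z * ∑ x ∈ (D.neighborFinset z).filter (fun x => x ∉ S), f x := by
    have h1 : ∑ z ∈ S, gr D r S y z * ∑ x ∈ (D.neighborFinset z).filter (fun x => x ∉ S),
        (t / 2 * (1 - (if x ∈ T.o C then (1 : ℝ) else 0) - (if x ∈ Bad then (1 : ℝ) else 0))) ≤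
        ∑ z ∈ S, gr D r S y z * ∑ x ∈ (D.neighborFinset z).filter (fun x => x ∉ S), f x :=
      Finset.sum_le_sum fun z hz => mul_le_mul_of_nonneg_left (Finset.sum_le_sum fun x hx => hlow z hz x hx) (g0 y z)
    have h2 : ∑ z ∈ S, gr D r S y z * ∑ x ∈ (D.neighborFinset z).filter (fun x => x ∉ S),
        (t / 2 * (1 - (if x ∈ T.o C then (1 : ℝ) else 0) - (if x ∈ Bad then (1 : ℝ) else 0))) =
        t / 2 * (∑ z ∈ S, gr D r S y z * ∑ x ∈ (D.neighborFinset z).filter (fun x => x ∉ S), (1 : ℝ) -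
          ∑ z ∈ S, gr D r S y z * ∑ x ∈ (D.neighborFinset z).filter (fun x => x ∉ S), (if x ∈ T.o C then (1 : ℝ) else 0) -
          ∑ z ∈ S, gr D r S y z * ∑ x ∈ (D.neighborFinset z).filter (fun x => x ∉ S), (if x ∈ Bad then (1 : ℝ) else 0)) := by
      rw [← Finset.sum_sub_distrib, ← Finset.sum_sub_distrib, Finset.mul_sum]
      refine Finset.sum_congr rfl fun z _ => ?_
      rw [← Finset.mul_sum, Finset.sum_sub_distrib, Finset.sum_sub_distrib]
      ring
    rw [h2, W1] at h1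
    refine le_trans (mul_le_mul_of_nonneg_left ?_ (by linarith)) h1
    linarith
  have hden : 0 < (r : ℝ) * T.rho ^ j := mul_pos (by linarith) (pow_pos T.rho_pos _)
  rw [div_le_iff₀ hden]
  have h8 : t / 2 * (1 - T.rho - Bad.card * (r * T.rho ^ j)) ≤ a + r * c3 * (j + 1) := by linarith
  have h9 : 1 - T.rho - Bad.card * (r * T.rho ^ j) ≤ 2 * (a + r * c3 * (j + 1)) / t := by
    rw [le_div_iff₀ ht]
    linarith
  linarith

/-- the deterministic part: one of the waves reaches many cones -/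
theorem t21_det (T : TS D r) : ∃ c3 : ℝ, 0 < c3 ∧ ∀ C, T.Cn C → ∀ (G : Finset V) (j : ℕ), 1 ≤ j → ∀ (t a : ℕ), a < t →
    ∀ ζ ∈ Rc D r (gp G {C}), (∃ y ∈ T.Q C, (∃ x ∈ T.o C, D.Adj x y) ∧ t ≤ od D r (t • T.fi {C}) (gp G {C}) ζ y + a) →
    ∃ i < t, (1 - T.rho - 2 * ((a : ℝ) + r * c3 * (j + 1)) / t) / (r * T.rho ^ j) ≤
      2 * (T.m * (T.rn {C} G j (gi D r (T.fi {C}) (gp G {C}) i ζ) : ℝ)) := by
  obtain ⟨c3, hc3, hbad⟩ := T.exists_bad
  refine ⟨c3, hc3, fun C hC G j hj t a hat ζ hζ => ?_⟩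
  rintro ⟨y, hyQ, hyx, hyt⟩
  have hyC : y ∈ C := T.Q_sub hC hyQ
  have hyG : y ∈ G := by
    by_contra h
    have h1 : od D r (t • T.fi {C}) (gp G {C}) ζ y = 0 := od_notMem fun h2 => h (t6_mem_gp.1 h2).1
    omega
  have hdis := t6_disj T hC G
  have hg : Adm D r 0 (T.fi {C}) (gp G {C}) := by
    rw [t8_fi_single]
    exact adm_dgi T.gd hdis
  have ht0 : (0 : ℝ) < t := by exact_mod_cast (by omega : 0 < t)
  have hodle : ∀ z, od D r (t • T.fi {C}) (gp G {C}) ζ z ≤ t := fun z => od_le_t (t3_inB hg t) (t3_rc_le hζ) z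
  let f : V → ℝ := fun z => (t : ℝ) - if z ∈ T.o C then (t : ℝ) else (od D r (t • T.fi {C}) (gp G {C}) ζ z : ℝ)
  have hfC : ∀ z, z ∉ T.o C → f z = (t : ℝ) - (od D r (t • T.fi {C}) (gp G {C}) ζ z : ℝ) := fun z hz => by
    show (t : ℝ) - (if z ∈ T.o C then (t : ℝ) else _) = _
    rw [if_neg hz]
  have hfo : ∀ z ∈ T.o C, f z = 0 := fun z hz => by
    show (t : ℝ) - (if z ∈ T.o C then (t : ℝ) else _) = _
    rw [if_pos hz, sub_self]
  have hnoC : ∀ z ∈ C, z ∉ T.o C := fun z hz h => T.o_notMem hC h hz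
  have hf0 : ∀ z, 0 ≤ f z := by
    intro z
    by_cases hz : z ∈ T.o C
    · rw [hfo z hz]
    · rw [hfC z hz, sub_nonneg]
      exact_mod_cast hodle z
  have hft : ∀ z ∈ C, z ∉ G → (t : ℝ) ≤ f z := by
    intro z hz hzG
    rw [hfC z (hnoC z hz)]
    have h1 : od D r (t • T.fi {C}) (gp G {C}) ζ z = 0 := od_notMem fun h2 => hzG (t6_mem_gp.1 h2).1
    rw [h1]
    simp
  have hfh : ∀ z ∈ gp G {C}, |(r : ℝ) * f z - nsum D f z| ≤ r - 1 := by
    intro z hz
    rw [hfC z (hnoC z (t6_mem_gp.1 hz).2)]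
    have h1 := od_near_harm T.gd hdis hζ t hz
    rw [← t8_fi_single] at h1
    exact h1
  have hya : f y ≤ a := by
    rw [hfC y (hnoC y hyC)]
    have h1 : (t : ℝ) ≤ (od D r (t • T.fi {C}) (gp G {C}) ζ y : ℝ) + a := by exact_mod_cast hyt
    linarith
  have hmain := hbad C hC G j hj t a f ht0 hf0 hfo hft hfh y hyQ hyG hyx hya
  set Bad := ((T.de {C} j).biUnion T.Q).filter (fun x => x ∈ G ∧ f x < t / 2) with hBad
  have hodB : ∀ x ∈ Bad, (t : ℝ) / 2 ≤ (od D r (t • T.fi {C}) (gp G {C}) ζ x : ℝ) := by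
    intro x hx
    obtain ⟨hx1, hx2, hx3⟩ := Finset.mem_filter.1 hx
    obtain ⟨A, hA, hxA⟩ := Finset.mem_biUnion.1 hx1
    have hxC : x ∈ C := T.de_single_sub hC hA (T.Q_sub (t9_cn T hC hA) hxA)
    rw [hfC x (hnoC x hxC)] at hx3
    linarith
  have hodW : ∀ x, (od D r (t • T.fi {C}) (gp G {C}) ζ x : ℝ) =
      ∑ i ∈ range t, if x ∈ gw D r (T.fi {C}) (gp G {C}) (gi D r (T.fi {C}) (gp G {C}) i ζ) then (1 : ℝ) else 0 := by
    intro x
    rw [od_waves hg hζ t x, Finset.card_filter]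
    push_cast
    rfl
  have hsum : ∑ _i ∈ range t, ((Bad.card : ℝ) / 2) ≤
      ∑ i ∈ range t, ((Bad.filter (fun x => x ∈ gw D r (T.fi {C}) (gp G {C}) (gi D r (T.fi {C}) (gp G {C}) i ζ))).card : ℝ) := by
    have h1 : ∑ _x ∈ Bad, ((t : ℝ) / 2) ≤ ∑ x ∈ Bad, (od D r (t • T.fi {C}) (gp G {C}) ζ x : ℝ) := Finset.sum_le_sum hodB
    simp only [hodW] at h1
    rw [Finset.sum_comm, Finset.sum_const, nsmul_eq_mul] at h1
    rw [Finset.sum_const, nsmul_eq_mul, Finset.card_range]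
    have h2 : ∀ i, ((Bad.filter (fun x => x ∈ gw D r (T.fi {C}) (gp G {C}) (gi D r (T.fi {C}) (gp G {C}) i ζ))).card : ℝ) =
        ∑ x ∈ Bad, if x ∈ gw D r (T.fi {C}) (gp G {C}) (gi D r (T.fi {C}) (gp G {C}) i ζ) then (1 : ℝ) else 0 := by
      intro i
      rw [Finset.card_filter]
      push_cast
      rfl
    simp only [h2]
    linarith
  obtain ⟨i, hi, hle⟩ := Finset.exists_le_of_sum_le (Finset.nonempty_range_iff.2 (by omega)) hsum
  refine ⟨i, Finset.mem_range.1 hi, hmain.trans ?_⟩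
  have hξ := gi_mem hg i hζ
  set ξ := gi D r (T.fi {C}) (gp G {C}) i ζ with hξd
  have hcard : (Bad.filter (fun x => x ∈ gw D r (T.fi {C}) (gp G {C}) ξ)).card ≤ T.rn {C} G j ξ * T.m := by
    have h1 : Bad.filter (fun x => x ∈ gw D r (T.fi {C}) (gp G {C}) ξ) ⊆
        ((T.de {C} j).filter (fun A => T.mkd (fun _ => False) {C} (T.fi {C}) G ξ A)).biUnion T.Q := by
      intro x hx
      obtain ⟨hxB, hxW⟩ := Finset.mem_filter.1 hx
      obtain ⟨A, hA, hxA⟩ := Finset.mem_biUnion.1 (Finset.mem_filter.1 hxB).1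
      refine Finset.mem_biUnion.2 ⟨A, Finset.mem_filter.2 ⟨hA, ?_, ?_⟩, hxA⟩
      · by_contra h
        exact T.not_rch (T.fo_single hC) hA hξ h (T.Q_sub (t9_cn T hC hA) hxA) hxW
      · intro i B _ hB
        exact hB.elim
    refine (Finset.card_le_card h1).trans (Finset.card_biUnion_le.trans ?_)
    refine (Finset.sum_le_card_nsmul _ _ T.m fun A hA => T.Q_card (t9_cn T hC (Finset.mem_filter.1 hA).1)).trans (le_of_eq ?_)
    rw [smul_eq_mul]
    rfl
  have hcard' : ((Bad.filter (fun x => x ∈ gw D r (T.fi {C}) (gp G {C}) ξ)).card : ℝ) ≤ T.rn {C} G j ξ * T.m := by exact_mod_cast hcard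
  linarith

/-- union bound and Markov -/
theorem t21_prob (T : TS D r) {ε : ℝ} (hε : 0 < ε) (h2 : ∀ C, T.Cn C → ∀ (G : Finset V) (j : ℕ),
    ex D r (gp G {C}) (fun ζ => (1 + ε / (j + 1)) ^ (T.rn {C} G j ζ)) ≤ 2) {C : Set V} (hC : T.Cn C) (G : Finset V) (j t N : ℕ)
    (P : (V → ℕ) → Prop) (hP : ∀ ζ ∈ Rc D r (gp G {C}), P ζ → ∃ i < t, N ≤ T.rn {C} G j (gi D r (T.fi {C}) (gp G {C}) i ζ)) :
    pr D r (gp G {C}) P ≤ t * (2 / (1 + ε / (j + 1)) ^ N) := by
  have hg : Adm D r 0 (T.fi {C}) (gp G {C}) := by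
    rw [t8_fi_single]
    exact adm_dgi T.gd (t6_disj T hC G)
  have hs : 0 ≤ ε / ((j : ℝ) + 1) := by positivity
  have hs1 : (1 : ℝ) ≤ 1 + ε / ((j : ℝ) + 1) := by linarith
  have hpos : 0 < (1 + ε / ((j : ℝ) + 1)) ^ N := by positivity
  rw [t9_pr_eq]
  have h3 : ex D r (gp G {C}) (fun ζ => if P ζ then (1 : ℝ) else 0) ≤
      ex D r (gp G {C}) (fun ζ => ∑ i ∈ range t, ((1 + ε / ((j : ℝ) + 1)) ^ N)⁻¹ *
        (1 + ε / ((j : ℝ) + 1)) ^ (T.rn {C} G j (gi D r (T.fi {C}) (gp G {C}) i ζ))) := by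
    refine t9_ex_mono fun ζ hζ => ?_
    have h4 : ∀ i, 0 ≤ ((1 + ε / ((j : ℝ) + 1)) ^ N)⁻¹ *
        (1 + ε / ((j : ℝ) + 1)) ^ (T.rn {C} G j (gi D r (T.fi {C}) (gp G {C}) i ζ)) := fun i => by positivity
    split_ifs with hPζ
    · obtain ⟨i, hi, hN⟩ := hP ζ hζ hPζ
      refine le_trans ?_ (Finset.single_le_sum (fun i _ => h4 i) (Finset.mem_range.2 hi))
      rw [inv_mul_eq_div, le_div_iff₀ hpos, one_mul]
      exact pow_le_pow_right₀ hs1 hN
    · exact Finset.sum_nonneg fun i _ => h4 i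
  refine h3.trans ?_
  rw [t9_ex_sum]
  have h5 : ∀ i ∈ range t, ex D r (gp G {C}) (fun ζ => ((1 + ε / ((j : ℝ) + 1)) ^ N)⁻¹ *
        (1 + ε / ((j : ℝ) + 1)) ^ (T.rn {C} G j (gi D r (T.fi {C}) (gp G {C}) i ζ))) ≤ 2 / (1 + ε / (j + 1)) ^ N := by
    intro i _
    rw [t9_ex_mul]
    have h6 : ex D r (gp G {C}) (fun ζ => (1 + ε / ((j : ℝ) + 1)) ^ (T.rn {C} G j (gi D r (T.fi {C}) (gp G {C}) i ζ))) =
        ex D r (gp G {C}) (fun ζ => (1 + ε / ((j : ℝ) + 1)) ^ (T.rn {C} G j ζ)) := by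
      unfold ex
      rw [sum_gi hg i (fun ζ => (1 + ε / ((j : ℝ) + 1)) ^ (T.rn {C} G j ζ))]
    rw [h6, inv_mul_eq_div]
    exact div_le_div_of_nonneg_right (h2 C hC G j) hpos.le
  refine (Finset.sum_le_card_nsmul _ _ _ h5).trans (le_of_eq ?_)
  rw [Finset.card_range, nsmul_eq_mul]

theorem t21_log {s : ℝ} (h0 : 0 ≤ s) (h1 : s ≤ 1) : Real.exp (s / 2) ≤ 1 + s := by
  have h2 : 1 - s / 2 ≤ Real.exp (-(s / 2)) := by
    have := Real.add_one_le_exp (-(s / 2))
    linarith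
  have h3 : 0 < Real.exp (s / 2) := Real.exp_pos _
  have h4 : Real.exp (-(s / 2)) * Real.exp (s / 2) = 1 := by
    rw [← Real.exp_add]
    simp
  have h5 : (1 - s / 2) * Real.exp (s / 2) ≤ 1 :=
    (mul_le_mul_of_nonneg_right h2 h3.le).trans h4.le
  have h6 : 1 ≤ (1 - s / 2) * (1 + s) := by nlinarith
  have h7 : 0 < 1 - s / 2 := by linarith
  by_contra h8
  push Not at h8
  nlinarith

/-- the growth estimate -/
theorem t21_grow {lam κ c : ℝ} (hlam : 0 < lam) (hκ : 0 < κ) (hc : 0 < c) (K : ℝ) :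
    ∃ t0 : ℕ, ∀ t : ℕ, t0 ≤ t → 2 * (t : ℝ) + |K| * t * (t + 2) ≤ κ * Real.exp (lam * t) / (c * t + 2) := by
  have h1 := (isLittleO_pow_exp_pos_mul_atTop 3 hlam).def (c := κ / ((2 + 3 * |K|) * (c + 2))) (by positivity)
  have h2 := h1.filter_mono (tendsto_natCast_atTop_atTop (R := ℝ))
  rw [Filter.eventually_map, Filter.eventually_atTop] at h2
  obtain ⟨t0, h3⟩ := h2
  refine ⟨max t0 1, fun t ht => ?_⟩
  have h4 := h3 t ((le_max_left _ _).trans ht)
  have ht1 : (1 : ℝ) ≤ t := by exact_mod_cast (le_max_right t0 1).trans ht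
  rw [Real.norm_of_nonneg (by positivity), Real.norm_of_nonneg (Real.exp_pos _).le, div_mul_eq_mul_div,
    le_div_iff₀ (by positivity)] at h4
  rw [le_div_iff₀ (by positivity)]
  refine le_trans ?_ h4
  have h5 : c * t + 2 ≤ (c + 2) * t := by nlinarith
  have h6 : 2 * (t : ℝ) + |K| * t * (t + 2) ≤ (2 + 3 * |K|) * t ^ 2 := by
    have h7 : 0 ≤ |K| := abs_nonneg K
    have h8 : (t : ℝ) * (t + 2) ≤ 3 * t ^ 2 := by nlinarith
    have h9 : |K| * (t * (t + 2)) ≤ |K| * (3 * t ^ 2) := mul_le_mul_of_nonneg_left h8 h7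
    nlinarith
  calc (2 * (t : ℝ) + |K| * t * (t + 2)) * (c * t + 2) ≤ ((2 + 3 * |K|) * t ^ 2) * ((c + 2) * t) :=
        mul_le_mul h6 h5 (by positivity) (by positivity)
    _ = (t : ℝ) ^ 3 * ((2 + 3 * |K|) * (c + 2)) := by ring

/-- the bound is superexponentially small -/
theorem t21_small {ρ ε κ c : ℝ} (hρ : 0 < ρ) (hρ1 : ρ < 1) (hε : 0 < ε) (hε1 : ε ≤ 1) (hκ : 0 < κ) (hc : 0 < c) (K : ℝ) :
    ∃ t0 : ℕ, ∀ t : ℕ, t0 ≤ t →
      (t : ℝ) * (2 / (1 + ε / (((⌊c * t⌋₊ + 1 : ℕ) : ℝ) + 1)) ^ ⌈κ / ρ ^ (⌊c * t⌋₊ + 1)⌉₊) ≤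
        Real.exp (-(K * t * Real.log (t + 2))) := by
  have hlog : Real.log ρ < 0 := Real.log_neg hρ hρ1
  obtain ⟨t0, h0⟩ := t21_grow (lam := c * (-Real.log ρ)) (κ := κ * ε / 2) (c := c) (by nlinarith) (by positivity) hc K
  refine ⟨max t0 1, fun t ht => ?_⟩
  have h1 := h0 t ((le_max_left _ _).trans ht)
  have ht1 : (1 : ℝ) ≤ t := by exact_mod_cast (le_max_right t0 1).trans ht
  set j : ℕ := ⌊c * t⌋₊ + 1 with hj
  have hjl : c * t ≤ j := by
    rw [hj]
    push_cast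
    exact (Nat.lt_floor_add_one _).le
  have hju : (j : ℝ) + 1 ≤ c * t + 2 := by
    rw [hj]
    push_cast
    have := Nat.floor_le (show 0 ≤ c * (t : ℝ) by positivity)
    linarith
  have hj1 : (1 : ℝ) ≤ (j : ℝ) + 1 := by
    have : (0 : ℝ) ≤ j := Nat.cast_nonneg j
    linarith
  set s : ℝ := ε / ((j : ℝ) + 1) with hs
  have hs0 : 0 ≤ s := by positivity
  have hs1 : s ≤ 1 := by
    rw [hs, div_le_one (by linarith)]
    linarith
  set N : ℕ := ⌈κ / ρ ^ j⌉₊ with hN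
  have hpow : ρ ^ j ≤ Real.exp (-(c * (-Real.log ρ) * t)) := by
    have h2 : ρ ^ j = Real.exp (j * Real.log ρ) := by
      rw [Real.exp_nat_mul, Real.exp_log hρ]
    rw [h2]
    apply Real.exp_le_exp.2
    nlinarith
  have hNl : κ * Real.exp (c * (-Real.log ρ) * t) ≤ N := by
    refine le_trans ?_ (Nat.le_ceil _)
    rw [le_div_iff₀ (pow_pos hρ _), mul_assoc]
    have h3 : Real.exp (c * (-Real.log ρ) * t) * ρ ^ j ≤ 1 := by
      calc Real.exp (c * (-Real.log ρ) * t) * ρ ^ j ≤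
            Real.exp (c * (-Real.log ρ) * t) * Real.exp (-(c * (-Real.log ρ) * t)) :=
            mul_le_mul_of_nonneg_left hpow (Real.exp_pos _).le
        _ = 1 := by rw [← Real.exp_add]; simp
    nlinarith
  have hpn : Real.exp (N * (s / 2)) ≤ (1 + s) ^ N := by
    rw [Real.exp_nat_mul]
    exact pow_le_pow_left₀ (Real.exp_pos _).le (t21_log hs0 hs1) _
  have h2 : 2 * (t : ℝ) + |K| * t * (t + 2) ≤ N * (s / 2) := by
    refine h1.trans ?_
    have h3 : κ * ε / 2 * Real.exp (c * (-Real.log ρ) * t) / (c * t + 2) ≤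
        κ * ε / 2 * Real.exp (c * (-Real.log ρ) * t) / ((j : ℝ) + 1) :=
      div_le_div_of_nonneg_left (by positivity) (by linarith) hju
    refine h3.trans ?_
    have h4 : κ * ε / 2 * Real.exp (c * (-Real.log ρ) * t) / ((j : ℝ) + 1) =
        (κ * Real.exp (c * (-Real.log ρ) * t)) * (s / 2) := by
      rw [hs]
      field_simp
    rw [h4]
    exact mul_le_mul_of_nonneg_right hNl (by linarith)
  have h3 : K * t * Real.log (t + 2) ≤ |K| * t * (t + 2) := by
    have h4 : Real.log ((t : ℝ) + 2) ≤ t + 2 := Real.log_le_self (by linarith)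
    have h5 : 0 ≤ Real.log ((t : ℝ) + 2) := Real.log_nonneg (by linarith)
    have h6 : K ≤ |K| := le_abs_self K
    have h7 : 0 ≤ |K| := abs_nonneg K
    calc K * t * Real.log (t + 2) ≤ |K| * t * Real.log (t + 2) :=
          mul_le_mul_of_nonneg_right (mul_le_mul_of_nonneg_right h6 (by linarith)) h5
      _ ≤ |K| * t * (t + 2) := mul_le_mul_of_nonneg_left h4 (by positivity)
  have h4 : (t : ℝ) * 2 ≤ Real.exp (2 * t) := by
    have := Real.add_one_le_exp (2 * (t : ℝ))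
    linarith
  calc (t : ℝ) * (2 / (1 + s) ^ N) = (t * 2) / (1 + s) ^ N := by ring
    _ ≤ Real.exp (2 * t) / Real.exp (N * (s / 2)) :=
        div_le_div₀ (Real.exp_pos _).le h4 (Real.exp_pos _) hpn
    _ = Real.exp (2 * t - N * (s / 2)) := by rw [Real.exp_sub]
    _ ≤ Real.exp (-(K * t * Real.log (t + 2))) := by
        apply Real.exp_le_exp.2
        linarith

/-- TARGET. MANY WAVES. For `t` full waves (`t > a`), suppose `od y ≥ t - a` for some `y ∈ Q C` adjacent to `o C`. With `f = t - od` (`t - t = 0` on `o C`, `t` at the other vertices off `gp G {C}`; `od_near_harm`; `od ≤ t`), `exists_bad` with `j = max 1 ⌊c t⌋`, `c` small, gives at least `c' ρ^(-j)` vertices in the top pieces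
of generation `j` with `od > t/2`. `od` is the number of the first `t` waves containing the vertex (`od_waves`), so some wave contains at least `(c'/2) ρ^(-j)` of these vertices, and then reaches at least `(c'/(2m)) ρ^(-j)` cones of generation `j`. Each wave has the law of the first one (`sum_gi`);
Markov with `exists_eps`: the probability is at most `t · 2 (1 + ε/(j+1))^(-(c'/(2m)) ρ^(-j))`, which is superexponentially small in `t`. For small `t` take `b t = 1`. -/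
theorem TS.exists_bt (T : TS D r) (a : ℕ) : ∃ b : ℕ → ℝ, (∀ t, 0 ≤ b t) ∧ (∀ K : ℝ, ∃ t0 : ℕ, ∀ t : ℕ, t0 ≤ t → b t ≤ Real.exp (-(K * t * Real.log (t + 2)))) ∧
    ∀ C, T.Cn C → ∀ (G : Finset V) (t : ℕ),
      pr D r (gp G {C}) (fun ζ => ∃ y ∈ T.Q C, (∃ x ∈ T.o C, D.Adj x y) ∧ t ≤ od D r (t • T.fi {C}) (gp G {C}) ζ y + a) ≤ b t := by
  obtain ⟨c3, hc3, hdet⟩ := t21_det T
  obtain ⟨ε, hε, hε1, h2⟩ := T.exists_eps
  have hρ := T.rho_pos
  have hρ1 := T.rho_lt
  have hr : (1 : ℝ) ≤ r := by exact_mod_cast T.gd.one_le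
  have hm : (0 : ℝ) ≤ T.m := Nat.cast_nonneg _
  set c : ℝ := (1 - T.rho) / (8 * r * c3) with hc
  have hcpos : 0 < c := div_pos (by linarith) (by positivity)
  set κ : ℝ := (1 - T.rho) / (4 * r * (T.m + 1)) with hκ
  have hκpos : 0 < κ := div_pos (by linarith) (by positivity)
  set t1 : ℕ := max ⌈4 * (2 * a + 4 * r * c3) / (1 - T.rho)⌉₊ (a + 1) with ht1
  refine ⟨fun t => if t1 ≤ t then (t : ℝ) * (2 / (1 + ε / (((⌊c * t⌋₊ + 1 : ℕ) : ℝ) + 1)) ^ ⌈κ / T.rho ^ (⌊c * t⌋₊ + 1)⌉₊) else 1,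
    fun t => ?_, fun K => ?_, fun C hC G t => ?_⟩
  · dsimp only
    split_ifs
    · positivity
    · exact zero_le_one
  · obtain ⟨t0, h0⟩ := t21_small hρ hρ1 hε hε1 hκpos hcpos K
    refine ⟨max t0 t1, fun t ht => ?_⟩
    dsimp only
    rw [if_pos ((le_max_right _ _).trans ht)]
    exact h0 t ((le_max_left _ _).trans ht)
  · dsimp only
    split_ifs with ht
    swap
    · exact t8_pr_le_one _ _
    refine t21_prob T hε h2 hC G (⌊c * t⌋₊ + 1) t ⌈κ / T.rho ^ (⌊c * t⌋₊ + 1)⌉₊ _ fun ζ hζ hP => ?_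
    have hat : a < t := (le_max_right _ _).trans ht
    have ht0 : (0 : ℝ) < t := by exact_mod_cast (by omega : 0 < t)
    obtain ⟨i, hi, hle⟩ := hdet C hC G (⌊c * t⌋₊ + 1) (by omega) t a hat ζ hζ hP
    refine ⟨i, hi, ?_⟩
    rw [Nat.ceil_le]
    set j : ℕ := ⌊c * t⌋₊ + 1 with hj
    have hju : (j : ℝ) + 1 ≤ c * t + 2 := by
      rw [hj]
      push_cast
      have := Nat.floor_le (show 0 ≤ c * (t : ℝ) by positivity)
      linarith
    have h3 : 4 * (2 * (a : ℝ) + 4 * r * c3) / (1 - T.rho) ≤ t := by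
      refine (Nat.le_ceil _).trans ?_
      exact_mod_cast (le_max_left _ _).trans ht
    have h4 : 4 * (2 * (a : ℝ) + 4 * r * c3) ≤ t * (1 - T.rho) := by
      rwa [div_le_iff₀ (by linarith)] at h3
    have h5 : 2 * ((a : ℝ) + r * c3 * (j + 1)) / t ≤ (1 - T.rho) / 2 := by
      rw [div_le_iff₀ ht0]
      have h6 : r * c3 * ((j : ℝ) + 1) ≤ r * c3 * (c * t + 2) := mul_le_mul_of_nonneg_left hju (by positivity)
      have h7 : r * c3 * (c * t) = (1 - T.rho) * t / 8 := by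
        rw [hc]
        field_simp
      nlinarith
    have hden : 0 < (r : ℝ) * T.rho ^ j := mul_pos (by linarith) (pow_pos hρ _)
    rw [div_le_iff₀ hden] at hle
    set R : ℝ := (T.rn {C} G j (gi D r (T.fi {C}) (gp G {C}) i ζ) : ℝ) with hR
    have hR0 : 0 ≤ R := Nat.cast_nonneg _
    have h8 : (1 - T.rho) / 2 ≤ 2 * ((T.m + 1) * R) * (r * T.rho ^ j) := by
      have h9 : 2 * (T.m * R) * (r * T.rho ^ j) ≤ 2 * ((T.m + 1) * R) * (r * T.rho ^ j) :=
        mul_le_mul_of_nonneg_right (by nlinarith) hden.le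
      linarith
    rw [div_le_iff₀ (pow_pos hρ _), hκ, div_le_iff₀ (by positivity)]
    nlinarith

end Pool.Agent.Helper910.QT
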