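import Mathlib
import Pool.Agent.Helper910.T20
import Pool.Agent.Helper910.T17
import Pool.Agent.Helper910.T21

/-! Several waves: inputs, outputs, decomposition at a cone (MP_4555f0_mp) -/

namespace Pool.Agent.Helper910.QT

open Classical Finset Filter Topology

variable {V : Type*} {D : SimpleGraph V} [D.LocallyFinite] {r : ℕ}

/-- input at the neighbours of `A` when `x ∈ A` topples `a x` times -/
noncomputable def inp (D : SimpleGraph V) (A : Finset V) (a : V → ℕ) : V → ℕ := fun z => ∑ x ∈ A, if D.Adj z x then a x else 0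

/-- the vertices of the cone `C` adjacent to its outer boundary -/
noncomputable def TS.ib (T : TS D r) (C : Set V) : Finset V := (T.Q C).filter (fun y => ∃ x ∈ T.o C, D.Adj x y)

/-- functions on `S` with values at most `t`, extended by `0` -/
noncomputable def bf (S : Finset V) (t : ℕ) : Finset (V → ℕ) := (Finset.pi S (fun _ => range (t + 1))).image (fun f => fun v => if h : v ∈ S then f v h else 0)

/-- the odometer on the cone `C` when `x ∈ o C` topples `a x` times -/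
noncomputable def TS.oc (T : TS D r) (C : Set V) (G : Finset V) (a : V → ℕ) (ζ : V → ℕ) : V → ℕ := od D r (inp D (T.o C) a) (gp G {C}) ζ

/-- number of toppled vertices of a finite set -/
noncomputable def nz (S : Finset V) (u : V → ℕ) : ℕ := (S.filter (fun z => 0 < u z)).card

/-- the odometer on `gp G {C}` without the cone `A`, with `a` on `o C` and `b` on `ib A` -/
noncomputable def TS.ox (T : TS D r) (C : Set V) (G : Finset V) (A : Set V) (a b : V → ℕ) (ξ : V → ℕ) : V → ℕ :=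
  od D r (fun z => inp D (T.o C) a z + inp D (T.ib A) b z) (rg' G {C} A) ξ

omit [D.LocallyFinite] in
/-- TARGET. -/
theorem mem_bf {S : Finset V} {t : ℕ} {f : V → ℕ} : f ∈ bf S t ↔ (∀ z ∈ S, f z ≤ t) ∧ ∀ z, z ∉ S → f z = 0 := by
  unfold bf
  rw [Finset.mem_image]
  constructor
  · rintro ⟨g, hg, rfl⟩
    rw [Finset.mem_pi] at hg
    refine ⟨fun z hz => ?_, fun z hz => ?_⟩
    · have := hg z hz
      rw [Finset.mem_range] at this
      simp only [dif_pos hz]
      omega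
    · simp only [dif_neg hz]
  · rintro ⟨h1, h2⟩
    refine ⟨fun z _ => f z, ?_, ?_⟩
    · rw [Finset.mem_pi]
      intro z hz
      rw [Finset.mem_range]
      have := h1 z hz
      omega
    · funext v
      by_cases hv : v ∈ S
      · simp only [dif_pos hv]
      · simp only [dif_neg hv, h2 v hv]

omit [D.LocallyFinite] in
/-- TARGET. -/
theorem card_bf (S : Finset V) (t : ℕ) : (bf S t).card = (t + 1) ^ S.card := by
  unfold bf
  rw [Finset.card_image_of_injOn]
  · rw [Finset.card_pi]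
    simp
  · intro g hg g' hg' h
    funext z hz
    have := congrFun h z
    simpa only [dif_pos hz] using this

omit [D.LocallyFinite] in
theorem t22_inp_le {A : Finset V} {a : V → ℕ} {t : ℕ} (h : ∀ x ∈ A, a x ≤ t) (z : V) : inp D A a z ≤ t * dg D z A := by
  unfold inp
  rw [dg_eq_sum, Finset.mul_sum]
  refine Finset.sum_le_sum fun x hx => ?_
  split_ifs
  · simpa using h x hx
  · simp

omit [D.LocallyFinite] in
theorem t22_inp_zero {A : Finset V} {a : V → ℕ} {z : V} (h : ∀ x ∈ A, ¬ D.Adj z x) : inp D A a z = 0 :=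
  Finset.sum_eq_zero fun x hx => if_neg (h x hx)

omit [D.LocallyFinite] in
theorem t22_inp_mono {A : Finset V} {a a' : V → ℕ} (h : ∀ x ∈ A, a x ≤ a' x) (z : V) : inp D A a z ≤ inp D A a' z := by
  unfold inp
  refine Finset.sum_le_sum fun x hx => ?_
  split_ifs
  · exact h x hx
  · exact le_rfl

omit [D.LocallyFinite] in
theorem t22_inp_const (A : Finset V) (t : ℕ) (z : V) : inp D A (fun _ => t) z = t * dg D z A := by
  unfold inp
  rw [dg_eq_sum, Finset.mul_sum]
  refine Finset.sum_congr rfl fun x hx => ?_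
  split_ifs <;> simp

theorem t22_fi_single (T : TS D r) (C : Set V) (z : V) : T.fi {C} z = dg D z (T.o C) := by
  rw [t8_fi_single]
  rfl

/-- the input from `o C` vanishes on the cones of later generations -/
theorem t22_o_far (T : TS D r) {C : Set V} (hC : T.Cn C) {l : ℕ} {A : Set V} (hA : A ∈ T.de {C} (l + 1)) {z : V} (hz : z ∈ A)
    {x : V} (hx : x ∈ T.o C) : ¬ D.Adj z x := by
  intro hadj
  have h0 : T.fi {C} z = 0 := T.fi_zero (T.fo_single hC) (Nat.le_add_left 1 l) ⟨A, hA, hz⟩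
  rw [t22_fi_single] at h0
  have := TS.t5b_dg_pos (D := D) hx hadj
  omega

theorem t22_mem_rg {G : Finset V} {C A : Set V} {z : V} : z ∈ rg' G {C} A ↔ (z ∈ G ∧ z ∈ C) ∧ z ∉ A := by
  unfold rg'
  rw [Finset.mem_filter, t6_mem_gp]

theorem t22_mem_ib (T : TS D r) {A : Set V} {z : V} : z ∈ T.ib A ↔ z ∈ T.Q A ∧ ∃ x ∈ T.o A, D.Adj x z := by
  unfold TS.ib
  rw [Finset.mem_filter]

theorem t22_disj (G : Finset V) (C A : Set V) : Disjoint (rg' G {C} A) (gp G {A}) := by
  rw [Finset.disjoint_left]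
  intro z h1 h2
  exact (t22_mem_rg.1 h1).2 (t6_mem_gp.1 h2).2

theorem t22_split (T : TS D r) {C : Set V} (hC : T.Cn C) (G : Finset V) {l : ℕ} {A : Set V} (hA : A ∈ T.de {C} l) :
    rg' G {C} A ∪ gp G {A} = gp G {C} := t7_split (T.fo_single hC) hA G

theorem t22_restrict {f : V → ℕ} {G0 G1 G2 : Finset V} (h0 : G1 ∪ G2 = G0) (hd : Disjoint G1 G2) {ζ u : V → ℕ}
    (hu : SolO D r f G0 ζ u) {z : V} (hz : z ∈ G1) :
    od D r f G0 ζ z = od D r (fun y => f y + ∑ x ∈ G2, if D.Adj y x then od D r f G0 ζ x else 0) G1 ζ z := by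
  subst h0
  exact od_restrict hd hu hz

/-- TARGET. the inputs are bounded by `t` topplings everywhere outside (`InB`) -/
theorem TS.inb_oc (T : TS D r) {C : Set V} (hC : T.Cn C) (G : Finset V) {t : ℕ} {a : V → ℕ} (ha : ∀ x ∈ T.o C, a x ≤ t) : InB D r t (inp D (T.o C) a) (gp G {C}) := by
  intro z hz
  have h1 := t22_inp_le (D := D) ha z
  have h2 : dg D z (T.o C ∪ gp G {C}) ≤ r := T.gd.degLe z _
  rw [dg_union (t6_disj T hC G)] at h2
  have h3 := Nat.mul_le_mul_left t h2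
  rw [Nat.mul_add] at h3
  omega

/-- TARGET. -/
theorem TS.inb_ox (T : TS D r) {C : Set V} (hC : T.Cn C) (G : Finset V) {l t : ℕ} {A : Set V} (hA : A ∈ T.de {C} l) {a b : V → ℕ} (ha : ∀ x ∈ T.o C, a x ≤ t)
    (hb : ∀ x ∈ T.ib A, b x ≤ t) : InB D r t (fun z => inp D (T.o C) a z + inp D (T.ib A) b z) (rg' G {C} A) := by
  intro z hz
  have hCA : A ⊆ C := T.de_single_sub hC hA
  have hA' : T.Cn A := t8_cn T hC hA
  have h1 := t22_inp_le (D := D) ha z
  have h2 := t22_inp_le (D := D) hb z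
  have hd1 : Disjoint (T.o C) (T.ib A) := by
    rw [Finset.disjoint_left]
    intro x hx hx'
    exact T.o_notMem hC hx (hCA (T.Q_sub hA' ((t22_mem_ib T).1 hx').1))
  have hd2 : Disjoint (T.o C ∪ T.ib A) (rg' G {C} A) := by
    rw [Finset.disjoint_left]
    intro x hx hx'
    rw [t22_mem_rg] at hx'
    rcases Finset.mem_union.1 hx with hx | hx
    · exact T.o_notMem hC hx hx'.1.2
    · exact hx'.2 (T.Q_sub hA' ((t22_mem_ib T).1 hx).1)
  have h3 : dg D z ((T.o C ∪ T.ib A) ∪ rg' G {C} A) ≤ r := T.gd.degLe z _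
  rw [dg_union hd2, dg_union hd1] at h3
  have h4 := Nat.mul_le_mul_left t h3
  rw [Nat.mul_add, Nat.mul_add] at h4
  show inp D (T.o C) a z + inp D (T.ib A) b z + t * dg D z (rg' G {C} A) ≤ t * r
  omega

/-- TARGET. `t` full waves -/
theorem TS.oc_full (T : TS D r) {C : Set V} (hC : T.Cn C) (G : Finset V) (t : ℕ) {ζ : V → ℕ} : T.oc C G (fun _ => t) ζ = od D r (t • T.fi {C}) (gp G {C}) ζ := by
  unfold TS.oc
  congr 1
  funext z
  rw [t22_inp_const, Pi.smul_apply, t22_fi_single, smul_eq_mul]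

/-- TARGET. monotonicity -/
theorem TS.oc_mono (T : TS D r) {C : Set V} (hC : T.Cn C) (G : Finset V) {t : ℕ} {a a' : V → ℕ} (h : ∀ x ∈ T.o C, a x ≤ a' x) (ha : ∀ x ∈ T.o C, a' x ≤ t) {ζ : V → ℕ}
    (hζ : ∀ z ∈ gp G {C}, ζ z ≤ r) (z : V) : T.oc C G a ζ z ≤ T.oc C G a' ζ z := by
  unfold TS.oc
  exact od_mono (Finset.Subset.refl _) (fun y _ => Nat.add_le_add_left (t22_inp_mono h y) _)
    (solO_const (T.inb_oc hC G ha) hζ) z

/-- TARGET. decomposition at `A ∈ de {C} (l+1)`: inside `A` (`od_restrict`; the vertices outside `A` adjacent to `A` are `o A ⊆ Q (parent)`) -/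
theorem TS.oc_in (T : TS D r) {C : Set V} (hC : T.Cn C) (G : Finset V) {l t : ℕ} {A : Set V} (hA : A ∈ T.de {C} (l + 1)) {a : V → ℕ} (ha : ∀ x ∈ T.o C, a x ≤ t) {ζ : V → ℕ}
    (hζ : ζ ∈ Rc D r (gp G {C})) {z : V} (hz : z ∈ A) : T.oc C G a ζ z = T.oc A G (rs (T.o A) (T.oc C G a ζ)) (rs (gp G {A}) ζ) z := by
  have hFo := T.fo_single hC
  have hA' : T.Cn A := t8_cn T hC hA
  have hCA : A ⊆ C := T.de_single_sub hC hA
  have hsol := solO_const (T.inb_oc hC G ha) (t3_rc_le hζ)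
  by_cases hzG : z ∈ G
  · have hz1 : z ∈ gp G {A} := t6_mem_gp.2 ⟨hzG, hz⟩
    have h0 : gp G {A} ∪ rg' G {C} A = gp G {C} := by
      rw [Finset.union_comm]
      exact t22_split T hC G hA
    have h1 := t22_restrict h0 (t22_disj G C A).symm hsol hz1
    have h2 : od D r (fun y => inp D (T.o C) a y + ∑ x ∈ rg' G {C} A, if D.Adj y x then od D r (inp D (T.o C) a) (gp G {C}) ζ x else 0) (gp G {A}) ζ =
        od D r (inp D (T.o A) (rs (T.o A) (T.oc C G a ζ))) (gp G {A}) (rs (gp G {A}) ζ) := by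
      refine od_congr fun y hy => ?_
      have hyA : y ∈ A := (t6_mem_gp.1 hy).2
      rw [rs_mem hy, t22_inp_zero (fun x hx => t22_o_far T hC hA hyA hx), Nat.zero_add]
      congr 1
      unfold inp
      rw [← Finset.sum_filter, ← Finset.sum_filter]
      have h3 : ∑ x ∈ (T.o A).filter (fun x => D.Adj y x), rs (T.o A) (T.oc C G a ζ) x =
          ∑ x ∈ (T.o A).filter (fun x => D.Adj y x), T.oc C G a ζ x :=
        Finset.sum_congr rfl fun x hx => rs_mem (Finset.mem_filter.1 hx).1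
      rw [h3]
      refine Finset.sum_subset ?_ ?_
      · intro x hx
        rw [Finset.mem_filter, t22_mem_rg] at hx
        rw [Finset.mem_filter]
        exact ⟨(T.mem_o hA' x).2 ⟨hx.1.2, y, hyA, hx.2.symm⟩, hx.2⟩
      · intro x hx hx'
        rw [Finset.mem_filter] at hx
        refine od_notMem ?_
        intro hxG
        rw [t6_mem_gp] at hxG
        exact hx' (Finset.mem_filter.2 ⟨t22_mem_rg.2 ⟨hxG, T.o_notMem hA' hx.1⟩, hx.2⟩)
    exact h1.trans (congrFun h2 z)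
  · have h1 : z ∉ gp G {C} := fun h => hzG (t6_mem_gp.1 h).1
    have h2 : z ∉ gp G {A} := fun h => hzG (t6_mem_gp.1 h).1
    unfold TS.oc
    rw [od_notMem h1, od_notMem h2]

/-- TARGET. outside `A` -/
theorem TS.oc_out (T : TS D r) {C : Set V} (hC : T.Cn C) (G : Finset V) {l t : ℕ} {A : Set V} (hA : A ∈ T.de {C} (l + 1)) {a : V → ℕ} (ha : ∀ x ∈ T.o C, a x ≤ t) {ζ : V → ℕ}
    (hζ : ζ ∈ Rc D r (gp G {C})) {z : V} (hz : z ∉ A) : T.oc C G a ζ z = T.ox C G A a (rs (T.ib A) (T.oc C G a ζ)) (rs (rg' G {C} A) ζ) z := by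
  have hA' : T.Cn A := t8_cn T hC hA
  have hCA : A ⊆ C := T.de_single_sub hC hA
  have hsol := solO_const (T.inb_oc hC G ha) (t3_rc_le hζ)
  by_cases hzG : z ∈ gp G {C}
  · have hz1 : z ∈ rg' G {C} A := t22_mem_rg.2 ⟨t6_mem_gp.1 hzG, hz⟩
    have h1 := t22_restrict (t22_split T hC G hA) (t22_disj G C A) hsol hz1
    have h2 : od D r (fun y => inp D (T.o C) a y + ∑ x ∈ gp G {A}, if D.Adj y x then od D r (inp D (T.o C) a) (gp G {C}) ζ x else 0) (rg' G {C} A) ζ =
        od D r (fun y => inp D (T.o C) a y + inp D (T.ib A) (rs (T.ib A) (T.oc C G a ζ)) y) (rg' G {C} A) (rs (rg' G {C} A) ζ) := by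
      refine od_congr fun y hy => ?_
      have hyA : y ∉ A := (t22_mem_rg.1 hy).2
      rw [rs_mem hy]
      congr 2
      unfold inp
      rw [← Finset.sum_filter, ← Finset.sum_filter]
      have h3 : ∑ x ∈ (T.ib A).filter (fun x => D.Adj y x), rs (T.ib A) (T.oc C G a ζ) x =
          ∑ x ∈ (T.ib A).filter (fun x => D.Adj y x), T.oc C G a ζ x :=
        Finset.sum_congr rfl fun x hx => rs_mem (Finset.mem_filter.1 hx).1
      rw [h3]
      refine Finset.sum_subset ?_ ?_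
      · intro x hx
        rw [Finset.mem_filter, t6_mem_gp] at hx
        rw [Finset.mem_filter]
        have h4 := T.ib_sub hA' hx.1.2 hyA hx.2.symm
        exact ⟨(t22_mem_ib T).2 ⟨h4.1, y, h4.2, hx.2⟩, hx.2⟩
      · intro x hx hx'
        rw [Finset.mem_filter, t22_mem_ib] at hx
        refine od_notMem ?_
        intro hxG
        rw [t6_mem_gp] at hxG
        exact hx' (Finset.mem_filter.2 ⟨t6_mem_gp.2 ⟨hxG.1, T.Q_sub hA' hx.1.1⟩, hx.2⟩)
    exact h1.trans (congrFun h2 z)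
  · have h2 : z ∉ rg' G {C} A := fun h => hzG (t6_mem_gp.2 (t22_mem_rg.1 h).1)
    unfold TS.oc TS.ox
    rw [od_notMem hzG, od_notMem h2]

/-- the part of a wave off `A` is the wave with the extra input from the part inside `A` -/
theorem t22_gw_off {g : V → ℕ} {H K : Finset V} (hKH : K ⊆ H) {ζ : V → ℕ} :
    gw D r (fun z => g z + dgi D ((gw D r g H ζ).filter (fun z => z ∉ K)) z) K (rs K ζ) = (gw D r g H ζ).filter (fun z => z ∈ K) := by
  set W := gw D r g H ζ with hW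
  have hWc := gw_GCl (D := D) (r := r) g H ζ
  rw [← hW] at hWc
  have hd : Disjoint (W.filter (fun z => z ∉ K)) (W.filter (fun z => z ∈ K)) := by
    rw [Finset.disjoint_left]
    intro z h1 h2
    exact (Finset.mem_filter.1 h1).2 (Finset.mem_filter.1 h2).2
  have hu : W.filter (fun z => z ∉ K) ∪ W.filter (fun z => z ∈ K) = W := by
    ext z
    simp only [Finset.mem_union, Finset.mem_filter]
    tauto
  have h1 : gw D r (fun z => g z + dgi D (W.filter (fun z => z ∉ K)) z) K (rs K ζ) ⊆ W.filter (fun z => z ∈ K) := by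
    refine gw_least ⟨fun z hz => (Finset.mem_filter.1 hz).2, fun y hy hyW => ?_⟩
    have hyW' : y ∉ W := fun h => hyW (Finset.mem_filter.2 ⟨h, hy⟩)
    have h2 := hWc.2 y (hKH hy) hyW'
    have h3 : dg D y W = dg D y (W.filter (fun z => z ∉ K)) + dg D y (W.filter (fun z => z ∈ K)) := by
      rw [← dg_union hd, hu]
    rw [rs_mem hy]
    show ζ y + (g y + dg D y (W.filter (fun z => z ∉ K))) + dg D y (W.filter (fun z => z ∈ K)) ≤ r
    omega
  refine Finset.Subset.antisymm h1 ?_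
  set W' := gw D r (fun z => g z + dgi D (W.filter (fun z => z ∉ K)) z) K (rs K ζ) with hW'
  have h2 : W ⊆ W' ∪ W.filter (fun z => z ∉ K) := by
    rw [hW]
    refine gw_least ?_
    rw [← hW]
    have hsub : W' ∪ W.filter (fun z => z ∉ K) ⊆ W := by
      refine Finset.union_subset (fun z hz => (Finset.mem_filter.1 (h1 hz)).1) (Finset.filter_subset _ _)
    refine ⟨fun z hz => hWc.1 (hsub hz), fun y hy hyW => ?_⟩
    rw [Finset.mem_union, not_or] at hyW
    by_cases hyK : y ∈ K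
    · have h3 := (gw_GCl (D := D) (r := r) (fun z => g z + dgi D (W.filter (fun z => z ∉ K)) z) K (rs K ζ)).2 y hyK hyW.1
      rw [← hW', rs_mem hyK] at h3
      have hd' : Disjoint W' (W.filter (fun z => z ∉ K)) := by
        rw [Finset.disjoint_left]
        intro z h4 h5
        exact (Finset.mem_filter.1 h5).2 (Finset.mem_filter.1 (h1 h4)).2
      rw [dg_union hd']
      have h6 : (fun z => g z + dgi D (W.filter (fun z => z ∉ K)) z) y = g y + dg D y (W.filter (fun z => z ∉ K)) := rfl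
      rw [h6] at h3
      omega
    · have hyW' : y ∉ W := fun h => hyW.2 (Finset.mem_filter.2 ⟨h, hyK⟩)
      have h3 := hWc.2 y hy hyW'
      have h4 : dg D y (W' ∪ W.filter (fun z => z ∉ K)) ≤ dg D y W := dg_mono hsub
      omega
  intro z hz
  rw [Finset.mem_filter] at hz
  rcases Finset.mem_union.1 (h2 hz.1) with h | h
  · exact h
  · exact absurd hz.2 (Finset.mem_filter.1 h).2

/-- the configuration after a wave, off `A` -/
theorem t22_gs_off {g : V → ℕ} {H K : Finset V} (hKH : K ⊆ H) {ζ : V → ℕ} :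
    rs K (gs D r 0 g H ζ) = gs D r 0 (fun z => g z + dgi D ((gw D r g H ζ).filter (fun z => z ∉ K)) z) K (rs K ζ) := by
  set W := gw D r g H ζ with hW
  have hd : Disjoint (W.filter (fun z => z ∉ K)) (W.filter (fun z => z ∈ K)) := by
    rw [Finset.disjoint_left]
    intro z h1 h2
    exact (Finset.mem_filter.1 h1).2 (Finset.mem_filter.1 h2).2
  have hu : W.filter (fun z => z ∉ K) ∪ W.filter (fun z => z ∈ K) = W := by
    ext z
    simp only [Finset.mem_union, Finset.mem_filter]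
    tauto
  have hg := t22_gw_off (D := D) (r := r) (g := g) hKH (ζ := ζ)
  rw [← hW] at hg
  funext z
  by_cases hz : z ∈ K
  · rw [rs_mem hz]
    unfold gs
    rw [if_pos (hKH hz), if_pos hz, hg, ← hW, rs_mem hz]
    have h3 : dg D z W = dg D z (W.filter (fun z => z ∉ K)) + dg D z (W.filter (fun z => z ∈ K)) := by
      rw [← dg_union hd, hu]
    have h4 : (if z ∈ W.filter (fun z => z ∈ K) then r - (0 : V → ℕ) z else 0) = if z ∈ W then r - (0 : V → ℕ) z else 0 := by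
      by_cases hzW : z ∈ W
      · rw [if_pos hzW, if_pos (Finset.mem_filter.2 ⟨hzW, hz⟩)]
      · rw [if_neg hzW, if_neg (fun h => hzW (Finset.mem_filter.1 h).1)]
    rw [h4, h3]
    show ζ z + g z + (dg D z (W.filter (fun z => z ∉ K)) + dg D z (W.filter (fun z => z ∈ K))) - _ =
      ζ z + (g z + dg D z (W.filter (fun z => z ∉ K))) + dg D z (W.filter (fun z => z ∈ K)) - _
    congr 1
    ring
  · rw [rs_notMem hz]
    unfold gs
    rw [if_neg hz]

theorem t22_fi_le (T : TS D r) (F : Finset (Set V)) : ∀ z ∈ fs F, T.fi F z ≤ T.fi F z := fun _ _ => le_rfl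

/-- TARGET. if some vertex of `o A` topples `t ≥ 2` times then `A` is reached by two waves with an extra source: `oc C G a ≤ oc C G t` = sum of the indicators of `t` waves (`od_waves`), so the vertex `x` is in each of the first two full waves `W1`, `W2` on `gp G {C}`. `A` is reached by `W1`, hence by the wave
computed off `A` (`rch_off`). Let `b = W1 ∩ A`. The part of `W1` off `A` is the wave on `rg'` with input `fi {C} + dgi b`, and the configuration after it, off `A`, is the corresponding one; `A` is reached by `W2`, hence by the wave off `A` (`rch_off` for the configuration after the first wave). -/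
theorem TS.tw_of_max (T : TS D r) {C : Set V} (hC : T.Cn C) (G : Finset V) {l t : ℕ} (ht : 2 ≤ t) {A : Set V} (hA : A ∈ T.de {C} (l + 1)) {a : V → ℕ} (ha : ∀ x ∈ T.o C, a x ≤ t) {ζ : V → ℕ}
    (hζ : ζ ∈ Rc D r (gp G {C})) {x : V} (hx : x ∈ T.o A) (h : T.oc C G a ζ x = t) : T.tw {C} G (rs (rg' G {C} A) ζ) A := by
  have hFo := T.fo_single hC
  have hA' : T.Cn A := t8_cn T hC hA
  have hadm : Adm D r 0 (T.fi {C}) (gp G {C}) := T.adm_fi hFo (t22_fi_le T {C}) G
  have h1 : T.oc C G a ζ x ≤ T.oc C G (fun _ => t) ζ x := T.oc_mono hC G ha (fun _ _ => le_rfl) (t3_rc_le hζ) x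
  rw [h, T.oc_full hC G t, od_waves hadm hζ t x] at h1
  have h2 : (range t).filter (fun i => x ∈ gw D r (T.fi {C}) (gp G {C}) (gi D r (T.fi {C}) (gp G {C}) i ζ)) = range t := by
    refine Finset.eq_of_subset_of_card_le (Finset.filter_subset _ _) ?_
    rw [Finset.card_range]
    exact h1
  have h3 : ∀ i < t, x ∈ gw D r (T.fi {C}) (gp G {C}) (gi D r (T.fi {C}) (gp G {C}) i ζ) := by
    intro i hi
    have : i ∈ (range t).filter (fun i => x ∈ gw D r (T.fi {C}) (gp G {C}) (gi D r (T.fi {C}) (gp G {C}) i ζ)) := by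
      rw [h2]
      exact Finset.mem_range.2 hi
    exact (Finset.mem_filter.1 this).2
  have hx0 : x ∈ gw D r (T.fi {C}) (gp G {C}) ζ := h3 0 (by omega)
  have hx1 : x ∈ gw D r (T.fi {C}) (gp G {C}) (gs D r 0 (T.fi {C}) (gp G {C}) ζ) := h3 1 (by omega)
  obtain ⟨hxA, y, hy, hxy⟩ := (T.mem_o hA' x).1 hx
  have hζ1 : gs D r 0 (T.fi {C}) (gp G {C}) ζ ∈ Rc D r (gp G {C}) := gi_mem hadm 1 hζ
  have hr0 : rch D (T.fi {C}) (gw D r (T.fi {C}) (gp G {C}) ζ) A := ⟨y, hy, Or.inr ⟨x, hx0, hxA, hxy⟩⟩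
  have hr1 : rch D (T.fi {C}) (gw D r (T.fi {C}) (gp G {C}) (gs D r 0 (T.fi {C}) (gp G {C}) ζ)) A := ⟨y, hy, Or.inr ⟨x, hx1, hxA, hxy⟩⟩
  have hsub : rg' G {C} A ⊆ gp G {C} := Finset.filter_subset _ _
  refine ⟨(T.rch_off hFo hA hζ).1 hr0, (gw D r (T.fi {C}) (gp G {C}) ζ).filter (fun z => z ∉ rg' G {C} A), ?_, ?_⟩
  · intro z hz
    rw [Finset.mem_filter] at hz
    by_contra hzA
    exact hz.2 (Finset.mem_filter.2 ⟨gw_sub _ _ _ hz.1, hzA⟩)
  · rw [← t22_gs_off hsub]
    exact (T.rch_off hFo hA hζ1).1 hr1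

/-- the odometer `ox` in another cone is at most the one of `t` full waves -/
theorem t22_ox_le (T : TS D r) {C : Set V} (hC : T.Cn C) (G : Finset V) {l t : ℕ} {A B : Set V} (hA : A ∈ T.de {C} (l + 1)) (hB : B ∈ T.de {C} (l + 1)) (hne : A ≠ B) {a b : V → ℕ}
    (ha : ∀ x ∈ T.o C, a x ≤ t) (hb : ∀ x ∈ T.ib A, b x ≤ t) {ξ : V → ℕ} (hξ : ξ ∈ Rc D r (rg' G {C} A)) {z : V} (hz : z ∈ gp G {B}) :
    T.ox C G A a b ξ z ≤ od D r (t • T.fi {B}) (gp G {B}) (rs (gp G {B}) ξ) z := by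
  have hFo := T.fo_single hC
  have hFo1 : T.Fo (T.de {C} (l + 1)) := t8_Fo T hC (l + 1)
  have hA' : T.Cn A := t8_cn T hC hA
  have hB' : T.Cn B := t8_cn T hC hB
  have hCB : B ⊆ C := T.de_single_sub hC hB
  have hdAB : Disjoint A B := hFo1.disj A hA B hB hne
  have hBsub : gp G {B} ⊆ rg' G {C} A := by
    intro x hx
    rw [t6_mem_gp] at hx
    exact t22_mem_rg.2 ⟨⟨hx.1, hCB hx.2⟩, fun hxA => Set.disjoint_left.1 hdAB hxA hx.2⟩
  have hin := T.inb_ox hC G hA ha hb
  have hsol := solO_const hin (t3_rc_le hξ)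
  have h0 : gp G {B} ∪ (rg' G {C} A \ gp G {B}) = rg' G {C} A := Finset.union_sdiff_of_subset hBsub
  have h1 := t22_restrict h0 Finset.disjoint_sdiff hsol hz
  unfold TS.ox
  rw [h1]
  have hadm : Adm D r 0 (T.fi {B}) (gp G {B}) := T.adm_fi (T.fo_single hB') (t22_fi_le T {B}) G
  have hζB : rs (gp G {B}) ξ ∈ Rc D r (gp G {B}) := rs_mem_Rc hBsub hξ
  refine od_mono (Finset.Subset.refl _) (fun y hy => ?_) (solO_const (t3_inB hadm t) (t3_rc_le hζB)) z
  have hyB : y ∈ B := (t6_mem_gp.1 hy).2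
  rw [rs_mem hy]
  refine Nat.add_le_add_left ?_ _
  have e1 : inp D (T.o C) a y = 0 := t22_inp_zero (fun x hx => t22_o_far T hC hB hyB hx)
  have e2 : inp D (T.ib A) b y = 0 := by
    refine t22_inp_zero (fun x hx hadj => ?_)
    have hxA : x ∈ A := T.Q_sub hA' ((t22_mem_ib T).1 hx).1
    have hxB : x ∉ B := fun h => Set.disjoint_left.1 hdAB hxA h
    exact hFo1.nadj B hB A hA x ((T.mem_o hB' x).2 ⟨hxB, y, hyB, hadj.symm⟩) hxA
  show inp D (T.o C) a y + inp D (T.ib A) b y + _ ≤ _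
  rw [e1, e2, Nat.zero_add, Pi.smul_apply, smul_eq_mul, t22_fi_single]
  have h2 : ∀ x, od D r (fun z => inp D (T.o C) a z + inp D (T.ib A) b z) (rg' G {C} A) ξ x ≤ t := fun x => od_le_t hin (t3_rc_le hξ) x
  calc _ ≤ ∑ x ∈ rg' G {C} A \ gp G {B}, (if D.Adj y x then t else 0) := by
        refine Finset.sum_le_sum fun x _ => ?_
        split_ifs
        · exact h2 x
        · exact le_rfl
    _ = t * dg D y (rg' G {C} A \ gp G {B}) := by
        rw [dg_eq_sum, Finset.mul_sum]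
        refine Finset.sum_congr rfl fun x _ => ?_
        split_ifs <;> simp
    _ ≤ t * dg D y (T.o B) := by
        refine Nat.mul_le_mul_left t (TS.t5b_dg_le fun x hx hadj => ?_)
        rw [Finset.mem_sdiff, t22_mem_rg, t6_mem_gp] at hx
        exact (T.mem_o hB' x).2 ⟨fun h => hx.2 ⟨hx.1.1.1, h⟩, y, hyB, hadj.symm⟩

/-- TARGET. in another cone `B ∈ de {C} (l+1)`, `B ≠ A`, the odometer `ox` is at most the one of `t` full waves into `B`, so the number of toppled vertices is at most the sum of the sizes of `t` waves -/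
theorem TS.ox_other (T : TS D r) {C : Set V} (hC : T.Cn C) (G : Finset V) {l t : ℕ} {A B : Set V} (hA : A ∈ T.de {C} (l + 1)) (hB : B ∈ T.de {C} (l + 1)) (hne : A ≠ B) {a b : V → ℕ}
    (ha : ∀ x ∈ T.o C, a x ≤ t) (hb : ∀ x ∈ T.ib A, b x ≤ t) {ξ : V → ℕ} (hξ : ξ ∈ Rc D r (rg' G {C} A)) :
    nz (gp G {B}) (T.ox C G A a b ξ) ≤ ∑ i ∈ range t, (gw D r (T.fi {B}) (gp G {B}) (gi D r (T.fi {B}) (gp G {B}) i (rs (gp G {B}) ξ))).card := by
  have hB' : T.Cn B := t8_cn T hC hB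
  have hCB : B ⊆ C := T.de_single_sub hC hB
  have hFo1 : T.Fo (T.de {C} (l + 1)) := t8_Fo T hC (l + 1)
  have hdAB : Disjoint A B := hFo1.disj A hA B hB hne
  have hBsub : gp G {B} ⊆ rg' G {C} A := by
    intro x hx
    rw [t6_mem_gp] at hx
    exact t22_mem_rg.2 ⟨⟨hx.1, hCB hx.2⟩, fun hxA => Set.disjoint_left.1 hdAB hxA hx.2⟩
  have hadm : Adm D r 0 (T.fi {B}) (gp G {B}) := T.adm_fi (T.fo_single hB') (t22_fi_le T {B}) G
  have hζB : rs (gp G {B}) ξ ∈ Rc D r (gp G {B}) := rs_mem_Rc hBsub hξ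
  unfold nz
  refine le_trans (Finset.card_le_card (t := (range t).biUnion (fun i => gw D r (T.fi {B}) (gp G {B}) (gi D r (T.fi {B}) (gp G {B}) i (rs (gp G {B}) ξ)))) ?_) Finset.card_biUnion_le
  intro z hz
  rw [Finset.mem_filter] at hz
  have h1 := lt_of_lt_of_le hz.2 (t22_ox_le T hC G hA hB hne ha hb hξ hz.1)
  rw [od_waves hadm hζB t z, Finset.card_pos] at h1
  obtain ⟨i, hi⟩ := h1
  rw [Finset.mem_filter] at hi
  exact Finset.mem_biUnion.2 ⟨i, hi.1, hi.2⟩

theorem t22_pr_gi {g : V → ℕ} {G : Finset V} (hg : Adm D r 0 g G) (i : ℕ) (P : (V → ℕ) → Prop) :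
    pr D r G (fun ζ => P (gi D r g G i ζ)) = pr D r G P := by
  have h := sum_gi (D := D) (r := r) hg i (fun ζ => if P ζ then (1 : ℕ) else 0)
  rw [← Finset.card_filter, ← Finset.card_filter] at h
  unfold pr
  rw [h]

theorem t22_one (T : TS D r) {C : Set V} (hC : T.Cn C) (G : Finset V) {l : ℕ} {A B : Set V} (hA : A ∈ T.de {C} (l + 1)) (hB : B ∈ T.de {C} (l + 1)) (hne : A ≠ B)
    (E : (V → ℕ) → Prop) : pr D r (rg' G {C} A) (fun ξ => E (rs (gp G {B}) ξ)) ≤ T.c0⁻¹ * pr D r (gp G {B}) E := by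
  have hFo1 : T.Fo (T.de {C} (l + 1)) := t8_Fo T hC (l + 1)
  have hB' : T.Cn B := t8_cn T hC hB
  have hCB : B ⊆ C := T.de_single_sub hC hB
  have hdAB : Disjoint A B := hFo1.disj A hA B hB hne
  have hBsub : gp G {B} ⊆ rg' G {C} A := by
    intro x hx
    rw [t6_mem_gp] at hx
    exact t22_mem_rg.2 ⟨⟨hx.1, hCB hx.2⟩, fun hxA => Set.disjoint_left.1 hdAB hxA hx.2⟩
  have h0 : (rg' G {C} A \ gp G {B}) ∪ gp G {B} = rg' G {C} A := Finset.sdiff_union_of_subset hBsub
  have hd : ∀ z ∈ rg' G {C} A \ gp G {B}, z ∉ fs {B} := by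
    intro z hz hzB
    rw [Finset.mem_sdiff, t22_mem_rg, t6_mem_gp] at hz
    rw [TS.fs_single] at hzB
    exact hz.2 ⟨hz.1.1.1, hzB⟩
  have h1 := T.t11_one (T.fo_single hB') (rg' G {C} A \ gp G {B}) G hd (Finset.mem_singleton_self B) E
  rw [h0, Finset.card_singleton, pow_one] at h1
  exact h1

theorem t22_tail {g : V → ℕ} {G : Finset V} (hg : Adm D r 0 g G) (t N : ℕ) :
    pr D r G (fun η => ∃ i ∈ range t, N ≤ (gw D r g G (gi D r g G i η)).card) ≤ t * pr D r G (fun η => N ≤ (gw D r g G η).card) := by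
  refine le_trans (t11_pr_exists (range t) (fun i η => N ≤ (gw D r g G (gi D r g G i η)).card)) (le_of_eq ?_)
  rw [Finset.sum_congr rfl (fun i _ => t22_pr_gi hg i (fun η => N ≤ (gw D r g G η).card))]
  rw [Finset.sum_const, Finset.card_range, nsmul_eq_mul]

/-- TARGET. tail of that number: eventually in `G`, for all `b`; restriction to `gp G {B}` (`prod_le` for the forest `{B}`), `sum_gi`, `one_tail`: some of the `t` waves has size at least `M/t` -/
theorem TS.exists_ot (T : TS D r) : ∃ K : ℝ, 0 < K ∧ ∀ C, T.Cn C → ∀ (l t M : ℕ), 1 ≤ t → 1 ≤ M → ∀ᶠ G in (atTop : Filter (Finset V)), ∀ A ∈ T.de {C} (l + 1), ∀ a b : V → ℕ,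
    (∀ x ∈ T.o C, a x ≤ t) → (∀ x ∈ T.ib A, b x ≤ t) →
    pr D r (rg' G {C} A) (fun ξ => ∃ B ∈ T.de {C} (l + 1), B ≠ A ∧ M ≤ nz (gp G {B}) (T.ox C G A a b ξ)) ≤ (T.m : ℝ) ^ (l + 1) * (K * (t : ℝ) ^ 2 / Real.sqrt M) := by
  obtain ⟨K, hK, hK'⟩ := T.one_tail 1
  have hc0 := T.c0_pos
  refine ⟨T.c0⁻¹ * K, mul_pos (inv_pos.2 hc0) hK, ?_⟩
  intro C hC l t M ht hM
  have hFo1 : T.Fo (T.de {C} (l + 1)) := t8_Fo T hC (l + 1)
  have hcard : ((T.de {C} (l + 1)).card : ℝ) ≤ (T.m : ℝ) ^ (l + 1) := by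
    have := T.de_card (T.fo_single hC) (l + 1)
    rw [Finset.card_singleton, one_mul] at this
    exact_mod_cast this
  -- the threshold
  set N : ℕ := (M + t - 1) / t with hN
  have htN : M ≤ t * N := by
    have h1 := Nat.div_add_mod (M + t - 1) t
    have h2 := Nat.mod_lt (M + t - 1) ht
    rw [← hN] at h1
    omega
  have hN1 : 1 ≤ N := by
    rcases Nat.eq_zero_or_pos N with h | h
    · rw [h, Nat.mul_zero] at htN
      omega
    · exact h
  have hNmin : ∀ x : ℕ, M ≤ t * x → N ≤ x := by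
    intro x hx
    rw [hN]
    have h1 : (M + t - 1) / t < x + 1 := by
      rw [Nat.div_lt_iff_lt_mul ht, Nat.add_mul, Nat.one_mul, Nat.mul_comm x t]
      omega
    omega
  have hev : ∀ᶠ G in (atTop : Filter (Finset V)), ∀ B ∈ T.de {C} (l + 1),
      pr D r (gp G {B}) (fun ζ => N ≤ (gw D r (T.fi {B}) (gp G {B}) ζ).card) ≤ K / Real.sqrt N := by
    rw [Filter.eventually_all_finset]
    intro B hB
    exact hK' {B} (T.fo_single (t8_cn T hC hB)) (by simp) (T.fi {B}) (t22_fi_le T {B}) N hN1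
  filter_upwards [hev] with G hG A hA a b ha hb
  have hM0 : (0 : ℝ) < M := by exact_mod_cast hM
  have hN0 : (0 : ℝ) < N := by exact_mod_cast hN1
  have ht0 : (0 : ℝ) < t := by exact_mod_cast ht
  have hsq : Real.sqrt M ≤ t * Real.sqrt N := by
    rw [Real.sqrt_le_left (by positivity), mul_pow, Real.sq_sqrt hN0.le]
    have h1 : (M : ℝ) ≤ t * N := by exact_mod_cast htN
    have h2 : (1 : ℝ) ≤ t := by exact_mod_cast ht
    nlinarith
  have hone : ∀ B ∈ (T.de {C} (l + 1)).filter (fun B => B ≠ A), pr D r (rg' G {C} A) (fun ξ => M ≤ nz (gp G {B}) (T.ox C G A a b ξ)) ≤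
      T.c0⁻¹ * K * (t : ℝ) ^ 2 / Real.sqrt M := by
    intro B hB
    rw [Finset.mem_filter] at hB
    obtain ⟨hB, hBA⟩ := hB
    have hB' : T.Cn B := t8_cn T hC hB
    have hCB : B ⊆ C := T.de_single_sub hC hB
    have hadm : Adm D r 0 (T.fi {B}) (gp G {B}) := T.adm_fi (T.fo_single hB') (t22_fi_le T {B}) G
    have s1 : pr D r (rg' G {C} A) (fun ξ => M ≤ nz (gp G {B}) (T.ox C G A a b ξ)) ≤
        pr D r (rg' G {C} A) (fun ξ => ∃ i ∈ range t, N ≤ (gw D r (T.fi {B}) (gp G {B}) (gi D r (T.fi {B}) (gp G {B}) i (rs (gp G {B}) ξ))).card) := by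
      refine t11_pr_mono (fun ξ hξ h => ?_)
      have h1 := le_trans h (T.ox_other hC G hA hB hBA.symm ha hb hξ)
      by_contra hcon
      push Not at hcon
      have hN2 : ∀ i ∈ range t, (gw D r (T.fi {B}) (gp G {B}) (gi D r (T.fi {B}) (gp G {B}) i (rs (gp G {B}) ξ))).card ≤ N - 1 := by
        intro i hi
        have := hcon i hi
        omega
      have h2 := Finset.sum_le_sum hN2
      rw [Finset.sum_const, Finset.card_range, smul_eq_mul] at h2
      have h3 := hNmin (N - 1) (le_trans h1 h2)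
      omega
    have s2 := t22_one T hC G hA hB hBA.symm (fun η => ∃ i ∈ range t, N ≤ (gw D r (T.fi {B}) (gp G {B}) (gi D r (T.fi {B}) (gp G {B}) i η)).card)
    have s3 := t22_tail hadm t N
    have s4 := hG B hB
    refine le_trans s1 (le_trans s2 (le_trans (mul_le_mul_of_nonneg_left s3 (inv_pos.2 hc0).le) ?_))
    refine le_trans (mul_le_mul_of_nonneg_left (mul_le_mul_of_nonneg_left s4 ht0.le) (inv_pos.2 hc0).le) ?_
    have hsN : 0 < Real.sqrt N := Real.sqrt_pos.2 hN0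
    have hsM : 0 < Real.sqrt M := Real.sqrt_pos.2 hM0
    have h5 : K / Real.sqrt N ≤ K * t / Real.sqrt M := by
      rw [div_le_div_iff₀ hsN hsM]
      have := mul_le_mul_of_nonneg_left hsq hK.le
      nlinarith
    have h6 : T.c0⁻¹ * (t * (K / Real.sqrt N)) ≤ T.c0⁻¹ * (t * (K * t / Real.sqrt M)) := by
      refine mul_le_mul_of_nonneg_left ?_ (inv_pos.2 hc0).le
      exact mul_le_mul_of_nonneg_left h5 ht0.le
    refine le_trans h6 (le_of_eq ?_)
    ring
  have hu : pr D r (rg' G {C} A) (fun ξ => ∃ B ∈ T.de {C} (l + 1), B ≠ A ∧ M ≤ nz (gp G {B}) (T.ox C G A a b ξ)) ≤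
      ∑ B ∈ (T.de {C} (l + 1)).filter (fun B => B ≠ A), pr D r (rg' G {C} A) (fun ξ => M ≤ nz (gp G {B}) (T.ox C G A a b ξ)) := by
    refine le_trans (t11_pr_mono (Q := fun ξ => ∃ B ∈ (T.de {C} (l + 1)).filter (fun B => B ≠ A), M ≤ nz (gp G {B}) (T.ox C G A a b ξ)) ?_)
      (t11_pr_exists _ (fun B ξ => M ≤ nz (gp G {B}) (T.ox C G A a b ξ)))
    rintro ξ _ ⟨B, hB, hne, h⟩
    exact ⟨B, Finset.mem_filter.2 ⟨hB, hne⟩, h⟩
  have hq : 0 ≤ T.c0⁻¹ * K * (t : ℝ) ^ 2 / Real.sqrt M := by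
    have := inv_pos.2 hc0
    positivity
  calc _ ≤ ∑ B ∈ (T.de {C} (l + 1)).filter (fun B => B ≠ A), pr D r (rg' G {C} A) (fun ξ => M ≤ nz (gp G {B}) (T.ox C G A a b ξ)) := hu
    _ ≤ ∑ B ∈ (T.de {C} (l + 1)).filter (fun B => B ≠ A), T.c0⁻¹ * K * (t : ℝ) ^ 2 / Real.sqrt M := Finset.sum_le_sum hone
    _ = (((T.de {C} (l + 1)).filter (fun B => B ≠ A)).card : ℝ) * (T.c0⁻¹ * K * (t : ℝ) ^ 2 / Real.sqrt M) := by
        rw [Finset.sum_const, nsmul_eq_mul]
    _ ≤ (T.m : ℝ) ^ (l + 1) * (T.c0⁻¹ * K * (t : ℝ) ^ 2 / Real.sqrt M) := by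
        refine mul_le_mul_of_nonneg_right ?_ hq
        refine le_trans ?_ hcard
        exact_mod_cast Finset.card_filter_le _ _

/-- if the first `t` full waves do not reach generation `L`, the odometer is supported in the first `L` generations -/
theorem t22_supp (T : TS D r) {C : Set V} (hC : T.Cn C) {t : ℕ} {a : V → ℕ} (ha : ∀ x ∈ T.o C, a x ≤ t) {L : ℕ} {G : Finset V}
    (hG : T.up {C} (L + 1) ⊆ G) {ζ : V → ℕ} (hζ : ζ ∈ Rc D r (gp G {C})) (hn : T.nr {C} G L t ζ) {z : V} (hz : z ∉ T.up {C} L) :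
    T.oc C G a ζ z = 0 := by
  have hFo := T.fo_single hC
  have hadm : Adm D r 0 (T.fi {C}) (gp G {C}) := T.adm_fi hFo (t22_fi_le T {C}) G
  have h1 : T.oc C G a ζ z ≤ T.oc C G (fun _ => t) ζ z := T.oc_mono hC G ha (fun _ _ => le_rfl) (t3_rc_le hζ) z
  rw [T.oc_full hC G t, od_waves hadm hζ t z] at h1
  have h2 : (range t).filter (fun i => z ∈ gw D r (T.fi {C}) (gp G {C}) (gi D r (T.fi {C}) (gp G {C}) i ζ)) = ∅ := by
    rw [Finset.filter_eq_empty_iff]
    intro i hi hzi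
    have hi' := Finset.mem_range.1 hi
    have hri := hn i hi'
    have hζi : gi D r (T.fi {C}) (gp G {C}) i ζ ∈ Rc D r (gp G {C}) := gi_mem hadm i hζ
    have hnr : ∀ A ∈ T.de {C} L, ¬ rch D (T.fi {C}) (gw D r (T.fi {C}) (gp G {C}) (gi D r (T.fi {C}) (gp G {C}) i ζ)) A := by
      intro A hA hr
      unfold TS.rn at hri
      rw [t13_fn_false, Finset.card_eq_zero, Finset.filter_eq_empty_iff] at hri
      exact hri hA hr
    have h3 := (T.gw_loc hFo (t22_fi_le T {C}) (Nat.le_succ L) hG (t3_rc_le hζi) hnr).2 hzi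
    exact hz h3
  rw [h2, Finset.card_empty] at h1
  omega

theorem t22_up_gp (T : TS D r) {C : Set V} (hC : T.Cn C) (L : ℕ) : gp (T.up {C} L) {C} = T.up {C} L := by
  ext z
  rw [t6_mem_gp]
  refine ⟨fun h => h.1, fun h => ⟨h, ?_⟩⟩
  have := T.t12_up_fs (T.fo_single hC) h
  rw [TS.fs_single] at this
  exact this

theorem t22_loc (T : TS D r) {C : Set V} (hC : T.Cn C) {t : ℕ} {a : V → ℕ} (ha : ∀ x ∈ T.o C, a x ≤ t) {L : ℕ} {G : Finset V}
    (hG : T.up {C} (L + 1) ⊆ G) {ζ : V → ℕ} (hζ : ζ ∈ Rc D r (gp G {C})) (hn : T.nr {C} G L t ζ) :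
    T.oc C G a ζ = T.oc C (T.up {C} (L + 1)) a (rs (T.up {C} (L + 1)) ζ) := by
  have hsub : gp (T.up {C} (L + 1)) {C} ⊆ gp G {C} := by
    intro z hz
    rw [t6_mem_gp] at hz ⊢
    exact ⟨hG hz.1, hz.2⟩
  have hsol := solO_const (T.inb_oc hC G ha) (t3_rc_le hζ)
  have hle : ∀ z, T.oc C (T.up {C} (L + 1)) a (rs (T.up {C} (L + 1)) ζ) z ≤ T.oc C G a ζ z := by
    intro z
    unfold TS.oc
    refine od_mono hsub (fun y hy => ?_) hsol z
    rw [rs_mem (t6_mem_gp.1 hy).1]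
  have hr' : ∀ z ∈ gp (T.up {C} (L + 1)) {C}, rs (T.up {C} (L + 1)) ζ z ≤ r := by
    intro z hz
    rw [rs_mem (t6_mem_gp.1 hz).1]
    exact t3_rc_le hζ z (hsub hz)
  have hsol' := od_sol (solO_const (T.inb_oc hC (T.up {C} (L + 1)) ha) hr')
  have hbig : SolO D r (inp D (T.o C) a) (gp G {C}) ζ (T.oc C (T.up {C} (L + 1)) a (rs (T.up {C} (L + 1)) ζ)) := by
    refine ⟨fun z hz => ?_, fun z hz => ?_⟩
    · exact od_notMem (fun h => hz (hsub h))
    · by_cases hzu : z ∈ T.up {C} (L + 1)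
      · have hz' : z ∈ gp (T.up {C} (L + 1)) {C} := t6_mem_gp.2 ⟨hzu, (t6_mem_gp.1 hz).2⟩
        have := hsol'.2 z hz'
        rw [rs_mem hzu] at this
        exact this
      · have hzL : z ∉ T.up {C} L := fun h => hzu (T.up_mono {C} (Nat.le_succ L) h)
        have h1 := t22_supp T hC ha hG hζ hn hzL
        have h2 := (od_sol hsol).2 z hz
        have h3 : od D r (inp D (T.o C) a) (gp G {C}) ζ z = 0 := h1
        rw [h3, Nat.mul_zero] at h2
        have h4 : T.oc C (T.up {C} (L + 1)) a (rs (T.up {C} (L + 1)) ζ) z = 0 := by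
          have := hle z
          omega
        have h5 : nsum D (T.oc C (T.up {C} (L + 1)) a (rs (T.up {C} (L + 1)) ζ)) z ≤ nsum D (od D r (inp D (T.o C) a) (gp G {C}) ζ) z :=
          t3_nsum_mono hle z
        rw [h4, Nat.mul_zero]
        omega
  funext z
  exact le_antisymm (od_le hbig z) (hle z)

/-- TARGET. quasi-locality of events of the odometer: if the first `t` full waves do not reach generation `L`, `oc C G a` (`≤` the sum of the waves) is supported in `up {C} L` and is the odometer computed in `up {C} (L+1)` -/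
theorem TS.ql_oc (T : TS D r) {C : Set V} (hC : T.Cn C) {t : ℕ} {a : V → ℕ} (ha : ∀ x ∈ T.o C, a x ≤ t) (j : ℕ) (P : (V → ℕ) → ℕ → Prop) :
    T.QL {C} t (fun G ζ => if P (rs (T.up {C} j) (T.oc C G a ζ)) (nz (gp G {C}) (T.oc C G a ζ)) then 1 else 0) := by
  refine ⟨⟨1, fun G ζ => ?_⟩, 0, fun L _ G hG ζ hζ hn => ?_⟩
  · dsimp only
    split_ifs <;> simp
  · dsimp only
    have h1 := t22_loc T hC ha hG hζ hn
    have h2 : nz (gp G {C}) (T.oc C G a ζ) = nz (gp (T.up {C} (L + 1)) {C}) (T.oc C G a ζ) := by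
      unfold nz
      congr 1
      ext z
      rw [Finset.mem_filter, Finset.mem_filter, t6_mem_gp, t6_mem_gp]
      constructor
      · rintro ⟨⟨hzG, hzC⟩, hpos⟩
        refine ⟨⟨?_, hzC⟩, hpos⟩
        by_contra hzu
        have hzL : z ∉ T.up {C} L := fun h => hzu (T.up_mono {C} (Nat.le_succ L) h)
        have := t22_supp T hC ha hG hζ hn hzL
        omega
      · rintro ⟨⟨hzu, hzC⟩, hpos⟩
        exact ⟨⟨hG hzu, hzC⟩, hpos⟩
    rw [h2, h1]

end Pool.Agent.Helper910.QT
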