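import Mathlib
import Pool.Agent.Helper910.T22
import Pool.Agent.Helper910.M3


/-! Cutting at a large part (MP_4555f0_mp) -/

namespace Pool.Agent.Helper910.QT

open Classical Finset Filter Topology

variable {V : Type*} {D : SimpleGraph V} [D.LocallyFinite] {r : ℕ}

/-- probability of the output `b` and the size `l` for the input `a` -/
noncomputable def TS.mg (T : TS D r) (C : Set V) (G : Finset V) (a b : V → ℕ) (l : ℕ) : ℝ :=
  pr D r (gp G {C}) (fun ζ => rs (T.ib C) (T.oc C G a ζ) = b ∧ nz (gp G {C}) (T.oc C G a ζ) = l)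

/-- total maximal weight in finite volume -/
noncomputable def TS.FM (T : TS D r) (C : Set V) (G : Finset V) (t : ℕ) (a : V → ℕ) (n : ℕ) : ℝ :=
  ∑ b ∈ bf (T.ib C) t, mx (fun l => wt l * T.mg C G a b l) n

/-! helper lemmas -/

omit [D.LocallyFinite] in
theorem t23_pr_nonneg {G : Finset V} (P : (V → ℕ) → Prop) : 0 ≤ pr D r G P := by
  unfold pr
  positivity

omit [D.LocallyFinite] in
theorem t23_pr_mono {S : Finset V} {P P' : (V → ℕ) → Prop} (h : ∀ ζ ∈ Rc D r S, P ζ → P' ζ) : pr D r S P ≤ pr D r S P' := by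
  unfold pr
  refine div_le_div_of_nonneg_right ?_ (Nat.cast_nonneg _)
  exact_mod_cast Finset.card_le_card (fun ζ hζ => by
    rw [Finset.mem_filter] at hζ ⊢
    exact ⟨hζ.1, h ζ hζ.1 hζ.2⟩)

omit [D.LocallyFinite] in
theorem t23_pr_le_one (S : Finset V) (P : (V → ℕ) → Prop) : pr D r S P ≤ 1 := by
  unfold pr
  refine div_le_one_of_le₀ ?_ (Nat.cast_nonneg _)
  exact_mod_cast Finset.card_filter_le _ _

/-- indicator of a proposition -/
noncomputable def t23_ind (p : Prop) : ℝ := if p then 1 else 0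

theorem t23_ind_pos {p : Prop} (h : p) : t23_ind p = 1 := if_pos h

theorem t23_ind_nonneg (p : Prop) : 0 ≤ t23_ind p := by
  unfold t23_ind
  split_ifs <;> norm_num

theorem t23_ind_neg {p : Prop} (h : ¬ p) : t23_ind p = 0 := if_neg h

omit [D.LocallyFinite] in
theorem t23_pr_ex {G : Finset V} (P : (V → ℕ) → Prop) : pr D r G P = ex D r G (fun ζ => t23_ind (P ζ)) := by
  unfold pr ex t23_ind
  rw [Finset.sum_boole]

omit [D.LocallyFinite] in
theorem t23_union {ι : Type*} {S : Finset V} (I : Finset ι) {P : (V → ℕ) → Prop} {P' : ι → (V → ℕ) → Prop}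
    (h : ∀ ζ ∈ Rc D r S, P ζ → ∃ i ∈ I, P' i ζ) : pr D r S P ≤ ∑ i ∈ I, pr D r S (P' i) := by
  unfold pr
  rw [← Finset.sum_div]
  refine div_le_div_of_nonneg_right ?_ (Nat.cast_nonneg _)
  have h1 : (Rc D r S).filter P ⊆ I.biUnion (fun i => (Rc D r S).filter (P' i)) := by
    intro ζ hζ
    rw [Finset.mem_filter] at hζ
    obtain ⟨i, hi, hP⟩ := h ζ hζ.1 hζ.2
    rw [Finset.mem_biUnion]
    exact ⟨i, hi, Finset.mem_filter.2 ⟨hζ.1, hP⟩⟩
  have h2 := (Finset.card_le_card h1).trans Finset.card_biUnion_le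
  exact_mod_cast h2

omit [D.LocallyFinite] in
theorem t23_disj {ι : Type*} {S : Finset V} (I : Finset ι) {P : (V → ℕ) → Prop} {P' : ι → (V → ℕ) → Prop}
    (h : ∀ i ∈ I, ∀ ζ ∈ Rc D r S, P' i ζ → P ζ) (hd : ∀ i ∈ I, ∀ j ∈ I, i ≠ j → ∀ ζ, P' i ζ → ¬ P' j ζ) :
    ∑ i ∈ I, pr D r S (P' i) ≤ pr D r S P := by
  unfold pr
  rw [← Finset.sum_div]
  refine div_le_div_of_nonneg_right ?_ (Nat.cast_nonneg _)
  have h1 : I.biUnion (fun i => (Rc D r S).filter (P' i)) ⊆ (Rc D r S).filter P := by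
    intro ζ hζ
    rw [Finset.mem_biUnion] at hζ
    obtain ⟨i, hi, hζ⟩ := hζ
    rw [Finset.mem_filter] at hζ ⊢
    exact ⟨hζ.1, h i hi ζ hζ.1 hζ.2⟩
  have h2 : (I.biUnion (fun i => (Rc D r S).filter (P' i))).card = ∑ i ∈ I, ((Rc D r S).filter (P' i)).card := by
    refine Finset.card_biUnion ?_
    intro i hi j hj hij
    show Disjoint _ _
    rw [Finset.disjoint_left]
    intro ζ h3 h4
    rw [Finset.mem_filter] at h3 h4
    exact hd i hi j hj hij ζ h3.2 h4.2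
  have h3 := Finset.card_le_card h1
  rw [h2] at h3
  exact_mod_cast h3

omit [D.LocallyFinite] in
theorem t23_ex_mono {G : Finset V} {f g : (V → ℕ) → ℝ} (h : ∀ ζ ∈ Rc D r G, f ζ ≤ g ζ) : ex D r G f ≤ ex D r G g := by
  unfold ex
  exact div_le_div_of_nonneg_right (Finset.sum_le_sum h) (Nat.cast_nonneg _)

omit [D.LocallyFinite] in
theorem t23_rs_congr {S : Finset V} {u v : V → ℕ} (h : ∀ z ∈ S, u z = v z) : rs S u = rs S v := by
  funext z
  by_cases hz : z ∈ S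
  · rw [rs_mem hz, rs_mem hz, h z hz]
  · rw [rs_notMem hz, rs_notMem hz]

omit [D.LocallyFinite] in
theorem t23_nz_congr {S : Finset V} {u v : V → ℕ} (h : ∀ z ∈ S, u z = v z) : nz S u = nz S v := by
  unfold nz
  congr 1
  apply Finset.filter_congr
  intro z hz
  rw [h z hz]

omit [D.LocallyFinite] in
theorem t23_rc_le {G : Finset V} {ζ : V → ℕ} (hζ : ζ ∈ Rc D r G) : ∀ z ∈ G, ζ z ≤ r :=
  fun z hz => ((mem_Rc.1 hζ).1.1 z hz).2

theorem t23_ib_notMem (T : TS D r) {C : Set V} (hC : T.Cn C) {l : ℕ} {A : Set V} (hA : A ∈ T.de {C} (l + 1)) {z : V}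
    (hz : z ∈ T.ib C) : z ∉ A := by
  have h1 : z ∈ T.Q C := (Finset.mem_filter.1 hz).1
  exact TS.t5c_Q_desc T hC (Nat.succ_ne_zero l) hA h1

theorem t23_ib_mem (T : TS D r) {A : Set V} (hA : T.Cn A) {z : V} (hz : z ∈ T.ib A) : z ∈ A :=
  TS.Q_sub T hA (Finset.mem_filter.1 hz).1

theorem t23_cn (T : TS D r) {C : Set V} (hC : T.Cn C) {j : ℕ} {A : Set V} (hA : A ∈ T.de {C} j) : T.Cn A :=
  (TS.Fo.de T (TS.fo_single T hC) j).cn A hA

theorem t23_rg_notMem {G : Finset V} {F : Finset (Set V)} {A : Set V} {z : V} (hz : z ∈ rg' G F A) : z ∉ A :=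
  (Finset.mem_filter.1 hz).2

theorem t23_mem_gp1 {G : Finset V} {C : Set V} {z : V} : z ∈ gp G {C} ↔ z ∈ G ∧ z ∈ C := t7_mem_gp1

theorem t23_oc_le (T : TS D r) {C : Set V} (hC : T.Cn C) (G : Finset V) {t : ℕ} {a : V → ℕ} (ha : ∀ x ∈ T.o C, a x ≤ t)
    {ζ : V → ℕ} (hζ : ζ ∈ Rc D r (gp G {C})) (z : V) : T.oc C G a ζ z ≤ t :=
  od_le_t (TS.inb_oc T hC G ha) (t23_rc_le hζ) z

omit [D.LocallyFinite] in
theorem t23_rs_bf {S : Finset V} {t : ℕ} {u : V → ℕ} (h : ∀ z, u z ≤ t) : rs S u ∈ bf S t := by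
  rw [mem_bf]
  refine ⟨fun z hz => ?_, fun z hz => rs_notMem hz⟩
  rw [rs_mem hz]
  exact h z

/-- TARGET. joint law at a cone: `A ∈ de {C} (l+1)`; the configuration off `A` and the one in `A` (`oc_in`, `oc_out`, `two_le`): for every event `Ev` of the configuration off `A` (possibly depending on the input and output `a', b'` of `A`) -/
theorem TS.joint (T : TS D r) {C : Set V} (hC : T.Cn C) (G : Finset V) {l t : ℕ} {A : Set V} (hA : A ∈ T.de {C} (l + 1)) {a : V → ℕ} (ha : ∀ x ∈ T.o C, a x ≤ t)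
    (Ev : (V → ℕ) → Prop) {a' b' : V → ℕ} (ha' : a' ∈ bf (T.o A) t) (hb' : b' ∈ bf (T.ib A) t) (b : V → ℕ) (s k : ℕ) :
    pr D r (gp G {C}) (fun ζ => rs (T.ib C) (T.oc C G a ζ) = b ∧ nz (rg' G {C} A) (T.oc C G a ζ) = s ∧ rs (T.o A) (T.oc C G a ζ) = a' ∧ rs (T.ib A) (T.oc C G a ζ) = b' ∧
        nz (gp G {A}) (T.oc C G a ζ) = k ∧ Ev (rs (rg' G {C} A) ζ)) ≤
      T.c0⁻¹ * (pr D r (rg' G {C} A) (fun ξ => rs (T.ib C) (T.ox C G A a b' ξ) = b ∧ nz (rg' G {C} A) (T.ox C G A a b' ξ) = s ∧ rs (T.o A) (T.ox C G A a b' ξ) = a' ∧ Ev ξ) *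
        T.mg A G a' b' k) := by
  have hcA := t23_cn T hC hA
  set h1 : (V → ℕ) → ℝ := fun ξ => t23_ind (rs (T.ib C) (T.ox C G A a b' ξ) = b ∧ nz (rg' G {C} A) (T.ox C G A a b' ξ) = s ∧ rs (T.o A) (T.ox C G A a b' ξ) = a' ∧ Ev ξ) with hh1
  set h2 : (V → ℕ) → ℝ := fun η => t23_ind (rs (T.ib A) (T.oc A G a' η) = b' ∧ nz (gp G {A}) (T.oc A G a' η) = k) with hh2
  have key := TS.two_le T (TS.fo_single T hC) hA G h1 h2 (fun ζ => t23_ind_nonneg _)
    (fun ζ => t23_ind_nonneg _)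
  have e1 : ex D r ((gp G {C}).filter (fun z => z ∉ A)) h1 = pr D r (rg' G {C} A) (fun ξ => rs (T.ib C) (T.ox C G A a b' ξ) = b ∧ nz (rg' G {C} A) (T.ox C G A a b' ξ) = s ∧ rs (T.o A) (T.ox C G A a b' ξ) = a' ∧ Ev ξ) := by
    rw [t23_pr_ex]
    rfl
  have e2 : ex D r (gp G {A}) h2 = T.mg A G a' b' k := by
    unfold TS.mg
    rw [t23_pr_ex]
  rw [e1, e2] at key
  refine le_trans ?_ key
  rw [t23_pr_ex]
  apply t23_ex_mono
  intro ζ hζ
  by_cases hE : rs (T.ib C) (T.oc C G a ζ) = b ∧ nz (rg' G {C} A) (T.oc C G a ζ) = s ∧ rs (T.o A) (T.oc C G a ζ) = a' ∧ rs (T.ib A) (T.oc C G a ζ) = b' ∧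
        nz (gp G {A}) (T.oc C G a ζ) = k ∧ Ev (rs (rg' G {C} A) ζ)
  · rw [t23_ind_pos hE]
    obtain ⟨p1, p2, p3, p4, p5, p6⟩ := hE
    have o1 : ∀ z, z ∉ A → T.oc C G a ζ z = T.ox C G A a b' (rs (rg' G {C} A) ζ) z := by
      intro z hz
      rw [TS.oc_out T hC G hA ha hζ hz, p4]
    have o2 : ∀ z, z ∈ A → T.oc C G a ζ z = T.oc A G a' (rs (gp G {A}) ζ) z := by
      intro z hz
      rw [TS.oc_in T hC G hA ha hζ hz, p3]
    have q1 : h1 (rs ((gp G {C}).filter (fun z => z ∉ A)) ζ) = 1 := by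
      refine t23_ind_pos ⟨?_, ?_, ?_, p6⟩
      · rw [← p1]
        exact (t23_rs_congr (fun z hz => o1 z (t23_ib_notMem T hC hA hz))).symm
      · rw [← p2]
        exact (t23_nz_congr (fun z hz => o1 z (t23_rg_notMem hz))).symm
      · rw [← p3]
        exact (t23_rs_congr (fun z hz => o1 z (TS.o_notMem T hcA hz))).symm
    have q2 : h2 (rs (gp G {A}) ζ) = 1 := by
      refine t23_ind_pos ⟨?_, ?_⟩
      · rw [← p4]
        exact (t23_rs_congr (fun z hz => o2 z (t23_ib_mem T hcA hz))).symm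
      · rw [← p5]
        exact (t23_nz_congr (fun z hz => o2 z (t23_mem_gp1.1 hz).2)).symm
    rw [q1, q2]
    norm_num
  · rw [t23_ind_neg hE]
    exact mul_nonneg (t23_ind_nonneg _) (t23_ind_nonneg _)

theorem t23_nz_split (T : TS D r) {C : Set V} (hC : T.Cn C) (G : Finset V) {l : ℕ} {A : Set V} (hA : A ∈ T.de {C} (l + 1)) (u : V → ℕ) :
    nz (gp G {C}) u = nz (rg' G {C} A) u + nz (gp G {A}) u := by
  unfold nz
  rw [← Finset.card_union_of_disjoint]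
  · congr 1
    ext z
    rw [Finset.mem_union, Finset.mem_filter, Finset.mem_filter, Finset.mem_filter, t23_mem_gp1, t23_mem_gp1]
    unfold rg'
    rw [Finset.mem_filter, t23_mem_gp1]
    have hsub := TS.de_single_sub T hC hA
    constructor
    · rintro ⟨⟨h1, h2⟩, h3⟩
      by_cases hz : z ∈ A
      · exact Or.inr ⟨⟨h1, hz⟩, h3⟩
      · exact Or.inl ⟨⟨⟨h1, h2⟩, hz⟩, h3⟩
    · rintro (⟨⟨h1, h2⟩, h3⟩ | ⟨h1, h2⟩)
      · exact ⟨h1, h3⟩
      · exact ⟨⟨h1.1, hsub h1.2⟩, h2⟩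
  · rw [Finset.disjoint_left]
    intro z h1 h2
    rw [Finset.mem_filter] at h1 h2
    exact t23_rg_notMem h1.1 (t23_mem_gp1.1 h2.1).2

theorem t23_mx_le {f : ℕ → ℝ} {n : ℕ} {c : ℝ} (hc : 0 ≤ c) (h : ∀ l, 1 ≤ l → l ≤ n → f l ≤ c) : mx f n ≤ c := by
  rcases mx_eq f n with h1 | ⟨l, h1, h2, h3⟩
  · rw [h1]; exact hc
  · rw [h3]; exact h l h1 h2

/-- TARGET. THE CUT. Let `κ ≥ 1`. For fixed `b` and `l`, sum `joint` over `a', b'` and over `k` with `l ≤ κ k` (`s = l - k`): `wt l ≤ κ sqrt κ wt k` (`m3_wt_le`), `wt k · mg A G a' b' k ≤ mx (..) n`, and the sum over `k` of the remaining probabilities is at most the probability without the condition on the number of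
toppled vertices; then the maximum over `l ≤ n` is bounded by the sum over `b'` of products, and the sum over `b` of `pr (rg') (rs (ib C) ox = b ∧ rs (o A) ox = a' ∧ Ev)` is at most `q a'`. -/
theorem TS.cut (T : TS D r) {C : Set V} (hC : T.Cn C) (G : Finset V) {l t : ℕ} {A : Set V} (hA : A ∈ T.de {C} (l + 1)) {a : V → ℕ} (ha : ∀ x ∈ T.o C, a x ≤ t)
    (Ev : (V → ℕ) → (V → ℕ) → (V → ℕ) → Prop) (q : (V → ℕ) → ℝ) (κ : ℝ) (hκ : 1 ≤ κ)
    (hq : ∀ a' ∈ bf (T.o A) t, ∀ b' ∈ bf (T.ib A) t, pr D r (rg' G {C} A) (fun ξ => rs (T.o A) (T.ox C G A a b' ξ) = a' ∧ Ev a' b' ξ) ≤ q a') (n : ℕ) :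
    ∑ b ∈ bf (T.ib C) t, mx (fun l => wt l * pr D r (gp G {C}) (fun ζ => rs (T.ib C) (T.oc C G a ζ) = b ∧ nz (gp G {C}) (T.oc C G a ζ) = l ∧
        (l : ℝ) ≤ κ * nz (gp G {A}) (T.oc C G a ζ) ∧ Ev (rs (T.o A) (T.oc C G a ζ)) (rs (T.ib A) (T.oc C G a ζ)) (rs (rg' G {C} A) ζ))) n ≤
      T.c0⁻¹ * (κ * Real.sqrt κ) * ∑ a' ∈ bf (T.o A) t, q a' * T.FM A G t a' n := by
  have hcA := t23_cn T hC hA
  have hκ0 : 0 < κ := by linarith
  have hc0 : 0 ≤ T.c0⁻¹ := inv_nonneg.2 T.c0_pos.le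
  have hκs : 0 ≤ κ * Real.sqrt κ := by positivity
  -- the maximum for `A`
  set mA : (V → ℕ) → (V → ℕ) → ℝ := fun a' b' => mx (fun l => wt l * T.mg A G a' b' l) n with hmA
  have hmA0 : ∀ a' b', 0 ≤ mA a' b' := fun a' b' => mx_nonneg _ _
  -- one value of `b`
  have step : ∀ b, mx (fun l => wt l * pr D r (gp G {C}) (fun ζ => rs (T.ib C) (T.oc C G a ζ) = b ∧ nz (gp G {C}) (T.oc C G a ζ) = l ∧
        (l : ℝ) ≤ κ * nz (gp G {A}) (T.oc C G a ζ) ∧ Ev (rs (T.o A) (T.oc C G a ζ)) (rs (T.ib A) (T.oc C G a ζ)) (rs (rg' G {C} A) ζ))) n ≤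
      ∑ a' ∈ bf (T.o A) t, ∑ b' ∈ bf (T.ib A) t, T.c0⁻¹ * (κ * Real.sqrt κ) * (mA a' b' *
        pr D r (rg' G {C} A) (fun ξ => rs (T.ib C) (T.ox C G A a b' ξ) = b ∧ rs (T.o A) (T.ox C G A a b' ξ) = a' ∧ Ev a' b' ξ)) := by
    intro b
    have hnn : 0 ≤ ∑ a' ∈ bf (T.o A) t, ∑ b' ∈ bf (T.ib A) t, T.c0⁻¹ * (κ * Real.sqrt κ) * (mA a' b' *
        pr D r (rg' G {C} A) (fun ξ => rs (T.ib C) (T.ox C G A a b' ξ) = b ∧ rs (T.o A) (T.ox C G A a b' ξ) = a' ∧ Ev a' b' ξ)) :=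
      Finset.sum_nonneg fun a' _ => Finset.sum_nonneg fun b' _ =>
        mul_nonneg (mul_nonneg hc0 hκs) (mul_nonneg (hmA0 a' b') (t23_pr_nonneg _))
    refine t23_mx_le hnn ?_
    intro L hL1 hLn
    -- the union over the inputs, the outputs and the sizes in `A`
    have u1 : pr D r (gp G {C}) (fun ζ => rs (T.ib C) (T.oc C G a ζ) = b ∧ nz (gp G {C}) (T.oc C G a ζ) = L ∧
        (L : ℝ) ≤ κ * nz (gp G {A}) (T.oc C G a ζ) ∧ Ev (rs (T.o A) (T.oc C G a ζ)) (rs (T.ib A) (T.oc C G a ζ)) (rs (rg' G {C} A) ζ)) ≤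
        ∑ x ∈ (bf (T.o A) t ×ˢ bf (T.ib A) t) ×ˢ ((range (L + 1)).filter (fun k : ℕ => (L : ℝ) ≤ κ * (k : ℝ))),
          pr D r (gp G {C}) (fun ζ => rs (T.ib C) (T.oc C G a ζ) = b ∧ nz (rg' G {C} A) (T.oc C G a ζ) = L - x.2 ∧
            rs (T.o A) (T.oc C G a ζ) = x.1.1 ∧ rs (T.ib A) (T.oc C G a ζ) = x.1.2 ∧
            nz (gp G {A}) (T.oc C G a ζ) = x.2 ∧ Ev x.1.1 x.1.2 (rs (rg' G {C} A) ζ)) := by
      refine t23_union _ ?_
      intro ζ hζ h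
      obtain ⟨p1, p2, p3, p4⟩ := h
      have h5 := t23_nz_split T hC G hA (T.oc C G a ζ)
      refine ⟨((rs (T.o A) (T.oc C G a ζ), rs (T.ib A) (T.oc C G a ζ)), nz (gp G {A}) (T.oc C G a ζ)), ?_, p1, ?_, rfl, rfl, rfl, p4⟩
      · rw [Finset.mem_product, Finset.mem_product, Finset.mem_filter, Finset.mem_range]
        refine ⟨⟨t23_rs_bf (t23_oc_le T hC G ha hζ), t23_rs_bf (t23_oc_le T hC G ha hζ)⟩, ?_, p3⟩
        dsimp only
        omega
      · dsimp only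
        omega
    have u2 : ∀ x ∈ (bf (T.o A) t ×ˢ bf (T.ib A) t) ×ˢ ((range (L + 1)).filter (fun k : ℕ => (L : ℝ) ≤ κ * (k : ℝ))),
        wt L * pr D r (gp G {C}) (fun ζ => rs (T.ib C) (T.oc C G a ζ) = b ∧ nz (rg' G {C} A) (T.oc C G a ζ) = L - x.2 ∧
            rs (T.o A) (T.oc C G a ζ) = x.1.1 ∧ rs (T.ib A) (T.oc C G a ζ) = x.1.2 ∧
            nz (gp G {A}) (T.oc C G a ζ) = x.2 ∧ Ev x.1.1 x.1.2 (rs (rg' G {C} A) ζ)) ≤
          T.c0⁻¹ * (κ * Real.sqrt κ) * (mA x.1.1 x.1.2 *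
            pr D r (rg' G {C} A) (fun ξ => rs (T.ib C) (T.ox C G A a x.1.2 ξ) = b ∧ nz (rg' G {C} A) (T.ox C G A a x.1.2 ξ) = L - x.2 ∧
              rs (T.o A) (T.ox C G A a x.1.2 ξ) = x.1.1 ∧ Ev x.1.1 x.1.2 ξ)) := by
      rintro ⟨⟨a', b'⟩, k⟩ hx
      rw [Finset.mem_product, Finset.mem_product, Finset.mem_filter, Finset.mem_range] at hx
      obtain ⟨⟨hx1, hx2⟩, hx3, hx4⟩ := hx
      dsimp only at hx1 hx2 hx3 hx4 ⊢
      have j := TS.joint T hC G hA ha (Ev a' b') hx1 hx2 b (L - k) k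
      have hk1 : 1 ≤ k := by
        by_contra hk
        have : k = 0 := by omega
        rw [this, Nat.cast_zero, mul_zero] at hx4
        have : (1 : ℝ) ≤ L := by exact_mod_cast hL1
        linarith
      have hkn : k ≤ n := by omega
      have hw := m3_wt_le hκ0 hx4
      have hm : wt k * T.mg A G a' b' k ≤ mA a' b' := le_mx (fun l => wt l * T.mg A G a' b' l) hk1 hkn
      have hmg0 : 0 ≤ T.mg A G a' b' k := t23_pr_nonneg _
      set p := pr D r (rg' G {C} A) (fun ξ => rs (T.ib C) (T.ox C G A a b' ξ) = b ∧ nz (rg' G {C} A) (T.ox C G A a b' ξ) = L - k ∧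
              rs (T.o A) (T.ox C G A a b' ξ) = a' ∧ Ev a' b' ξ) with hp
      have hp0 : 0 ≤ p := t23_pr_nonneg _
      have hwL : 0 ≤ wt L := m3_wt_nonneg L
      calc _ ≤ wt L * (T.c0⁻¹ * (p * T.mg A G a' b' k)) := mul_le_mul_of_nonneg_left j hwL
        _ ≤ (κ * Real.sqrt κ * wt k) * (T.c0⁻¹ * (p * T.mg A G a' b' k)) :=
          mul_le_mul_of_nonneg_right hw (mul_nonneg hc0 (mul_nonneg hp0 hmg0))
        _ = T.c0⁻¹ * (κ * Real.sqrt κ) * ((wt k * T.mg A G a' b' k) * p) := by ring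
        _ ≤ T.c0⁻¹ * (κ * Real.sqrt κ) * (mA a' b' * p) :=
          mul_le_mul_of_nonneg_left (mul_le_mul_of_nonneg_right hm hp0) (mul_nonneg hc0 hκs)
    calc _ ≤ wt L * ∑ x ∈ (bf (T.o A) t ×ˢ bf (T.ib A) t) ×ˢ ((range (L + 1)).filter (fun k : ℕ => (L : ℝ) ≤ κ * (k : ℝ))),
          pr D r (gp G {C}) (fun ζ => rs (T.ib C) (T.oc C G a ζ) = b ∧ nz (rg' G {C} A) (T.oc C G a ζ) = L - x.2 ∧
            rs (T.o A) (T.oc C G a ζ) = x.1.1 ∧ rs (T.ib A) (T.oc C G a ζ) = x.1.2 ∧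
            nz (gp G {A}) (T.oc C G a ζ) = x.2 ∧ Ev x.1.1 x.1.2 (rs (rg' G {C} A) ζ)) :=
          mul_le_mul_of_nonneg_left u1 (m3_wt_nonneg L)
      _ ≤ ∑ x ∈ (bf (T.o A) t ×ˢ bf (T.ib A) t) ×ˢ ((range (L + 1)).filter (fun k : ℕ => (L : ℝ) ≤ κ * (k : ℝ))),
          T.c0⁻¹ * (κ * Real.sqrt κ) * (mA x.1.1 x.1.2 *
            pr D r (rg' G {C} A) (fun ξ => rs (T.ib C) (T.ox C G A a x.1.2 ξ) = b ∧ nz (rg' G {C} A) (T.ox C G A a x.1.2 ξ) = L - x.2 ∧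
              rs (T.o A) (T.ox C G A a x.1.2 ξ) = x.1.1 ∧ Ev x.1.1 x.1.2 ξ)) := by
          rw [Finset.mul_sum]
          exact Finset.sum_le_sum u2
      _ = ∑ a' ∈ bf (T.o A) t, ∑ b' ∈ bf (T.ib A) t, ∑ k ∈ (range (L + 1)).filter (fun k : ℕ => (L : ℝ) ≤ κ * (k : ℝ)),
          T.c0⁻¹ * (κ * Real.sqrt κ) * (mA a' b' *
            pr D r (rg' G {C} A) (fun ξ => rs (T.ib C) (T.ox C G A a b' ξ) = b ∧ nz (rg' G {C} A) (T.ox C G A a b' ξ) = L - k ∧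
              rs (T.o A) (T.ox C G A a b' ξ) = a' ∧ Ev a' b' ξ)) := by
          rw [Finset.sum_product, Finset.sum_product]
      _ ≤ _ := by
          refine Finset.sum_le_sum fun a' ha' => Finset.sum_le_sum fun b' hb' => ?_
          rw [← Finset.mul_sum, ← Finset.mul_sum]
          refine mul_le_mul_of_nonneg_left (mul_le_mul_of_nonneg_left ?_ (hmA0 a' b')) (mul_nonneg hc0 hκs)
          refine t23_disj _ ?_ ?_
          · intro k _ ξ _ h
            exact ⟨h.1, h.2.2.1, h.2.2.2⟩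
          · intro k hk k' hk' hne ξ h h'
            rw [Finset.mem_filter, Finset.mem_range] at hk hk'
            have h3 := h.2.1
            have h4 := h'.2.1
            omega
  calc _ ≤ ∑ b ∈ bf (T.ib C) t, ∑ a' ∈ bf (T.o A) t, ∑ b' ∈ bf (T.ib A) t, T.c0⁻¹ * (κ * Real.sqrt κ) * (mA a' b' *
        pr D r (rg' G {C} A) (fun ξ => rs (T.ib C) (T.ox C G A a b' ξ) = b ∧ rs (T.o A) (T.ox C G A a b' ξ) = a' ∧ Ev a' b' ξ)) :=
        Finset.sum_le_sum fun b _ => step b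
    _ = ∑ a' ∈ bf (T.o A) t, ∑ b' ∈ bf (T.ib A) t, T.c0⁻¹ * (κ * Real.sqrt κ) * (mA a' b' * ∑ b ∈ bf (T.ib C) t,
        pr D r (rg' G {C} A) (fun ξ => rs (T.ib C) (T.ox C G A a b' ξ) = b ∧ rs (T.o A) (T.ox C G A a b' ξ) = a' ∧ Ev a' b' ξ)) := by
        rw [Finset.sum_comm]
        refine Finset.sum_congr rfl fun a' _ => ?_
        rw [Finset.sum_comm]
        refine Finset.sum_congr rfl fun b' _ => ?_
        rw [Finset.mul_sum, Finset.mul_sum]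
    _ ≤ ∑ a' ∈ bf (T.o A) t, ∑ b' ∈ bf (T.ib A) t, T.c0⁻¹ * (κ * Real.sqrt κ) * (mA a' b' * q a') := by
        refine Finset.sum_le_sum fun a' ha' => Finset.sum_le_sum fun b' hb' => ?_
        refine mul_le_mul_of_nonneg_left (mul_le_mul_of_nonneg_left ?_ (hmA0 a' b')) (mul_nonneg hc0 hκs)
        refine le_trans (t23_disj _ ?_ ?_) (hq a' ha' b' hb')
        · intro b _ ξ _ h
          exact ⟨h.2.1, h.2.2⟩
        · intro b _ b2 _ hne ξ h h'
          exact hne (h.1.symm.trans h'.1)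
    _ = _ := by
        rw [Finset.mul_sum]
        refine Finset.sum_congr rfl fun a' _ => ?_
        unfold TS.FM
        rw [Finset.mul_sum, Finset.mul_sum]
        refine Finset.sum_congr rfl fun b' _ => ?_
        rw [hmA]
        ring

theorem t23_nz_up (T : TS D r) {C : Set V} (hC : T.Cn C) (G : Finset V) (l : ℕ) (u : V → ℕ) :
    nz (gp G {C}) u ≤ (T.up {C} (l + 1)).card + ∑ A ∈ T.de {C} (l + 1), nz (gp G {A}) u := by
  have h1 : (gp G {C}).filter (fun z => 0 < u z) ⊆ T.up {C} (l + 1) ∪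
      (T.de {C} (l + 1)).biUnion (fun A => (gp G {A}).filter (fun z => 0 < u z)) := by
    intro z hz
    rw [Finset.mem_filter, TS.mem_gp, TS.mem_fs_iff T (TS.fo_single T hC) (l + 1)] at hz
    obtain ⟨⟨h2, h3⟩, h4⟩ := hz
    rw [Finset.mem_union]
    rcases h3 with h3 | h3
    · exact Or.inl h3
    · obtain ⟨A, hA, hzA⟩ := h3
      refine Or.inr (Finset.mem_biUnion.2 ⟨A, hA, Finset.mem_filter.2 ⟨t23_mem_gp1.2 ⟨h2, hzA⟩, h4⟩⟩)
  unfold nz
  exact (Finset.card_le_card h1).trans ((Finset.card_union_le _ _).trans (Nat.add_le_add_left Finset.card_biUnion_le _))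

/-- TARGET. the case distinction: `N = m^(l+1)`, `u = |up {C} (l+1)| ≤ (l+1) N`. If `nz (gp G {C}) = s ≥ 2 (u + N (M+1))`, let `A` be the cone of generation `l + 1` with the largest number of toppled vertices; either `s ≤ 2 nz (gp G {A})`, or `s ≤ 2 N nz (gp G {A})` and some `B ≠ A` has at least `M` toppled vertices
(computed with `ox` by `oc_out`) -/
theorem TS.cases_AB (T : TS D r) {C : Set V} (hC : T.Cn C) (G : Finset V) {l t : ℕ} {a : V → ℕ} (ha : ∀ x ∈ T.o C, a x ≤ t) {ζ : V → ℕ} (hζ : ζ ∈ Rc D r (gp G {C})) (M : ℕ)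
    (hs : 2 * ((l + 1) * T.m ^ (l + 1) + T.m ^ (l + 1) * (M + 1)) ≤ nz (gp G {C}) (T.oc C G a ζ)) :
    ∃ A ∈ T.de {C} (l + 1), (nz (gp G {C}) (T.oc C G a ζ) : ℝ) ≤ 2 * nz (gp G {A}) (T.oc C G a ζ) ∨
      ((nz (gp G {C}) (T.oc C G a ζ) : ℝ) ≤ 2 * (T.m : ℝ) ^ (l + 1) * nz (gp G {A}) (T.oc C G a ζ) ∧
        ∃ B ∈ T.de {C} (l + 1), B ≠ A ∧ M ≤ nz (gp G {B}) (T.ox C G A a (rs (T.ib A) (T.oc C G a ζ)) (rs (rg' G {C} A) ζ))) := by
  have hF := TS.fo_single T hC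
  set u := T.oc C G a ζ with hu
  set N := T.m ^ (l + 1) with hN
  have hm2 : 2 ≤ T.m := TS.one_le_m T hC
  have hN1 : 1 ≤ N := Nat.one_le_pow _ _ (by omega)
  have hup : (T.up {C} (l + 1)).card ≤ (l + 1) * N := by
    have := TS.up_card T hF (l + 1)
    rwa [Finset.card_singleton, one_mul] at this
  have hde : (T.de {C} (l + 1)).card ≤ N := by
    have := TS.de_card T hF (l + 1)
    rwa [Finset.card_singleton, one_mul] at this
  have hsum := t23_nz_up T hC G l u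
  set s := nz (gp G {C}) u with hsdef
  have hMN : N ≤ N * (M + 1) := Nat.le_mul_of_pos_right _ (Nat.succ_pos _)
  have hne : (T.de {C} (l + 1)).Nonempty := by
    rw [Finset.nonempty_iff_ne_empty]
    intro h0
    rw [h0, Finset.sum_empty] at hsum
    omega
  obtain ⟨A, hA, hmax⟩ := Finset.exists_max_image (T.de {C} (l + 1)) (fun A => nz (gp G {A}) u) hne
  refine ⟨A, hA, ?_⟩
  by_cases h2 : s ≤ 2 * nz (gp G {A}) u
  · left
    exact_mod_cast h2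
  · right
    rw [not_le] at h2
    constructor
    · have h3 : ∑ B ∈ T.de {C} (l + 1), nz (gp G {B}) u ≤ (T.de {C} (l + 1)).card * nz (gp G {A}) u := by
        have := Finset.sum_le_card_nsmul (T.de {C} (l + 1)) (fun A => nz (gp G {A}) u) _ hmax
        rwa [smul_eq_mul] at this
      have h4 : (T.de {C} (l + 1)).card * nz (gp G {A}) u ≤ N * nz (gp G {A}) u := Nat.mul_le_mul_right _ hde
      have h5 : s ≤ 2 * (N * nz (gp G {A}) u) := by omega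
      have h6 : (s : ℝ) ≤ 2 * ((N : ℝ) * (nz (gp G {A}) u : ℝ)) := by exact_mod_cast h5
      rw [hN, Nat.cast_pow] at h6
      linarith
    · by_contra hcon
      push Not at hcon
      have h3 : ∀ B ∈ (T.de {C} (l + 1)).erase A, nz (gp G {B}) u ≤ M := by
        intro B hB
        rw [Finset.mem_erase] at hB
        have h4 := hcon B hB.2 hB.1
        have h5 : nz (gp G {B}) u = nz (gp G {B}) (T.ox C G A a (rs (T.ib A) (T.oc C G a ζ)) (rs (rg' G {C} A) ζ)) := by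
          refine t23_nz_congr ?_
          intro z hz
          have hzB := (t23_mem_gp1.1 hz).2
          have hzA : z ∉ A := fun hzA =>
            Set.disjoint_left.1 ((TS.Fo.de T hF (l + 1)).disj B hB.2 A hA hB.1) hzB hzA
          exact TS.oc_out T hC G hA ha hζ hzA
        rw [h5]
        exact h4.le
      have h6 : ∑ B ∈ T.de {C} (l + 1), nz (gp G {B}) u = nz (gp G {A}) u + ∑ B ∈ (T.de {C} (l + 1)).erase A, nz (gp G {B}) u :=
        (Finset.add_sum_erase _ _ hA).symm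
      have h7 : ∑ B ∈ (T.de {C} (l + 1)).erase A, nz (gp G {B}) u ≤ ((T.de {C} (l + 1)).erase A).card * M := by
        have := Finset.sum_le_card_nsmul ((T.de {C} (l + 1)).erase A) (fun A => nz (gp G {A}) u) _ h3
        rwa [smul_eq_mul] at this
      have h8 : ((T.de {C} (l + 1)).erase A).card * M ≤ N * (M + 1) :=
        Nat.mul_le_mul ((Finset.card_erase_le).trans hde) (Nat.le_succ M)
      omega

omit [D.LocallyFinite] in
theorem t23_pr_or {S : Finset V} (P P' : (V → ℕ) → Prop) : pr D r S (fun ζ => P ζ ∨ P' ζ) ≤ pr D r S P + pr D r S P' := by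
  have h := t23_union (D := D) (r := r) (S := S) (Finset.univ : Finset Bool) (P := fun ζ => P ζ ∨ P' ζ)
    (P' := fun i ζ => if i = true then P ζ else P' ζ) (by
      intro ζ _ h
      rcases h with h | h
      · exact ⟨true, Finset.mem_univ _, by simpa using h⟩
      · exact ⟨false, Finset.mem_univ _, by simpa using h⟩)
  refine h.trans (le_of_eq ?_)
  rw [Fintype.sum_bool]
  simp

omit [D.LocallyFinite] in
theorem t23_union2 {ι : Type*} {S : Finset V} (I : Finset ι) {P : (V → ℕ) → Prop} {P1 P2 : ι → (V → ℕ) → Prop}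
    (h : ∀ ζ ∈ Rc D r S, P ζ → ∃ i ∈ I, P1 i ζ ∨ P2 i ζ) :
    pr D r S P ≤ ∑ i ∈ I, pr D r S (P1 i) + ∑ i ∈ I, pr D r S (P2 i) := by
  rw [← Finset.sum_add_distrib]
  exact (t23_union I (P' := fun i ζ => P1 i ζ ∨ P2 i ζ) h).trans (Finset.sum_le_sum fun i _ => t23_pr_or _ _)

/-- TARGET. FINITE VOLUME RECURSION, `t ≥ 2`: sizes `< l0 := 2((l+1) N + N (M+1))` contribute at most `wt l0` in total; the others by `cases_AB` and `cut` with (`κ = 2`, `Ev a' b' ξ :=` (some `a' x = t`) implies `tw {C} G ξ A`; `tw_of_max`) and (`κ = 2N`, `Ev a' b' ξ :=` the event of `B`) -/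
theorem TS.fin_rec (T : TS D r) {C : Set V} (hC : T.Cn C) (G : Finset V) {l t : ℕ} (ht : 2 ≤ t) {a : V → ℕ} (ha : ∀ x ∈ T.o C, a x ≤ t) (M n : ℕ) (q2 : ℝ)
    (hq2 : ∀ A ∈ T.de {C} (l + 1), ∀ b' ∈ bf (T.ib A) t, pr D r (rg' G {C} A) (fun ξ => ∃ B ∈ T.de {C} (l + 1), B ≠ A ∧ M ≤ nz (gp G {B}) (T.ox C G A a b' ξ)) ≤ q2) :
    T.FM C G t a n ≤ wt (2 * ((l + 1) * T.m ^ (l + 1) + T.m ^ (l + 1) * (M + 1))) +
      T.c0⁻¹ * (2 * Real.sqrt 2) * ∑ A ∈ T.de {C} (l + 1), ∑ a' ∈ bf (T.o A) t,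
        (if ∃ x ∈ T.o A, a' x = t then pr D r (rg' G {C} A) (fun ξ => T.tw {C} G ξ A) else 1) * T.FM A G t a' n +
      T.c0⁻¹ * ((2 * (T.m : ℝ) ^ (l + 1)) * Real.sqrt (2 * (T.m : ℝ) ^ (l + 1))) * ∑ A ∈ T.de {C} (l + 1), ∑ a' ∈ bf (T.o A) t, q2 * T.FM A G t a' n := by
  set l0 := 2 * ((l + 1) * T.m ^ (l + 1) + T.m ^ (l + 1) * (M + 1)) with hl0
  have hm2 : 2 ≤ T.m := TS.one_le_m T hC
  have hmN : (1 : ℝ) ≤ 2 * (T.m : ℝ) ^ (l + 1) := by
    have h1 : (1 : ℝ) ≤ (T.m : ℝ) := by exact_mod_cast (by omega : 1 ≤ T.m)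
    have h2 : (1 : ℝ) ≤ (T.m : ℝ) ^ (l + 1) := one_le_pow₀ h1
    linarith
  -- the two families of events
  set Ev1 : Set V → (V → ℕ) → (V → ℕ) → (V → ℕ) → Prop := fun A a' _ ξ => (∃ x ∈ T.o A, a' x = t) → T.tw {C} G ξ A with hEv1
  set Ev2 : Set V → (V → ℕ) → (V → ℕ) → (V → ℕ) → Prop := fun A _ b' ξ =>
    ∃ B ∈ T.de {C} (l + 1), B ≠ A ∧ M ≤ nz (gp G {B}) (T.ox C G A a b' ξ) with hEv2
  set f1 : Set V → (V → ℕ) → ℕ → ℝ := fun A b L => wt L * pr D r (gp G {C}) (fun ζ => rs (T.ib C) (T.oc C G a ζ) = b ∧ nz (gp G {C}) (T.oc C G a ζ) = L ∧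
        (L : ℝ) ≤ 2 * nz (gp G {A}) (T.oc C G a ζ) ∧ Ev1 A (rs (T.o A) (T.oc C G a ζ)) (rs (T.ib A) (T.oc C G a ζ)) (rs (rg' G {C} A) ζ)) with hf1
  set f2 : Set V → (V → ℕ) → ℕ → ℝ := fun A b L => wt L * pr D r (gp G {C}) (fun ζ => rs (T.ib C) (T.oc C G a ζ) = b ∧ nz (gp G {C}) (T.oc C G a ζ) = L ∧
        (L : ℝ) ≤ (2 * (T.m : ℝ) ^ (l + 1)) * nz (gp G {A}) (T.oc C G a ζ) ∧ Ev2 A (rs (T.o A) (T.oc C G a ζ)) (rs (T.ib A) (T.oc C G a ζ)) (rs (rg' G {C} A) ζ)) with hf2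
  have step : ∀ b, mx (fun L => wt L * T.mg C G a b L) n ≤ wt l0 * pr D r (gp G {C}) (fun ζ => rs (T.ib C) (T.oc C G a ζ) = b) +
      ∑ A ∈ T.de {C} (l + 1), mx (f1 A b) n + ∑ A ∈ T.de {C} (l + 1), mx (f2 A b) n := by
    intro b
    have n0 : 0 ≤ wt l0 * pr D r (gp G {C}) (fun ζ => rs (T.ib C) (T.oc C G a ζ) = b) := mul_nonneg (m3_wt_nonneg _) (t23_pr_nonneg _)
    have n1 : 0 ≤ ∑ A ∈ T.de {C} (l + 1), mx (f1 A b) n := Finset.sum_nonneg fun A _ => mx_nonneg _ _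
    have n2 : 0 ≤ ∑ A ∈ T.de {C} (l + 1), mx (f2 A b) n := Finset.sum_nonneg fun A _ => mx_nonneg _ _
    refine t23_mx_le (add_nonneg (add_nonneg n0 n1) n2) ?_
    intro L hL1 hLn
    by_cases hL : L < l0
    · have h1 : wt L * T.mg C G a b L ≤ wt l0 * pr D r (gp G {C}) (fun ζ => rs (T.ib C) (T.oc C G a ζ) = b) := by
        refine mul_le_mul (wt_mono hL.le) ?_ (t23_pr_nonneg _) (m3_wt_nonneg _)
        unfold TS.mg
        exact t23_pr_mono fun ζ _ h => h.1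
      linarith
    · rw [not_lt] at hL
      have h1 : T.mg C G a b L ≤ ∑ A ∈ T.de {C} (l + 1), pr D r (gp G {C}) (fun ζ => rs (T.ib C) (T.oc C G a ζ) = b ∧ nz (gp G {C}) (T.oc C G a ζ) = L ∧
          (L : ℝ) ≤ 2 * nz (gp G {A}) (T.oc C G a ζ) ∧ Ev1 A (rs (T.o A) (T.oc C G a ζ)) (rs (T.ib A) (T.oc C G a ζ)) (rs (rg' G {C} A) ζ)) +
          ∑ A ∈ T.de {C} (l + 1), pr D r (gp G {C}) (fun ζ => rs (T.ib C) (T.oc C G a ζ) = b ∧ nz (gp G {C}) (T.oc C G a ζ) = L ∧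
          (L : ℝ) ≤ (2 * (T.m : ℝ) ^ (l + 1)) * nz (gp G {A}) (T.oc C G a ζ) ∧ Ev2 A (rs (T.o A) (T.oc C G a ζ)) (rs (T.ib A) (T.oc C G a ζ)) (rs (rg' G {C} A) ζ)) := by
        unfold TS.mg
        refine t23_union2 _ ?_
        intro ζ hζ h
        obtain ⟨p1, p2⟩ := h
        have hs : 2 * ((l + 1) * T.m ^ (l + 1) + T.m ^ (l + 1) * (M + 1)) ≤ nz (gp G {C}) (T.oc C G a ζ) := by
          rw [p2]
          exact hL
        obtain ⟨A, hA, hc⟩ := TS.cases_AB T hC G ha hζ M hs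
        refine ⟨A, hA, ?_⟩
        rcases hc with hc | ⟨hc, hB⟩
        · left
          refine ⟨p1, p2, ?_, ?_⟩
          · rw [← p2]
            exact hc
          · rintro ⟨x, hx, hxt⟩
            rw [rs_mem hx] at hxt
            exact TS.tw_of_max T hC G ht hA ha hζ hx hxt
        · right
          refine ⟨p1, p2, ?_, hB⟩
          rw [← p2]
          exact hc
      have h2 : ∀ A ∈ T.de {C} (l + 1), f1 A b L ≤ mx (f1 A b) n := fun A _ => le_mx (f1 A b) hL1 hLn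
      have h3 : ∀ A ∈ T.de {C} (l + 1), f2 A b L ≤ mx (f2 A b) n := fun A _ => le_mx (f2 A b) hL1 hLn
      have h4 := Finset.sum_le_sum h2
      have h5 := Finset.sum_le_sum h3
      have h6 := mul_le_mul_of_nonneg_left h1 (m3_wt_nonneg L)
      rw [mul_add, Finset.mul_sum, Finset.mul_sum] at h6
      have h7 : wt L * T.mg C G a b L ≤ ∑ A ∈ T.de {C} (l + 1), f1 A b L + ∑ A ∈ T.de {C} (l + 1), f2 A b L := h6
      linarith
  have hb0 : ∑ b ∈ bf (T.ib C) t, pr D r (gp G {C}) (fun ζ => rs (T.ib C) (T.oc C G a ζ) = b) ≤ 1 := by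
    refine le_trans (t23_disj (P := fun _ => True) _ ?_ ?_) (t23_pr_le_one _ _)
    · intro b _ ζ _ _
      trivial
    · intro b _ b2 _ hne ζ h h'
      exact hne (h.symm.trans h')
  have hc1 : ∀ A ∈ T.de {C} (l + 1), ∑ b ∈ bf (T.ib C) t, mx (f1 A b) n ≤ T.c0⁻¹ * (2 * Real.sqrt 2) * ∑ a' ∈ bf (T.o A) t,
        (if ∃ x ∈ T.o A, a' x = t then pr D r (rg' G {C} A) (fun ξ => T.tw {C} G ξ A) else 1) * T.FM A G t a' n := by
    intro A hA
    refine TS.cut T hC G hA ha (Ev1 A) (fun a' => if ∃ x ∈ T.o A, a' x = t then pr D r (rg' G {C} A) (fun ξ => T.tw {C} G ξ A) else 1) 2 (by norm_num) ?_ n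
    intro a' _ b' _
    split_ifs with hx
    · exact t23_pr_mono fun ξ _ h => h.2 hx
    · exact t23_pr_le_one _ _
  have hc2 : ∀ A ∈ T.de {C} (l + 1), ∑ b ∈ bf (T.ib C) t, mx (f2 A b) n ≤ T.c0⁻¹ * ((2 * (T.m : ℝ) ^ (l + 1)) * Real.sqrt (2 * (T.m : ℝ) ^ (l + 1))) *
      ∑ a' ∈ bf (T.o A) t, q2 * T.FM A G t a' n := by
    intro A hA
    refine TS.cut T hC G hA ha (Ev2 A) (fun _ => q2) (2 * (T.m : ℝ) ^ (l + 1)) hmN ?_ n
    intro a' _ b' hb'
    refine le_trans (t23_pr_mono fun ξ _ h => ?_) (hq2 A hA b' hb')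
    exact h.2
  have hFM : T.FM C G t a n = ∑ b ∈ bf (T.ib C) t, mx (fun L => wt L * T.mg C G a b L) n := rfl
  rw [hFM]
  calc _ ≤ ∑ b ∈ bf (T.ib C) t, (wt l0 * pr D r (gp G {C}) (fun ζ => rs (T.ib C) (T.oc C G a ζ) = b) +
      ∑ A ∈ T.de {C} (l + 1), mx (f1 A b) n + ∑ A ∈ T.de {C} (l + 1), mx (f2 A b) n) := Finset.sum_le_sum fun b _ => step b
    _ = wt l0 * ∑ b ∈ bf (T.ib C) t, pr D r (gp G {C}) (fun ζ => rs (T.ib C) (T.oc C G a ζ) = b) +
      ∑ A ∈ T.de {C} (l + 1), ∑ b ∈ bf (T.ib C) t, mx (f1 A b) n + ∑ A ∈ T.de {C} (l + 1), ∑ b ∈ bf (T.ib C) t, mx (f2 A b) n := by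
        rw [Finset.sum_add_distrib, Finset.sum_add_distrib, ← Finset.mul_sum]
        congr 1
        · congr 1
          exact Finset.sum_comm
        · exact Finset.sum_comm
    _ ≤ _ := by
        refine add_le_add (add_le_add ?_ ?_) ?_
        · calc _ ≤ wt l0 * 1 := mul_le_mul_of_nonneg_left hb0 (m3_wt_nonneg _)
            _ = wt l0 := mul_one _
        · rw [Finset.mul_sum]
          exact Finset.sum_le_sum hc1
        · rw [Finset.mul_sum]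
          exact Finset.sum_le_sum hc2

end Pool.Agent.Helper910.QT
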