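import Mathlib
import Pool.Agent.Helper910.T23


/-! Bounds for several waves (MP_4555f0_mp) -/

namespace Pool.Agent.Helper910.QT

open Classical Finset Filter Topology

variable {V : Type*} {D : SimpleGraph V} [D.LocallyFinite] {r : ℕ}

/-- limit of `mg` -/
noncomputable def TS.mL (T : TS D r) (C : Set V) (a b : V → ℕ) (l : ℕ) : ℝ :=
  T.lm {C} (fun G ζ => if rs (T.ib C) (T.oc C G a ζ) = b ∧ nz (gp G {C}) (T.oc C G a ζ) = l then 1 else 0)

/-- total maximal weight in the limit -/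
noncomputable def TS.MM (T : TS D r) (C : Set V) (t : ℕ) (a : V → ℕ) (n : ℕ) : ℝ :=
  ∑ b ∈ bf (T.ib C) t, mx (fun l => wt l * T.mL C a b l) n

/-! ### general lemmas -/

omit [D.LocallyFinite] in
theorem t24_ex (S : Finset V) (P : (V → ℕ) → Prop) [DecidablePred P] :
    ex D r S (fun ζ => if P ζ then (1 : ℝ) else 0) = pr D r S P := by
  unfold ex pr
  rw [Finset.sum_boole]
  have h : (Rc D r S).filter (fun ζ => P ζ) = @Finset.filter _ P (fun a => Classical.propDecidable (P a)) (Rc D r S) := by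
    ext ζ
    simp only [Finset.mem_filter]
  rw [h]

omit [D.LocallyFinite] in
theorem t24_pr_nonneg (S : Finset V) (P : (V → ℕ) → Prop) : 0 ≤ pr D r S P := by
  unfold pr; positivity

omit [D.LocallyFinite] in
theorem t24_pr_mono (S : Finset V) {P Q : (V → ℕ) → Prop} (h : ∀ ζ ∈ Rc D r S, P ζ → Q ζ) :
    pr D r S P ≤ pr D r S Q := by
  unfold pr
  refine div_le_div_of_nonneg_right ?_ (Nat.cast_nonneg _)
  exact_mod_cast Finset.card_le_card (fun ζ hζ => by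
    rw [Finset.mem_filter] at hζ ⊢
    exact ⟨hζ.1, h ζ hζ.1 hζ.2⟩)

omit [D.LocallyFinite] in
theorem t24_sum_pr (S : Finset V) (f : (V → ℕ) → (V → ℕ)) (B : Finset (V → ℕ)) :
    ∑ b ∈ B, pr D r S (fun ζ => f ζ = b) ≤ 1 := by
  unfold pr
  rw [← Finset.sum_div]
  have h1 : (∑ b ∈ B, (((Rc D r S).filter (fun ζ => f ζ = b)).card : ℝ)) ≤ ((Rc D r S).card : ℝ) := by
    have h2 : ∀ b ∈ B, (((Rc D r S).filter (fun ζ => f ζ = b)).card : ℝ) = ∑ ζ ∈ Rc D r S, (if f ζ = b then (1 : ℝ) else 0) := by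
      intro b _
      rw [Finset.sum_boole]
    rw [Finset.sum_congr rfl h2, Finset.sum_comm]
    calc ∑ ζ ∈ Rc D r S, ∑ b ∈ B, (if f ζ = b then (1 : ℝ) else 0) ≤ ∑ ζ ∈ Rc D r S, (1 : ℝ) := by
          refine Finset.sum_le_sum fun ζ _ => ?_
          rw [Finset.sum_ite_eq]
          split_ifs <;> norm_num
      _ = ((Rc D r S).card : ℝ) := by simp
  rcases Nat.eq_zero_or_pos (Rc D r S).card with h | h
  · rw [h]; simp
  · rw [div_le_one (by exact_mod_cast h)]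
    exact h1

theorem t24_mx_le {f : ℕ → ℝ} {n : ℕ} {c : ℝ} (hc : 0 ≤ c) (h : ∀ l, 1 ≤ l → l ≤ n → f l ≤ c) : mx f n ≤ c := by
  rcases mx_eq f n with h1 | ⟨l, h1, h2, h3⟩
  · rw [h1]; exact hc
  · rw [h3]; exact h l h1 h2

theorem t24_mx_tendsto {ι : Type*} {L : Filter ι} {F : ι → ℕ → ℝ} {f : ℕ → ℝ} (h : ∀ l, Tendsto (fun G => F G l) L (𝓝 (f l))) (n : ℕ) :
    Tendsto (fun G => mx (F G) n) L (𝓝 (mx f n)) := by
  induction n with
  | zero => exact tendsto_const_nhds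
  | succ n ih => exact ih.max (h (n + 1))

theorem TS.t24_ib_sub (T : TS D r) (C : Set V) : T.ib C ⊆ T.Q C := Finset.filter_subset _ _

theorem TS.t24_ib_up (T : TS D r) (C : Set V) : T.ib C ⊆ T.up {C} 1 := by
  intro z hz
  rw [T.t5c_mem_up]
  exact ⟨0, Nat.zero_lt_one, C, by rw [T.de_zero]; exact Finset.mem_singleton_self C, T.t24_ib_sub C hz⟩

theorem TS.t24_ql (T : TS D r) {C : Set V} (hC : T.Cn C) {t : ℕ} {a : V → ℕ} (ha : ∀ x ∈ T.o C, a x ≤ t) (b : V → ℕ) (l : ℕ) :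
    T.QL {C} t (fun G ζ => if rs (T.ib C) (T.oc C G a ζ) = b ∧ nz (gp G {C}) (T.oc C G a ζ) = l then 1 else 0) := by
  have h := T.ql_oc hC ha 1 (fun u k => rs (T.ib C) u = b ∧ k = l)
  have e : ∀ u : V → ℕ, rs (T.ib C) (rs (T.up {C} 1) u) = rs (T.ib C) u := by
    intro u
    funext z
    by_cases hz : z ∈ T.ib C
    · rw [rs_mem hz, rs_mem hz, rs_mem (T.t24_ib_up C hz)]
    · rw [rs_notMem hz, rs_notMem hz]
  convert h using 3 with G ζ
  simp only [e]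

theorem TS.t24_tendsto_mg (T : TS D r) {C : Set V} (hC : T.Cn C) {t : ℕ} {a : V → ℕ} (ha : ∀ x ∈ T.o C, a x ≤ t) (b : V → ℕ) (l : ℕ) :
    Tendsto (fun G : Finset V => T.mg C G a b l) atTop (𝓝 (T.mL C a b l)) := by
  have h := T.tendsto_lm (T.fo_single hC) (T.t24_ql hC ha b l)
  simp only [t24_ex] at h
  exact h

/-- TARGET. (`ql_oc` with `j = 1`, `tendsto_lm`; the maximum of finitely many converging sequences converges) -/
theorem TS.tendsto_FM (T : TS D r) {C : Set V} (hC : T.Cn C) {t : ℕ} {a : V → ℕ} (ha : ∀ x ∈ T.o C, a x ≤ t) (n : ℕ) :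
    Tendsto (fun G : Finset V => T.FM C G t a n) atTop (𝓝 (T.MM C t a n)) := by
  unfold TS.FM TS.MM
  exact tendsto_finsetSum _ fun b _ => t24_mx_tendsto (fun l => (T.t24_tendsto_mg hC ha b l).const_mul (wt l)) n

theorem TS.t24_FM_nonneg (T : TS D r) (C : Set V) (G : Finset V) (t : ℕ) (a : V → ℕ) (n : ℕ) : 0 ≤ T.FM C G t a n :=
  Finset.sum_nonneg fun _ _ => mx_nonneg _ _

theorem TS.t24_FM_le (T : TS D r) (C : Set V) (G : Finset V) (t : ℕ) (a : V → ℕ) (n : ℕ) : T.FM C G t a n ≤ wt n := by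
  have h1 : ∀ b, mx (fun l => wt l * T.mg C G a b l) n ≤ wt n * pr D r (gp G {C}) (fun ζ => rs (T.ib C) (T.oc C G a ζ) = b) := by
    intro b
    refine t24_mx_le (mul_nonneg (m3_wt_nonneg _) (t24_pr_nonneg _ _)) fun l h1 h2 => ?_
    refine mul_le_mul (wt_mono h2) ?_ (t24_pr_nonneg _ _) (m3_wt_nonneg _)
    exact t24_pr_mono _ fun ζ _ h => h.1
  calc T.FM C G t a n ≤ ∑ b ∈ bf (T.ib C) t, wt n * pr D r (gp G {C}) (fun ζ => rs (T.ib C) (T.oc C G a ζ) = b) :=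
        Finset.sum_le_sum fun b _ => h1 b
    _ = wt n * ∑ b ∈ bf (T.ib C) t, pr D r (gp G {C}) (fun ζ => rs (T.ib C) (T.oc C G a ζ) = b) := by rw [Finset.mul_sum]
    _ ≤ wt n * 1 := mul_le_mul_of_nonneg_left (t24_sum_pr _ _ _) (m3_wt_nonneg _)
    _ = wt n := mul_one _

/-- TARGET. a priori bound `FM ≤ wt n`, hence `MM ≤ wt n`; and `0 ≤ MM` -/
theorem TS.MM_le (T : TS D r) {C : Set V} (hC : T.Cn C) {t : ℕ} {a : V → ℕ} (ha : ∀ x ∈ T.o C, a x ≤ t) (n : ℕ) : 0 ≤ T.MM C t a n ∧ T.MM C t a n ≤ wt n := by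
  have h := T.tendsto_FM hC ha n
  exact ⟨ge_of_tendsto' h fun G => T.t24_FM_nonneg C G t a n, le_of_tendsto' h fun G => T.t24_FM_le C G t a n⟩

/-- TARGET. if `a ≤ t' ≤ t` the outputs are `≤ t'`, so `MM C t a n = MM C t' a n` -/
theorem TS.MM_eq (T : TS D r) {C : Set V} (hC : T.Cn C) {t t' : ℕ} (htt : t' ≤ t) {a : V → ℕ} (ha : ∀ x ∈ T.o C, a x ≤ t') (n : ℕ) : T.MM C t a n = T.MM C t' a n := by
  unfold TS.MM
  symm
  refine Finset.sum_subset ?_ ?_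
  · intro f hf
    rw [mem_bf] at hf ⊢
    exact ⟨fun z hz => (hf.1 z hz).trans htt, hf.2⟩
  · intro b hb hb'
    have h0 : ∀ l, T.mL C a b l = 0 := by
      intro l
      refine t14a_lm_eq T ?_
      have h1 : ∀ G : Finset V, ex D r (gp G {C}) (fun ζ => if rs (T.ib C) (T.oc C G a ζ) = b ∧ nz (gp G {C}) (T.oc C G a ζ) = l then (1 : ℝ) else 0) = 0 := by
        intro G
        unfold ex
        rw [Finset.sum_eq_zero, zero_div]
        intro ζ hζ
        rw [if_neg]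
        rintro ⟨h2, -⟩
        refine hb' (mem_bf.2 ⟨fun z hz => ?_, (mem_bf.1 hb).2⟩)
        rw [← h2, rs_mem hz]
        exact od_le_t (T.inb_oc hC G ha) (fun z hz => ((mem_Rc.1 hζ).1.1 z hz).2) z
      simp only [h1]
      exact tendsto_const_nhds
    simp only [h0, mul_zero]
    rcases mx_eq (fun _ : ℕ => (0 : ℝ)) n with h | ⟨l, _, _, h⟩ <;> exact h

/-- TARGET. inputs with values at most one: one wave with input `g = inp (o C) a ≤ fi {C}`; `one_wave` (`oc = ` indicator of the wave, `od_wave`), at most `2^m` outputs -/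
theorem TS.exists_M1 (T : TS D r) : ∃ K : ℝ, 0 < K ∧ ∀ C, T.Cn C → ∀ a : V → ℕ, (∀ x ∈ T.o C, a x ≤ 1) → ∀ n, T.MM C 1 a n ≤ K := by
  obtain ⟨K, hK, h⟩ := T.one_wave 1
  refine ⟨(2 : ℝ) ^ T.m * K, by positivity, fun C hC a ha n => ?_⟩
  have hg : ∀ z ∈ fs {C}, inp D (T.o C) a z ≤ T.fi {C} z := by
    intro z _
    unfold inp TS.fi dgi TS.fo
    rw [Finset.singleton_biUnion, dg_eq_sum]
    refine Finset.sum_le_sum fun x hx => ?_
    split_ifs
    · exact ha x hx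
    · exact le_rfl
  have h1 : ∀ b l, 1 ≤ l → wt l * T.mL C a b l ≤ K := by
    intro b l hl
    have hw : 0 < wt l := by
      unfold wt
      have : (0 : ℝ) < l := by exact_mod_cast hl
      positivity
    have h2 := h {C} (T.fo_single hC) (by simp) (inp D (T.o C) a) hg l hl
    have h3 : T.mL C a b l ≤ K / wt l := by
      refine le_of_tendsto (T.t24_tendsto_mg hC ha b l) ?_
      filter_upwards [h2] with G hG
      refine le_trans ?_ hG
      refine t24_pr_mono _ fun ζ hζ h4 => ?_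
      rw [← h4.2]
      have hadm : Adm D r 0 (inp D (T.o C) a) (gp G {C}) := T.adm_fi (T.fo_single hC) hg G
      have hle : ∀ z ∈ gp G {C}, ζ z ≤ r := fun z hz => ((mem_Rc.1 hζ).1.1 z hz).2
      unfold nz TS.oc
      congr 1
      ext z
      rw [Finset.mem_filter, od_wave hadm hle z]
      constructor
      · intro hz
        exact ⟨gw_sub _ _ _ hz, by rw [if_pos hz]; exact Nat.zero_lt_one⟩
      · rintro ⟨_, hz⟩
        by_contra hn
        rw [if_neg hn] at hz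
        exact absurd hz (lt_irrefl _)
    calc wt l * T.mL C a b l ≤ wt l * (K / wt l) := mul_le_mul_of_nonneg_left h3 hw.le
      _ = K := by field_simp
  unfold TS.MM
  calc ∑ b ∈ bf (T.ib C) 1, mx (fun l => wt l * T.mL C a b l) n ≤ ∑ b ∈ bf (T.ib C) 1, K :=
        Finset.sum_le_sum fun b _ => t24_mx_le hK.le fun l hl _ => h1 b l hl
    _ = ((bf (T.ib C) 1).card : ℝ) * K := by rw [Finset.sum_const, nsmul_eq_mul]
    _ ≤ (2 : ℝ) ^ T.m * K := by
        refine mul_le_mul_of_nonneg_right ?_ hK.le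
        rw [card_bf]
        have h5 : (T.ib C).card ≤ T.m := (Finset.card_le_card (T.t24_ib_sub C)).trans (T.Q_card hC)
        have h6 : (1 + 1) ^ (T.ib C).card ≤ 2 ^ T.m := Nat.pow_le_pow_right (by norm_num) h5
        exact_mod_cast h6

/-! ### polynomially bounded functions -/

/-- polynomially bounded -/
def T24pb (f : ℕ → ℝ) : Prop := ∃ (A : ℝ) (q : ℕ), 0 < A ∧ ∀ t : ℕ, f t ≤ A * ((t : ℝ) + 2) ^ q

theorem t24_pb_mono {f g : ℕ → ℝ} (hg : T24pb g) (h : ∀ t, f t ≤ g t) : T24pb f := by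
  obtain ⟨A, q, hA, h1⟩ := hg
  exact ⟨A, q, hA, fun t => (h t).trans (h1 t)⟩

theorem t24_pb_const (c : ℝ) : T24pb (fun _ => c) :=
  ⟨|c| + 1, 0, by positivity, fun t => by
    rw [pow_zero, mul_one]
    exact (le_abs_self c).trans (by linarith)⟩

theorem t24_pb_id : T24pb (fun t => (t : ℝ) + 2) :=
  ⟨1, 1, one_pos, fun t => by rw [pow_one, one_mul]⟩

theorem t24_one_le (t : ℕ) : (1 : ℝ) ≤ (t : ℝ) + 2 := by
  have : (0 : ℝ) ≤ t := Nat.cast_nonneg t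
  linarith

theorem t24_pb_add {f g : ℕ → ℝ} (hf : T24pb f) (hg : T24pb g) : T24pb (fun t => f t + g t) := by
  obtain ⟨A, q, hA, h1⟩ := hf
  obtain ⟨B, p, hB, h2⟩ := hg
  refine ⟨A + B, max q p, by positivity, fun t => ?_⟩
  have h3 : ((t : ℝ) + 2) ^ q ≤ ((t : ℝ) + 2) ^ (max q p) := pow_le_pow_right₀ (t24_one_le t) (le_max_left _ _)
  have h4 : ((t : ℝ) + 2) ^ p ≤ ((t : ℝ) + 2) ^ (max q p) := pow_le_pow_right₀ (t24_one_le t) (le_max_right _ _)
  calc f t + g t ≤ A * ((t : ℝ) + 2) ^ q + B * ((t : ℝ) + 2) ^ p := add_le_add (h1 t) (h2 t)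
    _ ≤ A * ((t : ℝ) + 2) ^ (max q p) + B * ((t : ℝ) + 2) ^ (max q p) :=
        add_le_add (mul_le_mul_of_nonneg_left h3 hA.le) (mul_le_mul_of_nonneg_left h4 hB.le)
    _ = (A + B) * ((t : ℝ) + 2) ^ (max q p) := by ring

theorem t24_pb_mul {f g : ℕ → ℝ} (hf : T24pb f) (hg : T24pb g) (hg0 : ∀ t, 0 ≤ g t) :
    T24pb (fun t => f t * g t) := by
  obtain ⟨A, q, hA, h1⟩ := hf
  obtain ⟨B, p, hB, h2⟩ := hg
  refine ⟨A * B, q + p, by positivity, fun t => ?_⟩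
  have hX : (0 : ℝ) ≤ (t : ℝ) + 2 := by positivity
  calc f t * g t ≤ (A * ((t : ℝ) + 2) ^ q) * g t := mul_le_mul_of_nonneg_right (h1 t) (hg0 t)
    _ ≤ (A * ((t : ℝ) + 2) ^ q) * (B * ((t : ℝ) + 2) ^ p) := mul_le_mul_of_nonneg_left (h2 t) (by positivity)
    _ = A * B * ((t : ℝ) + 2) ^ (q + p) := by rw [pow_add]; ring

theorem t24_pb_pow {f : ℕ → ℝ} (hf : T24pb f) (hf0 : ∀ t, 0 ≤ f t) (k : ℕ) : T24pb (fun t => f t ^ k) := by
  induction k with
  | zero => simpa using t24_pb_const 1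
  | succ k ih =>
    have h := t24_pb_mul ih hf hf0
    simpa only [pow_succ] using h

theorem t24_pb_cmul {f : ℕ → ℝ} (hf : T24pb f) (hf0 : ∀ t, 0 ≤ f t) (c : ℝ) : T24pb (fun t => c * f t) :=
  t24_pb_mul (t24_pb_const c) hf hf0

theorem t24_wt_le (L : ℕ) : wt L ≤ (L : ℝ) ^ 2 := by
  unfold wt
  rcases Nat.eq_zero_or_pos L with h | h
  · subst h; simp
  · have h1 : (1 : ℝ) ≤ L := by exact_mod_cast h
    have h2 : Real.sqrt L ≤ L := by
      rw [Real.sqrt_le_left (by positivity)]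
      nlinarith
    nlinarith

theorem t24_clog_lt (t : ℕ) : 2 ^ Nat.clog 2 (t + 2) ≤ 2 * (t + 2) := by
  have h1 : 1 < t + 2 := by omega
  have h2 := Nat.pow_pred_clog_lt_self (b := 2) (by norm_num) h1
  have h3 : 0 < Nat.clog 2 (t + 2) := Nat.clog_pos (by norm_num) (by omega)
  obtain ⟨k, hk⟩ : ∃ k, Nat.clog 2 (t + 2) = k + 1 := ⟨Nat.clog 2 (t + 2) - 1, by omega⟩
  rw [hk] at h2 ⊢
  rw [Nat.pred_succ] at h2
  rw [pow_succ]
  omega

/-- choice of the generation -/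
theorem t24_choice (m : ℕ) {ρ : ℝ} (h0 : 0 < ρ) (h1 : ρ < 1) {ε : ℝ} (hε : 0 < ε) : ∃ h : ℕ → ℕ, (∀ t, 1 ≤ h t) ∧
    (∀ t : ℕ, ((t : ℝ) + 2) ^ m * ρ ^ (h t) ≤ ε) ∧ T24pb (fun t => (m : ℝ) ^ (h t)) ∧ T24pb (fun t => (h t : ℝ)) := by
  obtain ⟨k0, hk0⟩ := exists_pow_lt_of_lt_one (show (0 : ℝ) < 1 / 2 by norm_num) h1
  have hk0' : 1 ≤ k0 := by
    by_contra hn
    have : k0 = 0 := by omega
    rw [this, pow_zero] at hk0
    norm_num at hk0
  obtain ⟨c1, hc1⟩ := exists_pow_lt_of_lt_one hε (show (1 / 2 : ℝ) < 1 by norm_num)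
  refine ⟨fun t => k0 * ((c1 + 1) + m * Nat.clog 2 (t + 2)), fun t => ?_, fun t => ?_, ?_, ?_⟩
  · exact Nat.mul_pos hk0' (by omega)
  · rw [pow_mul]
    have h2 : (ρ ^ k0) ^ ((c1 + 1) + m * Nat.clog 2 (t + 2)) ≤ (1 / 2 : ℝ) ^ ((c1 + 1) + m * Nat.clog 2 (t + 2)) :=
      pow_le_pow_left₀ (by positivity) hk0.le _
    have h3 : ((t : ℝ) + 2) ≤ (2 : ℝ) ^ Nat.clog 2 (t + 2) := by
      have := Nat.le_pow_clog (b := 2) (by norm_num) (t + 2)
      exact_mod_cast this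
    have h4 : ((t : ℝ) + 2) ^ m * (1 / 2 : ℝ) ^ (m * Nat.clog 2 (t + 2)) ≤ 1 := by
      calc ((t : ℝ) + 2) ^ m * (1 / 2 : ℝ) ^ (m * Nat.clog 2 (t + 2))
          ≤ ((2 : ℝ) ^ Nat.clog 2 (t + 2)) ^ m * (1 / 2 : ℝ) ^ (m * Nat.clog 2 (t + 2)) :=
            mul_le_mul_of_nonneg_right (pow_le_pow_left₀ (by positivity) h3 _) (by positivity)
        _ = ((2 : ℝ) * (1 / 2)) ^ (m * Nat.clog 2 (t + 2)) := by
            rw [← pow_mul, Nat.mul_comm (Nat.clog 2 (t + 2)) m, mul_pow]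
        _ = 1 := by norm_num
    have h5 : (1 / 2 : ℝ) ^ (c1 + 1) ≤ ε := by
      refine le_trans ?_ hc1.le
      exact pow_le_pow_of_le_one (by norm_num) (by norm_num) (by omega)
    calc ((t : ℝ) + 2) ^ m * (ρ ^ k0) ^ ((c1 + 1) + m * Nat.clog 2 (t + 2))
        ≤ ((t : ℝ) + 2) ^ m * (1 / 2 : ℝ) ^ ((c1 + 1) + m * Nat.clog 2 (t + 2)) :=
          mul_le_mul_of_nonneg_left h2 (by positivity)
      _ = (1 / 2 : ℝ) ^ (c1 + 1) * (((t : ℝ) + 2) ^ m * (1 / 2 : ℝ) ^ (m * Nat.clog 2 (t + 2))) := by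
          rw [pow_add]; ring
      _ ≤ (1 / 2 : ℝ) ^ (c1 + 1) * 1 := mul_le_mul_of_nonneg_left h4 (by positivity)
      _ ≤ ε := by rw [mul_one]; exact h5
  · have hm : m ≤ 2 ^ m := Nat.lt_two_pow_self.le
    have hX : T24pb (fun t => (2 * ((t : ℝ) + 2))) := t24_pb_cmul t24_pb_id (fun t => by positivity) 2
    have hY := t24_pb_cmul (t24_pb_pow hX (fun t => by positivity) (m * k0 * m)) (fun t => by positivity) ((2 : ℝ) ^ (m * k0 * (c1 + 1)))
    refine t24_pb_mono hY fun t => ?_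
    have h2 : m ^ (k0 * ((c1 + 1) + m * Nat.clog 2 (t + 2))) ≤ 2 ^ (m * k0 * (c1 + 1)) * (2 * (t + 2)) ^ (m * k0 * m) := by
      calc m ^ (k0 * ((c1 + 1) + m * Nat.clog 2 (t + 2))) ≤ (2 ^ m) ^ (k0 * ((c1 + 1) + m * Nat.clog 2 (t + 2))) :=
            Nat.pow_le_pow_left hm _
        _ = 2 ^ (m * k0 * (c1 + 1)) * (2 ^ Nat.clog 2 (t + 2)) ^ (m * k0 * m) := by
            rw [← pow_mul, ← pow_mul, ← pow_add]
            congr 1
            ring
        _ ≤ 2 ^ (m * k0 * (c1 + 1)) * (2 * (t + 2)) ^ (m * k0 * m) :=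
            Nat.mul_le_mul_left _ (Nat.pow_le_pow_left (t24_clog_lt t) _)
    exact_mod_cast h2
  · have hX := t24_pb_cmul (t24_pb_add (t24_pb_const ((c1 : ℝ) + 1)) (t24_pb_cmul t24_pb_id (fun t => by positivity) (m : ℝ)))
      (fun t => by positivity) (k0 : ℝ)
    refine t24_pb_mono hX fun t => ?_
    have h2 : Nat.clog 2 (t + 2) ≤ t + 2 := Nat.clog_le_of_le_pow Nat.lt_two_pow_self.le
    have h3 : k0 * ((c1 + 1) + m * Nat.clog 2 (t + 2)) ≤ k0 * ((c1 + 1) + m * (t + 2)) :=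
      Nat.mul_le_mul_left _ (Nat.add_le_add_left (Nat.mul_le_mul_left _ h2) _)
    exact_mod_cast h3

theorem t24_sup {P : ℝ → Prop} {W b : ℝ} (hb : ∀ x, P x → x ≤ b) (h : ∀ S, 0 ≤ S → (∀ x, P x → x ≤ S) → ∀ x, P x → x ≤ W + S / 2)
    (h0 : ∀ x, P x → 0 ≤ x) : ∀ x, P x → x ≤ 2 * W := by
  intro x hx
  have hbdd : BddAbove {x | P x} := ⟨b, fun y hy => hb y hy⟩
  have h1 : ∀ y, P y → y ≤ sSup {x | P x} := fun y hy => le_csSup hbdd hy
  have h2 : 0 ≤ sSup {x | P x} := (h0 x hx).trans (h1 x hx)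
  have h3 : sSup {x | P x} ≤ W + sSup {x | P x} / 2 := csSup_le ⟨x, hx⟩ fun y hy => h _ h2 h1 y hy
  have h4 := h1 x hx
  linarith

/-! ### the recursion -/

theorem TS.t24_card_bf (T : TS D r) {A : Set V} (hA : T.Cn A) (t : ℕ) : ((bf (T.o A) t).card : ℝ) ≤ ((t : ℝ) + 1) ^ T.m := by
  rw [card_bf]
  push_cast
  exact pow_le_pow_right₀ (by have : (0 : ℝ) ≤ t := Nat.cast_nonneg t; linarith) (T.o_card hA)

theorem TS.t24_card_de (T : TS D r) {C : Set V} (hC : T.Cn C) (j : ℕ) : ((T.de {C} j).card : ℝ) ≤ (T.m : ℝ) ^ j := by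
  have h := T.de_card (T.fo_single hC) j
  rw [Finset.card_singleton, one_mul] at h
  exact_mod_cast h

/-- one step with an error -/
theorem TS.t24_step (T : TS D r) {C : Set V} (hC : T.Cn C) (G : Finset V) {l t : ℕ} {n : ℕ} {S B q2 κ : ℝ} (hS : 0 ≤ S) (hB : 0 ≤ B) (hq2 : 0 ≤ q2)
    (h1 : ∀ A ∈ T.de {C} (l + 1), ∀ a' ∈ bf (T.o A) t, T.FM A G t a' n ≤ S)
    (h2 : ∀ A ∈ T.de {C} (l + 1), ∀ a' ∈ bf (T.o A) t, (¬ ∃ x ∈ T.o A, a' x = t) → T.FM A G t a' n ≤ B)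
    (h3 : ∑ A ∈ T.de {C} (l + 1), pr D r (rg' G {C} A) (fun ξ => T.tw {C} G ξ A) ≤ κ) :
    (∑ A ∈ T.de {C} (l + 1), ∑ a' ∈ bf (T.o A) t,
        (if ∃ x ∈ T.o A, a' x = t then pr D r (rg' G {C} A) (fun ξ => T.tw {C} G ξ A) else 1) * T.FM A G t a' n ≤
      ((t : ℝ) + 1) ^ T.m * (κ * S + (T.m : ℝ) ^ (l + 1) * B)) ∧
    (∑ A ∈ T.de {C} (l + 1), ∑ a' ∈ bf (T.o A) t, q2 * T.FM A G t a' n ≤ (T.m : ℝ) ^ (l + 1) * (((t : ℝ) + 1) ^ T.m * (q2 * S))) := by
  have hcn : ∀ A ∈ T.de {C} (l + 1), T.Cn A := fun A hA => T.t5b_cn (T.fo_single hC) hA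
  have hX : (0 : ℝ) ≤ ((t : ℝ) + 1) ^ T.m := by positivity
  constructor
  · calc _ ≤ ∑ A ∈ T.de {C} (l + 1), ((t : ℝ) + 1) ^ T.m * (pr D r (rg' G {C} A) (fun ξ => T.tw {C} G ξ A) * S + B) := by
          refine Finset.sum_le_sum fun A hA => ?_
          have hp := t24_pr_nonneg (D := D) (r := r) (rg' G {C} A) (fun ξ => T.tw {C} G ξ A)
          calc _ ≤ ∑ a' ∈ bf (T.o A) t, (pr D r (rg' G {C} A) (fun ξ => T.tw {C} G ξ A) * S + B) := by
                refine Finset.sum_le_sum fun a' ha' => ?_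
                split_ifs with hx
                · have := mul_le_mul_of_nonneg_left (h1 A hA a' ha') hp
                  linarith
                · have h4 := h2 A hA a' ha' hx
                  have h5 := mul_nonneg hp hS
                  linarith
            _ = ((bf (T.o A) t).card : ℝ) * (pr D r (rg' G {C} A) (fun ξ => T.tw {C} G ξ A) * S + B) := by
                rw [Finset.sum_const, nsmul_eq_mul]
            _ ≤ _ := mul_le_mul_of_nonneg_right (T.t24_card_bf (hcn A hA) t) (add_nonneg (mul_nonneg hp hS) hB)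
      _ = ((t : ℝ) + 1) ^ T.m * ((∑ A ∈ T.de {C} (l + 1), pr D r (rg' G {C} A) (fun ξ => T.tw {C} G ξ A)) * S +
            ((T.de {C} (l + 1)).card : ℝ) * B) := by
          rw [← Finset.mul_sum, Finset.sum_add_distrib, Finset.sum_mul, Finset.sum_const, nsmul_eq_mul]
      _ ≤ _ := by
          refine mul_le_mul_of_nonneg_left (add_le_add (mul_le_mul_of_nonneg_right h3 hS) ?_) hX
          exact mul_le_mul_of_nonneg_right (T.t24_card_de hC _) hB
  · calc _ ≤ ∑ A ∈ T.de {C} (l + 1), ((t : ℝ) + 1) ^ T.m * (q2 * S) := by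
          refine Finset.sum_le_sum fun A hA => ?_
          calc _ ≤ ∑ a' ∈ bf (T.o A) t, q2 * S :=
                Finset.sum_le_sum fun a' ha' => mul_le_mul_of_nonneg_left (h1 A hA a' ha') hq2
            _ = ((bf (T.o A) t).card : ℝ) * (q2 * S) := by
                rw [Finset.sum_const, nsmul_eq_mul]
            _ ≤ _ := mul_le_mul_of_nonneg_right (T.t24_card_bf (hcn A hA) t) (mul_nonneg hq2 hS)
      _ = ((T.de {C} (l + 1)).card : ℝ) * (((t : ℝ) + 1) ^ T.m * (q2 * S)) := by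
          rw [Finset.sum_const, nsmul_eq_mul]
      _ ≤ _ := mul_le_mul_of_nonneg_right (T.t24_card_de hC _) (mul_nonneg hX (mul_nonneg hq2 hS))

/-- the recursion in the limit, for given generation and threshold -/
theorem TS.t24_rec (T : TS D r) : ∃ ρ K : ℝ, 0 < ρ ∧ ρ < 1 ∧ 0 < K ∧ ∀ C, T.Cn C → ∀ (l t M n : ℕ), 2 ≤ t → 1 ≤ M → ∀ a : V → ℕ, (∀ x ∈ T.o C, a x ≤ t) →
    ∀ S B : ℝ, 0 ≤ S → 0 ≤ B → (∀ A, T.Cn A → ∀ a' : V → ℕ, (∀ x ∈ T.o A, a' x ≤ t) → T.MM A t a' n ≤ S) →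
    (∀ A, T.Cn A → ∀ a' : V → ℕ, (∀ x ∈ T.o A, a' x ≤ t - 1) → T.MM A (t - 1) a' n ≤ B) →
    T.MM C t a n ≤ wt (2 * ((l + 1) * T.m ^ (l + 1) + T.m ^ (l + 1) * (M + 1))) +
      T.c0⁻¹ * (2 * Real.sqrt 2) * (((t : ℝ) + 1) ^ T.m * ((K * ρ ^ (l + 1)) * S + (T.m : ℝ) ^ (l + 1) * B)) +
      T.c0⁻¹ * ((2 * (T.m : ℝ) ^ (l + 1)) * Real.sqrt (2 * (T.m : ℝ) ^ (l + 1))) *
        ((T.m : ℝ) ^ (l + 1) * (((t : ℝ) + 1) ^ T.m * (((T.m : ℝ) ^ (l + 1) * (K * (t : ℝ) ^ 2 / Real.sqrt M)) * S))) := by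
  obtain ⟨ρ, K1, hρ, hρ1, hK1, h1⟩ := T.exists_two
  obtain ⟨K2, hK2, h2⟩ := T.exists_ot
  refine ⟨ρ, max K1 K2, hρ, hρ1, lt_of_lt_of_le hK1 (le_max_left _ _), fun C hC l t M n ht hM a ha S B hS hB hSb hBb => ?_⟩
  set K := max K1 K2 with hK
  have hKK : 0 < K := lt_of_lt_of_le hK1 (le_max_left _ _)
  have hc0 := T.c0_pos
  set q2 : ℝ := (T.m : ℝ) ^ (l + 1) * (K * (t : ℝ) ^ 2 / Real.sqrt M) with hq2
  have hq20 : 0 ≤ q2 := by positivity
  have hev1 := h1 C hC (l + 1)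
  have hev2 := h2 C hC l t M (by omega) hM
  -- the bound with error
  have key : ∀ ε : ℝ, 0 < ε → T.MM C t a n ≤ wt (2 * ((l + 1) * T.m ^ (l + 1) + T.m ^ (l + 1) * (M + 1))) +
      T.c0⁻¹ * (2 * Real.sqrt 2) * (((t : ℝ) + 1) ^ T.m * ((K * ρ ^ (l + 1)) * (S + ε) + (T.m : ℝ) ^ (l + 1) * (B + ε))) +
      T.c0⁻¹ * ((2 * (T.m : ℝ) ^ (l + 1)) * Real.sqrt (2 * (T.m : ℝ) ^ (l + 1))) *
        ((T.m : ℝ) ^ (l + 1) * (((t : ℝ) + 1) ^ T.m * (q2 * (S + ε)))) := by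
    intro ε hε
    have hev3 : ∀ᶠ G in (atTop : Filter (Finset V)), ∀ A ∈ T.de {C} (l + 1), ∀ a' ∈ bf (T.o A) t, T.FM A G t a' n ≤ T.MM A t a' n + ε := by
      rw [Filter.eventually_all_finset]
      intro A hA
      rw [Filter.eventually_all_finset]
      intro a' ha'
      have hcn : T.Cn A := T.t5b_cn (T.fo_single hC) hA
      have h3 := T.tendsto_FM hcn (t := t) (a := a') (fun x hx => (mem_bf.1 ha').1 x hx) n
      have h4 := h3.eventually (gt_mem_nhds (show T.MM A t a' n < T.MM A t a' n + ε by linarith))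
      filter_upwards [h4] with G hG
      exact hG.le
    refine le_of_tendsto (T.tendsto_FM hC ha n) ?_
    filter_upwards [hev1, hev2, hev3] with G e1 e2 e3
    have hq : ∀ A ∈ T.de {C} (l + 1), ∀ b' ∈ bf (T.ib A) t, pr D r (rg' G {C} A) (fun ξ => ∃ B ∈ T.de {C} (l + 1), B ≠ A ∧ M ≤ nz (gp G {B}) (T.ox C G A a b' ξ)) ≤ q2 := by
      intro A hA b' hb'
      refine (e2 A hA a b' ha (fun x hx => (mem_bf.1 hb').1 x hx)).trans ?_
      rw [hq2]
      have h6 : K2 ≤ K := le_max_right _ _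
      gcongr
    have h5 := T.fin_rec hC G (l := l) ht ha M n q2 hq
    have h6 := T.t24_step hC G (l := l) (t := t) (n := n) (S := S + ε) (B := B + ε) (q2 := q2) (κ := K * ρ ^ (l + 1))
      (by linarith) (by linarith) hq20
      (fun A hA a' ha' => by
        have hcn : T.Cn A := T.t5b_cn (T.fo_single hC) hA
        have h7 := e3 A hA a' ha'
        have h8 := hSb A hcn a' (fun x hx => (mem_bf.1 ha').1 x hx)
        linarith)
      (fun A hA a' ha' hx => by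
        have hcn : T.Cn A := T.t5b_cn (T.fo_single hC) hA
        have h7 := e3 A hA a' ha'
        have h9 : ∀ x ∈ T.o A, a' x ≤ t - 1 := by
          intro x hx'
          have h10 := (mem_bf.1 ha').1 x hx'
          have h11 : a' x ≠ t := fun h => hx ⟨x, hx', h⟩
          omega
        have h8 := hBb A hcn a' h9
        rw [← T.MM_eq hcn (Nat.sub_le t 1) h9 n] at h8
        linarith)
      (e1.trans (mul_le_mul_of_nonneg_right (le_max_left _ _) (by positivity)))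
    refine h5.trans (add_le_add (add_le_add le_rfl ?_) ?_)
    · exact mul_le_mul_of_nonneg_left h6.1 (by positivity)
    · exact mul_le_mul_of_nonneg_left h6.2 (by positivity)
  -- let the error tend to zero
  have hlim : Tendsto (fun ε : ℝ => wt (2 * ((l + 1) * T.m ^ (l + 1) + T.m ^ (l + 1) * (M + 1))) +
      T.c0⁻¹ * (2 * Real.sqrt 2) * (((t : ℝ) + 1) ^ T.m * ((K * ρ ^ (l + 1)) * (S + ε) + (T.m : ℝ) ^ (l + 1) * (B + ε))) +
      T.c0⁻¹ * ((2 * (T.m : ℝ) ^ (l + 1)) * Real.sqrt (2 * (T.m : ℝ) ^ (l + 1))) *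
        ((T.m : ℝ) ^ (l + 1) * (((t : ℝ) + 1) ^ T.m * (q2 * (S + ε))))) (𝓝[>] 0)
      (𝓝 (wt (2 * ((l + 1) * T.m ^ (l + 1) + T.m ^ (l + 1) * (M + 1))) +
      T.c0⁻¹ * (2 * Real.sqrt 2) * (((t : ℝ) + 1) ^ T.m * ((K * ρ ^ (l + 1)) * S + (T.m : ℝ) ^ (l + 1) * B)) +
      T.c0⁻¹ * ((2 * (T.m : ℝ) ^ (l + 1)) * Real.sqrt (2 * (T.m : ℝ) ^ (l + 1))) *
        ((T.m : ℝ) ^ (l + 1) * (((t : ℝ) + 1) ^ T.m * (q2 * S))))) := by
    have hc : Continuous (fun ε : ℝ => wt (2 * ((l + 1) * T.m ^ (l + 1) + T.m ^ (l + 1) * (M + 1))) +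
      T.c0⁻¹ * (2 * Real.sqrt 2) * (((t : ℝ) + 1) ^ T.m * ((K * ρ ^ (l + 1)) * (S + ε) + (T.m : ℝ) ^ (l + 1) * (B + ε))) +
      T.c0⁻¹ * ((2 * (T.m : ℝ) ^ (l + 1)) * Real.sqrt (2 * (T.m : ℝ) ^ (l + 1))) *
        ((T.m : ℝ) ^ (l + 1) * (((t : ℝ) + 1) ^ T.m * (q2 * (S + ε))))) := by fun_prop
    have h7 := (hc.tendsto 0).mono_left (nhdsWithin_le_nhds (s := Set.Ioi 0))
    simpa only [add_zero] using h7
  refine ge_of_tendsto hlim ?_
  filter_upwards [self_mem_nhdsWithin] with ε hε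
  exact key ε hε

/-- TARGET. THE RECURSION IN `t`. Let `S t = sup {MM C t a n : C cone, a ≤ t}` for fixed `n` (bounded by `wt n`). Passing to the limit in `fin_rec` (with `exists_two`: eventually `Σ_A pr (tw) ≤ K ρ^(l+1)`, and `exists_ot`: `q2 = m^(l+1) K t^2/sqrt M`):
`S t ≤ wt l0 + c0^(-1) 2 sqrt 2 (t+1)^m (K ρ^(l+1) S t + m^(l+1) S (t-1)) + c0^(-1) (2N)^(3/2) N (t+1)^m · N K t^2/sqrt M · S t`, `N = m^(l+1)`. Choose `l + 1 = O(log (t+2))` such that the first coefficient of `S t` is `≤ 1/4`, and `M = O((t+2)^q)` such that the second one is `≤ 1/4`.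
Then `S t ≤ A (t+2)^q (1 + S (t-1))` with constants `A, q` not depending on `n`. -/
theorem TS.MM_rec (T : TS D r) : ∃ (A : ℝ) (q : ℕ), 0 < A ∧ ∀ (t n : ℕ) (B : ℝ), 2 ≤ t → 0 ≤ B → (∀ C, T.Cn C → ∀ a : V → ℕ, (∀ x ∈ T.o C, a x ≤ t - 1) → T.MM C (t - 1) a n ≤ B) →
    ∀ C, T.Cn C → ∀ a : V → ℕ, (∀ x ∈ T.o C, a x ≤ t) → T.MM C t a n ≤ A * ((t : ℝ) + 2) ^ q * (1 + B) := by
  obtain ⟨ρ, K, hρ, hρ1, hK, hrec⟩ := T.t24_rec
  have hc0 := T.c0_pos
  set c1 : ℝ := T.c0⁻¹ * (2 * Real.sqrt 2) with hc1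
  have hc1p : 0 < c1 := by positivity
  obtain ⟨h, hh1, hh2, hh3, hh4⟩ := t24_choice T.m hρ hρ1 (ε := 1 / (4 * c1 * K)) (by positivity)
  set N : ℕ → ℝ := fun t => (T.m : ℝ) ^ (h t) with hN
  have hN0 : ∀ t, 0 ≤ N t := fun t => by rw [hN]; positivity
  set X : ℕ → ℝ := fun t => 4 * (T.c0⁻¹ * ((2 * N t) * Real.sqrt (2 * N t)) * (N t * (((t : ℝ) + 1) ^ T.m * (N t * (K * (t : ℝ) ^ 2))))) with hX
  have hX0 : ∀ t, 0 ≤ X t := fun t => by
    have := hN0 t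
    rw [hX]; positivity
  set M : ℕ → ℕ := fun t => (⌈X t⌉₊ + 1) ^ 2 with hM
  have hM1 : ∀ t, 1 ≤ M t := fun t => Nat.pos_of_ne_zero (by rw [hM]; positivity)
  have hMs : ∀ t, Real.sqrt (M t : ℝ) = (⌈X t⌉₊ : ℝ) + 1 := fun t => by
    rw [hM]
    push_cast
    exact Real.sqrt_sq (by positivity)
  -- polynomial bounds
  have pN : T24pb N := hh3
  have pt1 : T24pb (fun t => ((t : ℝ) + 1) ^ T.m) :=
    t24_pb_mono (t24_pb_pow t24_pb_id (fun t => by positivity) T.m) fun t => pow_le_pow_left₀ (by positivity) (by linarith) _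
  have pt2 : T24pb (fun t => K * (t : ℝ) ^ 2) :=
    t24_pb_mono (t24_pb_cmul (t24_pb_pow t24_pb_id (fun t => by positivity) 2) (fun t => by positivity) K) fun t => by
      have : (0 : ℝ) ≤ t := Nat.cast_nonneg t
      gcongr
      linarith
  have p2N : T24pb (fun t => 2 * N t) := t24_pb_cmul pN hN0 2
  have h2N0 : ∀ t, 0 ≤ 2 * N t := fun t => mul_nonneg (by norm_num) (hN0 t)
  have psq : T24pb (fun t => Real.sqrt (2 * N t)) := by
    refine t24_pb_mono (t24_pb_add (t24_pb_const 1) p2N) fun t => ?_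
    have h1 := h2N0 t
    rw [Real.sqrt_le_left (by positivity)]
    nlinarith
  have pX : T24pb X := by
    have q1 := t24_pb_mul pN pt2 (fun t => by positivity)
    have q2 := t24_pb_mul pt1 q1 (fun t => mul_nonneg (hN0 t) (by positivity))
    have q3 := t24_pb_mul pN q2 (fun t => mul_nonneg (by positivity) (mul_nonneg (hN0 t) (by positivity)))
    have q4 := t24_pb_mul p2N psq (fun t => Real.sqrt_nonneg _)
    have q5 := t24_pb_cmul q4 (fun t => mul_nonneg (h2N0 t) (Real.sqrt_nonneg _)) T.c0⁻¹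
    have q6 := t24_pb_mul q5 q3 (fun t => mul_nonneg (hN0 t) (mul_nonneg (by positivity) (mul_nonneg (hN0 t) (by positivity))))
    exact t24_pb_cmul q6 (fun t => by have := hX0 t; rw [hX] at this; simp only at this; linarith) 4
  have pM : T24pb (fun t => (M t : ℝ)) := by
    refine t24_pb_mono (t24_pb_pow (t24_pb_add pX (t24_pb_const 2)) (fun t => by have := hX0 t; linarith) 2) fun t => ?_
    have h1 : (⌈X t⌉₊ : ℝ) < X t + 1 := Nat.ceil_lt_add_one (hX0 t)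
    rw [hM]
    push_cast
    exact pow_le_pow_left₀ (by positivity) (by linarith) 2
  set L0 : ℕ → ℕ := fun t => 2 * (h t * T.m ^ (h t) + T.m ^ (h t) * (M t + 1)) with hL0
  have pL0 : T24pb (fun t => (L0 t : ℝ)) := by
    have q1 := t24_pb_mul hh4 pN hN0
    have q2 := t24_pb_mul pN (t24_pb_add pM (t24_pb_const 1)) (fun t => by positivity)
    have q3 := t24_pb_cmul (t24_pb_add q1 q2) (fun t => by have := hN0 t; positivity) 2
    refine t24_pb_mono q3 fun t => ?_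
    rw [hL0, hN]
    push_cast
    exact le_rfl
  have pwt : T24pb (fun t => wt (L0 t)) := t24_pb_mono (t24_pb_pow pL0 (fun t => by positivity) 2) fun t => t24_wt_le _
  have hwt0 : ∀ t, 0 ≤ wt (L0 t) := fun t => m3_wt_nonneg _
  have pZ : T24pb (fun t => 2 * (wt (L0 t) + c1 * (((t : ℝ) + 1) ^ T.m * N t))) := by
    have q1 := t24_pb_cmul (t24_pb_mul pt1 pN hN0) (fun t => mul_nonneg (by positivity) (hN0 t)) c1
    exact t24_pb_cmul (t24_pb_add pwt q1) (fun t => add_nonneg (hwt0 t) (mul_nonneg hc1p.le (mul_nonneg (by positivity) (hN0 t)))) 2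
  obtain ⟨A, q, hA, hZ⟩ := pZ
  refine ⟨A, q, hA, fun t n B ht hB hBb C hC a ha => ?_⟩
  have hNt := hN0 t
  have hsup := t24_sup (P := fun x => ∃ C a, T.Cn C ∧ (∀ x ∈ T.o C, a x ≤ t) ∧ x = T.MM C t a n)
    (W := wt (L0 t) + c1 * (((t : ℝ) + 1) ^ T.m * (N t * B))) (b := wt n)
    (by
      rintro x ⟨C, a, hC, ha, rfl⟩
      exact (T.MM_le hC ha n).2)
    (by
      rintro S hS hSb x ⟨C, a, hC, ha, rfl⟩
      have h1 := hrec C hC (h t - 1) t (M t) n ht (hM1 t) a ha S B hS hB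
        (fun A hA a' ha' => hSb _ ⟨A, a', hA, ha', rfl⟩) hBb
      rw [Nat.sub_add_cancel (hh1 t)] at h1
      have e1 : ((T.m : ℝ) ^ (h t)) = N t := rfl
      rw [e1] at h1
      -- the first coefficient
      have h2 : c1 * (((t : ℝ) + 1) ^ T.m * (K * ρ ^ (h t))) ≤ 1 / 4 := by
        have h3 : ((t : ℝ) + 1) ^ T.m * ρ ^ (h t) ≤ 1 / (4 * c1 * K) := by
          refine le_trans ?_ (hh2 t)
          gcongr
          norm_num
        calc c1 * (((t : ℝ) + 1) ^ T.m * (K * ρ ^ (h t))) = c1 * K * (((t : ℝ) + 1) ^ T.m * ρ ^ (h t)) := by ring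
          _ ≤ c1 * K * (1 / (4 * c1 * K)) := by gcongr
          _ = 1 / 4 := by field_simp
      -- the second coefficient
      have h4 : T.c0⁻¹ * ((2 * N t) * Real.sqrt (2 * N t)) *
          (N t * (((t : ℝ) + 1) ^ T.m * ((N t * (K * (t : ℝ) ^ 2 / Real.sqrt (M t))) * S))) ≤ S / 4 := by
        have h5 : X t ≤ (⌈X t⌉₊ : ℝ) + 1 := (Nat.le_ceil _).trans (by linarith)
        have h6 : (0 : ℝ) < (⌈X t⌉₊ : ℝ) + 1 := by positivity
        rw [hMs t]
        have e3 : T.c0⁻¹ * ((2 * N t) * Real.sqrt (2 * N t)) *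
          (N t * (((t : ℝ) + 1) ^ T.m * ((N t * (K * (t : ℝ) ^ 2 / ((⌈X t⌉₊ : ℝ) + 1))) * S))) = (X t / ((⌈X t⌉₊ : ℝ) + 1)) * (S / 4) := by
          rw [div_mul_eq_mul_div, eq_div_iff h6.ne']
          have e4 : X t = 4 * (T.c0⁻¹ * ((2 * N t) * Real.sqrt (2 * N t)) * (N t * (((t : ℝ) + 1) ^ T.m * (N t * (K * (t : ℝ) ^ 2))))) := rfl
          generalize (⌈X t⌉₊ : ℝ) + 1 = Y at *
          rw [e4]
          field_simp
        rw [e3]
        calc (X t / ((⌈X t⌉₊ : ℝ) + 1)) * (S / 4) ≤ 1 * (S / 4) := by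
              refine mul_le_mul_of_nonneg_right ?_ (by linarith)
              rw [div_le_one h6]
              exact h5
          _ = S / 4 := one_mul _
      have h7 : c1 * (((t : ℝ) + 1) ^ T.m * ((K * ρ ^ (h t)) * S + N t * B)) =
          (c1 * (((t : ℝ) + 1) ^ T.m * (K * ρ ^ (h t)))) * S + c1 * (((t : ℝ) + 1) ^ T.m * (N t * B)) := by ring
      rw [h7] at h1
      have h8 := mul_le_mul_of_nonneg_right h2 hS
      have e5 : wt (2 * (h t * T.m ^ (h t) + T.m ^ (h t) * (M t + 1))) = wt (L0 t) := rfl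
      rw [e5] at h1
      linarith)
    (by
      rintro x ⟨C, a, hC, ha, rfl⟩
      exact (T.MM_le hC ha n).1)
  have h1 := hsup _ ⟨C, a, hC, ha, rfl⟩
  have h2 := hZ t
  have h3 : 0 ≤ c1 * (((t : ℝ) + 1) ^ T.m * N t) := by positivity
  calc T.MM C t a n ≤ 2 * (wt (L0 t) + c1 * (((t : ℝ) + 1) ^ T.m * (N t * B))) := h1
    _ ≤ 2 * (wt (L0 t) + c1 * (((t : ℝ) + 1) ^ T.m * N t)) * (1 + B) := by
        have h4 := mul_nonneg (hwt0 t) hB
        nlinarith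
    _ ≤ A * ((t : ℝ) + 2) ^ q * (1 + B) := mul_le_mul_of_nonneg_right h2 (by linarith)

/-- TARGET. hence `MM C t a n ≤ K t` with `K t ≤ exp (c t log (t+2))` -/
theorem TS.exists_Kt (T : TS D r) : ∃ (K : ℕ → ℝ) (c : ℝ), (∀ t, 1 ≤ K t) ∧ (∀ t : ℕ, 1 ≤ t → K t ≤ Real.exp (c * t * Real.log (t + 2))) ∧
    ∀ C, T.Cn C → ∀ (t : ℕ) (a : V → ℕ), 1 ≤ t → (∀ x ∈ T.o C, a x ≤ t) → ∀ n, T.MM C t a n ≤ K t := by
  obtain ⟨A, q, hA, hrec⟩ := T.MM_rec
  obtain ⟨K1, hK1, h1⟩ := T.exists_M1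
  have hA1 : (1 : ℝ) ≤ 2 * (A + 1) := by linarith
  refine ⟨fun t => (K1 + 1) * (2 * (A + 1)) ^ t * ((t : ℝ) + 2) ^ (q * t), Real.log (K1 + 1) + Real.log (2 * (A + 1)) + q, ?_, ?_, ?_⟩
  · intro t
    have h2 : (1 : ℝ) ≤ (2 * (A + 1)) ^ t := one_le_pow₀ hA1
    have h3 : (1 : ℝ) ≤ ((t : ℝ) + 2) ^ (q * t) := one_le_pow₀ (t24_one_le t)
    have h4 : (1 : ℝ) ≤ (K1 + 1) * (2 * (A + 1)) ^ t := one_le_mul_of_one_le_of_one_le (by linarith) h2
    exact one_le_mul_of_one_le_of_one_le h4 h3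
  · intro t ht
    have ht' : (1 : ℝ) ≤ t := by exact_mod_cast ht
    have hlog : 1 ≤ Real.log ((t : ℝ) + 2) := by
      rw [Real.le_log_iff_exp_le (by linarith)]
      have := Real.exp_one_lt_d9
      linarith
    have hl1 : 0 ≤ Real.log (K1 + 1) := Real.log_nonneg (by linarith)
    have hl2 : 0 ≤ Real.log (2 * (A + 1)) := Real.log_nonneg hA1
    have e1 : (K1 + 1) * (2 * (A + 1)) ^ t * ((t : ℝ) + 2) ^ (q * t) =
        Real.exp (Real.log (K1 + 1) + t * Real.log (2 * (A + 1)) + (q * t : ℕ) * Real.log ((t : ℝ) + 2)) := by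
      rw [Real.exp_add, Real.exp_add, Real.exp_log (by linarith), Real.exp_nat_mul, Real.exp_nat_mul, Real.exp_log (by linarith), Real.exp_log (by linarith)]
    simp only
    rw [e1]
    refine Real.exp_le_exp.2 ?_
    push_cast
    have h5 : Real.log (K1 + 1) ≤ Real.log (K1 + 1) * (t * Real.log ((t : ℝ) + 2)) := by
      refine le_mul_of_one_le_right hl1 ?_
      nlinarith
    have h6 : (t : ℝ) * Real.log (2 * (A + 1)) ≤ Real.log (2 * (A + 1)) * (t * Real.log ((t : ℝ) + 2)) := by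
      have h7 : (t : ℝ) ≤ t * Real.log ((t : ℝ) + 2) := by nlinarith
      nlinarith
    nlinarith
  · intro C hC t a ht ha n
    have key : ∀ t : ℕ, ∀ C, T.Cn C → ∀ a : V → ℕ, (∀ x ∈ T.o C, a x ≤ t + 1) →
        T.MM C (t + 1) a n ≤ (K1 + 1) * (2 * (A + 1)) ^ (t + 1) * (((t + 1 : ℕ) : ℝ) + 2) ^ (q * (t + 1)) := by
      intro t
      induction t with
      | zero =>
        intro C hC a ha
        have h2 := h1 C hC a (by simpa using ha) n
        have h3 : (1 : ℝ) ≤ (2 * (A + 1)) ^ (0 + 1) := one_le_pow₀ hA1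
        have h4 : (1 : ℝ) ≤ (((0 + 1 : ℕ) : ℝ) + 2) ^ (q * (0 + 1)) := one_le_pow₀ (by norm_num)
        have h5 : K1 + 1 ≤ (K1 + 1) * (2 * (A + 1)) ^ (0 + 1) * (((0 + 1 : ℕ) : ℝ) + 2) ^ (q * (0 + 1)) := by
          rw [mul_assoc]
          exact le_mul_of_one_le_right (by linarith) (one_le_mul_of_one_le_of_one_le h3 h4)
        simp only [Nat.zero_add] at h2 h5 ⊢
        linarith
      | succ t ih =>
        intro C hC a ha
        set B : ℝ := (K1 + 1) * (2 * (A + 1)) ^ (t + 1) * (((t + 1 : ℕ) : ℝ) + 2) ^ (q * (t + 1)) with hB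
        have hB1 : 1 ≤ B := by
          have h2 : (1 : ℝ) ≤ (2 * (A + 1)) ^ (t + 1) := one_le_pow₀ hA1
          have h3 : (1 : ℝ) ≤ (((t + 1 : ℕ) : ℝ) + 2) ^ (q * (t + 1)) := one_le_pow₀ (t24_one_le _)
          have h4 : (1 : ℝ) ≤ (K1 + 1) * (2 * (A + 1)) ^ (t + 1) := one_le_mul_of_one_le_of_one_le (by linarith) h2
          exact one_le_mul_of_one_le_of_one_le h4 h3
        have h2 := hrec (t + 1 + 1) n B (by omega) (by linarith) (fun C hC a ha => ih C hC a ha) C hC a ha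
        have hX1 : (1 : ℝ) ≤ (((t + 1 + 1 : ℕ) : ℝ) + 2) ^ q := one_le_pow₀ (t24_one_le _)
        have hXX : (((t + 1 : ℕ) : ℝ) + 2) ^ (q * (t + 1)) ≤ (((t + 1 + 1 : ℕ) : ℝ) + 2) ^ (q * (t + 1)) := by
          refine pow_le_pow_left₀ (by positivity) ?_ _
          push_cast
          linarith
        calc T.MM C (t + 1 + 1) a n ≤ A * (((t + 1 + 1 : ℕ) : ℝ) + 2) ^ q * (1 + B) := h2
          _ ≤ (A + 1) * (((t + 1 + 1 : ℕ) : ℝ) + 2) ^ q * (2 * B) := by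
              refine mul_le_mul ?_ (by linarith) (by linarith) (by positivity)
              exact mul_le_mul_of_nonneg_right (by linarith) (by positivity)
          _ = (K1 + 1) * (2 * (A + 1)) ^ (t + 1 + 1) * ((((t + 1 + 1 : ℕ) : ℝ) + 2) ^ q * (((t + 1 : ℕ) : ℝ) + 2) ^ (q * (t + 1))) := by
              rw [hB, pow_succ (2 * (A + 1)) (t + 1)]
              ring
          _ ≤ (K1 + 1) * (2 * (A + 1)) ^ (t + 1 + 1) * ((((t + 1 + 1 : ℕ) : ℝ) + 2) ^ q * (((t + 1 + 1 : ℕ) : ℝ) + 2) ^ (q * (t + 1))) := by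
              gcongr
          _ = (K1 + 1) * (2 * (A + 1)) ^ (t + 1 + 1) * (((t + 1 + 1 : ℕ) : ℝ) + 2) ^ (q * (t + 1 + 1)) := by
              rw [← pow_add]
              congr 2
              ring
    obtain ⟨k, rfl⟩ : ∃ k, t = k + 1 := ⟨t - 1, by omega⟩
    exact key k C hC a ha

/-- TARGET. eventual version -/
theorem TS.exists_Kt' (T : TS D r) : ∃ (K : ℕ → ℝ) (c : ℝ), (∀ t, 1 ≤ K t) ∧ (∀ t : ℕ, 1 ≤ t → K t ≤ Real.exp (c * t * Real.log (t + 2))) ∧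
    ∀ C, T.Cn C → ∀ (t n : ℕ), 1 ≤ t → ∀ᶠ G in (atTop : Filter (Finset V)), ∀ a ∈ bf (T.o C) t, T.FM C G t a n ≤ K t := by
  obtain ⟨K, c, h1, h2, h3⟩ := T.exists_Kt
  refine ⟨fun t => K t + 1, c + 1, fun t => by have := h1 t; simp only; linarith, ?_, ?_⟩
  · intro t ht
    have ht' : (1 : ℝ) ≤ t := by exact_mod_cast ht
    have hlog : 1 ≤ Real.log ((t : ℝ) + 2) := by
      rw [Real.le_log_iff_exp_le (by linarith)]
      have := Real.exp_one_lt_d9
      linarith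
    have h4 := h1 t
    have h5 := h2 t ht
    have h6 : (2 : ℝ) ≤ Real.exp ((t : ℝ) * Real.log (t + 2)) := by
      have h7 : (1 : ℝ) ≤ (t : ℝ) * Real.log (t + 2) := by nlinarith
      have h8 := Real.add_one_le_exp ((t : ℝ) * Real.log (t + 2))
      linarith
    have e1 : (c + 1) * t * Real.log (t + 2) = (t : ℝ) * Real.log (t + 2) + c * t * Real.log (t + 2) := by ring
    simp only
    rw [e1, Real.exp_add]
    have h9 : 0 < Real.exp (c * t * Real.log (t + 2)) := Real.exp_pos _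
    nlinarith
  · intro C hC t n ht
    rw [Filter.eventually_all_finset]
    intro a ha
    have ha' : ∀ x ∈ T.o C, a x ≤ t := fun x hx => (mem_bf.1 ha).1 x hx
    have h4 := h3 C hC t a ht ha' n
    have h5 := (T.tendsto_FM hC ha' n).eventually (gt_mem_nhds (show T.MM C t a n < K t + 1 by linarith))
    filter_upwards [h5] with G hG
    exact hG.le

end Pool.Agent.Helper910.QT
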