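import Mathlib
import Pool.Agent.Helper910.T24
import Pool.Agent.Helper910.M11

/-! The avalanche at `o`: upper bound (MP_4555f0_mp) -/

namespace Pool.Agent.Helper910.QT

open Classical Finset Filter Topology

variable {V : Type*} {D : SimpleGraph V} [D.LocallyFinite] {r : ℕ}

/-- the odometer of `k + 1` waves from `o` on `G.erase o` -/
noncomputable def ou (D : SimpleGraph V) [D.LocallyFinite] (r : ℕ) (o : V) (G : Finset V) (k : ℕ) (ζ : V → ℕ) : V → ℕ :=
  od D r ((k + 1) • dgi D {o}) (G.erase o) ζ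

/-- all neighbours of `o` topple at least `k` times in `k + 1` waves, and together with `o` exactly `n` vertices topple -/
def EA (D : SimpleGraph V) [D.LocallyFinite] (r : ℕ) (o : V) (G : Finset V) (k n : ℕ) (ζ : V → ℕ) : Prop :=
  (∀ y, D.Adj o y → k ≤ ou D r o G k ζ y) ∧ nz (G.erase o) (ou D r o G k ζ) + 1 = n

omit [D.LocallyFinite] in
theorem t25_wv {G : Finset V} {o : V} (ζ : V → ℕ) (i : ℕ) :
    wv D r o (G.erase o) ζ i = gw D r (dgi D {o}) (G.erase o) (gi D r (dgi D {o}) (G.erase o) i ζ) := by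
  have ho : o ∉ G.erase o := Finset.notMem_erase _ _
  have h1 : stp D r o (G.erase o) = gs D r 0 (dgi D {o}) (G.erase o) := funext (fun ζ => stp_eq_gs ho ζ)
  unfold wv itw gi
  rw [wav_eq_gw ho, h1]

theorem t25_adm (H : Gd D r) (G : Finset V) (o : V) : Adm D r 0 (dgi D {o}) (G.erase o) :=
  adm_dgi H (Finset.disjoint_singleton_left.2 (Finset.notMem_erase _ _))

theorem t25_inb (H : Gd D r) (G : Finset V) (o : V) (t : ℕ) : InB D r t (t • dgi D {o}) (G.erase o) :=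
  t3_inB (t25_adm H G o) t

theorem t25_ou_le (H : Gd D r) {G : Finset V} {o : V} {k : ℕ} {ζ : V → ℕ} (hζ : ζ ∈ Rc D r (G.erase o)) (x : V) :
    ou D r o G k ζ x ≤ k + 1 :=
  od_le_t (t25_inb H G o (k + 1)) (t3_rc_le hζ) x

theorem t25_ou_notMem {G : Finset V} {o : V} {k : ℕ} {ζ : V → ℕ} {x : V} (hx : x ∉ G.erase o) :
    ou D r o G k ζ x = 0 := od_notMem hx

theorem t25_ou_eq (H : Gd D r) {G : Finset V} {o : V} {k : ℕ} {ζ : V → ℕ} (hζ : ζ ∈ Rc D r (G.erase o)) (z : V) :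
    ou D r o G k ζ z = ((range (k + 1)).filter (fun i => z ∈ wv D r o (G.erase o) ζ i)).card := by
  unfold ou
  rw [od_waves (t25_adm H G o) hζ (k + 1) z]
  refine congrArg Finset.card (Finset.filter_congr (fun i _ => ?_))
  rw [t25_wv]

/-- TARGET. an avalanche of size `n ≥ 1` (`avalanche_cases`, `wav_eq_gw`, `stp_eq_gs`, `od_waves`; `Full k`: the first `k` waves contain all `r` neighbours of `o`;
`rg (k + 1)` is the set of toppled vertices) -/
theorem ea_of_av (H : Gd D r) {G : Finset V} {o : V} (ho : o ∈ G) {η : V → ℕ} (hη : η ∈ Rc D r G) {n : ℕ} (hn : 1 ≤ n) (h : AvalancheSize D r G o η n) :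
    η o = r ∧ ∃ k, EA D r o G k n (rs (G.erase o) η) := by
  have hζ : rs (G.erase o) η ∈ Rc D r (G.erase o) := rs_mem_Rc (Finset.erase_subset _ _) hη
  rcases avalanche_cases H.degLe ho hη H.one_le h with h | ⟨h1, k, hk, -, hkn⟩
  · omega
  · refine ⟨h1, k, ?_, ?_⟩
    · intro y hy
      rw [t25_ou_eq H hζ]
      calc k = (range k).card := (Finset.card_range k).symm
        _ ≤ _ := Finset.card_le_card ?_
      intro i hi
      rw [Finset.mem_range] at hi
      rw [Finset.mem_filter, Finset.mem_range]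
      exact ⟨by omega, H.full_nbr (le_of_eq (hk i hi).symm) y hy⟩
    · rw [hkn, add_comm 1]
      congr 1
      unfold nz rg
      congr 1
      ext z
      rw [Finset.mem_filter, Finset.mem_biUnion, t25_ou_eq H hζ, Finset.card_pos]
      constructor
      · rintro ⟨-, i, hi⟩
        rw [Finset.mem_filter] at hi
        exact ⟨i, hi.1, hi.2⟩
      · rintro ⟨i, hi, hz⟩
        refine ⟨?_, i, Finset.mem_filter.2 ⟨hi, hz⟩⟩
        rw [t25_wv] at hz
        exact gw_sub _ _ _ hz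

/-- TARGET. the map `η ↦ rs (G.erase o) η` is injective on the configurations with `η o = r`; `exists_er` -/
theorem TS.exists_av (T : TS D r) : ∃ C : ℝ, 0 < C ∧ ∀ (G : Finset V) (o : V), o ∈ G → ∀ n : ℕ, 1 ≤ n →
    pr D r G (fun η => AvalancheSize D r G o η n) ≤ C * pr D r (G.erase o) (fun ζ => ∃ k, EA D r o G k n ζ) := by
  obtain ⟨c, hc0, -, hc⟩ := T.exists_er
  refine ⟨c⁻¹, inv_pos.2 hc0, fun G o ho n hn => ?_⟩
  have H := T.gd
  have hc1 : 0 < ((Rc D r G).card : ℝ) := by exact_mod_cast H.card_pos G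
  have hc2 : 0 < ((Rc D r (G.erase o)).card : ℝ) := by exact_mod_cast H.card_pos (G.erase o)
  have hle : c * ((Rc D r (G.erase o)).card : ℝ) ≤ (Rc D r G).card := by
    have h1 := hc {o} G
    rw [Finset.card_singleton, pow_one, Finset.sdiff_singleton_eq_erase] at h1
    exact h1
  have hcard : ((Rc D r G).filter (fun η => AvalancheSize D r G o η n)).card ≤
      ((Rc D r (G.erase o)).filter (fun ζ => ∃ k, EA D r o G k n ζ)).card := by
    apply Finset.card_le_card_of_injOn (fun η => rs (G.erase o) η)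
    · intro η hη
      have hη' := Finset.mem_filter.1 (Finset.mem_coe.1 hη)
      apply Finset.mem_coe.2
      rw [Finset.mem_filter]
      exact ⟨rs_mem_Rc (Finset.erase_subset _ _) hη'.1, (ea_of_av H ho hη'.1 hn hη'.2).2⟩
    · intro η hη η' hη' heq
      have h1 := Finset.mem_filter.1 (Finset.mem_coe.1 hη)
      have h2 := Finset.mem_filter.1 (Finset.mem_coe.1 hη')
      have e1 : η o = r := (ea_of_av H ho h1.1 hn h1.2).1
      have e2 : η' o = r := (ea_of_av H ho h2.1 hn h2.2).1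
      funext z
      by_cases hz : z = o
      · rw [hz, e1, e2]
      · by_cases hzG : z ∈ G
        · have h3 := congrFun heq z
          have h4 : z ∈ G.erase o := Finset.mem_erase.2 ⟨hz, hzG⟩
          simp only [rs_mem h4] at h3
          exact h3
        · rw [((mem_Rc.1 h1.1).1).2 z hzG, ((mem_Rc.1 h2.1).1).2 z hzG]
  have h5 : (((Rc D r G).filter (fun η => AvalancheSize D r G o η n)).card : ℝ) ≤
      (((Rc D r (G.erase o)).filter (fun ζ => ∃ k, EA D r o G k n ζ)).card : ℝ) := by exact_mod_cast hcard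
  unfold pr
  rw [← mul_div_assoc, div_le_div_iff₀ hc1 hc2]
  set A := (((Rc D r G).filter (fun η => AvalancheSize D r G o η n)).card : ℝ) with hA
  set B := (((Rc D r (G.erase o)).filter (fun ζ => ∃ k, EA D r o G k n ζ)).card : ℝ) with hB
  have hA0 : 0 ≤ A := by rw [hA]; positivity
  have hB0 : 0 ≤ B := by rw [hB]; positivity
  calc A * ((Rc D r (G.erase o)).card : ℝ) = c⁻¹ * A * (c * ((Rc D r (G.erase o)).card : ℝ)) := by
        field_simp
    _ ≤ c⁻¹ * A * ((Rc D r G).card : ℝ) := mul_le_mul_of_nonneg_left hle (mul_nonneg (inv_nonneg.2 hc0.le) hA0)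
    _ ≤ c⁻¹ * B * ((Rc D r G).card : ℝ) :=
        mul_le_mul_of_nonneg_right (mul_le_mul_of_nonneg_left h5 (inv_nonneg.2 hc0.le)) hc1.le

/-- TARGET. `f x = k + 1 - ou x` (`k + 1` outside `G`, for `x ≠ o`) satisfies `f x + 1 ≤ r (f z + 1)` for neighbours `z ∈ G.erase o`, `x ≠ o` (`od_near_harm`, all terms are `≥ 0`) -/
theorem ou_step (H : Gd D r) {G : Finset V} {o : V} {k : ℕ} {ζ : V → ℕ} (hζ : ζ ∈ Rc D r (G.erase o)) {z x : V} (hz : z ∈ G) (hzo : z ≠ o) (hxo : x ≠ o) (hzx : D.Adj z x) :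
    (k + 1 - ou D r o G k ζ x) + 1 ≤ r * ((k + 1 - ou D r o G k ζ z) + 1) ∧ ou D r o G k ζ x ≤ k + 1 := by
  refine ⟨?_, t25_ou_le H hζ x⟩
  have hzG : z ∈ G.erase o := Finset.mem_erase.2 ⟨hzo, hz⟩
  have h1 := od_near_harm H (Finset.disjoint_singleton_left.2 (Finset.notMem_erase o G)) hζ (k + 1) hzG
  have h2 := (abs_le.1 h1).1
  have h3 : ((k + 1 : ℕ) : ℝ) - ou D r o G k ζ x ≤
      nsum D (fun x => ((k + 1 : ℕ) : ℝ) - if x ∈ ({o} : Finset V) then ((k + 1 : ℕ) : ℝ) else (od D r ((k + 1) • dgi D {o}) (G.erase o) ζ x : ℝ)) z := by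
    unfold nsum
    have h4 : x ∈ D.neighborFinset z := by rw [SimpleGraph.mem_neighborFinset]; exact hzx
    have h5 := Finset.single_le_sum (f := fun x => ((k + 1 : ℕ) : ℝ) - if x ∈ ({o} : Finset V) then ((k + 1 : ℕ) : ℝ) else (od D r ((k + 1) • dgi D {o}) (G.erase o) ζ x : ℝ))
      (fun i _ => ?_) h4
    · have h6 : x ∉ ({o} : Finset V) := by rw [Finset.mem_singleton]; exact hxo
      simp only [if_neg h6] at h5
      exact h5
    · show (0 : ℝ) ≤ ((k + 1 : ℕ) : ℝ) - if i ∈ ({o} : Finset V) then ((k + 1 : ℕ) : ℝ) else (od D r ((k + 1) • dgi D {o}) (G.erase o) ζ i : ℝ)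
      split_ifs
      · simp
      · have h7 : (od D r ((k + 1) • dgi D {o}) (G.erase o) ζ i : ℝ) ≤ ((k + 1 : ℕ) : ℝ) := by
          exact_mod_cast t25_ou_le (k := k) H hζ i
        linarith
  have h8 := t25_ou_le (k := k) H hζ x
  have h9 := t25_ou_le (k := k) H hζ z
  have h10 : ((k + 1 : ℕ) : ℝ) - ou D r o G k ζ x + 1 ≤ r * (((k + 1 : ℕ) : ℝ) - ou D r o G k ζ z + 1) := by
    have h11 : (od D r ((k + 1) • dgi D {o}) (G.erase o) ζ z : ℝ) = (ou D r o G k ζ z : ℝ) := rfl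
    rw [h11] at h2
    nlinarith [h2, h3]
  have h12 : (((k + 1 - ou D r o G k ζ x) + 1 : ℕ) : ℝ) ≤ ((r * ((k + 1 - ou D r o G k ζ z) + 1) : ℕ) : ℝ) := by
    push_cast [Nat.cast_sub h8, Nat.cast_sub h9]
    push_cast at h10
    linarith
  exact_mod_cast h12

/-- the step along a walk avoiding `o` -/
theorem t25_walk (H : Gd D r) {G : Finset V} {o : V} {k : ℕ} {ζ : V → ℕ} (hζ : ζ ∈ Rc D r (G.erase o)) :
    ∀ {a b : V} (p : D.Walk a b), (∀ v ∈ p.support, v ≠ o) → (∀ v ∈ p.support, v ∈ G ∨ v = b) →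
      (k + 1 - ou D r o G k ζ b) + 1 ≤ r ^ p.length * ((k + 1 - ou D r o G k ζ a) + 1) := by
  intro a b p
  induction p with
  | nil => intro _ _; simp
  | @cons a c b h p ih =>
    intro h1 h2
    have hr := H.one_le
    have ih' := ih (fun v hv => h1 v (by rw [SimpleGraph.Walk.support_cons]; exact List.mem_cons_of_mem _ hv))
      (fun v hv => h2 v (by rw [SimpleGraph.Walk.support_cons]; exact List.mem_cons_of_mem _ hv))
    have ha : a ≠ o := h1 a (SimpleGraph.Walk.start_mem_support _)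
    have hc : c ≠ o := h1 c (by rw [SimpleGraph.Walk.support_cons]; exact List.mem_cons_of_mem _ (SimpleGraph.Walk.start_mem_support _))
    rcases h2 a (SimpleGraph.Walk.start_mem_support _) with haG | hab
    · have h3 := (ou_step H hζ (k := k) haG ha hc h).1
      rw [SimpleGraph.Walk.length_cons, pow_succ]
      calc _ ≤ r ^ p.length * ((k + 1 - ou D r o G k ζ c) + 1) := ih'
        _ ≤ r ^ p.length * (r * ((k + 1 - ou D r o G k ζ a) + 1)) := Nat.mul_le_mul_left _ h3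
        _ = _ := by ring
    · subst hab
      exact Nat.le_mul_of_pos_left _ (Nat.pow_pos hr)

theorem t25_first {G : Finset V} {o : V} {k n : ℕ} {ζ : V → ℕ} (h : EA D r o G k n ζ) {a : V}
    (ha : D.Adj o a) : (k + 1 - ou D r o G k ζ a) + 1 ≤ 2 := by
  have := h.1 a ha
  omega

/-- TARGET. the number of waves is bounded: take a simple path `o = x0, x1, ..., xL` to a vertex outside the toppled set (`V` is infinite), with `x1, ..., x(L-1)` toppled, `L ≤ n`; the value of `f` is `≤ 1` at `x1` (if `L = 1` then `k = 0`) and `k + 1` at `xL` -/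
theorem ea_le (H : Gd D r) {G : Finset V} {o : V} {k n : ℕ} {ζ : V → ℕ} (hζ : ζ ∈ Rc D r (G.erase o)) (h : EA D r o G k n ζ) : k ≤ 2 * r ^ n := by
  have hr := H.one_le
  set S : Finset V := insert o ((G.erase o).filter (fun z => 0 < ou D r o G k ζ z)) with hS
  have hoS : o ∉ (G.erase o).filter (fun z => 0 < ou D r o G k ζ z) := by
    intro h1
    exact Finset.notMem_erase o G (Finset.mem_filter.1 h1).1
  have hScard : S.card = n := by
    rw [hS, Finset.card_insert_of_notMem hoS]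
    exact h.2
  have hout : ∀ z, z ∉ S → ou D r o G k ζ z = 0 := by
    intro z hz
    by_contra h0
    apply hz
    rw [hS]
    refine Finset.mem_insert_of_mem (Finset.mem_filter.2 ⟨?_, Nat.pos_of_ne_zero h0⟩)
    by_contra h1
    exact h0 (t25_ou_notMem h1)
  have hin : ∀ z ∈ S, z ≠ o → z ∈ G := by
    intro z hz hzo
    rw [hS] at hz
    rcases Finset.mem_insert.1 hz with rfl | hz
    · exact absurd rfl hzo
    · exact (Finset.mem_erase.1 (Finset.mem_filter.1 hz).1).2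
  have key : ∀ m : ℕ, m + 1 ≤ n → (∃ U : Finset V, U ⊆ S ∧ o ∈ U ∧ U.card = m + 1 ∧
      ∀ z ∈ U, z ≠ o → (k + 1 - ou D r o G k ζ z) + 1 ≤ 2 * r ^ m) ∨ k ≤ 2 * r ^ n := by
    intro m
    induction m with
    | zero =>
      intro _
      left
      refine ⟨{o}, ?_, Finset.mem_singleton_self _, Finset.card_singleton _, ?_⟩
      · rw [Finset.singleton_subset_iff, hS]; exact Finset.mem_insert_self _ _
      · intro z hz hzo; exact absurd (Finset.mem_singleton.1 hz) hzo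
    | succ m ih =>
      intro hm
      rcases ih (by omega) with ⟨U, hUS, hoU, hUc, hU⟩ | h1
      swap
      · exact Or.inr h1
      obtain ⟨z, hz, b, hb, hzb⟩ := H.exit ⟨o, hoU⟩
      have hbo : b ≠ o := fun h1 => hb (h1 ▸ hoU)
      have hfb : (k + 1 - ou D r o G k ζ b) + 1 ≤ 2 * r ^ (m + 1) := by
        by_cases hzo : z = o
        · subst hzo
          calc _ ≤ 2 := t25_first h hzb
            _ ≤ 2 * r ^ (m + 1) := Nat.le_mul_of_pos_right _ (Nat.pow_pos hr)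
        · have h2 := (ou_step H hζ (k := k) (hin z (hUS hz) hzo) hzo hbo hzb).1
          calc _ ≤ r * ((k + 1 - ou D r o G k ζ z) + 1) := h2
            _ ≤ r * (2 * r ^ m) := Nat.mul_le_mul_left _ (hU z hz hzo)
            _ = _ := by ring
      by_cases hbS : b ∈ S
      · left
        refine ⟨insert b U, Finset.insert_subset hbS hUS, Finset.mem_insert_of_mem hoU, ?_, ?_⟩
        · rw [Finset.card_insert_of_notMem hb, hUc]
        · intro w hw hwo
          rcases Finset.mem_insert.1 hw with rfl | hw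
          · exact hfb
          · calc _ ≤ 2 * r ^ m := hU w hw hwo
              _ ≤ 2 * r ^ (m + 1) := Nat.mul_le_mul_left _ (Nat.pow_le_pow_right hr (Nat.le_succ m))
      · right
        rw [hout b hbS] at hfb
        calc k ≤ (k + 1 - 0) + 1 := by omega
          _ ≤ 2 * r ^ (m + 1) := hfb
          _ ≤ 2 * r ^ n := Nat.mul_le_mul_left _ (Nat.pow_le_pow_right hr (by omega))
  have hn : 1 ≤ n := by
    have := h.2
    omega
  rcases key (n - 1) (by omega) with ⟨U, hUS, hoU, hUc, hU⟩ | h1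
  swap
  · exact h1
  have hUS' : U = S := Finset.eq_of_subset_of_card_le hUS (by rw [hScard, hUc]; omega)
  obtain ⟨z, hz, b, hb, hzb⟩ := H.exit ⟨o, hoU⟩
  have hbo : b ≠ o := fun h1 => hb (h1 ▸ hoU)
  have hfb : (k + 1 - ou D r o G k ζ b) + 1 ≤ 2 * r ^ n := by
    by_cases hzo : z = o
    · subst hzo
      calc _ ≤ 2 := t25_first h hzb
        _ ≤ 2 * r ^ n := Nat.le_mul_of_pos_right _ (Nat.pow_pos hr)
    · have h2 := (ou_step H hζ (k := k) (hin z (hUS hz) hzo) hzo hbo hzb).1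
      calc _ ≤ r * ((k + 1 - ou D r o G k ζ z) + 1) := h2
        _ ≤ r * (2 * r ^ (n - 1)) := Nat.mul_le_mul_left _ (hU z hz hzo)
        _ = 2 * r ^ (n - 1 + 1) := by ring
        _ = _ := by rw [Nat.sub_add_cancel hn]
  rw [hout b (hUS' ▸ hb)] at hfb
  omega

/-- TARGET. near a cone: a simple path in `Q0 ∪ {y}` from `o` to `y` -/
theorem ea_near (H : Gd D r) {G Q0 : Finset V} {o : V} (hQ0 : Q0 ⊆ G) (hconn : InConn D (Q0 : Set V)) (ho : o ∈ Q0) {k n : ℕ} {ζ : V → ℕ} (hζ : ζ ∈ Rc D r (G.erase o))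
    (h : EA D r o G k n ζ) {x y : V} (hx : x ∈ Q0) (hxy : D.Adj x y) (hy : y ∉ Q0) : k + 1 ≤ ou D r o G k ζ y + 2 * r ^ Q0.card := by
  have hr := H.one_le
  have hyo : y ≠ o := fun h1 => hy (h1 ▸ ho)
  obtain ⟨p0, hp0, hp0'⟩ := short_walk hconn ho hx
  -- a path
  set p := p0.bypass with hp
  have hpp : p.IsPath := p0.bypass_isPath
  have hpl : p.length < Q0.card := lt_of_le_of_lt (SimpleGraph.Walk.length_bypass_le_length p0) hp0
  have hps : ∀ v ∈ p.support, v ∈ Q0 := fun v hv => hp0' v (SimpleGraph.Walk.support_bypass_subset_support p0 hv)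
  have hle : (k + 1 - ou D r o G k ζ y) + 1 ≤ 2 * r ^ Q0.card := by
    by_cases hxo : x = o
    · subst hxo
      calc _ ≤ 2 := t25_first h hxy
        _ ≤ _ := Nat.le_mul_of_pos_right _ (Nat.pow_pos hr)
    · clear_value p
      cases p with
      | nil => exact absurd rfl hxo
      | @cons _ a _ hoa q =>
        rw [SimpleGraph.Walk.cons_isPath_iff] at hpp
        have h1 : ∀ v ∈ q.support, v ≠ o := fun v hv h2 => hpp.2 (h2 ▸ hv)
        have h2 : ∀ v ∈ q.support, v ∈ G ∨ v = x := fun v hv =>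
          Or.inl (hQ0 (hps v (by rw [SimpleGraph.Walk.support_cons]; exact List.mem_cons_of_mem _ hv)))
        have h3 := t25_walk H hζ (k := k) q h1 h2
        have h4 := (ou_step H hζ (k := k) (hQ0 hx) hxo hyo hxy).1
        rw [SimpleGraph.Walk.length_cons] at hpl
        calc _ ≤ r * ((k + 1 - ou D r o G k ζ x) + 1) := h4
          _ ≤ r * (r ^ q.length * ((k + 1 - ou D r o G k ζ a) + 1)) := Nat.mul_le_mul_left _ h3
          _ ≤ r * (r ^ q.length * 2) := Nat.mul_le_mul_left _ (Nat.mul_le_mul_left _ (t25_first h hoa))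
          _ = 2 * r ^ (q.length + 1) := by ring
          _ ≤ 2 * r ^ Q0.card := Nat.mul_le_mul_left _ (Nat.pow_le_pow_right hr (by omega))
  omega

omit [D.LocallyFinite] in
theorem t25_union {Q1 Q2 : Set V} (h1 : InConn D Q1) (h2 : InConn D Q2) {u v : V} (hu : u ∈ Q1) (hv : v ∈ Q2)
    (huv : D.Adj u v) : InConn D (Q1 ∪ Q2) := by
  obtain ⟨e, he⟩ : ∃ p : D.Walk u v, ∀ z ∈ p.support, z ∈ Q1 ∪ Q2 := by
    refine ⟨SimpleGraph.Walk.cons huv SimpleGraph.Walk.nil, fun z hz => ?_⟩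
    rw [SimpleGraph.Walk.support_cons, SimpleGraph.Walk.support_nil, List.mem_cons, List.mem_singleton] at hz
    rcases hz with rfl | rfl
    · exact Or.inl hu
    · exact Or.inr hv
  have key : ∀ a ∈ Q1 ∪ Q2, ∃ p : D.Walk a u, ∀ z ∈ p.support, z ∈ Q1 ∪ Q2 := by
    intro a ha
    rcases ha with ha | ha
    · obtain ⟨p, hp⟩ := h1 a ha u hu
      exact ⟨p, fun z hz => Or.inl (hp z hz)⟩
    · obtain ⟨p, hp⟩ := h2 a ha v hv
      refine ⟨p.append e.reverse, fun z hz => ?_⟩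
      rw [SimpleGraph.Walk.mem_support_append_iff] at hz
      rcases hz with hz | hz
      · exact Or.inr (hp z hz)
      · rw [SimpleGraph.Walk.support_reverse, List.mem_reverse] at hz
        exact he z hz
  intro a ha b hb
  obtain ⟨p, hp⟩ := key a ha
  obtain ⟨q, hq⟩ := key b hb
  refine ⟨p.append q.reverse, fun z hz => ?_⟩
  rw [SimpleGraph.Walk.mem_support_append_iff] at hz
  rcases hz with hz | hz
  · exact hp z hz
  · rw [SimpleGraph.Walk.support_reverse, List.mem_reverse] at hz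
    exact hq z hz

/-- TARGET. the base: a finite connected set containing `o` and its neighbours whose complement is the union of at least two cones (`fill` for `{o} ∪ N(o)`; if there is only one cone `C`, replace `Q0` by `Q0 ∪ Q C` and `{C}` by `ch C`) -/
theorem TS.base (T : TS D r) (o : V) : ∃ (Q0 : Finset V) (F : Finset (Set V)), o ∈ Q0 ∧ (∀ y, D.Adj o y → y ∈ Q0) ∧ InConn D (Q0 : Set V) ∧ T.Fo F ∧
    (∀ C ∈ F, T.o C ⊆ Q0) ∧ (∀ C ∈ F, ∀ z ∈ Q0, z ∉ C) ∧ (∀ z, z ∈ Q0 ∨ ∃ C ∈ F, z ∈ C) ∧ 2 ≤ F.card := by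
  obtain ⟨Q0, F, hB, hconn, hcn, hdisj, hoF, hQ0F, hcov⟩ := T.fill (insert o (D.neighborFinset o))
  have hoQ : o ∈ Q0 := hB (Finset.mem_insert_self _ _)
  have hN : ∀ y, D.Adj o y → y ∈ Q0 := fun y hy =>
    hB (Finset.mem_insert_of_mem ((SimpleGraph.mem_neighborFinset _ _ _).2 hy))
  by_cases hF2 : 2 ≤ F.card
  · exact ⟨Q0, F, hoQ, hN, hconn, ⟨hcn, hdisj, fun C hC C' hC' x hx => hQ0F C' hC' x (hoF C hC hx)⟩, hoF, hQ0F, hcov, hF2⟩
  · have hne : F.Nonempty := by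
      by_contra hF
      rw [Finset.not_nonempty_iff_eq_empty] at hF
      subst hF
      have : Finite V := by
        refine Set.finite_univ_iff.1 ((Q0.finite_toSet).subset (fun z _ => ?_))
        rcases hcov z with h | ⟨C, hC, -⟩
        · exact h
        · exact absurd hC (Finset.notMem_empty _)
      exact T.gd.inf.not_finite this
    have hc1 : F.card = 1 := by
      have := Finset.card_pos.2 hne
      omega
    obtain ⟨C, rfl⟩ := Finset.card_eq_one.1 hc1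
    have hC : T.Cn C := hcn C (Finset.mem_singleton_self _)
    have hoC : T.o C ⊆ Q0 := hoF C (Finset.mem_singleton_self _)
    have hQC : ∀ z ∈ Q0, z ∉ C := hQ0F C (Finset.mem_singleton_self _)
    refine ⟨Q0 ∪ T.Q C, T.ch C, Finset.mem_union_left _ hoQ, fun y hy => Finset.mem_union_left _ (hN y hy), ?_, T.fo_ch hC, ?_, ?_, ?_, T.two hC⟩
    · obtain ⟨x, hx⟩ := T.o_ne hC
      obtain ⟨y, hy, hxy⟩ := T.o_edge hC hx
      rw [Finset.coe_union]
      exact t25_union hconn (T.Q_conn hC) (Finset.mem_coe.2 (hoC hx)) (Finset.mem_coe.2 hy) hxy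
    · intro C' hC'
      exact (T.o_sub hC C' hC').trans Finset.subset_union_right
    · intro C' hC' z hz
      rcases Finset.mem_union.1 hz with hz | hz
      · exact fun h1 => hQC z hz (T.ch_sub hC hC' h1)
      · exact T.Q_notMem hC C' hC' z hz
    · intro z
      rcases hcov z with h | ⟨C'', hC'', hz⟩
      · exact Or.inl (Finset.mem_union_left _ h)
      · rw [Finset.mem_singleton] at hC''
        subst hC''
        rcases (T.mem_iff hC z).1 hz with h | h
        · exact Or.inl (Finset.mem_union_right _ h)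
        · exact Or.inr h

omit [D.LocallyFinite] in
theorem t25_sum_eq {A B : Finset V} {F : V → ℕ} (h1 : ∀ x ∈ A, x ∉ B → F x = 0) (h2 : ∀ x ∈ B, x ∉ A → F x = 0) :
    ∑ x ∈ A, F x = ∑ x ∈ B, F x := by
  rw [← Finset.sum_subset (Finset.inter_subset_left : A ∩ B ⊆ A) (fun x hx hx' => h1 x hx (fun h => hx' (Finset.mem_inter.2 ⟨hx, h⟩))),
    ← Finset.sum_subset (Finset.inter_subset_right : A ∩ B ⊆ B) (fun x hx hx' => h2 x hx (fun h => hx' (Finset.mem_inter.2 ⟨h, hx⟩)))]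

theorem t25_mem_gp1 {G : Finset V} {c : Set V} {z : V} : z ∈ gp G {c} ↔ z ∈ G ∧ z ∈ c := t6_mem_gp

omit [D.LocallyFinite] in
theorem t25_gpd {S G : Finset V} {c : Set V} : Disjoint (gp G {c}) (S.filter (fun z => z ∉ c)) := by
  rw [Finset.disjoint_left]
  intro z h1 h2
  have h3 := (Finset.mem_filter.1 h2).2
  unfold gp at h1
  rw [mem_prt] at h1
  obtain ⟨-, C, hC, hz⟩ := h1
  rw [Finset.mem_singleton] at hC
  exact h3 (hC ▸ hz)

theorem t25_gp {G : Finset V} {c : Set V} {o : V} (hoc : o ∉ c) : gp G {c} ∪ (G.erase o).filter (fun z => z ∉ c) = G.erase o := by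
  ext z
  rw [Finset.mem_union, t25_mem_gp1, Finset.mem_filter, Finset.mem_erase]
  constructor
  · rintro (⟨h1, h2⟩ | ⟨h1, -⟩)
    · exact ⟨fun h => hoc (h ▸ h2), h1⟩
    · exact h1
  · intro h
    by_cases hz : z ∈ c
    · exact Or.inl ⟨h.2, hz⟩
    · exact Or.inr ⟨h, hz⟩

theorem t25_sol (H : Gd D r) {G : Finset V} {o : V} {k : ℕ} {ζ : V → ℕ} (hζ : ζ ∈ Rc D r (G.erase o)) :
    SolO D r ((k + 1) • dgi D {o}) (G.erase o) ζ (fun z => if z ∈ G.erase o then (k + 1) else 0) :=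
  solO_const (t25_inb H G o (k + 1)) (t3_rc_le hζ)

/-- TARGET. decomposition of the odometer at a cone `c` whose outer boundary does not contain `o` and which does not contain `o` (`od_restrict`) -/
theorem TS.ou_in (T : TS D r) {c : Set V} (hc : T.Cn c) {G : Finset V} {o : V} (hoc : o ∉ c) (hob : o ∉ T.o c) {k : ℕ} {ζ : V → ℕ} (hζ : ζ ∈ Rc D r (G.erase o)) {z : V} (hz : z ∈ c) :
    ou D r o G k ζ z = T.oc c G (rs (T.o c) (ou D r o G k ζ)) (rs (gp G {c}) ζ) z := by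
  have hzo : z ≠ o := fun h => hoc (h ▸ hz)
  by_cases hzG : z ∈ G
  swap
  · rw [t25_ou_notMem (fun h => hzG (Finset.mem_erase.1 h).2)]
    unfold TS.oc
    rw [od_notMem (fun h => hzG (t25_mem_gp1.1 h).1)]
  have hzg : z ∈ gp G {c} := t25_mem_gp1.2 ⟨hzG, hz⟩
  have hsol := t25_sol T.gd hζ (k := k)
  have h1 : ou D r o G k ζ z = od D r (fun y => ((k + 1) • dgi D {o}) y + ∑ x ∈ (G.erase o).filter (fun z => z ∉ c), if D.Adj y x then ou D r o G k ζ x else 0) (gp G {c}) ζ z := by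
    have h2 := od_restrict (f := (k + 1) • dgi D {o}) (G1 := gp G {c}) (G2 := (G.erase o).filter (fun z => z ∉ c)) (ζ := ζ)
      (u := fun z => if z ∈ G.erase o then (k + 1) else 0) t25_gpd (by rw [t25_gp hoc]; exact hsol) hzg
    rw [t25_gp hoc] at h2
    exact h2
  rw [h1]
  unfold TS.oc
  refine congrFun (od_congr ?_) z
  intro y hy
  have hyc := (t25_mem_gp1.1 hy).2
  rw [rs_mem hy]
  congr 1
  have h3 : ((k + 1) • dgi D {o}) y = 0 := by
    rw [Pi.smul_apply]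
    have h4 : dgi D {o} y = 0 := by
      show dg D y {o} = 0
      rw [dg_singleton, if_neg]
      intro h5
      exact hob ((T.mem_o hc o).2 ⟨hoc, y, hyc, h5.symm⟩)
    rw [h4, smul_zero]
  rw [h3, zero_add]
  unfold inp
  have h6 : ∑ x ∈ T.o c, (if D.Adj y x then rs (T.o c) (ou D r o G k ζ) x else 0) = ∑ x ∈ T.o c, (if D.Adj y x then ou D r o G k ζ x else 0) :=
    Finset.sum_congr rfl (fun x hx => by rw [rs_mem hx])
  rw [h6]
  refine t25_sum_eq ?_ ?_
  · intro x hx hx'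
    rw [if_neg]
    intro h7
    exact hx' ((T.mem_o hc x).2 ⟨(Finset.mem_filter.1 hx).2, y, hyc, h7.symm⟩)
  · intro x hx hx'
    have h8 : x ∉ G.erase o := fun h => hx' (Finset.mem_filter.2 ⟨h, T.o_notMem hc hx⟩)
    rw [t25_ou_notMem h8, ite_self]

/-- TARGET. -/
theorem TS.ou_out (T : TS D r) {c : Set V} (hc : T.Cn c) {G : Finset V} {o : V} (hoc : o ∉ c) (hob : o ∉ T.o c) {k : ℕ} {ζ : V → ℕ} (hζ : ζ ∈ Rc D r (G.erase o)) {z : V} (hz : z ∉ c) :
    ou D r o G k ζ z = od D r (fun z => ((k + 1) • dgi D {o}) z + inp D (T.ib c) (rs (T.ib c) (ou D r o G k ζ)) z) ((G.erase o).filter (fun z => z ∉ c))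
      (rs ((G.erase o).filter (fun z => z ∉ c)) ζ) z := by
  by_cases hzG : z ∈ G.erase o
  swap
  · rw [t25_ou_notMem hzG, od_notMem (fun h => hzG (Finset.mem_filter.1 h).1)]
  have hzg : z ∈ (G.erase o).filter (fun z => z ∉ c) := Finset.mem_filter.2 ⟨hzG, hz⟩
  have hsol := t25_sol T.gd hζ (k := k)
  have hun : (G.erase o).filter (fun z => z ∉ c) ∪ gp G {c} = G.erase o := by rw [Finset.union_comm]; exact t25_gp hoc
  have h1 : ou D r o G k ζ z = od D r (fun y => ((k + 1) • dgi D {o}) y + ∑ x ∈ gp G {c}, if D.Adj y x then ou D r o G k ζ x else 0) ((G.erase o).filter (fun z => z ∉ c)) ζ z := by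
    have h2 := od_restrict (f := (k + 1) • dgi D {o}) (G1 := (G.erase o).filter (fun z => z ∉ c)) (G2 := gp G {c}) (ζ := ζ)
      (u := fun z => if z ∈ G.erase o then (k + 1) else 0) t25_gpd.symm (by rw [hun]; exact hsol) hzg
    rw [hun] at h2
    exact h2
  rw [h1]
  refine congrFun (od_congr ?_) z
  intro y hy
  have hyc := (Finset.mem_filter.1 hy).2
  rw [rs_mem hy]
  congr 2
  unfold inp
  have h6 : ∑ x ∈ T.ib c, (if D.Adj y x then rs (T.ib c) (ou D r o G k ζ) x else 0) = ∑ x ∈ T.ib c, (if D.Adj y x then ou D r o G k ζ x else 0) :=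
    Finset.sum_congr rfl (fun x hx => by rw [rs_mem hx])
  rw [h6]
  refine t25_sum_eq ?_ ?_
  · intro x hx hx'
    rw [if_neg]
    intro h7
    have h8 := T.ib_sub hc (t25_mem_gp1.1 hx).2 hyc h7.symm
    exact hx' (Finset.mem_filter.2 ⟨h8.1, y, h8.2, h7⟩)
  · intro x hx hx'
    have h9 : x ∈ c := T.Q_sub hc (Finset.mem_filter.1 hx).1
    have h8 : x ∉ G.erase o := fun h => hx' (t25_mem_gp1.2 ⟨(Finset.mem_erase.1 h).2, h9⟩)
    rw [t25_ou_notMem h8, ite_self]

/-! ### the cut -/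

omit [D.LocallyFinite] in
theorem t25_inp_le {A : Finset V} {a : V → ℕ} {t : ℕ} (ha : ∀ x ∈ A, a x ≤ t) (z : V) : inp D A a z ≤ t * dg D z A := by
  unfold inp
  rw [dg_eq_sum, Finset.mul_sum]
  refine Finset.sum_le_sum (fun x hx => ?_)
  split_ifs
  · rw [mul_one]; exact ha x hx
  · exact Nat.zero_le _

/-- the input of the rest -/
noncomputable def TS.t25_f (T : TS D r) (o : V) (k : ℕ) (c : Set V) (b : V → ℕ) : V → ℕ :=
  fun z => ((k + 1) • dgi D {o}) z + inp D (T.ib c) b z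

/-- the rest -/
noncomputable def t25_R (G : Finset V) (o : V) (c : Set V) : Finset V := (G.erase o).filter (fun z => z ∉ c)

theorem TS.t25_ib (T : TS D r) {c : Set V} (hc : T.Cn c) {x : V} (hx : x ∈ T.ib c) : x ∈ c := T.Q_sub hc (Finset.mem_filter.1 hx).1

theorem TS.t25_inb (T : TS D r) {c : Set V} (hc : T.Cn c) (G : Finset V) {o : V} (hoc : o ∉ c) {k : ℕ} {b : V → ℕ} (hb : ∀ x ∈ T.ib c, b x ≤ k + 1) :
    InB D r (k + 1) (T.t25_f o k c b) (t25_R G o c) := by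
  intro z hz
  have h1 := t25_inp_le (D := D) hb z
  have h2 : dg D z {o} + dg D z (T.ib c) + dg D z (t25_R G o c) ≤ r := by
    have hd1 : Disjoint ({o} : Finset V) (T.ib c) := by
      rw [Finset.disjoint_singleton_left]
      exact fun h => hoc (T.t25_ib hc h)
    have hd2 : Disjoint ({o} ∪ T.ib c) (t25_R G o c) := by
      rw [Finset.disjoint_left]
      intro x hx hx'
      have h3 := Finset.mem_filter.1 hx'
      rcases Finset.mem_union.1 hx with h | h
      · rw [Finset.mem_singleton] at h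
        subst h
        exact Finset.notMem_erase _ _ h3.1
      · exact h3.2 (T.t25_ib hc h)
    rw [← dg_union hd1, ← dg_union hd2]
    exact T.gd.degLe z _
  have h3 : ((k + 1) • dgi D {o}) z = (k + 1) * dg D z {o} := by
    rw [Pi.smul_apply, smul_eq_mul]; rfl
  unfold TS.t25_f
  show ((k + 1) • dgi D {o}) z + inp D (T.ib c) b z + (k + 1) * dg D z (t25_R G o c) ≤ (k + 1) * r
  rw [h3]
  calc (k + 1) * dg D z {o} + inp D (T.ib c) b z + (k + 1) * dg D z (t25_R G o c)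
      ≤ (k + 1) * dg D z {o} + (k + 1) * dg D z (T.ib c) + (k + 1) * dg D z (t25_R G o c) := by
        exact Nat.add_le_add_right (Nat.add_le_add_left h1 _) _
    _ = (k + 1) * (dg D z {o} + dg D z (T.ib c) + dg D z (t25_R G o c)) := by ring
    _ ≤ _ := Nat.mul_le_mul_left _ h2

/-- in another cone the odometer of the rest is at most the one of the full waves -/
theorem TS.t25_other (T : TS D r) {F : Finset (Set V)} {o : V} (hF : T.Fo F) {c c' : Set V} (hc : c ∈ F) (hc' : c' ∈ F) (hne : c ≠ c')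
    (hoc : o ∉ c) (hoc' : o ∉ c') (G : Finset V) {k : ℕ} {b : V → ℕ} (hb : ∀ x ∈ T.ib c, b x ≤ k + 1) {ξ : V → ℕ} (hξ : ξ ∈ Rc D r (t25_R G o c))
    {y : V} (hy : y ∈ c') :
    od D r (T.t25_f o k c b) (t25_R G o c) ξ y ≤ od D r ((k + 1) • T.fi {c'}) (gp G {c'}) (rs (gp G {c'}) ξ) y := by
  have hcc := hF.cn c hc
  have hcc' := hF.cn c' hc'
  have hdis := hF.disj c hc c' hc' hne
  have hFc' := T.fo_single hcc'
  by_cases hyR : y ∈ t25_R G o c
  swap
  · rw [od_notMem hyR]; exact Nat.zero_le _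
  have hyG : y ∈ G := (Finset.mem_erase.1 (Finset.mem_filter.1 hyR).1).2
  have hyg : y ∈ gp G {c'} := t25_mem_gp1.2 ⟨hyG, hy⟩
  have hun : gp G {c'} ∪ (t25_R G o c).filter (fun z => z ∉ c') = t25_R G o c := by
    ext z
    unfold t25_R
    rw [Finset.mem_union, t25_mem_gp1, Finset.mem_filter, Finset.mem_filter, Finset.mem_erase]
    constructor
    · rintro (⟨h1, h2⟩ | ⟨h1, -⟩)
      · exact ⟨⟨fun h => hoc' (h ▸ h2), h1⟩, fun h => Set.disjoint_left.1 hdis h h2⟩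
      · exact h1
    · intro h
      by_cases hz : z ∈ c'
      · exact Or.inl ⟨h.1.2, hz⟩
      · exact Or.inr ⟨h, hz⟩
  have hsol : SolO D r (T.t25_f o k c b) (t25_R G o c) ξ (fun z => if z ∈ t25_R G o c then (k + 1) else 0) :=
    solO_const (T.t25_inb hcc G hoc hb) (t3_rc_le hξ)
  have h1 := od_restrict (f := T.t25_f o k c b) (G1 := gp G {c'}) (G2 := (t25_R G o c).filter (fun z => z ∉ c')) (ζ := ξ)
    (u := fun z => if z ∈ t25_R G o c then (k + 1) else 0) t25_gpd (by rw [hun]; exact hsol) hyg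
  rw [hun] at h1
  rw [h1]
  have hadm : Adm D r 0 (T.fi {c'}) (gp G {c'}) := T.adm_fi hFc' (fun z _ => le_refl _) G
  have hle : ∀ z ∈ gp G {c'}, rs (gp G {c'}) ξ z ≤ r := by
    intro z hz
    rw [rs_mem hz]
    exact t3_rc_le hξ z (by rw [← hun]; exact Finset.mem_union_left _ hz)
  refine od_mono (Finset.Subset.refl _) ?_ (solO_const (t3_inB hadm (k + 1)) hle) y
  intro z hz
  have hzc' := (t25_mem_gp1.1 hz).2
  rw [rs_mem hz]
  refine Nat.add_le_add_left ?_ _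
  have h2 : ((k + 1) • T.fi {c'}) z = (k + 1) * dg D z (T.o c') := by
    rw [Pi.smul_apply, smul_eq_mul, T.fi_eq hFc' (Finset.mem_singleton_self _) hzc']
  rw [h2]
  have h3 : ((k + 1) • dgi D {o}) z = (k + 1) * dg D z {o} := by
    rw [Pi.smul_apply, smul_eq_mul]; rfl
  have h4 := t25_inp_le (D := D) hb z
  have h5 : (∑ x ∈ (t25_R G o c).filter (fun z => z ∉ c'), if D.Adj z x then od D r (T.t25_f o k c b) (t25_R G o c) ξ x else 0) ≤
      (k + 1) * dg D z ((t25_R G o c).filter (fun z => z ∉ c')) := by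
    have := t25_inp_le (D := D) (A := (t25_R G o c).filter (fun z => z ∉ c')) (a := od D r (T.t25_f o k c b) (t25_R G o c) ξ) (t := k + 1)
      (fun x _ => od_le_t (T.t25_inb hcc G hoc hb) (t3_rc_le hξ) x) z
    exact this
  have h6 : dg D z {o} + dg D z (T.ib c) + dg D z ((t25_R G o c).filter (fun z => z ∉ c')) ≤ dg D z (T.o c') := by
    have hd1 : Disjoint ({o} : Finset V) (T.ib c) := by
      rw [Finset.disjoint_singleton_left]
      exact fun h => hoc (T.t25_ib hcc h)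
    have hd2 : Disjoint ({o} ∪ T.ib c) ((t25_R G o c).filter (fun z => z ∉ c')) := by
      rw [Finset.disjoint_left]
      intro x hx hx'
      have h3 := Finset.mem_filter.1 (Finset.mem_filter.1 hx').1
      rcases Finset.mem_union.1 hx with h | h
      · rw [Finset.mem_singleton] at h
        subst h
        exact Finset.notMem_erase _ _ h3.1
      · exact h3.2 (T.t25_ib hcc h)
    rw [← dg_union hd1, ← dg_union hd2]
    refine t5b_dg_le ?_
    intro x hx hzx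
    refine (T.mem_o hcc' x).2 ⟨?_, z, hzc', hzx.symm⟩
    rcases Finset.mem_union.1 hx with h | h
    · rcases Finset.mem_union.1 h with h | h
      · rw [Finset.mem_singleton] at h
        subst h
        exact hoc'
      · exact fun h' => Set.disjoint_left.1 hdis (T.t25_ib hcc h) h'
    · exact (Finset.mem_filter.1 h).2
  unfold TS.t25_f
  show ((k + 1) • dgi D {o}) z + inp D (T.ib c) b z + _ ≤ _
  rw [h3]
  calc _ ≤ (k + 1) * dg D z {o} + (k + 1) * dg D z (T.ib c) + (k + 1) * dg D z ((t25_R G o c).filter (fun z => z ∉ c')) :=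
        Nat.add_le_add (Nat.add_le_add_left h4 _) h5
    _ = (k + 1) * (dg D z {o} + dg D z (T.ib c) + dg D z ((t25_R G o c).filter (fun z => z ∉ c'))) := by ring
    _ ≤ _ := Nat.mul_le_mul_left _ h6

theorem TS.t25_other_pr (T : TS D r) {F : Finset (Set V)} {o : V} (hF : T.Fo F) {c c' : Set V} (hc : c ∈ F) (hc' : c' ∈ F) (hne : c ≠ c')
    (hoc : o ∉ c) (hoc' : o ∉ c') (G : Finset V) {k a : ℕ} {b : V → ℕ} (hb : ∀ x ∈ T.ib c, b x ≤ k + 1) {q : ℝ}
    (hq : pr D r (gp G {c'}) (fun ζ => ∃ y ∈ T.Q c', (∃ x ∈ T.o c', D.Adj x y) ∧ k + 1 ≤ od D r ((k + 1) • T.fi {c'}) (gp G {c'}) ζ y + a) ≤ q) :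
    pr D r (t25_R G o c) (fun ξ => ∃ y ∈ T.Q c', (∃ x ∈ T.o c', D.Adj x y) ∧ k + 1 ≤ od D r (T.t25_f o k c b) (t25_R G o c) ξ y + a) ≤ T.c0⁻¹ * q := by
  have hcc' := hF.cn c' hc'
  have hdis := hF.disj c hc c' hc' hne
  have hun : (t25_R G o c).filter (fun z => z ∉ c') ∪ gp G {c'} = t25_R G o c := by
    ext z
    unfold t25_R
    rw [Finset.mem_union, t25_mem_gp1, Finset.mem_filter, Finset.mem_filter, Finset.mem_erase]
    constructor
    · rintro (⟨h1, -⟩ | ⟨h1, h2⟩)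
      · exact h1
      · exact ⟨⟨fun h => hoc' (h ▸ h2), h1⟩, fun h => Set.disjoint_left.1 hdis h h2⟩
    · intro h
      by_cases hz : z ∈ c'
      · exact Or.inr ⟨h.1.2, hz⟩
      · exact Or.inl ⟨h, hz⟩
  have h1 := T.t11_one (T.fo_single hcc') ((t25_R G o c).filter (fun z => z ∉ c')) G
    (fun z hz h => (Finset.mem_filter.1 hz).2 (by rw [TS.fs_single] at h; exact h)) (Finset.mem_singleton_self c')
    (fun ζ => ∃ y ∈ T.Q c', (∃ x ∈ T.o c', D.Adj x y) ∧ k + 1 ≤ od D r ((k + 1) • T.fi {c'}) (gp G {c'}) ζ y + a)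
  rw [hun, Finset.card_singleton, pow_one] at h1
  refine le_trans (t11_pr_mono ?_) (h1.trans (mul_le_mul_of_nonneg_left hq (inv_nonneg.2 T.c0_pos.le)))
  rintro ξ hξ ⟨y, hy, hx, hk⟩
  exact ⟨y, hy, hx, hk.trans (Nat.add_le_add_right (T.t25_other hF hc hc' hne hoc hoc' G hb hξ (T.Q_sub hcc' hy)) _)⟩

/-- two sides -/
theorem TS.t25_two (T : TS D r) {c : Set V} (hc : T.Cn c) {G : Finset V} {o : V} (hoc : o ∉ c) (P1 P2 : (V → ℕ) → Prop) :
    pr D r (G.erase o) (fun ζ => P1 (rs (t25_R G o c) ζ) ∧ P2 (rs (gp G {c}) ζ)) ≤ T.c0⁻¹ * (pr D r (t25_R G o c) P1 * pr D r (gp G {c}) P2) := by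
  have h1 := T.prod_le (T.fo_single hc) (t25_R G o c) G
    (fun z hz h => (Finset.mem_filter.1 hz).2 (by rw [TS.fs_single] at h; exact h))
    (fun ζ => if P1 ζ then 1 else 0) (fun _ ζ => if P2 ζ then 1 else 0)
    (fun ζ => by split_ifs <;> norm_num) (fun _ ζ => by split_ifs <;> norm_num)
  have hun : t25_R G o c ∪ gp G {c} = G.erase o := by rw [Finset.union_comm]; exact t25_gp hoc
  rw [hun, Finset.card_singleton, pow_one] at h1
  simp only [Finset.prod_singleton] at h1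
  rw [t10_pr_ex, t10_pr_ex, t10_pr_ex]
  refine le_trans (le_of_eq (t10_ex_congr ?_)) h1
  intro ζ _
  by_cases h2 : P1 (rs (t25_R G o c) ζ) <;> by_cases h3 : P2 (rs (gp G {c}) ζ) <;> simp [h2, h3]

theorem t25_nz_add {S S' : Finset V} (hd : Disjoint S S') (u : V → ℕ) : nz (S ∪ S') u = nz S u + nz S' u := by
  unfold nz
  rw [Finset.filter_union, Finset.card_union_of_disjoint]
  exact Finset.disjoint_filter_filter hd

theorem t25_nz_congr {S : Finset V} {u u' : V → ℕ} (h : ∀ z ∈ S, u z = u' z) : nz S u = nz S u' := by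
  unfold nz
  refine congrArg Finset.card (Finset.filter_congr (fun z hz => by rw [h z hz]))

theorem t25_rs_congr {S : Finset V} {u u' : V → ℕ} (h : ∀ z ∈ S, u z = u' z) : rs S u = rs S u' := by
  funext z
  by_cases hz : z ∈ S
  · rw [rs_mem hz, rs_mem hz, h z hz]
  · rw [rs_notMem hz, rs_notMem hz]

omit [D.LocallyFinite] in
/-- at most one value of `l` -/
theorem t25_sum_l {S : Finset V} (A : (V → ℕ) → ℕ) (n : ℕ) (P : (V → ℕ) → Prop) :
    ∑ l ∈ range (n + 1), pr D r S (fun ξ => A ξ + l + 1 = n ∧ P ξ) ≤ pr D r S P := by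
  have h1 : ∀ l, pr D r S (fun ξ => A ξ + l + 1 = n ∧ P ξ) = ex D r S (fun ξ => if A ξ + l + 1 = n ∧ P ξ then 1 else 0) := fun l => by
    rw [t10_pr_ex]
    exact t10_ex_congr (fun ξ _ => by congr)
  simp only [h1]
  rw [← t10_ex_sum, t10_pr_ex]
  refine t10_ex_mono (fun ξ _ => ?_)
  by_cases hP : P ξ
  · simp only [hP, and_true, if_true]
    rw [Finset.sum_boole]
    have : ((range (n + 1)).filter (fun l => A ξ + l + 1 = n)).card ≤ 1 := by
      rw [Finset.card_le_one]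
      intro x hx y hy
      have h2 := (Finset.mem_filter.1 hx).2
      have h3 := (Finset.mem_filter.1 hy).2
      omega
    exact_mod_cast this
  · simp [hP]

/-- TARGET. THE CUT AT `c`; `c'` is another cone. Given `a' = rs (o c) ou` and `b' = rs (ib c) ou` and `l = nz (gp G {c}) ou`, `s = nz (rest) ou`, `s + l + 1 = n`: `prod_le` for the forest `{c}` separates `c` from the rest of `G.erase o`,
`wt n ≤ κ sqrt κ wt l`, `wt l · mg c G a' b' l ≤ mx .. n`; sum over `s`, bound the probability of the rest by that of the event of `c'`, which is at most the event of `k + 1` full waves into `c'` (`ou_in`, `oc_mono`, `oc_full`);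
`prod_le` for `{c'}`; sum over `b'` gives `FM`. -/
theorem TS.cut_o (T : TS D r) {Q0 : Finset V} {F : Finset (Set V)} {o : V} (hF : T.Fo F) (hoQ : o ∈ Q0) (hN : ∀ y, D.Adj o y → y ∈ Q0) (hd : ∀ C ∈ F, ∀ z ∈ Q0, z ∉ C)
    (G : Finset V) (k n a : ℕ) {c c' : Set V} (hc : c ∈ F) (hc' : c' ∈ F) (hne : c ≠ c') (κ : ℝ) (hκ : 1 ≤ κ) (q : ℝ)
    (hq : pr D r (gp G {c'}) (fun ζ => ∃ y ∈ T.Q c', (∃ x ∈ T.o c', D.Adj x y) ∧ k + 1 ≤ od D r ((k + 1) • T.fi {c'}) (gp G {c'}) ζ y + a) ≤ q) :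
    wt n * pr D r (G.erase o) (fun ζ => nz (G.erase o) (ou D r o G k ζ) + 1 = n ∧ (n : ℝ) ≤ κ * nz (gp G {c}) (ou D r o G k ζ) ∧
        ∃ y ∈ T.Q c', (∃ x ∈ T.o c', D.Adj x y) ∧ k + 1 ≤ ou D r o G k ζ y + a) ≤
      (T.c0⁻¹) ^ 2 * (κ * Real.sqrt κ) * q * ∑ a' ∈ bf (T.o c) (k + 1), T.FM c G (k + 1) a' n := by
  have hcc := hF.cn c hc
  have hcc' := hF.cn c' hc'
  have hoc : o ∉ c := hd c hc o hoQ
  have hoc' : o ∉ c' := hd c' hc' o hoQ
  have hob : o ∉ T.o c := by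
    intro h
    obtain ⟨-, y, hy, hoy⟩ := (T.mem_o hcc o).1 h
    exact hd c hc y (hN y hoy) hy
  have hc0 : 0 ≤ T.c0⁻¹ := inv_nonneg.2 T.c0_pos.le
  have hκ0 : 0 < κ := lt_of_lt_of_le one_pos hκ
  have hκs : 0 ≤ κ * Real.sqrt κ := mul_nonneg hκ0.le (Real.sqrt_nonneg _)
  have hq0 : 0 ≤ q := le_trans t11_pr_nonneg hq
  have hwn : 0 ≤ wt n := m3_wt_nonneg n
  -- the events
  set Ev : (V → ℕ) → (V → ℕ) → Prop := fun b ξ => ∃ y ∈ T.Q c', (∃ x ∈ T.o c', D.Adj x y) ∧ k + 1 ≤ od D r (T.t25_f o k c b) (t25_R G o c) ξ y + a with hEv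
  set P1 : (V → ℕ) → ℕ → (V → ℕ) → Prop := fun b l ξ => nz (t25_R G o c) (od D r (T.t25_f o k c b) (t25_R G o c) ξ) + l + 1 = n ∧ Ev b ξ with hP1
  set P2 : (V → ℕ) → (V → ℕ) → ℕ → (V → ℕ) → Prop := fun a' b l χ => rs (T.ib c) (T.oc c G a' χ) = b ∧ nz (gp G {c}) (T.oc c G a' χ) = l with hP2
  set I : Finset ((V → ℕ) × (V → ℕ) × ℕ) := (bf (T.o c) (k + 1)) ×ˢ (bf (T.ib c) (k + 1)) ×ˢ (range (n + 1)) with hI
  have hstep : pr D r (G.erase o) (fun ζ => nz (G.erase o) (ou D r o G k ζ) + 1 = n ∧ (n : ℝ) ≤ κ * nz (gp G {c}) (ou D r o G k ζ) ∧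
        ∃ y ∈ T.Q c', (∃ x ∈ T.o c', D.Adj x y) ∧ k + 1 ≤ ou D r o G k ζ y + a) ≤
      ∑ i ∈ I.filter (fun i => (n : ℝ) ≤ κ * i.2.2), pr D r (G.erase o) (fun ζ => P1 i.2.1 i.2.2 (rs (t25_R G o c) ζ) ∧ P2 i.1 i.2.1 i.2.2 (rs (gp G {c}) ζ)) := by
    refine le_trans (t11_pr_mono ?_) (t11_pr_exists (D := D) (r := r) (G := G.erase o) (I.filter (fun i => (n : ℝ) ≤ κ * i.2.2))
      (fun i ζ => P1 i.2.1 i.2.2 (rs (t25_R G o c) ζ) ∧ P2 i.1 i.2.1 i.2.2 (rs (gp G {c}) ζ)))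
    rintro ζ hζ ⟨h1, h2, y, hy, hx, hk⟩
    have hout : ∀ z, z ∉ c → ou D r o G k ζ z = od D r (T.t25_f o k c (rs (T.ib c) (ou D r o G k ζ))) (t25_R G o c) (rs (t25_R G o c) ζ) z :=
      fun z hz => T.ou_out hcc hoc hob hζ hz
    have hin : ∀ z, z ∈ c → ou D r o G k ζ z = T.oc c G (rs (T.o c) (ou D r o G k ζ)) (rs (gp G {c}) ζ) z :=
      fun z hz => T.ou_in hcc hoc hob hζ hz
    have hsplit : nz (G.erase o) (ou D r o G k ζ) = nz (gp G {c}) (ou D r o G k ζ) + nz (t25_R G o c) (ou D r o G k ζ) := by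
      conv_lhs => rw [← t25_gp (G := G) hoc]
      exact t25_nz_add t25_gpd _
    refine ⟨(rs (T.o c) (ou D r o G k ζ), rs (T.ib c) (ou D r o G k ζ), nz (gp G {c}) (ou D r o G k ζ)), ?_, ?_, ?_⟩
    · rw [Finset.mem_filter, hI, Finset.mem_product, Finset.mem_product, Finset.mem_range]
      refine ⟨⟨?_, ?_, ?_⟩, h2⟩
      · exact mem_bf.2 ⟨fun z hz => by
          show rs (T.o c) (ou D r o G k ζ) z ≤ k + 1
          rw [rs_mem hz]; exact t25_ou_le T.gd hζ z, fun z hz => rs_notMem hz⟩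
      · exact mem_bf.2 ⟨fun z hz => by
          show rs (T.ib c) (ou D r o G k ζ) z ≤ k + 1
          rw [rs_mem hz]; exact t25_ou_le T.gd hζ z, fun z hz => rs_notMem hz⟩
      · show nz (gp G {c}) (ou D r o G k ζ) < n + 1
        omega
    · show nz (t25_R G o c) (od D r (T.t25_f o k c (rs (T.ib c) (ou D r o G k ζ))) (t25_R G o c) (rs (t25_R G o c) ζ)) + nz (gp G {c}) (ou D r o G k ζ) + 1 = n ∧
        Ev (rs (T.ib c) (ou D r o G k ζ)) (rs (t25_R G o c) ζ)
      constructor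
      · rw [← t25_nz_congr (S := t25_R G o c) (fun z hz => hout z (Finset.mem_filter.1 hz).2)]
        omega
      · refine ⟨y, hy, hx, ?_⟩
        have hyc : y ∉ c := fun h => Set.disjoint_left.1 (hF.disj c hc c' hc' hne) h (T.Q_sub hcc' hy)
        rw [← hout y hyc]
        exact hk
    · show rs (T.ib c) (T.oc c G (rs (T.o c) (ou D r o G k ζ)) (rs (gp G {c}) ζ)) = rs (T.ib c) (ou D r o G k ζ) ∧
        nz (gp G {c}) (T.oc c G (rs (T.o c) (ou D r o G k ζ)) (rs (gp G {c}) ζ)) = nz (gp G {c}) (ou D r o G k ζ)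
      exact ⟨t25_rs_congr (fun z hz => (hin z (T.t25_ib hcc hz)).symm), t25_nz_congr (fun z hz => (hin z (t25_mem_gp1.1 hz).2).symm)⟩
  have hterm : ∀ i ∈ I.filter (fun i => (n : ℝ) ≤ κ * i.2.2),
      wt n * pr D r (G.erase o) (fun ζ => P1 i.2.1 i.2.2 (rs (t25_R G o c) ζ) ∧ P2 i.1 i.2.1 i.2.2 (rs (gp G {c}) ζ)) ≤
        T.c0⁻¹ * (κ * Real.sqrt κ) * (pr D r (t25_R G o c) (P1 i.2.1 i.2.2) * mx (fun l => wt l * T.mg c G i.1 i.2.1 l) n) := by
    intro i hi
    rw [Finset.mem_filter, hI, Finset.mem_product, Finset.mem_product, Finset.mem_range] at hi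
    have h1 := T.t25_two hcc (G := G) hoc (P1 i.2.1 i.2.2) (P2 i.1 i.2.1 i.2.2)
    have h2 : wt n * pr D r (gp G {c}) (P2 i.1 i.2.1 i.2.2) ≤ κ * Real.sqrt κ * mx (fun l => wt l * T.mg c G i.1 i.2.1 l) n := by
      by_cases hl : 1 ≤ i.2.2
      · calc wt n * pr D r (gp G {c}) (P2 i.1 i.2.1 i.2.2) ≤ (κ * Real.sqrt κ * wt i.2.2) * pr D r (gp G {c}) (P2 i.1 i.2.1 i.2.2) :=
              mul_le_mul_of_nonneg_right (m3_wt_le hκ0 hi.2) t11_pr_nonneg
          _ = κ * Real.sqrt κ * (wt i.2.2 * T.mg c G i.1 i.2.1 i.2.2) := by unfold TS.mg; ring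
          _ ≤ _ := mul_le_mul_of_nonneg_left (le_mx (fun l => wt l * T.mg c G i.1 i.2.1 l) hl (by omega)) hκs
      · have h3 : i.2.2 = 0 := by omega
        have h4 : n = 0 := by
          have h5 := hi.2
          rw [h3, Nat.cast_zero, mul_zero] at h5
          exact_mod_cast le_antisymm h5 (Nat.cast_nonneg n)
        rw [h4]
        have h6 : wt 0 = 0 := by unfold wt; simp
        rw [h6, zero_mul]
        exact mul_nonneg hκs (mx_nonneg _ _)
    calc wt n * pr D r (G.erase o) (fun ζ => P1 i.2.1 i.2.2 (rs (t25_R G o c) ζ) ∧ P2 i.1 i.2.1 i.2.2 (rs (gp G {c}) ζ))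
        ≤ wt n * (T.c0⁻¹ * (pr D r (t25_R G o c) (P1 i.2.1 i.2.2) * pr D r (gp G {c}) (P2 i.1 i.2.1 i.2.2))) := mul_le_mul_of_nonneg_left h1 hwn
      _ = T.c0⁻¹ * pr D r (t25_R G o c) (P1 i.2.1 i.2.2) * (wt n * pr D r (gp G {c}) (P2 i.1 i.2.1 i.2.2)) := by ring
      _ ≤ T.c0⁻¹ * pr D r (t25_R G o c) (P1 i.2.1 i.2.2) * (κ * Real.sqrt κ * mx (fun l => wt l * T.mg c G i.1 i.2.1 l) n) :=
          mul_le_mul_of_nonneg_left h2 (mul_nonneg hc0 t11_pr_nonneg)
      _ = _ := by ring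
  have hnn : ∀ i : (V → ℕ) × (V → ℕ) × ℕ, 0 ≤ T.c0⁻¹ * (κ * Real.sqrt κ) * (pr D r (t25_R G o c) (P1 i.2.1 i.2.2) * mx (fun l => wt l * T.mg c G i.1 i.2.1 l) n) :=
    fun i => mul_nonneg (mul_nonneg hc0 hκs) (mul_nonneg t11_pr_nonneg (mx_nonneg _ _))
  calc _ ≤ wt n * ∑ i ∈ I.filter (fun i => (n : ℝ) ≤ κ * i.2.2), pr D r (G.erase o) (fun ζ => P1 i.2.1 i.2.2 (rs (t25_R G o c) ζ) ∧ P2 i.1 i.2.1 i.2.2 (rs (gp G {c}) ζ)) :=
        mul_le_mul_of_nonneg_left hstep hwn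
    _ = ∑ i ∈ I.filter (fun i => (n : ℝ) ≤ κ * i.2.2), wt n * pr D r (G.erase o) (fun ζ => P1 i.2.1 i.2.2 (rs (t25_R G o c) ζ) ∧ P2 i.1 i.2.1 i.2.2 (rs (gp G {c}) ζ)) := by
        rw [Finset.mul_sum]
    _ ≤ ∑ i ∈ I.filter (fun i => (n : ℝ) ≤ κ * i.2.2), T.c0⁻¹ * (κ * Real.sqrt κ) * (pr D r (t25_R G o c) (P1 i.2.1 i.2.2) * mx (fun l => wt l * T.mg c G i.1 i.2.1 l) n) :=
        Finset.sum_le_sum hterm
    _ ≤ ∑ i ∈ I, T.c0⁻¹ * (κ * Real.sqrt κ) * (pr D r (t25_R G o c) (P1 i.2.1 i.2.2) * mx (fun l => wt l * T.mg c G i.1 i.2.1 l) n) :=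
        Finset.sum_le_sum_of_subset_of_nonneg (Finset.filter_subset _ _) (fun i _ _ => hnn i)
    _ = ∑ a' ∈ bf (T.o c) (k + 1), ∑ b' ∈ bf (T.ib c) (k + 1), ∑ l ∈ range (n + 1),
          T.c0⁻¹ * (κ * Real.sqrt κ) * (pr D r (t25_R G o c) (P1 b' l) * mx (fun l => wt l * T.mg c G a' b' l) n) := by
        rw [hI, Finset.sum_product]
        refine Finset.sum_congr rfl (fun a' _ => ?_)
        rw [Finset.sum_product]
    _ ≤ ∑ a' ∈ bf (T.o c) (k + 1), ∑ b' ∈ bf (T.ib c) (k + 1), T.c0⁻¹ * (κ * Real.sqrt κ) * (T.c0⁻¹ * q * mx (fun l => wt l * T.mg c G a' b' l) n) := by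
        refine Finset.sum_le_sum (fun a' _ => Finset.sum_le_sum (fun b' hb' => ?_))
        rw [← Finset.mul_sum, ← Finset.sum_mul]
        refine mul_le_mul_of_nonneg_left (mul_le_mul_of_nonneg_right ?_ (mx_nonneg _ _)) (mul_nonneg hc0 hκs)
        refine le_trans (t25_sum_l (D := D) (r := r) (S := t25_R G o c) (fun ξ => nz (t25_R G o c) (od D r (T.t25_f o k c b') (t25_R G o c) ξ)) n (Ev b')) ?_
        exact T.t25_other_pr hF hc hc' hne hoc hoc' G (mem_bf.1 hb').1 hq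
    _ = _ := by
        rw [Finset.mul_sum]
        refine Finset.sum_congr rfl (fun a' _ => ?_)
        unfold TS.FM
        rw [Finset.mul_sum]
        refine Finset.sum_congr rfl (fun b' _ => ?_)
        ring

/-- TARGET. union over the cones: if `n ≥ 2 (|Q0| + 1)` the largest number of toppled vertices in a cone is at least `n/(2 |F|)` -/
theorem TS.ea_bound (T : TS D r) {Q0 : Finset V} {F : Finset (Set V)} {o : V} (hF : T.Fo F) (hoQ : o ∈ Q0) (hN : ∀ y, D.Adj o y → y ∈ Q0) (hconn : InConn D (Q0 : Set V))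
    (ho : ∀ C ∈ F, T.o C ⊆ Q0) (hd : ∀ C ∈ F, ∀ z ∈ Q0, z ∉ C) (hcov : ∀ z, z ∈ Q0 ∨ ∃ C ∈ F, z ∈ C) (h2 : 2 ≤ F.card)
    {G : Finset V} (hG : Q0 ⊆ G) (k n : ℕ) (hn : 2 * (Q0.card + 1) ≤ n) (q : ℝ)
    (hq : ∀ C, T.Cn C → pr D r (gp G {C}) (fun ζ => ∃ y ∈ T.Q C, (∃ x ∈ T.o C, D.Adj x y) ∧ k + 1 ≤ od D r ((k + 1) • T.fi {C}) (gp G {C}) ζ y + 2 * r ^ Q0.card) ≤ q) :
    wt n * pr D r (G.erase o) (EA D r o G k n) ≤
      ∑ c ∈ F, (T.c0⁻¹) ^ 2 * ((2 * F.card : ℝ) * Real.sqrt (2 * F.card)) * q * ∑ a' ∈ bf (T.o c) (k + 1), T.FM c G (k + 1) a' n := by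
  have hch : ∀ c : Set V, ∃ b, b ∈ F ∧ c ≠ b := fun c => by
    obtain ⟨b, hb, hne⟩ := Finset.exists_mem_ne (by omega : 1 < F.card) c
    exact ⟨b, hb, hne.symm⟩
  choose c' hc' hne using hch
  have hFne : F.Nonempty := Finset.card_pos.1 (by omega)
  have hκ : (1 : ℝ) ≤ 2 * (F.card : ℝ) := by
    have : (2 : ℝ) ≤ F.card := by exact_mod_cast h2
    linarith
  have hcut : ∀ c ∈ F, wt n * pr D r (G.erase o) (fun ζ => nz (G.erase o) (ou D r o G k ζ) + 1 = n ∧ (n : ℝ) ≤ (2 * F.card : ℝ) * nz (gp G {c}) (ou D r o G k ζ) ∧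
        ∃ y ∈ T.Q (c' c), (∃ x ∈ T.o (c' c), D.Adj x y) ∧ k + 1 ≤ ou D r o G k ζ y + 2 * r ^ Q0.card) ≤
      (T.c0⁻¹) ^ 2 * ((2 * F.card : ℝ) * Real.sqrt (2 * F.card)) * q * ∑ a' ∈ bf (T.o c) (k + 1), T.FM c G (k + 1) a' n := fun c hc =>
    T.cut_o hF hoQ hN hd G k n (2 * r ^ Q0.card) hc (hc' c) (hne c) (2 * F.card) hκ q (hq _ (hF.cn _ (hc' c)))
  have hstep : pr D r (G.erase o) (EA D r o G k n) ≤ ∑ c ∈ F, pr D r (G.erase o) (fun ζ => nz (G.erase o) (ou D r o G k ζ) + 1 = n ∧ (n : ℝ) ≤ (2 * F.card : ℝ) * nz (gp G {c}) (ou D r o G k ζ) ∧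
        ∃ y ∈ T.Q (c' c), (∃ x ∈ T.o (c' c), D.Adj x y) ∧ k + 1 ≤ ou D r o G k ζ y + 2 * r ^ Q0.card) := by
    refine le_trans (t11_pr_mono ?_) (t11_pr_exists (D := D) (r := r) (G := G.erase o) F
      (fun c ζ => nz (G.erase o) (ou D r o G k ζ) + 1 = n ∧ (n : ℝ) ≤ (2 * F.card : ℝ) * nz (gp G {c}) (ou D r o G k ζ) ∧
        ∃ y ∈ T.Q (c' c), (∃ x ∈ T.o (c' c), D.Adj x y) ∧ k + 1 ≤ ou D r o G k ζ y + 2 * r ^ Q0.card))
    intro ζ hζ hE
    have hsum : nz (G.erase o) (ou D r o G k ζ) ≤ Q0.card + ∑ c ∈ F, nz (gp G {c}) (ou D r o G k ζ) := by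
      unfold nz
      calc ((G.erase o).filter (fun z => 0 < ou D r o G k ζ z)).card
          ≤ (Q0 ∪ F.biUnion (fun c => (gp G {c}).filter (fun z => 0 < ou D r o G k ζ z))).card := by
            refine Finset.card_le_card (fun z hz => ?_)
            rw [Finset.mem_filter, Finset.mem_erase] at hz
            rw [Finset.mem_union, Finset.mem_biUnion]
            rcases hcov z with h | ⟨C, hC, hzC⟩
            · exact Or.inl h
            · exact Or.inr ⟨C, hC, Finset.mem_filter.2 ⟨t25_mem_gp1.2 ⟨hz.1.2, hzC⟩, hz.2⟩⟩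
        _ ≤ Q0.card + (F.biUnion (fun c => (gp G {c}).filter (fun z => 0 < ou D r o G k ζ z))).card := Finset.card_union_le _ _
        _ ≤ _ := Nat.add_le_add_left Finset.card_biUnion_le _
    have hbig : ∃ c ∈ F, n ≤ 2 * F.card * nz (gp G {c}) (ou D r o G k ζ) := by
      by_contra hcon
      push Not at hcon
      have h3 : ∑ c ∈ F, 2 * F.card * nz (gp G {c}) (ou D r o G k ζ) < ∑ _c ∈ F, n := Finset.sum_lt_sum_of_nonempty hFne hcon
      rw [Finset.sum_const, smul_eq_mul, ← Finset.mul_sum] at h3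
      have h4 : F.card * (2 * ∑ c ∈ F, nz (gp G {c}) (ou D r o G k ζ)) < F.card * n := by
        calc _ = 2 * F.card * ∑ c ∈ F, nz (gp G {c}) (ou D r o G k ζ) := by ring
          _ < _ := h3
      have h5 := Nat.lt_of_mul_lt_mul_left h4
      have h6 := hE.2
      omega
    obtain ⟨c, hc, hcn⟩ := hbig
    refine ⟨c, hc, hE.2, ?_, ?_⟩
    · exact_mod_cast hcn
    · have hC := hF.cn _ (hc' c)
      obtain ⟨x, hx⟩ := T.o_ne hC
      obtain ⟨y, hy, hxy⟩ := T.o_edge hC hx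
      refine ⟨y, hy, ⟨x, hx, hxy⟩, ?_⟩
      have hyQ : y ∉ Q0 := fun h => hd _ (hc' c) y h (T.Q_sub hC hy)
      exact ea_near T.gd hG hconn hoQ hζ hE (ho _ (hc' c) hx) hxy hyQ
  calc wt n * pr D r (G.erase o) (EA D r o G k n) ≤ wt n * ∑ c ∈ F, pr D r (G.erase o) (fun ζ => nz (G.erase o) (ou D r o G k ζ) + 1 = n ∧ (n : ℝ) ≤ (2 * F.card : ℝ) * nz (gp G {c}) (ou D r o G k ζ) ∧
        ∃ y ∈ T.Q (c' c), (∃ x ∈ T.o (c' c), D.Adj x y) ∧ k + 1 ≤ ou D r o G k ζ y + 2 * r ^ Q0.card) := mul_le_mul_of_nonneg_left hstep (m3_wt_nonneg n)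
    _ ≤ _ := by
        rw [Finset.mul_sum]
        exact Finset.sum_le_sum hcut

theorem t25_sum {m : ℕ} {K b : ℕ → ℝ} {c : ℝ} (hK1 : ∀ t, 1 ≤ K t) (hKc : ∀ t : ℕ, 1 ≤ t → K t ≤ Real.exp (c * t * Real.log (t + 2)))
    (hb0 : ∀ t, 0 ≤ b t) (hbK : ∀ K : ℝ, ∃ t0 : ℕ, ∀ t : ℕ, t0 ≤ t → b t ≤ Real.exp (-(K * t * Real.log (t + 2)))) :
    Summable (fun k : ℕ => ((k : ℝ) + 2) ^ m * K (k + 1) * b (k + 1)) := by
  obtain ⟨t0, ht0⟩ := hbK (|c| + m + 2)
  rw [← summable_nat_add_iff t0]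
  have hs : Summable (fun k : ℕ => 1 / ((k + t0 + 1 : ℕ) : ℝ) ^ 2) :=
    (summable_nat_add_iff (t0 + 1)).2 (Real.summable_one_div_nat_pow.2 one_lt_two)
  refine Summable.of_nonneg_of_le (fun k => ?_) (fun k => ?_) hs
  · exact mul_nonneg (mul_nonneg (by positivity) (le_trans zero_le_one (hK1 _))) (hb0 _)
  · set t : ℕ := k + t0 + 1 with ht
    have h1 : 1 ≤ t := by omega
    have h1' : (1 : ℝ) ≤ t := by exact_mod_cast h1
    have hL : 0 ≤ Real.log ((t : ℝ) + 2) := Real.log_nonneg (by linarith)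
    have hk : (((k + t0 : ℕ) : ℝ) + 2) ≤ (t : ℝ) + 2 := by
      rw [ht]; push_cast; linarith
    have e1 : (((k + t0 : ℕ) : ℝ) + 2) ^ m ≤ Real.exp (m * t * Real.log (t + 2)) := by
      calc (((k + t0 : ℕ) : ℝ) + 2) ^ m ≤ ((t : ℝ) + 2) ^ m := pow_le_pow_left₀ (by positivity) hk m
        _ = Real.exp (m * Real.log (t + 2)) := by
            rw [mul_comm, Real.exp_mul, Real.exp_log (by positivity), Real.rpow_natCast]
        _ ≤ Real.exp (m * t * Real.log (t + 2)) := by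
            rw [Real.exp_le_exp]
            refine mul_le_mul_of_nonneg_right ?_ hL
            calc (m : ℝ) = m * 1 := (mul_one _).symm
              _ ≤ m * t := mul_le_mul_of_nonneg_left h1' (Nat.cast_nonneg _)
    have e2 := hKc t h1
    have e3 := ht0 t (by omega)
    have hKt0 : 0 ≤ K t := le_trans zero_le_one (hK1 t)
    calc (((k + t0 : ℕ) : ℝ) + 2) ^ m * K (k + t0 + 1) * b (k + t0 + 1)
        ≤ Real.exp (m * t * Real.log (t + 2)) * Real.exp (c * t * Real.log (t + 2)) * Real.exp (-((|c| + m + 2) * t * Real.log (t + 2))) := by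
          refine mul_le_mul (mul_le_mul e1 e2 hKt0 (Real.exp_pos _).le) e3 (hb0 _) (by positivity)
      _ = Real.exp (-((|c| - c + 2) * t * Real.log (t + 2))) := by
          rw [← Real.exp_add, ← Real.exp_add]
          congr 1
          ring
      _ ≤ Real.exp (-(2 * Real.log (t + 2))) := by
          rw [Real.exp_le_exp, neg_le_neg_iff]
          refine mul_le_mul_of_nonneg_right ?_ hL
          have h3 : 0 ≤ |c| - c := by linarith [le_abs_self c]
          nlinarith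
      _ = 1 / ((t : ℝ) + 2) ^ 2 := by
          rw [Real.exp_neg, mul_comm, Real.exp_mul, Real.exp_log (by positivity), one_div]
          congr 1
          exact_mod_cast Real.rpow_natCast ((t : ℝ) + 2) 2
      _ ≤ 1 / ((t : ℕ) : ℝ) ^ 2 := by
          refine one_div_le_one_div_of_le (by positivity) ?_
          exact pow_le_pow_left₀ (by positivity) (by linarith) 2

/-- TARGET. THE UPPER BOUND: `exists_av`, sum over `k ≤ 2 r^n` (`ea_le`), `ea_bound` with `exists_bt`, `exists_Kt'` (eventually in `G` for these finitely many `k`); `Σ_k (k+2)^m K (k+1) b (k+1) < ∞`; for small `n` use `pr ≤ 1` -/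
theorem TS.upper (T : TS D r) (o : V) : ∃ C : ℝ, 0 < C ∧ ∀ n : ℕ, 1 ≤ n → ∀ᶠ G in (atTop : Filter (Finset V)),
    pr D r G (fun η => AvalancheSize D r G o η n) ≤ C / wt n := by
  obtain ⟨C1, hC1, hav⟩ := T.exists_av
  obtain ⟨Q0, F, hoQ, hN, hconn, hF, hoF, hd, hcov, h2⟩ := T.base o
  obtain ⟨b, hb0, hbK, hbq⟩ := T.exists_bt (2 * r ^ Q0.card)
  obtain ⟨K, c, hK1, hKc, hKt⟩ := T.exists_Kt'
  have hg := t25_sum (m := T.m) hK1 hKc hb0 hbK
  set g : ℕ → ℝ := fun k => ((k : ℝ) + 2) ^ T.m * K (k + 1) * b (k + 1) with hgd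
  have hg0 : ∀ k, 0 ≤ g k := fun k => mul_nonneg (mul_nonneg (by positivity) (le_trans zero_le_one (hK1 _))) (hb0 _)
  set X : ℝ := (T.c0⁻¹) ^ 2 * ((2 * F.card : ℝ) * Real.sqrt (2 * F.card)) with hX
  have hX0 : 0 ≤ X := by rw [hX]; positivity
  set S : ℝ := ∑' k, g k with hS
  have hS0 : 0 ≤ S := tsum_nonneg hg0
  set n0 : ℕ := 2 * (Q0.card + 1) with hn0
  have hwpos : ∀ n : ℕ, 1 ≤ n → 0 < wt n := by
    intro n hn
    unfold wt
    have : (0 : ℝ) < n := by exact_mod_cast hn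
    positivity
  refine ⟨C1 * (F.card * X * S) + wt n0 + 1, ?_, fun n hn => ?_⟩
  · have := m3_wt_nonneg n0
    positivity
  have hwn := hwpos n hn
  have hB0 : 0 ≤ C1 * (F.card * X * S) := by positivity
  by_cases hnn : n < n0
  · refine Eventually.of_forall (fun G => le_trans t11_pr_le_one ?_)
    rw [le_div_iff₀ hwn, one_mul]
    have := wt_mono hnn.le
    linarith
  push Not at hnn
  have hev1 : ∀ᶠ G in (atTop : Filter (Finset V)), Q0 ⊆ G := eventually_ge_atTop Q0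
  have hev2 : ∀ᶠ G in (atTop : Filter (Finset V)), ∀ k ∈ range (2 * r ^ n + 1), ∀ c ∈ F, ∀ a' ∈ bf (T.o c) (k + 1), T.FM c G (k + 1) a' n ≤ K (k + 1) := by
    rw [Filter.eventually_all_finset]
    intro k _
    rw [Filter.eventually_all_finset]
    intro c hc
    exact hKt c (hF.cn c hc) (k + 1) n (by omega)
  filter_upwards [hev1, hev2] with G hG1 hG2
  have hoG : o ∈ G := hG1 hoQ
  have h3 := hav G o hoG n hn
  have h4 : pr D r (G.erase o) (fun ζ => ∃ k, EA D r o G k n ζ) ≤ ∑ k ∈ range (2 * r ^ n + 1), pr D r (G.erase o) (EA D r o G k n) := by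
    refine le_trans (t11_pr_mono ?_) (t11_pr_exists (D := D) (r := r) (G := G.erase o) (range (2 * r ^ n + 1)) (fun k ζ => EA D r o G k n ζ))
    rintro ζ hζ ⟨k, hk⟩
    exact ⟨k, Finset.mem_range.2 (Nat.lt_succ_of_le (ea_le T.gd hζ hk)), hk⟩
  have h5 : ∀ k ∈ range (2 * r ^ n + 1), wt n * pr D r (G.erase o) (EA D r o G k n) ≤ F.card * X * g k := by
    intro k hk
    have h6 := T.ea_bound hF hoQ hN hconn hoF hd hcov h2 hG1 k n hnn (b (k + 1)) (fun C hC => hbq C hC G (k + 1))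
    refine h6.trans ?_
    calc _ ≤ ∑ _c ∈ F, X * g k := by
          refine Finset.sum_le_sum (fun c hc => ?_)
          have h7 : ∑ a' ∈ bf (T.o c) (k + 1), T.FM c G (k + 1) a' n ≤ ((k : ℝ) + 2) ^ T.m * K (k + 1) := by
            calc _ ≤ ∑ _a' ∈ bf (T.o c) (k + 1), K (k + 1) := Finset.sum_le_sum (fun a' ha' => hG2 k hk c hc a' ha')
              _ = ((k : ℝ) + 2) ^ (T.o c).card * K (k + 1) := by
                  rw [Finset.sum_const, card_bf, nsmul_eq_mul]
                  push_cast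
                  ring
              _ ≤ _ := mul_le_mul_of_nonneg_right (pow_le_pow_right₀ (by linarith [(Nat.cast_nonneg k : (0 : ℝ) ≤ k)]) (T.o_card (hF.cn c hc))) (le_trans zero_le_one (hK1 _))
          calc X * b (k + 1) * ∑ a' ∈ bf (T.o c) (k + 1), T.FM c G (k + 1) a' n ≤ X * b (k + 1) * (((k : ℝ) + 2) ^ T.m * K (k + 1)) :=
                mul_le_mul_of_nonneg_left h7 (mul_nonneg hX0 (hb0 _))
            _ = X * g k := by rw [hgd]; ring
      _ = F.card * X * g k := by rw [Finset.sum_const, nsmul_eq_mul]; ring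
  have h8 : wt n * ∑ k ∈ range (2 * r ^ n + 1), pr D r (G.erase o) (EA D r o G k n) ≤ F.card * X * S := by
    rw [Finset.mul_sum]
    calc _ ≤ ∑ k ∈ range (2 * r ^ n + 1), F.card * X * g k := Finset.sum_le_sum h5
      _ = F.card * X * ∑ k ∈ range (2 * r ^ n + 1), g k := by rw [Finset.mul_sum]
      _ ≤ F.card * X * S := mul_le_mul_of_nonneg_left (hg.sum_le_tsum _ (fun k _ => hg0 k)) (by positivity)
  rw [le_div_iff₀ hwn]
  calc pr D r G (fun η => AvalancheSize D r G o η n) * wt n ≤ (C1 * ∑ k ∈ range (2 * r ^ n + 1), pr D r (G.erase o) (EA D r o G k n)) * wt n :=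
        mul_le_mul_of_nonneg_right (h3.trans (mul_le_mul_of_nonneg_left h4 hC1.le)) hwn.le
    _ = C1 * (wt n * ∑ k ∈ range (2 * r ^ n + 1), pr D r (G.erase o) (EA D r o G k n)) := by ring
    _ ≤ C1 * (F.card * X * S) := mul_le_mul_of_nonneg_left h8 hC1.le
    _ ≤ _ := by linarith [m3_wt_nonneg n0]

end Pool.Agent.Helper910.QT
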