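import Mathlib
import Pool.Agent.Helper910.T25
import Pool.Agent.Helper910.S2

/-! Filled sets and edge boundaries (MP_4555f0_mp) -/

namespace Pool.Agent.Helper910.QT

open Classical Finset Filter Topology

variable {V : Type*} {D : SimpleGraph V} [D.LocallyFinite] {r : ℕ}

/-- the outer boundary of a finite set -/
noncomputable def bd (D : SimpleGraph V) [D.LocallyFinite] (Y : Finset V) : Finset V := (Y.biUnion (fun y => D.neighborFinset y)).filter (fun x => x ∉ Y)

/-- the complement of `Y` has no finite component -/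
def NFc (D : SimpleGraph V) (Y : Set V) : Prop := ∀ W : Finset V, W.Nonempty → (∀ w ∈ W, w ∉ Y) → ∃ w ∈ W, ∃ x, D.Adj w x ∧ x ∉ W ∧ x ∉ Y

/-- `Y` together with the finite components of its complement (for `z ∈ Y` the set `cmp D Yᶜ z` is empty) -/
def filS (D : SimpleGraph V) (Y : Finset V) : Set V := {z | (cmp D (Y : Set V)ᶜ z).Finite}

/-- the same as a finite set -/
noncomputable def fil (D : SimpleGraph V) (Y : Finset V) : Finset V := if h : (filS D Y).Finite then h.toFinset else Y

/-- next filled set -/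
noncomputable def nx (D : SimpleGraph V) [D.LocallyFinite] (Y : Finset V) : Finset V := fil D (Y ∪ bd D Y)

/-- number of edges leaving `Y` -/
noncomputable def eb (D : SimpleGraph V) [D.LocallyFinite] (Y : Finset V) : ℕ := ∑ y ∈ Y, ((D.neighborFinset y).filter (fun x => x ∉ Y)).card

omit [D.LocallyFinite] in
theorem t26a_cmp_empty {Y : Set V} {z : V} (hz : z ∈ Y) : cmp D Yᶜ z = ∅ := by
  ext y
  simp only [Set.mem_empty_iff_false, iff_false]
  rintro ⟨p, hp⟩
  exact hp z p.start_mem_support hz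

theorem t26a_filS_finite (H : Gd D r) {Y : Finset V} (hY : Y.Nonempty) : (filS D Y).Finite := by
  have h1 := cmp_finite H (S := (Y : Set V)) Y.finite_toSet (by exact_mod_cast hY)
  have h2 : (⋃ C ∈ {C | C ∈ {C | ∃ z ∈ (Y : Set V)ᶜ, C = cmp D (Y : Set V)ᶜ z} ∧ C.Finite}, C).Finite :=
    (h1.subset (fun C hC => hC.1)).biUnion (fun C hC => hC.2)
  refine ((Y.finite_toSet).union h2).subset ?_
  intro z hz
  by_cases hzY : z ∈ (Y : Set V)
  · exact Or.inl hzY
  · exact Or.inr (Set.mem_biUnion (show cmp D (Y : Set V)ᶜ z ∈ {C | C ∈ {C | ∃ z ∈ (Y : Set V)ᶜ, C = cmp D (Y : Set V)ᶜ z} ∧ C.Finite} from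
      ⟨⟨z, hzY, rfl⟩, hz⟩) (self_mem_cmp hzY))

/-- TARGET. (`cmp_finite`) -/
theorem mem_fil (H : Gd D r) {Y : Finset V} (hY : Y.Nonempty) {z : V} : z ∈ fil D Y ↔ (cmp D (Y : Set V)ᶜ z).Finite := by
  unfold fil
  rw [dif_pos (t26a_filS_finite H hY), Set.Finite.mem_toFinset]
  rfl

/-- TARGET. -/
theorem sub_fil (H : Gd D r) {Y : Finset V} (hY : Y.Nonempty) : Y ⊆ fil D Y := by
  intro z hz
  rw [mem_fil H hY, t26a_cmp_empty (by exact_mod_cast hz)]
  exact Set.finite_empty

/-- TARGET. each finite component is connected and has a neighbour in `Y` -/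
theorem fil_conn (H : Gd D r) {Y : Finset V} (hY : Y.Nonempty) (h : InConn D (Y : Set V)) : InConn D (fil D Y : Set V) := by
  obtain ⟨s0, hs0⟩ := hY
  have hsub := sub_fil H ⟨s0, hs0⟩
  -- every vertex of fil can be joined to s0
  have key : ∀ z ∈ fil D Y, ∃ p : D.Walk z s0, ∀ v ∈ p.support, v ∈ (fil D Y : Set V) := by
    intro z hz
    by_cases hzY : z ∈ Y
    · obtain ⟨p, hp⟩ := h z (by exact_mod_cast hzY) s0 (by exact_mod_cast hs0)
      exact ⟨p, fun v hv => by exact_mod_cast hsub (by exact_mod_cast hp v hv)⟩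
    · obtain ⟨p0⟩ := H.conn.preconnected z s0
      obtain ⟨w, hw, s', hs', had⟩ := s2_exit (S := (Y : Set V)) p0 (by exact_mod_cast hzY) (by exact_mod_cast hs0)
      obtain ⟨q, hq⟩ := hw
      obtain ⟨p, hp⟩ := h s' hs' s0 (by exact_mod_cast hs0)
      refine ⟨(q.concat had.symm).append p, ?_⟩
      intro v hv
      rw [SimpleGraph.Walk.mem_support_append_iff, SimpleGraph.Walk.support_concat, List.mem_append, List.mem_singleton] at hv
      rcases hv with (hv | rfl) | hv
      · have hvc : v ∈ cmp D (Y : Set V)ᶜ z := s2_supp q hq v hv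
        have : v ∈ fil D Y := by
          rw [mem_fil H ⟨s0, hs0⟩, cmp_eq hvc, ← mem_fil H ⟨s0, hs0⟩]
          exact hz
        exact_mod_cast this
      · exact_mod_cast hsub (by exact_mod_cast hs')
      · exact_mod_cast hsub (by exact_mod_cast hp v hv)
  intro a ha b hb
  obtain ⟨p, hp⟩ := key a (by exact_mod_cast ha)
  obtain ⟨q, hq⟩ := key b (by exact_mod_cast hb)
  refine ⟨p.append q.reverse, ?_⟩
  intro v hv
  rw [SimpleGraph.Walk.mem_support_append_iff, SimpleGraph.Walk.support_reverse, List.mem_reverse] at hv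
  rcases hv with hv | hv
  · exact hp v hv
  · exact hq v hv

omit [D.LocallyFinite] in
/-- a walk leaving a set -/
theorem t26a_exit {S : Set V} {a b : V} (p : D.Walk a b) : a ∈ S → b ∉ S → ∃ u v, u ∈ p.support ∧ v ∈ p.support ∧ u ∈ S ∧ v ∉ S ∧ D.Adj u v := by
  induction p with
  | nil => exact fun h1 h2 => absurd h1 h2
  | @cons u w t ha q ih =>
    intro h1 h2
    by_cases hw : w ∈ S
    · obtain ⟨x, y, hx, hy, h3⟩ := ih hw h2
      exact ⟨x, y, by simp [hx], by simp [hy], h3⟩
    · exact ⟨u, w, by simp, by simp, h1, hw, ha⟩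

/-- TARGET. for `w ∉ fil D Y` the component of `w` in `Yᶜ` is infinite and disjoint from `fil D Y`; it is not contained in the finite set `W` -/
theorem fil_NF (H : Gd D r) {Y : Finset V} (hY : Y.Nonempty) : NFc D (fil D Y : Set V) := by
  intro W hW hd
  obtain ⟨w, hw⟩ := hW
  have hwf : w ∉ fil D Y := by exact_mod_cast hd w hw
  have hinf : (cmp D (Y : Set V)ᶜ w).Infinite := by
    rw [mem_fil H hY] at hwf
    exact hwf
  have hex : ∃ x ∈ cmp D (Y : Set V)ᶜ w, x ∉ (W : Set V) := by
    by_contra hcon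
    push Not at hcon
    exact hinf ((W.finite_toSet).subset hcon)
  obtain ⟨x, ⟨p, hp⟩, hxW⟩ := hex
  obtain ⟨u, v, hu, hv, huW, hvW, huv⟩ := t26a_exit p (S := (W : Set V)) (by exact_mod_cast hw) hxW
  refine ⟨u, by exact_mod_cast huW, v, huv, by exact_mod_cast hvW, ?_⟩
  have hvc : v ∈ cmp D (Y : Set V)ᶜ w := s2_supp p hp v hv
  intro hvf
  have : v ∈ fil D Y := by exact_mod_cast hvf
  rw [mem_fil H hY, cmp_eq hvc] at this
  exact hinf this

/-- TARGET. edges leaving `fil D Y` start in `Y` -/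
theorem fil_edge (H : Gd D r) {Y : Finset V} (hY : Y.Nonempty) {y x : V} (hy : y ∈ fil D Y) (hx : x ∉ fil D Y) (h : D.Adj y x) : y ∈ Y := by
  by_contra hyY
  apply hx
  have hxY : x ∉ Y := fun h1 => hx (sub_fil H hY h1)
  have hc : x ∈ cmp D (Y : Set V)ᶜ y := cmp_adj (self_mem_cmp (by exact_mod_cast hyY)) (by exact_mod_cast hxY) h
  rw [mem_fil H hY, cmp_eq hc, ← mem_fil H hY]
  exact hy

theorem t26a_mem_bd {Y : Finset V} {x : V} : x ∈ bd D Y ↔ x ∉ Y ∧ ∃ y ∈ Y, D.Adj y x := by
  unfold bd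
  rw [Finset.mem_filter, Finset.mem_biUnion]
  simp only [SimpleGraph.mem_neighborFinset]
  tauto

theorem t26a_bd_edges (Y : Finset V) : ∑ z ∈ bd D Y, dg D z Y = eb D Y := by
  unfold eb dg
  have h1 : ∀ z ∈ bd D Y, (Y.filter (fun w => D.Adj z w)).card = ∑ y ∈ Y, if D.Adj z y then 1 else 0 := by
    intro z _
    rw [Finset.card_filter]
  have h2 : ∀ y ∈ Y, ((D.neighborFinset y).filter (fun x => x ∉ Y)).card = ∑ z ∈ bd D Y, if D.Adj z y then 1 else 0 := by
    intro y hy
    rw [← Finset.card_filter]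
    congr 1
    ext x
    rw [Finset.mem_filter, Finset.mem_filter, SimpleGraph.mem_neighborFinset, t26a_mem_bd]
    constructor
    · rintro ⟨h3, h4⟩
      exact ⟨⟨h4, y, hy, h3⟩, h3.symm⟩
    · rintro ⟨⟨h3, _⟩, h5⟩
      exact ⟨h5.symm, h3⟩
  rw [Finset.sum_congr rfl h1, Finset.sum_congr rfl h2, Finset.sum_comm]

/-- TARGET. if no boundary vertex has more neighbours outside `nx D Y` than in `Y`, the number of leaving edges does not increase -/
theorem eb_nx_le (H : Gd D r) {Y : Finset V} (hY : Y.Nonempty) (h : ∀ z ∈ bd D Y, ((D.neighborFinset z).filter (fun x => x ∉ nx D Y)).card ≤ dg D z Y) : eb D (nx D Y) ≤ eb D Y := by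
  have hY1 : (Y ∪ bd D Y).Nonempty := hY.mono Finset.subset_union_left
  have hsub : bd D Y ⊆ nx D Y := Finset.subset_union_right.trans (sub_fil H hY1)
  have hsubY : Y ∪ bd D Y ⊆ nx D Y := sub_fil H hY1
  rw [← t26a_bd_edges Y]
  refine le_trans ?_ (Finset.sum_le_sum h)
  unfold eb
  rw [← Finset.sum_subset hsub]
  intro y hy hyb
  rw [Finset.card_eq_zero, Finset.filter_eq_empty_iff]
  intro x hx hxn
  rw [SimpleGraph.mem_neighborFinset] at hx
  have h1 : y ∈ Y ∪ bd D Y := fil_edge H hY1 hy hxn hx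
  rcases Finset.mem_union.1 h1 with h2 | h2
  · apply hxn
    apply hsubY
    by_cases hxY : x ∈ Y
    · exact Finset.mem_union_left _ hxY
    · exact Finset.mem_union_right _ (t26a_mem_bd.2 ⟨hxY, y, h2, hx⟩)
  · exact hyb h2

theorem t26a_to_Q (T : TS D r) {C : Set V} (hC : T.Cn C) (i : ℕ) : ∀ A ∈ T.de {C} i, ∀ z ∈ T.Q A, ∃ y ∈ T.Q C, ∃ p : D.Walk z y, ∀ v ∈ p.support, v ∈ C := by
  have hF := T.fo_single hC
  induction i with
  | zero =>
    intro A hA z hz
    rw [T.de_zero, Finset.mem_singleton] at hA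
    subst hA
    exact ⟨z, hz, SimpleGraph.Walk.nil, fun v hv => by
      rw [SimpleGraph.Walk.support_nil, List.mem_singleton] at hv
      rw [hv]; exact T.Q_sub hC hz⟩
  | succ i ih =>
    intro A hA z hz
    obtain ⟨B, hB, hch, ho⟩ := T.o_parent hF hA
    have hcA : T.Cn A := T.t5b_cn hF hA
    obtain ⟨x, hx⟩ := T.o_ne hcA
    obtain ⟨y, hy, hxy⟩ := T.o_edge hcA hx
    obtain ⟨p, hp⟩ := T.Q_conn hcA z (by exact_mod_cast hz) y (by exact_mod_cast hy)
    obtain ⟨w, hw, q, hq⟩ := ih B hB x (ho hx)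
    refine ⟨w, hw, (p.concat hxy.symm).append q, ?_⟩
    intro v hv
    rw [SimpleGraph.Walk.mem_support_append_iff, SimpleGraph.Walk.support_concat, List.mem_append, List.mem_singleton] at hv
    rcases hv with (hv | rfl) | hv
    · exact T.de_single_sub hC hA (T.Q_sub hcA (by exact_mod_cast hp v hv))
    · exact hq _ q.start_mem_support
    · exact hq v hv

/-- TARGET. a connected set is left by an edge inside a connected set `C` -/
theorem TS.cn_conn (T : TS D r) {C : Set V} (hC : T.Cn C) : InConn D C := by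
  have hF := T.fo_single hC
  have key : ∀ z ∈ C, ∃ y ∈ T.Q C, ∃ p : D.Walk z y, ∀ v ∈ p.support, v ∈ C := by
    intro z hz
    obtain ⟨i, A, hA, hzA⟩ := T.exists_Q hF (z := z) ⟨C, Finset.mem_singleton_self C, hz⟩
    exact t26a_to_Q T hC i A hA z hzA
  intro a ha b hb
  obtain ⟨a', ha', p, hp⟩ := key a ha
  obtain ⟨b', hb', q, hq⟩ := key b hb
  obtain ⟨s, hs⟩ := T.Q_conn hC a' (by exact_mod_cast ha') b' (by exact_mod_cast hb')
  refine ⟨(p.append s).append q.reverse, ?_⟩
  intro v hv
  rw [SimpleGraph.Walk.mem_support_append_iff, SimpleGraph.Walk.mem_support_append_iff, SimpleGraph.Walk.support_reverse, List.mem_reverse] at hv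
  rcases hv with (hv | hv) | hv
  · exact hp v hv
  · exact T.Q_sub hC (by exact_mod_cast hs v hv)
  · exact hq v hv

/-- TARGET. cones are infinite (`two`, disjoint top pieces of the descendants) -/
theorem TS.cn_inf (T : TS D r) {C : Set V} (hC : T.Cn C) : C.Infinite := by
  have hF := T.fo_single hC
  intro hfin
  have h1 := t16_le_card T hF (Finset.singleton_nonempty C) (hfin.toFinset.card + 1)
  have h2 : T.up {C} (hfin.toFinset.card + 1) ⊆ hfin.toFinset := by
    intro z hz
    rw [Set.Finite.mem_toFinset]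
    have h3 : z ∈ fs {C} := (T.mem_fs_iff hF _ z).2 (Or.inl hz)
    obtain ⟨C', hC', hz'⟩ := h3
    rw [Finset.mem_singleton] at hC'
    rwa [hC'] at hz'
  have h3 := Finset.card_le_card h2
  omega

/-- TARGET. -/
theorem TS.de_card_ge (T : TS D r) {F : Finset (Set V)} (hF : T.Fo F) (L : ℕ) : 2 ^ L * F.card ≤ (T.de F L).card := by
  induction L with
  | zero => rw [T.de_zero, pow_zero, one_mul]
  | succ L ih =>
    rw [T.de_succ, Finset.card_biUnion]
    · have h1 : ∀ A ∈ T.de F L, 2 ≤ (T.ch A).card := fun A hA => T.two (T.t5b_cn hF hA)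
      have h2 := Finset.sum_le_sum h1
      rw [Finset.sum_const, smul_eq_mul] at h2
      calc 2 ^ (L + 1) * F.card = 2 ^ L * F.card * 2 := by ring
        _ ≤ (T.de F L).card * 2 := Nat.mul_le_mul_right _ ih
        _ ≤ _ := h2
    · intro A hA B hB hne
      rw [Function.onFun, Finset.disjoint_left]
      intro C hCA hCB
      have hcA := T.t5b_cn hF hA
      have hcB := T.t5b_cn hF hB
      obtain ⟨z, hz⟩ := T.cn_ne (T.ch_cn hcA C hCA)
      have hd := (hF.de T L).disj A hA B hB hne
      exact Set.disjoint_left.1 hd (T.ch_sub hcA hCA hz) (T.ch_sub hcB hCB hz)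

/-- TARGET. for each `A ∈ de F L` there is an edge from `Y` to a vertex `x ∈ A`, `x ∉ Y` (`A` is infinite, connected, `o A` is nonempty and contained in `Y`, `o_edge`); different `A` are disjoint -/
theorem TS.eb_ge (T : TS D r) {F : Finset (Set V)} (hF : T.Fo F) {Y : Finset V} {L : ℕ} (ho : ∀ A ∈ T.de F L, T.o A ⊆ Y) : (T.de F L).card ≤ eb D Y := by
  have key : ∀ A ∈ T.de F L, ∃ x ∈ bd D Y, x ∈ A := by
    intro A hA
    have hcA := T.t5b_cn hF hA
    obtain ⟨x, hx⟩ := T.o_ne hcA
    obtain ⟨y, hy, hxy⟩ := T.o_edge hcA hx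
    by_cases hyY : y ∈ Y
    · obtain ⟨z, hzA, hzY⟩ : ∃ z ∈ A, z ∉ (Y : Set V) := by
        by_contra hcon
        push Not at hcon
        exact T.cn_inf hcA ((Y.finite_toSet).subset hcon)
      obtain ⟨p, hp⟩ := T.cn_conn hcA y (T.Q_sub hcA hy) z hzA
      obtain ⟨u, v, hu, hv, huY, hvY, huv⟩ := t26a_exit p (S := (Y : Set V)) (by exact_mod_cast hyY) hzY
      exact ⟨v, t26a_mem_bd.2 ⟨by exact_mod_cast hvY, u, by exact_mod_cast huY, huv⟩, hp v hv⟩
    · exact ⟨y, t26a_mem_bd.2 ⟨hyY, x, ho A hA hx, hxy⟩, T.Q_sub hcA hy⟩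
  have hne : Nonempty V := T.gd.inf.nonempty
  choose! f hf1 hf2 using key
  have h1 : (T.de F L).card ≤ (bd D Y).card := by
    refine Finset.card_le_card_of_injOn f (fun A hA => hf1 A hA) ?_
    intro A hA B hB hAB
    by_contra hne
    have hd := (hF.de T L).disj A hA B hB hne
    refine Set.disjoint_left.1 hd (hf2 A hA) ?_
    rw [hAB]
    exact hf2 B hB
  refine h1.trans ?_
  rw [← t26a_bd_edges Y, Finset.card_eq_sum_ones]
  refine Finset.sum_le_sum fun z hz => ?_
  obtain ⟨_, y, hy, hyz⟩ := t26a_mem_bd.1 hz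
  unfold dg
  exact Finset.card_pos.2 ⟨y, Finset.mem_filter.2 ⟨hy, hyz.symm⟩⟩

/-- TARGET. Let `Y 0 = fil D Q0`, `Q0 ⊇ B` connected and nonempty (`fill`), `Y (i+1) = nx D (Y i)`; these sets increase to `V` (`D` connected), are connected, `NF`. If the property failed for all `i`, `eb D (Y i)` would be nonincreasing (`eb_nx_le`), but it is at least `2^L` for large `i`
(`eb_ge`, `de_card_ge`, with the nonempty forest `F` of `fill`: `V` is infinite). So it holds for some `i`; `z ∈ bd D Y` has a neighbour `o' ∈ Y`. -/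
theorem TS.grow (T : TS D r) (B : Finset V) : ∃ Y : Finset V, B ⊆ Y ∧ InConn D (Y : Set V) ∧ NFc D (Y : Set V) ∧
    ∃ z o', z ∉ Y ∧ o' ∈ Y ∧ D.Adj z o' ∧ dg D z Y < ((D.neighborFinset z).filter (fun x => x ∉ nx D Y)).card := by
  have H := T.gd
  have : Nonempty V := H.inf.nonempty
  obtain ⟨v0⟩ := this
  obtain ⟨Q0, F, hBQ, hQc, hFc, hFd, hFo, hFQ, hcov⟩ := T.fill (insert v0 B)
  have hv0 : v0 ∈ Q0 := hBQ (Finset.mem_insert_self _ _)
  have hF : T.Fo F := ⟨hFc, hFd, fun C hC C' hC' x hx => hFQ C' hC' x (hFo C hC hx)⟩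
  set Y : ℕ → Finset V := fun i => (nx D)^[i] (fil D Q0) with hYd
  have hYs : ∀ i, Y (i + 1) = nx D (Y i) := fun i => by
    simp only [hYd]
    rw [Function.iterate_succ_apply']
  have hY0 : Q0 ⊆ Y 0 := sub_fil H ⟨v0, hv0⟩
  have hne : ∀ i, (Y i).Nonempty := by
    intro i
    induction i with
    | zero => exact ⟨v0, hY0 hv0⟩
    | succ i ih =>
      rw [hYs]
      have h1 : (Y i ∪ bd D (Y i)).Nonempty := ih.mono Finset.subset_union_left
      exact h1.mono (sub_fil H h1)
  have hstep : ∀ i, Y i ∪ bd D (Y i) ⊆ Y (i + 1) := by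
    intro i
    rw [hYs]
    exact sub_fil H ((hne i).mono Finset.subset_union_left)
  have hmono : ∀ i, Q0 ⊆ Y i := by
    intro i
    induction i with
    | zero => exact hY0
    | succ i ih => exact ih.trans (Finset.subset_union_left.trans (hstep i))
  have hmono' : ∀ i j, i ≤ j → Y i ⊆ Y j := by
    intro i j hij
    induction j, hij using Nat.le_induction with
    | base => exact Finset.Subset.refl _
    | succ j _ ih => exact ih.trans (Finset.subset_union_left.trans (hstep j))
  have hconn : ∀ i, InConn D (Y i : Set V) := by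
    intro i
    induction i with
    | zero => exact fil_conn H ⟨v0, hv0⟩ hQc
    | succ i ih =>
      rw [hYs]
      refine fil_conn H ((hne i).mono Finset.subset_union_left) ?_
      have key : ∀ z ∈ Y i ∪ bd D (Y i), ∃ y ∈ Y i, ∃ p : D.Walk z y, ∀ v ∈ p.support, v ∈ ((Y i ∪ bd D (Y i) : Finset V) : Set V) := by
        intro z hz
        rcases Finset.mem_union.1 hz with h | h
        · exact ⟨z, h, SimpleGraph.Walk.nil, fun v hv => by
            rw [SimpleGraph.Walk.support_nil, List.mem_singleton] at hv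
            rw [hv]; exact_mod_cast hz⟩
        · obtain ⟨_, y, hy, hyz⟩ := t26a_mem_bd.1 h
          refine ⟨y, hy, SimpleGraph.Walk.cons hyz.symm SimpleGraph.Walk.nil, fun v hv => ?_⟩
          rw [SimpleGraph.Walk.support_cons, SimpleGraph.Walk.support_nil, List.mem_cons, List.mem_singleton] at hv
          rcases hv with rfl | rfl
          · exact_mod_cast hz
          · exact_mod_cast Finset.mem_union_left _ hy
      intro a ha b hb
      obtain ⟨a', ha', p, hp⟩ := key a (by exact_mod_cast ha)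
      obtain ⟨b', hb', q, hq⟩ := key b (by exact_mod_cast hb)
      obtain ⟨s, hs⟩ := ih a' (by exact_mod_cast ha') b' (by exact_mod_cast hb')
      refine ⟨(p.append s).append q.reverse, ?_⟩
      intro v hv
      rw [SimpleGraph.Walk.mem_support_append_iff, SimpleGraph.Walk.mem_support_append_iff, SimpleGraph.Walk.support_reverse, List.mem_reverse] at hv
      rcases hv with (hv | hv) | hv
      · exact hp v hv
      · have := hs v hv
        exact_mod_cast Finset.mem_union_left _ (by exact_mod_cast this)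
      · exact hq v hv
  have hNF : ∀ i, NFc D (Y i : Set V) := by
    intro i
    cases i with
    | zero => exact fil_NF H ⟨v0, hv0⟩
    | succ i =>
      rw [hYs]
      exact fil_NF H ((hne i).mono Finset.subset_union_left)
  -- the sets exhaust `V`
  have hex : ∀ z, ∃ i, z ∈ Y i := by
    intro z
    obtain ⟨p⟩ := H.conn.preconnected v0 z
    have : ∀ {a b : V} (p : D.Walk a b), (∃ i, a ∈ Y i) → ∃ i, b ∈ Y i := by
      intro a b p
      induction p with
      | nil => exact id
      | @cons u w t ha q ih =>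
        rintro ⟨i, hi⟩
        refine ih ⟨i + 1, hstep i ?_⟩
        by_cases hw : w ∈ Y i
        · exact Finset.mem_union_left _ hw
        · exact Finset.mem_union_right _ (t26a_mem_bd.2 ⟨hw, u, hi, ha⟩)
    exact this p ⟨0, hY0 hv0⟩
  have hexS : ∀ S : Finset V, ∃ i, S ⊆ Y i := by
    intro S
    induction S using Finset.induction_on with
    | empty => exact ⟨0, Finset.empty_subset _⟩
    | insert s S _ ih =>
      obtain ⟨i, hi⟩ := ih
      obtain ⟨j, hj⟩ := hex s
      refine ⟨max i j, ?_⟩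
      intro x hx
      rcases Finset.mem_insert.1 hx with rfl | hx
      · exact hmono' _ _ (le_max_right i j) hj
      · exact hmono' _ _ (le_max_left i j) (hi hx)
  by_contra hcon
  have hbad : ∀ i, eb D (Y (i + 1)) ≤ eb D (Y i) := by
    intro i
    rw [hYs]
    refine eb_nx_le H (hne i) fun z hz => ?_
    by_contra hlt
    rw [not_le] at hlt
    obtain ⟨hzY, o', ho', hoz⟩ := t26a_mem_bd.1 hz
    exact hcon ⟨Y i, fun b hb => hmono i (hBQ (Finset.mem_insert_of_mem hb)), hconn i, hNF i, z, o', hzY, ho', hoz.symm, hlt⟩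
  have hle : ∀ i, eb D (Y i) ≤ eb D (Y 0) := by
    intro i
    induction i with
    | zero => exact le_rfl
    | succ i ih => exact (hbad i).trans ih
  have hFne : F.Nonempty := by
    by_contra hemp
    rw [Finset.not_nonempty_iff_eq_empty] at hemp
    have := H.inf
    obtain ⟨v, hv⟩ := Infinite.exists_notMem_finset Q0
    rcases hcov v with h | ⟨C, hC, _⟩
    · exact hv h
    · rw [hemp] at hC
      exact absurd hC (Finset.notMem_empty C)
  obtain ⟨L, hL⟩ : ∃ L, eb D (Y 0) < 2 ^ L := ⟨eb D (Y 0), Nat.lt_two_pow_self⟩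
  obtain ⟨i, hi⟩ := hexS ((T.de F L).biUnion T.o)
  have h1 := T.eb_ge hF (Y := Y i) (L := L) (fun A hA x hx => hi (Finset.mem_biUnion.2 ⟨A, hA, hx⟩))
  have h2 := T.de_card_ge hF L
  have h3 : 1 ≤ F.card := Finset.card_pos.2 hFne
  have h4 : 2 ^ L ≤ 2 ^ L * F.card := Nat.le_mul_of_pos_right _ h3
  have h5 := hle i
  omega

end Pool.Agent.Helper910.QT
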