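import Mathlib
import Pool.Agent.Helper910.T26a

/-! The installation for the lower bound (MP_4555f0_mp) -/

namespace Pool.Agent.Helper910.QT

open Classical Finset Filter Topology

variable {V : Type*} {D : SimpleGraph V} [D.LocallyFinite] {r : ℕ}

/-- the vertices outside `Y0` and `U` which are not adjacent to `Y0` -/
def far (D : SimpleGraph V) (Y0 : Finset V) (U : Set V) : Set V := {v | v ∉ Y0 ∧ v ∉ U ∧ ∀ y ∈ Y0, ¬ D.Adj v y}

/-- the installation: `Y0` is finite and connected, contains `o`, the top piece of the special cone `U` and its outer boundary; the rest of the graph consists of the finite set `Q1 \ Y0` and the cones of `F1` -/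
structure TS.Inst (T : TS D r) (o : V) (Y0 Q1 : Finset V) (F1 : Finset (Set V)) (U : Set V) : Prop where
  o_mem : o ∈ Y0
  conn : InConn D (Y0 : Set V)
  fo : T.Fo (insert U F1)
  notMem : U ∉ F1
  sp : T.sp U
  sub : ∀ y ∈ Y0, y ∈ Q1 ∨ y ∈ T.Q U
  nbr : ∀ y ∈ Y0, ∀ x, D.Adj y x → x ∈ Q1 ∨ x ∈ U
  QU : T.Q U ⊆ Y0
  oU : T.o U ⊆ Y0
  oF : ∀ C ∈ F1, T.o C ⊆ Q1
  cov : ∀ z, z ∈ Q1 ∨ z ∈ U ∨ z ∈ fs F1
  disj : ∀ z ∈ Q1, z ∉ U ∧ z ∉ fs F1
  nf : NFc D ((Y0 : Set V) ∪ U)
  key : ∃ z, z ∉ Y0 ∧ z ∉ U ∧ D.Adj z o ∧ dg D z Y0 < ((D.neighborFinset z).filter (fun x => (cmp D (far D Y0 U) x).Infinite)).card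

/-- deeper generations have smaller unions -/
theorem t26b_fs_de (T : TS D r) {F : Finset (Set V)} (hF : T.Fo F) {i k : ℕ} {z : V} (h : z ∈ fs (T.de F (i + k))) : z ∈ fs (T.de F i) := by
  obtain ⟨A, hA, hz⟩ := h
  rw [T.de_add] at hA
  exact T.t5b_sub (TS.Fo.de T hF i) hA hz

theorem t26b_de_single (T : TS D r) {F : Finset (Set V)} {C : Set V} (hC : C ∈ F) {j : ℕ} {A : Set V} (h : A ∈ T.de {C} j) : A ∈ T.de F j := by
  rw [T.de_biUnion]
  exact Finset.mem_biUnion.2 ⟨C, hC, h⟩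

/-- a set joined to a set by an edge and connected is linked -/
theorem t26b_link {S : Set V} {c : V} {Qs : Finset V} (hQ : InConn D (Qs : Set V)) (hQS : ∀ v ∈ Qs, v ∈ S) {x y : V}
    (hx : ∃ p : D.Walk x c, ∀ v ∈ p.support, v ∈ S) (hy : y ∈ Qs) (hxy : D.Adj x y) :
    ∀ v ∈ Qs, ∃ p : D.Walk v c, ∀ u ∈ p.support, u ∈ S := by
  intro v hv
  obtain ⟨p, hp⟩ := hx
  obtain ⟨q, hq⟩ := hQ v (by exact_mod_cast hv) y (by exact_mod_cast hy)
  refine ⟨q.append (SimpleGraph.Walk.cons hxy.symm p), fun u hu => ?_⟩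
  rw [SimpleGraph.Walk.mem_support_append_iff] at hu
  rcases hu with hu | hu
  · exact hQS u (by exact_mod_cast hq u hu)
  · rw [SimpleGraph.Walk.support_cons, List.mem_cons] at hu
    rcases hu with rfl | hu
    · exact hQS _ hy
    · exact hp u hu

/-- a connected set containing a vertex of `W` and a vertex outside `W` is crossed by an edge leaving `W` -/
theorem t26b_leave {A : Set V} {W : Finset V} (hA : InConn D A) {w a : V} (hw : w ∈ A) (hwW : w ∈ W) (ha : a ∈ A) (haW : a ∉ W) :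
    ∃ w' ∈ W, ∃ x, D.Adj w' x ∧ x ∉ W ∧ x ∈ A := by
  have key : ∀ {a b : V} (p : D.Walk a b), (∀ v ∈ p.support, v ∈ A) → a ∈ W → b ∉ W →
      ∃ w' ∈ W, ∃ x, D.Adj w' x ∧ x ∉ W ∧ x ∈ A := by
    intro a b p
    induction p with
    | nil => intro _ h h'; exact absurd h h'
    | @cons u v w h p ih =>
      intro hp ha hb
      by_cases hv : v ∈ W
      · exact ih (fun v hv => hp v (by simp [hv])) hv hb
      · exact ⟨u, ha, v, h, hv, hp v (by simp)⟩
  obtain ⟨p, hp⟩ := hA w hw a ha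
  exact key p hp hwW haW

/-- TARGET. EXISTENCE. Take `Q0, F` from `base` (for any vertex), `Y, z, o'` from `grow` for `B = Q0`, `z ∈ C1 ∈ F`, another cone `C3 ∈ F`, `j ≥ 1` and a special `U ∈ de {C3} j` with `Y` disjoint from `fs (de {C3} j)` (`exists_gen`, `sp_desc` applied to a cone of a late generation).
`Y0 = Y ∪ up {C3} j ∪ Q U`, `o = o'`. `J > j` such that `Y0 ∪ bd Y0` is disjoint from `fs (de F J)` (`exists_gen`); `F1 =` the cones of `de F J` not contained in `U`, `Q1 =` the vertices of `Q0 ∪ up F J` not in `U`.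
`nf`: let `W` be finite, nonempty, disjoint from `Y0 ∪ U`. If some `w ∈ W` is in `C3`, it is in some `A ∈ de {C3} j`, `A ≠ U`, which is infinite, connected and disjoint from `Y0`: take an edge of `A` leaving `W`. Otherwise use `NFc Y`: `x ∉ C3` because `o C3 ⊆ Q0 ⊆ Y`.
`key`: the neighbours of vertices of `C1` are in `C1 ∪ Q0`, and `Y0` agrees there with `Y`. For a neighbour `x ∉ nx D Y` of `z`, the component of `x` in `(Y ∪ bd Y)ᶜ` is infinite (`mem_fil`), contained in `C1`, hence in `far D Y0 U`. -/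
theorem TS.exists_inst (T : TS D r) : ∃ (o : V) (Y0 Q1 : Finset V) (F1 : Finset (Set V)) (U : Set V), T.Inst o Y0 Q1 F1 U := by
  obtain ⟨o0⟩ := T.gd.conn.nonempty
  obtain ⟨Q0, F, ho0, -, -, hF, hoF, hFQ, hcov, h2⟩ := T.base o0
  obtain ⟨Y, hQY, hYconn, hYNF, z, o', hzY, ho'Y, hzo', hlt⟩ := T.grow Q0
  obtain ⟨C1, hC1F, hzC1⟩ : ∃ C ∈ F, z ∈ C := by
    rcases hcov z with h | h
    · exact absurd (hQY h) hzY
    · exact h
  obtain ⟨C3, hC3F, hC31⟩ := Finset.exists_mem_ne (by omega : 1 < F.card) C1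
  have hC1 : T.Cn C1 := hF.cn C1 hC1F
  have hC3 : T.Cn C3 := hF.cn C3 hC3F
  have hS := T.fo_single hC3
  have h13 : ∀ v ∈ C1, v ∉ C3 := fun v hv hv' => Set.disjoint_left.1 (hF.disj C3 hC3F C1 hC1F hC31) hv' hv
  obtain ⟨i, hi⟩ := T.exists_gen hS Y
  obtain ⟨E, hE⟩ := t16_de_ne T hS (Finset.singleton_nonempty C3) (i + 1)
  obtain ⟨j', -, U, hUE, hsp⟩ := T.sp_desc (T.t5b_cn hS hE)
  have hUE' : U ∈ T.de {E} j' := hUE
  have hUj0 : U ∈ T.de {C3} (i + 1 + j') := T.de_trans hE hUE'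
  obtain ⟨j1, hj1⟩ : ∃ j1, i + 1 + j' = j1 + 1 := ⟨i + j', by omega⟩
  rw [hj1] at hUj0
  have hij : i ≤ j1 + 1 := by omega
  -- `Y` is disjoint from `fs (de {C3} (j1+1))`
  have hYd : ∀ v ∈ Y, v ∉ fs (T.de {C3} (j1 + 1)) := by
    intro v hv h
    obtain ⟨k, hk⟩ := Nat.exists_eq_add_of_le hij
    rw [hk] at h
    exact hi v hv (t26b_fs_de T hS h)
  have hUF : U ∈ T.de F (j1 + 1) := t26b_de_single T hC3F hUj0
  have hUcn : T.Cn U := T.t5b_cn hF hUF
  have hU3 : U ⊆ C3 := T.de_single_sub hC3 hUj0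
  have hup3 : ∀ v ∈ T.up {C3} (j1 + 1), v ∈ C3 := by
    intro v hv
    obtain ⟨k, -, A, hA, hvA⟩ := T.t5c_mem_up.1 hv
    exact T.de_single_sub hC3 hA (T.Q_sub (T.t5b_cn hS hA) hvA)
  set Y0 : Finset V := Y ∪ T.up {C3} (j1 + 1) ∪ T.Q U with hY0
  have mY0 : ∀ {v : V}, v ∈ Y0 ↔ v ∈ Y ∨ v ∈ T.up {C3} (j1 + 1) ∨ v ∈ T.Q U := by
    intro v
    rw [hY0, Finset.mem_union, Finset.mem_union, or_assoc]
  have hY03 : ∀ v ∈ Y0, v ∉ C3 → v ∈ Y := by
    intro v hv hv3
    rcases mY0.1 hv with h | h | h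
    · exact h
    · exact absurd (hup3 v h) hv3
    · exact absurd (hU3 (T.Q_sub hUcn h)) hv3
  obtain ⟨J0, hJ0⟩ := T.exists_gen hF (Y0 ∪ bd D Y0)
  obtain ⟨J', hJ'⟩ : ∃ J', J0 + (j1 + 2) = J' + 1 := ⟨J0 + (j1 + 1), by omega⟩
  have hJj : j1 + 1 ≤ J' := by omega
  have hJd : ∀ v ∈ Y0 ∪ bd D Y0, v ∉ fs (T.de F (J' + 1)) := by
    intro v hv h
    rw [← hJ'] at h
    exact hJ0 v hv (t26b_fs_de T hF h)
  set F1 := (T.de F (J' + 1)).filter (fun A => ¬ A ⊆ U) with hF1
  set Q1 := (Q0 ∪ T.up F (J' + 1)).filter (fun v => v ∉ U) with hQ1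
  have mF1 : ∀ {A : Set V}, A ∈ F1 ↔ A ∈ T.de F (J' + 1) ∧ ¬ A ⊆ U := by
    intro A; rw [hF1, Finset.mem_filter]
  have mQ1 : ∀ {v : V}, v ∈ Q1 ↔ (v ∈ Q0 ∨ v ∈ T.up F (J' + 1)) ∧ v ∉ U := by
    intro v; rw [hQ1, Finset.mem_filter, Finset.mem_union]
  have hnest : ∀ k, ∀ B ∈ T.de F (j1 + 1 + k), B ⊆ U ∨ Disjoint U B := by
    intro k B hB
    rcases T.nested hF hUF hB with h | h
    · exact Or.inl h.1
    · exact Or.inr h
  have hnest1 : ∀ A ∈ F1, Disjoint U A := by
    intro A hA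
    obtain ⟨k, hk⟩ := Nat.exists_eq_add_of_le (by omega : j1 + 1 ≤ J' + 1)
    have hA' := mF1.1 hA
    rw [hk] at hA'
    exact (hnest k A hA'.1).resolve_left hA'.2
  -- the outer boundary of `U`
  have hoU3 : ∀ x ∈ T.o U, x ∈ T.up {C3} (j1 + 1) := by
    intro x hx
    obtain ⟨B, hB, -, hoB⟩ := T.o_parent hS hUj0
    exact T.t5c_mem_up.2 ⟨j1, Nat.lt_succ_self j1, B, hB, hoB hx⟩
  have hoUF : ∀ x ∈ T.o U, x ∉ fs (T.de F (J' + 1)) := by
    intro x hx
    obtain ⟨B, hB, -, hoB⟩ := T.o_parent hF hUF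
    exact T.up_disj hF (T.t5c_mem_up.2 ⟨j1, by omega, B, hB, hoB hx⟩)
  -- the outer boundaries of the cones of `F1`
  have hoF1 : ∀ A ∈ F1, ∀ x ∈ T.o A, x ∈ T.up F (J' + 1) ∧ x ∉ U := by
    intro A hA x hx
    obtain ⟨B, hB, hAB, hoB⟩ := T.o_parent hF (mF1.1 hA).1
    refine ⟨T.t5c_mem_up.2 ⟨J', Nat.lt_succ_self J', B, hB, hoB hx⟩, fun hxU => ?_⟩
    obtain ⟨k, hk⟩ := Nat.exists_eq_add_of_le hJj
    have hBcn := T.t5b_cn hF hB
    rw [hk] at hB
    rcases hnest k B hB with h | h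
    · exact (mF1.1 hA).2 ((T.ch_sub hBcn hAB).trans h)
    · exact Set.disjoint_left.1 h hxU (T.Q_sub hBcn (hoB hx))
  have hcov' : ∀ v, v ∉ fs (T.de F (J' + 1)) → v ∈ Q0 ∨ v ∈ T.up F (J' + 1) := by
    intro v hv
    rcases hcov v with h | h
    · exact Or.inl h
    · rcases (T.mem_fs_iff hF (J' + 1) v).1 h with h' | h'
      · exact Or.inr h'
      · exact absurd h' hv
  have hYU : ∀ v ∈ Y, v ∉ U := fun v hv h => hYd v hv ⟨U, hUj0, h⟩
  have hupU : ∀ v ∈ T.up {C3} (j1 + 1), v ∉ U := fun v hv h => T.up_disj hS hv ⟨U, hUj0, h⟩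
  have hoY0 : ∀ x ∈ T.o C3, x ∈ Y := fun x hx => hQY (hoF C3 hC3F hx)
  refine ⟨o', Y0, Q1, F1, U, ?_⟩
  refine { o_mem := ?_, conn := ?_, fo := ?_, notMem := ?_, sp := hsp, sub := ?_, nbr := ?_, QU := ?_, oU := ?_, oF := ?_, cov := ?_, disj := ?_, nf := ?_, key := ?_ }
  · exact mY0.2 (Or.inl ho'Y)
  · -- conn
    have hYl : ∀ v ∈ Y, ∃ p : D.Walk v o', ∀ u ∈ p.support, u ∈ (Y0 : Set V) := by
      intro v hv
      obtain ⟨p, hp⟩ := hYconn v (by exact_mod_cast hv) o' (by exact_mod_cast ho'Y)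
      exact ⟨p, fun u hu => by
        have := hp u hu
        exact_mod_cast mY0.2 (Or.inl (by exact_mod_cast this))⟩
    have hQl : ∀ k, k ≤ j1 + 1 → ∀ A ∈ T.de {C3} k, (∀ v ∈ T.Q A, v ∈ Y0) → ∀ v ∈ T.Q A, ∃ p : D.Walk v o', ∀ u ∈ p.support, u ∈ (Y0 : Set V) := by
      intro k
      induction k with
      | zero =>
        intro _ A hA hAY
        rw [T.de_zero, Finset.mem_singleton] at hA
        subst hA
        obtain ⟨x, hx⟩ := T.o_ne hC3
        obtain ⟨y, hy, hxy⟩ := T.o_edge hC3 hx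
        exact t26b_link (T.Q_conn hC3) (fun v hv => by exact_mod_cast hAY v hv) (hYl x (hoY0 x hx)) hy hxy
      | succ k ih =>
        intro hk A hA hAY
        obtain ⟨B, hB, hAB, hoB⟩ := T.o_parent hS hA
        have hAcn := T.t5b_cn hS hA
        obtain ⟨x, hx⟩ := T.o_ne hAcn
        obtain ⟨y, hy, hxy⟩ := T.o_edge hAcn hx
        have hBY : ∀ v ∈ T.Q B, v ∈ Y0 := fun v hv => mY0.2 (Or.inr (Or.inl (T.t5c_mem_up.2 ⟨k, by omega, B, hB, hv⟩)))
        exact t26b_link (T.Q_conn hAcn) (fun v hv => by exact_mod_cast hAY v hv) (ih (by omega) B hB hBY x (hoB hx)) hy hxy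
    have hl : ∀ v ∈ Y0, ∃ p : D.Walk v o', ∀ u ∈ p.support, u ∈ (Y0 : Set V) := by
      intro v hv
      rcases mY0.1 hv with h | h | h
      · exact hYl v h
      · obtain ⟨k, hk, A, hA, hvA⟩ := T.t5c_mem_up.1 h
        exact hQl k hk.le A hA (fun v hv => mY0.2 (Or.inr (Or.inl (T.t5c_mem_up.2 ⟨k, hk, A, hA, hv⟩)))) v hvA
      · exact hQl (j1 + 1) le_rfl U hUj0 (fun v hv => mY0.2 (Or.inr (Or.inr hv))) v h
    intro a ha b hb
    obtain ⟨p, hp⟩ := hl a (by exact_mod_cast ha)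
    obtain ⟨q, hq⟩ := hl b (by exact_mod_cast hb)
    refine ⟨p.append q.reverse, fun u hu => ?_⟩
    rw [SimpleGraph.Walk.mem_support_append_iff] at hu
    rcases hu with hu | hu
    · exact hp u hu
    · exact hq u (by simpa using hu)
  · -- fo
    have hFJ := TS.Fo.de T hF (J' + 1)
    refine { cn := ?_, disj := ?_, nadj := ?_ }
    · intro C hC
      rcases Finset.mem_insert.1 hC with rfl | hC
      · exact hUcn
      · exact T.t5b_cn hF (mF1.1 hC).1
    · intro C hC C' hC' hne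
      rcases Finset.mem_insert.1 hC with rfl | hC
      · rcases Finset.mem_insert.1 hC' with rfl | hC'
        · exact absurd rfl hne
        · exact hnest1 C' hC'
      · rcases Finset.mem_insert.1 hC' with rfl | hC'
        · exact (hnest1 C hC).symm
        · exact hFJ.disj C (mF1.1 hC).1 C' (mF1.1 hC').1 hne
    · intro C hC C' hC' x hx
      rcases Finset.mem_insert.1 hC with rfl | hC
      · rcases Finset.mem_insert.1 hC' with rfl | hC'
        · exact T.o_notMem hUcn hx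
        · exact fun h => hoUF x hx ⟨C', (mF1.1 hC').1, h⟩
      · rcases Finset.mem_insert.1 hC' with rfl | hC'
        · exact (hoF1 C hC x hx).2
        · exact hFJ.nadj C (mF1.1 hC).1 C' (mF1.1 hC').1 x hx
  · -- notMem
    intro h
    exact (mF1.1 h).2 (le_refl U)
  · -- sub
    intro y hy
    have hy' := hJd y (Finset.mem_union_left _ hy)
    rcases mY0.1 hy with h | h | h
    · exact Or.inl (mQ1.2 ⟨hcov' y hy', hYU y h⟩)
    · exact Or.inl (mQ1.2 ⟨hcov' y hy', hupU y h⟩)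
    · exact Or.inr h
  · -- nbr
    intro y hy x hyx
    by_cases hxU : x ∈ U
    · exact Or.inr hxU
    · left
      refine mQ1.2 ⟨hcov' x (hJd x ?_), hxU⟩
      by_cases hxY : x ∈ Y0
      · exact Finset.mem_union_left _ hxY
      · refine Finset.mem_union_right _ ?_
        unfold bd
        rw [Finset.mem_filter, Finset.mem_biUnion]
        exact ⟨⟨y, hy, by rw [SimpleGraph.mem_neighborFinset]; exact hyx⟩, hxY⟩
  · exact fun v hv => mY0.2 (Or.inr (Or.inr hv))
  · exact fun v hv => mY0.2 (Or.inr (Or.inl (hoU3 v hv)))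
  · -- oF
    intro C hC x hx
    have h := hoF1 C hC x hx
    exact mQ1.2 ⟨Or.inr h.1, h.2⟩
  · -- cov
    intro v
    by_cases hvU : v ∈ U
    · exact Or.inr (Or.inl hvU)
    · by_cases hv : v ∈ fs (T.de F (J' + 1))
      · obtain ⟨A, hA, hvA⟩ := hv
        exact Or.inr (Or.inr ⟨A, mF1.2 ⟨hA, fun h => hvU (h hvA)⟩, hvA⟩)
      · exact Or.inl (mQ1.2 ⟨hcov' v hv, hvU⟩)
  · -- disj
    intro v hv
    have hv' := mQ1.1 hv
    refine ⟨hv'.2, ?_⟩
    rintro ⟨A, hA, hvA⟩
    rcases hv'.1 with h | h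
    · obtain ⟨C, hC, hvC⟩ := T.t5b_sub hF (mF1.1 hA).1 hvA
      exact hFQ C hC v h hvC
    · exact T.up_disj hF h ⟨A, (mF1.1 hA).1, hvA⟩
  · -- nf
    intro W hWne hW
    have hWY0 : ∀ w ∈ W, w ∉ Y0 := fun w hw h => hW w hw (Or.inl (by exact_mod_cast h))
    have hWU : ∀ w ∈ W, w ∉ U := fun w hw h => hW w hw (Or.inr h)
    by_cases h3 : ∃ w ∈ W, w ∈ C3
    · obtain ⟨w, hw, hw3⟩ := h3
      have hwfs : w ∈ fs ({C3} : Finset (Set V)) := ⟨C3, Finset.mem_singleton_self C3, hw3⟩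
      obtain ⟨A, hA, hwA⟩ : w ∈ fs (T.de {C3} (j1 + 1)) := by
        rcases (T.mem_fs_iff hS (j1 + 1) w).1 hwfs with h | h
        · exact absurd (mY0.2 (Or.inr (Or.inl h))) (hWY0 w hw)
        · exact h
      have hAcn := T.t5b_cn hS hA
      have hAU : A ≠ U := by rintro rfl; exact hWU w hw hwA
      have hAd : Disjoint A U := (TS.Fo.de T hS (j1 + 1)).disj A hA U hUj0 hAU
      obtain ⟨a, haA, haW⟩ : ∃ a ∈ A, a ∉ W := by
        by_contra hcon
        push Not at hcon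
        exact T.cn_inf hAcn ((W.finite_toSet).subset (fun a ha => by exact_mod_cast hcon a ha))
      obtain ⟨w', hw', x, hw'x, hxW, hxA⟩ := t26b_leave (T.cn_conn hAcn) hwA hw haA haW
      refine ⟨w', hw', x, hw'x, hxW, ?_⟩
      rintro (h | h)
      · rcases mY0.1 (by exact_mod_cast h) with h' | h' | h'
        · exact hYd x h' ⟨A, hA, hxA⟩
        · exact T.up_disj hS h' ⟨A, hA, hxA⟩
        · exact Set.disjoint_left.1 hAd hxA (T.Q_sub hUcn h')
      · exact Set.disjoint_left.1 hAd hxA h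
    · push Not at h3
      obtain ⟨w, hw, x, hwx, hxW, hxY⟩ := hYNF W hWne (fun w hw h => hWY0 w hw (mY0.2 (Or.inl (by exact_mod_cast h))))
      refine ⟨w, hw, x, hwx, hxW, ?_⟩
      have hx3 : x ∉ C3 := by
        intro hx
        have h1 : w ∈ T.o C3 := (T.mem_o hC3 w).2 ⟨h3 w hw, x, hx, hwx⟩
        exact hWY0 w hw (mY0.2 (Or.inl (hoY0 w h1)))
      rintro (h | h)
      · exact hxY (by exact_mod_cast hY03 x (by exact_mod_cast h) hx3)
      · exact hx3 (hU3 h)
  · -- key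
    have hz3 := h13 z hzC1
    refine ⟨z, fun h => hzY (hY03 z h hz3), fun h => hz3 (hU3 h), hzo', ?_⟩
    have e1 : dg D z Y0 ≤ dg D z Y := by
      refine TS.t5b_dg_le (fun x hx hzx => ?_)
      rcases T.nbr_fo hF hC1F hzC1 hzx with h | h
      · exact hY03 x hx (h13 x h)
      · exact hQY (hoF C1 hC1F h)
    refine lt_of_le_of_lt e1 (lt_of_lt_of_le hlt (Finset.card_le_card ?_))
    intro x hx
    rw [Finset.mem_filter] at hx ⊢
    refine ⟨hx.1, ?_⟩
    have hzx : D.Adj z x := by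
      have := hx.1
      rw [SimpleGraph.mem_neighborFinset] at this
      exact this
    have hne : (Y ∪ bd D Y).Nonempty := ⟨o', Finset.mem_union_left _ ho'Y⟩
    have hinf : (cmp D ((Y ∪ bd D Y : Finset V) : Set V)ᶜ x).Infinite := by
      intro hfin
      exact hx.2 ((mem_fil T.gd hne).2 hfin)
    have hxn : x ∉ Y ∪ bd D Y := by
      intro hxm
      obtain ⟨y, p, hp⟩ := hinf.nonempty
      exact hp x (SimpleGraph.Walk.start_mem_support p) (by exact_mod_cast hxm)
    have hstep : ∀ {u v : V}, u ∈ C1 → D.Adj u v → v ∉ Y ∪ bd D Y → v ∈ C1 := by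
      intro u v hu huv hv
      rcases T.nbr_fo hF hC1F hu huv with h | h
      · exact h
      · exact absurd (Finset.mem_union_left _ (hQY (hoF C1 hC1F h))) hv
    have hxC1 : x ∈ C1 := hstep hzC1 hzx hxn
    have hfar : ∀ v ∈ C1, v ∉ Y ∪ bd D Y → v ∈ far D Y0 U := by
      intro v hv hvn
      have hv3 := h13 v hv
      refine ⟨fun h => hvn (Finset.mem_union_left _ (hY03 v h hv3)), fun h => hv3 (hU3 h), fun y hy hvy => ?_⟩
      by_cases hy3 : y ∈ C3
      · rcases T.nbr_fo hF hC1F hv hvy with h | h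
        · exact h13 y h hy3
        · exact hFQ C3 hC3F y (hoF C1 hC1F h) hy3
      · have hyY := hY03 y hy hy3
        apply hvn
        refine Finset.mem_union_right _ ?_
        unfold bd
        rw [Finset.mem_filter, Finset.mem_biUnion]
        exact ⟨⟨y, hyY, by rw [SimpleGraph.mem_neighborFinset]; exact hvy.symm⟩, fun h => hvn (Finset.mem_union_left _ h)⟩
    have hwalk : ∀ {a b : V} (p : D.Walk a b), (∀ v ∈ p.support, v ∈ ((Y ∪ bd D Y : Finset V) : Set V)ᶜ) → a ∈ C1 →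
        ∀ v ∈ p.support, v ∈ far D Y0 U := by
      intro a b p
      induction p with
      | @nil u =>
        intro hp ha v hv
        rw [SimpleGraph.Walk.support_nil, List.mem_singleton] at hv
        subst hv
        exact hfar v ha (fun h => hp v (by simp) (by exact_mod_cast h))
      | @cons u v w h p ih =>
        intro hp ha x hx
        rw [SimpleGraph.Walk.support_cons, List.mem_cons] at hx
        rcases hx with rfl | hx
        · exact hfar x ha (fun h => hp x (by simp) (by exact_mod_cast h))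
        · exact ih (fun v hv => hp v (by simp [hv])) (hstep ha h (fun h' => hp v (by simp) (by exact_mod_cast h'))) x hx
    refine hinf.mono ?_
    rintro y ⟨p, hp⟩
    exact ⟨p, hwalk p hp hxC1⟩

/-- the configuration: height `r` on `Y0`, `ξ` below `U`, `ζ` on the cones of `F1`, `r - dg(·, Y0)` on the rest of `Q1` -/
noncomputable def TS.cg (T : TS D r) (Y0 Q1 : Finset V) (F1 : Finset (Set V)) (U : Set V) (ζ ξ : V → ℕ) : V → ℕ := fun v =>
  if v ∈ Y0 then r else if v ∈ U then ξ v else if v ∈ fs F1 then ζ v else if v ∈ Q1 then r - dg D v Y0 else 0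

variable {T : TS D r} {o : V} {Y0 Q1 : Finset V} {F1 : Finset (Set V)} {U : Set V}

theorem TS.Inst.t26b_U (I : T.Inst o Y0 Q1 F1 U) : T.Cn U := I.fo.cn U (Finset.mem_insert_self _ _)

theorem TS.Inst.t26b_F (I : T.Inst o Y0 Q1 F1 U) : T.Fo F1 := TS.Fo.sub T I.fo (Finset.subset_insert _ _)

theorem TS.Inst.t26b_UF (I : T.Inst o Y0 Q1 F1 U) {z : V} (hz : z ∈ U) : z ∉ fs F1 := by
  rintro ⟨C, hC, hz'⟩
  have hne : U ≠ C := by rintro rfl; exact I.notMem hC
  exact Set.disjoint_left.1 (I.fo.disj U (Finset.mem_insert_self _ _) C (Finset.mem_insert_of_mem hC) hne) hz hz'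

theorem TS.Inst.t26b_YF (I : T.Inst o Y0 Q1 F1 U) {z : V} (hz : z ∈ Y0) : z ∉ fs F1 := by
  rcases I.sub z hz with h | h
  · exact (I.disj z h).2
  · exact I.t26b_UF (T.Q_sub I.t26b_U h)

theorem TS.Inst.t26b_ch (I : T.Inst o Y0 Q1 F1 U) {z : V} : z ∈ fs (T.ch U) ↔ z ∈ U ∧ z ∉ Y0 := by
  constructor
  · rintro ⟨C', hC', hz⟩
    refine ⟨(T.mem_iff I.t26b_U z).2 (Or.inr ⟨C', hC', hz⟩), fun h => ?_⟩
    rcases I.sub z h with h | h
    · exact (I.disj z h).1 ((T.mem_iff I.t26b_U z).2 (Or.inr ⟨C', hC', hz⟩))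
    · exact T.Q_notMem I.t26b_U C' hC' z h hz
  · rintro ⟨h1, h2⟩
    rcases (T.mem_iff I.t26b_U z).1 h1 with h | ⟨C', hC', h⟩
    · exact absurd (I.QU h) h2
    · exact ⟨C', hC', h⟩

theorem TS.Inst.t26b_cgY {ζ ξ : V → ℕ} {v : V} (hv : v ∈ Y0) : T.cg Y0 Q1 F1 U ζ ξ v = r := by
  simp [TS.cg, hv]

theorem TS.Inst.t26b_cgU {ζ ξ : V → ℕ} {v : V} (hv : v ∉ Y0) (hv' : v ∈ U) : T.cg Y0 Q1 F1 U ζ ξ v = ξ v := by
  simp [TS.cg, hv, hv']

theorem TS.Inst.t26b_cgF (I : T.Inst o Y0 Q1 F1 U) {ζ ξ : V → ℕ} {v : V} (hv : v ∈ fs F1) : T.cg Y0 Q1 F1 U ζ ξ v = ζ v := by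
  have h1 : v ∉ Y0 := fun h => I.t26b_YF h hv
  have h2 : v ∉ U := fun h => I.t26b_UF h hv
  simp [TS.cg, hv, h1, h2]

theorem TS.Inst.t26b_cgQ (I : T.Inst o Y0 Q1 F1 U) {ζ ξ : V → ℕ} {v : V} (hv : v ∉ Y0) (hv' : v ∈ Q1) : T.cg Y0 Q1 F1 U ζ ξ v = r - dg D v Y0 := by
  have h1 := I.disj v hv'
  simp [TS.cg, hv, hv', h1.1, h1.2]

/-- TARGET. every vertex outside `Y0 ∪ U` has a neighbour outside `Y0 ∪ U` (`nf` for `{v}`), so `1 ≤ r - dg(·, Y0)` -/
theorem TS.Inst.dg_lt (I : T.Inst o Y0 Q1 F1 U) {v : V} (hv : v ∉ Y0) (hv' : v ∉ U) : dg D v Y0 < r := by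
  obtain ⟨w, hw, x, hwx, hx, hx'⟩ := I.nf {v} (Finset.singleton_nonempty v) (by
    intro w hw
    rw [Finset.mem_singleton] at hw
    subst hw
    rintro (h | h)
    · exact hv (by exact_mod_cast h)
    · exact hv' h)
  rw [Finset.mem_singleton] at hw
  subst hw
  have hxY : x ∉ Y0 := fun h => hx' (Or.inl (by exact_mod_cast h))
  have h1 := T.gd.degLe w (insert x Y0)
  rw [dg_insert hxY, if_pos hwx] at h1
  omega

/-- the neighbours of a vertex outside a set -/

theorem t26b_nbrs (H : Gd D r) {z : V} {A : Finset V} {P : V → Prop} (h : ∀ x ∈ A, D.Adj z x → ¬ P x) :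
    dg D z A + ((D.neighborFinset z).filter P).card ≤ r := by
  have h1 : dg D z A = (A.filter (fun w => D.Adj z w)).card := rfl
  rw [h1, ← Finset.card_union_of_disjoint]
  · have h2 : (A.filter (fun w => D.Adj z w)) ∪ ((D.neighborFinset z).filter P) ⊆ D.neighborFinset z := by
      intro x hx
      rcases Finset.mem_union.1 hx with h | h
      · rw [SimpleGraph.mem_neighborFinset]; exact (Finset.mem_filter.1 h).2
      · exact (Finset.mem_filter.1 h).1
    refine (Finset.card_le_card h2).trans ?_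
    rw [SimpleGraph.card_neighborFinset_eq_degree, H.reg z]
  · rw [Finset.disjoint_left]
    intro x hx hx'
    rw [Finset.mem_filter] at hx hx'
    exact h x hx.1 hx.2 hx'.2

/-- TARGET. RECURRENCE. Suppose `H ⊆ G` is nonempty and `cg v ≤ dg v H` on `H`. (1) `H` is disjoint from the cones of `F1` (`ζ` is strongly recurrent there: `w = fi F1` counts the neighbours in `o C`). (2) a vertex of `H` of height `r` has all its `r` neighbours in `H`; if a neighbour `x` of `z` (from `key`) with infinite component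
in `far D Y0 U` were in `H`, then, going along walks in `far`, the whole infinite component would be in `H` (its vertices are in `Q1` with height `r` or in cones of `F1`): impossible. (3) so `z ∉ H`: its height is `r - dg z Y0 > r - #(infinite neighbours) ≥ dg z H`. (4) `H` is disjoint from `Y0`: otherwise `Y0 ⊆ H` by connectivity,
so `o ∈ H` and `z ∈ H`. (5) so for `v ∈ H`, `v ∉ U`, all the neighbours of `v` outside `Y0` are in `H`; `W = H \ U` contradicts `nf` unless empty (a neighbour in `U` would mean `v ∈ o U ⊆ Y0`). (6) `H ⊆ U \ Q U`, contradicting `ξ ∈ Rc (gp G (ch U))`. -/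
theorem TS.Inst.cg_mem (I : T.Inst o Y0 Q1 F1 U) {G : Finset V} (hG : Q1 ⊆ G) (hG' : Y0 ⊆ G) {ζ ξ : V → ℕ} (hζ : ζ ∈ RcW D r (T.fi F1) (gp G F1))
    (hξ : ξ ∈ Rc D r (gp G (T.ch U))) : T.cg Y0 Q1 F1 U ζ ξ ∈ Rc D r G := by
  have hr := T.gd.one_le
  obtain ⟨hζc, hζr⟩ := mem_RcW.1 hζ
  obtain ⟨hξc, hξr⟩ := mem_Rc.1 hξ
  rw [mem_Rc]
  refine ⟨⟨?_, ?_⟩, ?_⟩
  · intro v hv
    by_cases h1 : v ∈ Y0
    · rw [TS.Inst.t26b_cgY h1]; exact ⟨hr, le_refl _⟩
    · by_cases h2 : v ∈ U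
      · rw [TS.Inst.t26b_cgU h1 h2]
        exact hξc.1 v (TS.mem_gp.2 ⟨hv, I.t26b_ch.2 ⟨h2, h1⟩⟩)
      · rcases I.cov v with h3 | h3 | h3
        · rw [I.t26b_cgQ h1 h3]
          have := I.dg_lt h1 h2
          omega
        · exact absurd h3 h2
        · rw [I.t26b_cgF h3]
          exact hζc.1 v (TS.mem_gp.2 ⟨hv, h3⟩)
  · intro v hv
    have h1 : v ∉ Y0 := fun h => hv (hG' h)
    by_cases h2 : v ∈ U
    · rw [TS.Inst.t26b_cgU h1 h2]
      exact hξc.2 v (fun h => hv (TS.mem_gp.1 h).1)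
    · rcases I.cov v with h3 | h3 | h3
      · exact absurd (hG h3) hv
      · exact absurd h3 h2
      · rw [I.t26b_cgF h3]
        exact hζc.2 v (fun h => hv (TS.mem_gp.1 h).1)
  · intro H hHG hHne
    by_contra hcon
    push Not at hcon
    simp only [Pi.zero_apply, add_zero] at hcon
    -- (1)
    have e1 : ∀ v ∈ H, v ∉ fs F1 := by
      intro v0 hv0 hv0F
      obtain ⟨z, hz, hlt⟩ := hζr (H.filter (fun z => z ∈ fs F1)) (by
        intro z hz
        rw [Finset.mem_filter] at hz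
        exact TS.mem_gp.2 ⟨hHG hz.1, hz.2⟩) ⟨v0, Finset.mem_filter.2 ⟨hv0, hv0F⟩⟩
      rw [Finset.mem_filter] at hz
      have h1 := hcon z hz.1
      rw [I.t26b_cgF hz.2] at h1
      have h2 : dg D z H ≤ dg D z (H.filter (fun z => z ∈ fs F1)) + T.fi F1 z := by
        have h3 : dg D z H ≤ dg D z ((H.filter (fun z => z ∈ fs F1)) ∪ T.fo F1) := by
          refine TS.t5b_dg_le (fun x hx hzx => ?_)
          obtain ⟨C, hC, hzC⟩ := hz.2
          rcases T.nbr_fo I.t26b_F hC hzC hzx with h | h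
          · exact Finset.mem_union_left _ (Finset.mem_filter.2 ⟨hx, C, hC, h⟩)
          · exact Finset.mem_union_right _ ((T.t5b_mem_fo).2 ⟨C, hC, h⟩)
        refine h3.trans ?_
        rw [dg_union]
        · exact le_refl _
        · rw [Finset.disjoint_left]
          intro x hx hx'
          exact T.t5b_fo_notMem I.t26b_F hx' (Finset.mem_filter.1 hx).2
      omega
    -- (2)
    have e2 : ∀ v ∈ H, v ∈ far D Y0 U → ∀ x, D.Adj v x → x ∈ H := by
      intro v hv hvf
      have h1 := hcon v hv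
      have h2 : v ∈ Q1 := by
        rcases I.cov v with h | h | h
        · exact h
        · exact absurd h hvf.2.1
        · exact absurd h (e1 v hv)
      rw [I.t26b_cgQ hvf.1 h2, dg_eq_zero (fun w hw => hvf.2.2 w hw)] at h1
      exact T.gd.full_nbr (by omega)
    have e2' : ∀ x, (cmp D (far D Y0 U) x).Infinite → x ∉ H := by
      intro x hinf hx
      apply hinf
      refine (H.finite_toSet).subset ?_
      rintro y ⟨p, hp⟩
      have key : ∀ {a b : V} (p : D.Walk a b), (∀ v ∈ p.support, v ∈ far D Y0 U) → a ∈ H → b ∈ H := by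
        intro a b p
        induction p with
        | nil => intro _ h; exact h
        | cons h p ih =>
          intro hp ha
          refine ih (fun v hv => hp v (by simp [hv])) ?_
          exact e2 _ ha (hp _ (by simp)) _ h
      exact_mod_cast key p hp hx
    -- (3)
    obtain ⟨z, hzY, hzU, hzo, hzlt⟩ := I.key
    have e3 : z ∉ H := by
      intro hz
      have h2 : z ∈ Q1 := by
        rcases I.cov z with h | h | h
        · exact h
        · exact absurd h hzU
        · exact absurd h (e1 z hz)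
      have h1 := hcon z hz
      rw [I.t26b_cgQ hzY h2] at h1
      have h3 := t26b_nbrs T.gd (z := z) (A := H) (P := fun x => (cmp D (far D Y0 U) x).Infinite)
        (fun x hx _ hinf => e2' x hinf hx)
      omega
    -- (4)
    have e4 : ∀ y ∈ Y0, y ∉ H := by
      intro y hy hyH
      have key : ∀ {a b : V} (p : D.Walk a b), (∀ v ∈ p.support, v ∈ (Y0 : Set V)) → a ∈ H → b ∈ H := by
        intro a b p
        induction p with
        | nil => intro _ h; exact h
        | cons h p ih =>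
          intro hp ha
          refine ih (fun v hv => hp v (by simp [hv])) ?_
          have h1 := hcon _ ha
          rw [TS.Inst.t26b_cgY (by exact_mod_cast hp _ (by simp))] at h1
          exact T.gd.full_nbr h1 _ h
      obtain ⟨p, hp⟩ := I.conn y (by exact_mod_cast hy) o (by exact_mod_cast I.o_mem)
      have ho := key p hp hyH
      have h1 := hcon o ho
      rw [TS.Inst.t26b_cgY I.o_mem] at h1
      exact e3 (T.gd.full_nbr h1 z hzo.symm)
    -- (5)
    have e5 : ∀ v ∈ H, v ∈ U := by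
      by_contra hcon2
      push Not at hcon2
      obtain ⟨v0, hv0, hv0U⟩ := hcon2
      obtain ⟨w, hw, x, hwx, hx, hx'⟩ := I.nf (H.filter (fun v => v ∉ U)) ⟨v0, Finset.mem_filter.2 ⟨hv0, hv0U⟩⟩ (by
        intro w hw
        rw [Finset.mem_filter] at hw
        rintro (h | h)
        · exact e4 w (by exact_mod_cast h) hw.1
        · exact hw.2 h)
      rw [Finset.mem_filter] at hw
      have hwY : w ∉ Y0 := fun h => e4 w h hw.1
      have h2 : w ∈ Q1 := by
        rcases I.cov w with h | h | h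
        · exact h
        · exact absurd h hw.2
        · exact absurd h (e1 w hw.1)
      have h1 := hcon w hw.1
      rw [I.t26b_cgQ hwY h2] at h1
      have h3 : Disjoint H Y0 := by
        rw [Finset.disjoint_right]; exact e4
      have h4 : r ≤ dg D w (H ∪ Y0) := by rw [dg_union h3]; omega
      have h5 := T.gd.full_nbr h4 x hwx
      have hxU : x ∉ U := fun h => hx' (Or.inr h)
      rcases Finset.mem_union.1 h5 with h | h
      · exact hx (Finset.mem_filter.2 ⟨h, hxU⟩)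
      · exact hx' (Or.inl (by exact_mod_cast h))
    -- (6)
    obtain ⟨z, hz, hlt⟩ := hξr H (by
      intro v hv
      exact TS.mem_gp.2 ⟨hHG hv, I.t26b_ch.2 ⟨e5 v hv, fun h => e4 v h hv⟩⟩) hHne
    have h1 := hcon z hz
    rw [TS.Inst.t26b_cgU (fun h => e4 z h hz) (e5 z hz)] at h1
    simp only [Pi.zero_apply, add_zero] at hlt
    omega

theorem t26b_dg_pos {z x : V} {S : Finset V} (hx : x ∈ S) (h : D.Adj z x) : 1 ≤ dg D z S := TS.t5b_dg_pos hx h

theorem TS.Inst.t26b_fi (I : T.Inst o Y0 Q1 F1 U) {z : V} (hz : z ∈ fs (T.ch U)) : T.fi (T.ch U) z = dg D z Y0 := by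
  rw [T.fi_ch I.t26b_U hz]
  refine le_antisymm (dg_mono I.QU) ?_
  refine TS.t5b_dg_le (fun x hx hzx => ?_)
  obtain ⟨C', hC', hzC⟩ := hz
  rcases T.nbr_ch I.t26b_U hC' hzC hzx with h | h
  · exact absurd hx (I.t26b_ch.1 ⟨C', hC', h⟩).2
  · exact T.o_sub I.t26b_U C' hC' h

theorem TS.Inst.t26b_nch (I : T.Inst o Y0 Q1 F1 U) {z x : V} (hz : z ∉ U) (hx : x ∈ fs (T.ch U)) : ¬ D.Adj z x := by
  intro h
  obtain ⟨C', hC', hxC⟩ := hx
  rcases T.nbr_ch I.t26b_U hC' hxC h.symm with h | h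
  · exact hz (I.t26b_ch.1 ⟨C', hC', h⟩).1
  · exact hz (T.Q_sub I.t26b_U (T.o_sub I.t26b_U C' hC' h))

/-- TARGET. THE FIRST WAVE: `Y0.erase o` and the full wave below `U`. All of `Y0` topples (heights `r`, connected), hence the wave below `U` (`fi_ch`: the input of the children of `U` is the input from `Q U`); the union absorbs: for `y ∉ Y0 ∪ U`, the height plus the number of neighbours in `Y0` is at most `r` (for `y` in a cone of `F1`,
`y` is not adjacent to `Y0` by `nbr`, `disj`), `y` is not adjacent to `U \ Q U`; for `y ∈ U \ Q U` its neighbours in `Y0` are in `Q U`. -/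
theorem TS.Inst.wave (I : T.Inst o Y0 Q1 F1 U) {G : Finset V} (hG : Q1 ⊆ G) (hG' : Y0 ⊆ G) {ζ ξ : V → ℕ} (hζ : ζ ∈ RcW D r (T.fi F1) (gp G F1))
    (hξ : ξ ∈ Rc D r (gp G (T.ch U))) : wav D r o (G.erase o) (rs (G.erase o) (T.cg Y0 Q1 F1 U ζ ξ)) = Y0.erase o ∪ gw D r (T.fi (T.ch U)) (gp G (T.ch U)) ξ := by
  have hr := T.gd.one_le
  obtain ⟨hζc, hζr⟩ := mem_RcW.1 hζ
  set W' := gw D r (T.fi (T.ch U)) (gp G (T.ch U)) ξ with hW'
  have hW'sub : ∀ z ∈ W', z ∈ G ∧ z ∈ fs (T.ch U) := fun z hz => TS.mem_gp.1 (gw_sub _ _ _ hz)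
  have hoW' : o ∉ W' := fun h => (I.t26b_ch.1 (hW'sub o h).2).2 I.o_mem
  rw [wav_eq_gw (Finset.notMem_erase o G)]
  have hsplit : ∀ y, dgi D {o} y + dg D y (Y0.erase o) = dg D y Y0 := by
    intro y
    have h1 : dgi D {o} y = dg D y {o} := rfl
    rw [h1, add_comm, ← dg_union (by rw [Finset.disjoint_singleton_right]; exact Finset.notMem_erase o Y0)]
    congr 1
    rw [Finset.union_comm, ← Finset.insert_eq, Finset.insert_erase I.o_mem]
  have hdisj : Disjoint (Y0.erase o) W' := by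
    rw [Finset.disjoint_left]
    intro x hx hx'
    exact (I.t26b_ch.1 (hW'sub x hx').2).2 (Finset.mem_of_mem_erase hx)
  refine gw_eq ⟨?_, ?_⟩ ?_
  · intro z hz
    rcases Finset.mem_union.1 hz with h | h
    · exact Finset.mem_erase.2 ⟨Finset.ne_of_mem_erase h, hG' (Finset.mem_of_mem_erase h)⟩
    · refine Finset.mem_erase.2 ⟨?_, (hW'sub z h).1⟩
      rintro rfl
      exact hoW' h
  · intro y hy hyW
    rw [rs_mem hy]
    rw [Finset.mem_erase] at hy
    rw [Finset.mem_union, not_or] at hyW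
    have hyY : y ∉ Y0 := fun h => hyW.1 (Finset.mem_erase.2 ⟨hy.1, h⟩)
    rw [dg_union hdisj]
    have h0 := hsplit y
    by_cases hyU : y ∈ U
    · have hych := I.t26b_ch.2 ⟨hyU, hyY⟩
      have h1 := (gw_GCl (D := D) (r := r) (T.fi (T.ch U)) (gp G (T.ch U)) ξ).2 y (TS.mem_gp.2 ⟨hy.2, hych⟩) hyW.2
      rw [I.t26b_fi hych, ← hW'] at h1
      rw [TS.Inst.t26b_cgU hyY hyU]
      omega
    · have h1 : dg D y W' = 0 := dg_eq_zero (fun w hw => I.t26b_nch hyU (hW'sub w hw).2)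
      rcases I.cov y with h | h | h
      · rw [I.t26b_cgQ hyY h]
        have h2 := T.gd.degLe y Y0
        omega
      · exact absurd h hyU
      · have h2 : dg D y Y0 = 0 := dg_eq_zero (fun w hw hyw => by
          rcases I.nbr w hw y hyw.symm with h' | h'
          · exact (I.disj y h').2 h
          · exact hyU h')
        rw [I.t26b_cgF h]
        have h3 := (hζc.1 y (TS.mem_gp.2 ⟨hy.2, h⟩)).2
        omega
  · intro X hX hne
    by_cases hXY : ∃ x ∈ X, x ∈ Y0
    · obtain ⟨x, hx, hxY⟩ := hXY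
      have hoX : o ∉ X := by
        intro h
        rcases Finset.mem_union.1 (hX h) with h' | h'
        · exact Finset.notMem_erase o Y0 h'
        · exact hoW' h'
      have key : ∀ {a b : V} (p : D.Walk a b), (∀ v ∈ p.support, v ∈ (Y0 : Set V)) → a ∈ X → b ∉ X →
          ∃ z ∈ X, ∃ y, y ∉ X ∧ z ∈ Y0 ∧ y ∈ Y0 ∧ D.Adj z y := by
        intro a b p
        induction p with
        | nil => intro _ h h'; exact absurd h h'
        | @cons u v w h p ih =>
          intro hp ha hb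
          by_cases hv : v ∈ X
          · exact ih (fun v hv => hp v (by simp [hv])) hv hb
          · exact ⟨u, ha, v, hv, by exact_mod_cast hp u (by simp), by exact_mod_cast hp v (by simp), h⟩
      obtain ⟨p, hp⟩ := I.conn x (by exact_mod_cast hxY) o (by exact_mod_cast I.o_mem)
      obtain ⟨z, hz, y, hyX, hzY, hyY, hzy⟩ := key p hp hx hoX
      refine ⟨z, hz, ?_⟩
      have hzo : z ≠ o := by rintro rfl; exact hoX hz
      rw [rs_mem (Finset.mem_erase.2 ⟨hzo, hG' hzY⟩), TS.Inst.t26b_cgY hzY]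
      by_cases hyo : y = o
      · have h1 : dgi D {o} z = 1 := by
          have : dgi D {o} z = dg D z {o} := rfl
          rw [this, dg_singleton, if_pos (hyo ▸ hzy)]
        omega
      · have h1 : 1 ≤ dg D z ((Y0.erase o ∪ W') \ X) := t26b_dg_pos (Finset.mem_sdiff.2
          ⟨Finset.mem_union_left _ (Finset.mem_erase.2 ⟨hyo, hyY⟩), hyX⟩) hzy
        omega
    · push Not at hXY
      have hXW : X ⊆ W' := by
        intro x hx
        rcases Finset.mem_union.1 (hX hx) with h | h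
        · exact absurd (Finset.mem_of_mem_erase h) (hXY x hx)
        · exact h
      obtain ⟨z, hz, hlt⟩ := gw_fd (D := D) (r := r) hXW hne
      refine ⟨z, hz, ?_⟩
      have hz1 := hW'sub z (hXW hz)
      have hz2 := I.t26b_ch.1 hz1.2
      have hzo : z ≠ o := by rintro rfl; exact hoW' (hXW hz)
      rw [rs_mem (Finset.mem_erase.2 ⟨hzo, hz1.1⟩), TS.Inst.t26b_cgU hz2.2 hz2.1]
      rw [I.t26b_fi hz1.2, ← hW'] at hlt
      have h3 : dg D z (Y0.erase o) + dg D z (W' \ X) ≤ dg D z ((Y0.erase o ∪ W') \ X) := by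
        rw [← dg_union (Finset.disjoint_of_subset_right Finset.sdiff_subset hdisj)]
        refine dg_mono ?_
        intro x hx
        rcases Finset.mem_union.1 hx with h | h
        · exact Finset.mem_sdiff.2 ⟨Finset.mem_union_left _ h, fun h' => hXY x h' (Finset.mem_of_mem_erase h)⟩
        · exact Finset.mem_sdiff.2 ⟨Finset.mem_union_right _ (Finset.mem_sdiff.1 h).1, (Finset.mem_sdiff.1 h).2⟩
      have h0 := hsplit z
      omega

/-- TARGET. (`avalanche_of_full` with `k = 0`: the neighbour `z` of `o` from `key` is not in the first wave) -/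
theorem TS.Inst.size (I : T.Inst o Y0 Q1 F1 U) {G : Finset V} (hG : Q1 ⊆ G) (hG' : Y0 ⊆ G) {ζ ξ : V → ℕ} (hζ : ζ ∈ RcW D r (T.fi F1) (gp G F1))
    (hξ : ξ ∈ Rc D r (gp G (T.ch U))) : AvalancheSize D r G o (T.cg Y0 Q1 F1 U ζ ξ) (Y0.card + (gw D r (T.fi (T.ch U)) (gp G (T.ch U)) ξ).card) := by
  have hoG : o ∈ G := hG' I.o_mem
  have hmem := I.cg_mem hG hG' hζ hξ
  have hw := I.wave hG hG' hζ hξ
  set W' := gw D r (T.fi (T.ch U)) (gp G (T.ch U)) ξ with hW'
  set η := T.cg Y0 Q1 F1 U ζ ξ with hη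
  have hW'sub : ∀ z ∈ W', z ∈ G ∧ z ∈ fs (T.ch U) := fun z hz => TS.mem_gp.1 (gw_sub _ _ _ hz)
  have hdisj : Disjoint (Y0.erase o) W' := by
    rw [Finset.disjoint_left]
    intro x hx hx'
    exact (I.t26b_ch.1 (hW'sub x hx').2).2 (Finset.mem_of_mem_erase hx)
  have hηo : η o = r := TS.Inst.t26b_cgY I.o_mem
  have e0 : wv D r o (G.erase o) (rs (G.erase o) η) 0 = Y0.erase o ∪ W' := by
    unfold wv itw
    rw [Function.iterate_zero, id]
    exact hw
  have e1 : rg D r o (G.erase o) (0 + 1) (rs (G.erase o) η) = Y0.erase o ∪ W' := by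
    unfold rg
    rw [zero_add, Finset.range_one, Finset.singleton_biUnion]
    exact e0
  have key := avalanche_of_full (D := D) (r := r) T.gd.degLe hoG hmem T.gd.one_le hηo 0
    (fun i hi => absurd hi (Nat.not_lt_zero i)) (by
      intro hfull
      have h1' := hfull 0 (by omega)
      rw [e0] at h1'
      obtain ⟨z, hzY, hzU, hzo, -⟩ := I.key
      have h2 := T.gd.full_nbr h1'.ge z hzo.symm
      rcases Finset.mem_union.1 h2 with h | h
      · exact hzY (Finset.mem_of_mem_erase h)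
      · exact hzU (I.t26b_ch.1 (hW'sub z h).2).1)
  rw [e1, Finset.card_union_of_disjoint hdisj] at key
  have h3 := Finset.card_erase_add_one I.o_mem
  have e2 : 1 + ((Y0.erase o).card + W'.card) = Y0.card + W'.card := by omega
  rw [e2] at key
  exact key

theorem t26b_card_union (A B : Finset V) : ((Rc D r (A ∪ B)).card : ℝ) ≤ (Rc D r A).card * (Rc D r B).card := by
  have h := t7_sum_le (D := D) (r := r) (A := A) (B := B) (fun _ => 1) (fun _ => 1) (fun _ => zero_le_one) (fun _ => zero_le_one)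
  simpa using h

theorem TS.Inst.t26b_strong (I : T.Inst o Y0 Q1 F1 U) (G : Finset V) :
    T.c0 ^ F1.card * (Rc D r (gp G F1)).card ≤ (RcW D r (T.fi F1) (gp G F1)).card := by
  have hF := I.t26b_F
  have hadm : Adm D r 0 (T.fi F1) (gp G F1) := T.adm_fi hF (fun z _ => le_refl _) G
  have h1 := card_RcW_add hadm
  rw [zero_add] at h1
  have h2 := T.atom0 hF 0 G
  have h3 : pr D r (gp G F1) (fun ζ => T.fus F1 (T.fi F1) G 0 ζ = ∅ ∧ T.xv F1 (T.fi F1) G 0 ζ = 0) ≤
      pr D r (gp G F1) (fun ζ => gw D r (T.fi F1) (gp G F1) ζ = ∅) := by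
    refine t16_pr_mono (fun ζ _ h => ?_)
    have := t16_xv T h.1
    rw [h.2] at this
    exact Finset.card_eq_zero.1 this.symm
  have hpos : (0 : ℝ) < (Rc D r (gp G F1)).card := by exact_mod_cast T.gd.card_pos (gp G F1)
  have h4 := h2.trans h3
  unfold pr at h4
  rw [le_div_iff₀ hpos] at h4
  refine h4.trans (le_of_eq ?_)
  rw [h1]
  congr 2
  ext ζ
  simp only [Finset.mem_filter]
  rfl

/-- TARGET. the counting: `(ζ, ξ) ↦ cg` is injective on `RcW (fi F1) (gp G F1) × Rc (gp G (ch U))` (supports); `|RcW (fi F1) (gp G F1)| = Π |RcW (fi {C}) (gp G {C})| ≥ c0^|F1| Π |Rc (gp G {C})|` (or `card_ge`-type estimates of T7), and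
`|Rc G| ≤ |Rc (Q1 ∪ Q U)| Π_{C ∈ F1 ∪ ch U} |Rc (gp G {C})|` (`card_le` for the forest `F1 ∪ ch U`), `|Rc (gp G (ch U))| = Π_{C ∈ ch U}` (`fo_prod` or `t7_prod_eq`) -/
theorem TS.Inst.count (I : T.Inst o Y0 Q1 F1 U) : ∃ c : ℝ, 0 < c ∧ ∀ (G : Finset V), Q1 ⊆ G → Y0 ⊆ G → ∀ n : ℕ,
    c * pr D r (gp G (T.ch U)) (fun ξ => Y0.card + (gw D r (T.fi (T.ch U)) (gp G (T.ch U)) ξ).card = n) ≤ pr D r G (fun η => AvalancheSize D r G o η n) := by
  have hK : (0 : ℝ) < (Rc D r (Q1 ∪ T.Q U)).card := by exact_mod_cast T.gd.card_pos (Q1 ∪ T.Q U)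
  refine ⟨T.c0 ^ F1.card / (Rc D r (Q1 ∪ T.Q U)).card, div_pos (pow_pos T.c0_pos _) hK, ?_⟩
  intro G hG hG' n
  have hRG : (0 : ℝ) < (Rc D r G).card := by exact_mod_cast T.gd.card_pos G
  have hRF : (0 : ℝ) < (Rc D r (gp G F1)).card := by exact_mod_cast T.gd.card_pos (gp G F1)
  have hRU : (0 : ℝ) < (Rc D r (gp G (T.ch U))).card := by exact_mod_cast T.gd.card_pos (gp G (T.ch U))
  set B := (Rc D r (gp G (T.ch U))).filter (fun ξ => Y0.card + (gw D r (T.fi (T.ch U)) (gp G (T.ch U)) ξ).card = n) with hB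
  set E := (Rc D r G).filter (fun η => AvalancheSize D r G o η n) with hE
  have h1 : ((RcW D r (T.fi F1) (gp G F1)).card : ℝ) * B.card ≤ E.card := by
    have h2 : (RcW D r (T.fi F1) (gp G F1) ×ˢ B).card ≤ E.card := by
      refine Finset.card_le_card_of_injOn (fun p => T.cg Y0 Q1 F1 U p.1 p.2) ?_ ?_
      · intro p hp
        rw [Finset.mem_coe, Finset.mem_product] at hp
        have h3 := Finset.mem_filter.1 hp.2
        rw [Finset.mem_coe, hE, Finset.mem_filter]
        refine ⟨I.cg_mem hG hG' hp.1 h3.1, ?_⟩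
        have h4 := I.size hG hG' hp.1 h3.1
        rw [h3.2] at h4
        exact h4
      · intro p hp q hq hpq
        rw [Finset.mem_coe, Finset.mem_product] at hp hq
        have hp2 := (Finset.mem_filter.1 hp.2).1
        have hq2 := (Finset.mem_filter.1 hq.2).1
        have hv : ∀ v, T.cg Y0 Q1 F1 U p.1 p.2 v = T.cg Y0 Q1 F1 U q.1 q.2 v := fun v => congrFun hpq v
        refine Prod.ext ?_ ?_
        · funext v
          by_cases h : v ∈ gp G F1
          · have h3 := hv v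
            rw [I.t26b_cgF (TS.mem_gp.1 h).2, I.t26b_cgF (TS.mem_gp.1 h).2] at h3
            exact h3
          · rw [(mem_RcW.1 hp.1).1.2 v h, (mem_RcW.1 hq.1).1.2 v h]
        · funext v
          by_cases h : v ∈ gp G (T.ch U)
          · have h3 := hv v
            have h4 := I.t26b_ch.1 (TS.mem_gp.1 h).2
            rw [TS.Inst.t26b_cgU h4.2 h4.1, TS.Inst.t26b_cgU h4.2 h4.1] at h3
            exact h3
          · rw [(mem_Rc.1 hp2).1.2 v h, (mem_Rc.1 hq2).1.2 v h]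
    rw [Finset.card_product] at h2
    exact_mod_cast h2
  have h2 := I.t26b_strong G
  have h3 : ((Rc D r G).card : ℝ) ≤ (Rc D r (Q1 ∪ T.Q U)).card * ((Rc D r (gp G F1)).card * (Rc D r (gp G (T.ch U))).card) := by
    have h4 : G = (Q1 ∪ T.Q U) ∪ (gp G F1 ∪ gp G (T.ch U)) := by
      ext v
      constructor
      · intro hv
        rcases I.cov v with h | h | h
        · exact Finset.mem_union_left _ (Finset.mem_union_left _ h)
        · rcases (T.mem_iff I.t26b_U v).1 h with h' | h'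
          · exact Finset.mem_union_left _ (Finset.mem_union_right _ h')
          · exact Finset.mem_union_right _ (Finset.mem_union_right _ (TS.mem_gp.2 ⟨hv, h'⟩))
        · exact Finset.mem_union_right _ (Finset.mem_union_left _ (TS.mem_gp.2 ⟨hv, h⟩))
      · intro hv
        rcases Finset.mem_union.1 hv with h | h
        · rcases Finset.mem_union.1 h with h | h
          · exact hG h
          · exact hG' (I.QU h)
        · rcases Finset.mem_union.1 h with h | h
          · exact (TS.mem_gp.1 h).1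
          · exact (TS.mem_gp.1 h).1
    conv_lhs => rw [h4]
    refine (t26b_card_union _ _).trans ?_
    exact mul_le_mul_of_nonneg_left (t26b_card_union _ _) hK.le
  have h6 : pr D r G (fun η => AvalancheSize D r G o η n) = (E.card : ℝ) / (Rc D r G).card := by
    unfold pr
    congr!
  rw [h6]
  have h5 : pr D r (gp G (T.ch U)) (fun ξ => Y0.card + (gw D r (T.fi (T.ch U)) (gp G (T.ch U)) ξ).card = n) =
      (B.card : ℝ) / (Rc D r (gp G (T.ch U))).card := by
    unfold pr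
    congr!
  rw [h5, div_mul_div_comm, div_le_div_iff₀ (mul_pos hK hRU) hRG]
  have hB0 : (0 : ℝ) ≤ B.card := Nat.cast_nonneg _
  have hc0 : (0 : ℝ) ≤ T.c0 ^ F1.card := (pow_pos T.c0_pos _).le
  calc T.c0 ^ F1.card * (B.card : ℝ) * (Rc D r G).card
      ≤ T.c0 ^ F1.card * (B.card : ℝ) * ((Rc D r (Q1 ∪ T.Q U)).card * ((Rc D r (gp G F1)).card * (Rc D r (gp G (T.ch U))).card)) :=
        mul_le_mul_of_nonneg_left h3 (mul_nonneg hc0 hB0)
    _ = (T.c0 ^ F1.card * (Rc D r (gp G F1)).card) * (B.card : ℝ) * ((Rc D r (Q1 ∪ T.Q U)).card * (Rc D r (gp G (T.ch U))).card) := by ring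
    _ ≤ (RcW D r (T.fi F1) (gp G F1)).card * (B.card : ℝ) * ((Rc D r (Q1 ∪ T.Q U)).card * (Rc D r (gp G (T.ch U))).card) := by
        refine mul_le_mul_of_nonneg_right (mul_le_mul_of_nonneg_right h2 hB0) (mul_pos hK hRU).le
    _ ≤ (E.card : ℝ) * ((Rc D r (Q1 ∪ T.Q U)).card * (Rc D r (gp G (T.ch U))).card) :=
        mul_le_mul_of_nonneg_right h1 (mul_pos hK hRU).le

/-- TARGET. (`count`, `unit_lower`: `n = Y0.card + k` means `k + |Q U| = n - (Y0.card - |Q U|)`; `wt` is increasing) -/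
theorem TS.Inst.lower (I : T.Inst o Y0 Q1 F1 U) : ∃ c : ℝ, 0 < c ∧ ∃ n0 : ℕ, ∀ n : ℕ, n0 ≤ n → ∀ᶠ G in (atTop : Filter (Finset V)),
    c / wt n ≤ pr D r G (fun η => AvalancheSize D r G o η n) := by
  obtain ⟨c, hc, hcount⟩ := I.count
  obtain ⟨c', hc', n0, hun⟩ := T.unit_lower
  obtain ⟨k, hk⟩ : ∃ k, Y0.card = (T.Q U).card + k := ⟨Y0.card - (T.Q U).card, by
    have := Finset.card_le_card I.QU
    omega⟩
  refine ⟨c * c', mul_pos hc hc', n0 + k + 1, fun n hn => ?_⟩
  obtain ⟨n', rfl⟩ : ∃ n', n = n' + k := ⟨n - k, by omega⟩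
  have h1 := hun U I.t26b_U I.sp n' (by omega)
  filter_upwards [h1, Filter.eventually_ge_atTop (Q1 ∪ Y0)] with G hG hG'
  have h2 := hcount G (Finset.union_subset_left hG') (Finset.union_subset_right hG') (n' + k)
  refine le_trans ?_ h2
  have h3 : pr D r (gp G (T.ch U)) (fun ξ => Y0.card + (gw D r (T.fi (T.ch U)) (gp G (T.ch U)) ξ).card = n' + k) = T.tl G U n' := by
    unfold TS.tl
    refine t16_pr_congr (fun ζ _ => ?_)
    rw [hk]
    constructor
    · intro h; omega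
    · intro h; omega
  rw [h3]
  have hpos : 0 < wt n' := by
    unfold wt
    have : (0 : ℝ) < n' := by exact_mod_cast (by omega : 0 < n')
    exact mul_pos this (Real.sqrt_pos.2 this)
  have hwt : wt n' ≤ wt (n' + k) := wt_mono (by omega)
  calc c * c' / wt (n' + k) ≤ c * c' / wt n' := by
        refine div_le_div_of_nonneg_left (mul_pos hc hc').le hpos hwt
    _ = c * (c' / wt n') := by ring
    _ ≤ c * T.tl G U n' := mul_le_mul_of_nonneg_left hG hc.le

end Pool.Agent.Helper910.QT
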