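import Mathlib
import Pool.Agent.Helper910.T26b
import Pool.Agent.Helper910.AV2

/-! Existence of the limits and the lower bound at every vertex (MP_4555f0_mp) -/

namespace Pool.Agent.Helper910.QT

open Classical Finset Filter Topology

variable {V : Type*} {D : SimpleGraph V} [D.LocallyFinite] {r : ℕ}

omit [D.LocallyFinite] in
theorem t27_pr_map (φ : D ≃g D) (G : Finset V) (P : (V → ℕ) → Prop) :
    pr D r (G.image φ) P = pr D r G (fun ζ => P (ζ ∘ φ.symm)) := by
  have h : Rc D r (G.image φ) = (Rc D r G).image (fun ζ => ζ ∘ φ.symm) := by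
    ext ζ
    rw [t12_Rc, Finset.mem_image]
    constructor
    · intro h
      exact ⟨ζ ∘ φ, h, t12_comp' ζ⟩
    · rintro ⟨ξ, hξ, rfl⟩
      rwa [t12_comp]
  have hinj : Function.Injective (fun ζ : V → ℕ => ζ ∘ φ.symm) := by
    intro ζ ξ he
    have : (ζ ∘ φ.symm) ∘ φ = (ξ ∘ φ.symm) ∘ φ := congrArg (fun x : V → ℕ => x ∘ φ) he
    rwa [t12_comp, t12_comp] at this
  unfold pr
  rw [h, Finset.filter_image, Finset.card_image_of_injective _ hinj,
    Finset.card_image_of_injective _ hinj]

omit [D.LocallyFinite] in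
theorem t27_topple (φ : D ≃g D) (G : Finset V) (v : V) (η : V → ℕ) :
    topple D r (G.image φ) (φ v) (η ∘ φ.symm) = topple D r G v η ∘ φ.symm := by
  funext w
  unfold topple
  have e1 : (w = φ v) ↔ φ.symm w = v := by
    constructor
    · rintro rfl; simp
    · rintro rfl; simp
  have e2 : D.Adj (φ v) w ↔ D.Adj v (φ.symm w) := by
    rw [← t12_adj (φ := φ) (x := φ v)]
    simp
  simp only [Function.comp_apply, e1, e2, t12_mem_image]
  simp

omit [D.LocallyFinite] in
theorem t27_relax (φ : D ≃g D) (G : Finset V) {η η' : V → ℕ} {l : List V}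
    (h : Relax D r G η l η') :
    Relax D r (G.image φ) (η ∘ φ.symm) (l.map φ) (η' ∘ φ.symm) := by
  induction h with
  | nil η => exact Relax.nil _
  | cons η v l η' hv hr h ih =>
    rw [List.map_cons]
    refine Relax.cons _ _ _ _ (Finset.mem_image_of_mem _ hv) ?_ ?_
    · simpa using hr
    · rw [t27_topple]; exact ih

omit [D.LocallyFinite] in
theorem t27_av_imp (φ : D ≃g D) (G : Finset V) (o : V) (n : ℕ) (ζ : V → ℕ)
    (h : AvalancheSize D r G o ζ n) :
    AvalancheSize D r (G.image φ) (φ o) (ζ ∘ φ.symm) n := by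
  obtain ⟨l, η', h1, h2, h3⟩ := h
  refine ⟨l.map φ, η' ∘ φ.symm, ?_, ?_, ?_⟩
  · have h4 := t27_relax φ G h1
    have e : (fun v => if v = φ o then (ζ ∘ φ.symm) v + 1 else (ζ ∘ φ.symm) v) =
        (fun v => if v = o then ζ v + 1 else ζ v) ∘ φ.symm := by
      funext w
      have e1 : (w = φ o) ↔ φ.symm w = o := by
        constructor
        · rintro rfl; simp
        · rintro rfl; simp
      simp only [Function.comp_apply, e1]
    rw [e]
    exact h4
  · intro v hv
    exact h2 _ (t12_mem_image.1 hv)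
  · rw [← h3, ← Finset.card_image_of_injective l.toFinset φ.injective]
    congr 1
    ext z
    simp

omit [D.LocallyFinite] in
theorem t27_av_iff (φ : D ≃g D) (G : Finset V) (o : V) (n : ℕ) (ζ : V → ℕ) :
    AvalancheSize D r (G.image φ) (φ o) (ζ ∘ φ.symm) n ↔ AvalancheSize D r G o ζ n := by
  refine ⟨fun h => ?_, t27_av_imp φ G o n ζ⟩
  have h1 := t27_av_imp φ.symm (G.image φ) (φ o) n (ζ ∘ φ.symm) h
  have e1 : ((ζ ∘ φ.symm) ∘ φ.symm.symm : V → ℕ) = ζ := by funext x; simp
  have e2 : φ.symm (φ o) = o := by simp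
  rw [e1, e2, t12_symm_image] at h1
  exact h1

/-- TARGET. invariance under automorphisms -/
theorem av_map (H : Gd D r) (φ : D ≃g D) (G : Finset V) (o : V) (n : ℕ) :
    pr D r (G.image φ) (fun η => AvalancheSize D r (G.image φ) (φ o) η n) = pr D r G (fun η => AvalancheSize D r G o η n) := by
  rw [t27_pr_map]
  exact t11_pr_congr fun ζ _ => t27_av_iff φ G o n ζ

/-- TARGET. THE LOWER BOUND at every vertex (`exists_inst`, `Inst.lower`, `trans`, `av_map`; `G ↦ G.image φ` tends to infinity) -/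
theorem TS.lower (T : TS D r) (o : V) : ∃ c : ℝ, 0 < c ∧ ∃ n0 : ℕ, ∀ n : ℕ, n0 ≤ n → ∀ᶠ G in (atTop : Filter (Finset V)),
    c / wt n ≤ pr D r G (fun η => AvalancheSize D r G o η n) := by
  obtain ⟨o1, Y0, Q1, F1, U, I⟩ := T.exists_inst
  obtain ⟨c, hc, n0, h⟩ := I.lower
  obtain ⟨φ, hφ⟩ := T.trans o1 o
  refine ⟨c, hc, n0, fun n hn => ?_⟩
  have ht : Tendsto (fun G : Finset V => G.image φ.symm) atTop atTop := by
    rw [tendsto_atTop]
    intro B
    filter_upwards [Filter.eventually_ge_atTop (B.image φ)] with G hG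
    have hG' : B.image φ ⊆ G := hG
    have h4 := Finset.image_subset_image (f := φ.symm) hG'
    rwa [t12_symm_image] at h4
  filter_upwards [ht.eventually (h n hn)] with G hG
  have h5 := av_map (r := r) T.gd φ (G.image φ.symm) o1 n
  rw [t12_image_symm, hφ] at h5
  rw [h5]
  exact hG

/-- TARGET. EXISTENCE OF THE LIMITS: by `avalanche_local` (AV2) the event depends for `Q ⊆ G` only on `rs Q η`, where `Q` contains the ball of radius `n` around `o` (finite: `bS_finite`); `lim_loc` with `nc_univ` (`prt G univ = G`). Compare the proof of `Ctx.exists_lim` in M14.lean. -/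
theorem TS.exists_lim (T : TS D r) (o : V) (n : ℕ) : ∃ p : ℝ,
    Tendsto (fun G => pr D r G (fun η => AvalancheSize D r G o η n)) (atTop : Filter (Finset V)) (𝓝 p) := by
  have hS := bS_finite T.gd o n
  obtain ⟨Q, hQ⟩ : ∃ Q : Finset V, Q = insert o hS.toFinset := ⟨_, rfl⟩
  obtain ⟨ℓ, hℓ⟩ := T.lim_loc T.nc_univ Q (fun χ => AvalancheSize D r Q o χ n)
  refine ⟨ℓ, hℓ.congr' ?_⟩
  filter_upwards [eventually_ge_atTop Q] with G hG
  have e1 : prt G Set.univ = G := by
    ext z; simp [mem_prt]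
  rw [e1]
  refine t11_pr_congr fun ζ hζ => ?_
  have h1 := avalanche_local D T.gd.conn r G Q hG o (by rw [hQ]; exact Finset.mem_insert_self _ _) n
    (fun z hz => by
      rw [hQ]
      refine Finset.mem_insert_of_mem (hS.mem_toFinset.2 ?_)
      exact hz) ζ (mem_Rc.1 hζ).1
  exact h1.symm

end Pool.Agent.Helper910.QT
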