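import Mathlib
import Pool.Agent.Helper910.TriDefs
import Pool.Agent.Helper910.Tri1
import Pool.Agent.Helper910.Tri2
import Pool.Agent.Helper910.Tri3

namespace Pool.Agent.Helper910.Tri

open Finset

/-- `H` is parallel to a facet of the simplex spanned by `T_d(n)` -/
def FacetParallel {d : ℕ} (H : Set (Fin d → ℝ)) : Prop :=
  (∃ i : Fin d, ∃ c : ℝ, H = {x | x i = c}) ∨ ∃ c : ℝ, H = {x | ∑ i, x i = c}

open Classical in
/-- the values `∑ w(H)` of the fractional covers `w` of `T_d(m)` (supported on the finite set `s` of hyperplanes) -/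
def FracValues (m d : ℕ) : Set ℝ :=
  {W | ∃ (s : Finset (Set (Fin d → ℝ))) (w : Set (Fin d → ℝ) → ℝ),
    (∀ H ∈ s, IsHyperplane H ∧ 0 ≤ w H) ∧
    (∀ x ∈ Grid d m, 1 ≤ ∑ H ∈ s.filter (fun H => (fun i => (x i : ℝ)) ∈ H), w H) ∧
    W = ∑ H ∈ s, w H}

/-- `f*(m,d)`: the fractional covering number of `T_d(m)` -/
noncomputable def fstar (m d : ℕ) : ℝ := sInf (FracValues m d)

/-- `H` is a level set `{x : A o · x = c}` for one of the normal vectors `A o` -/
def ParallelTo {d : ℕ} {ι : Type} (A : ι → Fin d → ℝ) (H : Set (Fin d → ℝ)) : Prop :=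
  ∃ (o : ι) (c : ℝ), H = {x | ∑ i, A o i * x i = c}

/-- the least cardinality of a `k`-cover of `T_d(n)` by facet-parallel hyperplanes -/
noncomputable def fF (n d k : ℕ) : ℕ :=
  sInf {c | ∃ M : Multiset (Set (Fin d → ℝ)), IsCover d n k M ∧ (∀ H ∈ M, FacetParallel H) ∧ Multiset.card M = c}

open Classical in
/-- the values of the fractional covers of `T_d(m)` by facet-parallel hyperplanes -/
def FFracValues (m d : ℕ) : Set ℝ :=
  {W | ∃ (s : Finset (Set (Fin d → ℝ))) (w : Set (Fin d → ℝ) → ℝ),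
    (∀ H ∈ s, IsHyperplane H ∧ FacetParallel H ∧ 0 ≤ w H) ∧
    (∀ x ∈ Grid d m, 1 ≤ ∑ H ∈ s.filter (fun H => (fun i => (x i : ℝ)) ∈ H), w H) ∧
    W = ∑ H ∈ s, w H}

/-- the facet-parallel fractional covering number of `T_d(m)` -/
noncomputable def Fstar (m d : ℕ) : ℝ := sInf (FFracValues m d)

end Pool.Agent.Helper910.Tri
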