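import Mathlib
import Pool.Agent.Helper910.TgDefs

namespace Pool.Agent.Helper910.Tri

open Finset

theorem uncovered_idx : ∀ (d n : ℕ) (ι : Type) (s : Finset ι) (a : ι → Fin d → ℝ) (b : ι → ℝ),
    (∀ j ∈ s, a j ≠ 0) → s.card < n → ∃ x : Fin d → ℕ, ∑ i, x i < n ∧ ∀ j ∈ s, ∑ i, a j i * (x i : ℝ) ≠ b j := by
  classical
  intro d
  induction d with
  | zero =>
    intro n ι s a b ha hc
    refine ⟨fun _ => 0, ?_, fun j hj => absurd (Subsingleton.elim _ _) (ha j hj)⟩
    simp only [Finset.univ_eq_empty, Finset.sum_empty]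
    omega
  | succ d ihd =>
    intro n
    induction n with
    | zero => intro ι s a b ha hc; exact absurd hc (Nat.not_lt_zero _)
    | succ n ihn =>
      intro ι s a b ha hc
      by_cases h : ∃ j0 ∈ s, (∀ i : Fin d, a j0 i.succ = 0) ∧ b j0 = 0
      · obtain ⟨j0, hj0, ht, hb0⟩ := h
        have ha0 : a j0 0 ≠ 0 := by
          intro h0
          apply ha j0 hj0
          funext i
          refine Fin.cases h0 (fun i => ht i) i
        have hcard : (s.erase j0).card < n := by
          have h1 := Finset.card_erase_of_mem hj0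
          have h2 : 0 < s.card := Finset.card_pos.2 ⟨j0, hj0⟩
          omega
        obtain ⟨x, hx, hx'⟩ := ihn ι (s.erase j0) a (fun j => b j - a j 0)
          (fun j hj => ha j (Finset.mem_of_mem_erase hj)) hcard
        refine ⟨Fin.cons (x 0 + 1) (fun i => x i.succ), ?_, fun j hj => ?_⟩
        · rw [Fin.sum_univ_succ] at hx
          rw [Fin.sum_univ_succ]
          simp only [Fin.cons_zero, Fin.cons_succ]
          omega
        · rw [Fin.sum_univ_succ]
          simp only [Fin.cons_zero, Fin.cons_succ]
          by_cases hjj : j = j0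
          · subst hjj
            have h3 : ∑ i : Fin d, a j i.succ * ((x i.succ : ℕ) : ℝ) = 0 :=
              Finset.sum_eq_zero fun i _ => by rw [ht i, zero_mul]
            rw [h3, hb0, add_zero]
            exact mul_ne_zero ha0 (by positivity)
          · have h4 := hx' j (Finset.mem_erase.2 ⟨hjj, hj⟩)
            rw [Fin.sum_univ_succ] at h4
            intro h5
            apply h4
            push_cast at h5
            linarith
      · push Not at h
        obtain ⟨x, hx, hx'⟩ := ihd (n + 1) ι (s.filter fun j => (fun i : Fin d => a j i.succ) ≠ 0)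
          (fun j i => a j i.succ) b (fun j hj => (Finset.mem_filter.1 hj).2)
          (lt_of_le_of_lt (Finset.card_filter_le _ _) hc)
        refine ⟨Fin.cons 0 x, ?_, fun j hj => ?_⟩
        · rw [Fin.sum_univ_succ]
          simp only [Fin.cons_zero, Fin.cons_succ]
          omega
        · rw [Fin.sum_univ_succ]
          simp only [Fin.cons_zero, Fin.cons_succ, Nat.cast_zero, mul_zero, zero_add]
          by_cases ht : (fun i : Fin d => a j i.succ) = 0
          · have h3 : ∑ i : Fin d, a j i.succ * ((x i : ℕ) : ℝ) = 0 :=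
              Finset.sum_eq_zero fun i _ => by
                have h4 : a j i.succ = 0 := congrFun ht i
                rw [h4, zero_mul]
            rw [h3]
            exact (h j hj (fun i => congrFun ht i)).symm
          · exact hx' j (Finset.mem_filter.2 ⟨hj, ht⟩)

theorem uncovered (d n : ℕ) (s : Finset (Set (Fin d → ℝ))) (hs : ∀ H ∈ s, IsHyperplane H) (hc : s.card < n) :
    ∃ x ∈ Grid d n, ∀ H ∈ s, (fun i => (x i : ℝ)) ∉ H := by
  have h' : ∀ H : Set (Fin d → ℝ), ∃ (a : Fin d → ℝ) (b : ℝ), H ∈ s → a ≠ 0 ∧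
      H = {x | ∑ i, a i * x i = b} := by
    intro H
    by_cases hH : H ∈ s
    · obtain ⟨a, ha, b, hb⟩ := hs H hH
      exact ⟨a, b, fun _ => ⟨ha, hb⟩⟩
    · exact ⟨0, 0, fun h => absurd h hH⟩
  choose a b hab using h'
  obtain ⟨x, hx, hx'⟩ := uncovered_idx d n (Set (Fin d → ℝ)) s a b (fun H hH => (hab H hH).1) hc
  refine ⟨x, hx, fun H hH hmem => ?_⟩
  exact hx' H hH ((hab H hH).2.subset hmem)

end Pool.Agent.Helper910.Tri
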