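import Mathlib
import Pool.Agent.Helper910.TgDefs

namespace Pool.Agent.Helper910.Tri

open Finset

open Classical in
theorem fstar_le_of_family {d m : ℕ} {ι : Type} (t : Finset ι) (G : ι → Set (Fin d → ℝ)) (u : ι → ℝ)
    (hG : ∀ j ∈ t, IsHyperplane (G j)) (hu : ∀ j ∈ t, 0 ≤ u j)
    (hc : ∀ x ∈ Grid d m, 1 ≤ ∑ j ∈ t.filter (fun j => (fun i => (x i : ℝ)) ∈ G j), u j) :
    fstar m d ≤ ∑ j ∈ t, u j := by
  unfold fstar
  apply csInf_le
  · refine ⟨0, ?_⟩
    rintro W ⟨s, w, hs, -, rfl⟩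
    exact Finset.sum_nonneg (fun H hH => (hs H hH).2)
  · refine ⟨t.image G, fun Q => ∑ j ∈ t.filter (fun j => G j = Q), u j, ?_, ?_, ?_⟩
    · intro H hH
      rw [mem_image] at hH
      obtain ⟨j, hj, rfl⟩ := hH
      exact ⟨hG j hj, Finset.sum_nonneg (fun k hk => hu k (mem_filter.mp hk).1)⟩
    · intro x hx
      have h := hc x hx
      refine le_of_le_of_eq h ?_
      have hmap : ∀ j ∈ t.filter (fun j => (fun i => (x i : ℝ)) ∈ G j),
          G j ∈ (t.image G).filter (fun H => (fun i => (x i : ℝ)) ∈ H) := by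
        intro j hj
        rw [mem_filter] at hj ⊢
        exact ⟨mem_image_of_mem G hj.1, hj.2⟩
      rw [← Finset.sum_fiberwise_of_maps_to hmap u]
      apply Finset.sum_congr rfl
      intro H hH
      apply Finset.sum_congr ?_ (fun _ _ => rfl)
      ext j
      simp only [mem_filter]
      constructor
      · rintro ⟨⟨h1, h2⟩, h3⟩
        exact ⟨h1, h3⟩
      · rintro ⟨h1, h3⟩
        rw [mem_filter] at hH
        exact ⟨⟨h1, h3 ▸ hH.2⟩, h3⟩
    · exact (Finset.sum_fiberwise_of_maps_to (fun j hj => mem_image_of_mem G hj) u).symm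

end Pool.Agent.Helper910.Tri

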