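import Mathlib
import Pool.Agent.Helper910.TgDefs

namespace Pool.Agent.Helper910.Tri

open Finset

theorem upperB_gauss (m : ℕ) : 2 * ∑ j ∈ range m, (j + 1) = m * (m + 1) := by
  induction m with
  | zero => simp
  | succ m ih =>
    rw [Finset.sum_range_succ, mul_add, ih]
    ring

theorem upperB_T (b m n j : ℕ) (hbm : 0 < b * m) :
    ((range n).filter (fun c => c * (b * m) < (j + 1) * n)).card ≤ (j + 1) * n / (b * m) + 1 := by
  have h : (range n).filter (fun c => c * (b * m) < (j + 1) * n) ⊆
      range ((j + 1) * n / (b * m) + 1) := by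
    intro c hc
    rw [Finset.mem_filter] at hc
    rw [Finset.mem_range, Nat.lt_succ_iff, Nat.le_div_iff_mul_le hbm]
    exact hc.2.le
  have h2 := Finset.card_le_card h
  rwa [Finset.card_range] at h2

theorem upperB_count (b m n v : ℕ) (hn : 1 ≤ n) :
    m ≤ ((range m).filter (fun j => v * (b * m) < (j + 1) * n)).card + v * (b * m) / n := by
  have h : Finset.Ico (v * (b * m) / n) m ⊆
      (range m).filter (fun j => v * (b * m) < (j + 1) * n) := by
    intro j hj
    rw [Finset.mem_Ico] at hj
    rw [Finset.mem_filter, Finset.mem_range]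
    refine ⟨hj.2, ?_⟩
    exact (Nat.div_lt_iff_lt_mul hn).1 (Nat.lt_succ_of_le hj.1)
  have h2 := Finset.card_le_card h
  rw [Nat.card_Ico] at h2
  omega

theorem upperB {d b m n : ℕ} (hb : 1 ≤ b) (hd : d + 1 = 2 * b) (hn : 1 ≤ n) (hm : 1 ≤ m) :
    ∃ M : Multiset (Set (Fin d → ℝ)), IsCover d n (b * m + 1) M ∧ (∀ H ∈ M, FacetParallel H) ∧
      Multiset.card M ≤ (m + 1) * n + 2 * b * m := by
  classical
  have hd1 : 1 ≤ d := by omega
  have hbm : 0 < b * m := Nat.mul_pos hb hm
  set T : ℕ → Finset ℕ := fun j => (range n).filter (fun c => c * (b * m) < (j + 1) * n) with hT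
  set M : Multiset (Set (Fin d → ℝ)) :=
    ∑ o : Option (Fin d), ∑ j ∈ range m, (T j).val.map (plane d n o) with hM
  have hmem : ∀ H ∈ M, ∃ (o : Option (Fin d)) (c : ℕ), H = plane d n o c := by
    intro H hH
    rw [hM, Multiset.mem_sum] at hH
    obtain ⟨o, -, hH⟩ := hH
    rw [Multiset.mem_sum] at hH
    obtain ⟨j, -, hH⟩ := hH
    obtain ⟨c, -, rfl⟩ := Multiset.mem_map.1 hH
    exact ⟨o, c, rfl⟩
  refine ⟨M, ⟨?_, ?_⟩, ?_, ?_⟩
  · intro H hH
    obtain ⟨o, c, rfl⟩ := hmem H hH
    exact plane_isHyperplane hd1 n o c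
  · intro x hx
    have hx' : ∑ i, x i < n := hx
    have h1 : Multiset.card (M.filter (fun H => (fun i => (x i : ℝ)) ∈ H)) =
        ∑ o : Option (Fin d), ∑ j ∈ range m,
          ((T j).val.map (plane d n o)).countP (fun H => (fun i => (x i : ℝ)) ∈ H) := by
      rw [← Multiset.countP_eq_card_filter, ← Multiset.coe_countPAddMonoidHom, hM, map_sum]
      refine Finset.sum_congr rfl fun o _ => ?_
      rw [map_sum]
    let v : Option (Fin d) → ℕ := fun o => o.elim (n - 1 - ∑ i, x i) x
    have hvn : v none = n - 1 - ∑ i, x i := rfl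
    have hvs : ∀ i, v (some i) = x i := fun i => rfl
    have hv : ∑ o, v o = n - 1 := by
      rw [Fintype.sum_option, hvn]
      simp only [hvs]
      omega
    have hvlt : ∀ o, v o < n := by
      intro o
      have := Finset.single_le_sum (f := v) (fun o _ => Nat.zero_le _) (Finset.mem_univ o)
      rw [hv] at this
      omega
    have hpl : ∀ o, (fun i => (x i : ℝ)) ∈ plane d n o (v o) := by
      intro o
      cases o with
      | none =>
        show ∑ i, (x i : ℝ) = (n : ℝ) - 1 - (v none : ℝ)
        have h2 : v none + ∑ i, x i + 1 = n := by rw [hvn]; omega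
        have h3 : (v none : ℝ) + ∑ i, (x i : ℝ) + 1 = n := by exact_mod_cast h2
        linarith
      | some i => rfl
    have hterm : ∀ o : Option (Fin d), ∀ j ∈ range m,
        (if v o * (b * m) < (j + 1) * n then 1 else 0) ≤
          ((T j).val.map (plane d n o)).countP (fun H => (fun i => (x i : ℝ)) ∈ H) := by
      intro o j _
      split_ifs with h
      · refine Multiset.countP_pos.2 ⟨plane d n o (v o), ?_, hpl o⟩
        refine Multiset.mem_map_of_mem _ ?_
        show v o ∈ T j
        rw [hT]
        exact Finset.mem_filter.2 ⟨Finset.mem_range.2 (hvlt o), h⟩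
      · exact Nat.zero_le _
    rw [h1]
    have h4 : ∑ o : Option (Fin d), ((range m).filter (fun j => v o * (b * m) < (j + 1) * n)).card ≤
        ∑ o : Option (Fin d), ∑ j ∈ range m,
          ((T j).val.map (plane d n o)).countP (fun H => (fun i => (x i : ℝ)) ∈ H) := by
      refine Finset.sum_le_sum fun o _ => ?_
      rw [Finset.card_filter]
      exact Finset.sum_le_sum (hterm o)
    refine le_trans ?_ h4
    have h5 : ∑ _o : Option (Fin d), m ≤
        ∑ o : Option (Fin d), (((range m).filter (fun j => v o * (b * m) < (j + 1) * n)).card +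
          v o * (b * m) / n) := Finset.sum_le_sum fun o _ => upperB_count b m n (v o) hn
    rw [Finset.sum_const, Finset.card_univ, Fintype.card_option, Fintype.card_fin, hd,
      Finset.sum_add_distrib, smul_eq_mul] at h5
    have h6 : n * ∑ o, v o * (b * m) / n ≤ (n - 1) * (b * m) := by
      rw [← hv, Finset.sum_mul, Finset.mul_sum]
      exact Finset.sum_le_sum fun o _ => Nat.mul_div_le _ _
    have h7 : ∑ o, v o * (b * m) / n < b * m := by
      by_contra hcon
      push Not at hcon
      have h8 : n * (b * m) ≤ (n - 1) * (b * m) := (Nat.mul_le_mul_left n hcon).trans h6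
      have h9 : n - 1 < n := by omega
      exact absurd (Nat.mul_lt_mul_of_pos_right h9 hbm) (not_lt.2 h8)
    have h10 : 2 * b * m = b * m + b * m := by ring
    omega
  · intro H hH
    obtain ⟨o, c, rfl⟩ := hmem H hH
    cases o with
    | none => exact Or.inr ⟨(n : ℝ) - 1 - c, rfl⟩
    | some i => exact Or.inl ⟨i, (c : ℝ), rfl⟩
  · have h1 : Multiset.card M = ∑ _o : Option (Fin d), ∑ j ∈ range m, (T j).card := by
      rw [hM, Multiset.card_sum]
      refine Finset.sum_congr rfl fun o _ => ?_
      rw [Multiset.card_sum]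
      refine Finset.sum_congr rfl fun j _ => ?_
      rw [Multiset.card_map]
      rfl
    rw [h1, Finset.sum_const, Finset.card_univ, Fintype.card_option, Fintype.card_fin, hd,
      smul_eq_mul]
    have h2 : ∑ j ∈ range m, (T j).card ≤ ∑ j ∈ range m, ((j + 1) * n / (b * m) + 1) :=
      Finset.sum_le_sum fun j _ => upperB_T b m n j hbm
    rw [Finset.sum_add_distrib, Finset.sum_const, Finset.card_range, smul_eq_mul, mul_one] at h2
    have h3 : (b * m) * ∑ j ∈ range m, (j + 1) * n / (b * m) ≤ (∑ j ∈ range m, (j + 1)) * n := by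
      rw [Finset.mul_sum, Finset.sum_mul]
      exact Finset.sum_le_sum fun j _ => Nat.mul_div_le _ _
    have h4 : 2 * b * ∑ j ∈ range m, (j + 1) * n / (b * m) ≤ (m + 1) * n := by
      have h5 : m * (2 * b * ∑ j ∈ range m, (j + 1) * n / (b * m)) ≤ m * ((m + 1) * n) := by
        calc m * (2 * b * ∑ j ∈ range m, (j + 1) * n / (b * m))
            = 2 * ((b * m) * ∑ j ∈ range m, (j + 1) * n / (b * m)) := by ring
          _ ≤ 2 * ((∑ j ∈ range m, (j + 1)) * n) := Nat.mul_le_mul_left 2 h3
          _ = (2 * ∑ j ∈ range m, (j + 1)) * n := by ring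
          _ = m * (m + 1) * n := by rw [upperB_gauss]
          _ = m * ((m + 1) * n) := by ring
      exact Nat.le_of_mul_le_mul_left h5 hm
    calc 2 * b * ∑ j ∈ range m, (T j).card
        ≤ 2 * b * (∑ j ∈ range m, (j + 1) * n / (b * m) + m) := Nat.mul_le_mul_left _ h2
      _ = 2 * b * ∑ j ∈ range m, (j + 1) * n / (b * m) + 2 * b * m := by ring
      _ ≤ (m + 1) * n + 2 * b * m := Nat.add_le_add_right h4 _

end Pool.Agent.Helper910.Tri

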