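import Mathlib
import Pool.Agent.Helper910.TgDefs
import Pool.Agent.Helper910.TgG

namespace Pool.Agent.Helper910.Tri

open Finset

theorem upperB0 {d n : ℕ} (hd : 1 ≤ d) :
    ∃ M : Multiset (Set (Fin d → ℝ)), IsCover d n 1 M ∧ (∀ H ∈ M, FacetParallel H) ∧ Multiset.card M ≤ n := by
  classical
  refine ⟨(Multiset.range n).map (fun j => plane d n (some ⟨0, hd⟩) j), ⟨?_, ?_⟩, ?_, ?_⟩
  · intro H hH
    obtain ⟨j, _, rfl⟩ := Multiset.mem_map.1 hH
    exact plane_isHyperplane hd _ _ _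
  · intro x hx
    have hx' : ∑ i, x i < n := hx
    have h1 : x ⟨0, hd⟩ ≤ ∑ i, x i := Finset.single_le_sum (fun i _ => Nat.zero_le _) (Finset.mem_univ _)
    have h2 : plane d n (some ⟨0, hd⟩) (x ⟨0, hd⟩) ∈
        ((Multiset.range n).map (fun j => plane d n (some ⟨0, hd⟩) j)).filter (fun H => (fun i => (x i : ℝ)) ∈ H) := by
      rw [Multiset.mem_filter]
      refine ⟨Multiset.mem_map.2 ⟨x ⟨0, hd⟩, Multiset.mem_range.2 (by omega), rfl⟩, ?_⟩
      simp [plane]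
    exact Multiset.card_pos_iff_exists_mem.2 ⟨_, h2⟩
  · intro H hH
    obtain ⟨j, _, rfl⟩ := Multiset.mem_map.1 hH
    exact Or.inl ⟨⟨0, hd⟩, (j : ℝ), rfl⟩
  · simp

theorem upperB' {d b m n : ℕ} (hb : 1 ≤ b) (hd : d + 1 = 2 * b) (hn : 1 ≤ n) :
    ∃ M : Multiset (Set (Fin d → ℝ)), IsCover d n (b * m + 1) M ∧ (∀ H ∈ M, FacetParallel H) ∧
      Multiset.card M ≤ (m + 1) * n + 2 * b * m := by
  rcases Nat.eq_zero_or_pos m with rfl | hm
  · obtain ⟨M, h1, h2, h3⟩ := upperB0 (d := d) (n := n) (by omega)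
    refine ⟨M, ?_, h2, by omega⟩
    simpa using h1
  · exact upperB hb hd hn hm

end Pool.Agent.Helper910.Tri
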