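import Mathlib
import Pool.Agent.Helper910.TgDefs
import Pool.Agent.Helper910.TgA

namespace Pool.Agent.Helper910.Tri

open Finset

open Classical in
theorem coreG {d n k : ℕ} {ι : Type} [Fintype ι] [Nonempty ι] (A : ι → Fin d → ℝ)
    {M : Multiset (Set (Fin d → ℝ))} (hM : IsCover d n k M) :
    ∃ dir : Set (Fin d → ℝ) → ι, ∀ y : ι → ℕ, ∑ o, y o < k →
      n ≤ (M.toFinset.filter (fun H => ParallelTo A H ∧ y (dir H) < M.count H)).card
        + Multiset.card (M.filter (fun H => ¬ ParallelTo A H)) := by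
  let dir : Set (Fin d → ℝ) → ι := fun H =>
    if h : ParallelTo A H then Classical.choose h else Classical.arbitrary ι
  have hdir : ∀ H, ParallelTo A H → ∃ c : ℝ, H = {x | ∑ i, A (dir H) i * x i = c} := by
    intro H h
    have h1 : dir H = Classical.choose h := by simp only [dir]; rw [dif_pos h]
    rw [h1]
    exact Classical.choose_spec h
  refine ⟨dir, fun y hy => ?_⟩
  by_contra hlt
  rw [not_le] at hlt
  let B : Finset (Set (Fin d → ℝ)) :=
    M.toFinset.filter (fun H => ParallelTo A H ∧ y (dir H) < M.count H) ∪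
      (M.filter (fun H => ¬ ParallelTo A H)).toFinset
  have hB : ∀ H ∈ B, IsHyperplane H := by
    intro H hH
    rcases Finset.mem_union.mp hH with h1 | h1
    · exact hM.1 H (Multiset.mem_toFinset.mp (Finset.mem_filter.mp h1).1)
    · exact hM.1 H (Multiset.mem_of_mem_filter (Multiset.mem_toFinset.mp h1))
  have hBc : B.card < n :=
    lt_of_le_of_lt ((Finset.card_union_le _ _).trans
      (Nat.add_le_add_left (Multiset.toFinset_card_le _) _)) hlt
  obtain ⟨x, hx, hxB⟩ := uncovered d n B hB hBc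
  have hk := hM.2 x hx
  let S : Finset (Set (Fin d → ℝ)) := M.toFinset.filter (fun H => (fun i => (x i : ℝ)) ∈ H)
  have hS1 : ∀ H ∈ S, ParallelTo A H ∧ M.count H ≤ y (dir H) := by
    intro H hH
    obtain ⟨h1, h2⟩ := Finset.mem_filter.mp hH
    have h3 : H ∉ B := fun h => hxB H h h2
    have h4 : ParallelTo A H := by
      by_contra h5
      exact h3 (Finset.mem_union_right _ (Multiset.mem_toFinset.mpr
        (Multiset.mem_filter.mpr ⟨Multiset.mem_toFinset.mp h1, h5⟩)))
    refine ⟨h4, ?_⟩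
    by_contra h5
    exact h3 (Finset.mem_union_left _ (Finset.mem_filter.mpr ⟨h1, h4, not_le.mp h5⟩))
  have hcard : Multiset.card (M.filter (fun H => (fun i => (x i : ℝ)) ∈ H)) = ∑ H ∈ S, M.count H := by
    rw [← Multiset.toFinset_sum_count_eq, Multiset.toFinset_filter]
    refine Finset.sum_congr rfl fun H hH => ?_
    exact Multiset.count_filter_of_pos (Finset.mem_filter.mp hH).2
  have hinj : Set.InjOn dir (S : Set (Set (Fin d → ℝ))) := by
    intro H hH H' hH' heq
    obtain ⟨c, hc⟩ := hdir H (hS1 H hH).1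
    obtain ⟨c', hc'⟩ := hdir H' (hS1 H' hH').1
    have h1 : (fun i => (x i : ℝ)) ∈ H := (Finset.mem_filter.mp hH).2
    have h2 : (fun i => (x i : ℝ)) ∈ H' := (Finset.mem_filter.mp hH').2
    rw [hc] at h1
    rw [hc'] at h2
    have h3 : ∑ i, A (dir H) i * (x i : ℝ) = c := h1
    have h4 : ∑ i, A (dir H') i * (x i : ℝ) = c' := h2
    rw [← heq] at h4
    have h5 : c = c' := h3.symm.trans h4
    rw [hc, hc', heq, h5]
  have h6 : ∑ H ∈ S, M.count H ≤ ∑ o, y o :=
    calc ∑ H ∈ S, M.count H ≤ ∑ H ∈ S, y (dir H) := Finset.sum_le_sum fun H hH => (hS1 H hH).2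
      _ = ∑ o ∈ S.image dir, y o := (Finset.sum_image hinj).symm
      _ ≤ ∑ o, y o := Finset.sum_le_sum_of_subset (Finset.subset_univ _)
  rw [hcard] at hk
  omega

end Pool.Agent.Helper910.Tri
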