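import Mathlib
import Pool.Agent.Helper910.TgDefs
import Pool.Agent.Helper910.TgH
import Pool.Agent.Helper910.TgC

namespace Pool.Agent.Helper910.Tri

open Finset

lemma fstar_nonneg (m d : ℕ) : 0 ≤ fstar m d := by
  refine Real.sInf_nonneg ?_
  rintro W ⟨s, w, h1, -, rfl⟩
  exact Finset.sum_nonneg fun H hH => (h1 H hH).2

open Classical in
theorem mainG {d n k : ℕ} (hd : 1 ≤ d) (hn : 1 ≤ n) (hk : 1 ≤ k) (A : Option (Fin d) → Fin d → ℝ)
    {M : Multiset (Set (Fin d → ℝ))} (hM : IsCover d n k M) :
    fstar k d * n ≤ Multiset.card M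
      + (Multiset.card (M.filter (fun H => ¬ ParallelTo A H)) : ℝ) * (fstar k d - 1) := by
  have ha := fstar_nonneg k d
  obtain ⟨a, hadef⟩ : ∃ a, a = fstar k d := ⟨_, rfl⟩
  obtain ⟨r, hr⟩ : ∃ r, r = Multiset.card (M.filter (fun H => ¬ ParallelTo A H)) := ⟨_, rfl⟩
  have hsum : Multiset.card (M.filter (fun H => ParallelTo A H)) + r = Multiset.card M := by
    rw [hr, ← Multiset.card_add, Multiset.filter_add_not]
  rw [← hadef] at ha ⊢
  rw [← hr]
  have hrM : (r : ℝ) ≤ Multiset.card M := by
    exact_mod_cast (by omega : r ≤ Multiset.card M)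
  rcases le_or_gt n r with hnr | hnr
  · have h1 : (n : ℝ) ≤ r := by exact_mod_cast hnr
    nlinarith
  · obtain ⟨dir, hdir⟩ := coreG A hM
    rw [← hr] at hdir
    have hpos : (0 : ℝ) < (n : ℝ) - r := by
      have : (r : ℝ) < n := by exact_mod_cast hnr
      linarith
    obtain ⟨s, hs⟩ : ∃ s, s = M.toFinset.filter (fun H => ParallelTo A H) := ⟨_, rfl⟩
    obtain ⟨t, ht⟩ : ∃ t : Finset (Set (Fin d → ℝ) × ℕ),
        t = (s ×ˢ Finset.range k).filter (fun p => p.2 < M.count p.1) := ⟨_, rfl⟩
    have hcard : t.card ≤ Multiset.card (M.filter (fun H => ParallelTo A H)) := by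
      have h1 : t.card ≤ (s.sigma (fun H => Finset.range (M.count H))).card := by
        refine Finset.card_le_card_of_injOn (fun p => (⟨p.1, p.2⟩ : Σ _ : Set (Fin d → ℝ), ℕ)) ?_ ?_
        · intro p hp
          have hp' : p ∈ t := hp
          rw [ht, Finset.mem_filter, Finset.mem_product] at hp'
          have : (⟨p.1, p.2⟩ : Σ _ : Set (Fin d → ℝ), ℕ) ∈
              s.sigma (fun H => Finset.range (M.count H)) := by
            rw [Finset.mem_sigma]
            exact ⟨hp'.1.1, Finset.mem_range.2 hp'.2⟩
          exact this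
        · rintro ⟨p1, p2⟩ _ ⟨q1, q2⟩ _ h
          simp only [Sigma.mk.injEq, heq_eq_eq] at h
          rw [h.1, h.2]
      refine h1.trans (le_of_eq ?_)
      rw [Finset.card_sigma, ← Multiset.toFinset_sum_count_eq, Multiset.toFinset_filter, hs]
      refine Finset.sum_congr rfl fun H hH => ?_
      rw [Finset.card_range, Multiset.count_filter_of_pos (Finset.mem_filter.1 hH).2]
    have hmain : a ≤ ∑ j ∈ t, (fun _ : Set (Fin d → ℝ) × ℕ => 1 / ((n : ℝ) - r)) j := by
      rw [hadef]
      refine fstar_le_of_family t (fun p => plane d k (dir p.1) p.2) _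
        (fun j _ => plane_isHyperplane hd k _ _) (fun j _ => by positivity) ?_
      intro x hx
      have hx' : ∑ i, x i < k := hx
      obtain ⟨y, hy0, hyi⟩ : ∃ y : Option (Fin d) → ℕ, y none = k - 1 - ∑ i, x i ∧
          ∀ i, y (some i) = x i :=
        ⟨fun o => match o with
          | none => k - 1 - ∑ i, x i
          | some i => x i, rfl, fun _ => rfl⟩
      have hysum : ∑ o, y o < k := by
        rw [Fintype.sum_option, hy0]
        simp only [hyi]
        omega
      have h1 := hdir y hysum
      obtain ⟨F, hF⟩ : ∃ F, F = M.toFinset.filter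
        (fun H => ParallelTo A H ∧ y (dir H) < M.count H) := ⟨_, rfl⟩
      rw [← hF] at h1
      have h2 : F.card ≤ (t.filter (fun j => (fun i => (x i : ℝ)) ∈
          (fun p : Set (Fin d → ℝ) × ℕ => plane d k (dir p.1) p.2) j)).card := by
        refine Finset.card_le_card_of_injOn (fun H => (H, y (dir H))) ?_ ?_
        · intro H hH
          have hH' : H ∈ F := hH
          rw [hF, Finset.mem_filter] at hH'
          have hyk : y (dir H) < k :=
            lt_of_le_of_lt (Finset.single_le_sum (f := y) (fun _ _ => Nat.zero_le _)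
              (Finset.mem_univ (dir H))) hysum
          have : (H, y (dir H)) ∈ t.filter (fun j => (fun i => (x i : ℝ)) ∈
              (fun p : Set (Fin d → ℝ) × ℕ => plane d k (dir p.1) p.2) j) := by
            rw [Finset.mem_filter, ht, Finset.mem_filter, Finset.mem_product, hs,
              Finset.mem_filter]
            refine ⟨⟨⟨⟨hH'.1, hH'.2.1⟩, Finset.mem_range.2 hyk⟩, hH'.2.2⟩, ?_⟩
            show (fun i => (x i : ℝ)) ∈ plane d k (dir H) (y (dir H))
            cases hdH : dir H with
            | none =>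
              show ∑ i, (x i : ℝ) = (k : ℝ) - 1 - (y none : ℕ)
              rw [hy0, Nat.cast_sub (by omega), Nat.cast_sub hk, Nat.cast_sum, Nat.cast_one]
              ring
            | some i =>
              show (x i : ℝ) = (y (some i) : ℕ)
              rw [hyi]
          exact this
        · intro H _ H' _ h
          exact (Prod.mk.inj h).1
      rw [Finset.sum_const, nsmul_eq_mul]
      have h3 : (n : ℝ) - r ≤ ((t.filter (fun j => (fun i => (x i : ℝ)) ∈
          (fun p : Set (Fin d → ℝ) × ℕ => plane d k (dir p.1) p.2) j)).card : ℝ) := by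
        have h4 : (n : ℝ) ≤ F.card + r := by exact_mod_cast h1
        have h5 : (F.card : ℝ) ≤ ((t.filter (fun j => (fun i => (x i : ℝ)) ∈
          (fun p : Set (Fin d → ℝ) × ℕ => plane d k (dir p.1) p.2) j)).card : ℝ) := by
          exact_mod_cast h2
        linarith
      rw [mul_one_div, le_div_iff₀ hpos, one_mul]
      exact h3
    rw [Finset.sum_const, nsmul_eq_mul, mul_one_div, le_div_iff₀ hpos] at hmain
    have h6 : (t.card : ℝ) + r ≤ Multiset.card M := by
      have : t.card + r ≤ Multiset.card M := by omega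
      exact_mod_cast this
    nlinarith

end Pool.Agent.Helper910.Tri
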