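import Mathlib
import Pool.Agent.Helper910.TgDefs
import Pool.Agent.Helper910.TgH

namespace Pool.Agent.Helper910.Tri

open Finset

def lowerG_y {ι : Type} {b : ℕ} (e : ι ≃ Fin b ⊕ Fin b) (m t : ℕ) (o : ι) : ℕ :=
  if (e o).isLeft then t else m - t

theorem lowerG_sum {ι : Type} [Fintype ι] {b : ℕ} (e : ι ≃ Fin b ⊕ Fin b) {m t : ℕ} (ht : t ≤ m) :
    ∑ o, lowerG_y e m t o = b * m := by
  have h1 : ∑ o, lowerG_y e m t o = ∑ x : Fin b ⊕ Fin b, (if x.isLeft then t else m - t) :=
    Equiv.sum_comp e fun x : Fin b ⊕ Fin b => if x.isLeft then t else m - t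
  rw [h1, Fintype.sum_sum_type]
  simp only [Sum.isLeft_inl, Sum.isLeft_inr, if_true, Bool.false_eq_true, if_false, sum_const,
    card_univ, Fintype.card_fin, smul_eq_mul]
  rw [← mul_add]
  congr 1
  omega

theorem lowerG_count {ι : Type} {b : ℕ} (e : ι ≃ Fin b ⊕ Fin b) (m c : ℕ) (o : ι) :
    ((range (m + 1)).filter fun t => lowerG_y e m t o < c).card ≤ c := by
  have h1 : ∀ g : ℕ → ℕ, Set.InjOn g ↑(range (m + 1)) →
      ((range (m + 1)).filter fun t => g t < c).card ≤ c := by
    intro g hg
    have h2 := card_le_card_of_injOn (s := (range (m + 1)).filter fun t => g t < c)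
      (t := range c) g (by
        intro t ht
        rw [mem_coe, mem_filter] at ht
        rw [mem_coe, mem_range]
        exact ht.2)
      (by
        intro x hx y hy hxy
        rw [mem_coe, mem_filter] at hx hy
        exact hg (mem_coe.2 hx.1) (mem_coe.2 hy.1) hxy)
    rwa [card_range] at h2
  have h3 : Set.InjOn (fun t => m - t) ↑(range (m + 1)) := by
    intro x hx y hy hxy
    rw [mem_coe, mem_range] at hx hy
    simp only at hxy
    omega
  have h4 : Set.InjOn (fun t : ℕ => t) ↑(range (m + 1)) := fun x _ y _ h => h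
  by_cases hi : (e o).isLeft = true
  · have := h1 _ h4
    simpa only [lowerG_y, if_pos hi] using this
  · have := h1 _ h3
    simpa only [lowerG_y, if_neg hi] using this

open Classical in
theorem lowerG {d b m n : ℕ} (hb : 1 ≤ b) {ι : Type} [Fintype ι] (hι : Fintype.card ι = 2 * b) (A : ι → Fin d → ℝ)
    {M : Multiset (Set (Fin d → ℝ))} (hM : IsCover d n (b * m + 1) M) :
    (m + 1) * n ≤ Multiset.card M + m * Multiset.card (M.filter (fun H => ¬ ParallelTo A H)) := by
  have hne : Nonempty ι := Fintype.card_pos_iff.1 (by omega)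
  have hcard : Fintype.card ι = Fintype.card (Fin b ⊕ Fin b) := by
    rw [Fintype.card_sum, Fintype.card_fin]
    omega
  have e : ι ≃ Fin b ⊕ Fin b := Fintype.equivOfCardEq hcard
  obtain ⟨dir, hdir⟩ := coreG A hM
  set r := Multiset.card (M.filter (fun H => ¬ ParallelTo A H)) with hr
  have h1 : ∀ t ∈ range (m + 1), n ≤
      (M.toFinset.filter (fun H => ParallelTo A H ∧ lowerG_y e m t (dir H) < M.count H)).card
        + r := by
    intro t ht
    rw [mem_range] at ht
    apply hdir
    rw [lowerG_sum e (by omega)]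
    omega
  have h2 := sum_le_sum h1
  rw [sum_const, card_range, smul_eq_mul, sum_add_distrib, sum_const, card_range, smul_eq_mul] at h2
  have h3 : ∑ t ∈ range (m + 1),
      (M.toFinset.filter (fun H => ParallelTo A H ∧ lowerG_y e m t (dir H) < M.count H)).card ≤
      ∑ H ∈ M.toFinset.filter (fun H => ParallelTo A H), M.count H := by
    have h4 : ∀ t, (M.toFinset.filter
        (fun H => ParallelTo A H ∧ lowerG_y e m t (dir H) < M.count H)).card =
        ∑ H ∈ M.toFinset.filter (fun H => ParallelTo A H),
          (if lowerG_y e m t (dir H) < M.count H then 1 else 0) := by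
      intro t
      rw [← filter_filter, card_filter]
    rw [sum_congr rfl fun t _ => h4 t, sum_comm]
    refine sum_le_sum fun H _ => ?_
    rw [← card_filter]
    exact lowerG_count e m _ _
  have h5 : ∑ H ∈ M.toFinset.filter (fun H => ParallelTo A H), M.count H =
      Multiset.card (M.filter (fun H => ParallelTo A H)) := by
    rw [← Multiset.toFinset_sum_count_eq (M.filter (fun H => ParallelTo A H)),
      Multiset.toFinset_filter]
    refine sum_congr rfl fun H hH => ?_
    rw [mem_filter] at hH
    rw [Multiset.count_filter_of_pos hH.2]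
  have h6 : Multiset.card (M.filter (fun H => ParallelTo A H)) + r = Multiset.card M := by
    rw [hr, ← Multiset.card_add, Multiset.filter_add_not]
  rw [h5] at h3
  nlinarith

end Pool.Agent.Helper910.Tri
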