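import Mathlib
import Pool.Agent.Helper910.TgDefs
import Pool.Agent.Helper910.TgH

namespace Pool.Agent.Helper910.Tri

open Finset

open Classical in
theorem symG {d n k : ℕ} (hd : 1 ≤ d) (hn : 1 ≤ n) (hk : 1 ≤ k) (A : Option (Fin d) → Fin d → ℝ)
    {M : Multiset (Set (Fin d → ℝ))} (hM : IsCover d n k M) (hF : ∀ H ∈ M, ParallelTo A H) :
    ∃ N : Multiset (Set (Fin d → ℝ)), IsCover d k n N ∧ (∀ H ∈ N, FacetParallel H) ∧ Multiset.card N ≤ Multiset.card M := by
  obtain ⟨dir, hdir⟩ := coreG A hM
  let P : Finset (Σ _ : Set (Fin d → ℝ), ℕ) :=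
    M.toFinset.sigma (fun H => Finset.range (min (M.count H) k))
  let g : (Σ _ : Set (Fin d → ℝ), ℕ) → Set (Fin d → ℝ) := fun p => plane d k (dir p.1) p.2
  refine ⟨P.val.map g, ⟨?_, ?_⟩, ?_, ?_⟩
  · intro H hH
    obtain ⟨p, _, rfl⟩ := Multiset.mem_map.1 hH
    exact plane_isHyperplane hd _ _ _
  · intro x hx
    have hx' : ∑ i, x i < k := hx
    let y : Option (Fin d) → ℕ := fun o => Option.elim o (k - 1 - ∑ i, x i) x
    have hysum : ∑ o, y o < k := by
      rw [Fintype.sum_option]
      simp only [y, Option.elim]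
      omega
    have h1 := hdir y hysum
    have h2 : M.filter (fun H => ¬ ParallelTo A H) = 0 := by
      rw [Multiset.filter_eq_nil]
      intro H hH h
      exact h (hF H hH)
    rw [h2, Multiset.card_zero, add_zero] at h1
    refine h1.trans ?_
    rw [Multiset.filter_map, Multiset.card_map]
    have h3 : Multiset.filter ((fun H => (fun i => (x i : ℝ)) ∈ H) ∘ g) P.val =
        (P.filter (fun p => (fun i => (x i : ℝ)) ∈ g p)).val := by
      rw [Finset.filter_val]
      rfl
    rw [h3, Finset.card_val]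
    refine Finset.card_le_card_of_injOn
      (fun H => (⟨H, y (dir H)⟩ : Σ _ : Set (Fin d → ℝ), ℕ)) ?_ ?_
    · intro H hH
      rw [Finset.mem_coe, Finset.mem_filter] at hH
      obtain ⟨hHM, _, hlt⟩ := hH
      have hyk : y (dir H) < k :=
        lt_of_le_of_lt (Finset.single_le_sum (f := y) (fun _ _ => Nat.zero_le _)
          (Finset.mem_univ (dir H))) hysum
      rw [Finset.mem_coe, Finset.mem_filter, Finset.mem_sigma, Finset.mem_range]
      refine ⟨⟨hHM, lt_min hlt hyk⟩, ?_⟩
      show (fun i => (x i : ℝ)) ∈ plane d k (dir H) (y (dir H))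
      generalize dir H = o
      cases o with
      | none =>
        show ∑ i, ((x i : ℕ) : ℝ) = (k : ℝ) - 1 - ((k - 1 - ∑ i, x i : ℕ) : ℝ)
        have h4 : (k - 1 - ∑ i, x i) + ∑ i, x i + 1 = k := by omega
        have h5 : ((k - 1 - ∑ i, x i : ℕ) : ℝ) + ∑ i, ((x i : ℕ) : ℝ) + 1 = (k : ℝ) := by
          rw [← Nat.cast_sum]
          exact_mod_cast h4
        linarith
      | some i => rfl
    · intro H _ H' _ h
      exact congrArg (fun p => p.1) h
  · intro H hH
    obtain ⟨p, _, rfl⟩ := Multiset.mem_map.1 hH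
    show FacetParallel (plane d k (dir p.1) p.2)
    generalize dir p.1 = o
    cases o with
    | none => exact Or.inr ⟨_, rfl⟩
    | some i => exact Or.inl ⟨i, _, rfl⟩
  · rw [Multiset.card_map, Finset.card_val, Finset.card_sigma]
    calc ∑ H ∈ M.toFinset, (Finset.range (min (M.count H) k)).card
        ≤ ∑ H ∈ M.toFinset, M.count H := by
          refine Finset.sum_le_sum fun H _ => ?_
          rw [Finset.card_range]
          exact min_le_left _ _
      _ = Multiset.card M := Multiset.toFinset_sum_count_eq M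

end Pool.Agent.Helper910.Tri

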