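import Mathlib
import Pool.Agent.Helper910.TgDefs
import Pool.Agent.Helper910.TgI
import Pool.Agent.Helper910.TgK

namespace Pool.Agent.Helper910.Tri

open Finset

/-- the normal vectors of the facets of the simplex -/
noncomputable def facetA (d : ℕ) : Option (Fin d) → Fin d → ℝ
  | none => fun _ => 1
  | some i => Pi.single i 1

theorem parallelTo_facetA {d : ℕ} (H : Set (Fin d → ℝ)) : ParallelTo (facetA d) H ↔ FacetParallel H := by
  classical
  constructor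
  · rintro ⟨o, c, rfl⟩
    cases o with
    | none => right; exact ⟨c, by simp [facetA]⟩
    | some i => left; exact ⟨i, c, by simp [facetA, Pi.single_apply]⟩
  · rintro (⟨i, c, rfl⟩ | ⟨c, rfl⟩)
    · exact ⟨some i, c, by simp [facetA, Pi.single_apply]⟩
    · exact ⟨none, c, by simp [facetA]⟩

/-- the set of cardinalities of facet-parallel covers -/
def SF (n d k : ℕ) : Set ℕ :=
  {c | ∃ M : Multiset (Set (Fin d → ℝ)), IsCover d n k M ∧ (∀ H ∈ M, FacetParallel H) ∧ Multiset.card M = c}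

theorem SF_le {d n k : ℕ} (hd : 1 ≤ d) (hn : 1 ≤ n) (hk : 1 ≤ k) (A : Option (Fin d) → Fin d → ℝ)
    {M : Multiset (Set (Fin d → ℝ))} (hM : IsCover d n k M) (hF : ∀ H ∈ M, ParallelTo A H) :
    ∃ c ∈ SF k d n, c ≤ Multiset.card M := by
  obtain ⟨N, hN, hNF, hc⟩ := symG hd hn hk A hM hF
  exact ⟨_, ⟨N, hN, hNF, rfl⟩, hc⟩

theorem SF_sym {d n k : ℕ} (hd : 1 ≤ d) (hn : 1 ≤ n) (hk : 1 ≤ k) {c : ℕ} (hc : c ∈ SF n d k) :
    ∃ c' ∈ SF k d n, c' ≤ c := by
  obtain ⟨M, hM, hF, rfl⟩ := hc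
  exact SF_le hd hn hk (facetA d) hM (fun H hH => (parallelTo_facetA H).2 (hF H hH))

theorem symF {d n k : ℕ} (hd : 1 ≤ d) (hn : 1 ≤ n) (hk : 1 ≤ k) : fF n d k = fF k d n := by
  have key : ∀ n k : ℕ, 1 ≤ n → 1 ≤ k → (SF n d k).Nonempty → sInf (SF k d n) ≤ sInf (SF n d k) := by
    intro n k hn hk hne
    obtain ⟨c', hc', hle⟩ := SF_sym hd hn hk (Nat.sInf_mem hne)
    exact (Nat.sInf_le hc').trans hle
  show sInf (SF n d k) = sInf (SF k d n)
  by_cases h : (SF n d k).Nonempty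
  · have h2 : (SF k d n).Nonempty := by
      obtain ⟨c, hc⟩ := h
      obtain ⟨c', hc', _⟩ := SF_sym hd hn hk hc
      exact ⟨c', hc'⟩
    exact le_antisymm (key k n hk hn h2) (key n k hn hk h)
  · have h2 : ¬ (SF k d n).Nonempty := by
      intro h3
      apply h
      obtain ⟨c, hc⟩ := h3
      obtain ⟨c', hc', _⟩ := SF_sym hd hk hn hc
      exact ⟨c', hc'⟩
    rw [Set.not_nonempty_iff_eq_empty] at h h2
    rw [h, h2]

theorem fF_le_of_parallel {d n k : ℕ} (hd : 1 ≤ d) (hn : 1 ≤ n) (hk : 1 ≤ k) (A : Option (Fin d) → Fin d → ℝ)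
    {M : Multiset (Set (Fin d → ℝ))} (hM : IsCover d n k M) (hF : ∀ H ∈ M, ParallelTo A H) :
    fF n d k ≤ Multiset.card M := by
  obtain ⟨c, hc, hle⟩ := SF_le hd hn hk A hM hF
  obtain ⟨c', hc', hle'⟩ := SF_sym hd hk hn hc
  exact (Nat.sInf_le hc').trans (hle'.trans hle)

end Pool.Agent.Helper910.Tri
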