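import Mathlib
import Pool.Agent.Helper910.TgDefs
import Pool.Agent.Helper910.TgN

namespace Pool.Agent.Helper910.Tri

open Finset

theorem sl_meet {d k : ℕ} {H : Set (Fin d → ℝ)} (hF : FacetParallel H) {x : Fin d → ℕ}
    (hx : x ∈ Grid d k) (hxH : (fun i => (x i : ℝ)) ∈ H) :
    ∃ (o : Option (Fin d)) (j : ℕ), j < k ∧ H = plane d k o j := by
  have hx' : ∑ i, x i < k := hx
  rcases hF with ⟨i, c, rfl⟩ | ⟨c, rfl⟩
  · refine ⟨some i, x i, lt_of_le_of_lt (Finset.single_le_sum (fun _ _ => Nat.zero_le _)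
      (Finset.mem_univ i)) hx', ?_⟩
    have h1 : (x i : ℝ) = c := hxH
    show {y : Fin d → ℝ | y i = c} = {y | y i = (x i : ℝ)}
    rw [h1]
  · refine ⟨none, k - 1 - ∑ i, x i, by omega, ?_⟩
    have h1 : ∑ i, (x i : ℝ) = c := hxH
    have h2 : ((k - 1 - ∑ i, x i : ℕ) : ℝ) = (k : ℝ) - 1 - c := by
      rw [Nat.cast_sub (by omega), Nat.cast_sub (by omega), ← h1]
      push_cast
      ring
    show {y : Fin d → ℝ | ∑ i, y i = c} = {y | ∑ i, y i = (k : ℝ) - 1 - ((k - 1 - ∑ i, x i : ℕ) : ℝ)}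
    rw [h2]
    have h3 : (k : ℝ) - 1 - ((k : ℝ) - 1 - c) = c := by ring
    rw [h3]

open Classical in
theorem sl_filter {d₀ : ℕ} (s : Finset (Set (Fin d₀ → ℝ))) (g : Set (Fin d₀ → ℝ) → ℕ)
    (p : Set (Fin d₀ → ℝ) → Prop) :
    Multiset.card ((∑ H ∈ s, Multiset.replicate (g H) H).filter p) = ∑ H ∈ s.filter p, g H := by
  induction s using Finset.induction_on with
  | empty => simp
  | insert a s ha ih =>
    rw [Finset.sum_insert ha, Multiset.filter_add, Multiset.card_add, ih, Finset.filter_insert]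
    by_cases hp : p a
    · rw [if_pos hp, Finset.sum_insert (by simp [ha])]
      congr 1
      rw [Multiset.filter_eq_self.2 (fun b hb => by rw [Multiset.eq_of_mem_replicate hb]; exact hp),
        Multiset.card_replicate]
    · rw [if_neg hp]
      rw [Multiset.filter_eq_nil.2 (fun b hb => by rw [Multiset.eq_of_mem_replicate hb]; exact hp)]
      simp

theorem sl_up {d n k : ℕ} {W : ℝ} (hW : W ∈ FFracValues k d) :
    ∃ M : Multiset (Set (Fin d → ℝ)), IsCover d k n M ∧ (∀ H ∈ M, FacetParallel H) ∧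
      (Multiset.card M : ℝ) ≤ n * W + (d + 1) * k := by
  classical
  obtain ⟨s, w, h1, h2, rfl⟩ := hW
  let s' := s.filter (fun H => ∃ x ∈ Grid d k, (fun i => ((x i : ℕ) : ℝ)) ∈ H)
  let g : Set (Fin d → ℝ) → ℕ := fun H => ⌈(n : ℝ) * w H⌉₊
  have hmemN : ∀ H ∈ ∑ H ∈ s', Multiset.replicate (g H) H, H ∈ s' := by
    intro H hH
    rw [Multiset.mem_sum] at hH
    obtain ⟨a, ha, hb⟩ := hH
    rw [Multiset.eq_of_mem_replicate hb]
    exact ha
  have hs' : s'.card ≤ (d + 1) * k := by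
    have hsub : s' ⊆ (Finset.univ ×ˢ Finset.range k).image
        (fun q : Option (Fin d) × ℕ => plane d k q.1 q.2) := by
      intro H hH
      obtain ⟨hHs, x, hx, hxH⟩ := Finset.mem_filter.1 hH
      obtain ⟨o, j, hj, he⟩ := sl_meet (h1 H hHs).2.1 hx hxH
      exact Finset.mem_image.2 ⟨(o, j), Finset.mem_product.2 ⟨Finset.mem_univ _,
        Finset.mem_range.2 hj⟩, he.symm⟩
    refine (Finset.card_le_card hsub).trans (Finset.card_image_le.trans (le_of_eq ?_))
    rw [Finset.card_product, Finset.card_univ, Fintype.card_option, Fintype.card_fin,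
      Finset.card_range]
  refine ⟨∑ H ∈ s', Multiset.replicate (g H) H, ⟨?_, ?_⟩, ?_, ?_⟩
  · intro H hH
    exact (h1 H (Finset.mem_filter.1 (hmemN H hH)).1).1
  · intro x hx
    have e1 := sl_filter s' g (fun H => (fun i => ((x i : ℕ) : ℝ)) ∈ H)
    have h3 := h2 x hx
    have h4 : (n : ℝ) ≤ ((∑ H ∈ s'.filter (fun H => (fun i => ((x i : ℕ) : ℝ)) ∈ H), g H : ℕ) : ℝ) := by
      have h5 : s.filter (fun H => (fun i => ((x i : ℕ) : ℝ)) ∈ H) ⊆
          s'.filter (fun H => (fun i => ((x i : ℕ) : ℝ)) ∈ H) := by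
        intro H hH
        obtain ⟨a, b⟩ := Finset.mem_filter.1 hH
        exact Finset.mem_filter.2 ⟨Finset.mem_filter.2 ⟨a, x, hx, b⟩, b⟩
      push_cast
      calc (n : ℝ) = n * 1 := (mul_one _).symm
        _ ≤ n * ∑ H ∈ s.filter (fun H => (fun i => ((x i : ℕ) : ℝ)) ∈ H), w H :=
            mul_le_mul_of_nonneg_left h3 (Nat.cast_nonneg _)
        _ = ∑ H ∈ s.filter (fun H => (fun i => ((x i : ℕ) : ℝ)) ∈ H), n * w H := by
            rw [Finset.mul_sum]
        _ ≤ ∑ H ∈ s.filter (fun H => (fun i => ((x i : ℕ) : ℝ)) ∈ H), (g H : ℝ) :=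
            Finset.sum_le_sum fun H _ => Nat.le_ceil _
        _ ≤ ∑ H ∈ s'.filter (fun H => (fun i => ((x i : ℕ) : ℝ)) ∈ H), (g H : ℝ) :=
            Finset.sum_le_sum_of_subset_of_nonneg h5 (fun _ _ _ => Nat.cast_nonneg _)
    have h6 : n ≤ ∑ H ∈ s'.filter (fun H => (fun i => ((x i : ℕ) : ℝ)) ∈ H), g H := by
      exact_mod_cast h4
    rw [← e1] at h6
    convert h6 using 3
  · intro H hH
    exact (h1 H (Finset.mem_filter.1 (hmemN H hH)).1).2.1
  · have e2 : Multiset.card (∑ H ∈ s', Multiset.replicate (g H) H) = ∑ H ∈ s', g H := by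
      clear_value s'
      clear hs' hmemN
      induction s' using Finset.induction_on with
      | empty => simp
      | insert a t ha ih =>
        rw [Finset.sum_insert ha, Finset.sum_insert ha, Multiset.card_add, ih,
          Multiset.card_replicate]
    rw [e2]
    push_cast
    calc ∑ H ∈ s', (g H : ℝ) ≤ ∑ H ∈ s', (n * w H + 1) := by
          refine Finset.sum_le_sum fun H hH => ?_
          have h0 := (h1 H (Finset.mem_filter.1 hH).1).2.2
          exact (Nat.ceil_lt_add_one (by positivity)).le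
      _ = n * ∑ H ∈ s', w H + s'.card := by
          rw [Finset.sum_add_distrib, Finset.mul_sum, Finset.sum_const, nsmul_eq_mul, mul_one]
      _ ≤ n * ∑ H ∈ s, w H + (d + 1) * k := by
          refine add_le_add (mul_le_mul_of_nonneg_left (Finset.sum_le_sum_of_subset_of_nonneg
            (Finset.filter_subset _ _) (fun H hH _ => (h1 H hH).2.2)) (Nat.cast_nonneg _)) ?_
          exact_mod_cast hs'

theorem sl_ne {d k : ℕ} (hd : 1 ≤ d) : (FFracValues k d).Nonempty := by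
  classical
  refine ⟨_, (Finset.range k).image (fun j => plane d k (some ⟨0, hd⟩) j), fun _ => 1, ?_, ?_, rfl⟩
  · intro H hH
    obtain ⟨j, _, rfl⟩ := Finset.mem_image.1 hH
    exact ⟨plane_isHyperplane hd k _ j, Or.inl ⟨⟨0, hd⟩, j, rfl⟩, zero_le_one⟩
  · intro x hx
    have hx' : ∑ i, x i < k := hx
    have h1 : x ⟨0, hd⟩ < k := lt_of_le_of_lt (Finset.single_le_sum (fun _ _ => Nat.zero_le _)
      (Finset.mem_univ _)) hx'
    have h2 : plane d k (some ⟨0, hd⟩) (x ⟨0, hd⟩) ∈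
        ((Finset.range k).image (fun j => plane d k (some ⟨0, hd⟩) j)).filter
          (fun H => (fun i => ((x i : ℕ) : ℝ)) ∈ H) := by
      refine Finset.mem_filter.2 ⟨Finset.mem_image.2 ⟨_, Finset.mem_range.2 h1, rfl⟩, ?_⟩
      show ((x ⟨0, hd⟩ : ℕ) : ℝ) = ((x ⟨0, hd⟩ : ℕ) : ℝ)
      rfl
    exact Finset.single_le_sum (f := fun _ : Set (Fin d → ℝ) => (1 : ℝ))
      (fun _ _ => zero_le_one) h2

theorem sl_bdd (d k : ℕ) : BddBelow (FFracValues k d) := by
  refine ⟨0, ?_⟩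
  rintro W ⟨s, w, h1, _, rfl⟩
  exact Finset.sum_nonneg fun H hH => (h1 H hH).2.2

theorem slopeF {d n k : ℕ} (hd : 1 ≤ d) (hn : 1 ≤ n) (hk : 1 ≤ k) :
    Fstar k d * n ≤ fF n d k ∧ (fF n d k : ℝ) ≤ Fstar k d * n + (d + 1) * k := by
  classical
  rw [symF hd hn hk]
  have hn0 : (0 : ℝ) < n := by exact_mod_cast hn
  have hle : ∀ W ∈ FFracValues k d, (fF k d n : ℝ) ≤ n * W + (d + 1) * k := by
    intro W hW
    obtain ⟨M, m1, m2, m3⟩ := sl_up (n := n) hW
    refine le_trans ?_ m3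
    have : fF k d n ≤ Multiset.card M := Nat.sInf_le ⟨M, m1, m2, rfl⟩
    exact_mod_cast this
  constructor
  · obtain ⟨W, hW⟩ := sl_ne (k := k) hd
    obtain ⟨M0, m1, m2, _⟩ := sl_up (n := n) hW
    have hmem : fF k d n ∈ {c | ∃ M : Multiset (Set (Fin d → ℝ)), IsCover d k n M ∧
        (∀ H ∈ M, FacetParallel H) ∧ Multiset.card M = c} := Nat.sInf_mem ⟨_, M0, m1, m2, rfl⟩
    obtain ⟨M, c1, c2, c3⟩ := hmem
    rw [← c3, ← le_div_iff₀ hn0]
    refine csInf_le (sl_bdd d k) ⟨M.toFinset, fun H => (M.count H : ℝ) / n, ?_, ?_, ?_⟩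
    · intro H hH
      have hH' := Multiset.mem_toFinset.1 hH
      exact ⟨c1.1 H hH', c2 H hH', by positivity⟩
    · intro x hx
      have h3 := c1.2 x hx
      rw [← Finset.sum_div, le_div_iff₀ hn0, one_mul]
      have h4 : Multiset.card (M.filter (fun H => (fun i => ((x i : ℕ) : ℝ)) ∈ H)) =
          ∑ H ∈ M.toFinset.filter (fun H => (fun i => ((x i : ℕ) : ℝ)) ∈ H), M.count H := by
        rw [← Multiset.toFinset_sum_count_eq, Multiset.toFinset_filter]
        refine Finset.sum_congr rfl fun H hH => ?_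
        exact Multiset.count_filter_of_pos
          (p := fun H => (fun i => ((x i : ℕ) : ℝ)) ∈ H) (Finset.mem_filter.1 hH).2
      have h5 : n ≤ ∑ H ∈ M.toFinset.filter (fun H => (fun i => ((x i : ℕ) : ℝ)) ∈ H),
          M.count H := by
        rw [← h4]
        convert h3 using 3
      exact_mod_cast h5
    · rw [← Finset.sum_div]
      congr 1
      rw [← Multiset.toFinset_sum_count_eq]
      push_cast
      rfl
  · have h1 : ((fF k d n : ℝ) - (d + 1) * k) / n ≤ Fstar k d := by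
      refine le_csInf (sl_ne hd) fun W hW => ?_
      rw [div_le_iff₀ hn0]
      linarith [hle W hW]
    rw [div_le_iff₀ hn0] at h1
    linarith

theorem fstar_le_Fstar {d k : ℕ} (hd : 1 ≤ d) (hk : 1 ≤ k) : fstar k d ≤ Fstar k d := by
  refine csInf_le_csInf ?_ (sl_ne hd) ?_
  · refine ⟨0, ?_⟩
    rintro W ⟨s, w, h1, _, rfl⟩
    exact Finset.sum_nonneg fun H hH => (h1 H hH).2
  · rintro W ⟨s, w, h1, h2, rfl⟩
    exact ⟨s, w, fun H hH => ⟨(h1 H hH).1, (h1 H hH).2.2⟩, h2, rfl⟩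

end Pool.Agent.Helper910.Tri
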