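import Mathlib
import Pool.Agent.Helper910.TgDefs
import Pool.Agent.Helper910.TgC

namespace Pool.Agent.Helper910.Tri

open Finset

theorem sum_range_real (n : ℕ) : ∑ j ∈ range n, (j : ℝ) = (n : ℝ) * (n - 1) / 2 := by
  induction n with
  | zero => simp
  | succ n ih =>
    rw [Finset.sum_range_succ, ih]
    push_cast
    ring

theorem fstar_upper {d k : ℕ} (hd : 1 ≤ d) (hk : 1 ≤ k) :
    fstar k d ≤ (2 * (k : ℝ) + d - 1) / (d + 1) := by
  classical
  obtain ⟨K, rfl⟩ : ∃ K, k = K + 1 := ⟨k - 1, by omega⟩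
  obtain ⟨s, h1, h2⟩ : ∃ s : ℕ, 2 * K < (d + 1) * s ∧ (d + 1) * s ≤ 2 * K + (d + 1) := by
    refine ⟨2 * K / (d + 1) + 1, Nat.lt_mul_div_succ _ (Nat.succ_pos d), ?_⟩
    rw [mul_add, mul_one]
    exact Nat.add_le_add_right (Nat.mul_div_le (2 * K) (d + 1)) _
  have h1R : (2 * (K : ℝ)) < ((d : ℝ) + 1) * s := by exact_mod_cast h1
  have h2R : ((d : ℝ) + 1) * s ≤ 2 * K + (d + 1) := by exact_mod_cast h2
  have hK0 : (0 : ℝ) ≤ K := Nat.cast_nonneg _
  have hd0 : (0 : ℝ) < (d : ℝ) + 1 := by positivity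
  have hD : (0 : ℝ) < ((d : ℝ) + 1) * s - K := by linarith
  have hnn : ∀ j ∈ (univ : Finset (Option (Fin d))) ×ˢ range s,
      0 ≤ ((s : ℝ) - (j.2 : ℕ)) / (((d : ℝ) + 1) * s - K) := by
    intro z hz
    have hz2 : z.2 < s := Finset.mem_range.1 (Finset.mem_product.1 hz).2
    have : (z.2 : ℝ) ≤ s := by exact_mod_cast hz2.le
    exact div_nonneg (by linarith) hD.le
  have hfam := fstar_le_of_family (d := d) (m := K + 1) (ι := Option (Fin d) × ℕ)
    (univ ×ˢ range s) (fun z => plane d (K + 1) z.1 z.2)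
    (fun z => ((s : ℝ) - z.2) / (((d : ℝ) + 1) * s - K))
    (fun z _ => plane_isHyperplane hd _ _ _) hnn ?_
  · refine hfam.trans ?_
    have hsum : ∑ z ∈ (univ : Finset (Option (Fin d))) ×ˢ range s, ((s : ℝ) - z.2) / (((d : ℝ) + 1) * s - K)
        = ((d : ℝ) + 1) * (s * (s + 1) / 2 / (((d : ℝ) + 1) * s - K)) := by
      rw [Finset.sum_product]
      simp only
      rw [Finset.sum_const, Finset.card_univ, Fintype.card_option, Fintype.card_fin, nsmul_eq_mul,
        ← Finset.sum_div, Finset.sum_sub_distrib, Finset.sum_const, Finset.card_range, nsmul_eq_mul,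
        sum_range_real]
      push_cast
      congr 2
      ring
    rw [hsum, ← mul_div_assoc, div_le_div_iff₀ hD hd0]
    push_cast
    nlinarith [mul_nonneg (sub_nonneg.2 h1R.le) (sub_nonneg.2 h2R)]
  · intro x hx
    have hx' : ∑ i, x i < K + 1 := hx
    set y : Option (Fin d) → ℕ := fun o => o.elim (K - ∑ i, x i) x with hy
    have hysum : ∑ o, y o = K := by
      rw [Fintype.sum_option]
      simp only [hy, Option.elim]
      omega
    have hmem : ∀ o, (fun i => (x i : ℝ)) ∈ plane d (K + 1) o (y o) := by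
      intro o
      cases o with
      | none =>
        simp only [plane, hy, Option.elim, Set.mem_ofPred_eq]
        rw [Nat.cast_sub (by omega)]
        push_cast
        ring
      | some i =>
        simp only [plane, hy, Option.elim, Set.mem_ofPred_eq]
    have himg : ((univ : Finset (Option (Fin d))).filter (fun o => y o < s)).image (fun o => (o, y o)) ⊆
        ((univ : Finset (Option (Fin d))) ×ˢ range s).filter
          (fun z => (fun i => (x i : ℝ)) ∈ plane d (K + 1) z.1 z.2) := by
      intro z hz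
      obtain ⟨o, ho, rfl⟩ := Finset.mem_image.1 hz
      rw [Finset.mem_filter, Finset.mem_product]
      exact ⟨⟨Finset.mem_univ _, Finset.mem_range.2 (Finset.mem_filter.1 ho).2⟩, hmem o⟩
    refine le_trans ?_ (Finset.sum_le_sum_of_subset_of_nonneg himg
      (fun z hz _ => hnn z (Finset.mem_filter.1 hz).1))
    rw [Finset.sum_image (fun o _ o' _ h => (Prod.mk.inj h).1)]
    simp only
    rw [← Finset.sum_div, le_div_iff₀ hD, one_mul, Finset.sum_filter]
    have hle : ∑ o, ((s : ℝ) - y o) ≤ ∑ o, (if y o < s then ((s : ℝ) - y o) else 0) := by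
      refine Finset.sum_le_sum fun o _ => ?_
      split_ifs with h
      · exact le_rfl
      · have : (s : ℝ) ≤ y o := by exact_mod_cast not_lt.1 h
        linarith
    refine le_trans (le_of_eq ?_) hle
    rw [Finset.sum_sub_distrib, Finset.sum_const, Finset.card_univ, Fintype.card_option, Fintype.card_fin,
      nsmul_eq_mul]
    have : ∑ o, (y o : ℝ) = (K : ℝ) := by exact_mod_cast hysum
    rw [this]
    push_cast
    ring

end Pool.Agent.Helper910.Tri
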