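import Mathlib
import Pool.Agent.Helper910.TgDefs
import Pool.Agent.Helper910.TgA

namespace Pool.Agent.Helper910.Tri

open Finset

theorem f_ge {d n k : ℕ} (hn : 1 ≤ n) (hk : 1 ≤ k) {M : Multiset (Set (Fin d → ℝ))} (hM : IsCover d n k M) :
    n + k - 1 ≤ Multiset.card M := by
  classical
  by_contra hcon
  rw [not_le] at hcon
  obtain ⟨h1, h2⟩ := hM
  have h0 : (0 : Fin d → ℕ) ∈ Grid d n := by
    simp only [Grid, Set.mem_ofPred_eq, Pi.zero_apply, Finset.sum_const_zero]
    omega
  have h3 : k ≤ Multiset.card M := (h2 0 h0).trans (Multiset.card_le_card (Multiset.filter_le _ _))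
  obtain ⟨R, hR, hRc⟩ : ∃ R ≤ M, Multiset.card R = k - 1 := by
    refine ⟨((M.toList.take (k - 1) : List _) : Multiset (Set (Fin d → ℝ))), ?_, ?_⟩
    · conv_rhs => rw [← Multiset.coe_toList M]
      exact Multiset.coe_le.2 (List.take_sublist _ _).subperm
    · rw [Multiset.coe_card, List.length_take, Multiset.length_toList]
      omega
  have hM' : (M - R) + R = M := Multiset.sub_add_cancel hR
  have hc' : Multiset.card (M - R) = Multiset.card M - (k - 1) := by
    rw [Multiset.card_sub hR, hRc]
  obtain ⟨x, hx, hxn⟩ := uncovered d n (M - R).toFinset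
    (fun H hH => h1 H (Multiset.mem_of_le (Multiset.sub_le_self _ _) (Multiset.mem_toFinset.1 hH)))
    (lt_of_le_of_lt (Multiset.toFinset_card_le _) (by omega))
  have h4 := h2 x hx
  have h5 : Multiset.filter (fun H => (fun i => (x i : ℝ)) ∈ H) (M - R) = 0 := by
    rw [Multiset.filter_eq_nil]
    intro H hH
    exact hxn H (Multiset.mem_toFinset.2 hH)
  have h6 : Multiset.filter (fun H => (fun i => (x i : ℝ)) ∈ H) M =
      Multiset.filter (fun H => (fun i => (x i : ℝ)) ∈ H) R := by
    conv_lhs => rw [← hM']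
    rw [Multiset.filter_add, h5, zero_add]
  have h7 : Multiset.card (Multiset.filter (fun H => (fun i => (x i : ℝ)) ∈ H) R) ≤ k - 1 := by
    rw [← hRc]
    exact Multiset.card_le_card (Multiset.filter_le _ _)
  have h8 : k ≤ Multiset.card (Multiset.filter (fun H => (fun i => (x i : ℝ)) ∈ H) M) := by
    convert h4
  rw [h6] at h8
  omega

end Pool.Agent.Helper910.Tri
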