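import Mathlib
import Pool.Agent.Helper910.TgDefs
import Pool.Agent.Helper910.TgC

namespace Pool.Agent.Helper910.Tri

open Finset

theorem fstar_small {d k : ℕ} (hd : 1 ≤ d) (hk : 1 ≤ k) (hkd : k ≤ d + 1) :
    fstar k d ≤ ((d : ℝ) + 1) / ((d : ℝ) + 2 - k) := by
  classical
  have hkR : (k : ℝ) ≤ (d : ℝ) + 1 := by exact_mod_cast hkd
  have hc0 : 0 < (d : ℝ) + 2 - k := by linarith
  have h := fstar_le_of_family (d := d) (m := k) (Finset.univ : Finset (Option (Fin d)))
    (fun o => plane d k o 0) (fun _ => 1 / ((d : ℝ) + 2 - k))
    (fun o _ => plane_isHyperplane hd k o 0) (fun _ _ => by positivity) (by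
      intro x hx
      rw [Finset.sum_const, nsmul_eq_mul]
      have hx' : ∑ i, x i < k := hx
      obtain ⟨A, hA⟩ : ∃ A : Finset (Fin d), A = Finset.univ.filter (fun i => x i = 0) := ⟨_, rfl⟩
      have hAc : d ≤ A.card + ∑ i, x i := by
        have h1 : A.card + (Finset.univ.filter (fun i => ¬ x i = 0)).card = d := by
          rw [hA, Finset.card_filter_add_card_filter_not, Finset.card_univ, Fintype.card_fin]
        have h2 : (Finset.univ.filter (fun i => ¬ x i = 0)).card ≤ ∑ i, x i := by
          rw [Finset.card_filter]
          refine Finset.sum_le_sum fun i _ => ?_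
          split_ifs with h3
          · exact Nat.zero_le _
          · omega
        omega
      have hsome : ∀ i ∈ A, (fun i => ((x i : ℕ) : ℝ)) ∈ plane d k (some i) 0 := by
        intro i hi
        rw [hA, Finset.mem_filter] at hi
        show ((x i : ℕ) : ℝ) = ((0 : ℕ) : ℝ)
        rw [hi.2]
      have hcard : d + 2 ≤ (Finset.univ.filter (fun o : Option (Fin d) =>
          (fun i => ((x i : ℕ) : ℝ)) ∈ plane d k o 0)).card + k := by
        by_cases hs : ∑ i, x i = k - 1
        · have hnone : (fun i => ((x i : ℕ) : ℝ)) ∈ plane d k none 0 := by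
            show ∑ i, ((x i : ℕ) : ℝ) = (k : ℝ) - 1 - ((0 : ℕ) : ℝ)
            have h3 : ((∑ i, x i : ℕ) : ℝ) = ((k - 1 : ℕ) : ℝ) := by rw [hs]
            rw [Nat.cast_sub hk] at h3
            push_cast at h3 ⊢
            linarith
          have hsub : insert none (A.map Function.Embedding.some) ⊆
              Finset.univ.filter (fun o : Option (Fin d) =>
                (fun i => ((x i : ℕ) : ℝ)) ∈ plane d k o 0) := by
            intro o ho
            rw [Finset.mem_filter]
            refine ⟨Finset.mem_univ _, ?_⟩
            rcases Finset.mem_insert.1 ho with rfl | ho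
            · exact hnone
            · obtain ⟨i, hi, rfl⟩ := Finset.mem_map.1 ho
              exact hsome i hi
          have h4 := Finset.card_le_card hsub
          rw [Finset.card_insert_of_notMem (by simp), Finset.card_map] at h4
          omega
        · have hsub : A.map Function.Embedding.some ⊆
              Finset.univ.filter (fun o : Option (Fin d) =>
                (fun i => ((x i : ℕ) : ℝ)) ∈ plane d k o 0) := by
            intro o ho
            rw [Finset.mem_filter]
            refine ⟨Finset.mem_univ _, ?_⟩
            obtain ⟨i, hi, rfl⟩ := Finset.mem_map.1 ho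
            exact hsome i hi
          have h4 := Finset.card_le_card hsub
          rw [Finset.card_map] at h4
          omega
      have hcR : (d : ℝ) + 2 - k ≤ ((Finset.univ.filter (fun o : Option (Fin d) =>
          (fun i => ((x i : ℕ) : ℝ)) ∈ plane d k o 0)).card : ℝ) := by
        have : ((d + 2 : ℕ) : ℝ) ≤ (((Finset.univ.filter (fun o : Option (Fin d) =>
          (fun i => ((x i : ℕ) : ℝ)) ∈ plane d k o 0)).card + k : ℕ) : ℝ) := by exact_mod_cast hcard
        push_cast at this
        linarith
      calc (1 : ℝ) = ((d : ℝ) + 2 - k) * (1 / ((d : ℝ) + 2 - k)) := by field_simp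
        _ ≤ _ := by
          refine mul_le_mul_of_nonneg_right ?_ (by positivity)
          convert hcR)
  refine h.trans (le_of_eq ?_)
  rw [Finset.sum_const, nsmul_eq_mul, Finset.card_univ, Fintype.card_option, Fintype.card_fin]
  push_cast
  ring

end Pool.Agent.Helper910.Tri
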